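import Mathlib

/-! MP_26628e_mp: this file joins several modules to save build time. -/

section S_H82_IC_Defs

/-!
# MP_c4c051_pr, project IC: definitions of the abstract (finite graph) part

A graph `Γ : Gr V E` has edges labelled by `E` (finite in all sums), `V` is any type.  An edge configuration is
`ω : Finset E` (the open edges).  Flows are functions `η : E → A` (`A = ZMod 2`, or `ZMod 2 × ZMod 2`).
All definitions use classical decidability inside, except that sums over functions on `E` carry `[DecidableEq E]`.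
-/

set_option autoImplicit false

open Finset

namespace H82.IC

/-- A graph: every edge label `e` has two ends `s e`, `r e`. -/
structure Gr (V E : Type*) where
  s : E → V
  r : E → V

section Basic
variable {V E : Type*}

/-- `x` and `y` are the two ends of an edge of `ω`. -/
def Gr.Adj (Γ : Gr V E) (ω : Set E) (x y : V) : Prop :=
  ∃ e ∈ ω, (Γ.s e = x ∧ Γ.r e = y) ∨ (Γ.s e = y ∧ Γ.r e = x)

/-- `x` and `y` are connected by edges of `ω`. -/
def Gr.Conn (Γ : Gr V E) (ω : Set E) (x y : V) : Prop :=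
  Relation.ReflTransGen (Γ.Adj ω) x y

/-- the cluster of `o`. -/
def Gr.cl (Γ : Gr V E) (ω : Set E) (o : V) : Set V := {v | Γ.Conn ω o v}

/-- the edges with at least one end in `C`. -/
def Gr.tch (Γ : Gr V E) (C : Set V) : Set E := {e | Γ.s e ∈ C ∨ Γ.r e ∈ C}

/-- the edges with both ends in `C`. -/
def Gr.ins (Γ : Gr V E) (C : Set V) : Set E := {e | Γ.s e ∈ C ∧ Γ.r e ∈ C}

/-- real indicator of a proposition. -/
noncomputable def ind (p : Prop) : ℝ := open Classical in if p then 1 else 0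

/-- the source set `{u,v}` mod 2 (it is `0` if `u = v`). -/
noncomputable def src (u v : V) : V → ZMod 2 :=
  open Classical in fun x => (if x = u then 1 else 0) + (if x = v then 1 else 0)

/-- pair of source functions. -/
def pr (S T : V → ZMod 2) : V → ZMod 2 × ZMod 2 := fun x => (S x, T x)

/-- edge parameters in `[0,1]`. -/
def T01 (t : E → ℝ) : Prop := ∀ e, 0 ≤ t e ∧ t e ≤ 1

/-- `t` with the edges of `K` removed (parameter `0`). -/
noncomputable def off (K : Set E) (t : E → ℝ) : E → ℝ :=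
  open Classical in fun e => if e ∈ K then 0 else t e

/-- `t` with the edges of `η` forced open (parameter `1`) and the edges of `E1 \ η` removed (parameter `0`). -/
noncomputable def setT (E1 η : Finset E) (t : E → ℝ) : E → ℝ :=
  open Classical in fun e => if e ∈ η then 1 else if e ∈ E1 then 0 else t e

end Basic

section Flows
variable {V E : Type*} [Fintype E] {A : Type*} [AddCommGroup A]

/-- boundary of a flow. -/
noncomputable def Gr.bd (Γ : Gr V E) (η : E → A) : V → A :=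
  open Classical in
  fun x => ∑ e, ((if Γ.s e = x then η e else 0) + (if Γ.r e = x then η e else 0))

end Flows

section Sums
variable {V E : Type*} [Fintype E] [DecidableEq E]

/-- general trace sum: flows `η : E → A` with boundary `S`, configurations `ω`, local weights `w e a b`
(`a` = value of the flow on `e`, `b = true` iff `e` is open), observable `f ω`. -/
noncomputable def Gr.trc {A : Type*} [AddCommGroup A] [Fintype A] (Γ : Gr V E)
    (w : E → A → Bool → ℝ) (S : V → A) (f : Finset E → ℝ) : ℝ :=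
  ∑ η : E → A, ∑ ω : Finset E, ind (Γ.bd η = S) * (f ω * ∏ e, w e (η e) (decide (e ∈ ω)))

/-- flows mod 2 with boundary `S` and product weight. -/
noncomputable def Gr.zz (Γ : Gr V E) (p : E → ZMod 2 → ℝ) (S : V → ZMod 2) : ℝ :=
  ∑ η : E → ZMod 2, ind (Γ.bd η = S) * ∏ e, p e (η e)

/-- high temperature weight. -/
noncomputable def hp (t : E → ℝ) (e : E) (a : ZMod 2) : ℝ := if a = 0 then 1 else t e

/-- `z_t(S) = ∑_{bd η = S} ∏_{η e = 1} t e`. -/
noncomputable def Gr.z (Γ : Gr V E) (t : E → ℝ) (S : V → ZMod 2) : ℝ := Γ.zz (hp t) S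

/-- single trace (FK) local weights. -/
noncomputable def wFK (t : E → ℝ) (e : E) (a : ZMod 2) (b : Bool) : ℝ :=
  if b = true then t e else (if a = 0 then 1 - t e else 0)

/-- double trace local weights. -/
noncomputable def wDT (t : E → ℝ) (e : E) (a : ZMod 2 × ZMod 2) (b : Bool) : ℝ :=
  if b = true then (if a.1 = a.2 then t e ^ 2 else t e) else (if a = 0 then 1 - t e ^ 2 else 0)

/-- double trace local weights, first flow not allowed on `F` (domination version). -/
noncomputable def wFV (F : Finset E) (t : E → ℝ) (e : E) (a : ZMod 2 × ZMod 2) (b : Bool) : ℝ :=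
  if e ∈ F then
    (if a.1 = 0 then
      (if b = true then
        (if a.2 = 0 then Real.sqrt (1 - t e ^ 2) - (1 - t e ^ 2) else t e * Real.sqrt (1 - t e ^ 2))
       else (if a.2 = 0 then 1 - t e ^ 2 else 0))
     else 0)
  else wDT t e a b

/-- mixed double trace local weights: first flow only on `K`. -/
noncomputable def wMX (K : Finset E) (t : E → ℝ) (e : E) (a : ZMod 2 × ZMod 2) (b : Bool) : ℝ :=
  if e ∈ K then wDT t e a b
  else (if a.1 = 0 then (if b = true then (if a.2 = 0 then 0 else t e) else (if a.2 = 0 then 1 else 0)) else 0)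

/-- `w` on the edges of `K`, `δ_(0,closed)` elsewhere. -/
noncomputable def wIn {A : Type*} [AddCommGroup A] (K : Set E) (w : E → A → Bool → ℝ)
    (e : E) (a : A) (b : Bool) : ℝ :=
  open Classical in if e ∈ K then w e a b else (if a = 0 ∧ b = false then 1 else 0)

/-- `w` off the edges of `K`, `δ_(0,closed)` on `K`. -/
noncomputable def wOut {A : Type*} [AddCommGroup A] (K : Set E) (w : E → A → Bool → ℝ)
    (e : E) (a : A) (b : Bool) : ℝ :=
  open Classical in if e ∈ K then (if a = 0 ∧ b = false then 1 else 0) else w e a b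

/-- number of flows mod 2 inside `ω` with boundary `S`. -/
noncomputable def Gr.kapS (Γ : Gr V E) (S : V → ZMod 2) (ω : Finset E) : ℝ :=
  ∑ η : E → ZMod 2, ind (Γ.bd η = S ∧ ∀ e, η e ≠ 0 → e ∈ ω)

/-- number of even subgraphs of `ω`. -/
noncomputable def Gr.kap (Γ : Gr V E) (ω : Finset E) : ℝ := Γ.kapS 0 ω

/-- FK-Ising sum (unnormalised) and expectation. -/
noncomputable def Gr.fkS (Γ : Gr V E) (t : E → ℝ) (f : Finset E → ℝ) : ℝ := Γ.trc (wFK t) 0 f

noncomputable def Gr.fkE (Γ : Gr V E) (t : E → ℝ) (f : Finset E → ℝ) : ℝ := Γ.fkS t f / Γ.z t 0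

/-- two point function `⟨u v⟩_t`. -/
noncomputable def Gr.tp (Γ : Gr V E) (t : E → ℝ) (u v : V) : ℝ := Γ.z t (src u v) / Γ.z t 0

/-- normalised double trace sum. -/
noncomputable def Gr.sg (Γ : Gr V E) (t : E → ℝ) (S T : V → ZMod 2) (f : Finset E → ℝ) : ℝ :=
  Γ.trc (wDT t) (pr S T) f / (Γ.z t 0) ^ 2

/-- normalised double trace sum, `F`-version. -/
noncomputable def Gr.sgF (Γ : Gr V E) (F : Finset E) (t : E → ℝ) (S T : V → ZMod 2)
    (f : Finset E → ℝ) : ℝ :=
  Γ.trc (wFV F t) (pr S T) f / (Γ.z t 0) ^ 2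

/-- ends of the edges of `F`. -/
noncomputable def Gr.vF (Γ : Gr V E) (F : Finset E) : Finset V :=
  open Classical in F.image Γ.s ∪ F.image Γ.r

end Sums

end H82.IC

end S_H82_IC_Defs

section S_H82_IC_LDefs

/-!
# MP_c4c051_pr, project IC: the lattice, the problem's finite volume measures and events

`{0,1}^𝔼` is `Ed d → Bool` with `Ed d = ℤ^d × Fin d`; the edge `(x, i)` has ends `x` and `x + e_i`.
-/

set_option autoImplicit false

open Finset Filter MeasureTheory Topology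

namespace H82.IC

abbrev Vx (d : ℕ) := Fin d → ℤ
abbrev Ed (d : ℕ) := (Fin d → ℤ) × Fin d
abbrev Cf (d : ℕ) := Ed d → Bool

/-- the lattice `ℤ^d`. -/
def Zl (d : ℕ) : Gr (Vx d) (Ed d) where
  s e := e.1
  r e := e.1 + Pi.single e.2 1

/-- nearest neighbours. -/
def Zadj {d : ℕ} (x y : Vx d) : Prop := ∃ i : Fin d, y = x + Pi.single i 1 ∨ x = y + Pi.single i 1

/-- `Λ_n = [-n,n]^d ∩ ℤ^d`. -/
noncomputable def bx (d n : ℕ) : Finset (Vx d) := Fintype.piFinset (fun _ => Finset.Icc (-(n : ℤ)) n)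

/-- the edges with both ends in `Λ_n`. -/
noncomputable def bE (d n : ℕ) : Finset (Ed d) :=
  ((bx d n) ×ˢ univ).filter (fun e => e.1 + Pi.single e.2 1 ∈ bx d n)

/-- `∂Λ_n = {x ∈ Λ_n : ∃ y ∉ Λ_n, x ∼ y}`. -/
noncomputable def bdry (d n : ℕ) : Finset (Vx d) :=
  open Classical in (bx d n).filter (fun x => ∃ y, y ∉ bx d n ∧ Zadj x y)

/-- open edges of a configuration. -/
def opn {d : ℕ} (ω : Cf d) : Set (Ed d) := {e | ω e = true}

/-- configuration equal to `ω` on the finite edge set `Λ` and to `ξ` off `Λ`. -/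
noncomputable def glue {d : ℕ} (Λ : Finset (Ed d)) (ξ : Cf d) (ω : Finset (Ed d)) : Cf d :=
  fun e => if e ∈ Λ then decide (e ∈ ω) else ξ e

/-- number of connected components of `(ℤ^d, ω)` meeting `W`. -/
noncomputable def kx {d : ℕ} (W : Finset (Vx d)) (ω : Cf d) : ℕ :=
  Set.ncard {C : Set (Vx d) | ∃ v ∈ W, C = (Zl d).cl (opn ω) v}

/-- the FK-Ising weight `2^{k^ξ(ω)} ∏_{e ∈ Λ} (e^{2β}-1)^{ω(e)}`, `ω ⊆ Λ` the open edges. -/
noncomputable def fkw {d : ℕ} (β : ℝ) (W : Finset (Vx d)) (Λ : Finset (Ed d)) (ξ : Cf d)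
    (ω : Finset (Ed d)) : ℝ :=
  2 ^ kx W (glue Λ ξ ω) * (Real.exp (2 * β) - 1) ^ ω.card

/-- the FK-Ising measure `φ^ξ_{G,β}`, `G = (W, Λ)`, of the event `X`. -/
noncomputable def phiG {d : ℕ} (β : ℝ) (W : Finset (Vx d)) (Λ : Finset (Ed d)) (ξ : Cf d)
    (X : Set (Cf d)) : ℝ :=
  (∑ ω ∈ Λ.powerset, fkw β W Λ ξ ω * ind (glue Λ ξ ω ∈ X)) / ∑ ω ∈ Λ.powerset, fkw β W Λ ξ ω

/-- free (`b = false`) and wired (`b = true`) measures in `Λ_n`. -/
noncomputable def phiB {d : ℕ} (β : ℝ) (n : ℕ) (b : Bool) (X : Set (Cf d)) : ℝ :=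
  phiG β (bx d n) (bE d n) (fun _ => b) X

/-- cylinder events. -/
def Lcl {d : ℕ} (X : Set (Cf d)) : Prop :=
  ∃ F : Finset (Ed d), ∀ ω ω' : Cf d, (∀ e ∈ F, ω e = ω' e) → (ω ∈ X ↔ ω' ∈ X)

/-- increasing events. -/
def Inc {d : ℕ} (X : Set (Cf d)) : Prop :=
  ∀ ω ω' : Cf d, (∀ e, ω e = true → ω' e = true) → ω ∈ X → ω' ∈ X

/-- `{x ↔ y}`. -/
def cn {d : ℕ} (x y : Vx d) : Set (Cf d) := {ω | (Zl d).Conn (opn ω) x y}

/-- `{x ↔ y in Λ_n}`. -/
def cnB {d : ℕ} (n : ℕ) (x y : Vx d) : Set (Cf d) := {ω | (Zl d).Conn (opn ω ∩ bE d n) x y}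

/-- `{u ↔ ∂Λ_n}`. -/
def arm {d : ℕ} (n : ℕ) (u : Vx d) : Set (Cf d) := {ω | ∃ y ∈ bdry d n, (Zl d).Conn (opn ω) u y}

/-- `{0 ↔ ∞}`. -/
def perc (d : ℕ) : Set (Cf d) := {ω | ((Zl d).cl (opn ω) 0).Infinite}

/-- all edges of `S` are open. -/
def up {d : ℕ} (S : Finset (Ed d)) : Set (Cf d) := {ω | ∀ e ∈ S, ω e = true}

/-- all edges of `S` are closed. -/
def dw {d : ℕ} (S : Finset (Ed d)) : Set (Cf d) := {ω | ∀ e ∈ S, ω e = false}

/-- `μ` is the weak limit of the measures in `Λ_n` with free (`b = false`) / wired (`b = true`) boundary condition. -/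
def IsLim {d : ℕ} (β : ℝ) (b : Bool) (μ : Measure (Cf d)) : Prop :=
  IsProbabilityMeasure μ ∧
    ∀ X : Set (Cf d), Lcl X → Tendsto (fun n => phiB β n b X) atTop (𝓝 (μ.real X))

/-- restriction of a graph to a finite set of edges. -/
def Gr.rs {V E : Type*} (Γ : Gr V E) (Λ : Finset E) : Gr V ↥Λ where
  s e := Γ.s e
  r e := Γ.r e

/-- sup norm. -/
noncomputable def nm {d : ℕ} (x : Vx d) : ℕ := univ.sup (fun i => (x i).natAbs)

/-- the box `Λ_N` as an abstract finite graph. -/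
noncomputable def GN (d N : ℕ) : Gr (Vx d) ↥(bE d N) := (Zl d).rs (bE d N)

/-- edges of `Λ_N` not in `Λ_m`. -/
noncomputable def E1 (d m N : ℕ) : Finset ↥(bE d N) := univ.filter (fun e => e.1 ∉ bE d m)

/-- edges of the box as edges of the lattice. -/
noncomputable def vl {E : Type*} {Λ : Finset E} (ω : Finset ↥Λ) : Finset E :=
  ω.map ⟨Subtype.val, Subtype.val_injective⟩

/-- the configuration of `ℤ^d` equal to `ω` in `Λ_m` and to `b` outside `Λ_m`; `ω` a configuration in `Λ_N`. -/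
noncomputable def ext {d : ℕ} (b : Bool) (m N : ℕ) (ω : Finset ↥(bE d N)) : Cf d :=
  glue (bE d m) (fun _ => b) (vl ω)

/-- `F` as a set of edges of `Λ_N`. -/
noncomputable def toN (d N : ℕ) (F : Finset (Ed d)) : Finset ↥(bE d N) :=
  univ.filter (fun e => e.1 ∈ F)

end H82.IC

end S_H82_IC_LDefs

section S_H2_XY_Defs

/-!
# Bilayer XY model (MP_26628e_mp): basic definitions

Everything is about compact abelian groups `X` (finite powers of the circle `Cir = ℝ/2πℤ`) with
their normalised Haar measure `haarP X`, and Gibbs expectations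
`gE H F = (∫ F e^H) / (∫ e^H)` (no minus sign: `H` is minus the energy divided by `T`).
-/

open MeasureTheory Set

noncomputable section

namespace XYB

/-- (instance search needs this non-dependent form of `Pi.borelSpace`) -/
instance borelPi {ι X : Type*} [Countable ι] [TopologicalSpace X] [SecondCountableTopology X]
    [MeasurableSpace X] [BorelSpace X] : BorelSpace (ι → X) := Pi.borelSpace

instance factTwoPi : Fact (0 < 2 * Real.pi) := ⟨Real.two_pi_pos⟩

/-- the circle `ℝ / 2πℤ` -/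
abbrev Cir : Type := AddCircle (2 * Real.pi)

/-- cosine on the circle -/
def cosC (t : Cir) : ℝ := Real.cos_periodic.lift t

/-- sine on the circle -/
def sinC (t : Cir) : ℝ := Real.sin_periodic.lift t

@[simp] lemma cosC_coe (x : ℝ) : cosC (x : Cir) = Real.cos x := Real.cos_periodic.lift_coe x
@[simp] lemma sinC_coe (x : ℝ) : sinC (x : Cir) = Real.sin x := Real.sin_periodic.lift_coe x

lemma continuous_cosC : Continuous cosC :=
  continuous_coinduced_dom.mpr (by
    change Continuous (fun x : ℝ => cosC (x : Cir))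
    simp only [cosC_coe]; exact Real.continuous_cos)

lemma continuous_sinC : Continuous sinC :=
  continuous_coinduced_dom.mpr (by
    change Continuous (fun x : ℝ => sinC (x : Cir))
    simp only [sinC_coe]; exact Real.continuous_sin)

lemma cir_ind {p : Cir → Prop} (h : ∀ x : ℝ, p (x : Cir)) (t : Cir) : p t :=
  QuotientAddGroup.induction_on t h

lemma cosC_add (s t : Cir) : cosC (s + t) = cosC s * cosC t - sinC s * sinC t := by
  induction s using cir_ind with
  | h x =>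
    induction t using cir_ind with
    | h y =>
      change cosC ((x + y : ℝ) : Cir) = _
      simp only [cosC_coe, sinC_coe, Real.cos_add]

lemma sinC_add (s t : Cir) : sinC (s + t) = sinC s * cosC t + cosC s * sinC t := by
  induction s using cir_ind with
  | h x =>
    induction t using cir_ind with
    | h y =>
      change sinC ((x + y : ℝ) : Cir) = _
      simp only [cosC_coe, sinC_coe, Real.sin_add]

@[simp] lemma cosC_neg (s : Cir) : cosC (-s) = cosC s := by
  induction s using cir_ind with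
  | h x =>
    change cosC ((-x : ℝ) : Cir) = _
    simp only [cosC_coe, Real.cos_neg]

@[simp] lemma sinC_neg (s : Cir) : sinC (-s) = -sinC s := by
  induction s using cir_ind with
  | h x =>
    change sinC ((-x : ℝ) : Cir) = _
    simp only [sinC_coe, Real.sin_neg]

@[simp] lemma cosC_zero : cosC 0 = 1 := by
  have := cosC_coe 0; simpa using this

@[simp] lemma sinC_zero : sinC 0 = 0 := by
  have := sinC_coe 0; simpa using this

lemma cosC_sub (s t : Cir) : cosC (s - t) = cosC s * cosC t + sinC s * sinC t := by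
  rw [sub_eq_add_neg, cosC_add]; simp

lemma sinC_sub (s t : Cir) : sinC (s - t) = sinC s * cosC t - cosC s * sinC t := by
  rw [sub_eq_add_neg, sinC_add]; simp; ring

lemma cosC_sq_add_sinC_sq (s : Cir) : cosC s ^ 2 + sinC s ^ 2 = 1 := by
  induction s using cir_ind with
  | h x => simp

lemma cosC_le_one (s : Cir) : cosC s ≤ 1 := by
  induction s using cir_ind with
  | h x => simpa using Real.cos_le_one x

lemma neg_one_le_cosC (s : Cir) : -1 ≤ cosC s := by
  induction s using cir_ind with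
  | h x => simpa using Real.neg_one_le_cos x

lemma abs_cosC_le_one (s : Cir) : |cosC s| ≤ 1 :=
  abs_le.mpr ⟨neg_one_le_cosC s, cosC_le_one s⟩

lemma abs_sinC_le_one (s : Cir) : |sinC s| ≤ 1 := by
  have := cosC_sq_add_sinC_sq s
  exact abs_le_one_iff_mul_self_le_one.mpr (by nlinarith [sq_nonneg (cosC s)])

/-- `cos 2s = 2 cos² s - 1` -/
lemma cosC_two (s : Cir) : cosC (s + s) = 2 * cosC s ^ 2 - 1 := by
  rw [cosC_add]; nlinarith [cosC_sq_add_sinC_sq s]

/-- `1 - cos (a - b) ≤ 2 (1 - cos a) + 2 (1 - cos b)` -/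
lemma one_sub_cosC_sub_le (a b : Cir) :
    1 - cosC (a - b) ≤ 2 * (1 - cosC a) + 2 * (1 - cosC b) := by
  rw [cosC_sub]
  nlinarith [cosC_sq_add_sinC_sq a, cosC_sq_add_sinC_sq b, sq_nonneg (cosC a + cosC b - 2),
    sq_nonneg (sinC a + sinC b)]

section haar

variable (X : Type*) [AddCommGroup X] [TopologicalSpace X] [IsTopologicalAddGroup X]
  [CompactSpace X] [MeasurableSpace X] [BorelSpace X]

/-- normalised Haar measure of a compact abelian group -/
def haarP : Measure X := Measure.addHaarMeasure (⊤ : TopologicalSpace.PositiveCompacts X)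

instance : (haarP X).IsAddHaarMeasure := by unfold haarP; infer_instance

instance : IsProbabilityMeasure (haarP X) := ⟨Measure.addHaarMeasure_self⟩

lemma haarP_cir : haarP Cir = AddCircle.haarAddCircle := rfl

end haar

section gibbs

variable {X : Type*} [AddCommGroup X] [TopologicalSpace X] [IsTopologicalAddGroup X]
  [CompactSpace X] [MeasurableSpace X] [BorelSpace X]

/-- Gibbs measure with density proportional to `e^H` with respect to Haar measure. -/
def gM (H : X → ℝ) : Measure X := (haarP X).tilted H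

/-- Gibbs expectation of `F` with weight `e^H` with respect to Haar measure. -/
def gE (H F : X → ℝ) : ℝ :=
  (∫ x, F x * Real.exp (H x) ∂haarP X) / ∫ x, Real.exp (H x) ∂haarP X

end gibbs

/-- `I₀(b) = ∫ e^{b cos t} dt / 2π` -/
def I0 (b : ℝ) : ℝ := ∫ t : Cir, Real.exp (b * cosC t) ∂haarP Cir

/-! ## Graphs, boxes, energies -/

/-- sites of the `R × R` box -/
abbrev Bx (R : ℕ) : Type := Fin R × Fin R

/-- nearest neighbour edges of the box, each listed once as (left, right) or (bottom, top) -/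
def bE (R : ℕ) : Finset (Bx R × Bx R) :=
  Finset.univ.filter fun e =>
    (e.1.1.val + 1 = e.2.1.val ∧ e.1.2 = e.2.2) ∨ (e.1.1 = e.2.1 ∧ e.1.2.val + 1 = e.2.2.val)

/-- minus the XY energy on a finite graph with edge set `E` -/
def hXY {V : Type} (E : Finset (V × V)) (θ : V → Cir) : ℝ := ∑ e ∈ E, cosC (θ e.2 - θ e.1)

/-- the relative angle of the two layers -/
def ph {V : Type} (θ : Bool → V → Cir) (v : V) : Cir := θ true v - θ false v

/-- minus the energy of a bilayer box: two XY layers with inverse temperature `β` and the pinning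
`(K / |V|) ∑ cos 2φ_v` -/
def hBox {V : Type} [Fintype V] (β K : ℝ) (E : Finset (V × V)) (θ : Bool → V → Cir) : ℝ :=
  β * (hXY E (θ true) + hXY E (θ false))
    + K * ((∑ v, cosC (ph θ v + ph θ v)) / (Fintype.card V : ℝ))

/-- increment of layer `b` along the arm `a` -/
def dArm {C V : Type} (a : (C × V) × (C × V)) (b : Bool) (θ : C → Bool → V → Cir) : Cir :=
  θ a.2.1 b a.2.2 - θ a.1.1 b a.1.2

/-- minus the energy of a system of boxes (cells) `c : C` joined by single edges `a ∈ Ar` (the arms)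
of strength `β₁` -/
def hCell {C V : Type} [Fintype C] [Fintype V] (β K β₁ : ℝ) (E : Finset (V × V))
    (Ar : Finset ((C × V) × (C × V))) (θ : C → Bool → V → Cir) : ℝ :=
  (∑ c, hBox β K E (θ c)) + ∑ f ∈ Ar ×ˢ (Finset.univ : Finset Bool), β₁ * cosC (dArm f.1 f.2 θ)

/-- minus the energy of the bilayer model on the torus `(ZMod L)²`: inverse temperature `β` and
pinning `a ∑ cos 2φ_x` -/
def hTor (L : ℕ) [NeZero L] (β a : ℝ) (θ : Bool → ZMod L × ZMod L → Cir) : ℝ :=
  (∑ b : Bool, ∑ x : ZMod L × ZMod L,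
      (β * cosC (θ b (x.1 + 1, x.2) - θ b x) + β * cosC (θ b (x.1, x.2 + 1) - θ b x)))
    + ∑ x : ZMod L × ZMod L, a * cosC (ph θ x + ph θ x)

/-- the arms between the cells `c : Bx N` of side `R`: right arms from the corner `(R-1,0)` of `c`
to the corner `(0,0)` of `c + e₁`, and up arms from the corner `(0,R-1)` of `c` to the corner
`(0,0)` of `c + e₂` -/
def arms (N R : ℕ) : Finset ((Bx N × Bx R) × (Bx N × Bx R)) :=
  Finset.univ.filter fun a =>
    (a.1.1.1.val + 1 = a.2.1.1.val ∧ a.1.1.2 = a.2.1.2 ∧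
      a.1.2.1.val + 1 = R ∧ a.1.2.2.val = 0 ∧ a.2.2.1.val = 0 ∧ a.2.2.2.val = 0) ∨
    (a.1.1.1 = a.2.1.1 ∧ a.1.1.2.val + 1 = a.2.1.2.val ∧
      a.1.2.1.val = 0 ∧ a.1.2.2.val + 1 = R ∧ a.2.2.1.val = 0 ∧ a.2.2.2.val = 0)

/-- position in the torus of the site `p` of the cell `c` -/
def emb (L : ℕ) {N R : ℕ} (c : Bx N) (p : Bx R) : ZMod L × ZMod L :=
  (((c.1.val * R + p.1.val : ℕ) : ZMod L), ((c.2.val * R + p.2.val : ℕ) : ZMod L))

/-- the marked points of a box: the three corners used by the arms and two special points -/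
def marks {R : ℕ} (p₁ p₂ : Bx R) : Finset (Bx R) :=
  Finset.univ.filter fun v =>
    (v.1.val = 0 ∧ v.2.val = 0) ∨ (v.1.val + 1 = R ∧ v.2.val = 0) ∨ (v.1.val = 0 ∧ v.2.val + 1 = R)
      ∨ v = p₁ ∨ v = p₂

/-- a box configuration is bad if `|cos φ| < κ` at a mark or `cos (φ_m - φ_m') ≤ 0` for two marks -/
def BoxBad {R : ℕ} (κ : ℝ) (p₁ p₂ : Bx R) : Set (Bool → Bx R → Cir) :=
  {θ | (∃ m ∈ marks p₁ p₂, |cosC (ph θ m)| < κ) ∨
    ∃ m ∈ marks p₁ p₂, ∃ m' ∈ marks p₁ p₂, cosC (ph θ m - ph θ m') ≤ 0}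

/-- a cell `c` is bad if its box is bad or one of its (right, up) arms is bad in one layer -/
def CellBad {N R : ℕ} (κ : ℝ) (p₁ p₂ : Bx R) (c : Bx N) : Set (Bx N → Bool → Bx R → Cir) :=
  {θ | θ c ∈ BoxBad κ p₁ p₂ ∨ ∃ a ∈ arms N R, a.1.1 = c ∧ ∃ b : Bool, cosC (dArm a b θ) < 9 / 10}

end XYB

end
end S_H2_XY_Defs

section S_H2_XY_GA

/-!
# GA: normalised Haar measure: surjective homomorphisms and finite powers
-/

open MeasureTheory Set

noncomputable section

namespace XYB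

section

variable {X Y : Type*} [AddCommGroup X] [TopologicalSpace X] [IsTopologicalAddGroup X]
  [CompactSpace X] [MeasurableSpace X] [BorelSpace X] [SecondCountableTopology X]
  [AddCommGroup Y] [TopologicalSpace Y] [IsTopologicalAddGroup Y]
  [CompactSpace Y] [MeasurableSpace Y] [BorelSpace Y] [SecondCountableTopology Y]

/-- a continuous surjective homomorphism preserves the normalised Haar measures -/
lemma mp_surj (φ : X →+ Y) (hc : Continuous φ) (hs : Function.Surjective φ) :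
    MeasurePreserving φ (haarP X) (haarP Y) :=
  AddMonoidHom.measurePreserving hc hs (by simp)

/-- change of variables under a continuous surjective homomorphism -/
lemma integral_comp_surj (φ : X →+ Y) (hc : Continuous φ) (hs : Function.Surjective φ)
    (f : Y → ℝ) (hf : Continuous f) :
    ∫ x, f (φ x) ∂haarP X = ∫ y, f y ∂haarP Y := by
  have h := mp_surj φ hc hs
  rw [← h.map_eq, integral_map h.measurable.aemeasurable
    hf.aestronglyMeasurable]

lemma haarP_unique (μ : Measure X) [μ.IsAddHaarMeasure] [IsProbabilityMeasure μ] :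
    μ = haarP X := by
  have h := AddMonoidHom.measurePreserving (μ := μ) (ν := haarP X) (f := AddMonoidHom.id X)
    continuous_id Function.surjective_id (by simp)
  simpa using h.map_eq

lemma haarP_pi (ι : Type*) [Fintype ι] :
    haarP (ι → X) = Measure.pi (fun _ : ι => haarP X) :=
  (haarP_unique (X := ι → X) (Measure.pi (fun _ : ι => haarP X))).symm

lemma haarP_prod : haarP (X × Y) = (haarP X).prod (haarP Y) :=
  (haarP_unique (X := X × Y) ((haarP X).prod (haarP Y))).symm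

/-- continuous functions are integrable -/
lemma integrable_cont (f : X → ℝ) (hf : Continuous f) : Integrable f (haarP X) :=
  hf.integrable_of_hasCompactSupport (HasCompactSupport.of_compactSpace f)

lemma integral_exp_pos (H : X → ℝ) (hH : Continuous H) : 0 < ∫ x, Real.exp (H x) ∂haarP X := by
  have hi : Integrable (fun x => Real.exp (H x)) (haarP X) :=
    integrable_cont _ (Real.continuous_exp.comp hH)
  rw [integral_pos_iff_support_of_nonneg (fun x => (Real.exp_pos _).le) hi]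
  have : Function.support (fun x => Real.exp (H x)) = univ := by
    ext x; simp [Real.exp_ne_zero]
  rw [this]; simp

lemma gE_eq (H F : X → ℝ) : gE H F = ∫ x, F x ∂(gM H) := by
  unfold gE gM
  rw [integral_tilted]
  rw [div_eq_inv_mul, ← integral_const_mul]
  congr 1
  ext x
  simp only [smul_eq_mul]
  ring

lemma isProb_gM (H : X → ℝ) (hH : Continuous H) : IsProbabilityMeasure (gM H) :=
  isProbabilityMeasure_tilted (integrable_cont _ (Real.continuous_exp.comp hH))

/-- probability of a measurable event as a quotient -/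
lemma gM_real (H : X → ℝ) {A : Set X} (hA : MeasurableSet A) :
    (gM H).real A = (∫ x in A, Real.exp (H x) ∂haarP X) / ∫ x, Real.exp (H x) ∂haarP X := by
  have h := gE_eq H (A.indicator fun _ => (1:ℝ))
  rw [integral_indicator_const _ hA] at h
  simp only [smul_eq_mul, mul_one] at h
  rw [← h]
  unfold gE
  congr 1
  rw [← integral_indicator hA]
  congr 1
  ext x
  by_cases hx : x ∈ A <;> simp [hx]

/-- translation invariance of Haar integrals -/
lemma integral_add_const (f : X → ℝ) (a : X) :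
    ∫ x, f (x + a) ∂haarP X = ∫ x, f x ∂haarP X :=
  integral_add_right_eq_self f a

/-- pushing a Gibbs expectation forward along a surjective homomorphism -/
lemma gE_comp (φ : X →+ Y) (hc : Continuous φ) (hs : Function.Surjective φ)
    (H F : Y → ℝ) (hH : Continuous H) (hF : Continuous F) :
    gE (fun x => H (φ x)) (fun x => F (φ x)) = gE H F := by
  unfold gE
  rw [integral_comp_surj φ hc hs (fun y => F y * Real.exp (H y))
    (hF.mul (Real.continuous_exp.comp hH)),
    integral_comp_surj φ hc hs (fun y => Real.exp (H y)) (Real.continuous_exp.comp hH)]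

end

/-! ## divisibility -/

lemma cir_div : ∀ x : Cir, ∃ y : Cir, y + y = x := by
  intro x
  induction x using cir_ind with
  | h r =>
    refine ⟨((r / 2 : ℝ) : Cir), ?_⟩
    change ((r / 2 + r / 2 : ℝ) : Cir) = _
    congr 1
    ring

lemma pi_div {ι X : Type*} [AddCommGroup X] (h : ∀ x : X, ∃ y : X, y + y = x) :
    ∀ x : ι → X, ∃ y : ι → X, y + y = x := by
  intro x
  choose y hy using fun i => h (x i)
  exact ⟨y, funext hy⟩

end XYB

end
end S_H2_XY_GA

section S_H2_XY_GDef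

/-!
# GDef: the Ginibre cone (definitions only)
-/

open MeasureTheory Set

noncomputable section

namespace XYB

variable {X : Type*} [AddCommGroup X] [TopologicalSpace X] [IsTopologicalAddGroup X]
  [CompactSpace X] [MeasurableSpace X] [BorelSpace X] [SecondCountableTopology X]

/-- kernels of the form `∑ gᵢ(a) gᵢ(b)` -/
def IsK (Φ : X → X → ℝ) : Prop :=
  ∃ (n : ℕ) (g : Fin n → C(X, ℝ)), ∀ a b, Φ a b = ∑ i, g i a * g i b

/-- `F(a+b) + F(a-b)` and `F(a-b) - F(a+b)` are both of the form `∑ gᵢ(a) gᵢ(b)` -/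
def Obs (F : C(X, ℝ)) : Prop :=
  IsK (fun a b : X => F (a + b) + F (a - b)) ∧ IsK (fun a b : X => F (a - b) - F (a + b))

/-- the Ginibre cone: uniform limits of functions satisfying `Obs` -/
def Gin (F : X → ℝ) : Prop :=
  ∃ f ∈ closure {G : C(X, ℝ) | Obs G}, ∀ x, F x = f x

end XYB

end
end S_H2_XY_GDef

section S_H82_BX_Defs

/-!
# MP_26628e_mp, project BX: definitions

The box `ℤ²` is `Vx 2 = Fin 2 → ℤ` (coordinate `0` = horizontal, coordinate `1` = vertical).
-/

set_option autoImplicit false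

open Finset MeasureTheory

namespace H82.BX

open H82.IC XYB

/-! ## configurations, periodic graphs -/

section conf
variable {E α : Type}

/-- open edges of a configuration. -/
def op1 (ω : E → Bool) : Set E := {e | ω e = true}

/-- open the edge `e`. -/
noncomputable def opP (e : E) (ω : E → Bool) : E → Bool :=
  open Classical in Function.update ω e true

/-- cylinder events. -/
def Lc (X : Set (E → α)) : Prop :=
  ∃ F : Finset E, ∀ ω ω' : E → α, (∀ e ∈ F, ω e = ω' e) → (ω ∈ X ↔ ω' ∈ X)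

/-- approximate insertion tolerance. -/
def INSe (ν : Measure (E → Bool)) : Prop :=
  ∀ ε : ℝ, 0 < ε → ∃ C : ℝ, 0 < C ∧ ∀ (e : E) (X : Set (E → Bool)), MeasurableSet X →
    ν.real {ω | opP e ω ∈ X} ≤ C * ν.real X + ε

/-- approximate insertion tolerance for cylinder events. -/
def INSc (ν : Measure (E → Bool)) : Prop :=
  ∀ ε : ℝ, 0 < ε → ∃ C : ℝ, 0 < C ∧ ∀ (e : E) (X : Set (E → Bool)), Lc X →
    ν.real {ω | opP e ω ∈ X} ≤ C * ν.real X + ε

/-- increasing events. -/
def Inc1 (X : Set (E → Bool)) : Prop :=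
  ∀ ω ω' : E → Bool, (∀ e, ω e = true → ω' e = true) → ω ∈ X → ω' ∈ X

end conf

/-- periodic graph over `ℤ²`: vertices `(x, k)`, edges `(x, k')` with ends `(x + sv k', sk k')` and
`(x + rv k', rk k')`. -/
structure PG (K K' : Type) where
  sv : K' → Vx 2
  sk : K' → K
  rv : K' → Vx 2
  rk : K' → K

section per
variable {K K' α : Type}

def PG.gr (P : PG K K') : Gr (Vx 2 × K) (Vx 2 × K') where
  s e := (e.1 + P.sv e.2, P.sk e.2)
  r e := (e.1 + P.rv e.2, P.rk e.2)

/-- shift of a configuration. -/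
def shP (a : Vx 2) (ω : Vx 2 × K' → α) : Vx 2 × K' → α := fun e => ω (e.1 + a, e.2)

/-- tile of radius `r` around `x`. -/
def tl (r : ℕ) (x : Vx 2) : Set (Vx 2 × K) := {z | nm (z.1 - x) ≤ r}

/-- the offsets are small and the tiles are connected. -/
structure PG.Ok (P : PG K K') : Prop where
  small : ∀ k', nm (P.sv k') ≤ 1 ∧ nm (P.rv k') ≤ 1
  conn : ∀ r : ℕ, 1 ≤ r → ∀ a ∈ (tl r 0 : Set (Vx 2 × K)), ∀ b ∈ (tl r 0 : Set (Vx 2 × K)),
    P.gr.Conn (P.gr.ins (tl r 0)) a b

/-- translation invariance. -/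
def TIP [MeasurableSpace α] (ν : Measure (Vx 2 × K' → α)) : Prop :=
  ∀ (a : Vx 2) (X : Set (Vx 2 × K' → α)), MeasurableSet X → ν.real {ω | shP a ω ∈ X} = ν.real X

end per

/-- the square lattice. -/
def Q2 : PG Unit (Fin 2) where
  sv _ := 0
  sk _ := ()
  rv i := Pi.single i 1
  rk _ := ()

/-- the hexagonal lattice of the faces of the triangular lattice: `(x, false)` is the lower right
triangle `x, x+e₀, x+e₀+e₁` of the unit square at `x`, `(x, true)` the upper left triangle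
`x, x+e₁, x+e₀+e₁`.  The edge `(x, k)` is dual to the edge `(x, k)` of `TT`. -/
def HH : PG Bool (Fin 3) where
  sv := ![0, -Pi.single 0 1, 0]
  sk := ![false, false, true]
  rv := ![-Pi.single 1 1, 0, 0]
  rk := ![true, true, false]

/-- the triangular lattice: edges `(x,0) = {x, x+e₀}`, `(x,1) = {x, x+e₁}`, `(x,2) = {x, x+e₀+e₁}`. -/
def TT : Gr (Vx 2) (Vx 2 × Fin 3) where
  s e := e.1
  r e := e.1 + ![Pi.single 0 1, Pi.single 1 1, Pi.single 0 1 + Pi.single 1 1] e.2

/-- faces of the box: the triangles of the squares `x ∈ [-n,n)²`. -/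
noncomputable def FN (n : ℕ) : Finset (Vx 2 × Bool) :=
  (Fintype.piFinset (fun _ => Finset.Ico (-(n : ℤ)) n)) ×ˢ univ

/-- edges of the triangular lattice in `[-n,n]²` (= edges of `HH.gr` that touch `FN n`). -/
noncomputable def EN (n : ℕ) : Finset (Vx 2 × Fin 3) :=
  ((bx 2 n) ×ˢ univ).filter (fun e => TT.r e ∈ bx 2 n)

/-! ## OSSS -/

section osss
variable {I : Type} [Fintype I] [DecidableEq I] {X : I → Type} [∀ i, Fintype (X i)]
  [∀ i, LinearOrder (X i)]

/-- sum of `g` over the configurations equal to `x` on `A`. -/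
noncomputable def cs (A : Finset I) (x : ∀ i, X i) (g : (∀ i, X i) → ℝ) : ℝ :=
  ∑ y, if (∀ i ∈ A, y i = x i) then g y else 0

/-- conditional expectation of `f` given the values of `x` on `A` (unnormalised weight `m`). -/
noncomputable def ce (m f : (∀ i, X i) → ℝ) (A : Finset I) (x : ∀ i, X i) : ℝ :=
  cs A x (fun y => m y * f y) / cs A x m

/-- conditional probability that coordinate `i` is `c`. -/
noncomputable def cp (m : (∀ i, X i) → ℝ) (A : Finset I) (x : ∀ i, X i) (i : I) (c : X i) : ℝ :=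
  cs (insert i A) (Function.update x i c) m / cs A x m

/-- influence of `i` given the values of `x` on `A`. -/
noncomputable def infl (m f : (∀ i, X i) → ℝ) (A : Finset I) (x : ∀ i, X i) (i : I) : ℝ :=
  ∑ c, ∑ c', cp m A x i c * cp m A x i c' *
    |ce m f (insert i A) (Function.update x i c) - ce m f (insert i A) (Function.update x i c')|

/-- exploration: `nx A x` is the next coordinate to be revealed. `rev nx n x` = the revealed set after `n` steps. -/
noncomputable def rev (nx : Finset I → (∀ i, X i) → Option I) (n : ℕ) (x : ∀ i, X i) : Finset I :=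
  match n with
  | 0 => ∅
  | n + 1 => match nx (rev nx n x) x with
    | none => rev nx n x
    | some i => insert i (rev nx n x)

/-- legal explorations. -/
structure Legal (Ad : Finset I → Prop) (nx : Finset I → (∀ i, X i) → Option I) : Prop where
  empty : Ad ∅
  loc : ∀ (A : Finset I) (x y : ∀ i, X i), (∀ i ∈ A, x i = y i) → nx A x = nx A y
  new : ∀ (A : Finset I) (x : ∀ i, X i) (i : I), nx A x = some i → i ∉ A
  adm : ∀ (A : Finset I) (x : ∀ i, X i) (i : I), Ad A → nx A x = some i → Ad (insert i A)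

end osss

/-- quantile function of the weights `p` on the finite linear order `Y` (sum `1`). -/
noncomputable def qt {Y : Type} [Fintype Y] [LinearOrder Y] [Nonempty Y] (p : Y → ℝ) (u : ℝ) : Y :=
  open Classical in
  if h : (univ.filter (fun c : Y => (∑ c' ∈ univ.filter (fun c' => c' < c), p c') ≤ u)).Nonempty
  then (univ.filter (fun c : Y => (∑ c' ∈ univ.filter (fun c' => c' < c), p c') ≤ u)).max' h
  else Classical.arbitrary Y

/-! ## pair weights (Ising) -/

def sg (b : Bool) : ℝ := if b then 1 else -1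

section pw
variable {V E : Type} [Fintype V] [DecidableEq V] [Fintype E] [DecidableEq E]

/-- Ising partition function with pair weights `p + q σ σ'`. -/
noncomputable def Zs (G : Gr V E) (p q : E → ℝ) : ℝ :=
  ∑ σ : V → Bool, ∏ e, (p e + q e * (sg (σ (G.s e)) * sg (σ (G.r e))))

/-- pair weights `1 + t σ σ'`. -/
noncomputable def Zv (G : Gr V E) (t : E → ℝ) : ℝ := Zs G (fun _ => 1) t

/-! ## the chain model -/

/-- vertices of the chain graph: `inl v` the vertices of the graph, `inr (e, false) = z_e`, `inr (e, true) = m_e`. -/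
abbrev SV (V E : Type) := V ⊕ (E × Bool)

/-- the chain graph: the edge `e` is replaced by the chain `s e - z_e - m_e - r e`. -/
def LK (G : Gr V E) : Gr (SV V E) (E × Fin 3) where
  s l := (![Sum.inl (G.s l.1), Sum.inr (l.1, false), Sum.inr (l.1, true)] : Fin 3 → SV V E) l.2
  r l := (![Sum.inr (l.1, false), Sum.inr (l.1, true), Sum.inl (G.r l.1)] : Fin 3 → SV V E) l.2

end pw

/-- alphabet: moduli of cosine and sine, a priori weight. -/
structure Al where
  k : ℕ
  cc : Fin (k + 1) → ℝ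
  ss : Fin (k + 1) → ℝ
  nu : Fin (k + 1) → ℝ

noncomputable def Al.lo (M : Al) : Finset (Fin (M.k + 1)) :=
  open Classical in univ.filter (fun c => M.cc c ≤ 3 / 5 ∧ 4 / 5 ≤ M.ss c)

noncomputable def Al.hi (M : Al) : Finset (Fin (M.k + 1)) :=
  open Classical in univ.filter (fun c => 4 / 5 ≤ M.cc c ∧ M.ss c ≤ 3 / 5)

noncomputable def Al.mi (M : Al) : Finset (Fin (M.k + 1)) :=
  open Classical in univ.filter (fun c => 1 / 3 ≤ M.cc c ∧ 1 / 3 ≤ M.ss c)

structure Al.Ok (M : Al) : Prop where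
  mono : Monotone M.cc
  anti : Antitone M.ss
  cc0 : ∀ c, 0 < M.cc c
  cc1 : ∀ c, M.cc c ≤ 1
  ss0 : ∀ c, 0 < M.ss c
  ss1 : ∀ c, M.ss c ≤ 1
  nu0 : ∀ c, 0 < M.nu c
  nu1 : ∑ c, M.nu c = 1
  lo : 1 / 4 ≤ ∑ c ∈ M.lo, M.nu c
  hi : 1 / 4 ≤ ∑ c ∈ M.hi, M.nu c
  mi : 1 / 4 ≤ ∑ c ∈ M.mi, M.nu c

section chain
variable {V E : Type} [Fintype V] [DecidableEq V] [Fintype E] [DecidableEq E]

/-- `1` at the pinned vertices (`v` and `z_e`), `0` at `m_e`. -/
def pn : SV V E → ℝ
  | Sum.inl _ => 1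
  | Sum.inr (_, false) => 1
  | Sum.inr (_, true) => 0

/-- coupling of the cosine signs on a link. -/
noncomputable def la (G : Gr V E) (M : Al) (b : ℝ) (c : SV V E → Fin (M.k + 1)) (l : E × Fin 3) : ℝ :=
  b * (M.cc (c ((LK G).s l)) * M.cc (c ((LK G).r l)))

/-- coupling of the sine signs on a link. -/
noncomputable def lb (G : Gr V E) (M : Al) (b : ℝ) (c : SV V E → Fin (M.k + 1)) (l : E × Fin 3) : ℝ :=
  b * (M.ss (c ((LK G).s l)) * M.ss (c ((LK G).r l)))

noncomputable def rr (G : Gr V E) (M : Al) (b : ℝ) (c : SV V E → Fin (M.k + 1)) (e : E) : ℝ :=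
  ∏ j : Fin 3, Real.tanh (la G M b c (e, j))

noncomputable def tt (G : Gr V E) (M : Al) (b : ℝ) (c : SV V E → Fin (M.k + 1)) (e : E) : ℝ :=
  ∏ j : Fin 3, Real.tanh (lb G M b c (e, j))

noncomputable def AA (G : Gr V E) (M : Al) (b : ℝ) (c : SV V E → Fin (M.k + 1)) (e : E) : ℝ :=
  ∏ j : Fin 3, (Real.cosh (la G M b c (e, j)) * Real.cosh (lb G M b c (e, j)))

/-- a priori weight with pinning `l cos²`. -/
noncomputable def wv (M : Al) (l : ℝ) (c : SV V E → Fin (M.k + 1)) : ℝ :=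
  ∏ w, (M.nu (c w) * Real.exp (l * pn w * M.cc (c w) ^ 2))

/-- open edges as parameters. -/
def bt (o : E → Bool) : E → ℝ := fun e => if o e then 1 else 0

/-- weight of the moduli `c` and of the edge configuration `o`. -/
noncomputable def W (G : Gr V E) (M : Al) (b l : ℝ) (c : SV V E → Fin (M.k + 1)) (o : E → Bool) : ℝ :=
  wv M l c * (∏ e, AA G M b c e * (if o e then rr G M b c e else 1 - rr G M b c e)) *
    (Zv G (bt o) * Zv G (tt G M b c))

/-- expectation. -/
noncomputable def EW (G : Gr V E) (M : Al) (b l : ℝ)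
    (f : (SV V E → Fin (M.k + 1)) → (E → Bool) → ℝ) : ℝ :=
  (∑ c, ∑ o, W G M b l c o * f c o) / ∑ c, ∑ o, W G M b l c o

/-- weight with the edges of `B` frozen: direct pair weights `1 + o σσ'`, `1 + tB ττ'`. -/
noncomputable def WB (G : Gr V E) (M : Al) (b l : ℝ) (B : Finset E) (tB : E → ℝ)
    (c : SV V E → Fin (M.k + 1)) (o : E → Bool) : ℝ :=
  wv M l c * (∏ e ∈ univ \ B, AA G M b c e * (if o e then rr G M b c e else 1 - rr G M b c e)) *
    (Zv G (bt o) * Zv G (fun e => if e ∈ B then tB e else tt G M b c e))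

/-- unnormalised sum over the configurations equal to `c0` on `A`, `o0` on `B`. -/
noncomputable def SB (G : Gr V E) (M : Al) (b l : ℝ) (A : Finset (SV V E)) (B : Finset E) (tB : E → ℝ)
    (c0 : SV V E → Fin (M.k + 1)) (o0 : E → Bool)
    (f : (SV V E → Fin (M.k + 1)) → (E → Bool) → ℝ) : ℝ :=
  ∑ c, ∑ o, if (∀ w ∈ A, c w = c0 w) ∧ (∀ e ∈ B, o e = o0 e) then WB G M b l B tB c o * f c o else 0

/-- normalised. -/
noncomputable def EB (G : Gr V E) (M : Al) (b l : ℝ) (A : Finset (SV V E)) (B : Finset E) (tB : E → ℝ)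
    (c0 : SV V E → Fin (M.k + 1)) (o0 : E → Bool)
    (f : (SV V E → Fin (M.k + 1)) → (E → Bool) → ℝ) : ℝ :=
  SB G M b l A B tB c0 o0 f / SB G M b l A B tB c0 o0 (fun _ _ => 1)

/-- increasing functions of `(c, o)`. -/
def Mon {k : ℕ} (f : (SV V E → Fin (k + 1)) → (E → Bool) → ℝ) : Prop :=
  ∀ c c' o o', c ≤ c' → o ≤ o' → f c o ≤ f c' o'

/-- every vertex has at most four edge ends. -/
def Deg4 (G : Gr V E) : Prop :=
  ∀ v, (univ.filter (fun e => G.s e = v)).card + (univ.filter (fun e => G.r e = v)).card ≤ 4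

end chain

/-! coordinates of the chain model as one family of alphabets -/

/-- alphabets. -/
def XI (k : ℕ) (V E : Type) : SV V E ⊕ E → Type
  | Sum.inl _ => Fin (k + 1)
  | Sum.inr _ => Bool

instance (k : ℕ) (V E : Type) : ∀ i, Fintype (XI k V E i)
  | Sum.inl _ => inferInstanceAs (Fintype (Fin (k + 1)))
  | Sum.inr _ => inferInstanceAs (Fintype Bool)

instance (k : ℕ) (V E : Type) : ∀ i, LinearOrder (XI k V E i)
  | Sum.inl _ => inferInstanceAs (LinearOrder (Fin (k + 1)))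
  | Sum.inr _ => inferInstanceAs (LinearOrder Bool)

instance (k : ℕ) (V E : Type) : ∀ i, Nonempty (XI k V E i)
  | Sum.inl _ => inferInstanceAs (Nonempty (Fin (k + 1)))
  | Sum.inr _ => inferInstanceAs (Nonempty Bool)

section coord
variable {V E : Type}

def pc {k : ℕ} (x : ∀ i, XI k V E i) : SV V E → Fin (k + 1) := fun w => x (Sum.inl w)
def po {k : ℕ} (x : ∀ i, XI k V E i) : E → Bool := fun e => x (Sum.inr e)

def mkx {k : ℕ} (c : SV V E → Fin (k + 1)) (o : E → Bool) : ∀ i, XI k V E i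
  | Sum.inl w => c w
  | Sum.inr e => o e

/-- admissible revealed sets: order of the revelation `s e, r e`, then `z_e`, then `m_e`, then the bit of `e`. -/
structure Adm (G : Gr V E) (S : Finset (SV V E ⊕ E)) : Prop where
  bit : ∀ e, Sum.inr e ∈ S → Sum.inl (Sum.inr (e, true)) ∈ S
  mm : ∀ e, Sum.inl (Sum.inr (e, true)) ∈ S → Sum.inl (Sum.inr (e, false)) ∈ S
  zz : ∀ e, Sum.inl (Sum.inr (e, false)) ∈ S →
    Sum.inl (Sum.inl (G.s e)) ∈ S ∧ Sum.inl (Sum.inl (G.r e)) ∈ S

/-- the pinned vertex responsible for a coordinate. -/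
def pin : SV V E ⊕ E → SV V E
  | Sum.inl (Sum.inl v) => Sum.inl v
  | Sum.inl (Sum.inr (e, _)) => Sum.inr (e, false)
  | Sum.inr e => Sum.inr (e, false)

/-- moduli vertices of a revealed set. -/
noncomputable def sA (S : Finset (SV V E ⊕ E)) : Finset (SV V E) :=
  open Classical in S.preimage Sum.inl Sum.inl_injective.injOn

/-- edge bits of a revealed set. -/
noncomputable def sB (S : Finset (SV V E ⊕ E)) : Finset E :=
  open Classical in S.preimage Sum.inr Sum.inr_injective.injOn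

end coord

section coord2
variable {V E : Type} [Fintype V] [DecidableEq V] [Fintype E] [DecidableEq E]

/-- normalised weight of the chain model on `∀ i, XI k V E i`. -/
noncomputable def mW (G : Gr V E) (M : Al) (b l : ℝ) (x : ∀ i, XI M.k V E i) : ℝ :=
  W G M b l (pc x) (po x) / ∑ c, ∑ o, W G M b l c o

/-- `cc²` at a vertex. -/
noncomputable def c2 (M : Al) (w : SV V E) (x : ∀ i, XI M.k V E i) : ℝ := M.cc (pc x w) ^ 2

/-- covariance of `f` and `cc²` at `w` (expectations with respect to `mW`). -/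
noncomputable def cv (G : Gr V E) (M : Al) (b l : ℝ) (f : (∀ i, XI M.k V E i) → ℝ) (w : SV V E) : ℝ :=
  (∑ x, mW G M b l x * (f x * c2 M w x)) - (∑ x, mW G M b l x * f x) * ∑ x, mW G M b l x * c2 M w x

/-- explored open edges. -/
def eo {k : ℕ} (S : Finset (SV V E ⊕ E)) (x : ∀ i, XI k V E i) : Set E :=
  {e | Sum.inr e ∈ S ∧ po x e = true}

/-- `e` is not explored and touches the explored cluster of the seeds `Sd`. -/
def cand {k : ℕ} (G : Gr V E) (Sd : Finset V) (S : Finset (SV V E ⊕ E)) (x : ∀ i, XI k V E i) (e : E) :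
    Prop :=
  Sum.inr e ∉ S ∧ ∃ v ∈ Sd, G.Conn (eo S x) v (G.s e) ∨ G.Conn (eo S x) v (G.r e)

/-- exploration of the clusters of the seeds. -/
noncomputable def nxS {k : ℕ} (G : Gr V E) (Sd : Finset V) (S : Finset (SV V E ⊕ E))
    (x : ∀ i, XI k V E i) : Option (SV V E ⊕ E) :=
  open Classical in
  if h : ∃ e, cand G Sd S x e then
    (if Sum.inl (Sum.inl (G.s h.choose)) ∉ S then some (Sum.inl (Sum.inl (G.s h.choose)))
    else if Sum.inl (Sum.inl (G.r h.choose)) ∉ S then some (Sum.inl (Sum.inl (G.r h.choose)))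
    else if Sum.inl (Sum.inr (h.choose, false)) ∉ S then some (Sum.inl (Sum.inr (h.choose, false)))
    else if Sum.inl (Sum.inr (h.choose, true)) ∉ S then some (Sum.inl (Sum.inr (h.choose, true)))
    else some (Sum.inr h.choose))
  else none

end coord2

/-! ## torus -/

/-- the torus graph. -/
def TD (L : ℕ) : Gr (Fin 2 → ZMod L) ((Fin 2 → ZMod L) × Fin 2) where
  s e := e.1
  r e := e.1 + Pi.single e.2 1

/-- torus distance to `0`. -/
noncomputable def td {L : ℕ} (x : Fin 2 → ZMod L) : ℕ := univ.sup (fun i => (x i).valMinAbs.natAbs)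

/-- one arm event. -/
def armT {L : ℕ} (n : ℕ) (x : Fin 2 → ZMod L) (o : (Fin 2 → ZMod L) × Fin 2 → Bool) : Prop :=
  ∃ u, n ≤ td (u - x) ∧ (TD L).Conn (op1 o) x u

/-- one arm probability. -/
noncomputable def fT (L : ℕ) [NeZero L] (M : Al) (b : ℝ) (n : ℕ) (l : ℝ) : ℝ :=
  EW (TD L) M b l (fun _ o => ind (armT n 0 o))

/-! ## clocks and circles -/

/-- clock alphabet with `24 K` hours, regularised by `ε`. -/
noncomputable def clk (K : ℕ) (ε : ℝ) : Al where
  k := 6 * K
  cc c := (Real.sin (c.val * Real.pi / (12 * K)) + ε) / (1 + ε)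
  ss c := (Real.cos (c.val * Real.pi / (12 * K)) + ε) / (1 + ε)
  nu c := (if c.val = 0 ∨ c.val = 6 * K then 1 / 2 else 1) / (6 * K)

section cir
variable {U : Type} [Fintype U] [DecidableEq U]

/-- clock angles. -/
noncomputable def ang (M : ℕ) (g : U → Fin M) : U → Cir := fun w => ((2 * Real.pi * (g w).val / M : ℝ) : Cir)

/-- clock expectation of `F` with weight `e^H`. -/
noncomputable def clE (M : ℕ) (H F : (U → Cir) → ℝ) : ℝ :=
  (∑ g : U → Fin M, F (ang M g) * Real.exp (H (ang M g))) / ∑ g : U → Fin M, Real.exp (H (ang M g))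

end cir

section xy
variable {V E : Type} [Fintype V] [DecidableEq V] [Fintype E] [DecidableEq E]

/-- minus the XY energy with couplings `J` on a graph. -/
noncomputable def hG (G : Gr V E) (J : E → ℝ) (θ : V → Cir) : ℝ := ∑ e, J e * cosC (θ (G.r e) - θ (G.s e))

/-- the chain model with pinning. -/
noncomputable def hS (G : Gr V E) (b l : ℝ) (θ : SV V E → Cir) : ℝ :=
  hG (LK G) (fun _ => b) θ + ∑ w, l * pn w * cosC (θ w) ^ 2

/-- every edge replaced by a chain of six links; `inr (e, j)`, `j < 5`, are the inner vertices of `e`. -/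
def C6 (G : Gr V E) : Gr (V ⊕ (E × Fin 5)) (E × Fin 6) where
  s l := if h : l.2.val = 0 then Sum.inl (G.s l.1) else Sum.inr (l.1, ⟨l.2.val - 1, by omega⟩)
  r l := if h : l.2.val = 5 then Sum.inl (G.r l.1) else Sum.inr (l.1, ⟨l.2.val, by omega⟩)

end xy

/-- the triangular box as a finite graph. -/
noncomputable def TB (n : ℕ) : Gr ↥(bx 2 n) ↥(EN n) where
  s e := ⟨TT.s e.1, (mem_product.1 (mem_filter.1 e.2).1).1⟩
  r e := ⟨TT.r e.1, (mem_filter.1 e.2).2⟩

/-- base point of a vertex of the chained triangular box. -/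
def bp {n : ℕ} : ↥(bx 2 n) ⊕ (↥(EN n) × Fin 5) → Vx 2
  | Sum.inl v => v.1
  | Sum.inr q => q.1.1.1

/-- modified Bessel function `I_n(κ)`. -/
noncomputable def bI (κ : ℝ) (n : ℤ) : ℝ := ∫ t : Cir, cosC (n • t) * Real.exp (κ * cosC t) ∂haarP Cir

/-- divergence of an integer flow. -/
noncomputable def dv {V E : Type} [Fintype E] [DecidableEq V] (G : Gr V E) (J : E → ℤ) (v : V) : ℤ :=
  ∑ e, ((if G.r e = v then J e else 0) - (if G.s e = v then J e else 0))

/-- there is no exponential decay in the chained triangular boxes. -/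
def noED (κ : ℝ) : Prop :=
  ¬ ∃ C a : ℝ, 0 < a ∧ ∀ (n : ℕ) (p q : ↥(bx 2 n) ⊕ (↥(EN n) × Fin 5)),
    gE (hG (C6 (TB n)) (fun _ => κ)) (fun θ => cosC (θ p) * cosC (θ q)) ≤
      C * Real.exp (-a * nm (bp p - bp q))

/-! ## heights -/

section heights
variable {V E : Type} [DecidableEq V]

/-- extension by zero. -/
def ex {F : Finset V} (h : ↥F → ℤ) : V → ℤ := fun v => if hv : v ∈ F then h ⟨v, hv⟩ else 0

/-- weight of a height function on `F`, `0` outside. -/
noncomputable def WH (G : Gr V E) (F : Finset V) (EF : Finset E) (w : ℤ → ℝ) (h : ↥F → ℤ) : ℝ :=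
  ∏ e ∈ EF, w (ex h (G.s e) - ex h (G.r e))

/-- expectation. -/
noncomputable def Eh (G : Gr V E) (F : Finset V) (EF : Finset E) (w : ℤ → ℝ) (g : (V → ℤ) → ℝ) : ℝ :=
  (∑' h : ↥F → ℤ, WH G F EF w h * g (ex h)) / ∑' h : ↥F → ℤ, WH G F EF w h

/-- `EF` are the edges touching `F`, and every vertex of `F` is connected by `EF` to the outside. -/
structure Bd (G : Gr V E) (F : Finset V) (EF : Finset E) : Prop where
  mem : ∀ e, e ∈ EF ↔ G.s e ∈ F ∨ G.r e ∈ F
  out : ∀ v ∈ F, ∃ u, u ∉ F ∧ G.Conn (EF : Set E) v u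

end heights

/-- good weights. -/
structure WOk (w : ℤ → ℝ) : Prop where
  pos : ∀ n, 0 < w n
  symm : ∀ n, w (-n) = w n
  lc : ∀ n, w (n - 1) * w (n + 1) ≤ w n ^ 2
  summ : ∀ k : ℕ, Summable (fun n : ℤ => |(n : ℝ)| ^ k * w n)

/-- opening probability of an edge for the level `1/2` percolation of `{h ≤ 0}`. -/
noncomputable def qm (w : ℤ → ℝ) (a b : ℤ) : ℝ :=
  if a ≤ 0 ∧ b ≤ 0 then 1 - w (a + b - 1) / w (a - b) else 0

/-- `ω` on `B`, closed elsewhere. -/
def g0 {E : Type} [DecidableEq E] (B : Finset E) (ω : ↥B → Bool) : E → Bool :=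
  fun e => if h : e ∈ B then ω ⟨e, h⟩ else false

/-- average of `φ` over the percolation `ω⁻` on the edges of `B` given the heights. -/
noncomputable def em {V E : Type} [DecidableEq E] (w : ℤ → ℝ) (G : Gr V E) (B : Finset E) (h : V → ℤ)
    (φ : (E → Bool) → ℝ) : ℝ :=
  ∑ ω : ↥B → Bool, (∏ e : ↥B, if ω e then qm w (h (G.s e.1)) (h (G.r e.1))
    else 1 - qm w (h (G.s e.1)) (h (G.r e.1))) * φ (g0 B ω)

/-- average of `φ` over the heights and `ω⁻` on the edges of `B`. -/
noncomputable def PM {V E : Type} [DecidableEq V] [DecidableEq E] (G : Gr V E) (F : Finset V)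
    (EF : Finset E) (w : ℤ → ℝ) (B : Finset E) (φ : (E → Bool) → ℝ) : ℝ :=
  Eh G F EF w (fun h => em w G B h φ)

/-- polynomially bounded functions of the heights on `F`. -/
def PBd {V : Type} [DecidableEq V] (F : Finset V) (g : (V → ℤ) → ℝ) : Prop :=
  ∃ (C : ℝ) (k : ℕ), ∀ h : ↥F → ℤ, |g (ex h)| ≤ C * (1 + ∑ v, |(h v : ℝ)|) ^ k

/-- probabilities of the three states (`0` none, `1` open for `h ≤ 0`, `2` open for `h ≥ 0`). -/
noncomputable def q3 (w : ℤ → ℝ) (a b : ℤ) : Fin 3 → ℝ :=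
  ![1 - qm w a b - qm w (-a) (-b), qm w a b, qm w (-a) (-b)]

/-- expectation in the box `FN n`. -/
noncomputable def En (w : ℤ → ℝ) (n : ℕ) (g : (Vx 2 × Bool → ℤ) → ℝ) : ℝ :=
  Eh HH.gr (FN n) (EN n) w g

/-- height weights of the chained XY model. -/
noncomputable def wk (κ : ℝ) (m : ℤ) : ℝ := bI κ m ^ 6

/-- difference of the heights across an edge. -/
def dh (h : Vx 2 × Bool → ℤ) (e : Vx 2 × Fin 3) : ℤ := h (HH.gr.s e) - h (HH.gr.r e)

/-- exchange of the coordinates. -/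
def swp (z : Vx 2) : Vx 2 := ![z 1, z 0]

/-- reflection in the diagonal, on vertices and edges of `HH`. -/
def sV1 (v : Vx 2 × Bool) : Vx 2 × Bool := (swp v.1, !v.2)
def sE1 (e : Vx 2 × Fin 3) : Vx 2 × Fin 3 := (swp e.1, ![1, 0, 2] e.2)

/-- reflection in the antidiagonal. -/
def sV2 (v : Vx 2 × Bool) : Vx 2 × Bool := (-swp v.1 - 1, v.2)
def sE2 (e : Vx 2 × Fin 3) : Vx 2 × Fin 3 :=
  (-swp e.1 - ![Pi.single 1 1, Pi.single 0 1, 1] e.2, ![1, 0, 2] e.2)

/-- exchange of the two percolations. -/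
def fl3 : Fin 3 → Fin 3 := ![0, 2, 1]

/-- the sides of the box `FN N`. -/
def Lf (N : ℕ) : Set (Vx 2 × Bool) := {v | v ∈ FN N ∧ v.2 = true ∧ v.1 0 = -(N : ℤ)}
def Rt (N : ℕ) : Set (Vx 2 × Bool) := {v | v ∈ FN N ∧ v.2 = false ∧ v.1 0 = (N : ℤ) - 1}
def Tp (N : ℕ) : Set (Vx 2 × Bool) := {v | v ∈ FN N ∧ v.2 = true ∧ v.1 1 = (N : ℤ) - 1}
def Bt (N : ℕ) : Set (Vx 2 × Bool) := {v | v ∈ FN N ∧ v.2 = false ∧ v.1 1 = -(N : ℤ)}

/-- edges inside the box `FN N`. -/
def inN (N : ℕ) : Set (Vx 2 × Fin 3) := HH.gr.ins (FN N : Set (Vx 2 × Bool))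

/-- left-right and top-bottom crossings. -/
def LRc (N : ℕ) (S : Set (Vx 2 × Fin 3)) : Prop :=
  ∃ u ∈ Lf N, ∃ v ∈ Rt N, HH.gr.Conn (S ∩ inN N) u v
def TBc (N : ℕ) (S : Set (Vx 2 × Fin 3)) : Prop :=
  ∃ u ∈ Tp N, ∃ v ∈ Bt N, HH.gr.Conn (S ∩ inN N) u v

end H82.BX

end S_H82_BX_Defs

section S_H82_IC_CN

/-!
# CN: connectivity basics

`Γ.Conn ω x y` is the reflexive transitive closure of the symmetric relation `Γ.Adj ω` (all for `ω : Set E`).
All proofs: induction on `Relation.ReflTransGen` (or `Relation.ReflTransGen.mono`, `.symmetric`).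

* `conn_symm`: `Γ.Adj ω` is symmetric.
* `conn_insert` (→): induction on the path from `x`; the case of the last step using the new edge `e`:
  combine.  (←): mono + the step through `e` (in either direction) + transitivity.
* `cl_end`: an open edge connects its two ends.
* `cl_agree`: if `ω` and `ω'` agree on all edges touching `C = cl ω o` then `cl ω' o = C`:  (⊆) by induction a path of
  `ω'` from `o` stays in `C` (the edge used touches `C`, so it is in `ω`, so its other end is in `C`);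
  (⊇) by induction a path of `ω` from `o` only uses edges touching `C`.
* `conn_off`: if every edge of `ω` has both or no end in `C` and `u ∉ C`, then the vertices reached from `u` are not in `C` and the
  edges used do not touch `C`.
* `conn_split`: walk along the path from `u` to `v` until the first edge that lies in `K`; if there is none then `u`, `v` are
  connected in `ω \ K`.  (Induction on the path with the statement: `Conn (ω \ K) u x ∨ ∃ e ∈ ω ∩ K, ...`.)
* `conn_exit`: walk along the path from `u ∈ D` to `v ∉ D` until the first vertex outside `D`: all edges before have both ends in `D`.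
-/

set_option autoImplicit false

namespace H82.IC

variable {V E : Type*}

theorem CN_adj_symm (Γ : Gr V E) {ω : Set E} {x y : V} (h : Γ.Adj ω x y) : Γ.Adj ω y x := by
  obtain ⟨e, he, h1 | h1⟩ := h
  · exact ⟨e, he, Or.inr h1⟩
  · exact ⟨e, he, Or.inl h1⟩

theorem conn_refl (Γ : Gr V E) (ω : Set E) (x : V) : Γ.Conn ω x x :=
  Relation.ReflTransGen.refl

theorem conn_symm (Γ : Gr V E) {ω : Set E} {x y : V} (h : Γ.Conn ω x y) : Γ.Conn ω y x := by
  induction h with
  | refl => exact Relation.ReflTransGen.refl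
  | tail _ h2 ih => exact Relation.ReflTransGen.head (CN_adj_symm Γ h2) ih

theorem conn_comm (Γ : Gr V E) (ω : Set E) (x y : V) : Γ.Conn ω x y ↔ Γ.Conn ω y x :=
  ⟨conn_symm Γ, conn_symm Γ⟩

theorem conn_trans (Γ : Gr V E) {ω : Set E} {x y z : V} (h : Γ.Conn ω x y) (h' : Γ.Conn ω y z) :
    Γ.Conn ω x z :=
  Relation.ReflTransGen.trans h h'

theorem conn_mono (Γ : Gr V E) {ω ω' : Set E} (hω : ω ⊆ ω') {x y : V} (h : Γ.Conn ω x y) :
    Γ.Conn ω' x y := by
  induction h with
  | refl => exact Relation.ReflTransGen.refl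
  | tail _ h2 ih =>
    obtain ⟨e, he, h1⟩ := h2
    exact Relation.ReflTransGen.tail ih ⟨e, hω he, h1⟩

theorem conn_edge (Γ : Gr V E) {ω : Set E} {e : E} (he : e ∈ ω) : Γ.Conn ω (Γ.s e) (Γ.r e) :=
  Relation.ReflTransGen.single ⟨e, he, Or.inl ⟨rfl, rfl⟩⟩

theorem conn_insert (Γ : Gr V E) (ω : Set E) (e : E) (x y : V) :
    Γ.Conn (insert e ω) x y ↔ Γ.Conn ω x y ∨ (Γ.Conn ω x (Γ.s e) ∧ Γ.Conn ω (Γ.r e) y) ∨
      (Γ.Conn ω x (Γ.r e) ∧ Γ.Conn ω (Γ.s e) y) := by
  constructor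
  · intro h
    induction h with
    | refl => exact Or.inl Relation.ReflTransGen.refl
    | @tail b c _ h2 ih =>
      obtain ⟨e', he', h1⟩ := h2
      rcases Set.mem_insert_iff.mp he' with rfl | he'
      · rcases h1 with ⟨rfl, rfl⟩ | ⟨rfl, rfl⟩
        · rcases ih with ih | ⟨ih1, ih2⟩ | ⟨ih1, ih2⟩
          · exact Or.inr (Or.inl ⟨ih, conn_refl Γ ω _⟩)
          · exact Or.inr (Or.inl ⟨ih1, conn_refl Γ ω _⟩)
          · exact Or.inl ih1
        · rcases ih with ih | ⟨ih1, ih2⟩ | ⟨ih1, ih2⟩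
          · exact Or.inr (Or.inr ⟨ih, conn_refl Γ ω _⟩)
          · exact Or.inl ih1
          · exact Or.inr (Or.inr ⟨ih1, conn_refl Γ ω _⟩)
      · have hs : Γ.Adj ω b c := ⟨e', he', h1⟩
        rcases ih with ih | ⟨ih1, ih2⟩ | ⟨ih1, ih2⟩
        · exact Or.inl (ih.tail hs)
        · exact Or.inr (Or.inl ⟨ih1, ih2.tail hs⟩)
        · exact Or.inr (Or.inr ⟨ih1, ih2.tail hs⟩)
  · have hsub : ω ⊆ insert e ω := Set.subset_insert e ω
    have hedge : Γ.Conn (insert e ω) (Γ.s e) (Γ.r e) := conn_edge Γ (Set.mem_insert e ω)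
    rintro (h | ⟨h1, h2⟩ | ⟨h1, h2⟩)
    · exact conn_mono Γ hsub h
    · exact conn_trans Γ (conn_mono Γ hsub h1) (conn_trans Γ hedge (conn_mono Γ hsub h2))
    · exact conn_trans Γ (conn_mono Γ hsub h1)
        (conn_trans Γ (conn_symm Γ hedge) (conn_mono Γ hsub h2))

theorem mem_cl_self (Γ : Gr V E) (ω : Set E) (o : V) : o ∈ Γ.cl ω o :=
  conn_refl Γ ω o

theorem cl_end (Γ : Gr V E) {ω : Set E} {e : E} (he : e ∈ ω) (o : V) :
    Γ.s e ∈ Γ.cl ω o ↔ Γ.r e ∈ Γ.cl ω o :=
  ⟨fun h => conn_trans Γ h (conn_edge Γ he), fun h => conn_trans Γ h (conn_symm Γ (conn_edge Γ he))⟩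

theorem cl_agree (Γ : Gr V E) {ω ω' : Set E} {o : V}
    (h : ∀ e ∈ Γ.tch (Γ.cl ω o), (e ∈ ω ↔ e ∈ ω')) : Γ.cl ω' o = Γ.cl ω o := by
  apply Set.Subset.antisymm
  · intro v hv
    have hv' : Γ.Conn ω' o v := hv
    induction hv' with
    | refl => exact mem_cl_self Γ ω o
    | @tail b c hb h2 ih =>
      have ihb : Γ.Conn ω o b := ih hb
      obtain ⟨e, he, h1⟩ := h2
      have hbe : e ∈ Γ.tch (Γ.cl ω o) := by
        rcases h1 with ⟨rfl, rfl⟩ | ⟨rfl, rfl⟩
        · exact Or.inl ihb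
        · exact Or.inr ihb
      have heω : e ∈ ω := (h e hbe).mpr he
      exact Relation.ReflTransGen.tail ihb ⟨e, heω, h1⟩
  · intro v hv
    have hv' : Γ.Conn ω o v := hv
    induction hv' with
    | refl => exact mem_cl_self Γ ω' o
    | @tail b c hb h2 ih =>
      have ihb : Γ.Conn ω' o b := ih hb
      obtain ⟨e, he, h1⟩ := h2
      have hbe : e ∈ Γ.tch (Γ.cl ω o) := by
        rcases h1 with ⟨rfl, rfl⟩ | ⟨rfl, rfl⟩
        · exact Or.inl hb
        · exact Or.inr hb
      have heω : e ∈ ω' := (h e hbe).mp he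
      exact Relation.ReflTransGen.tail ihb ⟨e, heω, h1⟩

theorem conn_off (Γ : Gr V E) {ω : Set E} {C : Set V} (hC : ∀ e ∈ ω, (Γ.s e ∈ C ↔ Γ.r e ∈ C))
    {u : V} (hu : u ∉ C) (v : V) :
    Γ.Conn ω u v ↔ Γ.Conn (ω \ Γ.tch C) u v := by
  constructor
  · intro h
    have key : Γ.Conn (ω \ Γ.tch C) u v ∧ v ∉ C := by
      induction h with
      | refl => exact ⟨conn_refl Γ _ _, hu⟩
      | @tail b c _ h2 ih =>
        obtain ⟨ih1, ih2⟩ := ih
        obtain ⟨e, he, h1⟩ := h2
        have hee := hC e he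
        rcases h1 with ⟨rfl, rfl⟩ | ⟨rfl, rfl⟩
        · have hr : Γ.r e ∉ C := fun h => ih2 (hee.mpr h)
          have ht : e ∉ Γ.tch C := by
            rintro (h | h)
            · exact ih2 h
            · exact hr h
          exact ⟨ih1.tail ⟨e, ⟨he, ht⟩, Or.inl ⟨rfl, rfl⟩⟩, hr⟩
        · have hr : Γ.s e ∉ C := fun h => ih2 (hee.mp h)
          have ht : e ∉ Γ.tch C := by
            rintro (h | h)
            · exact hr h
            · exact ih2 h
          exact ⟨ih1.tail ⟨e, ⟨he, ht⟩, Or.inr ⟨rfl, rfl⟩⟩, hr⟩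
    exact key.1
  · exact conn_mono Γ Set.sdiff_subset

theorem conn_off_notMem (Γ : Gr V E) {ω : Set E} {C : Set V} (hC : ∀ e ∈ ω, (Γ.s e ∈ C ↔ Γ.r e ∈ C))
    {u v : V} (h : Γ.Conn ω u v) : u ∈ C ↔ v ∈ C := by
  induction h with
  | refl => exact Iff.rfl
  | tail _ h2 ih =>
    obtain ⟨e, he, h1⟩ := h2
    rcases h1 with ⟨rfl, rfl⟩ | ⟨rfl, rfl⟩
    · exact ih.trans (hC e he)
    · exact ih.trans (hC e he).symm

theorem conn_split (Γ : Gr V E) {ω K : Set E} {u v : V} (h : Γ.Conn ω u v)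
    (h' : ¬ Γ.Conn (ω \ K) u v) :
    ∃ e ∈ ω ∩ K, Γ.Conn (ω \ K) u (Γ.s e) ∨ Γ.Conn (ω \ K) u (Γ.r e) := by
  by_contra hcon
  push Not at hcon
  apply h'
  clear h'
  induction h with
  | refl => exact conn_refl Γ _ _
  | @tail b c _ h2 ih =>
    obtain ⟨e, he, h1⟩ := h2
    by_cases hK : e ∈ K
    · exfalso
      obtain ⟨n1, n2⟩ := hcon e ⟨he, hK⟩
      rcases h1 with ⟨rfl, rfl⟩ | ⟨rfl, rfl⟩
      · exact n1 ih
      · exact n2 ih
    · exact ih.tail ⟨e, ⟨he, hK⟩, h1⟩

theorem conn_exit (Γ : Gr V E) {ω : Set E} {D : Set V} {u v : V} (h : Γ.Conn ω u v)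
    (hu : u ∈ D) (hv : v ∉ D) :
    ∃ x ∈ D, ∃ y, y ∉ D ∧ Γ.Adj ω x y ∧ Γ.Conn (ω ∩ Γ.ins D) u x := by
  by_contra hcon
  push Not at hcon
  have key : Γ.Conn (ω ∩ Γ.ins D) u v ∧ v ∈ D := by
    clear hv
    induction h with
    | refl => exact ⟨conn_refl Γ _ _, hu⟩
    | @tail b c _ h2 ih =>
      obtain ⟨ih1, ih2⟩ := ih
      by_cases hc : c ∈ D
      · obtain ⟨e, he, h1⟩ := h2
        refine ⟨ih1.tail ⟨e, ⟨he, ?_⟩, h1⟩, hc⟩
        rcases h1 with ⟨rfl, rfl⟩ | ⟨rfl, rfl⟩
        · exact ⟨ih2, hc⟩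
        · exact ⟨hc, ih2⟩
      · exact absurd ih1 (hcon b ih2 c hc h2)
  exact hv key.2

end H82.IC

end S_H82_IC_CN

section S_H82_BX_BL1

/-!
# BL1: abstract vertex estimate, abstract block estimates (elementary real inequalities)

`vertex_est`: let `a` be a threshold: `F c ≤ a` if `φ c < 1/2`, `F c ≥ a` if `φ c ≥ 1/2` (monotone functions on a linear order; both
classes are nonempty).  `2 Cov = ∑∑ p p' (F - F')(φ - φ')`, all terms are `≥ 0`; the pairs (`φ c ≥ 1/2`, `c' ∈ lo`) give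
`Cov ≥ (7/50) p0 ∑_{φ ≥ 1/2} p (F - a)`, the pairs (`φ c < 1/2`, `c' ∈ hi`) give `Cov ≥ (7/50) p0 ∑_{φ < 1/2} p (a - F)`; so
`Cov ≥ (7/100) p0 ∑ p |F - a|`, and `∑∑ p p' |F - F'| ≤ 2 ∑ p |F - a|`.
`blk_up`: `|Ph o t - Ph false 0| ≤ 1[o] (Ph true t - Ph false t) + (Ph false 0 - Ph false t)`,
`Ph true t - Ph false t ≤ Ph true 0 - Ph false t ≤ X + Y`, `Ph false 0 - Ph false t ≤ Y`, with `X = Ph true 0 - Ph false 0`,
`Y = Ph false 0 - Ph false tm`; the conditional probability of `o = true` given `y` is `r ρ/((1-r) + r ρ) ≤ 2 r ≤ 2 rm`,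
`ρ = D true t/D false t ∈ [1,2]`.  So `E|Φ - Ph false 0| ≤ 2 rm (X+Y) + Y ≤ 3 (rm X + Y)` (`rm ≤ 1`), and `E|Φ - EΦ| ≤ 2 E|Φ - a|`.
`blk_low`: `G ζ = ∑_μ a ζ μ psi ζ μ/∑_μ a ζ μ` is monotone (`hst` with `g = psi ζ ·`), and for `ζ ∈ hi`, `ζ' ∈ lo` (so `ζ' < ζ`)
`G ζ - G ζ' ≥ ∑_μ P(μ|ζ')(psi ζ μ - psi ζ' μ) ≥ p0 Δ`.  `Cov(psi, φ) = Cov(G, φ) ≥ p(hi) p(lo) (7/25) p0 Δ`.
-/

set_option autoImplicit false

open Finset MeasureTheory

namespace H82.BX

open H82.IC

section one
variable {Y : Type} [Fintype Y] [LinearOrder Y]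

theorem cov_id (p F φ : Y → ℝ) (h1 : ∑ c, p c = 1) :
    ∑ c, ∑ c', p c * p c' * ((F c - F c') * (φ c - φ c')) =
      2 * ((∑ c, p c * (F c * φ c)) - (∑ c, p c * F c) * ∑ c, p c * φ c) := by
  have e1 : ∀ c, ∑ c', p c * p c' * ((F c - F c') * (φ c - φ c')) =
      p c * (F c * φ c) - (p c * F c) * (∑ c', p c' * φ c') - (p c * φ c) * (∑ c', p c' * F c')
        + p c * ∑ c', p c' * (F c' * φ c') := by
    intro c
    have : ∀ c', p c * p c' * ((F c - F c') * (φ c - φ c')) =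
        (p c * (F c * φ c)) * p c' - (p c * F c) * (p c' * φ c') - (p c * φ c) * (p c' * F c')
          + p c * (p c' * (F c' * φ c')) := by intro c'; ring
    simp only [this, sum_add_distrib, sum_sub_distrib, ← mul_sum, h1, mul_one]
  simp only [e1, sum_add_distrib, sum_sub_distrib, ← sum_mul, h1]
  ring

theorem cov_ge (p F φ : Y → ℝ) (hp : ∀ c, 0 ≤ p c) (h1 : ∑ c, p c = 1) (K : Y → Y → ℝ)
    (hK : ∀ c c', K c c' ≤ (F c - F c') * (φ c - φ c')) :
    ∑ c, ∑ c', p c * p c' * K c c' ≤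
      2 * ((∑ c, p c * (F c * φ c)) - (∑ c, p c * F c) * ∑ c, p c * φ c) := by
  rw [← cov_id p F φ h1]
  exact sum_le_sum fun c _ => sum_le_sum fun c' _ =>
    mul_le_mul_of_nonneg_left (hK c c') (mul_nonneg (hp c) (hp c'))

theorem mono_mul (F φ : Y → ℝ) (hF : Monotone F) (hφ : Monotone φ) (c c' : Y) :
    0 ≤ (F c - F c') * (φ c - φ c') := by
  rcases le_total c c' with h | h
  · have a := hF h
    have b := hφ h
    nlinarith
  · have a := hF h
    have b := hφ h
    nlinarith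

/-- two disjoint classes. -/
theorem cov_two (p F φ : Y → ℝ) (hp : ∀ c, 0 ≤ p c) (h1 : ∑ c, p c = 1) (hF : Monotone F)
    (hφ : Monotone φ) (u l : Y → ℝ) (hdis : ∀ c, u c = 0 ∨ l c = 0)
    (hul : ∀ c c', u c * l c' ≤ (F c - F c') * (φ c - φ c')) :
    (∑ c, p c * u c) * (∑ c, p c * l c) ≤
      ((∑ c, p c * (F c * φ c)) - (∑ c, p c * F c) * ∑ c, p c * φ c) := by
  have h := cov_ge p F φ hp h1 (fun c c' => u c * l c' + u c' * l c) (by
    intro c c'
    have hz := mono_mul F φ hF hφ c c'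
    have h2 := hul c c'
    have h3 := hul c' c
    have h4 : (F c' - F c) * (φ c' - φ c) = (F c - F c') * (φ c - φ c') := by ring
    rw [h4] at h3
    rcases hdis c with hc | hc
    · simp only [hc, zero_mul, zero_add] at h2 ⊢
      exact h3
    · simp only [hc, mul_zero, add_zero] at h3 ⊢
      exact h2)
  have e : ∑ c, ∑ c', p c * p c' * (u c * l c' + u c' * l c) =
      2 * ((∑ c, p c * u c) * (∑ c, p c * l c)) := by
    have : ∀ c, ∑ c', p c * p c' * (u c * l c' + u c' * l c) =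
        (p c * u c) * (∑ c', p c' * l c') + (p c * l c) * (∑ c', p c' * u c') := by
      intro c
      have : ∀ c', p c * p c' * (u c * l c' + u c' * l c) =
        (p c * u c) * (p c' * l c') + (p c * l c) * (p c' * u c') := by intro c'; ring
      simp only [this, sum_add_distrib, ← mul_sum]
    simp only [this, sum_add_distrib, ← sum_mul]
    ring
  rw [e] at h
  linarith

theorem vertex_est (p F φ : Y → ℝ) (hp : ∀ c, 0 ≤ p c) (h1 : ∑ c, p c = 1) (hF : Monotone F)
    (hφ : Monotone φ) (p0 : ℝ) (hp0 : 0 < p0) (lo hi : Finset Y) (hlo : ∀ c ∈ lo, φ c ≤ 9 / 25)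
    (hhi : ∀ c ∈ hi, 16 / 25 ≤ φ c) (plo : p0 ≤ ∑ c ∈ lo, p c) (phi : p0 ≤ ∑ c ∈ hi, p c) :
    ∑ c, ∑ c', p c * p c' * |F c - F c'| ≤
      100 / p0 * ((∑ c, p c * (F c * φ c)) - (∑ c, p c * F c) * ∑ c, p c * φ c) := by
  classical
  have hhine : hi.Nonempty := by
    rcases hi.eq_empty_or_nonempty with h | h
    · rw [h, sum_empty] at phi; linarith
    · exact h
  obtain ⟨h0, hh0⟩ := hhine
  have hUne : (univ.filter fun c => (1 / 2 : ℝ) ≤ φ c).Nonempty :=
    ⟨h0, by
      have := hhi h0 hh0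
      simp only [mem_filter, mem_univ, true_and]; linarith⟩
  set c0 := (univ.filter fun c => (1 / 2 : ℝ) ≤ φ c).min' hUne with hc0
  have hc0m : (1 / 2 : ℝ) ≤ φ c0 := by
    have := (univ.filter fun c => (1 / 2 : ℝ) ≤ φ c).min'_mem hUne
    exact (mem_filter.mp this).2
  have hge : ∀ c, (1 / 2 : ℝ) ≤ φ c → F c0 ≤ F c := by
    intro c hc
    exact hF (min'_le _ c (by simp only [mem_filter, mem_univ, true_and]; exact hc))
  have hle : ∀ c, φ c < 1 / 2 → F c ≤ F c0 := by
    intro c hc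
    refine hF (le_of_lt ?_)
    by_contra hcon
    have := hφ (not_lt.mp hcon)
    linarith
  set Cv := ((∑ c, p c * (F c * φ c)) - (∑ c, p c * F c) * ∑ c, p c * φ c) with hCv
  -- upper part
  have hU : (∑ c, p c * (if (1 / 2 : ℝ) ≤ φ c then F c - F c0 else 0)) *
      (∑ c, p c * (if c ∈ lo then (7 / 50 : ℝ) else 0)) ≤ Cv := by
    refine cov_two p F φ hp h1 hF hφ _ _ ?_ ?_
    · intro c
      by_cases hc : c ∈ lo
      · left
        have := hlo c hc
        rw [if_neg (by linarith)]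
      · right; rw [if_neg hc]
    · intro c c'
      by_cases hc : (1 / 2 : ℝ) ≤ φ c
      · by_cases hc' : c' ∈ lo
        · rw [if_pos hc, if_pos hc']
          have e1 := hlo c' hc'
          have e2 := hle c' (by linarith)
          have e3 := hge c hc
          nlinarith
        · rw [if_neg hc', mul_zero]
          exact mono_mul F φ hF hφ c c'
      · rw [if_neg hc, zero_mul]
        exact mono_mul F φ hF hφ c c'
  have hV : (∑ c, p c * (if φ c < 1 / 2 then F c0 - F c else 0)) *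
      (∑ c, p c * (if c ∈ hi then (7 / 50 : ℝ) else 0)) ≤ Cv := by
    refine cov_two p F φ hp h1 hF hφ _ _ ?_ ?_
    · intro c
      by_cases hc : c ∈ hi
      · left
        have := hhi c hc
        rw [if_neg (by linarith)]
      · right; rw [if_neg hc]
    · intro c c'
      by_cases hc : φ c < 1 / 2
      · by_cases hc' : c' ∈ hi
        · rw [if_pos hc, if_pos hc']
          have e1 := hhi c' hc'
          have e2 := hge c' (by linarith)
          have e3 := hle c hc
          nlinarith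
        · rw [if_neg hc', mul_zero]
          exact mono_mul F φ hF hφ c c'
      · rw [if_neg hc, zero_mul]
        exact mono_mul F φ hF hφ c c'
  have sum_ind : ∀ S : Finset Y, ∑ c, p c * (if c ∈ S then (7 / 50 : ℝ) else 0) =
      7 / 50 * ∑ c ∈ S, p c := by
    intro S
    have : ∀ c, p c * (if c ∈ S then (7 / 50 : ℝ) else 0) = if c ∈ S then 7 / 50 * p c else 0 := by
      intro c; split_ifs <;> ring
    simp only [this]
    rw [← sum_filter, mul_sum]
    refine sum_congr ?_ (fun _ _ => rfl)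
    ext c; simp
  rw [sum_ind] at hU hV
  have hU0 : 0 ≤ ∑ c, p c * (if (1 / 2 : ℝ) ≤ φ c then F c - F c0 else 0) := by
    refine sum_nonneg fun c _ => mul_nonneg (hp c) ?_
    split_ifs with hc
    · linarith [hge c hc]
    · exact le_rfl
  have hV0 : 0 ≤ ∑ c, p c * (if φ c < 1 / 2 then F c0 - F c else 0) := by
    refine sum_nonneg fun c _ => mul_nonneg (hp c) ?_
    split_ifs with hc
    · linarith [hle c hc]
    · exact le_rfl
  have hU1 : (∑ c, p c * (if (1 / 2 : ℝ) ≤ φ c then F c - F c0 else 0)) * (7 / 50 * p0) ≤ Cv :=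
    le_trans (mul_le_mul_of_nonneg_left (by linarith) hU0) hU
  have hV1 : (∑ c, p c * (if φ c < 1 / 2 then F c0 - F c else 0)) * (7 / 50 * p0) ≤ Cv :=
    le_trans (mul_le_mul_of_nonneg_left (by linarith) hV0) hV
  have hsum : ∑ c, p c * |F c - F c0| =
      (∑ c, p c * (if (1 / 2 : ℝ) ≤ φ c then F c - F c0 else 0)) +
      (∑ c, p c * (if φ c < 1 / 2 then F c0 - F c else 0)) := by
    rw [← sum_add_distrib]
    refine sum_congr rfl fun c _ => ?_
    by_cases hc : (1 / 2 : ℝ) ≤ φ c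
    · rw [if_pos hc, if_neg (not_lt.mpr hc), abs_of_nonneg (by linarith [hge c hc])]; ring
    · rw [if_neg hc, if_pos (not_le.mp hc), abs_of_nonpos (by linarith [hle c (not_le.mp hc)])]
      ring
  have hmain : (∑ c, p c * |F c - F c0|) * (7 / 100 * p0) ≤ Cv := by
    rw [hsum]; nlinarith
  have hLHS : ∑ c, ∑ c', p c * p c' * |F c - F c'| ≤ 2 * ∑ c, p c * |F c - F c0| := by
    have : ∀ c c', p c * p c' * |F c - F c'| ≤
        (p c * |F c - F c0|) * p c' + p c * (p c' * |F c' - F c0|) := by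
      intro c c'
      have h := abs_sub_le (F c) (F c0) (F c')
      rw [abs_sub_comm (F c0) (F c')] at h
      have h2 := mul_le_mul_of_nonneg_left h (mul_nonneg (hp c) (hp c'))
      nlinarith
    calc ∑ c, ∑ c', p c * p c' * |F c - F c'| ≤
        ∑ c, ∑ c', ((p c * |F c - F c0|) * p c' + p c * (p c' * |F c' - F c0|)) :=
          sum_le_sum fun c _ => sum_le_sum fun c' _ => this c c'
      _ = 2 * ∑ c, p c * |F c - F c0| := by
          simp only [sum_add_distrib, ← mul_sum, ← sum_mul, h1]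
          ring
  have hS0 : 0 ≤ ∑ c, p c * |F c - F c0| := sum_nonneg fun c _ => mul_nonneg (hp c) (abs_nonneg _)
  have hCv0 : 0 ≤ Cv := le_trans (mul_nonneg hS0 (by positivity)) hmain
  refine le_trans hLHS ?_
  rw [div_mul_eq_mul_div, le_div_iff₀ hp0]
  nlinarith

theorem blk_low [Nonempty Y] (a psi : Y → Y → ℝ) (φ : Y → ℝ) (ha : ∀ ζ μ, 0 < a ζ μ) (hφ : Monotone φ)
    (hpsi : ∀ ζ ζ' μ μ', ζ ≤ ζ' → μ ≤ μ' → psi ζ μ ≤ psi ζ' μ')
    (hst : ∀ g : Y → ℝ, Monotone g → ∀ ζ ζ', ζ ≤ ζ' →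
      (∑ μ, a ζ μ * g μ) / ∑ μ, a ζ μ ≤ (∑ μ, a ζ' μ * g μ) / ∑ μ, a ζ' μ)
    (p0 Δ : ℝ) (hp0 : 0 < p0) (hΔ : 0 ≤ Δ) (lo hi mi : Finset Y) (hlo : ∀ c ∈ lo, φ c ≤ 9 / 25)
    (hhi : ∀ c ∈ hi, 16 / 25 ≤ φ c)
    (plo : p0 * ∑ ζ, ∑ μ, a ζ μ ≤ ∑ ζ ∈ lo, ∑ μ, a ζ μ)
    (phi : p0 * ∑ ζ, ∑ μ, a ζ μ ≤ ∑ ζ ∈ hi, ∑ μ, a ζ μ)
    (pmi : ∀ ζ, p0 * ∑ μ, a ζ μ ≤ ∑ μ ∈ mi, a ζ μ)
    (hd : ∀ ζ ∈ hi, ∀ ζ' ∈ lo, ∀ μ ∈ mi, Δ ≤ psi ζ μ - psi ζ' μ) (Z : ℝ)
    (hZ : Z = ∑ ζ, ∑ μ, a ζ μ) :
    7 / 25 * p0 ^ 3 * Δ ≤ (∑ ζ, ∑ μ, a ζ μ * (psi ζ μ * φ ζ)) / Z -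
      (∑ ζ, ∑ μ, a ζ μ * psi ζ μ) / Z * ((∑ ζ, ∑ μ, a ζ μ * φ ζ) / Z) := by
  classical
  have hA : ∀ ζ, 0 < ∑ μ, a ζ μ := fun ζ => sum_pos (fun μ _ => ha ζ μ) univ_nonempty
  have hZp : 0 < Z := by rw [hZ]; exact sum_pos (fun ζ _ => hA ζ) univ_nonempty
  set p : Y → ℝ := fun ζ => (∑ μ, a ζ μ) / Z with hpd
  set G : Y → ℝ := fun ζ => (∑ μ, a ζ μ * psi ζ μ) / ∑ μ, a ζ μ with hG
  have hp : ∀ c, 0 ≤ p c := fun c => div_nonneg (hA c).le hZp.le
  have h1 : ∑ c, p c = 1 := by
    simp only [hpd, ← sum_div]; rw [← hZ, div_self hZp.ne']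
  have hGm : Monotone G := by
    intro ζ ζ' h
    refine le_trans (hst (psi ζ) (fun μ μ' hμ => hpsi ζ ζ μ μ' le_rfl hμ) ζ ζ' h) ?_
    refine div_le_div_of_nonneg_right ?_ (hA ζ').le
    exact sum_le_sum fun μ _ => mul_le_mul_of_nonneg_left (hpsi ζ ζ' μ μ h le_rfl) (ha ζ' μ).le
  have hGd : ∀ ζ ∈ hi, ∀ ζ' ∈ lo, p0 * Δ ≤ G ζ - G ζ' := by
    intro ζ hζ ζ' hζ'
    have hlt : ζ' < ζ := by
      by_contra hcon
      have := hφ (not_lt.mp hcon)
      linarith [hlo ζ' hζ', hhi ζ hζ]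
    have s1 : (∑ μ, a ζ' μ * psi ζ μ) / (∑ μ, a ζ' μ) ≤ G ζ :=
      hst (psi ζ) (fun μ μ' hμ => hpsi ζ ζ μ μ' le_rfl hμ) ζ' ζ hlt.le
    have s2 : p0 * Δ ≤ (∑ μ, a ζ' μ * psi ζ μ) / (∑ μ, a ζ' μ) - G ζ' := by
      rw [hG]
      simp only
      rw [← sub_div, le_div_iff₀ (hA ζ'), ← sum_sub_distrib]
      calc p0 * Δ * ∑ μ, a ζ' μ = Δ * (p0 * ∑ μ, a ζ' μ) := by ring
        _ ≤ Δ * ∑ μ ∈ mi, a ζ' μ := mul_le_mul_of_nonneg_left (pmi ζ') hΔ
        _ = ∑ μ ∈ mi, Δ * a ζ' μ := mul_sum _ _ _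
        _ ≤ ∑ μ ∈ mi, (a ζ' μ * psi ζ μ - a ζ' μ * psi ζ' μ) := by
            refine sum_le_sum fun μ hμ => ?_
            have := hd ζ hζ ζ' hζ' μ hμ
            nlinarith [ha ζ' μ]
        _ ≤ ∑ μ, (a ζ' μ * psi ζ μ - a ζ' μ * psi ζ' μ) := by
            refine sum_le_sum_of_subset_of_nonneg (subset_univ _) fun μ _ _ => ?_
            have := hpsi ζ' ζ μ μ hlt.le le_rfl
            nlinarith [ha ζ' μ]
    linarith
  have hcov := cov_two p G φ hp h1 hGm hφ (fun c => if c ∈ hi then p0 * Δ else 0)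
    (fun c => if c ∈ lo then (7 / 25 : ℝ) else 0) (by
      intro c
      by_cases hc : c ∈ lo
      · left
        have h1 := hlo c hc
        have : c ∉ hi := fun h => by linarith [hhi c h]
        simp only [if_neg this]
      · right; simp only [if_neg hc]) (by
      intro c c'
      by_cases hc : c ∈ hi
      · by_cases hc' : c' ∈ lo
        · simp only [if_pos hc, if_pos hc']
          have e1 := hlo c' hc'
          have e2 := hhi c hc
          have e3 := hGd c hc c' hc'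
          have e4 : 0 ≤ p0 * Δ := mul_nonneg hp0.le hΔ
          nlinarith
        · simp only [if_neg hc', mul_zero]
          exact mono_mul G φ hGm hφ c c'
      · simp only [if_neg hc, zero_mul]
        exact mono_mul G φ hGm hφ c c')
  have sum_ind : ∀ (S : Finset Y) (k : ℝ), ∑ c, p c * (if c ∈ S then k else 0) =
      k * ∑ c ∈ S, p c := by
    intro S k
    have : ∀ c, p c * (if c ∈ S then k else 0) = if c ∈ S then k * p c else 0 := by
      intro c; split_ifs <;> ring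
    simp only [this]
    rw [← sum_filter, mul_sum]
    refine sum_congr ?_ (fun _ _ => rfl)
    ext c; simp
  rw [sum_ind, sum_ind] at hcov
  have hplo : p0 ≤ ∑ c ∈ lo, p c := by
    simp only [hpd, ← sum_div]
    rw [le_div_iff₀ hZp, hZ]; exact plo
  have hphi : p0 ≤ ∑ c ∈ hi, p c := by
    simp only [hpd, ← sum_div]
    rw [le_div_iff₀ hZp, hZ]; exact phi
  have e1 : (∑ ζ, ∑ μ, a ζ μ * (psi ζ μ * φ ζ)) / Z = ∑ c, p c * (G c * φ c) := by
    rw [sum_div]
    refine sum_congr rfl fun c _ => ?_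
    have : ∑ μ, a c μ * (psi c μ * φ c) = (∑ μ, a c μ * psi c μ) * φ c := by
      rw [sum_mul]; exact sum_congr rfl fun μ _ => by ring
    rw [this]
    simp only [hpd, hG]
    field_simp [(hA c).ne']
  have e2 : (∑ ζ, ∑ μ, a ζ μ * psi ζ μ) / Z = ∑ c, p c * G c := by
    rw [sum_div]
    refine sum_congr rfl fun c _ => ?_
    simp only [hpd, hG]
    field_simp [(hA c).ne']
  have e3 : (∑ ζ, ∑ μ, a ζ μ * φ ζ) / Z = ∑ c, p c * φ c := by
    rw [sum_div]
    refine sum_congr rfl fun c _ => ?_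
    simp only [hpd]
    rw [← sum_mul]; ring
  rw [e1, e2, e3]
  refine le_trans ?_ hcov
  have h3 : p0 * p0 ≤ (∑ c ∈ hi, p c) * ∑ c ∈ lo, p c :=
    mul_le_mul hphi hplo hp0.le (le_trans hp0.le hphi)
  have h4 : 0 ≤ 7 / 25 * (p0 * Δ) := by positivity
  calc 7 / 25 * p0 ^ 3 * Δ = (7 / 25 * (p0 * Δ)) * (p0 * p0) := by ring
    _ ≤ (7 / 25 * (p0 * Δ)) * ((∑ c ∈ hi, p c) * ∑ c ∈ lo, p c) :=
        mul_le_mul_of_nonneg_left h3 h4
    _ = p0 * Δ * (∑ c ∈ hi, p c) * (7 / 25 * ∑ c ∈ lo, p c) := by ring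

end one

/-- affine denominators and their quotients. -/
noncomputable def Dd (d0 d1 : Bool → ℝ) (o : Bool) (t : ℝ) : ℝ := d0 o + t * d1 o

noncomputable def Ph (d0 d1 n0 n1 : Bool → ℝ) (o : Bool) (t : ℝ) : ℝ :=
  (n0 o + t * n1 o) / (d0 o + t * d1 o)

structure BOk (d0 d1 n0 n1 : Bool → ℝ) : Prop where
  pos : ∀ o, 0 < d0 o
  dn : ∀ o, 0 ≤ d1 o
  dl : ∀ o, d1 o ≤ d0 o
  ph0 : ∀ o t, 0 ≤ t → t ≤ 1 → 0 ≤ Ph d0 d1 n0 n1 o t
  ph1 : ∀ o t, 0 ≤ t → t ≤ 1 → Ph d0 d1 n0 n1 o t ≤ 1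
  up : ∀ t, 0 ≤ t → t ≤ 1 → Ph d0 d1 n0 n1 false t ≤ Ph d0 d1 n0 n1 true t
  an : ∀ o t t', 0 ≤ t → t ≤ t' → t' ≤ 1 → Ph d0 d1 n0 n1 o t' ≤ Ph d0 d1 n0 n1 o t
  ra : ∀ t t', 0 ≤ t → t ≤ t' → t' ≤ 1 →
    Dd d0 d1 true t' * Dd d0 d1 false t ≤ Dd d0 d1 true t * Dd d0 d1 false t'
  r1 : ∀ t, 0 ≤ t → t ≤ 1 → Dd d0 d1 false t ≤ Dd d0 d1 true t
  r2 : ∀ t, 0 ≤ t → t ≤ 1 → Dd d0 d1 true t ≤ 2 * Dd d0 d1 false t

/-- the comparison quantity. -/
noncomputable def Qfo (d0 d1 n0 n1 : Bool → ℝ) (rm tm : ℝ) : ℝ :=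
  rm * (Ph d0 d1 n0 n1 true 0 - Ph d0 d1 n0 n1 false 0) +
    (Ph d0 d1 n0 n1 false 0 - Ph d0 d1 n0 n1 false tm)

theorem blk_up {Y : Type} [Fintype Y] (d0 d1 n0 n1 : Bool → ℝ) (h : BOk d0 d1 n0 n1) (a r t : Y → ℝ)
    (rm tm : ℝ) (hrm : rm ≤ 1) (htm : tm ≤ 1) (ha : ∀ y, 0 < a y) (hr0 : ∀ y, 0 ≤ r y)
    (hr1 : ∀ y, r y ≤ rm) (hr2 : ∀ y, r y < 1) (ht0 : ∀ y, 0 ≤ t y) (ht1 : ∀ y, t y ≤ tm) [Nonempty Y]
    (π : Y → Bool → ℝ) (hπ : ∀ y o, π y o = a y * (if o then r y else 1 - r y) * Dd d0 d1 o (t y)) :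
    ∑ y, ∑ o, π y o * |Ph d0 d1 n0 n1 o (t y) -
        (∑ y, ∑ o, π y o * Ph d0 d1 n0 n1 o (t y)) / ∑ y, ∑ o, π y o| ≤
      6 * Qfo d0 d1 n0 n1 rm tm * ∑ y, ∑ o, π y o := by
  classical
  obtain ⟨y0⟩ := (inferInstance : Nonempty Y)
  haveI : Nonempty Y := ⟨y0⟩
  have hrm0 : 0 ≤ rm := le_trans (hr0 y0) (hr1 y0)
  have htm0 : 0 ≤ tm := le_trans (ht0 y0) (ht1 y0)
  have hD : ∀ o y, 0 < Dd d0 d1 o (t y) := by
    intro o y
    have := h.pos o
    have h2 := mul_nonneg (ht0 y) (h.dn o)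
    unfold Dd; linarith
  have hπ0 : ∀ y o, 0 ≤ π y o := by
    intro y o
    rw [hπ]
    refine mul_nonneg (mul_nonneg (ha y).le ?_) (hD o y).le
    split_ifs
    · exact hr0 y
    · linarith [hr2 y]
  set X := Ph d0 d1 n0 n1 true 0 - Ph d0 d1 n0 n1 false 0 with hX
  set W := Ph d0 d1 n0 n1 false 0 - Ph d0 d1 n0 n1 false tm with hW
  have hX0 : 0 ≤ X := by
    have := h.up 0 le_rfl zero_le_one; linarith
  have hW0 : 0 ≤ W := by
    have := h.an false 0 tm le_rfl htm0 htm; linarith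
  have hQ : Qfo d0 d1 n0 n1 rm tm = rm * X + W := rfl
  have hbt : ∀ y, |Ph d0 d1 n0 n1 true (t y) - Ph d0 d1 n0 n1 false 0| ≤ X + W := by
    intro y
    have t1 : t y ≤ 1 := le_trans (ht1 y) htm
    have e1 := h.an true 0 (t y) le_rfl (ht0 y) t1
    have e2 := h.up (t y) (ht0 y) t1
    have e3 := h.an false (t y) tm (ht0 y) (ht1 y) htm
    rw [abs_le]; constructor <;> linarith
  have hbf : ∀ y, |Ph d0 d1 n0 n1 false (t y) - Ph d0 d1 n0 n1 false 0| ≤ W := by
    intro y
    have t1 : t y ≤ 1 := le_trans (ht1 y) htm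
    have e1 := h.an false 0 (t y) le_rfl (ht0 y) t1
    have e3 := h.an false (t y) tm (ht0 y) (ht1 y) htm
    rw [abs_le]; constructor <;> linarith
  have hy : ∀ y, ∑ o, π y o * |Ph d0 d1 n0 n1 o (t y) - Ph d0 d1 n0 n1 false 0| ≤
      (2 * (rm * X) + W) * ∑ o, π y o := by
    intro y
    rw [Fintype.sum_bool, Fintype.sum_bool]
    have p1 : π y true = a y * r y * Dd d0 d1 true (t y) := by rw [hπ]; simp
    have p2 : π y false = a y * (1 - r y) * Dd d0 d1 false (t y) := by rw [hπ]; simp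
    have t1 : t y ≤ 1 := le_trans (ht1 y) htm
    have q1 := h.r1 (t y) (ht0 y) t1
    have q2 := h.r2 (t y) (ht0 y) t1
    have b1 : π y true * |Ph d0 d1 n0 n1 true (t y) - Ph d0 d1 n0 n1 false 0| ≤
        π y true * (X + W) := mul_le_mul_of_nonneg_left (hbt y) (hπ0 y true)
    have b2 : π y false * |Ph d0 d1 n0 n1 false (t y) - Ph d0 d1 n0 n1 false 0| ≤
        π y false * W := mul_le_mul_of_nonneg_left (hbf y) (hπ0 y false)
    have b3 : π y true * X ≤ 2 * (rm * X) * (π y true + π y false) := by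
      have c1 : π y true ≤ 2 * rm * (a y * Dd d0 d1 false (t y)) := by
        rw [p1]
        have : r y * Dd d0 d1 true (t y) ≤ rm * (2 * Dd d0 d1 false (t y)) :=
          mul_le_mul (hr1 y) q2 (hD true y).le hrm0
        calc a y * r y * Dd d0 d1 true (t y) = a y * (r y * Dd d0 d1 true (t y)) := by ring
          _ ≤ a y * (rm * (2 * Dd d0 d1 false (t y))) := mul_le_mul_of_nonneg_left this (ha y).le
          _ = _ := by ring
      have c2 : a y * Dd d0 d1 false (t y) ≤ π y true + π y false := by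
        rw [p1, p2]
        have := mul_le_mul_of_nonneg_left q1 (mul_nonneg (ha y).le (hr0 y))
        nlinarith
      calc π y true * X ≤ (2 * rm * (a y * Dd d0 d1 false (t y))) * X :=
            mul_le_mul_of_nonneg_right c1 hX0
        _ = (2 * (rm * X)) * (a y * Dd d0 d1 false (t y)) := by ring
        _ ≤ _ := mul_le_mul_of_nonneg_left c2 (by positivity)
    nlinarith
  set S := ∑ y, ∑ o, π y o with hS
  have hS0 : 0 ≤ S := sum_nonneg fun y _ => sum_nonneg fun o _ => hπ0 y o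
  set m := (∑ y, ∑ o, π y o * Ph d0 d1 n0 n1 o (t y)) / S with hm
  set c := Ph d0 d1 n0 n1 false 0 with hc
  have htot : ∑ y, ∑ o, π y o * |Ph d0 d1 n0 n1 o (t y) - c| ≤ (2 * (rm * X) + W) * S := by
    rw [hS, mul_sum]
    exact sum_le_sum fun y _ => hy y
  have hcm : S * |c - m| ≤ ∑ y, ∑ o, π y o * |Ph d0 d1 n0 n1 o (t y) - c| := by
    rcases hS0.eq_or_lt with h0 | h0
    · rw [← h0, zero_mul]
      exact sum_nonneg fun y _ => sum_nonneg fun o _ => mul_nonneg (hπ0 y o) (abs_nonneg _)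
    · have e : S * (m - c) = ∑ y, ∑ o, π y o * (Ph d0 d1 n0 n1 o (t y) - c) := by
        rw [hm]
        have : ∀ y o, π y o * (Ph d0 d1 n0 n1 o (t y) - c) =
          π y o * Ph d0 d1 n0 n1 o (t y) - π y o * c := fun y o => by ring
        simp only [this, sum_sub_distrib, ← sum_mul]
        rw [← hS]
        field_simp
      have e2 : S * |c - m| = |S * (m - c)| := by
        rw [abs_mul, abs_of_pos h0, abs_sub_comm]
      rw [e2, e]
      refine le_trans (abs_sum_le_sum_abs _ _) (sum_le_sum fun y _ => ?_)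
      refine le_trans (abs_sum_le_sum_abs _ _) (sum_le_sum fun o _ => ?_)
      rw [abs_mul, abs_of_nonneg (hπ0 y o)]
  have hfin : ∑ y, ∑ o, π y o * |Ph d0 d1 n0 n1 o (t y) - m| ≤
      ∑ y, ∑ o, π y o * |Ph d0 d1 n0 n1 o (t y) - c| + S * |c - m| := by
    have e : S * |c - m| = ∑ y, ∑ o, π y o * |c - m| := by
      simp only [← sum_mul]; rw [hS]
    rw [e, ← sum_add_distrib]
    refine sum_le_sum fun y _ => ?_
    rw [← sum_add_distrib]
    refine sum_le_sum fun o _ => ?_
    rw [← mul_add]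
    exact mul_le_mul_of_nonneg_left (abs_sub_le _ _ _) (hπ0 y o)
  rw [hQ]
  have hrX : 0 ≤ rm * X := mul_nonneg hrm0 hX0
  have : (2 * (rm * X) + W) * S ≤ 3 * (rm * X + W) * S :=
    mul_le_mul_of_nonneg_right (by linarith) hS0
  nlinarith

end H82.BX

end S_H82_BX_BL1

section S_H82_IC_G1

/-!
# G1: geometry of the boxes

`nm x = max |x i|` (as a natural number, `0` if `d = 0`), `x ∈ bx d n ↔ nm x ≤ n`.
* `mem_bdry`: (`1 ≤ d`): if `nm x = n` then some `|x i| = n` and `x ± e_i` is outside; conversely a neighbour `y` of `x` has `nm y ≤ nm x + 1`, so `nm x ≥ n`.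
* `exit_box`: a path from `u ∈ Λ_n` to `y` with `nm y ≥ n`: take the first vertex `b` with `nm b = n` (if `nm u = n` it is `u`); all the edges before have both ends of norm `≤ n`
  (norms change by at most one at each step).  (If `nm y > n` use `conn_exit` with `D = bx n`: the exit vertex `x` has a neighbour outside, so `nm x = n`; if all vertices stay in
  the box, the path itself is in `bE n` and `nm y = n`.  Or direct induction on the path: for every vertex `x` of it, either `(∃ b ∈ bdry, Conn (ω ∩ bE n) u b)` or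
  (`nm x < n` and `Conn (ω ∩ bE n) u x`).)
* `box_conn`: change the coordinates one by one: `Conn (bE d n) x (Function.update x i a)` for `|a| ≤ n` (induction on the distance), then induction over the finset of coordinates.
* `exists_bE`: `F ⊆ bE n` for `n` large (`n = sup of nm of the ends`).
-/

set_option autoImplicit false

open Finset

namespace H82.IC

variable {d : ℕ}

theorem G1_nm_le {n : ℕ} {x : Vx d} : nm x ≤ n ↔ ∀ i, (x i).natAbs ≤ n := by
  unfold nm
  rw [Finset.sup_le_iff]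
  exact ⟨fun h i => h i (mem_univ i), fun h i _ => h i⟩

theorem G1_le_nm (x : Vx d) (i : Fin d) : (x i).natAbs ≤ nm x := G1_nm_le.1 le_rfl i

theorem mem_bx {n : ℕ} {x : Vx d} : x ∈ bx d n ↔ nm x ≤ n := by
  unfold bx
  rw [Fintype.mem_piFinset, G1_nm_le]
  refine forall_congr' fun i => ?_
  rw [Finset.mem_Icc]
  omega

theorem mem_bx_abs {n : ℕ} {x : Vx d} : x ∈ bx d n ↔ ∀ i, |x i| ≤ (n : ℤ) := by
  rw [mem_bx, G1_nm_le]
  refine forall_congr' fun i => ?_
  rw [Int.abs_eq_natAbs, Nat.cast_le]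

theorem mem_bE {n : ℕ} {e : Ed d} :
    e ∈ bE d n ↔ nm ((Zl d).s e) ≤ n ∧ nm ((Zl d).r e) ≤ n := by
  unfold bE
  rw [Finset.mem_filter, Finset.mem_product, mem_bx, mem_bx]
  exact ⟨fun h => ⟨h.1.1, h.2⟩, fun h => ⟨⟨h.1, mem_univ _⟩, h.2⟩⟩

theorem bE_mono {n m : ℕ} (h : n ≤ m) : bE d n ⊆ bE d m := by
  intro e he
  rw [mem_bE] at he ⊢
  exact ⟨he.1.trans h, he.2.trans h⟩

theorem bx_mono {n m : ℕ} (h : n ≤ m) : bx d n ⊆ bx d m := by
  intro x hx
  rw [mem_bx] at hx ⊢
  exact hx.trans h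

theorem card_bx (n : ℕ) : (bx d n).card = (2 * n + 1) ^ d := by
  unfold bx
  rw [Fintype.card_piFinset]
  simp only [Int.card_Icc, Finset.prod_const, Finset.card_univ, Fintype.card_fin]
  congr 1
  omega

theorem exists_bE (F : Finset (Ed d)) : ∃ n, F ⊆ bE d n := by
  refine ⟨F.sup (fun e => max (nm ((Zl d).s e)) (nm ((Zl d).r e))), fun e he => ?_⟩
  have h1 : max (nm ((Zl d).s e)) (nm ((Zl d).r e)) ≤
      F.sup (fun e => max (nm ((Zl d).s e)) (nm ((Zl d).r e))) :=
    Finset.le_sup (f := fun e => max (nm ((Zl d).s e)) (nm ((Zl d).r e))) he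
  rw [mem_bE]
  exact ⟨(le_max_left _ _).trans h1, (le_max_right _ _).trans h1⟩

theorem nm_zero : nm (0 : Vx d) = 0 := by
  have h : nm (0 : Vx d) ≤ 0 := G1_nm_le.2 fun i => by simp
  omega

theorem nm_eq_zero {x : Vx d} : nm x = 0 ↔ x = 0 := by
  constructor
  · intro h
    funext i
    have h1 := G1_le_nm x i
    rw [h] at h1
    exact Int.natAbs_eq_zero.1 (Nat.le_zero.1 h1)
  · intro h
    rw [h, nm_zero]

theorem nm_neg (x : Vx d) : nm (-x) = nm x := by
  unfold nm
  simp only [Pi.neg_apply, Int.natAbs_neg]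

theorem nm_add (x y : Vx d) : nm (x + y) ≤ nm x + nm y := by
  rw [G1_nm_le]
  intro i
  rw [Pi.add_apply]
  exact (Int.natAbs_add_le _ _).trans (add_le_add (G1_le_nm x i) (G1_le_nm y i))

theorem nm_sub (x y : Vx d) : nm (x - y) ≤ nm x + nm y := by
  rw [sub_eq_add_neg, ← nm_neg y]
  exact nm_add x (-y)

theorem G1_single (i : Fin d) : nm (Pi.single i 1 : Vx d) ≤ 1 := by
  rw [G1_nm_le]
  intro j
  by_cases h : j = i
  · rw [h, Pi.single_eq_same]; simp
  · rw [Pi.single_eq_of_ne h]; simp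

theorem G1_zadj {x y : Vx d} (h : Zadj x y) : nm y ≤ nm x + 1 := by
  obtain ⟨i, h | h⟩ := h
  · rw [h]
    exact (nm_add _ _).trans (Nat.add_le_add_left (G1_single i) _)
  · have h1 : y = x - Pi.single i 1 := by rw [h, add_sub_cancel_right]
    rw [h1]
    exact (nm_sub _ _).trans (Nat.add_le_add_left (G1_single i) _)

theorem G1_adj {x y : Vx d} {ω : Set (Ed d)} (h : (Zl d).Adj ω x y) : Zadj x y := by
  obtain ⟨e, _, h | h⟩ := h
  · exact ⟨e.2, Or.inl (by rw [← h.1, ← h.2]; rfl)⟩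
  · exact ⟨e.2, Or.inr (by rw [← h.1, ← h.2]; rfl)⟩

theorem nm_step {x y : Vx d} {ω : Set (Ed d)} (h : (Zl d).Adj ω x y) : nm y ≤ nm x + 1 :=
  G1_zadj (G1_adj h)

theorem mem_bdry (hd : 1 ≤ d) {n : ℕ} {x : Vx d} : x ∈ bdry d n ↔ nm x = n := by
  classical
  unfold bdry
  rw [Finset.mem_filter]
  constructor
  · rintro ⟨h1, y, h2, h3⟩
    rw [mem_bx] at h1 h2
    have := G1_zadj h3
    omega
  · intro h
    refine ⟨mem_bx.2 h.le, ?_⟩
    have hne : (univ : Finset (Fin d)).Nonempty := ⟨⟨0, hd⟩, mem_univ _⟩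
    obtain ⟨i, _, hi⟩ := Finset.exists_mem_eq_sup univ hne (fun i => (x i).natAbs)
    have hi' : (x i).natAbs = n := by
      rw [← h]
      exact hi.symm
    rcases le_or_gt 0 (x i) with h0 | h0
    · refine ⟨x + Pi.single i 1, ?_, i, Or.inl rfl⟩
      rw [mem_bx, G1_nm_le]
      intro h4
      have h5 := h4 i
      rw [Pi.add_apply, Pi.single_eq_same] at h5
      omega
    · refine ⟨x - Pi.single i 1, ?_, i, Or.inr (by rw [sub_add_cancel])⟩
      rw [mem_bx, G1_nm_le]
      intro h4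
      have h5 := h4 i
      rw [Pi.sub_apply, Pi.single_eq_same] at h5
      omega

theorem G1_poe (hd : 1 ≤ d) {n : ℕ} {ω : Set (Ed d)} {u y : Vx d} (hu : nm u ≤ n)
    (h : (Zl d).Conn ω u y) :
    ((Zl d).Conn (ω ∩ bE d n) u y ∧ nm y ≤ n) ∨
      ∃ b ∈ bdry d n, (Zl d).Conn (ω ∩ bE d n) u b := by
  induction h with
  | refl => exact Or.inl ⟨conn_refl _ _ _, hu⟩
  | @tail y z _ hyz ih =>
    rcases ih with ⟨h1, h2⟩ | h1
    · rcases le_or_gt (nm z) n with h3 | h3
      · left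
        refine ⟨Relation.ReflTransGen.tail h1 ?_, h3⟩
        obtain ⟨e, he, hor⟩ := hyz
        refine ⟨e, ⟨he, ?_⟩, hor⟩
        rw [Finset.mem_coe, mem_bE]
        rcases hor with h4 | h4
        · rw [h4.1, h4.2]; exact ⟨h2, h3⟩
        · rw [h4.1, h4.2]; exact ⟨h3, h2⟩
      · right
        have h4 := nm_step hyz
        exact ⟨y, (mem_bdry hd).2 (by omega), h1⟩
    · exact Or.inr h1

theorem exit_box (hd : 1 ≤ d) {n : ℕ} {ω : Set (Ed d)} {u y : Vx d} (hu : nm u ≤ n) (hy : n ≤ nm y)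
    (h : (Zl d).Conn ω u y) : ∃ b ∈ bdry d n, (Zl d).Conn (ω ∩ bE d n) u b := by
  rcases G1_poe hd hu h with ⟨h1, h2⟩ | h1
  · exact ⟨y, (mem_bdry hd).2 (le_antisymm h2 hy), h1⟩
  · exact h1

/-- a path inside `Λ_n`, or an exit. -/
theorem path_or_exit (hd : 1 ≤ d) {n : ℕ} {ω : Set (Ed d)} {u y : Vx d} (hu : nm u ≤ n)
    (h : (Zl d).Conn ω u y) :
    (Zl d).Conn (ω ∩ bE d n) u y ∨ ∃ b ∈ bdry d n, (Zl d).Conn (ω ∩ bE d n) u b := by
  rcases G1_poe hd hu h with ⟨h1, _⟩ | h1
  · exact Or.inl h1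
  · exact Or.inr h1

theorem G1_conn_zero {n : ℕ} : ∀ (k : ℕ) (u : Vx d), ∑ i, (u i).natAbs = k → nm u ≤ n →
    (Zl d).Conn (bE d n : Set (Ed d)) u 0 := by
  intro k
  induction k with
  | zero =>
    intro u hu _
    have h1 : u = 0 := by
      funext i
      have h2 := (Finset.sum_eq_zero_iff.1 hu) i (mem_univ i)
      exact Int.natAbs_eq_zero.1 h2
    rw [h1]
    exact conn_refl _ _ _
  | succ k ih =>
    intro u hu hn
    have h1 : ∃ i, u i ≠ 0 := by
      by_contra hcon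
      rw [not_exists] at hcon
      have h2 : ∑ i, (u i).natAbs = 0 := by
        refine Finset.sum_eq_zero fun i _ => ?_
        rw [Int.natAbs_eq_zero]
        exact not_not.1 (hcon i)
      omega
    obtain ⟨i, hi⟩ := h1
    have hs := Finset.add_sum_erase univ (fun j => (u j).natAbs) (mem_univ i)
    rcases lt_or_gt_of_ne hi with h0 | h0
    · -- u i < 0
      have hs' := Finset.add_sum_erase univ (fun j => ((u + Pi.single i 1 : Vx d) j).natAbs) (mem_univ i)
      have he : ∑ j ∈ univ.erase i, ((u + Pi.single i 1 : Vx d) j).natAbs =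
          ∑ j ∈ univ.erase i, (u j).natAbs := by
        refine Finset.sum_congr rfl fun j hj => ?_
        rw [Pi.add_apply, Pi.single_eq_of_ne (Finset.ne_of_mem_erase hj), add_zero]
      have hi1 : ((u + Pi.single i 1 : Vx d) i).natAbs + 1 = (u i).natAbs := by
        rw [Pi.add_apply, Pi.single_eq_same]; omega
      have hn' : nm (u + Pi.single i 1) ≤ n := by
        rw [G1_nm_le]
        intro j
        have h2 := (G1_le_nm u j).trans hn
        by_cases hj : j = i
        · rw [hj]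
          have h3 := (G1_le_nm u i).trans hn
          omega
        · rw [Pi.add_apply, Pi.single_eq_of_ne hj, add_zero]; exact h2
      have h3 := ih (u + Pi.single i 1) (by omega) hn'
      have h4 : ((u, i) : Ed d) ∈ (bE d n : Set (Ed d)) := by
        rw [Finset.mem_coe, mem_bE]
        exact ⟨hn, hn'⟩
      exact conn_trans _ (conn_edge (Zl d) h4) h3
    · have hs' := Finset.add_sum_erase univ (fun j => ((u - Pi.single i 1 : Vx d) j).natAbs) (mem_univ i)
      have he : ∑ j ∈ univ.erase i, ((u - Pi.single i 1 : Vx d) j).natAbs =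
          ∑ j ∈ univ.erase i, (u j).natAbs := by
        refine Finset.sum_congr rfl fun j hj => ?_
        rw [Pi.sub_apply, Pi.single_eq_of_ne (Finset.ne_of_mem_erase hj), sub_zero]
      have hi1 : ((u - Pi.single i 1 : Vx d) i).natAbs + 1 = (u i).natAbs := by
        rw [Pi.sub_apply, Pi.single_eq_same]; omega
      have hn' : nm (u - Pi.single i 1) ≤ n := by
        rw [G1_nm_le]
        intro j
        have h2 := (G1_le_nm u j).trans hn
        by_cases hj : j = i
        · rw [hj]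
          have h3 := (G1_le_nm u i).trans hn
          omega
        · rw [Pi.sub_apply, Pi.single_eq_of_ne hj, sub_zero]; exact h2
      have h3 := ih (u - Pi.single i 1) (by omega) hn'
      have hr : (Zl d).r (u - Pi.single i 1, i) = u := by
        change u - Pi.single i 1 + Pi.single i 1 = u
        rw [sub_add_cancel]
      have h4 : ((u - Pi.single i 1, i) : Ed d) ∈ (bE d n : Set (Ed d)) := by
        rw [Finset.mem_coe, mem_bE]
        exact ⟨hn', by rw [hr]; exact hn⟩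
      have h5 := conn_edge (Zl d) h4
      rw [hr] at h5
      exact conn_trans _ (conn_symm _ h5) h3

theorem box_conn {n : ℕ} {u v : Vx d} (hu : nm u ≤ n) (hv : nm v ≤ n) :
    (Zl d).Conn (bE d n : Set (Ed d)) u v :=
  conn_trans _ (G1_conn_zero _ u rfl hu) (conn_symm _ (G1_conn_zero _ v rfl hv))

/-- every path is contained in some box. -/
theorem conn_in_box {ω : Set (Ed d)} {u v : Vx d} (h : (Zl d).Conn ω u v) :
    ∃ n, (Zl d).Conn (ω ∩ bE d n) u v := by
  induction h with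
  | refl => exact ⟨0, conn_refl _ _ _⟩
  | @tail y z _ hyz ih =>
    obtain ⟨n, hn⟩ := ih
    obtain ⟨e, he, hor⟩ := hyz
    obtain ⟨m, hm⟩ := exists_bE ({e} : Finset (Ed d))
    have hem : e ∈ bE d m := hm (Finset.mem_singleton_self e)
    refine ⟨max n m, Relation.ReflTransGen.tail (b := y) ?_ ?_⟩
    · refine conn_mono _ ?_ hn
      exact Set.inter_subset_inter_right _ (Finset.coe_subset.2 (bE_mono (le_max_left n m)))
    · exact ⟨e, ⟨he, Finset.mem_coe.2 (bE_mono (le_max_right n m) hem)⟩, hor⟩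

end H82.IC

end S_H82_IC_G1
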