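import Mathlib
import Pool.Agent.H82.BXM.G01

/-! MP_26628e_mp: this file joins several modules to save build time. -/

section S_H82_BX_GI1

/-!
# GI1: Ising partition functions with pair weights

`Zs_mono`: expand `∏_e (p e + q e s_e) = ∑_{S} ∏_{e ∉ S} p e ∏_{e ∈ S} q e ∏_{e ∈ S} s_e` (`Finset.prod_add`), and
`∑_σ ∏_{e ∈ S} s_e ≥ 0`: `s_e = sg (σ u) sg (σ v)`, the product is a product over the vertices of `sg (σ x)^{d x}`
(`∑_σ ∏_x sg(σ x)^{d x} = ∏_x (1 + (-1)^{d x})`); so the sum is `0` or `2^|V|`.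
`Zs_pos`: all factors are `≥ 0`, the term `σ = true` is positive.
`Zv_upd`: affine in each parameter; `Zv_bd`: `Zv (t[e := 0]) ≤ Zv (t[e := 1])` (`Zs_mono`) and each factor `1 + s ≤ 2 · 1`
while the other factors are `≥ 0`.
-/

set_option autoImplicit false

open Finset MeasureTheory

namespace H82.BX

open H82.IC

variable {V E : Type} [Fintype V] [DecidableEq V] [Fintype E] [DecidableEq E]

/-- sum of a product of pair signs. -/
theorem gi1_mono (G : Gr V E) (S : Finset E) :
    0 ≤ ∑ σ : V → Bool, ∏ e ∈ S, (sg (σ (G.s e)) * sg (σ (G.r e))) := by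
  have h1 : ∀ σ : V → Bool, ∏ e ∈ S, (sg (σ (G.s e)) * sg (σ (G.r e))) =
      ∏ x, sg (σ x) ^ ((S.filter (fun e => G.s e = x)).card + (S.filter (fun e => G.r e = x)).card) := by
    intro σ
    rw [prod_mul_distrib, ← prod_fiberwise' S G.s (fun x => sg (σ x)),
      ← prod_fiberwise' S G.r (fun x => sg (σ x)), ← prod_mul_distrib]
    refine prod_congr rfl fun x _ => ?_
    rw [prod_const, prod_const, pow_add]
  simp only [h1]
  have h2 := prod_univ_sum (fun _ : V => (univ : Finset Bool)) (fun (x : V) (b : Bool) =>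
    sg b ^ ((S.filter (fun e => G.s e = x)).card + (S.filter (fun e => G.r e = x)).card))
  rw [Fintype.piFinset_univ] at h2
  rw [← h2]
  refine prod_nonneg fun x _ => ?_
  rw [Fintype.sum_bool]
  rcases neg_one_pow_eq_or ℝ
    ((S.filter (fun e => G.s e = x)).card + (S.filter (fun e => G.r e = x)).card) with h | h
  · simp [sg, h]
  · simp [sg, h]

theorem gi1_exp (G : Gr V E) (p q : E → ℝ) :
    Zs G p q = ∑ S ∈ (univ : Finset E).powerset, ((∏ e ∈ S, p e) * ∏ e ∈ univ \ S, q e) *
      ∑ σ : V → Bool, ∏ e ∈ univ \ S, (sg (σ (G.s e)) * sg (σ (G.r e))) := by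
  unfold Zs
  simp only [prod_add, prod_mul_distrib, mul_sum]
  rw [sum_comm]
  refine sum_congr rfl fun S _ => sum_congr rfl fun σ _ => ?_
  ring

theorem Zs_mono (G : Gr V E) (p q p' q' : E → ℝ) (hp : ∀ e, |p e| ≤ p' e) (hq : ∀ e, |q e| ≤ q' e) :
    |Zs G p q| ≤ Zs G p' q' := by
  rw [gi1_exp, gi1_exp]
  refine (abs_sum_le_sum_abs _ _).trans (sum_le_sum fun S _ => ?_)
  rw [abs_mul, abs_mul, abs_of_nonneg (gi1_mono G (univ \ S)), abs_prod, abs_prod]
  refine mul_le_mul_of_nonneg_right ?_ (gi1_mono G _)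
  exact mul_le_mul (prod_le_prod (fun _ _ => abs_nonneg _) fun e _ => hp e)
    (prod_le_prod (fun _ _ => abs_nonneg _) fun e _ => hq e)
    (prod_nonneg fun _ _ => abs_nonneg _)
    (prod_nonneg fun e _ => (abs_nonneg _).trans (hp e))

theorem gi1_s (a b : Bool) : sg a * sg b = 1 ∨ sg a * sg b = -1 := by
  cases a <;> cases b <;> simp [sg]

theorem gi1_fac (p q : ℝ) (a b : Bool) (h : |q| ≤ p) : 0 ≤ p + q * (sg a * sg b) := by
  have h1 := abs_le.1 h
  rcases gi1_s a b with h | h <;> rw [h] <;> linarith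

theorem Zs_pos (G : Gr V E) (p q : E → ℝ) (hp : ∀ e, 0 < p e) (hq : ∀ e, |q e| ≤ p e)
    (hq0 : ∀ e, 0 ≤ q e) : 0 < Zs G p q := by
  refine sum_pos' (fun σ _ => prod_nonneg fun e _ => gi1_fac _ _ _ _ (hq e))
    ⟨fun _ => true, mem_univ _, prod_pos fun e _ => ?_⟩
  have := hp e
  have := hq0 e
  simp only [sg, if_true]
  linarith

theorem Zv_pos (G : Gr V E) (t : E → ℝ) (h0 : ∀ e, 0 ≤ t e) (h1 : ∀ e, t e ≤ 1) : 0 < Zv G t :=
  Zs_pos G _ _ (fun _ => one_pos) (fun e => by rw [abs_of_nonneg (h0 e)]; exact h1 e) h0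

theorem Zv_mono (G : Gr V E) (t t' : E → ℝ) (h0 : ∀ e, 0 ≤ t e) (h : ∀ e, t e ≤ t' e) :
    Zv G t ≤ Zv G t' :=
  (le_abs_self _).trans (Zs_mono G _ _ _ _ (fun _ => by simp)
    fun e => by rw [abs_of_nonneg (h0 e)]; exact h e)

/-- the other factors. -/
noncomputable def gi1R (G : Gr V E) (t : E → ℝ) (e : E) (σ : V → Bool) : ℝ :=
  ∏ e' ∈ univ.erase e, (1 + t e' * (sg (σ (G.s e')) * sg (σ (G.r e'))))

theorem gi1_upd (G : Gr V E) (t : E → ℝ) (e : E) (x : ℝ) :
    Zv G (Function.update t e x) =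
      ∑ σ : V → Bool, (1 + x * (sg (σ (G.s e)) * sg (σ (G.r e)))) * gi1R G t e σ := by
  refine sum_congr rfl fun σ _ => ?_
  rw [← mul_prod_erase univ _ (mem_univ e), Function.update_self]
  congr 1
  refine prod_congr rfl fun e' he' => ?_
  rw [Function.update_of_ne (ne_of_mem_erase he')]

theorem Zv_upd (G : Gr V E) (t : E → ℝ) (e : E) (x : ℝ) :
    Zv G (Function.update t e x) =
      Zv G (Function.update t e 0) + x * (Zv G (Function.update t e 1) - Zv G (Function.update t e 0)) := by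
  rw [gi1_upd, gi1_upd, gi1_upd, ← sum_sub_distrib, mul_sum, ← sum_add_distrib]
  refine sum_congr rfl fun σ _ => ?_
  ring

theorem Zv_bd (G : Gr V E) (t : E → ℝ) (e : E) (h0 : ∀ e, 0 ≤ t e) (h1 : ∀ e, t e ≤ 1) :
    Zv G (Function.update t e 0) ≤ Zv G (Function.update t e 1) ∧
      Zv G (Function.update t e 1) ≤ 2 * Zv G (Function.update t e 0) := by
  constructor
  · refine Zv_mono G _ _ (fun e' => ?_) fun e' => ?_
    · by_cases h : e' = e
      · subst h; simp
      · rw [Function.update_of_ne h]; exact h0 e'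
    · by_cases h : e' = e
      · subst h; simp
      · rw [Function.update_of_ne h, Function.update_of_ne h]
  · rw [gi1_upd, gi1_upd, mul_sum]
    refine sum_le_sum fun σ _ => ?_
    have hR : 0 ≤ gi1R G t e σ := prod_nonneg fun e' _ =>
      gi1_fac _ _ _ _ (by rw [abs_of_nonneg (h0 e')]; exact h1 e')
    have : 1 + 1 * (sg (σ (G.s e)) * sg (σ (G.r e))) ≤ 2 := by
      rcases gi1_s (σ (G.s e)) (σ (G.r e)) with h | h <;> rw [h] <;> norm_num
    calc (1 + 1 * (sg (σ (G.s e)) * sg (σ (G.r e)))) * gi1R G t e σ ≤ 2 * gi1R G t e σ :=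
          mul_le_mul_of_nonneg_right this hR
      _ = 2 * ((1 + 0 * (sg (σ (G.s e)) * sg (σ (G.r e)))) * gi1R G t e σ) := by ring

theorem gi1_conn (G : Gr V E) (o : E → Bool) (σ : V → Bool)
    (h : ∏ e, (1 + bt o e * (sg (σ (G.s e)) * sg (σ (G.r e)))) ≠ 0) {u v : V}
    (huv : G.Conn (op1 o) u v) : σ u = σ v := by
  induction huv with
  | refl => rfl
  | tail _ h2 ih =>
    rw [ih]
    obtain ⟨e, he, hh⟩ := h2
    have h3 := prod_ne_zero_iff.1 h e (mem_univ e)
    have he' : o e = true := he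
    have h4 : σ (G.s e) = σ (G.r e) := by
      simp only [bt, he', if_true] at h3
      revert h3
      cases σ (G.s e) <;> cases σ (G.r e) <;> simp [sg]
    rcases hh with ⟨h5, h6⟩ | ⟨h5, h6⟩
    · rw [← h5, ← h6, h4]
    · rw [← h5, ← h6, h4]

theorem sg_not (b : Bool) : sg (!b) = -sg b := by cases b <;> simp [sg]

/-- two point function of the Ising model with pair weights `1 + bt o`: connectivity. -/
theorem Zv_conn (G : Gr V E) (o : E → Bool) (u v : V) :
    ∑ σ : V → Bool, (sg (σ u) * sg (σ v)) * ∏ e, (1 + bt o e * (sg (σ (G.s e)) * sg (σ (G.r e)))) =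
      ind (G.Conn (op1 o) u v) * Zv G (bt o) := by
  classical
  by_cases huv : G.Conn (op1 o) u v
  · rw [show ind (G.Conn (op1 o) u v) = 1 by simp [ind, huv], one_mul]
    refine sum_congr rfl fun σ _ => ?_
    by_cases h : ∏ e, (1 + bt o e * (sg (σ (G.s e)) * sg (σ (G.r e)))) = 0
    · rw [h, mul_zero]
    · rw [gi1_conn G o σ h huv]
      rcases gi1_s (σ v) (σ v) with h' | h'
      · rw [h', one_mul]
      · exfalso
        revert h'
        cases σ v <;> norm_num [sg]
  · rw [show ind (G.Conn (op1 o) u v) = 0 by simp [ind, huv], zero_mul]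
    -- flip the cluster of `u`
    let F : (V → Bool) → (V → Bool) := fun σ x => if G.Conn (op1 o) u x then !(σ x) else σ x
    have hF : Function.Involutive F := by
      intro σ
      funext x
      simp only [F]
      split_ifs <;> simp
    have hsum := (Equiv.sum_comp hF.toPerm (fun σ : V → Bool => (sg (σ u) * sg (σ v)) *
      ∏ e, (1 + bt o e * (sg (σ (G.s e)) * sg (σ (G.r e))))))
    have hneg : ∀ σ : V → Bool, (sg (F σ u) * sg (F σ v)) *
        ∏ e, (1 + bt o e * (sg (F σ (G.s e)) * sg (F σ (G.r e)))) =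
        -((sg (σ u) * sg (σ v)) * ∏ e, (1 + bt o e * (sg (σ (G.s e)) * sg (σ (G.r e))))) := by
      intro σ
      have e1 : F σ u = !(σ u) := by simp [F, H82.IC.conn_refl]
      have e2 : F σ v = σ v := by simp [F, huv]
      have e3 : ∏ e, (1 + bt o e * (sg (F σ (G.s e)) * sg (F σ (G.r e)))) =
          ∏ e, (1 + bt o e * (sg (σ (G.s e)) * sg (σ (G.r e)))) := by
        refine prod_congr rfl fun e _ => ?_
        by_cases he : o e = true
        · have hiff : G.Conn (op1 o) u (G.s e) ↔ G.Conn (op1 o) u (G.r e) :=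
            ⟨fun h => H82.IC.conn_trans G h (H82.IC.conn_edge G (ω := op1 o) he),
              fun h => H82.IC.conn_trans G h
                (H82.IC.conn_symm G (H82.IC.conn_edge G (ω := op1 o) he))⟩
          by_cases hc : G.Conn (op1 o) u (G.r e)
          · have hc' := hiff.2 hc
            simp [F, hc, hc', sg_not]
          · have hc' : ¬ G.Conn (op1 o) u (G.s e) := fun h => hc (hiff.1 h)
            simp [F, hc, hc']
        · simp [bt, he]
      rw [e1, e2, e3, sg_not]
      ring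
    have hs2 : ∑ σ : V → Bool, (sg (F σ u) * sg (F σ v)) *
        ∏ e, (1 + bt o e * (sg (F σ (G.s e)) * sg (F σ (G.r e)))) =
        ∑ σ : V → Bool, (sg (σ u) * sg (σ v)) *
          ∏ e, (1 + bt o e * (sg (σ (G.s e)) * sg (σ (G.r e)))) := hsum
    simp only [hneg, sum_neg_distrib] at hs2
    linarith

end H82.BX

end S_H82_BX_GI1

section S_H82_BX_GI3

/-!
# GI3: summing the inner signs of the chains

`LK4 G` has the pairs `(e, j)`, `j < 3` the links of the chain of `e`, and `(e, 3)` the direct pair `s e, r e`.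
`chain_sum`: write `SV → Bool` as (signs on `V`) × (signs on `E × Bool`), the weight factorises over `e` for fixed signs on `V`; for
`e ∈ B` the inner signs are free (factor 4); for `e ∉ B`:
`∑_{a,b = ±1} (C0 + S0 s a)(C1 + S1 a b)(C2 + S2 b s') = 4 (C0 C1 C2 + S0 S1 S2 s s') = 4 C0 C1 C2 (1 + T0 T1 T2 s s')`,
`C = cosh`, `S = sinh`, `T = tanh`.
-/

set_option autoImplicit false

open Finset MeasureTheory

namespace H82.BX

open H82.IC

variable {V E : Type} [Fintype V] [DecidableEq V] [Fintype E] [DecidableEq E]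

/-- links and direct pairs. -/
def LK4 (G : Gr V E) : Gr (SV V E) (E × Fin 4) where
  s l := (![Sum.inl (G.s l.1), Sum.inr (l.1, false), Sum.inr (l.1, true), Sum.inl (G.s l.1)] :
    Fin 4 → SV V E) l.2
  r l := (![Sum.inr (l.1, false), Sum.inr (l.1, true), Sum.inl (G.r l.1), Sum.inl (G.r l.1)] :
    Fin 4 → SV V E) l.2

/-- weights `p` for couplings `K` on the links of `e ∉ B` and direct weights `1 + u s` for `e ∈ B`. -/
noncomputable def p4 (B : Finset E) (K : E × Fin 3 → ℝ) (l : E × Fin 4) : ℝ :=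
  if l.1 ∈ B then 1 else
    (![Real.cosh (K (l.1, 0)), Real.cosh (K (l.1, 1)), Real.cosh (K (l.1, 2)), 1] : Fin 4 → ℝ) l.2

noncomputable def q4 (B : Finset E) (K : E × Fin 3 → ℝ) (u : E → ℝ) (l : E × Fin 4) : ℝ :=
  if l.1 ∈ B then (![0, 0, 0, u l.1] : Fin 4 → ℝ) l.2 else
    (![Real.sinh (K (l.1, 0)), Real.sinh (K (l.1, 1)), Real.sinh (K (l.1, 2)), 0] : Fin 4 → ℝ) l.2

/-- signs on the vertices and pairs of inner signs. -/
def gi3Eq (V E : Type) : (V → Bool) × (E → Bool × Bool) ≃ (SV V E → Bool) where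
  toFun x := Sum.elim x.1 (fun q => if q.2 then (x.2 q.1).2 else (x.2 q.1).1)
  invFun σ := (fun v => σ (Sum.inl v), fun e => (σ (Sum.inr (e, false)), σ (Sum.inr (e, true))))
  left_inv x := by
    rcases x with ⟨x1, x2⟩
    simp
  right_inv σ := by
    funext w
    rcases w with v | ⟨e, b⟩
    · rfl
    · cases b <;> rfl

/-- the factor of the edge `e`. -/
noncomputable def gi3h (G : Gr V E) (B : Finset E) (K : E × Fin 3 → ℝ) (u : E → ℝ) (α : V → Bool)
    (e : E) (t : Bool × Bool) : ℝ :=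
  (p4 B K (e, 0) + q4 B K u (e, 0) * (sg (α (G.s e)) * sg t.1)) *
  (p4 B K (e, 1) + q4 B K u (e, 1) * (sg t.1 * sg t.2)) *
  (p4 B K (e, 2) + q4 B K u (e, 2) * (sg t.2 * sg (α (G.r e)))) *
  (p4 B K (e, 3) + q4 B K u (e, 3) * (sg (α (G.s e)) * sg (α (G.r e))))

theorem gi3_sum (G : Gr V E) (B : Finset E) (K : E × Fin 3 → ℝ) (u : E → ℝ) (α : V → Bool)
    (e : E) : ∑ t : Bool × Bool, gi3h G B K u α e t =
      4 * (if e ∉ B then ∏ j : Fin 3, Real.cosh (K (e, j)) else 1) *
        (1 + (if e ∈ B then u e else ∏ j : Fin 3, Real.tanh (K (e, j))) *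
          (sg (α (G.s e)) * sg (α (G.r e)))) := by
  rw [Fintype.sum_prod_type]
  simp only [Fintype.sum_bool, gi3h, p4, q4]
  by_cases he : e ∈ B
  · simp only [he, if_true, not_true, if_false]
    simp [sg]
    ring
  · simp only [he, if_false, not_false_iff, if_true, Fin.prod_univ_three,
      Real.tanh_eq_sinh_div_cosh]
    have h0 := (Real.cosh_pos (K (e, 0))).ne'
    have h1 := (Real.cosh_pos (K (e, 1))).ne'
    have h2 := (Real.cosh_pos (K (e, 2))).ne'
    simp only [Matrix.cons_val_zero, Matrix.cons_val_one, Matrix.cons_val]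
    have e1 : sg true = 1 := rfl
    have e2 : sg false = -1 := rfl
    rw [e1, e2]
    field_simp
    ring

theorem chain_sum (G : Gr V E) (B : Finset E) (K : E × Fin 3 → ℝ) (u : E → ℝ) :
    Zs (LK4 G) (p4 B K) (q4 B K u) =
      4 ^ Fintype.card E * (∏ e ∈ univ \ B, ∏ j : Fin 3, Real.cosh (K (e, j))) *
        Zv G (fun e => if e ∈ B then u e else ∏ j : Fin 3, Real.tanh (K (e, j))) := by
  classical
  have h1 : Zs (LK4 G) (p4 B K) (q4 B K u) =
      ∑ x : (V → Bool) × (E → Bool × Bool), ∏ e, gi3h G B K u x.1 e (x.2 e) := by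
    unfold Zs
    rw [← Equiv.sum_comp (gi3Eq V E)]
    refine sum_congr rfl fun x _ => ?_
    rw [Fintype.prod_prod_type]
    refine prod_congr rfl fun e _ => ?_
    rw [Fin.prod_univ_four]
    rfl
  rw [h1, Fintype.sum_prod_type]
  have h2 : ∀ α : V → Bool, ∑ τ : E → Bool × Bool, ∏ e, gi3h G B K u α e (τ e) =
      ∏ e, ∑ t : Bool × Bool, gi3h G B K u α e t := by
    intro α
    rw [prod_univ_sum, Fintype.piFinset_univ]
  simp only [h2, gi3_sum]
  unfold Zv Zs
  rw [mul_sum]
  refine sum_congr rfl fun α _ => ?_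
  rw [prod_mul_distrib, prod_mul_distrib, prod_const, card_univ]
  congr 2
  rw [← prod_filter]
  refine prod_congr ?_ fun _ _ => rfl
  ext e
  simp

end H82.BX

end S_H82_BX_GI3

section S_H82_BX_GI2

/-!
# GI2: four partition functions

`Zs p1 q1 * Zs p2 q2 = ∑_{σ,σ'} ∏_e (p1 + q1 s)(p2 + q2 s')`; put `σ' = σ xor η` (bijection for fixed `σ`), so `s' = s h` with
`h = sg (η u) sg (η v) ∈ {1,-1}`.  For fixed `η` the product over `e` is `∏ (a_e + b_e s_e)` with
`h = 1`: `a = p1 p2 + q1 q2`, `b = p1 q2 + q1 p2`;  `h = -1`: `a = p1 p2 - q1 q2`, `b = q1 p2 - p1 q2`;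
similarly for `3, 4`; apply `Zs_mono` for each `η` and sum.
-/

set_option autoImplicit false

open Finset MeasureTheory

namespace H82.BX

open H82.IC

variable {V E : Type} [Fintype V] [DecidableEq V] [Fintype E] [DecidableEq E]

theorem GI2_sg_xor (a b : Bool) : sg (xor a b) = -(sg a * sg b) := by
  cases a <;> cases b <;> simp [sg]

theorem GI2_sg_sq (a : Bool) : sg a * sg a = 1 := by
  cases a <;> simp [sg]

/-- product of the signs of the ends. -/
def GI2_h (G : Gr V E) (η : V → Bool) (e : E) : ℝ := sg (η (G.s e)) * sg (η (G.r e))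

theorem GI2_h_cases (G : Gr V E) (η : V → Bool) (e : E) : GI2_h G η e = 1 ∨ GI2_h G η e = -1 := by
  unfold GI2_h
  cases η (G.s e) <;> cases η (G.r e) <;> simp [sg]

theorem GI2_mul (G : Gr V E) (p q p' q' : E → ℝ) :
    Zs G p q * Zs G p' q' =
      ∑ η : V → Bool, Zs G (fun e => p e * p' e + q e * q' e * GI2_h G η e)
        (fun e => q e * p' e + p e * q' e * GI2_h G η e) := by
  unfold Zs
  rw [Finset.sum_mul_sum, Finset.sum_comm' (s := univ) (t := fun _ => univ) (s' := fun _ => univ)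
    (t' := univ) (by intro x y; simp)]
  rw [Finset.sum_comm]
  have hI : ∀ σ : V → Bool, Function.Involutive (fun η : V → Bool => fun x => xor (σ x) (η x)) := by
    intro σ η
    funext x
    simp
  have key : ∀ σ : V → Bool,
      ∑ σ' : V → Bool, (∏ e, (p e + q e * (sg (σ (G.s e)) * sg (σ (G.r e))))) *
        ∏ e, (p' e + q' e * (sg (σ' (G.s e)) * sg (σ' (G.r e)))) =
      ∑ η : V → Bool, ∏ e, (p e * p' e + q e * q' e * GI2_h G η e +
        (q e * p' e + p e * q' e * GI2_h G η e) * (sg (σ (G.s e)) * sg (σ (G.r e)))) := by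
    intro σ
    rw [← Equiv.sum_comp (hI σ).toPerm]
    refine Finset.sum_congr rfl fun η _ => ?_
    rw [← Finset.prod_mul_distrib]
    refine Finset.prod_congr rfl fun e _ => ?_
    have h1 := GI2_sg_sq (σ (G.s e))
    have h2 := GI2_sg_sq (σ (G.r e))
    simp only [Function.Involutive.coe_toPerm]
    rw [GI2_sg_xor, GI2_sg_xor]
    unfold GI2_h
    generalize sg (σ (G.s e)) = a at *
    generalize sg (σ (G.r e)) = b at *
    generalize sg (η (G.s e)) = c at *
    generalize sg (η (G.r e)) = d at *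
    have h3 : (a * b) * (a * b) = 1 := by
      calc (a * b) * (a * b) = (a * a) * (b * b) := by ring
        _ = 1 := by rw [h1, h2, one_mul]
    linear_combination (q e * q' e * c * d) * h3
  calc _ = ∑ σ : V → Bool, ∑ σ' : V → Bool, (∏ e, (p e + q e * (sg (σ (G.s e)) * sg (σ (G.r e))))) *
        ∏ e, (p' e + q' e * (sg (σ' (G.s e)) * sg (σ' (G.r e)))) := by
        first | rfl | exact Finset.sum_comm
    _ = _ := by
        rw [Finset.sum_congr rfl fun σ _ => key σ, Finset.sum_comm]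

theorem Zs_four (G : Gr V E) (p1 q1 p2 q2 p3 q3 p4 q4 : E → ℝ)
    (ha : ∀ e, |p1 e * p2 e + q1 e * q2 e| ≤ p3 e * p4 e + q3 e * q4 e)
    (hb : ∀ e, |p1 e * q2 e + q1 e * p2 e| ≤ p3 e * q4 e + q3 e * p4 e)
    (hc : ∀ e, |p1 e * p2 e - q1 e * q2 e| ≤ p3 e * p4 e - q3 e * q4 e)
    (hd : ∀ e, |q1 e * p2 e - p1 e * q2 e| ≤ q3 e * p4 e - p3 e * q4 e) :
    Zs G p1 q1 * Zs G p2 q2 ≤ Zs G p3 q3 * Zs G p4 q4 := by
  rw [GI2_mul, GI2_mul]
  refine Finset.sum_le_sum fun η _ => ?_
  refine (le_abs_self _).trans (Zs_mono G _ _ _ _ (fun e => ?_) (fun e => ?_))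
  · rcases GI2_h_cases G η e with h | h
    · simp only [h, mul_one]
      exact ha e
    · simp only [h]
      have := hc e
      rw [show p1 e * p2 e + q1 e * q2 e * (-1) = p1 e * p2 e - q1 e * q2 e by ring,
        show p3 e * p4 e + q3 e * q4 e * (-1) = p3 e * p4 e - q3 e * q4 e by ring]
      exact this
  · rcases GI2_h_cases G η e with h | h
    · simp only [h, mul_one]
      have := hb e
      rw [show q1 e * p2 e + p1 e * q2 e = p1 e * q2 e + q1 e * p2 e by ring,
        show q3 e * p4 e + p3 e * q4 e = p3 e * q4 e + q3 e * p4 e by ring]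
      exact this
    · simp only [h]
      have := hd e
      rw [show q1 e * p2 e + p1 e * q2 e * (-1) = q1 e * p2 e - p1 e * q2 e by ring,
        show q3 e * p4 e + p3 e * q4 e * (-1) = q3 e * p4 e - p3 e * q4 e by ring]
      exact this

/-- exponential pair weights: `K4 ≤ K1, K2 ≤ K3`, `K1 + K2 ≤ K3 + K4`, all `≥ 0`. -/
theorem four_exp (K1 K2 K3 K4 : ℝ) (h4 : 0 ≤ K4) (h41 : K4 ≤ K1) (h42 : K4 ≤ K2) (h13 : K1 ≤ K3)
    (h23 : K2 ≤ K3) (hs : K1 + K2 ≤ K3 + K4) :
    |Real.cosh K1 * Real.cosh K2 + Real.sinh K1 * Real.sinh K2| ≤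
        Real.cosh K3 * Real.cosh K4 + Real.sinh K3 * Real.sinh K4 ∧
    |Real.cosh K1 * Real.sinh K2 + Real.sinh K1 * Real.cosh K2| ≤
        Real.cosh K3 * Real.sinh K4 + Real.sinh K3 * Real.cosh K4 ∧
    |Real.cosh K1 * Real.cosh K2 - Real.sinh K1 * Real.sinh K2| ≤
        Real.cosh K3 * Real.cosh K4 - Real.sinh K3 * Real.sinh K4 ∧
    |Real.sinh K1 * Real.cosh K2 - Real.cosh K1 * Real.sinh K2| ≤
        Real.sinh K3 * Real.cosh K4 - Real.cosh K3 * Real.sinh K4 := by
  have hd : |K1 - K2| ≤ K3 - K4 := abs_le.2 ⟨by linarith, by linarith⟩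
  refine ⟨?_, ?_, ?_, ?_⟩
  · rw [← Real.cosh_add, ← Real.cosh_add, abs_of_pos (Real.cosh_pos _), Real.cosh_le_cosh,
      abs_of_nonneg (by linarith), abs_of_nonneg (by linarith)]
    exact hs
  · rw [show Real.cosh K1 * Real.sinh K2 + Real.sinh K1 * Real.cosh K2 = Real.sinh (K1 + K2) by
        rw [Real.sinh_add]; ring,
      show Real.cosh K3 * Real.sinh K4 + Real.sinh K3 * Real.cosh K4 = Real.sinh (K3 + K4) by
        rw [Real.sinh_add]; ring,
      abs_of_nonneg (Real.sinh_nonneg_iff.2 (by linarith)), Real.sinh_le_sinh]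
    exact hs
  · rw [← Real.cosh_sub, ← Real.cosh_sub, abs_of_pos (Real.cosh_pos _), Real.cosh_le_cosh]
    exact hd.trans (le_abs_self _)
  · rw [← Real.sinh_sub, ← Real.sinh_sub, Real.abs_sinh, Real.sinh_le_sinh]
    exact hd

/-- frozen pair weights `1 + u s`. -/
theorem four_bit (u1 u2 : ℝ) (h1 : 0 ≤ u1) (h1' : u1 ≤ 1) (h2 : 0 ≤ u2) (h2' : u2 ≤ 1) :
    |1 * 1 + u1 * u2| ≤ 1 * 1 + max u1 u2 * min u1 u2 ∧
    |1 * u2 + u1 * 1| ≤ 1 * min u1 u2 + max u1 u2 * 1 ∧
    |1 * 1 - u1 * u2| ≤ 1 * 1 - max u1 u2 * min u1 u2 ∧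
    |u1 * 1 - 1 * u2| ≤ max u1 u2 * 1 - 1 * min u1 u2 := by
  have h0 : 0 ≤ u1 * u2 := mul_nonneg h1 h2
  have h3 : u1 * u2 ≤ 1 := by nlinarith
  rcases le_total u1 u2 with h | h
  · rw [max_eq_right h, min_eq_left h]
    refine ⟨?_, ?_, ?_, ?_⟩ <;> refine abs_le.2 ⟨?_, ?_⟩ <;> nlinarith
  · rw [max_eq_left h, min_eq_right h]
    refine ⟨?_, ?_, ?_, ?_⟩ <;> refine abs_le.2 ⟨?_, ?_⟩ <;> nlinarith

end H82.BX

end S_H82_BX_GI2

section S_H82_BX_GI5

/-!
# GI5: the edge bits given the moduli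

`fo_sum`: `Zv G (if e ∈ B then bt o0 e else r e)`: expand `1 + r s = (1 - r) · (1 + 0 s) + r (1 + s)` on the edges off `B`.
`fo_mono`: Holley's inequality (`holley` in `Mathlib/Combinatorics/SetFamily/FourFunctions.lean`) on the finite distributive
lattice `E → Bool` with
`f1 o = 1[o = o0 on B] ∏_{e ∉ B} (if o e then r e else 1 - r e) Zv (bt o)` / norm and `f2` with `r', o0'`:
`f1 o f2 o' ≤ f1 (o ⊓ o') f2 (o ⊔ o')` from `Zs_four` + `four_bit` (`bt (o ⊔ o') = max`), from
`(1-r)^{1-a} r^a (1-r')^{1-a'} r'^{a'} ≤ (1-r)^{1-a∧a'} r^{a∧a'} (1-r')^{1-a∨a'} r'^{a∨a'}` for `r ≤ r'`, and from the constraints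
(`o0 ≤ o0'` on `B`).  The observable has to be made nonnegative by adding a constant.
`fo_fkg`: `fkg` (same file) with the weight `f1` (`r = r'`, `o0 = o0'`).
-/

set_option autoImplicit false

open Finset MeasureTheory

namespace H82.BX

open H82.IC

variable {V E : Type} [Fintype V] [DecidableEq V] [Fintype E] [DecidableEq E]

/-- unnormalised sum over the bits equal to `o0` on `B`. -/
noncomputable def fo (G : Gr V E) (B : Finset E) (r : E → ℝ) (o0 : E → Bool) (f : (E → Bool) → ℝ) : ℝ :=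
  ∑ o : E → Bool, if (∀ e ∈ B, o e = o0 e) then
    (∏ e ∈ univ \ B, (if o e then r e else 1 - r e)) * Zv G (bt o) * f o else 0

/-- local weight of the bit `x` of the edge `e`. -/
noncomputable def GI5_w (B : Finset E) (r : E → ℝ) (o0 : E → Bool) (e : E) (x : Bool) : ℝ :=
  if e ∈ B then (if x = o0 e then 1 else 0) else (if x then r e else 1 - r e)

/-- product weight. -/
noncomputable def GI5_ph (B : Finset E) (r : E → ℝ) (o0 : E → Bool) (o : E → Bool) : ℝ :=
  ∏ e, GI5_w B r o0 e (o e)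

omit [Fintype V] [DecidableEq V] in
theorem GI5_ph_eq (B : Finset E) (r : E → ℝ) (o0 o : E → Bool) :
    GI5_ph B r o0 o = if (∀ e ∈ B, o e = o0 e) then
      (∏ e ∈ univ \ B, (if o e then r e else 1 - r e)) else 0 := by
  unfold GI5_ph
  split_ifs with h
  · rw [← Finset.prod_sdiff (Finset.subset_univ B)]
    have h1 : ∏ e ∈ B, GI5_w B r o0 e (o e) = 1 := by
      refine Finset.prod_eq_one fun e he => ?_
      unfold GI5_w
      rw [if_pos he, if_pos (h e he)]
    rw [h1, mul_one]
    refine Finset.prod_congr rfl fun e he => ?_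
    unfold GI5_w
    rw [if_neg (Finset.mem_sdiff.1 he).2]
  · push Not at h
    obtain ⟨e, he, hne⟩ := h
    refine Finset.prod_eq_zero (Finset.mem_univ e) ?_
    unfold GI5_w
    rw [if_pos he, if_neg hne]

theorem GI5_fo (G : Gr V E) (B : Finset E) (r : E → ℝ) (o0 : E → Bool) (f : (E → Bool) → ℝ) :
    fo G B r o0 f = ∑ o : E → Bool, GI5_ph B r o0 o * Zv G (bt o) * f o := by
  unfold fo
  refine Finset.sum_congr rfl fun o _ => ?_
  rw [GI5_ph_eq]
  split_ifs with h
  · rfl
  · rw [zero_mul, zero_mul]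

theorem fo_sum (G : Gr V E) (B : Finset E) (r : E → ℝ) (o0 : E → Bool) :
    fo G B r o0 (fun _ => 1) = Zv G (fun e => if e ∈ B then bt o0 e else r e) := by
  rw [GI5_fo]
  unfold Zv Zs
  simp only [mul_one, Finset.mul_sum]
  rw [Finset.sum_comm]
  refine Finset.sum_congr rfl fun σ _ => ?_
  have key : ∀ e : E, ∑ x : Bool, GI5_w B r o0 e x *
      (1 + (if x then (1 : ℝ) else 0) * (sg (σ (G.s e)) * sg (σ (G.r e)))) =
      1 + (if e ∈ B then bt o0 e else r e) * (sg (σ (G.s e)) * sg (σ (G.r e))) := by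
    intro e
    rw [Fintype.sum_bool]
    unfold GI5_w bt
    by_cases he : e ∈ B
    · simp only [if_pos he]
      cases o0 e <;> simp
    · simp only [if_neg he, if_true, Bool.false_eq_true, if_false]
      ring
  rw [← Finset.prod_congr rfl fun e _ => key e, Finset.prod_univ_sum, Fintype.piFinset_univ]
  refine Finset.sum_congr rfl fun o _ => ?_
  unfold GI5_ph bt
  rw [← Finset.prod_mul_distrib]

theorem GI5_w_nonneg (B : Finset E) (r : E → ℝ) (h0 : ∀ e, 0 ≤ r e) (h1 : ∀ e, r e ≤ 1)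
    (o0 : E → Bool) (e : E) (x : Bool) : 0 ≤ GI5_w B r o0 e x := by
  unfold GI5_w
  have a := h0 e
  have b := h1 e
  split_ifs <;> linarith

theorem GI5_ph_nonneg (B : Finset E) (r : E → ℝ) (h0 : ∀ e, 0 ≤ r e) (h1 : ∀ e, r e ≤ 1)
    (o0 o : E → Bool) : 0 ≤ GI5_ph B r o0 o :=
  Finset.prod_nonneg fun e _ => GI5_w_nonneg B r h0 h1 o0 e (o e)

theorem GI5_w_super (B : Finset E) (r r' : E → ℝ) (h0 : ∀ e, 0 ≤ r e) (h : ∀ e, r e ≤ r' e)
    (h1 : ∀ e, r' e ≤ 1) (o0 o0' : E → Bool) (ho : ∀ e ∈ B, o0 e ≤ o0' e) (e : E) (x y : Bool) :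
    GI5_w B r o0 e x * GI5_w B r' o0' e y ≤ GI5_w B r o0 e (x ⊓ y) * GI5_w B r' o0' e (x ⊔ y) := by
  unfold GI5_w
  by_cases he : e ∈ B
  · simp only [if_pos he]
    have := ho e he
    revert this
    cases x <;> cases y <;> cases o0 e <;> cases o0' e <;> simp
  · simp only [if_neg he]
    have a := h0 e
    have b := h e
    have c := h1 e
    cases x <;> cases y <;> simp <;> nlinarith

theorem GI5_ph_super (B : Finset E) (r r' : E → ℝ) (h0 : ∀ e, 0 ≤ r e) (h : ∀ e, r e ≤ r' e)
    (h1 : ∀ e, r' e ≤ 1) (o0 o0' : E → Bool) (ho : ∀ e ∈ B, o0 e ≤ o0' e) (o o' : E → Bool) :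
    GI5_ph B r o0 o * GI5_ph B r' o0' o' ≤ GI5_ph B r o0 (o ⊓ o') * GI5_ph B r' o0' (o ⊔ o') := by
  unfold GI5_ph
  rw [← Finset.prod_mul_distrib, ← Finset.prod_mul_distrib]
  refine Finset.prod_le_prod (fun e _ => ?_) (fun e _ => ?_)
  · exact mul_nonneg (GI5_w_nonneg B r h0 (fun e => (h e).trans (h1 e)) o0 e _)
      (GI5_w_nonneg B r' (fun e => (h0 e).trans (h e)) h1 o0' e _)
  · exact GI5_w_super B r r' h0 h h1 o0 o0' ho e (o e) (o' e)

theorem GI5_bt01 (o : E → Bool) (e : E) : 0 ≤ bt o e ∧ bt o e ≤ 1 := by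
  unfold bt
  split_ifs <;> norm_num

theorem GI5_Zv_super (G : Gr V E) (o o' : E → Bool) :
    Zv G (bt o) * Zv G (bt o') ≤ Zv G (bt (o ⊓ o')) * Zv G (bt (o ⊔ o')) := by
  have hm : ∀ e, max (bt o e) (bt o' e) = bt (o ⊔ o') e := by
    intro e
    unfold bt
    rw [Pi.sup_apply]
    cases o e <;> cases o' e <;> simp
  have hn : ∀ e, min (bt o e) (bt o' e) = bt (o ⊓ o') e := by
    intro e
    unfold bt
    rw [Pi.inf_apply]
    cases o e <;> cases o' e <;> simp
  have hb := fun e => four_bit (bt o e) (bt o' e) (GI5_bt01 o e).1 (GI5_bt01 o e).2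
    (GI5_bt01 o' e).1 (GI5_bt01 o' e).2
  simp only [hm, hn] at hb
  have := Zs_four G (fun _ => 1) (bt o) (fun _ => 1) (bt o') (fun _ => 1) (bt (o ⊔ o')) (fun _ => 1)
    (bt (o ⊓ o')) (fun e => (hb e).1) (fun e => (hb e).2.1) (fun e => (hb e).2.2.1)
    (fun e => (hb e).2.2.2)
  unfold Zv
  rw [mul_comm (Zs G (fun _ => 1) (bt (o ⊓ o')))]
  exact this

theorem GI5_super (G : Gr V E) (B : Finset E) (r r' : E → ℝ) (h0 : ∀ e, 0 ≤ r e)
    (h : ∀ e, r e ≤ r' e) (h1 : ∀ e, r' e ≤ 1) (o0 o0' : E → Bool) (ho : ∀ e ∈ B, o0 e ≤ o0' e)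
    (o o' : E → Bool) :
    (GI5_ph B r o0 o * Zv G (bt o)) * (GI5_ph B r' o0' o' * Zv G (bt o')) ≤
      (GI5_ph B r o0 (o ⊓ o') * Zv G (bt (o ⊓ o'))) * (GI5_ph B r' o0' (o ⊔ o') * Zv G (bt (o ⊔ o'))) := by
  have hz : ∀ o : E → Bool, 0 ≤ Zv G (bt o) := fun o =>
    (Zv_pos G (bt o) (fun e => (GI5_bt01 o e).1) (fun e => (GI5_bt01 o e).2)).le
  have a1 := GI5_ph_super B r r' h0 h h1 o0 o0' ho o o'
  have a2 := GI5_Zv_super G o o'
  have n1 := GI5_ph_nonneg B r h0 (fun e => (h e).trans (h1 e)) o0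
  have n2 := GI5_ph_nonneg B r' (fun e => (h0 e).trans (h e)) h1 o0'
  calc (GI5_ph B r o0 o * Zv G (bt o)) * (GI5_ph B r' o0' o' * Zv G (bt o'))
      = (GI5_ph B r o0 o * GI5_ph B r' o0' o') * (Zv G (bt o) * Zv G (bt o')) := by ring
    _ ≤ (GI5_ph B r o0 (o ⊓ o') * GI5_ph B r' o0' (o ⊔ o')) *
          (Zv G (bt (o ⊓ o')) * Zv G (bt (o ⊔ o'))) :=
        mul_le_mul a1 a2 (mul_nonneg (hz _) (hz _)) (mul_nonneg (n1 _) (n2 _))
    _ = _ := by ring

theorem GI5_one_pos (G : Gr V E) (B : Finset E) (r : E → ℝ) (h0 : ∀ e, 0 ≤ r e) (h1 : ∀ e, r e ≤ 1)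
    (o0 : E → Bool) : 0 < fo G B r o0 (fun _ => 1) := by
  rw [fo_sum]
  refine Zv_pos G _ (fun e => ?_) (fun e => ?_)
  · split_ifs
    · exact (GI5_bt01 o0 e).1
    · exact h0 e
  · split_ifs
    · exact (GI5_bt01 o0 e).2
    · exact h1 e

theorem GI5_shift (G : Gr V E) (B : Finset E) (r : E → ℝ) (o0 : E → Bool) (f : (E → Bool) → ℝ) (a : ℝ) :
    fo G B r o0 (fun o => f o - a) = fo G B r o0 f - a * fo G B r o0 (fun _ => 1) := by
  rw [GI5_fo, GI5_fo, GI5_fo, Finset.mul_sum, ← Finset.sum_sub_distrib]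
  refine Finset.sum_congr rfl fun o _ => ?_
  ring

theorem fo_mono (G : Gr V E) (B : Finset E) (r r' : E → ℝ) (h0 : ∀ e, 0 ≤ r e) (h : ∀ e, r e ≤ r' e)
    (h1 : ∀ e, r' e ≤ 1) (o0 o0' : E → Bool) (ho : ∀ e ∈ B, o0 e ≤ o0' e) (f : (E → Bool) → ℝ)
    (hf : Monotone f) :
    fo G B r o0 f / fo G B r o0 (fun _ => 1) ≤ fo G B r' o0' f / fo G B r' o0' (fun _ => 1) := by
  have h0' : ∀ e, 0 ≤ r' e := fun e => (h0 e).trans (h e)
  have h1' : ∀ e, r e ≤ 1 := fun e => (h e).trans (h1 e)
  have z1 := GI5_one_pos G B r h0 h1' o0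
  have z2 := GI5_one_pos G B r' h0' h1 o0'
  have hz : ∀ o : E → Bool, 0 ≤ Zv G (bt o) := fun o =>
    (Zv_pos G (bt o) (fun e => (GI5_bt01 o e).1) (fun e => (GI5_bt01 o e).2)).le
  have n1 := GI5_ph_nonneg B r h0 h1' o0
  have n2 := GI5_ph_nonneg B r' h0' h1 o0'
  set Z1 := fo G B r o0 (fun _ => 1) with hZ1
  set Z2 := fo G B r' o0' (fun _ => 1) with hZ2
  have hbot : ∀ o : E → Bool, (fun _ => false) ≤ o := fun o e => Bool.false_le _
  have key := holley (μ := fun o : E → Bool => f o - f (fun _ => false))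
    (f := fun o => GI5_ph B r o0 o * Zv G (bt o) / Z1)
    (g := fun o => GI5_ph B r' o0' o * Zv G (bt o) / Z2)
    (fun o => sub_nonneg.2 (hf (hbot o)))
    (fun o => div_nonneg (mul_nonneg (n1 o) (hz o)) z1.le)
    (fun o => div_nonneg (mul_nonneg (n2 o) (hz o)) z2.le)
    (fun o o' hoo => sub_le_sub_right (hf hoo) _)
    (by
      have e1 : ∑ o, GI5_ph B r o0 o * Zv G (bt o) / Z1 = 1 := by
        rw [← Finset.sum_div, div_eq_one_iff_eq z1.ne', hZ1, GI5_fo]
        simp only [mul_one]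
      have e2 : ∑ o, GI5_ph B r' o0' o * Zv G (bt o) / Z2 = 1 := by
        rw [← Finset.sum_div, div_eq_one_iff_eq z2.ne', hZ2, GI5_fo]
        simp only [mul_one]
      rw [e1, e2])
    (by
      intro o o'
      have := GI5_super G B r r' h0 h h1 o0 o0' ho o o'
      rw [div_mul_div_comm, div_mul_div_comm]
      exact div_le_div_of_nonneg_right this (mul_pos z1 z2).le)
  have e1 : ∑ o, (f o - f (fun _ => false)) * (GI5_ph B r o0 o * Zv G (bt o) / Z1) =
      fo G B r o0 f / Z1 - f (fun _ => false) := by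
    have : fo G B r o0 f / Z1 - f (fun _ => false) =
        fo G B r o0 (fun o => f o - f (fun _ => false)) / Z1 := by
      rw [GI5_shift, ← hZ1]
      field_simp
    rw [this, GI5_fo, Finset.sum_div]
    refine Finset.sum_congr rfl fun o _ => ?_
    ring
  have e2 : ∑ o, (f o - f (fun _ => false)) * (GI5_ph B r' o0' o * Zv G (bt o) / Z2) =
      fo G B r' o0' f / Z2 - f (fun _ => false) := by
    have : fo G B r' o0' f / Z2 - f (fun _ => false) =
        fo G B r' o0' (fun o => f o - f (fun _ => false)) / Z2 := by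
      rw [GI5_shift, ← hZ2]
      field_simp
    rw [this, GI5_fo, Finset.sum_div]
    refine Finset.sum_congr rfl fun o _ => ?_
    ring
  rw [e1, e2] at key
  linarith

theorem fo_fkg (G : Gr V E) (B : Finset E) (r : E → ℝ) (h0 : ∀ e, 0 ≤ r e) (h1 : ∀ e, r e ≤ 1)
    (o0 : E → Bool) (f g : (E → Bool) → ℝ) (hf : Monotone f) (hg : Monotone g) :
    fo G B r o0 f * fo G B r o0 g ≤ fo G B r o0 (fun _ => 1) * fo G B r o0 (fun o => f o * g o) := by
  have hz : ∀ o : E → Bool, 0 ≤ Zv G (bt o) := fun o =>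
    (Zv_pos G (bt o) (fun e => (GI5_bt01 o e).1) (fun e => (GI5_bt01 o e).2)).le
  have n1 := GI5_ph_nonneg B r h0 h1 o0
  have hbot : ∀ o : E → Bool, (fun _ => false) ≤ o := fun o e => Bool.false_le _
  have key := fkg (μ := fun o : E → Bool => GI5_ph B r o0 o * Zv G (bt o))
    (f := fun o => f o - f (fun _ => false)) (g := fun o => g o - g (fun _ => false))
    (fun o => mul_nonneg (n1 o) (hz o)) (fun o => sub_nonneg.2 (hf (hbot o)))
    (fun o => sub_nonneg.2 (hg (hbot o))) (fun o o' hoo => sub_le_sub_right (hf hoo) _)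
    (fun o o' hoo => sub_le_sub_right (hg hoo) _)
    (fun o o' => GI5_super G B r r h0 (fun e => le_rfl) h1 o0 o0 (fun e _ => le_rfl) o o')
  set a := f (fun _ => false) with ha
  set b := g (fun _ => false) with hb
  have e0 : ∑ o, GI5_ph B r o0 o * Zv G (bt o) = fo G B r o0 (fun _ => 1) := by
    rw [GI5_fo]
    simp only [mul_one]
  have e1 : ∑ o, GI5_ph B r o0 o * Zv G (bt o) * (f o - a) =
      fo G B r o0 f - a * fo G B r o0 (fun _ => 1) := by
    rw [← GI5_shift, GI5_fo]
  have e2 : ∑ o, GI5_ph B r o0 o * Zv G (bt o) * (g o - b) =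
      fo G B r o0 g - b * fo G B r o0 (fun _ => 1) := by
    rw [← GI5_shift, GI5_fo]
  have e3 : ∑ o, GI5_ph B r o0 o * Zv G (bt o) * ((f o - a) * (g o - b)) =
      fo G B r o0 (fun o => f o * g o) - b * fo G B r o0 f - a * fo G B r o0 g +
        a * b * fo G B r o0 (fun _ => 1) := by
    rw [GI5_fo, GI5_fo, GI5_fo, GI5_fo, Finset.mul_sum, Finset.mul_sum, Finset.mul_sum,
      ← Finset.sum_sub_distrib, ← Finset.sum_sub_distrib, ← Finset.sum_add_distrib]
    refine Finset.sum_congr rfl fun o _ => ?_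
    ring
  rw [e0, e1, e2, e3] at key
  nlinarith [key]

end H82.BX

end S_H82_BX_GI5

section S_H82_BX_GI4

/-!
# GI4: log-supermodularity in the moduli

`Lc_σ(c, u) = (∏_{e ∉ B} ∏_j cosh la) Zv(u on B, rr c off B) = 4^{-|E|} Zs (LK4 G) (p4 B la) (q4 B la u)` (`chain_sum`).
`Zs_four` with `1 = (c,u)`, `2 = (c',u')`, `3 = (c ⊔ c', u ⊔ u')`, `4 = (c ⊓ c', u ⊓ u')`: on a link the couplings are
`K_i = b x_i y_i` with `x_3 = max x_1 x_2`, `x_4 = min x_1 x_2` (`cc` is monotone, `Fin` is a linear order), same for `y`;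
`four_exp` (`x_1 y_1 + x_2 y_2 ≤ x_3 y_3 + x_4 y_4` for nonnegative numbers); on a direct pair `four_bit`; for the pairs with weights
`(1, 0)` the conditions are trivial.  For the sine part `ss` is antitone: `3` and `4` are exchanged.
-/

set_option autoImplicit false

open Finset MeasureTheory

namespace H82.BX

open H82.IC

variable {V E : Type} [Fintype V] [DecidableEq V] [Fintype E] [DecidableEq E]

/-- cosine part. -/
noncomputable def Ls (G : Gr V E) (M : Al) (b : ℝ) (B : Finset E) (c : SV V E → Fin (M.k + 1))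
    (u : E → ℝ) : ℝ :=
  (∏ e ∈ univ \ B, ∏ j : Fin 3, Real.cosh (la G M b c (e, j))) *
    Zv G (fun e => if e ∈ B then u e else rr G M b c e)

/-- sine part. -/
noncomputable def Lt (G : Gr V E) (M : Al) (b : ℝ) (B : Finset E) (c : SV V E → Fin (M.k + 1))
    (u : E → ℝ) : ℝ :=
  (∏ e ∈ univ \ B, ∏ j : Fin 3, Real.cosh (lb G M b c (e, j))) *
    Zv G (fun e => if e ∈ B then u e else tt G M b c e)

/-- general form: couplings `K`. -/
private noncomputable def FK (G : Gr V E) (B : Finset E) (K : E × Fin 3 → ℝ) (u : E → ℝ) : ℝ :=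
  (∏ e ∈ univ \ B, ∏ j : Fin 3, Real.cosh (K (e, j))) *
    Zv G (fun e => if e ∈ B then u e else ∏ j : Fin 3, Real.tanh (K (e, j)))

private theorem Zs_eq_FK (G : Gr V E) (B : Finset E) (K : E × Fin 3 → ℝ) (u : E → ℝ) :
    Zs (LK4 G) (p4 B K) (q4 B K u) = 4 ^ Fintype.card E * FK G B K u := by
  rw [chain_sum, FK, mul_assoc]

private theorem FK_four (G : Gr V E) (B : Finset E) (K1 K2 K3 K4 : E × Fin 3 → ℝ) (u u' : E → ℝ)
    (h4 : ∀ l, 0 ≤ K4 l) (h41 : ∀ l, K4 l ≤ K1 l) (h42 : ∀ l, K4 l ≤ K2 l) (h13 : ∀ l, K1 l ≤ K3 l)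
    (h23 : ∀ l, K2 l ≤ K3 l) (hs : ∀ l, K1 l + K2 l ≤ K3 l + K4 l)
    (h0 : ∀ e ∈ B, 0 ≤ u e) (h1 : ∀ e ∈ B, u e ≤ 1)
    (h0' : ∀ e ∈ B, 0 ≤ u' e) (h1' : ∀ e ∈ B, u' e ≤ 1) :
    FK G B K1 u * FK G B K2 u' ≤ FK G B K3 (u ⊔ u') * FK G B K4 (u ⊓ u') := by
  have key := Zs_four (LK4 G) (p4 B K1) (q4 B K1 u) (p4 B K2) (q4 B K2 u')
    (p4 B K3) (q4 B K3 (u ⊔ u')) (p4 B K4) (q4 B K4 (u ⊓ u'))
  have main : ∀ l : E × Fin 4,
      |p4 B K1 l * p4 B K2 l + q4 B K1 u l * q4 B K2 u' l| ≤
        p4 B K3 l * p4 B K4 l + q4 B K3 (u ⊔ u') l * q4 B K4 (u ⊓ u') l ∧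
      |p4 B K1 l * q4 B K2 u' l + q4 B K1 u l * p4 B K2 l| ≤
        p4 B K3 l * q4 B K4 (u ⊓ u') l + q4 B K3 (u ⊔ u') l * p4 B K4 l ∧
      |p4 B K1 l * p4 B K2 l - q4 B K1 u l * q4 B K2 u' l| ≤
        p4 B K3 l * p4 B K4 l - q4 B K3 (u ⊔ u') l * q4 B K4 (u ⊓ u') l ∧
      |q4 B K1 u l * p4 B K2 l - p4 B K1 l * q4 B K2 u' l| ≤
        q4 B K3 (u ⊔ u') l * p4 B K4 l - p4 B K3 l * q4 B K4 (u ⊓ u') l := by
    rintro ⟨e, j⟩
    by_cases he : e ∈ B
    · have hb := four_bit (u e) (u' e) (h0 e he) (h1 e he) (h0' e he) (h1' e he)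
      fin_cases j
      · simp [p4, q4, he]
      · simp [p4, q4, he]
      · simp [p4, q4, he]
      · have hm : (u ⊔ u') e = max (u e) (u' e) := rfl
        have hn : (u ⊓ u') e = min (u e) (u' e) := rfl
        have e1 : ∀ K : E × Fin 3 → ℝ, p4 B K (e, (3 : Fin 4)) = 1 := fun K => by simp [p4, he]
        have e2 : ∀ (K : E × Fin 3 → ℝ) (v : E → ℝ), q4 B K v (e, (3 : Fin 4)) = v e :=
          fun K v => by simp [q4, he]
        change _ ∧ _ ∧ _ ∧ _
        simp only [Fin.reduceFinMk, e1, e2, hm, hn]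
        exact hb
    · have hx := fun j : Fin 3 => four_exp (K1 (e, j)) (K2 (e, j)) (K3 (e, j)) (K4 (e, j))
        (h4 _) (h41 _) (h42 _) (h13 _) (h23 _) (hs _)
      fin_cases j
      · simpa [p4, q4, he] using hx 0
      · simpa [p4, q4, he] using hx 1
      · simpa [p4, q4, he] using hx 2
      · simp [p4, q4, he]
  have hk := key (fun l => (main l).1) (fun l => (main l).2.1) (fun l => (main l).2.2.1)
    (fun l => (main l).2.2.2)
  rw [Zs_eq_FK, Zs_eq_FK, Zs_eq_FK, Zs_eq_FK] at hk
  have hpos : (0 : ℝ) < 4 ^ Fintype.card E * 4 ^ Fintype.card E := by positivity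
  have : (4 ^ Fintype.card E * 4 ^ Fintype.card E : ℝ) * (FK G B K1 u * FK G B K2 u') ≤
      (4 ^ Fintype.card E * 4 ^ Fintype.card E : ℝ) * (FK G B K3 (u ⊔ u') * FK G B K4 (u ⊓ u')) := by
    nlinarith [hk]
  exact le_of_mul_le_mul_left this hpos

private theorem prod_four {b x1 x2 y1 y2 : ℝ} (hb : 0 ≤ b) (hx1 : 0 ≤ x1) (hx2 : 0 ≤ x2) (hy1 : 0 ≤ y1)
    (hy2 : 0 ≤ y2) :
    0 ≤ b * (min x1 x2 * min y1 y2) ∧
    b * (min x1 x2 * min y1 y2) ≤ b * (x1 * y1) ∧
    b * (min x1 x2 * min y1 y2) ≤ b * (x2 * y2) ∧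
    b * (x1 * y1) ≤ b * (max x1 x2 * max y1 y2) ∧
    b * (x2 * y2) ≤ b * (max x1 x2 * max y1 y2) ∧
    b * (x1 * y1) + b * (x2 * y2) ≤ b * (max x1 x2 * max y1 y2) + b * (min x1 x2 * min y1 y2) := by
  have hmx : 0 ≤ min x1 x2 := le_min hx1 hx2
  have hmy : 0 ≤ min y1 y2 := le_min hy1 hy2
  refine ⟨mul_nonneg hb (mul_nonneg hmx hmy), ?_, ?_, ?_, ?_, ?_⟩
  · exact mul_le_mul_of_nonneg_left (mul_le_mul (min_le_left _ _) (min_le_left _ _) hmy hx1) hb
  · exact mul_le_mul_of_nonneg_left (mul_le_mul (min_le_right _ _) (min_le_right _ _) hmy hx2) hb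
  · exact mul_le_mul_of_nonneg_left
      (mul_le_mul (le_max_left _ _) (le_max_left _ _) hy1 (hx1.trans (le_max_left _ _))) hb
  · exact mul_le_mul_of_nonneg_left
      (mul_le_mul (le_max_right _ _) (le_max_right _ _) hy2 (hx1.trans (le_max_left _ _))) hb
  · rw [← mul_add, ← mul_add]
    apply mul_le_mul_of_nonneg_left _ hb
    rcases le_total x1 x2 with hx | hx <;> rcases le_total y1 y2 with hy | hy
    · rw [max_eq_right hx, max_eq_right hy, min_eq_left hx, min_eq_left hy]; linarith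
    · rw [max_eq_right hx, max_eq_left hy, min_eq_left hx, min_eq_right hy]
      nlinarith [mul_nonneg (sub_nonneg.2 hx) (sub_nonneg.2 hy)]
    · rw [max_eq_left hx, max_eq_right hy, min_eq_right hx, min_eq_left hy]
      nlinarith [mul_nonneg (sub_nonneg.2 hx) (sub_nonneg.2 hy)]
    · rw [max_eq_left hx, max_eq_left hy, min_eq_right hx, min_eq_right hy]

theorem Ls_super (G : Gr V E) (M : Al) (hM : M.Ok) (b : ℝ) (hb : 0 ≤ b) (B : Finset E)
    (c c' : SV V E → Fin (M.k + 1)) (u u' : E → ℝ) (h0 : ∀ e ∈ B, 0 ≤ u e) (h1 : ∀ e ∈ B, u e ≤ 1)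
    (h0' : ∀ e ∈ B, 0 ≤ u' e) (h1' : ∀ e ∈ B, u' e ≤ 1) :
    Ls G M b B c u * Ls G M b B c' u' ≤ Ls G M b B (c ⊓ c') (u ⊓ u') * Ls G M b B (c ⊔ c') (u ⊔ u') := by
  have hsup : ∀ w, M.cc ((c ⊔ c') w) = max (M.cc (c w)) (M.cc (c' w)) := fun w =>
    hM.mono.map_sup _ _
  have hinf : ∀ w, M.cc ((c ⊓ c') w) = min (M.cc (c w)) (M.cc (c' w)) := fun w =>
    hM.mono.map_inf _ _
  have hp := fun l : E × Fin 3 => prod_four (b := b) hb (hM.cc0 (c ((LK G).s l))).le
    (hM.cc0 (c' ((LK G).s l))).le (hM.cc0 (c ((LK G).r l))).le (hM.cc0 (c' ((LK G).r l))).le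
  have key := FK_four G B (la G M b c) (la G M b c') (la G M b (c ⊔ c')) (la G M b (c ⊓ c')) u u'
    (fun l => by simp only [la, hinf]; exact (hp l).1)
    (fun l => by simp only [la, hinf]; exact (hp l).2.1)
    (fun l => by simp only [la, hinf]; exact (hp l).2.2.1)
    (fun l => by simp only [la, hsup]; exact (hp l).2.2.2.1)
    (fun l => by simp only [la, hsup]; exact (hp l).2.2.2.2.1)
    (fun l => by simp only [la, hsup, hinf]; exact (hp l).2.2.2.2.2) h0 h1 h0' h1'
  rw [mul_comm (Ls G M b B (c ⊓ c') (u ⊓ u'))]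
  exact key

theorem Lt_super (G : Gr V E) (M : Al) (hM : M.Ok) (b : ℝ) (hb : 0 ≤ b) (B : Finset E)
    (c c' : SV V E → Fin (M.k + 1)) (u u' : E → ℝ) (h0 : ∀ e ∈ B, 0 ≤ u e) (h1 : ∀ e ∈ B, u e ≤ 1)
    (h0' : ∀ e ∈ B, 0 ≤ u' e) (h1' : ∀ e ∈ B, u' e ≤ 1) :
    Lt G M b B c u * Lt G M b B c' u' ≤ Lt G M b B (c ⊓ c') (u ⊔ u') * Lt G M b B (c ⊔ c') (u ⊓ u') := by
  have hsup : ∀ w, M.ss ((c ⊔ c') w) = min (M.ss (c w)) (M.ss (c' w)) := fun w =>
    hM.anti.map_sup _ _
  have hinf : ∀ w, M.ss ((c ⊓ c') w) = max (M.ss (c w)) (M.ss (c' w)) := fun w =>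
    hM.anti.map_inf _ _
  have hp := fun l : E × Fin 3 => prod_four (b := b) hb (hM.ss0 (c ((LK G).s l))).le
    (hM.ss0 (c' ((LK G).s l))).le (hM.ss0 (c ((LK G).r l))).le (hM.ss0 (c' ((LK G).r l))).le
  exact FK_four G B (lb G M b c) (lb G M b c') (lb G M b (c ⊓ c')) (lb G M b (c ⊔ c')) u u'
    (fun l => by simp only [lb, hsup]; exact (hp l).1)
    (fun l => by simp only [lb, hsup]; exact (hp l).2.1)
    (fun l => by simp only [lb, hsup]; exact (hp l).2.2.1)
    (fun l => by simp only [lb, hinf]; exact (hp l).2.2.2.1)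
    (fun l => by simp only [lb, hinf]; exact (hp l).2.2.2.2.1)
    (fun l => by simp only [lb, hsup, hinf]; exact (hp l).2.2.2.2.2) h0 h1 h0' h1'

end H82.BX

end S_H82_BX_GI4

section S_H82_BX_OS1

/-!
# OS1: conditional expectations over finite products

`cs A x g` depends on `x` only through its values on `A`.  Everything follows from
`cs A x g = ∑_c cs (insert i A) (update x i c) g` for `i ∉ A` (split according to the value `y i = c`), and from the
exchange `∑_x m x φ(x) = ∑_x (m x / cs A x m) cs A x (m φ)` (for each `x` group the `y` equal to `x` on `A`; the relation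
`equal on A` is symmetric and `cs A x m = cs A y m` for related `x y`).
Jensen (`os_jensen`): `ce f B x - ce f A x` is the conditional expectation given `B` of `ce f C - ce f A` when `A ⊆ B ⊆ C`.
`os_infl`: `|F c - F c'| ≤ |F c - F̄| + |F c' - F̄|` with `F̄ = ce m f A x`.
-/

set_option autoImplicit false

open Finset MeasureTheory

namespace H82.BX

variable {I : Type} [Fintype I] [DecidableEq I] {X : I → Type} [∀ i, Fintype (X i)]
  [∀ i, LinearOrder (X i)]

theorem os1_cond (A : Finset I) (x y : ∀ i, X i) (i : I) (hi : i ∉ A) (c : X i) :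
    (∀ j ∈ insert i A, y j = Function.update x i c j) ↔ (y i = c ∧ ∀ j ∈ A, y j = x j) := by
  constructor
  · intro h
    refine ⟨?_, fun j hj => ?_⟩
    · have h1 := h i (Finset.mem_insert_self i A)
      rwa [Function.update_self] at h1
    · have h1 := h j (Finset.mem_insert_of_mem hj)
      rwa [Function.update_of_ne (fun e : j = i => hi (e ▸ hj))] at h1
  · rintro ⟨h1, h2⟩ j hj
    by_cases e : j = i
    · subst e
      rw [Function.update_self]
      exact h1
    · rw [Function.update_of_ne e]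
      exact h2 j ((Finset.mem_insert.1 hj).resolve_left e)

theorem cs_congr (A : Finset I) (x y : ∀ i, X i) (h : ∀ i ∈ A, x i = y i) (g : (∀ i, X i) → ℝ) :
    cs A x g = cs A y g := by
  unfold cs
  refine Finset.sum_congr rfl fun z _ => if_congr ?_ rfl rfl
  constructor
  · intro hz j hj
    rw [hz j hj, h j hj]
  · intro hz j hj
    rw [hz j hj, h j hj]

theorem ce_congr (m f : (∀ i, X i) → ℝ) (A : Finset I) (x y : ∀ i, X i) (h : ∀ i ∈ A, x i = y i) :
    ce m f A x = ce m f A y := by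
  unfold ce
  rw [cs_congr A x y h, cs_congr A x y h]

theorem cs_pos (m : (∀ i, X i) → ℝ) (hm : ∀ x, 0 < m x) (A : Finset I) (x : ∀ i, X i) :
    0 < cs A x m := by
  unfold cs
  refine Finset.sum_pos' (fun y _ => ?_) ⟨x, Finset.mem_univ x, ?_⟩
  · split_ifs
    · exact (hm y).le
    · exact le_rfl
  · rw [if_pos (fun _ _ => rfl)]
    exact hm x

theorem cs_split (A : Finset I) (x : ∀ i, X i) (i : I) (hi : i ∉ A) (g : (∀ i, X i) → ℝ) :
    cs A x g = ∑ c, cs (insert i A) (Function.update x i c) g := by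
  unfold cs
  rw [Finset.sum_comm]
  refine Finset.sum_congr rfl fun y _ => ?_
  have h1 : ∀ c : X i, (if (∀ j ∈ insert i A, y j = Function.update x i c j) then g y else 0) =
      if y i = c then (if (∀ j ∈ A, y j = x j) then g y else 0) else 0 := by
    intro c
    have h2 := os1_cond A x y i hi c
    by_cases ha : y i = c
    · rw [if_pos ha]
      exact if_congr (h2.trans (and_iff_right ha)) rfl rfl
    · rw [if_neg ha, if_neg (fun h => ha (h2.1 h).1)]
  rw [Finset.sum_congr rfl (fun c _ => h1 c), Finset.sum_ite_eq]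
  simp

theorem cp_nonneg (m : (∀ i, X i) → ℝ) (hm : ∀ x, 0 < m x) (A : Finset I) (x : ∀ i, X i) (i : I)
    (c : X i) : 0 ≤ cp m A x i c := by
  exact div_nonneg (cs_pos m hm _ _).le (cs_pos m hm _ _).le

theorem cp_sum (m : (∀ i, X i) → ℝ) (hm : ∀ x, 0 < m x) (A : Finset I) (x : ∀ i, X i) (i : I)
    (hi : i ∉ A) : ∑ c, cp m A x i c = 1 := by
  unfold cp
  rw [← Finset.sum_div, ← cs_split A x i hi m]
  exact div_self (cs_pos m hm A x).ne'

theorem ce_step (m f : (∀ i, X i) → ℝ) (hm : ∀ x, 0 < m x) (A : Finset I) (x : ∀ i, X i) (i : I)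
    (hi : i ∉ A) :
    ∑ c, cp m A x i c * ce m f (insert i A) (Function.update x i c) = ce m f A x := by
  have h1 : ∀ c : X i, cp m A x i c * ce m f (insert i A) (Function.update x i c) =
      cs (insert i A) (Function.update x i c) (fun y => m y * f y) / cs A x m := by
    intro c
    unfold cp ce
    have h2 := (cs_pos m hm (insert i A) (Function.update x i c)).ne'
    have h3 := (cs_pos m hm A x).ne'
    field_simp
  rw [Finset.sum_congr rfl (fun c _ => h1 c), ← Finset.sum_div, ← cs_split A x i hi]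
  rfl

/-- probability of `{z i ∈ s}` given `A`. -/
theorem cp_event (m : (∀ i, X i) → ℝ) (hm : ∀ x, 0 < m x) (A : Finset I) (x : ∀ i, X i) (i : I)
    (hi : i ∉ A) (s : Finset (X i)) :
    ∑ c ∈ s, cp m A x i c = ce m (fun z => if z i ∈ s then 1 else 0) A x := by
  unfold ce
  rw [cs_split A x i hi (fun y => m y * if y i ∈ s then 1 else 0)]
  have h1 : ∀ c : X i, cs (insert i A) (Function.update x i c)
      (fun y => m y * if y i ∈ s then 1 else 0) =
      if c ∈ s then cs (insert i A) (Function.update x i c) m else 0 := by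
    intro c
    have h2 : ∀ y : (∀ i, X i), (∀ j ∈ insert i A, y j = Function.update x i c j) → y i = c := by
      intro y hy
      exact ((os1_cond A x y i hi c).1 hy).1
    unfold cs
    by_cases hc : c ∈ s
    · rw [if_pos hc]
      refine Finset.sum_congr rfl fun y _ => ?_
      by_cases ha : ∀ j ∈ insert i A, y j = Function.update x i c j
      · rw [if_pos ha, if_pos ha]
        show m y * (if y i ∈ s then (1 : ℝ) else 0) = m y
        have h3 := h2 y ha
        rw [if_pos (by rw [h3]; exact hc), mul_one]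
      · rw [if_neg ha, if_neg ha]
    · rw [if_neg hc]
      refine Finset.sum_eq_zero fun y _ => ?_
      by_cases ha : ∀ j ∈ insert i A, y j = Function.update x i c j
      · rw [if_pos ha]
        show m y * (if y i ∈ s then (1 : ℝ) else 0) = 0
        have h3 := h2 y ha
        rw [if_neg (by rw [h3]; exact hc), mul_zero]
      · rw [if_neg ha]
  rw [Finset.sum_congr rfl (fun c _ => h1 c), Finset.sum_ite_mem, Finset.univ_inter,
    Finset.sum_div]
  rfl

theorem ce_nonneg (m f : (∀ i, X i) → ℝ) (hm : ∀ x, 0 < m x) (hf : ∀ x, 0 ≤ f x) (A : Finset I)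
    (x : ∀ i, X i) : 0 ≤ ce m f A x := by
  refine div_nonneg (Finset.sum_nonneg fun y _ => ?_) (cs_pos m hm A x).le
  split_ifs
  · exact mul_nonneg (hm y).le (hf y)
  · exact le_rfl

theorem ce_le_one (m f : (∀ i, X i) → ℝ) (hm : ∀ x, 0 < m x) (hf : ∀ x, f x ≤ 1) (A : Finset I)
    (x : ∀ i, X i) : ce m f A x ≤ 1 := by
  unfold ce
  rw [div_le_one (cs_pos m hm A x)]
  refine Finset.sum_le_sum fun y _ => ?_
  split_ifs
  · have h1 := mul_le_mul_of_nonneg_left (hf y) (hm y).le
    rw [mul_one] at h1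
    exact h1
  · exact le_rfl

/-- if `f` is constant on the configurations equal to `x` on `A`. -/
theorem ce_const (m f : (∀ i, X i) → ℝ) (hm : ∀ x, 0 < m x) (A : Finset I) (x : ∀ i, X i)
    (h : ∀ y, (∀ i ∈ A, y i = x i) → f y = f x) : ce m f A x = f x := by
  unfold ce
  rw [div_eq_iff (cs_pos m hm A x).ne']
  unfold cs
  rw [Finset.mul_sum]
  refine Finset.sum_congr rfl fun y _ => ?_
  split_ifs with ha
  · show m y * f y = f x * m y
    rw [h y ha, mul_comm]
  · rw [mul_zero]

/-- averaging: `φ` depends only on the coordinates in `A`. -/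
theorem ce_avg (m f φ : (∀ i, X i) → ℝ) (hm : ∀ x, 0 < m x) (A : Finset I)
    (hφ : ∀ x y, (∀ i ∈ A, x i = y i) → φ x = φ y) :
    ∑ x, m x * (f x * φ x) = ∑ x, m x * (ce m f A x * φ x) := by
  have h1 : ∀ x, m x * (ce m f A x * φ x) =
      ∑ y, (if (∀ i ∈ A, y i = x i) then m y * f y * (m x * (φ y / cs A y m)) else 0) := by
    intro x
    have h0 : m x * (ce m f A x * φ x) = cs A x (fun y => m y * f y) * (m x * (φ x / cs A x m)) := by
      unfold ce
      ring
    rw [h0]
    unfold cs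
    rw [Finset.sum_mul]
    refine Finset.sum_congr rfl fun y _ => ?_
    by_cases ha : ∀ i ∈ A, y i = x i
    · rw [if_pos ha, if_pos ha]
      have h2 := cs_congr A y x ha m
      unfold cs at h2
      rw [hφ y x ha, h2]
    · rw [if_neg ha, if_neg ha, zero_mul]
  rw [Finset.sum_congr rfl (fun x _ => h1 x), Finset.sum_comm]
  refine Finset.sum_congr rfl fun y _ => ?_
  have h3 : ∀ K : ℝ, ∑ x, (if (∀ i ∈ A, y i = x i) then m y * f y * (m x * (φ y / K)) else 0) =
      m y * f y * (φ y / K) * cs A y m := by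
    intro K
    unfold cs
    rw [Finset.mul_sum]
    refine Finset.sum_congr rfl fun x _ => ?_
    have h4 : (∀ i ∈ A, y i = x i) ↔ (∀ i ∈ A, x i = y i) :=
      ⟨fun h i hi => (h i hi).symm, fun h i hi => (h i hi).symm⟩
    by_cases ha : ∀ i ∈ A, x i = y i
    · rw [if_pos ha, if_pos (h4.2 ha)]
      ring
    · rw [if_neg ha, if_neg (fun h => ha (h4.1 h)), mul_zero]
  rw [h3 (cs A y m)]
  have h5 := (cs_pos m hm A y).ne'
  field_simp

/-- one step of the chain rule in average form: `φ` depends only on the coordinates in `insert i A`. -/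
theorem cp_avg (m φ : (∀ i, X i) → ℝ) (hm : ∀ x, 0 < m x) (A : Finset I) (i : I) (hi : i ∉ A)
    (hφ : ∀ x y, (∀ j ∈ insert i A, x j = y j) → φ x = φ y) :
    ∑ x, m x * φ x = ∑ x, m x * ∑ c, cp m A x i c * φ (Function.update x i c) := by
  have h1 : ∀ x, ∑ c, cp m A x i c * φ (Function.update x i c) = ce m φ A x := by
    intro x
    rw [← ce_step m φ hm A x i hi]
    refine Finset.sum_congr rfl fun c _ => ?_
    rw [ce_const m φ hm (insert i A) (Function.update x i c) (fun y hy => hφ _ _ hy)]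
  have h2 := ce_avg m φ (fun _ => 1) hm A (fun _ _ _ => rfl)
  simp only [mul_one] at h2
  rw [h2]
  refine Finset.sum_congr rfl fun x _ => ?_
  rw [h1 x]

theorem os_jensen (m f : (∀ i, X i) → ℝ) (hm : ∀ x, 0 < m x) (A B C : Finset I) (hAB : A ⊆ B)
    (hBC : B ⊆ C) :
    ∑ x, m x * |ce m f B x - ce m f A x| ≤ ∑ x, m x * |ce m f C x - ce m f A x| := by
  obtain ⟨s, hs⟩ : ∃ s : (∀ i, X i) → ℝ, s = fun x => if 0 ≤ ce m f B x - ce m f A x then 1 else -1 :=
    ⟨_, rfl⟩
  have hsB : ∀ x y : (∀ i, X i), (∀ i ∈ B, x i = y i) → s x = s y := by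
    intro x y h
    rw [hs]
    show (if 0 ≤ ce m f B x - ce m f A x then (1 : ℝ) else -1) = _
    rw [ce_congr m f B x y h, ce_congr m f A x y (fun i hi => h i (hAB hi))]
  have h1 := ce_avg m f s hm B hsB
  have h2 := ce_avg m f s hm C (fun x y h => hsB x y (fun i hi => h i (hBC hi)))
  have h3 : ∀ x, |ce m f B x - ce m f A x| = (ce m f B x - ce m f A x) * s x := by
    intro x
    rw [hs]
    show _ = _ * (if 0 ≤ ce m f B x - ce m f A x then (1 : ℝ) else -1)
    split_ifs with h
    · rw [abs_of_nonneg h, mul_one]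
    · rw [abs_of_neg (lt_of_not_ge h)]
      ring
  have h4 : ∀ x, (ce m f C x - ce m f A x) * s x ≤ |ce m f C x - ce m f A x| := by
    intro x
    rw [hs]
    show _ * (if 0 ≤ ce m f B x - ce m f A x then (1 : ℝ) else -1) ≤ _
    split_ifs with h
    · rw [mul_one]
      exact le_abs_self _
    · rw [mul_neg, mul_one]
      exact neg_le_abs _
  have h5 : ∑ x, m x * |ce m f B x - ce m f A x| =
      ∑ x, m x * ((ce m f C x - ce m f A x) * s x) := by
    have h6 : ∀ D : Finset I, ∑ x, m x * ((ce m f D x - ce m f A x) * s x) =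
        ∑ x, m x * (ce m f D x * s x) - ∑ x, m x * (ce m f A x * s x) := by
      intro D
      rw [← Finset.sum_sub_distrib]
      refine Finset.sum_congr rfl fun x _ => ?_
      ring
    rw [Finset.sum_congr rfl (fun x _ => congrArg (fun t => m x * t) (h3 x)), h6 B, h6 C, ← h1, ← h2]
  rw [h5]
  exact Finset.sum_le_sum fun x _ => mul_le_mul_of_nonneg_left (h4 x) (hm x).le

theorem os_infl (m f : (∀ i, X i) → ℝ) (hm : ∀ x, 0 < m x) (A : Finset I) (i : I) (hi : i ∉ A) :
    ∑ x, m x * infl m f A x i ≤ 2 * ∑ x, m x * |ce m f (insert i A) x - ce m f A x| := by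
  obtain ⟨φ, hφ⟩ : ∃ φ : (∀ i, X i) → ℝ, φ = fun x => |ce m f (insert i A) x - ce m f A x| :=
    ⟨_, rfl⟩
  have h1 : ∀ x y : (∀ i, X i), (∀ j ∈ insert i A, x j = y j) → φ x = φ y := by
    intro x y h
    rw [hφ]
    show |ce m f (insert i A) x - ce m f A x| = |ce m f (insert i A) y - ce m f A y|
    rw [ce_congr m f (insert i A) x y h,
      ce_congr m f A x y (fun j hj => h j (Finset.mem_insert_of_mem hj))]
  have h2 := cp_avg m φ hm A i hi h1
  have h3 : ∀ x, infl m f A x i ≤ 2 * ∑ c, cp m A x i c * φ (Function.update x i c) := by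
    intro x
    have hb : ∀ c : X i, ce m f A (Function.update x i c) = ce m f A x := by
      intro c
      refine ce_congr m f A _ _ fun j hj => ?_
      rw [Function.update_of_ne (fun h : j = i => hi (h ▸ hj))]
    have hF : ∀ c : X i, φ (Function.update x i c) =
        |ce m f (insert i A) (Function.update x i c) - ce m f A x| := by
      intro c
      rw [hφ]
      show |ce m f (insert i A) (Function.update x i c) - ce m f A (Function.update x i c)| = _
      rw [hb c]
    have hp := cp_sum m hm A x i hi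
    have h4 : infl m f A x i ≤ ∑ c, ∑ c', (cp m A x i c * cp m A x i c' * φ (Function.update x i c) +
        cp m A x i c * cp m A x i c' * φ (Function.update x i c')) := by
      unfold infl
      refine Finset.sum_le_sum fun c _ => Finset.sum_le_sum fun c' _ => ?_
      rw [← mul_add]
      refine mul_le_mul_of_nonneg_left ?_
        (mul_nonneg (cp_nonneg m hm A x i c) (cp_nonneg m hm A x i c'))
      rw [hF c, hF c']
      have h6 := abs_sub_le (ce m f (insert i A) (Function.update x i c)) (ce m f A x)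
        (ce m f (insert i A) (Function.update x i c'))
      rw [abs_sub_comm (ce m f A x)] at h6
      exact h6
    refine h4.trans (le_of_eq ?_)
    have h7 : ∀ c, ∑ c', (cp m A x i c * cp m A x i c' * φ (Function.update x i c) +
        cp m A x i c * cp m A x i c' * φ (Function.update x i c')) =
        cp m A x i c * φ (Function.update x i c) +
          cp m A x i c * ∑ c', cp m A x i c' * φ (Function.update x i c') := by
      intro c
      rw [Finset.sum_add_distrib]
      congr 1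
      · have h8 : ∀ c', cp m A x i c * cp m A x i c' * φ (Function.update x i c) =
            cp m A x i c' * (cp m A x i c * φ (Function.update x i c)) := by
          intro c'
          ring
        rw [Finset.sum_congr rfl (fun c' _ => h8 c'), ← Finset.sum_mul, hp, one_mul]
      · rw [Finset.mul_sum]
        refine Finset.sum_congr rfl fun c' _ => ?_
        ring
    rw [Finset.sum_congr rfl (fun c _ => h7 c), Finset.sum_add_distrib, ← Finset.sum_mul, hp]
    ring
  have h9 : ∑ x, m x * infl m f A x i ≤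
      ∑ x, 2 * (m x * ∑ c, cp m A x i c * φ (Function.update x i c)) := by
    refine Finset.sum_le_sum fun x _ => ?_
    have := mul_le_mul_of_nonneg_left (h3 x) (hm x).le
    linarith
  refine h9.trans (le_of_eq ?_)
  rw [← Finset.mul_sum, ← h2, hφ]

end H82.BX

end S_H82_BX_OS1

section S_H82_BX_QT

/-!
# QT: quantile functions

`qt p u = max {c : P(< c) ≤ u}`.  For `0 ≤ u < 1` the set is nonempty (the least element of `Y` has `P(< c) = 0`),
it is a lower set, and `qt p u = c` iff `P(< c) ≤ u < P(≤ c)` when `p c > 0` (for `p c = 0`: `qt p u = c` never happens for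
`u < 1`, unless all later weights vanish; in any case `{u ∈ [0,1) : qt p u = c}` is `[P(< c), P(≤ c))` up to the finite set of
values `P(< c')`: for the integral only the measure `p c` matters.  If several `c` have the same `P(< c)` the largest is
taken.)
-/

set_option autoImplicit false

open Finset MeasureTheory

namespace H82.BX

variable {Y : Type} [Fintype Y] [LinearOrder Y] [Nonempty Y]

/-- the weight strictly below `c`. -/
noncomputable def qt_Q (p : Y → ℝ) (c : Y) : ℝ := ∑ c' ∈ univ.filter (fun c' => c' < c), p c'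

open Classical in
/-- the set of `c` with `P(< c) ≤ u`. -/
noncomputable def qt_S (p : Y → ℝ) (u : ℝ) : Finset Y := univ.filter (fun c : Y => qt_Q p c ≤ u)

/-- the largest element of a finite set. -/
noncomputable def qt_F (T : Finset Y) : Y :=
  open Classical in if h : T.Nonempty then T.max' h else Classical.arbitrary Y

theorem qt_eqF (p : Y → ℝ) (u : ℝ) : qt p u = qt_F (qt_S p u) := by
  unfold qt qt_F qt_S qt_Q
  congr!

theorem qt_memS (p : Y → ℝ) (u : ℝ) (c : Y) : c ∈ qt_S p u ↔ qt_Q p c ≤ u := by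
  unfold qt_S
  simp

theorem qt_meas (p : Y → ℝ) (s : Set Y) : MeasurableSet (qt p ⁻¹' s) := by
  have e : qt p ⁻¹' s = ⋃ T : {T : Finset Y // qt_F T ∈ s}, {u | qt_S p u = T.1} := by
    ext u
    rw [Set.mem_preimage, qt_eqF, Set.mem_iUnion]
    constructor
    · intro h
      exact ⟨⟨qt_S p u, h⟩, rfl⟩
    · rintro ⟨⟨T, hT⟩, h⟩
      rw [Set.mem_ofPred_eq] at h
      rw [h]
      exact hT
  rw [e]
  refine MeasurableSet.iUnion fun T => ?_
  have e2 : {u : ℝ | qt_S p u = T.1} = ⋂ c : Y, {u : ℝ | qt_Q p c ≤ u ↔ c ∈ T.1} := by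
    ext u
    rw [Set.mem_ofPred_eq, Set.mem_iInter]
    constructor
    · intro h c
      rw [Set.mem_ofPred_eq, ← h, qt_memS]
    · intro h
      ext c
      rw [qt_memS]
      exact h c
  rw [e2]
  refine MeasurableSet.iInter fun c => ?_
  by_cases hc : c ∈ T.1
  · have e3 : {u : ℝ | qt_Q p c ≤ u ↔ c ∈ T.1} = Set.Ici (qt_Q p c) := by
      ext u
      simp [hc]
    rw [e3]
    exact measurableSet_Ici
  · have e3 : {u : ℝ | qt_Q p c ≤ u ↔ c ∈ T.1} = Set.Iio (qt_Q p c) := by
      ext u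
      simp [hc]
    rw [e3]
    exact measurableSet_Iio

theorem qt_intble {Y' : Type} [Fintype Y'] [LinearOrder Y'] [Nonempty Y'] (p : Y → ℝ) (p' : Y' → ℝ)
    (G : Y → Y' → ℝ) :
    IntervalIntegrable (fun u => G (qt p u) (qt p' u)) volume 0 1 := by
  letI : MeasurableSpace Y := ⊤
  letI : MeasurableSpace Y' := ⊤
  have h1 : Measurable (qt p) := fun s _ => qt_meas p s
  have h2 : Measurable (qt p') := fun s _ => qt_meas p' s
  have h3 : Measurable (fun z : Y × Y' => G z.1 z.2) := measurable_of_countable _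
  have h4 : Measurable (fun u => G (qt p u) (qt p' u)) := h3.comp (h1.prodMk h2)
  rw [intervalIntegrable_iff]
  haveI : IsFiniteMeasure (volume.restrict (Set.uIoc (0 : ℝ) 1)) := by
    rw [Set.uIoc_of_le zero_le_one]
    infer_instance
  refine Integrable.of_bound h4.aestronglyMeasurable (∑ c, ∑ c', |G c c'|) ?_
  refine Filter.Eventually.of_forall fun u => ?_
  rw [Real.norm_eq_abs]
  refine le_trans ?_ (Finset.single_le_sum (f := fun c => ∑ c', |G c c'|)
    (fun c _ => Finset.sum_nonneg fun c' _ => abs_nonneg _) (Finset.mem_univ (qt p u)))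
  exact Finset.single_le_sum (f := fun c' => |G (qt p u) c'|)
    (fun c' _ => abs_nonneg _) (Finset.mem_univ (qt p' u))

theorem qt_Q_nonneg (p : Y → ℝ) (hp : ∀ c, 0 ≤ p c) (c : Y) : 0 ≤ qt_Q p c :=
  Finset.sum_nonneg fun c' _ => hp c'

theorem qt_Q_add (p : Y → ℝ) (c : Y) :
    qt_Q p c + p c = ∑ c' ∈ univ.filter (fun c' => c' ≤ c), p c' := by
  have e : univ.filter (fun c' => c' ≤ c) = insert c (univ.filter (fun c' => c' < c)) := by
    ext x
    simp only [Finset.mem_filter, Finset.mem_univ, true_and, Finset.mem_insert]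
    exact le_iff_eq_or_lt
  rw [e, Finset.sum_insert (by simp), qt_Q, add_comm]

theorem qt_Q_le (p : Y → ℝ) (hp : ∀ c, 0 ≤ p c) (c c' : Y) (h : c < c') :
    qt_Q p c + p c ≤ qt_Q p c' := by
  rw [qt_Q_add]
  refine Finset.sum_le_sum_of_subset_of_nonneg (fun x hx => ?_) fun x _ _ => hp x
  rw [Finset.mem_filter] at hx ⊢
  exact ⟨hx.1, lt_of_le_of_lt hx.2 h⟩

theorem qt_Q_one (p : Y → ℝ) (hp : ∀ c, 0 ≤ p c) (h1 : ∑ c, p c = 1) (c : Y) :
    qt_Q p c + p c ≤ 1 := by
  rw [qt_Q_add, ← h1]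
  exact Finset.sum_le_sum_of_subset_of_nonneg (Finset.filter_subset _ _) fun x _ _ => hp x

theorem qt_S_ne (p : Y → ℝ) (u : ℝ) (hu : 0 ≤ u) : (qt_S p u).Nonempty := by
  obtain ⟨c, hc⟩ := Finite.exists_min (id : Y → Y)
  refine ⟨c, ?_⟩
  rw [qt_memS, qt_Q]
  have e : univ.filter (fun c' => c' < c) = ∅ := by
    rw [Finset.filter_eq_empty_iff]
    intro x _ hx
    exact absurd (hc x) (not_le.2 hx)
  rw [e, Finset.sum_empty]
  exact hu

theorem qt_iff (p : Y → ℝ) (hp : ∀ c, 0 ≤ p c) (h1 : ∑ c, p c = 1) (u : ℝ)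
    (hu : u ∈ Set.Ico (0 : ℝ) 1) (c : Y) :
    qt p u = c ↔ u ∈ Set.Ico (qt_Q p c) (qt_Q p c + p c) := by
  have hne := qt_S_ne p u hu.1
  have hq : qt p u = (qt_S p u).max' hne := by
    rw [qt_eqF, qt_F, dif_pos hne]
  rw [hq, Set.mem_Ico]
  constructor
  · intro h
    have hc : c ∈ qt_S p u := h ▸ Finset.max'_mem _ hne
    refine ⟨(qt_memS p u c).1 hc, ?_⟩
    by_contra hcon
    rw [not_lt] at hcon
    have hmax : ∀ x, c < x → u < qt_Q p x := by
      intro x hx
      by_contra hx2
      rw [not_lt] at hx2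
      have := Finset.le_max' _ x ((qt_memS p u x).2 hx2)
      rw [h] at this
      exact absurd hx (not_lt.2 this)
    by_cases hex : ∃ x, c < x
    · obtain ⟨y, hy, hymin⟩ : ∃ y, c < y ∧ ∀ x, c < x → y ≤ x := by
        have hne2 : (univ.filter (fun x => c < x)).Nonempty := by
          obtain ⟨x, hx⟩ := hex
          exact ⟨x, by simp [hx]⟩
        refine ⟨(univ.filter (fun x => c < x)).min' hne2, ?_, fun x hx =>
          Finset.min'_le _ x (by simp [hx])⟩
        have := Finset.min'_mem _ hne2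
        rw [Finset.mem_filter] at this
        exact this.2
      have e : qt_Q p y = qt_Q p c + p c := by
        rw [qt_Q_add, qt_Q]
        refine Finset.sum_congr ?_ fun _ _ => rfl
        ext x
        simp only [Finset.mem_filter, Finset.mem_univ, true_and]
        constructor
        · intro hx
          by_contra hxc
          exact absurd (hymin x (not_le.1 hxc)) (not_le.2 hx)
        · intro hx
          exact lt_of_le_of_lt hx hy
      have := hmax y hy
      rw [e] at this
      linarith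
    · have e : qt_Q p c + p c = 1 := by
        rw [qt_Q_add, ← h1]
        refine Finset.sum_congr ?_ fun _ _ => rfl
        ext x
        simp only [Finset.mem_filter, Finset.mem_univ, true_and, iff_true]
        by_contra hxc
        exact hex ⟨x, not_le.1 hxc⟩
      rw [e] at hcon
      exact absurd hu.2 (not_lt.2 hcon)
  · rintro ⟨h2, h3⟩
    refine le_antisymm (Finset.max'_le _ _ _ fun x hx => ?_)
      (Finset.le_max' _ _ ((qt_memS p u c).2 h2))
    by_contra hxc
    rw [not_le] at hxc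
    have h4 := qt_Q_le p hp c x hxc
    have h5 := (qt_memS p u x).1 hx
    linarith

theorem qt_int (p : Y → ℝ) (hp : ∀ c, 0 ≤ p c) (h1 : ∑ c, p c = 1) (g : Y → ℝ) :
    ∫ u in (0 : ℝ)..1, g (qt p u) = ∑ c, p c * g c := by
  rw [intervalIntegral.integral_of_le zero_le_one, integral_Ioc_eq_integral_Ioo,
    ← integral_Ico_eq_integral_Ioo]
  have e : ∀ u ∈ Set.Ico (0 : ℝ) 1, g (qt p u) =
      ∑ c, (Set.Ico (qt_Q p c) (qt_Q p c + p c)).indicator (fun _ => g c) u := by
    intro u hu
    rw [Finset.sum_eq_single (qt p u)]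
    · rw [Set.indicator_of_mem ((qt_iff p hp h1 u hu _).1 rfl)]
    · intro c _ hc
      rw [Set.indicator_of_notMem]
      intro hcon
      exact hc ((qt_iff p hp h1 u hu c).2 hcon).symm
    · intro h
      exact absurd (Finset.mem_univ _) h
  rw [setIntegral_congr_fun measurableSet_Ico e, integral_finsetSum]
  · refine Finset.sum_congr rfl fun c _ => ?_
    rw [setIntegral_indicator measurableSet_Ico]
    have e2 : Set.Ico (0 : ℝ) 1 ∩ Set.Ico (qt_Q p c) (qt_Q p c + p c) =
        Set.Ico (qt_Q p c) (qt_Q p c + p c) := by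
      apply Set.inter_eq_right.2
      intro x hx
      exact ⟨(qt_Q_nonneg p hp c).trans hx.1, lt_of_lt_of_le hx.2 (qt_Q_one p hp h1 c)⟩
    rw [e2, setIntegral_const, Real.volume_real_Ico_of_le (by linarith [hp c]), smul_eq_mul]
    ring
  · intro c _
    exact (integrable_const (g c)).indicator measurableSet_Ico

theorem qt_mono (p p' : Y → ℝ) (hp : ∀ c, 0 ≤ p c) (hp' : ∀ c, 0 ≤ p' c)
    (h : ∀ c, ∑ c' ∈ univ.filter (fun c' => c' < c), p' c' ≤ ∑ c' ∈ univ.filter (fun c' => c' < c), p c')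
    (u : ℝ) : qt p u ≤ qt p' u := by
  rw [qt_eqF, qt_eqF, qt_F, qt_F]
  by_cases hu : 0 ≤ u
  · have h1 := qt_S_ne p u hu
    have h2 := qt_S_ne p' u hu
    rw [dif_pos h1, dif_pos h2]
    refine Finset.max'_subset h1 fun c hc => ?_
    rw [qt_memS] at hc ⊢
    exact (h c).trans hc
  · have h1 : ¬ (qt_S p u).Nonempty := by
      rintro ⟨c, hc⟩
      rw [qt_memS] at hc
      exact hu ((qt_Q_nonneg p hp c).trans hc)
    have h2 : ¬ (qt_S p' u).Nonempty := by
      rintro ⟨c, hc⟩
      rw [qt_memS] at hc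
      exact hu ((qt_Q_nonneg p' hp' c).trans hc)
    rw [dif_neg h1, dif_neg h2]

end H82.BX

end S_H82_BX_QT

section S_H82_BX_OSD

/-!
# OSD: definitions of the OSSS recursion
-/

set_option autoImplicit false

open Finset MeasureTheory

namespace H82.BX

variable {I : Type} [Fintype I] [DecidableEq I] {X : I → Type} [∀ i, Fintype (X i)]
  [∀ i, LinearOrder (X i)] [∀ i, Nonempty (X i)]

/-- `E[f(X) F(Y)]` when `X, Y` start from `x, y` on `A` and are continued with the same uniform variables along the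
exploration driven by `X`. -/
noncomputable def aT (m f : (∀ i, X i) → ℝ) (nx : Finset I → (∀ i, X i) → Option I) :
    ℕ → Finset I → (∀ i, X i) → (∀ i, X i) → ℝ
  | 0, A, x, y => ce m f A x * ce m f A y
  | n + 1, A, x, y => match nx A x with
    | none => ce m f A x * ce m f A y
    | some i => ∫ u in (0 : ℝ)..1, aT m f nx n (insert i A)
        (Function.update x i (qt (cp m A x i) u)) (Function.update y i (qt (cp m A y i) u))

/-- accumulated influence along the exploration (`X`, `Y` independent). -/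
noncomputable def kT (m f : (∀ i, X i) → ℝ) (nx : Finset I → (∀ i, X i) → Option I) :
    ℕ → Finset I → (∀ i, X i) → (∀ i, X i) → ℝ
  | 0, _, _, _ => 0
  | n + 1, A, x, y => match nx A x with
    | none => 0
    | some i => infl m f A y i + ∑ c, ∑ c', cp m A x i c * cp m A y i c' *
        kT m f nx n (insert i A) (Function.update x i c) (Function.update y i c')

/-- monotonicity of the conditional expectations of increasing functions, for the sets in `Ad`. -/
def MonM (m : (∀ i, X i) → ℝ) (Ad : Finset I → Prop) : Prop :=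
  ∀ A, Ad A → ∀ g : (∀ i, X i) → ℝ, Monotone g → ∀ x y : (∀ i, X i), (∀ i ∈ A, x i ≤ y i) →
    ce m g A x ≤ ce m g A y

end H82.BX

end S_H82_BX_OSD

section S_H82_BX_OSA

/-!
# OSA: monotone comparison

Induction on `n`, all `A` with `Ad A`.  In the case `some i` (the same `i` for both, `nx` is driven by `x`): `Ad (insert i A)`.
With `q1 = qt (cp m A y1 i)`, `q2 = qt (cp m A y2 i)`: `q1 u ≤ q2 u` by `qt_mono`, because
`∑_{c' < c} cp m A y c' = 1 - ce m 1[z i ≥ c] A y` (`cp_event`, `cp_sum`) and `z ↦ 1[z i ≥ c]` is monotone (`hM`).  Hence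
`update y1 i (q1 u) ≤ update y2 i (q2 u)` on `insert i A`.  Induction gives the integrand inequalities; the integrals exist by
`qt_intble` (the integrands are functions of `(qt _ u, qt _ u)`); `∫ ce (insert i A) (update y i (q u)) = ce A y` by `qt_int` and
`ce_step`.  Base: `0 ≤ ce m f A x ≤ 1`.
-/

set_option autoImplicit false

open Finset MeasureTheory

namespace H82.BX

variable {I : Type} [Fintype I] [DecidableEq I] {X : I → Type} [∀ i, Fintype (X i)]
  [∀ i, LinearOrder (X i)] [∀ i, Nonempty (X i)]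

theorem os_q (m : (∀ i, X i) → ℝ) (hm : ∀ x, 0 < m x) (Ad : Finset I → Prop)
    (hM : MonM m Ad) (A : Finset I) (hA : Ad A) (i : I) (hi : i ∉ A) (y1 y2 : ∀ i, X i)
    (h : ∀ i ∈ A, y1 i ≤ y2 i) (u : ℝ) : qt (cp m A y1 i) u ≤ qt (cp m A y2 i) u := by
  apply qt_mono _ _ (fun c => cp_nonneg m hm A y1 i c) (fun c => cp_nonneg m hm A y2 i c)
  intro c
  have key : ∀ y, ∑ c' ∈ univ.filter (fun c' => c' < c), cp m A y i c' =
      1 - ce m (fun z => if z i ∈ univ.filter (fun c' : X i => ¬ c' < c) then 1 else 0) A y := by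
    intro y
    rw [← cp_event m hm A y i hi, ← cp_sum m hm A y i hi, eq_sub_iff_add_eq]
    exact Finset.sum_filter_add_sum_filter_not univ (fun c' => c' < c) _
  rw [key, key]
  have hmono : Monotone (fun z : (∀ i, X i) =>
      if z i ∈ univ.filter (fun c' : X i => ¬ c' < c) then (1 : ℝ) else 0) := by
    intro z w hzw
    simp only [mem_filter, mem_univ, true_and, not_lt]
    have h1 : z i ≤ w i := hzw i
    split_ifs with h2 h3
    · exact le_rfl
    · exact absurd (h2.trans h1) h3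
    · exact zero_le_one
    · exact le_rfl
  have := hM A hA _ hmono y1 y2 h
  linarith

theorem os_base (m f : (∀ i, X i) → ℝ) (hm : ∀ x, 0 < m x) (hf : Monotone f) (hf0 : ∀ x, 0 ≤ f x)
    (hf1 : ∀ x, f x ≤ 1) (Ad : Finset I → Prop)
    (hM : MonM m Ad) (A : Finset I) (hA : Ad A) (x y1 y2 : ∀ i, X i)
    (h : ∀ i ∈ A, y1 i ≤ y2 i) :
    0 ≤ ce m f A x * ce m f A y2 - ce m f A x * ce m f A y1 ∧
      ce m f A x * ce m f A y2 - ce m f A x * ce m f A y1 ≤ ce m f A y2 - ce m f A y1 := by
  have h0 := ce_nonneg m f hm hf0 A x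
  have h1 := ce_le_one m f hm hf1 A x
  have h2 := hM A hA f hf y1 y2 h
  constructor
  · nlinarith
  · nlinarith

theorem os_comp (m f : (∀ i, X i) → ℝ) (hm : ∀ x, 0 < m x) (hf : Monotone f) (hf0 : ∀ x, 0 ≤ f x)
    (hf1 : ∀ x, f x ≤ 1) (Ad : Finset I → Prop) (nx : Finset I → (∀ i, X i) → Option I)
    (hL : Legal Ad nx) (hM : MonM m Ad) (n : ℕ) (A : Finset I) (hA : Ad A) (x y1 y2 : ∀ i, X i)
    (h : ∀ i ∈ A, y1 i ≤ y2 i) :
    0 ≤ aT m f nx n A x y2 - aT m f nx n A x y1 ∧
      aT m f nx n A x y2 - aT m f nx n A x y1 ≤ ce m f A y2 - ce m f A y1 := by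
  induction n generalizing A x y1 y2 with
  | zero => exact os_base m f hm hf hf0 hf1 Ad hM A hA x y1 y2 h
  | succ n ih =>
    rcases hx : nx A x with _ | i
    · have e : ∀ y, aT m f nx (n + 1) A x y = ce m f A x * ce m f A y := by
        intro y
        simp only [aT, hx]
      rw [e, e]
      exact os_base m f hm hf hf0 hf1 Ad hM A hA x y1 y2 h
    · have hi := hL.new A x i hx
      have hA' := hL.adm A x i hA hx
      have e : ∀ y, aT m f nx (n + 1) A x y = ∫ u in (0 : ℝ)..1, aT m f nx n (insert i A)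
          (Function.update x i (qt (cp m A x i) u)) (Function.update y i (qt (cp m A y i) u)) := by
        intro y
        simp only [aT, hx]
      have hI : ∀ y, IntervalIntegrable (fun u => aT m f nx n (insert i A)
          (Function.update x i (qt (cp m A x i) u)) (Function.update y i (qt (cp m A y i) u)))
          volume 0 1 := fun y =>
        qt_intble (cp m A x i) (cp m A y i) (fun c c' => aT m f nx n (insert i A)
          (Function.update x i c) (Function.update y i c'))
      have hJ : ∀ y, IntervalIntegrable (fun u => ce m f (insert i A)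
          (Function.update y i (qt (cp m A y i) u))) volume 0 1 := fun y =>
        qt_intble (cp m A y i) (cp m A y i) (fun c _ => ce m f (insert i A)
          (Function.update y i c))
      have hE : ∀ y, ∫ u in (0 : ℝ)..1, ce m f (insert i A)
          (Function.update y i (qt (cp m A y i) u)) = ce m f A y := by
        intro y
        rw [qt_int (cp m A y i) (fun c => cp_nonneg m hm A y i c) (cp_sum m hm A y i hi)
          (fun c => ce m f (insert i A) (Function.update y i c))]
        exact ce_step m f hm A y i hi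
      have hpt : ∀ u : ℝ, _ := fun u => ih (insert i A) hA'
        (Function.update x i (qt (cp m A x i) u)) (Function.update y1 i (qt (cp m A y1 i) u))
        (Function.update y2 i (qt (cp m A y2 i) u)) (by
          intro j hj
          by_cases hji : j = i
          · subst hji
            simp only [Function.update_self]
            exact os_q m hm Ad hM A hA j hi y1 y2 h u
          · rw [Function.update_of_ne hji, Function.update_of_ne hji]
            exact h j ((mem_insert.1 hj).resolve_left hji))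
      rw [e, e, ← intervalIntegral.integral_sub (hI y2) (hI y1), ← hE y1, ← hE y2,
        ← intervalIntegral.integral_sub (hJ y2) (hJ y1)]
      constructor
      · exact intervalIntegral.integral_nonneg (by norm_num) (fun u _ => (hpt u).1)
      · exact intervalIntegral.integral_mono (by norm_num) ((hI y2).sub (hI y1))
          ((hJ y2).sub (hJ y1)) (fun u => (hpt u).2)

end H82.BX

end S_H82_BX_OSA

section S_H82_BX_OSE

/-!
# OSE: the accumulated cost

Let `K n A x = ∑_y m y kT n A x y`.  Claim: for `Ad A`, `K n A x ≤ ∑_i c_i P_n(A, x, i)` where `P_n(A,x,i)` is defined by the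
recursion `P_0 = 0`, `P_{n+1}(A,x,i) = 0` if `nx A x = none`, and
`= 1[i = j] + ∑_c cp m A x j c P_n(insert j A, update x j c, i)` if `nx A x = some j`.  (Use `cp_avg` for the average over `y`:
`∑_y m y ∑_c' cp m A y j c' φ(update y j c') = ∑_y m y φ y`; `hc` for the influence; `∑ m = 1`; `kT n (insert j A) x' y` depends on
`y` only through `insert j A`, by induction with `cs_congr`.)
And `P_n(∅, x, i) = ∑_z m z ind (i ∈ rev nx n z)`: more generally, `P_n(A,x,i) = ce m (fun z => 1[i is revealed in the n steps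
after A]) A x` with the exploration continued from `A`; define `rv n A z` = the set revealed from `A` in `n` steps
(`rv 0 A z = A`, `rv (n+1) A z = match nx A z with none => A | some i => rv n (insert i A) z`), show
`rv n ∅ z = rev nx n z` (the two recursions unfold from opposite ends: `rv n (rev nx k z) z = rev nx (n+k) z`) and
`P_n(A,x,i) = ce m (fun z => 1[i ∈ rv n A z, i ∉ A]) A x` by induction with `ce_step`
(`Legal.loc`: `nx A z = nx A x` for `z = x` on `A`).
-/

set_option autoImplicit false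

open Finset MeasureTheory

namespace H82.BX

open H82.IC

variable {I : Type} [Fintype I] [DecidableEq I] {X : I → Type} [∀ i, Fintype (X i)]
  [∀ i, LinearOrder (X i)] [∀ i, Nonempty (X i)]

/-- the set revealed from `A` in `n` steps. -/
noncomputable def rvE (nx : Finset I → (∀ i, X i) → Option I) : ℕ → Finset I → (∀ i, X i) → Finset I
  | 0, A, _ => A
  | n + 1, A, z => match nx A z with
    | none => A
    | some i => rvE nx n (insert i A) z

omit [Fintype I] [∀ i, Fintype (X i)] [∀ i, LinearOrder (X i)] [∀ i, Nonempty (X i)] in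
theorem rvE_none (nx : Finset I → (∀ i, X i) → Option I) (n : ℕ) (A : Finset I) (z : ∀ i, X i)
    (h : nx A z = none) : rvE nx (n + 1) A z = A := by
  simp only [rvE, h]

omit [Fintype I] [∀ i, Fintype (X i)] [∀ i, LinearOrder (X i)] [∀ i, Nonempty (X i)] in
theorem rvE_some (nx : Finset I → (∀ i, X i) → Option I) (n : ℕ) (A : Finset I) (z : ∀ i, X i)
    (j : I) (h : nx A z = some j) : rvE nx (n + 1) A z = rvE nx n (insert j A) z := by
  simp only [rvE, h]

omit [Fintype I] [∀ i, Fintype (X i)] [∀ i, LinearOrder (X i)] [∀ i, Nonempty (X i)] in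
theorem rvE_sub (nx : Finset I → (∀ i, X i) → Option I) (n : ℕ) :
    ∀ (A : Finset I) (z : ∀ i, X i), A ⊆ rvE nx n A z := by
  induction n with
  | zero => intro A z; exact Finset.Subset.refl _
  | succ n ih =>
    intro A z
    cases h : nx A z with
    | none => rw [rvE_none nx n A z h]
    | some j =>
      rw [rvE_some nx n A z j h]
      exact (Finset.subset_insert j A).trans (ih _ _)

omit [∀ i, LinearOrder (X i)] [∀ i, Fintype (X i)] [Fintype I] [∀ i, Nonempty (X i)] in
theorem rev_stop (nx : Finset I → (∀ i, X i) → Option I) (k : ℕ) (z : ∀ i, X i)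
    (h : nx (rev nx k z) z = none) (n : ℕ) : rev nx (n + k) z = rev nx k z := by
  induction n with
  | zero => rw [Nat.zero_add]
  | succ n ih =>
    have e : n + 1 + k = (n + k) + 1 := by omega
    rw [e]
    have : rev nx (n + k + 1) z = match nx (rev nx (n + k) z) z with
      | none => rev nx (n + k) z
      | some i => insert i (rev nx (n + k) z) := rfl
    rw [this, ih, h]

omit [∀ i, LinearOrder (X i)] [∀ i, Fintype (X i)] [Fintype I] [∀ i, Nonempty (X i)] in
theorem rvE_rev (nx : Finset I → (∀ i, X i) → Option I) (n : ℕ) :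
    ∀ (k : ℕ) (z : ∀ i, X i), rvE nx n (rev nx k z) z = rev nx (n + k) z := by
  induction n with
  | zero => intro k z; rw [Nat.zero_add]; rfl
  | succ n ih =>
    intro k z
    cases h : nx (rev nx k z) z with
    | none => rw [rvE_none nx n _ z h, rev_stop nx k z h]
    | some j =>
      rw [rvE_some nx n _ z j h]
      have e : insert j (rev nx k z) = rev nx (k + 1) z := by
        have : rev nx (k + 1) z = match nx (rev nx k z) z with
          | none => rev nx k z
          | some i => insert i (rev nx k z) := rfl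
        rw [this, h]
      rw [e, ih]
      congr 1
      omega

omit [∀ i, Nonempty (X i)] in
theorem ce_fun_congr (m g h : (∀ i, X i) → ℝ) (A : Finset I) (x : ∀ i, X i)
    (e : ∀ y, (∀ i ∈ A, y i = x i) → g y = h y) : ce m g A x = ce m h A x := by
  unfold ce cs
  congr 1
  refine Finset.sum_congr rfl fun y _ => ?_
  by_cases hy : ∀ i ∈ A, y i = x i
  · rw [if_pos hy, if_pos hy]
    simp only [e y hy]
  · rw [if_neg hy, if_neg hy]

omit [∀ i, Nonempty (X i)] in
theorem ce_add_const (m g : (∀ i, X i) → ℝ) (hm : ∀ x, 0 < m x) (a : ℝ) (A : Finset I) (x : ∀ i, X i) :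
    ce m (fun z => g z + a) A x = ce m g A x + a := by
  have hp := cs_pos m hm A x
  unfold ce
  rw [div_add' _ _ _ hp.ne']
  congr 1
  unfold cs
  rw [Finset.mul_sum, ← Finset.sum_add_distrib]
  refine Finset.sum_congr rfl fun y _ => ?_
  by_cases hy : ∀ i ∈ A, y i = x i
  · rw [if_pos hy, if_pos hy, if_pos hy]; ring
  · rw [if_neg hy, if_neg hy, if_neg hy]; ring

omit [∀ i, Nonempty (X i)] in
theorem cp_congr (m : (∀ i, X i) → ℝ) (A : Finset I) (x y : ∀ i, X i) (h : ∀ i ∈ A, x i = y i)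
    (j : I) (c : X j) : cp m A x j c = cp m A y j c := by
  unfold cp
  rw [cs_congr A x y h, cs_congr (insert j A) (Function.update x j c) (Function.update y j c)]
  intro i hi
  by_cases hij : i = j
  · subst hij; simp
  · rw [Function.update_of_ne hij, Function.update_of_ne hij]
    exact h i ((Finset.mem_insert.1 hi).resolve_left hij)

omit [Fintype I] [∀ i, Fintype (X i)] [∀ i, LinearOrder (X i)] [∀ i, Nonempty (X i)] in
theorem upd_agree (A : Finset I) (x y : ∀ i, X i) (h : ∀ i ∈ A, x i = y i) (j : I) (c : X j) :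
    ∀ i ∈ insert j A, Function.update x j c i = Function.update y j c i := by
  intro i hi
  by_cases hij : i = j
  · subst hij; simp
  · rw [Function.update_of_ne hij, Function.update_of_ne hij]
    exact h i ((Finset.mem_insert.1 hi).resolve_left hij)

omit [∀ i, Nonempty (X i)] in
theorem infl_congr (m f : (∀ i, X i) → ℝ) (A : Finset I) (x y : ∀ i, X i) (h : ∀ i ∈ A, x i = y i)
    (j : I) : infl m f A x j = infl m f A y j := by
  unfold infl
  refine Finset.sum_congr rfl fun c _ => Finset.sum_congr rfl fun c' _ => ?_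
  rw [cp_congr m A x y h, cp_congr m A x y h, ce_congr m f _ _ _ (upd_agree A x y h j c),
    ce_congr m f _ _ _ (upd_agree A x y h j c')]

omit [∀ i, Nonempty (X i)] in
theorem kT_congr (m f : (∀ i, X i) → ℝ) (nx : Finset I → (∀ i, X i) → Option I) (n : ℕ) :
    ∀ (A : Finset I) (x y y' : ∀ i, X i), (∀ i ∈ A, y i = y' i) →
      kT m f nx n A x y = kT m f nx n A x y' := by
  induction n with
  | zero => intro A x y y' _; rfl
  | succ n ih =>
    intro A x y y' h
    unfold kT
    cases nx A x with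
    | none => rfl
    | some j =>
      simp only []
      rw [infl_congr m f A y y' h]
      congr 1
      refine Finset.sum_congr rfl fun c _ => Finset.sum_congr rfl fun c' _ => ?_
      rw [cp_congr m A y y' h, ih _ _ _ _ (upd_agree A y y' h j c')]

/-- the revealment probabilities from `A`. -/
noncomputable def QE (m : (∀ i, X i) → ℝ) (nx : Finset I → (∀ i, X i) → Option I) (n : ℕ)
    (A : Finset I) (x : ∀ i, X i) (i : I) : ℝ :=
  ce m (fun z => ind (i ∈ rvE nx n A z ∧ i ∉ A)) A x

omit [∀ i, Nonempty (X i)] in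
theorem QE_zero_of (m : (∀ i, X i) → ℝ) (nx : Finset I → (∀ i, X i) → Option I) (n : ℕ)
    (A : Finset I) (x : ∀ i, X i) (i : I)
    (h : ∀ z, (∀ i ∈ A, z i = x i) → rvE nx n A z = A) : QE m nx n A x i = 0 := by
  unfold QE
  rw [ce_fun_congr m _ (fun _ => 0) A x]
  · unfold ce cs
    simp
  · intro z hz
    rw [h z hz]
    unfold ind
    rw [if_neg]
    tauto

omit [∀ i, Nonempty (X i)] in
theorem QE_step (m : (∀ i, X i) → ℝ) (hm : ∀ x, 0 < m x) (Ad : Finset I → Prop)
    (nx : Finset I → (∀ i, X i) → Option I) (hL : Legal Ad nx) (n : ℕ)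
    (A : Finset I) (x : ∀ i, X i) (i j : I) (hj : nx A x = some j) :
    QE m nx (n + 1) A x i = ind (i = j) +
      ∑ c, cp m A x j c * QE m nx n (insert j A) (Function.update x j c) i := by
  have hjA := hL.new A x j hj
  unfold QE
  rw [ce_step m (fun z => ind (i ∈ rvE nx n (insert j A) z ∧ i ∉ insert j A)) hm A x j hjA,
    add_comm (ind (i = j)), ← ce_add_const m _ hm]
  apply ce_fun_congr
  intro z hz
  have h1 : nx A z = some j := by rw [hL.loc A z x hz, hj]
  rw [rvE_some nx n A z j h1]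
  unfold ind
  by_cases hij : i = j
  · subst hij
    have h2 : i ∈ rvE nx n (insert i A) z := rvE_sub nx n _ z (Finset.mem_insert_self i A)
    simp [h2, hjA]
  · simp [hij]

theorem os_revK (m f : (∀ i, X i) → ℝ) (hm : ∀ x, 0 < m x) (Ad : Finset I → Prop)
    (nx : Finset I → (∀ i, X i) → Option I) (hL : Legal Ad nx) (c : I → ℝ)
    (hc : ∀ A i, Ad A → i ∉ A → Ad (insert i A) → ∑ x, m x * infl m f A x i ≤ c i)
    (n : ℕ) : ∀ (A : Finset I), Ad A → ∀ (x : ∀ i, X i),
    ∑ y, m y * kT m f nx n A x y ≤ ∑ i, QE m nx n A x i * c i := by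
  induction n with
  | zero =>
    intro A hA x
    have e1 : ∑ y, m y * kT m f nx 0 A x y = 0 := by
      apply Finset.sum_eq_zero
      intro y _
      simp [kT]
    have e2 : ∑ i, QE m nx 0 A x i * c i = 0 := by
      apply Finset.sum_eq_zero
      intro i _
      rw [QE_zero_of m nx 0 A x i (fun z _ => rfl), zero_mul]
    rw [e1, e2]
  | succ n ih =>
    intro A hA x
    cases hj : nx A x with
    | none =>
      have e1 : ∑ y, m y * kT m f nx (n + 1) A x y = 0 := by
        apply Finset.sum_eq_zero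
        intro y _
        simp [kT, hj]
      have e2 : ∑ i, QE m nx (n + 1) A x i * c i = 0 := by
        apply Finset.sum_eq_zero
        intro i _
        rw [QE_zero_of m nx (n + 1) A x i, zero_mul]
        intro z hz
        exact rvE_none nx n A z (by rw [hL.loc A z x hz, hj])
      rw [e1, e2]
    | some j =>
      have hjA := hL.new A x j hj
      have hAd := hL.adm A x j hA hj
      have e1 : ∑ y, m y * kT m f nx (n + 1) A x y = (∑ y, m y * infl m f A y j) +
          ∑ b, cp m A x j b * ∑ y, m y * kT m f nx n (insert j A) (Function.update x j b) y := by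
        have e2 : ∀ y, m y * kT m f nx (n + 1) A x y = m y * infl m f A y j +
            ∑ b, cp m A x j b * (m y * ∑ b', cp m A y j b' *
              kT m f nx n (insert j A) (Function.update x j b) (Function.update y j b')) := by
          intro y
          have e3 : kT m f nx (n + 1) A x y = infl m f A y j +
              ∑ c, ∑ c', cp m A x j c * cp m A y j c' *
              kT m f nx n (insert j A) (Function.update x j c) (Function.update y j c') := by
            rw [kT, hj]
          rw [e3, mul_add]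
          congr 1
          rw [Finset.mul_sum]
          refine Finset.sum_congr rfl fun b _ => ?_
          rw [Finset.mul_sum, Finset.mul_sum, Finset.mul_sum]
          refine Finset.sum_congr rfl fun b' _ => ?_
          ring
        rw [Finset.sum_congr rfl fun y _ => e2 y, Finset.sum_add_distrib]
        congr 1
        rw [Finset.sum_comm]
        refine Finset.sum_congr rfl fun b _ => ?_
        rw [← Finset.mul_sum]
        congr 1
        exact (cp_avg m (fun y => kT m f nx n (insert j A) (Function.update x j b) y) hm A j hjA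
          (fun y y' h => kT_congr m f nx n _ _ y y' h)).symm
      rw [e1]
      have e4 : ∑ i, QE m nx (n + 1) A x i * c i = c j + ∑ b, cp m A x j b *
          ∑ i, QE m nx n (insert j A) (Function.update x j b) i * c i := by
        have e5 : ∀ i, QE m nx (n + 1) A x i * c i = ind (i = j) * c i + ∑ b, cp m A x j b *
            (QE m nx n (insert j A) (Function.update x j b) i * c i) := by
          intro i
          rw [QE_step m hm Ad nx hL n A x i j hj, add_mul, Finset.sum_mul]
          congr 1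
          refine Finset.sum_congr rfl fun b _ => ?_
          ring
        rw [Finset.sum_congr rfl fun i _ => e5 i, Finset.sum_add_distrib]
        congr 1
        · unfold ind
          simp
        · rw [Finset.sum_comm]
          refine Finset.sum_congr rfl fun b _ => ?_
          rw [← Finset.mul_sum]
      rw [e4]
      refine add_le_add (hc A j hA hjA hAd) ?_
      refine Finset.sum_le_sum fun b _ => ?_
      exact mul_le_mul_of_nonneg_left (ih _ hAd _) (cp_nonneg m hm A x j b)

theorem os_rev (m f : (∀ i, X i) → ℝ) (hm : ∀ x, 0 < m x) (h1 : ∑ x, m x = 1) (Ad : Finset I → Prop)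
    (nx : Finset I → (∀ i, X i) → Option I) (hL : Legal Ad nx) (c : I → ℝ)
    (hc : ∀ A i, Ad A → i ∉ A → Ad (insert i A) → ∑ x, m x * infl m f A x i ≤ c i)
    (n : ℕ) (x : ∀ i, X i) :
    ∑ y, m y * kT m f nx n ∅ x y ≤ ∑ i, (∑ z, m z * ind (i ∈ rev nx n z)) * c i := by
  refine (os_revK m f hm Ad nx hL c hc n ∅ hL.empty x).trans (le_of_eq ?_)
  refine Finset.sum_congr rfl fun i _ => ?_
  congr 1
  unfold QE ce cs
  simp only [Finset.notMem_empty, false_implies, implies_true, if_true, not_false_iff, and_true, h1, div_one]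
  refine Finset.sum_congr rfl fun z _ => ?_
  congr 2
  have := rvE_rev nx n 0 z
  rw [Nat.add_zero] at this
  exact congrArg (fun S => i ∈ S) this

end H82.BX

end S_H82_BX_OSE
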