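import Mathlib
import Pool.Agent.H82.BXM.G02

/-! MP_26628e_mp: this file joins several modules to save build time. -/

section S_H82_BX_CK1

/-!
# CK1: the clock expectation in terms of moduli and signs

One site: for every `φ : ℝ → ℝ → ℝ`,
`∑_{j < 24K} φ (cos (2πj/24K)) (sin (2πj/24K)) = 6K ∑_{c ≤ 6K} nu c ∑_{s,t = ±} φ (s cc c) (t ss c)` for `M = clk K 0`
(`cc c = sin(cπ/12K)`, `ss c = cos(cπ/12K)`; each angle which is not a multiple of `π/2` is hit once, the four multiples of `π/2` are hit twice with weight `1/2`).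
Product over the sites (`Finset.prod_univ_sum` / `Fintype.piFinset`), with `σ` the cosine signs and `τ` the sine signs:
`e^{b cos(θ - θ')} = e^{la σσ'} e^{lb ττ'}` on a link, pinning `e^{l pn cc²}`, and
`F = cos θ_p cos θ_q = cc_p cc_q σ_p σ_q`.
-/

set_option autoImplicit false

open Finset MeasureTheory

namespace H82.BX

open H82.IC XYB

variable {V E : Type} [Fintype V] [DecidableEq V] [Fintype E] [DecidableEq E]

/-- the trapezoid form of a periodic sum. -/
lemma CK1_trap (N : ℕ) (hN : 0 < N) (f : ℕ → ℝ) (hf : f (4 * N) = f 0) :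
    ∑ j ∈ range (4 * N), f j = ∑ c ∈ range (N + 1), (if c = 0 ∨ c = N then (1 / 2 : ℝ) else 1) *
      (f (N - c) + f (N + c) + f (3 * N - c) + f (3 * N + c)) := by
  obtain ⟨g, hg⟩ : ∃ g : ℕ → ℝ, g = fun c => f (N - c) + f (N + c) + f (3 * N - c) + f (3 * N + c) :=
    ⟨_, rfl⟩
  have e1 : ∑ c ∈ range (N + 1), (if c = 0 ∨ c = N then (1 / 2 : ℝ) else 1) *
      (f (N - c) + f (N + c) + f (3 * N - c) + f (3 * N + c)) =
      ∑ c ∈ range (N + 1), (g c - (if c = 0 then g c / 2 else 0) - (if c = N then g c / 2 else 0)) := by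
    refine sum_congr rfl fun c _ => ?_
    rw [hg]
    by_cases h0 : c = 0
    · have hn : ¬ c = N := by omega
      rw [if_pos (Or.inl h0), if_pos h0, if_neg hn]; ring
    · by_cases hn : c = N
      · rw [if_pos (Or.inr hn), if_neg h0, if_pos hn]; ring
      · rw [if_neg (by tauto), if_neg h0, if_neg hn]; ring
  rw [e1, sum_sub_distrib, sum_sub_distrib, sum_ite_eq', sum_ite_eq', if_pos (by simp), if_pos (by simp), hg]
  simp only [sum_add_distrib]
  have s1 : ∑ c ∈ range (N + 1), f (N - c) = ∑ c ∈ range (N + 1), f c := by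
    rw [← sum_range_reflect f (N + 1)]
    refine sum_congr rfl fun c _ => ?_
    rw [Nat.add_sub_cancel]
  have s3 : ∑ c ∈ range (N + 1), f (3 * N - c) = ∑ c ∈ range (N + 1), f (2 * N + c) := by
    rw [← sum_range_reflect (fun c => f (2 * N + c)) (N + 1)]
    refine sum_congr rfl fun c hc => ?_
    rw [Nat.add_sub_cancel]
    rw [mem_range] at hc
    congr 1
    omega
  have a (m : ℕ) : ∑ c ∈ range (N + 1), f (m + c) =
      ∑ c ∈ range (m + N), f c + f (m + N) - ∑ c ∈ range m, f c := by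
    have h1 := sum_range_add f m (N + 1)
    rw [← add_assoc, sum_range_succ] at h1
    linarith
  rw [s1, s3, a N, a (2 * N), a (3 * N), sum_range_succ]
  have n2 : N + N = 2 * N := by ring
  have n3 : 2 * N + N = 3 * N := by ring
  have n4 : 3 * N + N = 4 * N := by ring
  have m1 : 3 * N - N = 2 * N := by omega
  rw [n2, n3, n4, m1, hf]
  simp only [Nat.sub_zero, add_zero, Nat.sub_self]
  ring

lemma CK1_cc (K : ℕ) (c : Fin (6 * K + 1)) :
    (clk K 0).cc c = Real.sin (c.val * Real.pi / (12 * K)) := by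
  show (Real.sin _ + 0) / (1 + 0) = _
  rw [add_zero, add_zero, div_one]

lemma CK1_ss (K : ℕ) (c : Fin (6 * K + 1)) :
    (clk K 0).ss c = Real.cos (c.val * Real.pi / (12 * K)) := by
  show (Real.cos _ + 0) / (1 + 0) = _
  rw [add_zero, add_zero, div_one]

lemma CK1_nu (K : ℕ) (hK : 0 < K) (c : Fin (6 * K + 1)) :
    6 * K * (clk K 0).nu c = if c.val = 0 ∨ c.val = 6 * K then (1 / 2 : ℝ) else 1 := by
  show 6 * (K : ℝ) * ((if c.val = 0 ∨ c.val = 6 * K then 1 / 2 else 1) / (6 * K)) = _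
  have : (K : ℝ) ≠ 0 := by positivity
  field_simp

/-- one site. -/
lemma CK1_site (K : ℕ) (hK : 0 < K) (φ : ℝ × ℝ → ℝ) :
    ∑ j : Fin (24 * K), φ (Real.cos (2 * Real.pi * j.val / (24 * K : ℕ)),
        Real.sin (2 * Real.pi * j.val / (24 * K : ℕ))) =
      ∑ x : Fin (6 * K + 1) × Bool × Bool, (6 * K * (clk K 0).nu x.1) *
        φ (sg x.2.1 * (clk K 0).cc x.1, sg x.2.2 * (clk K 0).ss x.1) := by
  have hK' : (K : ℝ) ≠ 0 := by positivity
  obtain ⟨f, hf⟩ : ∃ f : ℕ → ℝ, f = fun j : ℕ => φ (Real.cos ((j : ℝ) * Real.pi / (12 * K)),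
    Real.sin ((j : ℝ) * Real.pi / (12 * K))) := ⟨_, rfl⟩
  have e1 : ∑ j : Fin (24 * K), φ (Real.cos (2 * Real.pi * j.val / (24 * K : ℕ)),
        Real.sin (2 * Real.pi * j.val / (24 * K : ℕ))) = ∑ j ∈ range (4 * (6 * K)), f j := by
    rw [show 4 * (6 * K) = 24 * K by ring, sum_range]
    refine sum_congr rfl fun j _ => ?_
    rw [hf]
    have : 2 * Real.pi * (j.val : ℝ) / ((24 * K : ℕ) : ℝ) = j.val * Real.pi / (12 * K) := by
      push_cast
      field_simp
      ring
    rw [this]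
  have hper : f (4 * (6 * K)) = f 0 := by
    rw [hf]
    have : (((4 * (6 * K) : ℕ) : ℝ)) * Real.pi / (12 * K) = 0 + 2 * Real.pi := by
      push_cast
      field_simp
      ring
    simp only [this, Real.cos_add_two_pi, Real.sin_add_two_pi]
    simp
  rw [e1, CK1_trap (6 * K) (by omega) f hper, sum_range, Fintype.sum_prod_type]
  refine sum_congr rfl fun c _ => ?_
  rw [Fintype.sum_prod_type]
  simp only [Fintype.sum_bool, CK1_nu K hK, CK1_cc, CK1_ss]
  have hc : c.val ≤ 6 * K := Nat.lt_succ_iff.1 c.2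
  have r1 : f (6 * K - c.val) = φ (Real.sin (c.val * Real.pi / (12 * K)), Real.cos (c.val * Real.pi / (12 * K))) := by
    rw [hf]
    have : ((6 * K - c.val : ℕ) : ℝ) * Real.pi / (12 * K) = Real.pi / 2 - c.val * Real.pi / (12 * K) := by
      rw [Nat.cast_sub hc]
      push_cast
      field_simp
      ring
    simp only [this, Real.cos_pi_div_two_sub, Real.sin_pi_div_two_sub]
  have r2 : f (6 * K + c.val) = φ (-Real.sin (c.val * Real.pi / (12 * K)), Real.cos (c.val * Real.pi / (12 * K))) := by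
    rw [hf]
    have : ((6 * K + c.val : ℕ) : ℝ) * Real.pi / (12 * K) = c.val * Real.pi / (12 * K) + Real.pi / 2 := by
      push_cast
      field_simp
      ring
    simp only [this, Real.cos_add_pi_div_two, Real.sin_add_pi_div_two]
  have r3 : f (3 * (6 * K) - c.val) = φ (-Real.sin (c.val * Real.pi / (12 * K)), -Real.cos (c.val * Real.pi / (12 * K))) := by
    rw [hf]
    have : ((3 * (6 * K) - c.val : ℕ) : ℝ) * Real.pi / (12 * K) =
        (Real.pi / 2 - c.val * Real.pi / (12 * K)) + Real.pi := by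
      rw [Nat.cast_sub (by omega)]
      push_cast
      field_simp
      ring
    simp only [this, Real.cos_add_pi, Real.sin_add_pi, Real.cos_pi_div_two_sub, Real.sin_pi_div_two_sub]
  have r4 : f (3 * (6 * K) + c.val) = φ (Real.sin (c.val * Real.pi / (12 * K)), -Real.cos (c.val * Real.pi / (12 * K))) := by
    rw [hf]
    have : ((3 * (6 * K) + c.val : ℕ) : ℝ) * Real.pi / (12 * K) =
        (c.val * Real.pi / (12 * K) + Real.pi / 2) + Real.pi := by
      push_cast
      field_simp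
      ring
    simp only [this, Real.cos_add_pi, Real.sin_add_pi, Real.cos_add_pi_div_two, Real.sin_add_pi_div_two, neg_neg]
  rw [r1, r2, r3, r4]
  simp only [sg, if_true, if_false, Bool.false_eq_true, one_mul, neg_mul]
  ring

/-- many sites. -/
lemma CK1_multi {U A B P : Type} [Fintype U] [DecidableEq U] [Fintype A] [Fintype B] (p : A → P)
    (q : B → P) (w : B → ℝ) (h : ∀ φ : P → ℝ, ∑ a, φ (p a) = ∑ b, w b * φ (q b)) (Φ : (U → P) → ℝ) :
    ∑ g : U → A, Φ (fun u => p (g u)) = ∑ g : U → B, (∏ u, w (g u)) * Φ (fun u => q (g u)) := by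
  classical
  obtain ⟨R, hR⟩ : ∃ R : Finset P, R = univ.image p ∪ univ.image q := ⟨_, rfl⟩
  have key : ∀ r : U → P, (∀ u, r u ∈ R) → Φ r =
      ∑ ρ ∈ Fintype.piFinset (fun _ : U => R), Φ ρ * ∏ u, (if r u = ρ u then (1 : ℝ) else 0) := by
    intro r hr
    rw [Finset.sum_eq_single r]
    · simp
    · intro ρ _ hρ
      obtain ⟨u, hu⟩ := Function.ne_iff.1 (Ne.symm hρ)
      rw [Finset.prod_eq_zero (mem_univ u) (by rw [if_neg hu]), mul_zero]
    · intro hn
      exact absurd (Fintype.mem_piFinset.2 hr) hn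
  have e1 : ∀ g : U → A, Φ (fun u => p (g u)) =
      ∑ ρ ∈ Fintype.piFinset (fun _ : U => R), Φ ρ * ∏ u, (if p (g u) = ρ u then (1 : ℝ) else 0) :=
    fun g => key _ (fun u => by
      rw [hR]; exact mem_union_left _ (mem_image_of_mem _ (mem_univ _)))
  have e2 : ∀ g : U → B, Φ (fun u => q (g u)) =
      ∑ ρ ∈ Fintype.piFinset (fun _ : U => R), Φ ρ * ∏ u, (if q (g u) = ρ u then (1 : ℝ) else 0) :=
    fun g => key _ (fun u => by
      rw [hR]; exact mem_union_right _ (mem_image_of_mem _ (mem_univ _)))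
  rw [sum_congr rfl (fun g _ => e1 g), sum_comm]
  have e3 : ∑ g : U → B, (∏ u, w (g u)) * Φ (fun u => q (g u)) =
      ∑ g : U → B, ∑ ρ ∈ Fintype.piFinset (fun _ : U => R),
        Φ ρ * ∏ u, (w (g u) * (if q (g u) = ρ u then (1 : ℝ) else 0)) := by
    refine sum_congr rfl fun g _ => ?_
    rw [e2 g, mul_sum]
    refine sum_congr rfl fun ρ _ => ?_
    rw [prod_mul_distrib]
    ring
  rw [e3.trans sum_comm]
  refine sum_congr rfl fun ρ _ => ?_
  rw [← mul_sum, ← mul_sum]
  congr 1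
  have p1 := Finset.prod_univ_sum (fun _ : U => (univ : Finset A))
    (fun u a => if p a = ρ u then (1 : ℝ) else 0)
  have p2 := Finset.prod_univ_sum (fun _ : U => (univ : Finset B))
    (fun u b => w b * (if q b = ρ u then (1 : ℝ) else 0))
  rw [Fintype.piFinset_univ] at p1 p2
  rw [← p1, ← p2]
  refine prod_congr rfl fun u _ => ?_
  exact h (fun x => if x = ρ u then (1 : ℝ) else 0)

/-- functions to a triple product. -/
lemma CK1_trip {U A : Type} [Fintype U] [DecidableEq U] [Fintype A] (f : (U → A × Bool × Bool) → ℝ) :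
    ∑ g : U → A × Bool × Bool, f g =
      ∑ c : U → A, ∑ σ : U → Bool, ∑ τ : U → Bool, f (fun u => (c u, σ u, τ u)) := by
  rw [Fintype.sum_equiv (ι := U → A × Bool × Bool) (κ := (U → A) × (U → Bool) × (U → Bool))
    { toFun := fun h => (fun u => (h u).1, fun u => (h u).2.1, fun u => (h u).2.2)
      invFun := fun x u => (x.1 u, x.2.1 u, x.2.2 u)
      left_inv := fun _ => rfl
      right_inv := fun _ => rfl } f (fun x => f (fun u => (x.1 u, x.2.1 u, x.2.2 u))) (fun _ => rfl),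
    Fintype.sum_prod_type]
  refine sum_congr rfl fun c _ => ?_
  rw [Fintype.sum_prod_type]

lemma CK1_sg (b : Bool) : sg b * sg b = 1 := by
  cases b <;> simp [sg]

/-- sign sum of the links with an insertion `F` of the signs. -/
noncomputable def sgS (G : Gr V E) (K : E × Fin 3 → ℝ) (F : (SV V E → Bool) → ℝ) : ℝ :=
  ∑ σ : SV V E → Bool, F σ * ∏ l : E × Fin 3, Real.exp (K l * (sg (σ ((LK G).s l)) * sg (σ ((LK G).r l))))

lemma CK1_gen (G : Gr V E) (b l : ℝ) (K : ℕ) (hK : 0 < K) (ins : (SV V E → ℝ) → ℝ)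
    (A : (SV V E → Fin (6 * K + 1)) → ℝ) (F : (SV V E → Bool) → ℝ)
    (hins : ∀ (c : SV V E → Fin (6 * K + 1)) (σ : SV V E → Bool),
      ins (fun u => sg (σ u) * (clk K 0).cc (c u)) = A c * F σ) :
    ∑ g : SV V E → Fin (24 * K), ins (fun w => cosC (ang (24 * K) g w)) *
        Real.exp (hS G b l (ang (24 * K) g)) =
      (6 * K : ℝ) ^ Fintype.card (SV V E) * ∑ c : SV V E → Fin (6 * K + 1), wv (clk K 0) l c * A c *
        (sgS G (la G (clk K 0) b c) F * sgS G (lb G (clk K 0) b c) (fun _ => 1)) := by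
  obtain ⟨Ψ, hΨ⟩ : ∃ Ψ : (SV V E → ℝ × ℝ) → ℝ, Ψ =
      fun r : SV V E → ℝ × ℝ => ins (fun u => (r u).1) * Real.exp
        ((∑ k : E × Fin 3, b * ((r ((LK G).r k)).1 * (r ((LK G).s k)).1 +
          (r ((LK G).r k)).2 * (r ((LK G).s k)).2)) + ∑ w, l * pn w * (r w).1 ^ 2) := ⟨_, rfl⟩
  have e1 : ∀ g : SV V E → Fin (24 * K), ins (fun w => cosC (ang (24 * K) g w)) *
        Real.exp (hS G b l (ang (24 * K) g)) =
      Ψ (fun u => (Real.cos (2 * Real.pi * (g u).val / (24 * K : ℕ)),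
          Real.sin (2 * Real.pi * (g u).val / (24 * K : ℕ)))) := by
    intro g
    rw [hΨ]
    simp only [hS, hG, ang, cosC_sub, cosC_coe, sinC_coe]
  refine (sum_congr rfl (fun g _ => e1 g)).trans ((CK1_multi (U := SV V E)
    (fun j : Fin (24 * K) => (Real.cos (2 * Real.pi * j.val / (24 * K : ℕ)),
      Real.sin (2 * Real.pi * j.val / (24 * K : ℕ))))
      (fun x : Fin (6 * K + 1) × Bool × Bool =>
        (sg x.2.1 * (clk K 0).cc x.1, sg x.2.2 * (clk K 0).ss x.1))
      (fun x => 6 * K * (clk K 0).nu x.1) (CK1_site K hK) Ψ).trans ?_)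
  rw [CK1_trip, mul_sum, hΨ]
  refine sum_congr rfl fun c _ => ?_
  have e2 : ∀ σ τ : SV V E → Bool,
      (∏ u, 6 * K * (clk K 0).nu (c u)) * (ins (fun u => sg (σ u) * (clk K 0).cc (c u)) * Real.exp
        ((∑ k : E × Fin 3, b * (sg (σ ((LK G).r k)) * (clk K 0).cc (c ((LK G).r k)) *
          (sg (σ ((LK G).s k)) * (clk K 0).cc (c ((LK G).s k))) +
          sg (τ ((LK G).r k)) * (clk K 0).ss (c ((LK G).r k)) *
          (sg (τ ((LK G).s k)) * (clk K 0).ss (c ((LK G).s k))))) +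
          ∑ w, l * pn w * (sg (σ w) * (clk K 0).cc (c w)) ^ 2)) =
      ((6 * K : ℝ) ^ Fintype.card (SV V E) * (wv (clk K 0) l c * A c)) *
        ((F σ * ∏ k : E × Fin 3, Real.exp (la G (clk K 0) b c k *
          (sg (σ ((LK G).s k)) * sg (σ ((LK G).r k))))) *
        (1 * ∏ k : E × Fin 3, Real.exp (lb G (clk K 0) b c k *
          (sg (τ ((LK G).s k)) * sg (τ ((LK G).r k)))))) := by
    intro σ τ
    rw [hins, Real.exp_add, Real.exp_sum, Real.exp_sum]
    have x1 : ∏ k : E × Fin 3, Real.exp (b * (sg (σ ((LK G).r k)) * (clk K 0).cc (c ((LK G).r k)) *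
          (sg (σ ((LK G).s k)) * (clk K 0).cc (c ((LK G).s k))) +
          sg (τ ((LK G).r k)) * (clk K 0).ss (c ((LK G).r k)) *
          (sg (τ ((LK G).s k)) * (clk K 0).ss (c ((LK G).s k))))) =
        (∏ k : E × Fin 3, Real.exp (la G (clk K 0) b c k *
          (sg (σ ((LK G).s k)) * sg (σ ((LK G).r k))))) *
        ∏ k : E × Fin 3, Real.exp (lb G (clk K 0) b c k *
          (sg (τ ((LK G).s k)) * sg (τ ((LK G).r k)))) := by
      rw [← prod_mul_distrib]
      refine prod_congr rfl fun k _ => ?_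
      rw [← Real.exp_add]
      congr 1
      unfold la lb
      ring
    have x2 : (∏ u, 6 * K * (clk K 0).nu (c u)) *
        ∏ w, Real.exp (l * pn w * (sg (σ w) * (clk K 0).cc (c w)) ^ 2) =
        (6 * K : ℝ) ^ Fintype.card (SV V E) * wv (clk K 0) l c := by
      have t1 : (6 * K : ℝ) ^ Fintype.card (SV V E) = ∏ _w : SV V E, (6 * K : ℝ) := by
        rw [prod_const, card_univ]
      unfold wv
      rw [t1, ← prod_mul_distrib, ← prod_mul_distrib]
      refine prod_congr rfl fun w _ => ?_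
      rw [mul_pow, pow_two (sg (σ w)), CK1_sg, one_mul]
      ring
    rw [x1]
    linear_combination (A c * F σ * ((∏ k : E × Fin 3, Real.exp (la G (clk K 0) b c k *
          (sg (σ ((LK G).s k)) * sg (σ ((LK G).r k))))) *
        ∏ k : E × Fin 3, Real.exp (lb G (clk K 0) b c k *
          (sg (τ ((LK G).s k)) * sg (τ ((LK G).r k)))))) * x2
  have e3 : ∑ σ : SV V E → Bool, ∑ τ : SV V E → Bool,
      ((6 * K : ℝ) ^ Fintype.card (SV V E) * (wv (clk K 0) l c * A c)) *
        ((F σ * ∏ k : E × Fin 3, Real.exp (la G (clk K 0) b c k *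
          (sg (σ ((LK G).s k)) * sg (σ ((LK G).r k))))) *
        (1 * ∏ k : E × Fin 3, Real.exp (lb G (clk K 0) b c k *
          (sg (τ ((LK G).s k)) * sg (τ ((LK G).r k)))))) =
      (6 * K : ℝ) ^ Fintype.card (SV V E) * (wv (clk K 0) l c * A c *
        (sgS G (la G (clk K 0) b c) F * sgS G (lb G (clk K 0) b c) (fun _ => 1))) := by
    unfold sgS
    rw [sum_mul_sum]
    simp only [mul_sum]
    refine sum_congr rfl fun σ _ => sum_congr rfl fun τ _ => ?_
    ring
  rw [← e3]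
  exact sum_congr rfl fun σ _ => sum_congr rfl fun τ _ => e2 σ τ

theorem ck1 (G : Gr V E) (b l : ℝ) (K : ℕ) (hK : 0 < K) (p q : SV V E) :
    clE (24 * K) (hS G b l) (fun θ => cosC (θ p) * cosC (θ q)) =
      (∑ c : SV V E → Fin (6 * K + 1), wv (clk K 0) l c *
        ((clk K 0).cc (c p) * (clk K 0).cc (c q)) *
        (sgS G (la G (clk K 0) b c) (fun σ => sg (σ p) * sg (σ q)) * sgS G (lb G (clk K 0) b c) (fun _ => 1))) /
      ∑ c : SV V E → Fin (6 * K + 1), wv (clk K 0) l c *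
        (sgS G (la G (clk K 0) b c) (fun _ => 1) * sgS G (lb G (clk K 0) b c) (fun _ => 1)) := by
  have h1 := CK1_gen G b l K hK (fun x => x p * x q)
    (fun c => (clk K 0).cc (c p) * (clk K 0).cc (c q)) (fun σ => sg (σ p) * sg (σ q))
    (fun c σ => by ring)
  have h2 := CK1_gen G b l K hK (fun _ => 1) (fun _ => 1) (fun _ => 1) (fun c σ => by ring)
  simp only [one_mul, mul_one] at h2
  unfold clE
  rw [h1, h2]
  refine mul_div_mul_left _ _ ?_
  have : (K : ℝ) ≠ 0 := by positivity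
  positivity

/-- summing the inner signs of the chains. -/
lemma CK1_chain (G : Gr V E) (K : E × Fin 3 → ℝ) (F : (V → Bool) → ℝ) :
    sgS G K (fun σ => F (fun v => σ (Sum.inl v))) =
      4 ^ Fintype.card E * (∏ e, ∏ j : Fin 3, Real.cosh (K (e, j))) *
        ∑ a : V → Bool, F a * ∏ e, (1 + (∏ j : Fin 3, Real.tanh (K (e, j))) *
          (sg (a (G.s e)) * sg (a (G.r e)))) := by
  have site : ∀ (e : E) (x y : Bool), ∑ h : Bool → Bool,
      (Real.exp (K (e, 0) * (sg x * sg (h false))) * Real.exp (K (e, 1) * (sg (h false) * sg (h true))) *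
        Real.exp (K (e, 2) * (sg (h true) * sg y))) =
      4 * (∏ j : Fin 3, Real.cosh (K (e, j))) *
        (1 + (∏ j : Fin 3, Real.tanh (K (e, j))) * (sg x * sg y)) := by
    intro e x y
    have ex : ∀ (k : ℝ) (u v : Bool), Real.exp (k * (sg u * sg v)) =
        Real.cosh k * (1 + Real.tanh k * (sg u * sg v)) := by
      intro k u v
      have hc : Real.cosh k ≠ 0 := (Real.cosh_pos k).ne'
      have ht : Real.cosh k * Real.tanh k = Real.sinh k := by
        rw [Real.tanh_eq_sinh_div_cosh]; field_simp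
      cases u <;> cases v <;> simp only [sg, if_true, if_false, Bool.false_eq_true, mul_one, one_mul,
        mul_neg, neg_mul, neg_neg] <;> rw [mul_add, mul_one]
      · rw [ht, Real.cosh_add_sinh]
      · rw [mul_neg, ht, ← sub_eq_add_neg, Real.cosh_sub_sinh]
      · rw [mul_neg, ht, ← sub_eq_add_neg, Real.cosh_sub_sinh]
      · rw [ht, Real.cosh_add_sinh]
    simp only [ex]
    have e2 : ∀ f : (Bool → Bool) → ℝ, ∑ h : Bool → Bool, f h =
        ∑ s : Bool, ∑ t : Bool, f (fun z => if z then t else s) := by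
      intro f
      rw [← Fintype.sum_prod_type (f := fun x : Bool × Bool => f (fun z => if z then x.2 else x.1))]
      refine Fintype.sum_equiv
        { toFun := fun h => (h false, h true)
          invFun := fun x z => if z then x.2 else x.1
          left_inv := fun h => by funext z; cases z <;> rfl
          right_inv := fun x => by simp } _ _ ?_
      intro h
      congr 1
      funext z
      cases z <;> rfl
    rw [e2]
    simp only [Fintype.sum_bool, Fin.prod_univ_three, Bool.false_eq_true, if_true, if_false]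
    cases x <;> cases y <;> simp only [sg, if_true, if_false, Bool.false_eq_true, mul_one, one_mul,
        mul_neg, neg_mul, neg_neg] <;> ring
  unfold sgS
  rw [Fintype.sum_equiv (ι := SV V E → Bool) (κ := (V → Bool) × (E → Bool → Bool))
    { toFun := fun σ => (fun v => σ (Sum.inl v), fun e z => σ (Sum.inr (e, z)))
      invFun := fun x => Sum.elim x.1 (fun q => x.2 q.1 q.2)
      left_inv := fun σ => by funext w; rcases w with v | ⟨e, z⟩ <;> rfl
      right_inv := fun x => rfl } _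
    (fun x => F x.1 * ∏ e, (Real.exp (K (e, 0) * (sg (x.1 (G.s e)) * sg (x.2 e false))) *
      Real.exp (K (e, 1) * (sg (x.2 e false) * sg (x.2 e true))) *
        Real.exp (K (e, 2) * (sg (x.2 e true) * sg (x.1 (G.r e))))))
    (fun σ => by
      rw [Fintype.prod_prod_type]
      simp only [Fin.prod_univ_three]
      rfl), Fintype.sum_prod_type, mul_sum]
  refine sum_congr rfl fun a _ => ?_
  dsimp only
  rw [← mul_sum]
  have p1 := Finset.prod_univ_sum (fun _ : E => (univ : Finset (Bool → Bool)))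
    (fun e h => Real.exp (K (e, 0) * (sg (a (G.s e)) * sg (h false))) *
      Real.exp (K (e, 1) * (sg (h false) * sg (h true))) *
        Real.exp (K (e, 2) * (sg (h true) * sg (a (G.r e)))))
  rw [Fintype.piFinset_univ] at p1
  rw [← p1, prod_congr rfl (fun e _ => site e (a (G.s e)) (a (G.r e))), prod_mul_distrib,
    prod_mul_distrib, prod_const, card_univ]
  ring

/-- sign sum without insertion. -/
theorem sgS_one (G : Gr V E) (K : E × Fin 3 → ℝ) :
    sgS G K (fun _ => 1) = 4 ^ Fintype.card E * (∏ e, ∏ j : Fin 3, Real.cosh (K (e, j))) *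
      Zv G (fun e => ∏ j : Fin 3, Real.tanh (K (e, j))) := by
  have h := CK1_chain G K (fun _ => 1)
  simp only [one_mul] at h
  exact h

/-- insertion at two vertices of the graph: the FK representation (`Zv_conn`, expand `1 + r s = (1-r) + r (1+s)`). -/
theorem sgS_two (G : Gr V E) (K : E × Fin 3 → ℝ) (u v : V) :
    sgS G K (fun σ => sg (σ (Sum.inl u)) * sg (σ (Sum.inl v))) =
      4 ^ Fintype.card E * (∏ e, ∏ j : Fin 3, Real.cosh (K (e, j))) *
        fo G ∅ (fun e => ∏ j : Fin 3, Real.tanh (K (e, j))) (fun _ => false)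
          (fun o => ind (G.Conn (op1 o) u v)) := by
  have h := CK1_chain G K (fun a => sg (a u) * sg (a v))
  rw [h]
  congr 1
  obtain ⟨r, hr⟩ : ∃ r : E → ℝ, r = fun e => ∏ j : Fin 3, Real.tanh (K (e, j)) := ⟨_, rfl⟩
  have e1 : ∀ a : V → Bool, ∏ e, (1 + (∏ j : Fin 3, Real.tanh (K (e, j))) *
      (sg (a (G.s e)) * sg (a (G.r e)))) =
      ∑ o : E → Bool, (∏ e, (if o e then r e else 1 - r e)) *
        ∏ e, (1 + bt o e * (sg (a (G.s e)) * sg (a (G.r e)))) := by
    intro a
    have p1 := Finset.prod_univ_sum (fun _ : E => (univ : Finset Bool))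
      (fun e x => (if x then r e else 1 - r e) *
        (1 + (if x then (1 : ℝ) else 0) * (sg (a (G.s e)) * sg (a (G.r e)))))
    rw [Fintype.piFinset_univ] at p1
    have p2 : ∏ e, (1 + (∏ j : Fin 3, Real.tanh (K (e, j))) *
      (sg (a (G.s e)) * sg (a (G.r e)))) = ∏ e, ∑ x : Bool, (if x then r e else 1 - r e) *
        (1 + (if x then (1 : ℝ) else 0) * (sg (a (G.s e)) * sg (a (G.r e)))) := by
      refine prod_congr rfl fun e _ => ?_
      rw [Fintype.sum_bool, hr]
      simp only [if_true, if_false, Bool.false_eq_true]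
      ring
    rw [p2, p1]
    refine sum_congr rfl fun o _ => ?_
    rw [prod_mul_distrib]
    rfl
  rw [sum_congr rfl (fun a _ => by rw [e1 a, mul_sum]), sum_comm]
  unfold fo
  refine sum_congr rfl fun o _ => ?_
  rw [if_pos (by simp), sdiff_empty]
  have c := Zv_conn G o u v
  have e2 : ∀ a : V → Bool, sg (a u) * sg (a v) * ((∏ e, (if o e then r e else 1 - r e)) *
        ∏ e, (1 + bt o e * (sg (a (G.s e)) * sg (a (G.r e))))) =
      (∏ e, (if o e then r e else 1 - r e)) * ((sg (a u) * sg (a v)) *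
        ∏ e, (1 + bt o e * (sg (a (G.s e)) * sg (a (G.r e))))) := by
    intro a; ring
  rw [sum_congr rfl (fun a _ => e2 a), ← mul_sum, c, hr]
  ring

end H82.BX

end S_H82_BX_CK1

section S_H82_BX_CK2

/-!
# CK2: inner vertices of the chains

Ends: `en G (inl v) = {v}`, `en G (inr (e, _)) = {s e, r e}`.  Claim (`K ≥ 0`):
`sgS (σ_p σ_q) ≤ ∑_{x ∈ en p} ∑_{y ∈ en q} sgS (σ_x σ_y)`.
All `sgS (σ_x σ_y) ≥ 0` (Griffiths: expand the exponentials `cosh + sinh s`, sums of products of signs are `≥ 0`).  If `p` is inner to the chain of `e`, and `q` is not inner to the same chain, sum over the two inner signs of `e`: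
with weights `C_j + S_j s`: the sum of `σ_p × weights` is `4 C0 C1 C2 (α σ_x + β σ_y)`, `x = s e`, `y = r e`, `0 ≤ α, β ≤ 1` (`p = z`: `α = T0`, `β = T1 T2`; `p = m`: `α = T0 T1`, `β = T2`), while
the sum of `(σ_x + σ_y) × weights` is `4 C0 C1 C2 (σ_x + σ_y)(1 + r σ_x σ_y) = 4 C0 C1 C2 (1 + r)(σ_x + σ_y)`; the remaining factor (with `σ_q`) has nonnegative correlations with `σ_x`, `σ_y`.
Then the same for `q`.  If `p, q` are both inner to the chain of `e` then the right side contains `sgS (σ_x σ_x) = sgS 1 ≥ sgS (σ_p σ_q)`.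
-/

set_option autoImplicit false

open Finset MeasureTheory

namespace H82.BX

open H82.IC XYB

section aux
variable {ι : Type} [Fintype ι] [DecidableEq ι]

theorem CK2_sq (b : Bool) : sg b * sg b = 1 := by
  cases b <;> simp [sg]

theorem CK2_not (b : Bool) : sg (!b) = -sg b := by
  cases b <;> simp [sg]

theorem CK2_pm (b : Bool) : sg b = 1 ∨ sg b = -1 := by
  cases b
  · right; simp [sg]
  · left; simp [sg]

theorem CK2_le (a b : Bool) : sg a * sg b ≤ 1 := by
  rcases CK2_pm a with h | h <;> rcases CK2_pm b with h' | h' <;> rw [h, h'] <;> norm_num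

/-- flipping one sign -/
theorem CK2_flip (i : ι) (g : (ι → Bool) → ℝ)
    (hg : ∀ σ, g (Function.update σ i (!σ i)) = g σ) : ∑ σ : ι → Bool, g σ * sg (σ i) = 0 := by
  refine Finset.sum_involution (fun σ _ => Function.update σ i (!σ i)) ?_ ?_ ?_ ?_
  · intro σ _
    simp only [Function.update_self, CK2_not, hg]
    ring
  · intro σ _ _ h
    have h1 := congrFun h i
    simp only [Function.update_self] at h1
    cases hs : σ i <;> simp [hs] at h1
  · intro σ _
    exact Finset.mem_univ _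
  · intro σ _
    funext k
    by_cases hk : k = i
    · subst hk
      simp
    · simp [Function.update_of_ne hk]

/-- all correlations with products of signs are nonnegative -/
def CK2_P (f : (ι → Bool) → ℝ) : Prop := ∀ A : Finset ι, 0 ≤ ∑ σ, f σ * ∏ i ∈ A, sg (σ i)

theorem CK2_P_one : CK2_P (fun _ : ι → Bool => 1) := by
  intro A
  rcases A.eq_empty_or_nonempty with rfl | ⟨i, hi⟩
  · simp
  · have h : ∑ σ : ι → Bool, (1 : ℝ) * ∏ k ∈ A, sg (σ k) =
        ∑ σ : ι → Bool, (∏ k ∈ A.erase i, sg (σ k)) * sg (σ i) := by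
      refine Finset.sum_congr rfl fun σ _ => ?_
      rw [one_mul, ← Finset.prod_erase_mul A _ hi]
    rw [h, CK2_flip i]
    intro σ
    refine Finset.prod_congr rfl fun k hk => ?_
    rw [Function.update_of_ne (Finset.ne_of_mem_erase hk)]

omit [Fintype ι] in
theorem CK2_char (i : ι) (A : Finset ι) : ∃ A' : Finset ι, ∀ σ : ι → Bool,
    sg (σ i) * ∏ k ∈ A, sg (σ k) = ∏ k ∈ A', sg (σ k) := by
  by_cases hi : i ∈ A
  · refine ⟨A.erase i, fun σ => ?_⟩
    rw [← Finset.mul_prod_erase A _ hi, ← mul_assoc, CK2_sq, one_mul]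
  · refine ⟨insert i A, fun σ => ?_⟩
    rw [Finset.prod_insert hi]

theorem CK2_P_two {f : (ι → Bool) → ℝ} (hf : CK2_P f) (i j : ι) (A : Finset ι) :
    0 ≤ ∑ σ, f σ * ((sg (σ i) * sg (σ j)) * ∏ k ∈ A, sg (σ k)) := by
  obtain ⟨A', h'⟩ := CK2_char j A
  obtain ⟨A'', h''⟩ := CK2_char i A'
  have h := hf A''
  refine h.trans (le_of_eq (Finset.sum_congr rfl fun σ _ => ?_))
  rw [← h'', ← h']
  ring

theorem CK2_exp (K : ℝ) (a b : Bool) :
    Real.exp (K * (sg a * sg b)) = Real.cosh K + Real.sinh K * (sg a * sg b) := by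
  have h : sg a * sg b = 1 ∨ sg a * sg b = -1 := by
    rcases CK2_pm a with h | h <;> rcases CK2_pm b with h' | h' <;> rw [h, h'] <;> norm_num
  rcases h with h | h <;> rw [h]
  · rw [mul_one, mul_one, Real.cosh_add_sinh]
  · rw [mul_neg_one, mul_neg_one, ← sub_eq_add_neg, Real.cosh_sub_sinh]

theorem CK2_P_link {f : (ι → Bool) → ℝ} (hf : CK2_P f) {K : ℝ} (hK : 0 ≤ K) (i j : ι) :
    CK2_P (fun σ => f σ * Real.exp (K * (sg (σ i) * sg (σ j)))) := by
  intro A
  have h1 := hf A
  have h2 := CK2_P_two hf i j A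
  have h3 : ∑ σ, f σ * Real.exp (K * (sg (σ i) * sg (σ j))) * ∏ k ∈ A, sg (σ k) =
      Real.cosh K * (∑ σ, f σ * ∏ k ∈ A, sg (σ k)) +
      Real.sinh K * ∑ σ, f σ * ((sg (σ i) * sg (σ j)) * ∏ k ∈ A, sg (σ k)) := by
    rw [Finset.mul_sum, Finset.mul_sum, ← Finset.sum_add_distrib]
    refine Finset.sum_congr rfl fun σ _ => ?_
    rw [CK2_exp]
    ring
  rw [h3]
  exact add_nonneg (mul_nonneg (Real.cosh_pos K).le h1)
    (mul_nonneg (Real.sinh_nonneg_iff.2 hK) h2)

theorem CK2_P_prod {L : Type} [DecidableEq L] (s : Finset L) (K : L → ℝ) (hK : ∀ l, 0 ≤ K l)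
    (i j : L → ι) :
    CK2_P (fun σ => ∏ l ∈ s, Real.exp (K l * (sg (σ (i l)) * sg (σ (j l))))) := by
  induction s using Finset.induction_on with
  | empty => simpa using (CK2_P_one (ι := ι))
  | @insert l s hl ih =>
    have h := CK2_P_link ih (hK l) (i l) (j l)
    have e : (fun σ : ι → Bool => ∏ l ∈ insert l s, Real.exp (K l * (sg (σ (i l)) * sg (σ (j l))))) =
        fun σ => (∏ l ∈ s, Real.exp (K l * (sg (σ (i l)) * sg (σ (j l))))) *
          Real.exp (K l * (sg (σ (i l)) * sg (σ (j l)))) := by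
      funext σ
      rw [Finset.prod_insert hl, mul_comm]
    rw [e]
    exact h

theorem CK2_corr {f : (ι → Bool) → ℝ} (hf : CK2_P f) (i j : ι) :
    0 ≤ ∑ σ, f σ * (sg (σ i) * sg (σ j)) := by
  have h := CK2_P_two hf i j ∅
  simpa using h

end aux

variable {V E : Type} [Fintype V] [DecidableEq V] [Fintype E] [DecidableEq E]

def en (G : Gr V E) : SV V E → Finset V
  | Sum.inl v => {v}
  | Sum.inr (e, _) => {G.s e, G.r e}

theorem CK2_nonneg (G : Gr V E) (K : E × Fin 3 → ℝ) (hK : ∀ l, 0 ≤ K l) (p q : SV V E) :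
    0 ≤ sgS G K (fun σ => sg (σ p) * sg (σ q)) := by
  have h := CK2_corr (CK2_P_prod (univ : Finset (E × Fin 3)) K hK (LK G).s (LK G).r) p q
  unfold sgS
  refine h.trans (le_of_eq (Finset.sum_congr rfl fun σ _ => ?_))
  rw [mul_comm]

theorem CK2_le_one (G : Gr V E) (K : E × Fin 3 → ℝ) (p q x : SV V E) :
    sgS G K (fun σ => sg (σ p) * sg (σ q)) ≤ sgS G K (fun σ => sg (σ x) * sg (σ x)) := by
  unfold sgS
  refine Finset.sum_le_sum fun σ _ => ?_
  have h0 : (0 : ℝ) ≤ ∏ l : E × Fin 3, Real.exp (K l * (sg (σ ((LK G).s l)) * sg (σ ((LK G).r l)))) :=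
    Finset.prod_nonneg fun l _ => (Real.exp_pos _).le
  refine mul_le_mul_of_nonneg_right ?_ h0
  change sg (σ p) * sg (σ q) ≤ sg (σ x) * sg (σ x)
  rw [CK2_sq]
  exact CK2_le _ _

/-- the weight of the other chains -/
noncomputable def CK2_w (G : Gr V E) (K : E × Fin 3 → ℝ) (e : E) (σ : SV V E → Bool) : ℝ :=
  ∏ l ∈ (univ : Finset (E × Fin 3)).filter (fun l => l.1 ≠ e),
    Real.exp (K l * (sg (σ ((LK G).s l)) * sg (σ ((LK G).r l))))

omit [Fintype V] [DecidableEq V] in
theorem CK2_split (G : Gr V E) (K : E × Fin 3 → ℝ) (e : E) (σ : SV V E → Bool) :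
    ∏ l : E × Fin 3, Real.exp (K l * (sg (σ ((LK G).s l)) * sg (σ ((LK G).r l)))) =
      CK2_w G K e σ *
      ((Real.cosh (K (e, 0)) + Real.sinh (K (e, 0)) *
          (sg (σ (Sum.inl (G.s e))) * sg (σ (Sum.inr (e, false))))) *
       (Real.cosh (K (e, 1)) + Real.sinh (K (e, 1)) *
          (sg (σ (Sum.inr (e, false))) * sg (σ (Sum.inr (e, true))))) *
       (Real.cosh (K (e, 2)) + Real.sinh (K (e, 2)) *
          (sg (σ (Sum.inr (e, true))) * sg (σ (Sum.inl (G.r e)))))) := by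
  rw [← Finset.prod_filter_mul_prod_filter_not (univ : Finset (E × Fin 3)) (fun l => l.1 ≠ e)]
  unfold CK2_w
  congr 1
  have h1 : (univ : Finset (E × Fin 3)).filter (fun l => ¬ l.1 ≠ e) =
      (univ : Finset (Fin 3)).image (fun j => (e, j)) := by
    ext ⟨e', j⟩
    simp only [Finset.mem_filter, Finset.mem_univ, true_and, not_not, Finset.mem_image,
      Prod.mk.injEq]
    exact ⟨fun h => ⟨j, h.symm, rfl⟩, fun ⟨_, h, _⟩ => h.symm⟩
  rw [h1, Finset.prod_image (fun a _ b _ h => (Prod.mk.inj h).2), Fin.prod_univ_three]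
  rw [CK2_exp, CK2_exp, CK2_exp]
  rfl

omit [Fintype V] in
/-- invariance of the weight of the other chains -/
theorem CK2_w_inv (G : Gr V E) (K : E × Fin 3 → ℝ) (e : E) (c : Bool) (σ : SV V E → Bool) (b : Bool) :
    CK2_w G K e (Function.update σ (Sum.inr (e, c)) b) = CK2_w G K e σ := by
  unfold CK2_w
  refine Finset.prod_congr rfl fun l hl => ?_
  obtain ⟨e', j⟩ := l
  have he : e' ≠ e := (Finset.mem_filter.1 hl).2
  have hs : (LK G).s (e', j) ≠ Sum.inr (e, c) := by
    unfold LK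
    fin_cases j <;> simp [he]
  have hr : (LK G).r (e', j) ≠ Sum.inr (e, c) := by
    unfold LK
    fin_cases j <;> simp [he]
  rw [Function.update_of_ne hs, Function.update_of_ne hr]

/-- summing over the two inner signs -/
theorem CK2_inner (e : E) (x y : SV V E) (hx : ∀ c, x ≠ Sum.inr (e, c)) (hy : ∀ c, y ≠ Sum.inr (e, c))
    (g : (SV V E → Bool) → ℝ)
    (hg : ∀ (c : Bool) (σ : SV V E → Bool) (b : Bool),
      g (Function.update σ (Sum.inr (e, c)) b) = g σ)
    (C0 C1 C2 S0 S1 S2 : ℝ) (k : Fin 4) :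
    let W : (SV V E → Bool) → ℝ := fun σ =>
      (C0 + S0 * (sg (σ x) * sg (σ (Sum.inr (e, false))))) *
      (C1 + S1 * (sg (σ (Sum.inr (e, false))) * sg (σ (Sum.inr (e, true))))) *
      (C2 + S2 * (sg (σ (Sum.inr (e, true))) * sg (σ y)))
    ∑ σ, g σ * W σ * (![sg (σ (Sum.inr (e, false))), sg (σ (Sum.inr (e, true))), sg (σ x), sg (σ y)] : Fin 4 → ℝ) k =
      (![S0 * C1 * C2, S0 * S1 * C2, C0 * C1 * C2, S0 * S1 * S2] : Fin 4 → ℝ) k * (∑ σ, g σ * sg (σ x)) +
      (![C0 * S1 * S2, C0 * C1 * S2, S0 * S1 * S2, C0 * C1 * C2] : Fin 4 → ℝ) k * (∑ σ, g σ * sg (σ y)) := by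
  intro W
  have hz : ∀ u : (SV V E → Bool) → ℝ, (∀ σ b, u (Function.update σ (Sum.inr (e, false)) b) = u σ) →
      ∑ σ : SV V E → Bool, u σ * sg (σ (Sum.inr (e, false))) = 0 :=
    fun u hu => CK2_flip _ u fun σ => hu σ _
  have hm : ∀ u : (SV V E → Bool) → ℝ, (∀ σ b, u (Function.update σ (Sum.inr (e, true)) b) = u σ) →
      ∑ σ : SV V E → Bool, u σ * sg (σ (Sum.inr (e, true))) = 0 :=
    fun u hu => CK2_flip _ u fun σ => hu σ _
  have ux : ∀ (c : Bool) (σ : SV V E → Bool) (b : Bool),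
      (Function.update σ (Sum.inr (e, c)) b) x = σ x :=
    fun c σ b => Function.update_of_ne (hx c) _ _
  have uy : ∀ (c : Bool) (σ : SV V E → Bool) (b : Bool),
      (Function.update σ (Sum.inr (e, c)) b) y = σ y :=
    fun c σ b => Function.update_of_ne (hy c) _ _
  have um : ∀ (σ : SV V E → Bool) (b : Bool),
      (Function.update σ (Sum.inr (e, false)) b) (Sum.inr (e, true)) = σ (Sum.inr (e, true)) :=
    fun σ b => Function.update_of_ne (by simp) _ _
  have uz : ∀ (σ : SV V E → Bool) (b : Bool),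
      (Function.update σ (Sum.inr (e, true)) b) (Sum.inr (e, false)) = σ (Sum.inr (e, false)) :=
    fun σ b => Function.update_of_ne (by simp) _ _
  -- general assembly
  have main : ∀ (F : (SV V E → Bool) → ℝ) (α β : ℝ) (u v : (SV V E → Bool) → ℝ),
      (∀ σ b, u (Function.update σ (Sum.inr (e, false)) b) = u σ) →
      (∀ σ b, v (Function.update σ (Sum.inr (e, true)) b) = v σ) →
      (∀ σ, F σ = α * (g σ * sg (σ x)) + β * (g σ * sg (σ y)) + u σ * sg (σ (Sum.inr (e, false))) +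
        v σ * sg (σ (Sum.inr (e, true)))) →
      ∑ σ, F σ = α * (∑ σ, g σ * sg (σ x)) + β * (∑ σ, g σ * sg (σ y)) := by
    intro F α β u v hu hv hF
    rw [Finset.sum_congr rfl fun σ _ => hF σ, Finset.sum_add_distrib, Finset.sum_add_distrib,
      Finset.sum_add_distrib, hz u hu, hm v hv, add_zero, add_zero, Finset.mul_sum, Finset.mul_sum]
  fin_cases k
  · refine main _ _ _
      (fun σ => g σ * (C0 * C1 * C2 + C0 * C1 * S2 * (sg (σ (Sum.inr (e, true))) * sg (σ y)) +
        S0 * S1 * C2 * (sg (σ x) * sg (σ (Sum.inr (e, true)))) + S0 * S1 * S2 * (sg (σ x) * sg (σ y))))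
      (fun σ => g σ * (C0 * S1 * C2 + S0 * C1 * S2 * (sg (σ x) * sg (σ y)))) ?_ ?_ ?_
    · intro σ b
      simp only [hg, ux, uy, um]
    · intro σ b
      simp only [hg, ux, uy]
    · intro σ
      rcases CK2_pm (σ x) with h1 | h1 <;> rcases CK2_pm (σ y) with h2 | h2 <;>
        rcases CK2_pm (σ (Sum.inr (e, false))) with h3 | h3 <;>
        rcases CK2_pm (σ (Sum.inr (e, true))) with h4 | h4 <;>
        simp [W, h1, h2, h3, h4] <;> ring
  · refine main _ _ _
      (fun σ => g σ * (S0 * C1 * C2 * (sg (σ x) * sg (σ (Sum.inr (e, true)))) + C0 * S1 * C2 +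
        S0 * C1 * S2 * (sg (σ x) * sg (σ y)) + C0 * S1 * S2 * (sg (σ (Sum.inr (e, true))) * sg (σ y))))
      (fun σ => g σ * (C0 * C1 * C2 + S0 * S1 * S2 * (sg (σ x) * sg (σ y)))) ?_ ?_ ?_
    · intro σ b
      simp only [hg, ux, uy, um]
    · intro σ b
      simp only [hg, ux, uy]
    · intro σ
      rcases CK2_pm (σ x) with h1 | h1 <;> rcases CK2_pm (σ y) with h2 | h2 <;>
        rcases CK2_pm (σ (Sum.inr (e, false))) with h3 | h3 <;>
        rcases CK2_pm (σ (Sum.inr (e, true))) with h4 | h4 <;>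
        simp [W, h1, h2, h3, h4] <;> ring
  · refine main _ _ _
      (fun σ => g σ * (S0 * C1 * C2 + C0 * S1 * C2 * (sg (σ x) * sg (σ (Sum.inr (e, true)))) +
        S0 * C1 * S2 * (sg (σ (Sum.inr (e, true))) * sg (σ y)) + C0 * S1 * S2 * (sg (σ x) * sg (σ y))))
      (fun σ => g σ * (C0 * C1 * S2 * (sg (σ x) * sg (σ y)) + S0 * S1 * C2)) ?_ ?_ ?_
    · intro σ b
      simp only [hg, ux, uy, um]
    · intro σ b
      simp only [hg, ux, uy]
    · intro σ
      rcases CK2_pm (σ x) with h1 | h1 <;> rcases CK2_pm (σ y) with h2 | h2 <;>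
        rcases CK2_pm (σ (Sum.inr (e, false))) with h3 | h3 <;>
        rcases CK2_pm (σ (Sum.inr (e, true))) with h4 | h4 <;>
        simp [W, h1, h2, h3, h4] <;> ring
  · refine main _ _ _
      (fun σ => g σ * (S0 * C1 * C2 * (sg (σ x) * sg (σ y)) + C0 * S1 * C2 * (sg (σ (Sum.inr (e, true))) * sg (σ y)) +
        S0 * C1 * S2 * (sg (σ x) * sg (σ (Sum.inr (e, true)))) + C0 * S1 * S2))
      (fun σ => g σ * (C0 * C1 * S2 + S0 * S1 * C2 * (sg (σ x) * sg (σ y)))) ?_ ?_ ?_
    · intro σ b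
      simp only [hg, ux, uy, um]
    · intro σ b
      simp only [hg, ux, uy]
    · intro σ
      rcases CK2_pm (σ x) with h1 | h1 <;> rcases CK2_pm (σ y) with h2 | h2 <;>
        rcases CK2_pm (σ (Sum.inr (e, false))) with h3 | h3 <;>
        rcases CK2_pm (σ (Sum.inr (e, true))) with h4 | h4 <;>
        simp [W, h1, h2, h3, h4] <;> ring

theorem CK2_step (G : Gr V E) (K : E × Fin 3 → ℝ) (hK : ∀ l, 0 ≤ K l) (e : E) (c : Bool)
    (q : SV V E) (hq : ∀ c', q ≠ Sum.inr (e, c')) :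
    sgS G K (fun σ => sg (σ (Sum.inr (e, c))) * sg (σ q)) ≤
      ∑ x ∈ en G (Sum.inr (e, c)), sgS G K (fun σ => sg (σ (Sum.inl x)) * sg (σ q)) := by
  set g : (SV V E → Bool) → ℝ := fun σ => CK2_w G K e σ * sg (σ q) with hgdef
  have hg : ∀ (c : Bool) (σ : SV V E → Bool) (b : Bool),
      g (Function.update σ (Sum.inr (e, c)) b) = g σ := by
    intro c σ b
    simp only [hgdef]
    rw [CK2_w_inv, Function.update_of_ne (hq c)]
  have hw : CK2_P (CK2_w G K e) :=
    CK2_P_prod _ K hK (LK G).s (LK G).r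
  set X : ℝ := ∑ σ, g σ * sg (σ (Sum.inl (G.s e))) with hX
  set Y : ℝ := ∑ σ, g σ * sg (σ (Sum.inl (G.r e))) with hY
  have hX0 : 0 ≤ X := by
    have h := CK2_corr hw q (Sum.inl (G.s e))
    refine h.trans (le_of_eq (Finset.sum_congr rfl fun σ _ => ?_))
    simp only [hgdef]
    ring
  have hY0 : 0 ≤ Y := by
    have h := CK2_corr hw q (Sum.inl (G.r e))
    refine h.trans (le_of_eq (Finset.sum_congr rfl fun σ _ => ?_))
    simp only [hgdef]
    ring
  have inn := CK2_inner e (Sum.inl (G.s e)) (Sum.inl (G.r e)) (fun c => by simp) (fun c => by simp) g hg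
    (Real.cosh (K (e, 0))) (Real.cosh (K (e, 1))) (Real.cosh (K (e, 2)))
    (Real.sinh (K (e, 0))) (Real.sinh (K (e, 1))) (Real.sinh (K (e, 2)))
  have conv : ∀ p : SV V E, sgS G K (fun σ => sg (σ p) * sg (σ q)) =
      ∑ σ, g σ * ((Real.cosh (K (e, 0)) + Real.sinh (K (e, 0)) *
          (sg (σ (Sum.inl (G.s e))) * sg (σ (Sum.inr (e, false))))) *
       (Real.cosh (K (e, 1)) + Real.sinh (K (e, 1)) *
          (sg (σ (Sum.inr (e, false))) * sg (σ (Sum.inr (e, true))))) *
       (Real.cosh (K (e, 2)) + Real.sinh (K (e, 2)) *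
          (sg (σ (Sum.inr (e, true))) * sg (σ (Sum.inl (G.r e)))))) * sg (σ p) := by
    intro p
    unfold sgS
    refine Finset.sum_congr rfl fun σ _ => ?_
    rw [CK2_split G K e σ]
    simp only [hgdef]
    ring
  have c0 := (Real.cosh_pos (K (e, 0))).le
  have c1 := (Real.cosh_pos (K (e, 1))).le
  have c2 := (Real.cosh_pos (K (e, 2))).le
  have s0 := Real.sinh_nonneg_iff.2 (hK (e, 0))
  have s1 := Real.sinh_nonneg_iff.2 (hK (e, 1))
  have s2 := Real.sinh_nonneg_iff.2 (hK (e, 2))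
  have d0 := (Real.sinh_lt_cosh (K (e, 0))).le
  have d1 := (Real.sinh_lt_cosh (K (e, 1))).le
  have d2 := (Real.sinh_lt_cosh (K (e, 2))).le
  have ex : sgS G K (fun σ => sg (σ (Sum.inl (G.s e))) * sg (σ q)) =
      Real.cosh (K (e, 0)) * Real.cosh (K (e, 1)) * Real.cosh (K (e, 2)) * X +
      Real.sinh (K (e, 0)) * Real.sinh (K (e, 1)) * Real.sinh (K (e, 2)) * Y := by
    rw [conv]
    exact inn 2
  have ey : sgS G K (fun σ => sg (σ (Sum.inl (G.r e))) * sg (σ q)) =
      Real.sinh (K (e, 0)) * Real.sinh (K (e, 1)) * Real.sinh (K (e, 2)) * X +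
      Real.cosh (K (e, 0)) * Real.cosh (K (e, 1)) * Real.cosh (K (e, 2)) * Y := by
    rw [conv]
    exact inn 3
  have ep : ∃ α β : ℝ, sgS G K (fun σ => sg (σ (Sum.inr (e, c))) * sg (σ q)) = α * X + β * Y ∧
      α ≤ Real.cosh (K (e, 0)) * Real.cosh (K (e, 1)) * Real.cosh (K (e, 2)) ∧
      β ≤ Real.cosh (K (e, 0)) * Real.cosh (K (e, 1)) * Real.cosh (K (e, 2)) ∧
      α + β ≤ Real.cosh (K (e, 0)) * Real.cosh (K (e, 1)) * Real.cosh (K (e, 2)) +
        Real.sinh (K (e, 0)) * Real.sinh (K (e, 1)) * Real.sinh (K (e, 2)) := by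
    generalize Real.cosh (K (e, 0)) = C0 at *
    generalize Real.cosh (K (e, 1)) = C1 at *
    generalize Real.cosh (K (e, 2)) = C2 at *
    generalize Real.sinh (K (e, 0)) = S0 at *
    generalize Real.sinh (K (e, 1)) = S1 at *
    generalize Real.sinh (K (e, 2)) = S2 at *
    have p12 : S1 * S2 ≤ C1 * C2 := mul_le_mul d1 d2 s2 c1
    have p01 : S0 * S1 ≤ C0 * C1 := mul_le_mul d0 d1 s1 c0
    cases c
    · refine ⟨S0 * C1 * C2, C0 * S1 * S2, ?_, ?_, ?_, ?_⟩
      · rw [conv]
        exact inn 0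
      · exact mul_le_mul_of_nonneg_right (mul_le_mul_of_nonneg_right d0 c1) c2
      · nlinarith
      · nlinarith
    · refine ⟨S0 * S1 * C2, C0 * C1 * S2, ?_, ?_, ?_, ?_⟩
      · rw [conv]
        exact inn 1
      · exact mul_le_mul_of_nonneg_right p01 c2
      · nlinarith [mul_nonneg c0 c1]
      · nlinarith
  obtain ⟨α, β, h1, h2, h3, h4⟩ := ep
  have r0 : 0 ≤ Real.sinh (K (e, 0)) * Real.sinh (K (e, 1)) * Real.sinh (K (e, 2)) :=
    mul_nonneg (mul_nonneg s0 s1) s2
  rw [h1]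
  change _ ≤ ∑ x ∈ ({G.s e, G.r e} : Finset V), sgS G K (fun σ => sg (σ (Sum.inl x)) * sg (σ q))
  by_cases hse : G.s e = G.r e
  · have hXY : X = Y := by rw [hX, hY, hse]
    rw [hse, Finset.pair_eq_singleton, Finset.sum_singleton, ey, hXY]
    nlinarith
  · rw [Finset.sum_pair hse, ex, ey]
    nlinarith

theorem sgS_ends (G : Gr V E) (K : E × Fin 3 → ℝ) (hK : ∀ l, 0 ≤ K l) (p q : SV V E) :
    sgS G K (fun σ => sg (σ p) * sg (σ q)) ≤ ∑ x ∈ en G p, ∑ y ∈ en G q,
      sgS G K (fun σ => sg (σ (Sum.inl x)) * sg (σ (Sum.inl y))) := by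
  have comm : ∀ a b : SV V E, sgS G K (fun σ => sg (σ a) * sg (σ b)) =
      sgS G K (fun σ => sg (σ b) * sg (σ a)) := by
    intro a b
    congr 1
    funext σ
    exact mul_comm _ _
  -- one vertex of the graph
  have one : ∀ (x : V) (q : SV V E), sgS G K (fun σ => sg (σ (Sum.inl x)) * sg (σ q)) ≤
      ∑ y ∈ en G q, sgS G K (fun σ => sg (σ (Sum.inl x)) * sg (σ (Sum.inl y))) := by
    intro x q
    rcases q with v | ⟨e, c⟩
    · change _ ≤ ∑ y ∈ ({v} : Finset V), sgS G K (fun σ => sg (σ (Sum.inl x)) * sg (σ (Sum.inl y)))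
      rw [Finset.sum_singleton]
    · rw [comm]
      refine (CK2_step G K hK e c (Sum.inl x) (fun c' => by simp)).trans (le_of_eq ?_)
      exact Finset.sum_congr rfl fun y _ => comm _ _
  rcases p with v | ⟨e, c⟩
  · change _ ≤ ∑ x ∈ ({v} : Finset V), _
    rw [Finset.sum_singleton]
    exact one v q
  · by_cases hq : ∀ c', q ≠ Sum.inr (e, c')
    · refine (CK2_step G K hK e c q hq).trans (Finset.sum_le_sum fun x _ => one x q)
    · push Not at hq
      obtain ⟨c', rfl⟩ := hq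
      have hmem : G.s e ∈ en G (Sum.inr (e, c)) := by
        change G.s e ∈ ({G.s e, G.r e} : Finset V)
        simp
      have hmem' : G.s e ∈ en G (Sum.inr (e, c')) := by
        change G.s e ∈ ({G.s e, G.r e} : Finset V)
        simp
      refine (CK2_le_one G K _ _ (Sum.inl (G.s e))).trans ?_
      refine le_trans ?_ (Finset.single_le_sum (f := fun x => ∑ y ∈ en G (Sum.inr (e, c')),
        sgS G K (fun σ => sg (σ (Sum.inl x)) * sg (σ (Sum.inl y))))
        (fun x _ => Finset.sum_nonneg fun y _ => CK2_nonneg G K hK _ _) hmem)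
      exact Finset.single_le_sum (f := fun y =>
        sgS G K (fun σ => sg (σ (Sum.inl (G.s e))) * sg (σ (Sum.inl y))))
        (fun y _ => CK2_nonneg G K hK _ _) hmem'

end H82.BX

end S_H82_BX_CK2
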