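import Mathlib
import Pool.Agent.H82.BXM.G01

/-! MP_26628e_mp: this file joins several modules to save build time. -/

section S_H82_IC_BD

/-!
# BD: boundaries of flows

* `bd_add` etc: `Γ.bd` is additive (`Finset.sum_add_distrib`, `ite` splitting).
* `bd_single`: the boundary of the flow with value `1` on `e` and `0` elsewhere is `src (s e) (r e)`.
* `bd_pr`: componentwise.
* `exists_flow`: induction on the path (`ReflTransGen`): start with the zero flow; a step through `e ∈ ω` adds the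
  flow `1_e` (in `ZMod 2`, `src u x + src x y = src u y`, a loop `e` gives `src x x = 0`).
* `bd_cut`: pointwise: if `x ∈ C`, only edges with an end equal to `x` count, and for those with `η e ≠ 0` both ends are in `C`;
  if `x ∉ C`, the edges with `η e ≠ 0` and an end equal to `x` have no end in `C`.
* `bd_ne_single`: the sum over a finite set `W` containing all ends and `a` of `Γ.bd η x` is
  `∑ e, (η e + η e) = 0` in `ZMod 2`, while the sum of `1_{x=a}` is `1`.
* `conn_of_flow`: apply `bd_cut` with `C = Γ.cl ω u` (every edge of `ω` has both or no ends in `C`, `cl_end`); if `v ∉ C` then the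
  boundary of the cut flow is `1_{x=u}` (as `u ≠ v`), contradiction with `bd_ne_single`.
* `conn4_of_flow`: for `S = src a b + src c d` and any `C` closed under `ω`, the number of members of the list `a,b,c,d` in `C` is even
  (sum over a finite set of the boundary of the cut flow).  Take `C = cl ω a`: `b`, `c` or `d` is in `C`.
  If `b ∈ C`: if `c ∈ C` then `d ∈ C` and all four are connected; if `c ∉ C` then `d ∉ C`, and `C' = cl ω c` contains none of `a, b`, so it contains `d`.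
  The other cases are similar.
-/

set_option autoImplicit false

open Finset

namespace H82.IC

section General
variable {V E : Type*} [Fintype E] {A : Type*} [AddCommGroup A]

theorem bd_add (Γ : Gr V E) (η η' : E → A) : Γ.bd (η + η') = Γ.bd η + Γ.bd η' := by
  funext x
  simp only [Gr.bd, Pi.add_apply]
  rw [← sum_add_distrib]
  refine sum_congr rfl fun e _ => ?_
  split_ifs <;> abel

theorem bd_zero (Γ : Gr V E) : Γ.bd (0 : E → A) = 0 := by
  funext x
  simp [Gr.bd]

theorem bd_cut (Γ : Gr V E) (C : Set V) (η : E → A)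
    (h : ∀ e, η e ≠ 0 → (Γ.s e ∈ C ↔ Γ.r e ∈ C)) :
    Γ.bd ((Γ.tch C).indicator η) = C.indicator (Γ.bd η) := by
  funext x
  by_cases hx : x ∈ C
  · rw [Set.indicator_of_mem hx]
    simp only [Gr.bd]
    refine sum_congr rfl fun e _ => ?_
    congr 1
    · by_cases h1 : Γ.s e = x
      · have h2 : e ∈ Γ.tch C := Or.inl (h1 ▸ hx)
        rw [Set.indicator_of_mem h2]
      · rw [if_neg h1, if_neg h1]
    · by_cases h1 : Γ.r e = x
      · have h2 : e ∈ Γ.tch C := Or.inr (h1 ▸ hx)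
        rw [Set.indicator_of_mem h2]
      · rw [if_neg h1, if_neg h1]
  · rw [Set.indicator_of_notMem hx]
    simp only [Gr.bd]
    refine sum_eq_zero fun e _ => ?_
    have h0 : Γ.s e = x ∨ Γ.r e = x → (Γ.tch C).indicator η e = 0 := by
      intro h1
      by_cases h2 : e ∈ Γ.tch C
      · rw [Set.indicator_of_mem h2]
        by_contra h3
        have h4 := h e h3
        rcases h2 with h2 | h2
        · have h5 := h4.1 h2
          rcases h1 with h1 | h1
          · exact hx (h1 ▸ h2)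
          · exact hx (h1 ▸ h5)
        · have h5 := h4.2 h2
          rcases h1 with h1 | h1
          · exact hx (h1 ▸ h5)
          · exact hx (h1 ▸ h2)
      · rw [Set.indicator_of_notMem h2]
    by_cases h1 : Γ.s e = x
    · rw [h0 (Or.inl h1)]
      simp
    · by_cases h2 : Γ.r e = x
      · rw [h0 (Or.inr h2)]
        simp
      · rw [if_neg h1, if_neg h2, add_zero]

end General

variable {V E : Type*} [Fintype E]

theorem src_self (u : V) : src u u = 0 := by
  funext x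
  simp only [src, Pi.zero_apply]
  exact CharTwo.add_self_eq_zero _

theorem src_comm (u v : V) : src u v = src v u := by
  funext x
  simp only [src]
  exact add_comm _ _

theorem src_add (u v w : V) : src u v + src v w = src u w := by
  funext x
  simp only [src, Pi.add_apply]
  have h : ∀ a b c : ZMod 2, a + b + (b + c) = a + c := by decide
  exact h _ _ _

theorem src_add_self (u v : V) : src u v + src u v = 0 := by
  funext x
  simp only [Pi.add_apply, Pi.zero_apply]
  exact CharTwo.add_self_eq_zero _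

theorem bd_pr (Γ : Gr V E) (η : E → ZMod 2 × ZMod 2) :
    Γ.bd η = pr (Γ.bd (fun e => (η e).1)) (Γ.bd (fun e => (η e).2)) := by
  funext x
  simp only [pr, Gr.bd]
  refine Prod.ext ?_ ?_
  · rw [Prod.fst_sum]
    refine sum_congr rfl fun e _ => ?_
    split_ifs <;> simp
  · rw [Prod.snd_sum]
    refine sum_congr rfl fun e _ => ?_
    split_ifs <;> simp

theorem pr_inj (S T S' T' : V → ZMod 2) : pr S T = pr S' T' ↔ S = S' ∧ T = T' := by
  constructor
  · intro h
    refine ⟨funext fun x => ?_, funext fun x => ?_⟩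
    · exact congrArg Prod.fst (congrFun h x)
    · exact congrArg Prod.snd (congrFun h x)
  · rintro ⟨rfl, rfl⟩
    rfl

theorem pr_add (S T S' T' : V → ZMod 2) : pr S T + pr S' T' = pr (S + S') (T + T') := rfl

theorem pr_indicator (C : Set V) (S T : V → ZMod 2) :
    C.indicator (pr S T) = pr (C.indicator S) (C.indicator T) := by
  funext x
  show C.indicator (pr S T) x = (C.indicator S x, C.indicator T x)
  by_cases hx : x ∈ C
  · rw [Set.indicator_of_mem hx, Set.indicator_of_mem hx, Set.indicator_of_mem hx]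
    rfl
  · rw [Set.indicator_of_notMem hx, Set.indicator_of_notMem hx, Set.indicator_of_notMem hx]
    rfl

/-- the flow with value one on a single edge -/
noncomputable def BD_one (e : E) : E → ZMod 2 := open Classical in fun e' => if e' = e then 1 else 0

omit [Fintype E] in
theorem BD_one_ne {e e' : E} (h : BD_one e e' ≠ 0) : e' = e := by
  by_contra h1
  apply h
  unfold BD_one
  rw [if_neg h1]

theorem BD_bd_one (Γ : Gr V E) (e : E) : Γ.bd (BD_one e) = src (Γ.s e) (Γ.r e) := by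
  funext x
  simp only [Gr.bd, src]
  rw [Finset.sum_eq_single e]
  · have h1 : BD_one e e = 1 := by
      unfold BD_one
      rw [if_pos rfl]
    rw [h1]
    congr 1
    · by_cases h : Γ.s e = x
      · rw [if_pos h, if_pos h.symm]
      · rw [if_neg h, if_neg (Ne.symm h)]
    · by_cases h : Γ.r e = x
      · rw [if_pos h, if_pos h.symm]
      · rw [if_neg h, if_neg (Ne.symm h)]
  · intro e' _ he'
    have h1 : BD_one e e' = 0 := by
      unfold BD_one
      rw [if_neg he']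
    rw [h1]
    simp
  · intro h
    exact absurd (mem_univ e) h

theorem exists_flow (Γ : Gr V E) {ω : Set E} {u v : V} (h : Γ.Conn ω u v) :
    ∃ c : E → ZMod 2, Γ.bd c = src u v ∧ ∀ e, c e ≠ 0 → e ∈ ω := by
  induction h with
  | refl => exact ⟨0, by rw [bd_zero, src_self], fun e he => absurd rfl he⟩
  | @tail b' c' _ hstep ih =>
    obtain ⟨c, hc, hcω⟩ := ih
    obtain ⟨e, he, hends⟩ := hstep
    refine ⟨c + BD_one e, ?_, fun e' he' => ?_⟩
    · rw [bd_add, hc, BD_bd_one]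
      rcases hends with ⟨h1, h2⟩ | ⟨h1, h2⟩
      · rw [h1, h2, src_add]
      · rw [h1, h2, src_comm c' b', src_add]
    · by_cases h1 : c e' = 0
      · rw [Pi.add_apply, h1, zero_add] at he'
        rw [BD_one_ne he']
        exact he
      · exact hcω e' h1

theorem BD_par (Γ : Gr V E) (η : E → ZMod 2) (W : Finset V) (h1 : ∀ e, Γ.s e ∈ W)
    (h2 : ∀ e, Γ.r e ∈ W) : ∑ x ∈ W, Γ.bd η x = 0 := by
  classical
  have h3 : ∀ x, Γ.bd η x = ∑ e, ((if Γ.s e = x then η e else 0) + (if Γ.r e = x then η e else 0)) := by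
    intro x
    simp only [Gr.bd]
  simp only [h3]
  rw [sum_comm]
  refine sum_eq_zero fun e _ => ?_
  rw [sum_add_distrib, Finset.sum_ite_eq, Finset.sum_ite_eq, if_pos (h1 e), if_pos (h2 e)]
  exact CharTwo.add_self_eq_zero _

theorem bd_ne_single (Γ : Gr V E) (η : E → ZMod 2) (a : V) :
    Γ.bd η ≠ ({a} : Set V).indicator 1 := by
  classical
  intro h
  set W : Finset V := (univ.image Γ.s ∪ univ.image Γ.r) ∪ {a} with hW
  have h1 := BD_par Γ η W (fun e => by simp [hW]) (fun e => by simp [hW])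
  rw [h] at h1
  have h2 : ∑ x ∈ W, ({a} : Set V).indicator (1 : V → ZMod 2) x = 1 := by
    rw [Finset.sum_eq_single a]
    · simp
    · intro b _ hb
      simp [hb]
    · intro ha
      exact absurd (by simp [hW]) ha
  rw [h2] at h1
  exact absurd h1 (by decide)

theorem BD_par4 (Γ : Gr V E) {C : Set V} {ω : Set E} (hC : ∀ e ∈ ω, (Γ.s e ∈ C ↔ Γ.r e ∈ C))
    {a b c d : V} {η : E → ZMod 2}
    (hη : Γ.bd η = src a b + src c d) (hs : ∀ e, η e ≠ 0 → e ∈ ω) :
    C.indicator (1 : V → ZMod 2) a + C.indicator (1 : V → ZMod 2) b +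
      (C.indicator (1 : V → ZMod 2) c + C.indicator (1 : V → ZMod 2) d) = 0 := by
  classical
  have h1 := bd_cut Γ C η (fun e he => hC e (hs e he))
  rw [hη] at h1
  set W : Finset V := (univ.image Γ.s ∪ univ.image Γ.r) ∪ {a, b, c, d} with hW
  have h2 := BD_par Γ ((Γ.tch C).indicator η) W (fun e => by simp [hW]) (fun e => by simp [hW])
  rw [h1] at h2
  have h3 : ∀ x, C.indicator (src a b + src c d) x =
      (if x = a then C.indicator (1 : V → ZMod 2) a else 0) +
      (if x = b then C.indicator (1 : V → ZMod 2) b else 0) +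
      ((if x = c then C.indicator (1 : V → ZMod 2) c else 0) +
      (if x = d then C.indicator (1 : V → ZMod 2) d else 0)) := by
    intro x
    have h4 : ∀ u : V, (if x = u then C.indicator (1 : V → ZMod 2) u else 0) =
        if x = u then C.indicator (1 : V → ZMod 2) x else 0 := by
      intro u
      by_cases h : x = u
      · rw [if_pos h, if_pos h, h]
      · rw [if_neg h, if_neg h]
    rw [h4, h4, h4, h4]
    by_cases hx : x ∈ C
    · rw [Set.indicator_of_mem hx, Set.indicator_of_mem hx]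
      simp only [src, Pi.add_apply, Pi.one_apply]
    · rw [Set.indicator_of_notMem hx, Set.indicator_of_notMem hx]
      simp
  simp only [h3] at h2
  rw [sum_add_distrib, sum_add_distrib, sum_add_distrib, Finset.sum_ite_eq', Finset.sum_ite_eq',
    Finset.sum_ite_eq', Finset.sum_ite_eq', if_pos (by simp [hW]), if_pos (by simp [hW]),
    if_pos (by simp [hW]), if_pos (by simp [hW])] at h2
  exact h2

theorem conn_of_flow (Γ : Gr V E) {ω : Set E} {u v : V} {η : E → ZMod 2}
    (hη : Γ.bd η = src u v) (hs : ∀ e, η e ≠ 0 → e ∈ ω) : Γ.Conn ω u v := by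
  classical
  by_contra hv
  have h1 := bd_cut Γ (Γ.cl ω u) η (fun e he => cl_end Γ (hs e he) u)
  rw [hη] at h1
  refine bd_ne_single Γ _ u (h1.trans ?_)
  have hu : u ∈ Γ.cl ω u := mem_cl_self Γ ω u
  have hv' : v ∉ Γ.cl ω u := hv
  funext x
  by_cases hx : x ∈ Γ.cl ω u
  · rw [Set.indicator_of_mem hx]
    have hxv : x ≠ v := fun h => hv' (h ▸ hx)
    simp only [src]
    rw [if_neg hxv, add_zero]
    by_cases hxu : x = u
    · rw [if_pos hxu, Set.indicator_of_mem (show x ∈ ({u} : Set V) from hxu), Pi.one_apply]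
    · rw [if_neg hxu, Set.indicator_of_notMem (show x ∉ ({u} : Set V) from hxu)]
  · rw [Set.indicator_of_notMem hx]
    have hxu : x ∉ ({u} : Set V) := fun h => hx (by rw [Set.mem_singleton_iff] at h; rwa [h])
    rw [Set.indicator_of_notMem hxu]

theorem conn4_of_flow (Γ : Gr V E) {ω : Set E} {a b c d : V} {η : E → ZMod 2}
    (hη : Γ.bd η = src a b + src c d) (hs : ∀ e, η e ≠ 0 → e ∈ ω) :
    (Γ.Conn ω a b ∧ Γ.Conn ω c d) ∨ (Γ.Conn ω a c ∧ Γ.Conn ω b d) ∨
      (Γ.Conn ω a d ∧ Γ.Conn ω b c) := by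
  have key : ∀ o : V, (Γ.cl ω o).indicator (1 : V → ZMod 2) a +
      (Γ.cl ω o).indicator (1 : V → ZMod 2) b +
      ((Γ.cl ω o).indicator (1 : V → ZMod 2) c + (Γ.cl ω o).indicator (1 : V → ZMod 2) d) = 0 :=
    fun o => BD_par4 Γ (fun e he => cl_end Γ he o) hη hs
  have i1 : ∀ {o x : V}, Γ.Conn ω o x → (Γ.cl ω o).indicator (1 : V → ZMod 2) x = 1 :=
    fun {o x} h => Set.indicator_of_mem (show x ∈ Γ.cl ω o from h) _
  have i0 : ∀ {o x : V}, ¬ Γ.Conn ω o x → (Γ.cl ω o).indicator (1 : V → ZMod 2) x = 0 :=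
    fun {o x} h => Set.indicator_of_notMem (show x ∉ Γ.cl ω o from h) _
  have hr : ∀ x, Γ.Conn ω x x := fun x => conn_refl Γ ω x
  have hs' : ∀ {x y}, Γ.Conn ω x y → Γ.Conn ω y x := fun h => conn_symm Γ h
  have ht : ∀ {x y z}, Γ.Conn ω x y → Γ.Conn ω y z → Γ.Conn ω x z := fun h h' => conn_trans Γ h h'
  have ka := key a
  rw [i1 (hr a)] at ka
  by_cases hab : Γ.Conn ω a b
  · left
    refine ⟨hab, ?_⟩
    rw [i1 hab] at ka
    by_cases hac : Γ.Conn ω a c
    · by_cases had : Γ.Conn ω a d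
      · exact ht (hs' hac) had
      · rw [i1 hac, i0 had] at ka
        exact absurd ka (by decide)
    · by_contra hcd
      have kc := key c
      rw [i1 (hr c), i0 hcd, i0 (fun h => hac (hs' h)),
        i0 (fun h => hac (ht hab (hs' h)))] at kc
      exact absurd kc (by decide)
  · rw [i0 hab] at ka
    right
    by_cases hac : Γ.Conn ω a c
    · left
      refine ⟨hac, ?_⟩
      by_contra hbd
      have kb := key b
      rw [i1 (hr b), i0 hbd, i0 (fun h => hab (hs' h)),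
        i0 (fun h => hab (ht hac (hs' h)))] at kb
      exact absurd kb (by decide)
    · rw [i0 hac] at ka
      by_cases had : Γ.Conn ω a d
      · right
        refine ⟨had, ?_⟩
        by_contra hbc
        have kb := key b
        rw [i1 (hr b), i0 hbc, i0 (fun h => hab (hs' h)),
          i0 (fun h => hab (ht had (hs' h)))] at kb
        exact absurd kb (by decide)
      · rw [i0 had] at ka
        exact absurd ka (by decide)

end H82.IC

end S_H82_IC_BD

section S_H82_IC_KA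

/-!
# KA: the number of even subgraphs

`kapS S ω` = number of flows `η : E → ZMod 2` with `bd η = S` and support in `ω`, `kap ω = kapS 0 ω`.

* `kapS_of_flow`: if `c` is one such flow, `η ↦ η + c` is a bijection from the flows with boundary `S` onto those with boundary `0`.
* `kapS_src`: by `exists_flow` and `conn_of_flow`.
* `kap_insert`: flows supported in `insert e ω` with boundary `0` split according to the value at `e`: value `0`: flows supported in `ω`;
  value `1`: subtract `1_e`: flows supported in `ω` with boundary `src (s e) (r e)`, whose number is `kap ω * ind (Conn ω (s e) (r e))`.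
* `kap_mul_le` (log-supermodular): induction on the finset `ω \ ω'`: write `ω = insert e ω₀`, `e ∉ ω₀`, `e ∉ ω'`:
  `kap ω = kap ω₀ (1 + ind(Conn ω₀ s r))`, `kap (ω ∪ ω') = kap (ω₀ ∪ ω') (1 + ind (Conn (ω₀ ∪ ω') s r))`, `ω ∩ ω' = ω₀ ∩ ω'`.
* `kap_mono`: `kap` is monotone (more flows); `kap_le`: `kap (ω ∪ F) ≤ 2^|F| kap ω` by `kap_insert`.
-/

set_option autoImplicit false

open Finset

namespace H82.IC

variable {V E : Type*} [Fintype E] [DecidableEq E]

theorem ind_true {p : Prop} (h : p) : ind p = 1 := by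
  unfold ind
  rw [if_pos h]

theorem ind_false {p : Prop} (h : ¬ p) : ind p = 0 := by
  unfold ind
  rw [if_neg h]

theorem ind_nonneg (p : Prop) : 0 ≤ ind p := by
  by_cases h : p
  · rw [ind_true h]; norm_num
  · rw [ind_false h]

theorem ind_le_one (p : Prop) : ind p ≤ 1 := by
  by_cases h : p
  · rw [ind_true h]
  · rw [ind_false h]; norm_num

theorem ind_and (p q : Prop) : ind (p ∧ q) = ind p * ind q := by
  by_cases h : p
  · by_cases h' : q
    · rw [ind_true h, ind_true h', ind_true ⟨h, h'⟩, one_mul]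
    · rw [ind_false h', ind_false fun g => h' g.2, mul_zero]
  · rw [ind_false h, ind_false fun g => h g.1, zero_mul]

theorem ind_not (p : Prop) : ind (¬ p) = 1 - ind p := by
  by_cases h : p
  · rw [ind_true h, ind_false (not_not.mpr h), sub_self]
  · rw [ind_false h, ind_true h, sub_zero]

theorem ind_mono {p q : Prop} (h : p → q) : ind p ≤ ind q := by
  by_cases hp : p
  · rw [ind_true hp, ind_true (h hp)]
  · rw [ind_false hp]
    exact ind_nonneg q

theorem ind_mul_self (p : Prop) : ind p * ind p = ind p := by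
  by_cases h : p
  · rw [ind_true h, one_mul]
  · rw [ind_false h, zero_mul]

theorem KA_congr {p q : Prop} (h : p ↔ q) : ind p = ind q := congrArg ind (propext h)

theorem KA_two (S : V → ZMod 2) : S + S = 0 := funext fun _ => CharTwo.add_self_eq_zero _

theorem kapS_of_flow (Γ : Gr V E) (S : V → ZMod 2) (ω : Finset E) (c : E → ZMod 2)
    (hc : Γ.bd c = S) (hs : ∀ e, c e ≠ 0 → e ∈ ω) : Γ.kapS S ω = Γ.kap ω := by
  unfold Gr.kap Gr.kapS
  refine Fintype.sum_equiv (Equiv.addRight c) _ _ fun η => KA_congr ?_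
  rw [Equiv.coe_addRight]
  beta_reduce
  rw [bd_add, hc]
  refine and_congr ?_ ?_
  · constructor
    · rintro rfl
      exact KA_two _
    · intro h
      have h2 : Γ.bd η + S + S = S := by rw [h, zero_add]
      rwa [add_assoc, KA_two, add_zero] at h2
  · have hz : ∀ e, e ∉ ω → c e = 0 := fun e he => by
      by_contra hne
      exact he (hs e hne)
    constructor
    · intro h e he
      by_contra hne
      have h1 : η e = 0 := by
        by_contra h2
        exact hne (h e h2)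
      exact he (by rw [Pi.add_apply, h1, hz e hne, add_zero])
    · intro h e he
      by_contra hne
      exact hne (h e (by rw [Pi.add_apply, hz e hne, add_zero]; exact he))

theorem kapS_src (Γ : Gr V E) (ω : Finset E) (u v : V) :
    Γ.kapS (src u v) ω = Γ.kap ω * ind (Γ.Conn (ω : Set E) u v) := by
  by_cases h : Γ.Conn (ω : Set E) u v
  · obtain ⟨c, hc, hs⟩ := exists_flow Γ h
    rw [ind_true h, mul_one]
    exact kapS_of_flow Γ _ ω c hc fun e he => Finset.mem_coe.mp (hs e he)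
  · rw [ind_false h, mul_zero]
    unfold Gr.kapS
    refine Finset.sum_eq_zero fun η _ => ind_false ?_
    rintro ⟨h1, h2⟩
    exact h (conn_of_flow Γ h1 fun e he => Finset.mem_coe.mpr (h2 e he))

theorem kap_empty (Γ : Gr V E) : Γ.kap ∅ = 1 := by
  unfold Gr.kap Gr.kapS
  rw [Finset.sum_eq_single 0]
  · exact ind_true ⟨bd_zero Γ, fun e he => absurd rfl he⟩
  · intro η _ hη
    refine ind_false ?_
    rintro ⟨_, h2⟩
    refine hη (funext fun e => ?_)
    by_contra h3
    exact absurd (h2 e h3) (Finset.notMem_empty e)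
  · intro h
    exact absurd (Finset.mem_univ _) h

theorem one_le_kap (Γ : Gr V E) (ω : Finset E) : 1 ≤ Γ.kap ω := by
  unfold Gr.kap Gr.kapS
  have h := Finset.single_le_sum (s := Finset.univ)
    (f := fun η : E → ZMod 2 => ind (Γ.bd η = 0 ∧ ∀ e, η e ≠ 0 → e ∈ ω))
    (fun η _ => ind_nonneg _) (Finset.mem_univ 0)
  have h0 : ind (Γ.bd (0 : E → ZMod 2) = 0 ∧ ∀ e, (0 : E → ZMod 2) e ≠ 0 → e ∈ ω) = 1 :=
    ind_true ⟨bd_zero Γ, fun e he => absurd rfl he⟩
  rw [h0] at h
  exact h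

theorem KA_bd_single (Γ : Gr V E) (e : E) :
    Γ.bd (Pi.single e (1 : ZMod 2)) = src (Γ.s e) (Γ.r e) := by
  classical
  funext x
  unfold Gr.bd src
  rw [Finset.sum_eq_single e]
  · rw [Pi.single_eq_same]
    simp only [eq_comm (a := x)]
  · intro e' _ he'
    rw [Pi.single_eq_of_ne he']
    simp
  · intro h
    exact absurd (Finset.mem_univ _) h

theorem KA_zmod (a : ZMod 2) : a = 0 ∨ a = 1 := by
  revert a
  decide

theorem kap_insert (Γ : Gr V E) {ω : Finset E} {e : E} (he : e ∉ ω) :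
    Γ.kap (insert e ω) = Γ.kap ω * (1 + ind (Γ.Conn (ω : Set E) (Γ.s e) (Γ.r e))) := by
  rw [mul_add, mul_one, ← kapS_src]
  have h1 : Γ.kap (insert e ω) = ∑ η : E → ZMod 2,
      (ind (Γ.bd η = 0 ∧ ∀ e', η e' ≠ 0 → e' ∈ ω) +
        ind (Γ.bd η = 0 ∧ η e = 1 ∧ ∀ e', η e' ≠ 0 → e' ∈ insert e ω)) := by
    unfold Gr.kap Gr.kapS
    refine Finset.sum_congr rfl fun η _ => ?_
    rcases KA_zmod (η e) with h0 | h0
    · have e1 : ind (Γ.bd η = 0 ∧ η e = 1 ∧ ∀ e', η e' ≠ 0 → e' ∈ insert e ω) = 0 := by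
        refine ind_false ?_
        rintro ⟨_, h2, _⟩
        rw [h0] at h2
        exact absurd h2 (by decide)
      rw [e1, add_zero]
      refine KA_congr (and_congr_right fun _ => ?_)
      constructor
      · intro h e' he'
        rcases Finset.mem_insert.mp (h e' he') with h2 | h2
        · rw [h2] at he'
          exact absurd h0 he'
        · exact h2
      · intro h e' he'
        exact Finset.mem_insert_of_mem (h e' he')
    · have e1 : ind (Γ.bd η = 0 ∧ ∀ e', η e' ≠ 0 → e' ∈ ω) = 0 := by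
        refine ind_false ?_
        rintro ⟨_, h2⟩
        refine he (h2 e ?_)
        rw [h0]
        decide
      rw [e1, zero_add]
      refine KA_congr (and_congr_right fun _ => ?_)
      constructor
      · intro h
        exact ⟨h0, h⟩
      · intro h
        exact h.2
  rw [h1, Finset.sum_add_distrib]
  unfold Gr.kap
  congr 1
  unfold Gr.kapS
  refine Fintype.sum_equiv (Equiv.addRight (Pi.single e (1 : ZMod 2))) _ _ fun η => KA_congr ?_
  rw [Equiv.coe_addRight]
  beta_reduce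
  rw [bd_add, KA_bd_single]
  have hz : ∀ e', e' ≠ e → (η + (Pi.single e (1 : ZMod 2) : E → ZMod 2)) e' = η e' :=
    fun e' h => by rw [Pi.add_apply, Pi.single_eq_of_ne h, add_zero]
  have hz0 : (η + (Pi.single e (1 : ZMod 2) : E → ZMod 2)) e = η e + 1 := by
    rw [Pi.add_apply, Pi.single_eq_same]
  refine and_congr ?_ ?_
  · constructor
    · intro h
      rw [h, zero_add]
    · intro h
      exact add_eq_right.mp h
  · constructor
    · rintro ⟨h2, h3⟩ e' he'
      by_cases hee : e' = e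
      · rw [hee, hz0, h2] at he'
        exact absurd (by decide) he'
      · rw [hz e' hee] at he'
        rcases Finset.mem_insert.mp (h3 e' he') with h4 | h4
        · exact absurd h4 hee
        · exact h4
    · intro h
      constructor
      · rcases KA_zmod (η e) with h0 | h0
        · refine absurd (h e ?_) he
          rw [hz0, h0]
          decide
        · exact h0
      · intro e' he'
        by_cases hee : e' = e
        · rw [hee]
          exact Finset.mem_insert_self _ _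
        · refine Finset.mem_insert_of_mem (h e' ?_)
          rw [hz e' hee]
          exact he'

theorem kap_mono (Γ : Gr V E) {ω ω' : Finset E} (h : ω ⊆ ω') : Γ.kap ω ≤ Γ.kap ω' := by
  unfold Gr.kap Gr.kapS
  exact Finset.sum_le_sum fun η _ => ind_mono fun hp => ⟨hp.1, fun e he => h (hp.2 e he)⟩

theorem kap_le (Γ : Gr V E) (ω F : Finset E) : Γ.kap (ω ∪ F) ≤ 2 ^ F.card * Γ.kap ω := by
  induction F using Finset.induction_on with
  | empty => simp
  | insert e F he ih =>
    rw [Finset.card_insert_of_notMem he, Finset.union_insert, pow_succ]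
    have h0 : 0 ≤ Γ.kap ω := zero_le_one.trans (one_le_kap Γ ω)
    have hp : (0 : ℝ) ≤ 2 ^ F.card * Γ.kap ω := by positivity
    by_cases hm : e ∈ ω ∪ F
    · rw [Finset.insert_eq_self.mpr hm]
      linarith
    · rw [kap_insert Γ hm]
      have h1 := ind_le_one (Γ.Conn ((ω ∪ F : Finset E) : Set E) (Γ.s e) (Γ.r e))
      have h2 := ind_nonneg (Γ.Conn ((ω ∪ F : Finset E) : Set E) (Γ.s e) (Γ.r e))
      have h3 : 0 ≤ Γ.kap (ω ∪ F) := zero_le_one.trans (one_le_kap Γ _)
      have h4 : Γ.kap (ω ∪ F) * (1 + ind (Γ.Conn ((ω ∪ F : Finset E) : Set E) (Γ.s e) (Γ.r e))) ≤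
          Γ.kap (ω ∪ F) * 2 := mul_le_mul_of_nonneg_left (by linarith) h3
      linarith

theorem KA_ind_step (Γ : Gr V E) (I ω' : Finset E) (hI : I ⊆ ω') (D : Finset E)
    (hD : Disjoint D ω') : Γ.kap (I ∪ D) * Γ.kap ω' ≤ Γ.kap I * Γ.kap (ω' ∪ D) := by
  induction D using Finset.induction_on with
  | empty => simp
  | insert e D he ih =>
    have hd : e ∉ ω' ∧ Disjoint D ω' := by
      rw [Finset.disjoint_insert_left] at hD
      exact hD
    have ih' := ih hd.2
    have h1 : e ∉ I ∪ D := by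
      rw [Finset.mem_union, not_or]
      exact ⟨fun h => hd.1 (hI h), he⟩
    have h2 : e ∉ ω' ∪ D := by
      rw [Finset.mem_union, not_or]
      exact ⟨hd.1, he⟩
    rw [Finset.union_insert, Finset.union_insert, kap_insert Γ h1, kap_insert Γ h2]
    have hsub : ((I ∪ D : Finset E) : Set E) ⊆ ((ω' ∪ D : Finset E) : Set E) := by
      exact_mod_cast Finset.union_subset_union_left hI
    have h3 : ind (Γ.Conn ((I ∪ D : Finset E) : Set E) (Γ.s e) (Γ.r e)) ≤
        ind (Γ.Conn ((ω' ∪ D : Finset E) : Set E) (Γ.s e) (Γ.r e)) :=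
      ind_mono fun h => conn_mono Γ hsub h
    have h4 := ind_nonneg (Γ.Conn ((I ∪ D : Finset E) : Set E) (Γ.s e) (Γ.r e))
    have k1 : 0 ≤ Γ.kap I * Γ.kap (ω' ∪ D) := by
      have a1 := one_le_kap Γ I
      have a2 := one_le_kap Γ (ω' ∪ D)
      have : (0 : ℝ) ≤ Γ.kap I := by linarith
      have : (0 : ℝ) ≤ Γ.kap (ω' ∪ D) := by linarith
      positivity
    calc Γ.kap (I ∪ D) * (1 + ind (Γ.Conn ((I ∪ D : Finset E) : Set E) (Γ.s e) (Γ.r e))) * Γ.kap ω'
        = (Γ.kap (I ∪ D) * Γ.kap ω') *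
          (1 + ind (Γ.Conn ((I ∪ D : Finset E) : Set E) (Γ.s e) (Γ.r e))) := by ring
      _ ≤ (Γ.kap I * Γ.kap (ω' ∪ D)) *
          (1 + ind (Γ.Conn ((ω' ∪ D : Finset E) : Set E) (Γ.s e) (Γ.r e))) := by
          refine mul_le_mul ih' (by linarith) (by linarith) k1
      _ = _ := by ring

theorem kap_mul_le (Γ : Gr V E) (ω ω' : Finset E) :
    Γ.kap ω * Γ.kap ω' ≤ Γ.kap (ω ∩ ω') * Γ.kap (ω ∪ ω') := by
  have h := KA_ind_step Γ (ω ∩ ω') ω' Finset.inter_subset_right (ω \ ω') Finset.sdiff_disjoint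
  have h1 : ω ∩ ω' ∪ ω \ ω' = ω := by
    rw [Finset.union_comm]
    exact Finset.sdiff_union_inter ω ω'
  have h2 : ω' ∪ ω \ ω' = ω ∪ ω' := by
    rw [Finset.union_sdiff_self_eq_union, Finset.union_comm]
  rw [h1, h2] at h
  exact h

end H82.IC

end S_H82_IC_KA

section S_H82_IC_KC

/-!
# KC: counting clusters

`kG Γ W ω` = number of distinct clusters of `ω` (any set of edges of any graph) meeting the finite set `W`.
* `kG_insert`: for an edge `e` with both ends in `W`: if `s e ↔ r e` in `ω`, the connectivity relations of `insert e ω` and `ω` agree (`conn_insert`), so nothing changes and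
  `2 - ind = 1`.  Otherwise the clusters `C_s ≠ C_r` of the two ends (both meet `W`) are merged (`conn_insert`: the cluster of `x` in `insert e ω` is the cluster of `x` in `ω` if it contains
  neither end, and `C_s ∪ C_r` otherwise) so the number drops by one, and `2 - ind = 2`:
  the set of clusters for `insert e ω` is `(clusters of ω minus {C_s, C_r}) ∪ {C_s ∪ C_r}`, all these sets are finite (images of `W`).
* `kG_bridge`: `Λ ⊆ Λ'` finite, `η ⊆ Λ' \ Λ`, `ξ` any set of edges such that for all `ω ⊆ Λ`, `e ∈ Λ`: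
  `s e ↔ r e` in `ω ∪ ξ` iff in `ω ∪ η`.  Then `2^{kG W (ω ∪ ξ)} 2^{|ω|} / kap (ω ∪ η)` does not depend on `ω ⊆ Λ`: induction on `ω` (insert `e ∉ ω`): by `kG_insert` the numerator is
  multiplied by `2 / (2 - ind)`, which is `1 + ind` for `ind ∈ {0,1}`, as the denominator by `kap_insert` (in the graph `Γ.rs Λ'` whose connectivity is that of `Γ`, `conn_rs`); if `e ∈ ξ`
  is excluded as `ξ` is disjoint from `Λ`.  `c` = the value at `ω = ∅`.
* `conn_rs`: connectivity in `Γ.rs Λ'` of a configuration `ω'` is connectivity in `Γ` of `vl ω'` (induction on the paths).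
-/

set_option autoImplicit false

open Finset

namespace H82.IC

variable {V E : Type*}

noncomputable def kG (Γ : Gr V E) (W : Finset V) (ω : Set E) : ℕ :=
  Set.ncard {C : Set V | ∃ v ∈ W, C = Γ.cl ω v}

theorem KC_cl_eq (Γ : Gr V E) (ω : Set E) {x y : V} (h : Γ.Conn ω x y) :
    Γ.cl ω x = Γ.cl ω y := by
  ext z
  exact ⟨fun hz => conn_trans Γ (conn_symm Γ h) hz, fun hz => conn_trans Γ h hz⟩

theorem KC_of_cl (Γ : Gr V E) (ω : Set E) {x y : V} (h : Γ.cl ω x = Γ.cl ω y) :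
    Γ.Conn ω x y := by
  have h1 : y ∈ Γ.cl ω x := by
    rw [h]
    exact mem_cl_self Γ ω y
  exact h1

theorem KC_fin (Γ : Gr V E) (W : Finset V) (ω : Set E) :
    {C : Set V | ∃ v ∈ W, C = Γ.cl ω v}.Finite := by
  refine (W.finite_toSet.image (fun v => Γ.cl ω v)).subset ?_
  rintro C ⟨v, hv, rfl⟩
  exact ⟨v, hv, rfl⟩

theorem kG_insert (Γ : Gr V E) (W : Finset V) (ω : Set E) (e : E) (hs : Γ.s e ∈ W)
    (hr : Γ.r e ∈ W) :
    (2 : ℝ) ^ kG Γ W ω = 2 ^ kG Γ W (insert e ω) * (2 - ind (Γ.Conn ω (Γ.s e) (Γ.r e))) := by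
  by_cases hc : Γ.Conn ω (Γ.s e) (Γ.r e)
  · have h1 : ∀ x, Γ.cl (insert e ω) x = Γ.cl ω x := by
      intro x
      ext y
      show Γ.Conn (insert e ω) x y ↔ Γ.Conn ω x y
      rw [conn_insert]
      constructor
      · rintro (h | ⟨h1, h2⟩ | ⟨h1, h2⟩)
        · exact h
        · exact conn_trans Γ h1 (conn_trans Γ hc h2)
        · exact conn_trans Γ h1 (conn_trans Γ (conn_symm Γ hc) h2)
      · exact Or.inl
    have h2 : kG Γ W (insert e ω) = kG Γ W ω := by
      unfold kG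
      simp only [h1]
    rw [h2, ind_true hc]
    ring
  · have hcl : ∀ x, (Γ.Conn ω x (Γ.s e) ∨ Γ.Conn ω x (Γ.r e) →
        Γ.cl (insert e ω) x = Γ.cl ω (Γ.s e) ∪ Γ.cl ω (Γ.r e)) ∧
        (¬ (Γ.Conn ω x (Γ.s e) ∨ Γ.Conn ω x (Γ.r e)) → Γ.cl (insert e ω) x = Γ.cl ω x) := by
      intro x
      constructor
      · intro hx
        ext y
        show Γ.Conn (insert e ω) x y ↔ Γ.Conn ω (Γ.s e) y ∨ Γ.Conn ω (Γ.r e) y
        rw [conn_insert]
        rcases hx with hx | hx
        · constructor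
          · rintro (h | ⟨h1, h2⟩ | ⟨h1, h2⟩)
            · exact Or.inl (conn_trans Γ (conn_symm Γ hx) h)
            · exact Or.inr h2
            · exact Or.inl h2
          · rintro (h | h)
            · exact Or.inl (conn_trans Γ hx h)
            · exact Or.inr (Or.inl ⟨hx, h⟩)
        · constructor
          · rintro (h | ⟨h1, h2⟩ | ⟨h1, h2⟩)
            · exact Or.inr (conn_trans Γ (conn_symm Γ hx) h)
            · exact Or.inr h2
            · exact Or.inl h2
          · rintro (h | h)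
            · exact Or.inr (Or.inr ⟨hx, h⟩)
            · exact Or.inl (conn_trans Γ hx h)
      · intro hx
        ext y
        show Γ.Conn (insert e ω) x y ↔ Γ.Conn ω x y
        rw [conn_insert]
        constructor
        · rintro (h | ⟨h1, h2⟩ | ⟨h1, h2⟩)
          · exact h
          · exact absurd (Or.inl h1) hx
          · exact absurd (Or.inr h1) hx
        · exact Or.inl
    obtain ⟨S0, hS0⟩ : ∃ S0 : Set (Set V), S0 = {C : Set V | ∃ v ∈ W, C = Γ.cl ω v} := ⟨_, rfl⟩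
    have hS0f : S0.Finite := by
      rw [hS0]
      exact KC_fin Γ W ω
    have ha0 : Γ.cl ω (Γ.s e) ∈ S0 := by
      rw [hS0]
      exact ⟨_, hs, rfl⟩
    have hb0 : Γ.cl ω (Γ.r e) ∈ S0 := by
      rw [hS0]
      exact ⟨_, hr, rfl⟩
    have hab : Γ.cl ω (Γ.r e) ≠ Γ.cl ω (Γ.s e) := fun h => hc (conn_symm Γ (KC_of_cl Γ ω h))
    have hS1 : {C : Set V | ∃ v ∈ W, C = Γ.cl (insert e ω) v} =
        insert (Γ.cl ω (Γ.s e) ∪ Γ.cl ω (Γ.r e))
          ((S0 \ {Γ.cl ω (Γ.s e)}) \ {Γ.cl ω (Γ.r e)}) := by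
      ext C
      constructor
      · rintro ⟨x, hx, rfl⟩
        by_cases h : Γ.Conn ω x (Γ.s e) ∨ Γ.Conn ω x (Γ.r e)
        · rw [(hcl x).1 h]
          exact Set.mem_insert _ _
        · rw [(hcl x).2 h]
          refine Set.mem_insert_of_mem _ ⟨⟨?_, ?_⟩, ?_⟩
          · rw [hS0]
            exact ⟨x, hx, rfl⟩
          · intro h1
            exact h (Or.inl (KC_of_cl Γ ω h1))
          · intro h1
            exact h (Or.inr (KC_of_cl Γ ω h1))
      · intro h
        rcases Set.mem_insert_iff.1 h with h | ⟨⟨h1, h2⟩, h3⟩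
        · exact ⟨Γ.s e, hs, by rw [h, (hcl _).1 (Or.inl (conn_refl Γ ω _))]⟩
        · rw [hS0] at h1
          obtain ⟨x, hx, rfl⟩ := h1
          refine ⟨x, hx, ?_⟩
          rw [(hcl x).2]
          rintro (h4 | h4)
          · exact h2 (KC_cl_eq Γ ω h4)
          · exact h3 (KC_cl_eq Γ ω h4)
    have hnot : Γ.cl ω (Γ.s e) ∪ Γ.cl ω (Γ.r e) ∉
        (S0 \ {Γ.cl ω (Γ.s e)}) \ {Γ.cl ω (Γ.r e)} := by
      rintro ⟨⟨h1, _⟩, _⟩
      rw [hS0] at h1
      obtain ⟨x, _, hx⟩ := h1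
      have h2 : Γ.s e ∈ Γ.cl ω x := by
        rw [← hx]
        exact Or.inl (mem_cl_self Γ ω _)
      have h3 : Γ.r e ∈ Γ.cl ω x := by
        rw [← hx]
        exact Or.inr (mem_cl_self Γ ω _)
      exact hc (conn_trans Γ (conn_symm Γ h2) h3)
    have hk : kG Γ W ω = kG Γ W (insert e ω) + 1 := by
      unfold kG
      rw [hS1, ← hS0, Set.ncard_insert_of_notMem hnot ((hS0f.sdiff).sdiff),
        Set.ncard_sdiff_singleton_add_one (show Γ.cl ω (Γ.r e) ∈ S0 \ {Γ.cl ω (Γ.s e)} from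
          ⟨hb0, hab⟩) (hS0f.sdiff),
        Set.ncard_sdiff_singleton_add_one ha0 hS0f]
    rw [hk, ind_false hc, pow_succ]
    ring

theorem conn_rs (Γ : Gr V E) (Λ' : Finset E) (ω : Finset ↥Λ') (x y : V) :
    (Γ.rs Λ').Conn (ω : Set ↥Λ') x y ↔ Γ.Conn (vl ω : Set E) x y := by
  have h1 : (Γ.rs Λ').Adj (ω : Set ↥Λ') = Γ.Adj (vl ω : Set E) := by
    funext a b
    apply propext
    constructor
    · rintro ⟨e, he, h⟩
      refine ⟨e.1, ?_, h⟩
      rw [Finset.mem_coe, vl, Finset.mem_map]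
      exact ⟨e, he, rfl⟩
    · rintro ⟨e, he, h⟩
      rw [Finset.mem_coe, vl, Finset.mem_map] at he
      obtain ⟨e', he', rfl⟩ := he
      exact ⟨e', he', h⟩
  unfold Gr.Conn
  rw [h1]

/-- a finite set of edges as a set of edges of the restricted graph. -/
noncomputable def sb {E : Type*} (Λ' F : Finset E) : Finset ↥Λ' :=
  open Classical in univ.filter (fun e => e.1 ∈ F)

theorem KC_mem_sb {E : Type*} (Λ' F : Finset E) (e : ↥Λ') : e ∈ sb Λ' F ↔ e.1 ∈ F := by
  classical
  unfold sb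
  rw [Finset.mem_filter]
  exact ⟨fun h => h.2, fun h => ⟨Finset.mem_univ _, h⟩⟩

theorem vl_sb [DecidableEq E] (Λ' F : Finset E) : vl (sb Λ' F) = F ∩ Λ' := by
  ext e
  rw [vl, Finset.mem_map, Finset.mem_inter]
  constructor
  · rintro ⟨e', he', rfl⟩
    exact ⟨(KC_mem_sb Λ' F e').1 he', e'.2⟩
  · rintro ⟨h1, h2⟩
    exact ⟨⟨e, h2⟩, (KC_mem_sb Λ' F ⟨e, h2⟩).2 h1, rfl⟩

theorem kG_bridge [DecidableEq E] (Γ : Gr V E) (Λ Λ' : Finset E) (hΛ : Λ ⊆ Λ') (W : Finset V)
    (hW : ∀ e ∈ Λ, Γ.s e ∈ W ∧ Γ.r e ∈ W) (ξ : Set E) (hξ : ∀ e ∈ ξ, e ∉ Λ) (η : Finset E)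
    (hη : η ⊆ Λ' \ Λ)
    (hc : ∀ ω : Finset E, ω ⊆ Λ → ∀ e ∈ Λ,
      (Γ.Conn ((ω : Set E) ∪ ξ) (Γ.s e) (Γ.r e) ↔ Γ.Conn ((ω : Set E) ∪ η) (Γ.s e) (Γ.r e))) :
    ∃ c : ℝ, 0 < c ∧ ∀ ω : Finset E, ω ⊆ Λ →
      (2 : ℝ) ^ kG Γ W ((ω : Set E) ∪ ξ) * 2 ^ ω.card = c * (Γ.rs Λ').kap (sb Λ' (ω ∪ η)) := by
  have hkpos : ∀ F : Finset ↥Λ', 0 < (Γ.rs Λ').kap F := fun F =>
    lt_of_lt_of_le one_pos (one_le_kap (Γ.rs Λ') F)
  refine ⟨2 ^ kG Γ W (((∅ : Finset E) : Set E) ∪ ξ) / (Γ.rs Λ').kap (sb Λ' (∅ ∪ η)),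
    div_pos (by positivity) (hkpos _), fun ω => ?_⟩
  obtain ⟨c, hcdef⟩ : ∃ c : ℝ, c = 2 ^ kG Γ W (((∅ : Finset E) : Set E) ∪ ξ) /
    (Γ.rs Λ').kap (sb Λ' (∅ ∪ η)) := ⟨_, rfl⟩
  rw [← hcdef]
  induction ω using Finset.induction_on with
  | empty =>
    intro _
    rw [hcdef, Finset.card_empty, pow_zero, mul_one, div_mul_cancel₀ _ (hkpos _).ne']
  | insert e ω he ih =>
    intro hsub
    have heΛ : e ∈ Λ := hsub (Finset.mem_insert_self _ _)
    have hωΛ : ω ⊆ Λ := fun x hx => hsub (Finset.mem_insert_of_mem hx)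
    have ih' := ih hωΛ
    have e1 : (((insert e ω : Finset E) : Set E) ∪ ξ) = insert e ((ω : Set E) ∪ ξ) := by
      rw [Finset.coe_insert, Set.insert_union]
    have hk := kG_insert Γ W ((ω : Set E) ∪ ξ) e (hW e heΛ).1 (hW e heΛ).2
    have e2 : sb Λ' (insert e ω ∪ η) = insert (⟨e, hΛ heΛ⟩ : ↥Λ') (sb Λ' (ω ∪ η)) := by
      ext x
      rw [Finset.mem_insert, KC_mem_sb, KC_mem_sb, Finset.insert_union, Finset.mem_insert]
      constructor
      · rintro (h | h)
        · exact Or.inl (Subtype.ext h)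
        · exact Or.inr h
      · rintro (h | h)
        · exact Or.inl (congrArg Subtype.val h)
        · exact Or.inr h
    have hnot : (⟨e, hΛ heΛ⟩ : ↥Λ') ∉ sb Λ' (ω ∪ η) := by
      rw [KC_mem_sb]
      intro h
      rcases Finset.mem_union.1 h with h | h
      · exact he h
      · exact (Finset.mem_sdiff.1 (hη h)).2 heΛ
    have hkap := kap_insert (Γ.rs Λ') hnot
    have hsub' : ω ∪ η ⊆ Λ' := by
      intro x hx
      rcases Finset.mem_union.1 hx with h | h
      · exact hΛ (hωΛ h)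
      · exact (Finset.mem_sdiff.1 (hη h)).1
    have e3 : (Γ.rs Λ').Conn ((sb Λ' (ω ∪ η) : Finset ↥Λ') : Set ↥Λ')
        ((Γ.rs Λ').s ⟨e, hΛ heΛ⟩) ((Γ.rs Λ').r ⟨e, hΛ heΛ⟩) ↔
        Γ.Conn ((ω : Set E) ∪ ξ) (Γ.s e) (Γ.r e) := by
      rw [conn_rs, vl_sb, Finset.inter_eq_left.2 hsub', hc ω hωΛ e heΛ, Finset.coe_union]
      exact Iff.rfl
    have e4 := KA_congr e3
    rw [e4] at hkap
    rw [e1, e2, hkap, Finset.card_insert_of_notMem he, pow_succ]
    obtain ⟨i, hi⟩ : ∃ i : ℝ, i = ind (Γ.Conn ((ω : Set E) ∪ ξ) (Γ.s e) (Γ.r e)) := ⟨_, rfl⟩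
    have hii : i * i = i := by rw [hi]; exact ind_mul_self _
    rw [← hi] at hk ⊢
    have h2 : (2 - i) * (1 + i) = 2 := by
      have : (2 - i) * (1 + i) = 2 + i - i * i := by ring
      rw [this, hii]
      ring
    calc (2 : ℝ) ^ kG Γ W (insert e ((ω : Set E) ∪ ξ)) * (2 ^ ω.card * 2)
        = 2 ^ kG Γ W (insert e ((ω : Set E) ∪ ξ)) * 2 ^ ω.card * ((2 - i) * (1 + i)) := by
          rw [h2]
          ring
      _ = (2 ^ kG Γ W (insert e ((ω : Set E) ∪ ξ)) * (2 - i)) * 2 ^ ω.card * (1 + i) := by ring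
      _ = c * ((Γ.rs Λ').kap (sb Λ' (ω ∪ η)) * (1 + i)) := by
          rw [← hk, ih']
          ring

end H82.IC

end S_H82_IC_KC

section S_H82_BX_PG0

/-!
# PG0: measure theory on `E → α`, `E` countable, `α` finite

* `lc_meas`: a cylinder event is a finite union of sets `{ω | ω = ξ on F}`.
* `lc_approx`: cylinder events form an algebra generating the σ-algebra (`E` countable).  Approximation of measurable sets in measure
  by sets of a generating algebra (the class of approximable sets is a σ-algebra; or: outer regularity on the compact metrizable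
  space `E → α`, open sets are countable unions of cylinders).
* `insc_inse`: let `ν' = ν.map (opP e)` (`opP e` is measurable).  Apply `lc_approx` to the finite measure `ν + ν'` and the set `X`:
  `ν'(X) ≤ ν'(D) + δ ≤ C ν(D) + ε + δ ≤ C (ν(X) + δ) + ε + δ`, `δ → 0`.
* `tip_of_lc`: same with `ν' = ν.map (shP a)`: two probability measures that agree on cylinders are equal.
* `opF_bound`: induction on `F` (open the edges of `F` one after the other).
-/

set_option autoImplicit false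

open Finset MeasureTheory

namespace H82.BX

open H82.IC

section gen
variable {E α : Type} [Countable E] [Fintype α] [MeasurableSpace α] [MeasurableSingletonClass α]

omit [Countable E] in
theorem PG0_lc_iff (X : Set (E → α)) : Lc X ↔ X ∈ measurableCylinders (fun _ : E => α) := by
  constructor
  · rintro ⟨F, hF⟩
    rw [mem_measurableCylinders]
    refine ⟨F, {g | ∃ ω ∈ X, F.restrict ω = g}, Set.Finite.measurableSet (Set.toFinite _), ?_⟩
    ext ω
    rw [mem_cylinder]
    constructor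
    · intro h; exact ⟨ω, h, rfl⟩
    · rintro ⟨ω', h', he⟩
      refine (hF ω' ω ?_).1 h'
      intro e he'
      exact congrFun he ⟨e, he'⟩
  · intro h
    rw [mem_measurableCylinders] at h
    obtain ⟨F, S, hS, rfl⟩ := h
    refine ⟨F, ?_⟩
    intro ω ω' hw
    rw [mem_cylinder, mem_cylinder]
    have h1 : F.restrict ω = F.restrict ω' := by
      funext e; exact hw e.1 e.2
    rw [h1]

theorem lc_meas {X : Set (E → α)} (h : Lc X) : MeasurableSet X := by
  exact MeasurableSet.of_mem_measurableCylinders ((PG0_lc_iff X).1 h)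

theorem lc_compl {X : Set (E → α)} (h : Lc X) : Lc Xᶜ := by
  obtain ⟨F, hF⟩ := h
  exact ⟨F, fun ω ω' hw => not_congr (hF ω ω' hw)⟩

theorem lc_inter {X Y : Set (E → α)} (h : Lc X) (h' : Lc Y) : Lc (X ∩ Y) := by
  classical
  obtain ⟨F, hF⟩ := h
  obtain ⟨F', hF'⟩ := h'
  refine ⟨F ∪ F', fun ω ω' hw => ?_⟩
  exact and_congr (hF ω ω' (fun e he => hw e (Finset.mem_union_left _ he)))
    (hF' ω ω' (fun e he => hw e (Finset.mem_union_right _ he)))

theorem lc_union {X Y : Set (E → α)} (h : Lc X) (h' : Lc Y) : Lc (X ∪ Y) := by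
  classical
  obtain ⟨F, hF⟩ := h
  obtain ⟨F', hF'⟩ := h'
  refine ⟨F ∪ F', fun ω ω' hw => ?_⟩
  exact or_congr (hF ω ω' (fun e he => hw e (Finset.mem_union_left _ he)))
    (hF' ω ω' (fun e he => hw e (Finset.mem_union_right _ he)))

theorem lc_approx (ν : Measure (E → α)) [IsFiniteMeasure ν] (X : Set (E → α)) (hX : MeasurableSet X)
    (δ : ℝ) (hδ : 0 < δ) : ∃ D : Set (E → α), Lc D ∧ ν.real (symmDiff X D) ≤ δ := by
  have halg : IsSetAlgebra {X : Set (E → α) | Lc X} := by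
    refine ⟨⟨∅, fun ω ω' _ => Iff.rfl⟩, ?_, ?_⟩
    · intro s hs; exact lc_compl hs
    · intro s t hs ht; exact lc_union hs ht
  have hgen : (MeasurableSpace.pi : MeasurableSpace (E → α)) =
      MeasurableSpace.generateFrom {X : Set (E → α) | Lc X} := by
    have h1 : {X : Set (E → α) | Lc X} = measurableCylinders (fun _ : E => α) := by
      ext X; exact PG0_lc_iff X
    rw [h1]; exact generateFrom_measurableCylinders.symm
  have hd := Measure.MeasureDense.of_generateFrom_isSetAlgebra_finite (μ := ν) halg hgen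
  obtain ⟨D, hD, h⟩ := hd.approx X hX (measure_ne_top _ _) δ hδ
  refine ⟨D, hD, ?_⟩
  exact ENNReal.toReal_le_of_le_ofReal hδ.le h.le

omit [Countable E] [Fintype α] [MeasurableSingletonClass α] in
theorem PG0_tri (ν : Measure (E → α)) [IsFiniteMeasure ν] (X D : Set (E → α)) :
    ν.real X ≤ ν.real D + ν.real (symmDiff X D) := by
  have h1 : X ⊆ D ∪ symmDiff X D := by
    intro x hx
    by_cases hd : x ∈ D
    · exact Or.inl hd
    · exact Or.inr (Or.inl ⟨hx, hd⟩)
  exact (measureReal_mono h1).trans (measureReal_union_le _ _)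

/-- probability measures are determined by their values on cylinders. -/
theorem lc_ext (ν ν' : Measure (E → α)) [IsProbabilityMeasure ν] [IsProbabilityMeasure ν']
    (h : ∀ X : Set (E → α), Lc X → ν.real X = ν'.real X) : ν = ν' := by
  refine ext_of_generate_finite (measurableCylinders (fun _ : E => α))
    generateFrom_measurableCylinders.symm isPiSystem_measurableCylinders ?_ ?_
  · intro s hs
    have h1 := h s ((PG0_lc_iff s).2 hs)
    exact (ENNReal.toReal_eq_toReal_iff' (measure_ne_top _ _) (measure_ne_top _ _)).1 h1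
  · rw [measure_univ, measure_univ]

end gen

section bool
variable {E : Type} [Countable E]

theorem opP_meas (e : E) : Measurable (opP e : (E → Bool) → E → Bool) := by
  classical
  rw [measurable_pi_iff]
  intro i
  by_cases hi : i = e
  · subst hi
    have h1 : (fun ω : E → Bool => opP i ω i) = fun _ => true := by
      funext ω; simp [opP]
    rw [h1]; exact measurable_const
  · have h1 : (fun ω : E → Bool => opP e ω i) = fun ω => ω i := by
      funext ω; simp [opP, Function.update, hi]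
    rw [h1]; exact measurable_pi_apply i

theorem insc_inse (ν : Measure (E → Bool)) [IsProbabilityMeasure ν] (h : INSc ν) : INSe ν := by
  intro ε hε
  obtain ⟨C, hC, h1⟩ := h (ε / 2) (by positivity)
  refine ⟨C, hC, ?_⟩
  intro e X hX
  have hop := opP_meas e
  have hpm : IsProbabilityMeasure (ν.map (opP e)) :=
    Measure.isProbabilityMeasure_map hop.aemeasurable
  have hδ : 0 < ε / (2 * (C + 1)) := by positivity
  obtain ⟨D, hD, h2⟩ := lc_approx (ν + ν.map (opP e)) X hX (ε / (2 * (C + 1))) hδ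
  have hDm := lc_meas hD
  have h3 : (ν + ν.map (opP e)).real (symmDiff X D) =
      ν.real (symmDiff X D) + (ν.map (opP e)).real (symmDiff X D) := by
    rw [Measure.real, Measure.add_apply,
      ENNReal.toReal_add (measure_ne_top _ _) (measure_ne_top _ _)]
    rfl
  have h4 : ∀ Y : Set (E → Bool), MeasurableSet Y →
      (ν.map (opP e)).real Y = ν.real {ω | opP e ω ∈ Y} := by
    intro Y hY
    rw [Measure.real, Measure.map_apply hop hY]
    rfl
  have h5 := PG0_tri (ν.map (opP e)) X D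
  have h6 := PG0_tri ν D X
  rw [symmDiff_comm] at h6
  have h7 := h1 e D hD
  rw [h3] at h2
  rw [h4 X hX, h4 D hDm] at h5
  have h8 : 0 ≤ ν.real (symmDiff X D) := measureReal_nonneg
  have h9 : 0 ≤ (ν.map (opP e)).real (symmDiff X D) := measureReal_nonneg
  have h10 : (C + 1) * (ε / (2 * (C + 1))) = ε / 2 := by
    field_simp
  have h11 : C * ν.real D ≤ C * (ν.real X + ε / (2 * (C + 1))) := by
    apply mul_le_mul_of_nonneg_left _ hC.le
    linarith
  linarith

/-- open all edges of `F`. -/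
noncomputable def opF (F : Finset E) (ω : E → Bool) : E → Bool :=
  open Classical in fun e => if e ∈ F then true else ω e

theorem opF_meas (F : Finset E) : Measurable (opF F : (E → Bool) → E → Bool) := by
  classical
  rw [measurable_pi_iff]
  intro i
  by_cases hi : i ∈ F
  · have h1 : (fun ω : E → Bool => opF F ω i) = fun _ => true := by
      funext ω; simp [opF, hi]
    rw [h1]; exact measurable_const
  · have h1 : (fun ω : E → Bool => opF F ω i) = fun ω => ω i := by
      funext ω; simp [opF, hi]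
    rw [h1]; exact measurable_pi_apply i

theorem opF_bound (ν : Measure (E → Bool)) [IsProbabilityMeasure ν] (h : INSe ν) (F : Finset E)
    (ε : ℝ) (hε : 0 < ε) : ∃ C : ℝ, 0 < C ∧ ∀ X : Set (E → Bool), MeasurableSet X →
      ν.real {ω | opF F ω ∈ X} ≤ C * ν.real X + ε := by
  classical
  induction F using Finset.induction_on generalizing ε with
  | empty =>
    refine ⟨1, one_pos, ?_⟩
    intro X hX
    have h1 : {ω : E → Bool | opF ∅ ω ∈ X} = X := by
      ext ω
      have h2 : opF ∅ ω = ω := by funext i; simp [opF]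
      simp [h2]
    rw [h1]; linarith
  | insert e F he ih =>
    obtain ⟨C1, hC1, h1⟩ := h (ε / 2) (by positivity)
    obtain ⟨C2, hC2, h2⟩ := ih (ε / (2 * C1)) (by positivity)
    refine ⟨C1 * C2, by positivity, ?_⟩
    intro X hX
    have h3 : {ω : E → Bool | opF (insert e F) ω ∈ X} =
        {ω | opP e ω ∈ {ω' : E → Bool | opF F ω' ∈ X}} := by
      ext ω
      have h4 : opF (insert e F) ω = opF F (opP e ω) := by
        funext i
        by_cases hi : i = e
        · subst hi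
          simp [opF, opP]
        · simp [opF, opP, Function.update, hi]
      simp only [Set.mem_setOf_eq, h4]
    rw [h3]
    have h5 := h1 e {ω' : E → Bool | opF F ω' ∈ X} (opF_meas F hX)
    have h6 := h2 X hX
    have h7 : C1 * ν.real {ω' : E → Bool | opF F ω' ∈ X} ≤
        C1 * (C2 * ν.real X + ε / (2 * C1)) := mul_le_mul_of_nonneg_left h6 hC1.le
    have h8 : C1 * (C2 * ν.real X + ε / (2 * C1)) = C1 * C2 * ν.real X + ε / 2 := by
      field_simp
    linarith

end bool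

section sh
variable {K' α : Type} [Countable K'] [Fintype α] [MeasurableSpace α] [MeasurableSingletonClass α]

theorem shP_meas (a : Vx 2) : Measurable (shP a : (Vx 2 × K' → α) → Vx 2 × K' → α) := by
  rw [measurable_pi_iff]
  intro i
  exact measurable_pi_apply (i.1 + a, i.2)

theorem shP_lc (a : Vx 2) {X : Set (Vx 2 × K' → α)} (h : Lc X) :
    Lc {ω : Vx 2 × K' → α | shP a ω ∈ X} := by
  classical
  obtain ⟨F, hF⟩ := h
  refine ⟨F.image (fun e => (e.1 + a, e.2)), ?_⟩
  intro ω ω' hw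
  refine hF (shP a ω) (shP a ω') ?_
  intro e he
  exact hw (e.1 + a, e.2) (Finset.mem_image_of_mem _ he)

theorem tip_of_lc (ν : Measure (Vx 2 × K' → α)) [IsProbabilityMeasure ν]
    (h : ∀ (a : Vx 2) (X : Set (Vx 2 × K' → α)), Lc X → ν.real {ω | shP a ω ∈ X} = ν.real X) :
    TIP ν := by
  intro a X hX
  have hm : Measurable (shP a : (Vx 2 × K' → α) → Vx 2 × K' → α) := shP_meas a
  have hpm : IsProbabilityMeasure (ν.map (shP a)) :=
    Measure.isProbabilityMeasure_map hm.aemeasurable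
  have h1 : ν.map (shP a) = ν := by
    refine lc_ext _ _ ?_
    intro Y hY
    have h2 := h a Y hY
    rw [← h2, Measure.real, Measure.map_apply hm (lc_meas hY)]
    rfl
  have h3 : (ν.map (shP a)).real X = ν.real X := by rw [h1]
  rw [Measure.real, Measure.map_apply hm hX] at h3
  exact h3

end sh

end H82.BX

end S_H82_BX_PG0

section S_H82_BX_PG1

/-!
# PG1: geometry of periodic graphs

`Λ_n = {z | nm z.1 ≤ n}`; both ends of an edge `e` are within `1` of `e.1`, so the two ends differ by at most `2` in `nm`.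
`pbx n` = the finset of vertices of `Λ_n`, `pbE n` = the finset of edges with both ends in `Λ_n` (they have `nm e.1 ≤ n + 1`),
`pbd n` = the vertices with `n - 1 ≤ nm z.1 ≤ n`, i.e. `n ≤ nm z.1 + 1` and `nm z.1 ≤ n`.
`exit_pg`: follow a path from `u` (`nm u.1 ≤ n`) to `y` (`n < nm y.1`) until the last time before it leaves `Λ_n`: the last vertex
inside has `nm ≥ n - 1`.  (Compare `G1_poe`, `exit_box` in `IC/G1.lean`.)
`card_pbd`: `|{x ∈ ℤ² : n - 1 ≤ nm x ≤ n}| ≤ (2n+1)^2 - (2(n-1)-1)^2 ≤ 16 (n + 1)` etc.; any constant is fine.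
-/

set_option autoImplicit false

open Finset MeasureTheory

namespace H82.BX

open H82.IC

variable {K K' : Type} [Fintype K] [Fintype K']

/-- vertices of the box. -/
noncomputable def pbx (K : Type) [Fintype K] (n : ℕ) : Finset (Vx 2 × K) := (bx 2 n) ×ˢ univ

/-- edges of the box. -/
noncomputable def pbE (P : PG K K') (n : ℕ) : Finset (Vx 2 × K') :=
  ((bx 2 (n + 1)) ×ˢ univ).filter (fun e => nm (P.gr.s e).1 ≤ n ∧ nm (P.gr.r e).1 ≤ n)

/-- boundary layer. -/
noncomputable def pbd (K : Type) [Fintype K] (n : ℕ) : Finset (Vx 2 × K) :=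
  (pbx K n).filter (fun z => n ≤ nm z.1 + 1)

theorem PG1_tri {d : ℕ} (x y : Vx d) : nm x ≤ nm y + nm (x - y) := by
  have h := nm_add y (x - y)
  rwa [add_sub_cancel] at h

theorem PG1_off (x a : Vx 2) (h : nm a ≤ 1) : nm x ≤ nm (x + a) + 1 := by
  have h1 := PG1_tri x (x + a)
  have h2 : x - (x + a) = -a := by abel
  rw [h2, nm_neg] at h1
  omega

theorem PG1_on (x a : Vx 2) (h : nm a ≤ 1) : nm (x + a) ≤ nm x + 1 := by
  have h1 := nm_add x a
  omega

theorem mem_pbx (n : ℕ) (z : Vx 2 × K) : z ∈ pbx K n ↔ nm z.1 ≤ n := by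
  unfold pbx
  rw [mem_product, mem_bx]
  simp

theorem mem_pbE (P : PG K K') (hP : P.Ok) (n : ℕ) (e : Vx 2 × K') :
    e ∈ pbE P n ↔ nm (P.gr.s e).1 ≤ n ∧ nm (P.gr.r e).1 ≤ n := by
  unfold pbE
  rw [mem_filter, mem_product, mem_bx]
  constructor
  · exact fun h => h.2
  · intro h
    refine ⟨⟨?_, mem_univ _⟩, h⟩
    have h1 : nm e.1 ≤ nm (e.1 + P.sv e.2) + 1 := PG1_off _ _ (hP.small e.2).1
    have h2 : nm (e.1 + P.sv e.2) ≤ n := h.1
    omega

theorem mem_pbd (n : ℕ) (z : Vx 2 × K) : z ∈ pbd K n ↔ nm z.1 ≤ n ∧ n ≤ nm z.1 + 1 := by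
  unfold pbd
  rw [mem_filter, mem_pbx]

theorem card_pbd (K : Type) [Fintype K] : ∃ C : ℕ, ∀ n : ℕ, (pbd K n).card ≤ C * (n + 1) := by
  refine ⟨16 * Fintype.card K, fun n => ?_⟩
  rcases Nat.lt_or_ge n 2 with hn | hn
  · have h1 : (pbd K n).card ≤ (pbx K n).card := card_le_card (filter_subset _ _)
    have h2 : (pbx K n).card = (2 * n + 1) ^ 2 * Fintype.card K := by
      unfold pbx
      rw [card_product, card_bx, card_univ]
    rw [h2] at h1
    refine h1.trans ?_
    have h3 : (2 * n + 1) ^ 2 ≤ 16 * (n + 1) := by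
      interval_cases n <;> norm_num
    calc (2 * n + 1) ^ 2 * Fintype.card K ≤ (16 * (n + 1)) * Fintype.card K :=
          Nat.mul_le_mul_right _ h3
      _ = 16 * Fintype.card K * (n + 1) := by ring
  · have h1 : pbd K n ⊆ (bx 2 n \ bx 2 (n - 2)) ×ˢ univ := by
      intro z hz
      unfold pbd pbx at hz
      rw [mem_filter, mem_product] at hz
      rw [mem_product, mem_sdiff]
      refine ⟨⟨hz.1.1, ?_⟩, mem_univ _⟩
      rw [mem_bx]
      have := hz.2
      omega
    refine (card_le_card h1).trans ?_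
    rw [card_product, card_sdiff_of_subset (bx_mono (by omega)), card_bx, card_bx, card_univ]
    have h3 : (2 * n + 1) ^ 2 - (2 * (n - 2) + 1) ^ 2 ≤ 16 * (n + 1) := by
      obtain ⟨m, rfl⟩ := Nat.exists_eq_add_of_le hn
      have h4 : 2 + m - 2 = m := by omega
      rw [h4, Nat.sub_le_iff_le_add]
      nlinarith
    calc ((2 * n + 1) ^ 2 - (2 * (n - 2) + 1) ^ 2) * Fintype.card K
        ≤ (16 * (n + 1)) * Fintype.card K := Nat.mul_le_mul_right _ h3
      _ = 16 * Fintype.card K * (n + 1) := by ring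

theorem exists_pbx (F : Finset (Vx 2 × K)) : ∃ n, F ⊆ pbx K n := by
  refine ⟨F.sup (fun z => nm z.1), fun z hz => ?_⟩
  unfold pbx
  rw [mem_product, mem_bx]
  exact ⟨Finset.le_sup (f := fun z : Vx 2 × K => nm z.1) hz, mem_univ _⟩

theorem exists_pbE (P : PG K K') (hP : P.Ok) (F : Finset (Vx 2 × K')) : ∃ n, F ⊆ pbE P n := by
  refine ⟨F.sup (fun e => max (nm (P.gr.s e).1) (nm (P.gr.r e).1)), fun e he => ?_⟩
  have h1 : max (nm (P.gr.s e).1) (nm (P.gr.r e).1) ≤
      F.sup (fun e => max (nm (P.gr.s e).1) (nm (P.gr.r e).1)) :=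
    Finset.le_sup (f := fun e => max (nm (P.gr.s e).1) (nm (P.gr.r e).1)) he
  rw [mem_pbE P hP]
  exact ⟨(le_max_left _ _).trans h1, (le_max_right _ _).trans h1⟩

theorem pbE_mono (P : PG K K') (hP : P.Ok) {n m : ℕ} (h : n ≤ m) : pbE P n ⊆ pbE P m := by
  intro e he
  rw [mem_pbE P hP] at he ⊢
  exact ⟨he.1.trans h, he.2.trans h⟩

theorem exit_pg (P : PG K K') (hP : P.Ok) {n : ℕ} {ω : Set (Vx 2 × K')} {u y : Vx 2 × K}
    (hu : nm u.1 ≤ n) (hy : n < nm y.1) (h : P.gr.Conn ω u y) :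
    ∃ b ∈ pbd K n, P.gr.Conn (ω ∩ pbE P n) u b := by
  have key : (P.gr.Conn (ω ∩ pbE P n) u y ∧ nm y.1 ≤ n) ∨
      ∃ b ∈ pbd K n, P.gr.Conn (ω ∩ pbE P n) u b := by
    clear hy
    induction h with
    | refl => exact Or.inl ⟨conn_refl _ _ _, hu⟩
    | @tail y z _ hyz ih =>
      rcases ih with ⟨h1, h2⟩ | h1
      · rcases le_or_gt (nm z.1) n with h3 | h3
        · left
          refine ⟨Relation.ReflTransGen.tail h1 ?_, h3⟩
          obtain ⟨e, he, hor⟩ := hyz
          refine ⟨e, ⟨he, ?_⟩, hor⟩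
          rw [Finset.mem_coe, mem_pbE P hP]
          rcases hor with h4 | h4
          · rw [h4.1, h4.2]; exact ⟨h2, h3⟩
          · rw [h4.1, h4.2]; exact ⟨h3, h2⟩
        · right
          refine ⟨y, (mem_pbd n y).2 ⟨h2, ?_⟩, h1⟩
          obtain ⟨e, _, hor⟩ := hyz
          have a1 : nm e.1 ≤ nm (P.gr.s e).1 + 1 := PG1_off _ _ (hP.small e.2).1
          have a2 : nm e.1 ≤ nm (P.gr.r e).1 + 1 := PG1_off _ _ (hP.small e.2).2
          have a3 : nm (P.gr.s e).1 ≤ nm e.1 + 1 := PG1_on _ _ (hP.small e.2).1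
          have a4 : nm (P.gr.r e).1 ≤ nm e.1 + 1 := PG1_on _ _ (hP.small e.2).2
          rcases hor with h4 | h4
          · rw [h4.1] at a1 a3
            rw [h4.2] at a2 a4
            omega
          · rw [h4.1] at a1 a3
            rw [h4.2] at a2 a4
            omega
      · exact Or.inr h1
  rcases key with ⟨_, h2⟩ | h1
  · omega
  · exact h1

/-- a connection uses finitely many edges. -/
theorem conn_pg (P : PG K K') (hP : P.Ok) {ω : Set (Vx 2 × K')} {u v : Vx 2 × K}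
    (h : P.gr.Conn ω u v) : ∃ n, P.gr.Conn (ω ∩ pbE P n) u v := by
  induction h with
  | refl => exact ⟨0, conn_refl _ _ _⟩
  | @tail y z _ hyz ih =>
    obtain ⟨n, hn⟩ := ih
    obtain ⟨e, he, hor⟩ := hyz
    obtain ⟨m, hm⟩ := exists_pbE P hP ({e} : Finset (Vx 2 × K'))
    have hem : e ∈ pbE P m := hm (Finset.mem_singleton_self e)
    refine ⟨max n m, Relation.ReflTransGen.tail (b := y) ?_ ?_⟩
    · refine conn_mono _ ?_ hn
      exact Set.inter_subset_inter_right _ (Finset.coe_subset.2 (pbE_mono P hP (le_max_left n m)))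
    · exact ⟨e, ⟨he, Finset.mem_coe.2 (pbE_mono P hP (le_max_right n m) hem)⟩, hor⟩

/-- infinite clusters. -/
theorem inf_pg (P : PG K K') (ω : Set (Vx 2 × K')) (v : Vx 2 × K) :
    (P.gr.cl ω v).Infinite ↔ ∀ n : ℕ, ∃ b : Vx 2 × K, n ≤ nm b.1 ∧ P.gr.Conn ω v b := by
  constructor
  · intro h n
    by_contra hcon
    push Not at hcon
    refine h ((Finset.finite_toSet (pbx K n)).subset fun b hb => ?_)
    rw [Finset.mem_coe]
    unfold pbx
    rw [mem_product, mem_bx]
    refine ⟨?_, mem_univ _⟩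
    by_contra hlt
    exact hcon b (by omega) hb
  · intro h hfin
    obtain ⟨n, hn⟩ := exists_pbx (K := K) hfin.toFinset
    obtain ⟨b, hb1, hb2⟩ := h (n + 1)
    have h1 : b ∈ hfin.toFinset := hfin.mem_toFinset.2 hb2
    have h2 := hn h1
    unfold pbx at h2
    rw [mem_product, mem_bx] at h2
    have := h2.1
    omega

/-- translations. -/
theorem conn_sh (P : PG K K') (a : Vx 2) (ω : Set (Vx 2 × K')) (u v : Vx 2 × K) :
    P.gr.Conn {e | ((e.1 + a, e.2) : Vx 2 × K') ∈ ω} u v ↔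
      P.gr.Conn ω (u.1 + a, u.2) (v.1 + a, v.2) := by
  have hs : ∀ e : Vx 2 × K', P.gr.s (e.1 + a, e.2) = ((P.gr.s e).1 + a, (P.gr.s e).2) := by
    intro e
    change (e.1 + a + P.sv e.2, P.sk e.2) = (e.1 + P.sv e.2 + a, P.sk e.2)
    rw [add_right_comm]
  have hr : ∀ e : Vx 2 × K', P.gr.r (e.1 + a, e.2) = ((P.gr.r e).1 + a, (P.gr.r e).2) := by
    intro e
    change (e.1 + a + P.rv e.2, P.rk e.2) = (e.1 + P.rv e.2 + a, P.rk e.2)
    rw [add_right_comm]
  constructor
  · intro h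
    induction h with
    | refl => exact conn_refl _ _ _
    | @tail y z _ hyz ih =>
      refine Relation.ReflTransGen.tail ih ?_
      obtain ⟨e, he, hor⟩ := hyz
      refine ⟨(e.1 + a, e.2), he, ?_⟩
      rw [hs, hr]
      rcases hor with h4 | h4
      · left; rw [h4.1, h4.2]; exact ⟨rfl, rfl⟩
      · right; rw [h4.1, h4.2]; exact ⟨rfl, rfl⟩
  · intro h
    have key : ∀ w, P.gr.Conn ω (u.1 + a, u.2) w →
        P.gr.Conn {e | ((e.1 + a, e.2) : Vx 2 × K') ∈ ω} u (w.1 - a, w.2) := by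
      intro w hw
      induction hw with
      | refl =>
        have : (((u.1 + a, u.2) : Vx 2 × K).1 - a, ((u.1 + a, u.2) : Vx 2 × K).2) = u := by
          simp
        rw [this]
        exact conn_refl _ _ _
      | @tail y z _ hyz ih =>
        refine Relation.ReflTransGen.tail ih ?_
        obtain ⟨e, he, hor⟩ := hyz
        have hs' := hs (e.1 - a, e.2)
        have hr' := hr (e.1 - a, e.2)
        simp only [sub_add_cancel] at hs' hr'
        refine ⟨(e.1 - a, e.2), ?_, ?_⟩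
        · change (e.1 - a + a, e.2) ∈ ω
          rw [sub_add_cancel]
          exact he
        · have h5 : P.gr.s (e.1 - a, e.2) = ((P.gr.s e).1 - a, (P.gr.s e).2) := by
            rw [hs']
            simp
          have h6 : P.gr.r (e.1 - a, e.2) = ((P.gr.r e).1 - a, (P.gr.r e).2) := by
            rw [hr']
            simp
          rw [h5, h6]
          rcases hor with h4 | h4
          · left; rw [h4.1, h4.2]; exact ⟨rfl, rfl⟩
          · right; rw [h4.1, h4.2]; exact ⟨rfl, rfl⟩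
    have h7 := key _ h
    have h8 : (((v.1 + a, v.2) : Vx 2 × K).1 - a, ((v.1 + a, v.2) : Vx 2 × K).2) = v := by simp
    rwa [h8] at h7

theorem tile_conn (P : PG K K') (hP : P.Ok) (r : ℕ) (hr : 1 ≤ r) (x : Vx 2)
    (a b : Vx 2 × K) (ha : a ∈ (tl r x : Set (Vx 2 × K))) (hb : b ∈ (tl r x : Set (Vx 2 × K))) :
    P.gr.Conn (P.gr.ins (tl r x)) a b := by
  have h := hP.conn r hr (a.1 - x, a.2) (by
    change nm (a.1 - x - 0) ≤ r
    rw [sub_zero]; exact ha) (b.1 - x, b.2) (by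
    change nm (b.1 - x - 0) ≤ r
    rw [sub_zero]; exact hb)
  have hset : P.gr.ins (tl r 0) = {e | ((e.1 + x, e.2) : Vx 2 × K') ∈ P.gr.ins (tl r x)} := by
    ext e
    change (nm (e.1 + P.sv e.2 - 0) ≤ r ∧ nm (e.1 + P.rv e.2 - 0) ≤ r) ↔
      (nm (e.1 + x + P.sv e.2 - x) ≤ r ∧ nm (e.1 + x + P.rv e.2 - x) ≤ r)
    have h1 : e.1 + x + P.sv e.2 - x = e.1 + P.sv e.2 - 0 := by abel
    have h2 : e.1 + x + P.rv e.2 - x = e.1 + P.rv e.2 - 0 := by abel
    rw [h1, h2]
  rw [hset, conn_sh] at h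
  have h3 : ∀ z : Vx 2 × K, (((z.1 - x, z.2) : Vx 2 × K).1 + x, ((z.1 - x, z.2) : Vx 2 × K).2) = z := by
    intro z; simp
  rw [h3, h3] at h
  exact h

end H82.BX

end S_H82_BX_PG1

section S_H82_IC_IV1

/-!
# IV1: measurability, locality, measures determined by the increasing cylinders

* `lcl_measurable`: a cylinder event depends on finitely many coordinates: it is the preimage under the measurable map `ω ↦ ω restricted to F` (finite discrete space) of a set, hence measurable.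
* `measure_ext_up`: the sets `up S` form a π-system (`up S ∩ up T = up (S ∪ T)`) generating the product σ-algebra (the coordinate sets `{ω | ω e = true} = up {e}`;
  `MeasurableSpace.pi` generated by the coordinates, each coordinate map into `Bool` is measurable iff the preimage of `{true}` is), `MeasureTheory.ext_of_generate_finite`.
* `cn x y = ⋃ n, cnB n x y` (increasing in `n`, `conn_in_box`), `cnB` is local (depends on `bE n`), `cn` measurable.
* `arm n u` for `nm u ≤ n`: by `exit_box` equal to `{ω | ∃ b ∈ bdry n, Conn (opn ω ∩ bE n) u b}`, local.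
* `perc`: for `1 ≤ d` `perc d = ⋂ n, arm n 0`: an infinite cluster leaves every box; conversely points of every norm in the cluster.
* all of `cn`, `cnB`, `arm`, `up`, `perc` are increasing (`conn_mono`); `dw` decreasing.
* `lcl` is stable under intersection, union, complement, preimage by `act`-like maps.
-/

set_option autoImplicit false

open Finset MeasureTheory

namespace H82.IC

variable {d : ℕ}

theorem IV1_opn_inter {F : Finset (Ed d)} {ω ω' : Cf d} (h : ∀ e ∈ F, ω e = ω' e) :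
    opn ω ∩ (F : Set (Ed d)) = opn ω' ∩ (F : Set (Ed d)) := by
  ext e
  constructor
  · rintro ⟨h1, h2⟩
    refine ⟨?_, h2⟩
    have h3 : ω e = true := h1
    show ω' e = true
    rw [← h e h2]
    exact h3
  · rintro ⟨h1, h2⟩
    refine ⟨?_, h2⟩
    have h3 : ω' e = true := h1
    show ω e = true
    rw [h e h2]
    exact h3

theorem IV1_opn_mono {ω ω' : Cf d} (h : ∀ e, ω e = true → ω' e = true) : opn ω ⊆ opn ω' :=
  fun e he => h e he

theorem lcl_measurable {X : Set (Cf d)} (h : Lcl X) : MeasurableSet X := by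
  obtain ⟨F, hF⟩ := h
  have hm : Measurable (fun (ω : Cf d) (e : F) => ω e) :=
    measurable_pi_lambda _ fun e => measurable_pi_apply _
  have hX : X = (fun (ω : Cf d) (e : F) => ω e) ⁻¹' ((fun (ω : Cf d) (e : F) => ω e) '' X) := by
    ext ω
    constructor
    · intro hω
      exact ⟨ω, hω, rfl⟩
    · rintro ⟨ω', hω', h1⟩
      refine (hF ω' ω fun e he => ?_).mp hω'
      exact congrFun h1 ⟨e, he⟩
  rw [hX]
  exact hm (Set.toFinite _).measurableSet

theorem IV1_up (S : Finset (Ed d)) : Lcl (up S) := by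
  refine ⟨S, fun ω ω' h => ?_⟩
  constructor
  · intro h1 e he
    rw [← h e he]
    exact h1 e he
  · intro h1 e he
    rw [h e he]
    exact h1 e he

theorem measure_ext_up (μ ν : Measure (Cf d)) [IsProbabilityMeasure μ] [IsProbabilityMeasure ν]
    (h : ∀ S : Finset (Ed d), μ.real (up S) = ν.real (up S)) : μ = ν := by
  classical
  refine MeasureTheory.ext_of_generate_finite (Set.range (up : Finset (Ed d) → Set (Cf d))) ?_ ?_ ?_
    (by rw [measure_univ, measure_univ])
  · apply le_antisymm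
    · refine iSup_le fun e => ?_
      have hme : @Measurable (Cf d) Bool (MeasurableSpace.generateFrom (Set.range up)) ⊤
          (fun ω => ω e) := by
        refine @measurable_to_bool (Cf d) (MeasurableSpace.generateFrom (Set.range up)) _ ?_
        apply MeasurableSpace.measurableSet_generateFrom
        refine ⟨{e}, ?_⟩
        ext ω
        simp [up]
      exact hme.comap_le
    · refine MeasurableSpace.generateFrom_le ?_
      rintro _ ⟨S, rfl⟩
      exact lcl_measurable (IV1_up S)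
  · rintro _ ⟨S, rfl⟩ _ ⟨T, rfl⟩ -
    refine ⟨S ∪ T, ?_⟩
    ext ω
    simp only [up, Set.mem_ofPred_eq, Set.mem_inter_iff, Finset.mem_union]
    constructor
    · intro h1
      exact ⟨fun e he => h1 e (Or.inl he), fun e he => h1 e (Or.inr he)⟩
    · rintro ⟨h1, h2⟩ e (he | he)
      · exact h1 e he
      · exact h2 e he
  · rintro _ ⟨S, rfl⟩
    have h1 := h S
    rw [measureReal_def, measureReal_def] at h1
    exact (ENNReal.toReal_eq_toReal_iff' (measure_ne_top _ _) (measure_ne_top _ _)).mp h1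

theorem lcl_inter {X Y : Set (Cf d)} (h : Lcl X) (h' : Lcl Y) : Lcl (X ∩ Y) := by
  classical
  obtain ⟨F, hF⟩ := h
  obtain ⟨G, hG⟩ := h'
  refine ⟨F ∪ G, fun ω ω' h => ?_⟩
  have h1 := hF ω ω' fun e he => h e (Finset.mem_union_left _ he)
  have h2 := hG ω ω' fun e he => h e (Finset.mem_union_right _ he)
  exact and_congr h1 h2

theorem lcl_union {X Y : Set (Cf d)} (h : Lcl X) (h' : Lcl Y) : Lcl (X ∪ Y) := by
  classical
  obtain ⟨F, hF⟩ := h
  obtain ⟨G, hG⟩ := h'
  refine ⟨F ∪ G, fun ω ω' h => ?_⟩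
  have h1 := hF ω ω' fun e he => h e (Finset.mem_union_left _ he)
  have h2 := hG ω ω' fun e he => h e (Finset.mem_union_right _ he)
  exact or_congr h1 h2

theorem lcl_compl {X : Set (Cf d)} (h : Lcl X) : Lcl Xᶜ := by
  obtain ⟨F, hF⟩ := h
  exact ⟨F, fun ω ω' h => not_congr (hF ω ω' h)⟩

theorem lcl_up (S : Finset (Ed d)) : Lcl (up S) := IV1_up S

theorem lcl_dw (S : Finset (Ed d)) : Lcl (dw S) := by
  refine ⟨S, fun ω ω' h => ?_⟩
  constructor
  · intro h1 e he
    rw [← h e he]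
    exact h1 e he
  · intro h1 e he
    rw [h e he]
    exact h1 e he

theorem lcl_cnB (n : ℕ) (x y : Vx d) : Lcl (cnB n x y) := by
  refine ⟨bE d n, fun ω ω' h => ?_⟩
  show (Zl d).Conn (opn ω ∩ bE d n) x y ↔ (Zl d).Conn (opn ω' ∩ bE d n) x y
  rw [IV1_opn_inter h]

theorem arm_eq (hd : 1 ≤ d) {n : ℕ} {u : Vx d} (hu : nm u ≤ n) :
    (arm n u : Set (Cf d)) = {ω | ∃ b ∈ bdry d n, (Zl d).Conn (opn ω ∩ bE d n) u b} := by
  ext ω
  constructor
  · rintro ⟨y, hy, h⟩
    exact exit_box hd hu ((mem_bdry hd).mp hy).ge h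
  · rintro ⟨b, hb, h⟩
    exact ⟨b, hb, conn_mono _ Set.inter_subset_left h⟩

theorem lcl_arm (hd : 1 ≤ d) {n : ℕ} {u : Vx d} (hu : nm u ≤ n) : Lcl (arm n u) := by
  refine ⟨bE d n, fun ω ω' h => ?_⟩
  rw [arm_eq hd hu]
  show (∃ b ∈ bdry d n, (Zl d).Conn (opn ω ∩ bE d n) u b) ↔
    (∃ b ∈ bdry d n, (Zl d).Conn (opn ω' ∩ bE d n) u b)
  rw [IV1_opn_inter h]

theorem inc_up (S : Finset (Ed d)) : Inc (up S) :=
  fun _ _ h h1 e he => h e (h1 e he)

theorem inc_cn (x y : Vx d) : Inc (cn x y) :=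
  fun _ _ h h1 => conn_mono _ (IV1_opn_mono h) h1

theorem inc_cnB (n : ℕ) (x y : Vx d) : Inc (cnB n x y) :=
  fun _ _ h h1 => conn_mono _ (Set.inter_subset_inter_left _ (IV1_opn_mono h)) h1

theorem inc_arm (n : ℕ) (u : Vx d) : Inc (arm n u) := by
  rintro ω ω' h ⟨y, hy, h1⟩
  exact ⟨y, hy, conn_mono _ (IV1_opn_mono h) h1⟩

theorem inc_inter {X Y : Set (Cf d)} (h : Inc X) (h' : Inc Y) : Inc (X ∩ Y) :=
  fun ω ω' h1 h2 => ⟨h ω ω' h1 h2.1, h' ω ω' h1 h2.2⟩

theorem cnB_mono {m n : ℕ} (h : m ≤ n) (x y : Vx d) : (cnB m x y : Set (Cf d)) ⊆ cnB n x y := by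
  intro ω hω
  refine conn_mono _ (Set.inter_subset_inter_right _ ?_) hω
  exact_mod_cast bE_mono h

theorem cn_eq (x y : Vx d) : (cn x y : Set (Cf d)) = ⋃ n, cnB n x y := by
  ext ω
  rw [Set.mem_iUnion]
  constructor
  · intro h
    exact conn_in_box h
  · rintro ⟨n, h⟩
    exact conn_mono _ Set.inter_subset_left h

theorem meas_cn (x y : Vx d) : MeasurableSet (cn x y : Set (Cf d)) := by
  rw [cn_eq]
  exact MeasurableSet.iUnion fun n => lcl_measurable (lcl_cnB n x y)

theorem meas_arm (n : ℕ) (u : Vx d) : MeasurableSet (arm n u : Set (Cf d)) := by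
  have h : (arm n u : Set (Cf d)) = ⋃ y ∈ bdry d n, cn u y := by
    ext ω
    simp only [Set.mem_iUnion, exists_prop]
    rfl
  rw [h]
  exact Finset.measurableSet_biUnion _ fun y _ => meas_cn u y

theorem perc_eq (hd : 1 ≤ d) : perc d = ⋂ n, arm n (0 : Vx d) := by
  ext ω
  rw [Set.mem_iInter]
  constructor
  · intro h n
    have hinf : ((Zl d).cl (opn ω) 0).Infinite := h
    obtain ⟨v, hv, hvn⟩ := hinf.exists_notMem_finset (bx d n)
    rw [mem_bx, not_le] at hvn
    obtain ⟨b, hb, hb'⟩ := exit_box hd (n := n) (by rw [nm_zero]; exact Nat.zero_le n) hvn.le hv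
    exact ⟨b, hb, conn_mono _ Set.inter_subset_left hb'⟩
  · intro h
    show ((Zl d).cl (opn ω) 0).Infinite
    intro hfin
    obtain ⟨y, hy, hc⟩ := h (hfin.toFinset.sup nm + 1)
    have h1 := (mem_bdry hd).mp hy
    have h2 : nm y ≤ hfin.toFinset.sup nm :=
      Finset.le_sup (f := nm) (hfin.mem_toFinset.mpr hc)
    omega

theorem meas_perc (hd : 1 ≤ d) : MeasurableSet (perc d) := by
  rw [perc_eq hd]
  exact MeasurableSet.iInter fun n => meas_arm n 0

theorem arm_anti (hd : 1 ≤ d) {m n : ℕ} (h : m ≤ n) {u : Vx d} (hu : nm u ≤ m) :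
    (arm n u : Set (Cf d)) ⊆ arm m u := by
  rintro ω ⟨y, hy, hc⟩
  obtain ⟨b, hb, hb'⟩ := exit_box hd hu (h.trans ((mem_bdry hd).mp hy).ge) hc
  exact ⟨b, hb, conn_mono _ Set.inter_subset_left hb'⟩

/-- `{0 ↔ x} ⊆ {0 ↔ ∂Λ_{|x|}}`. -/
theorem cn_sub_arm (hd : 1 ≤ d) {n : ℕ} {u x : Vx d} (hu : nm u ≤ n) (hx : n ≤ nm x) :
    (cn u x : Set (Cf d)) ⊆ arm n u := by
  intro ω hc
  obtain ⟨b, hb, hb'⟩ := exit_box hd hu hx hc
  exact ⟨b, hb, conn_mono _ Set.inter_subset_left hb'⟩

/-- a connection outside `Λ_n` from the origin implies the arm event. -/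
theorem cn_sub_union (hd : 1 ≤ d) {n : ℕ} {u x : Vx d} (hu : nm u ≤ n) :
    (cn u x : Set (Cf d)) ⊆ cnB n u x ∪ arm n u := by
  intro ω hc
  rcases path_or_exit hd hu hc with h | ⟨b, hb, h⟩
  · exact Or.inl h
  · exact Or.inr ⟨b, hb, conn_mono _ Set.inter_subset_left h⟩

end H82.IC

end S_H82_IC_IV1

section S_H82_IC_AU

/-!
# AU: automorphisms of the lattice

`LAut d`: a permutation `gV` of the vertices and `gE` of the edges with `{s (gE e), r (gE e)} = {gV (s e), gV (r e)}`.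
* `conn_aut`: `x ↔ y` in `{e | gE e ∈ S}` iff `gV x ↔ gV y` in `S`: (→) induction on the path, each step through `e` with `gE e ∈ S`.  (←): the inverse permutation: a step from `gV x` to `z` through an
  edge `f = gE e`, so `{gV (s e), gV (r e)} = {gV x, z}`.
* `trA a` (translation by `a`), `ngA` (`x ↦ -x`; the edge `(x,i)` goes to `(-x - e_i, i)`), `pmA π` (permutation of the coordinates `x ↦ x ∘ π⁻¹`, edge `(x,i) ↦ (x ∘ π⁻¹, π i)`,
  `Pi.single i 1 ∘ π⁻¹ = Pi.single (π i) 1`).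
* `nm` is invariant under `ngA`, `pmA π`, so `bx`, `bE` are (`gE e ∈ bE n ↔ e ∈ bE n`); for `trA a`: `nm (x + a) ≤ nm x + nm a`.
* `act g ω = fun e => ω (g.gE e)`; preimages of the events: `act g ω ∈ cn x y ↔ ω ∈ cn (gV x) (gV y)` etc.
-/

set_option autoImplicit false

open Finset MeasureTheory

namespace H82.IC

variable {d : ℕ}

/-- automorphisms of the lattice. -/
structure LAut (d : ℕ) where
  gV : Equiv.Perm (Vx d)
  gE : Equiv.Perm (Ed d)
  ok : ∀ e, ((Zl d).s (gE e) = gV ((Zl d).s e) ∧ (Zl d).r (gE e) = gV ((Zl d).r e)) ∨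
    ((Zl d).s (gE e) = gV ((Zl d).r e) ∧ (Zl d).r (gE e) = gV ((Zl d).s e))

/-- action on configurations. -/
def act (g : LAut d) (ω : Cf d) : Cf d := fun e => ω (g.gE e)

theorem AU_adj (g : LAut d) {S : Set (Ed d)} {x y : Vx d}
    (h : (Zl d).Adj {e | g.gE e ∈ S} x y) : (Zl d).Adj S (g.gV x) (g.gV y) := by
  obtain ⟨e, he, hxy⟩ := h
  refine ⟨g.gE e, he, ?_⟩
  rcases g.ok e with ⟨h1, h2⟩ | ⟨h1, h2⟩ <;> rcases hxy with ⟨h3, h4⟩ | ⟨h3, h4⟩
  · left; rw [h1, h2, h3, h4]; exact ⟨rfl, rfl⟩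
  · right; rw [h1, h2, h3, h4]; exact ⟨rfl, rfl⟩
  · right; rw [h1, h2, h3, h4]; exact ⟨rfl, rfl⟩
  · left; rw [h1, h2, h3, h4]; exact ⟨rfl, rfl⟩

theorem AU_adj_inv (g : LAut d) {S : Set (Ed d)} {x z : Vx d}
    (h : (Zl d).Adj S (g.gV x) z) : ∃ y, g.gV y = z ∧ (Zl d).Adj {e | g.gE e ∈ S} x y := by
  obtain ⟨f, hf, hxy⟩ := h
  obtain ⟨e, rfl⟩ := g.gE.surjective f
  rcases g.ok e with ⟨h1, h2⟩ | ⟨h1, h2⟩ <;> rcases hxy with ⟨h3, h4⟩ | ⟨h3, h4⟩ <;>
    rw [h1] at h3 <;> rw [h2] at h4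
  · exact ⟨(Zl d).r e, h4, e, hf, Or.inl ⟨g.gV.injective h3, rfl⟩⟩
  · exact ⟨(Zl d).s e, h3, e, hf, Or.inr ⟨rfl, g.gV.injective h4⟩⟩
  · exact ⟨(Zl d).s e, h4, e, hf, Or.inr ⟨rfl, g.gV.injective h3⟩⟩
  · exact ⟨(Zl d).r e, h3, e, hf, Or.inl ⟨g.gV.injective h4, rfl⟩⟩

theorem AU_conn (g : LAut d) {S : Set (Ed d)} {x z : Vx d}
    (h : (Zl d).Conn S (g.gV x) z) : ∃ y, g.gV y = z ∧ (Zl d).Conn {e | g.gE e ∈ S} x y := by
  induction h with
  | refl => exact ⟨x, rfl, conn_refl _ _ _⟩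
  | tail _ hab ih =>
    obtain ⟨y, hy, hc⟩ := ih
    rw [← hy] at hab
    obtain ⟨y', hy', hc'⟩ := AU_adj_inv g hab
    exact ⟨y', hy', hc.tail hc'⟩

theorem conn_aut (g : LAut d) (S : Set (Ed d)) (x y : Vx d) :
    (Zl d).Conn {e | g.gE e ∈ S} x y ↔ (Zl d).Conn S (g.gV x) (g.gV y) := by
  constructor
  · intro h
    induction h with
    | refl => exact conn_refl _ _ _
    | tail _ hab ih => exact ih.tail (AU_adj g hab)
  · intro h
    obtain ⟨y', hy', hc⟩ := AU_conn g h
    rw [g.gV.injective hy'] at hc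
    exact hc

theorem act_cn (g : LAut d) (ω : Cf d) (x y : Vx d) : act g ω ∈ cn x y ↔ ω ∈ cn (g.gV x) (g.gV y) := by
  exact conn_aut g (opn ω) x y

theorem act_up (g : LAut d) (ω : Cf d) (S : Finset (Ed d)) :
    act g ω ∈ up S ↔ ω ∈ up (S.map g.gE.toEmbedding) := by
  constructor
  · intro h f hf
    obtain ⟨e, he, rfl⟩ := Finset.mem_map.1 hf
    exact h e he
  · intro h e he
    exact h _ (Finset.mem_map.2 ⟨e, he, rfl⟩)

theorem act_measurable (g : LAut d) : Measurable (act g) := by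
  exact measurable_pi_lambda _ (fun e => measurable_pi_apply (g.gE e))

theorem exists_trA (a : Vx d) : ∃ g : LAut d, (∀ x, g.gV x = x + a) ∧
    ∀ e, g.gE e = (e.1 + a, e.2) := by
  refine ⟨⟨Equiv.addRight a, Equiv.prodCongr (Equiv.addRight a) (Equiv.refl _), ?_⟩,
    fun x => rfl, fun e => rfl⟩
  intro e
  left
  refine ⟨rfl, ?_⟩
  show (e.1 + a) + Pi.single e.2 1 = (e.1 + Pi.single e.2 1) + a
  abel

theorem exists_ngA : ∃ g : LAut d, ∀ x, g.gV x = -x := by
  have hinv : Function.Involutive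
      (fun e : Ed d => ((-e.1 - (Pi.single e.2 1 : Vx d), e.2) : Ed d)) := by
    intro e
    refine Prod.ext ?_ rfl
    show -(-e.1 - (Pi.single e.2 1 : Vx d)) - (Pi.single e.2 1 : Vx d) = e.1
    abel
  refine ⟨⟨Equiv.neg _, hinv.toPerm, ?_⟩, fun x => rfl⟩
  intro e
  right
  constructor
  · show -e.1 - Pi.single e.2 1 = -(e.1 + Pi.single e.2 1)
    abel
  · show -e.1 - Pi.single e.2 1 + Pi.single e.2 1 = -e.1
    abel

theorem exists_pmA (π : Equiv.Perm (Fin d)) : ∃ g : LAut d, ∀ x i, g.gV x (π i) = x i := by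
  have hc : ∀ (x : Vx d) (j : Fin d),
      (Equiv.arrowCongr π (Equiv.refl ℤ)) x j = x (π.symm j) := fun x j => rfl
  refine ⟨⟨Equiv.arrowCongr π (Equiv.refl ℤ),
    Equiv.prodCongr (Equiv.arrowCongr π (Equiv.refl ℤ)) π, ?_⟩, fun x i => ?_⟩
  · intro e
    left
    refine ⟨rfl, ?_⟩
    funext j
    show (Equiv.arrowCongr π (Equiv.refl ℤ)) e.1 j + (Pi.single (π e.2) 1 : Vx d) j =
      (Equiv.arrowCongr π (Equiv.refl ℤ)) (e.1 + Pi.single e.2 1) j
    rw [hc, hc, Pi.add_apply, Pi.single_apply, Pi.single_apply]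
    by_cases h : j = π e.2
    · rw [if_pos h, if_pos (by rw [h, Equiv.symm_apply_apply])]
    · rw [if_neg h, if_neg (fun h' => h (by rw [← h', Equiv.apply_symm_apply]))]
  · show (Equiv.arrowCongr π (Equiv.refl ℤ)) x (π i) = x i
    rw [hc, Equiv.symm_apply_apply]

theorem nm_perm (π : Equiv.Perm (Fin d)) (x y : Vx d) (h : ∀ i, y (π i) = x i) : nm y = nm x := by
  unfold nm
  apply le_antisymm
  · refine Finset.sup_le fun j _ => ?_
    have h1 : y j = x (π.symm j) := by rw [← h, Equiv.apply_symm_apply]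
    rw [h1]
    exact Finset.le_sup (f := fun i => (x i).natAbs) (Finset.mem_univ _)
  · refine Finset.sup_le fun j _ => ?_
    rw [← h j]
    exact Finset.le_sup (f := fun i => (y i).natAbs) (Finset.mem_univ _)

/-- an automorphism preserving `nm` preserves the boxes. -/
theorem aut_bE (g : LAut d) (hg : ∀ x, nm (g.gV x) = nm x) (n : ℕ) (e : Ed d) :
    g.gE e ∈ bE d n ↔ e ∈ bE d n := by
  rw [mem_bE, mem_bE]
  rcases g.ok e with ⟨h1, h2⟩ | ⟨h1, h2⟩
  · rw [h1, h2, hg, hg]
  · rw [h1, h2, hg, hg]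
    exact And.comm

theorem aut_bE_le (g : LAut d) (k : ℕ) (hg : ∀ x, nm (g.gV x) ≤ nm x + k) (n : ℕ) {e : Ed d}
    (he : e ∈ bE d n) : g.gE e ∈ bE d (n + k) := by
  rw [mem_bE] at he ⊢
  have h3 := hg ((Zl d).s e)
  have h4 := hg ((Zl d).r e)
  rcases g.ok e with ⟨h1, h2⟩ | ⟨h1, h2⟩
  · rw [h1, h2]
    omega
  · rw [h1, h2]
    omega

end H82.IC

end S_H82_IC_AU

section S_H82_BX_PG6

/-!
# PG6: the two periodic graphs `Q2` and `HH` are admissible

`Q2`: tiles are connected (`box_conn` of `IC/G1.lean`; `Q2.gr` is `Zl 2` up to the trivial factor `Unit`).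
`HH`: in the tile all squares `x` with `nm x ≤ r`: the two triangles of a square are adjacent (edge `(x,2)`); the edge `(x,1)` joins the upper
triangle of `x` with the lower triangle of `x - e₀`, the edge `(x,0)` joins the lower triangle of `x` with the upper triangle of `x - e₁`;
so neighbouring squares are connected, and the squares of the box are connected (induction, or by `box_conn`).
-/

set_option autoImplicit false

open Finset MeasureTheory

namespace H82.BX

open H82.IC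

theorem PG6_edge {V E : Type} (G : Gr V E) {ω : Set E} {x y : V} (e : E) (he : e ∈ ω)
    (h1 : G.s e = x) (h2 : G.r e = y) : G.Conn ω x y := by
  subst h1
  subst h2
  exact conn_edge G he

theorem PG6_q2_step (r : ℕ) {y z : Vx 2} (h : (Zl 2).Adj (bE 2 r : Set (Ed 2)) y z) :
    Q2.gr.Conn (Q2.gr.ins (tl r 0)) ((y, ()) : Vx 2 × Unit) (z, ()) := by
  obtain ⟨e, he, hor⟩ := h
  rw [Finset.mem_coe, mem_bE] at he
  have h1 : Q2.gr.s e = (e.1, ()) := by
    change (e.1 + 0, ()) = (e.1, ())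
    rw [add_zero]
  have h2 : Q2.gr.r e = (e.1 + Pi.single e.2 1, ()) := rfl
  have h3 : e ∈ Q2.gr.ins (tl r 0 : Set (Vx 2 × Unit)) := by
    refine ⟨?_, ?_⟩
    · rw [h1]
      change nm (e.1 - 0) ≤ r
      rw [sub_zero]
      exact he.1
    · rw [h2]
      change nm (e.1 + Pi.single e.2 1 - 0) ≤ r
      rw [sub_zero]
      exact he.2
  rcases hor with ⟨ha, hb⟩ | ⟨ha, hb⟩
  · refine PG6_edge _ e h3 ?_ ?_
    · rw [h1, ← ha]; rfl
    · rw [h2, ← hb]; rfl
  · refine conn_symm _ (PG6_edge _ e h3 ?_ ?_)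
    · rw [h1, ← ha]; rfl
    · rw [h2, ← hb]; rfl

theorem Q2_ok : Q2.Ok := by
  constructor
  · intro k'
    refine ⟨?_, ?_⟩
    · change nm (0 : Vx 2) ≤ 1
      rw [nm_zero]
      exact Nat.zero_le 1
    · exact G1_single k'
  · rintro r _ ⟨a, _⟩ ha ⟨b, _⟩ hb
    have ha' : nm a ≤ r := by
      have : nm (a - 0) ≤ r := ha
      rwa [sub_zero] at this
    have hb' : nm b ≤ r := by
      have : nm (b - 0) ≤ r := hb
      rwa [sub_zero] at this
    have h := box_conn ha' hb'
    induction h with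
    | refl => exact conn_refl _ _ _
    | @tail y z h1 h2 ih =>
      have hy : nm y ≤ r := by
        obtain ⟨e, he, hor⟩ := h2
        rw [Finset.mem_coe, mem_bE] at he
        rcases hor with ⟨hs, _⟩ | ⟨_, hs⟩
        · rw [← hs]; exact he.1
        · rw [← hs]; exact he.2
      exact conn_trans _ (ih (by change nm (y - 0) ≤ r; rwa [sub_zero]) hy) (PG6_q2_step r h2)

theorem PG6_hh_mem (r : ℕ) (x : Vx 2) (k : Bool) :
    ((x, k) : Vx 2 × Bool) ∈ (tl r 0 : Set (Vx 2 × Bool)) ↔ nm x ≤ r := by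
  change nm (x - 0) ≤ r ↔ nm x ≤ r
  rw [sub_zero]

theorem PG6_hh_sq (r : ℕ) {x : Vx 2} (hx : nm x ≤ r) (a b : Bool) :
    HH.gr.Conn (HH.gr.ins (tl r 0)) ((x, a) : Vx 2 × Bool) (x, b) := by
  have h1 : HH.gr.s (x, 2) = (x, true) := by
    change (x + 0, true) = (x, true)
    rw [add_zero]
  have h2 : HH.gr.r (x, 2) = (x, false) := by
    change (x + 0, false) = (x, false)
    rw [add_zero]
  have h3 : ((x, 2) : Vx 2 × Fin 3) ∈ HH.gr.ins (tl r 0 : Set (Vx 2 × Bool)) := by
    refine ⟨?_, ?_⟩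
    · rw [h1, PG6_hh_mem]; exact hx
    · rw [h2, PG6_hh_mem]; exact hx
  have h4 := PG6_edge HH.gr _ h3 h1 h2
  cases a <;> cases b
  · exact conn_refl _ _ _
  · exact conn_symm _ h4
  · exact h4
  · exact conn_refl _ _ _

theorem PG6_hh_nb (r : ℕ) {x : Vx 2} (i : Fin 2) (hx : nm x ≤ r) (hx' : nm (x + Pi.single i 1) ≤ r) :
    HH.gr.Conn (HH.gr.ins (tl r 0)) ((x, false) : Vx 2 × Bool) (x + Pi.single i 1, false) := by
  fin_cases i
  · -- edge `(x + e₀, 1)`
    have h1 : HH.gr.s (x + Pi.single 0 1, 1) = (x, false) := by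
      change (x + Pi.single 0 1 + -Pi.single 0 1, false) = (x, false)
      rw [add_neg_cancel_right]
    have h2 : HH.gr.r (x + Pi.single 0 1, 1) = (x + Pi.single 0 1, true) := by
      change (x + Pi.single 0 1 + 0, true) = (x + Pi.single 0 1, true)
      rw [add_zero]
    have h3 : ((x + Pi.single 0 1, 1) : Vx 2 × Fin 3) ∈ HH.gr.ins (tl r 0 : Set (Vx 2 × Bool)) := by
      refine ⟨?_, ?_⟩
      · rw [h1, PG6_hh_mem]; exact hx
      · rw [h2, PG6_hh_mem]; exact hx'
    exact conn_trans _ (PG6_edge HH.gr _ h3 h1 h2) (PG6_hh_sq r hx' true false)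
  · -- edge `(x + e₁, 0)`
    have h1 : HH.gr.s (x + Pi.single 1 1, 0) = (x + Pi.single 1 1, false) := by
      change (x + Pi.single 1 1 + 0, false) = (x + Pi.single 1 1, false)
      rw [add_zero]
    have h2 : HH.gr.r (x + Pi.single 1 1, 0) = (x, true) := by
      change (x + Pi.single 1 1 + -Pi.single 1 1, true) = (x, true)
      rw [add_neg_cancel_right]
    have h3 : ((x + Pi.single 1 1, 0) : Vx 2 × Fin 3) ∈ HH.gr.ins (tl r 0 : Set (Vx 2 × Bool)) := by
      refine ⟨?_, ?_⟩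
      · rw [h1, PG6_hh_mem]; exact hx'
      · rw [h2, PG6_hh_mem]; exact hx
    exact conn_trans _ (PG6_hh_sq r hx false true) (conn_symm _ (PG6_edge HH.gr _ h3 h1 h2))

theorem PG6_hh_step (r : ℕ) {y z : Vx 2} (h : (Zl 2).Adj (bE 2 r : Set (Ed 2)) y z) :
    HH.gr.Conn (HH.gr.ins (tl r 0)) ((y, false) : Vx 2 × Bool) (z, false) := by
  obtain ⟨e, he, hor⟩ := h
  rw [Finset.mem_coe, mem_bE] at he
  have h4 := PG6_hh_nb r e.2 he.1 he.2
  rcases hor with ⟨ha, hb⟩ | ⟨ha, hb⟩
  · rw [← ha, ← hb]; exact h4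
  · rw [← ha, ← hb]; exact conn_symm _ h4

theorem HH_ok : HH.Ok := by
  constructor
  · intro k'
    fin_cases k'
    · refine ⟨?_, ?_⟩
      · change nm (0 : Vx 2) ≤ 1
        rw [nm_zero]
        exact Nat.zero_le 1
      · change nm (-Pi.single 1 1 : Vx 2) ≤ 1
        rw [nm_neg]
        exact G1_single 1
    · refine ⟨?_, ?_⟩
      · change nm (-Pi.single 0 1 : Vx 2) ≤ 1
        rw [nm_neg]
        exact G1_single 0
      · change nm (0 : Vx 2) ≤ 1
        rw [nm_zero]
        exact Nat.zero_le 1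
    · refine ⟨?_, ?_⟩
      · change nm (0 : Vx 2) ≤ 1
        rw [nm_zero]
        exact Nat.zero_le 1
      · change nm (0 : Vx 2) ≤ 1
        rw [nm_zero]
        exact Nat.zero_le 1
  · rintro r _ ⟨a, ka⟩ ha ⟨b, kb⟩ hb
    rw [PG6_hh_mem] at ha hb
    have key : ∀ v : Vx 2, (Zl 2).Conn (bE 2 r : Set (Ed 2)) a v →
        HH.gr.Conn (HH.gr.ins (tl r 0)) ((a, false) : Vx 2 × Bool) (v, false) := by
      intro v h
      induction h with
      | refl => exact conn_refl _ _ _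
      | @tail y z h1 h2 ih => exact conn_trans _ ih (PG6_hh_step r h2)
    exact conn_trans _ (PG6_hh_sq r ha ka false)
      (conn_trans _ (key b (box_conn ha hb)) (PG6_hh_sq r hb false kb))

end H82.BX

end S_H82_BX_PG6

section S_H82_BX_POI

/-!
# POI: discrete Poincaré lemma in the triangular box, path formulas

`dh h e = h (s e) - h (r e)` for the edge `e` of `HH.gr` (dual to the edge `e` of `TT`):
`J(x,y; 0) = h(L(x,y)) - h(U(x,y-1))`, `J(x,y; 1) = h(L(x-1,y)) - h(U(x,y))`, `J(x,y; 2) = h(U(x,y)) - h(L(x,y))`, where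
`L(x,y) = ((x,y), false)`, `U(x,y) = ((x,y), true)`.
`dh_dv`: with `J = dh (ex h)` on `EN n`: at `(x,y)` the incoming edges (`TT.r e = (x,y)`) are `(x-1,y;0)`, `(x,y-1;1)`, `(x-1,y-1;2)` and the outgoing ones
`(x,y;0)`, `(x,y;1)`, `(x,y;2)`; the heights cancel (heights are `0` off `FN n`, and for the edges of `TT` at the vertex not in `EN n` both heights are `0`).
`left_path`: row formulas (`a = v.1 0`, row `b = v.1 1`): `h(U(a,b)) = -∑_{x ≤ a} J(x,b;1) - ∑_{x < a} J(x,b;2)`, `h(L(a,b)) = -∑_{x ≤ a} (J(x,b;1) + J(x,b;2))`, the sums over `x ≥ -n`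
(telescoping from the left, where `h = 0`);
`right_path`: `h(L(a,b)) = ∑_{x > a} (J(x,b;1) + J(x,b;2))`, `h(U(a,b)) = ∑_{x ≥ a} J(x,b;2) + ∑_{x > a} J(x,b;1)`.
`poi`: injectivity by `left_path`.  Surjectivity: given `J` with `dv = 0` define `h` by the row formula; the relations for `k = 1, 2` inside the row hold by construction; the last one at the right end says that the
flux through the row `y = b` is `0`: the sum of the divergences over the vertices with second coordinate `≤ b` (horizontal edges cancel); the relation for `k = 0`: by induction on the rows / on `x`, from the divergence at `(x,y)`.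
(Alternatively: dimension count over `ℚ` does not suffice for `ℤ`; use the explicit formulas.)
-/

set_option autoImplicit false

open Finset MeasureTheory

namespace H82.BX

open H82.IC

theorem mem_FN (n : ℕ) (v : Vx 2 × Bool) : v ∈ FN n ↔ ∀ i, -(n : ℤ) ≤ v.1 i ∧ v.1 i < n := by
  simp [FN, Finset.mem_product, Fintype.mem_piFinset]

theorem mem_EN (n : ℕ) (e : Vx 2 × Fin 3) : e ∈ EN n ↔ TT.s e ∈ bx 2 n ∧ TT.r e ∈ bx 2 n := by
  rw [EN, Finset.mem_filter, Finset.mem_product]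
  exact ⟨fun h => ⟨h.1.1, h.2⟩, fun h => ⟨⟨h.1, Finset.mem_univ _⟩, h.2⟩⟩

theorem POI_bx (n : ℕ) (a b : ℤ) :
    (![a, b] : Vx 2) ∈ bx 2 n ↔ (-(n : ℤ) ≤ a ∧ a ≤ n) ∧ (-(n : ℤ) ≤ b ∧ b ≤ n) := by
  simp [bx, Fintype.mem_piFinset, Fin.forall_fin_two]

theorem POI_fn (n : ℕ) (a b : ℤ) (k : Bool) :
    ((![a, b], k) : Vx 2 × Bool) ∈ FN n ↔
      (-(n : ℤ) ≤ a ∧ a < n) ∧ (-(n : ℤ) ≤ b ∧ b < n) := by
  rw [mem_FN, Fin.forall_fin_two]
  simp

theorem POI_r0 (a b : ℤ) : TT.r (![a, b], 0) = ![a + 1, b] := by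
  ext i
  fin_cases i <;> simp [TT]

theorem POI_r1 (a b : ℤ) : TT.r (![a, b], 1) = ![a, b + 1] := by
  ext i
  fin_cases i <;> simp [TT]

theorem POI_r2 (a b : ℤ) : TT.r (![a, b], 2) = ![a + 1, b + 1] := by
  ext i
  fin_cases i <;> simp [TT]

theorem POI_en0 (n : ℕ) (a b : ℤ) : ((![a, b], 0) : Vx 2 × Fin 3) ∈ EN n ↔
    (-(n : ℤ) ≤ a ∧ a < n) ∧ (-(n : ℤ) ≤ b ∧ b ≤ n) := by
  rw [mem_EN, POI_r0]
  change (![a, b] : Vx 2) ∈ bx 2 n ∧ _ ↔ _
  rw [POI_bx, POI_bx]
  omega

theorem POI_en1 (n : ℕ) (a b : ℤ) : ((![a, b], 1) : Vx 2 × Fin 3) ∈ EN n ↔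
    (-(n : ℤ) ≤ a ∧ a ≤ n) ∧ (-(n : ℤ) ≤ b ∧ b < n) := by
  rw [mem_EN, POI_r1]
  change (![a, b] : Vx 2) ∈ bx 2 n ∧ _ ↔ _
  rw [POI_bx, POI_bx]
  omega

theorem POI_en2 (n : ℕ) (a b : ℤ) : ((![a, b], 2) : Vx 2 × Fin 3) ∈ EN n ↔
    (-(n : ℤ) ≤ a ∧ a < n) ∧ (-(n : ℤ) ≤ b ∧ b < n) := by
  rw [mem_EN, POI_r2]
  change (![a, b] : Vx 2) ∈ bx 2 n ∧ _ ↔ _
  rw [POI_bx, POI_bx]
  omega

theorem POI_s0 (a b : ℤ) : HH.gr.s (![a, b], 0) = (![a, b], false) := by
  change (![a, b] + 0, false) = (![a, b], false)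
  rw [add_zero]

theorem POI_t0 (a b : ℤ) : HH.gr.r (![a, b], 0) = (![a, b - 1], true) := by
  change (![a, b] + -Pi.single 1 1, true) = (![a, b - 1], true)
  congr 1
  ext i
  fin_cases i <;> simp [sub_eq_add_neg]

theorem POI_s1 (a b : ℤ) : HH.gr.s (![a, b], 1) = (![a - 1, b], false) := by
  change (![a, b] + -Pi.single 0 1, false) = (![a - 1, b], false)
  congr 1
  ext i
  fin_cases i <;> simp [sub_eq_add_neg]

theorem POI_t1 (a b : ℤ) : HH.gr.r (![a, b], 1) = (![a, b], true) := by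
  change (![a, b] + 0, true) = (![a, b], true)
  rw [add_zero]

theorem POI_s2 (a b : ℤ) : HH.gr.s (![a, b], 2) = (![a, b], true) := by
  change (![a, b] + 0, true) = (![a, b], true)
  rw [add_zero]

theorem POI_t2 (a b : ℤ) : HH.gr.r (![a, b], 2) = (![a, b], false) := by
  change (![a, b] + 0, false) = (![a, b], false)
  rw [add_zero]

theorem POI_dh0 (h : Vx 2 × Bool → ℤ) (a b : ℤ) :
    dh h (![a, b], 0) = h (![a, b], false) - h (![a, b - 1], true) := by
  rw [dh, POI_s0, POI_t0]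

theorem POI_dh1 (h : Vx 2 × Bool → ℤ) (a b : ℤ) :
    dh h (![a, b], 1) = h (![a - 1, b], false) - h (![a, b], true) := by
  rw [dh, POI_s1, POI_t1]

theorem POI_dh2 (h : Vx 2 × Bool → ℤ) (a b : ℤ) :
    dh h (![a, b], 2) = h (![a, b], true) - h (![a, b], false) := by
  rw [dh, POI_s2, POI_t2]

theorem POI_eta (x : Vx 2) : ∃ a b : ℤ, x = ![a, b] :=
  ⟨x 0, x 1, by ext i; fin_cases i <;> rfl⟩

/-- the edges of the box are the edges of `HH.gr` touching `FN n`, and the box is anchored. -/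
theorem FN_Bd (n : ℕ) : Bd HH.gr (FN n) (EN n) := by
  have hmem : ∀ e, e ∈ EN n ↔ HH.gr.s e ∈ FN n ∨ HH.gr.r e ∈ FN n := by
    rintro ⟨x, k⟩
    obtain ⟨a, b, rfl⟩ := POI_eta x
    fin_cases k
    · change (![a, b], (0 : Fin 3)) ∈ EN n ↔ HH.gr.s (![a, b], 0) ∈ FN n ∨ HH.gr.r (![a, b], 0) ∈ FN n
      rw [POI_en0, POI_s0, POI_t0, POI_fn, POI_fn]
      omega
    · change (![a, b], (1 : Fin 3)) ∈ EN n ↔ HH.gr.s (![a, b], 1) ∈ FN n ∨ HH.gr.r (![a, b], 1) ∈ FN n
      rw [POI_en1, POI_s1, POI_t1, POI_fn, POI_fn]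
      omega
    · change (![a, b], (2 : Fin 3)) ∈ EN n ↔ HH.gr.s (![a, b], 2) ∈ FN n ∨ HH.gr.r (![a, b], 2) ∈ FN n
      rw [POI_en2, POI_s2, POI_t2, POI_fn, POI_fn]
      omega
  refine ⟨hmem, ?_⟩
  have key : ∀ (m : ℕ) (a b : ℤ), a = -(n : ℤ) - 1 + m → a < n → -(n : ℤ) ≤ b → b < n →
      HH.gr.Conn (EN n : Set (Vx 2 × Fin 3)) (![a, b], false) (![-(n : ℤ) - 1, b], false) := by
    intro m
    induction m with
    | zero =>
      intro a b ha _ _ _
      rw [ha]
      simp only [Nat.cast_zero, add_zero]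
      exact conn_refl _ _ _
    | succ m ih =>
      intro a b ha h1 h2 h3
      have h4 := ih (a - 1) b (by rw [ha]; push_cast; ring) (by omega) h2 h3
      have he2 : ((![a, b], 2) : Vx 2 × Fin 3) ∈ (EN n : Set (Vx 2 × Fin 3)) := by
        rw [Finset.mem_coe, POI_en2]
        push_cast at ha
        omega
      have he1 : ((![a, b], 1) : Vx 2 × Fin 3) ∈ (EN n : Set (Vx 2 × Fin 3)) := by
        rw [Finset.mem_coe, POI_en1]
        push_cast at ha
        omega
      have h5 := conn_symm _ (PG6_edge HH.gr _ he2 (POI_s2 a b) (POI_t2 a b))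
      have h6 := conn_symm _ (PG6_edge HH.gr _ he1 (POI_s1 a b) (POI_t1 a b))
      exact conn_trans _ (conn_trans _ h5 h6) h4
  rintro ⟨x, k⟩ hv
  obtain ⟨a, b, rfl⟩ := POI_eta x
  rw [POI_fn] at hv
  refine ⟨(![-(n : ℤ) - 1, b], false), ?_, ?_⟩
  · rw [POI_fn]
    omega
  · have hc : HH.gr.Conn (EN n : Set (Vx 2 × Fin 3)) (![a, b], false) (![-(n : ℤ) - 1, b], false) :=
      key (a + n + 1).toNat a b (by omega) hv.1.2 hv.2.1 hv.2.2
    cases k
    · exact hc
    · have he2 : ((![a, b], 2) : Vx 2 × Fin 3) ∈ (EN n : Set (Vx 2 × Fin 3)) := by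
        rw [Finset.mem_coe, POI_en2]
        omega
      exact conn_trans _ (PG6_edge HH.gr _ he2 (POI_s2 a b) (POI_t2 a b)) hc

theorem POI_eta2 (x : Vx 2) : x = ![x 0, x 1] := by
  ext i
  fin_cases i <;> rfl

theorem POI_tel (n : ℕ) (a : ℤ) (ha : -(n : ℤ) ≤ a) (g : ℤ → ℤ) :
    ∑ x ∈ Icc (-(n : ℤ)) a, (g (x - 1) - g x) = g (-(n : ℤ) - 1) - g a := by
  obtain ⟨m, rfl⟩ : ∃ m : ℕ, a = -(n : ℤ) + m := ⟨(a + n).toNat, by omega⟩
  clear ha
  induction m with
  | zero => simp
  | succ m ih =>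
    have h1 : Icc (-(n : ℤ)) (-(n : ℤ) + (m + 1 : ℕ)) =
        insert (-(n : ℤ) + (m + 1 : ℕ)) (Icc (-(n : ℤ)) (-(n : ℤ) + m)) := by
      ext x
      simp only [mem_Icc, mem_insert]
      push_cast
      omega
    rw [h1, sum_insert (by simp), ih]
    have h2 : -(n : ℤ) + (m + 1 : ℕ) - 1 = -(n : ℤ) + m := by
      push_cast
      ring
    rw [h2]
    ring

theorem POI_tel2 (a : ℤ) (n : ℤ) (ha : a ≤ n) (g : ℤ → ℤ) :
    ∑ x ∈ Ioc a n, (g (x - 1) - g x) = g a - g n := by
  obtain ⟨m, rfl⟩ : ∃ m : ℕ, n = a + m := ⟨(n - a).toNat, by omega⟩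
  clear ha
  induction m with
  | zero => simp
  | succ m ih =>
    have h1 : Ioc a (a + (m + 1 : ℕ)) = insert (a + (m + 1 : ℕ)) (Ioc a (a + m)) := by
      ext x
      simp only [mem_Ioc, mem_insert]
      push_cast
      omega
    rw [h1, sum_insert (by simp), ih]
    have h2 : a + (m + 1 : ℕ) - 1 = a + m := by
      push_cast
      ring
    rw [h2]
    ring

theorem left_path (n : ℕ) (h : Vx 2 × Bool → ℤ) (h0 : ∀ v, v ∉ FN n → h v = 0) (v : Vx 2 × Bool)
    (hv : v ∈ FN n) :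
    h v = -∑ x ∈ Icc (-(n : ℤ)) (v.1 0), (dh h (![x, v.1 1], 1) +
      (if v.2 = true ∧ x = v.1 0 then 0 else dh h (![x, v.1 1], 2))) := by
  obtain ⟨x0, k⟩ := v
  obtain ⟨a, b, rfl⟩ := POI_eta x0
  rw [POI_fn] at hv
  change h (![a, b], k) = -∑ x ∈ Icc (-(n : ℤ)) a, (dh h (![x, b], 1) +
      (if k = true ∧ x = a then 0 else dh h (![x, b], 2)))
  have hz : h (![-(n : ℤ) - 1, b], false) = 0 := h0 _ (by rw [POI_fn]; omega)
  have h1 : ∑ x ∈ Icc (-(n : ℤ)) a, (dh h (![x, b], 1) + dh h (![x, b], 2)) =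
      - h (![a, b], false) := by
    have h2 := POI_tel n a hv.1.1 (fun x => h (![x, b], false))
    rw [hz, zero_sub] at h2
    rw [← h2]
    apply sum_congr rfl
    intro x _
    rw [POI_dh1, POI_dh2]
    ring
  cases k
  · simp only [Bool.false_eq_true, false_and, if_false]
    rw [h1, neg_neg]
  · have h3 : ∀ x ∈ Icc (-(n : ℤ)) a, (dh h (![x, b], 1) +
        (if true = true ∧ x = a then 0 else dh h (![x, b], 2))) =
        (dh h (![x, b], 1) + dh h (![x, b], 2)) - (if x = a then dh h (![a, b], 2) else 0) := by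
      intro x _
      by_cases hx : x = a
      · subst hx
        simp
      · simp [hx]
    rw [sum_congr rfl h3, sum_sub_distrib, h1, sum_ite_eq', if_pos (by rw [mem_Icc]; omega),
      POI_dh2]
    ring

theorem right_path (n : ℕ) (h : Vx 2 × Bool → ℤ) (h0 : ∀ v, v ∉ FN n → h v = 0) (v : Vx 2 × Bool)
    (hv : v ∈ FN n) :
    h v = (∑ x ∈ Ioc (v.1 0) n, (dh h (![x, v.1 1], 1) +
      dh h (![x, v.1 1], 2))) + (if v.2 = true then dh h (v.1, 2) else 0) := by
  obtain ⟨x0, k⟩ := v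
  obtain ⟨a, b, rfl⟩ := POI_eta x0
  rw [POI_fn] at hv
  change h (![a, b], k) = (∑ x ∈ Ioc a (n : ℤ), (dh h (![x, b], 1) +
      dh h (![x, b], 2))) + (if k = true then dh h (![a, b], 2) else 0)
  have hz : h (![(n : ℤ), b], false) = 0 := h0 _ (by rw [POI_fn]; omega)
  have h1 : ∑ x ∈ Ioc a (n : ℤ), (dh h (![x, b], 1) + dh h (![x, b], 2)) =
      h (![a, b], false) := by
    have h2 := POI_tel2 a n (by omega) (fun x => h (![x, b], false))
    rw [hz, sub_zero] at h2
    rw [← h2]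
    apply sum_congr rfl
    intro x _
    rw [POI_dh1, POI_dh2]
    ring
  rw [h1, POI_dh2]
  cases k
  · simp
  · simp

/-- extension of a flow by zero. -/
noncomputable def POI_x (n : ℕ) (J : ↥(EN n) → ℤ) (e : Vx 2 × Fin 3) : ℤ :=
  if he : e ∈ EN n then J ⟨e, he⟩ else 0

theorem POI_x0 (n : ℕ) (J : ↥(EN n) → ℤ) (e : Vx 2 × Fin 3) (he : e ∉ EN n) : POI_x n J e = 0 :=
  dif_neg he

theorem POI_xc (n : ℕ) (J : ↥(EN n) → ℤ) (e : ↥(EN n)) : POI_x n J e.1 = J e := by
  rw [POI_x, dif_pos e.2]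

theorem POI_sum (n : ℕ) (J : ↥(EN n) → ℤ) (p : Vx 2 × Fin 3 → Vx 2) (v : Vx 2)
    (g : Fin 3 → Vx 2) (hg : ∀ e : Vx 2 × Fin 3, p e = v ↔ e = (g e.2, e.2)) :
    ∑ e : ↥(EN n), (if p e.1 = v then J e else 0) = ∑ k, POI_x n J (g k, k) := by
  have h1 : ∀ e : ↥(EN n), (if p e.1 = v then J e else 0) =
      ∑ k, if e.1 = (g k, k) then POI_x n J e.1 else 0 := by
    intro e
    rw [Finset.sum_eq_single e.1.2]
    · by_cases h : p e.1 = v
      · rw [if_pos h, if_pos ((hg _).1 h), POI_xc]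
      · rw [if_neg h, if_neg (fun h' => h ((hg _).2 h'))]
    · intro k _ hk
      rw [if_neg]
      intro h
      apply hk
      rw [h]
    · intro h
      exact absurd (mem_univ _) h
  rw [sum_congr rfl (fun e _ => h1 e), sum_comm]
  apply sum_congr rfl
  intro k _
  rw [Finset.sum_coe_sort (EN n) (fun e => if e = (g k, k) then POI_x n J e else 0), sum_ite_eq']
  by_cases h : (g k, k) ∈ EN n
  · rw [if_pos h]
  · rw [if_neg h, POI_x0 n J _ h]

theorem POI_dv (n : ℕ) (J : ↥(EN n) → ℤ) (a b : ℤ) (hv : (![a, b] : Vx 2) ∈ bx 2 n) :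
    dv (TB n) J ⟨![a, b], hv⟩ =
      (POI_x n J (![a - 1, b], 0) + POI_x n J (![a, b - 1], 1) + POI_x n J (![a - 1, b - 1], 2)) -
        (POI_x n J (![a, b], 0) + POI_x n J (![a, b], 1) + POI_x n J (![a, b], 2)) := by
  have h1 : dv (TB n) J ⟨![a, b], hv⟩ = (∑ e : ↥(EN n), (if TT.r e.1 = ![a, b] then J e else 0)) -
      ∑ e : ↥(EN n), (if TT.s e.1 = ![a, b] then J e else 0) := by
    rw [dv, sum_sub_distrib]
    congr 1
    · apply sum_congr rfl
      intro e _
      congr 1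
      exact propext ⟨fun h => congrArg Subtype.val h, fun h => Subtype.ext h⟩
    · apply sum_congr rfl
      intro e _
      congr 1
      exact propext ⟨fun h => congrArg Subtype.val h, fun h => Subtype.ext h⟩
  rw [h1, POI_sum n J TT.r ![a, b] ![![a - 1, b], ![a, b - 1], ![a - 1, b - 1]],
    POI_sum n J TT.s ![a, b] ![![a, b], ![a, b], ![a, b]]]
  · simp [Fin.sum_univ_three]
  · rintro ⟨x, k⟩
    obtain ⟨c, d, rfl⟩ := POI_eta x
    change (![c, d] : Vx 2) = ![a, b] ↔ _
    fin_cases k <;> simp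
  · rintro ⟨x, k⟩
    obtain ⟨c, d, rfl⟩ := POI_eta x
    fin_cases k
    · change TT.r (![c, d], 0) = ![a, b] ↔ _
      rw [POI_r0]
      simp
      omega
    · change TT.r (![c, d], 1) = ![a, b] ↔ _
      rw [POI_r1]
      simp
      omega
    · change TT.r (![c, d], 2) = ![a, b] ↔ _
      rw [POI_r2]
      simp
      omega

theorem POI_dh_off (n : ℕ) (h : Vx 2 × Bool → ℤ) (h0 : ∀ v, v ∉ FN n → h v = 0) (e : Vx 2 × Fin 3)
    (he : e ∉ EN n) : dh h e = 0 := by
  rw [(FN_Bd n).mem, not_or] at he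
  rw [dh, h0 _ he.1, h0 _ he.2, sub_zero]

theorem POI_ex0 (n : ℕ) (h : ↥(FN n) → ℤ) (v : Vx 2 × Bool) (hv : v ∉ FN n) : ex h v = 0 :=
  dif_neg hv

theorem POI_exc (n : ℕ) (h : ↥(FN n) → ℤ) (v : ↥(FN n)) : ex h v.1 = h v := by
  rw [ex, dif_pos v.2]

theorem POI_div (n : ℕ) (h : ↥(FN n) → ℤ) (v : ↥(bx 2 n)) :
    dv (TB n) (fun e => dh (ex h) e.1) v = 0 := by
  obtain ⟨x, hx⟩ := v
  obtain ⟨a, b, rfl⟩ := POI_eta x
  have h1 : ∀ e, POI_x n (fun e : ↥(EN n) => dh (ex h) e.1) e = dh (ex h) e := by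
    intro e
    by_cases he : e ∈ EN n
    · rw [POI_x, dif_pos he]
    · rw [POI_x0 n _ e he, POI_dh_off n (ex h) (POI_ex0 n h) e he]
  rw [POI_dv, h1, h1, h1, h1, h1, h1]
  rw [POI_dh0, POI_dh0, POI_dh1, POI_dh1, POI_dh2, POI_dh2]
  ring

/-- partial row sums. -/
noncomputable def POI_S (n : ℕ) (J : ↥(EN n) → ℤ) (k : Fin 3) (a b : ℤ) : ℤ :=
  ∑ x ∈ Icc (-(n : ℤ)) a, POI_x n J (![x, b], k)

theorem POI_S_lt (n : ℕ) (J : ↥(EN n) → ℤ) (k : Fin 3) (a b : ℤ) (ha : a < -(n : ℤ)) :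
    POI_S n J k a b = 0 := by
  rw [POI_S, Finset.Icc_eq_empty (by omega), sum_empty]

theorem POI_lt (n : ℕ) (J : ↥(EN n) → ℤ) (k : Fin 3) (a b : ℤ)
    (h : a < -(n : ℤ) ∨ b < -(n : ℤ)) : POI_x n J (![a, b], k) = 0 := by
  apply POI_x0
  fin_cases k
  · change ¬ (![a, b], (0 : Fin 3)) ∈ EN n
    rw [POI_en0]
    omega
  · change ¬ (![a, b], (1 : Fin 3)) ∈ EN n
    rw [POI_en1]
    omega
  · change ¬ (![a, b], (2 : Fin 3)) ∈ EN n
    rw [POI_en2]
    omega

theorem POI_S_rec (n : ℕ) (J : ↥(EN n) → ℤ) (k : Fin 3) (a b : ℤ) :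
    POI_S n J k a b = POI_S n J k (a - 1) b + POI_x n J (![a, b], k) := by
  by_cases ha : a < -(n : ℤ)
  · rw [POI_S_lt n J k a b ha, POI_S_lt n J k (a - 1) b (by omega), POI_lt n J k a b (Or.inl ha),
      add_zero]
  · have h1 : Icc (-(n : ℤ)) a = insert a (Icc (-(n : ℤ)) (a - 1)) := by
      ext x
      simp only [mem_Icc, mem_insert]
      omega
    rw [POI_S, h1, sum_insert (by simp), POI_S, add_comm]

theorem POI_S_b (n : ℕ) (J : ↥(EN n) → ℤ) (k : Fin 3) (hk : k ≠ 0) (a b : ℤ)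
    (h : b < -(n : ℤ) ∨ (n : ℤ) ≤ b) : POI_S n J k a b = 0 := by
  rw [POI_S]
  apply sum_eq_zero
  intro x _
  apply POI_x0
  fin_cases k
  · exact absurd rfl hk
  · change ¬ (![x, b], (1 : Fin 3)) ∈ EN n
    rw [POI_en1]
    omega
  · change ¬ (![x, b], (2 : Fin 3)) ∈ EN n
    rw [POI_en2]
    omega

theorem POI_D (n : ℕ) (J : ↥(EN n) → ℤ) (hJ : ∀ v, dv (TB n) J v = 0) (a b : ℤ) :
    (POI_x n J (![a - 1, b], 0) + POI_x n J (![a, b - 1], 1) + POI_x n J (![a - 1, b - 1], 2)) -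
        (POI_x n J (![a, b], 0) + POI_x n J (![a, b], 1) + POI_x n J (![a, b], 2)) = 0 := by
  by_cases hv : (![a, b] : Vx 2) ∈ bx 2 n
  · rw [← POI_dv n J a b hv]
    exact hJ _
  · rw [POI_bx] at hv
    rw [POI_x0 n J (![a - 1, b], 0) (by rw [POI_en0]; omega),
      POI_x0 n J (![a, b - 1], 1) (by rw [POI_en1]; omega),
      POI_x0 n J (![a - 1, b - 1], 2) (by rw [POI_en2]; omega),
      POI_x0 n J (![a, b], 0) (by rw [POI_en0]; omega),
      POI_x0 n J (![a, b], 1) (by rw [POI_en1]; omega),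
      POI_x0 n J (![a, b], 2) (by rw [POI_en2]; omega)]
    rfl

theorem POI_R (n : ℕ) (J : ↥(EN n) → ℤ) (hJ : ∀ v, dv (TB n) J v = 0) (a b : ℤ) :
    POI_x n J (![a, b], 0) + POI_S n J 1 a b + POI_S n J 2 a b =
      POI_S n J 1 a (b - 1) + POI_S n J 2 (a - 1) (b - 1) := by
  by_cases ha : a < -(n : ℤ)
  · rw [POI_S_lt n J 1 a b ha, POI_S_lt n J 2 a b ha, POI_S_lt n J 1 a (b - 1) ha,
      POI_S_lt n J 2 (a - 1) (b - 1) (by omega), POI_lt n J 0 a b (Or.inl ha)]
    rfl
  · obtain ⟨m, rfl⟩ : ∃ m : ℕ, a = -(n : ℤ) - 1 + m := ⟨(a + n + 1).toNat, by omega⟩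
    clear ha
    induction m with
    | zero =>
      have ha : -(n : ℤ) - 1 + (0 : ℕ) < -(n : ℤ) := by push_cast; omega
      rw [POI_S_lt n J 1 _ b ha, POI_S_lt n J 2 _ b ha, POI_S_lt n J 1 _ (b - 1) ha,
        POI_S_lt n J 2 _ (b - 1) (by omega), POI_lt n J 0 _ b (Or.inl ha)]
      rfl
    | succ m ih =>
      have hD := POI_D n J hJ (-(n : ℤ) - 1 + (m + 1 : ℕ)) b
      have e1 : -(n : ℤ) - 1 + (m + 1 : ℕ) - 1 = -(n : ℤ) - 1 + m := by push_cast; ring
      have h1 := POI_S_rec n J 1 (-(n : ℤ) - 1 + (m + 1 : ℕ)) b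
      have h2 := POI_S_rec n J 2 (-(n : ℤ) - 1 + (m + 1 : ℕ)) b
      have h3 := POI_S_rec n J 1 (-(n : ℤ) - 1 + (m + 1 : ℕ)) (b - 1)
      have h4 := POI_S_rec n J 2 (-(n : ℤ) - 1 + m) (b - 1)
      rw [e1] at hD h1 h2 h3
      rw [e1]
      linarith

theorem POI_T (n : ℕ) (J : ↥(EN n) → ℤ) (hJ : ∀ v, dv (TB n) J v = 0) (a b : ℤ)
    (ha : (n : ℤ) ≤ a) : POI_S n J 1 a b + POI_S n J 2 a b = 0 := by
  by_cases hb : b < -(n : ℤ)
  · rw [POI_S_b n J 1 (by decide) a b (Or.inl hb), POI_S_b n J 2 (by decide) a b (Or.inl hb)]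
    rfl
  · obtain ⟨m, rfl⟩ : ∃ m : ℕ, b = -(n : ℤ) - 1 + m := ⟨(b + n + 1).toNat, by omega⟩
    clear hb
    induction m with
    | zero =>
      have hb : -(n : ℤ) - 1 + (0 : ℕ) < -(n : ℤ) := by push_cast; omega
      rw [POI_S_b n J 1 (by decide) a _ (Or.inl hb), POI_S_b n J 2 (by decide) a _ (Or.inl hb)]
      rfl
    | succ m ih =>
      have hR := POI_R n J hJ a (-(n : ℤ) - 1 + (m + 1 : ℕ))
      have e1 : -(n : ℤ) - 1 + (m + 1 : ℕ) - 1 = -(n : ℤ) - 1 + m := by push_cast; ring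
      have h4 := POI_S_rec n J 2 a (-(n : ℤ) - 1 + m)
      have h5 : POI_x n J (![a, -(n : ℤ) - 1 + m], 2) = 0 :=
        POI_x0 n J _ (by rw [POI_en2]; omega)
      have h6 : POI_x n J (![a, -(n : ℤ) - 1 + (m + 1 : ℕ)], 0) = 0 :=
        POI_x0 n J _ (by rw [POI_en0]; omega)
      rw [e1] at hR
      linarith

/-- the heights of a flow. -/
noncomputable def POI_h (n : ℕ) (J : ↥(EN n) → ℤ) (v : Vx 2 × Bool) : ℤ :=
  -POI_S n J 1 (v.1 0) (v.1 1) -
    (if v.2 = true then POI_S n J 2 (v.1 0 - 1) (v.1 1) else POI_S n J 2 (v.1 0) (v.1 1))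

theorem POI_hf (n : ℕ) (J : ↥(EN n) → ℤ) (a b : ℤ) :
    POI_h n J (![a, b], false) = -POI_S n J 1 a b - POI_S n J 2 a b := by
  simp [POI_h]

theorem POI_ht (n : ℕ) (J : ↥(EN n) → ℤ) (a b : ℤ) :
    POI_h n J (![a, b], true) = -POI_S n J 1 a b - POI_S n J 2 (a - 1) b := by
  simp [POI_h]

theorem POI_h0 (n : ℕ) (J : ↥(EN n) → ℤ) (hJ : ∀ v, dv (TB n) J v = 0) (v : Vx 2 × Bool)
    (hv : v ∉ FN n) : POI_h n J v = 0 := by
  obtain ⟨x, k⟩ := v
  obtain ⟨a, b, rfl⟩ := POI_eta x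
  rw [POI_fn] at hv
  by_cases ha : a < -(n : ℤ)
  · cases k
    · rw [POI_hf, POI_S_lt n J 1 a b ha, POI_S_lt n J 2 a b ha]
      rfl
    · rw [POI_ht, POI_S_lt n J 1 a b ha, POI_S_lt n J 2 (a - 1) b (by omega)]
      rfl
  · by_cases hb : b < -(n : ℤ) ∨ (n : ℤ) ≤ b
    · cases k
      · rw [POI_hf, POI_S_b n J 1 (by decide) a b hb, POI_S_b n J 2 (by decide) a b hb]
        rfl
      · rw [POI_ht, POI_S_b n J 1 (by decide) a b hb, POI_S_b n J 2 (by decide) (a - 1) b hb]
        rfl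
    · have ha' : (n : ℤ) ≤ a := by omega
      have h1 := POI_T n J hJ a b ha'
      cases k
      · rw [POI_hf]
        linarith
      · rw [POI_ht]
        have h2 := POI_S_rec n J 2 a b
        have h3 : POI_x n J (![a, b], 2) = 0 := POI_x0 n J _ (by rw [POI_en2]; omega)
        linarith

theorem POI_dhh (n : ℕ) (J : ↥(EN n) → ℤ) (hJ : ∀ v, dv (TB n) J v = 0) (e : Vx 2 × Fin 3) :
    dh (POI_h n J) e = POI_x n J e := by
  obtain ⟨x, k⟩ := e
  obtain ⟨a, b, rfl⟩ := POI_eta x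
  fin_cases k
  · change dh (POI_h n J) (![a, b], 0) = POI_x n J (![a, b], 0)
    have h1 := POI_R n J hJ a b
    rw [POI_dh0, POI_hf, POI_ht]
    linarith
  · change dh (POI_h n J) (![a, b], 1) = POI_x n J (![a, b], 1)
    have h1 := POI_S_rec n J 1 a b
    rw [POI_dh1, POI_hf, POI_ht]
    linarith
  · change dh (POI_h n J) (![a, b], 2) = POI_x n J (![a, b], 2)
    have h1 := POI_S_rec n J 2 a b
    rw [POI_dh2, POI_hf, POI_ht]
    linarith

/-- integer flows without divergence in the triangular box are differences of heights. -/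
theorem poi (n : ℕ) :
    ∃ φ : (↥(FN n) → ℤ) ≃ {J : ↥(EN n) → ℤ // ∀ v, dv (TB n) J v = 0},
      ∀ h e, (φ h).1 e = dh (ex h) e.1 := by
  let f : (↥(FN n) → ℤ) → {J : ↥(EN n) → ℤ // ∀ v, dv (TB n) J v = 0} := fun h =>
    ⟨fun e => dh (ex h) e.1, fun v => POI_div n h v⟩
  have hf : Function.Bijective f := by
    constructor
    · intro h h' hh
      have h1 : ∀ e, dh (ex h) e = dh (ex h') e := by
        intro e
        by_cases he : e ∈ EN n
        · exact congrFun (congrArg Subtype.val hh) ⟨e, he⟩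
        · rw [POI_dh_off n (ex h) (POI_ex0 n h) e he, POI_dh_off n (ex h') (POI_ex0 n h') e he]
      funext v
      rw [← POI_exc n h v, ← POI_exc n h' v, left_path n (ex h) (POI_ex0 n h) v.1 v.2,
        left_path n (ex h') (POI_ex0 n h') v.1 v.2]
      simp only [h1]
    · rintro ⟨J, hJ⟩
      refine ⟨fun v => POI_h n J v.1, Subtype.ext ?_⟩
      funext e
      have h1 : ex (fun v : ↥(FN n) => POI_h n J v.1) = POI_h n J := by
        funext v
        by_cases hv : v ∈ FN n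
        · rw [ex, dif_pos hv]
        · rw [POI_ex0 n _ v hv, POI_h0 n J hJ v hv]
      change dh (ex (fun v : ↥(FN n) => POI_h n J v.1)) e.1 = J e
      rw [h1, POI_dhh n J hJ, POI_xc]
  exact ⟨Equiv.ofBijective f hf, fun h e => rfl⟩

end H82.BX

end S_H82_BX_POI
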