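import Mathlib
import Pool.Agent.H82.BXM.G02
import Pool.Agent.H82.BXM.G04

/-! MP_26628e_mp: this file joins several modules to save build time. -/

section S_H82_BX_GI6

/-!
# GI6: monotonicity of conditional expectations (main monotonicity statement)

`AA = ∏_j cosh la · ∏_j cosh lb`, so
`SB(f) = ∑_{c = c0 on A} wv(c) Ls(c, bt o0) Lt(c, tB) g(c, o0)` with
`g(c, o0) = fo G B (rr c) o0 (f c) / fo G B (rr c) o0 1` (`fo_sum`: `(∏_{e∉B} ∏ cosh la) · fo(1) = Ls`).
`rr c` is monotone in `c` (`0 ≤ rr ≤ 1`), so `g(c, o0) ≤ g(c', o0')` for `c ≤ c'`, `o0 ≤ o0'` on `B` (`fo_mono`, `f` increasing).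
Holley's inequality on the finite distributive lattice `SV V E → Fin (k+1)` for
`f1 c = 1[c = c0 on A] wv(c) Ls(c, bt o0) Lt(c, tB)`, `f2 c = 1[c = c0' on A] wv(c) Ls(c, bt o0') Lt(c, tB')`
(normalised): `wv c wv c' = wv (c ⊓ c') wv (c ⊔ c')` (product of functions of one coordinate), `Ls_super`, `Lt_super`
(`bt o0 ⊓ bt o0' = bt o0` on `B`; only the values on `B` matter).  The observable `g` has to be made nonnegative by a constant.
`asc`: `B = ∅`, `A = ∅`: `fkg` for the weight `wv Ls Lt` on the `c` and `fo_fkg` for the bits.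
-/

set_option autoImplicit false

open Finset MeasureTheory

namespace H82.BX

open H82.IC

variable {V E : Type} [Fintype V] [DecidableEq V] [Fintype E] [DecidableEq E]

theorem GI6_tanh_mono {x y : ℝ} (h : x ≤ y) : Real.tanh x ≤ Real.tanh y := by
  rw [Real.tanh_eq_sinh_div_cosh, Real.tanh_eq_sinh_div_cosh,
    div_le_div_iff₀ (Real.cosh_pos x) (Real.cosh_pos y)]
  have h1 := Real.sinh_sub y x
  have h2 : 0 ≤ Real.sinh (y - x) := Real.sinh_nonneg_iff.2 (sub_nonneg.2 h)
  rw [h1] at h2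
  linarith [mul_comm (Real.cosh y) (Real.sinh x)]

theorem GI6_tanh_pos {x : ℝ} (h : 0 < x) : 0 < Real.tanh x := by
  rw [Real.tanh_eq_sinh_div_cosh]
  exact div_pos (Real.sinh_pos_iff.2 h) (Real.cosh_pos x)

theorem GI6_three {f : Fin 3 → ℝ} (h0 : ∀ j, 0 < f j) (h1 : ∀ j, f j < 1) :
    0 < ∏ j, f j ∧ ∏ j, f j < 1 := by
  refine ⟨Finset.prod_pos fun j _ => h0 j, ?_⟩
  rw [Fin.prod_univ_three]
  have a0 := h0 0
  have a1 := h0 1
  have a2 := h0 2
  have b0 := h1 0
  have b1 := h1 1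
  have b2 := h1 2
  have c1 : f 0 * f 1 < 1 := mul_lt_one_of_nonneg_of_lt_one_left a0.le b0 b1.le
  exact mul_lt_one_of_nonneg_of_lt_one_left (mul_pos a0 a1).le c1 b2.le

theorem GI6_la_pos (G : Gr V E) (M : Al) (hM : M.Ok) (b : ℝ) (hb : 0 < b)
    (c : SV V E → Fin (M.k + 1)) (l : E × Fin 3) : 0 < la G M b c l :=
  mul_pos hb (mul_pos (hM.cc0 _) (hM.cc0 _))

theorem GI6_lb_pos (G : Gr V E) (M : Al) (hM : M.Ok) (b : ℝ) (hb : 0 < b)
    (c : SV V E → Fin (M.k + 1)) (l : E × Fin 3) : 0 < lb G M b c l :=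
  mul_pos hb (mul_pos (hM.ss0 _) (hM.ss0 _))

theorem rr_bd (G : Gr V E) (M : Al) (hM : M.Ok) (b : ℝ) (hb : 0 < b) (c : SV V E → Fin (M.k + 1)) (e : E) :
    0 < rr G M b c e ∧ rr G M b c e < 1 ∧ 0 < tt G M b c e ∧ tt G M b c e < 1 := by
  have h1 := GI6_three (f := fun j => Real.tanh (la G M b c (e, j)))
    (fun j => GI6_tanh_pos (GI6_la_pos G M hM b hb c (e, j))) (fun j => Real.tanh_lt_one _)
  have h2 := GI6_three (f := fun j => Real.tanh (lb G M b c (e, j)))
    (fun j => GI6_tanh_pos (GI6_lb_pos G M hM b hb c (e, j))) (fun j => Real.tanh_lt_one _)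
  exact ⟨h1.1, h1.2, h2.1, h2.2⟩

theorem rr_mono (G : Gr V E) (M : Al) (hM : M.Ok) (b : ℝ) (hb : 0 < b) (c c' : SV V E → Fin (M.k + 1))
    (h : c ≤ c') (e : E) : rr G M b c e ≤ rr G M b c' e ∧ tt G M b c' e ≤ tt G M b c e := by
  constructor
  · refine Finset.prod_le_prod (fun j _ => (GI6_tanh_pos (GI6_la_pos G M hM b hb c (e, j))).le)
      fun j _ => GI6_tanh_mono ?_
    exact mul_le_mul_of_nonneg_left (mul_le_mul (hM.mono (h _)) (hM.mono (h _)) (hM.cc0 _).le
      (hM.cc0 _).le) hb.le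
  · refine Finset.prod_le_prod (fun j _ => (GI6_tanh_pos (GI6_lb_pos G M hM b hb c' (e, j))).le)
      fun j _ => GI6_tanh_mono ?_
    exact mul_le_mul_of_nonneg_left (mul_le_mul (hM.anti (h _)) (hM.anti (h _)) (hM.ss0 _).le
      (hM.ss0 _).le) hb.le

theorem GI6_bt (o : E → Bool) (e : E) : 0 ≤ bt o e ∧ bt o e ≤ 1 := by
  unfold bt
  split_ifs <;> norm_num

theorem GI6_wv_pos (M : Al) (hM : M.Ok) (l : ℝ) (c : SV V E → Fin (M.k + 1)) : 0 < wv M l c :=
  Finset.prod_pos fun w _ => mul_pos (hM.nu0 _) (Real.exp_pos _)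

theorem GI6_AA_pos (G : Gr V E) (M : Al) (b : ℝ) (c : SV V E → Fin (M.k + 1)) (e : E) :
    0 < AA G M b c e :=
  Finset.prod_pos fun j _ => mul_pos (Real.cosh_pos _) (Real.cosh_pos _)

theorem GI6_bit (G : Gr V E) (M : Al) (hM : M.Ok) (b : ℝ) (hb : 0 < b)
    (c : SV V E → Fin (M.k + 1)) (o : E → Bool) (e : E) :
    0 < (if o e then rr G M b c e else 1 - rr G M b c e) := by
  have h := rr_bd G M hM b hb c e
  split_ifs
  · exact h.1
  · linarith [h.2.1]

theorem W_pos (G : Gr V E) (M : Al) (hM : M.Ok) (b l : ℝ) (hb : 0 < b) (c : SV V E → Fin (M.k + 1))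
    (o : E → Bool) : 0 < W G M b l c o := by
  unfold W
  refine mul_pos (mul_pos (GI6_wv_pos M hM l c) (Finset.prod_pos fun e _ =>
    mul_pos (GI6_AA_pos G M b c e) (GI6_bit G M hM b hb c o e))) (mul_pos ?_ ?_)
  · exact Zv_pos G _ (fun e => (GI6_bt o e).1) (fun e => (GI6_bt o e).2)
  · exact Zv_pos G _ (fun e => (rr_bd G M hM b hb c e).2.2.1.le)
      (fun e => (rr_bd G M hM b hb c e).2.2.2.le)

theorem GI6_Zt_pos (G : Gr V E) (M : Al) (hM : M.Ok) (b : ℝ) (hb : 0 < b)
    (B : Finset E) (tB : E → ℝ) (h0 : ∀ e ∈ B, 0 ≤ tB e) (h1 : ∀ e ∈ B, tB e ≤ 1)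
    (c : SV V E → Fin (M.k + 1)) :
    0 < Zv G (fun e => if e ∈ B then tB e else tt G M b c e) := by
  refine Zv_pos G _ (fun e => ?_) (fun e => ?_)
  · by_cases he : e ∈ B
    · rw [if_pos he]
      exact h0 e he
    · rw [if_neg he]
      exact (rr_bd G M hM b hb c e).2.2.1.le
  · by_cases he : e ∈ B
    · rw [if_pos he]
      exact h1 e he
    · rw [if_neg he]
      exact (rr_bd G M hM b hb c e).2.2.2.le

theorem GI6_Zr_pos (G : Gr V E) (M : Al) (hM : M.Ok) (b : ℝ) (hb : 0 < b)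
    (B : Finset E) (o : E → Bool) (c : SV V E → Fin (M.k + 1)) :
    0 < Zv G (fun e => if e ∈ B then bt o e else rr G M b c e) := by
  refine Zv_pos G _ (fun e => ?_) (fun e => ?_)
  · by_cases he : e ∈ B
    · rw [if_pos he]
      exact (GI6_bt o e).1
    · rw [if_neg he]
      exact (rr_bd G M hM b hb c e).1.le
  · by_cases he : e ∈ B
    · rw [if_pos he]
      exact (GI6_bt o e).2
    · rw [if_neg he]
      exact (rr_bd G M hM b hb c e).2.1.le

theorem GI6_WB_pos (G : Gr V E) (M : Al) (hM : M.Ok) (b l : ℝ) (hb : 0 < b)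
    (B : Finset E) (tB : E → ℝ) (h0 : ∀ e ∈ B, 0 ≤ tB e) (h1 : ∀ e ∈ B, tB e ≤ 1)
    (c : SV V E → Fin (M.k + 1)) (o : E → Bool) : 0 < WB G M b l B tB c o := by
  unfold WB
  refine mul_pos (mul_pos (GI6_wv_pos M hM l c) (Finset.prod_pos fun e _ =>
    mul_pos (GI6_AA_pos G M b c e) (GI6_bit G M hM b hb c o e))) (mul_pos ?_ ?_)
  · exact Zv_pos G _ (fun e => (GI6_bt o e).1) (fun e => (GI6_bt o e).2)
  · exact GI6_Zt_pos G M hM b hb B tB h0 h1 c

theorem SB_pos (G : Gr V E) (M : Al) (hM : M.Ok) (b l : ℝ) (hb : 0 < b) (A : Finset (SV V E))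
    (B : Finset E) (tB : E → ℝ) (h0 : ∀ e ∈ B, 0 ≤ tB e) (h1 : ∀ e ∈ B, tB e ≤ 1)
    (c0 : SV V E → Fin (M.k + 1)) (o0 : E → Bool) :
    0 < SB G M b l A B tB c0 o0 (fun _ _ => 1) := by
  unfold SB
  have hnn : ∀ (c : SV V E → Fin (M.k + 1)) (o : E → Bool),
      0 ≤ (if (∀ w ∈ A, c w = c0 w) ∧ (∀ e ∈ B, o e = o0 e) then
        WB G M b l B tB c o * (1 : ℝ) else 0) := by
    intro c o
    split_ifs
    · exact mul_nonneg (GI6_WB_pos G M hM b l hb B tB h0 h1 c o).le zero_le_one
    · exact le_rfl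
  have h2 : 0 < (if (∀ w ∈ A, c0 w = c0 w) ∧ (∀ e ∈ B, o0 e = o0 e) then
        WB G M b l B tB c0 o0 * (1 : ℝ) else 0) := by
    rw [if_pos ⟨fun _ _ => rfl, fun _ _ => rfl⟩, mul_one]
    exact GI6_WB_pos G M hM b l hb B tB h0 h1 c0 o0
  refine lt_of_lt_of_le h2 ?_
  refine le_trans (Finset.single_le_sum (f := fun o : E → Bool =>
    (if (∀ w ∈ A, c0 w = c0 w) ∧ (∀ e ∈ B, o e = o0 e) then
        WB G M b l B tB c0 o * (1 : ℝ) else 0)) (fun o _ => hnn c0 o) (Finset.mem_univ o0)) ?_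
  exact Finset.single_le_sum (f := fun c : SV V E → Fin (M.k + 1) => ∑ o : E → Bool,
    (if (∀ w ∈ A, c w = c0 w) ∧ (∀ e ∈ B, o e = o0 e) then
        WB G M b l B tB c o * (1 : ℝ) else 0)) (fun c _ => Finset.sum_nonneg fun o _ => hnn c o)
        (Finset.mem_univ c0)

/-- the weight of the moduli. -/
noncomputable def GI6_mu (G : Gr V E) (M : Al) (b l : ℝ) (A : Finset (SV V E)) (B : Finset E)
    (tB : E → ℝ) (c0 : SV V E → Fin (M.k + 1)) (o0 : E → Bool) (c : SV V E → Fin (M.k + 1)) : ℝ :=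
  if (∀ w ∈ A, c w = c0 w) then wv M l c * Ls G M b B c (bt o0) * Lt G M b B c tB else 0

/-- the conditional expectation given the moduli. -/
noncomputable def GI6_g (G : Gr V E) (M : Al) (b : ℝ) (B : Finset E) (o0 : E → Bool)
    (f : (SV V E → Fin (M.k + 1)) → (E → Bool) → ℝ) (c : SV V E → Fin (M.k + 1)) : ℝ :=
  fo G B (rr G M b c) o0 (f c) / fo G B (rr G M b c) o0 (fun _ => 1)

theorem GI6_fo_pos (G : Gr V E) (M : Al) (hM : M.Ok) (b : ℝ) (hb : 0 < b)
    (B : Finset E) (o0 : E → Bool) (c : SV V E → Fin (M.k + 1)) :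
    0 < fo G B (rr G M b c) o0 (fun _ => 1) := by
  rw [fo_sum]
  exact GI6_Zr_pos G M hM b hb B o0 c

theorem GI6_Ls_pos (G : Gr V E) (M : Al) (hM : M.Ok) (b : ℝ) (hb : 0 < b)
    (B : Finset E) (o0 : E → Bool) (c : SV V E → Fin (M.k + 1)) :
    0 < Ls G M b B c (bt o0) :=
  mul_pos (Finset.prod_pos fun e _ => Finset.prod_pos fun j _ => Real.cosh_pos _)
    (GI6_Zr_pos G M hM b hb B o0 c)

theorem GI6_Lt_pos (G : Gr V E) (M : Al) (hM : M.Ok) (b : ℝ) (hb : 0 < b)
    (B : Finset E) (tB : E → ℝ) (h0 : ∀ e ∈ B, 0 ≤ tB e) (h1 : ∀ e ∈ B, tB e ≤ 1)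
    (c : SV V E → Fin (M.k + 1)) :
    0 < Lt G M b B c tB :=
  mul_pos (Finset.prod_pos fun e _ => Finset.prod_pos fun j _ => Real.cosh_pos _)
    (GI6_Zt_pos G M hM b hb B tB h0 h1 c)

theorem GI6_mu_nonneg (G : Gr V E) (M : Al) (hM : M.Ok) (b l : ℝ) (hb : 0 < b)
    (A : Finset (SV V E)) (B : Finset E)
    (tB : E → ℝ) (h0 : ∀ e ∈ B, 0 ≤ tB e) (h1 : ∀ e ∈ B, tB e ≤ 1)
    (c0 : SV V E → Fin (M.k + 1)) (o0 : E → Bool) (c : SV V E → Fin (M.k + 1)) :
    0 ≤ GI6_mu G M b l A B tB c0 o0 c := by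
  unfold GI6_mu
  split_ifs
  · exact (mul_pos (mul_pos (GI6_wv_pos M hM l c) (GI6_Ls_pos G M hM b hb B o0 c))
      (GI6_Lt_pos G M hM b hb B tB h0 h1 c)).le
  · exact le_rfl

theorem GI6_SB (G : Gr V E) (M : Al) (hM : M.Ok) (b l : ℝ) (hb : 0 < b) (A : Finset (SV V E))
    (B : Finset E) (tB : E → ℝ)
    (c0 : SV V E → Fin (M.k + 1)) (o0 : E → Bool)
    (f : (SV V E → Fin (M.k + 1)) → (E → Bool) → ℝ) :
    SB G M b l A B tB c0 o0 f =
      ∑ c, GI6_mu G M b l A B tB c0 o0 c * GI6_g G M b B o0 f c := by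
  unfold SB
  refine Finset.sum_congr rfl fun c _ => ?_
  unfold GI6_mu GI6_g
  by_cases hP : ∀ w ∈ A, c w = c0 w
  · rw [if_pos hP]
    have hfo := GI6_fo_pos G M hM b hb B o0 c
    have h1 : (∑ o : E → Bool, if (∀ w ∈ A, c w = c0 w) ∧ (∀ e ∈ B, o e = o0 e) then
        WB G M b l B tB c o * f c o else 0) =
        wv M l c * ((∏ e ∈ univ \ B, ∏ j : Fin 3, Real.cosh (la G M b c (e, j))) *
          (∏ e ∈ univ \ B, ∏ j : Fin 3, Real.cosh (lb G M b c (e, j)))) *
          Zv G (fun e => if e ∈ B then tB e else tt G M b c e) *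
          fo G B (rr G M b c) o0 (f c) := by
      unfold fo
      rw [Finset.mul_sum]
      refine Finset.sum_congr rfl fun o _ => ?_
      by_cases hQ : ∀ e ∈ B, o e = o0 e
      · rw [if_pos ⟨hP, hQ⟩, if_pos hQ]
        have h2 : WB G M b l B tB c o = wv M l c *
            (((∏ e ∈ univ \ B, ∏ j : Fin 3, Real.cosh (la G M b c (e, j))) *
            (∏ e ∈ univ \ B, ∏ j : Fin 3, Real.cosh (lb G M b c (e, j)))) *
            (∏ e ∈ univ \ B, (if o e then rr G M b c e else 1 - rr G M b c e))) *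
            (Zv G (bt o) * Zv G (fun e => if e ∈ B then tB e else tt G M b c e)) := by
          unfold WB AA
          simp only [Finset.prod_mul_distrib]
        rw [h2]
        ring
      · rw [if_neg (fun h => hQ h.2), if_neg hQ, mul_zero]
    rw [h1]
    unfold Ls Lt
    have h3 : Zv G (fun e => if e ∈ B then bt o0 e else rr G M b c e) =
        fo G B (rr G M b c) o0 (fun _ => 1) := (fo_sum G B (rr G M b c) o0).symm
    rw [h3]
    field_simp
  · rw [if_neg hP, zero_mul]
    refine Finset.sum_eq_zero fun o _ => ?_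
    rw [if_neg (fun h => hP h.1)]

theorem GI6_g_one (G : Gr V E) (M : Al) (hM : M.Ok) (b : ℝ) (hb : 0 < b)
    (B : Finset E) (o0 : E → Bool) (c : SV V E → Fin (M.k + 1)) :
    GI6_g G M b B o0 (fun _ _ => 1) c = 1 :=
  div_self (GI6_fo_pos G M hM b hb B o0 c).ne'

theorem GI6_SB1 (G : Gr V E) (M : Al) (hM : M.Ok) (b l : ℝ) (hb : 0 < b) (A : Finset (SV V E))
    (B : Finset E) (tB : E → ℝ)
    (c0 : SV V E → Fin (M.k + 1)) (o0 : E → Bool) :
    SB G M b l A B tB c0 o0 (fun _ _ => 1) = ∑ c, GI6_mu G M b l A B tB c0 o0 c := by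
  rw [GI6_SB G M hM b l hb A B tB c0 o0]
  refine Finset.sum_congr rfl fun c _ => ?_
  rw [GI6_g_one G M hM b hb B o0 c, mul_one]

theorem GI6_fo_le (G : Gr V E) (B : Finset E) (r : E → ℝ) (h0 : ∀ e, 0 ≤ r e) (h1 : ∀ e, r e ≤ 1)
    (o0 : E → Bool) (f f' : (E → Bool) → ℝ) (h : ∀ o, f o ≤ f' o) :
    fo G B r o0 f ≤ fo G B r o0 f' := by
  unfold fo
  refine Finset.sum_le_sum fun o _ => ?_
  split_ifs
  · refine mul_le_mul_of_nonneg_left (h o) (mul_nonneg (Finset.prod_nonneg fun e _ => ?_) ?_)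
    · split_ifs
      · exact h0 e
      · linarith [h1 e]
    · exact (Zv_pos G _ (fun e => (GI6_bt o e).1) (fun e => (GI6_bt o e).2)).le
  · exact le_rfl

theorem GI6_g_mono (G : Gr V E) (M : Al) (hM : M.Ok) (b : ℝ) (hb : 0 < b)
    (B : Finset E) (o0 o0' : E → Bool) (ho : ∀ e ∈ B, o0 e ≤ o0' e)
    (f : (SV V E → Fin (M.k + 1)) → (E → Bool) → ℝ) (hf : Mon f)
    (c c' : SV V E → Fin (M.k + 1)) (hc : c ≤ c') :
    GI6_g G M b B o0 f c ≤ GI6_g G M b B o0' f c' := by
  unfold GI6_g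
  refine le_trans (fo_mono G B (rr G M b c) (rr G M b c')
    (fun e => (rr_bd G M hM b hb c e).1.le) (fun e => (rr_mono G M hM b hb c c' hc e).1)
    (fun e => (rr_bd G M hM b hb c' e).2.1.le) o0 o0' ho (f c)
    (fun o o' h => hf c c o o' le_rfl h)) ?_
  refine div_le_div_of_nonneg_right ?_ (GI6_fo_pos G M hM b hb B o0' c').le
  exact GI6_fo_le G B _ (fun e => (rr_bd G M hM b hb c' e).1.le)
    (fun e => (rr_bd G M hM b hb c' e).2.1.le) o0' _ _ (fun o => hf c c' o o hc le_rfl)

theorem GI6_wv (M : Al) (l : ℝ) (c c' : SV V E → Fin (M.k + 1)) :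
    wv M l c * wv M l c' = wv M l (c ⊓ c') * wv M l (c ⊔ c') := by
  unfold wv
  rw [← Finset.prod_mul_distrib, ← Finset.prod_mul_distrib]
  refine Finset.prod_congr rfl fun w _ => ?_
  rw [Pi.inf_apply, Pi.sup_apply]
  rcases le_total (c w) (c' w) with h | h
  · rw [inf_eq_left.2 h, sup_eq_right.2 h]
  · rw [inf_eq_right.2 h, sup_eq_left.2 h, mul_comm]

theorem GI6_Ls_congr (G : Gr V E) (M : Al) (b : ℝ) (B : Finset E) (c : SV V E → Fin (M.k + 1))
    (u u' : E → ℝ) (h : ∀ e ∈ B, u e = u' e) : Ls G M b B c u = Ls G M b B c u' := by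
  unfold Ls
  have h1 : (fun e => if e ∈ B then u e else rr G M b c e) =
      (fun e => if e ∈ B then u' e else rr G M b c e) := by
    funext e
    by_cases he : e ∈ B
    · rw [if_pos he, if_pos he, h e he]
    · rw [if_neg he, if_neg he]
  rw [h1]

theorem GI6_Lt_congr (G : Gr V E) (M : Al) (b : ℝ) (B : Finset E) (c : SV V E → Fin (M.k + 1))
    (u u' : E → ℝ) (h : ∀ e ∈ B, u e = u' e) : Lt G M b B c u = Lt G M b B c u' := by
  unfold Lt
  have h1 : (fun e => if e ∈ B then u e else tt G M b c e) =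
      (fun e => if e ∈ B then u' e else tt G M b c e) := by
    funext e
    by_cases he : e ∈ B
    · rw [if_pos he, if_pos he, h e he]
    · rw [if_neg he, if_neg he]
  rw [h1]

theorem GI6_bt_le {o o' : E → Bool} {e : E} (h : o e ≤ o' e) : bt o e ≤ bt o' e := by
  unfold bt
  rcases h1 : o e with _ | _ <;> rcases h2 : o' e with _ | _
  · simp
  · simp
  · rw [h1, h2] at h
    exact absurd h (by decide)
  · simp

theorem GI6_hol (G : Gr V E) (M : Al) (hM : M.Ok) (b l : ℝ) (hb : 0 < b) (A : Finset (SV V E))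
    (B : Finset E) (tB tB' : E → ℝ) (h0 : ∀ e ∈ B, 0 ≤ tB' e) (ht : ∀ e ∈ B, tB' e ≤ tB e)
    (h1 : ∀ e ∈ B, tB e ≤ 1) (c0 c0' : SV V E → Fin (M.k + 1)) (hc : ∀ w ∈ A, c0 w ≤ c0' w)
    (o0 o0' : E → Bool) (ho : ∀ e ∈ B, o0 e ≤ o0' e) (c c' : SV V E → Fin (M.k + 1)) :
    GI6_mu G M b l A B tB c0 o0 c * GI6_mu G M b l A B tB' c0' o0' c' ≤
      GI6_mu G M b l A B tB c0 o0 (c ⊓ c') * GI6_mu G M b l A B tB' c0' o0' (c ⊔ c') := by
  have h0' : ∀ e ∈ B, 0 ≤ tB e := fun e he => (h0 e he).trans (ht e he)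
  have h1' : ∀ e ∈ B, tB' e ≤ 1 := fun e he => (ht e he).trans (h1 e he)
  have hR : 0 ≤ GI6_mu G M b l A B tB c0 o0 (c ⊓ c') * GI6_mu G M b l A B tB' c0' o0' (c ⊔ c') :=
    mul_nonneg (GI6_mu_nonneg G M hM b l hb A B tB h0' h1 c0 o0 _)
      (GI6_mu_nonneg G M hM b l hb A B tB' h0 h1' c0' o0' _)
  by_cases hP : ∀ w ∈ A, c w = c0 w
  swap
  · have : GI6_mu G M b l A B tB c0 o0 c = 0 := if_neg hP
    rw [this, zero_mul]
    exact hR
  by_cases hP' : ∀ w ∈ A, c' w = c0' w
  swap
  · have : GI6_mu G M b l A B tB' c0' o0' c' = 0 := if_neg hP'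
    rw [this, mul_zero]
    exact hR
  have hi : ∀ w ∈ A, (c ⊓ c') w = c0 w := by
    intro w hw
    rw [Pi.inf_apply, hP w hw, hP' w hw, inf_eq_left.2 (hc w hw)]
  have hs : ∀ w ∈ A, (c ⊔ c') w = c0' w := by
    intro w hw
    rw [Pi.sup_apply, hP w hw, hP' w hw, sup_eq_right.2 (hc w hw)]
  unfold GI6_mu
  rw [if_pos hP, if_pos hP', if_pos hi, if_pos hs]
  have e1 := GI6_wv (V := V) (E := E) M l c c'
  have e2 := Ls_super G M hM b hb.le B c c' (bt o0) (bt o0') (fun e _ => (GI6_bt o0 e).1)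
    (fun e _ => (GI6_bt o0 e).2) (fun e _ => (GI6_bt o0' e).1) (fun e _ => (GI6_bt o0' e).2)
  have e3 := Lt_super G M hM b hb.le B c c' tB tB' h0' h1 h0 h1'
  rw [GI6_Ls_congr G M b B (c ⊓ c') (bt o0 ⊓ bt o0') (bt o0) (fun e he => by
      rw [Pi.inf_apply, inf_eq_left.2 (GI6_bt_le (ho e he))]),
    GI6_Ls_congr G M b B (c ⊔ c') (bt o0 ⊔ bt o0') (bt o0') (fun e he => by
      rw [Pi.sup_apply, sup_eq_right.2 (GI6_bt_le (ho e he))])] at e2
  rw [GI6_Lt_congr G M b B (c ⊓ c') (tB ⊔ tB') tB (fun e he => by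
      rw [Pi.sup_apply, sup_eq_left.2 (ht e he)]),
    GI6_Lt_congr G M b B (c ⊔ c') (tB ⊓ tB') tB' (fun e he => by
      rw [Pi.inf_apply, inf_eq_right.2 (ht e he)])] at e3
  have p1 : 0 ≤ wv M l (c ⊓ c') * wv M l (c ⊔ c') :=
    (mul_pos (GI6_wv_pos M hM l _) (GI6_wv_pos M hM l _)).le
  have p2 : 0 ≤ Lt G M b B c tB * Lt G M b B c' tB' :=
    (mul_pos (GI6_Lt_pos G M hM b hb B tB h0' h1 c) (GI6_Lt_pos G M hM b hb B tB' h0 h1' c')).le
  have p3 : 0 ≤ Ls G M b B (c ⊓ c') (bt o0) * Ls G M b B (c ⊔ c') (bt o0') :=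
    (mul_pos (GI6_Ls_pos G M hM b hb B o0 _) (GI6_Ls_pos G M hM b hb B o0' _)).le
  calc wv M l c * Ls G M b B c (bt o0) * Lt G M b B c tB *
        (wv M l c' * Ls G M b B c' (bt o0') * Lt G M b B c' tB')
      = (wv M l c * wv M l c') * ((Ls G M b B c (bt o0) * Ls G M b B c' (bt o0')) *
          (Lt G M b B c tB * Lt G M b B c' tB')) := by ring
    _ = (wv M l (c ⊓ c') * wv M l (c ⊔ c')) * ((Ls G M b B c (bt o0) * Ls G M b B c' (bt o0')) *
          (Lt G M b B c tB * Lt G M b B c' tB')) := by rw [e1]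
    _ ≤ (wv M l (c ⊓ c') * wv M l (c ⊔ c')) *
          ((Ls G M b B (c ⊓ c') (bt o0) * Ls G M b B (c ⊔ c') (bt o0')) *
          (Lt G M b B (c ⊓ c') tB * Lt G M b B (c ⊔ c') tB')) :=
        mul_le_mul_of_nonneg_left (mul_le_mul e2 e3 p2 p3) p1
    _ = wv M l (c ⊓ c') * Ls G M b B (c ⊓ c') (bt o0) * Lt G M b B (c ⊓ c') tB *
        (wv M l (c ⊔ c') * Ls G M b B (c ⊔ c') (bt o0') * Lt G M b B (c ⊔ c') tB') := by ring

theorem EB_mono (G : Gr V E) (M : Al) (hM : M.Ok) (b l : ℝ) (hb : 0 < b) (A : Finset (SV V E))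
    (B : Finset E) (tB tB' : E → ℝ) (h0 : ∀ e ∈ B, 0 ≤ tB' e) (ht : ∀ e ∈ B, tB' e ≤ tB e)
    (h1 : ∀ e ∈ B, tB e ≤ 1) (c0 c0' : SV V E → Fin (M.k + 1)) (hc : ∀ w ∈ A, c0 w ≤ c0' w)
    (o0 o0' : E → Bool) (ho : ∀ e ∈ B, o0 e ≤ o0' e)
    (f : (SV V E → Fin (M.k + 1)) → (E → Bool) → ℝ) (hf : Mon f) :
    EB G M b l A B tB c0 o0 f ≤ EB G M b l A B tB' c0' o0' f := by
  have h0' : ∀ e ∈ B, 0 ≤ tB e := fun e he => (h0 e he).trans (ht e he)
  have h1' : ∀ e ∈ B, tB' e ≤ 1 := fun e he => (ht e he).trans (h1 e he)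
  have hS := SB_pos G M hM b l hb A B tB h0' h1 c0 o0
  have hS' := SB_pos G M hM b l hb A B tB' h0 h1' c0' o0'
  unfold EB
  rw [GI6_SB1 G M hM b l hb] at hS hS'
  rw [GI6_SB1 G M hM b l hb, GI6_SB1 G M hM b l hb, GI6_SB G M hM b l hb, GI6_SB G M hM b l hb]
  set μ := GI6_mu G M b l A B tB c0 o0 with hμ
  set μ' := GI6_mu G M b l A B tB' c0' o0' with hμ'
  set S := ∑ c, μ c with hSd
  set S' := ∑ c, μ' c with hSd'
  have hn : ∀ c, 0 ≤ μ c := fun c => GI6_mu_nonneg G M hM b l hb A B tB h0' h1 c0 o0 c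
  have hn' : ∀ c, 0 ≤ μ' c := fun c => GI6_mu_nonneg G M hM b l hb A B tB' h0 h1' c0' o0' c
  let g : (SV V E → Fin (M.k + 1)) → ℝ := GI6_g G M b B o0' f
  have hg : Monotone g := fun c c' h => GI6_g_mono G M hM b hb B o0' o0' (fun _ _ => le_rfl) f hf c c' h
  let K : ℝ := ∑ c, |g c|
  have hK : ∀ c, 0 ≤ g c + K := by
    intro c
    have h2 : |g c| ≤ K := Finset.single_le_sum (f := fun c => |g c|) (fun c _ => abs_nonneg _)
      (Finset.mem_univ c)
    linarith [neg_abs_le (g c)]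
  have key : ∑ c, (g c + K) * (μ c / S) ≤ ∑ c, (g c + K) * (μ' c / S') := by
    refine holley (μ := fun c => g c + K) (f := fun c => μ c / S) (g := fun c => μ' c / S')
      hK (fun c => div_nonneg (hn c) hS.le) (fun c => div_nonneg (hn' c) hS'.le)
      (fun c c' h => by linarith [hg h]) ?_ ?_
    · rw [← Finset.sum_div, ← Finset.sum_div, div_self hS.ne', div_self hS'.ne']
    · intro c c'
      change μ c / S * (μ' c' / S') ≤ μ (c ⊓ c') / S * (μ' (c ⊔ c') / S')
      rw [div_mul_div_comm, div_mul_div_comm]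
      exact div_le_div_of_nonneg_right (GI6_hol G M hM b l hb A B tB tB' h0 ht h1 c0 c0' hc o0 o0'
        ho c c') (mul_pos hS hS').le
  have ex1 : ∑ c, (g c + K) * (μ c / S) = (∑ c, μ c * g c) / S + K := by
    have : ∀ c ∈ (Finset.univ : Finset (SV V E → Fin (M.k + 1))),
        (g c + K) * (μ c / S) = μ c * g c / S + K * (μ c / S) := fun c _ => by ring
    rw [Finset.sum_congr rfl this, Finset.sum_add_distrib, ← Finset.sum_div, ← Finset.mul_sum,
      ← Finset.sum_div, div_self hS.ne', mul_one]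
  have ex2 : ∑ c, (g c + K) * (μ' c / S') = (∑ c, μ' c * g c) / S' + K := by
    have : ∀ c ∈ (Finset.univ : Finset (SV V E → Fin (M.k + 1))),
        (g c + K) * (μ' c / S') = μ' c * g c / S' + K * (μ' c / S') := fun c _ => by ring
    rw [Finset.sum_congr rfl this, Finset.sum_add_distrib, ← Finset.sum_div, ← Finset.mul_sum,
      ← Finset.sum_div, div_self hS'.ne', mul_one]
  rw [ex1, ex2] at key
  have key2 : (∑ c, μ c * GI6_g G M b B o0 f c) / S ≤ (∑ c, μ c * g c) / S := by
    refine div_le_div_of_nonneg_right (Finset.sum_le_sum fun c _ => ?_) hS.le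
    exact mul_le_mul_of_nonneg_left (GI6_g_mono G M hM b hb B o0 o0' ho f hf c c le_rfl) (hn c)
  linarith

theorem GI6_EW (G : Gr V E) (M : Al) (b l : ℝ)
    (f : (SV V E → Fin (M.k + 1)) → (E → Bool) → ℝ) :
    EW G M b l f = SB G M b l ∅ ∅ (fun _ => 0) (fun _ => 0) (fun _ => false) f /
      SB G M b l ∅ ∅ (fun _ => 0) (fun _ => 0) (fun _ => false) (fun _ _ => 1) := by
  have h : ∀ (c : SV V E → Fin (M.k + 1)) (o : E → Bool),
      WB G M b l ∅ (fun _ => 0) c o = W G M b l c o := by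
    intro c o
    unfold WB W
    simp
  unfold EW SB
  simp [h]

theorem asc (G : Gr V E) (M : Al) (hM : M.Ok) (b l : ℝ) (hb : 0 < b)
    (f g : (SV V E → Fin (M.k + 1)) → (E → Bool) → ℝ) (hf : Mon f) (hg : Mon g) :
    EW G M b l f * EW G M b l g ≤ EW G M b l (fun c o => f c o * g c o) := by
  have z0 : ∀ e ∈ (∅ : Finset E), (0 : ℝ) ≤ (fun _ => 0) e := fun e he => absurd he (by simp)
  have z1 : ∀ e ∈ (∅ : Finset E), (fun _ => (0 : ℝ)) e ≤ 1 := fun e he => absurd he (by simp)
  have hS := SB_pos G M hM b l hb ∅ ∅ (fun _ => 0) z0 z1 (fun _ => 0) (fun _ => false)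
  rw [GI6_EW, GI6_EW, GI6_EW]
  rw [GI6_SB1 G M hM b l hb] at hS
  rw [GI6_SB1 G M hM b l hb, GI6_SB G M hM b l hb, GI6_SB G M hM b l hb, GI6_SB G M hM b l hb]
  set μ := GI6_mu G M b l ∅ ∅ (fun _ => 0) (fun _ => 0) (fun _ => false) with hμ
  set S := ∑ c, μ c with hSd
  have hn : ∀ c, 0 ≤ μ c := fun c => GI6_mu_nonneg G M hM b l hb ∅ ∅ (fun _ => 0) z0 z1
    (fun _ => 0) (fun _ => false) c
  let F : (SV V E → Fin (M.k + 1)) → ℝ := GI6_g G M b ∅ (fun _ => false) f
  let H : (SV V E → Fin (M.k + 1)) → ℝ := GI6_g G M b ∅ (fun _ => false) g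
  have hF : Monotone F := fun c c' h => GI6_g_mono G M hM b hb ∅ _ _ (fun _ _ => le_rfl) f hf c c' h
  have hH : Monotone H := fun c c' h => GI6_g_mono G M hM b hb ∅ _ _ (fun _ _ => le_rfl) g hg c c' h
  have hFH : ∀ c, F c * H c ≤ GI6_g G M b ∅ (fun _ => false) (fun c o => f c o * g c o) c := by
    intro c
    have h1 := fo_fkg G ∅ (rr G M b c) (fun e => (rr_bd G M hM b hb c e).1.le)
      (fun e => (rr_bd G M hM b hb c e).2.1.le) (fun _ => false) (f c) (g c)
      (fun o o' h => hf c c o o' le_rfl h) (fun o o' h => hg c c o o' le_rfl h)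
    have h2 := GI6_fo_pos G M hM b hb ∅ (fun _ => false) c
    change fo G ∅ (rr G M b c) (fun _ => false) (f c) / fo G ∅ (rr G M b c) (fun _ => false)
      (fun _ => 1) * (fo G ∅ (rr G M b c) (fun _ => false) (g c) / fo G ∅ (rr G M b c)
      (fun _ => false) (fun _ => 1)) ≤ fo G ∅ (rr G M b c) (fun _ => false)
      (fun o => f c o * g c o) / fo G ∅ (rr G M b c) (fun _ => false) (fun _ => 1)
    rw [div_mul_div_comm, div_le_div_iff₀ (mul_pos h2 h2) h2]
    nlinarith [h1, h2]
  let K : ℝ := ∑ c, |F c|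
  let L : ℝ := ∑ c, |H c|
  have hK : ∀ c, 0 ≤ F c + K := by
    intro c
    have h2 : |F c| ≤ K := Finset.single_le_sum (f := fun c => |F c|) (fun c _ => abs_nonneg _)
      (Finset.mem_univ c)
    linarith [neg_abs_le (F c)]
  have hL : ∀ c, 0 ≤ H c + L := by
    intro c
    have h2 : |H c| ≤ L := Finset.single_le_sum (f := fun c => |H c|) (fun c _ => abs_nonneg _)
      (Finset.mem_univ c)
    linarith [neg_abs_le (H c)]
  have key := fkg (μ := μ) (f := fun c => F c + K) (g := fun c => H c + L) hn hK hL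
    (fun c c' h => by linarith [hF h]) (fun c c' h => by linarith [hH h])
    (fun c c' => GI6_hol G M hM b l hb ∅ ∅ (fun _ => 0) (fun _ => 0) z0 (fun _ _ => le_rfl) z1
      (fun _ => 0) (fun _ => 0) (fun _ _ => le_rfl) (fun _ => false) (fun _ => false)
      (fun _ _ => le_rfl) c c')
  have s1 : ∑ c, μ c * (F c + K) = (∑ c, μ c * F c) + K * S := by
    have : ∀ c ∈ (Finset.univ : Finset (SV V E → Fin (M.k + 1))),
        μ c * (F c + K) = μ c * F c + K * μ c := fun c _ => by ring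
    rw [Finset.sum_congr rfl this, Finset.sum_add_distrib, ← Finset.mul_sum]
  have s2 : ∑ c, μ c * (H c + L) = (∑ c, μ c * H c) + L * S := by
    have : ∀ c ∈ (Finset.univ : Finset (SV V E → Fin (M.k + 1))),
        μ c * (H c + L) = μ c * H c + L * μ c := fun c _ => by ring
    rw [Finset.sum_congr rfl this, Finset.sum_add_distrib, ← Finset.mul_sum]
  have s3 : ∑ c, μ c * ((F c + K) * (H c + L)) =
      (∑ c, μ c * (F c * H c)) + L * (∑ c, μ c * F c) + K * (∑ c, μ c * H c) + K * L * S := by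
    have : ∀ c ∈ (Finset.univ : Finset (SV V E → Fin (M.k + 1))),
        μ c * ((F c + K) * (H c + L)) = μ c * (F c * H c) + L * (μ c * F c) + K * (μ c * H c) +
          K * L * μ c := fun c _ => by ring
    rw [Finset.sum_congr rfl this, Finset.sum_add_distrib, Finset.sum_add_distrib,
      Finset.sum_add_distrib, ← Finset.mul_sum, ← Finset.mul_sum, ← Finset.mul_sum]
  rw [s1, s2, s3] at key
  have key2 : (∑ c, μ c * F c) * (∑ c, μ c * H c) ≤ S * ∑ c, μ c * (F c * H c) := by
    nlinarith [key]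
  have key3 : ∑ c, μ c * (F c * H c) ≤
      ∑ c, μ c * GI6_g G M b ∅ (fun _ => false) (fun c o => f c o * g c o) c :=
    Finset.sum_le_sum fun c _ => mul_le_mul_of_nonneg_left (hFH c) (hn c)
  change (∑ c, μ c * F c) / S * ((∑ c, μ c * H c) / S) ≤
    (∑ c, μ c * GI6_g G M b ∅ (fun _ => false) (fun c o => f c o * g c o) c) / S
  rw [div_mul_div_comm, div_le_div_iff₀ (mul_pos hS hS) hS]
  have key4 : (∑ c, μ c * F c) * (∑ c, μ c * H c) ≤
      S * ∑ c, μ c * GI6_g G M b ∅ (fun _ => false) (fun c o => f c o * g c o) c :=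
    key2.trans (mul_le_mul_of_nonneg_left key3 hS.le)
  calc (∑ c, μ c * F c) * (∑ c, μ c * H c) * S
      ≤ (S * ∑ c, μ c * GI6_g G M b ∅ (fun _ => false) (fun c o => f c o * g c o) c) * S :=
        mul_le_mul_of_nonneg_right key4 hS.le
    _ = (∑ c, μ c * GI6_g G M b ∅ (fun _ => false) (fun c o => f c o * g c o) c) * (S * S) := by
        ring

end H82.BX

end S_H82_BX_GI6

section S_H82_BX_GI8

/-!
# GI8: the chain model as a monotone system

`ce_EB`: for `S` admissible and `y = x` on `S`: `mW y = (const depending on x on S) · WB (sB S) (tt (pc x)) (pc y) (po y)`, because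
`∏_{e ∈ sB S} AA (rr or 1 - rr)` depends only on the moduli in `sA S` and the bits in `sB S`, and `tt G M b (pc y) e = tt G M b (pc x) e` for
`e ∈ sB S` (the four vertices of the chain of `e` are in `sA S`).  Sums over `∀ i, XI ..` are sums over pairs `(c, o)` (`mkx`, `pc`, `po` are
inverse bijections).  The numerator and the denominator of `ce` get the same constant.
`mW_mon`: `ce_EB` and `EB_mono` (`tt` is antitone in the moduli; a monotone `g` on `∀ i, XI ..` gives `Mon (fun c o => g (mkx c o))`).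
-/

set_option autoImplicit false

open Finset MeasureTheory

namespace H82.BX

open H82.IC

variable {V E : Type} [Fintype V] [DecidableEq V] [Fintype E] [DecidableEq E]

theorem mem_sA (S : Finset (SV V E ⊕ E)) (w : SV V E) : w ∈ sA S ↔ Sum.inl w ∈ S := by
  unfold sA
  exact Finset.mem_preimage

theorem mem_sB (S : Finset (SV V E ⊕ E)) (e : E) : e ∈ sB S ↔ Sum.inr e ∈ S := by
  unfold sB
  exact Finset.mem_preimage

theorem GI8_Zpos (G : Gr V E) (M : Al) (hM : M.Ok) (b l : ℝ) (hb : 0 < b) :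
    0 < ∑ c : SV V E → Fin (M.k + 1), ∑ o : E → Bool, W G M b l c o := by
  refine Finset.sum_pos (fun c _ => ?_) ⟨fun _ => 0, Finset.mem_univ _⟩
  exact Finset.sum_pos (fun o _ => W_pos G M hM b l hb c o) ⟨fun _ => false, Finset.mem_univ _⟩

theorem mW_pos (G : Gr V E) (M : Al) (hM : M.Ok) (b l : ℝ) (hb : 0 < b) (x : ∀ i, XI M.k V E i) :
    0 < mW G M b l x := by
  unfold mW
  exact div_pos (W_pos G M hM b l hb _ _) (GI8_Zpos G M hM b l hb)

theorem GI8_mkx {k : ℕ} (x : ∀ i, XI k V E i) : mkx (pc x) (po x) = x := by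
  funext i
  cases i <;> rfl

theorem sum_mkx {k : ℕ} (F : (∀ i, XI k V E i) → ℝ) : ∑ x, F x = ∑ c, ∑ o, F (mkx c o) := by
  rw [← Fintype.sum_prod_type' (fun c o => F (mkx c o))]
  refine (Fintype.sum_equiv (⟨fun q => mkx q.1 q.2, fun x => (pc x, po x), fun q => rfl,
    fun x => GI8_mkx x⟩ : ((SV V E → Fin (k + 1)) × (E → Bool)) ≃ (∀ i, XI k V E i)) _ _ ?_).symm
  intro q
  rfl

theorem mW_sum (G : Gr V E) (M : Al) (hM : M.Ok) (b l : ℝ) (hb : 0 < b) :
    ∑ x, mW G M b l x = 1 := by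
  rw [sum_mkx]
  have h1 : ∀ (c : SV V E → Fin (M.k + 1)) (o : E → Bool), mW G M b l (mkx c o) =
      W G M b l c o / ∑ c, ∑ o, W G M b l c o := fun c o => rfl
  simp only [h1]
  simp only [← Finset.sum_div]
  exact div_self (GI8_Zpos G M hM b l hb).ne'

theorem mW_EW (G : Gr V E) (M : Al) (hM : M.Ok) (b l : ℝ) (hb : 0 < b)
    (f : (SV V E → Fin (M.k + 1)) → (E → Bool) → ℝ) :
    ∑ x, mW G M b l x * f (pc x) (po x) = EW G M b l f := by
  rw [sum_mkx]
  have h1 : ∀ (c : SV V E → Fin (M.k + 1)) (o : E → Bool),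
      mW G M b l (mkx c o) * f (pc (mkx c o)) (po (mkx c o)) =
      (W G M b l c o * f c o) / ∑ c, ∑ o, W G M b l c o := by
    intro c o
    have h2 : mW G M b l (mkx c o) * f (pc (mkx c o)) (po (mkx c o)) =
      (W G M b l c o / ∑ c, ∑ o, W G M b l c o) * f c o := rfl
    rw [h2, div_mul_eq_mul_div]
  simp only [h1]
  simp only [← Finset.sum_div]
  rfl

/-- the constant of the frozen edges. -/
noncomputable def GI8_K (G : Gr V E) (M : Al) (b : ℝ) (B : Finset E) (c : SV V E → Fin (M.k + 1))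
    (o : E → Bool) : ℝ :=
  ∏ e ∈ B, AA G M b c e * (if o e then rr G M b c e else 1 - rr G M b c e)

theorem GI8_Kpos (G : Gr V E) (M : Al) (hM : M.Ok) (b : ℝ) (hb : 0 < b) (B : Finset E)
    (c : SV V E → Fin (M.k + 1)) (o : E → Bool) : 0 < GI8_K G M b B c o := by
  unfold GI8_K
  refine Finset.prod_pos (fun e _ => mul_pos ?_ ?_)
  · unfold AA
    exact Finset.prod_pos (fun j _ => mul_pos (Real.cosh_pos _) (Real.cosh_pos _))
  · obtain ⟨h1, h2, _, _⟩ := rr_bd G M hM b hb c e
    split_ifs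
    · exact h1
    · linarith

theorem GI8_loc (G : Gr V E) (M : Al) (b : ℝ) (S : Finset (SV V E ⊕ E)) (hS : Adm G S)
    (c c' : SV V E → Fin (M.k + 1)) (h : ∀ w ∈ sA S, c w = c' w) (e : E) (he : e ∈ sB S) :
    rr G M b c e = rr G M b c' e ∧ tt G M b c e = tt G M b c' e ∧ AA G M b c e = AA G M b c' e := by
  rw [mem_sB] at he
  have h1 := hS.bit e he
  have h2 := hS.mm e h1
  have h3 := hS.zz e h2
  have g1 := h _ ((mem_sA S _).mpr h1)
  have g2 := h _ ((mem_sA S _).mpr h2)
  have g3 := h _ ((mem_sA S _).mpr h3.1)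
  have g4 := h _ ((mem_sA S _).mpr h3.2)
  have k1 : ∀ j : Fin 3, c ((LK G).s (e, j)) = c' ((LK G).s (e, j)) ∧
      c ((LK G).r (e, j)) = c' ((LK G).r (e, j)) := by
    intro j
    fin_cases j
    · exact ⟨g3, g2⟩
    · exact ⟨g2, g1⟩
    · exact ⟨g1, g4⟩
  have k2 : ∀ j : Fin 3, la G M b c (e, j) = la G M b c' (e, j) := by
    intro j
    unfold la
    rw [(k1 j).1, (k1 j).2]
  have k3 : ∀ j : Fin 3, lb G M b c (e, j) = lb G M b c' (e, j) := by
    intro j
    unfold lb
    rw [(k1 j).1, (k1 j).2]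
  refine ⟨?_, ?_, ?_⟩
  · unfold rr
    exact Finset.prod_congr rfl (fun j _ => by rw [k2 j])
  · unfold tt
    exact Finset.prod_congr rfl (fun j _ => by rw [k3 j])
  · unfold AA
    exact Finset.prod_congr rfl (fun j _ => by rw [k2 j, k3 j])

theorem GI8_W (G : Gr V E) (M : Al) (b l : ℝ) (S : Finset (SV V E ⊕ E)) (hS : Adm G S)
    (c c' : SV V E → Fin (M.k + 1)) (o o' : E → Bool) (h : ∀ w ∈ sA S, c w = c' w)
    (h' : ∀ e ∈ sB S, o e = o' e) :
    W G M b l c o = GI8_K G M b (sB S) c' o' * WB G M b l (sB S) (tt G M b c') c o := by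
  unfold W WB GI8_K
  have e1 : (∏ e, AA G M b c e * (if o e then rr G M b c e else 1 - rr G M b c e)) =
      (∏ e ∈ univ \ sB S, AA G M b c e * (if o e then rr G M b c e else 1 - rr G M b c e)) *
      ∏ e ∈ sB S, AA G M b c e * (if o e then rr G M b c e else 1 - rr G M b c e) :=
    (Finset.prod_sdiff (Finset.subset_univ (sB S))).symm
  have e2 : (∏ e ∈ sB S, AA G M b c e * (if o e then rr G M b c e else 1 - rr G M b c e)) =
      ∏ e ∈ sB S, AA G M b c' e * (if o' e then rr G M b c' e else 1 - rr G M b c' e) := by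
    refine Finset.prod_congr rfl (fun e he => ?_)
    obtain ⟨k1, _, k3⟩ := GI8_loc G M b S hS c c' h e he
    rw [k1, k3, h' e he]
  have e3 : (tt G M b c) = fun e => if e ∈ sB S then tt G M b c' e else tt G M b c e := by
    funext e
    split_ifs with he
    · exact (GI8_loc G M b S hS c c' h e he).2.1
    · rfl
  rw [e1, e2, ← e3]
  ring

theorem GI8_cs (G : Gr V E) (M : Al) (b l : ℝ) (S : Finset (SV V E ⊕ E))
    (hS : Adm G S) (f : (∀ i, XI M.k V E i) → ℝ) (x : ∀ i, XI M.k V E i) :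
    cs S x (fun y => mW G M b l y * f y) =
      (GI8_K G M b (sB S) (pc x) (po x) / ∑ c, ∑ o, W G M b l c o) *
        SB G M b l (sA S) (sB S) (tt G M b (pc x)) (pc x) (po x) (fun c o => f (mkx c o)) := by
  unfold cs SB
  rw [sum_mkx, Finset.mul_sum]
  refine Finset.sum_congr rfl (fun c _ => ?_)
  rw [Finset.mul_sum]
  refine Finset.sum_congr rfl (fun o _ => ?_)
  have h1 : (∀ i ∈ S, mkx c o i = x i) ↔
      ((∀ w ∈ sA S, c w = pc x w) ∧ (∀ e ∈ sB S, o e = po x e)) := by
    constructor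
    · intro h
      refine ⟨fun w hw => ?_, fun e he => ?_⟩
      · exact h (Sum.inl w) ((mem_sA S w).mp hw)
      · exact h (Sum.inr e) ((mem_sB S e).mp he)
    · rintro ⟨h, h'⟩ i hi
      cases i with
      | inl w => exact h w ((mem_sA S w).mpr hi)
      | inr e => exact h' e ((mem_sB S e).mpr hi)
  by_cases h2 : (∀ i ∈ S, mkx c o i = x i)
  · have h3 := h1.mp h2
    rw [if_pos h2, if_pos h3]
    have h4 : mW G M b l (mkx c o) = W G M b l c o / ∑ c, ∑ o, W G M b l c o := rfl
    show mW G M b l (mkx c o) * f (mkx c o) = _ * (_ * f (mkx c o))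
    rw [h4, GI8_W G M b l S hS c (pc x) o (po x) h3.1 h3.2]
    ring
  · have h3 : ¬ ((∀ w ∈ sA S, c w = pc x w) ∧ (∀ e ∈ sB S, o e = po x e)) :=
      fun h => h2 (h1.mpr h)
    rw [if_neg h2, if_neg h3, mul_zero]

theorem ce_EB (G : Gr V E) (M : Al) (hM : M.Ok) (b l : ℝ) (hb : 0 < b) (S : Finset (SV V E ⊕ E))
    (hS : Adm G S) (f : (∀ i, XI M.k V E i) → ℝ) (x : ∀ i, XI M.k V E i) :
    ce (mW G M b l) f S x =
      EB G M b l (sA S) (sB S) (tt G M b (pc x)) (pc x) (po x) (fun c o => f (mkx c o)) := by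
  have hK : GI8_K G M b (sB S) (pc x) (po x) / ∑ c, ∑ o, W G M b l c o ≠ 0 :=
    (div_pos (GI8_Kpos G M hM b hb _ _ _) (GI8_Zpos G M hM b l hb)).ne'
  have h1 := GI8_cs G M b l S hS f x
  have h2 := GI8_cs G M b l S hS (fun _ => 1) x
  have h3 : (fun y => mW G M b l y * (fun _ : (∀ i, XI M.k V E i) => (1 : ℝ)) y) = mW G M b l := by
    funext y
    exact mul_one _
  rw [h3] at h2
  unfold ce EB
  rw [h1, h2]
  exact mul_div_mul_left _ _ hK

theorem GI8_mkx_le {k : ℕ} (c c' : SV V E → Fin (k + 1)) (o o' : E → Bool) (h : c ≤ c')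
    (h' : o ≤ o') : mkx c o ≤ mkx c' o' := by
  intro i
  cases i with
  | inl w => exact h w
  | inr e => exact h' e

theorem mW_mon (G : Gr V E) (M : Al) (hM : M.Ok) (b l : ℝ) (hb : 0 < b) :
    MonM (mW G M b l) (Adm G) := by
  classical
  intro S hS g hg x y hxy
  rw [ce_EB G M hM b l hb S hS g x, ce_EB G M hM b l hb S hS g y]
  have hc : ∀ w ∈ sA S, pc x w ≤ pc y w := fun w hw => hxy (Sum.inl w) ((mem_sA S w).mp hw)
  have ho : ∀ e ∈ sB S, po x e ≤ po y e := fun e he => hxy (Sum.inr e) ((mem_sB S e).mp he)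
  refine EB_mono G M hM b l hb (sA S) (sB S) (tt G M b (pc x)) (tt G M b (pc y)) ?_ ?_ ?_
    (pc x) (pc y) hc (po x) (po y) ho _ ?_
  · intro e _
    exact (rr_bd G M hM b hb (pc y) e).2.2.1.le
  · intro e he
    obtain ⟨c2, hc2⟩ : ∃ c2 : SV V E → Fin (M.k + 1), c2 =
      fun w => if w ∈ sA S then pc y w else pc x w := ⟨_, rfl⟩
    have k1 : pc x ≤ c2 := by
      intro w
      rw [hc2]
      show pc x w ≤ if w ∈ sA S then pc y w else pc x w
      split_ifs with hw
      · exact hc w hw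
      · exact le_rfl
    have k2 : ∀ w ∈ sA S, c2 w = pc y w := by
      intro w hw
      rw [hc2]
      exact if_pos hw
    rw [← (GI8_loc G M b S hS c2 (pc y) k2 e he).2.1]
    exact (rr_mono G M hM b hb (pc x) c2 k1 e).2
  · intro e _
    exact (rr_bd G M hM b hb (pc x) e).2.2.2.le
  · intro c c' o o' h h'
    exact hg (GI8_mkx_le c c' o o' h h')

/-- association. -/
theorem mW_asc (G : Gr V E) (M : Al) (hM : M.Ok) (b l : ℝ) (hb : 0 < b)
    (f g : (∀ i, XI M.k V E i) → ℝ) (hf : Monotone f) (hg : Monotone g) :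
    (∑ x, mW G M b l x * f x) * (∑ x, mW G M b l x * g x) ≤ ∑ x, mW G M b l x * (f x * g x) := by
  have h1 : ∀ F : (∀ i, XI M.k V E i) → ℝ, ∑ x, mW G M b l x * F x =
      EW G M b l (fun c o => F (mkx c o)) := by
    intro F
    rw [← mW_EW G M hM b l hb (fun c o => F (mkx c o))]
    exact Finset.sum_congr rfl (fun x _ => by rw [GI8_mkx x])
  rw [h1 f, h1 g, h1 (fun x => f x * g x)]
  exact asc G M hM b l hb _ _ (fun c c' o o' h h' => hf (GI8_mkx_le c c' o o' h h'))
    (fun c c' o o' h h' => hg (GI8_mkx_le c c' o o' h h'))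

/-- the average conditional covariance is at most the covariance. -/
theorem mW_cov (G : Gr V E) (M : Al) (hM : M.Ok) (b l : ℝ) (hb : 0 < b) (S : Finset (SV V E ⊕ E))
    (hS : Adm G S) (f : (∀ i, XI M.k V E i) → ℝ) (hf : Monotone f) (w : SV V E) :
    ∑ x, mW G M b l x * (ce (mW G M b l) (fun y => f y * c2 M w y) S x -
      ce (mW G M b l) f S x * ce (mW G M b l) (c2 M w) S x) ≤ cv G M b l f w := by
  have hm : ∀ x, 0 < mW G M b l x := fun x => mW_pos G M hM b l hb x
  have hmon := mW_mon G M hM b l hb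
  have hc2 : Monotone (c2 M w : (∀ i, XI M.k V E i) → ℝ) := by
    intro x y hxy
    have h1 : M.cc (pc x w) ≤ M.cc (pc y w) := hM.mono (hxy (Sum.inl w))
    exact pow_le_pow_left₀ (hM.cc0 _).le h1 2
  have tower : ∀ F : (∀ i, XI M.k V E i) → ℝ, ∑ x, mW G M b l x * ce (mW G M b l) F S x =
      ∑ x, mW G M b l x * F x := by
    intro F
    have h2 := ce_avg (mW G M b l) F (fun _ => 1) hm S (fun _ _ _ => rfl)
    simp only [mul_one] at h2
    exact h2.symm
  have ha := mW_asc G M hM b l hb (fun x => ce (mW G M b l) f S x)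
    (fun x => ce (mW G M b l) (c2 M w) S x)
    (fun x y hxy => hmon S hS f hf x y (fun i _ => hxy i))
    (fun x y hxy => hmon S hS (c2 M w) hc2 x y (fun i _ => hxy i))
  rw [tower f, tower (c2 M w)] at ha
  have hs : ∑ x, mW G M b l x * (ce (mW G M b l) (fun y => f y * c2 M w y) S x -
      ce (mW G M b l) f S x * ce (mW G M b l) (c2 M w) S x) =
      ∑ x, mW G M b l x * (f x * c2 M w x) -
      ∑ x, mW G M b l x * (ce (mW G M b l) f S x * ce (mW G M b l) (c2 M w) S x) := by
    rw [← tower (fun y => f y * c2 M w y), ← Finset.sum_sub_distrib]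
    exact Finset.sum_congr rfl (fun x _ => by ring)
  rw [hs]
  unfold cv
  linarith

end H82.BX

end S_H82_BX_GI8

section S_H82_BX_GI7

/-!
# GI7: finite energy for one modulus

Write `SB(F) = ∑_{c = c0 on A} Q(c) F` for functions `F` of `c`, `Q(c) = wv(c) Ls(c, bt o0) Lt(c, tB)` (as in GI6).  For `w ∉ A` (then
`w` is not an end or a chain vertex of an edge of `B`, by `hB`) let `c, c'` differ only at `w`.  `Ls(c,u) = 4^{-|E|} Zs (LK4 G) ...` is a sum over
signs of products of `exp(K_l s_l)` over the links (off `B`) times a factor that does not depend on `c`; at most four links are at `w`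
(`Deg4` for `w = inl v`, two for `inr`), and for each of them `|K_l(c) - K_l(c')| ≤ b`: so `Ls(c) ≥ e^{-4b} Ls(c')`, same for `Lt`.  And
`wv(c)/nu(c w) ≥ e^{-l} wv(c')/nu(c' w)` (`0 ≤ cc² ≤ 1`).  So with `R(c) = Q(c)/nu(c w)`: `R(c) ≥ e^{-8b-l} R(c')` and
`∑_{c = c0 on A, c w ∈ S} Q(c) = ∑_{v ∈ S} nu(v) ∑_{d : off w} R(d, v) ≥ (∑_{v ∈ S} nu v) e^{-8b-l} ∑_{d} ∑_{v'} nu(v') R(d, v')`
(`∑ nu = 1`).
-/

set_option autoImplicit false

open Finset MeasureTheory

namespace H82.BX

open H82.IC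

variable {V E : Type} [Fintype V] [DecidableEq V] [Fintype E] [DecidableEq E]

/-- number of ends of the link `l` at `w`. -/
def GI7_d (G : Gr V E) (w : SV V E) (l : E × Fin 3) : ℝ :=
  (if (LK G).s l = w then 1 else 0) + (if (LK G).r l = w then 1 else 0)

theorem GI7_d_nonneg (G : Gr V E) (w : SV V E) (l : E × Fin 3) : 0 ≤ GI7_d G w l := by
  unfold GI7_d
  split_ifs <;> norm_num

theorem GI7_sum_d (G : Gr V E) (hG : Deg4 G) (w : SV V E) :
    ∑ e, ∑ j : Fin 3, GI7_d G w (e, j) ≤ 4 := by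
  rcases w with v | ⟨e0, t⟩
  · have h1 : ∀ e : E, ∑ j : Fin 3, GI7_d G (Sum.inl v : SV V E) (e, j) =
        (if G.s e = v then (1 : ℝ) else 0) + (if G.r e = v then 1 else 0) := by
      intro e
      rw [Fin.sum_univ_three]
      simp [GI7_d, LK]
    rw [Finset.sum_congr rfl fun e _ => h1 e, Finset.sum_add_distrib]
    rw [← Finset.sum_filter, ← Finset.sum_filter, Finset.sum_const, Finset.sum_const]
    have h2 := hG v
    simp only [nsmul_eq_mul, mul_one]
    exact_mod_cast h2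
  · have h1 : ∀ e : E, ∑ j : Fin 3, GI7_d G (Sum.inr (e0, t) : SV V E) (e, j) =
        if e = e0 then (2 : ℝ) else 0 := by
      intro e
      rw [Fin.sum_univ_three]
      by_cases h : e = e0
      · subst h
        cases t <;> simp [GI7_d, LK] <;> norm_num
      · cases t <;> simp [GI7_d, LK, h]
    rw [Finset.sum_congr rfl fun e _ => h1 e, Finset.sum_ite_eq' univ e0]
    simp
    norm_num

/-- the product over the links, compared at two couplings. -/
theorem GI7_Zs (G : Gr V E) (hG : Deg4 G) (B : Finset E) (w : SV V E) (b : ℝ) (hb : 0 ≤ b)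
    (K K' : E × Fin 3 → ℝ) (u : E → ℝ) (h0 : ∀ e ∈ B, 0 ≤ u e) (h1 : ∀ e ∈ B, u e ≤ 1)
    (hK : ∀ e, e ∉ B → ∀ j : Fin 3, |K (e, j) - K' (e, j)| ≤ b * GI7_d G w (e, j)) :
    Real.exp (-(4 * b)) * Zs (LK4 G) (p4 B K) (q4 B K u) ≤
      Zs (LK4 G) (p4 B K') (q4 B K' u) := by
  unfold Zs
  rw [Finset.mul_sum]
  refine Finset.sum_le_sum fun σ _ => ?_
  rw [Fintype.prod_prod_type, Fintype.prod_prod_type]
  have hsg : ∀ x y : SV V E, sg (σ x) * sg (σ y) = 1 ∨ sg (σ x) * sg (σ y) = -1 := by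
    intro x y
    unfold sg
    cases σ x <;> cases σ y <;> simp
  have hexp : ∀ (x s : ℝ), (s = 1 ∨ s = -1) → Real.cosh x + Real.sinh x * s = Real.exp (x * s) := by
    intro x s hs
    rcases hs with rfl | rfl
    · rw [mul_one, mul_one, Real.cosh_add_sinh]
    · rw [mul_neg_one, mul_neg_one, ← sub_eq_add_neg, Real.cosh_sub_sinh]
  have hterm : ∀ e : E, 0 ≤ ∏ j : Fin 4, (p4 B K (e, j) + q4 B K u (e, j) *
      (sg (σ ((LK4 G).s (e, j))) * sg (σ ((LK4 G).r (e, j))))) := by
    intro e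
    refine Finset.prod_nonneg fun j _ => ?_
    by_cases he : e ∈ B
    · have hs := hsg ((LK4 G).s (e, j)) ((LK4 G).r (e, j))
      have h2 := h0 e he
      have h3 := h1 e he
      fin_cases j
      · simp [p4, q4, he]
      · simp [p4, q4, he]
      · simp [p4, q4, he]
      · rcases hs with hs | hs
        · simp only [p4, q4, he, if_true] at hs ⊢
          rw [hs]
          simp
          linarith
        · simp only [p4, q4, he, if_true] at hs ⊢
          rw [hs]
          simp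
          linarith
    · have hs := hsg ((LK4 G).s (e, j)) ((LK4 G).r (e, j))
      fin_cases j
      · simp only [p4, q4, he, if_false]
        exact (hexp _ _ hs).symm ▸ (Real.exp_pos _).le
      · simp only [p4, q4, he, if_false]
        exact (hexp _ _ hs).symm ▸ (Real.exp_pos _).le
      · simp only [p4, q4, he, if_false]
        exact (hexp _ _ hs).symm ▸ (Real.exp_pos _).le
      · simp [p4, q4, he]
  have hcmp : ∀ e : E, Real.exp (-(b * ∑ j : Fin 3, GI7_d G w (e, j))) *
      ∏ j : Fin 4, (p4 B K (e, j) + q4 B K u (e, j) *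
      (sg (σ ((LK4 G).s (e, j))) * sg (σ ((LK4 G).r (e, j))))) ≤
      ∏ j : Fin 4, (p4 B K' (e, j) + q4 B K' u (e, j) *
      (sg (σ ((LK4 G).s (e, j))) * sg (σ ((LK4 G).r (e, j))))) := by
    intro e
    by_cases he : e ∈ B
    · have h2 : ∀ j, p4 B K (e, j) = p4 B K' (e, j) ∧ q4 B K u (e, j) = q4 B K' u (e, j) := by
        intro j
        simp [p4, q4, he]
      have h3 : (∏ j : Fin 4, (p4 B K' (e, j) + q4 B K' u (e, j) *
        (sg (σ ((LK4 G).s (e, j))) * sg (σ ((LK4 G).r (e, j)))))) =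
        ∏ j : Fin 4, (p4 B K (e, j) + q4 B K u (e, j) *
        (sg (σ ((LK4 G).s (e, j))) * sg (σ ((LK4 G).r (e, j))))) := by
        refine Finset.prod_congr rfl fun j _ => ?_
        rw [(h2 j).1, (h2 j).2]
      rw [h3]
      refine mul_le_of_le_one_left (hterm e) ?_
      rw [Real.exp_le_one_iff, neg_nonpos]
      exact mul_nonneg hb (Finset.sum_nonneg fun j _ => GI7_d_nonneg G w (e, j))
    · have hs := fun j : Fin 4 => hsg ((LK4 G).s (e, j)) ((LK4 G).r (e, j))
      have hk := hK e he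
      have h2 : ∀ (K : E × Fin 3 → ℝ), (∏ j : Fin 4, (p4 B K (e, j) + q4 B K u (e, j) *
        (sg (σ ((LK4 G).s (e, j))) * sg (σ ((LK4 G).r (e, j)))))) =
        Real.exp (K (e, 0) * (sg (σ ((LK4 G).s (e, 0))) * sg (σ ((LK4 G).r (e, 0))))) *
        Real.exp (K (e, 1) * (sg (σ ((LK4 G).s (e, 1))) * sg (σ ((LK4 G).r (e, 1))))) *
        Real.exp (K (e, 2) * (sg (σ ((LK4 G).s (e, 2))) * sg (σ ((LK4 G).r (e, 2))))) := by
        intro K
        rw [Fin.prod_univ_four, ← hexp _ _ (hs 0), ← hexp _ _ (hs 1), ← hexp _ _ (hs 2)]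
        simp [p4, q4, he]
      rw [h2 K, h2 K', ← Real.exp_add, ← Real.exp_add, ← Real.exp_add, ← Real.exp_add,
        ← Real.exp_add, Real.exp_le_exp, Fin.sum_univ_three]
      have h5 : ∀ (x y s d : ℝ), (s = 1 ∨ s = -1) → |x - y| ≤ d → x * s - d ≤ y * s := by
        intro x y s d hs' hd
        have := abs_le.1 hd
        rcases hs' with rfl | rfl <;> linarith [this.1, this.2]
      have h6 := h5 _ _ _ _ (hs 0) (hk 0)
      have h7 := h5 _ _ _ _ (hs 1) (hk 1)
      have h8 := h5 _ _ _ _ (hs 2) (hk 2)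
      linarith
  calc Real.exp (-(4 * b)) * ∏ e : E, ∏ j : Fin 4, (p4 B K (e, j) + q4 B K u (e, j) *
      (sg (σ ((LK4 G).s (e, j))) * sg (σ ((LK4 G).r (e, j)))))
      ≤ (∏ e : E, Real.exp (-(b * ∑ j : Fin 3, GI7_d G w (e, j)))) *
        ∏ e : E, ∏ j : Fin 4, (p4 B K (e, j) + q4 B K u (e, j) *
      (sg (σ ((LK4 G).s (e, j))) * sg (σ ((LK4 G).r (e, j))))) := by
        refine mul_le_mul_of_nonneg_right ?_ (Finset.prod_nonneg fun e _ => hterm e)
        rw [← Real.exp_sum, Real.exp_le_exp, Finset.sum_neg_distrib, ← Finset.mul_sum]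
        have h9 := mul_le_mul_of_nonneg_left (GI7_sum_d G hG w) hb
        linarith
    _ = ∏ e : E, (Real.exp (-(b * ∑ j : Fin 3, GI7_d G w (e, j))) *
        ∏ j : Fin 4, (p4 B K (e, j) + q4 B K u (e, j) *
      (sg (σ ((LK4 G).s (e, j))) * sg (σ ((LK4 G).r (e, j)))))) := by
        rw [Finset.prod_mul_distrib]
    _ ≤ _ := by
        refine Finset.prod_le_prod (fun e _ => mul_nonneg (Real.exp_pos _).le (hterm e)) ?_
        intro e _
        exact hcmp e

/-- product coupling bound. -/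
theorem GI7_K (G : Gr V E) (M : Al) (x : Fin (M.k + 1) → ℝ) (hx0 : ∀ i, 0 ≤ x i) (hx1 : ∀ i, x i ≤ 1)
    (b : ℝ) (hb : 0 ≤ b) (c c' : SV V E → Fin (M.k + 1)) (w : SV V E) (hc : ∀ v, v ≠ w → c v = c' v)
    (l : E × Fin 3) :
    |b * (x (c ((LK G).s l)) * x (c ((LK G).r l))) - b * (x (c' ((LK G).s l)) * x (c' ((LK G).r l)))| ≤
      b * GI7_d G w l := by
  rw [← mul_sub, abs_mul, abs_of_nonneg hb]
  refine mul_le_mul_of_nonneg_left ?_ hb
  have hp : ∀ i j, 0 ≤ x i * x j ∧ x i * x j ≤ 1 := fun i j =>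
    ⟨mul_nonneg (hx0 i) (hx0 j), mul_le_one₀ (hx1 i) (hx0 j) (hx1 j)⟩
  unfold GI7_d
  by_cases h1 : (LK G).s l = w
  · have h3 : (0 : ℝ) ≤ (if (LK G).r l = w then (1 : ℝ) else 0) := by split_ifs <;> norm_num
    have h4 := hp (c ((LK G).s l)) (c ((LK G).r l))
    have h5 := hp (c' ((LK G).s l)) (c' ((LK G).r l))
    simp only [h1, if_true]
    rw [h1] at h4 h5
    rw [abs_le]
    constructor <;> linarith [h4.1, h4.2, h5.1, h5.2]
  · by_cases h2 : (LK G).r l = w
    · have h4 := hp (c ((LK G).s l)) (c ((LK G).r l))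
      have h5 := hp (c' ((LK G).s l)) (c' ((LK G).r l))
      simp only [h1, h2, if_true, if_false]
      rw [h2] at h4 h5
      rw [abs_le]
      constructor <;> linarith [h4.1, h4.2, h5.1, h5.2]
    · rw [hc _ h1, hc _ h2, sub_self, abs_zero]
      simp [h1, h2]

theorem GI7_Ls (G : Gr V E) (hG : Deg4 G) (M : Al) (hM : M.Ok) (b : ℝ) (hb : 0 ≤ b) (B : Finset E)
    (c c' : SV V E → Fin (M.k + 1)) (w : SV V E) (hc : ∀ v, v ≠ w → c v = c' v) (u : E → ℝ)
    (h0 : ∀ e ∈ B, 0 ≤ u e) (h1 : ∀ e ∈ B, u e ≤ 1) :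
    Real.exp (-(4 * b)) * Ls G M b B c u ≤ Ls G M b B c' u := by
  have h2 := GI7_Zs G hG B w b hb (la G M b c) (la G M b c') u h0 h1
    (fun e _ j => GI7_K G M M.cc (fun i => (hM.cc0 i).le) hM.cc1 b hb c c' w hc (e, j))
  rw [chain_sum, chain_sum] at h2
  have h3 : (0 : ℝ) < 4 ^ Fintype.card E := by positivity
  unfold Ls rr
  rw [mul_assoc, mul_assoc, mul_left_comm] at h2
  exact le_of_mul_le_mul_left h2 h3

theorem GI7_Lt (G : Gr V E) (hG : Deg4 G) (M : Al) (hM : M.Ok) (b : ℝ) (hb : 0 ≤ b) (B : Finset E)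
    (c c' : SV V E → Fin (M.k + 1)) (w : SV V E) (hc : ∀ v, v ≠ w → c v = c' v) (u : E → ℝ)
    (h0 : ∀ e ∈ B, 0 ≤ u e) (h1 : ∀ e ∈ B, u e ≤ 1) :
    Real.exp (-(4 * b)) * Lt G M b B c u ≤ Lt G M b B c' u := by
  have h2 := GI7_Zs G hG B w b hb (lb G M b c) (lb G M b c') u h0 h1
    (fun e _ j => GI7_K G M M.ss (fun i => (hM.ss0 i).le) hM.ss1 b hb c c' w hc (e, j))
  rw [chain_sum, chain_sum] at h2
  have h3 : (0 : ℝ) < 4 ^ Fintype.card E := by positivity
  unfold Lt tt
  rw [mul_assoc, mul_assoc, mul_left_comm] at h2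
  exact le_of_mul_le_mul_left h2 h3

theorem GI7_Ls_nonneg (G : Gr V E) (M : Al) (hM : M.Ok) (b : ℝ) (hb : 0 < b) (B : Finset E)
    (c : SV V E → Fin (M.k + 1)) (u : E → ℝ)
    (h0 : ∀ e ∈ B, 0 ≤ u e) (h1 : ∀ e ∈ B, u e ≤ 1) : 0 < Ls G M b B c u ∧ 0 < Lt G M b B c u := by
  constructor
  · unfold Ls
    refine mul_pos (Finset.prod_pos fun e _ => Finset.prod_pos fun j _ => Real.cosh_pos _) ?_
    refine Zv_pos G _ ?_ ?_
    · intro e
      split_ifs with he
      · exact h0 e he
      · exact (rr_bd G M hM b hb c e).1.le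
    · intro e
      split_ifs with he
      · exact h1 e he
      · exact (rr_bd G M hM b hb c e).2.1.le
  · unfold Lt
    refine mul_pos (Finset.prod_pos fun e _ => Finset.prod_pos fun j _ => Real.cosh_pos _) ?_
    refine Zv_pos G _ ?_ ?_
    · intro e
      split_ifs with he
      · exact h0 e he
      · exact (rr_bd G M hM b hb c e).2.2.1.le
    · intro e
      split_ifs with he
      · exact h1 e he
      · exact (rr_bd G M hM b hb c e).2.2.2.le

theorem GI7_wv (M : Al) (hM : M.Ok) (l : ℝ) (hl : 0 ≤ l) (c : SV V E → Fin (M.k + 1)) (w : SV V E)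
    (v : Fin (M.k + 1)) :
    Real.exp (-l) * (M.nu v * wv M l c) ≤ M.nu (c w) * wv M l (Function.update c w v) := by
  unfold wv
  rw [← Finset.mul_prod_erase univ _ (Finset.mem_univ w),
    ← Finset.mul_prod_erase univ (fun w' => M.nu (Function.update c w v w') *
      Real.exp (l * pn w' * M.cc (Function.update c w v w') ^ 2)) (Finset.mem_univ w)]
  have h1 : ∏ x ∈ univ.erase w, (M.nu (Function.update c w v x) *
      Real.exp (l * pn x * M.cc (Function.update c w v x) ^ 2)) =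
      ∏ x ∈ univ.erase w, (M.nu (c x) * Real.exp (l * pn x * M.cc (c x) ^ 2)) := by
    refine Finset.prod_congr rfl fun x hx => ?_
    rw [Function.update_of_ne (Finset.ne_of_mem_erase hx)]
  rw [h1, Function.update_self]
  have h2 : 0 ≤ ∏ x ∈ univ.erase w, (M.nu (c x) * Real.exp (l * pn x * M.cc (c x) ^ 2)) :=
    Finset.prod_nonneg fun x _ => mul_nonneg (hM.nu0 _).le (Real.exp_pos _).le
  have hpn : 0 ≤ (pn w : ℝ) ∧ (pn w : ℝ) ≤ 1 := by
    rcases w with v | ⟨e, t⟩
    · simp [pn]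
    · cases t <;> simp [pn]
  have h3 : Real.exp (-l) * Real.exp (l * pn w * M.cc (c w) ^ 2) ≤
      Real.exp (l * pn w * M.cc v ^ 2) := by
    rw [← Real.exp_add, Real.exp_le_exp]
    have h4 : l * pn w * M.cc (c w) ^ 2 ≤ l := by
      have h5 : M.cc (c w) ^ 2 ≤ 1 := pow_le_one₀ (hM.cc0 _).le (hM.cc1 _)
      have h6 : pn w * M.cc (c w) ^ 2 ≤ 1 := mul_le_one₀ hpn.2 (sq_nonneg _) h5
      calc l * pn w * M.cc (c w) ^ 2 = l * (pn w * M.cc (c w) ^ 2) := by ring
        _ ≤ l * 1 := mul_le_mul_of_nonneg_left h6 hl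
        _ = l := mul_one l
    have h7 : 0 ≤ l * pn w * M.cc v ^ 2 := mul_nonneg (mul_nonneg hl hpn.1) (sq_nonneg _)
    linarith
  have h8 : 0 ≤ M.nu v * M.nu (c w) * ∏ x ∈ univ.erase w, (M.nu (c x) *
      Real.exp (l * pn x * M.cc (c x) ^ 2)) :=
    mul_nonneg (mul_nonneg (hM.nu0 _).le (hM.nu0 _).le) h2
  have h9 := mul_le_mul_of_nonneg_left h3 h8
  calc _ = M.nu v * M.nu (c w) * (∏ x ∈ univ.erase w, (M.nu (c x) *
      Real.exp (l * pn x * M.cc (c x) ^ 2))) *
      (Real.exp (-l) * Real.exp (l * pn w * M.cc (c w) ^ 2)) := by ring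
    _ ≤ _ := h9
    _ = _ := by ring

/-- weight of the moduli after summing over the bits. -/
noncomputable def GI7_Q (G : Gr V E) (M : Al) (b l : ℝ) (B : Finset E) (tB : E → ℝ)
    (o0 : E → Bool) (c : SV V E → Fin (M.k + 1)) : ℝ :=
  wv M l c * Ls G M b B c (bt o0) * Lt G M b B c tB

theorem GI7_SB (G : Gr V E) (M : Al) (b l : ℝ) (A : Finset (SV V E)) (B : Finset E) (tB : E → ℝ)
    (c0 : SV V E → Fin (M.k + 1)) (o0 : E → Bool) (φ : (SV V E → Fin (M.k + 1)) → ℝ) :
    SB G M b l A B tB c0 o0 (fun c _ => φ c) =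
      ∑ c, (if ∀ w ∈ A, c w = c0 w then 1 else 0) * (GI7_Q G M b l B tB o0 c * φ c) := by
  unfold SB
  refine Finset.sum_congr rfl fun c _ => ?_
  by_cases hA : ∀ w ∈ A, c w = c0 w
  · rw [if_pos hA, one_mul]
    have h1 := fo_sum G B (rr G M b c) o0
    unfold fo at h1
    unfold GI7_Q Ls Lt
    rw [← h1]
    simp only [Finset.mul_sum, Finset.sum_mul]
    refine Finset.sum_congr rfl fun o _ => ?_
    by_cases ho : ∀ e ∈ B, o e = o0 e
    · rw [if_pos ⟨hA, ho⟩, if_pos ho]
      unfold WB AA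
      simp only [Finset.prod_mul_distrib]
      ring
    · rw [if_neg (fun h => ho h.2), if_neg ho]
      ring
  · rw [if_neg hA, zero_mul]
    refine Finset.sum_eq_zero fun o _ => ?_
    rw [if_neg (fun h => hA h.1)]

/-- exchange of the value at `w` with the extra value. -/
def GI7_eq {k : ℕ} (w : SV V E) :
    (SV V E → Fin (k + 1)) × Fin (k + 1) ≃ (SV V E → Fin (k + 1)) × Fin (k + 1) where
  toFun p := (Function.update p.1 w p.2, p.1 w)
  invFun p := (Function.update p.1 w p.2, p.1 w)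
  left_inv p := by
    simp
  right_inv p := by
    simp

theorem fin_en (G : Gr V E) (hG : Deg4 G) (M : Al) (hM : M.Ok) (b l : ℝ) (hb : 0 < b) (hl : 0 ≤ l)
    (A : Finset (SV V E)) (B : Finset E)
    (hB : ∀ e ∈ B, Sum.inl (G.s e) ∈ A ∧ Sum.inl (G.r e) ∈ A ∧ Sum.inr (e, false) ∈ A ∧
      Sum.inr (e, true) ∈ A)
    (tB : E → ℝ) (h0 : ∀ e ∈ B, 0 ≤ tB e) (h1 : ∀ e ∈ B, tB e ≤ 1)
    (c0 : SV V E → Fin (M.k + 1)) (o0 : E → Bool) (w : SV V E) (hw : w ∉ A)
    (S : Finset (Fin (M.k + 1))) :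
    Real.exp (-(8 * b + l)) * ∑ v ∈ S, M.nu v ≤
      EB G M b l A B tB c0 o0 (fun c _ => if c w ∈ S then 1 else 0) := by
  have hpos := SB_pos G M hM b l hb A B tB h0 h1 c0 o0
  unfold EB
  rw [le_div_iff₀ hpos, GI7_SB G M b l A B tB c0 o0 (fun _ => 1),
    GI7_SB G M b l A B tB c0 o0 (fun c => if c w ∈ S then 1 else 0)]
  have hbt0 : ∀ e ∈ B, 0 ≤ bt o0 e := by
    intro e _
    unfold bt
    split_ifs <;> norm_num
  have hbt1 : ∀ e ∈ B, bt o0 e ≤ 1 := by
    intro e _
    unfold bt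
    split_ifs <;> norm_num
  -- the local comparison
  have key : ∀ (c : SV V E → Fin (M.k + 1)) (v : Fin (M.k + 1)),
      Real.exp (-(8 * b + l)) * (M.nu v * GI7_Q G M b l B tB o0 c) ≤
        M.nu (c w) * GI7_Q G M b l B tB o0 (Function.update c w v) := by
    intro c v
    have hc : ∀ x, x ≠ w → c x = Function.update c w v x := by
      intro x hx
      rw [Function.update_of_ne hx]
    have e1 := GI7_Ls G hG M hM b hb.le B c (Function.update c w v) w hc (bt o0) hbt0 hbt1
    have e2 := GI7_Lt G hG M hM b hb.le B c (Function.update c w v) w hc tB h0 h1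
    have e3 := GI7_wv M hM l hl c w v
    have p1 := (GI7_Ls_nonneg G M hM b hb B c (bt o0) hbt0 hbt1).1
    have p2 := (GI7_Ls_nonneg G M hM b hb B c tB h0 h1).2
    have p3 := (GI7_Ls_nonneg G M hM b hb B (Function.update c w v) (bt o0) hbt0 hbt1).1
    have p4' := (GI7_Ls_nonneg G M hM b hb B (Function.update c w v) tB h0 h1).2
    have hw1 : 0 ≤ wv M l (Function.update c w v) := by
      unfold wv
      exact Finset.prod_nonneg fun x _ => mul_nonneg (hM.nu0 _).le (Real.exp_pos _).le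
    have hexp : Real.exp (-(8 * b + l)) =
        Real.exp (-l) * Real.exp (-(4 * b)) * Real.exp (-(4 * b)) := by
      rw [← Real.exp_add, ← Real.exp_add]
      congr 1
      ring
    unfold GI7_Q
    calc Real.exp (-(8 * b + l)) * (M.nu v * (wv M l c * Ls G M b B c (bt o0) * Lt G M b B c tB))
        = (Real.exp (-l) * (M.nu v * wv M l c)) * (Real.exp (-(4 * b)) * Ls G M b B c (bt o0)) *
          (Real.exp (-(4 * b)) * Lt G M b B c tB) := by
          rw [hexp]; ring
      _ ≤ (M.nu (c w) * wv M l (Function.update c w v)) *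
          Ls G M b B (Function.update c w v) (bt o0) * Lt G M b B (Function.update c w v) tB := by
          refine mul_le_mul (mul_le_mul e3 e1 (by positivity) (mul_nonneg (hM.nu0 _).le hw1)) e2
            (by positivity) (mul_nonneg (mul_nonneg (hM.nu0 _).le hw1) p3.le)
      _ = _ := by ring
  -- the two sides as double sums
  have hL : Real.exp (-(8 * b + l)) * (∑ v ∈ S, M.nu v) *
      ∑ c, (if ∀ w ∈ A, c w = c0 w then (1 : ℝ) else 0) * (GI7_Q G M b l B tB o0 c * 1) =
      ∑ c, ∑ v, (if ∀ w ∈ A, c w = c0 w then (1 : ℝ) else 0) * (if v ∈ S then 1 else 0) *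
        (Real.exp (-(8 * b + l)) * (M.nu v * GI7_Q G M b l B tB o0 c)) := by
    rw [Finset.mul_sum]
    refine Finset.sum_congr rfl fun c _ => ?_
    have h2 : ∑ v ∈ S, M.nu v = ∑ v, (if v ∈ S then (1 : ℝ) else 0) * M.nu v := by
      simp [Finset.sum_ite_mem]
    rw [h2, Finset.mul_sum, Finset.sum_mul]
    refine Finset.sum_congr rfl fun v _ => ?_
    ring
  have hR : ∑ c, (if ∀ w ∈ A, c w = c0 w then (1 : ℝ) else 0) *
      (GI7_Q G M b l B tB o0 c * (if c w ∈ S then 1 else 0)) =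
      ∑ c, ∑ v, (if ∀ w ∈ A, c w = c0 w then (1 : ℝ) else 0) * (if c w ∈ S then 1 else 0) *
        (M.nu v * GI7_Q G M b l B tB o0 c) := by
    refine Finset.sum_congr rfl fun c _ => ?_
    rw [← Finset.mul_sum, ← Finset.sum_mul, hM.nu1]
    ring
  have hswap : ∑ c, ∑ v, (if ∀ w ∈ A, c w = c0 w then (1 : ℝ) else 0) * (if c w ∈ S then 1 else 0) *
        (M.nu v * GI7_Q G M b l B tB o0 c) =
      ∑ c, ∑ v, (if ∀ w ∈ A, c w = c0 w then (1 : ℝ) else 0) * (if v ∈ S then 1 else 0) *
        (M.nu (c w) * GI7_Q G M b l B tB o0 (Function.update c w v)) := by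
    rw [← Fintype.sum_prod_type' (fun (c : SV V E → Fin (M.k + 1)) (v : Fin (M.k + 1)) =>
        (if ∀ w ∈ A, c w = c0 w then (1 : ℝ) else 0) * (if c w ∈ S then 1 else 0) *
        (M.nu v * GI7_Q G M b l B tB o0 c)),
      ← Fintype.sum_prod_type' (fun (c : SV V E → Fin (M.k + 1)) (v : Fin (M.k + 1)) =>
        (if ∀ w ∈ A, c w = c0 w then (1 : ℝ) else 0) * (if v ∈ S then 1 else 0) *
        (M.nu (c w) * GI7_Q G M b l B tB o0 (Function.update c w v))),
      ← (GI7_eq (k := M.k) w).sum_comp]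
    refine Finset.sum_congr rfl fun p _ => ?_
    have h3 : (∀ w' ∈ A, Function.update p.1 w p.2 w' = c0 w') ↔ ∀ w' ∈ A, p.1 w' = c0 w' := by
      refine forall₂_congr fun w' hw' => ?_
      have h4 : w' ≠ w := by
        rintro rfl; exact hw hw'
      rw [Function.update_of_ne h4]
    simp only [GI7_eq, Equiv.coe_fn_mk, h3, Function.update_self]
  rw [hL, hR, hswap]
  refine Finset.sum_le_sum fun c _ => Finset.sum_le_sum fun v _ => ?_
  refine mul_le_mul_of_nonneg_left (key c v) (mul_nonneg ?_ ?_)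
  · split_ifs <;> norm_num
  · split_ifs <;> norm_num

end H82.BX

end S_H82_BX_GI7

section S_H82_BX_OSB

/-!
# OSB: decoupling

`aT n A x y ≤ ce A x * ce A y + kT n A x y`, by induction on `n`.  Case `some i`: write `a' x' y' = aT n (insert i A) x' y'`,
`qx = qt (cp m A x i)`, `qy = qt (cp m A y i)`.  For all `u v`: the values `qy u`, `qy v` are comparable, so `os_comp` gives
`a' (x qx(u)) (y qy(u)) ≤ a' (x qx(u)) (y qy(v)) + |F (y qy(u)) - F (y qy(v))|` with `F = ce m f (insert i A)`.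
Integrate over `u` and `v` (`qt_int` twice): the left side is `aT (n+1) A x y`, the right side is
`∑_c ∑_c' cp_x c cp_y c' a'(x c)(y c') + infl m f A y i`; then use the induction hypothesis and `ce_step` twice.
-/

set_option autoImplicit false

open Finset MeasureTheory

namespace H82.BX

variable {I : Type} [Fintype I] [DecidableEq I] {X : I → Type} [∀ i, Fintype (X i)]
  [∀ i, LinearOrder (X i)] [∀ i, Nonempty (X i)]

theorem osb_upd (A : Finset I) (y : ∀ i, X i) (i : I) (c d : X i) (h : c ≤ d) :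
    ∀ j ∈ insert i A, Function.update y i c j ≤ Function.update y i d j := by
  intro j _
  by_cases hj : j = i
  · subst hj
    simpa using h
  · simp [Function.update_of_ne hj]

theorem osb_point (m f : (∀ i, X i) → ℝ) (hm : ∀ x, 0 < m x) (hf : Monotone f)
    (hf0 : ∀ x, 0 ≤ f x) (hf1 : ∀ x, f x ≤ 1) (Ad : Finset I → Prop)
    (nx : Finset I → (∀ i, X i) → Option I) (hL : Legal Ad nx) (hM : MonM m Ad) (n : ℕ)
    (A : Finset I) (i : I) (hA : Ad (insert i A)) (x y : ∀ i, X i) (c d : X i) :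
    aT m f nx n (insert i A) x (Function.update y i c) ≤
      aT m f nx n (insert i A) x (Function.update y i d) +
        |ce m f (insert i A) (Function.update y i c) -
          ce m f (insert i A) (Function.update y i d)| := by
  rcases le_total c d with h | h
  · have := os_comp m f hm hf hf0 hf1 Ad nx hL hM n (insert i A) hA x _ _ (osb_upd A y i c d h)
    have h2 := abs_nonneg (ce m f (insert i A) (Function.update y i c) -
          ce m f (insert i A) (Function.update y i d))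
    linarith [this.1]
  · have := os_comp m f hm hf hf0 hf1 Ad nx hL hM n (insert i A) hA x _ _ (osb_upd A y i d c h)
    have h2 := le_abs_self (ce m f (insert i A) (Function.update y i c) -
          ce m f (insert i A) (Function.update y i d))
    linarith [this.2]

theorem osb_int {Y : Type} [Fintype Y] [LinearOrder Y] [Nonempty Y] (px py : Y → ℝ)
    (hpx : ∀ c, 0 ≤ px c) (hpy : ∀ c, 0 ≤ py c) (hx1 : ∑ c, px c = 1) (hy1 : ∑ c, py c = 1)
    (g : Y → Y → ℝ) (F : Y → ℝ) (h : ∀ c d d', g c d ≤ g c d' + |F d - F d'|) :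
    ∫ u in (0 : ℝ)..1, g (qt px u) (qt py u) ≤
      ∑ c, ∑ d, px c * py d * g c d + ∑ c, ∑ d, py c * py d * |F c - F d| := by
  have hI : ∀ G : Y → Y → ℝ, IntervalIntegrable (fun u => G (qt px u) (qt py u)) volume 0 1 :=
    fun G => qt_intble px py G
  have h1 : ∀ d', ∫ u in (0 : ℝ)..1, g (qt px u) (qt py u) ≤
      ∑ c, px c * g c d' + ∑ d, py d * |F d - F d'| := by
    intro d'
    calc ∫ u in (0 : ℝ)..1, g (qt px u) (qt py u)
        ≤ ∫ u in (0 : ℝ)..1, (g (qt px u) d' + |F (qt py u) - F d'|) := by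
          refine intervalIntegral.integral_mono_on (by norm_num) (hI g)
            (hI fun c d => g c d' + |F d - F d'|) ?_
          intro u _
          exact h _ _ _
      _ = (∫ u in (0 : ℝ)..1, g (qt px u) d') + ∫ u in (0 : ℝ)..1, |F (qt py u) - F d'| :=
          intervalIntegral.integral_add (hI fun c _ => g c d') (hI fun _ d => |F d - F d'|)
      _ = _ := by
          rw [qt_int px hpx hx1 (fun c => g c d'), qt_int py hpy hy1 (fun d => |F d - F d'|)]
  calc ∫ u in (0 : ℝ)..1, g (qt px u) (qt py u)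
      = ∑ d', py d' * ∫ u in (0 : ℝ)..1, g (qt px u) (qt py u) := by
        rw [← Finset.sum_mul, hy1, one_mul]
    _ ≤ ∑ d', py d' * (∑ c, px c * g c d' + ∑ d, py d * |F d - F d'|) :=
        Finset.sum_le_sum fun d' _ => mul_le_mul_of_nonneg_left (h1 d') (hpy d')
    _ = ∑ d', ∑ c, px c * py d' * g c d' + ∑ d', ∑ d, py d * py d' * |F d - F d'| := by
        rw [← Finset.sum_add_distrib]
        refine Finset.sum_congr rfl fun d' _ => ?_
        rw [mul_add, Finset.mul_sum, Finset.mul_sum]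
        congr 1
        · exact Finset.sum_congr rfl fun c _ => by ring
        · exact Finset.sum_congr rfl fun c _ => by ring
    _ = _ := by
        rw [Finset.sum_comm]
        congr 1
        rw [Finset.sum_comm]

theorem os_cost (m f : (∀ i, X i) → ℝ) (hm : ∀ x, 0 < m x) (hf : Monotone f) (hf0 : ∀ x, 0 ≤ f x)
    (hf1 : ∀ x, f x ≤ 1) (Ad : Finset I → Prop) (nx : Finset I → (∀ i, X i) → Option I)
    (hL : Legal Ad nx) (hM : MonM m Ad) (n : ℕ) (A : Finset I) (hA : Ad A) (x y : ∀ i, X i) :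
    aT m f nx n A x y ≤ ce m f A x * ce m f A y + kT m f nx n A x y := by
  induction n generalizing A x y with
  | zero => simp [aT, kT]
  | succ n ih =>
    rcases hx : nx A x with _ | i
    · simp [aT, kT, hx]
    · have hi : i ∉ A := hL.new A x i hx
      have hA' : Ad (insert i A) := hL.adm A x i hA hx
      have e1 : aT m f nx (n + 1) A x y = ∫ u in (0 : ℝ)..1, aT m f nx n (insert i A)
          (Function.update x i (qt (cp m A x i) u)) (Function.update y i (qt (cp m A y i) u)) := by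
        simp only [aT, hx]
      have e2 : kT m f nx (n + 1) A x y = infl m f A y i + ∑ c, ∑ c', cp m A x i c *
          cp m A y i c' *
          kT m f nx n (insert i A) (Function.update x i c) (Function.update y i c') := by
        simp only [kT, hx]
      have hpx := cp_nonneg m hm A x i
      have hpy := cp_nonneg m hm A y i
      have h1 := osb_int (cp m A x i) (cp m A y i) hpx hpy (cp_sum m hm A x i hi)
        (cp_sum m hm A y i hi)
        (fun c d => aT m f nx n (insert i A) (Function.update x i c) (Function.update y i d))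
        (fun d => ce m f (insert i A) (Function.update y i d))
        (fun c d d' => osb_point m f hm hf hf0 hf1 Ad nx hL hM n A i hA' _ y d d')
      rw [e1, e2]
      refine h1.trans ?_
      have h2 : ∑ c, ∑ d, cp m A x i c * cp m A y i d *
          aT m f nx n (insert i A) (Function.update x i c) (Function.update y i d) ≤
          ∑ c, ∑ d, cp m A x i c * cp m A y i d *
          (ce m f (insert i A) (Function.update x i c) *
            ce m f (insert i A) (Function.update y i d) +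
            kT m f nx n (insert i A) (Function.update x i c) (Function.update y i d)) := by
        refine Finset.sum_le_sum fun c _ => Finset.sum_le_sum fun d _ => ?_
        exact mul_le_mul_of_nonneg_left (ih (insert i A) hA' _ _) (mul_nonneg (hpx c) (hpy d))
      have h3 : ∑ c, ∑ d, cp m A x i c * cp m A y i d *
          (ce m f (insert i A) (Function.update x i c) *
            ce m f (insert i A) (Function.update y i d) +
            kT m f nx n (insert i A) (Function.update x i c) (Function.update y i d)) =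
          ce m f A x * ce m f A y + ∑ c, ∑ d, cp m A x i c * cp m A y i d *
            kT m f nx n (insert i A) (Function.update x i c) (Function.update y i d) := by
        rw [← ce_step m f hm A x i hi, ← ce_step m f hm A y i hi, Finset.sum_mul_sum,
          ← Finset.sum_add_distrib]
        refine Finset.sum_congr rfl fun c _ => ?_
        rw [← Finset.sum_add_distrib]
        exact Finset.sum_congr rfl fun d _ => by ring
      have h4 : ∑ c, ∑ d, cp m A y i c * cp m A y i d *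
          |ce m f (insert i A) (Function.update y i c) -
            ce m f (insert i A) (Function.update y i d)| = infl m f A y i := rfl
      rw [h4]
      linarith

end H82.BX

end S_H82_BX_OSB

section S_H82_BX_OSC

/-!
# OSC: the diagonal

`aT n A x x = ce m (f^2) A x` as soon as `n ≥ |I \ A|`: induction on `n`.  When `nx A x = none`, `f` is constant (`= f x`) on the
configurations equal to `x` on `A` (`hdet`), so `ce m f A x = f x`, `ce m (f^2) A x = (f x)^2` (`ce_const`).  When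
`nx A x = some i`: both arguments are updated with the same value `qt (cp m A x i) u`; `qt_int` and `ce_step` (for `f^2`).
`n = 0`: `A = univ` (card), so `f` is determined again (`y = x`).
-/

set_option autoImplicit false

open Finset MeasureTheory

namespace H82.BX

variable {I : Type} [Fintype I] [DecidableEq I] {X : I → Type} [∀ i, Fintype (X i)]
  [∀ i, LinearOrder (X i)] [∀ i, Nonempty (X i)]

theorem osc_sq (m f : (∀ i, X i) → ℝ) (hm : ∀ x, 0 < m x) (A : Finset I) (x : ∀ i, X i)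
    (h : ∀ y : (∀ i, X i), (∀ i ∈ A, y i = x i) → f y = f x) :
    ce m f A x * ce m f A x = ce m (fun z => f z ^ 2) A x := by
  rw [ce_const m f hm A x h, ce_const m (fun z => f z ^ 2) hm A x (fun y hy => by
    show f y ^ 2 = f x ^ 2
    rw [h y hy])]
  ring

theorem osc_none (m f : (∀ i, X i) → ℝ) (nx : Finset I → (∀ i, X i) → Option I) (n : ℕ)
    (A : Finset I) (x y : ∀ i, X i) (h : nx A x = none) :
    aT m f nx (n + 1) A x y = ce m f A x * ce m f A y := by
  simp only [aT, h]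

theorem osc_some (m f : (∀ i, X i) → ℝ) (nx : Finset I → (∀ i, X i) → Option I) (n : ℕ)
    (A : Finset I) (x y : ∀ i, X i) (i : I) (h : nx A x = some i) :
    aT m f nx (n + 1) A x y = ∫ u in (0 : ℝ)..1, aT m f nx n (insert i A)
        (Function.update x i (qt (cp m A x i) u)) (Function.update y i (qt (cp m A y i) u)) := by
  simp only [aT, h]

theorem os_diag (m f : (∀ i, X i) → ℝ) (hm : ∀ x, 0 < m x) (Ad : Finset I → Prop)
    (nx : Finset I → (∀ i, X i) → Option I) (hL : Legal Ad nx)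
    (hdet : ∀ A, Ad A → ∀ x : (∀ i, X i), nx A x = none →
      ∀ y, (∀ i ∈ A, y i = x i) → f y = f x)
    (n : ℕ) (A : Finset I) (hA : Ad A) (hn : (univ \ A).card ≤ n) (x : ∀ i, X i) :
    aT m f nx n A x x = ce m (fun z => f z ^ 2) A x := by
  induction n generalizing A x with
  | zero =>
    have hA' : ∀ i : I, i ∈ A := by
      intro i
      have h0 : (univ \ A) = ∅ := by
        apply Finset.card_eq_zero.mp
        omega
      by_contra hi
      have : i ∈ (univ \ A) := by
        rw [Finset.mem_sdiff]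
        exact ⟨Finset.mem_univ i, hi⟩
      rw [h0] at this
      exact absurd this (Finset.notMem_empty i)
    show ce m f A x * ce m f A x = _
    apply osc_sq m f hm A x
    intro y hy
    have : y = x := funext (fun i => hy i (hA' i))
    rw [this]
  | succ n ih =>
    cases h : nx A x with
    | none =>
      rw [osc_none m f nx n A x x h]
      exact osc_sq m f hm A x (hdet A hA x h)
    | some i =>
      have hi := hL.new A x i h
      have hA2 := hL.adm A x i hA h
      have hc : (univ \ insert i A).card ≤ n := by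
        have h1 : (univ \ insert i A) = (univ \ A).erase i := by
          ext j
          simp only [Finset.mem_sdiff, Finset.mem_univ, true_and, Finset.mem_insert,
            Finset.mem_erase, not_or]
        rw [h1, Finset.card_erase_of_mem (by
          rw [Finset.mem_sdiff]
          exact ⟨Finset.mem_univ i, hi⟩)]
        omega
      rw [osc_some m f nx n A x x i h]
      have h2 : ∀ u : ℝ, aT m f nx n (insert i A) (Function.update x i (qt (cp m A x i) u))
          (Function.update x i (qt (cp m A x i) u)) =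
          (fun c => ce m (fun z => f z ^ 2) (insert i A) (Function.update x i c))
            (qt (cp m A x i) u) := fun u => ih (insert i A) hA2 hc _
      simp only [h2]
      rw [qt_int (cp m A x i) (fun c => cp_nonneg m hm A x i c) (cp_sum m hm A x i hi)
        (fun c => ce m (fun z => f z ^ 2) (insert i A) (Function.update x i c))]
      exact ce_step m (fun z => f z ^ 2) hm A x i hi

end H82.BX

end S_H82_BX_OSC

section S_H82_BX_OSS

/-!
# OSS: the OSSS inequality for monotone systems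

`N = |I|`.  `∑ m f² = ce m f² ∅ x = aT N ∅ x x` (`os_diag`) for every `x`.  The value `aT N ∅ x y` does not depend on `x, y`
(`Legal.loc`, `ce_congr` with the empty set: all recursions at `A = ∅` only use `x`, `y` through their values on the revealed set;
induction: `aT n A x y` depends on `x`, `y` only through their values on `A`).  So
`∑ m f² = ∑_y m y aT N ∅ x y ≤ ∑_y m y (ce ∅ x * ce ∅ y + kT N ∅ x y)` (`os_cost`), `ce m f ∅ x = ∑ m f`, and `os_rev`.
-/

set_option autoImplicit false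

open Finset MeasureTheory

namespace H82.BX

open H82.IC

variable {I : Type} [Fintype I] [DecidableEq I] {X : I → Type} [∀ i, Fintype (X i)]
  [∀ i, LinearOrder (X i)] [∀ i, Nonempty (X i)]

theorem oss_upd (A : Finset I) (y y' : ∀ i, X i) (h : ∀ i ∈ A, y i = y' i) (i : I) (c : X i) :
    ∀ j ∈ insert i A, Function.update y i c j = Function.update y' i c j := by
  intro j hj
  by_cases hji : j = i
  · subst hji
    rw [Function.update_self, Function.update_self]
  · rw [Function.update_of_ne hji, Function.update_of_ne hji]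
    exact h j ((Finset.mem_insert.1 hj).resolve_left hji)

theorem oss_cp (m : (∀ i, X i) → ℝ) (A : Finset I) (y y' : ∀ i, X i)
    (h : ∀ i ∈ A, y i = y' i) (i : I) : cp m A y i = cp m A y' i := by
  funext c
  unfold cp
  rw [cs_congr A y y' h m, cs_congr (insert i A) _ _ (oss_upd A y y' h i c) m]

theorem oss_aT (m f : (∀ i, X i) → ℝ) (nx : Finset I → (∀ i, X i) → Option I) (n : ℕ) :
    ∀ (A : Finset I) (x y y' : ∀ i, X i), (∀ i ∈ A, y i = y' i) →
      aT m f nx n A x y = aT m f nx n A x y' := by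
  induction n with
  | zero =>
    intro A x y y' h
    simp only [aT]
    rw [ce_congr m f A y y' h]
  | succ n ih =>
    intro A x y y' h
    simp only [aT]
    cases nx A x with
    | none =>
      dsimp only
      rw [ce_congr m f A y y' h]
    | some i =>
      dsimp only
      rw [oss_cp m A y y' h i]
      congr 1
      funext u
      exact ih _ _ _ _ (oss_upd A y y' h i _)

theorem oss_ce (m g : (∀ i, X i) → ℝ) (h1 : ∑ x, m x = 1) (x : ∀ i, X i) :
    ce m g ∅ x = ∑ y, m y * g y := by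
  unfold ce cs
  simp only [Finset.notMem_empty, false_imp_iff, implies_true, if_true]
  rw [h1, div_one]

theorem osss (m f : (∀ i, X i) → ℝ) (hm : ∀ x, 0 < m x) (h1 : ∑ x, m x = 1) (hf : Monotone f)
    (hf0 : ∀ x, 0 ≤ f x) (hf1 : ∀ x, f x ≤ 1) (Ad : Finset I → Prop)
    (nx : Finset I → (∀ i, X i) → Option I) (hL : Legal Ad nx) (hM : MonM m Ad)
    (hdet : ∀ A, Ad A → ∀ x : (∀ i, X i), nx A x = none →
      ∀ y, (∀ i ∈ A, y i = x i) → f y = f x)
    (c : I → ℝ) (hc : ∀ A i, Ad A → i ∉ A → Ad (insert i A) → ∑ x, m x * infl m f A x i ≤ c i) :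
    (∑ x, m x * f x ^ 2) - (∑ x, m x * f x) ^ 2 ≤
      ∑ i, (∑ z, m z * ind (i ∈ rev nx (Fintype.card I) z)) * c i := by
  obtain ⟨x⟩ : Nonempty (∀ i, X i) := inferInstance
  have hdiag : aT m f nx (Fintype.card I) ∅ x x = ∑ y, m y * f y ^ 2 := by
    rw [os_diag m f hm Ad nx hL hdet (Fintype.card I) ∅ hL.empty (Finset.card_le_univ _) x,
      oss_ce m _ h1 x]
  have hcost : ∀ y, m y * (∑ z, m z * f z ^ 2) ≤
      m y * ((∑ z, m z * f z) ^ 2) + m y * kT m f nx (Fintype.card I) ∅ x y := by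
    intro y
    rw [← mul_add]
    refine mul_le_mul_of_nonneg_left ?_ (hm y).le
    have h := os_cost m f hm hf hf0 hf1 Ad nx hL hM (Fintype.card I) ∅ hL.empty x y
    rw [oss_aT m f nx (Fintype.card I) ∅ x y x (fun i hi => absurd hi (Finset.notMem_empty i)),
      hdiag, oss_ce m f h1 x, oss_ce m f h1 y, ← sq] at h
    exact h
  have hsum := Finset.sum_le_sum fun y (_ : y ∈ (Finset.univ : Finset (∀ i, X i))) => hcost y
  rw [Finset.sum_add_distrib, ← Finset.sum_mul, ← Finset.sum_mul, h1, one_mul, one_mul] at hsum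
  have hrev := os_rev m f hm h1 Ad nx hL c hc (Fintype.card I) x
  linarith

end H82.BX

end S_H82_BX_OSS

section S_H82_BX_EX1

/-!
# EX1: the exploration of the clusters of the seeds

`nx_legal`: `nxS` depends on `x` only through `eo S x`, which depends on the bits in `S`; the four tests reveal the coordinates in the
order ends, `z_e`, `m_e`, bit, so admissibility is kept.
`nx_none`: if there is no candidate, no unexplored edge touches the explored cluster of the seeds, so (induction along paths) every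
`y` equal to `x` on `S` has the same seed clusters.
`rev_touch`: induction on `n`: if `i` is queried at `A = rev nx k x`, the candidate `e` touches the explored cluster and `eo A x ⊆ op1 (po x)`.
-/

set_option autoImplicit false

open Finset MeasureTheory

namespace H82.BX

open H82.IC

variable {V E : Type} [Fintype V] [DecidableEq V] [Fintype E] [DecidableEq E] {k : ℕ}

/-- the coordinate `i` belongs to the edge `e`. -/
def toE (G : Gr V E) (i : SV V E ⊕ E) (e : E) : Prop :=
  i = Sum.inl (Sum.inl (G.s e)) ∨ i = Sum.inl (Sum.inl (G.r e)) ∨ i = Sum.inl (Sum.inr (e, false)) ∨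
    i = Sum.inl (Sum.inr (e, true)) ∨ i = Sum.inr e

/-- the next coordinate for a candidate predicate. -/
noncomputable def nxP (G : Gr V E) (S : Finset (SV V E ⊕ E)) (P : E → Prop) :
    Option (SV V E ⊕ E) :=
  open Classical in
  if h : ∃ e, P e then
    (if Sum.inl (Sum.inl (G.s h.choose)) ∉ S then some (Sum.inl (Sum.inl (G.s h.choose)))
    else if Sum.inl (Sum.inl (G.r h.choose)) ∉ S then some (Sum.inl (Sum.inl (G.r h.choose)))
    else if Sum.inl (Sum.inr (h.choose, false)) ∉ S then some (Sum.inl (Sum.inr (h.choose, false)))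
    else if Sum.inl (Sum.inr (h.choose, true)) ∉ S then some (Sum.inl (Sum.inr (h.choose, true)))
    else some (Sum.inr h.choose))
  else none

theorem nxS_eq (G : Gr V E) (Sd : Finset V) (S : Finset (SV V E ⊕ E)) (x : ∀ i, XI k V E i) :
    nxS G Sd S x = nxP G S (cand G Sd S x) := rfl

theorem EX1_eo (S : Finset (SV V E ⊕ E)) (x y : ∀ i, XI k V E i) (h : ∀ i ∈ S, x i = y i) :
    eo S x = eo S y := by
  ext e
  constructor
  · rintro ⟨h1, h2⟩
    refine ⟨h1, ?_⟩
    have h3 : po y e = po x e := (h _ h1).symm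
    rw [h3]
    exact h2
  · rintro ⟨h1, h2⟩
    refine ⟨h1, ?_⟩
    have h3 : po x e = po y e := h _ h1
    rw [h3]
    exact h2

theorem EX1_cand (G : Gr V E) (Sd : Finset V) (S : Finset (SV V E ⊕ E)) (x y : ∀ i, XI k V E i)
    (h : ∀ i ∈ S, x i = y i) : cand G Sd S x = cand G Sd S y := by
  unfold cand
  rw [EX1_eo S x y h]

theorem EX1_spec (G : Gr V E) (S : Finset (SV V E ⊕ E)) (P : E → Prop)
    (hP : ∀ e, P e → Sum.inr e ∉ S) (i : SV V E ⊕ E) (h : nxP G S P = some i) :
    i ∉ S ∧ ∃ e, P e ∧ (i = Sum.inl (Sum.inl (G.s e)) ∨ i = Sum.inl (Sum.inl (G.r e)) ∨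
      (i = Sum.inl (Sum.inr (e, false)) ∧ Sum.inl (Sum.inl (G.s e)) ∈ S ∧
        Sum.inl (Sum.inl (G.r e)) ∈ S) ∨
      (i = Sum.inl (Sum.inr (e, true)) ∧ Sum.inl (Sum.inr (e, false)) ∈ S) ∨
      (i = Sum.inr e ∧ Sum.inl (Sum.inr (e, true)) ∈ S)) := by
  classical
  unfold nxP at h
  by_cases h0 : ∃ e, P e
  · rw [dif_pos h0] at h
    by_cases h1 : Sum.inl (Sum.inl (G.s h0.choose)) ∉ S
    · rw [if_pos h1] at h
      obtain rfl := Option.some.inj h
      exact ⟨h1, _, h0.choose_spec, Or.inl rfl⟩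
    rw [if_neg h1] at h
    by_cases h2 : Sum.inl (Sum.inl (G.r h0.choose)) ∉ S
    · rw [if_pos h2] at h
      obtain rfl := Option.some.inj h
      exact ⟨h2, _, h0.choose_spec, Or.inr (Or.inl rfl)⟩
    rw [if_neg h2] at h
    by_cases h3 : Sum.inl (Sum.inr (h0.choose, false)) ∉ S
    · rw [if_pos h3] at h
      obtain rfl := Option.some.inj h
      exact ⟨h3, _, h0.choose_spec, Or.inr (Or.inr (Or.inl ⟨rfl, not_not.1 h1, not_not.1 h2⟩))⟩
    rw [if_neg h3] at h
    by_cases h4 : Sum.inl (Sum.inr (h0.choose, true)) ∉ S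
    · rw [if_pos h4] at h
      obtain rfl := Option.some.inj h
      exact ⟨h4, _, h0.choose_spec, Or.inr (Or.inr (Or.inr (Or.inl ⟨rfl, not_not.1 h3⟩)))⟩
    rw [if_neg h4] at h
    obtain rfl := Option.some.inj h
    exact ⟨hP _ h0.choose_spec, _, h0.choose_spec,
      Or.inr (Or.inr (Or.inr (Or.inr ⟨rfl, not_not.1 h4⟩)))⟩
  · rw [dif_neg h0] at h
    cases h

theorem EX1_none (G : Gr V E) (S : Finset (SV V E ⊕ E)) (P : E → Prop)
    (h : nxP G S P = none) (e : E) : ¬ P e := by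
  classical
  intro he
  have h0 : ∃ e, P e := ⟨e, he⟩
  unfold nxP at h
  rw [dif_pos h0] at h
  split_ifs at h

theorem EX1_cn (G : Gr V E) (Sd : Finset V) (S : Finset (SV V E ⊕ E)) (x : ∀ i, XI k V E i) (e : E)
    (h : cand G Sd S x e) : Sum.inr e ∉ S := h.1

theorem nx_legal (G : Gr V E) (Sd : Finset V) :
    Legal (Adm G) (nxS G Sd : Finset (SV V E ⊕ E) → (∀ i, XI k V E i) → Option (SV V E ⊕ E)) := by
  refine ⟨⟨?_, ?_, ?_⟩, ?_, ?_, ?_⟩
  · intro e he
    exact absurd he (Finset.notMem_empty _)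
  · intro e he
    exact absurd he (Finset.notMem_empty _)
  · intro e he
    exact absurd he (Finset.notMem_empty _)
  · intro A x y h
    rw [nxS_eq, nxS_eq, EX1_cand G Sd A x y h]
  · intro A x i h
    rw [nxS_eq] at h
    exact (EX1_spec G A _ (EX1_cn G Sd A x) i h).1
  · intro A x i hA h
    rw [nxS_eq] at h
    obtain ⟨_, e, _, h2⟩ := EX1_spec G A _ (EX1_cn G Sd A x) i h
    rcases h2 with h2 | h2 | ⟨h2, h3, h4⟩ | ⟨h2, h3⟩ | ⟨h2, h3⟩
    · subst h2
      refine ⟨fun f hf => ?_, fun f hf => ?_, fun f hf => ?_⟩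
      · rcases Finset.mem_insert.1 hf with hf | hf
        · cases hf
        · exact Finset.mem_insert_of_mem (hA.bit f hf)
      · rcases Finset.mem_insert.1 hf with hf | hf
        · cases hf
        · exact Finset.mem_insert_of_mem (hA.mm f hf)
      · rcases Finset.mem_insert.1 hf with hf | hf
        · cases hf
        · exact ⟨Finset.mem_insert_of_mem (hA.zz f hf).1, Finset.mem_insert_of_mem (hA.zz f hf).2⟩
    · subst h2
      refine ⟨fun f hf => ?_, fun f hf => ?_, fun f hf => ?_⟩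
      · rcases Finset.mem_insert.1 hf with hf | hf
        · cases hf
        · exact Finset.mem_insert_of_mem (hA.bit f hf)
      · rcases Finset.mem_insert.1 hf with hf | hf
        · cases hf
        · exact Finset.mem_insert_of_mem (hA.mm f hf)
      · rcases Finset.mem_insert.1 hf with hf | hf
        · cases hf
        · exact ⟨Finset.mem_insert_of_mem (hA.zz f hf).1, Finset.mem_insert_of_mem (hA.zz f hf).2⟩
    · subst h2
      refine ⟨fun f hf => ?_, fun f hf => ?_, fun f hf => ?_⟩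
      · rcases Finset.mem_insert.1 hf with hf | hf
        · cases hf
        · exact Finset.mem_insert_of_mem (hA.bit f hf)
      · rcases Finset.mem_insert.1 hf with hf | hf
        · simp at hf
        · exact Finset.mem_insert_of_mem (hA.mm f hf)
      · rcases Finset.mem_insert.1 hf with hf | hf
        · have hfe : f = e := by simpa using hf
          subst hfe
          exact ⟨Finset.mem_insert_of_mem h3, Finset.mem_insert_of_mem h4⟩
        · exact ⟨Finset.mem_insert_of_mem (hA.zz f hf).1, Finset.mem_insert_of_mem (hA.zz f hf).2⟩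
    · subst h2
      refine ⟨fun f hf => ?_, fun f hf => ?_, fun f hf => ?_⟩
      · rcases Finset.mem_insert.1 hf with hf | hf
        · cases hf
        · exact Finset.mem_insert_of_mem (hA.bit f hf)
      · rcases Finset.mem_insert.1 hf with hf | hf
        · have hfe : f = e := by simpa using hf
          subst hfe
          exact Finset.mem_insert_of_mem h3
        · exact Finset.mem_insert_of_mem (hA.mm f hf)
      · rcases Finset.mem_insert.1 hf with hf | hf
        · simp at hf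
        · exact ⟨Finset.mem_insert_of_mem (hA.zz f hf).1, Finset.mem_insert_of_mem (hA.zz f hf).2⟩
    · subst h2
      refine ⟨fun f hf => ?_, fun f hf => ?_, fun f hf => ?_⟩
      · rcases Finset.mem_insert.1 hf with hf | hf
        · have hfe : f = e := by simpa using hf
          subst hfe
          exact Finset.mem_insert_of_mem h3
        · exact Finset.mem_insert_of_mem (hA.bit f hf)
      · rcases Finset.mem_insert.1 hf with hf | hf
        · cases hf
        · exact Finset.mem_insert_of_mem (hA.mm f hf)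
      · rcases Finset.mem_insert.1 hf with hf | hf
        · cases hf
        · exact ⟨Finset.mem_insert_of_mem (hA.zz f hf).1, Finset.mem_insert_of_mem (hA.zz f hf).2⟩

theorem EX1_sub (S : Finset (SV V E ⊕ E)) (x : ∀ i, XI k V E i) : eo S x ⊆ op1 (po x) :=
  fun _ he => he.2

theorem EX1_conn (G : Gr V E) (Sd : Finset V) (S : Finset (SV V E ⊕ E)) (x y : ∀ i, XI k V E i)
    (h : nxS G Sd S x = none) (hy : ∀ i ∈ S, y i = x i) (s : V) (hs : s ∈ Sd) (v : V) :
    G.Conn (op1 (po y)) s v ↔ G.Conn (eo S x) s v := by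
  rw [nxS_eq] at h
  have hn := EX1_none G S _ h
  constructor
  · intro hc
    induction hc with
    | refl => exact conn_refl G _ s
    | @tail a b _ hab ih =>
      obtain ⟨e, he, hab⟩ := hab
      have hmem : Sum.inr e ∈ S := by
        by_contra hne
        refine hn e ⟨hne, s, hs, ?_⟩
        rcases hab with ⟨h1, _⟩ | ⟨_, h2⟩
        · left
          rw [h1]
          exact ih
        · right
          rw [h2]
          exact ih
      have hx : e ∈ eo S x := by
        refine ⟨hmem, ?_⟩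
        have h3 : po y e = po x e := hy _ hmem
        rw [← h3]
        exact he
      exact Relation.ReflTransGen.tail ih ⟨e, hx, hab⟩
  · intro hc
    rw [← EX1_eo S y x hy] at hc
    exact conn_mono G (EX1_sub S y) hc

theorem nx_none (G : Gr V E) (Sd : Finset V) (S : Finset (SV V E ⊕ E)) (x y : ∀ i, XI k V E i)
    (h : nxS G Sd S x = none) (hy : ∀ i ∈ S, y i = x i) (s : V) (hs : s ∈ Sd) (v : V) :
    G.Conn (op1 (po y)) s v ↔ G.Conn (op1 (po x)) s v := by
  rw [EX1_conn G Sd S x y h hy s hs v, EX1_conn G Sd S x x h (fun _ _ => rfl) s hs v]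

theorem rev_touch (G : Gr V E) (Sd : Finset V) (n : ℕ) (x : ∀ i, XI k V E i) (i : SV V E ⊕ E)
    (h : i ∈ rev (nxS G Sd) n x) :
    ∃ e, toE G i e ∧ ∃ s ∈ Sd, G.Conn (op1 (po x)) s (G.s e) ∨ G.Conn (op1 (po x)) s (G.r e) := by
  induction n with
  | zero => exact absurd h (Finset.notMem_empty _)
  | succ n ih =>
    rw [rev] at h
    split at h
    · exact ih h
    · rename_i j hj
      rcases Finset.mem_insert.1 h with h | h
      · subst h
        rw [nxS_eq] at hj
        obtain ⟨_, e, he, h2⟩ := EX1_spec G _ _ (EX1_cn G Sd _ x) i hj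
        obtain ⟨_, s, hs, hc⟩ := he
        refine ⟨e, ?_, s, hs, ?_⟩
        · rcases h2 with h2 | h2 | ⟨h2, _⟩ | ⟨h2, _⟩ | ⟨h2, _⟩
          · exact Or.inl h2
          · exact Or.inr (Or.inl h2)
          · exact Or.inr (Or.inr (Or.inl h2))
          · exact Or.inr (Or.inr (Or.inr (Or.inl h2)))
          · exact Or.inr (Or.inr (Or.inr (Or.inr h2)))
        · rcases hc with hc | hc
          · exact Or.inl (conn_mono G (EX1_sub _ x) hc)
          · exact Or.inr (conn_mono G (EX1_sub _ x) hc)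
      · exact ih h

/-- connections to a vertex outside: a function determined by the seed clusters.  If every connection from `a` to `T` meets a seed,
then `ind (∃ u ∈ T, a ↔ u)` is determined when the exploration stops. -/
theorem det_conn (G : Gr V E) (Sd : Finset V) (a : V) (T : Set V)
    (hsep : ∀ ω : Set E, ∀ u ∈ T, G.Conn ω a u → ∃ s ∈ Sd, G.Conn ω a s)
    (S : Finset (SV V E ⊕ E)) (x y : ∀ i, XI k V E i)
    (h : nxS G Sd S x = none) (hy : ∀ i ∈ S, y i = x i) :
    (∃ u ∈ T, G.Conn (op1 (po y)) a u) ↔ ∃ u ∈ T, G.Conn (op1 (po x)) a u := by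
  constructor
  · rintro ⟨u, hu, hc⟩
    obtain ⟨s, hs, hcs⟩ := hsep _ u hu hc
    have h1 := (nx_none G Sd S x y h hy s hs a).1 (conn_symm G hcs)
    have h2 := (nx_none G Sd S x y h hy s hs u).1 (conn_trans G (conn_symm G hcs) hc)
    exact ⟨u, hu, conn_trans G (conn_symm G h1) h2⟩
  · rintro ⟨u, hu, hc⟩
    obtain ⟨s, hs, hcs⟩ := hsep _ u hu hc
    have h1 := (nx_none G Sd S x y h hy s hs a).2 (conn_symm G hcs)
    have h2 := (nx_none G Sd S x y h hy s hs u).2 (conn_trans G (conn_symm G hcs) hc)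
    exact ⟨u, hu, conn_trans G (conn_symm G h1) h2⟩

end H82.BX

end S_H82_BX_EX1

section S_H82_BX_TG1

/-!
# TG1: geometry of the torus and translation invariance

* `td`: `(x i).valMinAbs.natAbs` is symmetric and subadditive (`ZMod.natAbs_valMinAbs_add_le`, `ZMod.natAbs_valMinAbs_neg`), `0` at `0`,
  at most `1` at `1`.  Along an edge of the torus `td (· - a)` changes by at most one.
* `sep_torus`: on a path from `0` to a vertex with `td ≥ n` every value `k ≤ n` of `td` is attained.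
* `arm_le`: `td w = k` and `u ↔ w` imply `armT (|k - td u|) u` (`Nat.dist`).
* `fT_tr`: the weight `W (TD L)` is invariant under the translation of `V` and of `E = V × Fin 2` (relabelling bijections commute with
  `s`, `r`, `LK`), so the probability of `armT n x` does not depend on `x`.
-/

set_option autoImplicit false

open Finset MeasureTheory

namespace H82.BX

open H82.IC

variable {L : ℕ} [NeZero L]

theorem deg4_TD : Deg4 (TD L) := by
  intro v
  have h1 : (univ.filter (fun e : (Fin 2 → ZMod L) × Fin 2 => (TD L).s e = v)).card ≤ 2 := by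
    have : (univ.filter (fun e : (Fin 2 → ZMod L) × Fin 2 => (TD L).s e = v)) ⊆
        (univ : Finset (Fin 2)).image (fun i => (v, i)) := by
      intro e he
      rw [mem_filter] at he
      rw [mem_image]
      refine ⟨e.2, mem_univ _, ?_⟩
      have h : e.1 = v := he.2
      rw [← h]
    refine (card_le_card this).trans (card_image_le.trans ?_)
    simp
  have h2 : (univ.filter (fun e : (Fin 2 → ZMod L) × Fin 2 => (TD L).r e = v)).card ≤ 2 := by
    have : (univ.filter (fun e : (Fin 2 → ZMod L) × Fin 2 => (TD L).r e = v)) ⊆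
        (univ : Finset (Fin 2)).image (fun i => (v - Pi.single i 1, i)) := by
      intro e he
      rw [mem_filter] at he
      rw [mem_image]
      refine ⟨e.2, mem_univ _, ?_⟩
      have h : e.1 + Pi.single e.2 1 = v := he.2
      rw [← h, add_sub_cancel_right]
    refine (card_le_card this).trans (card_image_le.trans ?_)
    simp
  omega

theorem td_zero : td (0 : Fin 2 → ZMod L) = 0 := by
  unfold td
  rw [← Nat.le_zero]
  refine Finset.sup_le (fun i _ => ?_)
  simp

theorem td_neg (x : Fin 2 → ZMod L) : td (-x) = td x := by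
  unfold td
  refine Finset.sup_congr rfl (fun i _ => ?_)
  rw [Pi.neg_apply, ZMod.natAbs_valMinAbs_neg]

theorem TG1_le (x : Fin 2 → ZMod L) (i : Fin 2) : (x i).valMinAbs.natAbs ≤ td x := by
  unfold td
  exact Finset.le_sup (f := fun i => (x i).valMinAbs.natAbs) (mem_univ i)

theorem td_add (x y : Fin 2 → ZMod L) : td (x + y) ≤ td x + td y := by
  conv_lhs => unfold td
  refine Finset.sup_le (fun i _ => ?_)
  rw [Pi.add_apply]
  refine (ZMod.natAbs_valMinAbs_add_le _ _).trans ((Int.natAbs_add_le _ _).trans ?_)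
  exact Nat.add_le_add (TG1_le x i) (TG1_le y i)

theorem td_sub_le (x y : Fin 2 → ZMod L) : td x - td y ≤ td (x - y) ∧ td y - td x ≤ td (x - y) := by
  have h1 : td x ≤ td (x - y) + td y := by
    have h := td_add (x - y) y
    rwa [sub_add_cancel] at h
  have h2 : td y ≤ td (x - y) + td x := by
    have h := td_add (y - x) x
    rw [sub_add_cancel] at h
    rwa [← td_neg (y - x), neg_sub] at h
  omega

theorem TG1_single (i : Fin 2) : td (Pi.single i 1 : Fin 2 → ZMod L) ≤ 1 := by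
  unfold td
  refine Finset.sup_le (fun j _ => ?_)
  rw [ZMod.valMinAbs_natAbs_eq_min]
  refine (min_le_left _ _).trans ?_
  by_cases h : j = i
  · subst h
    rw [Pi.single_eq_same, ZMod.val_one_eq_one_mod]
    exact Nat.mod_le 1 L
  · rw [Pi.single_eq_of_ne h, ZMod.val_zero]
    exact Nat.zero_le 1

theorem td_edge (a : Fin 2 → ZMod L) (e : (Fin 2 → ZMod L) × Fin 2) :
    td ((TD L).r e - a) ≤ td ((TD L).s e - a) + 1 ∧ td ((TD L).s e - a) ≤ td ((TD L).r e - a) + 1 := by
  have h := td_sub_le ((TD L).r e - a) ((TD L).s e - a)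
  have h1 : (TD L).r e - a - ((TD L).s e - a) = Pi.single e.2 1 := by
    show e.1 + Pi.single e.2 1 - a - (e.1 - a) = Pi.single e.2 1
    abel
  rw [h1] at h
  have h2 := TG1_single (L := L) e.2
  omega

theorem TG1_adj (ω : Set ((Fin 2 → ZMod L) × Fin 2)) (b c : Fin 2 → ZMod L)
    (h : (TD L).Adj ω b c) : td c ≤ td b + 1 := by
  obtain ⟨e, _, he⟩ := h
  have h1 := td_edge (0 : Fin 2 → ZMod L) e
  rw [sub_zero, sub_zero] at h1
  rcases he with ⟨h2, h3⟩ | ⟨h2, h3⟩
  · rw [h2, h3] at h1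
    exact h1.1
  · rw [h2, h3] at h1
    exact h1.2

theorem sep_torus (n k : ℕ) (hk : k ≤ n) (ω : Set ((Fin 2 → ZMod L) × Fin 2)) (u : Fin 2 → ZMod L)
    (hu : n ≤ td u) (h : (TD L).Conn ω 0 u) : ∃ s, td s = k ∧ (TD L).Conn ω 0 s := by
  have key : ∀ u : Fin 2 → ZMod L, (TD L).Conn ω 0 u → k ≤ td u →
      ∃ s, td s = k ∧ (TD L).Conn ω 0 s := by
    intro u hu
    unfold Gr.Conn at hu
    induction hu with
    | refl =>
      intro hk0
      rw [td_zero] at hk0
      refine ⟨0, ?_, Relation.ReflTransGen.refl⟩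
      rw [td_zero]
      omega
    | @tail b c hb hbc ih =>
      intro hkc
      by_cases hkb : k ≤ td b
      · exact ih hkb
      · have h1 := TG1_adj ω b c hbc
        exact ⟨c, by omega, Relation.ReflTransGen.tail hb hbc⟩
  exact key u h (hk.trans hu)

theorem arm_le (k : ℕ) (o : (Fin 2 → ZMod L) × Fin 2 → Bool) (u w : Fin 2 → ZMod L) (hw : td w = k)
    (h : (TD L).Conn (op1 o) u w) : armT (Nat.dist k (td u)) u o := by
  refine ⟨w, ?_, h⟩
  have h1 := td_sub_le w u
  rw [hw] at h1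
  unfold Nat.dist
  omega

/-! ### automorphisms -/

section aut
variable {V E : Type} [Fintype V] [DecidableEq V] [Fintype E] [DecidableEq E]

/-- the automorphism on the vertices of the chain graph. -/
def TG1_S (p : V ≃ V) (q : E ≃ E) : SV V E ≃ SV V E :=
  Equiv.sumCongr p (Equiv.prodCongr q (Equiv.refl Bool))

theorem TG1_LKs (G : Gr V E) (p : V ≃ V) (q : E ≃ E) (hs : ∀ e, G.s (q e) = p (G.s e))
    (e : E) (j : Fin 3) : TG1_S p q ((LK G).s (e, j)) = (LK G).s (q e, j) := by
  fin_cases j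
  · show Sum.inl (p (G.s e)) = Sum.inl (G.s (q e))
    rw [hs]
  · rfl
  · rfl

theorem TG1_LKr (G : Gr V E) (p : V ≃ V) (q : E ≃ E) (hr : ∀ e, G.r (q e) = p (G.r e))
    (e : E) (j : Fin 3) : TG1_S p q ((LK G).r (e, j)) = (LK G).r (q e, j) := by
  fin_cases j
  · rfl
  · rfl
  · show Sum.inl (p (G.r e)) = Sum.inl (G.r (q e))
    rw [hr]

theorem TG1_pn (p : V ≃ V) (q : E ≃ E) (w : SV V E) : pn (TG1_S p q w) = pn w := by
  rcases w with v | ⟨e, b⟩
  · rfl
  · cases b <;> rfl

theorem TG1_wv (M : Al) (l : ℝ) (p : V ≃ V) (q : E ≃ E) (c : SV V E → Fin (M.k + 1)) :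
    wv M l (fun w => c (TG1_S p q w)) = wv M l c := by
  unfold wv
  rw [← Equiv.prod_comp (TG1_S p q) (fun w => M.nu (c w) * Real.exp (l * pn w * M.cc (c w) ^ 2))]
  refine Finset.prod_congr rfl (fun w _ => ?_)
  rw [TG1_pn]

theorem TG1_la (G : Gr V E) (p : V ≃ V) (q : E ≃ E) (hs : ∀ e, G.s (q e) = p (G.s e))
    (hr : ∀ e, G.r (q e) = p (G.r e)) (M : Al) (b : ℝ) (c : SV V E → Fin (M.k + 1)) (e : E) (j : Fin 3) :
    la G M b (fun w => c (TG1_S p q w)) (e, j) = la G M b c (q e, j) := by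
  show b * (M.cc (c (TG1_S p q ((LK G).s (e, j)))) * M.cc (c (TG1_S p q ((LK G).r (e, j))))) = _
  rw [TG1_LKs G p q hs, TG1_LKr G p q hr]
  rfl

theorem TG1_lb (G : Gr V E) (p : V ≃ V) (q : E ≃ E) (hs : ∀ e, G.s (q e) = p (G.s e))
    (hr : ∀ e, G.r (q e) = p (G.r e)) (M : Al) (b : ℝ) (c : SV V E → Fin (M.k + 1)) (e : E) (j : Fin 3) :
    lb G M b (fun w => c (TG1_S p q w)) (e, j) = lb G M b c (q e, j) := by
  show b * (M.ss (c (TG1_S p q ((LK G).s (e, j)))) * M.ss (c (TG1_S p q ((LK G).r (e, j))))) = _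
  rw [TG1_LKs G p q hs, TG1_LKr G p q hr]
  rfl

theorem TG1_rr (G : Gr V E) (p : V ≃ V) (q : E ≃ E) (hs : ∀ e, G.s (q e) = p (G.s e))
    (hr : ∀ e, G.r (q e) = p (G.r e)) (M : Al) (b : ℝ) (c : SV V E → Fin (M.k + 1)) (e : E) :
    rr G M b (fun w => c (TG1_S p q w)) e = rr G M b c (q e) := by
  unfold rr
  refine Finset.prod_congr rfl (fun j _ => ?_)
  rw [TG1_la G p q hs hr]

theorem TG1_tt (G : Gr V E) (p : V ≃ V) (q : E ≃ E) (hs : ∀ e, G.s (q e) = p (G.s e))
    (hr : ∀ e, G.r (q e) = p (G.r e)) (M : Al) (b : ℝ) (c : SV V E → Fin (M.k + 1)) (e : E) :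
    tt G M b (fun w => c (TG1_S p q w)) e = tt G M b c (q e) := by
  unfold tt
  refine Finset.prod_congr rfl (fun j _ => ?_)
  rw [TG1_lb G p q hs hr]

theorem TG1_AA (G : Gr V E) (p : V ≃ V) (q : E ≃ E) (hs : ∀ e, G.s (q e) = p (G.s e))
    (hr : ∀ e, G.r (q e) = p (G.r e)) (M : Al) (b : ℝ) (c : SV V E → Fin (M.k + 1)) (e : E) :
    AA G M b (fun w => c (TG1_S p q w)) e = AA G M b c (q e) := by
  unfold AA
  refine Finset.prod_congr rfl (fun j _ => ?_)
  rw [TG1_la G p q hs hr, TG1_lb G p q hs hr]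

theorem TG1_Zv (G : Gr V E) (p : V ≃ V) (q : E ≃ E) (hs : ∀ e, G.s (q e) = p (G.s e))
    (hr : ∀ e, G.r (q e) = p (G.r e)) (t : E → ℝ) :
    Zv G (fun e => t (q e)) = Zv G t := by
  unfold Zv Zs
  rw [← Equiv.sum_comp (Equiv.arrowCongr p (Equiv.refl Bool))
    (fun σ : V → Bool => ∏ e, ((1 : ℝ) + t e * (sg (σ (G.s e)) * sg (σ (G.r e)))))]
  refine Finset.sum_congr rfl (fun σ _ => ?_)
  refine Fintype.prod_equiv q _ _ (fun e => ?_)
  have h1 : (Equiv.arrowCongr p (Equiv.refl Bool)) σ (G.s (q e)) = σ (G.s e) := by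
    rw [hs]
    show σ (p.symm (p (G.s e))) = σ (G.s e)
    rw [Equiv.symm_apply_apply]
  have h2 : (Equiv.arrowCongr p (Equiv.refl Bool)) σ (G.r (q e)) = σ (G.r e) := by
    rw [hr]
    show σ (p.symm (p (G.r e))) = σ (G.r e)
    rw [Equiv.symm_apply_apply]
  show (1 : ℝ) + t (q e) * (sg (σ (G.s e)) * sg (σ (G.r e))) = 1 + t (q e) * _
  rw [h1, h2]

theorem TG1_W (G : Gr V E) (p : V ≃ V) (q : E ≃ E) (hs : ∀ e, G.s (q e) = p (G.s e))
    (hr : ∀ e, G.r (q e) = p (G.r e)) (M : Al) (b l : ℝ) (c : SV V E → Fin (M.k + 1)) (o : E → Bool) :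
    W G M b l (fun w => c (TG1_S p q w)) (fun e => o (q e)) = W G M b l c o := by
  unfold W
  have h1 : (∏ e, AA G M b (fun w => c (TG1_S p q w)) e * (if o (q e) then
      rr G M b (fun w => c (TG1_S p q w)) e else 1 - rr G M b (fun w => c (TG1_S p q w)) e)) =
      ∏ e, AA G M b c e * (if o e then rr G M b c e else 1 - rr G M b c e) := by
    rw [← Equiv.prod_comp q (fun e => AA G M b c e * (if o e then rr G M b c e else 1 - rr G M b c e))]
    refine Finset.prod_congr rfl (fun e _ => ?_)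
    rw [TG1_AA G p q hs hr, TG1_rr G p q hs hr]
  have h2 : Zv G (bt (fun e => o (q e))) = Zv G (bt o) := by
    rw [← TG1_Zv G p q hs hr (bt o)]
    rfl
  have h3 : Zv G (tt G M b (fun w => c (TG1_S p q w))) = Zv G (tt G M b c) := by
    rw [← TG1_Zv G p q hs hr (tt G M b c)]
    congr 1
    funext e
    exact TG1_tt G p q hs hr M b c e
  rw [h1, h2, h3, TG1_wv]

theorem TG1_sum (G : Gr V E) (p : V ≃ V) (q : E ≃ E) (hs : ∀ e, G.s (q e) = p (G.s e))
    (hr : ∀ e, G.r (q e) = p (G.r e)) (M : Al) (b l : ℝ) (f : (E → Bool) → ℝ) :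
    ∑ c, ∑ o, W G M b l c o * f (fun e => o (q e)) = ∑ c, ∑ o, W G M b l c o * f o := by
  rw [← Equiv.sum_comp (Equiv.arrowCongr (TG1_S p q).symm (Equiv.refl (Fin (M.k + 1))))
    (fun c => ∑ o, W G M b l c o * f o)]
  refine Finset.sum_congr rfl (fun c _ => ?_)
  rw [← Equiv.sum_comp (Equiv.arrowCongr q.symm (Equiv.refl Bool))
    (fun o => W G M b l (Equiv.arrowCongr (TG1_S p q).symm (Equiv.refl (Fin (M.k + 1))) c) o * f o)]
  refine Finset.sum_congr rfl (fun o _ => ?_)
  have h1 : Equiv.arrowCongr (TG1_S p q).symm (Equiv.refl (Fin (M.k + 1))) c =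
      (fun w => c (TG1_S p q w)) := rfl
  have h2 : Equiv.arrowCongr q.symm (Equiv.refl Bool) o = (fun e => o (q e)) := rfl
  rw [h1, h2, TG1_W G p q hs hr]

end aut

/-- translation invariance of the chain model on the torus (functions of the bits). -/
theorem EW_tr (M : Al) (b l : ℝ) (a : Fin 2 → ZMod L) (f : ((Fin 2 → ZMod L) × Fin 2 → Bool) → ℝ) :
    EW (TD L) M b l (fun _ o => f (fun e => o (e.1 + a, e.2))) = EW (TD L) M b l (fun _ o => f o) := by
  unfold EW
  have h := TG1_sum (TD L) (Equiv.addRight a)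
    (Equiv.prodCongr (Equiv.addRight a) (Equiv.refl (Fin 2))) (fun e => rfl)
    (fun e => by
      show e.1 + a + Pi.single e.2 1 = e.1 + Pi.single e.2 1 + a
      abel) M b l f
  have h2 : (∑ c, ∑ o, W (TD L) M b l c o * f (fun e => o (e.1 + a, e.2))) =
      ∑ c, ∑ o, W (TD L) M b l c o * f o := h
  rw [h2]

theorem TG1_conn (a : Fin 2 → ZMod L) (o : (Fin 2 → ZMod L) × Fin 2 → Bool) (v u : Fin 2 → ZMod L)
    (h : (TD L).Conn (op1 (fun e => o (e.1 + a, e.2))) v u) : (TD L).Conn (op1 o) (v + a) (u + a) := by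
  unfold Gr.Conn at h ⊢
  refine Relation.ReflTransGen.lift (p := (TD L).Adj (op1 o)) (fun x => x + a) ?_ v u h
  rintro x y ⟨e, he, hxy⟩
  refine ⟨(e.1 + a, e.2), he, ?_⟩
  rcases hxy with ⟨h1, h2⟩ | ⟨h1, h2⟩
  · left
    rw [← h1, ← h2]
    refine ⟨rfl, ?_⟩
    show e.1 + a + Pi.single e.2 1 = e.1 + Pi.single e.2 1 + a
    abel
  · right
    rw [← h1, ← h2]
    refine ⟨rfl, ?_⟩
    show e.1 + a + Pi.single e.2 1 = e.1 + Pi.single e.2 1 + a
    abel

theorem TG1_arm (n : ℕ) (x : Fin 2 → ZMod L) (o : (Fin 2 → ZMod L) × Fin 2 → Bool) :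
    armT n 0 (fun e => o (e.1 + x, e.2)) ↔ armT n x o := by
  constructor
  · rintro ⟨u, hu, hc⟩
    refine ⟨u + x, ?_, ?_⟩
    · rw [add_sub_cancel_right]
      rwa [sub_zero] at hu
    · have h := TG1_conn x o 0 u hc
      rwa [zero_add] at h
  · rintro ⟨u, hu, hc⟩
    refine ⟨u - x, ?_, ?_⟩
    · rwa [sub_zero]
    · have h : (TD L).Conn (op1 (fun e => (fun e' : (Fin 2 → ZMod L) × Fin 2 => o (e'.1 + x, e'.2))
          (e.1 + -x, e.2))) x u := by
        have h1 : (fun e : (Fin 2 → ZMod L) × Fin 2 =>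
            (fun e' : (Fin 2 → ZMod L) × Fin 2 => o (e'.1 + x, e'.2)) (e.1 + -x, e.2)) = o := by
          funext e
          show o (e.1 + -x + x, e.2) = o e
          rw [neg_add_cancel_right]
        rw [h1]
        exact hc
      have h2 := TG1_conn (-x) (fun e => o (e.1 + x, e.2)) x u h
      rw [← sub_eq_add_neg, ← sub_eq_add_neg, sub_self] at h2
      exact h2

theorem fT_tr (M : Al) (b l : ℝ) (n : ℕ) (x : Fin 2 → ZMod L) :
    EW (TD L) M b l (fun _ o => ind (armT n x o)) = fT L M b n l := by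
  unfold fT
  rw [← EW_tr M b l x (fun o => ind (armT n 0 o))]
  congr 1
  funext _ o
  show ind (armT n x o) = ind (armT n 0 (fun e => o (e.1 + x, e.2)))
  rw [propext (TG1_arm n x o)]

end H82.BX

end S_H82_BX_TG1

section S_H82_BX_DER

/-!
# DER: derivative in the pinning, closing the edges at the origin

* `EW_deriv`: `W` depends on `l` only through `wv = ∏ nu exp(l pn cc²)`, so `d/dl W = (∑_w pn w cc(c w)²) W`; quotient rule.
  (`mW_EW`, `c2`.)  The covariances are `≥ 0` (`mW_asc`: `c2` is monotone).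
* `cls`: for every `c`, closing all edges at `0` in `o` (call the result `o'`): for an open edge the factor `rr e` becomes `1 - rr e ≥ 1 - tanh b ≥ (1 - tanh b) rr e`, and `Zv (bt o') ≥ 2^{-4} Zv (bt o)`
  (`Zv_bd`, at most four edges at the vertex); at most `2^4` configurations `o` have the same `o'`.  So the probability that all edges at `v` are closed is at least `((1 - tanh b)/4)^4`.
-/

set_option autoImplicit false

open Finset MeasureTheory

namespace H82.BX

open H82.IC

variable {V E : Type} [Fintype V] [DecidableEq V] [Fintype E] [DecidableEq E]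

omit [DecidableEq V] [DecidableEq E] in
theorem der_wv (M : Al) (l : ℝ) (c : SV V E → Fin (M.k + 1)) :
    wv M l c = (∏ w, M.nu (c w)) * Real.exp (l * ∑ w, pn w * M.cc (c w) ^ 2) := by
  unfold wv
  rw [Finset.prod_mul_distrib, ← Real.exp_sum, Finset.mul_sum]
  congr 2
  refine Finset.sum_congr rfl fun w _ => ?_
  ring

theorem der_W (G : Gr V E) (M : Al) (b l : ℝ) (c : SV V E → Fin (M.k + 1)) (o : E → Bool) :
    HasDerivAt (fun l => W G M b l c o) ((∑ w, pn w * M.cc (c w) ^ 2) * W G M b l c o) l := by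
  unfold W
  simp only [der_wv]
  have h1 : HasDerivAt (fun l : ℝ => l * ∑ w, pn w * M.cc (c w) ^ 2)
      (1 * ∑ w, pn w * M.cc (c w) ^ 2) l := (hasDerivAt_id l).mul_const _
  have h2 := (((h1.exp).const_mul (∏ w, M.nu (c w))).mul_const
    (∏ e, AA G M b c e * (if o e then rr G M b c e else 1 - rr G M b c e))).mul_const
    (Zv G (bt o) * Zv G (tt G M b c))
  refine h2.congr_deriv ?_
  ring

theorem EW_deriv (G : Gr V E) (M : Al) (b : ℝ) (hZ : ∀ l, 0 < ∑ c, ∑ o, W G M b l c o)
    (f : (E → Bool) → ℝ) (l : ℝ) : HasDerivAt (fun l => EW G M b l (fun _ o => f o))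
      (∑ w, pn w * cv G M b l (fun y => f (po y)) w) l := by
  have hZl := hZ l
  set Z : ℝ := ∑ c, ∑ o, W G M b l c o with hZdef
  have hZne : Z ≠ 0 := hZl.ne'
  have hN : HasDerivAt (fun l => ∑ c, ∑ o, W G M b l c o * f o)
      (∑ c, ∑ o, ((∑ w, pn w * M.cc (c w) ^ 2) * W G M b l c o) * f o) l := by
    refine HasDerivAt.fun_sum fun c _ => HasDerivAt.fun_sum fun o _ => ?_
    exact (der_W G M b l c o).mul_const _
  have hD : HasDerivAt (fun l => ∑ c, ∑ o, W G M b l c o)
      (∑ c, ∑ o, ((∑ w, pn w * M.cc (c w) ^ 2) * W G M b l c o)) l := by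
    refine HasDerivAt.fun_sum fun c _ => HasDerivAt.fun_sum fun o _ => ?_
    exact der_W G M b l c o
  have hdiv := hN.fun_div hD hZne
  unfold EW
  refine hdiv.congr_deriv ?_
  symm
  have hx : ∀ F : (SV V E → Fin (M.k + 1)) → (E → Bool) → ℝ,
      ∑ x : (∀ i, XI M.k V E i), mW G M b l x * F (pc x) (po x) =
        (∑ c, ∑ o, W G M b l c o * F c o) / Z := by
    intro F
    rw [sum_mkx, Finset.sum_div]
    refine Finset.sum_congr rfl fun c _ => ?_
    rw [Finset.sum_div]
    refine Finset.sum_congr rfl fun o _ => ?_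
    have h1 : mW G M b l (mkx c o) = W G M b l c o / Z := rfl
    have h2 : pc (mkx c o) = c := rfl
    have h3 : po (mkx c o) = o := rfl
    rw [h1, h2, h3]
    ring
  have hcv : ∀ w, cv G M b l (fun y => f (po y)) w =
      (∑ c, ∑ o, W G M b l c o * (f o * M.cc (c w) ^ 2)) / Z -
        (∑ c, ∑ o, W G M b l c o * f o) / Z * ((∑ c, ∑ o, W G M b l c o * M.cc (c w) ^ 2) / Z) := by
    intro w
    have e1 := hx (fun c o => f o * M.cc (c w) ^ 2)
    have e2 := hx (fun _ o => f o)
    have e3 := hx (fun c _ => M.cc (c w) ^ 2)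
    unfold cv c2
    rw [e1, e2, e3]
  have s1 : ∑ c, ∑ o, ((∑ w, pn w * M.cc (c w) ^ 2) * W G M b l c o) * f o =
      ∑ w : SV V E, pn w * ∑ c, ∑ o, W G M b l c o * (f o * M.cc (c w) ^ 2) := by
    simp_rw [Finset.sum_mul, Finset.mul_sum]
    rw [Finset.sum_comm' (s := univ) (t := fun _ => univ) (t' := univ) (s' := fun _ => univ) (by simp)]
    · rw [Finset.sum_comm]
      have : ∀ (c : SV V E → Fin (M.k + 1)), ∑ o : E → Bool, ∑ w : SV V E,
          pn w * M.cc (c w) ^ 2 * W G M b l c o * f o =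
          ∑ w : SV V E, ∑ o : E → Bool, pn w * (W G M b l c o * (f o * M.cc (c w) ^ 2)) := by
        intro c
        rw [Finset.sum_comm]
        refine Finset.sum_congr rfl fun w _ => Finset.sum_congr rfl fun o _ => ?_
        ring
      rw [Finset.sum_congr rfl fun c _ => this c, Finset.sum_comm]
  have s2 : ∑ c, ∑ o, ((∑ w, pn w * M.cc (c w) ^ 2) * W G M b l c o) =
      ∑ w : SV V E, pn w * ∑ c, ∑ o, W G M b l c o * M.cc (c w) ^ 2 := by
    simp_rw [Finset.sum_mul, Finset.mul_sum]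
    have : ∀ (c : SV V E → Fin (M.k + 1)), ∑ o : E → Bool, ∑ w : SV V E,
        pn w * M.cc (c w) ^ 2 * W G M b l c o =
        ∑ w : SV V E, ∑ o : E → Bool, pn w * (W G M b l c o * M.cc (c w) ^ 2) := by
      intro c
      rw [Finset.sum_comm]
      refine Finset.sum_congr rfl fun w _ => Finset.sum_congr rfl fun o _ => ?_
      ring
    rw [Finset.sum_congr rfl fun c _ => this c, Finset.sum_comm]
  rw [s1, s2]
  simp only [hcv]
  rw [← hZdef]
  have key : ∀ (A B : SV V E → ℝ) (N : ℝ), ∑ w : SV V E, pn w * (A w / Z - N / Z * (B w / Z)) =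
      ((∑ w : SV V E, pn w * A w) * Z - N * ∑ w : SV V E, pn w * B w) / Z ^ 2 := by
    intro A B N
    rw [Finset.sum_mul, Finset.mul_sum, ← Finset.sum_sub_distrib, Finset.sum_div]
    refine Finset.sum_congr rfl fun w _ => ?_
    field_simp
  exact key (fun w => ∑ c, ∑ o, W G M b l c o * (f o * M.cc (c w) ^ 2))
    (fun w => ∑ c, ∑ o, W G M b l c o * M.cc (c w) ^ 2) _

theorem cv_nonneg (G : Gr V E) (M : Al) (hM : M.Ok) (b l : ℝ) (hb : 0 < b)
    (f : (∀ i, XI M.k V E i) → ℝ) (hf : Monotone f) (w : SV V E) : 0 ≤ cv G M b l f w := by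
  have hg : Monotone (c2 M w : (∀ i, XI M.k V E i) → ℝ) := by
    intro x y hxy
    have h1 : pc x w ≤ pc y w := hxy (Sum.inl w)
    have h2 := hM.mono h1
    exact pow_le_pow_left₀ (hM.cc0 _).le h2 2
  have h := mW_asc G M hM b l hb f (c2 M w) hf hg
  unfold cv
  linarith

theorem der_prod (g : E → Bool → ℝ) (o : E → Bool) (e : E) (x : Bool) :
    ∏ e', g e' (Function.update o e x e') = g e x * ∏ e' ∈ univ.erase e, g e' (o e') := by
  rw [← Finset.mul_prod_erase univ _ (Finset.mem_univ e)]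
  congr 1
  · simp
  · refine Finset.prod_congr rfl fun e' he' => ?_
    have : e' ≠ e := (Finset.mem_erase.1 he').1
    simp [Function.update, this]

theorem der_flip (F : (E → Bool) → ℝ) (e : E) :
    ∑ o, F o = ∑ o ∈ univ.filter (fun o : E → Bool => o e = false),
      (F o + F (Function.update o e true)) := by
  rw [← Finset.sum_filter_add_sum_filter_not univ (fun o : E → Bool => o e = false),
    Finset.sum_add_distrib]
  congr 1
  refine Finset.sum_nbij' (fun o => Function.update o e false) (fun o => Function.update o e true)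
    ?_ ?_ ?_ ?_ ?_
  · intro o _; simp
  · intro o _; simp
  · intro o ho
    have h1 : o e = true := by
      have := (Finset.mem_filter.1 ho).2
      simpa using this
    simp [← h1]
  · intro o ho
    have h1 : o e = false := (Finset.mem_filter.1 ho).2
    simp [← h1]
  · intro o ho
    have h1 : o e = true := by
      have := (Finset.mem_filter.1 ho).2
      simpa using this
    simp [← h1]

theorem der_step (G : Gr V E) (M : Al) (hM : M.Ok) (b l : ℝ) (hb : 0 < b)
    (c : SV V E → Fin (M.k + 1)) (o : E → Bool) (e : E) (ho : o e = false) :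
    (1 - Real.tanh b) / 4 * (W G M b l c o + W G M b l c (Function.update o e true)) ≤
      W G M b l c o := by
  obtain ⟨hr0, hr1, ht0, ht1⟩ := rr_bd G M hM b hb c e
  have hla : ∀ j : Fin 3, la G M b c (e, j) ≤ b := by
    intro j
    unfold la
    have h1 := hM.cc1 (c ((LK G).s (e, j)))
    have h2 := hM.cc1 (c ((LK G).r (e, j)))
    have h3 := hM.cc0 (c ((LK G).s (e, j)))
    have h4 := hM.cc0 (c ((LK G).r (e, j)))
    have h5 : M.cc (c ((LK G).s (e, j))) * M.cc (c ((LK G).r (e, j))) ≤ 1 :=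
      mul_le_one₀ h1 h4.le h2
    nlinarith
  have hla0 : ∀ j : Fin 3, 0 < la G M b c (e, j) := by
    intro j
    unfold la
    have h3 := hM.cc0 (c ((LK G).s (e, j)))
    have h4 := hM.cc0 (c ((LK G).r (e, j)))
    positivity
  have htp : ∀ j : Fin 3, 0 ≤ Real.tanh (la G M b c (e, j)) := by
    intro j
    rw [Real.tanh_eq_sinh_div_cosh]
    exact div_nonneg (Real.sinh_nonneg_iff.2 (hla0 j).le) (Real.cosh_pos _).le
  have ht1' : ∀ x : ℝ, Real.tanh x ≤ 1 := by
    intro x
    rw [Real.tanh_eq_sinh_div_cosh, div_le_one (Real.cosh_pos _)]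
    exact (Real.sinh_lt_cosh x).le
  have htm : ∀ j : Fin 3, Real.tanh (la G M b c (e, j)) ≤ Real.tanh b := by
    intro j
    have h1 := hla j
    rw [Real.tanh_eq_sinh_div_cosh, Real.tanh_eq_sinh_div_cosh, div_le_div_iff₀ (Real.cosh_pos _)
      (Real.cosh_pos _)]
    have h2 : 0 ≤ Real.sinh (b - la G M b c (e, j)) := Real.sinh_nonneg_iff.2 (by linarith)
    rw [Real.sinh_sub] at h2
    nlinarith
  have hrb : rr G M b c e ≤ Real.tanh b := by
    unfold rr
    rw [Fin.prod_univ_three]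
    have h1 := htm 0
    have h2 : Real.tanh (la G M b c (e, 0)) * Real.tanh (la G M b c (e, 1)) ≤ Real.tanh b * 1 :=
      mul_le_mul h1 (ht1' _) (htp 1) ((htp 0).trans h1)
    have h3 : Real.tanh (la G M b c (e, 0)) * Real.tanh (la G M b c (e, 1)) *
        Real.tanh (la G M b c (e, 2)) ≤ Real.tanh b * 1 * 1 :=
      mul_le_mul h2 (ht1' _) (htp 2) (by have := (htp 0).trans h1; linarith)
    linarith
  -- the two configurations
  set Q : ℝ := ∏ e' ∈ univ.erase e, (AA G M b c e' *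
    (if o e' then rr G M b c e' else 1 - rr G M b c e')) with hQ
  have hAA : ∀ e', 0 < AA G M b c e' := by
    intro e'
    unfold AA
    exact Finset.prod_pos fun j _ => mul_pos (Real.cosh_pos _) (Real.cosh_pos _)
  have hQ0 : 0 ≤ Q := by
    refine Finset.prod_nonneg fun e' _ => mul_nonneg (hAA e').le ?_
    obtain ⟨a1, a2, _, _⟩ := rr_bd G M hM b hb c e'
    split_ifs <;> linarith
  have hwv : 0 < wv M l c := by
    unfold wv
    exact Finset.prod_pos fun w _ => mul_pos (hM.nu0 _) (Real.exp_pos _)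
  have hZt : 0 < Zv G (tt G M b c) := by
    refine Zv_pos G _ (fun e' => ?_) (fun e' => ?_)
    · exact (rr_bd G M hM b hb c e').2.2.1.le
    · exact (rr_bd G M hM b hb c e').2.2.2.le
  have hbt0 : ∀ e', 0 ≤ bt o e' := by intro e'; unfold bt; split_ifs <;> norm_num
  have hbt1 : ∀ e', bt o e' ≤ 1 := by intro e'; unfold bt; split_ifs <;> norm_num
  have hu0 : Function.update (bt o) e 0 = bt o := by
    have : bt o e = 0 := by unfold bt; simp [ho]
    rw [← this]; exact Function.update_eq_self e _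
  have hu1 : bt (Function.update o e true) = Function.update (bt o) e 1 := by
    funext e'
    by_cases h : e' = e
    · subst h; simp [bt]
    · simp [bt, Function.update, h]
  have hZ := Zv_bd G (bt o) e hbt0 hbt1
  rw [hu0, ← hu1] at hZ
  have hZ0 : 0 < Zv G (bt o) := Zv_pos G _ hbt0 hbt1
  have hW0 : W G M b l c o = wv M l c * ((AA G M b c e * (1 - rr G M b c e)) * Q) *
      (Zv G (bt o) * Zv G (tt G M b c)) := by
    unfold W
    have h1 := der_prod (fun e' x => AA G M b c e' * (if x then rr G M b c e' else 1 - rr G M b c e'))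
      o e false
    have h2 : Function.update o e false = o := by rw [← ho]; exact Function.update_eq_self e _
    rw [h2] at h1
    rw [h1]
    simp [hQ]
  have hW1 : W G M b l c (Function.update o e true) = wv M l c * ((AA G M b c e * rr G M b c e) * Q) *
      (Zv G (bt (Function.update o e true)) * Zv G (tt G M b c)) := by
    unfold W
    have h1 := der_prod (fun e' x => AA G M b c e' * (if x then rr G M b c e' else 1 - rr G M b c e'))
      o e true
    rw [h1]
    simp [hQ]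
  set K : ℝ := wv M l c * (AA G M b c e * Q) * Zv G (tt G M b c) with hK
  have hK0 : 0 ≤ K := mul_nonneg (mul_nonneg hwv.le (mul_nonneg (hAA e).le hQ0)) hZt.le
  have e0 : W G M b l c o = K * ((1 - rr G M b c e) * Zv G (bt o)) := by rw [hW0, hK]; ring
  have e1 : W G M b l c (Function.update o e true) =
      K * (rr G M b c e * Zv G (bt (Function.update o e true))) := by rw [hW1, hK]; ring
  rw [e0, e1]
  have hfin : (1 - Real.tanh b) / 4 * ((1 - rr G M b c e) * Zv G (bt o) +
      rr G M b c e * Zv G (bt (Function.update o e true))) ≤ (1 - rr G M b c e) * Zv G (bt o) := by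
    set r := rr G M b c e with hr
    set z := Zv G (bt o) with hz
    set z1 := Zv G (bt (Function.update o e true)) with hz1
    have a1 : r * z1 ≤ r * (2 * z) := mul_le_mul_of_nonneg_left hZ.2 hr0.le
    have a2 : (1 - r) * z + r * z1 ≤ 2 * z := by nlinarith
    have a3 : 0 ≤ 1 - Real.tanh b := by linarith [ht1' b]
    have a4 : (1 - Real.tanh b) * ((1 - r) * z + r * z1) ≤ (1 - r) * (2 * z) := by
      refine mul_le_mul (by linarith) a2 ?_ (by linarith)
      have : 0 ≤ z1 := le_trans hZ0.le hZ.1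
      have b1 : 0 ≤ (1 - r) * z := mul_nonneg (by linarith) hZ0.le
      have b2 : 0 ≤ r * z1 := mul_nonneg hr0.le this
      linarith
    have a5 : 0 ≤ (1 - r) * z := mul_nonneg (by linarith) hZ0.le
    linarith
  calc (1 - Real.tanh b) / 4 * (K * ((1 - rr G M b c e) * Zv G (bt o)) +
        K * (rr G M b c e * Zv G (bt (Function.update o e true))))
      = K * ((1 - Real.tanh b) / 4 * ((1 - rr G M b c e) * Zv G (bt o) +
      rr G M b c e * Zv G (bt (Function.update o e true)))) := by ring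
    _ ≤ K * ((1 - rr G M b c e) * Zv G (bt o)) := mul_le_mul_of_nonneg_left hfin hK0

theorem der_ind (G : Gr V E) (M : Al) (hM : M.Ok) (b l : ℝ) (hb : 0 < b)
    (c : SV V E → Fin (M.k + 1)) (S : Finset E) :
    ((1 - Real.tanh b) / 4) ^ S.card * ∑ o, W G M b l c o ≤
      ∑ o, W G M b l c o * ind (∀ e ∈ S, o e = false) := by
  classical
  have ht1 : Real.tanh b ≤ 1 := by
    rw [Real.tanh_eq_sinh_div_cosh, div_le_one (Real.cosh_pos _)]
    exact (Real.sinh_lt_cosh b).le
  induction S using Finset.induction_on with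
  | empty => simp [ind]
  | insert e S he ih =>
    rw [Finset.card_insert_of_notMem he, pow_succ']
    have h1 : (1 - Real.tanh b) / 4 * ∑ o, W G M b l c o * ind (∀ e ∈ S, o e = false) ≤
        ∑ o, W G M b l c o * ind (∀ e' ∈ insert e S, o e' = false) := by
      rw [der_flip (fun o => W G M b l c o * ind (∀ e ∈ S, o e = false)) e, Finset.mul_sum]
      have h2 : ∑ o, W G M b l c o * ind (∀ e' ∈ insert e S, o e' = false) =
          ∑ o ∈ univ.filter (fun o : E → Bool => o e = false),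
            W G M b l c o * ind (∀ e ∈ S, o e = false) := by
        rw [Finset.sum_filter]
        refine Finset.sum_congr rfl fun o _ => ?_
        by_cases ho : o e = false
        · rw [if_pos ho]
          congr 2
          simp [ho]
        · rw [if_neg ho]
          have : ¬ ∀ e' ∈ insert e S, o e' = false := fun h => ho (h e (Finset.mem_insert_self _ _))
          simp only [ind, if_neg this, mul_zero]
      rw [h2]
      refine Finset.sum_le_sum fun o ho => ?_
      have ho' : o e = false := (Finset.mem_filter.1 ho).2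
      have h3 : ind (∀ e' ∈ S, Function.update o e true e' = false) = ind (∀ e' ∈ S, o e' = false) := by
        congr 1
        refine propext ⟨fun h e' he' => ?_, fun h e' he' => ?_⟩
        · have hne : e' ≠ e := fun h => he (h ▸ he')
          have := h e' he'
          simpa [Function.update, hne] using this
        · have hne : e' ≠ e := fun h => he (h ▸ he')
          simpa [Function.update, hne] using h e' he'
      rw [h3, ← add_mul, ← mul_assoc]
      refine mul_le_mul_of_nonneg_right (der_step G M hM b l hb c o e ho') ?_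
      unfold ind; split_ifs <;> norm_num
    refine le_trans ?_ h1
    rw [mul_assoc]
    exact mul_le_mul_of_nonneg_left ih (by linarith)

theorem cls (G : Gr V E) (hG : Deg4 G) (M : Al) (hM : M.Ok) (b l : ℝ) (hb : 0 < b) (v : V) :
    ((1 - Real.tanh b) / 4) ^ 4 ≤
      EW G M b l (fun _ o => ind (∀ e, G.s e = v ∨ G.r e = v → o e = false)) := by
  classical
  have ht1 : Real.tanh b ≤ 1 := by
    rw [Real.tanh_eq_sinh_div_cosh, div_le_one (Real.cosh_pos _)]
    exact (Real.sinh_lt_cosh b).le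
  have ht0 : 0 ≤ Real.tanh b := by
    rw [Real.tanh_eq_sinh_div_cosh]
    exact div_nonneg (Real.sinh_nonneg_iff.2 hb.le) (Real.cosh_pos _).le
  set S : Finset E := univ.filter (fun e => G.s e = v) ∪ univ.filter (fun e => G.r e = v) with hS
  have hcard : S.card ≤ 4 := (Finset.card_union_le _ _).trans (hG v)
  have hZ : 0 < ∑ c, ∑ o, W G M b l c o :=
    Finset.sum_pos (fun c _ => Finset.sum_pos (fun o _ => W_pos G M hM b l hb c o)
      Finset.univ_nonempty) Finset.univ_nonempty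
  unfold EW
  rw [le_div_iff₀ hZ, Finset.mul_sum]
  refine Finset.sum_le_sum fun c _ => ?_
  have h1 := der_ind G M hM b l hb c S
  have h2 : ∀ o : E → Bool, ind (∀ e, G.s e = v ∨ G.r e = v → o e = false) =
      ind (∀ e ∈ S, o e = false) := by
    intro o
    congr 1
    simp [hS, Finset.mem_union, Finset.mem_filter]
  have h3 : 0 ≤ ∑ o, W G M b l c o := Finset.sum_nonneg fun o _ => (W_pos G M hM b l hb c o).le
  have h4 : ((1 - Real.tanh b) / 4) ^ 4 ≤ ((1 - Real.tanh b) / 4) ^ S.card :=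
    pow_le_pow_of_le_one (by linarith) (by linarith) hcard
  calc ((1 - Real.tanh b) / 4) ^ 4 * ∑ o, W G M b l c o
      ≤ ((1 - Real.tanh b) / 4) ^ S.card * ∑ o, W G M b l c o := mul_le_mul_of_nonneg_right h4 h3
    _ ≤ _ := by
      refine h1.trans (le_of_eq ?_)
      refine Finset.sum_congr rfl fun o _ => ?_
      show W G M b l c o * ind (∀ e ∈ S, o e = false) =
        W G M b l c o * ind (∀ e, G.s e = v ∨ G.r e = v → o e = false)
      rw [h2 o]

end H82.BX

end S_H82_BX_DER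

section S_H82_IC_BKA

/-!
# BKA: Burton-Keane, the finite combinatorial lemma

Choose a finset `F ⊆ ω` of minimal cardinality such that for all `x, y ∈ S`: `x ↔ y` in `ω` implies `x ↔ y` in `F`.
(1) `kap F = 1` (no nonzero even subgraph).  Otherwise there is `η ≠ 0` with `bd η = 0` supported in `F` and `e` with `η e ≠ 0`; `η - 1_e` is a flow supported in `F \ {e}` with boundary
    `src (s e) (r e)`, so `s e ↔ r e` in `F.erase e` (`conn_of_flow`), hence connectivity in `F.erase e` and `F` agree (`conn_insert`), contradiction to minimality.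
    In particular `F` has no loop (`s e = r e`).
(2) For all finite `W` containing the ends of `F`: `2^{kG Γ W F} 2^{|F|} = 2^{|W|} kap F` (induction on `F` with `kG_insert`, `kap_insert`; `kG Γ W ∅ = |W|`).  With `kap F = 1`: `kG + |F| = |W|`, and
    `kG ≥ 1` if `W` is nonempty, so `|F| + 1 ≤ |W|`.
(3) Let `deg v = #{e ∈ F : s e = v} + #{e ∈ F : r e = v}`; `W` = the set of `v` with `deg v ≥ 1`; `∑_{v ∈ W} deg v = 2|F|`.
(4) If `deg v = 1` then `v ∈ S`: otherwise the only edge `e` of `F` at `v` could be removed: for `x, y ∈ S` (so `x, y ≠ v`) connected in `F` they are connected in `F.erase e` (`conn_insert`; `v` is connected in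
    `F.erase e` only to itself).
(5) If `c ∈ D` then `deg c ≥ 3` : `s1, s2, s3` are connected to `c`, hence to each other in `ω`, hence in `F`; they are different from `c` (`c ∉ S`) and pairwise not connected in
    `F \ tch {c} ⊆ ω \ tch {c}`.  Since `s_i` is connected in `F` to `s_j` but not in `F \ tch {c}`, by `conn_split` there is an edge `e_i ∈ F ∩ tch {c}` with `s_i` connected in `F \ tch {c}` to an end of `e_i`; if that
    end is `c` then ... (no edge of `F \ tch {c}` has an end at `c`, so a vertex `≠ c` is not connected to `c` in `F \ tch {c}`; so the end is the other end of `e_i`, and `e_i` is not a loop).  If `e_i = e_j` for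
    `i ≠ j` then `s_i`, `s_j` would both be connected in `F \ tch {c}` to the other end of `e_i`, contradiction.  So there are 3 distinct edges at `c`.
(6) If `D` is empty, done.  Otherwise `F` is nonempty, `∑_{v ∈ W} (deg v - 2) = 2|F| - 2|W| ≤ -2`; the terms with `deg v = 1` are `≥ -|S|` in total, the terms with `deg v = 2` vanish, those with
    `deg v ≥ 3` are `≥ 1` each and `D ⊆ {deg ≥ 3}`: `|D| ≤ |S| - 2`.
-/

set_option autoImplicit false

open Finset

namespace H82.IC

variable {V E : Type*} [Fintype E] [DecidableEq E]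

theorem BKA_min (Γ : Gr V E) (ω : Finset E) (S : Finset V) :
    ∃ F : Finset E, F ⊆ ω ∧
      (∀ x ∈ S, ∀ y ∈ S, Γ.Conn (ω : Set E) x y → Γ.Conn (F : Set E) x y) ∧
      (∀ e ∈ F, ¬ (∀ x ∈ S, ∀ y ∈ S, Γ.Conn (ω : Set E) x y →
        Γ.Conn ((F.erase e : Finset E) : Set E) x y)) := by
  classical
  let Q : Finset (Finset E) := ω.powerset.filter
    (fun F => ∀ x ∈ S, ∀ y ∈ S, Γ.Conn (ω : Set E) x y → Γ.Conn (F : Set E) x y)
  have hQ : Q.Nonempty := by
    refine ⟨ω, ?_⟩
    rw [Finset.mem_filter]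
    exact ⟨Finset.mem_powerset.2 (Finset.Subset.refl ω), fun x _ y _ h => h⟩
  obtain ⟨F, hF, hmin⟩ := Finset.exists_min_image Q Finset.card hQ
  rw [Finset.mem_filter] at hF
  refine ⟨F, Finset.mem_powerset.1 hF.1, hF.2, ?_⟩
  intro e he hcon
  have h1 : F.erase e ∈ Q := by
    rw [Finset.mem_filter]
    exact ⟨Finset.mem_powerset.2 ((Finset.erase_subset e F).trans (Finset.mem_powerset.1 hF.1)),
      hcon⟩
  have h2 := hmin _ h1
  have h3 := Finset.card_erase_lt_of_mem he
  omega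

theorem BKA_ins {F : Finset E} {e : E} (he : e ∈ F) :
    (F : Set E) = insert e ((F.erase e : Finset E) : Set E) := by
  rw [← Finset.coe_insert, Finset.insert_erase he]

theorem BKA_end (Γ : Gr V E) {ω : Set E} {x v : V} (h : Γ.Conn ω x v) :
    x = v ∨ ∃ e ∈ ω, Γ.s e = v ∨ Γ.r e = v := by
  rcases Relation.ReflTransGen.cases_tail h with h1 | ⟨b, _, e, he, h2 | h2⟩
  · exact Or.inl h1.symm
  · exact Or.inr ⟨e, he, Or.inr h2.2⟩
  · exact Or.inr ⟨e, he, Or.inl h2.1⟩

theorem BKA_acyc (Γ : Gr V E) (ω F : Finset E) (S : Finset V)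
    (h1 : ∀ x ∈ S, ∀ y ∈ S, Γ.Conn (ω : Set E) x y → Γ.Conn (F : Set E) x y)
    (h2 : ∀ e ∈ F, ¬ (∀ x ∈ S, ∀ y ∈ S, Γ.Conn (ω : Set E) x y →
        Γ.Conn ((F.erase e : Finset E) : Set E) x y)) :
    ∀ e ∈ F, ¬ Γ.Conn ((F.erase e : Finset E) : Set E) (Γ.s e) (Γ.r e) := by
  intro e he hcon
  apply h2 e he
  intro x hx y hy hxy
  have h3 := h1 x hx y hy hxy
  rw [BKA_ins he, conn_insert] at h3
  rcases h3 with h3 | ⟨h3, h4⟩ | ⟨h3, h4⟩
  · exact h3
  · exact conn_trans Γ (conn_trans Γ h3 hcon) h4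
  · exact conn_trans Γ (conn_trans Γ h3 (conn_symm Γ hcon)) h4

theorem BKA_kG_empty (Γ : Gr V E) (W : Finset V) : kG Γ W (∅ : Set E) = W.card := by
  have hcl : ∀ x : V, Γ.cl (∅ : Set E) x = {x} := by
    intro x
    ext y
    constructor
    · intro hy
      rcases BKA_end Γ (show Γ.Conn (∅ : Set E) x y from hy) with h | ⟨e, he, _⟩
      · exact h.symm
      · exact absurd he (Set.notMem_empty e)
    · intro hy
      rw [Set.mem_singleton_iff] at hy
      rw [hy]
      exact mem_cl_self Γ _ x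
  have h1 : {C : Set V | ∃ v ∈ W, C = Γ.cl (∅ : Set E) v} = (fun v : V => ({v} : Set V)) '' (W : Set V) := by
    ext C
    constructor
    · rintro ⟨v, hv, rfl⟩
      exact ⟨v, hv, (hcl v).symm⟩
    · rintro ⟨v, hv, rfl⟩
      exact ⟨v, hv, (hcl v).symm⟩
  unfold kG
  rw [h1, Set.ncard_image_of_injective _ Set.singleton_injective, Set.ncard_coe_finset]

theorem BKA_count (Γ : Gr V E) (F : Finset E) (W : Finset V)
    (hW : ∀ e ∈ F, Γ.s e ∈ W ∧ Γ.r e ∈ W)
    (hac : ∀ e ∈ F, ¬ Γ.Conn ((F.erase e : Finset E) : Set E) (Γ.s e) (Γ.r e)) :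
    ∀ G : Finset E, G ⊆ F → kG Γ W (G : Set E) + G.card = W.card := by
  intro G
  induction G using Finset.induction_on with
  | empty =>
    intro _
    rw [Finset.coe_empty, BKA_kG_empty, Finset.card_empty, add_zero]
  | @insert e G he ih =>
    intro hG
    have heF : e ∈ F := hG (Finset.mem_insert_self e G)
    have hGF : G ⊆ F := fun x hx => hG (Finset.mem_insert_of_mem hx)
    have h1 := ih hGF
    have h2 : ¬ Γ.Conn (G : Set E) (Γ.s e) (Γ.r e) := by
      intro hc
      refine hac e heF (conn_mono Γ ?_ hc)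
      intro x hx
      have hx' : x ∈ G := hx
      refine Finset.mem_coe.2 (Finset.mem_erase.2 ⟨?_, hGF hx'⟩)
      rintro rfl
      exact he hx'
    have h3 := kG_insert Γ W (G : Set E) e (hW e heF).1 (hW e heF).2
    have h4 : ind (Γ.Conn (G : Set E) (Γ.s e) (Γ.r e)) = 0 := by
      unfold ind
      exact if_neg h2
    rw [h4, sub_zero, ← pow_succ] at h3
    have h5 : kG Γ W (G : Set E) = kG Γ W (insert e (G : Set E)) + 1 :=
      (pow_right_injective₀ (by norm_num : (0 : ℝ) < 2) (by norm_num : (2 : ℝ) ≠ 1)) h3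
    rw [Finset.coe_insert, Finset.card_insert_of_notMem he]
    omega

theorem BKA_kG_pos (Γ : Gr V E) (W : Finset V) (hW : W.Nonempty) (ω : Set E) :
    1 ≤ kG Γ W ω := by
  unfold kG
  rw [Nat.one_le_iff_ne_zero, Ne, Set.ncard_eq_zero (KC_fin Γ W ω)]
  intro h
  obtain ⟨v, hv⟩ := hW
  have h1 : Γ.cl ω v ∈ {C : Set V | ∃ v ∈ W, C = Γ.cl ω v} := ⟨v, hv, rfl⟩
  rw [h] at h1
  exact h1

theorem BKA_edge (Γ : Gr V E) (F : Finset E) (c a b : V) (hac : a ≠ c)
    (h : Γ.Conn (F : Set E) a b) (h' : ¬ Γ.Conn ((F : Set E) \ Γ.tch {c}) a b) :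
    ∃ e ∈ F, (Γ.s e = c ∧ Γ.r e ≠ c ∧ Γ.Conn ((F : Set E) \ Γ.tch {c}) a (Γ.r e)) ∨
      (Γ.r e = c ∧ Γ.s e ≠ c ∧ Γ.Conn ((F : Set E) \ Γ.tch {c}) a (Γ.s e)) := by
  have hnc : ¬ Γ.Conn ((F : Set E) \ Γ.tch {c}) a c := by
    intro hc
    rcases BKA_end Γ hc with h1 | ⟨e, he, h1⟩
    · exact hac h1
    · exact he.2 h1
  obtain ⟨e, he, h1⟩ := conn_split Γ h h'
  have heK : Γ.s e = c ∨ Γ.r e = c := he.2
  refine ⟨e, he.1, ?_⟩
  rcases h1 with h1 | h1
  · have h2 : Γ.s e ≠ c := by
      intro h3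
      rw [h3] at h1
      exact hnc h1
    exact Or.inr ⟨heK.resolve_left h2, h2, h1⟩
  · have h2 : Γ.r e ≠ c := by
      intro h3
      rw [h3] at h1
      exact hnc h1
    exact Or.inl ⟨heK.resolve_right h2, h2, h1⟩

theorem BKA_ne (Γ : Gr V E) (ω : Set E) (c a b : V) (e e' : E)
    (h : (Γ.s e = c ∧ Γ.r e ≠ c ∧ Γ.Conn ω a (Γ.r e)) ∨
      (Γ.r e = c ∧ Γ.s e ≠ c ∧ Γ.Conn ω a (Γ.s e)))
    (h' : (Γ.s e' = c ∧ Γ.r e' ≠ c ∧ Γ.Conn ω b (Γ.r e')) ∨
      (Γ.r e' = c ∧ Γ.s e' ≠ c ∧ Γ.Conn ω b (Γ.s e')))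
    (hab : ¬ Γ.Conn ω a b) : e ≠ e' := by
  rintro rfl
  rcases h with h | h <;> rcases h' with h' | h'
  · exact hab (conn_trans Γ h.2.2 (conn_symm Γ h'.2.2))
  · exact h.2.1 h'.1
  · exact h.2.1 h'.1
  · exact hab (conn_trans Γ h.2.2 (conn_symm Γ h'.2.2))

theorem BKA_three [DecidableEq V] (Γ : Gr V E) (F : Finset E) (c s1 s2 s3 : V)
    (h1 : s1 ≠ c) (h2 : s2 ≠ c) (h3 : s3 ≠ c)
    (h12 : Γ.Conn (F : Set E) s1 s2) (h23 : Γ.Conn (F : Set E) s2 s3)
    (h31 : Γ.Conn (F : Set E) s3 s1)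
    (n12 : ¬ Γ.Conn ((F : Set E) \ Γ.tch {c}) s1 s2)
    (n13 : ¬ Γ.Conn ((F : Set E) \ Γ.tch {c}) s1 s3)
    (n23 : ¬ Γ.Conn ((F : Set E) \ Γ.tch {c}) s2 s3) :
    3 ≤ (F.filter (fun e => Γ.s e = c)).card + (F.filter (fun e => Γ.r e = c)).card := by
  obtain ⟨e1, he1, p1⟩ := BKA_edge Γ F c s1 s2 h1 h12 n12
  obtain ⟨e2, he2, p2⟩ := BKA_edge Γ F c s2 s3 h2 h23 n23
  obtain ⟨e3, he3, p3⟩ := BKA_edge Γ F c s3 s1 h3 h31 (fun h => n13 (conn_symm Γ h))
  have d12 := BKA_ne Γ _ c s1 s2 e1 e2 p1 p2 n12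
  have d13 := BKA_ne Γ _ c s1 s3 e1 e3 p1 p3 n13
  have d23 := BKA_ne Γ _ c s2 s3 e2 e3 p2 p3 n23
  have hc : ({e1, e2, e3} : Finset E).card = 3 := Finset.card_eq_three.2
    ⟨e1, e2, e3, d12, d13, d23, rfl⟩
  rw [← hc]
  refine le_trans (Finset.card_le_card ?_) (Finset.card_union_le _ _)
  intro e he
  rw [Finset.mem_insert, Finset.mem_insert, Finset.mem_singleton] at he
  rw [Finset.mem_union, Finset.mem_filter, Finset.mem_filter]
  rcases he with rfl | rfl | rfl
  · rcases p1 with p | p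
    · exact Or.inl ⟨he1, p.1⟩
    · exact Or.inr ⟨he1, p.1⟩
  · rcases p2 with p | p
    · exact Or.inl ⟨he2, p.1⟩
    · exact Or.inr ⟨he2, p.1⟩
  · rcases p3 with p | p
    · exact Or.inl ⟨he3, p.1⟩
    · exact Or.inr ⟨he3, p.1⟩

theorem BKA_leaf_aux (Γ : Gr V E) (ω F : Finset E) (S : Finset V)
    (h1 : ∀ x ∈ S, ∀ y ∈ S, Γ.Conn (ω : Set E) x y → Γ.Conn (F : Set E) x y)
    (h2 : ∀ e ∈ F, ¬ (∀ x ∈ S, ∀ y ∈ S, Γ.Conn (ω : Set E) x y →
        Γ.Conn ((F.erase e : Finset E) : Set E) x y)) (v : V) (e : E) (he : e ∈ F)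
    (hev : Γ.s e = v ∨ Γ.r e = v)
    (hun : ∀ e' ∈ F, e' ≠ e → Γ.s e' ≠ v ∧ Γ.r e' ≠ v) : v ∈ S := by
  by_contra hv
  apply h2 e he
  intro x hx y hy hxy
  have h3 := h1 x hx y hy hxy
  have hn : ∀ z ∈ S, ¬ Γ.Conn ((F.erase e : Finset E) : Set E) z v := by
    intro z hz hc
    rcases BKA_end Γ hc with h4 | ⟨e', he', h4⟩
    · rw [h4] at hz
      exact hv hz
    · have h5 : e' ∈ F.erase e := he'
      rw [Finset.mem_erase] at h5
      have h6 := hun e' h5.2 h5.1
      rcases h4 with h4 | h4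
      · exact h6.1 h4
      · exact h6.2 h4
  rw [BKA_ins he, conn_insert] at h3
  rcases h3 with h3 | ⟨h3, h4⟩ | ⟨h3, h4⟩
  · exact h3
  · exfalso
    rcases hev with hev | hev
    · rw [hev] at h3
      exact hn x hx h3
    · rw [hev] at h4
      exact hn y hy (conn_symm Γ h4)
  · exfalso
    rcases hev with hev | hev
    · rw [hev] at h4
      exact hn y hy (conn_symm Γ h4)
    · rw [hev] at h3
      exact hn x hx h3

theorem BKA_leaf [DecidableEq V] (Γ : Gr V E) (ω F : Finset E) (S : Finset V)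
    (h1 : ∀ x ∈ S, ∀ y ∈ S, Γ.Conn (ω : Set E) x y → Γ.Conn (F : Set E) x y)
    (h2 : ∀ e ∈ F, ¬ (∀ x ∈ S, ∀ y ∈ S, Γ.Conn (ω : Set E) x y →
        Γ.Conn ((F.erase e : Finset E) : Set E) x y)) (v : V)
    (hd : (F.filter (fun e => Γ.s e = v)).card + (F.filter (fun e => Γ.r e = v)).card = 1) :
    v ∈ S := by
  have hcase : ((F.filter (fun e => Γ.s e = v)).card = 1 ∧
      (F.filter (fun e => Γ.r e = v)).card = 0) ∨
      ((F.filter (fun e => Γ.s e = v)).card = 0 ∧ (F.filter (fun e => Γ.r e = v)).card = 1) := by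
    omega
  rcases hcase with ⟨ha, hb⟩ | ⟨hb, ha⟩
  · obtain ⟨e, he⟩ := Finset.card_eq_one.1 ha
    rw [Finset.card_eq_zero] at hb
    have he1 : e ∈ F.filter (fun e => Γ.s e = v) := by
      rw [he]
      exact Finset.mem_singleton_self e
    rw [Finset.mem_filter] at he1
    refine BKA_leaf_aux Γ ω F S h1 h2 v e he1.1 (Or.inl he1.2) ?_
    intro e' he' hne
    constructor
    · intro h3
      have h4 : e' ∈ F.filter (fun e => Γ.s e = v) := Finset.mem_filter.2 ⟨he', h3⟩
      rw [he, Finset.mem_singleton] at h4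
      exact hne h4
    · intro h3
      have h4 : e' ∈ F.filter (fun e => Γ.r e = v) := Finset.mem_filter.2 ⟨he', h3⟩
      rw [hb] at h4
      exact absurd h4 (Finset.notMem_empty e')
  · obtain ⟨e, he⟩ := Finset.card_eq_one.1 ha
    rw [Finset.card_eq_zero] at hb
    have he1 : e ∈ F.filter (fun e => Γ.r e = v) := by
      rw [he]
      exact Finset.mem_singleton_self e
    rw [Finset.mem_filter] at he1
    refine BKA_leaf_aux Γ ω F S h1 h2 v e he1.1 (Or.inr he1.2) ?_
    intro e' he' hne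
    constructor
    · intro h3
      have h4 : e' ∈ F.filter (fun e => Γ.s e = v) := Finset.mem_filter.2 ⟨he', h3⟩
      rw [hb] at h4
      exact absurd h4 (Finset.notMem_empty e')
    · intro h3
      have h4 : e' ∈ F.filter (fun e => Γ.r e = v) := Finset.mem_filter.2 ⟨he', h3⟩
      rw [he, Finset.mem_singleton] at h4
      exact hne h4

theorem BKA_final [DecidableEq V] (W S D : Finset V) (deg : V → ℕ) (n : ℕ)
    (hsum : ∑ v ∈ W, deg v = 2 * n) (hn : W.Nonempty → n + 1 ≤ W.card)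
    (hpos : ∀ v ∈ W, 1 ≤ deg v) (hleaf : ∀ v ∈ W, deg v = 1 → v ∈ S)
    (hD : ∀ c ∈ D, 3 ≤ deg c) (hDW : D ⊆ W) (hSD : ∀ c ∈ D, c ∉ S) : D.card ≤ S.card := by
  by_cases hW : W.Nonempty
  · have h1 : ∀ v ∈ W, (if v ∈ D then (1 : ℤ) else 0) - (if v ∈ S then (1 : ℤ) else 0) ≤
        (deg v : ℤ) - 2 := by
      intro v hv
      by_cases hvD : v ∈ D
      · rw [if_pos hvD, if_neg (hSD v hvD)]
        have := hD v hvD
        omega
      · rw [if_neg hvD]
        by_cases hvS : v ∈ S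
        · rw [if_pos hvS]
          have := hpos v hv
          omega
        · rw [if_neg hvS]
          have h2 := hpos v hv
          have h3 : deg v ≠ 1 := fun h => hvS (hleaf v hv h)
          omega
    have h2 := Finset.sum_le_sum h1
    rw [Finset.sum_sub_distrib, Finset.sum_sub_distrib, Finset.sum_const, nsmul_eq_mul,
      ← Finset.sum_filter, ← Finset.sum_filter, Finset.sum_const, Finset.sum_const,
      nsmul_eq_mul, nsmul_eq_mul, ← Nat.cast_sum, hsum] at h2
    have h3 : W.filter (fun v => v ∈ D) = D := by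
      ext v
      rw [Finset.mem_filter]
      exact ⟨fun h => h.2, fun h => ⟨hDW h, h⟩⟩
    have h4 : (W.filter (fun v => v ∈ S)).card ≤ S.card := by
      refine Finset.card_le_card ?_
      intro v hv
      exact (Finset.mem_filter.1 hv).2
    rw [h3] at h2
    have h5 := hn hW
    push_cast at h2
    have h6 : ((W.filter (fun v => v ∈ S)).card : ℤ) ≤ (S.card : ℤ) := by exact_mod_cast h4
    have h7 : (n : ℤ) + 1 ≤ (W.card : ℤ) := by exact_mod_cast h5
    have h8 : (D.card : ℤ) ≤ (S.card : ℤ) := by linarith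
    exact_mod_cast h8
  · rw [Finset.not_nonempty_iff_eq_empty] at hW
    rw [hW, Finset.subset_empty] at hDW
    rw [hDW, Finset.card_empty]
    exact Nat.zero_le _

theorem bk_finite (Γ : Gr V E) (ω : Finset E) (S D : Finset V) (hSD : ∀ c ∈ D, c ∉ S)
    (h : ∀ c ∈ D, ∃ s1 ∈ S, ∃ s2 ∈ S, ∃ s3 ∈ S, Γ.Conn (ω : Set E) c s1 ∧
      Γ.Conn (ω : Set E) c s2 ∧ Γ.Conn (ω : Set E) c s3 ∧
      ¬ Γ.Conn ((ω : Set E) \ Γ.tch {c}) s1 s2 ∧ ¬ Γ.Conn ((ω : Set E) \ Γ.tch {c}) s1 s3 ∧
      ¬ Γ.Conn ((ω : Set E) \ Γ.tch {c}) s2 s3) : D.card ≤ S.card := by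
  classical
  obtain ⟨F, hFω, hF1, hF2⟩ := BKA_min Γ ω S
  have hac := BKA_acyc Γ ω F S hF1 hF2
  let W : Finset V := F.image Γ.s ∪ F.image Γ.r
  have hWe : ∀ e ∈ F, Γ.s e ∈ W ∧ Γ.r e ∈ W := fun e he =>
    ⟨Finset.mem_union_left _ (Finset.mem_image_of_mem _ he),
      Finset.mem_union_right _ (Finset.mem_image_of_mem _ he)⟩
  have hcount := BKA_count Γ F W hWe hac F (Finset.Subset.refl F)
  let deg : V → ℕ := fun v => (F.filter (fun e => Γ.s e = v)).card +
    (F.filter (fun e => Γ.r e = v)).card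
  have hsum : ∑ v ∈ W, deg v = 2 * F.card := by
    show ∑ v ∈ W, ((F.filter (fun e => Γ.s e = v)).card +
      (F.filter (fun e => Γ.r e = v)).card) = 2 * F.card
    rw [Finset.sum_add_distrib,
      ← Finset.card_eq_sum_card_fiberwise (f := Γ.s) (s := F) (t := W) (fun e he => (hWe e he).1),
      ← Finset.card_eq_sum_card_fiberwise (f := Γ.r) (s := F) (t := W) (fun e he => (hWe e he).2)]
    ring
  have hmemW : ∀ v, 1 ≤ deg v → v ∈ W := by
    intro v hv
    have h1 : 0 < (F.filter (fun e => Γ.s e = v)).card ∨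
        0 < (F.filter (fun e => Γ.r e = v)).card := by
      have h2 : 1 ≤ (F.filter (fun e => Γ.s e = v)).card +
        (F.filter (fun e => Γ.r e = v)).card := hv
      omega
    rcases h1 with h1 | h1
    · obtain ⟨e, he⟩ := Finset.card_pos.1 h1
      rw [Finset.mem_filter] at he
      rw [← he.2]
      exact (hWe e he.1).1
    · obtain ⟨e, he⟩ := Finset.card_pos.1 h1
      rw [Finset.mem_filter] at he
      rw [← he.2]
      exact (hWe e he.1).2
  have hposW : ∀ v ∈ W, 1 ≤ deg v := by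
    intro v hv
    show 1 ≤ (F.filter (fun e => Γ.s e = v)).card + (F.filter (fun e => Γ.r e = v)).card
    rcases Finset.mem_union.1 hv with hv | hv
    · obtain ⟨e, he, hev⟩ := Finset.mem_image.1 hv
      have h1 : 0 < (F.filter (fun e => Γ.s e = v)).card :=
        Finset.card_pos.2 ⟨e, Finset.mem_filter.2 ⟨he, hev⟩⟩
      omega
    · obtain ⟨e, he, hev⟩ := Finset.mem_image.1 hv
      have h1 : 0 < (F.filter (fun e => Γ.r e = v)).card :=
        Finset.card_pos.2 ⟨e, Finset.mem_filter.2 ⟨he, hev⟩⟩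
      omega
  have hD3 : ∀ c ∈ D, 3 ≤ deg c := by
    intro c hc
    obtain ⟨s1, hs1, s2, hs2, s3, hs3, c1, c2, c3, n12, n13, n23⟩ := h c hc
    have hne : ∀ s ∈ S, s ≠ c := by
      rintro s hs rfl
      exact hSD s hc hs
    have hm : ∀ x y : V, ¬ Γ.Conn ((ω : Set E) \ Γ.tch {c}) x y →
        ¬ Γ.Conn ((F : Set E) \ Γ.tch {c}) x y := by
      intro x y hxy hxy'
      refine hxy (conn_mono Γ ?_ hxy')
      intro e he
      exact ⟨hFω he.1, he.2⟩
    exact BKA_three Γ F c s1 s2 s3 (hne s1 hs1) (hne s2 hs2) (hne s3 hs3)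
      (hF1 s1 hs1 s2 hs2 (conn_trans Γ (conn_symm Γ c1) c2))
      (hF1 s2 hs2 s3 hs3 (conn_trans Γ (conn_symm Γ c2) c3))
      (hF1 s3 hs3 s1 hs1 (conn_trans Γ (conn_symm Γ c3) c1))
      (hm _ _ n12) (hm _ _ n13) (hm _ _ n23)
  refine BKA_final W S D deg F.card hsum ?_ hposW ?_ hD3 ?_ hSD
  · intro hW
    have h1 := BKA_kG_pos Γ W hW (F : Set E)
    omega
  · intro v _ hv
    exact BKA_leaf Γ ω F S hF1 hF2 v hv
  · intro c hc
    refine hmemW c ?_
    have := hD3 c hc
    omega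

end H82.IC

end S_H82_IC_BKA
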