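import Mathlib
import Pool.Agent.H82.BXM.G01

/-! MP_26628e_mp: this file joins several modules to save build time. -/

section S_H82_BX_BL2

/-!
# BL2: the key real inequality of the block estimate

`Ψ(r,t) = ((1-r) N false t + r N true t)/((1-r) D false t + r D true t) = (1-u) Φ0(t) + u Φ1(t)`, `Φo(t) = Ph o t`,
`u = r ρ/((1-r) + r ρ)`, `ρ(t) = D true t/D false t ∈ [1,2]` antitone.  `X = Φ1(0) - Φ0(0)`, `Y = Φ0(0) - Φ0(tm)`.
`Ψ` is increasing in `r` (`u` is increasing in `r`, `Φ1 ≥ Φ0`) and decreasing in `t` (`u` decreasing in `t`, `Φo` decreasing).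
(i) For fixed `r`, `Ψ(r, ·)` is a quotient of affine functions with denominator `δ0 + t δ1`, `0 ≤ δ1 ≤ δ0`; such a quotient `g` satisfies
`g(s) - g(s') = (s' - s) Δ/(D(s) D(s'))` with `Δ` constant, so difference quotients on `[0,1]` are comparable within a factor `4`:
`Ψ(r,t) - Ψ(r,t') ≥ (1/4) ((t'-t)/tm) (Ψ(r,0) - Ψ(r,tm)) ≥ (c/4)(Ψ(r,0) - Ψ(r,tm))` (if `tm > 0`; if `tm = 0` then `Y = 0` and `Φ1(0) = Φ1(tm)`,
and the bounds below involving `Ψ(r,0) - Ψ(r,tm)` are trivial).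
With `u1 = u(r,tm) ≤ u(r,0)`: `Ψ(r,0) - Ψ(r,tm) ≥ (1-u1)(Φ0(0) - Φ0(tm)) + u1 (Φ1(0) - Φ1(tm))`,
`1 - u1 ≥ (1-r)/2 ≥ (1-ρ0)/2`, `u1 ≥ r/2`.
(ii) `Ψ(r,t) - Ψ(r',t) = (u(r,t) - u(r',t))(Φ1(t) - Φ0(t)) ≥ (1/4)(r-r')(Φ1(t) - Φ0(t))`, and
`Φ1(t) - Φ0(t) ≥ Φ1(t) - Φ0(0) ≥ X - (Φ1(0) - Φ1(tm))`.
Let `Γ = Ψ(r,t) - Ψ(r',t')`.  `Γ ≥ Ψ(r,t) - Ψ(r,t')` (`Ψ(r,t') ≥ Ψ(r',t')`) and `Γ ≥ Ψ(r,t) - Ψ(r',t)`.  With `r ≥ c rm`:
`Γ ≥ (c/4)((1-ρ0)/2) Y`, `Γ ≥ (c/4)(c rm/2)(Φ1(0) - Φ1(tm))`, `Γ ≥ (c/4) rm (X - (Φ1(0) - Φ1(tm)))`.  Adding with suitable weights: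
`Γ ≥ κ (rm X + Y)`.
-/

set_option autoImplicit false

open Finset MeasureTheory

namespace H82.BX

/-- the value after averaging the bit. -/
noncomputable def Ps (d0 d1 n0 n1 : Bool → ℝ) (r t : ℝ) : ℝ :=
  ((1 - r) * (n0 false + t * n1 false) + r * (n0 true + t * n1 true)) /
    ((1 - r) * (d0 false + t * d1 false) + r * (d0 true + t * d1 true))

/-- abstract form of `Ps`. -/
noncomputable def Pa (r A B F G : ℝ) : ℝ := ((1 - r) * (A * F) + r * (B * G)) / ((1 - r) * A + r * B)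

theorem Pa_den (r A B : ℝ) (hr : 0 ≤ r) (hr1 : r < 1) (hA : 0 < A) (hB : 0 < B) :
    0 < (1 - r) * A + r * B := by
  have h1 : 0 < (1 - r) * A := mul_pos (by linarith) hA
  have h2 : 0 ≤ r * B := mul_nonneg hr hB.le
  linarith

theorem Pa_sub_r (r r' A B F G : ℝ) (hr' : 0 ≤ r') (hr : r' ≤ r) (hr1 : r < 1) (hA : 0 < A)
    (hB : 0 < B) : Pa r A B F G - Pa r' A B F G =
      (r - r') * (A * B * (G - F)) / (((1 - r) * A + r * B) * ((1 - r') * A + r' * B)) := by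
  have h1 := Pa_den r A B (le_trans hr' hr) hr1 hA hB
  have h2 := Pa_den r' A B hr' (lt_of_le_of_lt hr hr1) hA hB
  unfold Pa
  rw [div_sub_div _ _ h1.ne' h2.ne']
  congr 1
  ring

theorem Pa_sub_r_ge (r r' A B F G : ℝ) (hr' : 0 ≤ r') (hr : r' ≤ r) (hr1 : r < 1) (hA : 0 < A)
    (hAB : A ≤ B) (hBA : B ≤ 2 * A) (hFG : F ≤ G) :
    1 / 2 * ((r - r') * (G - F)) ≤ Pa r A B F G - Pa r' A B F G := by
  have hB : 0 < B := lt_of_lt_of_le hA hAB
  rw [Pa_sub_r r r' A B F G hr' hr hr1 hA hB]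
  have h1 := Pa_den r A B (le_trans hr' hr) hr1 hA hB
  have h2 := Pa_den r' A B hr' (lt_of_le_of_lt hr hr1) hA hB
  have e1 : (1 - r) * A + r * B ≤ 2 * A := by nlinarith
  have e2 : (1 - r') * A + r' * B ≤ B := by nlinarith
  rw [le_div_iff₀ (mul_pos h1 h2)]
  have h3 : ((1 - r) * A + r * B) * ((1 - r') * A + r' * B) ≤ 2 * A * B :=
    mul_le_mul e1 e2 h2.le (by positivity)
  have h4 : 0 ≤ (r - r') * (G - F) := mul_nonneg (by linarith) (by linarith)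
  calc 1 / 2 * ((r - r') * (G - F)) * (((1 - r) * A + r * B) * ((1 - r') * A + r' * B)) ≤
      1 / 2 * ((r - r') * (G - F)) * (2 * A * B) :=
        mul_le_mul_of_nonneg_left h3 (by positivity)
    _ = _ := by ring

theorem Pa_eq (r A B F G : ℝ) (hr : 0 ≤ r) (hr1 : r < 1) (hA : 0 < A) (hB : 0 < B) :
    Pa r A B F G = (1 - r) * A / ((1 - r) * A + r * B) * F + r * B / ((1 - r) * A + r * B) * G := by
  have h1 := Pa_den r A B hr hr1 hA hB
  unfold Pa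
  field_simp

theorem Pa_w (r A B : ℝ) (hr : 0 ≤ r) (hr1 : r < 1) (hA : 0 < A) (hAB : A ≤ B) (hBA : B ≤ 2 * A) :
    (1 - r) * A / ((1 - r) * A + r * B) + r * B / ((1 - r) * A + r * B) = 1 ∧
    (1 - r) / 2 ≤ (1 - r) * A / ((1 - r) * A + r * B) ∧
    r ≤ r * B / ((1 - r) * A + r * B) := by
  have hB : 0 < B := lt_of_lt_of_le hA hAB
  have h1 := Pa_den r A B hr hr1 hA hB
  refine ⟨by rw [← add_div, div_self h1.ne'], ?_, ?_⟩
  · rw [le_div_iff₀ h1]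
    have e1 : (1 - r) * A + r * B ≤ 2 * A := by nlinarith
    calc (1 - r) / 2 * ((1 - r) * A + r * B) ≤ (1 - r) / 2 * (2 * A) :=
          mul_le_mul_of_nonneg_left e1 (by linarith)
      _ = _ := by ring
  · rw [le_div_iff₀ h1]
    refine mul_le_mul_of_nonneg_left ?_ hr
    nlinarith

/-- comparison at two values of `t`. -/
theorem Pa_t (r A B F G A' B' F' G' : ℝ) (hr : 0 ≤ r) (hr1 : r < 1) (hA : 0 < A) (hB : 0 < B)
    (hA' : 0 < A') (hB' : 0 < B') (hFG : F ≤ G) (hra : B' * A ≤ B * A') :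
    (1 - r) * A' / ((1 - r) * A' + r * B') * (F - F') +
      r * B' / ((1 - r) * A' + r * B') * (G - G') ≤ Pa r A B F G - Pa r A' B' F' G' := by
  rw [Pa_eq r A B F G hr hr1 hA hB, Pa_eq r A' B' F' G' hr hr1 hA' hB']
  have h1 := Pa_den r A B hr hr1 hA hB
  have h2 := Pa_den r A' B' hr hr1 hA' hB'
  have hu : r * B' / ((1 - r) * A' + r * B') ≤ r * B / ((1 - r) * A + r * B) := by
    rw [div_le_div_iff₀ h2 h1]
    have : 0 ≤ (1 - r) * r := mul_nonneg (by linarith) hr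
    nlinarith [mul_le_mul_of_nonneg_left hra this]
  have s1 : (1 - r) * A / ((1 - r) * A + r * B) = 1 - r * B / ((1 - r) * A + r * B) := by
    field_simp; ring
  have s2 : (1 - r) * A' / ((1 - r) * A' + r * B') = 1 - r * B' / ((1 - r) * A' + r * B') := by
    field_simp; ring
  rw [s1, s2]
  nlinarith

section
variable (d0 d1 n0 n1 : Bool → ℝ)

theorem Dd_pos (h : BOk d0 d1 n0 n1) (o : Bool) (t : ℝ) (ht : 0 ≤ t) : 0 < Dd d0 d1 o t := by
  have := h.pos o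
  have h2 := mul_nonneg ht (h.dn o)
  unfold Dd; linarith

theorem Ps_Pa (h : BOk d0 d1 n0 n1) (r t : ℝ) (ht : 0 ≤ t) : Ps d0 d1 n0 n1 r t =
    Pa r (Dd d0 d1 false t) (Dd d0 d1 true t) (Ph d0 d1 n0 n1 false t) (Ph d0 d1 n0 n1 true t) := by
  have h1 := Dd_pos d0 d1 n0 n1 h false t ht
  have h2 := Dd_pos d0 d1 n0 n1 h true t ht
  have e1 : Dd d0 d1 false t * Ph d0 d1 n0 n1 false t = n0 false + t * n1 false := by
    unfold Dd at h1; unfold Dd Ph; field_simp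
  have e2 : Dd d0 d1 true t * Ph d0 d1 n0 n1 true t = n0 true + t * n1 true := by
    unfold Dd at h2; unfold Dd Ph; field_simp
  unfold Pa
  rw [e1, e2]
  rfl

end

theorem Ps_mono (d0 d1 n0 n1 : Bool → ℝ) (h : BOk d0 d1 n0 n1) (r r' t t' : ℝ) (hr' : 0 ≤ r')
    (hr : r' ≤ r) (hr1 : r < 1) (ht : 0 ≤ t) (htt : t ≤ t') (ht1 : t' ≤ 1) :
    Ps d0 d1 n0 n1 r' t' ≤ Ps d0 d1 n0 n1 r t := by
  have ht' : 0 ≤ t' := le_trans ht htt
  have hr0 : 0 ≤ r := le_trans hr' hr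
  have a1 := Dd_pos d0 d1 n0 n1 h false t ht
  have a2 := Dd_pos d0 d1 n0 n1 h true t ht
  have a3 := Dd_pos d0 d1 n0 n1 h false t' ht'
  have a4 := Dd_pos d0 d1 n0 n1 h true t' ht'
  have s1 : Ps d0 d1 n0 n1 r' t' ≤ Ps d0 d1 n0 n1 r t' := by
    rw [Ps_Pa d0 d1 n0 n1 h r' t' ht', Ps_Pa d0 d1 n0 n1 h r t' ht']
    have e := Pa_sub_r_ge r r' _ _ (Ph d0 d1 n0 n1 false t') (Ph d0 d1 n0 n1 true t') hr' hr hr1 a3
      (h.r1 t' ht' ht1) (h.r2 t' ht' ht1) (h.up t' ht' ht1)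
    have : 0 ≤ (r - r') * (Ph d0 d1 n0 n1 true t' - Ph d0 d1 n0 n1 false t') :=
      mul_nonneg (by linarith) (by linarith [h.up t' ht' ht1])
    linarith
  have s2 : Ps d0 d1 n0 n1 r t' ≤ Ps d0 d1 n0 n1 r t := by
    rw [Ps_Pa d0 d1 n0 n1 h r t ht, Ps_Pa d0 d1 n0 n1 h r t' ht']
    have e := Pa_t r _ _ (Ph d0 d1 n0 n1 false t) (Ph d0 d1 n0 n1 true t) _ _
      (Ph d0 d1 n0 n1 false t') (Ph d0 d1 n0 n1 true t') hr0 hr1 a1 a2 a3 a4
      (h.up t ht (le_trans htt ht1)) (h.ra t t' ht htt ht1)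
    have den := Pa_den r _ _ hr0 hr1 a3 a4
    have w1 : 0 ≤ (1 - r) * Dd d0 d1 false t' / ((1 - r) * Dd d0 d1 false t' +
        r * Dd d0 d1 true t') := div_nonneg (mul_nonneg (by linarith) a3.le) den.le
    have w2 : 0 ≤ r * Dd d0 d1 true t' / ((1 - r) * Dd d0 d1 false t' +
        r * Dd d0 d1 true t') := div_nonneg (mul_nonneg hr0 a4.le) den.le
    have f1 := h.an false t t' ht htt ht1
    have f2 := h.an true t t' ht htt ht1
    have g1 := mul_nonneg w1 (sub_nonneg.mpr f1)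
    have g2 := mul_nonneg w2 (sub_nonneg.mpr f2)
    linarith
  exact le_trans s1 s2

/-- quotients of affine functions: comparison of difference quotients. -/
theorem aff_quot (a0 a1 e0 e1 c t t' tm : ℝ) (he0 : 0 < e0) (he1 : 0 ≤ e1) (hee : e1 ≤ e0)
    (ht : 0 ≤ t) (htt : t ≤ t') (htm : t' ≤ tm) (htm1 : tm ≤ 1) (hc : c * tm ≤ t' - t)
    (hc0 : 0 < c)
    (hdec : (a0 + 1 * a1) / (e0 + 1 * e1) ≤ (a0 + 0 * a1) / (e0 + 0 * e1)) :
    c / 4 * ((a0 + 0 * a1) / (e0 + 0 * e1) - (a0 + tm * a1) / (e0 + tm * e1)) ≤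
      (a0 + t * a1) / (e0 + t * e1) - (a0 + t' * a1) / (e0 + t' * e1) := by
  have den : ∀ s : ℝ, 0 ≤ s → e0 ≤ e0 + s * e1 := fun s hs => by nlinarith
  have key : ∀ s s' : ℝ, 0 ≤ s → 0 ≤ s' →
      (a0 + s * a1) / (e0 + s * e1) - (a0 + s' * a1) / (e0 + s' * e1) =
        (s' - s) * (a0 * e1 - a1 * e0) / ((e0 + s * e1) * (e0 + s' * e1)) := by
    intro s s' hs hs'
    have h1 := lt_of_lt_of_le he0 (den s hs)
    have h2 := lt_of_lt_of_le he0 (den s' hs')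
    rw [div_sub_div _ _ h1.ne' h2.ne']
    congr 1
    ring
  have hΔ : 0 ≤ a0 * e1 - a1 * e0 := by
    have h := key 0 1 le_rfl zero_le_one
    have h0 : 0 ≤ (1 - 0) * (a0 * e1 - a1 * e0) / ((e0 + 0 * e1) * (e0 + 1 * e1)) := by
      rw [← h]; linarith
    have hd : 0 < (e0 + 0 * e1) * (e0 + 1 * e1) :=
      mul_pos (lt_of_lt_of_le he0 (den 0 le_rfl)) (lt_of_lt_of_le he0 (den 1 zero_le_one))
    by_contra hneg
    have : (1 - 0) * (a0 * e1 - a1 * e0) / ((e0 + 0 * e1) * (e0 + 1 * e1)) < 0 :=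
      div_neg_of_neg_of_pos (by linarith) hd
    linarith
  have ht' : 0 ≤ t' := le_trans ht htt
  have htm0 : 0 ≤ tm := le_trans ht' htm
  rw [key t t' ht ht', key 0 tm le_rfl htm0]
  have b1 : (e0 + t * e1) * (e0 + t' * e1) ≤ 2 * e0 * (2 * e0) := by
    refine mul_le_mul ?_ ?_ (le_trans he0.le (den t' ht')) (by positivity) <;> nlinarith
  have b1p : 0 < (e0 + t * e1) * (e0 + t' * e1) :=
    mul_pos (lt_of_lt_of_le he0 (den t ht)) (lt_of_lt_of_le he0 (den t' ht'))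
  have b2 : e0 * e0 ≤ (e0 + 0 * e1) * (e0 + tm * e1) :=
    mul_le_mul (den 0 le_rfl) (den tm htm0) he0.le (le_trans he0.le (den 0 le_rfl))
  have c1 : (tm - 0) * (a0 * e1 - a1 * e0) / ((e0 + 0 * e1) * (e0 + tm * e1)) ≤
      tm * (a0 * e1 - a1 * e0) / (e0 * e0) := by
    rw [sub_zero]
    exact div_le_div_of_nonneg_left (mul_nonneg htm0 hΔ) (by positivity) b2
  have c2 : (t' - t) * (a0 * e1 - a1 * e0) / (2 * e0 * (2 * e0)) ≤
      (t' - t) * (a0 * e1 - a1 * e0) / ((e0 + t * e1) * (e0 + t' * e1)) :=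
    div_le_div_of_nonneg_left (mul_nonneg (by linarith) hΔ) b1p b1
  refine le_trans (mul_le_mul_of_nonneg_left c1 (by positivity)) (le_trans ?_ c2)
  have : c / 4 * (tm * (a0 * e1 - a1 * e0) / (e0 * e0)) =
      (c * tm) * (a0 * e1 - a1 * e0) / (2 * e0 * (2 * e0)) := by
    field_simp; ring
  rw [this]
  exact div_le_div_of_nonneg_right (mul_le_mul_of_nonneg_right hc hΔ) (by positivity)

theorem blk_psi (c ρ0 : ℝ) (hc : 0 < c) (hρ : ρ0 < 1) : ∃ κ : ℝ, 0 < κ ∧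
    ∀ d0 d1 n0 n1 : Bool → ℝ, BOk d0 d1 n0 n1 → ∀ rm tm r r' t t' : ℝ, rm ≤ ρ0 → 0 ≤ tm → tm ≤ 1 →
      0 ≤ r' → r' ≤ r → r ≤ rm → 0 ≤ t → t ≤ t' → t' ≤ tm → c * rm ≤ r - r' → c * tm ≤ t' - t →
      κ * Qfo d0 d1 n0 n1 rm tm ≤ Ps d0 d1 n0 n1 r t - Ps d0 d1 n0 n1 r' t' := by
  have hρ1 : 0 < 1 - ρ0 := by linarith
  set M := 2 / c + 4 / c ^ 2 + 8 / (c * (1 - ρ0)) with hM
  have hMp : 0 < M := by positivity
  refine ⟨1 / M, by positivity, ?_⟩
  intro d0 d1 n0 n1 h rm tm r r' t t' hrm htm0 htm1 hr' hr hrr ht htt htm hcr hct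
  have hr0 : 0 ≤ r := le_trans hr' hr
  have hr1 : r < 1 := by linarith
  have hrm0 : 0 ≤ rm := le_trans hr0 hrr
  have ht' : 0 ≤ t' := le_trans ht htt
  have ht1 : t' ≤ 1 := le_trans htm htm1
  have htt1 : t ≤ 1 := le_trans htt ht1
  set Γ := Ps d0 d1 n0 n1 r t - Ps d0 d1 n0 n1 r' t' with hΓ
  set X := Ph d0 d1 n0 n1 true 0 - Ph d0 d1 n0 n1 false 0 with hX
  set W := Ph d0 d1 n0 n1 false 0 - Ph d0 d1 n0 n1 false tm with hW
  set T := Ph d0 d1 n0 n1 true 0 - Ph d0 d1 n0 n1 true tm with hT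
  have hQ : Qfo d0 d1 n0 n1 rm tm = rm * X + W := rfl
  have hW0 : 0 ≤ W := by
    have := h.an false 0 tm le_rfl htm0 htm1; linarith
  have hT0 : 0 ≤ T := by
    have := h.an true 0 tm le_rfl htm0 htm1; linarith
  have hΓ0 : 0 ≤ Γ := by
    have := Ps_mono d0 d1 n0 n1 h r r' t t' hr' hr hr1 ht htt ht1
    linarith
  have hcrm : c * rm ≤ r := by linarith
  -- (i)
  have k1 : c / 4 * (Ps d0 d1 n0 n1 r 0 - Ps d0 d1 n0 n1 r tm) ≤
      Ps d0 d1 n0 n1 r t - Ps d0 d1 n0 n1 r t' := by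
    have e : ∀ s : ℝ, Ps d0 d1 n0 n1 r s =
        (((1 - r) * n0 false + r * n0 true) + s * ((1 - r) * n1 false + r * n1 true)) /
        (((1 - r) * d0 false + r * d0 true) + s * ((1 - r) * d1 false + r * d1 true)) := by
      intro s
      unfold Ps
      congr 1 <;> ring
    have hdec := Ps_mono d0 d1 n0 n1 h r r 0 1 hr0 le_rfl hr1 le_rfl zero_le_one le_rfl
    rw [e 0, e 1] at hdec
    rw [e 0, e tm, e t, e t']
    have p0 := h.pos false
    have p1 := h.pos true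
    have q0 := h.dn false
    have q1 := h.dn true
    have l0 := h.dl false
    have l1 := h.dl true
    have r1' : 0 ≤ 1 - r := by linarith
    refine aff_quot _ _ _ _ c t t' tm ?_ ?_ ?_ ht htt htm htm1 hct hc hdec
    · have := mul_pos (show (0 : ℝ) < 1 - r by linarith) p0
      have := mul_nonneg hr0 p1.le
      linarith
    · have := mul_nonneg r1' q0
      have := mul_nonneg hr0 q1
      linarith
    · have := mul_le_mul_of_nonneg_left l0 r1'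
      have := mul_le_mul_of_nonneg_left l1 hr0
      linarith
  have k2 : (1 - ρ0) / 2 * W + c * rm * T ≤ Ps d0 d1 n0 n1 r 0 - Ps d0 d1 n0 n1 r tm := by
    rw [Ps_Pa d0 d1 n0 n1 h r 0 le_rfl, Ps_Pa d0 d1 n0 n1 h r tm htm0]
    have e := Pa_t r _ _ (Ph d0 d1 n0 n1 false 0) (Ph d0 d1 n0 n1 true 0) _ _
      (Ph d0 d1 n0 n1 false tm) (Ph d0 d1 n0 n1 true tm) hr0 hr1
      (Dd_pos d0 d1 n0 n1 h false 0 le_rfl) (Dd_pos d0 d1 n0 n1 h true 0 le_rfl)
      (Dd_pos d0 d1 n0 n1 h false tm htm0) (Dd_pos d0 d1 n0 n1 h true tm htm0)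
      (h.up 0 le_rfl zero_le_one) (h.ra 0 tm le_rfl htm0 htm1)
    obtain ⟨-, w2, w3⟩ := Pa_w r _ _ hr0 hr1 (Dd_pos d0 d1 n0 n1 h false tm htm0)
      (h.r1 tm htm0 htm1) (h.r2 tm htm0 htm1)
    refine le_trans ?_ e
    refine add_le_add ?_ ?_
    · exact mul_le_mul_of_nonneg_right (by linarith) hW0
    · exact mul_le_mul_of_nonneg_right (by linarith) hT0
  have k3 : Ps d0 d1 n0 n1 r t - Ps d0 d1 n0 n1 r t' ≤ Γ := by
    have := Ps_mono d0 d1 n0 n1 h r r' t' t' hr' hr hr1 ht' le_rfl ht1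
    linarith
  have hk : c / 4 * ((1 - ρ0) / 2 * W + c * rm * T) ≤ Γ :=
    le_trans (mul_le_mul_of_nonneg_left k2 (by positivity)) (le_trans k1 k3)
  have hcT : 0 ≤ c * rm * T := mul_nonneg (mul_nonneg hc.le hrm0) hT0
  have hWr : 0 ≤ (1 - ρ0) / 2 * W := mul_nonneg (by linarith) hW0
  have i1 : c * (1 - ρ0) / 8 * W ≤ Γ := by
    have : c / 4 * ((1 - ρ0) / 2 * W) ≤ c / 4 * ((1 - ρ0) / 2 * W + c * rm * T) :=
      mul_le_mul_of_nonneg_left (by linarith) (by positivity)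
    calc c * (1 - ρ0) / 8 * W = c / 4 * ((1 - ρ0) / 2 * W) := by ring
      _ ≤ _ := le_trans this hk
  have i2 : c ^ 2 / 4 * (rm * T) ≤ Γ := by
    have : c / 4 * (c * rm * T) ≤ c / 4 * ((1 - ρ0) / 2 * W + c * rm * T) :=
      mul_le_mul_of_nonneg_left (by linarith) (by positivity)
    calc c ^ 2 / 4 * (rm * T) = c / 4 * (c * rm * T) := by ring
      _ ≤ _ := le_trans this hk
  -- (ii)
  have i3 : c / 2 * (rm * (X - T)) ≤ Γ := by
    rcases le_total (X - T) 0 with hneg | hpos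
    · have : c / 2 * (rm * (X - T)) ≤ 0 :=
        mul_nonpos_of_nonneg_of_nonpos (by positivity) (mul_nonpos_of_nonneg_of_nonpos hrm0 hneg)
      linarith
    · have e := Pa_sub_r_ge r r' _ _ (Ph d0 d1 n0 n1 false t) (Ph d0 d1 n0 n1 true t) hr' hr hr1
        (Dd_pos d0 d1 n0 n1 h false t ht) (h.r1 t ht htt1) (h.r2 t ht htt1) (h.up t ht htt1)
      rw [← Ps_Pa d0 d1 n0 n1 h r t ht, ← Ps_Pa d0 d1 n0 n1 h r' t ht] at e
      have g1 : Ps d0 d1 n0 n1 r' t' ≤ Ps d0 d1 n0 n1 r' t :=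
        Ps_mono d0 d1 n0 n1 h r' r' t t' hr' le_rfl (lt_of_le_of_lt hr hr1) ht htt ht1
      have g2 : X - T ≤ Ph d0 d1 n0 n1 true t - Ph d0 d1 n0 n1 false t := by
        have a1 := h.an true t tm ht (le_trans htt htm) htm1
        have a2 := h.an false 0 t le_rfl ht htt1
        linarith
      have g3 : c * rm * (X - T) ≤ (r - r') * (Ph d0 d1 n0 n1 true t - Ph d0 d1 n0 n1 false t) :=
        mul_le_mul hcr g2 hpos (by linarith)
      nlinarith
  -- conclusion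
  have f1 : W ≤ 8 / (c * (1 - ρ0)) * Γ := by
    rw [div_mul_eq_mul_div, le_div_iff₀ (by positivity)]
    nlinarith
  have f2 : rm * T ≤ 4 / c ^ 2 * Γ := by
    rw [div_mul_eq_mul_div, le_div_iff₀ (by positivity)]
    nlinarith
  have f3 : rm * (X - T) ≤ 2 / c * Γ := by
    rw [div_mul_eq_mul_div, le_div_iff₀ (by positivity)]
    nlinarith
  rw [hQ, one_div, inv_mul_le_iff₀ hMp, hM]
  nlinarith

end H82.BX

end S_H82_BX_BL2

section S_H82_BX_BL3

/-!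
# BL3: hyperbolic tangent estimates for one chain

`chr b x y u v = tanh(b x u) tanh(b u v) tanh(b v y)` for `x, y, u, v ∈ [0,1]`, increasing in `u` and `v`.
Upper bound `chr ≤ tanh(b x) tanh(b) tanh(b y)`.
Difference for `u ≥ 4/5`, `u' ≤ 3/5`, `v ≥ 1/3`: `≥ [tanh(b x u) - tanh(b x u')] tanh(b u v) tanh(b v y)`, with
`tanh(b x u) - tanh(b x u') ≥ b x (u - u')/cosh(b)^2 ≥ tanh(b x)/(5 cosh(b)^2)` (mean value theorem, `tanh a ≤ a`),
`tanh(b u v) ≥ tanh(4 b/15)`, `tanh(b v y) ≥ v tanh(b y) ≥ tanh(b y)/3` (concavity of `tanh` on `[0,∞)`).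
So `c = tanh(4b/15)/(15 cosh(b)^2)` (note `tanh b ≤ 1`).
-/

set_option autoImplicit false

open Finset MeasureTheory

namespace H82.BX

theorem bl3_sub (x y : ℝ) :
    Real.tanh x - Real.tanh y = Real.sinh (x - y) / (Real.cosh x * Real.cosh y) := by
  have hx := (Real.cosh_pos x).ne'
  have hy := (Real.cosh_pos y).ne'
  rw [Real.tanh_eq_sinh_div_cosh, Real.tanh_eq_sinh_div_cosh, Real.sinh_sub]
  field_simp

theorem bl3_mono {x y : ℝ} (h : x ≤ y) : Real.tanh x ≤ Real.tanh y := by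
  have h1 := bl3_sub y x
  have h2 : 0 ≤ Real.sinh (y - x) / (Real.cosh y * Real.cosh x) :=
    div_nonneg (Real.sinh_nonneg_iff.2 (by linarith))
      (mul_pos (Real.cosh_pos _) (Real.cosh_pos _)).le
  linarith

theorem bl3_nonneg {x : ℝ} (h : 0 ≤ x) : 0 ≤ Real.tanh x := by
  have := bl3_mono h
  rwa [Real.tanh_zero] at this

theorem bl3_low {x y B : ℝ} (h0 : 0 ≤ y) (h : y ≤ x) (hB : x ≤ B) :
    (x - y) / Real.cosh B ^ 2 ≤ Real.tanh x - Real.tanh y := by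
  rw [bl3_sub]
  have h1 : x - y ≤ Real.sinh (x - y) := Real.self_le_sinh_iff.2 (by linarith)
  have h2 : Real.cosh x ≤ Real.cosh B := by
    rw [Real.cosh_le_cosh, abs_of_nonneg (h0.trans h), abs_of_nonneg (h0.trans (h.trans hB))]
    exact hB
  have h3 : Real.cosh y ≤ Real.cosh B := by
    rw [Real.cosh_le_cosh, abs_of_nonneg h0, abs_of_nonneg (h0.trans (h.trans hB))]
    exact h.trans hB
  have h4 := Real.cosh_pos x
  have h5 := Real.cosh_pos y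
  have h6 : Real.cosh x * Real.cosh y ≤ Real.cosh B ^ 2 := by
    rw [sq]; exact mul_le_mul h2 h3 h5.le (h4.le.trans h2)
  exact div_le_div₀ (by linarith) h1 (by positivity) h6

theorem bl3_le {x : ℝ} (h : 0 ≤ x) : Real.tanh x ≤ x := by
  have hmono : MonotoneOn (fun t : ℝ => t * Real.cosh t - Real.sinh t) (Set.Ici 0) := by
    have hd : ∀ t : ℝ, HasDerivAt (fun t : ℝ => t * Real.cosh t - Real.sinh t)
        (t * Real.sinh t) t := by
      intro t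
      have h1 : HasDerivAt (fun t : ℝ => t * Real.cosh t - Real.sinh t)
          (1 * Real.cosh t + t * Real.sinh t - Real.cosh t) t :=
        ((hasDerivAt_id t).mul (Real.hasDerivAt_cosh t)).sub (Real.hasDerivAt_sinh t)
      have h2 : t * Real.sinh t = 1 * Real.cosh t + t * Real.sinh t - Real.cosh t := by ring
      rw [h2]
      exact h1
    refine monotoneOn_of_deriv_nonneg (convex_Ici 0)
      (fun t _ => (hd t).continuousAt.continuousWithinAt)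
      (fun t _ => (hd t).differentiableAt.differentiableWithinAt) fun t ht => ?_
    rw [(hd t).deriv]
    rw [interior_Ici] at ht
    exact mul_nonneg (le_of_lt ht) (Real.sinh_nonneg_iff.2 (le_of_lt ht))
  have h1 := hmono (Set.mem_Ici.2 le_rfl) (Set.mem_Ici.2 h) h
  simp only [zero_mul, Real.sinh_zero, sub_zero] at h1
  rw [Real.tanh_eq_sinh_div_cosh, div_le_iff₀ (Real.cosh_pos x)]
  linarith

theorem bl3_sinh {l t : ℝ} (hl : 0 ≤ l) (hl1 : l ≤ 1) (ht : 0 ≤ t) :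
    Real.sinh (l * t) ≤ l * Real.sinh t := by
  have hmono : MonotoneOn (fun t : ℝ => l * Real.sinh t - Real.sinh (l * t)) (Set.Ici 0) := by
    have hd : ∀ t : ℝ, HasDerivAt (fun t : ℝ => l * Real.sinh t - Real.sinh (l * t))
        (l * Real.cosh t - Real.cosh (l * t) * l) t := by
      intro t
      have h2 : HasDerivAt (fun t : ℝ => l * t) l t := by
        simpa using (hasDerivAt_id t).const_mul l
      exact ((Real.hasDerivAt_sinh t).const_mul l).sub h2.sinh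
    refine monotoneOn_of_deriv_nonneg (convex_Ici 0)
      (fun t _ => (hd t).continuousAt.continuousWithinAt)
      (fun t _ => (hd t).differentiableAt.differentiableWithinAt) fun t ht => ?_
    rw [(hd t).deriv]
    rw [interior_Ici] at ht
    have ht' : 0 ≤ t := le_of_lt ht
    have h3 : Real.cosh (l * t) ≤ Real.cosh t := by
      rw [Real.cosh_le_cosh, abs_of_nonneg (mul_nonneg hl ht'), abs_of_nonneg ht']
      nlinarith
    nlinarith
  have h1 := hmono (Set.mem_Ici.2 le_rfl) (Set.mem_Ici.2 ht) ht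
  simp only [mul_zero, Real.sinh_zero, sub_zero] at h1
  linarith

theorem bl3_conc {v w : ℝ} (hv : 0 ≤ v) (hv1 : v ≤ 1) (hw : 0 ≤ w) :
    v * Real.tanh w ≤ Real.tanh (v * w) := by
  have hx := Real.cosh_pos w
  have hy := Real.cosh_pos (v * w)
  have e1 : Real.sinh ((1 + v) * w) =
      Real.sinh w * Real.cosh (v * w) + Real.cosh w * Real.sinh (v * w) := by
    rw [← Real.sinh_add]; congr 1; ring
  have e2 : Real.sinh ((1 - v) * w) =
      Real.sinh w * Real.cosh (v * w) - Real.cosh w * Real.sinh (v * w) := by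
    rw [← Real.sinh_sub]; congr 1; ring
  have hp : 0 < 1 + v := by linarith
  have h3 := bl3_sinh (l := (1 - v) / (1 + v)) (t := (1 + v) * w)
    (div_nonneg (by linarith) hp.le) (by rw [div_le_one hp]; linarith) (by positivity)
  have h4 : (1 - v) / (1 + v) * ((1 + v) * w) = (1 - v) * w := by
    field_simp
  rw [h4, div_mul_eq_mul_div, le_div_iff₀ hp, e1, e2] at h3
  rw [Real.tanh_eq_sinh_div_cosh, Real.tanh_eq_sinh_div_cosh, mul_div_assoc',
    div_le_div_iff₀ hx hy]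
  nlinarith

noncomputable def chr (b x y u v : ℝ) : ℝ :=
  Real.tanh (b * (x * u)) * Real.tanh (b * (u * v)) * Real.tanh (b * (v * y))

/-- maximum of `chr` over `u, v`. -/
noncomputable def chm (b x y : ℝ) : ℝ := Real.tanh (b * x) * Real.tanh b * Real.tanh (b * y)

theorem chr_mono (b x y u v u' v' : ℝ) (hb : 0 ≤ b) (hx : 0 ≤ x) (hy : 0 ≤ y) (hu : 0 ≤ u)
    (hv : 0 ≤ v) (huu : u ≤ u') (hvv : v ≤ v') : chr b x y u v ≤ chr b x y u' v' := by
  have hu' := hu.trans huu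
  have hv' := hv.trans hvv
  have h1 : Real.tanh (b * (x * u)) ≤ Real.tanh (b * (x * u')) :=
    bl3_mono (mul_le_mul_of_nonneg_left (mul_le_mul_of_nonneg_left huu hx) hb)
  have h2 : Real.tanh (b * (u * v)) ≤ Real.tanh (b * (u' * v')) :=
    bl3_mono (mul_le_mul_of_nonneg_left (mul_le_mul huu hvv hv hu') hb)
  have h3 : Real.tanh (b * (v * y)) ≤ Real.tanh (b * (v' * y)) :=
    bl3_mono (mul_le_mul_of_nonneg_left (mul_le_mul_of_nonneg_right hvv hy) hb)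
  have p1 : 0 ≤ Real.tanh (b * (x * u)) := bl3_nonneg (by positivity)
  have p2 : 0 ≤ Real.tanh (b * (u * v)) := bl3_nonneg (by positivity)
  have p3 : 0 ≤ Real.tanh (b * (v * y)) := bl3_nonneg (by positivity)
  exact mul_le_mul (mul_le_mul h1 h2 p2 (p1.trans h1)) h3 p3
    (mul_nonneg (p1.trans h1) (p2.trans h2))

theorem chr_le (b x y u v : ℝ) (hb : 0 ≤ b) (hx : 0 ≤ x) (hx1 : x ≤ 1) (hy : 0 ≤ y) (hy1 : y ≤ 1)
    (hu : 0 ≤ u) (hu1 : u ≤ 1) (hv : 0 ≤ v) (hv1 : v ≤ 1) :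
    0 ≤ chr b x y u v ∧ chr b x y u v ≤ chm b x y ∧ chm b x y ≤ Real.tanh b := by
  have p1 : 0 ≤ Real.tanh (b * (x * u)) := bl3_nonneg (by positivity)
  have p2 : 0 ≤ Real.tanh (b * (u * v)) := bl3_nonneg (by positivity)
  have p3 : 0 ≤ Real.tanh (b * (v * y)) := bl3_nonneg (by positivity)
  refine ⟨mul_nonneg (mul_nonneg p1 p2) p3, ?_, ?_⟩
  · have := chr_mono b x y u v 1 1 hb hx hy hu hv hu1 hv1
    simpa [chr, chm] using this
  · have q1 : 0 ≤ Real.tanh (b * x) := bl3_nonneg (by positivity)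
    have q2 : 0 ≤ Real.tanh b := bl3_nonneg hb
    have q3 : 0 ≤ Real.tanh (b * y) := bl3_nonneg (by positivity)
    have r1 := (Real.tanh_lt_one (b * x)).le
    have r3 := (Real.tanh_lt_one (b * y)).le
    unfold chm
    calc Real.tanh (b * x) * Real.tanh b * Real.tanh (b * y)
        ≤ 1 * Real.tanh b * 1 :=
          mul_le_mul (mul_le_mul_of_nonneg_right r1 q2) r3 q3 (by positivity)
      _ = Real.tanh b := by ring

theorem chr_diff (b : ℝ) (hb : 0 < b) : ∃ c : ℝ, 0 < c ∧ ∀ x y u u' v : ℝ, 0 ≤ x → x ≤ 1 → 0 ≤ y →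
    y ≤ 1 → 4 / 5 ≤ u → u ≤ 1 → 0 ≤ u' → u' ≤ 3 / 5 → 1 / 3 ≤ v → v ≤ 1 →
    c * chm b x y ≤ chr b x y u v - chr b x y u' v := by
  have hC := Real.cosh_pos b
  have ht0 : 0 < Real.tanh (4 * b / 15) := by
    rw [Real.tanh_eq_sinh_div_cosh]
    exact div_pos (Real.sinh_pos_iff.2 (by positivity)) (Real.cosh_pos _)
  refine ⟨Real.tanh (4 * b / 15) / (15 * Real.cosh b ^ 2), by positivity, ?_⟩
  intro x y u u' v hx hx1 hy hy1 hu hu1 hu' hu'1 hv hv1
  have hu0 : 0 ≤ u := by linarith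
  have hv0 : 0 ≤ v := by linarith
  have hP' : 0 ≤ Real.tanh (b * (x * u')) := bl3_nonneg (by positivity)
  have hQ' : Real.tanh (b * (u' * v)) ≤ Real.tanh (b * (u * v)) :=
    bl3_mono (mul_le_mul_of_nonneg_left (mul_le_mul_of_nonneg_right (by linarith) hv0) hb.le)
  have hR0 : 0 ≤ Real.tanh (b * (v * y)) := bl3_nonneg (by positivity)
  have hQ : Real.tanh (4 * b / 15) ≤ Real.tanh (b * (u * v)) := by
    refine bl3_mono ?_
    have : 4 / 15 ≤ u * v := by nlinarith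
    nlinarith
  have hR : Real.tanh (b * y) / 3 ≤ Real.tanh (b * (v * y)) := by
    have h1 := bl3_conc (v := v) (w := b * y) hv0 hv1 (by positivity)
    have h2 : v * (b * y) = b * (v * y) := by ring
    rw [h2] at h1
    have h3 : 0 ≤ Real.tanh (b * y) := bl3_nonneg (by positivity)
    nlinarith
  have hP : Real.tanh (b * x) / (5 * Real.cosh b ^ 2) ≤
      Real.tanh (b * (x * u)) - Real.tanh (b * (x * u')) := by
    have h1 := bl3_low (x := b * (x * u)) (y := b * (x * u')) (B := b) (by positivity)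
      (mul_le_mul_of_nonneg_left (mul_le_mul_of_nonneg_left (by linarith) hx) hb.le)
      (by
        have : x * u ≤ 1 := by nlinarith
        nlinarith)
    refine le_trans ?_ h1
    have h2 := bl3_le (x := b * x) (by positivity)
    rw [div_le_div_iff₀ (by positivity) (by positivity)]
    have h4 : Real.tanh (b * x) ≤ 5 * (b * (x * u) - b * (x * u')) := by
      have h5 : 0 ≤ b * x := by positivity
      nlinarith
    have h6 : 0 ≤ Real.cosh b ^ 2 := by positivity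
    nlinarith [mul_le_mul_of_nonneg_right h4 h6]
  have hA0 : 0 ≤ Real.tanh (b * x) := bl3_nonneg (by positivity)
  have hB0 : 0 ≤ Real.tanh (b * y) := bl3_nonneg (by positivity)
  have hQ0 : 0 ≤ Real.tanh (b * (u * v)) := ht0.le.trans hQ
  have hPP : 0 ≤ Real.tanh (b * (x * u)) - Real.tanh (b * (x * u')) :=
    le_trans (by positivity) hP
  have hb1 := (Real.tanh_lt_one b).le
  have hb0 : 0 ≤ Real.tanh b := bl3_nonneg hb.le
  calc Real.tanh (4 * b / 15) / (15 * Real.cosh b ^ 2) * chm b x y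
      = (Real.tanh (b * x) / (5 * Real.cosh b ^ 2)) * Real.tanh (4 * b / 15) *
          (Real.tanh (b * y) / 3) * Real.tanh b := by
        unfold chm
        field_simp
        ring
    _ ≤ (Real.tanh (b * x) / (5 * Real.cosh b ^ 2)) * Real.tanh (4 * b / 15) *
          (Real.tanh (b * y) / 3) * 1 := by
        refine mul_le_mul_of_nonneg_left hb1 (by positivity)
    _ = (Real.tanh (b * x) / (5 * Real.cosh b ^ 2)) * Real.tanh (4 * b / 15) *
          (Real.tanh (b * y) / 3) := by ring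
    _ ≤ (Real.tanh (b * (x * u)) - Real.tanh (b * (x * u'))) * Real.tanh (b * (u * v)) *
          Real.tanh (b * (v * y)) := by
        refine mul_le_mul (mul_le_mul hP hQ ht0.le hPP) hR (by positivity) (by positivity)
    _ ≤ chr b x y u v - chr b x y u' v := by
        unfold chr
        have : 0 ≤ Real.tanh (b * (x * u')) *
            (Real.tanh (b * (u * v)) - Real.tanh (b * (u' * v))) * Real.tanh (b * (v * y)) :=
          mul_nonneg (mul_nonneg hP' (by linarith)) hR0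
        nlinarith

end H82.BX

end S_H82_BX_BL3

section S_H82_BX_DRA

/-!
# DRA: the subcritical half of the sharpness dichotomy

`S_n(l) = ∑_{j<n} f_j(l)`.  Facts: `S` is monotone in `l` and in `n`, `n f_n ≤ S_n`.  If on `[a', b'] ⊆ [0, 2 l1]` one has
`S_n ≤ s` (`s > 0`), then `f_n' ≥ (n/(C0 s)) f_n` there, so `f_n(a') ≤ exp(-(n/(C0 s)) (b'-a')) f_n(b')`
(`l ↦ exp(-(n/(C0 s)) l) f_n(l)` is monotone, nonnegative derivative).
Let `n ≥ 1`, `S_n(l1) ≤ √n`, `μ_k = l1 (1/2 + 2^{-k/4}/2)` (`μ_0 = l1`, decreasing to `l1/2`).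
Claim by induction on `k`: `S_{2^k n}(μ_k) ≤ √n + ∑_{j<k} a_j ≤ 2 √n`, `a_j = 2^j n exp(-2^j n (μ_j - μ_{j+1})/(2 C0 √n))`:
`S_{2^{k+1} n}(μ_{k+1}) ≤ S_{2^k n}(μ_k) + 2^k n f_{2^k n}(μ_{k+1})` and the fact above with `s = 2 √n` on `[μ_{k+1}, μ_k]`
(there `S_{2^k n} ≤ S_{2^k n}(μ_k)`), `f ≤ 1`.
`μ_j - μ_{j+1} = (l1/2) 2^{-j/4} (1 - 2^{-1/4}) ≥ l1 2^{-j/4} / 20`; with `q = l1/(40 C0)`, `x = 2^{3j/4} √n q`:
`a_j ≤ 2^j n exp(-x) ≤ 2^j n 24/x^4 = 24 · 2^{-2j} /(n q^4)`, so `∑_j a_j ≤ 32/(n q^4) ≤ √n` as soon as `n √n ≥ 32/q^4`: this defines `n0`.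
Conclusion: `S_{2^k n}(l1/2) ≤ 2√n` for all `k`, so by the fact on `[l1/4, l1/2]`: `f_{2^k n}(l1/4) ≤ exp(-2^k n l1/(8 C0 √n))`.
For `m ≥ n` take `k` with `2^k n ≤ m < 2^{k+1} n`: `f_m ≤ f_{2^k n} ≤ exp(-m l1/(16 C0 √n))`; for `m < n`: `f_m ≤ 1`.  With
`a = l1/(16 C0 √N)`, `C = exp(a N)`: `f_m(l1/4) ≤ C exp(-a m)` for all `m`, if `n ≤ N`.
(Any other choice of constants is fine.)
-/

set_option autoImplicit false

open Finset

namespace H82.BX

/-- the differential inequality. -/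
structure DR (C0 b : ℝ) (f : ℕ → ℝ → ℝ) : Prop where
  zero : ∀ l ∈ Set.Icc 0 b, f 0 l = 1
  nonneg : ∀ n, ∀ l ∈ Set.Icc 0 b, 0 ≤ f n l
  anti : ∀ n, ∀ l ∈ Set.Icc 0 b, f (n + 1) l ≤ f n l
  mono : ∀ n, MonotoneOn (f n) (Set.Icc 0 b)
  diff : ∀ n, Differentiable ℝ (f n)
  ineq : ∀ n, ∀ l ∈ Set.Icc 0 b, n * f n l ≤ C0 * (∑ j ∈ range n, f j l) * deriv (f n) l

theorem DRA_anti {C0 b : ℝ} {f : ℕ → ℝ → ℝ} (hf : DR C0 b f) {l : ℝ} (hl : l ∈ Set.Icc 0 b)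
    {n m : ℕ} (h : n ≤ m) : f m l ≤ f n l :=
  antitone_nat_of_succ_le (f := fun n => f n l) (fun n => hf.anti n l hl) h

theorem DRA_le_one {C0 b : ℝ} {f : ℕ → ℝ → ℝ} (hf : DR C0 b f) {l : ℝ} (hl : l ∈ Set.Icc 0 b)
    (n : ℕ) : f n l ≤ 1 := by
  rw [← hf.zero l hl]
  exact DRA_anti hf hl (Nat.zero_le n)

theorem DRA_S_pos {C0 b : ℝ} {f : ℕ → ℝ → ℝ} (hf : DR C0 b f) {l : ℝ} (hl : l ∈ Set.Icc 0 b)
    {n : ℕ} (hn : 1 ≤ n) : 0 < ∑ j ∈ range n, f j l := by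
  refine Finset.sum_pos' (fun j _ => hf.nonneg j l hl) ⟨0, Finset.mem_range.2 hn, ?_⟩
  rw [hf.zero l hl]
  exact one_pos

theorem DRA_S_mono {C0 b : ℝ} {f : ℕ → ℝ → ℝ} (hf : DR C0 b f) {l l' : ℝ}
    (hl : l ∈ Set.Icc 0 b) (hl' : l' ∈ Set.Icc 0 b) (h : l ≤ l') (n : ℕ) :
    ∑ j ∈ range n, f j l ≤ ∑ j ∈ range n, f j l' :=
  Finset.sum_le_sum fun j _ => hf.mono j hl hl' h

theorem DRA_S_le {C0 b : ℝ} {f : ℕ → ℝ → ℝ} (hf : DR C0 b f) {l : ℝ} (hl : l ∈ Set.Icc 0 b)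
    {n m : ℕ} (h : n ≤ m) : ∑ j ∈ range n, f j l ≤ ∑ j ∈ range m, f j l :=
  Finset.sum_le_sum_of_subset_of_nonneg (Finset.range_subset_range.2 h)
    fun j _ _ => hf.nonneg j l hl

theorem DRA_S_two {C0 b : ℝ} {f : ℕ → ℝ → ℝ} (hf : DR C0 b f) {l : ℝ} (hl : l ∈ Set.Icc 0 b)
    (n : ℕ) : ∑ j ∈ range (n + n), f j l ≤ ∑ j ∈ range n, f j l + n * f n l := by
  rw [Finset.sum_range_add]
  have h1 := Finset.sum_le_card_nsmul (range n) (fun x => f (n + x) l) (f n l)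
    (fun x _ => DRA_anti hf hl (Nat.le_add_right n x))
  rw [Finset.card_range, nsmul_eq_mul] at h1
  linarith

theorem DRA_decay {C0 b : ℝ} {f : ℕ → ℝ → ℝ} (hf : DR C0 b f) (hC : 0 < C0) {n : ℕ} (hn : 1 ≤ n)
    {a' b' s : ℝ} (ha : 0 ≤ a') (hab : a' ≤ b') (hb : b' ≤ b) (hs : 0 < s)
    (hS : ∀ l ∈ Set.Icc a' b', ∑ j ∈ range n, f j l ≤ s) :
    f n a' ≤ Real.exp (-((n : ℝ) / (C0 * s)) * (b' - a')) * f n b' := by
  obtain ⟨κ, hκ⟩ : ∃ κ, κ = (n : ℝ) / (C0 * s) := ⟨_, rfl⟩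
  rw [← hκ]
  have hCs : 0 < C0 * s := mul_pos hC hs
  have hexp : ∀ l, HasDerivAt (fun l => Real.exp (-κ * l)) (Real.exp (-κ * l) * (-κ * 1)) l :=
    fun l => ((hasDerivAt_id l).const_mul (-κ)).exp
  have hd : ∀ l, HasDerivAt (fun l => Real.exp (-κ * l) * f n l)
      (Real.exp (-κ * l) * (-κ * 1) * f n l + Real.exp (-κ * l) * deriv (f n) l) l :=
    fun l => (hexp l).mul ((hf.diff n) l).hasDerivAt
  have hmono : MonotoneOn (fun l => Real.exp (-κ * l) * f n l) (Set.Icc a' b') := by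
    refine monotoneOn_of_deriv_nonneg (convex_Icc a' b')
      (fun l _ => (hd l).continuousAt.continuousWithinAt)
      (fun l _ => (hd l).differentiableAt.differentiableWithinAt) ?_
    intro l hl
    rw [interior_Icc] at hl
    have hl' : l ∈ Set.Icc a' b' := Set.Ioo_subset_Icc_self hl
    have hlb : l ∈ Set.Icc 0 b := ⟨ha.trans hl'.1, hl'.2.trans hb⟩
    rw [(hd l).deriv]
    have h1 := hf.ineq n l hlb
    have hSp := DRA_S_pos hf hlb hn
    have h2 : 0 ≤ deriv (f n) l := by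
      by_contra hcon
      push Not at hcon
      have h3 : C0 * (∑ j ∈ range n, f j l) * deriv (f n) l < 0 :=
        mul_neg_of_pos_of_neg (mul_pos hC hSp) hcon
      have h4 : 0 ≤ (n : ℝ) * f n l := mul_nonneg (Nat.cast_nonneg n) (hf.nonneg n l hlb)
      linarith
    have h3 : C0 * (∑ j ∈ range n, f j l) * deriv (f n) l ≤ C0 * s * deriv (f n) l :=
      mul_le_mul_of_nonneg_right (mul_le_mul_of_nonneg_left (hS l hl') hC.le) h2
    have h4 : κ * f n l ≤ deriv (f n) l := by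
      rw [hκ, div_mul_eq_mul_div, div_le_iff₀ hCs, mul_comm (deriv (f n) l)]
      exact h1.trans h3
    have h5 : Real.exp (-κ * l) * (-κ * 1) * f n l + Real.exp (-κ * l) * deriv (f n) l =
        Real.exp (-κ * l) * (deriv (f n) l - κ * f n l) := by ring
    rw [h5]
    exact mul_nonneg (Real.exp_pos _).le (by linarith)
  have h1 : Real.exp (-κ * a') * f n a' ≤ Real.exp (-κ * b') * f n b' :=
    hmono (Set.left_mem_Icc.2 hab) (Set.right_mem_Icc.2 hab) hab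
  have h2 := mul_le_mul_of_nonneg_left h1 (Real.exp_pos (κ * a')).le
  rw [← mul_assoc, ← mul_assoc, ← Real.exp_add, ← Real.exp_add] at h2
  have e1 : κ * a' + -κ * a' = 0 := by ring
  have e2 : κ * a' + -κ * b' = -κ * (b' - a') := by ring
  rw [e1, e2, Real.exp_zero, one_mul] at h2
  exact h2

theorem DRA_geom (k : ℕ) : ∑ j ∈ range k, (50 / 81 : ℝ) ^ j ≤ 3 := by
  have h1 := geom_sum_mul_neg (50 / 81 : ℝ) k
  have h2 : (0 : ℝ) ≤ (50 / 81) ^ k := by positivity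
  linarith

theorem DRA_exp {y : ℝ} (hy : 0 < y) : Real.exp (-y) ≤ 2 / y ^ 2 := by
  have h1 := Real.quadratic_le_exp_of_nonneg hy.le
  have h2 : y ^ 2 / 2 ≤ Real.exp y := by linarith
  have h3 : 0 < y ^ 2 / 2 := by positivity
  rw [Real.exp_neg]
  calc (Real.exp y)⁻¹ ≤ (y ^ 2 / 2)⁻¹ := inv_anti₀ h3 h2
    _ = 2 / y ^ 2 := by rw [inv_div]

theorem DRA_main {C0 l1 : ℝ} (hC : 0 < C0) (hl : 0 < l1) {f : ℕ → ℝ → ℝ}
    (hf : DR C0 (2 * l1) f) {n : ℕ} (hn : 1 ≤ n)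
    (hn0 : 6 / (l1 / (40 * C0)) ^ 2 ≤ Real.sqrt n)
    (hS : ∑ j ∈ range n, f j l1 ≤ Real.sqrt n) (k : ℕ) :
    ∑ j ∈ range (2 ^ k * n), f j (l1 * (1 / 2 + (9 / 10) ^ k / 2)) ≤
      Real.sqrt n + 2 / (l1 / (40 * C0)) ^ 2 * ∑ j ∈ range k, (50 / 81 : ℝ) ^ j := by
  obtain ⟨q, hq⟩ : ∃ q, q = l1 / (40 * C0) := ⟨_, rfl⟩
  rw [← hq] at hn0 ⊢
  have hq0 : 0 < q := by rw [hq]; positivity
  have hnR : (0 : ℝ) < n := by exact_mod_cast hn
  have hsq : 0 < Real.sqrt n := Real.sqrt_pos.2 hnR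
  have hsq2 : Real.sqrt n * Real.sqrt n = n := Real.mul_self_sqrt hnR.le
  have hμ : ∀ k : ℕ, l1 * (1 / 2 + (9 / 10) ^ k / 2) ∈ Set.Icc 0 (2 * l1) := by
    intro k
    have h1 : (0 : ℝ) < (9 / 10) ^ k := by positivity
    have h2 : (9 / 10 : ℝ) ^ k ≤ 1 := pow_le_one₀ (by norm_num) (by norm_num)
    constructor
    · positivity
    · nlinarith
  have hbd : ∀ k : ℕ, Real.sqrt n + 2 / q ^ 2 * ∑ j ∈ range k, (50 / 81 : ℝ) ^ j ≤
      2 * Real.sqrt n := by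
    intro k
    have h1 : 2 / q ^ 2 * ∑ j ∈ range k, (50 / 81 : ℝ) ^ j ≤ 2 / q ^ 2 * 3 :=
      mul_le_mul_of_nonneg_left (DRA_geom k) (by positivity)
    have h2 : 2 / q ^ 2 * 3 = 6 / q ^ 2 := by ring
    linarith
  induction k with
  | zero =>
    have e1 : l1 * (1 / 2 + (9 / 10) ^ 0 / 2) = l1 := by ring
    rw [e1, pow_zero, one_mul, Finset.range_zero, Finset.sum_empty, mul_zero, add_zero]
    exact hS
  | succ k ih =>
    obtain ⟨μ, hμd⟩ : ∃ μ, μ = l1 * (1 / 2 + (9 / 10) ^ k / 2) := ⟨_, rfl⟩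
    obtain ⟨μ', hμd'⟩ : ∃ μ', μ' = l1 * (1 / 2 + (9 / 10) ^ (k + 1) / 2) := ⟨_, rfl⟩
    have hm := hμ k
    have hm' := hμ (k + 1)
    rw [← hμd] at ih hm
    rw [← hμd'] at hm' ⊢
    obtain ⟨K, hK⟩ : ∃ K, K = 2 ^ k * n := ⟨_, rfl⟩
    have hK1 : 1 ≤ K := by
      rw [hK]
      exact Nat.mul_pos (by positivity) hn
    have hKK : 2 ^ (k + 1) * n = K + K := by rw [hK, pow_succ]; ring
    rw [← hK] at ih
    rw [hKK]
    have hdiff : μ - μ' = l1 / 20 * (9 / 10) ^ k := by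
      rw [hμd, hμd', pow_succ]
      ring
    have hle : μ' ≤ μ := by
      have : 0 ≤ l1 / 20 * (9 / 10) ^ k := by positivity
      linarith
    have h1 := DRA_S_two hf hm' K
    have h2 := DRA_S_mono hf hm' hm hle K
    have h3 := DRA_decay hf hC hK1 hm'.1 hle hm.2 (s := 2 * Real.sqrt n) (by positivity)
      (fun l hl => (DRA_S_mono hf ⟨hm'.1.trans hl.1, hl.2.trans hm.2⟩ hm hl.2 K).trans
        (ih.trans (hbd k)))
    have h4 : f K μ' ≤ Real.exp (-((K : ℝ) / (C0 * (2 * Real.sqrt n))) * (μ - μ')) := by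
      refine h3.trans ?_
      have := mul_le_mul_of_nonneg_left (DRA_le_one hf hm K)
        (Real.exp_pos (-((K : ℝ) / (C0 * (2 * Real.sqrt n))) * (μ - μ'))).le
      rw [mul_one] at this
      exact this
    obtain ⟨y, hy⟩ : ∃ y, y = (9 / 5 : ℝ) ^ k * Real.sqrt n * q := ⟨_, rfl⟩
    have hy0 : 0 < y := by rw [hy]; positivity
    have hKR : (K : ℝ) = 2 ^ k * (Real.sqrt n * Real.sqrt n) := by
      rw [hK, hsq2]
      push_cast
      rfl
    have hexpo : -((K : ℝ) / (C0 * (2 * Real.sqrt n))) * (μ - μ') = -y := by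
      rw [hdiff, hy, hq, hKR]
      have e1 : (9 / 5 : ℝ) ^ k = 2 ^ k * (9 / 10) ^ k := by
        rw [← mul_pow]
        norm_num
      rw [e1]
      field_simp
      ring
    rw [hexpo] at h4
    have h5 := h4.trans (DRA_exp hy0)
    have h6 : (K : ℝ) * f K μ' ≤ 2 / q ^ 2 * (50 / 81) ^ k := by
      have e1 : (K : ℝ) * f K μ' ≤ K * (2 / y ^ 2) :=
        mul_le_mul_of_nonneg_left h5 (Nat.cast_nonneg K)
      refine e1.trans (le_of_eq ?_)
      rw [hKR, hy]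
      have e2 : (50 / 81 : ℝ) ^ k * ((9 / 5) ^ k * (9 / 5) ^ k) = 2 ^ k := by
        rw [← mul_pow, ← mul_pow]
        norm_num
      have e3 : (9 / 5 : ℝ) ^ k ≠ 0 := by positivity
      rw [← e2]
      field_simp
    rw [Finset.sum_range_succ, mul_add]
    linarith

theorem dr_down (C0 l1 : ℝ) (hC : 0 < C0) (hl : 0 < l1) :
    ∃ n0 : ℕ, ∀ N : ℕ, ∃ C a : ℝ, 0 < C ∧ 0 < a ∧ ∀ f : ℕ → ℝ → ℝ, DR C0 (2 * l1) f →
      ∀ n : ℕ, n0 ≤ n → n ≤ N → ∑ j ∈ range n, f j l1 ≤ Real.sqrt n →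
        ∀ m : ℕ, f m (l1 / 4) ≤ C * Real.exp (-a * m) := by
  obtain ⟨q, hq⟩ : ∃ q, q = l1 / (40 * C0) := ⟨_, rfl⟩
  obtain ⟨n1, hn1⟩ := exists_nat_ge ((6 / q ^ 2) ^ 2)
  refine ⟨n1 + 1, fun N => ⟨1, l1 / (8 * C0 * Real.sqrt (N + 1)), one_pos, by positivity,
    fun f hf n hn hnN hS m => ?_⟩⟩
  have hn' : 1 ≤ n := by omega
  have hnR : (0 : ℝ) < n := by exact_mod_cast hn'
  have hsq : 0 < Real.sqrt n := Real.sqrt_pos.2 hnR
  have hn0 : 6 / (l1 / (40 * C0)) ^ 2 ≤ Real.sqrt n := by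
    rw [← hq]
    have h1 : (6 / q ^ 2) ^ 2 ≤ (n : ℝ) := by
      refine hn1.trans ?_
      exact_mod_cast (by omega : n1 ≤ n)
    have h2 : 0 ≤ 6 / q ^ 2 := by positivity
    rw [← Real.sqrt_sq h2]
    exact Real.sqrt_le_sqrt h1
  have hmain := DRA_main hC hl hf hn' hn0 hS
  have hI2 : l1 / 2 ∈ Set.Icc 0 (2 * l1) := ⟨by positivity, by linarith⟩
  have hI4 : l1 / 4 ∈ Set.Icc 0 (2 * l1) := ⟨by positivity, by linarith⟩
  have hSall : ∀ m : ℕ, ∑ j ∈ range m, f j (l1 / 2) ≤ 2 * Real.sqrt n := by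
    intro m
    have h1 : m ≤ 2 ^ m * n := by
      have h2 : m < 2 ^ m := Nat.lt_two_pow_self
      calc m ≤ 2 ^ m * 1 := by omega
        _ ≤ 2 ^ m * n := Nat.mul_le_mul_left _ hn'
    have h0 : (0 : ℝ) < (9 / 10) ^ m := by positivity
    have h0' : (9 / 10 : ℝ) ^ m ≤ 1 := pow_le_one₀ (by norm_num) (by norm_num)
    have hμ : l1 * (1 / 2 + (9 / 10) ^ m / 2) ∈ Set.Icc 0 (2 * l1) :=
      ⟨by positivity, by nlinarith⟩
    have hle : l1 / 2 ≤ l1 * (1 / 2 + (9 / 10) ^ m / 2) := by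
      have : 0 ≤ l1 * ((9 / 10) ^ m / 2) := by positivity
      linarith
    refine (DRA_S_le hf hI2 h1).trans ((DRA_S_mono hf hI2 hμ hle _).trans
      ((hmain m).trans ?_))
    have h3 : 2 / (l1 / (40 * C0)) ^ 2 * ∑ j ∈ range m, (50 / 81 : ℝ) ^ j ≤
        2 / (l1 / (40 * C0)) ^ 2 * 3 :=
      mul_le_mul_of_nonneg_left (DRA_geom m) (by positivity)
    have h4 : 2 / (l1 / (40 * C0)) ^ 2 * 3 = 6 / (l1 / (40 * C0)) ^ 2 := by ring
    linarith
  rw [one_mul]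
  rcases Nat.eq_zero_or_pos m with rfl | hm
  · rw [hf.zero _ hI4, Nat.cast_zero, mul_zero, Real.exp_zero]
  · have h1 := DRA_decay hf hC hm hI4.1 (by linarith : l1 / 4 ≤ l1 / 2) hI2.2
      (s := 2 * Real.sqrt n) (by positivity)
      (fun l hl' => (DRA_S_mono hf ⟨hI4.1.trans hl'.1, hl'.2.trans hI2.2⟩ hI2 hl'.2 m).trans
        (hSall m))
    have h2 : Real.exp (-((m : ℝ) / (C0 * (2 * Real.sqrt n))) * (l1 / 2 - l1 / 4)) *
        f m (l1 / 2) ≤ Real.exp (-((m : ℝ) / (C0 * (2 * Real.sqrt n))) * (l1 / 2 - l1 / 4)) := by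
      have := mul_le_mul_of_nonneg_left (DRA_le_one hf hI2 m)
        (Real.exp_pos (-((m : ℝ) / (C0 * (2 * Real.sqrt n))) * (l1 / 2 - l1 / 4))).le
      rw [mul_one] at this
      exact this
    refine h1.trans (h2.trans (Real.exp_le_exp.2 ?_))
    have h3 : Real.sqrt n ≤ Real.sqrt (N + 1) := by
      refine Real.sqrt_le_sqrt ?_
      have : (n : ℝ) ≤ N := by exact_mod_cast hnN
      linarith
    have h4 : l1 / (8 * C0 * Real.sqrt (N + 1)) ≤ l1 / (8 * C0 * Real.sqrt n) := by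
      refine div_le_div_of_nonneg_left hl.le (by positivity) ?_
      exact mul_le_mul_of_nonneg_left h3 (by positivity)
    have h5 : -((m : ℝ) / (C0 * (2 * Real.sqrt n))) * (l1 / 2 - l1 / 4) =
        -(l1 / (8 * C0 * Real.sqrt n) * m) := by
      field_simp
      ring
    rw [h5]
    have h6 := mul_le_mul_of_nonneg_right h4 (Nat.cast_nonneg m : (0 : ℝ) ≤ m)
    linarith

end H82.BX

end S_H82_BX_DRA
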