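import Mathlib
import Pool.Agent.H82.BXM.G01
import Pool.Agent.H82.BXM.G03
import Pool.Agent.H82.BXM.G05
import Pool.Agent.H82.BXM.G06

/-! MP_26628e_mp: this file joins several modules to save build time. -/

section S_H82_BX_BP1

/-!
# BP1: the conditional law of a block

Fix an admissible set `S`, a configuration `x`, an edge `e` whose ends are in `S` and whose chain is not
(`z_e, m_e ∉ S`, so the bit is not in `S` either), and `f` a function of the bits only.  `A = sA S`, `B = sB S`,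
`bD o t = SB A (insert e B) (tt(x)[e := t]) (pc x) (po x)[e := o] 1`, `bN o t` the same sum of `f`.
`bx1`: for `x' = x` with `z_e := ζ`, `m_e := μ`, bit `:= o`, the conditional expectation given `S ∪ {z_e, m_e, bit}` is `bN o t/bD o t` with
`t = tt (pc x') e`: `ce_EB` for the larger set; in `WB` with `e` frozen the moduli `c z_e, c m_e` appear only in `wv`, so
fixing them or summing over them gives the same quotient; the other frozen `tB e'` are those of `x`.
`bx2`: `cs (S ∪ {z_e, m_e, bit}) x' mW = C · nu ζ e^{l cc²ζ} nu μ AA (rr or 1 - rr) bD o t`, `C > 0` not depending on `(ζ, μ, o)`: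
`W = WB(insert e B) · ∏_{e' ∈ insert e B} AA (rr or 1-rr)`.
-/

set_option autoImplicit false

open Finset MeasureTheory

namespace H82.BX

open H82.IC

variable {V E : Type} [Fintype V] [DecidableEq V] [Fintype E] [DecidableEq E]

/-- block of an edge. -/
def blk (e : E) : Finset (SV V E ⊕ E) :=
  {Sum.inl (Sum.inr (e, false)), Sum.inl (Sum.inr (e, true)), Sum.inr e}

/-- `x` with the block of `e` set to `(ζ, μ, o)`. -/
def xb {k : ℕ} (x : ∀ i, XI k V E i) (e : E) (ζ μ : Fin (k + 1)) (o : Bool) : ∀ i, XI k V E i :=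
  mkx (Function.update (Function.update (pc x) (Sum.inr (e, false)) ζ) (Sum.inr (e, true)) μ)
    (Function.update (po x) e o)

noncomputable def bN (G : Gr V E) (M : Al) (b l : ℝ) (S : Finset (SV V E ⊕ E)) (x : ∀ i, XI M.k V E i)
    (e : E) (f : (E → Bool) → ℝ) (o : Bool) (t : ℝ) : ℝ :=
  SB G M b l (sA S) (insert e (sB S)) (Function.update (tt G M b (pc x)) e t) (pc x)
    (Function.update (po x) e o) (fun _ o' => f o')


/-! ### auxiliary lemmas -/

theorem bp1_loc (G : Gr V E) (M : Al) (b : ℝ) (c c' : SV V E → Fin (M.k + 1)) (e : E)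
    (h : ∀ j : Fin 3, c ((LK G).s (e, j)) = c' ((LK G).s (e, j)) ∧
      c ((LK G).r (e, j)) = c' ((LK G).r (e, j))) :
    AA G M b c e = AA G M b c' e ∧ rr G M b c e = rr G M b c' e ∧ tt G M b c e = tt G M b c' e := by
  have ha : ∀ j : Fin 3, la G M b c (e, j) = la G M b c' (e, j) := fun j => by
    unfold la; rw [(h j).1, (h j).2]
  have hb' : ∀ j : Fin 3, lb G M b c (e, j) = lb G M b c' (e, j) := fun j => by
    unfold lb; rw [(h j).1, (h j).2]
  refine ⟨?_, ?_, ?_⟩
  · unfold AA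
    exact Finset.prod_congr rfl fun j _ => by rw [ha j, hb' j]
  · unfold rr
    exact Finset.prod_congr rfl fun j _ => by rw [ha j]
  · unfold tt
    exact Finset.prod_congr rfl fun j _ => by rw [hb' j]

theorem bp1_loc2 (G : Gr V E) (M : Al) (b : ℝ) (c c' : SV V E → Fin (M.k + 1)) (e : E)
    (h1 : c (Sum.inl (G.s e)) = c' (Sum.inl (G.s e))) (h2 : c (Sum.inl (G.r e)) = c' (Sum.inl (G.r e)))
    (h3 : c (Sum.inr (e, false)) = c' (Sum.inr (e, false)))
    (h4 : c (Sum.inr (e, true)) = c' (Sum.inr (e, true))) :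
    AA G M b c e = AA G M b c' e ∧ rr G M b c e = rr G M b c' e ∧ tt G M b c e = tt G M b c' e := by
  refine bp1_loc G M b c c' e (fun j => ?_)
  fin_cases j
  · exact ⟨h1, h3⟩
  · exact ⟨h3, h4⟩
  · exact ⟨h4, h2⟩

/-- weight of a modulus. -/
noncomputable def hw (M : Al) (l : ℝ) (w : SV V E) (ζ : Fin (M.k + 1)) : ℝ :=
  M.nu ζ * Real.exp (l * pn w * M.cc ζ ^ 2)

theorem bp1_wv (M : Al) (l : ℝ) (c : SV V E → Fin (M.k + 1)) (w : SV V E) (ζ : Fin (M.k + 1)) :
    wv M l (Function.update c w ζ) * hw M l w (c w) = wv M l c * hw M l w ζ := by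
  have h1 : ∀ c' : SV V E → Fin (M.k + 1), wv M l c' =
      hw M l w (c' w) * ∏ v ∈ univ.erase w, hw M l v (c' v) := by
    intro c'
    unfold wv
    rw [← Finset.mul_prod_erase univ _ (Finset.mem_univ w)]
    rfl
  rw [h1 (Function.update c w ζ), h1 c, Function.update_self]
  have h2 : ∏ v ∈ univ.erase w, hw M l v (Function.update c w ζ v) =
      ∏ v ∈ univ.erase w, hw M l v (c v) := by
    refine Finset.prod_congr rfl fun v hv => ?_
    rw [Function.update_of_ne (Finset.ne_of_mem_erase hv)]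
  rw [h2]
  ring

theorem bp1_key {k : ℕ} (w : SV V E) (A : Finset (SV V E)) (hw0 : w ∉ A) (h : Fin (k + 1) → ℝ)
    (F : (SV V E → Fin (k + 1)) → ℝ)
    (hF : ∀ c ζ, F (Function.update c w ζ) * h (c w) = F c * h ζ) (c0 : SV V E → Fin (k + 1))
    (ζ : Fin (k + 1)) :
    (∑ c, if (∀ v ∈ A, c v = c0 v) then F c else 0) * h ζ =
      (∑ ζ', h ζ') * ∑ c, if (∀ v ∈ insert w A, c v = Function.update c0 w ζ v) then F c else 0 := by
  have hT : ∀ ζ' : Fin (k + 1),
      (∑ c, if (∀ v ∈ insert w A, c v = Function.update c0 w ζ' v) then F c else 0) * h ζ =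
      (∑ c, if (∀ v ∈ insert w A, c v = Function.update c0 w ζ v) then F c else 0) * h ζ' := by
    intro ζ'
    rw [Finset.sum_mul, Finset.sum_mul, ← Finset.sum_filter_add_sum_filter_not univ
      (fun c : SV V E → Fin (k + 1) => ∀ v ∈ insert w A, c v = Function.update c0 w ζ' v)]
    rw [← Finset.sum_filter_add_sum_filter_not univ
      (fun c : SV V E → Fin (k + 1) => ∀ v ∈ insert w A, c v = Function.update c0 w ζ v)
      (fun c => (if (∀ v ∈ insert w A, c v = Function.update c0 w ζ v) then F c else 0) * h ζ')]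
    have z1 : (∑ c ∈ univ.filter (fun c : SV V E → Fin (k + 1) =>
        ¬ ∀ v ∈ insert w A, c v = Function.update c0 w ζ' v),
        (if (∀ v ∈ insert w A, c v = Function.update c0 w ζ' v) then F c else 0) * h ζ) = 0 := by
      refine Finset.sum_eq_zero fun c hc => ?_
      rw [if_neg (Finset.mem_filter.1 hc).2, zero_mul]
    have z2 : (∑ c ∈ univ.filter (fun c : SV V E → Fin (k + 1) =>
        ¬ ∀ v ∈ insert w A, c v = Function.update c0 w ζ v),
        (if (∀ v ∈ insert w A, c v = Function.update c0 w ζ v) then F c else 0) * h ζ') = 0 := by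
      refine Finset.sum_eq_zero fun c hc => ?_
      rw [if_neg (Finset.mem_filter.1 hc).2, zero_mul]
    rw [z1, z2, add_zero, add_zero]
    refine Finset.sum_nbij' (fun c => Function.update c w ζ) (fun c => Function.update c w ζ')
      ?_ ?_ ?_ ?_ ?_
    · intro c hc
      rw [Finset.mem_filter] at hc ⊢
      refine ⟨Finset.mem_univ _, (os1_cond (X := fun _ => Fin (k + 1)) A c0 _ w hw0 ζ).2 ?_⟩
      have h1 := (os1_cond (X := fun _ => Fin (k + 1)) A c0 c w hw0 ζ').1 hc.2
      refine ⟨Function.update_self _ _ _, fun j hj => ?_⟩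
      rw [Function.update_of_ne (fun e : j = w => hw0 (e ▸ hj))]
      exact h1.2 j hj
    · intro c hc
      rw [Finset.mem_filter] at hc ⊢
      refine ⟨Finset.mem_univ _, (os1_cond (X := fun _ => Fin (k + 1)) A c0 _ w hw0 ζ').2 ?_⟩
      have h1 := (os1_cond (X := fun _ => Fin (k + 1)) A c0 c w hw0 ζ).1 hc.2
      refine ⟨Function.update_self _ _ _, fun j hj => ?_⟩
      rw [Function.update_of_ne (fun e : j = w => hw0 (e ▸ hj))]
      exact h1.2 j hj
    · intro c hc
      have h1 := (os1_cond (X := fun _ => Fin (k + 1)) A c0 c w hw0 ζ').1 (Finset.mem_filter.1 hc).2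
      show Function.update (Function.update c w ζ) w ζ' = c
      rw [Function.update_idem, ← h1.1, Function.update_eq_self]
    · intro c hc
      have h1 := (os1_cond (X := fun _ => Fin (k + 1)) A c0 c w hw0 ζ).1 (Finset.mem_filter.1 hc).2
      show Function.update (Function.update c w ζ') w ζ = c
      rw [Function.update_idem, ← h1.1, Function.update_eq_self]
    · intro c hc
      have h1 := (os1_cond (X := fun _ => Fin (k + 1)) A c0 c w hw0 ζ').1 (Finset.mem_filter.1 hc).2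
      have h2 : ∀ v ∈ insert w A, Function.update c w ζ v = Function.update c0 w ζ v := by
        refine (os1_cond (X := fun _ => Fin (k + 1)) A c0 _ w hw0 ζ).2 ⟨Function.update_self _ _ _, fun j hj => ?_⟩
        rw [Function.update_of_ne (fun e : j = w => hw0 (e ▸ hj))]
        exact h1.2 j hj
      rw [if_pos (Finset.mem_filter.1 hc).2, if_pos h2]
      have h3 := hF c ζ
      rw [h1.1] at h3
      exact h3.symm
  have hs : (∑ c, if (∀ v ∈ A, c v = c0 v) then F c else 0) =
      ∑ ζ', ∑ c, if (∀ v ∈ insert w A, c v = Function.update c0 w ζ' v) then F c else 0 := by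
    have := cs_split (X := fun _ : SV V E => Fin (k + 1)) A c0 w hw0 F
    unfold cs at this
    exact this
  rw [hs, Finset.sum_mul, Finset.sum_congr rfl (fun ζ' _ => hT ζ'), ← Finset.mul_sum]
  ring

theorem bp1_adm (G : Gr V E) (S : Finset (SV V E ⊕ E)) (hS : Adm G S) (e : E)
    (hs : Sum.inl (Sum.inl (G.s e)) ∈ S) (hr : Sum.inl (Sum.inl (G.r e)) ∈ S) :
    Adm G (S ∪ blk e) := by
  have hb : ∀ y : SV V E ⊕ E, y ∈ blk (V := V) e ↔ y = Sum.inl (Sum.inr (e, false)) ∨
      y = Sum.inl (Sum.inr (e, true)) ∨ y = Sum.inr e := by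
    intro y; unfold blk; simp
  refine ⟨?_, ?_, ?_⟩
  · intro e' he'
    rw [Finset.mem_union, hb] at he' ⊢
    rcases he' with h | h | h | h
    · exact Or.inl (hS.bit e' h)
    · cases h
    · cases h
    · cases h
      exact Or.inr (Or.inr (Or.inl rfl))
  · intro e' he'
    rw [Finset.mem_union, hb] at he' ⊢
    rcases he' with h | h | h | h
    · exact Or.inl (hS.mm e' h)
    · cases h
    · cases h
      exact Or.inr (Or.inl rfl)
    · cases h
  · intro e' he'
    rw [Finset.mem_union, hb] at he'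
    rw [Finset.mem_union, Finset.mem_union]
    rcases he' with h | h | h | h
    · exact ⟨Or.inl (hS.zz e' h).1, Or.inl (hS.zz e' h).2⟩
    · cases h
      exact ⟨Or.inl hs, Or.inl hr⟩
    · cases h
    · cases h

theorem bp1_sA (S : Finset (SV V E ⊕ E)) (e : E) :
    sA (S ∪ blk e) = insert (Sum.inr (e, true)) (insert (Sum.inr (e, false)) (sA S)) := by
  ext w
  rw [mem_sA]
  simp only [Finset.mem_union, Finset.mem_insert, mem_sA, blk, Finset.mem_singleton, Sum.inl.injEq,
    reduceCtorEq, or_false]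
  tauto

theorem bp1_sB (S : Finset (SV V E ⊕ E)) (e : E) : sB (S ∪ blk e) = insert e (sB S) := by
  ext w
  rw [mem_sB]
  simp only [Finset.mem_union, Finset.mem_insert, mem_sB, blk, Finset.mem_singleton, Sum.inr.injEq,
    reduceCtorEq, false_or]
  tauto

section fixed
variable (G : Gr V E) (M : Al) (b l : ℝ) (S : Finset (SV V E ⊕ E)) (x : ∀ i, XI M.k V E i) (e : E)

theorem bp1_WB (B : Finset E) (he : e ∈ B) (tB : E → ℝ) (c : SV V E → Fin (M.k + 1)) (o : E → Bool)
    (bb : Bool) (ζ : Fin (M.k + 1)) :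
    WB G M b l B tB (Function.update c (Sum.inr (e, bb)) ζ) o *
      hw M l (Sum.inr (e, bb) : SV V E) (c (Sum.inr (e, bb))) =
      WB G M b l B tB c o * hw M l (Sum.inr (e, bb) : SV V E) ζ := by
  have hne : ∀ e' : E, e' ≠ e → AA G M b (Function.update c (Sum.inr (e, bb)) ζ) e' = AA G M b c e' ∧
      rr G M b (Function.update c (Sum.inr (e, bb)) ζ) e' = rr G M b c e' ∧
      tt G M b (Function.update c (Sum.inr (e, bb)) ζ) e' = tt G M b c e' := by
    intro e' he'
    refine bp1_loc2 G M b _ _ e' ?_ ?_ ?_ ?_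
    · rw [Function.update_of_ne (by simp)]
    · rw [Function.update_of_ne (by simp)]
    · rw [Function.update_of_ne (by simp [he'])]
    · rw [Function.update_of_ne (by simp [he'])]
  have h1 := bp1_wv (E := E) M l c (Sum.inr (e, bb)) ζ
  have h2 : (∏ e' ∈ univ \ B, AA G M b (Function.update c (Sum.inr (e, bb)) ζ) e' *
      (if o e' then rr G M b (Function.update c (Sum.inr (e, bb)) ζ) e'
        else 1 - rr G M b (Function.update c (Sum.inr (e, bb)) ζ) e')) =
      ∏ e' ∈ univ \ B, AA G M b c e' * (if o e' then rr G M b c e' else 1 - rr G M b c e') := by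
    refine Finset.prod_congr rfl fun e' he' => ?_
    have h3 := hne e' (fun h => (Finset.mem_sdiff.1 he').2 (h ▸ he))
    rw [h3.1, h3.2.1]
  have h4 : (fun e' => if e' ∈ B then tB e' else tt G M b (Function.update c (Sum.inr (e, bb)) ζ) e') =
      (fun e' => if e' ∈ B then tB e' else tt G M b c e') := by
    funext e'
    by_cases h : e' ∈ B
    · rw [if_pos h, if_pos h]
    · rw [if_neg h, if_neg h, (hne e' (fun h' => h (h' ▸ he))).2.2]
  unfold WB
  rw [h2, h4]
  linear_combination ((∏ e' ∈ univ \ B, AA G M b c e' * (if o e' then rr G M b c e' else 1 - rr G M b c e')) *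
    (Zv G (bt o) * Zv G (fun e' => if e' ∈ B then tB e' else tt G M b c e'))) * h1

theorem bp1_SB (A : Finset (SV V E)) (B : Finset E) (tB : E → ℝ) (c0 : SV V E → Fin (M.k + 1))
    (o0 : E → Bool) (g : (E → Bool) → ℝ) :
    SB G M b l A B tB c0 o0 (fun _ o => g o) = ∑ c, if (∀ w ∈ A, c w = c0 w) then
      (∑ o, if (∀ e' ∈ B, o e' = o0 e') then WB G M b l B tB c o * g o else 0) else 0 := by
  unfold SB
  refine Finset.sum_congr rfl fun c _ => ?_
  by_cases h : ∀ w ∈ A, c w = c0 w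
  · rw [if_pos h]
    refine Finset.sum_congr rfl fun o _ => ?_
    exact if_congr (and_iff_right h) rfl rfl
  · rw [if_neg h]
    refine Finset.sum_eq_zero fun o _ => ?_
    rw [if_neg (fun h' => h h'.1)]

/-- the key identity: fixing the moduli of the block. -/
theorem bp1_main (hS : Adm G S) (hz : Sum.inl (Sum.inr (e, false)) ∉ S) (ζ μ : Fin (M.k + 1)) (o : Bool)
    (g : (E → Bool) → ℝ) :
    (hw M l (Sum.inr (e, false) : SV V E) ζ * hw M l (Sum.inr (e, true) : SV V E) μ) *
      bN G M b l S x e g o (tt G M b (pc (xb x e ζ μ o)) e) =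
    ((∑ ζ', hw M l (Sum.inr (e, false) : SV V E) ζ') * ∑ μ', hw M l (Sum.inr (e, true) : SV V E) μ') *
      SB G M b l (sA (S ∪ blk e)) (sB (S ∪ blk e)) (tt G M b (pc (xb x e ζ μ o)))
        (pc (xb x e ζ μ o)) (po (xb x e ζ μ o)) (fun _ o' => g o') := by
  have hm : Sum.inl (Sum.inr (e, true)) ∉ S := fun h => hz (hS.mm e h)
  have hpc : pc (xb x e ζ μ o) = Function.update (Function.update (pc x) (Sum.inr (e, false)) ζ)
      (Sum.inr (e, true)) μ := rfl
  have hpo : po (xb x e ζ μ o) = Function.update (po x) e o := rfl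
  set tB : E → ℝ := Function.update (tt G M b (pc x)) e (tt G M b (pc (xb x e ζ μ o)) e) with htB
  have hbit : e ∉ sB S := fun h => hm (hS.bit e ((mem_sB S e).1 h))
  have e1 : SB G M b l (sA (S ∪ blk e)) (sB (S ∪ blk e)) (tt G M b (pc (xb x e ζ μ o)))
        (pc (xb x e ζ μ o)) (po (xb x e ζ μ o)) (fun _ o' => g o') =
      SB G M b l (insert (Sum.inr (e, true)) (insert (Sum.inr (e, false)) (sA S))) (insert e (sB S)) tB
        (Function.update (Function.update (pc x) (Sum.inr (e, false)) ζ) (Sum.inr (e, true)) μ)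
        (Function.update (po x) e o) (fun _ o' => g o') := by
    rw [bp1_sA, bp1_sB, hpo, ← hpc]
    unfold SB
    refine Finset.sum_congr rfl fun c _ => Finset.sum_congr rfl fun o' _ => ?_
    have h5 : WB G M b l (insert e (sB S)) (tt G M b (pc (xb x e ζ μ o))) c o' =
        WB G M b l (insert e (sB S)) tB c o' := by
      unfold WB
      have h6 : (fun e' => if e' ∈ insert e (sB S) then tt G M b (pc (xb x e ζ μ o)) e'
          else tt G M b c e') = (fun e' => if e' ∈ insert e (sB S) then tB e' else tt G M b c e') := by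
        funext e'
        by_cases h : e' ∈ insert e (sB S)
        · rw [if_pos h, if_pos h]
          by_cases he : e' = e
          · rw [he, htB, Function.update_self]
          · rw [htB, Function.update_of_ne he]
            refine (bp1_loc2 G M b _ _ e' ?_ ?_ ?_ ?_).2.2
            · rw [hpc, Function.update_of_ne (by simp), Function.update_of_ne (by simp)]
            · rw [hpc, Function.update_of_ne (by simp), Function.update_of_ne (by simp)]
            · rw [hpc, Function.update_of_ne (by simp), Function.update_of_ne (by simp [he])]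
            · rw [hpc, Function.update_of_ne (by simp [he]), Function.update_of_ne (by simp)]
        · rw [if_neg h, if_neg h]
      rw [h6]
    rw [h5]
  rw [e1]
  unfold bN
  rw [bp1_SB, bp1_SB]
  set F : (SV V E → Fin (M.k + 1)) → ℝ := fun c => ∑ o', if (∀ e' ∈ insert e (sB S), o' e' =
    Function.update (po x) e o e') then WB G M b l (insert e (sB S)) tB c o' * g o' else 0 with hF
  have hFu : ∀ (bb : Bool) (c : SV V E → Fin (M.k + 1)) (ζ : Fin (M.k + 1)),
      F (Function.update c (Sum.inr (e, bb)) ζ) * hw M l (Sum.inr (e, bb) : SV V E) (c (Sum.inr (e, bb))) =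
      F c * hw M l (Sum.inr (e, bb) : SV V E) ζ := by
    intro bb c ζ
    rw [hF]
    simp only
    rw [Finset.sum_mul, Finset.sum_mul]
    refine Finset.sum_congr rfl fun o' _ => ?_
    by_cases h : ∀ e' ∈ insert e (sB S), o' e' = Function.update (po x) e o e'
    · rw [if_pos h, if_pos h]
      have h7 := bp1_WB G M b l e (insert e (sB S)) (Finset.mem_insert_self _ _) tB c o' bb ζ
      linear_combination (g o') * h7
    · rw [if_neg h, if_neg h, zero_mul, zero_mul]
  have k1 := bp1_key (Sum.inr (e, false) : SV V E) (sA S) (fun h => hz ((mem_sA S _).1 h))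
    (hw M l (Sum.inr (e, false) : SV V E)) F (hFu false) (pc x) ζ
  have k2 := bp1_key (Sum.inr (e, true) : SV V E) (insert (Sum.inr (e, false)) (sA S))
    (fun h => by
      rcases Finset.mem_insert.1 h with h | h
      · simp at h
      · exact hm ((mem_sA S _).1 h))
    (hw M l (Sum.inr (e, true) : SV V E)) F (hFu true)
    (Function.update (pc x) (Sum.inr (e, false)) ζ) μ
  linear_combination (hw M l (Sum.inr (e, true) : SV V E) μ) * k1 +
    (∑ ζ', hw M l (Sum.inr (e, false) : SV V E) ζ') * k2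

end fixed

theorem bp1_hw_pos (M : Al) (hM : M.Ok) (l : ℝ) (w : SV V E) (ζ : Fin (M.k + 1)) : 0 < hw M l w ζ :=
  mul_pos (hM.nu0 ζ) (Real.exp_pos _)

theorem bp1_hws_pos (M : Al) (hM : M.Ok) (l : ℝ) (w : SV V E) :
    0 < ∑ ζ : Fin (M.k + 1), hw M l w ζ :=
  Finset.sum_pos (fun ζ _ => bp1_hw_pos M hM l w ζ) ⟨0, Finset.mem_univ 0⟩

theorem bp1_AA_pos (G : Gr V E) (M : Al) (b : ℝ) (c : SV V E → Fin (M.k + 1)) (e : E) :
    0 < AA G M b c e :=
  Finset.prod_pos fun j _ => mul_pos (Real.cosh_pos _) (Real.cosh_pos _)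

theorem bx1 (G : Gr V E) (M : Al) (hM : M.Ok) (b l : ℝ) (hb : 0 < b) (S : Finset (SV V E ⊕ E))
    (hS : Adm G S) (x : ∀ i, XI M.k V E i) (e : E) (hs : Sum.inl (Sum.inl (G.s e)) ∈ S)
    (hr : Sum.inl (Sum.inl (G.r e)) ∈ S) (hz : Sum.inl (Sum.inr (e, false)) ∉ S)
    (f : (E → Bool) → ℝ) (ζ μ : Fin (M.k + 1)) (o : Bool) :
    ce (mW G M b l) (fun y => f (po y)) (S ∪ blk e) (xb x e ζ μ o) =
      bN G M b l S x e f o (tt G M b (pc (xb x e ζ μ o)) e) /
        bN G M b l S x e (fun _ => 1) o (tt G M b (pc (xb x e ζ μ o)) e) := by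
  have hA := bp1_adm G S hS e hs hr
  have h0 := ce_EB G M hM b l hb (S ∪ blk e) hA (fun y => f (po y)) (xb x e ζ μ o)
  rw [h0]
  have h1 : (fun (c : SV V E → Fin (M.k + 1)) (o' : E → Bool) => f (po (mkx c o'))) = fun _ o' => f o' := rfl
  show EB G M b l (sA (S ∪ blk e)) (sB (S ∪ blk e)) (tt G M b (pc (xb x e ζ μ o))) (pc (xb x e ζ μ o))
    (po (xb x e ζ μ o)) (fun _ o' => f o') = _
  unfold EB
  have k1 := bp1_main G M b l S x e hS hz ζ μ o f
  have k2 := bp1_main G M b l S x e hS hz ζ μ o (fun _ => 1)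
  have p1 := bp1_hw_pos (V := V) (E := E) M hM l (Sum.inr (e, false)) ζ
  have p2 := bp1_hw_pos (V := V) (E := E) M hM l (Sum.inr (e, true)) μ
  have p3 := bp1_hws_pos (V := V) (E := E) M hM l (Sum.inr (e, false))
  have p4 := bp1_hws_pos (V := V) (E := E) M hM l (Sum.inr (e, true))
  have p5 : 0 < SB G M b l (sA (S ∪ blk e)) (sB (S ∪ blk e)) (tt G M b (pc (xb x e ζ μ o)))
      (pc (xb x e ζ μ o)) (po (xb x e ζ μ o)) (fun _ _ => 1) :=
    SB_pos G M hM b l hb _ _ _ (fun e' _ => (rr_bd G M hM b hb _ e').2.2.1.le)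
      (fun e' _ => (rr_bd G M hM b hb _ e').2.2.2.le) _ _
  have p6 : bN G M b l S x e (fun _ => 1) o (tt G M b (pc (xb x e ζ μ o)) e) ≠ 0 := by
    intro h
    rw [h, mul_zero] at k2
    have := mul_pos (mul_pos p3 p4) p5
    linarith
  rw [div_eq_div_iff p5.ne' p6]
  have p7 : (hw M l (Sum.inr (e, false) : SV V E) ζ * hw M l (Sum.inr (e, true) : SV V E) μ) *
      ((∑ ζ', hw M l (Sum.inr (e, false) : SV V E) ζ') * ∑ μ', hw M l (Sum.inr (e, true) : SV V E) μ') ≠ 0 :=
    (mul_pos (mul_pos p1 p2) (mul_pos p3 p4)).ne'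
  refine mul_left_cancel₀ p7 ?_
  set X1 := SB G M b l (sA (S ∪ blk e)) (sB (S ∪ blk e)) (tt G M b (pc (xb x e ζ μ o)))
    (pc (xb x e ζ μ o)) (po (xb x e ζ μ o)) (fun _ o' => f o')
  set X2 := SB G M b l (sA (S ∪ blk e)) (sB (S ∪ blk e)) (tt G M b (pc (xb x e ζ μ o)))
    (pc (xb x e ζ μ o)) (po (xb x e ζ μ o)) (fun _ _ => 1)
  set Y1 := bN G M b l S x e f o (tt G M b (pc (xb x e ζ μ o)) e)
  set Y2 := bN G M b l S x e (fun _ => 1) o (tt G M b (pc (xb x e ζ μ o)) e)
  set u := hw M l (Sum.inr (e, false) : SV V E) ζ * hw M l (Sum.inr (e, true) : SV V E) μ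
  set v := (∑ ζ', hw M l (Sum.inr (e, false) : SV V E) ζ') * ∑ μ', hw M l (Sum.inr (e, true) : SV V E) μ'
  -- k1 : u * Y1 = v * X1, k2 : u * Y2 = v * X2
  calc u * v * (X1 * Y2) = (v * X1) * (u * Y2) := by ring
    _ = (u * Y1) * (v * X2) := by rw [← k1, k2]
    _ = u * v * (Y1 * X2) := by ring

theorem bx2 (G : Gr V E) (M : Al) (hM : M.Ok) (b l : ℝ) (hb : 0 < b) (S : Finset (SV V E ⊕ E))
    (hS : Adm G S) (x : ∀ i, XI M.k V E i) (e : E) (hs : Sum.inl (Sum.inl (G.s e)) ∈ S)
    (hr : Sum.inl (Sum.inl (G.r e)) ∈ S) (hz : Sum.inl (Sum.inr (e, false)) ∉ S) :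
    ∃ C : ℝ, 0 < C ∧ ∀ (ζ μ : Fin (M.k + 1)) (o : Bool),
      cs (S ∪ blk e) (xb x e ζ μ o) (mW G M b l) =
        C * (M.nu ζ * Real.exp (l * M.cc ζ ^ 2) * M.nu μ * AA G M b (pc (xb x e ζ μ o)) e) *
          (if o then rr G M b (pc (xb x e ζ μ o)) e else 1 - rr G M b (pc (xb x e ζ μ o)) e) *
          bN G M b l S x e (fun _ => 1) o (tt G M b (pc (xb x e ζ μ o)) e) := by
  have hm : Sum.inl (Sum.inr (e, true)) ∉ S := fun h => hz (hS.mm e h)
  have hbit : e ∉ sB S := fun h => hm (hS.bit e ((mem_sB S e).1 h))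
  have hA := bp1_adm G S hS e hs hr
  set Z : ℝ := ∑ c, ∑ o, W G M b l c o with hZ
  have hZp : 0 < Z := Finset.sum_pos (fun c _ => Finset.sum_pos (fun o _ => W_pos G M hM b l hb c o)
    ⟨fun _ => true, Finset.mem_univ _⟩) ⟨fun _ => 0, Finset.mem_univ _⟩
  set Q : ℝ := ∏ e' ∈ sB S, AA G M b (pc x) e' *
    (if po x e' then rr G M b (pc x) e' else 1 - rr G M b (pc x) e') with hQ
  have hQp : 0 < Q := by
    refine Finset.prod_pos fun e' _ => mul_pos (bp1_AA_pos G M b _ e') ?_
    have := rr_bd G M hM b hb (pc x) e'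
    split_ifs
    · exact this.1
    · linarith [this.2.1]
  set H1 : ℝ := ∑ ζ', hw M l (Sum.inr (e, false) : SV V E) ζ' with hH1
  set H2 : ℝ := ∑ μ', hw M l (Sum.inr (e, true) : SV V E) μ' with hH2
  have hH1p : 0 < H1 := bp1_hws_pos M hM l _
  have hH2p : 0 < H2 := bp1_hws_pos M hM l _
  refine ⟨Q / Z / (H1 * H2), div_pos (div_pos hQp hZp) (mul_pos hH1p hH2p), fun ζ μ o => ?_⟩
  have hpc : pc (xb x e ζ μ o) = Function.update (Function.update (pc x) (Sum.inr (e, false)) ζ)
      (Sum.inr (e, true)) μ := rfl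
  have hpo : po (xb x e ζ μ o) = Function.update (po x) e o := rfl
  have k := bp1_main G M b l S x e hS hz ζ μ o (fun _ => 1)
  set c' := pc (xb x e ζ μ o) with hc'
  set o' := po (xb x e ζ μ o) with ho'
  set S' := S ∪ blk e with hS'
  have hloc : ∀ e', e' ≠ e → AA G M b c' e' = AA G M b (pc x) e' ∧ rr G M b c' e' = rr G M b (pc x) e' ∧
      tt G M b c' e' = tt G M b (pc x) e' := by
    intro e' he
    refine bp1_loc2 G M b _ _ e' ?_ ?_ ?_ ?_
    · rw [hpc, Function.update_of_ne (by simp), Function.update_of_ne (by simp)]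
    · rw [hpc, Function.update_of_ne (by simp), Function.update_of_ne (by simp)]
    · rw [hpc, Function.update_of_ne (by simp), Function.update_of_ne (by simp [he])]
    · rw [hpc, Function.update_of_ne (by simp [he]), Function.update_of_ne (by simp)]
  -- the sum over the configurations
  have hcs : cs S' (xb x e ζ μ o) (mW G M b l) =
      (AA G M b c' e * (if o then rr G M b c' e else 1 - rr G M b c' e)) * Q / Z *
      SB G M b l (sA S') (sB S') (tt G M b c') c' o' (fun _ _ => 1) := by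
    unfold cs SB
    rw [sum_mkx, Finset.mul_sum]
    refine Finset.sum_congr rfl fun c _ => ?_
    rw [Finset.mul_sum]
    refine Finset.sum_congr rfl fun o'' _ => ?_
    have hiff : (∀ i ∈ S', mkx c o'' i = xb x e ζ μ o i) ↔
        (∀ w ∈ sA S', c w = c' w) ∧ (∀ e' ∈ sB S', o'' e' = o' e') := by
      constructor
      · intro h
        exact ⟨fun w hw => h (Sum.inl w) ((mem_sA S' w).1 hw), fun e' he => h (Sum.inr e') ((mem_sB S' e').1 he)⟩
      · rintro ⟨h1, h2⟩ (w | e') hi
        · exact h1 w ((mem_sA S' w).2 hi)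
        · exact h2 e' ((mem_sB S' e').2 hi)
    by_cases h : (∀ w ∈ sA S', c w = c' w) ∧ (∀ e' ∈ sB S', o'' e' = o' e')
    · rw [if_pos (hiff.2 h), if_pos h]
      obtain ⟨hc, ho⟩ := h
      have hmem : ∀ e' ∈ sB S', AA G M b c e' = AA G M b c' e' ∧ rr G M b c e' = rr G M b c' e' ∧
          tt G M b c e' = tt G M b c' e' := by
        intro e' he
        have a1 := hA.bit e' ((mem_sB S' e').1 he)
        have a2 := hA.mm e' a1
        have a3 := hA.zz e' a2
        exact bp1_loc2 G M b c c' e' (hc _ ((mem_sA S' _).2 a3.1)) (hc _ ((mem_sA S' _).2 a3.2))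
          (hc _ ((mem_sA S' _).2 a2)) (hc _ ((mem_sA S' _).2 a1))
      have hpcm : pc (mkx (V := V) c o'') = c := rfl
      have hpom : po (mkx (V := V) c o'') = o'' := rfl
      show W G M b l (pc (mkx c o'')) (po (mkx c o'')) / Z = _
      rw [hpcm, hpom]
      unfold W WB
      have g1 : (∏ e', AA G M b c e' * (if o'' e' then rr G M b c e' else 1 - rr G M b c e')) =
          (AA G M b c' e * (if o then rr G M b c' e else 1 - rr G M b c' e)) * Q *
          ∏ e' ∈ univ \ sB S', AA G M b c e' * (if o'' e' then rr G M b c e' else 1 - rr G M b c e') := by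
        rw [← Finset.prod_sdiff (Finset.subset_univ (sB S'))]
        have g2 : (∏ e' ∈ sB S', AA G M b c e' * (if o'' e' then rr G M b c e' else 1 - rr G M b c e')) =
            (AA G M b c' e * (if o then rr G M b c' e else 1 - rr G M b c' e)) * Q := by
          have g3 : (∏ e' ∈ sB S', AA G M b c e' * (if o'' e' then rr G M b c e' else 1 - rr G M b c e')) =
              ∏ e' ∈ sB S', AA G M b c' e' * (if o' e' then rr G M b c' e' else 1 - rr G M b c' e') := by
            refine Finset.prod_congr rfl fun e' he => ?_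
            rw [(hmem e' he).1, (hmem e' he).2.1, ho e' he]
          rw [g3, hS', bp1_sB, Finset.prod_insert hbit]
          have g4 : o' e = o := by rw [hpo, Function.update_self]
          rw [g4]
          congr 1
          rw [hQ]
          refine Finset.prod_congr rfl fun e' he => ?_
          have hne : e' ≠ e := fun h => hbit (h ▸ he)
          have g5 : o' e' = po x e' := by rw [hpo, Function.update_of_ne hne]
          rw [(hloc e' hne).1, (hloc e' hne).2.1, g5]
        rw [g2]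
        ring
      have g6 : Zv G (tt G M b c) = Zv G (fun e' => if e' ∈ sB S' then tt G M b c' e' else tt G M b c e') := by
        congr 1
        funext e'
        by_cases he : e' ∈ sB S'
        · rw [if_pos he, (hmem e' he).2.2]
        · rw [if_neg he]
      rw [g1, g6]
      ring
    · rw [if_neg (fun h' => h (hiff.1 h')), if_neg h, mul_zero]
  rw [hcs]
  have e1 : hw M l (Sum.inr (e, false) : SV V E) ζ = M.nu ζ * Real.exp (l * M.cc ζ ^ 2) := by
    unfold hw
    show M.nu ζ * Real.exp (l * 1 * M.cc ζ ^ 2) = _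
    rw [mul_one]
  have e2 : hw M l (Sum.inr (e, true) : SV V E) μ = M.nu μ := by
    unfold hw
    show M.nu μ * Real.exp (l * 0 * M.cc μ ^ 2) = _
    rw [mul_zero, zero_mul, Real.exp_zero, mul_one]
  rw [e1, e2] at k
  have hH : H1 * H2 ≠ 0 := (mul_pos hH1p hH2p).ne'
  have k' : SB G M b l (sA S') (sB S') (tt G M b c') c' o' (fun _ _ => 1) =
      (M.nu ζ * Real.exp (l * M.cc ζ ^ 2) * M.nu μ) *
        bN G M b l S x e (fun _ => 1) o (tt G M b c' e) / (H1 * H2) := by
    rw [eq_div_iff hH]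
    linear_combination -k
  rw [k']
  field_simp

/-- summing over the block. -/
theorem bx3 (G : Gr V E) (M : Al) (S : Finset (SV V E ⊕ E)) (hS : Adm G S) (x : ∀ i, XI M.k V E i)
    (e : E) (hz : Sum.inl (Sum.inr (e, false)) ∉ S) (g : (∀ i, XI M.k V E i) → ℝ) :
    cs S x g = ∑ ζ : Fin (M.k + 1), ∑ μ : Fin (M.k + 1), ∑ o : Bool,
      cs (S ∪ blk e) (xb x e ζ μ o) g := by
  have hm : Sum.inl (Sum.inr (e, true)) ∉ S := fun h => hz (hS.mm e h)
  have hbit : (Sum.inr e : SV V E ⊕ E) ∉ S := fun h => hm (hS.bit e h)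
  rw [cs_split S x (Sum.inl (Sum.inr (e, false))) hz g]
  refine Finset.sum_congr rfl fun ζ _ => ?_
  rw [cs_split _ _ (Sum.inl (Sum.inr (e, true))) (by
    intro h
    rcases Finset.mem_insert.1 h with h | h
    · simp at h
    · exact hm h) g]
  refine Finset.sum_congr rfl fun μ _ => ?_
  rw [cs_split _ _ (Sum.inr e) (by
    intro h
    rcases Finset.mem_insert.1 h with h | h
    · simp at h
    · rcases Finset.mem_insert.1 h with h | h
      · simp at h
      · exact hbit h) g]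
  refine Finset.sum_congr rfl fun o _ => ?_
  have h1 : S ∪ blk e = insert (Sum.inr e) (insert (Sum.inl (Sum.inr (e, true)))
      (insert (Sum.inl (Sum.inr (e, false))) S)) := by
    ext y
    unfold blk
    simp only [Finset.mem_union, Finset.mem_insert, Finset.mem_singleton]
    tauto
  rw [h1]
  congr 1
  funext i
  rcases i with (w | e')
  · by_cases h2 : w = Sum.inr (e, true)
    · subst h2
      rw [Function.update_of_ne (by simp), Function.update_self]
      show μ = Function.update (Function.update (pc x) (Sum.inr (e, false)) ζ) (Sum.inr (e, true)) μ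
        (Sum.inr (e, true))
      rw [Function.update_self]
    · rw [Function.update_of_ne (by simp), Function.update_of_ne (by simpa using h2)]
      show _ = Function.update (Function.update (pc x) (Sum.inr (e, false)) ζ) (Sum.inr (e, true)) μ w
      rw [Function.update_of_ne h2]
      by_cases h3 : w = Sum.inr (e, false)
      · subst h3
        rw [Function.update_self, Function.update_self]
      · rw [Function.update_of_ne (by simpa using h3), Function.update_of_ne h3]
        rfl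
  · show _ = Function.update (po x) e o e'
    by_cases h2 : e' = e
    · subst h2
      rw [Function.update_self, Function.update_self]
    · rw [Function.update_of_ne (by simpa using h2), Function.update_of_ne (by simp),
        Function.update_of_ne (by simp), Function.update_of_ne h2]
      rfl

end H82.BX

end S_H82_BX_BP1

section S_H82_BX_BP2

/-!
# BP2: the structure hypotheses `BOk` for a block

`bN` is affine in `t` (`Zv_upd`): `bN o t = n0 o + t n1 o` with `n0 o = bN o 0`, `n1 o = bN o 1 - bN o 0`.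
* `pos`: `SB_pos`; `dn`, `dl`: `Zv_bd`.
* `ph0`, `ph1`: `0 ≤ f ≤ 1`, nonnegative weights.
* `up`, `an`: `EB_mono` (`fun _ o => f o` is `Mon`).
* `ra`: `SB(1) = ∑_{c = c0 on A} wv Ls(c, bt o) Lt(c, tB)` (GI6) and the four functions theorem
  (`four_functions_theorem_univ`) with `f1 c = 1[c = c0 on A] wv Ls(c,(e:=1)) Lt(c,(e:=t'))`, `f2` with `((e:=0),(e:=t))`,
  `f3` with `((e:=0),(e:=t'))`, `f4` with `((e:=1),(e:=t))`, by `Ls_super`, `Lt_super`.
* `r1`, `r2`: with the bit of `e` frozen: `SB(1)` with `o = true/false` compares `Zv` at `1` and `0` in the coordinate `e`, after summing the bits off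
  `insert e B` (`fo_sum`): `Zv_bd`.
-/

set_option autoImplicit false

open Finset MeasureTheory

namespace H82.BX

open H82.IC

variable {V E : Type} [Fintype V] [DecidableEq V] [Fintype E] [DecidableEq E]

omit [Fintype V] [DecidableEq V] [Fintype E] in
/-- frozen parameters with one coordinate changed. -/
theorem bp2_frz_upd (B : Finset E) (T r : E → ℝ) (e : E) (he : e ∈ B) (t : ℝ) :
    (fun e' => if e' ∈ B then Function.update T e t e' else r e') =
      Function.update (fun e' => if e' ∈ B then T e' else r e') e t := by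
  funext e'
  by_cases h : e' = e
  · subst h
    simp [he]
  · simp [Function.update_of_ne h]

/-- the weights do not see the last factor. -/
noncomputable def bp2_wB (G : Gr V E) (M : Al) (b l : ℝ) (B : Finset E)
    (c : SV V E → Fin (M.k + 1)) (o : E → Bool) : ℝ :=
  wv M l c * (∏ e ∈ univ \ B, AA G M b c e * (if o e then rr G M b c e else 1 - rr G M b c e)) *
    Zv G (bt o)

theorem bp2_WB_eq (G : Gr V E) (M : Al) (b l : ℝ) (B : Finset E) (T : E → ℝ) (e : E) (he : e ∈ B)
    (t : ℝ) (c : SV V E → Fin (M.k + 1)) (o : E → Bool) :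
    WB G M b l B (Function.update T e t) c o = bp2_wB G M b l B c o *
      Zv G (Function.update (fun e' => if e' ∈ B then T e' else tt G M b c e') e t) := by
  unfold WB bp2_wB
  rw [bp2_frz_upd B T _ e he t]
  ring

theorem bp2_Zv_pos' (G : Gr V E) (o : E → Bool) : 0 < Zv G (bt o) :=
  Zv_pos G _ (fun e => by unfold bt; split_ifs <;> norm_num)
    (fun e => by unfold bt; split_ifs <;> norm_num)

omit [Fintype V] [DecidableEq V] [Fintype E] [DecidableEq E] in
theorem bp2_AA_pos (G : Gr V E) (M : Al) (b : ℝ) (c : SV V E → Fin (M.k + 1)) (e : E) :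
    0 < AA G M b c e :=
  Finset.prod_pos fun _ _ => mul_pos (Real.cosh_pos _) (Real.cosh_pos _)

omit [DecidableEq V] [DecidableEq E] in
theorem bp2_wv_pos (M : Al) (hM : M.Ok) (l : ℝ) (c : SV V E → Fin (M.k + 1)) : 0 < wv M l c :=
  Finset.prod_pos fun _ _ => mul_pos (hM.nu0 _) (Real.exp_pos _)

theorem bp2_wB_pos (G : Gr V E) (M : Al) (hM : M.Ok) (b l : ℝ) (hb : 0 < b) (B : Finset E)
    (c : SV V E → Fin (M.k + 1)) (o : E → Bool) : 0 < bp2_wB G M b l B c o := by
  unfold bp2_wB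
  refine mul_pos (mul_pos (bp2_wv_pos M hM l c) (Finset.prod_pos fun e _ => ?_)) (bp2_Zv_pos' G o)
  obtain ⟨h1, h2, _, _⟩ := rr_bd G M hM b hb c e
  refine mul_pos (bp2_AA_pos G M b c e) ?_
  split_ifs
  · exact h1
  · linarith

theorem bN_aff (G : Gr V E) (M : Al) (b l : ℝ) (S : Finset (SV V E ⊕ E)) (x : ∀ i, XI M.k V E i)
    (e : E) (f : (E → Bool) → ℝ) (o : Bool) (t : ℝ) :
    bN G M b l S x e f o t =
      bN G M b l S x e f o 0 + t * (bN G M b l S x e f o 1 - bN G M b l S x e f o 0) := by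
  unfold bN SB
  rw [← Finset.sum_sub_distrib, Finset.mul_sum, ← Finset.sum_add_distrib]
  refine Finset.sum_congr rfl fun c _ => ?_
  rw [← Finset.sum_sub_distrib, Finset.mul_sum, ← Finset.sum_add_distrib]
  refine Finset.sum_congr rfl fun o' _ => ?_
  split_ifs with h
  · rw [bp2_WB_eq _ _ _ _ _ _ _ (mem_insert_self _ _), bp2_WB_eq _ _ _ _ _ _ _ (mem_insert_self _ _),
      bp2_WB_eq _ _ _ _ _ _ _ (mem_insert_self _ _), Zv_upd G _ e t]
    ring
  · ring

/-- frozen parameters are between `0` and `1`. -/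
theorem bp2_frz_bd (G : Gr V E) (M : Al) (hM : M.Ok) (b : ℝ) (hb : 0 < b) (B : Finset E)
    (c0 : SV V E → Fin (M.k + 1)) (e : E) (t : ℝ) (h0 : 0 ≤ t) (h1 : t ≤ 1)
    (c : SV V E → Fin (M.k + 1)) (e' : E) :
    0 ≤ (if e' ∈ B then Function.update (tt G M b c0) e t e' else tt G M b c e') ∧
      (if e' ∈ B then Function.update (tt G M b c0) e t e' else tt G M b c e') ≤ 1 := by
  split_ifs
  · by_cases h : e' = e
    · subst h
      simp [h0, h1]
    · rw [Function.update_of_ne h]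
      obtain ⟨_, _, h3, h4⟩ := rr_bd G M hM b hb c0 e'
      exact ⟨h3.le, h4.le⟩
  · obtain ⟨_, _, h3, h4⟩ := rr_bd G M hM b hb c e'
    exact ⟨h3.le, h4.le⟩

theorem bp2_upd_bd (G : Gr V E) (M : Al) (hM : M.Ok) (b : ℝ) (hb : 0 < b)
    (c0 : SV V E → Fin (M.k + 1)) (e : E) (t : ℝ) (h0 : 0 ≤ t) (h1 : t ≤ 1) (e' : E) :
    0 ≤ Function.update (tt G M b c0) e t e' ∧ Function.update (tt G M b c0) e t e' ≤ 1 := by
  have := bp2_frz_bd G M hM b hb univ c0 e t h0 h1 c0 e'
  simpa using this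

/-- `SB(1)` as a sum over the moduli. -/
theorem bp2_SB_one (G : Gr V E) (M : Al) (b l : ℝ) (A : Finset (SV V E)) (B : Finset E) (tB : E → ℝ)
    (c0 : SV V E → Fin (M.k + 1)) (o0 : E → Bool) :
    SB G M b l A B tB c0 o0 (fun _ _ => 1) =
      ∑ c, if (∀ w ∈ A, c w = c0 w) then wv M l c * Ls G M b B c (bt o0) * Lt G M b B c tB
        else 0 := by
  unfold SB
  refine Finset.sum_congr rfl fun c _ => ?_
  by_cases hc : ∀ w ∈ A, c w = c0 w
  · rw [if_pos hc]
    have h1 : ∀ o : E → Bool, (if (∀ w ∈ A, c w = c0 w) ∧ (∀ e ∈ B, o e = o0 e) then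
        WB G M b l B tB c o * 1 else 0) = wv M l c * (∏ e ∈ univ \ B, AA G M b c e) *
          Zv G (fun e => if e ∈ B then tB e else tt G M b c e) *
          (if (∀ e ∈ B, o e = o0 e) then
            (∏ e ∈ univ \ B, (if o e then rr G M b c e else 1 - rr G M b c e)) * Zv G (bt o) * 1
            else 0) := by
      intro o
      by_cases ho : ∀ e ∈ B, o e = o0 e
      · rw [if_pos ⟨hc, ho⟩, if_pos ho]
        unfold WB
        rw [Finset.prod_mul_distrib]
        ring
      · rw [if_neg (fun h => ho h.2), if_neg ho, mul_zero]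
    simp only [h1]
    rw [← Finset.mul_sum]
    have h2 := fo_sum G B (rr G M b c) o0
    unfold fo at h2
    rw [h2]
    unfold Ls Lt AA
    simp only [Finset.prod_mul_distrib]
    ring
  · rw [if_neg hc]
    exact Finset.sum_eq_zero fun o _ => if_neg fun h => hc h.1

omit [Fintype E] in
theorem bp2_bt_upd (o : E → Bool) (e : E) (a : Bool) :
    bt (Function.update o e a) = Function.update (bt o) e (if a then 1 else 0) := by
  funext e'
  by_cases h : e' = e
  · subst h
    simp [bt]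
  · simp [bt, Function.update_of_ne h]

theorem bp2_Ls_upd (G : Gr V E) (M : Al) (b : ℝ) (B : Finset E) (c : SV V E → Fin (M.k + 1))
    (o : E → Bool) (e : E) (he : e ∈ B) (a : Bool) :
    Ls G M b B c (bt (Function.update o e a)) =
      (∏ e ∈ univ \ B, ∏ j : Fin 3, Real.cosh (la G M b c (e, j))) *
        Zv G (Function.update (fun e' => if e' ∈ B then bt o e' else rr G M b c e') e
          (if a then 1 else 0)) := by
  unfold Ls
  rw [bp2_bt_upd, bp2_frz_upd B _ _ e he]

omit [Fintype E] [DecidableEq E] in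
theorem bp2_bt_bd (o : E → Bool) (e : E) : 0 ≤ bt o e ∧ bt o e ≤ 1 := by
  unfold bt
  split_ifs <;> norm_num

theorem bp2_Ls_nn (G : Gr V E) (M : Al) (hM : M.Ok) (b : ℝ) (hb : 0 < b) (B : Finset E)
    (c : SV V E → Fin (M.k + 1)) (o : E → Bool) : 0 ≤ Ls G M b B c (bt o) := by
  unfold Ls
  refine mul_nonneg (Finset.prod_nonneg fun _ _ => Finset.prod_nonneg fun _ _ =>
    (Real.cosh_pos _).le) (Zv_pos G _ (fun e => ?_) (fun e => ?_)).le
  · split_ifs
    · exact (bp2_bt_bd o e).1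
    · exact (rr_bd G M hM b hb c e).1.le
  · split_ifs
    · exact (bp2_bt_bd o e).2
    · exact (rr_bd G M hM b hb c e).2.1.le

theorem bp2_Lt_nn (G : Gr V E) (M : Al) (hM : M.Ok) (b : ℝ) (hb : 0 < b) (B : Finset E)
    (c c0 : SV V E → Fin (M.k + 1)) (e : E) (t : ℝ) (h0 : 0 ≤ t) (h1 : t ≤ 1) :
    0 ≤ Lt G M b B c (Function.update (tt G M b c0) e t) := by
  unfold Lt
  exact mul_nonneg (Finset.prod_nonneg fun _ _ => Finset.prod_nonneg fun _ _ =>
    (Real.cosh_pos _).le) (Zv_pos G _ (fun e' => (bp2_frz_bd G M hM b hb B c0 e t h0 h1 c e').1)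
      (fun e' => (bp2_frz_bd G M hM b hb B c0 e t h0 h1 c e').2)).le

/-- the two bits. -/
theorem bp2_Ls_bit (G : Gr V E) (M : Al) (hM : M.Ok) (b : ℝ) (hb : 0 < b) (B : Finset E)
    (c : SV V E → Fin (M.k + 1)) (o : E → Bool) (e : E) (he : e ∈ B) :
    Ls G M b B c (bt (Function.update o e false)) ≤ Ls G M b B c (bt (Function.update o e true)) ∧
      Ls G M b B c (bt (Function.update o e true)) ≤
        2 * Ls G M b B c (bt (Function.update o e false)) := by
  rw [bp2_Ls_upd G M b B c o e he, bp2_Ls_upd G M b B c o e he]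
  have hp : 0 ≤ ∏ e ∈ univ \ B, ∏ j : Fin 3, Real.cosh (la G M b c (e, j)) :=
    Finset.prod_nonneg fun _ _ => Finset.prod_nonneg fun _ _ => (Real.cosh_pos _).le
  obtain ⟨h1, h2⟩ := Zv_bd G (fun e' => if e' ∈ B then bt o e' else rr G M b c e') e
    (fun e' => by
      split_ifs
      · exact (bp2_bt_bd o e').1
      · exact (rr_bd G M hM b hb c e').1.le)
    (fun e' => by
      split_ifs
      · exact (bp2_bt_bd o e').2
      · exact (rr_bd G M hM b hb c e').2.1.le)
  simp only [Bool.false_eq_true, if_false, if_true]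
  constructor
  · exact mul_le_mul_of_nonneg_left h1 hp
  · calc _ ≤ _ := mul_le_mul_of_nonneg_left h2 hp
      _ = _ := by ring

omit [DecidableEq V] [DecidableEq E] in
theorem bp2_wv_inf_sup (M : Al) (l : ℝ) (c c' : SV V E → Fin (M.k + 1)) :
    wv M l c * wv M l c' = wv M l (c ⊓ c') * wv M l (c ⊔ c') := by
  unfold wv
  rw [← Finset.prod_mul_distrib, ← Finset.prod_mul_distrib]
  refine Finset.prod_congr rfl fun w _ => ?_
  rcases le_total (c w) (c' w) with h | h
  · rw [Pi.inf_apply, Pi.sup_apply, inf_eq_left.2 h, sup_eq_right.2 h]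
  · rw [Pi.inf_apply, Pi.sup_apply, inf_eq_right.2 h, sup_eq_left.2 h]
    ring

/-- four functions. -/
theorem bp2_SB_four (G : Gr V E) (M : Al) (hM : M.Ok) (b l : ℝ) (hb : 0 < b) (A : Finset (SV V E))
    (B : Finset E) (e : E) (c0 : SV V E → Fin (M.k + 1)) (o0 : E → Bool)
    (t t' : ℝ) (h0 : 0 ≤ t) (htt : t ≤ t') (h1 : t' ≤ 1) :
    SB G M b l A B (Function.update (tt G M b c0) e t') c0 (Function.update o0 e true)
        (fun _ _ => 1) *
      SB G M b l A B (Function.update (tt G M b c0) e t) c0 (Function.update o0 e false)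
        (fun _ _ => 1) ≤
    SB G M b l A B (Function.update (tt G M b c0) e t') c0 (Function.update o0 e false)
        (fun _ _ => 1) *
      SB G M b l A B (Function.update (tt G M b c0) e t) c0 (Function.update o0 e true)
        (fun _ _ => 1) := by
  rw [bp2_SB_one, bp2_SB_one, bp2_SB_one, bp2_SB_one]
  have ht0 : 0 ≤ t' := h0.trans htt
  have ht1 : t ≤ 1 := htt.trans h1
  have hnn : ∀ (o : E → Bool) (s : ℝ), 0 ≤ s → s ≤ 1 → (0 : (SV V E → Fin (M.k + 1)) → ℝ) ≤
      fun c => if (∀ w ∈ A, c w = c0 w) then wv M l c * Ls G M b B c (bt o) *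
        Lt G M b B c (Function.update (tt G M b c0) e s) else 0 := by
    intro o s hs0 hs1 c
    change 0 ≤ if (∀ w ∈ A, c w = c0 w) then wv M l c * Ls G M b B c (bt o) *
        Lt G M b B c (Function.update (tt G M b c0) e s) else 0
    split_ifs
    · exact mul_nonneg (mul_nonneg (bp2_wv_pos M hM l c).le (bp2_Ls_nn G M hM b hb B c o))
        (bp2_Lt_nn G M hM b hb B c c0 e s hs0 hs1)
    · exact le_rfl
  refine four_functions_theorem_univ _ _ _ _ (hnn _ _ ht0 h1) (hnn _ _ h0 ht1) (hnn _ _ ht0 h1)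
    (hnn _ _ h0 ht1) ?_
  intro c c'
  by_cases hc : ∀ w ∈ A, c w = c0 w
  · by_cases hc' : ∀ w ∈ A, c' w = c0 w
    · have hi : ∀ w ∈ A, (c ⊓ c') w = c0 w := fun w hw => by
        rw [Pi.inf_apply, hc w hw, hc' w hw, inf_idem]
      have hs : ∀ w ∈ A, (c ⊔ c') w = c0 w := fun w hw => by
        rw [Pi.sup_apply, hc w hw, hc' w hw, sup_idem]
      rw [if_pos hc, if_pos hc', if_pos hi, if_pos hs]
      have e1 := Ls_super G M hM b hb.le B c c' (bt (Function.update o0 e true))
        (bt (Function.update o0 e false)) (fun e' _ => (bp2_bt_bd _ e').1) (fun e' _ => (bp2_bt_bd _ e').2)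
        (fun e' _ => (bp2_bt_bd _ e').1) (fun e' _ => (bp2_bt_bd _ e').2)
      have u1 : bt (Function.update o0 e true) ⊓ bt (Function.update o0 e false) =
          bt (Function.update o0 e false) := by
        funext e'
        rw [Pi.inf_apply]
        by_cases h : e' = e
        · subst h; simp [bt]
        · simp [bt, Function.update_of_ne h]
      have u2 : bt (Function.update o0 e true) ⊔ bt (Function.update o0 e false) =
          bt (Function.update o0 e true) := by
        funext e'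
        rw [Pi.sup_apply]
        by_cases h : e' = e
        · subst h; simp [bt]
        · simp [bt, Function.update_of_ne h]
      rw [u1, u2] at e1
      have e2 := Lt_super G M hM b hb.le B c c' (Function.update (tt G M b c0) e t')
        (Function.update (tt G M b c0) e t)
        (fun e' _ => (bp2_upd_bd G M hM b hb c0 e t' ht0 h1 e').1)
        (fun e' _ => (bp2_upd_bd G M hM b hb c0 e t' ht0 h1 e').2)
        (fun e' _ => (bp2_upd_bd G M hM b hb c0 e t h0 ht1 e').1)
        (fun e' _ => (bp2_upd_bd G M hM b hb c0 e t h0 ht1 e').2)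
      have v1 : Function.update (tt G M b c0) e t' ⊔ Function.update (tt G M b c0) e t =
          Function.update (tt G M b c0) e t' := by
        funext e'
        rw [Pi.sup_apply]
        by_cases h : e' = e
        · subst h; simp [htt]
        · simp [Function.update_of_ne h]
      have v2 : Function.update (tt G M b c0) e t' ⊓ Function.update (tt G M b c0) e t =
          Function.update (tt G M b c0) e t := by
        funext e'
        rw [Pi.inf_apply]
        by_cases h : e' = e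
        · subst h; simp [htt]
        · simp [Function.update_of_ne h]
      rw [v1, v2] at e2
      have hw := bp2_wv_inf_sup M l c c'
      have hA0 := bp2_Ls_nn G M hM b hb B c (Function.update o0 e true)
      have hA1 := bp2_Ls_nn G M hM b hb B c' (Function.update o0 e false)
      have hB0 := bp2_Lt_nn G M hM b hb B c c0 e t' ht0 h1
      have hB1 := bp2_Lt_nn G M hM b hb B c' c0 e t h0 ht1
      have hC0 := bp2_Ls_nn G M hM b hb B (c ⊓ c') (Function.update o0 e false)
      have hC1 := bp2_Ls_nn G M hM b hb B (c ⊔ c') (Function.update o0 e true)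
      calc _ = (wv M l c * wv M l c') * ((Ls G M b B c (bt (Function.update o0 e true)) *
              Ls G M b B c' (bt (Function.update o0 e false))) *
              (Lt G M b B c (Function.update (tt G M b c0) e t') *
              Lt G M b B c' (Function.update (tt G M b c0) e t))) := by ring
        _ ≤ (wv M l c * wv M l c') * ((Ls G M b B (c ⊓ c') (bt (Function.update o0 e false)) *
              Ls G M b B (c ⊔ c') (bt (Function.update o0 e true))) *
              (Lt G M b B (c ⊓ c') (Function.update (tt G M b c0) e t') *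
              Lt G M b B (c ⊔ c') (Function.update (tt G M b c0) e t))) := by
            refine mul_le_mul_of_nonneg_left ?_ (mul_pos (bp2_wv_pos M hM l c) (bp2_wv_pos M hM l c')).le
            exact mul_le_mul e1 e2 (mul_nonneg hB0 hB1) (mul_nonneg hC0 hC1)
        _ = _ := by rw [hw]; ring
    · rw [if_neg hc', mul_zero]
      exact mul_nonneg (hnn _ _ ht0 h1 _) (hnn _ _ h0 ht1 _)
  · rw [if_neg hc, zero_mul]
    exact mul_nonneg (hnn _ _ ht0 h1 _) (hnn _ _ h0 ht1 _)

theorem bN_ok (G : Gr V E) (M : Al) (hM : M.Ok) (b l : ℝ) (hb : 0 < b) (S : Finset (SV V E ⊕ E))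
    (hS : Adm G S) (x : ∀ i, XI M.k V E i) (e : E) (he : e ∉ sB S) (f : (E → Bool) → ℝ)
    (hf : Monotone f) (hf0 : ∀ o, 0 ≤ f o) (hf1 : ∀ o, f o ≤ 1) :
    BOk (fun o => bN G M b l S x e (fun _ => 1) o 0)
      (fun o => bN G M b l S x e (fun _ => 1) o 1 - bN G M b l S x e (fun _ => 1) o 0)
      (fun o => bN G M b l S x e f o 0)
      (fun o => bN G M b l S x e f o 1 - bN G M b l S x e f o 0) := by
  have hD : ∀ o t, Dd (fun o => bN G M b l S x e (fun _ => 1) o 0)
      (fun o => bN G M b l S x e (fun _ => 1) o 1 - bN G M b l S x e (fun _ => 1) o 0) o t =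
      bN G M b l S x e (fun _ => 1) o t := fun o t => (bN_aff G M b l S x e (fun _ => 1) o t).symm
  have hP : ∀ o t, Ph (fun o => bN G M b l S x e (fun _ => 1) o 0)
      (fun o => bN G M b l S x e (fun _ => 1) o 1 - bN G M b l S x e (fun _ => 1) o 0)
      (fun o => bN G M b l S x e f o 0)
      (fun o => bN G M b l S x e f o 1 - bN G M b l S x e f o 0) o t =
      EB G M b l (sA S) (insert e (sB S)) (Function.update (tt G M b (pc x)) e t) (pc x)
        (Function.update (po x) e o) (fun _ o' => f o') := by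
    intro o t
    unfold Ph
    rw [← bN_aff, ← bN_aff]
    rfl
  have hpos : ∀ o t, 0 ≤ t → t ≤ 1 → 0 < bN G M b l S x e (fun _ => 1) o t := by
    intro o t h0 h1
    exact SB_pos G M hM b l hb _ _ _ (fun e' _ => (bp2_upd_bd G M hM b hb (pc x) e t h0 h1 e').1)
      (fun e' _ => (bp2_upd_bd G M hM b hb (pc x) e t h0 h1 e').2) _ _
  have hmem : e ∈ insert e (sB S) := mem_insert_self _ _
  have hWB : ∀ t, 0 ≤ t → t ≤ 1 → ∀ c o', 0 ≤ WB G M b l (insert e (sB S))
      (Function.update (tt G M b (pc x)) e t) c o' := by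
    intro t h0 h1 c o'
    have hz : 0 < Zv G (Function.update
        (fun e' => if e' ∈ insert e (sB S) then tt G M b (pc x) e' else tt G M b c e') e t) := by
      rw [← bp2_frz_upd _ _ _ e hmem]
      exact Zv_pos G _ (fun e' => (bp2_frz_bd G M hM b hb _ (pc x) e t h0 h1 c e').1)
        (fun e' => (bp2_frz_bd G M hM b hb _ (pc x) e t h0 h1 c e').2)
    rw [bp2_WB_eq _ _ _ _ _ _ _ hmem]
    exact (mul_pos (bp2_wB_pos G M hM b l hb _ c o') hz).le
  have hZ : ∀ c : SV V E → Fin (M.k + 1),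
      Zv G (Function.update
        (fun e' => if e' ∈ insert e (sB S) then tt G M b (pc x) e' else tt G M b c e') e 0) ≤
      Zv G (Function.update
        (fun e' => if e' ∈ insert e (sB S) then tt G M b (pc x) e' else tt G M b c e') e 1) ∧
      Zv G (Function.update
        (fun e' => if e' ∈ insert e (sB S) then tt G M b (pc x) e' else tt G M b c e') e 1) ≤
      2 * Zv G (Function.update
        (fun e' => if e' ∈ insert e (sB S) then tt G M b (pc x) e' else tt G M b c e') e 0) := by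
    intro c
    apply Zv_bd
    · intro e'
      split_ifs
      · exact (rr_bd G M hM b hb (pc x) e').2.2.1.le
      · exact (rr_bd G M hM b hb c e').2.2.1.le
    · intro e'
      split_ifs
      · exact (rr_bd G M hM b hb (pc x) e').2.2.2.le
      · exact (rr_bd G M hM b hb c e').2.2.2.le
  have hdn : ∀ o, bN G M b l S x e (fun _ => 1) o 0 ≤ bN G M b l S x e (fun _ => 1) o 1 := by
    intro o
    unfold bN SB
    refine Finset.sum_le_sum fun c _ => Finset.sum_le_sum fun o' _ => ?_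
    split_ifs
    · rw [bp2_WB_eq _ _ _ _ _ _ _ hmem, bp2_WB_eq _ _ _ _ _ _ _ hmem, mul_one, mul_one]
      exact mul_le_mul_of_nonneg_left (hZ c).1 (bp2_wB_pos G M hM b l hb _ c o').le
    · exact le_rfl
  have hdl : ∀ o, bN G M b l S x e (fun _ => 1) o 1 ≤ 2 * bN G M b l S x e (fun _ => 1) o 0 := by
    intro o
    unfold bN SB
    rw [Finset.mul_sum]
    refine Finset.sum_le_sum fun c _ => ?_
    rw [Finset.mul_sum]
    refine Finset.sum_le_sum fun o' _ => ?_
    split_ifs
    · rw [bp2_WB_eq _ _ _ _ _ _ _ hmem, bp2_WB_eq _ _ _ _ _ _ _ hmem, mul_one, mul_one]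
      calc _ ≤ _ := mul_le_mul_of_nonneg_left (hZ c).2 (bp2_wB_pos G M hM b l hb _ c o').le
        _ = _ := by ring
    · simp
  have hmon : Mon (fun (_ : SV V E → Fin (M.k + 1)) (o' : E → Bool) => f o') :=
    fun c c' o o' _ ho => hf ho
  refine ⟨fun o => hpos o 0 le_rfl zero_le_one, fun o => sub_nonneg.2 (hdn o), fun o => ?_,
    ?_, ?_, ?_, ?_, ?_, ?_, ?_⟩
  · have := hdl o
    change bN G M b l S x e (fun _ => 1) o 1 - bN G M b l S x e (fun _ => 1) o 0 ≤
      bN G M b l S x e (fun _ => 1) o 0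
    linarith
  · intro o t h0 h1
    rw [hP]
    unfold EB
    refine div_nonneg ?_ (hpos o t h0 h1).le
    unfold SB
    refine Finset.sum_nonneg fun c _ => Finset.sum_nonneg fun o' _ => ?_
    split_ifs
    · exact mul_nonneg (hWB t h0 h1 c o') (hf0 o')
    · exact le_rfl
  · intro o t h0 h1
    rw [hP]
    unfold EB
    refine (div_le_one (hpos o t h0 h1)).2 ?_
    unfold bN SB
    refine Finset.sum_le_sum fun c _ => Finset.sum_le_sum fun o' _ => ?_
    split_ifs
    · exact mul_le_mul_of_nonneg_left (hf1 o') (hWB t h0 h1 c o')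
    · exact le_rfl
  · intro t h0 h1
    rw [hP, hP]
    refine EB_mono G M hM b l hb _ _ _ _
      (fun e' _ => (bp2_upd_bd G M hM b hb (pc x) e t h0 h1 e').1) (fun _ _ => le_rfl)
      (fun e' _ => (bp2_upd_bd G M hM b hb (pc x) e t h0 h1 e').2) _ _ (fun _ _ => le_rfl) _ _
      (fun e' _ => ?_) _ hmon
    by_cases h : e' = e
    · subst h; simp
    · rw [Function.update_of_ne h, Function.update_of_ne h]
  · intro o t t' h0 htt h1
    rw [hP, hP]
    refine EB_mono G M hM b l hb _ _ _ _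
      (fun e' _ => (bp2_upd_bd G M hM b hb (pc x) e t h0 (htt.trans h1) e').1) (fun e' _ => ?_)
      (fun e' _ => (bp2_upd_bd G M hM b hb (pc x) e t' (h0.trans htt) h1 e').2) _ _
      (fun _ _ => le_rfl) _ _ (fun _ _ => le_rfl) _ hmon
    by_cases h : e' = e
    · subst h; simpa using htt
    · rw [Function.update_of_ne h, Function.update_of_ne h]
  · intro t t' h0 htt h1
    rw [hD, hD, hD, hD]
    have := bp2_SB_four G M hM b l hb (sA S) (insert e (sB S)) e (pc x) (po x) t t' h0 htt h1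
    rw [mul_comm (bN G M b l S x e (fun _ => 1) true t)]
    exact this
  · intro t h0 h1
    rw [hD, hD]
    unfold bN
    rw [bp2_SB_one, bp2_SB_one]
    refine Finset.sum_le_sum fun c _ => ?_
    split_ifs
    · exact mul_le_mul_of_nonneg_right (mul_le_mul_of_nonneg_left
        (bp2_Ls_bit G M hM b hb _ c (po x) e hmem).1 (bp2_wv_pos M hM l c).le)
        (bp2_Lt_nn G M hM b hb _ c (pc x) e t h0 h1)
    · exact le_rfl
  · intro t h0 h1
    rw [hD, hD]
    unfold bN
    rw [bp2_SB_one, bp2_SB_one, Finset.mul_sum]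
    refine Finset.sum_le_sum fun c _ => ?_
    split_ifs
    · calc _ ≤ wv M l c * (2 * Ls G M b (insert e (sB S)) c
            (bt (Function.update (po x) e false))) *
            Lt G M b (insert e (sB S)) c (Function.update (tt G M b (pc x)) e t) :=
              mul_le_mul_of_nonneg_right (mul_le_mul_of_nonneg_left
              (bp2_Ls_bit G M hM b hb _ c (po x) e hmem).2 (bp2_wv_pos M hM l c).le)
              (bp2_Lt_nn G M hM b hb _ c (pc x) e t h0 h1)
        _ = _ := by ring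
    · simp

end H82.BX

end S_H82_BX_BP2

section S_H82_BX_BP4

/-!
# BP4: the comparison quantity of a block and the upper bound

Fix `S, x, e` as in BP1.  Notation: `a ζ μ = C nu ζ e^{l cc²ζ} nu μ AA D(..)` (`bx2`); `rr ζ μ = chr b x1 y1 (cc ζ) (cc μ)` with `x1 = cc (c (s e))`, `y1 = cc (c (r e))`
(`rr`, `la` of the links `s e - z_e`, `z_e - m_e`, `m_e - r e`; `G.s e`, `G.r e` may coincide, no problem), and `tt ζ μ = chr b x2 y2 (ss ζ) (ss μ)`.
`bp_up`: `blk_up` with `Y` = pairs `(ζ, μ)`, `a y = C nu ζ e^{l cc²ζ} nu μ AA`, `r = rr`, `t = tt`, `π y o = cs (S ∪ blk e) (xb x e ζ μ o) mW` (`bx2`; `Dd d0 d1 o t = bN .. 1 o t` by `bN_aff`),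
`Ph .. o t = ce f (S ∪ blk e) (xb ..)` (`bx1`), the average is `ce m f S x` (`bx3`; `cs (S ∪ blk e) x' (m f) = ce · cs`), `bx3` for the left side (on the cylinder the conditional expectation is constant).
`rm ≤ 1`, `tm ≤ 1`, `rr < 1` (`tanh < 1`), bounds by `chr_le`.
-/

set_option autoImplicit false

open Finset MeasureTheory

namespace H82.BX

open H82.IC

variable {V E : Type} [Fintype V] [DecidableEq V] [Fintype E] [DecidableEq E]

/-- maximal value of `rr` over the block. -/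
noncomputable def rM (G : Gr V E) (M : Al) (b : ℝ) (x : ∀ i, XI M.k V E i) (e : E) : ℝ :=
  chm b (M.cc (pc x (Sum.inl (G.s e)))) (M.cc (pc x (Sum.inl (G.r e))))

/-- maximal value of `tt` over the block. -/
noncomputable def tM (G : Gr V E) (M : Al) (b : ℝ) (x : ∀ i, XI M.k V E i) (e : E) : ℝ :=
  chm b (M.ss (pc x (Sum.inl (G.s e)))) (M.ss (pc x (Sum.inl (G.r e))))

/-- the comparison quantity. -/
noncomputable def QB (G : Gr V E) (M : Al) (b l : ℝ) (S : Finset (SV V E ⊕ E)) (x : ∀ i, XI M.k V E i)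
    (e : E) (f : (E → Bool) → ℝ) : ℝ :=
  Qfo (fun o => bN G M b l S x e (fun _ => 1) o 0)
    (fun o => bN G M b l S x e (fun _ => 1) o 1 - bN G M b l S x e (fun _ => 1) o 0)
    (fun o => bN G M b l S x e f o 0)
    (fun o => bN G M b l S x e f o 1 - bN G M b l S x e f o 0) (rM G M b x e) (tM G M b x e)

/-- `rr` and `tt` of the block are `chr`. -/
theorem rr_xb (G : Gr V E) (M : Al) (b : ℝ) (x : ∀ i, XI M.k V E i) (e : E) (ζ μ : Fin (M.k + 1))
    (o : Bool) : rr G M b (pc (xb x e ζ μ o)) e =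
      chr b (M.cc (pc x (Sum.inl (G.s e)))) (M.cc (pc x (Sum.inl (G.r e)))) (M.cc ζ) (M.cc μ) ∧
    tt G M b (pc (xb x e ζ μ o)) e =
      chr b (M.ss (pc x (Sum.inl (G.s e)))) (M.ss (pc x (Sum.inl (G.r e)))) (M.ss ζ) (M.ss μ) := by
  have hs : pc (xb x e ζ μ o) (Sum.inl (G.s e)) = pc x (Sum.inl (G.s e)) := by
    show Function.update (Function.update (pc x) (Sum.inr (e, false)) ζ) (Sum.inr (e, true)) μ
      (Sum.inl (G.s e)) = _
    rw [Function.update_of_ne (by simp), Function.update_of_ne (by simp)]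
  have hr : pc (xb x e ζ μ o) (Sum.inl (G.r e)) = pc x (Sum.inl (G.r e)) := by
    show Function.update (Function.update (pc x) (Sum.inr (e, false)) ζ) (Sum.inr (e, true)) μ
      (Sum.inl (G.r e)) = _
    rw [Function.update_of_ne (by simp), Function.update_of_ne (by simp)]
  have hz : pc (xb x e ζ μ o) (Sum.inr (e, false)) = ζ := by
    show Function.update (Function.update (pc x) (Sum.inr (e, false)) ζ) (Sum.inr (e, true)) μ
      (Sum.inr (e, false)) = ζ
    rw [Function.update_of_ne (by simp), Function.update_self]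
  have hm : pc (xb x e ζ μ o) (Sum.inr (e, true)) = μ := by
    show Function.update (Function.update (pc x) (Sum.inr (e, false)) ζ) (Sum.inr (e, true)) μ
      (Sum.inr (e, true)) = μ
    rw [Function.update_self]
  constructor
  · unfold rr la chr
    rw [Fin.prod_univ_three]
    show Real.tanh (b * (M.cc (pc (xb x e ζ μ o) (Sum.inl (G.s e))) *
        M.cc (pc (xb x e ζ μ o) (Sum.inr (e, false))))) *
      Real.tanh (b * (M.cc (pc (xb x e ζ μ o) (Sum.inr (e, false))) *
        M.cc (pc (xb x e ζ μ o) (Sum.inr (e, true))))) *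
      Real.tanh (b * (M.cc (pc (xb x e ζ μ o) (Sum.inr (e, true))) *
        M.cc (pc (xb x e ζ μ o) (Sum.inl (G.r e))))) = _
    rw [hs, hr, hz, hm]
  · unfold tt lb chr
    rw [Fin.prod_univ_three]
    show Real.tanh (b * (M.ss (pc (xb x e ζ μ o) (Sum.inl (G.s e))) *
        M.ss (pc (xb x e ζ μ o) (Sum.inr (e, false))))) *
      Real.tanh (b * (M.ss (pc (xb x e ζ μ o) (Sum.inr (e, false))) *
        M.ss (pc (xb x e ζ μ o) (Sum.inr (e, true))))) *
      Real.tanh (b * (M.ss (pc (xb x e ζ μ o) (Sum.inr (e, true))) *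
        M.ss (pc (xb x e ζ μ o) (Sum.inl (G.r e))))) = _
    rw [hs, hr, hz, hm]

/-- a function constant on the cylinder. -/
theorem bp4_const {I : Type} [Fintype I] [DecidableEq I] {X : I → Type} [∀ i, Fintype (X i)]
    [∀ i, LinearOrder (X i)] (A : Finset I) (x : ∀ i, X i) (m F : (∀ i, X i) → ℝ) (c : ℝ)
    (h : ∀ y, (∀ i ∈ A, y i = x i) → F y = c) :
    cs A x (fun y => m y * F y) = cs A x m * c := by
  unfold cs
  rw [Finset.sum_mul]
  refine Finset.sum_congr rfl fun y _ => ?_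
  by_cases hy : ∀ i ∈ A, y i = x i
  · rw [if_pos hy, if_pos hy]
    show m y * F y = m y * c
    rw [h y hy]
  · rw [if_neg hy, if_neg hy, zero_mul]

theorem bp_up (G : Gr V E) (M : Al) (hM : M.Ok) (b l : ℝ) (hb : 0 < b)
    (f : (E → Bool) → ℝ) (hf : Monotone f) (hf0 : ∀ o, 0 ≤ f o) (hf1 : ∀ o, f o ≤ 1)
    (S : Finset (SV V E ⊕ E)) (hS : Adm G S) (x : ∀ i, XI M.k V E i) (e : E)
    (hs : Sum.inl (Sum.inl (G.s e)) ∈ S) (hr : Sum.inl (Sum.inl (G.r e)) ∈ S)
    (hz : Sum.inl (Sum.inr (e, false)) ∉ S) :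
    cs S x (fun y => mW G M b l y * |ce (mW G M b l) (fun y => f (po y)) (S ∪ blk e) y -
        ce (mW G M b l) (fun y => f (po y)) S x|) ≤
      6 * QB G M b l S x e f * cs S x (mW G M b l) := by
  have hm' : Sum.inl (Sum.inr (e, true)) ∉ S := fun h => hz (hS.mm e h)
  have hbit : e ∉ sB S := fun h => hm' (hS.bit e ((mem_sB S e).1 h))
  have hmp := mW_pos G M hM b l hb
  obtain ⟨C, hC, hcs⟩ := bx2 G M hM b l hb S hS x e hs hr hz
  have hok := bN_ok G M hM b l hb S hS x e hbit f hf hf0 hf1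
  have hD : ∀ o t, Dd (fun o => bN G M b l S x e (fun _ => 1) o 0)
      (fun o => bN G M b l S x e (fun _ => 1) o 1 - bN G M b l S x e (fun _ => 1) o 0) o t =
      bN G M b l S x e (fun _ => 1) o t := fun o t => (bN_aff G M b l S x e (fun _ => 1) o t).symm
  have hP : ∀ o t, Ph (fun o => bN G M b l S x e (fun _ => 1) o 0)
      (fun o => bN G M b l S x e (fun _ => 1) o 1 - bN G M b l S x e (fun _ => 1) o 0)
      (fun o => bN G M b l S x e f o 0)
      (fun o => bN G M b l S x e f o 1 - bN G M b l S x e f o 0) o t =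
      bN G M b l S x e f o t / bN G M b l S x e (fun _ => 1) o t := by
    intro o t
    unfold Ph
    rw [← bN_aff, ← bN_aff]
  have hQ : QB G M b l S x e f = Qfo (fun o => bN G M b l S x e (fun _ => 1) o 0)
      (fun o => bN G M b l S x e (fun _ => 1) o 1 - bN G M b l S x e (fun _ => 1) o 0)
      (fun o => bN G M b l S x e f o 0)
      (fun o => bN G M b l S x e f o 1 - bN G M b l S x e f o 0) (rM G M b x e) (tM G M b x e) := rfl
  rw [hQ]
  set d0 : Bool → ℝ := fun o => bN G M b l S x e (fun _ => 1) o 0 with hd0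
  set d1 : Bool → ℝ := fun o => bN G M b l S x e (fun _ => 1) o 1 -
    bN G M b l S x e (fun _ => 1) o 0 with hd1
  set n0 : Bool → ℝ := fun o => bN G M b l S x e f o 0 with hn0
  set n1 : Bool → ℝ := fun o => bN G M b l S x e f o 1 - bN G M b l S x e f o 0 with hn1
  set m := mW G M b l with hmdef
  set g : (∀ i, XI M.k V E i) → ℝ := fun y => f (po y) with hg
  set rY : Fin (M.k + 1) × Fin (M.k + 1) → ℝ := fun y =>
    rr G M b (pc (xb x e y.1 y.2 true)) e with hrY
  set tY : Fin (M.k + 1) × Fin (M.k + 1) → ℝ := fun y =>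
    tt G M b (pc (xb x e y.1 y.2 true)) e with htY
  set aY : Fin (M.k + 1) × Fin (M.k + 1) → ℝ := fun y =>
    C * (M.nu y.1 * Real.exp (l * M.cc y.1 ^ 2) * M.nu y.2 *
      AA G M b (pc (xb x e y.1 y.2 true)) e) with haY
  set πY : Fin (M.k + 1) × Fin (M.k + 1) → Bool → ℝ := fun y o =>
    cs (S ∪ blk e) (xb x e y.1 y.2 o) m with hπY
  have hpi : ∀ y o, πY y o = aY y * (if o then rY y else 1 - rY y) * Dd d0 d1 o (tY y) := by
    intro y o
    rw [hD]
    exact hcs y.1 y.2 o
  have hrb : ∀ y, 0 ≤ rY y ∧ rY y ≤ rM G M b x e ∧ rM G M b x e ≤ Real.tanh b := by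
    intro y
    have h1 := (rr_xb G M b x e y.1 y.2 true).1
    have h2 := chr_le b (M.cc (pc x (Sum.inl (G.s e)))) (M.cc (pc x (Sum.inl (G.r e))))
      (M.cc y.1) (M.cc y.2) hb.le (hM.cc0 _).le (hM.cc1 _) (hM.cc0 _).le (hM.cc1 _)
      (hM.cc0 _).le (hM.cc1 _) (hM.cc0 _).le (hM.cc1 _)
    rw [hrY]
    simp only
    rw [h1]
    exact h2
  have htb : ∀ y, 0 ≤ tY y ∧ tY y ≤ tM G M b x e ∧ tM G M b x e ≤ Real.tanh b := by
    intro y
    have h1 := (rr_xb G M b x e y.1 y.2 true).2
    have h2 := chr_le b (M.ss (pc x (Sum.inl (G.s e)))) (M.ss (pc x (Sum.inl (G.r e))))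
      (M.ss y.1) (M.ss y.2) hb.le (hM.ss0 _).le (hM.ss1 _) (hM.ss0 _).le (hM.ss1 _)
      (hM.ss0 _).le (hM.ss1 _) (hM.ss0 _).le (hM.ss1 _)
    rw [htY]
    simp only
    rw [h1]
    exact h2
  have htl := Real.tanh_lt_one b
  have key := blk_up d0 d1 n0 n1 hok aY rY tY (rM G M b x e) (tM G M b x e)
    (((hrb (0, 0)).2.2).trans htl.le) (((htb (0, 0)).2.2).trans htl.le)
    (fun y => mul_pos hC (mul_pos (mul_pos (mul_pos (hM.nu0 _) (Real.exp_pos _)) (hM.nu0 _))
      (bp1_AA_pos G M b _ e)))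
    (fun y => (hrb y).1) (fun y => (hrb y).2.1)
    (fun y => lt_of_le_of_lt ((hrb y).2.1.trans (hrb y).2.2) htl)
    (fun y => (htb y).1) (fun y => (htb y).2.1) πY hpi
  -- the values of the conditional expectation
  have hce : ∀ (y : Fin (M.k + 1) × Fin (M.k + 1)) (o : Bool),
      ce m g (S ∪ blk e) (xb x e y.1 y.2 o) = Ph d0 d1 n0 n1 o (tY y) := by
    intro y o
    rw [hP]
    exact bx1 G M hM b l hb S hS x e hs hr hz f y.1 y.2 o
  have hsum : ∀ F : (∀ i, XI M.k V E i) → ℝ, cs S x F =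
      ∑ y : Fin (M.k + 1) × Fin (M.k + 1), ∑ o, cs (S ∪ blk e) (xb x e y.1 y.2 o) F := by
    intro F
    rw [bx3 G M S hS x e hz F, Fintype.sum_prod_type]
  have hs1 : cs S x m = ∑ y, ∑ o, πY y o := hsum m
  have hs2 : cs S x (fun y => m y * g y) = ∑ y, ∑ o, πY y o * Ph d0 d1 n0 n1 o (tY y) := by
    rw [hsum]
    refine Finset.sum_congr rfl fun y _ => Finset.sum_congr rfl fun o _ => ?_
    rw [← hce y o]
    have hp : 0 < cs (S ∪ blk e) (xb x e y.1 y.2 o) m := cs_pos m hmp _ _
    show _ = cs (S ∪ blk e) (xb x e y.1 y.2 o) m * _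
    unfold ce
    field_simp
  have hav : ce m g S x = (∑ y, ∑ o, πY y o * Ph d0 d1 n0 n1 o (tY y)) / ∑ y, ∑ o, πY y o := by
    rw [← hs1, ← hs2]
    rfl
  rw [hs1]
  refine le_trans (le_of_eq ?_) key
  rw [hsum]
  refine Finset.sum_congr rfl fun y _ => Finset.sum_congr rfl fun o _ => ?_
  rw [← hav, ← hce y o]
  exact bp4_const (S ∪ blk e) (xb x e y.1 y.2 o) m _ _ (fun z hz' => by
    rw [ce_congr m g (S ∪ blk e) z (xb x e y.1 y.2 o) hz'])

end H82.BX

end S_H82_BX_BP4

section S_H82_BX_BP5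

/-!
# BP5: the lower bound of the conditional covariance by the comparison quantity

Fix `S, x, e` as in BP1.  `a ζ μ = ∑_o cs (S ∪ blk e) (xb x e ζ μ o) mW` (`> 0`), `psi ζ μ = Ps .. (rr ζ μ) (tt ζ μ) = (∑_o cs (S ∪ blk e) (xb ..) (mW f))/a ζ μ` (`bx1`, `bx2`, `bN_aff`).
`blk_low` with `φ = cc²`, `lo = M.lo`, `hi = M.hi`, `mi = M.mi`, `Δ = κ QB` from `blk_psi` (`c` from `chr_diff`, used for `cc` with `ζ ∈ hi, ζ' ∈ lo`, and for `ss` with the roles of `ζ, ζ'` exchanged; `ρ0 = tanh b`):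
* `hpsi`: `Ps_mono`, `chr_mono`, `cc` monotone, `ss` antitone;
* masses: `∑_{ζ ∈ lo} ∑_μ a ζ μ = cs S x (mW 1[z_e ∈ lo])` etc., so `fin_en` (through `ce_EB` with the set `S` resp. `S ∪ {z_e}`, both admissible; the hypothesis `hB` of `fin_en` follows from `Adm`, `0 ≤ tt ≤ 1`) gives
  `p0 = e^{-(8b+Λ)}/4` (`M.Ok.lo, hi, mi`);
* `hst`: `(∑_μ a ζ μ g μ)/∑_μ a ζ μ = ce m (g(c m_e)) (S ∪ {z_e}) (x with z_e := ζ)`, monotone in `ζ` by `mW_mon`.
* the right side of `blk_low` is `ce m (f c2) S x - ce m f S x ce m c2 S x` (`bx3`).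
`Fin (M.k+1)` is nonempty; `φ ζ = cc ζ ^ 2 ≤ 9/25` on `lo`, `≥ 16/25` on `hi`.
-/

set_option autoImplicit false

open Finset MeasureTheory

namespace H82.BX

open H82.IC

section aux
variable {V E : Type} [Fintype V] [DecidableEq V] [Fintype E] [DecidableEq E]

theorem b5_z {k : ℕ} (x : ∀ i, XI k V E i) (e : E) (ζ μ : Fin (k + 1)) (o : Bool) :
    pc (xb x e ζ μ o) (Sum.inr (e, false)) = ζ := by
  show Function.update (Function.update (pc x) (Sum.inr (e, false)) ζ) (Sum.inr (e, true)) μ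
    (Sum.inr (e, false)) = ζ
  rw [Function.update_of_ne (by simp), Function.update_self]

theorem b5_m {k : ℕ} (x : ∀ i, XI k V E i) (e : E) (ζ μ : Fin (k + 1)) (o : Bool) :
    pc (xb x e ζ μ o) (Sum.inr (e, true)) = μ := by
  show Function.update (Function.update (pc x) (Sum.inr (e, false)) ζ) (Sum.inr (e, true)) μ
    (Sum.inr (e, true)) = μ
  rw [Function.update_self]

theorem b5_mono {k : ℕ} (x : ∀ i, XI k V E i) (e : E) (ζ μ ζ' μ' : Fin (k + 1)) (o o' : Bool)
    (h1 : ζ ≤ ζ') (h2 : μ ≤ μ') : pc (xb x e ζ μ o) ≤ pc (xb x e ζ' μ' o') := by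
  show Function.update (Function.update (pc x) (Sum.inr (e, false)) ζ) (Sum.inr (e, true)) μ ≤
    Function.update (Function.update (pc x) (Sum.inr (e, false)) ζ') (Sum.inr (e, true)) μ'
  intro j
  by_cases hj1 : j = Sum.inr (e, true)
  · subst hj1
    rw [Function.update_self, Function.update_self]
    exact h2
  · rw [Function.update_of_ne hj1, Function.update_of_ne hj1]
    by_cases hj : j = Sum.inr (e, false)
    · subst hj
      rw [Function.update_self, Function.update_self]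
      exact h1
    · rw [Function.update_of_ne hj, Function.update_of_ne hj]

theorem b5_pc {k : ℕ} (x : ∀ i, XI k V E i) (e : E) (ζ μ : Fin (k + 1)) (o o' : Bool) :
    pc (xb x e ζ μ o) = pc (xb x e ζ μ o') := rfl

theorem b5_cyl {k : ℕ} (S : Finset (SV V E ⊕ E)) (x y : ∀ i, XI k V E i) (e : E)
    (ζ μ : Fin (k + 1)) (o : Bool) (h : ∀ i ∈ S ∪ blk e, y i = xb x e ζ μ o i) :
    pc y (Sum.inr (e, false)) = ζ ∧ pc y (Sum.inr (e, true)) = μ := by
  constructor
  · have h1 := h (Sum.inl (Sum.inr (e, false))) (by simp [blk])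
    exact h1.trans (b5_z x e ζ μ o)
  · have h1 := h (Sum.inl (Sum.inr (e, true))) (by simp [blk])
    exact h1.trans (b5_m x e ζ μ o)

theorem b5_fac {k : ℕ} (S : Finset (SV V E ⊕ E)) (x : ∀ i, XI k V E i) (e : E)
    (ζ μ : Fin (k + 1)) (o : Bool) (φ : Fin (k + 1) → Fin (k + 1) → ℝ)
    (h : (∀ i, XI k V E i) → ℝ) :
    cs (S ∪ blk e) (xb x e ζ μ o)
        (fun y => φ (pc y (Sum.inr (e, false))) (pc y (Sum.inr (e, true))) * h y) =
      φ ζ μ * cs (S ∪ blk e) (xb x e ζ μ o) h := by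
  unfold cs
  rw [Finset.mul_sum]
  refine Finset.sum_congr rfl fun y _ => ?_
  by_cases hc : ∀ i ∈ S ∪ blk e, y i = xb x e ζ μ o i
  · rw [if_pos hc, if_pos hc]
    show φ (pc y (Sum.inr (e, false))) (pc y (Sum.inr (e, true))) * h y = φ ζ μ * h y
    rw [(b5_cyl S x y e ζ μ o hc).1, (b5_cyl S x y e ζ μ o hc).2]
  · rw [if_neg hc, if_neg hc, mul_zero]

theorem b5_sum (G : Gr V E) (M : Al) (S : Finset (SV V E ⊕ E)) (hS : Adm G S)
    (x : ∀ i, XI M.k V E i) (e : E) (hz : Sum.inl (Sum.inr (e, false)) ∉ S)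
    (φ : Fin (M.k + 1) → Fin (M.k + 1) → ℝ) (h : (∀ i, XI M.k V E i) → ℝ) :
    cs S x (fun y => φ (pc y (Sum.inr (e, false))) (pc y (Sum.inr (e, true))) * h y) =
      ∑ ζ : Fin (M.k + 1), ∑ μ : Fin (M.k + 1), φ ζ μ *
        ∑ o : Bool, cs (S ∪ blk e) (xb x e ζ μ o) h := by
  rw [bx3 G M S hS x e hz]
  refine Finset.sum_congr rfl fun ζ _ => Finset.sum_congr rfl fun μ _ => ?_
  rw [Finset.mul_sum]
  exact Finset.sum_congr rfl fun o _ => b5_fac S x e ζ μ o φ h

theorem b5_ins {k : ℕ} (S : Finset (SV V E ⊕ E)) (x : ∀ i, XI k V E i) (e : E)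
    (hz : Sum.inl (Sum.inr (e, false)) ∉ S) (ζ : Fin (k + 1)) (g : (∀ i, XI k V E i) → ℝ) :
    cs (insert (Sum.inl (Sum.inr (e, false))) S)
        (Function.update x (Sum.inl (Sum.inr (e, false))) ζ) g =
      cs S x (fun y => (if pc y (Sum.inr (e, false)) = ζ then 1 else 0) * g y) := by
  unfold cs
  refine Finset.sum_congr rfl fun y _ => ?_
  have h1 := os1_cond S x y (Sum.inl (Sum.inr (e, false))) hz ζ
  by_cases h2 : ∀ j ∈ S, y j = x j
  · by_cases h3 : pc y (Sum.inr (e, false)) = ζ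
    · rw [if_pos (h1.2 ⟨h3, h2⟩), if_pos h2]
      show g y = (if pc y (Sum.inr (e, false)) = ζ then 1 else 0) * g y
      rw [if_pos h3, one_mul]
    · rw [if_neg (fun hc => h3 (h1.1 hc).1), if_pos h2]
      show 0 = (if pc y (Sum.inr (e, false)) = ζ then 1 else 0) * g y
      rw [if_neg h3, zero_mul]
  · rw [if_neg (fun hc => h2 (h1.1 hc).2), if_neg h2]

theorem b5_insm (G : Gr V E) (M : Al) (S : Finset (SV V E ⊕ E)) (hS : Adm G S)
    (x : ∀ i, XI M.k V E i) (e : E) (hz : Sum.inl (Sum.inr (e, false)) ∉ S)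
    (ζ : Fin (M.k + 1)) (g : Fin (M.k + 1) → ℝ) (h : (∀ i, XI M.k V E i) → ℝ) :
    cs (insert (Sum.inl (Sum.inr (e, false))) S)
        (Function.update x (Sum.inl (Sum.inr (e, false))) ζ)
        (fun y => h y * g (pc y (Sum.inr (e, true)))) =
      ∑ μ : Fin (M.k + 1), (∑ o : Bool, cs (S ∪ blk e) (xb x e ζ μ o) h) * g μ := by
  rw [b5_ins S x e hz ζ]
  have h1 : (fun y : (∀ i, XI M.k V E i) => (if pc y (Sum.inr (e, false)) = ζ then (1 : ℝ) else 0) *
      (h y * g (pc y (Sum.inr (e, true))))) =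
      fun y => (fun a c => (if a = ζ then (1 : ℝ) else 0) * g c) (pc y (Sum.inr (e, false)))
        (pc y (Sum.inr (e, true))) * h y := by
    funext y
    ring
  rw [h1, b5_sum G M S hS x e hz (fun a c => (if a = ζ then (1 : ℝ) else 0) * g c) h,
    Finset.sum_eq_single ζ]
  · refine Finset.sum_congr rfl fun μ _ => ?_
    simp only [if_true]
    ring
  · intro ζ' _ hne
    refine Finset.sum_eq_zero fun μ _ => ?_
    simp [hne]
  · intro hc
    exact absurd (Finset.mem_univ _) hc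

theorem b5_adm (G : Gr V E) (S : Finset (SV V E ⊕ E)) (hS : Adm G S) (e : E)
    (hs : Sum.inl (Sum.inl (G.s e)) ∈ S) (hr : Sum.inl (Sum.inl (G.r e)) ∈ S) :
    Adm G (insert (Sum.inl (Sum.inr (e, false))) S) := by
  constructor
  · intro e' he'
    rw [Finset.mem_insert] at he' ⊢
    rcases he' with he' | he'
    · exact absurd he' (by simp)
    · exact Or.inr (hS.bit e' he')
  · intro e' he'
    rw [Finset.mem_insert] at he' ⊢
    rcases he' with he' | he'
    · exact absurd he' (by simp)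
    · exact Or.inr (hS.mm e' he')
  · intro e' he'
    rw [Finset.mem_insert] at he'
    rcases he' with he' | he'
    · have h1 : e' = e := by
        have h2 := Sum.inl_injective he'
        have h3 := Sum.inr_injective h2
        exact (Prod.mk.inj h3).1
      subst h1
      exact ⟨Finset.mem_insert_of_mem hs, Finset.mem_insert_of_mem hr⟩
    · exact ⟨Finset.mem_insert_of_mem (hS.zz e' he').1, Finset.mem_insert_of_mem (hS.zz e' he').2⟩

theorem b5_fe (G : Gr V E) (hG : Deg4 G) (M : Al) (hM : M.Ok) (b l Λ : ℝ) (hb : 0 < b) (hl : 0 ≤ l)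
    (hlΛ : l ≤ Λ) (S : Finset (SV V E ⊕ E)) (hS : Adm G S) (x : ∀ i, XI M.k V E i)
    (w : SV V E) (hw : Sum.inl w ∉ S) (T : Finset (Fin (M.k + 1))) (hT : 1 / 4 ≤ ∑ c ∈ T, M.nu c) :
    Real.exp (-(8 * b + Λ)) / 4 * cs S x (mW G M b l) ≤
      cs S x (fun y => mW G M b l y * (if pc y w ∈ T then 1 else 0)) := by
  have h1 := fin_en G hG M hM b l hb hl (sA S) (sB S)
    (by
      intro e' he'
      rw [mem_sB] at he'
      have h2 := hS.bit e' he'
      have h3 := hS.mm e' h2
      have h4 := hS.zz e' h3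
      exact ⟨(mem_sA S _).2 h4.1, (mem_sA S _).2 h4.2, (mem_sA S _).2 h3, (mem_sA S _).2 h2⟩)
    (tt G M b (pc x)) (fun e' _ => (rr_bd G M hM b hb (pc x) e').2.2.1.le)
    (fun e' _ => (rr_bd G M hM b hb (pc x) e').2.2.2.le) (pc x) (po x) w
    (fun hc => hw ((mem_sA S _).1 hc)) T
  have h2 := ce_EB G M hM b l hb S hS (fun y => if pc y w ∈ T then 1 else 0) x
  have h3 : EB G M b l (sA S) (sB S) (tt G M b (pc x)) (pc x) (po x)
      (fun c o => (fun y : (∀ i, XI M.k V E i) => if pc y w ∈ T then (1 : ℝ) else 0) (mkx c o)) =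
      EB G M b l (sA S) (sB S) (tt G M b (pc x)) (pc x) (po x)
        (fun c _ => if c w ∈ T then 1 else 0) := rfl
  rw [h3] at h2
  rw [← h2] at h1
  have hc : 0 < cs S x (mW G M b l) := cs_pos _ (mW_pos G M hM b l hb) S x
  have h4 : Real.exp (-(8 * b + Λ)) / 4 ≤ Real.exp (-(8 * b + l)) * ∑ v ∈ T, M.nu v := by
    have h5 : Real.exp (-(8 * b + Λ)) ≤ Real.exp (-(8 * b + l)) :=
      Real.exp_le_exp.2 (by linarith)
    have h6 := Real.exp_pos (-(8 * b + Λ))
    have h7 := mul_le_mul h5 hT (by norm_num) (le_trans h6.le h5)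
    linarith
  have h5 := le_trans h4 h1
  unfold ce at h5
  rwa [le_div_iff₀ hc] at h5

end aux

theorem b5_psi {V E : Type} [Fintype V] [DecidableEq V] [Fintype E] [DecidableEq E] (G : Gr V E)
    (M : Al) (hM : M.Ok) (b l : ℝ) (hb : 0 < b) (S : Finset (SV V E ⊕ E)) (hS : Adm G S)
    (x : ∀ i, XI M.k V E i) (e : E) (hs : Sum.inl (Sum.inl (G.s e)) ∈ S)
    (hr : Sum.inl (Sum.inl (G.r e)) ∈ S) (hz : Sum.inl (Sum.inr (e, false)) ∉ S)
    (f : (E → Bool) → ℝ) (ζ μ : Fin (M.k + 1)) :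
    ∑ o : Bool, cs (S ∪ blk e) (xb x e ζ μ o) (fun y => mW G M b l y * f (po y)) =
      (∑ o : Bool, cs (S ∪ blk e) (xb x e ζ μ o) (mW G M b l)) *
        Ps (fun o => bN G M b l S x e (fun _ => 1) o 0)
          (fun o => bN G M b l S x e (fun _ => 1) o 1 - bN G M b l S x e (fun _ => 1) o 0)
          (fun o => bN G M b l S x e f o 0)
          (fun o => bN G M b l S x e f o 1 - bN G M b l S x e f o 0)
          (rr G M b (pc (xb x e ζ μ false)) e) (tt G M b (pc (xb x e ζ μ false)) e) := by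
  have hmp := mW_pos G M hM b l hb
  obtain ⟨C, hC, h2⟩ := bx2 G M hM b l hb S hS x e hs hr hz
  have h1 := bx1 G M hM b l hb S hS x e hs hr hz f ζ μ
  have h3 := h2 ζ μ
  have hp : ∀ o, 0 < cs (S ∪ blk e) (xb x e ζ μ o) (mW G M b l) := fun o => cs_pos _ hmp _ _
  set w : ℝ := C * (M.nu ζ * Real.exp (l * M.cc ζ ^ 2) * M.nu μ *
    AA G M b (pc (xb x e ζ μ false)) e) with hw
  set r : ℝ := rr G M b (pc (xb x e ζ μ false)) e with hr'
  set t : ℝ := tt G M b (pc (xb x e ζ μ false)) e with ht'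
  have hf : cs (S ∪ blk e) (xb x e ζ μ false) (mW G M b l) =
      w * (1 - r) * bN G M b l S x e (fun _ => 1) false t := by
    have := h3 false
    simpa using this
  have htr : cs (S ∪ blk e) (xb x e ζ μ true) (mW G M b l) =
      w * r * bN G M b l S x e (fun _ => 1) true t := by
    have := h3 true
    simpa [b5_pc x e ζ μ true false] using this
  have hbf : bN G M b l S x e (fun _ => 1) false t ≠ 0 := by
    intro hc
    have := hp false
    rw [hf, hc, mul_zero] at this
    exact lt_irrefl _ this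
  have hbt : bN G M b l S x e (fun _ => 1) true t ≠ 0 := by
    intro hc
    have := hp true
    rw [htr, hc, mul_zero] at this
    exact lt_irrefl _ this
  have hnf : cs (S ∪ blk e) (xb x e ζ μ false) (fun y => mW G M b l y * f (po y)) =
      w * (1 - r) * bN G M b l S x e f false t := by
    have h4 := h1 false
    unfold ce at h4
    rw [div_eq_div_iff (hp false).ne' hbf, hf] at h4
    have h5 : cs (S ∪ blk e) (xb x e ζ μ false) (fun y => mW G M b l y * f (po y)) *
        bN G M b l S x e (fun _ => 1) false t =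
        (w * (1 - r) * bN G M b l S x e f false t) * bN G M b l S x e (fun _ => 1) false t := by
      rw [h4]; ring
    exact mul_right_cancel₀ hbf h5
  have hnt : cs (S ∪ blk e) (xb x e ζ μ true) (fun y => mW G M b l y * f (po y)) =
      w * r * bN G M b l S x e f true t := by
    have h4 := h1 true
    rw [b5_pc x e ζ μ true false] at h4
    unfold ce at h4
    rw [div_eq_div_iff (hp true).ne' hbt, htr] at h4
    have h5 : cs (S ∪ blk e) (xb x e ζ μ true) (fun y => mW G M b l y * f (po y)) *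
        bN G M b l S x e (fun _ => 1) true t =
        (w * r * bN G M b l S x e f true t) * bN G M b l S x e (fun _ => 1) true t := by
      rw [h4]
      show bN G M b l S x e f true t * _ = _
      ring
    exact mul_right_cancel₀ hbt h5
  have hden : 0 < (1 - r) * bN G M b l S x e (fun _ => 1) false t +
      r * bN G M b l S x e (fun _ => 1) true t := by
    have h6 := add_pos (hp false) (hp true)
    rw [hf, htr] at h6
    have h7 : 0 < w := by
      have h8 : 0 < AA G M b (pc (xb x e ζ μ false)) e := by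
        unfold AA
        exact Finset.prod_pos fun j _ => mul_pos (Real.cosh_pos _) (Real.cosh_pos _)
      exact mul_pos hC (mul_pos (mul_pos (mul_pos (hM.nu0 ζ) (Real.exp_pos _)) (hM.nu0 μ)) h8)
    have h9 : w * (1 - r) * bN G M b l S x e (fun _ => 1) false t +
        w * r * bN G M b l S x e (fun _ => 1) true t =
        w * ((1 - r) * bN G M b l S x e (fun _ => 1) false t +
          r * bN G M b l S x e (fun _ => 1) true t) := by ring
    rw [h9] at h6
    exact (pos_iff_pos_of_mul_pos h6).1 h7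
  rw [Fintype.sum_bool, Fintype.sum_bool, hnt, hnf, htr, hf]
  unfold Ps
  rw [← bN_aff G M b l S x e f false t, ← bN_aff G M b l S x e f true t,
    ← bN_aff G M b l S x e (fun _ => 1) false t, ← bN_aff G M b l S x e (fun _ => 1) true t]
  field_simp
  ring

theorem bp_low (b Λ : ℝ) (hb : 0 < b) (hΛ : 0 ≤ Λ) : ∃ κ : ℝ, 0 < κ ∧
    ∀ (V E : Type) [Fintype V] [DecidableEq V] [Fintype E] [DecidableEq E] (G : Gr V E),
      Deg4 G → ∀ (M : Al), M.Ok → ∀ l : ℝ, 0 ≤ l → l ≤ Λ → ∀ (f : (E → Bool) → ℝ), Monotone f →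
      (∀ o, 0 ≤ f o) → (∀ o, f o ≤ 1) → ∀ (S : Finset (SV V E ⊕ E)), Adm G S →
      ∀ (x : ∀ i, XI M.k V E i) (e : E),
      Sum.inl (Sum.inl (G.s e)) ∈ S → Sum.inl (Sum.inl (G.r e)) ∈ S →
      Sum.inl (Sum.inr (e, false)) ∉ S →
      κ * QB G M b l S x e f ≤
        ce (mW G M b l) (fun y => f (po y) * c2 M (Sum.inr (e, false)) y) S x -
          ce (mW G M b l) (fun y => f (po y)) S x * ce (mW G M b l) (c2 M (Sum.inr (e, false))) S x := by
  obtain ⟨c, hc, hcd⟩ := chr_diff b hb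
  obtain ⟨κ1, hκ1, hpsi1⟩ := blk_psi c (Real.tanh b) hc (Real.tanh_lt_one b)
  set p0 : ℝ := Real.exp (-(8 * b + Λ)) / 4 with hp0d
  have hp0 : 0 < p0 := by
    have := Real.exp_pos (-(8 * b + Λ))
    positivity
  refine ⟨7 / 25 * p0 ^ 3 * κ1, by positivity, ?_⟩
  intro V E _ _ _ _ G hG M hM l hl hlΛ f hf hf0 hf1 S hS x e hs hr hz
  have hmp := mW_pos G M hM b l hb
  have he : e ∉ sB S := by
    intro h
    rw [mem_sB] at h
    exact hz (hS.mm e (hS.bit e h))
  have hB := bN_ok G M hM b l hb S hS x e he f hf hf0 hf1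
  -- notation
  set d0 : Bool → ℝ := fun o => bN G M b l S x e (fun _ => 1) o 0 with hd0
  set d1 : Bool → ℝ := fun o => bN G M b l S x e (fun _ => 1) o 1 - bN G M b l S x e (fun _ => 1) o 0
    with hd1
  set n0 : Bool → ℝ := fun o => bN G M b l S x e f o 0 with hn0
  set n1 : Bool → ℝ := fun o => bN G M b l S x e f o 1 - bN G M b l S x e f o 0 with hn1
  set r : Fin (M.k + 1) → Fin (M.k + 1) → ℝ :=
    fun ζ μ => rr G M b (pc (xb x e ζ μ false)) e with hrdef
  set t : Fin (M.k + 1) → Fin (M.k + 1) → ℝ :=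
    fun ζ μ => tt G M b (pc (xb x e ζ μ false)) e with htdef
  set psi : Fin (M.k + 1) → Fin (M.k + 1) → ℝ := fun ζ μ => Ps d0 d1 n0 n1 (r ζ μ) (t ζ μ) with hpsid
  set a : Fin (M.k + 1) → Fin (M.k + 1) → ℝ :=
    fun ζ μ => ∑ o : Bool, cs (S ∪ blk e) (xb x e ζ μ o) (mW G M b l) with had
  have ha : ∀ ζ μ, 0 < a ζ μ := fun ζ μ =>
    Finset.sum_pos (fun o _ => cs_pos _ hmp _ _) ⟨true, Finset.mem_univ _⟩
  have hbd : ∀ ζ μ, 0 < r ζ μ ∧ r ζ μ < 1 ∧ 0 < t ζ μ ∧ t ζ μ < 1 := fun ζ μ =>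
    rr_bd G M hM b hb _ e
  have hmo : ∀ ζ ζ' μ μ', ζ ≤ ζ' → μ ≤ μ' → r ζ μ ≤ r ζ' μ' ∧ t ζ' μ' ≤ t ζ μ := fun ζ ζ' μ μ' h1 h2 =>
    rr_mono G M hM b hb _ _ (b5_mono x e ζ μ ζ' μ' false false h1 h2) e
  -- mass bounds
  have hZ : cs S x (mW G M b l) = ∑ ζ, ∑ μ, a ζ μ := bx3 G M S hS x e hz _
  have hZpos : 0 < cs S x (mW G M b l) := cs_pos _ hmp _ _
  have hmass : ∀ T : Finset (Fin (M.k + 1)), 1 / 4 ≤ ∑ c ∈ T, M.nu c →
      p0 * ∑ ζ, ∑ μ, a ζ μ ≤ ∑ ζ ∈ T, ∑ μ, a ζ μ := by
    intro T hT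
    have h1 := b5_fe G hG M hM b l Λ hb hl hlΛ S hS x (Sum.inr (e, false)) hz T hT
    rw [hZ] at h1
    refine h1.trans (le_of_eq ?_)
    have h2 : (fun y : (∀ i, XI M.k V E i) => mW G M b l y *
        (if pc y (Sum.inr (e, false)) ∈ T then (1 : ℝ) else 0)) =
        fun y => (fun a _ => if a ∈ T then (1 : ℝ) else 0) (pc y (Sum.inr (e, false)))
          (pc y (Sum.inr (e, true))) * mW G M b l y := by
      funext y
      exact mul_comm _ _
    rw [h2, b5_sum G M S hS x e hz (fun a _ => if a ∈ T then (1 : ℝ) else 0) (mW G M b l)]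
    rw [← Finset.sum_filter_add_sum_filter_not univ (fun ζ => ζ ∈ T)]
    have h3 : ∑ ζ ∈ univ.filter (fun ζ => ¬ ζ ∈ T), ∑ μ : Fin (M.k + 1),
        (if ζ ∈ T then (1 : ℝ) else 0) * ∑ o : Bool, cs (S ∪ blk e) (xb x e ζ μ o) (mW G M b l) = 0 := by
      refine Finset.sum_eq_zero fun ζ hζ => Finset.sum_eq_zero fun μ _ => ?_
      rw [if_neg (Finset.mem_filter.1 hζ).2, zero_mul]
    rw [h3, add_zero, Finset.filter_mem_eq_inter, Finset.univ_inter]
    refine Finset.sum_congr rfl fun ζ hζ => Finset.sum_congr rfl fun μ _ => ?_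
    rw [if_pos hζ, one_mul]
  have hadm' := b5_adm G S hS e hs hr
  have hmi : ∀ ζ, p0 * ∑ μ, a ζ μ ≤ ∑ μ ∈ M.mi, a ζ μ := by
    intro ζ
    have h1 := b5_fe G hG M hM b l Λ hb hl hlΛ (insert (Sum.inl (Sum.inr (e, false))) S) hadm'
      (Function.update x (Sum.inl (Sum.inr (e, false))) ζ) (Sum.inr (e, true))
      (by
        intro h
        rw [Finset.mem_insert] at h
        rcases h with h | h
        · exact absurd h (by simp)
        · exact hz (hS.mm e h)) M.mi hM.mi
    have h2 := b5_insm G M S hS x e hz ζ (fun _ => 1) (mW G M b l)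
    have h3 := b5_insm G M S hS x e hz ζ (fun μ => if μ ∈ M.mi then 1 else 0) (mW G M b l)
    simp only [mul_one] at h2
    rw [h2, h3] at h1
    refine h1.trans (le_of_eq ?_)
    simp only [mul_ite, mul_one, mul_zero]
    rw [← Finset.sum_filter, Finset.filter_mem_eq_inter, Finset.univ_inter]
  -- the stochastic monotonicity
  have hst : ∀ g : Fin (M.k + 1) → ℝ, Monotone g → ∀ ζ ζ', ζ ≤ ζ' →
      (∑ μ, a ζ μ * g μ) / ∑ μ, a ζ μ ≤ (∑ μ, a ζ' μ * g μ) / ∑ μ, a ζ' μ := by
    intro g hg ζ ζ' hζ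
    have h1 := mW_mon G M hM b l hb (insert (Sum.inl (Sum.inr (e, false))) S) hadm'
      (fun y => g (pc y (Sum.inr (e, true)))) (fun y y' h => hg (h (Sum.inl (Sum.inr (e, true)))))
      (Function.update x (Sum.inl (Sum.inr (e, false))) ζ)
      (Function.update x (Sum.inl (Sum.inr (e, false))) ζ') (by
        intro i _
        by_cases hi : i = Sum.inl (Sum.inr (e, false))
        · subst hi
          rw [Function.update_self, Function.update_self]
          exact hζ
        · rw [Function.update_of_ne hi, Function.update_of_ne hi])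
    unfold ce at h1
    have h2 := fun ζ => b5_insm G M S hS x e hz ζ (fun _ => 1) (mW G M b l)
    have h3 := fun ζ => b5_insm G M S hS x e hz ζ g (mW G M b l)
    simp only [mul_one] at h2
    rw [h2 ζ, h2 ζ'] at h1
    rw [h3 ζ, h3 ζ'] at h1
    exact h1
  -- monotonicity of psi
  have hps : ∀ ζ ζ' μ μ', ζ ≤ ζ' → μ ≤ μ' → psi ζ μ ≤ psi ζ' μ' := by
    intro ζ ζ' μ μ' h1 h2
    have h3 := hmo ζ ζ' μ μ' h1 h2
    exact Ps_mono d0 d1 n0 n1 hB (r ζ' μ') (r ζ μ) (t ζ' μ') (t ζ μ) (hbd ζ μ).1.le h3.1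
      (hbd ζ' μ').2.1 (hbd ζ' μ').2.2.1.le h3.2 (hbd ζ μ).2.2.2.le
  have hrch : ∀ ζ μ, r ζ μ = chr b (M.cc (pc x (Sum.inl (G.s e)))) (M.cc (pc x (Sum.inl (G.r e))))
      (M.cc ζ) (M.cc μ) := fun ζ μ => (rr_xb G M b x e ζ μ false).1
  have htch : ∀ ζ μ, t ζ μ = chr b (M.ss (pc x (Sum.inl (G.s e)))) (M.ss (pc x (Sum.inl (G.r e))))
      (M.ss ζ) (M.ss μ) := fun ζ μ => (rr_xb G M b x e ζ μ false).2
  have hrM : ∀ ζ μ, r ζ μ ≤ rM G M b x e ∧ rM G M b x e ≤ Real.tanh b := by
    intro ζ μ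
    have h1 := chr_le b (M.cc (pc x (Sum.inl (G.s e)))) (M.cc (pc x (Sum.inl (G.r e)))) (M.cc ζ)
      (M.cc μ) hb.le (hM.cc0 _).le (hM.cc1 _) (hM.cc0 _).le (hM.cc1 _) (hM.cc0 _).le (hM.cc1 _)
      (hM.cc0 _).le (hM.cc1 _)
    rw [hrch]
    exact h1.2
  have htM : ∀ ζ μ, t ζ μ ≤ tM G M b x e ∧ tM G M b x e ≤ Real.tanh b := by
    intro ζ μ
    have h1 := chr_le b (M.ss (pc x (Sum.inl (G.s e)))) (M.ss (pc x (Sum.inl (G.r e)))) (M.ss ζ)
      (M.ss μ) hb.le (hM.ss0 _).le (hM.ss1 _) (hM.ss0 _).le (hM.ss1 _) (hM.ss0 _).le (hM.ss1 _)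
      (hM.ss0 _).le (hM.ss1 _)
    rw [htch]
    exact h1.2
  have htM0 : 0 ≤ tM G M b x e := le_trans (hbd 0 0).2.2.1.le (htM 0 0).1
  have htM1 : tM G M b x e ≤ 1 := le_trans (htM 0 0).2 (Real.tanh_lt_one b).le
  have hrM0 : 0 ≤ rM G M b x e := le_trans (hbd 0 0).1.le (hrM 0 0).1
  have hd : ∀ ζ ∈ M.hi, ∀ ζ' ∈ M.lo, ∀ μ ∈ M.mi,
      κ1 * QB G M b l S x e f ≤ psi ζ μ - psi ζ' μ := by
    intro ζ hζ ζ' hζ' μ hμ
    unfold Al.hi at hζ
    unfold Al.lo at hζ'
    unfold Al.mi at hμ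
    have hζ1 := (Finset.mem_filter.1 hζ).2
    have hζ2 := (Finset.mem_filter.1 hζ').2
    have hμ1 := (Finset.mem_filter.1 hμ).2
    have hle : ζ' ≤ ζ := by
      by_contra hcon
      have h1 := hM.mono (lt_of_not_ge hcon).le
      linarith [hζ1.1, hζ2.1]
    have h3 := hmo ζ' ζ μ μ hle le_rfl
    refine hpsi1 d0 d1 n0 n1 hB (rM G M b x e) (tM G M b x e) (r ζ μ) (r ζ' μ) (t ζ μ) (t ζ' μ)
      (hrM ζ μ).2 htM0 htM1 (hbd ζ' μ).1.le h3.1 (hrM ζ μ).1 (hbd ζ μ).2.2.1.le h3.2 (htM ζ' μ).1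
      ?_ ?_
    · rw [hrch, hrch]
      exact hcd _ _ _ _ _ (hM.cc0 _).le (hM.cc1 _) (hM.cc0 _).le (hM.cc1 _) hζ1.1 (hM.cc1 _)
        (hM.cc0 _).le hζ2.1 hμ1.1 (hM.cc1 _)
    · rw [htch, htch]
      exact hcd _ _ _ _ _ (hM.ss0 _).le (hM.ss1 _) (hM.ss0 _).le (hM.ss1 _) hζ2.2 (hM.ss1 _)
        (hM.ss0 _).le hζ1.2 hμ1.2 (hM.ss1 _)
  have hQ0 : 0 ≤ QB G M b l S x e f := by
    show 0 ≤ Qfo d0 d1 n0 n1 (rM G M b x e) (tM G M b x e)
    unfold Qfo
    have h1 := hB.up 0 le_rfl zero_le_one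
    have h2 := hB.an false 0 (tM G M b x e) le_rfl htM0 htM1
    have h3 := mul_nonneg hrM0 (sub_nonneg.2 h1)
    linarith
  have hmain := blk_low a psi (fun ζ => M.cc ζ ^ 2) ha
    (fun ζ ζ' h => pow_le_pow_left₀ (hM.cc0 ζ).le (hM.mono h) 2) hps hst p0
    (κ1 * QB G M b l S x e f) hp0 (mul_nonneg hκ1.le hQ0) M.lo M.hi M.mi
    (by
      intro ζ hζ
      unfold Al.lo at hζ
      have h1 := (Finset.mem_filter.1 hζ).2.1
      have h2 := pow_le_pow_left₀ (hM.cc0 ζ).le h1 2
      show M.cc ζ ^ 2 ≤ 9 / 25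
      norm_num at h2 ⊢
      exact h2)
    (by
      intro ζ hζ
      unfold Al.hi at hζ
      have h1 := (Finset.mem_filter.1 hζ).2.1
      have h2 := pow_le_pow_left₀ (by norm_num) h1 2
      show 16 / 25 ≤ M.cc ζ ^ 2
      norm_num at h2 ⊢
      exact h2)
    (hmass _ hM.lo) (hmass _ hM.hi) hmi hd (cs S x (mW G M b l)) hZ
  have hpe : ∀ ζ μ, ∑ o : Bool, cs (S ∪ blk e) (xb x e ζ μ o) (fun y => mW G M b l y * f (po y)) =
      a ζ μ * psi ζ μ := fun ζ μ => b5_psi G M hM b l hb S hS x e hs hr hz f ζ μ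
  have e1 : cs S x (fun y => mW G M b l y * (f (po y) * c2 M (Sum.inr (e, false)) y)) =
      ∑ ζ, ∑ μ, a ζ μ * (psi ζ μ * M.cc ζ ^ 2) := by
    have h2 : (fun y : (∀ i, XI M.k V E i) => mW G M b l y * (f (po y) * c2 M (Sum.inr (e, false)) y)) =
        fun y => (fun z _ => M.cc z ^ 2) (pc y (Sum.inr (e, false)))
          (pc y (Sum.inr (e, true))) * (fun y => mW G M b l y * f (po y)) y := by
      funext y
      show mW G M b l y * (f (po y) * M.cc (pc y (Sum.inr (e, false))) ^ 2) =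
        M.cc (pc y (Sum.inr (e, false))) ^ 2 * (mW G M b l y * f (po y))
      ring
    rw [h2, b5_sum G M S hS x e hz (fun z _ => M.cc z ^ 2) (fun y => mW G M b l y * f (po y))]
    refine Finset.sum_congr rfl fun ζ _ => Finset.sum_congr rfl fun μ _ => ?_
    rw [hpe]
    ring
  have e2 : cs S x (fun y => mW G M b l y * f (po y)) = ∑ ζ, ∑ μ, a ζ μ * psi ζ μ := by
    rw [bx3 G M S hS x e hz]
    exact Finset.sum_congr rfl fun ζ _ => Finset.sum_congr rfl fun μ _ => hpe ζ μ
  have e3 : cs S x (fun y => mW G M b l y * c2 M (Sum.inr (e, false)) y) =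
      ∑ ζ, ∑ μ, a ζ μ * M.cc ζ ^ 2 := by
    have h2 : (fun y : (∀ i, XI M.k V E i) => mW G M b l y * c2 M (Sum.inr (e, false)) y) =
        fun y => (fun z _ => M.cc z ^ 2) (pc y (Sum.inr (e, false)))
          (pc y (Sum.inr (e, true))) * mW G M b l y := by
      funext y
      show mW G M b l y * M.cc (pc y (Sum.inr (e, false))) ^ 2 =
        M.cc (pc y (Sum.inr (e, false))) ^ 2 * mW G M b l y
      ring
    rw [h2, b5_sum G M S hS x e hz (fun z _ => M.cc z ^ 2) (mW G M b l)]
    exact Finset.sum_congr rfl fun ζ _ => Finset.sum_congr rfl fun μ _ => mul_comm _ _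
  have hfin : ce (mW G M b l) (fun y => f (po y) * c2 M (Sum.inr (e, false)) y) S x -
          ce (mW G M b l) (fun y => f (po y)) S x * ce (mW G M b l) (c2 M (Sum.inr (e, false))) S x =
      (∑ ζ, ∑ μ, a ζ μ * (psi ζ μ * M.cc ζ ^ 2)) / cs S x (mW G M b l) -
      (∑ ζ, ∑ μ, a ζ μ * psi ζ μ) / cs S x (mW G M b l) *
        ((∑ ζ, ∑ μ, a ζ μ * M.cc ζ ^ 2) / cs S x (mW G M b l)) := by
    unfold ce
    rw [e1, e2, e3]
  rw [hfin]
  refine le_trans (le_of_eq ?_) hmain
  ring

end H82.BX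

end S_H82_BX_BP5

section S_H82_BX_BP3

/-!
# BP3: the block estimate (assembly)

`∑_x m x |ce f (S ∪ blk e) x - ce f S x| = ∑_x (m x/cs S x m) cs S x (m |ce f (S ∪ blk e) · - ce f S x|)` (the exchange formula of OS1; `ce f S y = ce f S x` for `y = x` on `S`)
`≤ ∑_x m x 6 QB(x) ≤ (6/κ) ∑_x m x (conditional covariance of f and c2 given S at x) ≤ (6/κ) cv` (`bp_up`, `bp_low`, `mW_cov` with the increasing function `y ↦ f (po y)`).
-/

set_option autoImplicit false

open Finset MeasureTheory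

namespace H82.BX

open H82.IC

variable {V E : Type} [Fintype V] [DecidableEq V] [Fintype E] [DecidableEq E]

theorem block_est (b Λ : ℝ) (hb : 0 < b) (hΛ : 0 ≤ Λ) : ∃ K : ℝ, 0 < K ∧
    ∀ (V E : Type) [Fintype V] [DecidableEq V] [Fintype E] [DecidableEq E] (G : Gr V E),
      Deg4 G → ∀ (M : Al), M.Ok → ∀ l : ℝ, 0 ≤ l → l ≤ Λ → ∀ (f : (E → Bool) → ℝ), Monotone f →
      (∀ o, 0 ≤ f o) → (∀ o, f o ≤ 1) → ∀ (S : Finset (SV V E ⊕ E)), Adm G S → ∀ e : E,
      Sum.inl (Sum.inl (G.s e)) ∈ S → Sum.inl (Sum.inl (G.r e)) ∈ S →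
      Sum.inl (Sum.inr (e, false)) ∉ S →
      ∑ x, mW G M b l x * |ce (mW G M b l) (fun y => f (po y)) (S ∪ blk e) x -
          ce (mW G M b l) (fun y => f (po y)) S x| ≤
        K * cv G M b l (fun y => f (po y)) (Sum.inr (e, false)) := by
  obtain ⟨κ, hκ, hlow⟩ := bp_low b Λ hb hΛ
  refine ⟨6 / κ, by positivity, ?_⟩
  intro V E _ _ _ _ G hG M hM l hl0 hl f hf hf0 hf1 S hS e hs hr hz
  have hm : ∀ x, 0 < mW G M b l x := fun x => mW_pos G M hM b l hb x
  have h1 := ce_avg (mW G M b l)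
    (fun x => |ce (mW G M b l) (fun y => f (po y)) (S ∪ blk e) x -
      ce (mW G M b l) (fun y => f (po y)) S x|) (fun _ => 1) hm S (fun _ _ _ => rfl)
  simp only [mul_one] at h1
  rw [h1]
  have h2 : ∀ x, ce (mW G M b l) (fun x => |ce (mW G M b l) (fun y => f (po y)) (S ∪ blk e) x -
      ce (mW G M b l) (fun y => f (po y)) S x|) S x ≤
      6 / κ * (ce (mW G M b l) (fun y => f (po y) * c2 M (Sum.inr (e, false)) y) S x -
          ce (mW G M b l) (fun y => f (po y)) S x *
            ce (mW G M b l) (c2 M (Sum.inr (e, false))) S x) := by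
    intro x
    have h3 := bp_up G M hM b l hb f hf hf0 hf1 S hS x e hs hr hz
    have h4 := hlow V E G hG M hM l hl0 hl f hf hf0 hf1 S hS x e hs hr hz
    have h5 : cs S x (fun y => mW G M b l y * |ce (mW G M b l) (fun y => f (po y)) (S ∪ blk e) y -
        ce (mW G M b l) (fun y => f (po y)) S y|) =
        cs S x (fun y => mW G M b l y * |ce (mW G M b l) (fun y => f (po y)) (S ∪ blk e) y -
        ce (mW G M b l) (fun y => f (po y)) S x|) := by
      unfold cs
      refine Finset.sum_congr rfl fun y _ => ?_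
      split_ifs with h
      · dsimp only
        rw [ce_congr (mW G M b l) (fun y => f (po y)) S y x h]
      · rfl
    have h6 : ce (mW G M b l) (fun x => |ce (mW G M b l) (fun y => f (po y)) (S ∪ blk e) x -
        ce (mW G M b l) (fun y => f (po y)) S x|) S x ≤ 6 * QB G M b l S x e f := by
      have h7 : ce (mW G M b l) (fun x => |ce (mW G M b l) (fun y => f (po y)) (S ∪ blk e) x -
        ce (mW G M b l) (fun y => f (po y)) S x|) S x =
        cs S x (fun y => mW G M b l y * |ce (mW G M b l) (fun y => f (po y)) (S ∪ blk e) y -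
        ce (mW G M b l) (fun y => f (po y)) S x|) / cs S x (mW G M b l) := by
        rw [← h5]
        rfl
      rw [h7, div_le_iff₀ (cs_pos _ hm S x)]
      exact h3
    refine h6.trans ?_
    have h8 : QB G M b l S x e f ≤
        (ce (mW G M b l) (fun y => f (po y) * c2 M (Sum.inr (e, false)) y) S x -
          ce (mW G M b l) (fun y => f (po y)) S x *
            ce (mW G M b l) (c2 M (Sum.inr (e, false))) S x) / κ := by
      rw [le_div_iff₀ hκ, mul_comm]
      exact h4
    calc 6 * QB G M b l S x e f ≤ 6 *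
        ((ce (mW G M b l) (fun y => f (po y) * c2 M (Sum.inr (e, false)) y) S x -
          ce (mW G M b l) (fun y => f (po y)) S x *
            ce (mW G M b l) (c2 M (Sum.inr (e, false))) S x) / κ) :=
          mul_le_mul_of_nonneg_left h8 (by norm_num)
      _ = _ := by ring
  have hfm : Monotone (fun y : (∀ i, XI M.k V E i) => f (po y)) := by
    intro x y hxy
    exact hf (fun e' => hxy (Sum.inr e'))
  have h9 := mW_cov G M hM b l hb S hS (fun y => f (po y)) hfm (Sum.inr (e, false))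
  calc ∑ x, mW G M b l x * ce (mW G M b l)
        (fun x => |ce (mW G M b l) (fun y => f (po y)) (S ∪ blk e) x -
        ce (mW G M b l) (fun y => f (po y)) S x|) S x ≤
      ∑ x, mW G M b l x * (6 / κ *
        (ce (mW G M b l) (fun y => f (po y) * c2 M (Sum.inr (e, false)) y) S x -
          ce (mW G M b l) (fun y => f (po y)) S x *
            ce (mW G M b l) (c2 M (Sum.inr (e, false))) S x)) :=
        Finset.sum_le_sum fun x _ => mul_le_mul_of_nonneg_left (h2 x) (hm x).le
    _ = 6 / κ * ∑ x, mW G M b l x *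
        (ce (mW G M b l) (fun y => f (po y) * c2 M (Sum.inr (e, false)) y) S x -
          ce (mW G M b l) (fun y => f (po y)) S x *
            ce (mW G M b l) (c2 M (Sum.inr (e, false))) S x) := by
        rw [Finset.mul_sum]
        refine Finset.sum_congr rfl fun x _ => ?_
        ring
    _ ≤ _ := mul_le_mul_of_nonneg_left h9 (by positivity)

end H82.BX

end S_H82_BX_BP3

section S_H82_BX_INF

/-!
# INF: influences are bounded by covariances

* `i = inl w`, `w` a vertex or some `z_e`: for every `x`, `vertex_est` with `Y = Fin (k+1)`, `p = cp m S x i`, `F c = ce m f (insert i S) (update x i c)`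
  (monotone by `mW_mon`), `φ = cc²`, masses by `fin_en` (`cp_event`, `ce_EB`; `w ∉ sA S`), gives
  `infl m f S x i ≤ (100/p0) (ce (f c2_w) S x - ce f S x ce c2_w S x)` (`ce_step`); then average, `mW_cov`.
* `i = inl (inr (e, true))` (`m_e`): `insert i S` is admissible so `z_e ∈ S` and the ends of `e` are in `S`; the bit of `e` is not in `S`.  Let
  `S' = S.erase z_e` (admissible).  `os_infl`: `∑ m infl ≤ 2 ∑ m |ce (insert i S) - ce S|
  ≤ 2 ∑ m (|ce (insert i S) - ce S'| + |ce S - ce S'|) ≤ 4 ∑ m |ce (S' ∪ blk e) - ce S'|` (`os_jensen` twice), `block_est` for `S'`.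
* `i = inr e`: `z_e, m_e ∈ S`; `S' = (S.erase m_e).erase z_e`; the same.
-/

set_option autoImplicit false

open Finset MeasureTheory

namespace H82.BX

open H82.IC
section general
variable {I : Type} [Fintype I] [DecidableEq I] {X : I → Type} [∀ i, Fintype (X i)]
  [∀ i, LinearOrder (X i)]

theorem inf_mulc (m f φ : (∀ i, X i) → ℝ) (A : Finset I) (x : ∀ i, X i)
    (h : ∀ y, (∀ i ∈ A, y i = x i) → φ y = φ x) :
    ce m (fun y => f y * φ y) A x = ce m f A x * φ x := by
  have h1 : cs A x (fun y => m y * (f y * φ y)) = cs A x (fun y => m y * f y) * φ x := by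
    unfold cs
    rw [Finset.sum_mul]
    refine Finset.sum_congr rfl fun y _ => ?_
    by_cases ha : ∀ i ∈ A, y i = x i
    · rw [if_pos ha, if_pos ha]
      show m y * (f y * φ y) = m y * f y * φ x
      rw [h y ha]
      ring
    · rw [if_neg ha, if_neg ha, zero_mul]
  unfold ce
  rw [h1]
  ring

theorem inf_blk (m f : (∀ i, X i) → ℝ) (hm : ∀ x, 0 < m x) (S' S T : Finset I) (i : I) (hi : i ∉ S)
    (h1 : S' ⊆ S) (h2 : insert i S ⊆ T) :
    ∑ x, m x * infl m f S x i ≤ 4 * ∑ x, m x * |ce m f T x - ce m f S' x| := by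
  have hST : S ⊆ T := fun j hj => h2 (Finset.mem_insert_of_mem hj)
  have a1 := os_infl m f hm S i hi
  have a2 := os_jensen m f hm S' (insert i S) T (fun j hj => Finset.mem_insert_of_mem (h1 hj)) h2
  have a3 := os_jensen m f hm S' S T h1 hST
  have a4 : ∑ x, m x * |ce m f (insert i S) x - ce m f S x| ≤
      ∑ x, m x * |ce m f (insert i S) x - ce m f S' x| +
        ∑ x, m x * |ce m f S x - ce m f S' x| := by
    rw [← Finset.sum_add_distrib]
    refine Finset.sum_le_sum fun x _ => ?_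
    rw [← mul_add]
    refine mul_le_mul_of_nonneg_left ?_ (hm x).le
    have h3 := abs_sub_le (ce m f (insert i S) x) (ce m f S' x) (ce m f S x)
    rw [abs_sub_comm (ce m f S' x)] at h3
    exact h3
  linarith

end general

theorem inf_lo (M : Al) (c : Fin (M.k + 1)) (hc : c ∈ M.lo) : M.cc c ≤ 3 / 5 := by
  classical
  unfold Al.lo at hc
  exact (Finset.mem_filter.1 hc).2.1

theorem inf_hi (M : Al) (c : Fin (M.k + 1)) (hc : c ∈ M.hi) : 4 / 5 ≤ M.cc c := by
  classical
  unfold Al.hi at hc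
  exact (Finset.mem_filter.1 hc).2.1

section mod
variable {V E : Type} [Fintype V] [DecidableEq V] [Fintype E] [DecidableEq E]

omit [Fintype V] [DecidableEq V] [Fintype E] [DecidableEq E] in
theorem inf_c2mono (M : Al) (hM : M.Ok) (w : SV V E) : Monotone (c2 M w : (∀ i, XI M.k V E i) → ℝ) := by
  intro x y h
  unfold c2
  have h1 : pc x w ≤ pc y w := h (Sum.inl w)
  exact pow_le_pow_left₀ (hM.cc0 _).le (hM.mono h1) 2

omit [Fintype V] [DecidableEq V] [Fintype E] [DecidableEq E] in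
theorem inf_fmono {k : ℕ} (f : (E → Bool) → ℝ) (hf : Monotone f) :
    Monotone (fun y : (∀ i, XI k V E i) => f (po y)) := by
  intro x y h
  exact hf (fun e => h (Sum.inr e))

theorem inf_cv0 (G : Gr V E) (M : Al) (hM : M.Ok) (b l : ℝ) (hb : 0 < b) (f : (∀ i, XI M.k V E i) → ℝ)
    (hf : Monotone f) (w : SV V E) : 0 ≤ cv G M b l f w := by
  unfold cv
  have h := mW_asc G M hM b l hb f (c2 M w) hf (inf_c2mono M hM w)
  linarith

/-- mass of a set of letters, given an admissible set. -/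
theorem inf_mass (G : Gr V E) (hG : Deg4 G) (M : Al) (hM : M.Ok) (b l Λ : ℝ) (hb : 0 < b) (hl : 0 ≤ l)
    (hlΛ : l ≤ Λ) (S : Finset (SV V E ⊕ E)) (hS : Adm G S) (w : SV V E) (hw : Sum.inl w ∉ S)
    (x : ∀ i, XI M.k V E i) (s : Finset (Fin (M.k + 1))) (hs : 1 / 4 ≤ ∑ v ∈ s, M.nu v) :
    Real.exp (-(8 * b + Λ)) / 4 ≤ ∑ c ∈ s, cp (mW G M b l) S x (Sum.inl w) c := by
  have h1 := cp_event (mW G M b l) (fun x => mW_pos G M hM b l hb x) S x (Sum.inl w) hw s
  have h2 : ∑ c ∈ s, cp (mW G M b l) S x (Sum.inl w) c =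
      ce (mW G M b l) (fun z => if pc z w ∈ s then 1 else 0) S x := h1
  rw [h2, ce_EB G M hM b l hb S hS]
  have h3 := fin_en G hG M hM b l hb hl (sA S) (sB S) (by
      intro e he
      rw [mem_sB] at he
      have a1 := hS.bit e he
      have a2 := hS.mm e a1
      have a3 := hS.zz e a2
      exact ⟨(mem_sA S _).2 a3.1, (mem_sA S _).2 a3.2, (mem_sA S _).2 a2, (mem_sA S _).2 a1⟩)
    (tt G M b (pc x)) (fun e _ => (rr_bd G M hM b hb (pc x) e).2.2.1.le)
    (fun e _ => (rr_bd G M hM b hb (pc x) e).2.2.2.le) (pc x) (po x) w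
    (fun h => hw ((mem_sA S _).1 h)) s
  refine le_trans ?_ h3
  have h4 : Real.exp (-(8 * b + Λ)) ≤ Real.exp (-(8 * b + l)) := by
    apply Real.exp_le_exp.2
    linarith
  have h5 := Real.exp_pos (-(8 * b + Λ))
  have h6 := Real.exp_pos (-(8 * b + l))
  nlinarith

theorem inf_vert (G : Gr V E) (hG : Deg4 G) (M : Al) (hM : M.Ok) (b l Λ : ℝ) (hb : 0 < b) (hl : 0 ≤ l)
    (hlΛ : l ≤ Λ) (f : (∀ i, XI M.k V E i) → ℝ) (hf : Monotone f) (S : Finset (SV V E ⊕ E))
    (hS : Adm G S) (w : SV V E) (hw : Sum.inl w ∉ S) (hiS : Adm G (insert (Sum.inl w) S)) :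
    ∑ x, mW G M b l x * infl (mW G M b l) f S x (Sum.inl w) ≤
      100 / (Real.exp (-(8 * b + Λ)) / 4) * cv G M b l f w := by
  have hm : ∀ x, 0 < mW G M b l x := fun x => mW_pos G M hM b l hb x
  have hp0 : 0 < Real.exp (-(8 * b + Λ)) / 4 := by positivity
  obtain ⟨p0, hp0e⟩ : ∃ p0 : ℝ, p0 = Real.exp (-(8 * b + Λ)) / 4 := ⟨_, rfl⟩
  rw [← hp0e] at hp0 ⊢
  have key : ∀ x, infl (mW G M b l) f S x (Sum.inl w) ≤ 100 / p0 *
      (ce (mW G M b l) (fun y => f y * c2 M w y) S x -
        ce (mW G M b l) f S x * ce (mW G M b l) (c2 M w) S x) := by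
    intro x
    have hF : ∀ c c' : XI M.k V E (Sum.inl w), c ≤ c' →
        ce (mW G M b l) f (insert (Sum.inl w) S) (Function.update x (Sum.inl w) c) ≤
          ce (mW G M b l) f (insert (Sum.inl w) S) (Function.update x (Sum.inl w) c') := by
      intro c c' hcc
      refine mW_mon G M hM b l hb (insert (Sum.inl w) S) hiS f hf _ _ ?_
      intro j _
      by_cases e : j = Sum.inl w
      · subst e
        rw [Function.update_self, Function.update_self]
        exact hcc
      · rw [Function.update_of_ne e, Function.update_of_ne e]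
    have h0 := vertex_est (Y := XI M.k V E (Sum.inl w)) (fun c => cp (mW G M b l) S x (Sum.inl w) c)
      (fun c => ce (mW G M b l) f (insert (Sum.inl w) S) (Function.update x (Sum.inl w) c))
      (fun c => M.cc c ^ 2) (fun c => cp_nonneg (mW G M b l) hm S x (Sum.inl w) c)
      (cp_sum (mW G M b l) hm S x (Sum.inl w) hw)
      (fun c c' h => hF c c' h)
      (fun c c' h => pow_le_pow_left₀ (hM.cc0 _).le (hM.mono h) 2) p0 hp0 M.lo M.hi
      (by
        intro c hc
        have h1 := inf_lo M c hc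
        have h2 := hM.cc0 c
        show M.cc c ^ 2 ≤ 9 / 25
        nlinarith)
      (by
        intro c hc
        have h1 := inf_hi M c hc
        show 16 / 25 ≤ M.cc c ^ 2
        nlinarith)
      (by rw [hp0e]; exact inf_mass G hG M hM b l Λ hb hl hlΛ S hS w hw x M.lo hM.lo)
      (by rw [hp0e]; exact inf_mass G hG M hM b l Λ hb hl hlΛ S hS w hw x M.hi hM.hi)
    have hc2 : ∀ c : XI M.k V E (Sum.inl w), ∀ y : (∀ i, XI M.k V E i),
        (∀ j ∈ insert (Sum.inl w) S, y j = Function.update x (Sum.inl w) c j) →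
        c2 M w y = c2 M w (Function.update x (Sum.inl w) c) := by
      intro c y hy
      unfold c2
      have h1 : pc y w = pc (Function.update x (Sum.inl w) c) w :=
        hy _ (Finset.mem_insert_self _ _)
      rw [h1]
    have hc2v : ∀ c : XI M.k V E (Sum.inl w),
        c2 M w (Function.update x (Sum.inl w) c) = M.cc c ^ 2 := by
      intro c
      have h1 : pc (Function.update x (Sum.inl w) c) w = c :=
        Function.update_self (Sum.inl w) c x
      unfold c2
      rw [h1]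
    have e1 := ce_step (mW G M b l) f hm S x (Sum.inl w) hw
    have e2 := ce_step (mW G M b l) (c2 M w) hm S x (Sum.inl w) hw
    have e3 := ce_step (mW G M b l) (fun y => f y * c2 M w y) hm S x (Sum.inl w) hw
    have e2' : ∑ c : XI M.k V E (Sum.inl w), cp (mW G M b l) S x (Sum.inl w) c * M.cc c ^ 2 =
        ce (mW G M b l) (c2 M w) S x := by
      rw [← e2]
      refine Finset.sum_congr rfl fun c _ => ?_
      rw [ce_const _ _ hm _ _ (hc2 c), hc2v c]
    have e3' : ∑ c : XI M.k V E (Sum.inl w), cp (mW G M b l) S x (Sum.inl w) c *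
        (ce (mW G M b l) f (insert (Sum.inl w) S) (Function.update x (Sum.inl w) c) *
          M.cc c ^ 2) = ce (mW G M b l) (fun y => f y * c2 M w y) S x := by
      rw [← e3]
      refine Finset.sum_congr rfl fun c _ => ?_
      rw [inf_mulc _ _ _ _ _ (hc2 c), hc2v c]
    rw [← e1, ← e2', ← e3']
    exact h0
  calc ∑ x, mW G M b l x * infl (mW G M b l) f S x (Sum.inl w)
      ≤ ∑ x, mW G M b l x * (100 / p0 * (ce (mW G M b l) (fun y => f y * c2 M w y) S x -
          ce (mW G M b l) f S x * ce (mW G M b l) (c2 M w) S x)) :=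
        Finset.sum_le_sum fun x _ => mul_le_mul_of_nonneg_left (key x) (hm x).le
    _ = 100 / p0 * ∑ x, mW G M b l x * (ce (mW G M b l) (fun y => f y * c2 M w y) S x -
          ce (mW G M b l) f S x * ce (mW G M b l) (c2 M w) S x) := by
        rw [Finset.mul_sum]
        refine Finset.sum_congr rfl fun x _ => ?_
        ring
    _ ≤ 100 / p0 * cv G M b l f w :=
        mul_le_mul_of_nonneg_left (mW_cov G M hM b l hb S hS f hf w) (by positivity)

end mod

theorem infl_bound (b Λ : ℝ) (hb : 0 < b) (hΛ : 0 ≤ Λ) : ∃ K : ℝ, 0 < K ∧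
    ∀ (V E : Type) [Fintype V] [DecidableEq V] [Fintype E] [DecidableEq E] (G : Gr V E),
      Deg4 G → ∀ (M : Al), M.Ok → ∀ l : ℝ, 0 ≤ l → l ≤ Λ → ∀ (f : (E → Bool) → ℝ), Monotone f →
      (∀ o, 0 ≤ f o) → (∀ o, f o ≤ 1) → ∀ (S : Finset (SV V E ⊕ E)) (i : SV V E ⊕ E), Adm G S →
      i ∉ S → Adm G (insert i S) →
      ∑ x, mW G M b l x * infl (mW G M b l) (fun y => f (po y)) S x i ≤
        K * cv G M b l (fun y => f (po y)) (pin i) := by
  obtain ⟨K1, hK1, hblk⟩ := block_est b Λ hb hΛ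
  refine ⟨100 / (Real.exp (-(8 * b + Λ)) / 4) + 4 * K1, by positivity, ?_⟩
  intro V E _ _ _ _ G hG M hM l hl hlΛ f hf hf0 hf1 S i hS hi hiS
  have hm : ∀ x, 0 < mW G M b l x := fun x => mW_pos G M hM b l hb x
  have hfm := inf_fmono (V := V) (k := M.k) f hf
  have hcv := inf_cv0 G M hM b l hb (fun y => f (po y)) hfm (pin i)
  have hp0 : 0 < 100 / (Real.exp (-(8 * b + Λ)) / 4) := by positivity
  -- the vertex case
  have hvert : ∀ w : SV V E, i = Sum.inl w → pin i = w →
      ∑ x, mW G M b l x * infl (mW G M b l) (fun y => f (po y)) S x i ≤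
        (100 / (Real.exp (-(8 * b + Λ)) / 4) + 4 * K1) *
          cv G M b l (fun y => f (po y)) (pin i) := by
    intro w hw hpin
    subst hw
    have h1 := inf_vert G hG M hM b l Λ hb hl hlΛ (fun y => f (po y)) hfm S hS w hi hiS
    rw [hpin] at hcv ⊢
    have h2 := mul_nonneg hK1.le hcv
    linarith
  -- the block case
  have hblock : ∀ (e : E) (S' : Finset (SV V E ⊕ E)), pin i = Sum.inr (e, false) → S' ⊆ S →
      insert i S ⊆ S' ∪ blk e → Adm G S' → Sum.inl (Sum.inl (G.s e)) ∈ S' →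
      Sum.inl (Sum.inl (G.r e)) ∈ S' → Sum.inl (Sum.inr (e, false)) ∉ S' →
      ∑ x, mW G M b l x * infl (mW G M b l) (fun y => f (po y)) S x i ≤
        (100 / (Real.exp (-(8 * b + Λ)) / 4) + 4 * K1) *
          cv G M b l (fun y => f (po y)) (pin i) := by
    intro e S' hpin h1 h2 hA hs hr hz
    have a1 := inf_blk (mW G M b l) (fun y => f (po y)) hm S' S (S' ∪ blk e) i hi h1 h2
    have a2 := hblk V E G hG M hM l hl hlΛ f hf hf0 hf1 S' hA e hs hr hz
    rw [hpin] at hcv ⊢
    have h3 := mul_nonneg hp0.le hcv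
    linarith
  rcases i with w | e
  · rcases w with v | ⟨e, q⟩
    · exact hvert _ rfl rfl
    · cases q
      · exact hvert _ rfl rfl
      · -- `m_e`
        have hz1 : Sum.inl (Sum.inr (e, false)) ∈ S := by
          have h1 := hiS.mm e (Finset.mem_insert_self _ _)
          rcases Finset.mem_insert.1 h1 with h2 | h2
          · simp at h2
          · exact h2
        have hzz := hS.zz e hz1
        have hb0 : Sum.inr e ∉ S := fun h => hi (hS.bit e h)
        refine hblock e (S.erase (Sum.inl (Sum.inr (e, false)))) rfl (Finset.erase_subset _ _) ?_ ?_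
          (Finset.mem_erase.2 ⟨by simp, hzz.1⟩) (Finset.mem_erase.2 ⟨by simp, hzz.2⟩)
          (Finset.notMem_erase _ _)
        · intro j hj
          rcases Finset.mem_insert.1 hj with h | h
          · subst h
            exact Finset.mem_union_right _ (by simp [blk])
          · by_cases hjz : j = Sum.inl (Sum.inr (e, false))
            · subst hjz
              exact Finset.mem_union_right _ (by simp [blk])
            · exact Finset.mem_union_left _ (Finset.mem_erase.2 ⟨hjz, h⟩)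
        · refine ⟨?_, ?_, ?_⟩
          · intro e' he'
            exact Finset.mem_erase.2 ⟨by simp, hS.bit e' (Finset.mem_of_mem_erase he')⟩
          · intro e' he'
            have h1 := Finset.mem_of_mem_erase he'
            refine Finset.mem_erase.2 ⟨?_, hS.mm e' h1⟩
            intro h2
            have h3 : e' = e := by simpa using h2
            rw [h3] at h1
            exact hi h1
          · intro e' he'
            have h1 := hS.zz e' (Finset.mem_of_mem_erase he')
            exact ⟨Finset.mem_erase.2 ⟨by simp, h1.1⟩, Finset.mem_erase.2 ⟨by simp, h1.2⟩⟩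
  · -- the bit
    have hm1 : Sum.inl (Sum.inr (e, true)) ∈ S := by
      have h1 := hiS.bit e (Finset.mem_insert_self _ _)
      rcases Finset.mem_insert.1 h1 with h2 | h2
      · simp at h2
      · exact h2
    have hz1 := hS.mm e hm1
    have hzz := hS.zz e hz1
    refine hblock e ((S.erase (Sum.inl (Sum.inr (e, true)))).erase (Sum.inl (Sum.inr (e, false)))) rfl
      ((Finset.erase_subset _ _).trans (Finset.erase_subset _ _)) ?_ ?_
      (Finset.mem_erase.2 ⟨by simp, Finset.mem_erase.2 ⟨by simp, hzz.1⟩⟩)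
      (Finset.mem_erase.2 ⟨by simp, Finset.mem_erase.2 ⟨by simp, hzz.2⟩⟩)
      (Finset.notMem_erase _ _)
    · intro j hj
      rcases Finset.mem_insert.1 hj with h | h
      · subst h
        exact Finset.mem_union_right _ (by simp [blk])
      · by_cases hjz : j = Sum.inl (Sum.inr (e, false))
        · subst hjz
          exact Finset.mem_union_right _ (by simp [blk])
        · by_cases hjm : j = Sum.inl (Sum.inr (e, true))
          · subst hjm
            exact Finset.mem_union_right _ (by simp [blk])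
          · exact Finset.mem_union_left _ (Finset.mem_erase.2 ⟨hjz, Finset.mem_erase.2 ⟨hjm, h⟩⟩)
    · refine ⟨?_, ?_, ?_⟩
      · intro e' he'
        have h1 := Finset.mem_of_mem_erase (Finset.mem_of_mem_erase he')
        refine Finset.mem_erase.2 ⟨by simp, Finset.mem_erase.2 ⟨?_, hS.bit e' h1⟩⟩
        intro h2
        have h3 : e' = e := by simpa using h2
        rw [h3] at h1
        exact hi h1
      · intro e' he'
        have h0 := Finset.mem_of_mem_erase he'
        have h1 := Finset.mem_of_mem_erase h0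
        have h4 : e' ≠ e := by
          intro h3
          rw [h3] at h0
          exact Finset.notMem_erase _ _ h0
        refine Finset.mem_erase.2 ⟨?_, Finset.mem_erase.2 ⟨by simp, hS.mm e' h1⟩⟩
        intro h2
        have h3 : e' = e := by simpa using h2
        exact h4 h3
      · intro e' he'
        have h1 := hS.zz e' (Finset.mem_of_mem_erase (Finset.mem_of_mem_erase he'))
        exact ⟨Finset.mem_erase.2 ⟨by simp, Finset.mem_erase.2 ⟨by simp, h1.1⟩⟩,
          Finset.mem_erase.2 ⟨by simp, Finset.mem_erase.2 ⟨by simp, h1.2⟩⟩⟩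

end H82.BX

end S_H82_BX_INF

section S_H82_BX_DIF

/-!
# DIF: the differential inequality on the torus

`f(x) = ind (armT n 0 (po x))` (increasing, in `{0,1}`), `1 ≤ n`, `1 ≤ k ≤ n`, seeds `Sd_k = {u | td u = k}`.  `osss` with `m = mW`, `Ad = Adm`, `nx = nxS Sd_k`
(`nx_legal`, `mW_mon`, `det_conn` with `sep_torus`), `c i = K cv (pin i)` (`infl_bound`):
`f_n - f_n² ≤ K ∑_i δ_i^k cv(pin i)`, `δ_i^k ≤ ∑_u P(u ↔ Sd_k)`, the sum over the at most `5` vertices `u` which are ends of an edge `e` with `toE i e`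
(`rev_touch`; for `i = inl (inl v)`: `v` and its four neighbours; otherwise the two ends of `e`), and
`P(u ↔ Sd_k) ≤ P(armT |k - td u| u) = f_{|k - td u|}` (`arm_le`, `fT_tr`).
`∑_{k=1}^n f_{|k-d|} ≤ 2 S_n` (`f` is nonincreasing in the index: for `1 ≤ d ≤ n` each value `j = |k-d| ≤ n-1` is taken at most twice; for `d = 0`: `∑_{k=1}^n f_k ≤ S_n`; for `d > n`:
`f_{d-k} ≤ f_{n-k}`).  Sum over `k`: `n (f_n - f_n²) ≤ 10 K S_n ∑_i cv(pin i) ≤ 30 K S_n ∑_w pn w cv(w) = 30 K S_n f_n'` (`EW_deriv`; `pin` takes each `inl v` once and each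
`z_e` three times).  `1 - f_n ≥ 1 - f_1 ≥ ((1 - tanh b)/4)^4` (`cls`: if all edges at `0` are closed there is no arm of length `≥ 1`).
For `n = 0` the inequality `ineq` is trivial (`S_0 = 0`, `n = 0`).  The other fields of `DR`: `f_0 = 1` (`u = 0`), monotone in `n`, monotone in `l` (nonnegative derivative: `cv_nonneg`).
-/

set_option autoImplicit false

open Finset MeasureTheory

namespace H82.BX

open H82.IC

private theorem ind_t {p : Prop} (h : p) : ind p = 1 := by unfold ind; rw [if_pos h]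
private theorem ind_f {p : Prop} (h : ¬ p) : ind p = 0 := by unfold ind; rw [if_neg h]
private theorem ind_nn (p : Prop) : 0 ≤ ind p := by unfold ind; split_ifs <;> norm_num
private theorem ind_l1 (p : Prop) : ind p ≤ 1 := by unfold ind; split_ifs <;> norm_num
private theorem ind_mo {p q : Prop} (h : p → q) : ind p ≤ ind q := by
  by_cases hp : p
  · rw [ind_t hp, ind_t (h hp)]
  · rw [ind_f hp]; exact ind_nn q
private theorem ind_sq (p : Prop) : ind p ^ 2 = ind p := by
  by_cases hp : p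
  · rw [ind_t hp]; norm_num
  · rw [ind_f hp]; norm_num

/-- sum along an injection into `range n`. -/
private theorem sum_inj_le (n : ℕ) (S : Finset ℕ) (φ : ℕ → ℕ) (F : ℕ → ℝ) (hF : ∀ j, 0 ≤ F j)
    (hinj : ∀ x ∈ S, ∀ y ∈ S, φ x = φ y → x = y) (hr : ∀ x ∈ S, φ x < n) :
    ∑ k ∈ S, F (φ k) ≤ ∑ j ∈ range n, F j := by
  classical
  rw [← Finset.sum_image (g := φ) (f := F) (by
    intro x hx y hy hxy; exact hinj x hx y hy hxy)]
  refine Finset.sum_le_sum_of_subset_of_nonneg ?_ (fun j _ _ => hF j)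
  intro j hj
  obtain ⟨x, hx, rfl⟩ := Finset.mem_image.1 hj
  exact Finset.mem_range.2 (hr x hx)

/-- sums over the distances. -/
private theorem dist_sum (n d : ℕ) (F : ℕ → ℝ) (hF : ∀ j, 0 ≤ F j) (hA : Antitone F) :
    ∑ k ∈ Icc 1 n, F (Nat.dist k d) ≤ 2 * ∑ j ∈ range n, F j := by
  classical
  rw [← Finset.sum_filter_add_sum_filter_not (Icc 1 n) (fun k => k ≤ d)]
  have h1 : ∑ k ∈ (Icc 1 n).filter (fun k => k ≤ d), F (Nat.dist k d) ≤ ∑ j ∈ range n, F j := by
    refine (Finset.sum_le_sum (g := fun k => F (min d n - k)) fun k hk => ?_).trans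
      (sum_inj_le n _ (fun k => min d n - k) F hF ?_ ?_)
    · have hk' := Finset.mem_filter.1 hk
      refine hA ?_
      rw [Nat.dist_eq_sub_of_le hk'.2]
      have := min_le_left d n
      omega
    · intro x hx y hy hxy
      rw [Finset.mem_filter, Finset.mem_Icc] at hx hy
      have hx2 : x ≤ min d n := le_min hx.2 hx.1.2
      have hy2 : y ≤ min d n := le_min hy.2 hy.1.2
      omega
    · intro x hx
      rw [Finset.mem_filter, Finset.mem_Icc] at hx
      have := min_le_right d n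
      show min d n - x < n
      omega
  have h2 : ∑ k ∈ (Icc 1 n).filter (fun k => ¬ k ≤ d), F (Nat.dist k d) ≤ ∑ j ∈ range n, F j := by
    refine (Finset.sum_le_sum (g := fun k => F (k - d - 1)) fun k hk => ?_).trans
      (sum_inj_le n _ (fun k => k - d - 1) F hF ?_ ?_)
    · have hk' := Finset.mem_filter.1 hk
      refine hA ?_
      rw [Nat.dist_eq_sub_of_le_right (by omega)]
      omega
    · intro x hx y hy hxy
      rw [Finset.mem_filter, Finset.mem_Icc] at hx hy
      omega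
    · intro x hx
      rw [Finset.mem_filter, Finset.mem_Icc] at hx
      show x - d - 1 < n
      omega
  linarith

section gen
variable {V E : Type} [Fintype V] [DecidableEq V] [Fintype E] [DecidableEq E]

private theorem Zpos (G : Gr V E) (M : Al) (hM : M.Ok) (b l : ℝ) (hb : 0 < b) :
    0 < ∑ c, ∑ o, W G M b l c o := by
  have h1 := mW_sum G M hM b l hb
  by_contra hcon
  push Not at hcon
  have hx : ∀ x : (∀ i, XI M.k V E i), 0 < mW G M b l x := mW_pos G M hM b l hb
  obtain ⟨x⟩ : Nonempty (∀ i, XI M.k V E i) := inferInstance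
  have h2 := hx x
  unfold mW at h2
  have hW := W_pos G M hM b l hb (pc x) (po x)
  have h3 : W G M b l (pc x) (po x) / ∑ c, ∑ o, W G M b l c o ≤ 0 :=
    div_nonpos_of_nonneg_of_nonpos hW.le hcon
  linarith

private theorem EW_eq (G : Gr V E) (M : Al) (hM : M.Ok) (b l : ℝ) (hb : 0 < b)
    (f : (E → Bool) → ℝ) : EW G M b l (fun _ o => f o) = ∑ x, mW G M b l x * f (po x) :=
  (mW_EW G M hM b l hb (fun _ o => f o)).symm

private theorem EW_mo (G : Gr V E) (M : Al) (hM : M.Ok) (b l : ℝ) (hb : 0 < b)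
    (f g : (E → Bool) → ℝ) (h : ∀ o, f o ≤ g o) :
    EW G M b l (fun _ o => f o) ≤ EW G M b l (fun _ o => g o) := by
  rw [EW_eq G M hM b l hb, EW_eq G M hM b l hb]
  exact Finset.sum_le_sum fun x _ => mul_le_mul_of_nonneg_left (h _) (mW_pos G M hM b l hb x).le

private theorem EW_c1 (G : Gr V E) (M : Al) (hM : M.Ok) (b l : ℝ) (hb : 0 < b) :
    EW G M b l (fun _ _ => 1) = 1 := by
  have := EW_eq G M hM b l hb (fun _ => 1)
  simp only [mul_one] at this
  rw [this]
  exact mW_sum G M hM b l hb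

private theorem EW_sub (G : Gr V E) (M : Al) (hM : M.Ok) (b l : ℝ) (hb : 0 < b)
    (f : (E → Bool) → ℝ) :
    EW G M b l (fun _ o => 1 - f o) = 1 - EW G M b l (fun _ o => f o) := by
  rw [EW_eq G M hM b l hb (fun o => 1 - f o), EW_eq G M hM b l hb f]
  simp only [mul_sub, mul_one, Finset.sum_sub_distrib]
  rw [mW_sum G M hM b l hb]

/-- number of edges of a coordinate. -/
private theorem card_toE (G : Gr V E) (hG : Deg4 G) (D : SV V E → ℝ) (hD : ∀ w, 0 ≤ D w) :
    ∑ i : SV V E ⊕ E, (open Classical in ((univ.filter (fun e => toE G i e)).card : ℝ)) * D (pin i) ≤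
      4 * ∑ w, pn w * D w := by
  classical
  rw [Fintype.sum_sum_type, Fintype.sum_sum_type]
  have hw : ∑ w : SV V E, pn w * D w = ∑ v, D (Sum.inl v) + ∑ e, D (Sum.inr (e, false)) := by
    rw [Fintype.sum_sum_type, Fintype.sum_prod_type]
    congr 1
    · exact Finset.sum_congr rfl fun v _ => by simp [pn]
    · refine Finset.sum_congr rfl fun e _ => ?_
      simp [pn]
  rw [hw]
  have h1 : ∑ v : V, ((univ.filter (fun e => toE G (Sum.inl (Sum.inl v)) e)).card : ℝ) *
      D (pin (Sum.inl (Sum.inl v) : SV V E ⊕ E)) ≤ 4 * ∑ v, D (Sum.inl v) := by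
    rw [Finset.mul_sum]
    refine Finset.sum_le_sum fun v _ => ?_
    refine mul_le_mul_of_nonneg_right ?_ (hD _)
    have hsub : univ.filter (fun e => toE G (Sum.inl (Sum.inl v)) e) ⊆
        univ.filter (fun e => G.s e = v) ∪ univ.filter (fun e => G.r e = v) := by
      intro e he
      rw [Finset.mem_filter] at he
      rcases he.2 with h | h | h | h | h
      · exact Finset.mem_union_left _ (Finset.mem_filter.2 ⟨mem_univ _, by simpa using h.symm⟩)
      · exact Finset.mem_union_right _ (Finset.mem_filter.2 ⟨mem_univ _, by simpa using h.symm⟩)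
      · simp at h
      · simp at h
      · simp at h
    have hc := (Finset.card_le_card hsub).trans (Finset.card_union_le _ _)
    have := hc.trans (hG v)
    exact_mod_cast this
  have hone : ∀ (i : SV V E ⊕ E) (e0 : E), (∀ e, toE G i e → e = e0) →
      ((univ.filter (fun e => toE G i e)).card : ℝ) ≤ 1 := by
    intro i e0 h
    have hsub : univ.filter (fun e => toE G i e) ⊆ {e0} := by
      intro e he
      rw [Finset.mem_singleton]
      exact h e (Finset.mem_filter.1 he).2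
    have := Finset.card_le_card hsub
    rw [Finset.card_singleton] at this
    exact_mod_cast this
  have h2 : ∑ q : E × Bool, ((univ.filter (fun e => toE G (Sum.inl (Sum.inr q)) e)).card : ℝ) *
      D (pin (Sum.inl (Sum.inr q) : SV V E ⊕ E)) ≤ 2 * ∑ e, D (Sum.inr (e, false)) := by
    rw [Fintype.sum_prod_type, Finset.mul_sum]
    refine Finset.sum_le_sum fun e _ => ?_
    have hb : ∀ β : Bool, ((univ.filter (fun e' => toE G (Sum.inl (Sum.inr (e, β))) e')).card : ℝ) *
      D (pin (Sum.inl (Sum.inr (e, β)) : SV V E ⊕ E)) ≤ 1 * D (Sum.inr (e, false)) := by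
      intro β
      refine mul_le_mul_of_nonneg_right (hone _ e ?_) (hD _)
      intro e' he'
      rcases he' with h | h | h | h | h
      · simp at h
      · simp at h
      · simp at h; exact h.1.symm
      · simp at h; exact h.1.symm
      · simp at h
    rw [Fintype.sum_bool]
    have := hb true
    have := hb false
    linarith
  have h3 : ∑ e : E, ((univ.filter (fun e' => toE G (Sum.inr e) e')).card : ℝ) *
      D (pin (Sum.inr e : SV V E ⊕ E)) ≤ 1 * ∑ e, D (Sum.inr (e, false)) := by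
    rw [Finset.mul_sum]
    refine Finset.sum_le_sum fun e _ => ?_
    refine mul_le_mul_of_nonneg_right (hone _ e ?_) (hD _)
    intro e' he'
    rcases he' with h | h | h | h | h
    · simp at h
    · simp at h
    · simp at h
    · simp at h
    · simp at h; exact h.symm
  have h4 : 0 ≤ ∑ e : E, D (Sum.inr (e, false)) := Finset.sum_nonneg fun e _ => hD _
  linarith

private theorem rev_gen (G : Gr V E) (M : Al) (hM : M.Ok) (b l : ℝ) (hb : 0 < b) (Sd : Finset V)
    (p q : E → (E → Bool) → Prop)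
    (hp : ∀ (o : E → Bool) (e : E) (s : V), s ∈ Sd → G.Conn (op1 o) s (G.s e) → p e o)
    (hq : ∀ (o : E → Bool) (e : E) (s : V), s ∈ Sd → G.Conn (op1 o) s (G.r e) → q e o)
    (N : ℕ) (i : SV V E ⊕ E) :
    ∑ z, mW G M b l z * ind (i ∈ rev (nxS G Sd) N z) ≤
    ∑ e ∈ (open Classical in univ.filter (fun e => toE G i e)),
      (EW G M b l (fun _ o => ind (p e o)) + EW G M b l (fun _ o => ind (q e o))) := by
  classical
  have hR : ∑ e ∈ univ.filter (fun e => toE G i e),
      (EW G M b l (fun _ o => ind (p e o)) + EW G M b l (fun _ o => ind (q e o))) =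
      ∑ z, mW G M b l z * ∑ e ∈ univ.filter (fun e => toE G i e),
        (ind (p e (po z)) + ind (q e (po z))) := by
    simp only [Finset.mul_sum]
    rw [Finset.sum_comm]
    refine Finset.sum_congr rfl fun e _ => ?_
    rw [EW_eq G M hM b l hb (fun o => ind (p e o)), EW_eq G M hM b l hb (fun o => ind (q e o)),
      ← Finset.sum_add_distrib]
    exact Finset.sum_congr rfl fun z _ => by ring
  rw [hR]
  refine Finset.sum_le_sum fun z _ => mul_le_mul_of_nonneg_left ?_ (mW_pos G M hM b l hb z).le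
  have hnn : ∀ e, 0 ≤ ind (p e (po z)) + ind (q e (po z)) :=
    fun e => add_nonneg (ind_nn _) (ind_nn _)
  by_cases hi : i ∈ rev (nxS G Sd) N z
  · rw [ind_t hi]
    obtain ⟨e, he, s, hs, hse⟩ := rev_touch G Sd N z i hi
    refine le_trans ?_ (Finset.single_le_sum (f := fun e => ind (p e (po z)) + ind (q e (po z)))
      (fun e _ => hnn e) (Finset.mem_filter.2 ⟨mem_univ e, he⟩))
    rcases hse with h | h
    · rw [ind_t (hp (po z) e s hs h)]
      have := ind_nn (q e (po z))
      linarith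
    · rw [ind_t (hq (po z) e s hs h)]
      have := ind_nn (p e (po z))
      linarith
  · rw [ind_f hi]
    exact Finset.sum_nonneg fun e _ => hnn e

private theorem one_gen (b Λ K : ℝ) (hb : 0 < b) (hK : 0 < K)
    (hinf : ∀ (V E : Type) [Fintype V] [DecidableEq V] [Fintype E] [DecidableEq E] (G : Gr V E),
      Deg4 G → ∀ (M : Al), M.Ok → ∀ l : ℝ, 0 ≤ l → l ≤ Λ → ∀ (f : (E → Bool) → ℝ), Monotone f →
      (∀ o, 0 ≤ f o) → (∀ o, f o ≤ 1) → ∀ (S : Finset (SV V E ⊕ E)) (i : SV V E ⊕ E), Adm G S →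
      i ∉ S → Adm G (insert i S) →
      ∑ x, mW G M b l x * infl (mW G M b l) (fun y => f (po y)) S x i ≤
        K * cv G M b l (fun y => f (po y)) (pin i))
    (G : Gr V E) (hG : Deg4 G) (M : Al) (hM : M.Ok) (l : ℝ) (hl0 : 0 ≤ l) (hl : l ≤ Λ)
    (P : (E → Bool) → Prop) (hP : ∀ o o', o ≤ o' → P o → P o') (Sd : Finset V)
    (hdet : ∀ (S : Finset (SV V E ⊕ E)) (x y : ∀ i, XI M.k V E i), nxS G Sd S x = none →
      (∀ i ∈ S, y i = x i) → (P (po y) ↔ P (po x)))
    (p q : E → (E → Bool) → Prop)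
    (hp : ∀ (o : E → Bool) (e : E) (s : V), s ∈ Sd → G.Conn (op1 o) s (G.s e) → p e o)
    (hq : ∀ (o : E → Bool) (e : E) (s : V), s ∈ Sd → G.Conn (op1 o) s (G.r e) → q e o) :
    EW G M b l (fun _ o => ind (P o)) - (EW G M b l (fun _ o => ind (P o))) ^ 2 ≤
      ∑ i : SV V E ⊕ E, (∑ e ∈ (open Classical in univ.filter (fun e => toE G i e)),
      (EW G M b l (fun _ o => ind (p e o)) + EW G M b l (fun _ o => ind (q e o)))) *
        (K * cv G M b l (fun y => ind (P (po y))) (pin i)) := by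
  classical
  have hfm : Monotone (fun x : (∀ i, XI M.k V E i) => ind (P (po x))) :=
    fun x y h => ind_mo (hP _ _ fun e => h (Sum.inr e))
  have hcv : ∀ w, 0 ≤ cv G M b l (fun y => ind (P (po y))) w :=
    cv_nonneg G M hM b l hb _ hfm
  have hos := osss (mW G M b l) (fun y => ind (P (po y))) (mW_pos G M hM b l hb)
    (mW_sum G M hM b l hb) hfm (fun y => ind_nn _) (fun y => ind_l1 _)
    (Adm G) (nxS G Sd) (nx_legal G _) (mW_mon G M hM b l hb)
    (by
      intro A _ x hx y hy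
      show ind (P (po y)) = ind (P (po x))
      rw [propext (hdet A x y hx hy)])
    (fun i => K * cv G M b l (fun y => ind (P (po y))) (pin i))
    (by
      intro A i hA hi hiA
      exact hinf V E G hG M hM l hl0 hl (fun o => ind (P o)) (fun o o' h => ind_mo (hP o o' h))
        (fun o => ind_nn _) (fun o => ind_l1 _) A i hA hi hiA)
  have e1 : ∑ x, mW G M b l x * ind (P (po x)) = EW G M b l (fun _ o => ind (P o)) :=
    (EW_eq G M hM b l hb (fun o => ind (P o))).symm
  simp only [ind_sq] at hos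
  rw [e1] at hos
  refine hos.trans (Finset.sum_le_sum fun i _ => ?_)
  exact mul_le_mul_of_nonneg_right (rev_gen G M hM b l hb Sd p q hp hq _ i)
    (mul_nonneg hK.le (hcv _))

end gen

section tor
variable {L : ℕ} [NeZero L]

private theorem armT_mono (n : ℕ) (x : Fin 2 → ZMod L) {o o' : (Fin 2 → ZMod L) × Fin 2 → Bool}
    (h : o ≤ o') (ha : armT n x o) : armT n x o' := by
  obtain ⟨u, hu, hc⟩ := ha
  refine ⟨u, hu, conn_mono (TD L) ?_ hc⟩
  intro e he
  have h1 := h e
  have h2 : o e = true := he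
  show o' e = true
  rw [h2] at h1
  exact (Bool.eq_true_of_true_le h1)

private theorem armT_anti {n m : ℕ} (h : n ≤ m) (x : Fin 2 → ZMod L) (o : (Fin 2 → ZMod L) × Fin 2 → Bool)
    (ha : armT m x o) : armT n x o := by
  obtain ⟨u, hu, hc⟩ := ha
  exact ⟨u, h.trans hu, hc⟩

private theorem armT_closed {n : ℕ} (hn : 1 ≤ n) (o : (Fin 2 → ZMod L) × Fin 2 → Bool)
    (hcl : ∀ e, (TD L).s e = 0 ∨ (TD L).r e = 0 → o e = false) : ¬ armT n 0 o := by
  rintro ⟨u, hu, hc⟩
  rcases Relation.ReflTransGen.cases_head hc with h | ⟨c, ⟨e, he, hab⟩, -⟩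
  · rw [← h, sub_zero, td_zero] at hu
    omega
  · have h1 : o e = true := he
    have h2 := hcl e (by
      rcases hab with h | h
      · exact Or.inl h.1
      · exact Or.inr h.2)
    rw [h1] at h2
    exact Bool.noConfusion h2

private theorem fT_anti (M : Al) (hM : M.Ok) (b l : ℝ) (hb : 0 < b) : Antitone (fun n => fT L M b n l) := by
  intro n m h
  exact EW_mo (TD L) M hM b l hb _ _ fun o => ind_mo (armT_anti h 0 o)

private theorem fT_nn (M : Al) (hM : M.Ok) (b l : ℝ) (hb : 0 < b) (n : ℕ) : 0 ≤ fT L M b n l := by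
  have h := EW_mo (TD L) M hM b l hb (fun _ => 0) (fun o => ind (armT n 0 o)) (fun o => ind_nn _)
  have h0 : EW (TD L) M b l (fun _ _ => 0) = 0 := by simp [EW]
  rw [h0] at h
  exact h

private theorem f_mono (n : ℕ) : Monotone (fun o : (Fin 2 → ZMod L) × Fin 2 → Bool => ind (armT n 0 o)) :=
  fun _ _ h => ind_mo (armT_mono n 0 h)

private theorem fx_mono {k : ℕ} (n : ℕ) :
    Monotone (fun x : (∀ i, XI k (Fin 2 → ZMod L) ((Fin 2 → ZMod L) × Fin 2) i) =>
      ind (armT n 0 (po x))) := by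
  intro x y h
  exact f_mono n (fun e => h (Sum.inr e))

private theorem one_k (b Λ K : ℝ) (hb : 0 < b) (hK : 0 < K)
    (hinf : ∀ (V E : Type) [Fintype V] [DecidableEq V] [Fintype E] [DecidableEq E] (G : Gr V E),
      Deg4 G → ∀ (M : Al), M.Ok → ∀ l : ℝ, 0 ≤ l → l ≤ Λ → ∀ (f : (E → Bool) → ℝ), Monotone f →
      (∀ o, 0 ≤ f o) → (∀ o, f o ≤ 1) → ∀ (S : Finset (SV V E ⊕ E)) (i : SV V E ⊕ E), Adm G S →
      i ∉ S → Adm G (insert i S) →
      ∑ x, mW G M b l x * infl (mW G M b l) (fun y => f (po y)) S x i ≤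
        K * cv G M b l (fun y => f (po y)) (pin i))
    (M : Al) (hM : M.Ok) (l : ℝ) (hl0 : 0 ≤ l) (hl : l ≤ Λ) (n k : ℕ) (hk : k ≤ n) :
    fT L M b n l - (fT L M b n l) ^ 2 ≤
      ∑ i, (∑ e ∈ (open Classical in univ.filter (fun e => toE (TD L) i e)),
      (fT L M b (Nat.dist k (td ((TD L).s e))) l + fT L M b (Nat.dist k (td ((TD L).r e))) l)) *
        (K * cv (TD L) M b l (fun y => ind (armT n 0 (po y))) (pin i)) := by
  classical
  have h := one_gen b Λ K hb hK hinf (TD L) deg4_TD M hM l hl0 hl (armT n 0)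
    (fun o o' h => armT_mono n 0 h) (univ.filter (fun u : Fin 2 → ZMod L => td u = k))
    (fun A x y hx hy => det_conn (TD L) (univ.filter (fun u : Fin 2 → ZMod L => td u = k)) 0
        {u | n ≤ td (u - 0)} (by
          intro ω u hu hc
          have hu' : n ≤ td u := by
            have : n ≤ td (u - 0) := hu
            rwa [sub_zero] at this
          obtain ⟨s, hs, hsc⟩ := sep_torus n k hk ω u hu' hc
          exact ⟨s, Finset.mem_filter.2 ⟨mem_univ _, hs⟩, hsc⟩) A x y hx hy)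
    (fun e o => armT (Nat.dist k (td ((TD L).s e))) ((TD L).s e) o)
    (fun e o => armT (Nat.dist k (td ((TD L).r e))) ((TD L).r e) o)
    (fun o e s hs hc => arm_le k o _ s (Finset.mem_filter.1 hs).2 (conn_symm (TD L) hc))
    (fun o e s hs hc => arm_le k o _ s (Finset.mem_filter.1 hs).2 (conn_symm (TD L) hc))
  simp only [fT_tr] at h
  exact h

end tor

theorem fT_DR (b Λ : ℝ) (hb : 0 < b) (hΛ : 0 < Λ) : ∃ C0 : ℝ, 0 < C0 ∧
    ∀ (L : ℕ) [NeZero L] (M : Al), M.Ok → DR C0 Λ (fT L M b) := by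
  classical
  obtain ⟨K, hK, hinf⟩ := infl_bound b Λ hb hΛ.le
  set c1 : ℝ := ((1 - Real.tanh b) / 4) ^ 4 with hc1
  have htanh : Real.tanh b < 1 := Real.tanh_lt_one b
  have hc1p : 0 < c1 := by
    rw [hc1]
    have : 0 < (1 - Real.tanh b) / 4 := by linarith
    positivity
  refine ⟨16 * K / c1, by positivity, ?_⟩
  intro L _ M hM
  have hder : ∀ n l, HasDerivAt (fT L M b n)
      (∑ w, pn w * cv (TD L) M b l (fun y => ind (armT n 0 (po y))) w) l := fun n l =>
    EW_deriv (TD L) M b (fun l => Zpos (TD L) M hM b l hb) (fun o => ind (armT n 0 o)) l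
  have hcv : ∀ n l w, 0 ≤ cv (TD L) M b l (fun y => ind (armT n 0 (po y))) w := fun n l =>
    cv_nonneg (TD L) M hM b l hb _ (fx_mono n)
  have hpn : ∀ w : SV (Fin 2 → ZMod L) ((Fin 2 → ZMod L) × Fin 2), 0 ≤ pn w := by
    intro w
    rcases w with v | ⟨e, β⟩
    · simp [pn]
    · cases β <;> simp [pn]
  have hd0 : ∀ n l, 0 ≤ ∑ w, pn w * cv (TD L) M b l (fun y => ind (armT n 0 (po y))) w := fun n l =>
    Finset.sum_nonneg fun w _ => mul_nonneg (hpn w) (hcv n l w)
  refine ⟨?_, ?_, ?_, ?_, ?_, ?_⟩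
  · intro l _
    have h : (fun (_ : SV (Fin 2 → ZMod L) ((Fin 2 → ZMod L) × Fin 2) → Fin (M.k + 1))
        (o : (Fin 2 → ZMod L) × Fin 2 → Bool) => ind (armT 0 0 o)) = fun _ _ => 1 := by
      funext _ o
      exact ind_t ⟨0, Nat.zero_le _, Relation.ReflTransGen.refl⟩
    unfold fT
    rw [h]
    exact EW_c1 (TD L) M hM b l hb
  · intro n l _
    exact fT_nn M hM b l hb n
  · intro n l _
    exact fT_anti M hM b l hb (Nat.le_succ n)
  · intro n
    refine Monotone.monotoneOn ?_ _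
    refine monotone_of_deriv_nonneg (fun l => (hder n l).differentiableAt) fun l => ?_
    rw [(hder n l).deriv]
    exact hd0 n l
  · intro n l
    exact (hder n l).differentiableAt
  · intro n l hl
    rw [(hder n l).deriv]
    rcases Nat.eq_zero_or_pos n with hn | hn
    · subst hn
      simp
    obtain ⟨D, hD⟩ : ∃ D : ℝ, D = ∑ w, pn w * cv (TD L) M b l (fun y => ind (armT n 0 (po y))) w :=
      ⟨_, rfl⟩
    obtain ⟨S, hS⟩ : ∃ S : ℝ, S = ∑ j ∈ range n, fT L M b j l := ⟨_, rfl⟩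
    rw [← hD, ← hS]
    have hS0 : 0 ≤ S := by
      rw [hS]
      exact Finset.sum_nonneg fun j _ => fT_nn M hM b l hb j
    have hDD : 0 ≤ D := by
      rw [hD]
      exact hd0 n l
    have hsum : ∑ k ∈ Icc 1 n, (fT L M b n l - (fT L M b n l) ^ 2) ≤
        ∑ k ∈ Icc 1 n, ∑ i, (∑ e ∈ univ.filter (fun e => toE (TD L) i e),
          (fT L M b (Nat.dist k (td ((TD L).s e))) l + fT L M b (Nat.dist k (td ((TD L).r e))) l)) *
        (K * cv (TD L) M b l (fun y => ind (armT n 0 (po y))) (pin i)) :=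
      Finset.sum_le_sum fun k hk =>
        one_k b Λ K hb hK hinf M hM l hl.1 hl.2 n k (Finset.mem_Icc.1 hk).2
    rw [Finset.sum_const, Nat.card_Icc, Nat.add_sub_cancel, nsmul_eq_mul] at hsum
    have hcomm : ∑ k ∈ Icc 1 n, ∑ i, (∑ e ∈ univ.filter (fun e => toE (TD L) i e),
          (fT L M b (Nat.dist k (td ((TD L).s e))) l + fT L M b (Nat.dist k (td ((TD L).r e))) l)) *
        (K * cv (TD L) M b l (fun y => ind (armT n 0 (po y))) (pin i)) ≤
        ∑ i : SV (Fin 2 → ZMod L) ((Fin 2 → ZMod L) × Fin 2) ⊕ ((Fin 2 → ZMod L) × Fin 2),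
          ((univ.filter (fun e => toE (TD L) i e)).card : ℝ) *
            (4 * S * (K * cv (TD L) M b l (fun y => ind (armT n 0 (po y))) (pin i))) := by
      rw [Finset.sum_comm]
      refine Finset.sum_le_sum fun i _ => ?_
      rw [← Finset.sum_mul, ← mul_assoc (((univ.filter (fun e => toE (TD L) i e)).card : ℝ))]
      refine mul_le_mul_of_nonneg_right ?_ (mul_nonneg hK.le (hcv n l _))
      rw [Finset.sum_comm, ← nsmul_eq_mul]
      refine Finset.sum_le_card_nsmul _ _ _ fun e _ => ?_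
      rw [Finset.sum_add_distrib]
      have h1 := dist_sum n (td ((TD L).s e)) (fun j => fT L M b j l) (fT_nn M hM b l hb)
        (fT_anti M hM b l hb)
      have h2 := dist_sum n (td ((TD L).r e)) (fun j => fT L M b j l) (fT_nn M hM b l hb)
        (fT_anti M hM b l hb)
      rw [← hS] at h1 h2
      linarith
    have hcard := card_toE (TD L) deg4_TD
      (fun w => cv (TD L) M b l (fun y => ind (armT n 0 (po y))) w) (hcv n l)
    have hfin : (n : ℝ) * (fT L M b n l - (fT L M b n l) ^ 2) ≤ 16 * K * S * D := by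
      refine (hsum.trans hcomm).trans ?_
      have e1 : ∑ i : SV (Fin 2 → ZMod L) ((Fin 2 → ZMod L) × Fin 2) ⊕ ((Fin 2 → ZMod L) × Fin 2),
          ((univ.filter (fun e => toE (TD L) i e)).card : ℝ) *
            (4 * S * (K * cv (TD L) M b l (fun y => ind (armT n 0 (po y))) (pin i))) =
          4 * S * K * ∑ i : SV (Fin 2 → ZMod L) ((Fin 2 → ZMod L) × Fin 2) ⊕ ((Fin 2 → ZMod L) × Fin 2),
          ((univ.filter (fun e => toE (TD L) i e)).card : ℝ) *
            cv (TD L) M b l (fun y => ind (armT n 0 (po y))) (pin i) := by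
        rw [Finset.mul_sum]
        exact Finset.sum_congr rfl fun i _ => by ring
      rw [e1]
      have h1 := mul_le_mul_of_nonneg_left hcard (by positivity : 0 ≤ 4 * S * K)
      refine le_trans ?_ (h1.trans (le_of_eq (by rw [hD]; ring)))
      refine le_of_eq ?_
      congr 1
    have hone : fT L M b n l ≤ 1 - c1 := by
      have hcl := cls (TD L) deg4_TD M hM b l hb 0
      have h1 : EW (TD L) M b l (fun _ o => ind (armT n 0 o)) ≤
          EW (TD L) M b l (fun _ o => 1 - ind (∀ e, (TD L).s e = 0 ∨ (TD L).r e = 0 → o e = false)) := by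
        refine EW_mo (TD L) M hM b l hb _ _ fun o => ?_
        by_cases hc : ∀ e, (TD L).s e = 0 ∨ (TD L).r e = 0 → o e = false
        · rw [ind_f (armT_closed hn o hc)]
          have := ind_l1 (∀ e, (TD L).s e = 0 ∨ (TD L).r e = 0 → o e = false)
          linarith
        · rw [ind_f hc, sub_zero]
          exact ind_l1 _
      have h2 : EW (TD L) M b l (fun _ o => 1 - ind (∀ e, (TD L).s e = 0 ∨ (TD L).r e = 0 → o e = false)) =
          1 - EW (TD L) M b l (fun _ o => ind (∀ e, (TD L).s e = 0 ∨ (TD L).r e = 0 → o e = false)) := by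
        exact EW_sub (TD L) M hM b l hb _
      rw [h2] at h1
      have h3 : fT L M b n l = EW (TD L) M b l (fun _ o => ind (armT n 0 o)) := rfl
      rw [h3]
      linarith
    have hf0 := fT_nn M hM b l hb (L := L) n
    have hnf : 0 ≤ (n : ℝ) * fT L M b n l := mul_nonneg (Nat.cast_nonneg n) hf0
    have hmul : (n : ℝ) * fT L M b n l * c1 ≤ 16 * K * S * D := by
      refine le_trans ?_ hfin
      have : (n : ℝ) * fT L M b n l * c1 ≤ (n : ℝ) * fT L M b n l * (1 - fT L M b n l) :=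
        mul_le_mul_of_nonneg_left (by linarith) hnf
      refine this.trans (le_of_eq (by ring))
    rw [← le_div_iff₀ hc1p] at hmul
    refine hmul.trans (le_of_eq ?_)
    ring

end H82.BX

end S_H82_BX_DIF

section S_H82_BX_CK3

/-!
# CK3: passing from the regularised alphabets to the clock

* `clk_ok`: for `0 < ε ≤ 1/4`, `1 ≤ K`, `(clk K ε).Ok`: `sin x ≤ 1/2` for `x ≤ π/6` (`c ≤ 2K`), then `cc ≤ (1/2+ε)/(1+ε) ≤ 3/5` and `ss ≥ cos(π/6)`-ish `≥ 4/5`; similarly `hi`: `c ≥ 4K`; `mi`: `2K ≤ c ≤ 4K`;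
  the weights of the three ranges are `≥ 1/3`, `∑ nu = 1`.
* `EW_lim`: `W G (clk K ε) b l c o` is continuous in `ε` at `0` (finite products of continuous functions), and the total weight at `ε = 0` is positive (all moduli with `0 < c w < 6K`
  have positive weight).  The types `Fin ((clk K ε).k + 1)` are all `Fin (6*K+1)` by definition.
* `DR0`: `DR C0 Λ (fT L (clk K ε) b)` for small `ε > 0` (`fT_DR`), let `ε → 0`: `deriv` is given by `EW_deriv` (both for `ε > 0` and `ε = 0`), which is continuous in `ε`.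
* `asc0`, `low0`: association for `clk K ε` (`asc`), limit.  `EW cc(c v) ≥ (4/5) (1/4) e^{-8b-l}` by `fin_en` with `A = ∅`, `B = ∅` (`EB` with empty sets is `EW`), so
  `EW (cc_u cc_v ind) ≥ EW cc_u EW cc_v EW ind`.
* `up0`: `ck1`, `sgS_one`, `sgS_two`, `sgS_ends` (at fixed `c`), `cc ≤ 1`.
-/

set_option autoImplicit false

open Finset MeasureTheory Filter Topology

namespace H82.BX

open H82.IC XYB

/-! ## the alphabet as a function of the moduli -/

/-- the alphabet with given moduli. -/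
noncomputable def CK3_M (K : ℕ) (x y : Fin (6 * K + 1) → ℝ) : Al where
  k := 6 * K
  cc := x
  ss := y
  nu c := (if c.val = 0 ∨ c.val = 6 * K then 1 / 2 else 1) / (6 * K)

noncomputable def CK3_x (K : ℕ) (ε : ℝ) (c : Fin (6 * K + 1)) : ℝ :=
  (Real.sin (c.val * Real.pi / (12 * K)) + ε) / (1 + ε)

noncomputable def CK3_y (K : ℕ) (ε : ℝ) (c : Fin (6 * K + 1)) : ℝ :=
  (Real.cos (c.val * Real.pi / (12 * K)) + ε) / (1 + ε)

theorem CK3_clk (K : ℕ) (ε : ℝ) : clk K ε = CK3_M K (CK3_x K ε) (CK3_y K ε) := rfl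

theorem CK3_ang (K : ℕ) (hK : 0 < K) (c : Fin (6 * K + 1)) :
    0 ≤ (c.val : ℝ) * Real.pi / (12 * K) ∧ (c.val : ℝ) * Real.pi / (12 * K) ≤ Real.pi / 2 := by
  have hK' : (0 : ℝ) < K := by exact_mod_cast hK
  have h1 : (c.val : ℝ) ≤ 6 * K := by
    have := Nat.lt_succ_iff.1 c.isLt
    exact_mod_cast this
  constructor
  · positivity
  · rw [div_le_div_iff₀ (by positivity) (by norm_num)]
    have h2 := mul_le_mul_of_nonneg_right h1 Real.pi_pos.le
    linarith

theorem CK3_sc (K : ℕ) (hK : 0 < K) (c : Fin (6 * K + 1)) :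
    0 ≤ Real.sin ((c.val : ℝ) * Real.pi / (12 * K)) ∧ 0 ≤ Real.cos ((c.val : ℝ) * Real.pi / (12 * K)) := by
  have h := CK3_ang K hK c
  refine ⟨Real.sin_nonneg_of_nonneg_of_le_pi h.1 (by linarith [Real.pi_pos]), ?_⟩
  exact Real.cos_nonneg_of_neg_pi_div_two_le_of_le (by linarith [Real.pi_pos]) h.2

theorem CK3_x01 (K : ℕ) (hK : 0 < K) (ε : ℝ) (h0 : 0 ≤ ε) (c : Fin (6 * K + 1)) :
    0 ≤ CK3_x K ε c ∧ CK3_x K ε c ≤ 1 ∧ 0 ≤ CK3_y K ε c ∧ CK3_y K ε c ≤ 1 := by
  have h := CK3_sc K hK c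
  unfold CK3_x CK3_y
  refine ⟨by have := h.1; positivity, ?_, by have := h.2; positivity, ?_⟩
  · rw [div_le_one (by linarith)]
    linarith [Real.sin_le_one ((c.val : ℝ) * Real.pi / (12 * K))]
  · rw [div_le_one (by linarith)]
    linarith [Real.cos_le_one ((c.val : ℝ) * Real.pi / (12 * K))]

theorem CK3_nu_pos (K : ℕ) (hK : 0 < K) (x y : Fin (6 * K + 1) → ℝ) (c : Fin (6 * K + 1)) :
    0 < (CK3_M K x y).nu c := by
  have hK' : (0 : ℝ) < K := by exact_mod_cast hK
  have h1 : (CK3_M K x y).nu c = (if c.val = 0 ∨ c.val = 6 * K then 1 / 2 else 1) / (6 * K) := rfl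
  rw [h1]
  split_ifs <;> positivity

theorem CK3_nu_sum (K : ℕ) (hK : 0 < K) :
    ∑ c : Fin (6 * K + 1), (if c.val = 0 ∨ c.val = 6 * K then (1 : ℝ) / 2 else 1) / (6 * K) = 1 := by
  have hK' : (0 : ℝ) < K := by exact_mod_cast hK
  rw [Fin.sum_univ_eq_sum_range
    (fun n : ℕ => (if n = 0 ∨ n = 6 * K then (1 : ℝ) / 2 else 1) / (6 * K)) (6 * K + 1),
    Finset.sum_range_succ]
  obtain ⟨m, hm⟩ : ∃ m, 6 * K = m + 1 := ⟨6 * K - 1, by omega⟩
  have hm' : (6 * (K : ℝ)) = m + 1 := by exact_mod_cast hm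
  rw [hm, hm', Finset.sum_range_succ']
  have h1 : ∀ i ∈ Finset.range m, (if i + 1 = 0 ∨ i + 1 = m + 1 then (1 : ℝ) / 2 else 1) / (m + 1) =
      1 / (m + 1) := by
    intro i hi
    have := Finset.mem_range.1 hi
    rw [if_neg (by omega)]
  rw [Finset.sum_congr rfl h1]
  have hm0 : (0 : ℝ) < (m : ℝ) + 1 := by positivity
  simp
  field_simp
  ring

/-- masses of ranges. -/
theorem CK3_range (K : ℕ) (hK : 0 < K) (S : Finset (Fin (6 * K + 1))) (a : ℕ) (ha : a + 2 * K < 6 * K)
    (hS : ∀ c : Fin (6 * K + 1), a < c.val → c.val ≤ a + 2 * K → c ∈ S) :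
    1 / 4 ≤ ∑ c ∈ S, (if c.val = 0 ∨ c.val = 6 * K then (1 : ℝ) / 2 else 1) / (6 * K) := by
  have hK' : (0 : ℝ) < K := by exact_mod_cast hK
  have h1 : Finset.Ioc (⟨a, by omega⟩ : Fin (6 * K + 1)) ⟨a + 2 * K, by omega⟩ ⊆ S := by
    intro c hc
    rw [Finset.mem_Ioc] at hc
    exact hS c hc.1 hc.2
  have h2 : ∑ c ∈ Finset.Ioc (⟨a, by omega⟩ : Fin (6 * K + 1)) ⟨a + 2 * K, by omega⟩,
      (if c.val = 0 ∨ c.val = 6 * K then (1 : ℝ) / 2 else 1) / (6 * K) =
      ∑ c ∈ Finset.Ioc (⟨a, by omega⟩ : Fin (6 * K + 1)) ⟨a + 2 * K, by omega⟩, 1 / (6 * (K : ℝ)) := by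
    refine Finset.sum_congr rfl fun c hc => ?_
    rw [Finset.mem_Ioc] at hc
    have h3 : a < c.val := hc.1
    have h4 : c.val ≤ a + 2 * K := hc.2
    rw [if_neg (by omega)]
  refine le_trans ?_ (Finset.sum_le_sum_of_subset_of_nonneg h1 fun c _ _ => by positivity)
  rw [h2, Finset.sum_const, Fin.card_Ioc]
  simp only [Nat.add_sub_cancel_left, nsmul_eq_mul]
  push_cast
  have h5 : 2 * (K : ℝ) * (1 / (6 * K)) = 1 / 3 := by
    field_simp
    norm_num
  rw [h5]
  norm_num

theorem CK3_mem_lo (M : Al) (c : Fin (M.k + 1)) : c ∈ M.lo ↔ M.cc c ≤ 3 / 5 ∧ 4 / 5 ≤ M.ss c := by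
  unfold Al.lo
  simp

theorem CK3_mem_hi (M : Al) (c : Fin (M.k + 1)) : c ∈ M.hi ↔ 4 / 5 ≤ M.cc c ∧ M.ss c ≤ 3 / 5 := by
  unfold Al.hi
  simp

theorem CK3_mem_mi (M : Al) (c : Fin (M.k + 1)) : c ∈ M.mi ↔ 1 / 3 ≤ M.cc c ∧ 1 / 3 ≤ M.ss c := by
  unfold Al.mi
  simp

theorem clk_ok (K : ℕ) (hK : 0 < K) (ε : ℝ) (h0 : 0 < ε) (h1 : ε ≤ 1 / 4) : (clk K ε).Ok := by
  have hK' : (0 : ℝ) < K := by exact_mod_cast hK
  have hs3 : (86 / 100 : ℝ) ≤ Real.sqrt 3 / 2 := by
    have h2 : (172 / 100 : ℝ) ≤ Real.sqrt 3 := by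
      refine Real.le_sqrt_of_sq_le ?_
      norm_num
    linarith
  have hpi := Real.pi_pos
  have hang : ∀ c : Fin (6 * K + 1), 0 ≤ (c.val : ℝ) * Real.pi / (12 * K) ∧
    (c.val : ℝ) * Real.pi / (12 * K) ≤ Real.pi / 2 := CK3_ang K hK
  -- small angles
  have hsm : ∀ c : Fin (6 * K + 1), c.val ≤ 2 * K →
      Real.sin ((c.val : ℝ) * Real.pi / (12 * K)) ≤ 1 / 2 ∧
        Real.sqrt 3 / 2 ≤ Real.cos ((c.val : ℝ) * Real.pi / (12 * K)) := by
    intro c hc
    have h2 : (c.val : ℝ) * Real.pi / (12 * K) ≤ Real.pi / 6 := by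
      have h3 : (c.val : ℝ) ≤ 2 * K := by exact_mod_cast hc
      rw [div_le_div_iff₀ (by positivity) (by norm_num)]
      have h4 := mul_le_mul_of_nonneg_right h3 hpi.le
      linarith
    have h5 := hang c
    constructor
    · rw [← Real.sin_pi_div_six]
      exact Real.sin_le_sin_of_le_of_le_pi_div_two (by linarith) (by linarith) h2
    · rw [← Real.cos_pi_div_six]
      exact Real.cos_le_cos_of_nonneg_of_le_pi h5.1 (by linarith) h2
  have hlg : ∀ c : Fin (6 * K + 1), 4 * K ≤ c.val →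
      Real.cos ((c.val : ℝ) * Real.pi / (12 * K)) ≤ 1 / 2 ∧
        Real.sqrt 3 / 2 ≤ Real.sin ((c.val : ℝ) * Real.pi / (12 * K)) := by
    intro c hc
    have h2 : Real.pi / 3 ≤ (c.val : ℝ) * Real.pi / (12 * K) := by
      have h3 : (4 * K : ℝ) ≤ c.val := by exact_mod_cast hc
      rw [div_le_div_iff₀ (by norm_num) (by positivity)]
      have h4 := mul_le_mul_of_nonneg_right h3 hpi.le
      linarith
    have h5 := hang c
    constructor
    · rw [← Real.cos_pi_div_three]
      exact Real.cos_le_cos_of_nonneg_of_le_pi (by linarith) (by linarith) h2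
    · rw [← Real.sin_pi_div_three]
      exact Real.sin_le_sin_of_le_of_le_pi_div_two (by linarith) h5.2 h2
  have hmd : ∀ c : Fin (6 * K + 1), 2 * K ≤ c.val → c.val ≤ 4 * K →
      1 / 2 ≤ Real.cos ((c.val : ℝ) * Real.pi / (12 * K)) ∧
        1 / 2 ≤ Real.sin ((c.val : ℝ) * Real.pi / (12 * K)) := by
    intro c hc hc'
    have h2 : Real.pi / 6 ≤ (c.val : ℝ) * Real.pi / (12 * K) := by
      have h3 : (2 * K : ℝ) ≤ c.val := by exact_mod_cast hc
      rw [div_le_div_iff₀ (by norm_num) (by positivity)]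
      have h4 := mul_le_mul_of_nonneg_right h3 hpi.le
      linarith
    have h2' : (c.val : ℝ) * Real.pi / (12 * K) ≤ Real.pi / 3 := by
      have h3 : (c.val : ℝ) ≤ 4 * K := by exact_mod_cast hc'
      rw [div_le_div_iff₀ (by positivity) (by norm_num)]
      have h4 := mul_le_mul_of_nonneg_right h3 hpi.le
      linarith
    have h5 := hang c
    constructor
    · rw [← Real.cos_pi_div_three]
      exact Real.cos_le_cos_of_nonneg_of_le_pi h5.1 (by linarith) h2'
    · rw [← Real.sin_pi_div_six]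
      exact Real.sin_le_sin_of_le_of_le_pi_div_two (by linarith) h5.2 h2
  have hE : (0 : ℝ) < 1 + ε := by linarith
  have hmonoang : ∀ c c' : Fin (6 * K + 1), c ≤ c' → (c.val : ℝ) * Real.pi / (12 * K) ≤
      (c'.val : ℝ) * Real.pi / (12 * K) := by
    intro c c' h
    have h3 : (c.val : ℝ) ≤ c'.val := by exact_mod_cast (Fin.le_def.1 h)
    gcongr
  rw [CK3_clk]
  refine ⟨?_, ?_, ?_, ?_, ?_, ?_, ?_, ?_, ?_, ?_, ?_⟩
  · intro c c' h
    show CK3_x K ε c ≤ CK3_x K ε c'
    unfold CK3_x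
    refine div_le_div_of_nonneg_right ?_ hE.le
    have h5 := hang c
    have h6 := hang c'
    have := Real.sin_le_sin_of_le_of_le_pi_div_two (by linarith) h6.2 (hmonoang c c' h)
    linarith
  · intro c c' h
    show CK3_y K ε c' ≤ CK3_y K ε c
    unfold CK3_y
    refine div_le_div_of_nonneg_right ?_ hE.le
    have h5 := hang c
    have h6 := hang c'
    have := Real.cos_le_cos_of_nonneg_of_le_pi h5.1 (by linarith) (hmonoang c c' h)
    linarith
  · intro c
    show 0 < CK3_x K ε c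
    have := (CK3_sc K hK c).1
    unfold CK3_x
    positivity
  · intro c
    exact (CK3_x01 K hK ε h0.le c).2.1
  · intro c
    show 0 < CK3_y K ε c
    have := (CK3_sc K hK c).2
    unfold CK3_y
    positivity
  · intro c
    exact (CK3_x01 K hK ε h0.le c).2.2.2
  · intro c
    exact CK3_nu_pos K hK _ _ c
  · exact CK3_nu_sum K hK
  · refine CK3_range K hK _ 0 (by omega) ?_
    intro c hc hc'
    have h2 := hsm c (by omega)
    refine (CK3_mem_lo (CK3_M K (CK3_x K ε) (CK3_y K ε)) c).2 ⟨?_, ?_⟩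
    · show CK3_x K ε c ≤ 3 / 5
      unfold CK3_x
      rw [div_le_iff₀ hE]
      linarith [h2.1]
    · show 4 / 5 ≤ CK3_y K ε c
      unfold CK3_y
      rw [le_div_iff₀ hE]
      linarith [h2.2]
  · refine CK3_range K hK _ (4 * K - 1) (by omega) ?_
    intro c hc hc'
    have h2 := hlg c (by omega)
    refine (CK3_mem_hi (CK3_M K (CK3_x K ε) (CK3_y K ε)) c).2 ⟨?_, ?_⟩
    · show 4 / 5 ≤ CK3_x K ε c
      unfold CK3_x
      rw [le_div_iff₀ hE]
      linarith [h2.2]
    · show CK3_y K ε c ≤ 3 / 5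
      unfold CK3_y
      rw [div_le_iff₀ hE]
      linarith [h2.1]
  · refine CK3_range K hK _ (2 * K) (by omega) ?_
    intro c hc hc'
    have h2 := hmd c (by omega) (by omega)
    refine (CK3_mem_mi (CK3_M K (CK3_x K ε) (CK3_y K ε)) c).2 ⟨?_, ?_⟩
    · show 1 / 3 ≤ CK3_x K ε c
      unfold CK3_x
      rw [le_div_iff₀ hE]
      linarith [h2.2]
    · show 1 / 3 ≤ CK3_y K ε c
      unfold CK3_y
      rw [le_div_iff₀ hE]
      linarith [h2.1]

theorem CK3_path (K : ℕ) : Tendsto (fun ε : ℝ => (CK3_x K ε, CK3_y K ε)) (𝓝[>] 0)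
    (𝓝 (CK3_x K 0, CK3_y K 0)) := by
  have h1 : ContinuousAt (fun ε : ℝ => (CK3_x K ε, CK3_y K ε)) 0 := by
    refine ContinuousAt.prodMk ?_ ?_
    · refine continuousAt_pi.2 fun c => ?_
      unfold CK3_x
      refine ContinuousAt.div (by fun_prop) (by fun_prop) (by norm_num)
    · refine continuousAt_pi.2 fun c => ?_
      unfold CK3_y
      refine ContinuousAt.div (by fun_prop) (by fun_prop) (by norm_num)
  exact h1.tendsto.mono_left nhdsWithin_le_nhds

theorem CK3_tanh_lt (x : ℝ) : Real.tanh x < 1 := by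
  rw [Real.tanh_eq_sinh_div_cosh, div_lt_one (Real.cosh_pos x)]
  exact Real.sinh_lt_cosh x

theorem CK3_tanh_nonneg {x : ℝ} (hx : 0 ≤ x) : 0 ≤ Real.tanh x := by
  rw [Real.tanh_eq_sinh_div_cosh]
  exact div_nonneg (Real.sinh_nonneg_iff.2 hx) (Real.cosh_pos x).le

@[fun_prop]
theorem CK3_tanh : Continuous Real.tanh := by
  have h1 : Real.tanh = fun x => Real.sinh x / Real.cosh x := by
    funext x
    exact Real.tanh_eq_sinh_div_cosh x
  rw [h1]
  exact Real.continuous_sinh.div Real.continuous_cosh fun x => (Real.cosh_pos x).ne'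

section gen
variable {V E : Type} [Fintype V] [DecidableEq V] [Fintype E] [DecidableEq E]

theorem CK3_cont (G : Gr V E) (b l : ℝ) (K : ℕ) (c : SV V E → Fin (6 * K + 1)) (o : E → Bool) :
    Continuous (fun z : (Fin (6 * K + 1) → ℝ) × (Fin (6 * K + 1) → ℝ) =>
      W G (CK3_M K z.1 z.2) b l c o) := by
  unfold W wv AA rr tt la lb Zv Zs
  simp only [CK3_M]
  refine Continuous.mul (Continuous.mul ?_ ?_) (Continuous.mul ?_ ?_)
  · fun_prop
  · refine continuous_finsetProd _ fun e _ => ?_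
    refine Continuous.mul ?_ ?_
    · fun_prop
    · cases o e
      · simp
        fun_prop
      · simp
        fun_prop
  · fun_prop
  · fun_prop

theorem CK3_contZ (G : Gr V E) (b l : ℝ) (K : ℕ) :
    Continuous (fun z : (Fin (6 * K + 1) → ℝ) × (Fin (6 * K + 1) → ℝ) =>
      ∑ c : SV V E → Fin (6 * K + 1), ∑ o, W G (CK3_M K z.1 z.2) b l c o) :=
  continuous_finsetSum _ fun c _ => continuous_finsetSum _ fun o _ => CK3_cont G b l K c o

/-- sign of the weights. -/
theorem CK3_W (G : Gr V E) (b l : ℝ) (hb : 0 < b) (K : ℕ) (hK : 0 < K)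
    (x y : Fin (6 * K + 1) → ℝ) (hx : ∀ i, 0 ≤ x i) (hy : ∀ i, 0 ≤ y i)
    (c : SV V E → Fin (6 * K + 1)) (o : E → Bool) :
    0 ≤ W G (CK3_M K x y) b l c o ∧ ((∀ e, o e = false) → 0 < W G (CK3_M K x y) b l c o) := by
  have hla : ∀ t, 0 ≤ la G (CK3_M K x y) b c t := fun t =>
    mul_nonneg hb.le (mul_nonneg (hx _) (hx _))
  have hlb : ∀ t, 0 ≤ lb G (CK3_M K x y) b c t := fun t =>
    mul_nonneg hb.le (mul_nonneg (hy _) (hy _))
  have hr0 : ∀ e, 0 ≤ rr G (CK3_M K x y) b c e := fun e =>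
    Finset.prod_nonneg fun j _ => CK3_tanh_nonneg (hla (e, j))
  have hr1 : ∀ e, rr G (CK3_M K x y) b c e < 1 := by
    intro e
    unfold rr
    rw [Fin.prod_univ_three]
    have a0 := CK3_tanh_nonneg (hla (e, 0))
    have a1 := CK3_tanh_nonneg (hla (e, 1))
    have a2 := CK3_tanh_nonneg (hla (e, 2))
    have b0 := CK3_tanh_lt (la G (CK3_M K x y) b c (e, 0))
    have b1 := CK3_tanh_lt (la G (CK3_M K x y) b c (e, 1))
    have b2 := CK3_tanh_lt (la G (CK3_M K x y) b c (e, 2))
    have h1 : Real.tanh (la G (CK3_M K x y) b c (e, 0)) * Real.tanh (la G (CK3_M K x y) b c (e, 1)) ≤ 1 :=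
      mul_le_one₀ b0.le a1 b1.le
    calc _ ≤ 1 * Real.tanh (la G (CK3_M K x y) b c (e, 2)) := mul_le_mul_of_nonneg_right h1 a2
      _ < 1 := by rw [one_mul]; exact b2
  have ht0 : ∀ e, 0 ≤ tt G (CK3_M K x y) b c e := fun e =>
    Finset.prod_nonneg fun j _ => CK3_tanh_nonneg (hlb (e, j))
  have ht1 : ∀ e, tt G (CK3_M K x y) b c e ≤ 1 := fun e =>
    Finset.prod_le_one (fun j _ => CK3_tanh_nonneg (hlb (e, j))) fun j _ => (CK3_tanh_lt _).le
  have hb0 : ∀ e, 0 ≤ bt o e := by
    intro e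
    unfold bt
    split_ifs <;> norm_num
  have hb1 : ∀ e, bt o e ≤ 1 := by
    intro e
    unfold bt
    split_ifs <;> norm_num
  have hwv : 0 < wv (CK3_M K x y) l c :=
    Finset.prod_pos fun w _ => mul_pos (CK3_nu_pos K hK x y _) (Real.exp_pos _)
  have hAA : ∀ e, 0 < AA G (CK3_M K x y) b c e := fun e =>
    Finset.prod_pos fun j _ => mul_pos (Real.cosh_pos _) (Real.cosh_pos _)
  have hZ := mul_pos (Zv_pos G (bt o) hb0 hb1) (Zv_pos G (tt G (CK3_M K x y) b c) ht0 ht1)
  constructor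
  · refine mul_nonneg (mul_nonneg hwv.le (Finset.prod_nonneg fun e _ => mul_nonneg (hAA e).le ?_)) hZ.le
    split_ifs
    · exact hr0 e
    · linarith [hr1 e]
  · intro ho
    refine mul_pos (mul_pos hwv (Finset.prod_pos fun e _ => mul_pos (hAA e) ?_)) hZ
    rw [if_neg (by rw [ho e]; exact Bool.false_ne_true)]
    linarith [hr1 e]

theorem CK3_Zpos (G : Gr V E) (b l : ℝ) (hb : 0 < b) (K : ℕ) (hK : 0 < K)
    (x y : Fin (6 * K + 1) → ℝ) (hx : ∀ i, 0 ≤ x i) (hy : ∀ i, 0 ≤ y i) :
    0 < ∑ c : SV V E → Fin (6 * K + 1), ∑ o, W G (CK3_M K x y) b l c o := by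
  refine Finset.sum_pos (fun c _ => ?_) ⟨fun _ => 0, Finset.mem_univ _⟩
  refine Finset.sum_pos' (fun o _ => (CK3_W G b l hb K hK x y hx hy c o).1)
    ⟨fun _ => false, Finset.mem_univ _, (CK3_W G b l hb K hK x y hx hy c _).2 fun _ => rfl⟩

theorem W0_pos (G : Gr V E) (b l : ℝ) (hb : 0 < b) (K : ℕ) (hK : 0 < K) :
    0 < ∑ c : SV V E → Fin ((clk K 0).k + 1), ∑ o, W G (clk K 0) b l c o :=
  CK3_Zpos G b l hb K hK _ _ (fun i => (CK3_x01 K hK 0 le_rfl i).1)
    (fun i => (CK3_x01 K hK 0 le_rfl i).2.2.1)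

theorem W0_nonneg (G : Gr V E) (b l : ℝ) (hb : 0 < b) (K : ℕ) (hK : 0 < K)
    (c : SV V E → Fin ((clk K 0).k + 1)) (o : E → Bool) : 0 ≤ W G (clk K 0) b l c o :=
  (CK3_W G b l hb K hK _ _ (fun i => (CK3_x01 K hK 0 le_rfl i).1)
    (fun i => (CK3_x01 K hK 0 le_rfl i).2.2.1) c o).1

/-- ratio of sums as a function of the moduli. -/
noncomputable def CK3_R (G : Gr V E) (b l : ℝ) (K : ℕ)
    (F : (Fin (6 * K + 1) → ℝ) × (Fin (6 * K + 1) → ℝ) → (SV V E → Fin (6 * K + 1)) → (E → Bool) → ℝ)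
    (z : (Fin (6 * K + 1) → ℝ) × (Fin (6 * K + 1) → ℝ)) : ℝ :=
  (∑ c : SV V E → Fin (6 * K + 1), ∑ o, W G (CK3_M K z.1 z.2) b l c o * F z c o) /
    ∑ c : SV V E → Fin (6 * K + 1), ∑ o, W G (CK3_M K z.1 z.2) b l c o

theorem CK3_R_eq (G : Gr V E) (b l : ℝ) (K : ℕ)
    (F : (Fin (6 * K + 1) → ℝ) × (Fin (6 * K + 1) → ℝ) → (SV V E → Fin (6 * K + 1)) → (E → Bool) → ℝ)
    (ε : ℝ) : EW G (clk K ε) b l (F (CK3_x K ε, CK3_y K ε)) =
      CK3_R G b l K F (CK3_x K ε, CK3_y K ε) := rfl

theorem CK3_R_lim (G : Gr V E) (b l : ℝ) (hb : 0 < b) (K : ℕ) (hK : 0 < K)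
    (F : (Fin (6 * K + 1) → ℝ) × (Fin (6 * K + 1) → ℝ) → (SV V E → Fin (6 * K + 1)) → (E → Bool) → ℝ)
    (hF : ∀ c o, Continuous fun z => F z c o) :
    ContinuousAt (CK3_R G b l K F) (CK3_x K 0, CK3_y K 0) := by
  have h2 : Continuous (fun z : (Fin (6 * K + 1) → ℝ) × (Fin (6 * K + 1) → ℝ) =>
      ∑ c : SV V E → Fin (6 * K + 1), ∑ o, W G (CK3_M K z.1 z.2) b l c o * F z c o) :=
    continuous_finsetSum _ fun c _ => continuous_finsetSum _ fun o _ =>
      (CK3_cont G b l K c o).mul (hF c o)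
  have h3 := CK3_Zpos G b l hb K hK _ _ (fun i => (CK3_x01 K hK 0 le_rfl i).1)
    (fun i => (CK3_x01 K hK 0 le_rfl i).2.2.1)
  exact h2.continuousAt.div (CK3_contZ G b l K).continuousAt h3.ne'

/-- general limit. -/
theorem CK3_lim (G : Gr V E) (b l : ℝ) (hb : 0 < b) (K : ℕ) (hK : 0 < K)
    (F : (Fin (6 * K + 1) → ℝ) × (Fin (6 * K + 1) → ℝ) → (SV V E → Fin (6 * K + 1)) → (E → Bool) → ℝ)
    (hF : ∀ c o, Continuous fun z => F z c o) :
    Tendsto (fun ε : ℝ => EW G (clk K ε) b l (F (CK3_x K ε, CK3_y K ε))) (𝓝[>] 0)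
      (𝓝 (EW G (clk K 0) b l (F (CK3_x K 0, CK3_y K 0)))) := by
  simp only [CK3_R_eq]
  exact (CK3_R_lim G b l hb K hK F hF).tendsto.comp (CK3_path K)

theorem EW_lim (G : Gr V E) (b l : ℝ) (hb : 0 < b) (K : ℕ) (hK : 0 < K) (f : (E → Bool) → ℝ) :
    Tendsto (fun ε : ℝ => EW G (clk K ε) b l (fun _ o => f o)) (𝓝[>] 0)
      (𝓝 (EW G (clk K 0) b l (fun _ o => f o))) :=
  CK3_lim G b l hb K hK (fun _ _ o => f o) fun _ _ => continuous_const

/-- small `ε` are good. -/
theorem CK3_ev : ∀ᶠ ε : ℝ in 𝓝[>] 0, 0 < ε ∧ ε ≤ 1 / 4 := by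
  have h1 : ∀ᶠ ε : ℝ in 𝓝[>] 0, 0 < ε := eventually_mem_nhdsWithin
  have h2 : ∀ᶠ ε : ℝ in 𝓝[>] 0, ε < 1 / 4 :=
    (eventually_lt_nhds (by norm_num : (0 : ℝ) < 1 / 4)).filter_mono nhdsWithin_le_nhds
  filter_upwards [h1, h2] with ε h3 h4
  exact ⟨h3, h4.le⟩

theorem asc0 (G : Gr V E) (b l : ℝ) (hb : 0 < b) (K : ℕ) (hK : 0 < K) (f g : (E → Bool) → ℝ)
    (hf : Monotone f) (hg : Monotone g) :
    EW G (clk K 0) b l (fun _ o => f o) * EW G (clk K 0) b l (fun _ o => g o) ≤
      EW G (clk K 0) b l (fun _ o => f o * g o) := by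
  refine le_of_tendsto_of_tendsto ((EW_lim G b l hb K hK f).mul (EW_lim G b l hb K hK g))
    (EW_lim G b l hb K hK (fun o => f o * g o)) ?_
  filter_upwards [CK3_ev] with ε hε
  exact asc G (clk K ε) (clk_ok K hK ε hε.1 hε.2) b l hb (fun _ o => f o) (fun _ o => g o)
    (fun _ _ _ _ _ h => hf h) (fun _ _ _ _ _ h => hg h)

/-- the clock two point function as an expectation of the chain model. -/
theorem CK3_two (G : Gr V E) (b l : ℝ) (K : ℕ) (hK : 0 < K) (u v : V) :
    clE (24 * K) (hS G b l) (fun θ => cosC (θ (Sum.inl u)) * cosC (θ (Sum.inl v))) =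
      EW G (clk K 0) b l (fun c o => (clk K 0).cc (c (Sum.inl u)) * (clk K 0).cc (c (Sum.inl v)) *
        ind (G.Conn (op1 o) u v)) := by
  rw [ck1 G b l K hK (Sum.inl u) (Sum.inl v)]
  unfold EW
  have h4 : (0 : ℝ) < (4 ^ Fintype.card E) ^ 2 := by positivity
  have hW : ∀ (c : SV V E → Fin (6 * K + 1)) (φ : (E → Bool) → ℝ),
      wv (clk K 0) l c * ((4 ^ Fintype.card E * (∏ e, ∏ j : Fin 3, Real.cosh (la G (clk K 0) b c (e, j))) *
        fo G ∅ (rr G (clk K 0) b c) (fun _ => false) φ) *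
        (4 ^ Fintype.card E * (∏ e, ∏ j : Fin 3, Real.cosh (lb G (clk K 0) b c (e, j))) *
          Zv G (tt G (clk K 0) b c))) =
      (4 ^ Fintype.card E) ^ 2 * ∑ o, W G (clk K 0) b l c o * φ o := by
    intro c φ
    unfold fo
    simp only [Finset.notMem_empty, false_imp_iff, implies_true, if_true, Finset.sdiff_empty]
    rw [Finset.mul_sum, Finset.mul_sum, Finset.sum_mul, Finset.mul_sum]
    refine Finset.sum_congr rfl fun o _ => ?_
    unfold W AA
    simp only [Finset.prod_mul_distrib]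
    ring
  have hN : ∀ c : SV V E → Fin (6 * K + 1), wv (clk K 0) l c *
        ((clk K 0).cc (c (Sum.inl u)) * (clk K 0).cc (c (Sum.inl v))) *
        (sgS G (la G (clk K 0) b c) (fun σ => sg (σ (Sum.inl u)) * sg (σ (Sum.inl v))) *
          sgS G (lb G (clk K 0) b c) (fun _ => 1)) =
      (4 ^ Fintype.card E) ^ 2 * ∑ o, W G (clk K 0) b l c o *
        ((clk K 0).cc (c (Sum.inl u)) * (clk K 0).cc (c (Sum.inl v)) * ind (G.Conn (op1 o) u v)) := by
    intro c
    rw [sgS_two, sgS_one]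
    have h5 := hW c (fun o => ind (G.Conn (op1 o) u v))
    have h6 : ∑ o, W G (clk K 0) b l c o *
        ((clk K 0).cc (c (Sum.inl u)) * (clk K 0).cc (c (Sum.inl v)) * ind (G.Conn (op1 o) u v)) =
        ((clk K 0).cc (c (Sum.inl u)) * (clk K 0).cc (c (Sum.inl v))) *
          ∑ o, W G (clk K 0) b l c o * ind (G.Conn (op1 o) u v) := by
      rw [Finset.mul_sum]
      refine Finset.sum_congr rfl fun o _ => ?_
      ring
    unfold rr tt at h5
    rw [h6]
    linear_combination ((clk K 0).cc (c (Sum.inl u)) * (clk K 0).cc (c (Sum.inl v))) * h5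
  have hD : ∀ c : SV V E → Fin (6 * K + 1), wv (clk K 0) l c *
        (sgS G (la G (clk K 0) b c) (fun _ => 1) * sgS G (lb G (clk K 0) b c) (fun _ => 1)) =
      (4 ^ Fintype.card E) ^ 2 * ∑ o, W G (clk K 0) b l c o := by
    intro c
    rw [sgS_one, sgS_one]
    have h5 := hW c (fun _ => 1)
    rw [fo_sum] at h5
    simp only [Finset.notMem_empty, if_false, mul_one] at h5
    rw [← h5]
    unfold rr tt
    rfl
  rw [Finset.sum_congr rfl fun c _ => hN c, Finset.sum_congr rfl fun c _ => hD c, ← Finset.mul_sum,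
    ← Finset.mul_sum, mul_div_mul_left _ _ h4.ne']
  rfl

/-- mean of the modulus. -/
theorem CK3_mean (G : Gr V E) (hG : Deg4 G) (M : Al) (hM : M.Ok) (b l : ℝ) (hb : 0 < b) (hl : 0 ≤ l)
    (w : SV V E) : Real.exp (-(8 * b + l)) / 5 ≤ EW G M b l (fun c _ => M.cc (c w)) := by
  have h1 := fin_en G hG M hM b l hb hl ∅ ∅ (by simp) (fun _ => 0) (by simp) (by simp)
    (fun _ => 0) (fun _ => false) w (by simp) M.hi
  have h2 : ∀ f, EB G M b l ∅ ∅ (fun _ => 0) (fun _ => 0) (fun _ => false) f = EW G M b l f := by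
    intro f
    have h3 : ∀ f, SB G M b l ∅ ∅ (fun _ => 0) (fun _ => 0) (fun _ => false) f =
        ∑ c, ∑ o, W G M b l c o * f c o := by
      intro f
      unfold SB
      refine Finset.sum_congr rfl fun c _ => Finset.sum_congr rfl fun o _ => ?_
      rw [if_pos ⟨by simp, by simp⟩]
      unfold WB W
      simp
    unfold EB EW
    rw [h3, h3]
    simp
  rw [h2] at h1
  have hZ : 0 < ∑ c, ∑ o, W G M b l c o :=
    Finset.sum_pos (fun c _ => Finset.sum_pos (fun o _ => W_pos G M hM b l hb c o)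
      ⟨fun _ => false, Finset.mem_univ _⟩) ⟨fun _ => 0, Finset.mem_univ _⟩
  have h3 : (4 / 5 : ℝ) * EW G M b l (fun c _ => if c w ∈ M.hi then 1 else 0) ≤
      EW G M b l (fun c _ => M.cc (c w)) := by
    unfold EW
    rw [← mul_div_assoc]
    refine div_le_div_of_nonneg_right ?_ hZ.le
    rw [Finset.mul_sum]
    refine Finset.sum_le_sum fun c _ => ?_
    rw [Finset.mul_sum]
    refine Finset.sum_le_sum fun o _ => ?_
    rw [mul_left_comm]
    refine mul_le_mul_of_nonneg_left ?_ (W_pos G M hM b l hb c o).le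
    show 4 / 5 * (if c w ∈ M.hi then (1 : ℝ) else 0) ≤ M.cc (c w)
    split_ifs with h
    · linarith [((CK3_mem_hi M (c w)).1 h).1]
    · linarith [hM.cc0 (c w)]
  have h4 : Real.exp (-(8 * b + l)) * (1 / 4) ≤ Real.exp (-(8 * b + l)) * ∑ v ∈ M.hi, M.nu v :=
    mul_le_mul_of_nonneg_left hM.hi (Real.exp_pos _).le
  linarith

/-- monotonicity of connections. -/
theorem CK3_conn_mono (G : Gr V E) (u v : V) : Monotone (fun o : E → Bool => ind (G.Conn (op1 o) u v)) := by
  intro o o' h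
  show ind (G.Conn (op1 o) u v) ≤ ind (G.Conn (op1 o') u v)
  unfold ind
  by_cases h1 : G.Conn (op1 o) u v
  · have h2 : G.Conn (op1 o') u v := by
      refine Relation.ReflTransGen.mono ?_ _ _ h1
      rintro x y ⟨e, he, hxy⟩
      refine ⟨e, ?_, hxy⟩
      have h3 := h e
      have he' : o e = true := he
      rw [he'] at h3
      show o' e = true
      cases h4 : o' e
      · rw [h4] at h3
        exact absurd h3 (by simp)
      · rfl
    rw [if_pos h1, if_pos h2]
  · rw [if_neg h1]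
    split_ifs <;> norm_num

theorem CK3_ind01 (p : Prop) : 0 ≤ ind p ∧ ind p ≤ 1 := by
  unfold ind
  split_ifs <;> norm_num

/-- lower bound of the clock two point function. -/
theorem low0 (G : Gr V E) (hG : Deg4 G) (b l : ℝ) (hb : 0 < b) (hl : 0 ≤ l) (K : ℕ) (hK : 0 < K) (u v : V) :
    (Real.exp (-(8 * b + l)) / 5) ^ 2 * EW G (clk K 0) b l (fun _ o => ind (G.Conn (op1 o) u v)) ≤
      clE (24 * K) (hS G b l) (fun θ => cosC (θ (Sum.inl u)) * cosC (θ (Sum.inl v))) := by
  rw [CK3_two G b l K hK u v]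
  have hlim := CK3_lim G b l hb K hK
    (fun z c o => z.1 (c (Sum.inl u)) * z.1 (c (Sum.inl v)) * ind (G.Conn (op1 o) u v))
    (fun c o => by fun_prop)
  refine le_of_tendsto_of_tendsto
    ((EW_lim G b l hb K hK (fun o => ind (G.Conn (op1 o) u v))).const_mul
      ((Real.exp (-(8 * b + l)) / 5) ^ 2)) hlim ?_
  filter_upwards [CK3_ev] with ε hε
  have hM := clk_ok K hK ε hε.1 hε.2
  have m1 := CK3_mean G hG (clk K ε) hM b l hb hl (Sum.inl u)
  have m2 := CK3_mean G hG (clk K ε) hM b l hb hl (Sum.inl v)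
  have hi := CK3_conn_mono G u v
  have a1 := asc G (clk K ε) hM b l hb (fun c _ => (clk K ε).cc (c (Sum.inl u)))
    (fun c o => (clk K ε).cc (c (Sum.inl v)) * ind (G.Conn (op1 o) u v))
    (fun c c' _ _ hc _ => hM.mono (hc _))
    (fun c c' o o' hc ho => mul_le_mul (hM.mono (hc _)) (hi ho) (CK3_ind01 _).1 (hM.cc0 _).le)
  have a2 := asc G (clk K ε) hM b l hb (fun c _ => (clk K ε).cc (c (Sum.inl v)))
    (fun c o => ind (G.Conn (op1 o) u v))
    (fun c c' _ _ hc _ => hM.mono (hc _))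
    (fun c c' o o' _ ho => hi ho)
  have hZ : 0 < ∑ c, ∑ o, W G (clk K ε) b l c o :=
    Finset.sum_pos (fun c _ => Finset.sum_pos (fun o _ => W_pos G (clk K ε) hM b l hb c o)
      ⟨fun _ => false, Finset.mem_univ _⟩) ⟨fun _ => 0, Finset.mem_univ _⟩
  have hI : 0 ≤ EW G (clk K ε) b l (fun c o => ind (G.Conn (op1 o) u v)) := by
    unfold EW
    refine div_nonneg (Finset.sum_nonneg fun c _ => Finset.sum_nonneg fun o _ => ?_) hZ.le
    exact mul_nonneg (W_pos G (clk K ε) hM b l hb c o).le (CK3_ind01 _).1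
  have hq : 0 < Real.exp (-(8 * b + l)) / 5 := by positivity
  have e1 : (fun (c : SV V E → Fin ((clk K ε).k + 1)) (o : E → Bool) =>
      (clk K ε).cc (c (Sum.inl u)) * ((clk K ε).cc (c (Sum.inl v)) * ind (G.Conn (op1 o) u v))) =
      fun c o => (clk K ε).cc (c (Sum.inl u)) * (clk K ε).cc (c (Sum.inl v)) *
        ind (G.Conn (op1 o) u v) := by
    funext c o
    ring
  rw [e1] at a1
  have s1 : Real.exp (-(8 * b + l)) / 5 * EW G (clk K ε) b l (fun c o => ind (G.Conn (op1 o) u v)) ≤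
      EW G (clk K ε) b l (fun c o => (clk K ε).cc (c (Sum.inl v)) * ind (G.Conn (op1 o) u v)) :=
    (mul_le_mul_of_nonneg_right m2 hI).trans a2
  have s2 : Real.exp (-(8 * b + l)) / 5 * (Real.exp (-(8 * b + l)) / 5 *
      EW G (clk K ε) b l (fun c o => ind (G.Conn (op1 o) u v))) ≤
      EW G (clk K ε) b l (fun c _ => (clk K ε).cc (c (Sum.inl u))) *
      EW G (clk K ε) b l (fun c o => (clk K ε).cc (c (Sum.inl v)) * ind (G.Conn (op1 o) u v)) :=
    mul_le_mul m1 s1 (mul_nonneg hq.le hI) (hq.le.trans m1)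
  have s3 := s2.trans a1
  rw [sq, mul_assoc]
  exact s3

/-- upper bound. -/
theorem up0 (G : Gr V E) (b l : ℝ) (hb : 0 < b) (K : ℕ) (hK : 0 < K) (p q : SV V E) :
    clE (24 * K) (hS G b l) (fun θ => cosC (θ p) * cosC (θ q)) ≤
      ∑ x ∈ en G p, ∑ y ∈ en G q, EW G (clk K 0) b l (fun _ o => ind (G.Conn (op1 o) x y)) := by
  rw [ck1 G b l K hK p q]
  have h4 : (0 : ℝ) < (4 ^ Fintype.card E) ^ 2 := by positivity
  have hx := fun i => CK3_x01 K hK 0 le_rfl i
  have hla : ∀ (c : SV V E → Fin (6 * K + 1)) t, 0 ≤ la G (clk K 0) b c t := fun c t =>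
    mul_nonneg hb.le (mul_nonneg (hx _).1 (hx _).1)
  have hlb : ∀ (c : SV V E → Fin (6 * K + 1)) t, 0 ≤ lb G (clk K 0) b c t := fun c t =>
    mul_nonneg hb.le (mul_nonneg (hx _).2.2.1 (hx _).2.2.1)
  have hW : ∀ (c : SV V E → Fin (6 * K + 1)) (φ : (E → Bool) → ℝ),
      wv (clk K 0) l c * ((4 ^ Fintype.card E * (∏ e, ∏ j : Fin 3, Real.cosh (la G (clk K 0) b c (e, j))) *
        fo G ∅ (rr G (clk K 0) b c) (fun _ => false) φ) *
        (4 ^ Fintype.card E * (∏ e, ∏ j : Fin 3, Real.cosh (lb G (clk K 0) b c (e, j))) *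
          Zv G (tt G (clk K 0) b c))) =
      (4 ^ Fintype.card E) ^ 2 * ∑ o, W G (clk K 0) b l c o * φ o := by
    intro c φ
    unfold fo
    simp only [Finset.notMem_empty, false_imp_iff, implies_true, if_true, Finset.sdiff_empty]
    rw [Finset.mul_sum, Finset.mul_sum, Finset.sum_mul, Finset.mul_sum]
    refine Finset.sum_congr rfl fun o _ => ?_
    unfold W AA
    simp only [Finset.prod_mul_distrib]
    ring
  have hD : ∀ c : SV V E → Fin (6 * K + 1), wv (clk K 0) l c *
        (sgS G (la G (clk K 0) b c) (fun _ => 1) * sgS G (lb G (clk K 0) b c) (fun _ => 1)) =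
      (4 ^ Fintype.card E) ^ 2 * ∑ o, W G (clk K 0) b l c o := by
    intro c
    rw [sgS_one, sgS_one]
    have h5 := hW c (fun _ => 1)
    rw [fo_sum] at h5
    simp only [Finset.notMem_empty, if_false, mul_one] at h5
    rw [← h5]
    unfold rr tt
    rfl
  have hT : ∀ (c : SV V E → Fin (6 * K + 1)) (x y : V), wv (clk K 0) l c *
        (sgS G (la G (clk K 0) b c) (fun σ => sg (σ (Sum.inl x)) * sg (σ (Sum.inl y))) *
          sgS G (lb G (clk K 0) b c) (fun _ => 1)) =
      (4 ^ Fintype.card E) ^ 2 * ∑ o, W G (clk K 0) b l c o * ind (G.Conn (op1 o) x y) := by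
    intro c x y
    rw [sgS_two, sgS_one]
    have h5 := hW c (fun o => ind (G.Conn (op1 o) x y))
    rw [← h5]
    unfold rr tt
    rfl
  have hwv : ∀ c : SV V E → Fin (6 * K + 1), 0 < wv (clk K 0) l c := fun c =>
    Finset.prod_pos fun w _ => mul_pos (CK3_nu_pos K hK _ _ _) (Real.exp_pos _)
  have hone : ∀ c : SV V E → Fin (6 * K + 1), 0 ≤ sgS G (lb G (clk K 0) b c) (fun _ => 1) := by
    intro c
    unfold sgS
    exact Finset.sum_nonneg fun σ _ => mul_nonneg zero_le_one (Finset.prod_nonneg fun t _ => (Real.exp_pos _).le)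
  have hnn : ∀ (c : SV V E → Fin (6 * K + 1)) (x y : V),
      0 ≤ sgS G (la G (clk K 0) b c) (fun σ => sg (σ (Sum.inl x)) * sg (σ (Sum.inl y))) := by
    intro c x y
    rw [sgS_two]
    refine mul_nonneg (mul_nonneg (by positivity) (Finset.prod_nonneg fun e _ =>
      Finset.prod_nonneg fun j _ => (Real.cosh_pos _).le)) ?_
    unfold fo
    refine Finset.sum_nonneg fun o _ => ?_
    split_ifs
    · refine mul_nonneg (mul_nonneg (Finset.prod_nonneg fun e _ => ?_) (Zv_pos G (bt o) ?_ ?_).le)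
        (CK3_ind01 _).1
      · have r0 : 0 ≤ ∏ j : Fin 3, Real.tanh (la G (clk K 0) b c (e, j)) :=
          Finset.prod_nonneg fun j _ => CK3_tanh_nonneg (hla c (e, j))
        have r1 : ∏ j : Fin 3, Real.tanh (la G (clk K 0) b c (e, j)) ≤ 1 :=
          Finset.prod_le_one (fun j _ => CK3_tanh_nonneg (hla c (e, j))) fun j _ => (CK3_tanh_lt _).le
        split_ifs
        · exact r0
        · linarith
      · intro e
        unfold bt
        split_ifs <;> norm_num
      · intro e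
        unfold bt
        split_ifs <;> norm_num
    · exact le_rfl
  have hnum : ∀ c : SV V E → Fin (6 * K + 1), wv (clk K 0) l c *
        ((clk K 0).cc (c p) * (clk K 0).cc (c q)) *
        (sgS G (la G (clk K 0) b c) (fun σ => sg (σ p) * sg (σ q)) * sgS G (lb G (clk K 0) b c) (fun _ => 1)) ≤
      ∑ x ∈ en G p, ∑ y ∈ en G q,
        (4 ^ Fintype.card E) ^ 2 * ∑ o, W G (clk K 0) b l c o * ind (G.Conn (op1 o) x y) := by
    intro c
    have e1 : ∑ x ∈ en G p, ∑ y ∈ en G q,
        (4 ^ Fintype.card E) ^ 2 * ∑ o, W G (clk K 0) b l c o * ind (G.Conn (op1 o) x y) =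
        wv (clk K 0) l c * sgS G (lb G (clk K 0) b c) (fun _ => 1) *
        ∑ x ∈ en G p, ∑ y ∈ en G q,
          sgS G (la G (clk K 0) b c) (fun σ => sg (σ (Sum.inl x)) * sg (σ (Sum.inl y))) := by
      rw [Finset.mul_sum]
      refine Finset.sum_congr rfl fun x _ => ?_
      rw [Finset.mul_sum]
      refine Finset.sum_congr rfl fun y _ => ?_
      rw [← hT]
      ring
    rw [e1]
    have h6 := sgS_ends G (la G (clk K 0) b c) (hla c) p q
    have h7 : 0 ≤ ∑ x ∈ en G p, ∑ y ∈ en G q,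
        sgS G (la G (clk K 0) b c) (fun σ => sg (σ (Sum.inl x)) * sg (σ (Sum.inl y))) :=
      Finset.sum_nonneg fun x _ => Finset.sum_nonneg fun y _ => hnn c x y
    have h8 : 0 ≤ (clk K 0).cc (c p) * (clk K 0).cc (c q) := mul_nonneg (hx _).1 (hx _).1
    have h9 : (clk K 0).cc (c p) * (clk K 0).cc (c q) ≤ 1 :=
      mul_le_one₀ (hx _).2.1 (hx _).1 (hx _).2.1
    have h10 : ((clk K 0).cc (c p) * (clk K 0).cc (c q)) *
        sgS G (la G (clk K 0) b c) (fun σ => sg (σ p) * sg (σ q)) ≤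
        ∑ x ∈ en G p, ∑ y ∈ en G q,
          sgS G (la G (clk K 0) b c) (fun σ => sg (σ (Sum.inl x)) * sg (σ (Sum.inl y))) := by
      refine (mul_le_mul_of_nonneg_left h6 h8).trans ?_
      calc _ ≤ 1 * ∑ x ∈ en G p, ∑ y ∈ en G q,
          sgS G (la G (clk K 0) b c) (fun σ => sg (σ (Sum.inl x)) * sg (σ (Sum.inl y))) :=
            mul_le_mul_of_nonneg_right h9 h7
        _ = _ := one_mul _
    have h11 := mul_le_mul_of_nonneg_left h10 (mul_nonneg (hwv c).le (hone c))
    calc _ = wv (clk K 0) l c * sgS G (lb G (clk K 0) b c) (fun _ => 1) *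
        (((clk K 0).cc (c p) * (clk K 0).cc (c q)) *
        sgS G (la G (clk K 0) b c) (fun σ => sg (σ p) * sg (σ q))) := by ring
      _ ≤ _ := h11
  have hZ := W0_pos G b l hb K hK
  have hZ' : 0 < (4 ^ Fintype.card E) ^ 2 * ∑ c : SV V E → Fin (6 * K + 1), ∑ o, W G (clk K 0) b l c o :=
    mul_pos h4 hZ
  rw [Finset.sum_congr rfl fun c _ => hD c, ← Finset.mul_sum, div_le_iff₀ hZ']
  refine (Finset.sum_le_sum fun c _ => hnum c).trans (le_of_eq ?_)
  rw [Finset.sum_mul, Finset.sum_comm]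
  refine Finset.sum_congr rfl fun x _ => ?_
  rw [Finset.sum_mul, Finset.sum_comm]
  refine Finset.sum_congr rfl fun y _ => ?_
  rw [← Finset.mul_sum]
  have h12 : EW G (clk K 0) b l (fun _ o => ind (G.Conn (op1 o) x y)) *
      ∑ c : SV V E → Fin (6 * K + 1), ∑ o, W G (clk K 0) b l c o =
      ∑ c : SV V E → Fin (6 * K + 1), ∑ o, W G (clk K 0) b l c o * ind (G.Conn (op1 o) x y) := by
    unfold EW
    exact div_mul_cancel₀ _ hZ.ne'
  rw [mul_left_comm, h12]

/-- the covariance as a function of the moduli. -/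
noncomputable def CK3_C (G : Gr V E) (b l : ℝ) (K : ℕ) (f : (E → Bool) → ℝ) (w : SV V E)
    (z : (Fin (6 * K + 1) → ℝ) × (Fin (6 * K + 1) → ℝ)) : ℝ :=
  (∑ x : (∀ i, XI (6 * K) V E i), (W G (CK3_M K z.1 z.2) b l (pc x) (po x) /
      ∑ c : SV V E → Fin (6 * K + 1), ∑ o, W G (CK3_M K z.1 z.2) b l c o) *
      (f (po x) * z.1 (pc x w) ^ 2)) -
    (∑ x : (∀ i, XI (6 * K) V E i), (W G (CK3_M K z.1 z.2) b l (pc x) (po x) /
      ∑ c : SV V E → Fin (6 * K + 1), ∑ o, W G (CK3_M K z.1 z.2) b l c o) * f (po x)) *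
    ∑ x : (∀ i, XI (6 * K) V E i), (W G (CK3_M K z.1 z.2) b l (pc x) (po x) /
      ∑ c : SV V E → Fin (6 * K + 1), ∑ o, W G (CK3_M K z.1 z.2) b l c o) * z.1 (pc x w) ^ 2

theorem CK3_C_eq (G : Gr V E) (b l : ℝ) (K : ℕ) (f : (E → Bool) → ℝ) (w : SV V E) (ε : ℝ) :
    cv G (clk K ε) b l (fun y => f (po y)) w = CK3_C G b l K f w (CK3_x K ε, CK3_y K ε) := rfl

theorem CK3_C_cont (G : Gr V E) (b l : ℝ) (hb : 0 < b) (K : ℕ) (hK : 0 < K) (f : (E → Bool) → ℝ)
    (w : SV V E) : ContinuousAt (CK3_C G b l K f w) (CK3_x K 0, CK3_y K 0) := by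
  have hne : ∑ c : SV V E → Fin (6 * K + 1), ∑ o, W G (CK3_M K (CK3_x K 0) (CK3_y K 0)) b l c o ≠ 0 :=
    (CK3_Zpos G b l hb K hK _ _ (fun i => (CK3_x01 K hK 0 le_rfl i).1)
        (fun i => (CK3_x01 K hK 0 le_rfl i).2.2.1)).ne'
  have hm : ∀ x : (∀ i, XI (6 * K) V E i),
      ContinuousAt (fun z : (Fin (6 * K + 1) → ℝ) × (Fin (6 * K + 1) → ℝ) =>
        W G (CK3_M K z.1 z.2) b l (pc x) (po x) /
      ∑ c : SV V E → Fin (6 * K + 1), ∑ o, W G (CK3_M K z.1 z.2) b l c o) (CK3_x K 0, CK3_y K 0) := by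
    intro x
    exact (CK3_cont G b l K (pc x) (po x)).continuousAt.div (CK3_contZ G b l K).continuousAt hne
  have hc : ∀ x : (∀ i, XI (6 * K) V E i),
      ContinuousAt (fun z : (Fin (6 * K + 1) → ℝ) × (Fin (6 * K + 1) → ℝ) =>
        z.1 (pc x w) ^ 2) (CK3_x K 0, CK3_y K 0) := by
    intro x
    have h1 : Continuous (fun z : (Fin (6 * K + 1) → ℝ) × (Fin (6 * K + 1) → ℝ) =>
        z.1 (pc x w) ^ 2) := by fun_prop
    exact h1.continuousAt
  unfold CK3_C
  refine ContinuousAt.sub ?_ (ContinuousAt.mul ?_ ?_)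
  · exact tendsto_finsetSum _ fun x _ => (hm x).mul (continuousAt_const.mul (hc x))
  · exact tendsto_finsetSum _ fun x _ => (hm x).mul continuousAt_const
  · exact tendsto_finsetSum _ fun x _ => (hm x).mul (hc x)

/-- continuity of the covariances. -/
theorem CK3_cv (G : Gr V E) (b l : ℝ) (hb : 0 < b) (K : ℕ) (hK : 0 < K) (f : (E → Bool) → ℝ) (w : SV V E) :
    Tendsto (fun ε : ℝ => cv G (clk K ε) b l (fun y => f (po y)) w) (𝓝[>] 0)
      (𝓝 (cv G (clk K 0) b l (fun y => f (po y)) w)) := by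
  simp only [CK3_C_eq]
  exact (CK3_C_cont G b l hb K hK f w).tendsto.comp (CK3_path K)

end gen

theorem CK3_hasDeriv (L : ℕ) [NeZero L] (K : ℕ) (hK : 0 < K) (b : ℝ) (hb : 0 < b) (ε : ℝ) (hε : 0 ≤ ε)
    (n : ℕ) (l : ℝ) : HasDerivAt (fT L (clk K ε) b n)
      (∑ w, pn w * cv (TD L) (clk K ε) b l (fun y => ind (armT n 0 (po y))) w) l :=
  EW_deriv (TD L) (clk K ε) b
    (fun l => CK3_Zpos (TD L) b l hb K hK _ _ (fun i => (CK3_x01 K hK ε hε i).1)
      (fun i => (CK3_x01 K hK ε hε i).2.2.1)) (fun o => ind (armT n 0 o)) l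

theorem fT_DR0 (b Λ : ℝ) (hb : 0 < b) (hΛ : 0 < Λ) : ∃ C0 : ℝ, 0 < C0 ∧
    ∀ (L : ℕ) [NeZero L] (K : ℕ), 0 < K → DR C0 Λ (fT L (clk K 0) b) := by
  obtain ⟨C0, hC0, h⟩ := fT_DR b Λ hb hΛ
  refine ⟨C0, hC0, ?_⟩
  intro L _ K hK
  have hd : ∀ ε : ℝ, 0 < ε ∧ ε ≤ 1 / 4 → DR C0 Λ (fT L (clk K ε) b) := fun ε hε =>
    h L (clk K ε) (clk_ok K hK ε hε.1 hε.2)
  have hl : ∀ n l, Tendsto (fun ε : ℝ => fT L (clk K ε) b n l) (𝓝[>] 0) (𝓝 (fT L (clk K 0) b n l)) :=
    fun n l => EW_lim (TD L) b l hb K hK (fun o => ind (armT n 0 o))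
  have hdl : ∀ n l, Tendsto (fun ε : ℝ => deriv (fT L (clk K ε) b n) l) (𝓝[>] 0)
      (𝓝 (deriv (fT L (clk K 0) b n) l)) := by
    intro n l
    rw [(CK3_hasDeriv L K hK b hb 0 le_rfl n l).deriv]
    have h1 : Tendsto (fun ε : ℝ => ∑ w, pn w * cv (TD L) (clk K ε) b l (fun y => ind (armT n 0 (po y))) w)
        (𝓝[>] 0) (𝓝 (∑ w, pn w * cv (TD L) (clk K 0) b l (fun y => ind (armT n 0 (po y))) w)) :=
      tendsto_finsetSum _ fun w _ => (CK3_cv (TD L) b l hb K hK (fun o => ind (armT n 0 o)) w).const_mul _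
    refine h1.congr' ?_
    filter_upwards [CK3_ev] with ε hε
    rw [(CK3_hasDeriv L K hK b hb ε hε.1.le n l).deriv]
  refine ⟨?_, ?_, ?_, ?_, ?_, ?_⟩
  · intro l hl'
    refine tendsto_nhds_unique (hl 0 l) ?_
    refine (tendsto_const_nhds (x := (1 : ℝ))).congr' ?_
    filter_upwards [CK3_ev] with ε hε
    exact ((hd ε hε).zero l hl').symm
  · intro n l hl'
    refine ge_of_tendsto (hl n l) ?_
    filter_upwards [CK3_ev] with ε hε
    exact (hd ε hε).nonneg n l hl'
  · intro n l hl'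
    refine le_of_tendsto_of_tendsto (hl (n + 1) l) (hl n l) ?_
    filter_upwards [CK3_ev] with ε hε
    exact (hd ε hε).anti n l hl'
  · intro n l hl' l' hl'' hll
    refine le_of_tendsto_of_tendsto (hl n l) (hl n l') ?_
    filter_upwards [CK3_ev] with ε hε
    exact (hd ε hε).mono n hl' hl'' hll
  · intro n l
    exact (CK3_hasDeriv L K hK b hb 0 le_rfl n l).differentiableAt
  · intro n l hl'
    refine le_of_tendsto_of_tendsto ((hl n l).const_mul (n : ℝ))
      (((tendsto_finsetSum _ fun j _ => hl j l).const_mul C0).mul (hdl n l)) ?_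
    filter_upwards [CK3_ev] with ε hε
    exact (hd ε hε).ineq n l hl'

end H82.BX

end S_H82_BX_CK3
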