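import Mathlib
import Pool.Agent.H82.BXM.G01

/-! MP_26628e_mp: this file joins several modules to save build time. -/

section S_H2_XY_GB

/-!
# GB: closure properties of the Ginibre cone `Gin`

Proof.
* `IsK` is closed under sums (concatenate the families: use `Fin.append` or go through an arbitrary
  finite index type), products (`(∑ gᵢ(a) gᵢ(b)) (∑ kⱼ(a) kⱼ(b)) = ∑ᵢⱼ (gᵢkⱼ)(a) (gᵢkⱼ)(b)`),
  multiplication by a constant `c ≥ 0` (replace `gᵢ` by `√c gᵢ`), contains the constants `c ≥ 0`.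
* Write `S F (a,b) = F(a+b) + F(a-b)`, `D F (a,b) = F(a-b) - F(a+b)`.  Then
  `S (FG) = (SF·SG + DF·DG)/2`, `D (FG) = (DF·SG + SF·DG)/2`; `S`, `D` are linear; `S c = 2c`,
  `D c = 0`.  Hence `Obs` is closed under sums, products, nonnegative multiples and contains the
  nonnegative constants.
* For a continuous homomorphism `χ : X → Cir` and `F = cosC ∘ χ`:
  `S F = 2 cos χ(a) cos χ(b)`, `D F = 2 sin χ(a) sin χ(b)` by the addition theorems
  (`cosC_add`, `cosC_sub`): so `Obs F`.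
* The closure in `C(X, ℝ)` of a set closed under `+`, `*`, `c •` (c ≥ 0) is again closed under these
  (continuity of the operations: `map_mem_closure₂`, ...).
* `exp`: for `f ∈ closure Obs` the partial sums `∑_{n<N} f^n / n!` are in the closure of `Obs` and
  converge to `exp ∘ f` uniformly (`‖f‖` bounded; `NormedSpace.exp` in the Banach algebra `C(X, ℝ)`,
  or the real estimate `|exp y - ∑_{n<N} y^n/n!| ≤ ...` for `|y| ≤ ‖f‖`), and the closure is closed.
-/

set_option linter.unusedSectionVars false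

open MeasureTheory Set

noncomputable section

namespace XYB

variable {X : Type*} [AddCommGroup X] [TopologicalSpace X] [IsTopologicalAddGroup X]
  [CompactSpace X] [MeasurableSpace X] [BorelSpace X] [SecondCountableTopology X]

omit [AddCommGroup X] [IsTopologicalAddGroup X] [CompactSpace X] [MeasurableSpace X]
  [BorelSpace X] [SecondCountableTopology X] in
lemma GB_isK_of_fintype {Φ : X → X → ℝ} {κ : Type*} [Fintype κ] (g : κ → C(X, ℝ))
    (h : ∀ a b, Φ a b = ∑ k, g k a * g k b) : IsK Φ := by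
  refine ⟨Fintype.card κ, fun i => g ((Fintype.equivFin κ).symm i), fun a b => ?_⟩
  rw [h a b]
  exact (Equiv.sum_comp (Fintype.equivFin κ).symm (fun k => g k a * g k b)).symm

omit [AddCommGroup X] [IsTopologicalAddGroup X] [CompactSpace X] [MeasurableSpace X]
  [BorelSpace X] [SecondCountableTopology X] in
lemma GB_isK_add {Φ Ψ : X → X → ℝ} (h1 : IsK Φ) (h2 : IsK Ψ) :
    IsK (fun a b => Φ a b + Ψ a b) := by
  obtain ⟨n, g, hg⟩ := h1
  obtain ⟨m, k, hk⟩ := h2
  refine GB_isK_of_fintype (κ := Fin n ⊕ Fin m) (Sum.elim g k) (fun a b => ?_)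
  rw [Fintype.sum_sum_type, hg a b, hk a b]
  rfl

omit [AddCommGroup X] [IsTopologicalAddGroup X] [CompactSpace X] [MeasurableSpace X]
  [BorelSpace X] [SecondCountableTopology X] in
lemma GB_isK_mul {Φ Ψ : X → X → ℝ} (h1 : IsK Φ) (h2 : IsK Ψ) :
    IsK (fun a b => Φ a b * Ψ a b) := by
  obtain ⟨n, g, hg⟩ := h1
  obtain ⟨m, k, hk⟩ := h2
  refine GB_isK_of_fintype (κ := Fin n × Fin m) (fun p => g p.1 * k p.2) (fun a b => ?_)
  rw [Fintype.sum_prod_type, hg a b, hk a b, Finset.sum_mul_sum]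
  refine Finset.sum_congr rfl fun i _ => Finset.sum_congr rfl fun j _ => ?_
  simp only [ContinuousMap.mul_apply]
  ring

omit [AddCommGroup X] [IsTopologicalAddGroup X] [CompactSpace X] [MeasurableSpace X]
  [BorelSpace X] [SecondCountableTopology X] in
lemma GB_isK_const {c : ℝ} (hc : 0 ≤ c) : IsK (fun _ _ : X => c) := by
  refine GB_isK_of_fintype (κ := Unit) (fun _ => ContinuousMap.const X (Real.sqrt c))
    (fun a b => ?_)
  simp [Real.mul_self_sqrt hc]

omit [AddCommGroup X] [IsTopologicalAddGroup X] [CompactSpace X] [MeasurableSpace X]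
  [BorelSpace X] [SecondCountableTopology X] in
lemma GB_isK_congr {Φ Ψ : X → X → ℝ} (h1 : IsK Φ) (h : ∀ a b, Φ a b = Ψ a b) : IsK Ψ := by
  obtain ⟨n, g, hg⟩ := h1
  exact ⟨n, g, fun a b => by rw [← h a b, hg a b]⟩

omit [IsTopologicalAddGroup X] [CompactSpace X] [MeasurableSpace X]
  [BorelSpace X] [SecondCountableTopology X] in
lemma GB_obs_add {F G : C(X, ℝ)} (hF : Obs F) (hG : Obs G) : Obs (F + G) := by
  refine ⟨GB_isK_congr (GB_isK_add hF.1 hG.1) fun a b => ?_,
    GB_isK_congr (GB_isK_add hF.2 hG.2) fun a b => ?_⟩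
  · simp only [ContinuousMap.add_apply]; ring
  · simp only [ContinuousMap.add_apply]; ring

omit [IsTopologicalAddGroup X] [CompactSpace X] [MeasurableSpace X]
  [BorelSpace X] [SecondCountableTopology X] in
lemma GB_obs_mul {F G : C(X, ℝ)} (hF : Obs F) (hG : Obs G) : Obs (F * G) := by
  have h2 : (0 : ℝ) ≤ 1 / 2 := by norm_num
  refine ⟨GB_isK_congr (GB_isK_mul (GB_isK_const h2) (GB_isK_add (GB_isK_mul hF.1 hG.1)
      (GB_isK_mul hF.2 hG.2))) fun a b => ?_,
    GB_isK_congr (GB_isK_mul (GB_isK_const h2) (GB_isK_add (GB_isK_mul hF.2 hG.1)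
      (GB_isK_mul hF.1 hG.2))) fun a b => ?_⟩
  · simp only [ContinuousMap.mul_apply]; ring
  · simp only [ContinuousMap.mul_apply]; ring

omit [IsTopologicalAddGroup X] [CompactSpace X] [MeasurableSpace X]
  [BorelSpace X] [SecondCountableTopology X] in
lemma GB_obs_const {c : ℝ} (hc : 0 ≤ c) : Obs (ContinuousMap.const X c) := by
  refine ⟨GB_isK_congr (GB_isK_const (show (0 : ℝ) ≤ c + c by linarith)) fun a b => ?_,
    GB_isK_congr (GB_isK_const (le_refl (0 : ℝ))) fun a b => ?_⟩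
  · simp
  · simp

omit [MeasurableSpace X] [BorelSpace X] [SecondCountableTopology X]
  [IsTopologicalAddGroup X] in
lemma GB_cl_add {F G : C(X, ℝ)} (hF : F ∈ closure {G : C(X, ℝ) | Obs G})
    (hG : G ∈ closure {G : C(X, ℝ) | Obs G}) : F + G ∈ closure {G : C(X, ℝ) | Obs G} :=
  map_mem_closure₂ continuous_add hF hG fun _ ha _ hb => GB_obs_add ha hb

omit [MeasurableSpace X] [BorelSpace X] [SecondCountableTopology X]
  [IsTopologicalAddGroup X] in
lemma GB_cl_mul {F G : C(X, ℝ)} (hF : F ∈ closure {G : C(X, ℝ) | Obs G})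
    (hG : G ∈ closure {G : C(X, ℝ) | Obs G}) : F * G ∈ closure {G : C(X, ℝ) | Obs G} :=
  map_mem_closure₂ continuous_mul hF hG fun _ ha _ hb => GB_obs_mul ha hb

omit [MeasurableSpace X] [BorelSpace X] [SecondCountableTopology X]
  [IsTopologicalAddGroup X] in
lemma GB_cl_const {c : ℝ} (hc : 0 ≤ c) :
    ContinuousMap.const X c ∈ closure {G : C(X, ℝ) | Obs G} :=
  subset_closure (GB_obs_const hc)

omit [MeasurableSpace X] [BorelSpace X] [SecondCountableTopology X]
  [IsTopologicalAddGroup X] in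
lemma GB_cl_pow {F : C(X, ℝ)} (hF : F ∈ closure {G : C(X, ℝ) | Obs G}) (n : ℕ) :
    F ^ n ∈ closure {G : C(X, ℝ) | Obs G} := by
  induction n with
  | zero =>
    rw [pow_zero]
    exact GB_cl_const (X := X) zero_le_one
  | succ n ih =>
    rw [pow_succ]
    exact GB_cl_mul ih hF

omit [MeasurableSpace X] [BorelSpace X] [SecondCountableTopology X]
  [IsTopologicalAddGroup X] in
lemma GB_cl_smul {F : C(X, ℝ)} (hF : F ∈ closure {G : C(X, ℝ) | Obs G}) {c : ℝ} (hc : 0 ≤ c) :
    c • F ∈ closure {G : C(X, ℝ) | Obs G} := by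
  have h := GB_cl_mul (GB_cl_const (X := X) hc) hF
  have e : ContinuousMap.const X c * F = c • F := by
    ext x; simp
  rwa [e] at h

omit [MeasurableSpace X] [BorelSpace X] [SecondCountableTopology X]
  [IsTopologicalAddGroup X] in
lemma GB_cl_sum {κ : Type*} (s : Finset κ) {F : κ → C(X, ℝ)}
    (hF : ∀ k ∈ s, F k ∈ closure {G : C(X, ℝ) | Obs G}) :
    ∑ k ∈ s, F k ∈ closure {G : C(X, ℝ) | Obs G} := by
  classical
  induction s using Finset.induction_on with
  | empty =>
    rw [Finset.sum_empty]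
    exact GB_cl_const (X := X) (le_refl 0)
  | insert a s ha ih =>
    rw [Finset.sum_insert ha]
    exact GB_cl_add (hF a (Finset.mem_insert_self a s))
      (ih fun k hk => hF k (Finset.mem_insert_of_mem hk))

lemma Gin.continuous {F : X → ℝ} (hF : Gin F) : Continuous F := by
  obtain ⟨f, -, hf⟩ := hF
  rw [show F = f from funext hf]
  exact f.continuous

lemma Gin.const {c : ℝ} (hc : 0 ≤ c) : Gin (fun _ : X => c) :=
  ⟨ContinuousMap.const X c, GB_cl_const hc, fun _ => rfl⟩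

lemma Gin.add {F G : X → ℝ} (hF : Gin F) (hG : Gin G) : Gin (fun x => F x + G x) := by
  obtain ⟨f, hf, hf'⟩ := hF
  obtain ⟨g, hg, hg'⟩ := hG
  exact ⟨f + g, GB_cl_add hf hg, fun x => by
    show F x + G x = f x + g x
    rw [hf' x, hg' x]⟩

lemma Gin.mul {F G : X → ℝ} (hF : Gin F) (hG : Gin G) : Gin (fun x => F x * G x) := by
  obtain ⟨f, hf, hf'⟩ := hF
  obtain ⟨g, hg, hg'⟩ := hG
  exact ⟨f * g, GB_cl_mul hf hg, fun x => by
    show F x * G x = f x * g x
    rw [hf' x, hg' x]⟩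

lemma Gin.smul {F : X → ℝ} {c : ℝ} (hc : 0 ≤ c) (hF : Gin F) : Gin (fun x => c * F x) :=
  (Gin.const hc).mul hF

lemma Gin.sum {κ : Type*} (s : Finset κ) {F : κ → X → ℝ} (hF : ∀ k ∈ s, Gin (F k)) :
    Gin (fun x => ∑ k ∈ s, F k x) := by
  classical
  induction s using Finset.induction_on with
  | empty =>
    simp only [Finset.sum_empty]
    exact Gin.const (le_refl 0)
  | insert a s ha ih =>
    simp only [Finset.sum_insert ha]
    exact Gin.add (hF a (Finset.mem_insert_self a s))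
      (ih fun k hk => hF k (Finset.mem_insert_of_mem hk))

lemma Gin.prod {κ : Type*} (s : Finset κ) {F : κ → X → ℝ} (hF : ∀ k ∈ s, Gin (F k)) :
    Gin (fun x => ∏ k ∈ s, F k x) := by
  classical
  induction s using Finset.induction_on with
  | empty =>
    simp only [Finset.prod_empty]
    exact Gin.const zero_le_one
  | insert a s ha ih =>
    simp only [Finset.prod_insert ha]
    exact Gin.mul (hF a (Finset.mem_insert_self a s))
      (ih fun k hk => hF k (Finset.mem_insert_of_mem hk))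

lemma Gin.exp {F : X → ℝ} (hF : Gin F) : Gin (fun x => Real.exp (F x)) := by
  obtain ⟨f, hf, hf'⟩ := hF
  have hs : HasSum (fun n : ℕ => ((n.factorial : ℝ)⁻¹) • f ^ n) (NormedSpace.exp f) :=
    NormedSpace.exp_series_hasSum_exp' (𝕂 := ℝ) f
  refine ⟨NormedSpace.exp f, ?_, fun x => ?_⟩
  · refine isClosed_closure.mem_of_tendsto hs (Filter.Eventually.of_forall fun s => ?_)
    exact GB_cl_sum s fun n _ => GB_cl_smul (GB_cl_pow hf n)
      (inv_nonneg.mpr (Nat.cast_nonneg _))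
  · have h1 : HasSum (fun n : ℕ => ((n.factorial : ℝ)⁻¹) • (f x) ^ n) (NormedSpace.exp f x) := by
      have := hs.map (ContinuousMap.evalCLM ℝ x) (ContinuousMap.evalCLM ℝ x).continuous
      simpa [Function.comp_def] using this
    have h2 : HasSum (fun n : ℕ => ((n.factorial : ℝ)⁻¹) • (f x) ^ n) (Real.exp (f x)) := by
      have := NormedSpace.exp_series_hasSum_exp' (𝕂 := ℝ) (f x)
      rwa [← Real.exp_eq_exp_ℝ] at this
    show Real.exp (F x) = _
    rw [hf' x]
    exact h2.unique h1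

/-- cosines of characters are in the cone -/
lemma Gin.cos (χ : X →+ Cir) (hχ : Continuous χ) : Gin (fun x => cosC (χ x)) := by
  refine ⟨⟨fun x => cosC (χ x), continuous_cosC.comp hχ⟩, subset_closure ?_, fun x => rfl⟩
  have h2 : (0 : ℝ) ≤ 2 := by norm_num
  refine ⟨GB_isK_congr (GB_isK_mul (GB_isK_const h2) (GB_isK_of_fintype (κ := Unit)
      (Φ := fun a b => cosC (χ a) * cosC (χ b))
      (fun _ => ⟨fun x => cosC (χ x), continuous_cosC.comp hχ⟩) (fun a b => by simp)))
      fun a b => ?_,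
    GB_isK_congr (GB_isK_mul (GB_isK_const h2) (GB_isK_of_fintype (κ := Unit)
      (Φ := fun a b => sinC (χ a) * sinC (χ b))
      (fun _ => ⟨fun x => sinC (χ x), continuous_sinC.comp hχ⟩) (fun a b => by simp)))
      fun a b => ?_⟩
  · simp only [ContinuousMap.coe_mk, map_add, map_sub, cosC_add, cosC_sub]; ring
  · simp only [ContinuousMap.coe_mk, map_add, map_sub, cosC_add, cosC_sub]; ring

end XYB

end
end S_H2_XY_GB

section S_H2_XY_GK

/-!
# GK: Ginibre's inequalities (Griffiths I and II) for functions in the cone `Gin`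

Proof.  Let `f, g, h ∈ C(X,ℝ)` satisfy `Obs` first.
`(∫ f g e^h)(∫ e^h) - (∫ f e^h)(∫ g e^h) = ½ ∬ (f(x)-f(y)) (g(x)-g(y)) e^{h(x)+h(y)}` (Fubini on
`haarP (X × X) = haarP X × haarP X`, `haarP_prod`).  The map `(a,b) ↦ (a+b, a-b)` of `X × X` is a
continuous homomorphism and surjective because of `hdiv` (given `(p,q)`, take `a` with `a+a = p+q`
and `b = p-a`; then `a-b = (a+a)-p = q`), so `integral_comp_surj` gives
`= ½ ∬ (f(a+b)-f(a-b)) (g(a+b)-g(a-b)) e^{h(a+b)+h(a-b)} = ½ ∬ Df·Dg·exp(Sh)`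
(`D F (a,b) = F(a-b) - F(a+b)`, `S F (a,b) = F(a+b)+F(a-b)`).
For every `n`, `Df·Dg·(Sh)^n` satisfies `IsK` (products of `IsK` kernels), and for
`Φ = ∑ gᵢ(a) gᵢ(b)` one has `∬ Φ = ∑ (∫ gᵢ)² ≥ 0`.  Expanding `exp(Sh) = ∑ (Sh)^n/n!` (uniformly
convergent, everything is bounded; use `hasSum_integral_of_summable_norm` or a limit of partial
sums) the integral is `≥ 0`.
For general `f, g, h ∈ closure Obs`: the map
`(f,g,h) ↦ (∫ f g e^h)(∫ e^h) - (∫ f e^h)(∫ g e^h)` is continuous on `C(X,ℝ)³`, so the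
inequality passes to the closure (`closure_minimal`, three times, or sequences `fₙ → f` etc. and
`tendsto_integral_of_dominated_convergence`).
`gks1` is the same with `(∫ f e^h)(∫ e^h) = ½ ∬ (f(x)+f(y)) e^{h(x)+h(y)} = ½ ∬ Sf·exp(Sh) ≥ 0`.
(The lemmas on `IsK` proved in GB can be used: tell the owner of GB which ones you need, or reprove
them here with the prefix `gk_`.)
-/

open MeasureTheory Set

noncomputable section

namespace XYB

variable {X : Type*} [AddCommGroup X] [TopologicalSpace X] [IsTopologicalAddGroup X]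
  [CompactSpace X] [MeasurableSpace X] [BorelSpace X] [SecondCountableTopology X]

/-- positive kernels as continuous functions on `X × X` -/
def gk_K (X : Type*) [TopologicalSpace X] : Set C(X × X, ℝ) :=
  {Φ | ∃ (n : ℕ) (g : Fin n → C(X, ℝ)), ∀ p : X × X, Φ p = ∑ i, g i p.1 * g i p.2}

lemma gk_add {Φ Ψ : C(X × X, ℝ)} (hΦ : Φ ∈ gk_K X) (hΨ : Ψ ∈ gk_K X) : Φ + Ψ ∈ gk_K X := by
  obtain ⟨n, g, hg⟩ := hΦ
  obtain ⟨m, k, hk⟩ := hΨ
  refine ⟨n + m, Fin.append g k, fun p => ?_⟩
  rw [ContinuousMap.add_apply, hg, hk, Fin.sum_univ_add]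
  simp only [Fin.append_left, Fin.append_right]

lemma gk_mul {Φ Ψ : C(X × X, ℝ)} (hΦ : Φ ∈ gk_K X) (hΨ : Ψ ∈ gk_K X) : Φ * Ψ ∈ gk_K X := by
  obtain ⟨n, g, hg⟩ := hΦ
  obtain ⟨m, k, hk⟩ := hΨ
  refine ⟨n * m, fun q => g (finProdFinEquiv.symm q).1 * k (finProdFinEquiv.symm q).2,
    fun p => ?_⟩
  rw [ContinuousMap.mul_apply, hg, hk, Finset.sum_mul_sum, ← Finset.sum_product',
    Finset.univ_product_univ, ← Equiv.sum_comp finProdFinEquiv]
  refine Finset.sum_congr rfl fun q _ => ?_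
  simp only [Equiv.symm_apply_apply, ContinuousMap.mul_apply]
  ring

lemma gk_zero : (0 : C(X × X, ℝ)) ∈ gk_K X :=
  ⟨0, Fin.elim0, fun p => by simp⟩

lemma gk_one : (1 : C(X × X, ℝ)) ∈ gk_K X :=
  ⟨1, fun _ => 1, fun p => by simp⟩

lemma gk_smul {Φ : C(X × X, ℝ)} {c : ℝ} (hc : 0 ≤ c) (hΦ : Φ ∈ gk_K X) : c • Φ ∈ gk_K X := by
  obtain ⟨n, g, hg⟩ := hΦ
  refine ⟨n, fun i => Real.sqrt c • g i, fun p => ?_⟩
  rw [ContinuousMap.smul_apply, hg, smul_eq_mul, Finset.mul_sum]
  refine Finset.sum_congr rfl fun i _ => ?_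
  simp only [ContinuousMap.smul_apply, smul_eq_mul]
  have h := Real.mul_self_sqrt hc
  calc c * (g i p.1 * g i p.2) = (Real.sqrt c * Real.sqrt c) * (g i p.1 * g i p.2) := by rw [h]
    _ = Real.sqrt c * g i p.1 * (Real.sqrt c * g i p.2) := by ring

lemma gk_cadd {Φ Ψ : C(X × X, ℝ)} (hΦ : Φ ∈ closure (gk_K X)) (hΨ : Ψ ∈ closure (gk_K X)) :
    Φ + Ψ ∈ closure (gk_K X) :=
  map_mem_closure₂ continuous_add hΦ hΨ fun _ ha _ hb => gk_add ha hb

lemma gk_cmul {Φ Ψ : C(X × X, ℝ)} (hΦ : Φ ∈ closure (gk_K X)) (hΨ : Ψ ∈ closure (gk_K X)) :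
    Φ * Ψ ∈ closure (gk_K X) :=
  map_mem_closure₂ continuous_mul hΦ hΨ fun _ ha _ hb => gk_mul ha hb

lemma gk_csmul {Φ : C(X × X, ℝ)} {c : ℝ} (hc : 0 ≤ c) (hΦ : Φ ∈ closure (gk_K X)) :
    c • Φ ∈ closure (gk_K X) :=
  map_mem_closure (continuous_const_smul c) hΦ fun _ ha => gk_smul hc ha

lemma gk_cpow {Φ : C(X × X, ℝ)} (hΦ : Φ ∈ closure (gk_K X)) (n : ℕ) :
    Φ ^ n ∈ closure (gk_K X) := by
  induction n with
  | zero => rw [pow_zero]; exact subset_closure gk_one
  | succ n ih => rw [pow_succ]; exact gk_cmul ih hΦ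

lemma gk_exp {Φ : C(X × X, ℝ)} (hΦ : Φ ∈ closure (gk_K X)) :
    ∃ Ψ ∈ closure (gk_K X), ∀ p, Ψ p = Real.exp (Φ p) := by
  have hs := NormedSpace.exp_series_hasSum_exp' (𝕂 := ℝ) Φ
  refine ⟨NormedSpace.exp Φ, ?_, fun p => ?_⟩
  · refine isClosed_closure.mem_of_tendsto hs (Filter.Eventually.of_forall fun s => ?_)
    induction s using Finset.induction_on with
    | empty => rw [Finset.sum_empty]; exact subset_closure gk_zero
    | @insert a s ha ih =>
      rw [Finset.sum_insert ha]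
      exact gk_cadd (gk_csmul (by positivity) (gk_cpow hΦ a)) ih
  · have hc : Continuous fun Ψ : C(X × X, ℝ) => Ψ p := continuous_eval_const p
    let ev : C(X × X, ℝ) →+ ℝ :=
      { toFun := fun Ψ => Ψ p
        map_zero' := rfl
        map_add' := fun _ _ => rfl }
    have h1 := hs.map ev hc
    have h2 := NormedSpace.exp_series_hasSum_exp' (𝕂 := ℝ) (Φ p)
    rw [Real.exp_eq_exp_ℝ]
    have e : (ev ∘ fun n : ℕ => ((n.factorial : ℝ)⁻¹) • Φ ^ n) =
        fun n : ℕ => ((n.factorial : ℝ)⁻¹) • (Φ p) ^ n := by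
      funext n
      change (((n.factorial : ℝ)⁻¹) • Φ ^ n) p = _
      rw [ContinuousMap.smul_apply, ContinuousMap.pow_apply]
    rw [e] at h1
    exact h1.unique h2

/-- the integral is a continuous functional -/
lemma gk_int_cont {Y : Type*} [TopologicalSpace Y] [CompactSpace Y] [MeasurableSpace Y]
    [BorelSpace Y] [SecondCountableTopology Y] (μ : Measure Y) [IsProbabilityMeasure μ] :
    Continuous fun Φ : C(Y, ℝ) => ∫ y, Φ y ∂μ := by
  have hi : ∀ Φ : C(Y, ℝ), Integrable (fun y => Φ y) μ := fun Φ =>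
    Φ.continuous.integrable_of_hasCompactSupport (HasCompactSupport.of_compactSpace _)
  refine (LipschitzWith.of_dist_le_mul (K := 1) fun Φ Ψ => ?_).continuous
  rw [NNReal.coe_one, one_mul, dist_eq_norm, dist_eq_norm, ← integral_sub (hi Φ) (hi Ψ)]
  have h := norm_integral_le_of_norm_le_const (μ := μ) (f := fun y => Φ y - Ψ y)
    (C := ‖Φ - Ψ‖) (Filter.Eventually.of_forall fun y => (Φ - Ψ).norm_coe_le_norm y)
  simpa using h

lemma gk_int_nonneg {Φ : C(X × X, ℝ)} (hΦ : Φ ∈ closure (gk_K X)) :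
    0 ≤ ∫ p, Φ p ∂haarP (X × X) := by
  have hcl : IsClosed {Φ : C(X × X, ℝ) | 0 ≤ ∫ p, Φ p ∂haarP (X × X)} :=
    isClosed_le continuous_const (gk_int_cont _)
  refine closure_minimal ?_ hcl hΦ
  rintro Φ ⟨n, g, hg⟩
  change 0 ≤ ∫ p, Φ p ∂haarP (X × X)
  have e : (fun p : X × X => Φ p) = fun p => ∑ i, g i p.1 * g i p.2 := funext hg
  rw [e, haarP_prod, integral_finset_sum]
  · refine Finset.sum_nonneg fun i _ => ?_
    rw [integral_prod_mul (μ := haarP X) (ν := haarP X) (fun x => g i x) (fun x => g i x)]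
    exact mul_self_nonneg _
  · intro i _
    rw [← haarP_prod]
    exact integrable_cont _ (by fun_prop)

/-- `(a, b) ↦ a + b` and `(a, b) ↦ a - b` as continuous maps -/
def gk_p (X : Type*) [AddCommGroup X] [TopologicalSpace X] [IsTopologicalAddGroup X] :
    C(X × X, X) := ⟨fun p => p.1 + p.2, by fun_prop⟩

def gk_m (X : Type*) [AddCommGroup X] [TopologicalSpace X] [IsTopologicalAddGroup X] :
    C(X × X, X) := ⟨fun p => p.1 - p.2, by fun_prop⟩

lemma gk_S {f : C(X, ℝ)} (hf : f ∈ closure {G : C(X, ℝ) | Obs G}) :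
    f.comp (gk_p X) + f.comp (gk_m X) ∈ closure (gk_K X) := by
  refine map_mem_closure (f := fun f : C(X, ℝ) => f.comp (gk_p X) + f.comp (gk_m X))
    ((ContinuousMap.continuous_precomp _).add (ContinuousMap.continuous_precomp _)) hf ?_
  rintro G ⟨⟨n, g, hg⟩, -⟩
  exact ⟨n, g, fun p => hg p.1 p.2⟩

lemma gk_D {f : C(X, ℝ)} (hf : f ∈ closure {G : C(X, ℝ) | Obs G}) :
    f.comp (gk_m X) - f.comp (gk_p X) ∈ closure (gk_K X) := by
  refine map_mem_closure (f := fun f : C(X, ℝ) => f.comp (gk_m X) - f.comp (gk_p X))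
    ((ContinuousMap.continuous_precomp _).sub (ContinuousMap.continuous_precomp _)) hf ?_
  rintro G ⟨-, ⟨n, g, hg⟩⟩
  exact ⟨n, g, fun p => hg p.1 p.2⟩

/-- change of variables `(x, y) = (a + b, a - b)` -/
lemma gk_change (hdiv : ∀ x : X, ∃ y : X, y + y = x) (Φ : X × X → ℝ) (hΦ : Continuous Φ) :
    ∫ p : X × X, Φ (p.1 + p.2, p.1 - p.2) ∂haarP (X × X) = ∫ p, Φ p ∂haarP (X × X) := by
  let φ : X × X →+ X × X :=
    { toFun := fun p => (p.1 + p.2, p.1 - p.2)
      map_zero' := by simp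
      map_add' := fun p q => by
        ext
        · simp only [Prod.fst_add, Prod.snd_add]; abel
        · simp only [Prod.fst_add, Prod.snd_add]; abel }
  refine integral_comp_surj φ ?_ ?_ Φ hΦ
  · change Continuous fun p : X × X => (p.1 + p.2, p.1 - p.2)
    fun_prop
  · rintro ⟨x, y⟩
    obtain ⟨a, ha⟩ := hdiv (x + y)
    refine ⟨(a, x - a), ?_⟩
    change (a + (x - a), a - (x - a)) = (x, y)
    ext
    · simp only; abel
    · simp only
      calc a - (x - a) = (a + a) - x := by abel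
        _ = y := by rw [ha]; abel

/-- first Ginibre (Griffiths) inequality -/
theorem gks1 (hdiv : ∀ x : X, ∃ y : X, y + y = x) {F H : X → ℝ} (hF : Gin F) (hH : Gin H) :
    0 ≤ ∫ x, F x * Real.exp (H x) ∂haarP X := by
  obtain ⟨k, hk, hkF⟩ := hF.mul hH.exp
  have e : ∫ x, F x * Real.exp (H x) ∂haarP X = ∫ x, k x ∂haarP X := by
    congr 1
    exact funext hkF
  rw [e]
  have h1 := gk_int_nonneg (gk_S hk)
  have h2 : ∫ p : X × X, (k.comp (gk_p X) + k.comp (gk_m X)) p ∂haarP (X × X) =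
      2 * ∫ x, k x ∂haarP X := by
    have h3 := gk_change hdiv (fun p => k p.1 + k p.2) (by fun_prop)
    change ∫ p : X × X, (k (p.1 + p.2) + k (p.1 - p.2)) ∂haarP (X × X) = _
    refine h3.trans ?_
    rw [integral_add (integrable_cont _ (by fun_prop)) (integrable_cont _ (by fun_prop)),
      haarP_prod, integral_fun_fst, integral_fun_snd]
    simp only [probReal_univ, one_smul]
    ring
  rw [h2] at h1
  linarith

/-- second Ginibre (Griffiths) inequality -/
theorem gks2 (hdiv : ∀ x : X, ∃ y : X, y + y = x) {F G H : X → ℝ}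
    (hF : Gin F) (hG : Gin G) (hH : Gin H) :
    (∫ x, F x * Real.exp (H x) ∂haarP X) * (∫ x, G x * Real.exp (H x) ∂haarP X) ≤
      (∫ x, F x * G x * Real.exp (H x) ∂haarP X) * ∫ x, Real.exp (H x) ∂haarP X := by
  obtain ⟨f, hf, hfF⟩ := hF
  obtain ⟨g, hg, hgG⟩ := hG
  obtain ⟨h, hh, hhH⟩ := hH
  obtain ⟨Ψ, hΨ, hΨe⟩ := gk_exp (gk_S hh)
  have hpos := gk_int_nonneg (gk_cmul (gk_cmul (gk_D hf) (gk_D hg)) hΨ)
  have e1 : ∫ p : X × X, ((f.comp (gk_m X) - f.comp (gk_p X)) *
      (g.comp (gk_m X) - g.comp (gk_p X)) * Ψ) p ∂haarP (X × X) =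
      ∫ p : X × X, (f p.2 - f p.1) * (g p.2 - g p.1) * Real.exp (h p.1 + h p.2)
        ∂haarP (X × X) := by
    rw [← gk_change hdiv (fun p : X × X => (f p.2 - f p.1) * (g p.2 - g p.1) *
      Real.exp (h p.1 + h p.2)) (by fun_prop)]
    congr 1
    funext p
    simp only [ContinuousMap.mul_apply, ContinuousMap.sub_apply, hΨe, ContinuousMap.add_apply]
    rfl
  rw [e1] at hpos
  have e2 : ∫ p : X × X, (f p.2 - f p.1) * (g p.2 - g p.1) * Real.exp (h p.1 + h p.2)
        ∂haarP (X × X) =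
      2 * ((∫ x, f x * g x * Real.exp (h x) ∂haarP X) * (∫ x, Real.exp (h x) ∂haarP X)) -
      2 * ((∫ x, f x * Real.exp (h x) ∂haarP X) * ∫ x, g x * Real.exp (h x) ∂haarP X) := by
    have e3 : (fun p : X × X => (f p.2 - f p.1) * (g p.2 - g p.1) * Real.exp (h p.1 + h p.2)) =
        fun p => ((f p.1 * g p.1 * Real.exp (h p.1)) * Real.exp (h p.2) +
          Real.exp (h p.1) * (f p.2 * g p.2 * Real.exp (h p.2))) -
          ((f p.1 * Real.exp (h p.1)) * (g p.2 * Real.exp (h p.2)) +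
          (g p.1 * Real.exp (h p.1)) * (f p.2 * Real.exp (h p.2))) := by
      funext p
      rw [Real.exp_add]
      ring
    rw [e3, integral_sub, integral_add, integral_add, haarP_prod,
      integral_prod_mul (μ := haarP X) (ν := haarP X) (fun x => f x * g x * Real.exp (h x))
        (fun x => Real.exp (h x)),
      integral_prod_mul (μ := haarP X) (ν := haarP X) (fun x => Real.exp (h x))
        (fun x => f x * g x * Real.exp (h x)),
      integral_prod_mul (μ := haarP X) (ν := haarP X) (fun x => f x * Real.exp (h x))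
        (fun x => g x * Real.exp (h x)),
      integral_prod_mul (μ := haarP X) (ν := haarP X) (fun x => g x * Real.exp (h x))
        (fun x => f x * Real.exp (h x))]
    · ring
    all_goals exact integrable_cont _ (by fun_prop)
  rw [e2] at hpos
  simp only [hfF, hgG, hhH]
  linarith

end XYB

end
end S_H2_XY_GK

section S_H2_XY_GC

/-!
# GC: corollaries of Ginibre's inequalities

Proofs.
* `gin_mono`: `gks2` with `G = exp ∘ H'` (in the cone by `Gin.exp`) says
  `(∫ F e^H)(∫ e^{H+H'}) ≤ (∫ F e^{H+H'})(∫ e^H)`; divide by the positive integrals.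
* `gin_prod`: induction on `s` with `gks2` and `gks1` (all expectations are `≥ 0`).
* `gE_exp_cos_ge`: `gE H (e^{b cos χ}) ≥ gE 0 (e^{b cos χ}) = ∫ e^{b cos χ} dHaar = I0 b`
  (`gin_mono` with `H = 0`, `H' = H`, and `integral_comp_surj` for `χ`).
* `gks_I0`: `gin_prod` with `F k = exp (b k cos χ_k)` and the previous item:
  `∫ exp(H + ∑ b_k cos χ_k) = (∫ e^H) gE H (∏ exp(b_k cos χ_k)) ≥ (∫ e^H) ∏ I0 (b k)`.
* `edge_bound`: with `H' = H + b cos χ`: numerator
  `∫_{cos χ < s} e^{H + b cos χ} ≤ e^{bs} ∫ e^H`, denominator `≥ I0 b ∫ e^H` (`gks_I0` with one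
  element); use `gM_real`.
-/

open MeasureTheory Set

noncomputable section

namespace XYB

variable {X : Type*} [AddCommGroup X] [TopologicalSpace X] [IsTopologicalAddGroup X]
  [CompactSpace X] [MeasurableSpace X] [BorelSpace X] [SecondCountableTopology X]

theorem gin_mono (hdiv : ∀ x : X, ∃ y : X, y + y = x) {F H H' : X → ℝ}
    (hF : Gin F) (hH : Gin H) (hH' : Gin H') :
    gE H F ≤ gE (fun x => H x + H' x) F := by
  have h := gks2 hdiv hF hH'.exp hH
  have e1 : ∀ x, Real.exp (H' x) * Real.exp (H x) = Real.exp (H x + H' x) := fun x => by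
    rw [Real.exp_add, mul_comm]
  have e2 : ∀ x, F x * Real.exp (H' x) * Real.exp (H x) = F x * Real.exp (H x + H' x) := fun x => by
    rw [Real.exp_add]; ring
  simp only [e1, e2] at h
  have h1 := integral_exp_pos H hH.continuous
  have h2 := integral_exp_pos (fun x => H x + H' x) (hH.continuous.add hH'.continuous)
  unfold gE
  rw [div_le_div_iff₀ h1 h2]
  exact h

theorem gin_prod (hdiv : ∀ x : X, ∃ y : X, y + y = x) {H : X → ℝ} (hH : Gin H)
    {κ : Type*} (s : Finset κ) {F : κ → X → ℝ} (hF : ∀ k ∈ s, Gin (F k)) :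
    ∏ k ∈ s, gE H (F k) ≤ gE H (fun x => ∏ k ∈ s, F k x) := by
  classical
  have hB := integral_exp_pos H hH.continuous
  induction s using Finset.induction_on with
  | empty =>
    simp only [Finset.prod_empty]
    unfold gE
    simp only [one_mul]
    rw [div_self hB.ne']
  | insert a s ha ih =>
    have hFa : Gin (F a) := hF a (Finset.mem_insert_self _ _)
    have hFs : ∀ k ∈ s, Gin (F k) := fun k hk => hF k (Finset.mem_insert_of_mem hk)
    have hP : Gin (fun x => ∏ k ∈ s, F k x) := Gin.prod s hFs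
    have h := gks2 hdiv hFa hP hH
    simp only [Finset.prod_insert ha]
    have h0 : 0 ≤ gE H (F a) := div_nonneg (gks1 hdiv hFa hH) hB.le
    refine (mul_le_mul_of_nonneg_left (ih hFs) h0).trans ?_
    unfold gE
    rw [div_mul_div_comm, div_le_div_iff₀ (mul_pos hB hB) hB]
    nlinarith [mul_le_mul_of_nonneg_right h hB.le]

lemma I0_pos (b : ℝ) : 0 < I0 b :=
  integral_exp_pos (fun t : Cir => b * cosC t) (continuous_const.mul continuous_cosC)

theorem gE_exp_cos_ge (hdiv : ∀ x : X, ∃ y : X, y + y = x) {H : X → ℝ} (hH : Gin H)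
    (χ : X →+ Cir) (hχ : Continuous χ) (hs : Function.Surjective χ) {b : ℝ} (hb : 0 ≤ b) :
    I0 b ≤ gE H (fun x => Real.exp (b * cosC (χ x))) := by
  have hG : Gin (fun x => Real.exp (b * cosC (χ x))) := (Gin.smul hb (Gin.cos χ hχ)).exp
  have h := gin_mono hdiv hG (Gin.const (X := X) (c := 0) le_rfl) hH
  simp only [zero_add] at h
  refine le_trans (le_of_eq ?_) h
  unfold gE I0
  simp only [Real.exp_zero, mul_one]
  rw [integral_const]
  simp only [smul_eq_mul, mul_one, probReal_univ, div_one]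
  exact (integral_comp_surj χ hχ hs (fun t => Real.exp (b * cosC t))
    (Real.continuous_exp.comp (continuous_const.mul continuous_cosC))).symm

/-- adding ferromagnetic terms multiplies the partition function by at least `∏ I₀` -/
theorem gks_I0 (hdiv : ∀ x : X, ∃ y : X, y + y = x) {H : X → ℝ} (hH : Gin H)
    {κ : Type*} (s : Finset κ) (χ : κ → (X →+ Cir)) (hχ : ∀ k ∈ s, Continuous (χ k))
    (hs : ∀ k ∈ s, Function.Surjective (χ k)) {b : κ → ℝ} (hb : ∀ k ∈ s, 0 ≤ b k) :
    (∏ k ∈ s, I0 (b k)) * ∫ x, Real.exp (H x) ∂haarP X ≤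
      ∫ x, Real.exp (H x + ∑ k ∈ s, b k * cosC (χ k x)) ∂haarP X := by
  have hB := integral_exp_pos H hH.continuous
  have h1 : ∏ k ∈ s, I0 (b k) ≤ ∏ k ∈ s, gE H (fun x => Real.exp (b k * cosC (χ k x))) :=
    Finset.prod_le_prod (fun k _ => (I0_pos _).le)
      (fun k hk => gE_exp_cos_ge hdiv hH (χ k) (hχ k hk) (hs k hk) (hb k hk))
  have h2 := gin_prod hdiv hH s (F := fun k x => Real.exp (b k * cosC (χ k x)))
    (fun k hk => (Gin.smul (hb k hk) (Gin.cos (χ k) (hχ k hk))).exp)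
  have h3 := h1.trans h2
  unfold gE at h3
  rw [le_div_iff₀ hB] at h3
  refine h3.trans (le_of_eq ?_)
  congr 1
  ext x
  rw [Real.exp_add, Real.exp_sum, mul_comm]

/-- probability that an edge is bad -/
theorem edge_bound (hdiv : ∀ x : X, ∃ y : X, y + y = x) {H : X → ℝ} (hH : Gin H)
    (χ : X →+ Cir) (hχ : Continuous χ) (hs : Function.Surjective χ) {b s : ℝ} (hb : 0 ≤ b) :
    (gM (fun x => H x + b * cosC (χ x))).real {x | cosC (χ x) < s} ≤
      Real.exp (b * s) / I0 b := by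
  have hcc : Continuous (fun x => cosC (χ x)) := continuous_cosC.comp hχ
  have hA : MeasurableSet {x | cosC (χ x) < s} := (isOpen_lt hcc continuous_const).measurableSet
  have hcH := hH.continuous
  have hB := integral_exp_pos H hcH
  have hC := integral_exp_pos (fun x => H x + b * cosC (χ x)) (hcH.add (continuous_const.mul hcc))
  have hi1 : Integrable (fun x => Real.exp (H x)) (haarP X) :=
    integrable_cont _ (Real.continuous_exp.comp hcH)
  have hi2 : Integrable (fun x => Real.exp (H x + b * cosC (χ x))) (haarP X) :=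
    integrable_cont _ (Real.continuous_exp.comp (hcH.add (continuous_const.mul hcc)))
  rw [gM_real _ hA]
  have hnum : ∫ x in {x | cosC (χ x) < s}, Real.exp (H x + b * cosC (χ x)) ∂haarP X ≤
      Real.exp (b * s) * ∫ x, Real.exp (H x) ∂haarP X := by
    rw [← integral_const_mul]
    calc ∫ x in {x | cosC (χ x) < s}, Real.exp (H x + b * cosC (χ x)) ∂haarP X
        ≤ ∫ x in {x | cosC (χ x) < s}, Real.exp (b * s) * Real.exp (H x) ∂haarP X := by
          refine setIntegral_mono_on hi2.integrableOn (hi1.const_mul _).integrableOn hA ?_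
          intro x hx
          rw [← Real.exp_add]
          apply Real.exp_le_exp.mpr
          have : b * cosC (χ x) ≤ b * s := mul_le_mul_of_nonneg_left (le_of_lt hx) hb
          linarith
      _ ≤ ∫ x, Real.exp (b * s) * Real.exp (H x) ∂haarP X := by
          refine setIntegral_le_integral (hi1.const_mul _) ?_
          exact Filter.Eventually.of_forall fun x => by positivity
  have hden : I0 b * ∫ x, Real.exp (H x) ∂haarP X ≤
      ∫ x, Real.exp (H x + b * cosC (χ x)) ∂haarP X := by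
    have h := gks_I0 hdiv hH ({()} : Finset Unit) (fun _ => χ) (fun _ _ => hχ) (fun _ _ => hs)
      (b := fun _ => b) (fun _ _ => hb)
    simpa using h
  rw [div_le_div_iff₀ hC (I0_pos b)]
  calc (∫ x in {x | cosC (χ x) < s}, Real.exp (H x + b * cosC (χ x)) ∂haarP X) * I0 b
      ≤ (Real.exp (b * s) * ∫ x, Real.exp (H x) ∂haarP X) * I0 b :=
        mul_le_mul_of_nonneg_right hnum (I0_pos b).le
    _ = Real.exp (b * s) * (I0 b * ∫ x, Real.exp (H x) ∂haarP X) := by ring
    _ ≤ _ := mul_le_mul_of_nonneg_left hden (Real.exp_pos _).le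

end XYB

end
end S_H2_XY_GC

section S_H82_BX_GCM

/-!
# GCM: composition of functions of the Ginibre cone with homomorphisms; the energies are in the cone

`gin_comp`: `φ : Y →+ X` continuous; `Obs (F ∘ φ)` from `Obs F` (`F(φ(a+b)) + F(φ(a-b)) = ∑ gᵢ(φ a) gᵢ(φ b)`), and
`F ↦ F.comp φ` is continuous on `C(X, ℝ)`, so closures are mapped into closures.
`cos² = 1/2 + cos(2θ)/2`.
-/

set_option autoImplicit false

open Finset MeasureTheory

namespace H82.BX

open H82.IC XYB

theorem gin_comp {X Y : Type*} [AddCommGroup X] [TopologicalSpace X] [IsTopologicalAddGroup X]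
    [CompactSpace X] [MeasurableSpace X] [BorelSpace X] [SecondCountableTopology X]
    [AddCommGroup Y] [TopologicalSpace Y] [IsTopologicalAddGroup Y]
    [CompactSpace Y] [MeasurableSpace Y] [BorelSpace Y] [SecondCountableTopology Y]
    (φ : Y →+ X) (hφ : Continuous φ) {F : X → ℝ} (hF : Gin F) : Gin (fun y => F (φ y)) := by
  obtain ⟨f, hf, hFf⟩ := hF
  let ψ : C(Y, X) := ⟨φ, hφ⟩
  refine ⟨f.comp ψ, ?_, fun y => hFf _⟩
  have hcont : Continuous (fun G : C(X, ℝ) => G.comp ψ) := ContinuousMap.continuous_precomp ψ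
  have hmaps : Set.MapsTo (fun G : C(X, ℝ) => G.comp ψ) {G : C(X, ℝ) | Obs G}
      {G : C(Y, ℝ) | Obs G} := by
    intro G hG
    obtain ⟨h1, h2⟩ := hG
    refine ⟨?_, ?_⟩
    · obtain ⟨n, g, hg⟩ := h1
      refine ⟨n, fun i => (g i).comp ψ, fun a b => ?_⟩
      have := hg (φ a) (φ b)
      simp only [ContinuousMap.comp_apply]
      change G (φ (a + b)) + G (φ (a - b)) = _
      rw [map_add, map_sub]
      exact this
    · obtain ⟨n, g, hg⟩ := h2
      refine ⟨n, fun i => (g i).comp ψ, fun a b => ?_⟩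
      have := hg (φ a) (φ b)
      simp only [ContinuousMap.comp_apply]
      change G (φ (a - b)) - G (φ (a + b)) = _
      rw [map_add, map_sub]
      exact this
  exact hmaps.closure hcont hf

section en
variable {V E : Type} [Fintype V] [DecidableEq V] [Fintype E] [DecidableEq E]

theorem gin_hG (G : Gr V E) (J : E → ℝ) (hJ : ∀ e, 0 ≤ J e) : Gin (hG G J) := by
  have h : ∀ e : E, Gin (fun θ : V → Cir => J e * cosC (θ (G.r e) - θ (G.s e))) := by
    intro e
    refine Gin.smul (hJ e) ?_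
    exact Gin.cos (Pi.evalAddMonoidHom (fun _ : V => Cir) (G.r e) -
      Pi.evalAddMonoidHom (fun _ : V => Cir) (G.s e))
      ((continuous_apply (G.r e)).sub (continuous_apply (G.s e)))
  exact Gin.sum univ fun e _ => h e

/-- `cos θ_p cos θ_q` is in the cone. -/
theorem gin_cc {U : Type} [Fintype U] [DecidableEq U] (p q : U) :
    Gin (fun θ : U → Cir => cosC (θ p) * cosC (θ q)) := by
  have h : ∀ p : U, Gin (fun θ : U → Cir => cosC (θ p)) := fun p =>
    Gin.cos (Pi.evalAddMonoidHom (fun _ : U => Cir) p) (continuous_apply p)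
  exact (h p).mul (h q)

theorem gin_c2 {U : Type} [Fintype U] [DecidableEq U] (p : U) :
    Gin (fun θ : U → Cir => cosC (θ p) ^ 2) := by
  have h := gin_cc p p
  have h2 : (fun θ : U → Cir => cosC (θ p) ^ 2) = fun θ : U → Cir => cosC (θ p) * cosC (θ p) := by
    funext θ
    ring
  rw [h2]
  exact h

theorem gin_hS (G : Gr V E) (b l : ℝ) (hb : 0 ≤ b) (hl : 0 ≤ l) : Gin (hS G b l) := by
  have h1 : Gin (hG (LK G) (fun _ => b)) := gin_hG (LK G) (fun _ => b) (fun _ => hb)
  have hpn : ∀ w : SV V E, 0 ≤ pn w := by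
    rintro (v | ⟨e, _ | _⟩) <;> simp [pn]
  have h2 : Gin (fun θ : SV V E → Cir => ∑ w, l * pn w * cosC (θ w) ^ 2) :=
    Gin.sum univ fun w _ => Gin.smul (mul_nonneg hl (hpn w)) (gin_c2 w)
  exact h1.add h2

theorem cir_pi_div {U : Type} : ∀ x : U → Cir, ∃ y : U → Cir, y + y = x :=
  pi_div cir_div

end en

end H82.BX

end S_H82_BX_GCM

section S_H82_BX_DU0

/-!
# DU0: Fourier duality on a finite graph

Expand the product of the absolutely convergent series (`g e x = ∑_n a e n e^{inx}`):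
`∏_e g e (θ_{r e} - θ_{s e}) = ∑_{J : E → ℤ} ∏_e a e (J e) · ∏_e e^{i J_e (θ_{r e} - θ_{s e})}`, absolutely summable
(`∏_e ∑_n ‖a e n‖ < ∞`), and `∏_e e^{i J_e (θ_r - θ_s)} = ∏_v e^{i (dv J v) θ_v}`, whose Haar integral is `1` if `dv J = 0` and `0` otherwise
(orthogonality of characters on a product).  Interchange by `integral_tsum` / `hasSum_integral_of_summable_norm`.
-/

set_option autoImplicit false

open Finset MeasureTheory

namespace H82.BX

open H82.IC XYB

/-- products of absolutely convergent series over `Fin n`. -/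
theorem du0_pi_fin : ∀ (n : ℕ) (f : Fin n → ℤ → ℂ), (∀ e, Summable (fun k => ‖f e k‖)) →
    Summable (fun J : Fin n → ℤ => ‖∏ e, f e (J e)‖) ∧
    HasSum (fun J : Fin n → ℤ => ∏ e, f e (J e)) (∏ e, ∑' k, f e k) := by
  intro n
  induction n with
  | zero =>
    intro f _
    constructor
    · exact (hasSum_fintype (fun J : Fin 0 → ℤ => ‖∏ e, f e (J e)‖)).summable
    · have := hasSum_fintype (fun J : Fin 0 → ℤ => ∏ e, f e (J e))
      simp
  | succ n ih =>
    intro f hf
    obtain ⟨h1, h2⟩ := ih (fun i => f i.succ) (fun i => hf i.succ)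
    have h0 := hf 0
    have key : ∀ p : ℤ × (Fin n → ℤ), ∏ e, f e ((Fin.consEquiv (fun _ : Fin (n + 1) => ℤ)) p e) =
        f 0 p.1 * ∏ i : Fin n, f i.succ (p.2 i) := by
      intro p
      rw [Fin.prod_univ_succ]
      rfl
    have hs : Summable (fun p : ℤ × (Fin n → ℤ) => ‖f 0 p.1 * ∏ i : Fin n, f i.succ (p.2 i)‖) :=
      Summable.mul_norm (f := fun k : ℤ => f 0 k) (g := fun J : Fin n → ℤ => ∏ i : Fin n, f i.succ (J i)) h0 h1
    have hs' : Summable (fun J : Fin (n + 1) → ℤ => ‖∏ e, f e (J e)‖) := by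
      rw [← (Fin.consEquiv (fun _ : Fin (n + 1) => ℤ)).summable_iff]
      refine hs.congr (fun p => ?_)
      rw [Function.comp_apply, key p]
    refine ⟨hs', ?_⟩
    have ht := tsum_mul_tsum_of_summable_norm (f := fun k : ℤ => f 0 k)
      (g := fun J : Fin n → ℤ => ∏ i : Fin n, f i.succ (J i)) h0 h1
    have hh : HasSum (fun J : Fin (n + 1) → ℤ => ∏ e, f e (J e))
        (∑' J : Fin (n + 1) → ℤ, ∏ e, f e (J e)) := hs'.of_norm.hasSum
    have he : (∑' J : Fin (n + 1) → ℤ, ∏ e, f e (J e)) = ∏ e, ∑' k, f e k := by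
      rw [← (Fin.consEquiv (fun _ : Fin (n + 1) => ℤ)).tsum_eq, Fin.prod_univ_succ, ← h2.tsum_eq, ht]
      exact tsum_congr (fun p => key p)
    rwa [he] at hh

/-- products of absolutely convergent series over a finite type. -/
theorem du0_pi {E : Type} [Fintype E] (f : E → ℤ → ℂ) (hf : ∀ e, Summable (fun k => ‖f e k‖)) :
    Summable (fun J : E → ℤ => ‖∏ e, f e (J e)‖) ∧
    HasSum (fun J : E → ℤ => ∏ e, f e (J e)) (∏ e, ∑' k, f e k) := by
  classical
  let q := Fintype.equivFin E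
  obtain ⟨h1, h2⟩ := du0_pi_fin (Fintype.card E) (fun i => f (q.symm i)) (fun i => hf _)
  have key : ∀ J : Fin (Fintype.card E) → ℤ,
      ∏ e, f e ((Equiv.arrowCongr q.symm (Equiv.refl ℤ)) J e) = ∏ i, f (q.symm i) (J i) := by
    intro J
    rw [← Equiv.prod_comp q.symm]
    refine Finset.prod_congr rfl (fun i _ => ?_)
    simp [Equiv.arrowCongr]
  have key2 : ∏ e, ∑' k, f e k = ∏ i, ∑' k, f (q.symm i) k := (Equiv.prod_comp q.symm _).symm
  constructor
  · rw [← (Equiv.arrowCongr q.symm (Equiv.refl ℤ)).summable_iff]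
    refine h1.congr (fun J => ?_)
    rw [Function.comp_apply, key J]
  · rw [← (Equiv.arrowCongr q.symm (Equiv.refl ℤ)).hasSum_iff, key2]
    convert h2 using 1
    funext J
    rw [Function.comp_apply, key J]

theorem du0_circle_prod {ι : Type} (s : Finset ι) (x : ι → Cir) :
    ∏ i ∈ s, ((AddCircle.toCircle (x i) : Circle) : ℂ) = (AddCircle.toCircle (∑ i ∈ s, x i) : Circle) := by
  classical
  induction s using Finset.induction_on with
  | empty => simp
  | insert a s ha ih => rw [Finset.prod_insert ha, Finset.sum_insert ha, ih, AddCircle.toCircle_add]; simp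

/-- integral of a character. -/
theorem du0_int (n : ℤ) : ∫ t : Cir, fourier n t ∂haarP Cir = if n = 0 then 1 else 0 := by
  have h := fourierCoeff_fourier (T := 2 * Real.pi) n
  have h0 := congrFun h 0
  rw [fourierCoeff] at h0
  simp only [neg_zero, fourier_zero, one_smul] at h0
  rw [haarP_cir]
  rw [h0]
  simp [Pi.single_apply, eq_comm]

variable {V E : Type} [Fintype V] [DecidableEq V] [Fintype E] [DecidableEq E]

theorem du0_regroup (G : Gr V E) (J : E → ℤ) (θ : V → Cir) :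
    ∏ e, (fourier (J e) (θ (G.r e) - θ (G.s e)) : ℂ) = ∏ v, (fourier (dv G J v) (θ v) : ℂ) := by
  simp only [fourier_apply]
  rw [du0_circle_prod, du0_circle_prod]
  congr 2
  have h1 : ∀ v : V, dv G J v • θ v =
      ∑ e, ((if G.r e = v then J e • θ v else 0) - (if G.s e = v then J e • θ v else 0)) := by
    intro v
    unfold dv
    rw [Finset.sum_smul]
    refine Finset.sum_congr rfl (fun e _ => ?_)
    rw [sub_smul]
    split_ifs <;> simp
  simp only [h1]
  rw [Finset.sum_comm]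
  refine Finset.sum_congr rfl (fun e _ => ?_)
  rw [Finset.sum_sub_distrib, smul_sub]
  simp

theorem du0_intJ (G : Gr V E) (J : E → ℤ) :
    ∫ θ : V → Cir, ∏ e, (fourier (J e) (θ (G.r e) - θ (G.s e)) : ℂ) ∂haarP (V → Cir) =
      if (∀ v, dv G J v = 0) then 1 else 0 := by
  simp only [du0_regroup]
  rw [haarP_pi, integral_fintype_prod_eq_prod (fun v t => (fourier (dv G J v) t : ℂ))]
  simp only [du0_int]
  split_ifs with h
  · simp [h]
  · push Not at h
    obtain ⟨v, hv⟩ := h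
    exact Finset.prod_eq_zero (Finset.mem_univ v) (by simp [hv])

theorem du0 (G : Gr V E) (g : E → Cir → ℂ) (a : E → ℤ → ℂ) (ha : ∀ e, Summable (fun n => ‖a e n‖))
    (hg : ∀ e x, HasSum (fun n : ℤ => a e n * fourier n x) (g e x)) :
    Summable (fun J : E → ℤ => ‖∏ e, a e (J e)‖) ∧
    ∫ θ : V → Cir, ∏ e, g e (θ (G.r e) - θ (G.s e)) ∂haarP (V → Cir) =
      ∑' J : E → ℤ, if (∀ v, dv G J v = 0) then ∏ e, a e (J e) else 0 := by
  have hS : Summable (fun J : E → ℤ => ‖∏ e, a e (J e)‖) := (du0_pi a ha).1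
  refine ⟨hS, ?_⟩
  have hn1 : ∀ (n : ℤ) (x : Cir), ‖(fourier n x : ℂ)‖ = 1 := by
    intro n x
    rw [fourier_apply]
    exact Circle.norm_coe _
  -- pointwise expansion
  have hpt : ∀ θ : V → Cir, ∏ e, g e (θ (G.r e) - θ (G.s e)) =
      ∑' J : E → ℤ, (∏ e, a e (J e)) * ∏ e, (fourier (J e) (θ (G.r e) - θ (G.s e)) : ℂ) := by
    intro θ
    have h := du0_pi (fun e n => a e n * (fourier n (θ (G.r e) - θ (G.s e)) : ℂ)) (fun e => by
      refine (ha e).congr (fun n => ?_)
      rw [norm_mul, hn1, mul_one])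
    have h2 := h.2.tsum_eq
    have h3 : ∏ e, ∑' k, a e k * (fourier k (θ (G.r e) - θ (G.s e)) : ℂ) =
        ∏ e, g e (θ (G.r e) - θ (G.s e)) :=
      Finset.prod_congr rfl (fun e _ => (hg e _).tsum_eq)
    rw [← h3, ← h2]
    exact tsum_congr (fun J => Finset.prod_mul_distrib)
  have hcont : ∀ J : E → ℤ, Continuous (fun θ : V → Cir =>
      (∏ e, a e (J e)) * ∏ e, (fourier (J e) (θ (G.r e) - θ (G.s e)) : ℂ)) := by
    intro J
    refine continuous_const.mul (continuous_finsetProd _ (fun e _ => ?_))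
    exact (fourier (J e)).continuous.comp ((continuous_apply _).sub (continuous_apply _))
  have hint : ∀ J : E → ℤ, Integrable (fun θ : V → Cir =>
      (∏ e, a e (J e)) * ∏ e, (fourier (J e) (θ (G.r e) - θ (G.s e)) : ℂ)) (haarP (V → Cir)) :=
    fun J => (hcont J).integrable_of_hasCompactSupport (HasCompactSupport.of_compactSpace _)
  have hnorm : ∀ J : E → ℤ, ∫ θ : V → Cir,
      ‖(∏ e, a e (J e)) * ∏ e, (fourier (J e) (θ (G.r e) - θ (G.s e)) : ℂ)‖ ∂haarP (V → Cir) =
      ‖∏ e, a e (J e)‖ := by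
    intro J
    have : ∀ θ : V → Cir, ‖(∏ e, a e (J e)) * ∏ e, (fourier (J e) (θ (G.r e) - θ (G.s e)) : ℂ)‖ =
        ‖∏ e, a e (J e)‖ := by
      intro θ
      rw [norm_mul, norm_prod (f := fun e => (fourier (J e) (θ (G.r e) - θ (G.s e)) : ℂ))]
      simp only [hn1, Finset.prod_const_one, mul_one]
    simp [this]
  have hI := hasSum_integral_of_summable_integral_norm hint (by simpa only [hnorm] using hS)
  simp only [hpt]
  rw [← hI.tsum_eq]
  refine tsum_congr (fun J => ?_)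
  rw [integral_const_mul, du0_intJ]
  split_ifs <;> simp

end H82.BX

end S_H82_BX_DU0

section S_H2_XY_I0B

/-!
# I0B: lower bound on `I₀`

Proof.  Let `s < 1`.  The set `U = {t : cosC t > s}` is open and nonempty (contains `0`), so it has
positive Haar measure `p` (`IsOpen.measure_pos`); for `b ≥ 0` one has
`I0 b = ∫ e^{b cosC t} ≥ ∫_U e^{b cosC t} ≥ p e^{bs}`.
`tendsto` version: `e^{bs'} / I0 b → 0` as `b → ∞` for every `s' < 1`: take `s ∈ (s', 1)`.
-/

open MeasureTheory Set Filter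

noncomputable section

namespace XYB

theorem i0b (s : ℝ) (hs : s < 1) : ∃ p : ℝ, 0 < p ∧ ∀ b : ℝ, 0 ≤ b → p * Real.exp (b * s) ≤ I0 b := by
  set U : Set Cir := {t | s < cosC t} with hU
  have hUo : IsOpen U := isOpen_lt continuous_const continuous_cosC
  have hUn : U.Nonempty := ⟨0, by simp [hU, hs]⟩
  have hpos : 0 < (haarP Cir).real U := by
    rw [measureReal_def]
    exact ENNReal.toReal_pos (hUo.measure_pos _ hUn).ne' (measure_ne_top _ _)
  refine ⟨(haarP Cir).real U, hpos, fun b hb => ?_⟩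
  have hi : Integrable (fun t : Cir => Real.exp (b * cosC t)) (haarP Cir) :=
    integrable_cont _ (Real.continuous_exp.comp (continuous_const.mul continuous_cosC))
  calc (haarP Cir).real U * Real.exp (b * s) = ∫ t in U, Real.exp (b * s) ∂haarP Cir := by
        rw [setIntegral_const, smul_eq_mul]
    _ ≤ ∫ t in U, Real.exp (b * cosC t) ∂haarP Cir := by
        refine setIntegral_mono_on (integrable_const _) hi.integrableOn hUo.measurableSet ?_
        intro t ht
        apply Real.exp_le_exp.2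
        have : s < cosC t := ht
        gcongr
    _ ≤ ∫ t, Real.exp (b * cosC t) ∂haarP Cir :=
        setIntegral_le_integral hi (Eventually.of_forall fun t => (Real.exp_pos _).le)

theorem i0b_tendsto (s : ℝ) (hs : s < 1) :
    Tendsto (fun b : ℝ => Real.exp (b * s) / I0 b) atTop (nhds 0) := by
  obtain ⟨p, hp, h⟩ := i0b ((s + 1) / 2) (by linarith)
  have hlim : Tendsto (fun b : ℝ => Real.exp (-(b * ((1 - s) / 2))) / p) atTop (nhds 0) := by
    have h1 : Tendsto (fun b : ℝ => b * ((1 - s) / 2)) atTop atTop :=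
      tendsto_id.atTop_mul_const (by linarith)
    have h2 := Real.tendsto_exp_neg_atTop_nhds_zero.comp h1
    simpa using h2.div_const p
  refine squeeze_zero' ?_ ?_ hlim
  · filter_upwards [eventually_ge_atTop 0] with b hb
    have := h b hb
    have h0 : 0 < I0 b := lt_of_lt_of_le (by positivity) this
    positivity
  · filter_upwards [eventually_ge_atTop 0] with b hb
    have h1 := h b hb
    have h0 : 0 < I0 b := lt_of_lt_of_le (by positivity) h1
    rw [div_le_div_iff₀ h0 hp]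
    calc Real.exp (b * s) * p
        = Real.exp (-(b * ((1 - s) / 2))) * (p * Real.exp (b * ((s + 1) / 2))) := by
          rw [show Real.exp (b * s) =
            Real.exp (-(b * ((1 - s) / 2))) * Real.exp (b * ((s + 1) / 2)) by
            rw [← Real.exp_add]; congr 1; ring]
          ring
      _ ≤ Real.exp (-(b * ((1 - s) / 2))) * I0 b := by gcongr

lemma one_le_exp_div_I0 {b : ℝ} (hb : 0 ≤ b) : 1 ≤ Real.exp b / I0 b := by
  have hi : Integrable (fun t : Cir => Real.exp (b * cosC t)) (haarP Cir) :=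
    integrable_cont _ (Real.continuous_exp.comp (continuous_const.mul continuous_cosC))
  obtain ⟨p, hp, h⟩ := i0b 0 (by norm_num)
  have h0 : 0 < I0 b := lt_of_lt_of_le (by positivity) (h b hb)
  rw [le_div_iff₀ h0, one_mul]
  calc I0 b ≤ ∫ t : Cir, Real.exp b ∂haarP Cir := by
        refine integral_mono hi (integrable_const _) fun t => ?_
        apply Real.exp_le_exp.2
        have := cosC_le_one t
        nlinarith
    _ = Real.exp b := by simp

end XYB

end
end S_H2_XY_I0B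

section S_H82_BX_MMP

/-!
# MMP: phases (Messager, Miracle-Sole, Pfister)

Let `X = V → Cir`, `χ_e θ = θ_{r e} - θ_{s e}`, `W(θ) = ∑ K_e cos χ_e`, `W_α(θ) = ∑ K_e cos(χ_e + α_e)`, `W' = ∑ (K'_e - K_e) cos χ_e`, `W'_α` similarly.  To show:
`∫∫ [e^{W'(θ)} - e^{W'_α(θ')}] e^{W(θ) + W_α(θ')} ≥ 0`.  Change of variables `θ = x - y`, `θ' = x + y` (`gk_change` in `H2/XY/GK.lean`).  With `u = W'(x-y)`, `v = W'_α(x+y)`:
`cos(χ(x-y)) + cos(χ(x+y)+α) = 2 cos(χ x + α/2) cos(χ y + α/2)`, `cos(χ(x-y)) - cos(χ(x+y)+α) = 2 sin(χ x + α/2) sin(χ y + α/2)` (`α/2`: a half of `α` in `Cir`, `cir_div`), so `u + v`, `u - v` and `W(x-y) + W_α(x+y)` are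
kernels of the form `∑ g_i(x) g_i(y)` (`gk_K`).  `e^u - e^v = 2 e^{(u+v)/2} sinh((u-v)/2)` is in the closure of the positive kernels (`gk_exp`; `sinh` has nonnegative coefficients), products too (`gk_cmul`), and
their integral is `≥ 0` (`gk_int_nonneg`).
-/

set_option autoImplicit false

open Finset MeasureTheory

namespace H82.BX

open H82.IC XYB

variable {V E : Type} [Fintype V] [DecidableEq V] [Fintype E] [DecidableEq E]

/-- integral with couplings `K` and phases `α`. -/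
noncomputable def ZG (G : Gr V E) (K : E → ℝ) (α : E → Cir) : ℝ :=
  ∫ θ : V → Cir, Real.exp (∑ e, K e * cosC (θ (G.r e) - θ (G.s e) + α e)) ∂haarP (V → Cir)

namespace MMPx

section ker
variable {X : Type*} [AddCommGroup X] [TopologicalSpace X] [IsTopologicalAddGroup X]
  [CompactSpace X] [MeasurableSpace X] [BorelSpace X] [SecondCountableTopology X]

theorem fsum {ι : Type} (s : Finset ι) (Φ : ι → C(X × X, ℝ)) (h : ∀ i ∈ s, Φ i ∈ gk_K X) :
    ∑ i ∈ s, Φ i ∈ gk_K X := by
  classical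
  induction s using Finset.induction_on with
  | empty => rw [Finset.sum_empty]; exact gk_zero
  | insert i s hi ih =>
    rw [Finset.sum_insert hi]
    exact gk_add (h i (Finset.mem_insert_self _ _)) (ih fun j hj => h j (Finset.mem_insert_of_mem hj))

/-- `2 sinh` -/
theorem ksinh {Φ : C(X × X, ℝ)} (hΦ : Φ ∈ closure (gk_K X)) :
    ∃ Ψ ∈ closure (gk_K X), ∀ p, Ψ p = Real.exp (Φ p) - Real.exp (-Φ p) := by
  have hs1 := NormedSpace.exp_series_hasSum_exp' (𝕂 := ℝ) Φ
  have hs2 := NormedSpace.exp_series_hasSum_exp' (𝕂 := ℝ) (-Φ)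
  have hs := hs1.sub hs2
  have hval : ∀ (Θ : C(X × X, ℝ)) (p : X × X), (NormedSpace.exp Θ) p = Real.exp (Θ p) := by
    intro Θ p
    have hs := NormedSpace.exp_series_hasSum_exp' (𝕂 := ℝ) Θ
    have hc : Continuous fun Ψ : C(X × X, ℝ) => Ψ p := continuous_eval_const p
    let ev : C(X × X, ℝ) →+ ℝ :=
      { toFun := fun Ψ => Ψ p
        map_zero' := rfl
        map_add' := fun _ _ => rfl }
    have h1 := hs.map ev hc
    have h2 := NormedSpace.exp_series_hasSum_exp' (𝕂 := ℝ) (Θ p)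
    rw [Real.exp_eq_exp_ℝ]
    have e : (ev ∘ fun n : ℕ => ((n.factorial : ℝ)⁻¹) • Θ ^ n) =
        fun n : ℕ => ((n.factorial : ℝ)⁻¹) • (Θ p) ^ n := by
      funext n
      change (((n.factorial : ℝ)⁻¹) • Θ ^ n) p = _
      rw [ContinuousMap.smul_apply, ContinuousMap.pow_apply]
    rw [e] at h1
    exact h1.unique h2
  refine ⟨NormedSpace.exp Φ - NormedSpace.exp (-Φ), ?_, fun p => ?_⟩
  · refine isClosed_closure.mem_of_tendsto hs (Filter.Eventually.of_forall fun s => ?_)
    induction s using Finset.induction_on with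
    | empty => rw [Finset.sum_empty]; exact subset_closure gk_zero
    | @insert a s ha ih =>
      rw [Finset.sum_insert ha]
      refine gk_cadd ?_ ih
      rcases Nat.even_or_odd a with h | h
      · rw [h.neg_pow, sub_self]
        exact subset_closure gk_zero
      · rw [h.neg_pow, smul_neg, sub_neg_eq_add]
        exact gk_cadd (gk_csmul (by positivity) (gk_cpow hΦ a))
          (gk_csmul (by positivity) (gk_cpow hΦ a))
  · rw [ContinuousMap.sub_apply, hval, hval, ContinuousMap.neg_apply]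

end ker

/-- kernel of the sums -/
noncomputable def tS (G : Gr V E) (α : E → Cir) (e : E) : C((V → Cir) × (V → Cir), ℝ) :=
  ⟨fun p => cosC ((p.1 - p.2) (G.r e) - (p.1 - p.2) (G.s e)) +
    cosC ((p.1 + p.2) (G.r e) - (p.1 + p.2) (G.s e) + α e), by
    have := continuous_cosC
    fun_prop⟩

/-- kernel of the differences -/
noncomputable def tD (G : Gr V E) (α : E → Cir) (e : E) : C((V → Cir) × (V → Cir), ℝ) :=
  ⟨fun p => cosC ((p.1 - p.2) (G.r e) - (p.1 - p.2) (G.s e)) -
    cosC ((p.1 + p.2) (G.r e) - (p.1 + p.2) (G.s e) + α e), by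
    have := continuous_cosC
    fun_prop⟩

theorem tS_mem (G : Gr V E) (α : E → Cir) (e : E) : tS G α e ∈ gk_K (V → Cir) := by
  obtain ⟨y, hy⟩ := cir_pi_div α
  refine ⟨2, fun _ => ⟨fun x => cosC (x (G.r e) - x (G.s e) + y e), by
    have := continuous_cosC
    fun_prop⟩, fun p => ?_⟩
  obtain ⟨a, b⟩ := p
  have h1 : α e = y e + y e := by rw [← hy]; rfl
  show cosC ((a - b) (G.r e) - (a - b) (G.s e)) + cosC ((a + b) (G.r e) - (a + b) (G.s e) + α e) =
    ∑ i : Fin 2, cosC (a (G.r e) - a (G.s e) + y e) * cosC (b (G.r e) - b (G.s e) + y e)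
  have e1 : (a - b) (G.r e) - (a - b) (G.s e) =
      (a (G.r e) - a (G.s e) + y e) - (b (G.r e) - b (G.s e) + y e) := by
    simp only [Pi.sub_apply]
    abel
  have e2 : (a + b) (G.r e) - (a + b) (G.s e) + α e =
      (a (G.r e) - a (G.s e) + y e) + (b (G.r e) - b (G.s e) + y e) := by
    rw [h1]
    simp only [Pi.add_apply]
    abel
  rw [e1, e2, Fin.sum_univ_two]
  generalize a (G.r e) - a (G.s e) + y e = A
  generalize b (G.r e) - b (G.s e) + y e = B
  rw [cosC_sub, cosC_add]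
  ring

theorem tD_mem (G : Gr V E) (α : E → Cir) (e : E) : tD G α e ∈ gk_K (V → Cir) := by
  obtain ⟨y, hy⟩ := cir_pi_div α
  refine ⟨2, fun _ => ⟨fun x => sinC (x (G.r e) - x (G.s e) + y e), by
    have := continuous_sinC
    fun_prop⟩, fun p => ?_⟩
  obtain ⟨a, b⟩ := p
  have h1 : α e = y e + y e := by rw [← hy]; rfl
  show cosC ((a - b) (G.r e) - (a - b) (G.s e)) - cosC ((a + b) (G.r e) - (a + b) (G.s e) + α e) =
    ∑ i : Fin 2, sinC (a (G.r e) - a (G.s e) + y e) * sinC (b (G.r e) - b (G.s e) + y e)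
  have e1 : (a - b) (G.r e) - (a - b) (G.s e) =
      (a (G.r e) - a (G.s e) + y e) - (b (G.r e) - b (G.s e) + y e) := by
    simp only [Pi.sub_apply]
    abel
  have e2 : (a + b) (G.r e) - (a + b) (G.s e) + α e =
      (a (G.r e) - a (G.s e) + y e) + (b (G.r e) - b (G.s e) + y e) := by
    rw [h1]
    simp only [Pi.add_apply]
    abel
  rw [e1, e2, Fin.sum_univ_two]
  generalize a (G.r e) - a (G.s e) + y e = A
  generalize b (G.r e) - b (G.s e) + y e = B
  rw [cosC_sub, cosC_add]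
  ring

end MMPx

open MMPx in
theorem mmp (G : Gr V E) (K K' : E → ℝ) (hK : ∀ e, 0 ≤ K e) (hKK : ∀ e, K e ≤ K' e) (α : E → Cir) :
    ZG G K' α * ZG G K 0 ≤ ZG G K α * ZG G K' 0 := by
  have hcos := continuous_cosC
  -- the energies
  set w : (E → ℝ) → (E → Cir) → (V → Cir) → ℝ :=
    fun J a θ => ∑ e, J e * cosC (θ (G.r e) - θ (G.s e) + a e) with hw
  have hwc : ∀ J a, Continuous (w J a) := fun J a => by
    rw [hw]
    fun_prop
  have hSm : ∀ J : E → ℝ, (∀ e, 0 ≤ J e) → (∑ e, J e • tS G α e) ∈ gk_K (V → Cir) :=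
    fun J hJ => fsum _ _ fun e _ => gk_smul (hJ e) (tS_mem G α e)
  have hDm : ∀ J : E → ℝ, (∀ e, 0 ≤ J e) → (∑ e, J e • tD G α e) ∈ gk_K (V → Cir) :=
    fun J hJ => fsum _ _ fun e _ => gk_smul (hJ e) (tD_mem G α e)
  have hSv : ∀ (J : E → ℝ) (p : (V → Cir) × (V → Cir)),
      (∑ e, J e • tS G α e) p = w J 0 (p.1 - p.2) + w J α (p.1 + p.2) := by
    intro J p
    rw [ContinuousMap.sum_apply, hw, ← Finset.sum_add_distrib]
    refine Finset.sum_congr rfl fun e _ => ?_
    simp only [ContinuousMap.smul_apply, smul_eq_mul, tS, ContinuousMap.coe_mk, Pi.zero_apply, add_zero]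
    ring
  have hDv : ∀ (J : E → ℝ) (p : (V → Cir) × (V → Cir)),
      (∑ e, J e • tD G α e) p = w J 0 (p.1 - p.2) - w J α (p.1 + p.2) := by
    intro J p
    rw [ContinuousMap.sum_apply, hw, ← Finset.sum_sub_distrib]
    refine Finset.sum_congr rfl fun e _ => ?_
    simp only [ContinuousMap.smul_apply, smul_eq_mul, tD, ContinuousMap.coe_mk, Pi.zero_apply, add_zero]
    ring
  set J : E → ℝ := fun e => K' e - K e with hJ
  have hJ0 : ∀ e, 0 ≤ J e := fun e => sub_nonneg.2 (hKK e)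
  obtain ⟨Ψ1, hΨ1, hv1⟩ := gk_exp (gk_csmul (c := 1 / 2) (by norm_num) (subset_closure (hSm J hJ0)))
  obtain ⟨Ψ2, hΨ2, hv2⟩ := ksinh (gk_csmul (c := 1 / 2) (by norm_num) (subset_closure (hDm J hJ0)))
  obtain ⟨Ψ3, hΨ3, hv3⟩ := gk_exp (subset_closure (hSm K hK))
  have hpos := gk_int_nonneg (gk_cmul (gk_cmul hΨ1 hΨ2) hΨ3)
  have hadd : ∀ a θ, w J a θ + w K a θ = w K' a θ := by
    intro a θ
    rw [hw]
    simp only
    rw [← Finset.sum_add_distrib]
    refine Finset.sum_congr rfl fun e _ => ?_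
    rw [hJ]
    ring
  have e1 : ∫ p : (V → Cir) × (V → Cir), (Ψ1 * Ψ2 * Ψ3) p ∂haarP ((V → Cir) × (V → Cir)) =
      ∫ p : (V → Cir) × (V → Cir), (Real.exp (w K α p.1) * Real.exp (w K' 0 p.2) -
        Real.exp (w K' α p.1) * Real.exp (w K 0 p.2)) ∂haarP ((V → Cir) × (V → Cir)) := by
    have hc1 := hwc K α
    have hc2 := hwc K' 0
    have hc3 := hwc K' α
    have hc4 := hwc K 0
    rw [← gk_change cir_pi_div (fun p : (V → Cir) × (V → Cir) =>
      Real.exp (w K α p.1) * Real.exp (w K' 0 p.2) - Real.exp (w K' α p.1) * Real.exp (w K 0 p.2))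
      (by fun_prop)]
    congr 1
    funext p
    simp only [ContinuousMap.mul_apply, hv1, hv2, hv3, ContinuousMap.smul_apply, hSv, hDv,
      smul_eq_mul]
    rw [← hadd 0, ← hadd α]
    set A := w J 0 (p.1 - p.2)
    set B := w J α (p.1 + p.2)
    set C := w K 0 (p.1 - p.2)
    set D := w K α (p.1 + p.2)
    rw [mul_sub, sub_mul, ← Real.exp_add, ← Real.exp_add, ← Real.exp_add, ← Real.exp_add,
      ← Real.exp_add, ← Real.exp_add]
    congr 2 <;> ring
  rw [e1, integral_sub, haarP_prod,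
    integral_prod_mul (μ := haarP (V → Cir)) (ν := haarP (V → Cir)) (fun x => Real.exp (w K α x))
      (fun x => Real.exp (w K' 0 x)),
    integral_prod_mul (μ := haarP (V → Cir)) (ν := haarP (V → Cir)) (fun x => Real.exp (w K' α x))
      (fun x => Real.exp (w K 0 x))] at hpos
  · have h2 : ∀ (J : E → ℝ) (a : E → Cir), ZG G J a = ∫ θ, Real.exp (w J a θ) ∂haarP (V → Cir) :=
      fun J a => rfl
    rw [h2, h2, h2, h2]
    linarith
  · have hc1 := hwc K α
    have hc2 := hwc K' 0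
    exact integrable_cont _ (by fun_prop)
  · have hc3 := hwc K' α
    have hc4 := hwc K 0
    exact integrable_cont _ (by fun_prop)

end H82.BX

end S_H82_BX_MMP

section S_H82_BX_HS1

/-!
# HS1: summability and basic properties of the height expectations

`Bd.out`: every `v ∈ F` is connected by edges of `EF` to a vertex outside `F` (height `0`), so `|h v| ≤ ∑_{e ∈ EF} |∇_e h|`, and `h ↦ (∇_e h)_{e ∈ EF}` is injective.  Hence
`∑_h ∏_{e ∈ EF} w(∇_e h) (1 + ∑_v |h v|)^k ≤ ∑_{J : EF → ℤ} ∏ w(J_e) (1 + |F| ∑_e |J_e|)^k < ∞` (expand the power, `WOk.summ`).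
Everything else: sums of absolutely convergent series.
-/

set_option autoImplicit false

open Finset MeasureTheory

namespace H82.BX

open H82.IC

variable {V E : Type} [DecidableEq V] [DecidableEq E]

theorem HS1_base (F : Finset V) (h : ↥F → ℤ) : (1 : ℝ) ≤ 1 + ∑ v, |(h v : ℝ)| := by
  have : 0 ≤ ∑ v, |(h v : ℝ)| := Finset.sum_nonneg fun v _ => abs_nonneg _
  linarith

theorem HS1_C (F : Finset V) (g : (V → ℤ) → ℝ) (C : ℝ) (k : ℕ)
    (h : ∀ h : ↥F → ℤ, |g (ex h)| ≤ C * (1 + ∑ v, |(h v : ℝ)|) ^ k) : 0 ≤ C := by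
  have h0 := h 0
  have h1 := (abs_nonneg _).trans h0
  simpa using h1

/-- bounded functions are `PBd`. -/
theorem HS1_PBd_bdd (F : Finset V) (g : (V → ℤ) → ℝ) (C : ℝ) (h : ∀ h, |g h| ≤ C) : PBd F g :=
  ⟨C, 0, fun h' => by simpa using h (ex h')⟩

theorem HS1_PBd_add (F : Finset V) (g g' : (V → ℤ) → ℝ) (h : PBd F g) (h' : PBd F g') :
    PBd F (fun h => g h + g' h) := by
  obtain ⟨C, k, hC⟩ := h
  obtain ⟨C', k', hC'⟩ := h'
  have c0 := HS1_C F g C k hC
  have c0' := HS1_C F g' C' k' hC'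
  refine ⟨C + C', k + k', fun x => ?_⟩
  have b1 := HS1_base F x
  set B := 1 + ∑ v, |(x v : ℝ)|
  have h1 : B ^ k ≤ B ^ (k + k') := pow_le_pow_right₀ b1 (Nat.le_add_right _ _)
  have h2 : B ^ k' ≤ B ^ (k + k') := pow_le_pow_right₀ b1 (Nat.le_add_left _ _)
  calc |g (ex x) + g' (ex x)| ≤ |g (ex x)| + |g' (ex x)| := abs_add_le _ _
    _ ≤ C * B ^ k + C' * B ^ k' := add_le_add (hC x) (hC' x)
    _ ≤ C * B ^ (k + k') + C' * B ^ (k + k') :=
        add_le_add (mul_le_mul_of_nonneg_left h1 c0) (mul_le_mul_of_nonneg_left h2 c0')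
    _ = (C + C') * B ^ (k + k') := by ring

theorem HS1_ex_mem (F : Finset V) (h : ↥F → ℤ) (v : ↥F) : ex h v.1 = h v := by
  unfold ex
  rw [dif_pos v.2]

theorem HS1_ex_not (F : Finset V) (h : ↥F → ℤ) (v : V) (hv : v ∉ F) : ex h v = 0 := by
  unfold ex
  rw [dif_neg hv]

theorem HS1_ex_sub (F : Finset V) (h h' : ↥F → ℤ) (v : V) : ex (h - h') v = ex h v - ex h' v := by
  unfold ex
  split_ifs with hv
  · rfl
  · simp

theorem HS1_ex_neg (F : Finset V) (h : ↥F → ℤ) : ex (-h) = -ex h := by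
  funext v
  rw [Pi.neg_apply]
  unfold ex
  split_ifs with hv
  · rfl
  · simp

/-- gradient. -/
def HS1_J (G : Gr V E) (F : Finset V) (EF : Finset E) (h : ↥F → ℤ) : ↥EF → ℤ :=
  fun e => ex h (G.s e.1) - ex h (G.r e.1)

theorem HS1_path (G : Gr V E) (F : Finset V) (EF : Finset E) {v u : V}
    (hc : G.Conn (EF : Set E) v u) : ∃ N : ℕ, ∀ h : ↥F → ℤ,
      |(ex h v : ℝ) - ex h u| ≤ N * ∑ e, |(HS1_J G F EF h e : ℝ)| := by
  induction hc with
  | refl => exact ⟨0, fun h => by simp⟩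
  | @tail y z _ hyz ih =>
    obtain ⟨N, hN⟩ := ih
    obtain ⟨e, he, hor⟩ := hyz
    refine ⟨N + 1, fun h => ?_⟩
    have h1 : |(ex h y : ℝ) - ex h z| ≤ ∑ e, |(HS1_J G F EF h e : ℝ)| := by
      have h2 : |(ex h y : ℝ) - ex h z| = |(HS1_J G F EF h ⟨e, he⟩ : ℝ)| := by
        unfold HS1_J
        push_cast
        rcases hor with h3 | h3
        · rw [h3.1, h3.2]
        · rw [h3.1, h3.2, abs_sub_comm]
      rw [h2]
      exact Finset.single_le_sum (f := fun e => |(HS1_J G F EF h e : ℝ)|)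
        (fun e _ => abs_nonneg _) (mem_univ _)
    have h4 : (ex h v : ℝ) - ex h z = ((ex h v : ℝ) - ex h y) + ((ex h y : ℝ) - ex h z) := by ring
    rw [h4]
    refine (abs_add_le _ _).trans ((add_le_add (hN h) h1).trans (le_of_eq ?_))
    push_cast
    ring

theorem HS1_bound (G : Gr V E) (F : Finset V) (EF : Finset E) (hB : Bd G F EF) :
    ∃ N : ℕ, ∀ h : ↥F → ℤ, ∀ v : ↥F, |(h v : ℝ)| ≤ N * ∑ e, |(HS1_J G F EF h e : ℝ)| := by
  have h1 : ∀ v : ↥F, ∃ N : ℕ, ∀ h : ↥F → ℤ, |(h v : ℝ)| ≤ N * ∑ e, |(HS1_J G F EF h e : ℝ)| := by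
    intro v
    obtain ⟨u, hu, hc⟩ := hB.out v.1 v.2
    obtain ⟨N, hN⟩ := HS1_path G F EF hc
    refine ⟨N, fun h => ?_⟩
    have h2 := hN h
    rwa [HS1_ex_mem, HS1_ex_not F h u hu, Int.cast_zero, sub_zero] at h2
  choose N hN using h1
  refine ⟨∑ v, N v, fun h v => (hN v h).trans ?_⟩
  refine mul_le_mul_of_nonneg_right ?_ (Finset.sum_nonneg fun e _ => abs_nonneg _)
  exact_mod_cast Finset.single_le_sum (f := N) (fun v _ => Nat.zero_le _) (mem_univ v)

theorem HS1_J_inj (G : Gr V E) (F : Finset V) (EF : Finset E) (hB : Bd G F EF) :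
    Function.Injective (HS1_J G F EF) := by
  obtain ⟨N, hN⟩ := HS1_bound G F EF hB
  intro h h' hh
  funext v
  have h1 := hN (h - h') v
  have h2 : ∑ e, |(HS1_J G F EF (h - h') e : ℝ)| = 0 := by
    refine Finset.sum_eq_zero fun e _ => ?_
    have h3 : HS1_J G F EF (h - h') e = HS1_J G F EF h e - HS1_J G F EF h' e := by
      unfold HS1_J
      rw [HS1_ex_sub, HS1_ex_sub]
      ring
    rw [h3, hh, sub_self, Int.cast_zero, abs_zero]
  rw [h2, mul_zero] at h1
  have h4 : ((h - h') v : ℝ) = 0 := abs_nonpos_iff.1 h1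
  have h5 : (h - h') v = 0 := by exact_mod_cast h4
  rw [Pi.sub_apply] at h5
  omega

theorem HS1_pi_summ {ι : Type} [Fintype ι] [DecidableEq ι] (φ : ℤ → ℝ) (h0 : ∀ n, 0 ≤ φ n)
    (hs : Summable φ) : Summable (fun J : ι → ℤ => ∏ i, φ (J i)) := by
  refine summable_of_sum_le (c := ∏ _i : ι, ∑' n, φ n)
    (fun J => Finset.prod_nonneg fun i _ => h0 _) fun s => ?_
  have h1 : s ⊆ Fintype.piFinset (fun i : ι => s.image (fun J => J i)) := by
    intro J hJ
    rw [Fintype.mem_piFinset]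
    exact fun i => mem_image_of_mem _ hJ
  calc ∑ J ∈ s, ∏ i, φ (J i)
      ≤ ∑ J ∈ Fintype.piFinset (fun i : ι => s.image (fun J => J i)), ∏ i, φ (J i) :=
        Finset.sum_le_sum_of_subset_of_nonneg h1
          (fun J _ _ => Finset.prod_nonneg fun i _ => h0 _)
    _ = ∏ i : ι, ∑ n ∈ s.image (fun J => J i), φ n := by
        rw [Finset.prod_univ_sum]
    _ ≤ ∏ _i : ι, ∑' n, φ n := by
        refine Finset.prod_le_prod (fun i _ => Finset.sum_nonneg fun n _ => h0 n) fun i _ => ?_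
        exact hs.sum_le_tsum _ (fun n _ => h0 n)

theorem HS1_phi_summ (w : ℤ → ℝ) (hw : WOk w) (k : ℕ) :
    Summable (fun n : ℤ => w n * (1 + |(n : ℝ)|) ^ k) := by
  have h1 : Summable (fun n : ℤ => 2 ^ (k - 1) * (|(n : ℝ)| ^ 0 * w n + |(n : ℝ)| ^ k * w n)) :=
    ((hw.summ 0).add (hw.summ k)).mul_left _
  refine Summable.of_nonneg_of_le (fun n => ?_) (fun n => ?_) h1
  · exact mul_nonneg (hw.pos n).le (pow_nonneg (by positivity) _)
  · have h2 := add_pow_le (zero_le_one' ℝ) (abs_nonneg (n : ℝ)) k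
    have h3 := mul_le_mul_of_nonneg_left h2 (hw.pos n).le
    refine h3.trans (le_of_eq ?_)
    rw [one_pow, pow_zero]
    ring

theorem HS1_one_add (s : Finset E) (x : E → ℝ) (hx : ∀ e, 0 ≤ x e) :
    1 + ∑ e ∈ s, x e ≤ ∏ e ∈ s, (1 + x e) := by
  induction s using Finset.induction_on with
  | empty => simp
  | insert a s ha ih =>
    rw [Finset.sum_insert ha, Finset.prod_insert ha]
    have h1 : 1 ≤ ∏ e ∈ s, (1 + x e) := by
      have : 0 ≤ ∑ e ∈ s, x e := Finset.sum_nonneg fun e _ => hx e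
      linarith
    nlinarith [hx a]

theorem WH_pos (G : Gr V E) (F : Finset V) (EF : Finset E) (w : ℤ → ℝ) (hw : WOk w) (h : ↥F → ℤ) :
    0 < WH G F EF w h := by
  unfold WH
  exact Finset.prod_pos fun e _ => hw.pos _

theorem WH_summ (G : Gr V E) (F : Finset V) (EF : Finset E) (hB : Bd G F EF) (w : ℤ → ℝ) (hw : WOk w)
    (g : (V → ℤ) → ℝ) (hg : PBd F g) : Summable (fun h : ↥F → ℤ => WH G F EF w h * g (ex h)) := by
  obtain ⟨C, k, hC⟩ := hg
  have c0 := HS1_C F g C k hC
  obtain ⟨N, hN⟩ := HS1_bound G F EF hB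
  have hs := (HS1_pi_summ (ι := ↥EF) (fun n : ℤ => w n * (1 + |(n : ℝ)|) ^ k)
    (fun n => mul_nonneg (hw.pos n).le (pow_nonneg (by positivity) _))
    (HS1_phi_summ w hw k)).comp_injective (HS1_J_inj G F EF hB)
  refine Summable.of_norm_bounded (hs.mul_left (C * (1 + F.card * N : ℝ) ^ k)) fun h => ?_
  rw [Real.norm_eq_abs, abs_mul, abs_of_pos (WH_pos G F EF w hw h)]
  have h1 : WH G F EF w h = ∏ e : ↥EF, w (HS1_J G F EF h e) := by
    unfold WH HS1_J
    rw [← Finset.prod_coe_sort EF]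
  have h2 : 1 + ∑ v, |(h v : ℝ)| ≤ (1 + F.card * N) * ∏ e : ↥EF, (1 + |(HS1_J G F EF h e : ℝ)|) := by
    have h3 : ∑ v, |(h v : ℝ)| ≤ F.card * (N * ∑ e, |(HS1_J G F EF h e : ℝ)|) := by
      refine (Finset.sum_le_sum fun v _ => hN h v).trans (le_of_eq ?_)
      rw [Finset.sum_const, nsmul_eq_mul, Finset.card_univ, Fintype.card_coe]
    have h4 := HS1_one_add (univ : Finset ↥EF) (fun e => |(HS1_J G F EF h e : ℝ)|)
      (fun e => abs_nonneg _)
    have h5 : (0 : ℝ) ≤ F.card * N := by positivity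
    have h6 : (0 : ℝ) ≤ ∑ e, |(HS1_J G F EF h e : ℝ)| := Finset.sum_nonneg fun e _ => abs_nonneg _
    refine le_trans ?_ (mul_le_mul_of_nonneg_left h4 (by linarith))
    nlinarith
  have h7 : (1 + ∑ v, |(h v : ℝ)|) ^ k ≤
      (1 + F.card * N : ℝ) ^ k * ∏ e : ↥EF, (1 + |(HS1_J G F EF h e : ℝ)|) ^ k := by
    have h8 := pow_le_pow_left₀ (by linarith [HS1_base F h]) h2 k
    rwa [mul_pow, ← Finset.prod_pow] at h8
  have h9 : |g (ex h)| ≤ C * ((1 + F.card * N : ℝ) ^ k *
      ∏ e : ↥EF, (1 + |(HS1_J G F EF h e : ℝ)|) ^ k) :=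
    (hC h).trans (mul_le_mul_of_nonneg_left h7 c0)
  refine (mul_le_mul_of_nonneg_left h9 (WH_pos G F EF w hw h).le).trans (le_of_eq ?_)
  rw [Function.comp_apply, Finset.prod_mul_distrib, ← h1]
  ring

theorem WH_summ1 (G : Gr V E) (F : Finset V) (EF : Finset E) (hB : Bd G F EF) (w : ℤ → ℝ) (hw : WOk w) :
    Summable (fun h : ↥F → ℤ => WH G F EF w h) ∧ 0 < ∑' h : ↥F → ℤ, WH G F EF w h := by
  have h1 : Summable (fun h : ↥F → ℤ => WH G F EF w h) := by
    have h2 := WH_summ G F EF hB w hw (fun _ => 1) (HS1_PBd_bdd F _ 1 (fun h => by simp))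
    simpa using h2
  exact ⟨h1, h1.tsum_pos (fun h => (WH_pos G F EF w hw h).le) 0 (WH_pos G F EF w hw 0)⟩

theorem Eh_one (G : Gr V E) (F : Finset V) (EF : Finset E) (hB : Bd G F EF) (w : ℤ → ℝ) (hw : WOk w) (c : ℝ) :
    Eh G F EF w (fun _ => c) = c := by
  unfold Eh
  rw [tsum_mul_right, mul_div_cancel_left₀ _ (WH_summ1 G F EF hB w hw).2.ne']

theorem Eh_add (G : Gr V E) (F : Finset V) (EF : Finset E) (hB : Bd G F EF) (w : ℤ → ℝ) (hw : WOk w)
    (g g' : (V → ℤ) → ℝ) (hg : PBd F g) (hg' : PBd F g') :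
    Eh G F EF w (fun h => g h + g' h) = Eh G F EF w g + Eh G F EF w g' := by
  unfold Eh
  rw [← add_div, ← (WH_summ G F EF hB w hw g hg).tsum_add (WH_summ G F EF hB w hw g' hg')]
  congr 1
  refine tsum_congr fun h => ?_
  ring

theorem Eh_smul (G : Gr V E) (F : Finset V) (EF : Finset E) (w : ℤ → ℝ) (c : ℝ) (g : (V → ℤ) → ℝ) :
    Eh G F EF w (fun h => c * g h) = c * Eh G F EF w g := by
  unfold Eh
  rw [← mul_div_assoc, ← tsum_mul_left]
  congr 1
  refine tsum_congr fun h => ?_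
  ring

theorem Eh_sum {ι : Type} (G : Gr V E) (F : Finset V) (EF : Finset E) (hB : Bd G F EF) (w : ℤ → ℝ)
    (hw : WOk w) (s : Finset ι) (g : ι → (V → ℤ) → ℝ) (hg : ∀ i ∈ s, PBd F (g i)) :
    Eh G F EF w (fun h => ∑ i ∈ s, g i h) = ∑ i ∈ s, Eh G F EF w (g i) := by
  classical
  have key : ∀ t : Finset ι, t ⊆ s → PBd F (fun h => ∑ i ∈ t, g i h) ∧
      Eh G F EF w (fun h => ∑ i ∈ t, g i h) = ∑ i ∈ t, Eh G F EF w (g i) := by
    intro t
    induction t using Finset.induction_on with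
    | empty =>
      intro _
      refine ⟨HS1_PBd_bdd F _ 0 (fun h => by simp), ?_⟩
      unfold Eh
      simp
    | insert a t ha ih =>
      intro hsub
      obtain ⟨i1, i2⟩ := ih (fun x hx => hsub (mem_insert_of_mem hx))
      have h1 := hg a (hsub (mem_insert_self _ _))
      simp only [Finset.sum_insert ha]
      refine ⟨HS1_PBd_add F _ _ h1 i1, ?_⟩
      rw [Eh_add G F EF hB w hw (g a) (fun h => ∑ i ∈ t, g i h) h1 i1, i2]
  exact (key s (Finset.Subset.refl _)).2

theorem Eh_mono (G : Gr V E) (F : Finset V) (EF : Finset E) (hB : Bd G F EF) (w : ℤ → ℝ) (hw : WOk w)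
    (g g' : (V → ℤ) → ℝ) (hg : PBd F g) (hg' : PBd F g') (h : ∀ h : ↥F → ℤ, g (ex h) ≤ g' (ex h)) :
    Eh G F EF w g ≤ Eh G F EF w g' := by
  unfold Eh
  refine div_le_div_of_nonneg_right ?_ (WH_summ1 G F EF hB w hw).2.le
  refine (WH_summ G F EF hB w hw g hg).tsum_le_tsum (fun x => ?_) (WH_summ G F EF hB w hw g' hg')
  exact mul_le_mul_of_nonneg_left (h x) (WH_pos G F EF w hw x).le

theorem Eh_congr (G : Gr V E) (F : Finset V) (EF : Finset E) (w : ℤ → ℝ)
    (g g' : (V → ℤ) → ℝ) (h : ∀ h : ↥F → ℤ, g (ex h) = g' (ex h)) :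
    Eh G F EF w g = Eh G F EF w g' := by
  unfold Eh
  congr 1
  refine tsum_congr fun x => ?_
  rw [h x]

theorem Eh_neg (G : Gr V E) (F : Finset V) (EF : Finset E) (w : ℤ → ℝ) (hw : WOk w) (g : (V → ℤ) → ℝ) :
    Eh G F EF w (fun h => g (-h)) = Eh G F EF w g := by
  unfold Eh
  congr 1
  rw [← (Equiv.neg (↥F → ℤ)).tsum_eq]
  refine tsum_congr fun h => ?_
  have h1 : WH G F EF w (-h) = WH G F EF w h := by
    unfold WH
    refine Finset.prod_congr rfl fun e _ => ?_
    rw [HS1_ex_neg, Pi.neg_apply, Pi.neg_apply, ← hw.symm]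
    congr 1
    ring
  change WH G F EF w (-h) * g (-ex (-h)) = _
  rw [h1, HS1_ex_neg, neg_neg]

/-- relabelling by a graph isomorphism. -/
theorem Eh_iso (G : Gr V E) (F F' : Finset V) (EF EF' : Finset E) (w : ℤ → ℝ) (hw : WOk w)
    (gV : V ≃ V) (gE : E ≃ E) (hg : ∀ e, (gV (G.s e) = G.s (gE e) ∧ gV (G.r e) = G.r (gE e)) ∨
      (gV (G.s e) = G.r (gE e) ∧ gV (G.r e) = G.s (gE e)))
    (hF : ∀ v, v ∈ F ↔ gV v ∈ F') (hE : ∀ e, e ∈ EF ↔ gE e ∈ EF') (g : (V → ℤ) → ℝ) :
    Eh G F' EF' w g = Eh G F EF w (fun h => g (fun v => h (gV.symm v))) := by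
  let φ : (↥F' → ℤ) ≃ (↥F → ℤ) :=
    { toFun := fun h v => h ⟨gV v.1, (hF v.1).1 v.2⟩
      invFun := fun h v => h ⟨gV.symm v.1, (hF _).2 (by rw [Equiv.apply_symm_apply]; exact v.2)⟩
      left_inv := fun h => by
        funext v
        simp
      right_inv := fun h => by
        funext v
        simp }
  have h1 : ∀ (h : ↥F' → ℤ) (v : V), ex h (gV v) = ex (φ h) v := by
    intro h v
    unfold ex
    by_cases hv : v ∈ F
    · rw [dif_pos hv, dif_pos ((hF v).1 hv)]
      rfl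
    · rw [dif_neg hv, dif_neg (fun hc => hv ((hF v).2 hc))]
  have h2 : ∀ h : ↥F' → ℤ, ex h = fun v => ex (φ h) (gV.symm v) := by
    intro h
    funext v
    rw [← h1, Equiv.apply_symm_apply]
  have h3 : ∀ h : ↥F' → ℤ, WH G F' EF' w h = WH G F EF w (φ h) := by
    intro h
    unfold WH
    symm
    refine Finset.prod_bij (fun e _ => gE e) (fun e he => (hE e).1 he)
      (fun e _ e' _ hee => gE.injective hee) (fun e' he' => ?_) (fun e _ => ?_)
    · refine ⟨gE.symm e', (hE _).2 (by rw [Equiv.apply_symm_apply]; exact he'), ?_⟩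
      rw [Equiv.apply_symm_apply]
    · rcases hg e with h4 | h4
      · rw [← h4.1, ← h4.2, h1, h1]
      · rw [← h4.1, ← h4.2, h1, h1, ← hw.symm]
        congr 1
        ring
  unfold Eh
  rw [← φ.tsum_eq, ← φ.tsum_eq]
  congr 1
  · refine tsum_congr fun h => ?_
    rw [h3, h2 h]
  · exact tsum_congr fun h => h3 h

/-- Cauchy product bound used for second moments: bounded functions are `PBd`. -/
theorem PBd_bdd (F : Finset V) (g : (V → ℤ) → ℝ) (C : ℝ) (h : ∀ h, |g h| ≤ C) : PBd F g := by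
  exact HS1_PBd_bdd F g C h

theorem PBd_h (F : Finset V) (v : V) : PBd F (fun h => (h v : ℝ)) := by
  refine ⟨1, 1, fun h => ?_⟩
  rw [one_mul, pow_one]
  change |(ex h v : ℝ)| ≤ _
  by_cases hv : v ∈ F
  · have h1 := HS1_ex_mem F h ⟨v, hv⟩
    change ex h v = _ at h1
    rw [h1]
    have h2 := Finset.single_le_sum (f := fun v => |(h v : ℝ)|) (fun v _ => abs_nonneg _)
      (mem_univ (⟨v, hv⟩ : ↥F))
    linarith
  · rw [HS1_ex_not F h v hv, Int.cast_zero, abs_zero]
    linarith [HS1_base F h]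

theorem PBd_mul (F : Finset V) (g g' : (V → ℤ) → ℝ) (h : PBd F g) (h' : PBd F g') :
    PBd F (fun h => g h * g' h) := by
  obtain ⟨C, k, hC⟩ := h
  obtain ⟨C', k', hC'⟩ := h'
  refine ⟨C * C', k + k', fun x => ?_⟩
  rw [abs_mul]
  refine (mul_le_mul (hC x) (hC' x) (abs_nonneg _) ((abs_nonneg _).trans (hC x))).trans
    (le_of_eq ?_)
  rw [pow_add]
  ring

theorem PBd_add (F : Finset V) (g g' : (V → ℤ) → ℝ) (h : PBd F g) (h' : PBd F g') :
    PBd F (fun h => g h + g' h) := by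
  exact HS1_PBd_add F g g' h h'

theorem PBd_smul (F : Finset V) (c : ℝ) (g : (V → ℤ) → ℝ) (h : PBd F g) : PBd F (fun h => c * g h) := by
  obtain ⟨C, k, hC⟩ := h
  refine ⟨|c| * C, k, fun x => ?_⟩
  rw [abs_mul, mul_assoc]
  exact mul_le_mul_of_nonneg_left (hC x) (abs_nonneg _)

end H82.BX

end S_H82_BX_HS1

section S_H82_BX_HS2

/-!
# HS2: FKG for the heights

`WH` is log-supermodular: `w(a-b) w(a'-b') ≤ w((a∧a')-(b∧b')) w((a∨a')-(b∨b'))` for `w > 0` symmetric log-concave (with `x = a-b`, `y = a'-b'`: if `a ≤ a'`, `b ≥ b'` the right side is `w(a-b') w(a'-b)`,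
and `a - b ≤ a-b', a'-b ≤ a'-b'` with the same sum; log-concavity: `w(x) w(y) ≤ w(x+d) w(y-d)` for `x ≤ x+d`, `0 ≤ d ≤ y - x`).
Truncate to `h : ↥F → Icc (-N) N` (a finite distributive lattice) and use `fkg` (`Mathlib/Combinatorics/SetFamily/FourFunctions.lean`; add constants to make the functions nonnegative on the finite set), then `N → ∞`
(summability from `WH_summ`).
-/

set_option autoImplicit false

open Finset MeasureTheory

namespace H82.BX

open H82.IC

variable {V E : Type} [DecidableEq V] [DecidableEq E]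

theorem HS2_lcA (w : ℤ → ℝ) (hw : WOk w) (m : ℤ) (k : ℕ) :
    w m * w (m + k + 1) ≤ w (m + 1) * w (m + k) := by
  induction k with
  | zero =>
    have h0 : m + ((0 : ℕ) : ℤ) = m := by simp
    rw [h0, mul_comm]
  | succ k ih =>
    have h1 := hw.lc (m + k + 1)
    have e1 : m + k + 1 - 1 = m + k := by ring
    have e2 : m + ((k + 1 : ℕ) : ℤ) = m + k + 1 := by push_cast; ring
    rw [e1] at h1
    rw [e2]
    have p1 := hw.pos (m + k)
    have p2 := hw.pos (m + k + 1)
    have p3 := hw.pos (m + 1)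
    have p4 := hw.pos m
    have p5 := hw.pos (m + k + 1 + 1)
    have h2 : (w m * w (m + k + 1)) * (w (m + k) * w (m + k + 1 + 1)) ≤
        (w (m + 1) * w (m + k)) * (w (m + k + 1) ^ 2) :=
      mul_le_mul ih h1 (by positivity) (by positivity)
    have h3 : (w m * w (m + k + 1 + 1)) * (w (m + k) * w (m + k + 1)) ≤
        (w (m + 1) * w (m + k + 1)) * (w (m + k) * w (m + k + 1)) := by
      calc _ = (w m * w (m + k + 1)) * (w (m + k) * w (m + k + 1 + 1)) := by ring
        _ ≤ _ := h2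
        _ = _ := by ring
    exact le_of_mul_le_mul_right h3 (by positivity)

theorem HS2_lcB (w : ℤ → ℝ) (hw : WOk w) (x y : ℤ) (d : ℕ) (hd : 2 * (d : ℤ) ≤ y - x) :
    w x * w y ≤ w (x + d) * w (y - d) := by
  induction d with
  | zero => simp
  | succ d ih =>
    have h1 : 2 * (d : ℤ) ≤ y - x := by push_cast at hd; omega
    refine (ih h1).trans ?_
    obtain ⟨k, hk⟩ : ∃ k : ℕ, y - d - 1 = x + d + k :=
      ⟨(y - d - 1 - (x + d)).toNat, by push_cast at hd; omega⟩
    have h2 := HS2_lcA w hw (x + d) k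
    have e1 : x + d + k + 1 = y - d := by omega
    have e2 : x + ((d + 1 : ℕ) : ℤ) = x + d + 1 := by push_cast; ring
    have e3 : y - ((d + 1 : ℕ) : ℤ) = x + d + k := by push_cast; omega
    rw [e1] at h2
    rw [e2, e3]
    exact h2

theorem w_lc2 (w : ℤ → ℝ) (hw : WOk w) (x y d : ℤ) (hd : 0 ≤ d) (hxy : d ≤ y - x) :
    w x * w y ≤ w (x + d) * w (y - d) := by
  by_cases h : 2 * d ≤ y - x
  · obtain ⟨k, rfl⟩ := Int.eq_ofNat_of_zero_le hd
    exact HS2_lcB w hw x y k h
  · obtain ⟨k, hk⟩ : ∃ k : ℕ, (k : ℤ) = y - x - d := ⟨(y - x - d).toNat, by omega⟩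
    have h1 := HS2_lcB w hw x y k (by omega)
    have e1 : x + k = y - d := by omega
    have e2 : y - k = x + d := by omega
    rw [e1, e2] at h1
    rw [mul_comm (w (x + d))]
    exact h1

theorem HS2_edge (w : ℤ → ℝ) (hw : WOk w) (a b a' b' : ℤ) :
    w (a - b) * w (a' - b') ≤ w (min a a' - min b b') * w (max a a' - max b b') := by
  rcases le_total a a' with h1 | h1 <;> rcases le_total b b' with h2 | h2
  · rw [min_eq_left h1, min_eq_left h2, max_eq_right h1, max_eq_right h2]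
  · rw [min_eq_left h1, min_eq_right h2, max_eq_right h1, max_eq_left h2]
    have h3 := w_lc2 w hw (a - b) (a' - b') (b - b') (by omega) (by omega)
    have e1 : a - b + (b - b') = a - b' := by ring
    have e2 : a' - b' - (b - b') = a' - b := by ring
    rw [e1, e2] at h3
    exact h3
  · rw [min_eq_right h1, min_eq_left h2, max_eq_left h1, max_eq_right h2]
    have h3 := w_lc2 w hw (a' - b') (a - b) (b' - b) (by omega) (by omega)
    have e1 : a' - b' + (b' - b) = a' - b := by ring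
    have e2 : a - b - (b' - b) = a - b' := by ring
    rw [e1, e2] at h3
    rw [mul_comm (w (a - b))]
    exact h3
  · rw [min_eq_right h1, min_eq_right h2, max_eq_left h1, max_eq_left h2, mul_comm]

theorem HS2_ex_inf {F : Finset V} (a b : ↥F → ℤ) (v : V) :
    ex (a ⊓ b) v = min (ex a v) (ex b v) := by
  unfold ex
  split_ifs with h
  · rfl
  · simp

theorem HS2_ex_sup {F : Finset V} (a b : ↥F → ℤ) (v : V) :
    ex (a ⊔ b) v = max (ex a v) (ex b v) := by
  unfold ex
  split_ifs with h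
  · rfl
  · simp

theorem HS2_WH (G : Gr V E) (F : Finset V) (EF : Finset E) (w : ℤ → ℝ) (hw : WOk w) (a b : ↥F → ℤ) :
    WH G F EF w a * WH G F EF w b ≤ WH G F EF w (a ⊓ b) * WH G F EF w (a ⊔ b) := by
  unfold WH
  rw [← prod_mul_distrib, ← prod_mul_distrib]
  refine prod_le_prod (fun e _ => (mul_pos (hw.pos _) (hw.pos _)).le) fun e _ => ?_
  rw [HS2_ex_inf, HS2_ex_inf, HS2_ex_sup, HS2_ex_sup]
  exact HS2_edge w hw _ _ _ _

/-- the truncation. -/
def HS2_phi (F : Finset V) (N : ℕ) (a : ↥F → Fin (2 * N + 1)) : ↥F → ℤ :=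
  fun v => ((a v : ℕ) : ℤ) - N

theorem HS2_phi_mono (F : Finset V) (N : ℕ) : Monotone (HS2_phi F N) := by
  intro a b h v
  have h1 : ((a v : ℕ) : ℤ) ≤ ((b v : ℕ) : ℤ) := by exact_mod_cast h v
  change ((a v : ℕ) : ℤ) - N ≤ ((b v : ℕ) : ℤ) - N
  omega

theorem HS2_phi_inf (F : Finset V) (N : ℕ) (a b : ↥F → Fin (2 * N + 1)) :
    HS2_phi F N (a ⊓ b) = HS2_phi F N a ⊓ HS2_phi F N b := by
  funext v
  rcases le_total (a v) (b v) with h | h
  · have h1 : ((a v : ℕ) : ℤ) ≤ ((b v : ℕ) : ℤ) := by exact_mod_cast h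
    simp only [HS2_phi, Pi.inf_apply, inf_eq_left.2 h]
    rw [inf_eq_left.2 (by omega)]
  · have h1 : ((b v : ℕ) : ℤ) ≤ ((a v : ℕ) : ℤ) := by exact_mod_cast h
    simp only [HS2_phi, Pi.inf_apply, inf_eq_right.2 h]
    rw [inf_eq_right.2 (by omega)]

theorem HS2_phi_sup (F : Finset V) (N : ℕ) (a b : ↥F → Fin (2 * N + 1)) :
    HS2_phi F N (a ⊔ b) = HS2_phi F N a ⊔ HS2_phi F N b := by
  funext v
  rcases le_total (a v) (b v) with h | h
  · have h1 : ((a v : ℕ) : ℤ) ≤ ((b v : ℕ) : ℤ) := by exact_mod_cast h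
    simp only [HS2_phi, Pi.sup_apply, sup_eq_right.2 h]
    rw [sup_eq_right.2 (by omega)]
  · have h1 : ((b v : ℕ) : ℤ) ≤ ((a v : ℕ) : ℤ) := by exact_mod_cast h
    simp only [HS2_phi, Pi.sup_apply, sup_eq_left.2 h]
    rw [sup_eq_left.2 (by omega)]

theorem HS2_sum (F : Finset V) (N : ℕ) (H : (↥F → ℤ) → ℝ) :
    ∑ a, H (HS2_phi F N a) = ∑ h ∈ Fintype.piFinset (fun _ : ↥F => Finset.Icc (-(N : ℤ)) N), H h := by
  refine Finset.sum_nbij' (HS2_phi F N)
    (fun h v => ⟨(h v + N).toNat % (2 * N + 1), Nat.mod_lt _ (by omega)⟩) ?_ ?_ ?_ ?_ ?_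
  · intro a _
    rw [Fintype.mem_piFinset]
    intro v
    have := (a v).2
    rw [Finset.mem_Icc]
    unfold HS2_phi
    omega
  · intro h _; exact Finset.mem_univ _
  · intro a _
    funext v
    apply Fin.ext
    have h1 := (a v).2
    have h2 : (HS2_phi F N a v + N).toNat = (a v : ℕ) := by unfold HS2_phi; omega
    simp only [h2]
    exact Nat.mod_eq_of_lt h1
  · intro h hh
    rw [Fintype.mem_piFinset] at hh
    funext v
    have h1 := Finset.mem_Icc.1 (hh v)
    have h2 : (h v + N).toNat % (2 * N + 1) = (h v + N).toNat := Nat.mod_eq_of_lt (by omega)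
    simp only [HS2_phi, h2]
    omega
  · intro a _; rfl

theorem HS2_fin (G : Gr V E) (F : Finset V) (EF : Finset E) (w : ℤ → ℝ) (hw : WOk w)
    (f g : (V → ℤ) → ℝ) (hf : Monotone f) (hg : Monotone g) (N : ℕ) :
    (∑ h ∈ Fintype.piFinset (fun _ : ↥F => Finset.Icc (-(N : ℤ)) N), WH G F EF w h * f (ex h)) *
      (∑ h ∈ Fintype.piFinset (fun _ : ↥F => Finset.Icc (-(N : ℤ)) N), WH G F EF w h * g (ex h)) ≤
    (∑ h ∈ Fintype.piFinset (fun _ : ↥F => Finset.Icc (-(N : ℤ)) N), WH G F EF w h) *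
      (∑ h ∈ Fintype.piFinset (fun _ : ↥F => Finset.Icc (-(N : ℤ)) N),
        WH G F EF w h * (f (ex h) * g (ex h))) := by
  rw [← HS2_sum F N (fun h => WH G F EF w h * f (ex h)),
    ← HS2_sum F N (fun h => WH G F EF w h * g (ex h)), ← HS2_sum F N (fun h => WH G F EF w h),
    ← HS2_sum F N (fun h => WH G F EF w h * (f (ex h) * g (ex h)))]
  have hex : Monotone (fun a : ↥F → Fin (2 * N + 1) => (ex (HS2_phi F N a) : V → ℤ)) := by
    intro a b h v
    have h1 := HS2_phi_mono F N h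
    simp only [ex]
    split_ifs with hv
    · exact h1 _
    · exact le_rfl
  have hbd : ∀ k : (↥F → Fin (2 * N + 1)) → ℝ, ∃ c : ℝ, ∀ a, 0 ≤ k a + c := by
    intro k
    refine ⟨∑ a, |k a|, fun a => ?_⟩
    have h1 : |k a| ≤ ∑ a, |k a| :=
      Finset.single_le_sum (f := fun a => |k a|) (fun a _ => abs_nonneg _) (Finset.mem_univ a)
    have h2 := neg_abs_le (k a)
    linarith
  obtain ⟨c, hc⟩ := hbd (fun a => f (ex (HS2_phi F N a)))
  obtain ⟨c', hc'⟩ := hbd (fun a => g (ex (HS2_phi F N a)))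
  have h := fkg (α := ↥F → Fin (2 * N + 1)) (β := ℝ)
    (μ := fun a => WH G F EF w (HS2_phi F N a))
    (f := fun a => f (ex (HS2_phi F N a)) + c) (g := fun a => g (ex (HS2_phi F N a)) + c')
    (fun a => (WH_pos G F EF w hw _).le) hc hc'
    (fun a b hab => add_le_add (hf (hex hab)) le_rfl)
    (fun a b hab => add_le_add (hg (hex hab)) le_rfl)
    (fun a b => by
      simp only [HS2_phi_inf, HS2_phi_sup]
      exact HS2_WH G F EF w hw _ _)
  have e1 : ∑ a, WH G F EF w (HS2_phi F N a) * (f (ex (HS2_phi F N a)) + c) =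
      ∑ a, WH G F EF w (HS2_phi F N a) * f (ex (HS2_phi F N a)) +
        c * ∑ a, WH G F EF w (HS2_phi F N a) := by
    rw [mul_sum, ← sum_add_distrib]
    exact sum_congr rfl fun a _ => by ring
  have e2 : ∑ a, WH G F EF w (HS2_phi F N a) * (g (ex (HS2_phi F N a)) + c') =
      ∑ a, WH G F EF w (HS2_phi F N a) * g (ex (HS2_phi F N a)) +
        c' * ∑ a, WH G F EF w (HS2_phi F N a) := by
    rw [mul_sum, ← sum_add_distrib]
    exact sum_congr rfl fun a _ => by ring
  have e3 : ∑ a, WH G F EF w (HS2_phi F N a) * ((f (ex (HS2_phi F N a)) + c) *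
      (g (ex (HS2_phi F N a)) + c')) =
      ∑ a, WH G F EF w (HS2_phi F N a) * (f (ex (HS2_phi F N a)) * g (ex (HS2_phi F N a))) +
        c * ∑ a, WH G F EF w (HS2_phi F N a) * g (ex (HS2_phi F N a)) +
        c' * ∑ a, WH G F EF w (HS2_phi F N a) * f (ex (HS2_phi F N a)) +
        c * c' * ∑ a, WH G F EF w (HS2_phi F N a) := by
    rw [mul_sum, mul_sum, mul_sum, ← sum_add_distrib, ← sum_add_distrib, ← sum_add_distrib]
    exact sum_congr rfl fun a _ => by ring
  rw [e1, e2, e3] at h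
  nlinarith [h]

theorem HS2_lim (F : Finset V) (H : (↥F → ℤ) → ℝ) (hH : Summable H) :
    Filter.Tendsto (fun N : ℕ => ∑ h ∈ Fintype.piFinset (fun _ : ↥F => Finset.Icc (-(N : ℤ)) N), H h)
      Filter.atTop (nhds (∑' h, H h)) := by
  refine hH.hasSum.comp (Filter.tendsto_atTop_finset_of_monotone ?_ ?_)
  · intro N N' hN
    exact Fintype.piFinset_subset _ _ fun _ => Finset.Icc_subset_Icc (by omega) (by omega)
  · intro h
    refine ⟨∑ v, (h v).natAbs, ?_⟩
    rw [Fintype.mem_piFinset]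
    intro v
    have h1 : (h v).natAbs ≤ ∑ v, (h v).natAbs :=
      Finset.single_le_sum (f := fun v => (h v).natAbs) (fun _ _ => Nat.zero_le _) (Finset.mem_univ v)
    rw [Finset.mem_Icc]
    omega

theorem hs_fkg (G : Gr V E) (F : Finset V) (EF : Finset E) (hB : Bd G F EF) (w : ℤ → ℝ) (hw : WOk w)
    (f g : (V → ℤ) → ℝ) (hf : Monotone f) (hg : Monotone g) (hf' : PBd F f) (hg' : PBd F g) :
    Eh G F EF w f * Eh G F EF w g ≤ Eh G F EF w (fun h => f h * g h) := by
  have s1 := WH_summ G F EF hB w hw f hf'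
  have s2 := WH_summ G F EF hB w hw g hg'
  have s3 := WH_summ G F EF hB w hw _ (PBd_mul F f g hf' hg')
  obtain ⟨s4, hpos⟩ := WH_summ1 G F EF hB w hw
  have key : (∑' h : ↥F → ℤ, WH G F EF w h * f (ex h)) * (∑' h : ↥F → ℤ, WH G F EF w h * g (ex h)) ≤
      (∑' h : ↥F → ℤ, WH G F EF w h) * ∑' h : ↥F → ℤ, WH G F EF w h * (f (ex h) * g (ex h)) :=
    le_of_tendsto_of_tendsto ((HS2_lim F _ s1).mul (HS2_lim F _ s2))
      ((HS2_lim F _ s4).mul (HS2_lim F _ s3))
      (Filter.Eventually.of_forall fun N => HS2_fin G F EF w hw f g hf hg N)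
  unfold Eh
  rw [div_mul_div_comm, div_le_div_iff₀ (mul_pos hpos hpos) hpos]
  calc _ ≤ ((∑' h : ↥F → ℤ, WH G F EF w h) *
        ∑' h : ↥F → ℤ, WH G F EF w h * (f (ex h) * g (ex h))) * ∑' h : ↥F → ℤ, WH G F EF w h :=
        mul_le_mul_of_nonneg_right key hpos.le
    _ = _ := by ring

end H82.BX

end S_H82_BX_HS2

section S_H82_BX_SSN

/-!
# SSN: sine correlations are dominated by cosine correlations

For signs `σ, τ : V → Bool` let `R_{σ,τ}` act on `V → Cir` by `θ_v ↦` the angle with cosine `sg(σ_v) cos θ_v` and sine `sg(τ_v) sin θ_v` (`θ`, `-θ`, `π - θ`, `π + θ`): it preserves Haar measure.  Average over `σ, τ`: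
for fixed `θ` and `c_v = cos θ_v`, `s_v = sin θ_v` the average of `F e^{hG}` is a product of an Ising sum in `σ` with couplings `J c c'` and one in `τ` with couplings `J s s'`; replacing `σ_v` by `σ_v sgn(c_v)` the couplings are
`J |c c'| ≥ 0`.  Griffiths: `∑_σ σ_A e^{...} ≥ 0`, `|∑_σ σ_A e^{..}| ≤ ∑_σ e^{..}`.
For each of the four terms of `sin(p-p') sin(q-q') = (s_p c_{p'} - c_p s_{p'})(s_q c_{q'} - c_q s_{q'})`, e.g. `s_p s_q c_{p'} c_{q'}`:
`∑_σ |c c| σ_{p'} σ_{q'} e · ∑_τ |s s| τ_p τ_q e ≤ ∑_σ |c_{p'} c_{q'}| σ σ e · ∑_τ e` = the same average for `cos θ_{p'} cos θ_{q'}`.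
So `|⟨sin(θ_p - θ_{p'}) sin(θ_q - θ_{q'})⟩| ≤` the sum of the four cosine correlations.
-/

set_option autoImplicit false

open Finset MeasureTheory

namespace H82.BX

open H82.IC XYB

variable {V E : Type} [Fintype V] [DecidableEq V] [Fintype E] [DecidableEq E]

/-! ### Griffiths -/

/-- `f` has nonnegative moments against all monomials in the `z v = sg (σ v) * y v`. -/
def SSN_Good (y : V → ℝ) (f : (V → Bool) → ℝ) : Prop :=
  ∀ m : V → ℕ, 0 ≤ ∑ σ : V → Bool, f σ * ∏ v, (sg (σ v) * y v) ^ (m v)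

theorem SSN_good_one (y : V → ℝ) : SSN_Good y (fun _ => 1) := by
  intro m
  have h1 : ∑ σ : V → Bool, (1 : ℝ) * ∏ v, (sg (σ v) * y v) ^ (m v) =
      ∏ v, ∑ b : Bool, (sg b * y v) ^ (m v) := by
    rw [Finset.prod_univ_sum, Fintype.piFinset_univ]
    exact Finset.sum_congr rfl fun σ _ => one_mul _
  rw [h1]
  refine Finset.prod_nonneg fun v _ => ?_
  rw [Fintype.sum_bool]
  unfold sg
  simp only [if_true, Bool.false_eq_true, if_false, one_mul, neg_mul]
  rcases Nat.even_or_odd (m v) with he | ho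
  · rw [he.neg_pow]
    have := he.pow_nonneg (y v)
    linarith
  · rw [ho.neg_pow]
    simp

theorem SSN_mono_mul (y : V → ℝ) (σ : V → Bool) (m : V → ℕ) (a b : V) :
    ((sg (σ a) * y a) * (sg (σ b) * y b)) * ∏ v, (sg (σ v) * y v) ^ (m v) =
      ∏ v, (sg (σ v) * y v) ^ (m v + (if v = a then 1 else 0) + (if v = b then 1 else 0)) := by
  have h1 : ∀ c : V, ∏ v, (sg (σ v) * y v) ^ (if v = c then 1 else 0) = sg (σ c) * y c := by
    intro c
    rw [Finset.prod_eq_single c]
    · simp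
    · intro b _ hb
      simp [hb]
    · intro hc
      exact absurd (mem_univ _) hc
  simp only [pow_add]
  rw [Finset.prod_mul_distrib, Finset.prod_mul_distrib, h1 a, h1 b]
  ring

theorem SSN_good_step (y : V → ℝ) (f : (V → Bool) → ℝ) (hf : SSN_Good y f) (p κ : ℝ) (hp : 0 ≤ p)
    (hκ : 0 ≤ κ) (a b : V) :
    SSN_Good y (fun σ => (p + κ * ((sg (σ a) * y a) * (sg (σ b) * y b))) * f σ) := by
  intro m
  have h1 : ∑ σ : V → Bool, (p + κ * ((sg (σ a) * y a) * (sg (σ b) * y b))) * f σ *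
      ∏ v, (sg (σ v) * y v) ^ (m v) =
      p * (∑ σ : V → Bool, f σ * ∏ v, (sg (σ v) * y v) ^ (m v)) +
      κ * ∑ σ : V → Bool, f σ * ∏ v, (sg (σ v) * y v) ^
        (m v + (if v = a then 1 else 0) + (if v = b then 1 else 0)) := by
    rw [Finset.mul_sum, Finset.mul_sum, ← Finset.sum_add_distrib]
    refine Finset.sum_congr rfl fun σ _ => ?_
    rw [← SSN_mono_mul]
    ring
  rw [h1]
  exact add_nonneg (mul_nonneg hp (hf m)) (mul_nonneg hκ (hf _))

theorem SSN_exp (J x : ℝ) (hJ : 0 ≤ J) : ∃ p κ : ℝ, 0 ≤ p ∧ 0 ≤ κ ∧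
    ∀ s : ℝ, (s = 1 ∨ s = -1) → Real.exp (J * (s * x)) = p + κ * (s * x) := by
  by_cases hx : x = 0
  · refine ⟨1, 0, zero_le_one, le_rfl, fun s _ => ?_⟩
    rw [hx]; simp
  · refine ⟨Real.cosh (J * x), Real.sinh (J * x) / x, (Real.cosh_pos _).le, ?_, fun s hs => ?_⟩
    · rcases lt_or_gt_of_ne hx with h | h
      · exact div_nonneg_of_nonpos (Real.sinh_nonpos_iff.2 (mul_nonpos_of_nonneg_of_nonpos hJ h.le)) h.le
      · exact div_nonneg (Real.sinh_nonneg_iff.2 (mul_nonneg hJ h.le)) h.le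
    · rcases hs with h | h
      · rw [h, one_mul, div_mul_cancel₀ _ hx, Real.cosh_add_sinh]
      · have h1 : Real.sinh (J * x) / x * (-1 * x) = -Real.sinh (J * x) := by
          field_simp
        rw [h, h1, ← sub_eq_add_neg, Real.cosh_sub_sinh]
        congr 1
        ring

theorem SSN_sgsg (a b : Bool) : sg a * sg b = 1 ∨ sg a * sg b = -1 := by
  cases a <;> cases b <;> simp [sg]

theorem SSN_good_exp (G : Gr V E) (J : E → ℝ) (hJ : ∀ e, 0 ≤ J e) (y : V → ℝ) :
    SSN_Good y (fun σ => Real.exp (∑ e, J e * ((sg (σ (G.r e)) * y (G.r e)) *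
      (sg (σ (G.s e)) * y (G.s e))))) := by
  have key : ∀ S : Finset E, SSN_Good y (fun σ => Real.exp (∑ e ∈ S, J e *
      ((sg (σ (G.r e)) * y (G.r e)) * (sg (σ (G.s e)) * y (G.s e))))) := by
    intro S
    induction S using Finset.induction_on with
    | empty =>
      simp only [Finset.sum_empty, Real.exp_zero]
      exact SSN_good_one y
    | insert e S he ih =>
      obtain ⟨p, κ, hp, hκ, h⟩ := SSN_exp (J e) (y (G.r e) * y (G.s e)) (hJ e)
      have h1 := SSN_good_step y _ ih p κ hp hκ (G.r e) (G.s e)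
      have h2 : (fun σ : V → Bool => Real.exp (∑ e ∈ insert e S, J e *
          ((sg (σ (G.r e)) * y (G.r e)) * (sg (σ (G.s e)) * y (G.s e))))) =
          fun σ => (p + κ * ((sg (σ (G.r e)) * y (G.r e)) * (sg (σ (G.s e)) * y (G.s e)))) *
            Real.exp (∑ e ∈ S, J e *
              ((sg (σ (G.r e)) * y (G.r e)) * (sg (σ (G.s e)) * y (G.s e)))) := by
        funext σ
        rw [Finset.sum_insert he, Real.exp_add]
        congr 1
        have h3 := h _ (SSN_sgsg (σ (G.r e)) (σ (G.s e)))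
        have h4 : (sg (σ (G.r e)) * y (G.r e)) * (sg (σ (G.s e)) * y (G.s e)) =
            sg (σ (G.r e)) * sg (σ (G.s e)) * (y (G.r e) * y (G.s e)) := by ring
        rw [h4, h3]
      rw [h2]
      exact h1
  exact key univ

/-- Griffiths. -/
theorem SSN_griff (G : Gr V E) (J : E → ℝ) (hJ : ∀ e, 0 ≤ J e) (y : V → ℝ) (b c : V) :
    0 ≤ ∑ σ : V → Bool, ((sg (σ b) * y b) * (sg (σ c) * y c)) *
      Real.exp (∑ e, J e * ((sg (σ (G.r e)) * y (G.r e)) * (sg (σ (G.s e)) * y (G.s e)))) := by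
  have h1 := SSN_good_exp G J hJ y
    (fun v => 0 + (if v = b then 1 else 0) + (if v = c then 1 else 0))
  refine le_trans h1 (le_of_eq (Finset.sum_congr rfl fun σ _ => ?_))
  have h2 := SSN_mono_mul y σ (fun _ => 0) b c
  simp only [pow_zero, Finset.prod_const_one, mul_one] at h2
  rw [h2]
  ring

theorem SSN_sg_abs (a : Bool) : |sg a| = 1 := by
  cases a <;> simp [sg]

theorem SSN_bd (G : Gr V E) (J : E → ℝ) (y : V → ℝ) (hy : ∀ v, |y v| ≤ 1) (a d : V) :
    |∑ σ : V → Bool, ((sg (σ a) * y a) * (sg (σ d) * y d)) *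
      Real.exp (∑ e, J e * ((sg (σ (G.r e)) * y (G.r e)) * (sg (σ (G.s e)) * y (G.s e))))| ≤
    ∑ σ : V → Bool,
      Real.exp (∑ e, J e * ((sg (σ (G.r e)) * y (G.r e)) * (sg (σ (G.s e)) * y (G.s e)))) := by
  refine (Finset.abs_sum_le_sum_abs _ _).trans (Finset.sum_le_sum fun σ _ => ?_)
  rw [abs_mul, abs_of_pos (Real.exp_pos _), abs_mul, abs_mul, abs_mul, SSN_sg_abs, SSN_sg_abs,
    one_mul, one_mul]
  have h1 : |y a| * |y d| ≤ 1 := mul_le_one₀ (hy a) (abs_nonneg _) (hy d)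
  calc |y a| * |y d| * _ ≤ 1 * _ := mul_le_mul_of_nonneg_right h1 (Real.exp_pos _).le
    _ = _ := one_mul _

/-! ### the sign changes -/

/-- the angle with cosine `sg σ cos θ` and sine `sg τ sin θ`. -/
noncomputable def SSN_R (σ τ : V → Bool) (θ : V → Cir) : V → Cir := fun v =>
  (if σ v = τ v then θ v else -θ v) + (if σ v then 0 else ((Real.pi : ℝ) : Cir))

noncomputable def SSN_phi (σ τ : V → Bool) : (V → Cir) →+ (V → Cir) where
  toFun θ v := if σ v = τ v then θ v else -θ v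
  map_zero' := by funext v; simp
  map_add' θ θ' := by
    funext v
    simp only [Pi.add_apply]
    split_ifs
    · rfl
    · rw [neg_add]

theorem SSN_phi_cont (σ τ : V → Bool) : Continuous (SSN_phi σ τ) := by
  refine continuous_pi fun v => ?_
  change Continuous (fun θ : V → Cir => if σ v = τ v then θ v else -θ v)
  split_ifs
  · exact continuous_apply v
  · exact (continuous_apply v).neg

theorem SSN_phi_surj (σ τ : V → Bool) : Function.Surjective (SSN_phi σ τ) := by
  intro θ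
  refine ⟨SSN_phi σ τ θ, ?_⟩
  funext v
  change (if σ v = τ v then (if σ v = τ v then θ v else -θ v)
    else -(if σ v = τ v then θ v else -θ v)) = θ v
  split_ifs
  · rfl
  · rw [neg_neg]

theorem SSN_R_cont (σ τ : V → Bool) : Continuous (SSN_R (V := V) σ τ) := by
  refine continuous_pi fun v => ?_
  change Continuous (fun θ : V → Cir => (if σ v = τ v then θ v else -θ v) +
    (if σ v then 0 else ((Real.pi : ℝ) : Cir)))
  refine Continuous.add ?_ continuous_const
  split_ifs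
  · exact continuous_apply v
  · exact (continuous_apply v).neg

theorem SSN_inv (σ τ : V → Bool) (f : (V → Cir) → ℝ) (hf : Continuous f) :
    ∫ θ, f (SSN_R σ τ θ) ∂haarP (V → Cir) = ∫ θ, f θ ∂haarP (V → Cir) := by
  have h1 := integral_comp_surj (SSN_phi σ τ) (SSN_phi_cont σ τ) (SSN_phi_surj σ τ)
    (fun x => f (x + fun v => (if σ v then 0 else ((Real.pi : ℝ) : Cir))))
    (hf.comp (continuous_id.add continuous_const))
  rw [integral_add_const] at h1
  exact h1

theorem SSN_cos_add_pi (t : Cir) : cosC (t + ((Real.pi : ℝ) : Cir)) = -cosC t := by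
  rw [cosC_add, cosC_coe, sinC_coe, Real.cos_pi, Real.sin_pi]; ring

theorem SSN_sin_add_pi (t : Cir) : sinC (t + ((Real.pi : ℝ) : Cir)) = -sinC t := by
  rw [sinC_add, cosC_coe, sinC_coe, Real.cos_pi, Real.sin_pi]; ring

theorem SSN_cosR (σ τ : V → Bool) (θ : V → Cir) (v : V) :
    cosC (SSN_R σ τ θ v) = sg (σ v) * cosC (θ v) := by
  unfold SSN_R sg
  cases σ v <;> cases τ v <;> simp [SSN_cos_add_pi]

theorem SSN_sinR (σ τ : V → Bool) (θ : V → Cir) (v : V) :
    sinC (SSN_R σ τ θ v) = sg (τ v) * sinC (θ v) := by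
  unfold SSN_R sg
  cases σ v <;> cases τ v <;> simp [SSN_sin_add_pi]

theorem SSN_hG_cont (G : Gr V E) (J : E → ℝ) : Continuous (hG G J) := by
  unfold hG
  refine continuous_finsetSum _ fun e _ => continuous_const.mul ?_
  exact continuous_cosC.comp ((continuous_apply _).sub (continuous_apply _))

theorem SSN_hGR (G : Gr V E) (J : E → ℝ) (σ τ : V → Bool) (θ : V → Cir) :
    Real.exp (hG G J (SSN_R σ τ θ)) =
      Real.exp (∑ e, J e * ((sg (σ (G.r e)) * cosC (θ (G.r e))) * (sg (σ (G.s e)) * cosC (θ (G.s e))))) *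
      Real.exp (∑ e, J e * ((sg (τ (G.r e)) * sinC (θ (G.r e))) * (sg (τ (G.s e)) * sinC (θ (G.s e))))) := by
  rw [← Real.exp_add, ← Finset.sum_add_distrib]
  congr 1
  unfold hG
  refine Finset.sum_congr rfl fun e _ => ?_
  rw [cosC_sub, SSN_cosR, SSN_cosR, SSN_sinR, SSN_sinR]
  ring

theorem SSN_core (G : Gr V E) (J : E → ℝ) (hJ : ∀ e, 0 ≤ J e) (a b c d : V) :
    |gE (hG G J) (fun θ => (sinC (θ a) * sinC (θ d)) * (cosC (θ b) * cosC (θ c)))| ≤
      gE (hG G J) (fun θ => cosC (θ b) * cosC (θ c)) := by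
  unfold gE
  have hZ := integral_exp_pos (X := V → Cir) (hG G J) (SSN_hG_cont G J)
  rw [abs_div, abs_of_pos hZ]
  refine div_le_div_of_nonneg_right ?_ hZ.le
  have hc : ∀ v : V, Continuous (fun θ : V → Cir => cosC (θ v)) := fun v =>
    continuous_cosC.comp (continuous_apply v)
  have hs : ∀ v : V, Continuous (fun θ : V → Cir => sinC (θ v)) := fun v =>
    continuous_sinC.comp (continuous_apply v)
  have hexp : Continuous (fun θ : V → Cir => Real.exp (hG G J θ)) :=
    Real.continuous_exp.comp (SSN_hG_cont G J)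
  set F : (V → Cir) → ℝ := fun θ =>
    ((sinC (θ a) * sinC (θ d)) * (cosC (θ b) * cosC (θ c))) * Real.exp (hG G J θ) with hF
  set C : (V → Cir) → ℝ := fun θ => (cosC (θ b) * cosC (θ c)) * Real.exp (hG G J θ) with hC
  have cF : Continuous F := (((hs a).mul (hs d)).mul ((hc b).mul (hc c))).mul hexp
  have cC : Continuous C := ((hc b).mul (hc c)).mul hexp
  have hN : (0 : ℝ) < Fintype.card (V → Bool) * Fintype.card (V → Bool) := by
    have : 0 < Fintype.card (V → Bool) := Fintype.card_pos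
    positivity
  have havg : ∀ f : (V → Cir) → ℝ, Continuous f →
      (Fintype.card (V → Bool) * Fintype.card (V → Bool) : ℝ) * ∫ θ, f θ ∂haarP (V → Cir) =
      ∫ θ, ∑ σ : V → Bool, ∑ τ : V → Bool, f (SSN_R σ τ θ) ∂haarP (V → Cir) := by
    intro f hf
    have hint : ∀ σ τ : V → Bool, Integrable (fun θ => f (SSN_R σ τ θ)) (haarP (V → Cir)) :=
      fun σ τ => integrable_cont _ (hf.comp (SSN_R_cont σ τ))
    rw [integral_finsetSum _ (fun σ _ => integrable_finsetSum _ fun τ _ => hint σ τ)]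
    have h1 : ∀ σ : V → Bool, ∫ θ, ∑ τ : V → Bool, f (SSN_R σ τ θ) ∂haarP (V → Cir) =
        Fintype.card (V → Bool) * ∫ θ, f θ ∂haarP (V → Cir) := by
      intro σ
      rw [integral_finsetSum _ (fun τ _ => hint σ τ)]
      rw [Finset.sum_congr rfl fun τ _ => SSN_inv σ τ f hf, Finset.sum_const, nsmul_eq_mul,
        Finset.card_univ]
    rw [Finset.sum_congr rfl fun σ _ => h1 σ, Finset.sum_const, nsmul_eq_mul, Finset.card_univ]
    ring
  have hpt : ∀ θ : V → Cir, |∑ σ : V → Bool, ∑ τ : V → Bool, F (SSN_R σ τ θ)| ≤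
      ∑ σ : V → Bool, ∑ τ : V → Bool, C (SSN_R σ τ θ) := by
    intro θ
    set A := ∑ σ : V → Bool, ((sg (σ b) * cosC (θ b)) * (sg (σ c) * cosC (θ c))) *
      Real.exp (∑ e, J e * ((sg (σ (G.r e)) * cosC (θ (G.r e))) * (sg (σ (G.s e)) * cosC (θ (G.s e)))))
      with hA
    set B := ∑ τ : V → Bool, ((sg (τ a) * sinC (θ a)) * (sg (τ d) * sinC (θ d))) *
      Real.exp (∑ e, J e * ((sg (τ (G.r e)) * sinC (θ (G.r e))) * (sg (τ (G.s e)) * sinC (θ (G.s e)))))
      with hB
    set B0 := ∑ τ : V → Bool,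
      Real.exp (∑ e, J e * ((sg (τ (G.r e)) * sinC (θ (G.r e))) * (sg (τ (G.s e)) * sinC (θ (G.s e)))))
      with hB0
    have e1 : ∑ σ : V → Bool, ∑ τ : V → Bool, F (SSN_R σ τ θ) = A * B := by
      rw [hA, hB, Finset.sum_mul_sum]
      refine Finset.sum_congr rfl fun σ _ => Finset.sum_congr rfl fun τ _ => ?_
      rw [hF]
      simp only [SSN_hGR, SSN_cosR, SSN_sinR]
      ring
    have e2 : ∑ σ : V → Bool, ∑ τ : V → Bool, C (SSN_R σ τ θ) = A * B0 := by
      rw [hA, hB0, Finset.sum_mul_sum]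
      refine Finset.sum_congr rfl fun σ _ => Finset.sum_congr rfl fun τ _ => ?_
      rw [hC]
      simp only [SSN_hGR, SSN_cosR]
      ring
    have hA0 : 0 ≤ A := SSN_griff G J hJ (fun v => cosC (θ v)) b c
    have hBB : |B| ≤ B0 := SSN_bd G J (fun v => sinC (θ v)) (fun v => abs_sinC_le_one _) a d
    rw [e1, e2, abs_mul, abs_of_nonneg hA0]
    exact mul_le_mul_of_nonneg_left hBB hA0
  have cFs : Continuous (fun θ : V → Cir => ∑ σ : V → Bool, ∑ τ : V → Bool, F (SSN_R σ τ θ)) :=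
    continuous_finsetSum _ fun σ _ => continuous_finsetSum _ fun τ _ => cF.comp (SSN_R_cont σ τ)
  have cCs : Continuous (fun θ : V → Cir => ∑ σ : V → Bool, ∑ τ : V → Bool, C (SSN_R σ τ θ)) :=
    continuous_finsetSum _ fun σ _ => continuous_finsetSum _ fun τ _ => cC.comp (SSN_R_cont σ τ)
  have h2 : |(Fintype.card (V → Bool) * Fintype.card (V → Bool) : ℝ) *
      ∫ θ, F θ ∂haarP (V → Cir)| ≤ (Fintype.card (V → Bool) * Fintype.card (V → Bool) : ℝ) *
      ∫ θ, C θ ∂haarP (V → Cir) := by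
    rw [havg F cF, havg C cC]
    refine (abs_integral_le_integral_abs).trans ?_
    exact integral_mono (integrable_cont _ cFs).abs (integrable_cont _ cCs) hpt
  rw [abs_mul, abs_of_pos hN] at h2
  exact le_of_mul_le_mul_left h2 hN

theorem ssn (G : Gr V E) (J : E → ℝ) (hJ : ∀ e, 0 ≤ J e) (p p' q q' : V) :
    |gE (hG G J) (fun θ => sinC (θ p - θ p') * sinC (θ q - θ q'))| ≤
      gE (hG G J) (fun θ => cosC (θ p) * cosC (θ q)) + gE (hG G J) (fun θ => cosC (θ p) * cosC (θ q')) +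
      gE (hG G J) (fun θ => cosC (θ p') * cosC (θ q)) + gE (hG G J) (fun θ => cosC (θ p') * cosC (θ q')) := by
  have hc : ∀ v : V, Continuous (fun θ : V → Cir => cosC (θ v)) := fun v =>
    continuous_cosC.comp (continuous_apply v)
  have hs : ∀ v : V, Continuous (fun θ : V → Cir => sinC (θ v)) := fun v =>
    continuous_sinC.comp (continuous_apply v)
  have hexp : Continuous (fun θ : V → Cir => Real.exp (hG G J θ)) :=
    Real.continuous_exp.comp (SSN_hG_cont G J)
  have hi : ∀ a b c d : V, Integrable (fun θ : V → Cir =>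
      ((sinC (θ a) * sinC (θ d)) * (cosC (θ b) * cosC (θ c))) * Real.exp (hG G J θ))
      (haarP (V → Cir)) := fun a b c d =>
    integrable_cont _ ((((hs a).mul (hs d)).mul ((hc b).mul (hc c))).mul hexp)
  have key : gE (hG G J) (fun θ => sinC (θ p - θ p') * sinC (θ q - θ q')) =
      gE (hG G J) (fun θ => (sinC (θ p) * sinC (θ q)) * (cosC (θ p') * cosC (θ q'))) -
      gE (hG G J) (fun θ => (sinC (θ p) * sinC (θ q')) * (cosC (θ p') * cosC (θ q))) -
      gE (hG G J) (fun θ => (sinC (θ p') * sinC (θ q)) * (cosC (θ p) * cosC (θ q'))) +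
      gE (hG G J) (fun θ => (sinC (θ p') * sinC (θ q')) * (cosC (θ p) * cosC (θ q))) := by
    unfold gE
    rw [← sub_div, ← sub_div, ← add_div]
    congr 1
    have h1 := hi p p' q' q
    have h2 := hi p p' q q'
    have h3 := hi p' p q' q
    have h4 := hi p' p q q'
    have e12 := integral_sub h1 h2
    have e123 := integral_sub (h1.sub h2) h3
    have e1234 := integral_add ((h1.sub h2).sub h3) h4
    simp only [Pi.sub_apply] at e123 e1234
    have e0 : ∫ θ, (sinC (θ p - θ p') * sinC (θ q - θ q')) * Real.exp (hG G J θ) ∂haarP (V → Cir) =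
        ∫ θ, ((sinC (θ p) * sinC (θ q)) * (cosC (θ p') * cosC (θ q'))) * Real.exp (hG G J θ) -
          ((sinC (θ p) * sinC (θ q')) * (cosC (θ p') * cosC (θ q))) * Real.exp (hG G J θ) -
          ((sinC (θ p') * sinC (θ q)) * (cosC (θ p) * cosC (θ q'))) * Real.exp (hG G J θ) +
          ((sinC (θ p') * sinC (θ q')) * (cosC (θ p) * cosC (θ q))) * Real.exp (hG G J θ)
          ∂haarP (V → Cir) := by
      refine integral_congr_ae (Filter.Eventually.of_forall fun θ => ?_)
      simp only [sinC_sub]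
      ring
    rw [e0, e1234, e123, e12]
  have k1 := SSN_core G J hJ p p' q' q
  have k2 := SSN_core G J hJ p p' q q'
  have k3 := SSN_core G J hJ p' p q' q
  have k4 := SSN_core G J hJ p' p q q'
  rw [key]
  rw [abs_le] at k1 k2 k3 k4 ⊢
  constructor <;> linarith [k1.1, k1.2, k2.1, k2.2, k3.1, k3.2, k4.1, k4.2]

end H82.BX

end S_H82_BX_SSN
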