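import Mathlib
import Pool.Agent.H82.BXM.G08

/-! MP_26628e_mp: this file joins several modules to save build time. -/

section S_H82_BX_TIE

/-!
# TIE: restricting to a subgroup increases Ginibre expectations

Work on `X = (W → Cir) × Y` with `H1(s,y) = H s`, `F1(s,y) = F s` (in the cone by `gin_comp`, `fst`), and
`H'_K(s,y) = K ∑_w cos(s_w - ι(y)_w)`, `K ≥ 0` (cone: characters).  `gE H1 F1 = gE H F` (`gE_comp` with the surjection `fst`), and
`gin_mono` gives `gE H F ≤ gE (H1 + H'_K) F1` for all `K`.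
Limit `K → ∞`: the map `(u, y) ↦ (u + ι y, y)` is an automorphism of `X`, so
`∫ Φ(s,y) e^{H'_K} = ∫ Φ(u + ι y, y) e^{K ∑ cos u_w}`; divide by `∫ e^{K ∑ cos u_w}` (= the mass); the probability measures with density
`∝ e^{K ∑ cos u_w}` on `W → Cir` concentrate at `0`: for every continuous `Ψ` on `X`, `∫ Ψ(u,y) e^{K∑cos u}/∫ e^{K ∑ cos u} → ∫ Ψ(0,y) dy`.
(E.g.: `Ψ` is uniformly continuous, `{u | ∃ w, 1 - cos u_w ≥ η}` has weight `≤ |W| e^{-Kη}/ (∫ e^{-K(1-cos t)} dt) → 0`,
since `∫ e^{-K(1 - cos t)} dt ≥ e^{-Kη/2} haar{1 - cos t ≤ η/2}`.)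
Apply it with `Ψ = F(u + ι y) e^{H(u + ι y)}` and `Ψ = e^{H(u + ι y)}`.
-/

set_option autoImplicit false

open Finset MeasureTheory

namespace H82.BX

open H82.IC XYB

theorem tie_cos_eq {t : Cir} (h : cosC t = 1) : t = 0 := by
  induction t using cir_ind with
  | h x =>
    rw [cosC_coe] at h
    obtain ⟨n, hn⟩ := (Real.cos_eq_one_iff x).1 h
    rw [← hn]
    have h1 : ((n * (2 * Real.pi) : ℝ) : Cir) = n • ((2 * Real.pi : ℝ) : Cir) := by
      rw [← AddCircle.coe_zsmul, zsmul_eq_mul]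
    rw [h1, AddCircle.coe_period, smul_zero]

/-- concentration at `0` of the product of the densities `e^{K cos u}`. -/
theorem conc0 {W Y : Type} [Fintype W] [DecidableEq W] [AddCommGroup Y] [TopologicalSpace Y]
    [IsTopologicalAddGroup Y] [CompactSpace Y] [MeasurableSpace Y] [BorelSpace Y]
    [SecondCountableTopology Y] (Ψ : (W → Cir) × Y → ℝ) (hΨ : Continuous Ψ) :
    Filter.Tendsto (fun K : ℝ => (∫ z, Ψ z * Real.exp (K * ∑ w, cosC (z.1 w)) ∂haarP ((W → Cir) × Y)) /
      ∫ z : (W → Cir) × Y, Real.exp (K * ∑ w, cosC (z.1 w)) ∂haarP ((W → Cir) × Y)) Filter.atTop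
      (nhds (∫ y, Ψ (0, y) ∂haarP Y)) := by
  classical
  set P := haarP ((W → Cir) × Y) with hP
  set S : (W → Cir) × Y → ℝ := fun z => ∑ w, (1 - cosC (z.1 w)) with hS
  have hSc : Continuous S := by
    apply continuous_finsetSum
    intro w _
    exact continuous_const.sub (continuous_cosC.comp ((continuous_apply w).comp continuous_fst))
  have hS0 : ∀ z, 0 ≤ S z := fun z => Finset.sum_nonneg fun w _ => by
    have := cosC_le_one (z.1 w)
    linarith
  have hSz : ∀ z, S z = 0 → z.1 = 0 := by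
    intro z hz
    have h1 := (Finset.sum_eq_zero_iff_of_nonneg (fun w _ => by
      have := cosC_le_one (z.1 w)
      linarith : ∀ w ∈ (univ : Finset W), (0 : ℝ) ≤ 1 - cosC (z.1 w))).1 hz
    funext w
    exact tie_cos_eq (by have := h1 w (mem_univ w); linarith)
  set c : ℝ := (Fintype.card W : ℝ) with hc
  have hcs : ∀ z : (W → Cir) × Y, ∑ w, cosC (z.1 w) = c - S z := by
    intro z
    rw [hS]
    simp only [Finset.sum_sub_distrib, Finset.sum_const, Finset.card_univ, nsmul_eq_mul, mul_one]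
    ring
  simp only [hcs]
  set Ψ0 : (W → Cir) × Y → ℝ := fun z => Ψ (0, z.2) with hΨ0
  have hΨ0c : Continuous Ψ0 := hΨ.comp (continuous_const.prodMk continuous_snd)
  set Φ : (W → Cir) × Y → ℝ := fun z => Ψ z - Ψ0 z with hΦ
  have hΦc : Continuous Φ := hΨ.sub hΨ0c
  set I := ∫ y, Ψ (0, y) ∂haarP Y with hI
  have hwc : ∀ K : ℝ, Continuous (fun z : (W → Cir) × Y => Real.exp (K * (c - S z))) := fun K =>
    Real.continuous_exp.comp (continuous_const.mul (continuous_const.sub hSc))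
  have hB : ∀ K : ℝ, 0 < ∫ z, Real.exp (K * (c - S z)) ∂P := fun K =>
    integral_exp_pos (fun z => K * (c - S z)) (continuous_const.mul (continuous_const.sub hSc))
  have hpr : haarP ((W → Cir) × Y) = (haarP (W → Cir)).prod (haarP Y) := haarP_prod
  have hfac : ∀ K : ℝ, ∫ z, Ψ0 z * Real.exp (K * (c - S z)) ∂P =
      I * ∫ z, Real.exp (K * (c - S z)) ∂P := by
    intro K
    have e1 : ∀ z : (W → Cir) × Y, Real.exp (K * (c - S z)) =
        Real.exp (K * ∑ w, cosC (z.1 w)) := by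
      intro z
      rw [hcs z]
    simp only [e1]
    have h1 := integral_prod_mul (μ := haarP (W → Cir)) (ν := haarP Y)
      (fun u : W → Cir => Real.exp (K * ∑ w, cosC (u w))) (fun y : Y => Ψ (0, y))
    have h2 := integral_prod_mul (μ := haarP (W → Cir)) (ν := haarP Y)
      (fun u : W → Cir => Real.exp (K * ∑ w, cosC (u w))) (fun _ : Y => (1 : ℝ))
    rw [hP, hpr]
    have h3 : ∫ z : (W → Cir) × Y, Ψ0 z * Real.exp (K * ∑ w, cosC (z.1 w))
        ∂(haarP (W → Cir)).prod (haarP Y) =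
        ∫ z : (W → Cir) × Y, Real.exp (K * ∑ w, cosC (z.1 w)) * Ψ (0, z.2)
          ∂(haarP (W → Cir)).prod (haarP Y) := by
      congr 1
      ext z
      rw [hΨ0]
      ring
    rw [h3, h1]
    simp only [mul_one, integral_const, smul_eq_mul, probReal_univ] at h2
    rw [h2, hI]
    ring
  have hdiff : ∀ K : ℝ, (∫ z, Ψ z * Real.exp (K * (c - S z)) ∂P) /
      (∫ z, Real.exp (K * (c - S z)) ∂P) - I =
      (∫ z, Φ z * Real.exp (K * (c - S z)) ∂P) / ∫ z, Real.exp (K * (c - S z)) ∂P := by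
    intro K
    have h1 : ∫ z, Φ z * Real.exp (K * (c - S z)) ∂P =
        (∫ z, Ψ z * Real.exp (K * (c - S z)) ∂P) -
          ∫ z, Ψ0 z * Real.exp (K * (c - S z)) ∂P := by
      have h9 := integral_sub (μ := P)
        (integrable_cont (fun z => Ψ z * Real.exp (K * (c - S z))) (hΨ.mul (hwc K)))
        (integrable_cont (fun z => Ψ0 z * Real.exp (K * (c - S z))) (hΨ0c.mul (hwc K)))
      rw [← h9]
      congr 1
      ext z
      rw [hΦ]
      ring
    rw [h1, hfac K, sub_div, mul_div_assoc, div_self (hB K).ne', mul_one]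
  -- bounds for `Φ`
  obtain ⟨M, hM⟩ : ∃ M : ℝ, ∀ z, |Φ z| ≤ M := by
    obtain ⟨z0, _, hz0⟩ := isCompact_univ.exists_isMaxOn
      (Set.univ_nonempty : (Set.univ : Set ((W → Cir) × Y)).Nonempty)
      (continuous_abs.comp hΦc).continuousOn
    exact ⟨_, fun z => hz0 (Set.mem_univ z)⟩
  have hM0 : 0 ≤ M := (abs_nonneg _).trans (hM 0)
  have hη : ∀ ε : ℝ, 0 < ε → ∃ η : ℝ, 0 < η ∧ ∀ z, S z < η → |Φ z| ≤ ε := by
    intro ε hε
    have hcl : IsClosed {z : (W → Cir) × Y | ε ≤ |Φ z|} :=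
      isClosed_le continuous_const (continuous_abs.comp hΦc)
    by_cases hne : ({z : (W → Cir) × Y | ε ≤ |Φ z|}).Nonempty
    · obtain ⟨z0, hz0, hmin⟩ := hcl.isCompact.exists_isMinOn hne hSc.continuousOn
      refine ⟨S z0, ?_, ?_⟩
      · refine lt_of_le_of_ne (hS0 z0) ?_
        intro h
        have h1 := hSz z0 h.symm
        have h2 : Φ z0 = 0 := by
          have h3 : z0 = (0, z0.2) := by
            rw [← h1]
          simp only [hΦ, hΨ0]
          rw [← h3, sub_self]
        have h4 : ε ≤ |Φ z0| := hz0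
        rw [h2, abs_zero] at h4
        linarith
      · intro z hz
        by_contra hcon
        push Not at hcon
        have h1 : S z0 ≤ S z := hmin (show z ∈ {z : (W → Cir) × Y | ε ≤ |Φ z|} from hcon.le)
        linarith
    · refine ⟨1, one_pos, ?_⟩
      intro z _
      by_contra hcon
      push Not at hcon
      exact hne ⟨z, hcon.le⟩
  rw [Metric.tendsto_atTop]
  intro ε hε
  obtain ⟨η, hη0, hηb⟩ := hη (ε / 2) (half_pos hε)
  set U : Set ((W → Cir) × Y) := {z | S z < η / 2} with hU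
  have hUo : IsOpen U := isOpen_lt hSc continuous_const
  have hUn : U.Nonempty := ⟨0, by
    show S 0 < η / 2
    have : S 0 = 0 := by
      simp only [hS]
      apply Finset.sum_eq_zero
      intro w _
      simp
    rw [this]
    exact half_pos hη0⟩
  have hp : 0 < P.real U := by
    rw [Measure.real, ENNReal.toReal_pos_iff]
    exact ⟨hUo.measure_pos P hUn, measure_lt_top P U⟩
  have hlow : ∀ K : ℝ, 0 ≤ K → Real.exp (K * c) * Real.exp (-(K * (η / 2))) * P.real U ≤
      ∫ z, Real.exp (K * (c - S z)) ∂P := by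
    intro K hK
    have h1 : ∫ z in U, Real.exp (K * c) * Real.exp (-(K * (η / 2))) ∂P ≤
        ∫ z in U, Real.exp (K * (c - S z)) ∂P := by
      apply setIntegral_mono_on (integrable_const _).integrableOn
        (integrable_cont _ (hwc K)).integrableOn hUo.measurableSet
      intro z hz
      rw [← Real.exp_add]
      apply Real.exp_le_exp.2
      have h2 : S z < η / 2 := hz
      nlinarith [mul_le_mul_of_nonneg_left h2.le hK]
    have h3 : ∫ z in U, Real.exp (K * (c - S z)) ∂P ≤ ∫ z, Real.exp (K * (c - S z)) ∂P :=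
      setIntegral_le_integral (integrable_cont _ (hwc K))
        (Filter.Eventually.of_forall fun z => (Real.exp_pos _).le)
    rw [setIntegral_const, smul_eq_mul] at h1
    calc Real.exp (K * c) * Real.exp (-(K * (η / 2))) * P.real U
        = P.real U * (Real.exp (K * c) * Real.exp (-(K * (η / 2)))) := by ring
      _ ≤ _ := h1.trans h3
  have hup : ∀ K : ℝ, 0 ≤ K → |∫ z, Φ z * Real.exp (K * (c - S z)) ∂P| ≤
      ε / 2 * (∫ z, Real.exp (K * (c - S z)) ∂P) + M * (Real.exp (K * c) * Real.exp (-(K * η))) := by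
    intro K hK
    have h1 : |∫ z, Φ z * Real.exp (K * (c - S z)) ∂P| ≤
        ∫ z, |Φ z * Real.exp (K * (c - S z))| ∂P := abs_integral_le_integral_abs
    refine h1.trans ?_
    have h2 : ∫ z, |Φ z * Real.exp (K * (c - S z))| ∂P ≤
        ∫ z, (ε / 2 * Real.exp (K * (c - S z)) + M * (Real.exp (K * c) * Real.exp (-(K * η)))) ∂P := by
      apply integral_mono (integrable_cont _ (continuous_abs.comp (hΦc.mul (hwc K))))
        (((integrable_cont _ (hwc K)).const_mul _).add (integrable_const _))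
      intro z
      show |Φ z * Real.exp (K * (c - S z))| ≤
        ε / 2 * Real.exp (K * (c - S z)) + M * (Real.exp (K * c) * Real.exp (-(K * η)))
      rw [abs_mul, abs_of_pos (Real.exp_pos _)]
      by_cases hz : S z < η
      · have h3 := mul_le_mul_of_nonneg_right (hηb z hz) (Real.exp_pos (K * (c - S z))).le
        have h4 : 0 ≤ M * (Real.exp (K * c) * Real.exp (-(K * η))) := by positivity
        linarith
      · push Not at hz
        have h5 : Real.exp (K * (c - S z)) ≤ Real.exp (K * c) * Real.exp (-(K * η)) := by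
          rw [← Real.exp_add]
          apply Real.exp_le_exp.2
          nlinarith [mul_le_mul_of_nonneg_left hz hK]
        have h6 := mul_le_mul (hM z) h5 (Real.exp_pos _).le hM0
        have h7 : 0 ≤ ε / 2 * Real.exp (K * (c - S z)) := by positivity
        linarith
    refine h2.trans (le_of_eq ?_)
    rw [integral_add ((integrable_cont _ (hwc K)).const_mul _) (integrable_const _),
      integral_const_mul, integral_const, probReal_univ, one_smul]
  have hlim : Filter.Tendsto (fun K : ℝ => M / P.real U * Real.exp (-(K * (η / 2)))) Filter.atTop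
      (nhds 0) := by
    have h1 : Filter.Tendsto (fun K : ℝ => -(K * (η / 2))) Filter.atTop Filter.atBot :=
      Filter.tendsto_neg_atTop_atBot.comp (Filter.tendsto_id.atTop_mul_const (half_pos hη0))
    have h2 := (Real.tendsto_exp_atBot.comp h1).const_mul (M / P.real U)
    rw [mul_zero] at h2
    exact h2
  obtain ⟨K0, hK0⟩ := (Metric.tendsto_atTop.1 hlim) (ε / 2) (half_pos hε)
  refine ⟨max K0 0, ?_⟩
  intro K hK
  have hKa : K0 ≤ K := (le_max_left _ _).trans hK
  have hKb : 0 ≤ K := (le_max_right _ _).trans hK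
  have h1 := hK0 K hKa
  rw [Real.dist_eq, sub_zero] at h1
  rw [Real.dist_eq, hdiff K, abs_div, abs_of_pos (hB K)]
  have h2 : |∫ z, Φ z * Real.exp (K * (c - S z)) ∂P| / (∫ z, Real.exp (K * (c - S z)) ∂P) ≤
      ε / 2 + M / P.real U * Real.exp (-(K * (η / 2))) := by
    rw [div_le_iff₀ (hB K)]
    refine (hup K hKb).trans ?_
    rw [add_mul]
    apply add_le_add le_rfl
    have h3 : M * (Real.exp (K * c) * Real.exp (-(K * η))) =
        M / P.real U * Real.exp (-(K * (η / 2))) *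
          (Real.exp (K * c) * Real.exp (-(K * (η / 2))) * P.real U) := by
      have h4 : Real.exp (-(K * η)) = Real.exp (-(K * (η / 2))) * Real.exp (-(K * (η / 2))) := by
        rw [← Real.exp_add]
        congr 1
        ring
      rw [h4]
      field_simp
    rw [h3]
    apply mul_le_mul_of_nonneg_left (hlow K hKb)
    positivity
  have h5 := (abs_lt.1 h1).2
  linarith

theorem tie {W Y : Type} [Fintype W] [DecidableEq W] [AddCommGroup Y] [TopologicalSpace Y]
    [IsTopologicalAddGroup Y] [CompactSpace Y] [MeasurableSpace Y] [BorelSpace Y]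
    [SecondCountableTopology Y] (hdiv : ∀ y : Y, ∃ z, z + z = y) (ι : Y →+ (W → Cir))
    (hι : Continuous ι) (H F : (W → Cir) → ℝ) (hH : Gin H) (hF : Gin F) :
    gE H F ≤ gE (fun y => H (ι y)) (fun y => F (ι y)) := by
  classical
  have hHc : Continuous H := hH.continuous
  have hFc : Continuous F := hF.continuous
  set p1 : (W → Cir) × Y →+ (W → Cir) := AddMonoidHom.fst (W → Cir) Y with hp1
  have hp1c : Continuous p1 := continuous_fst
  have hp1s : Function.Surjective p1 := fun u => ⟨(u, 0), rfl⟩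
  have hdX : ∀ x : (W → Cir) × Y, ∃ y : (W → Cir) × Y, y + y = x := by
    rintro ⟨u, y⟩
    obtain ⟨u', hu'⟩ := cir_pi_div u
    obtain ⟨y', hy'⟩ := hdiv y
    exact ⟨(u', y'), Prod.ext hu' hy'⟩
  have hH1 : Gin (fun z : (W → Cir) × Y => H (p1 z)) := gin_comp p1 hp1c hH
  have hF1 : Gin (fun z : (W → Cir) × Y => F (p1 z)) := gin_comp p1 hp1c hF
  set χ : W → ((W → Cir) × Y →+ Cir) := fun w =>
    (Pi.evalAddMonoidHom (fun _ : W => Cir) w).comp p1 -
      (Pi.evalAddMonoidHom (fun _ : W => Cir) w).comp (ι.comp (AddMonoidHom.snd (W → Cir) Y)) with hχ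
  have hχa : ∀ w (z : (W → Cir) × Y), χ w z = z.1 w - ι z.2 w := fun w z => rfl
  have hχc : ∀ w, Continuous (χ w) := by
    intro w
    show Continuous (fun z : (W → Cir) × Y => z.1 w - ι z.2 w)
    exact ((continuous_apply w).comp continuous_fst).sub
      ((continuous_apply w).comp (hι.comp continuous_snd))
  have hHK : ∀ K : ℝ, 0 ≤ K → Gin (fun z : (W → Cir) × Y => K * ∑ w, cosC (χ w z)) := fun K hK =>
    Gin.smul hK (Gin.sum univ (fun w _ => Gin.cos (χ w) (hχc w)))
  have hmono : ∀ K : ℝ, 0 ≤ K → gE H F ≤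
      gE (fun z : (W → Cir) × Y => H (p1 z) + K * ∑ w, cosC (χ w z)) (fun z => F (p1 z)) := by
    intro K hK
    have h1 := gin_mono hdX hF1 hH1 (hHK K hK)
    rw [gE_comp p1 hp1c hp1s H F hHc hFc] at h1
    exact h1
  -- the automorphism
  set α : (W → Cir) × Y →+ (W → Cir) × Y :=
    AddMonoidHom.prod (p1 + ι.comp (AddMonoidHom.snd (W → Cir) Y))
      (AddMonoidHom.snd (W → Cir) Y) with hα
  have hαa : ∀ z : (W → Cir) × Y, α z = (z.1 + ι z.2, z.2) := fun z => rfl
  have hαc : Continuous α := by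
    show Continuous (fun z : (W → Cir) × Y => (z.1 + ι z.2, z.2))
    exact (continuous_fst.add (hι.comp continuous_snd)).prodMk continuous_snd
  have hαs : Function.Surjective α := by
    rintro ⟨u, y⟩
    refine ⟨(u - ι y, y), ?_⟩
    rw [hαa]
    simp
  set Ψ1 : (W → Cir) × Y → ℝ := fun z => F (z.1 + ι z.2) * Real.exp (H (z.1 + ι z.2)) with hΨ1
  set Ψ2 : (W → Cir) × Y → ℝ := fun z => Real.exp (H (z.1 + ι z.2)) with hΨ2
  have hac : Continuous (fun z : (W → Cir) × Y => z.1 + ι z.2) :=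
    continuous_fst.add (hι.comp continuous_snd)
  have hΨ2c : Continuous Ψ2 := Real.continuous_exp.comp (hHc.comp hac)
  have hΨ1c : Continuous Ψ1 := (hFc.comp hac).mul hΨ2c
  have hval : ∀ K : ℝ,
      gE (fun z : (W → Cir) × Y => H (p1 z) + K * ∑ w, cosC (χ w z)) (fun z => F (p1 z)) =
      ((∫ z, Ψ1 z * Real.exp (K * ∑ w, cosC (z.1 w)) ∂haarP ((W → Cir) × Y)) /
        ∫ z : (W → Cir) × Y, Real.exp (K * ∑ w, cosC (z.1 w)) ∂haarP ((W → Cir) × Y)) /
      ((∫ z, Ψ2 z * Real.exp (K * ∑ w, cosC (z.1 w)) ∂haarP ((W → Cir) × Y)) /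
        ∫ z : (W → Cir) × Y, Real.exp (K * ∑ w, cosC (z.1 w)) ∂haarP ((W → Cir) × Y)) := by
    intro K
    have hgc : Continuous (fun z : (W → Cir) × Y => H (p1 z) + K * ∑ w, cosC (χ w z)) :=
      (hHc.comp hp1c).add (continuous_const.mul (continuous_finsetSum _ fun w _ =>
        continuous_cosC.comp (hχc w)))
    have hB : 0 < ∫ z : (W → Cir) × Y, Real.exp (K * ∑ w, cosC (z.1 w)) ∂haarP ((W → Cir) × Y) :=
      integral_exp_pos (fun z : (W → Cir) × Y => K * ∑ w, cosC (z.1 w))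
        (continuous_const.mul (continuous_finsetSum _ fun w _ =>
          continuous_cosC.comp ((continuous_apply w).comp continuous_fst)))
    have hχα : ∀ z : (W → Cir) × Y, ∑ w, cosC (χ w (α z)) = ∑ w, cosC (z.1 w) := by
      intro z
      apply Finset.sum_congr rfl
      intro w _
      rw [hχa, hαa]
      simp
    have e1 := integral_comp_surj α hαc hαs
      (fun z : (W → Cir) × Y => F (p1 z) * Real.exp (H (p1 z) + K * ∑ w, cosC (χ w z)))
      ((hFc.comp hp1c).mul (Real.continuous_exp.comp hgc))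
    have e2 := integral_comp_surj α hαc hαs
      (fun z : (W → Cir) × Y => Real.exp (H (p1 z) + K * ∑ w, cosC (χ w z)))
      (Real.continuous_exp.comp hgc)
    unfold gE
    rw [← e1, ← e2, div_div_div_cancel_right₀ hB.ne']
    congr 1
    · congr 1
      ext z
      rw [hχα, Real.exp_add, ← mul_assoc]
      rfl
    · congr 1
      ext z
      rw [hχα, Real.exp_add]
      rfl
  have hD : (∫ y, Ψ2 (0, y) ∂haarP Y) ≠ 0 := by
    have h1 : ∀ y : Y, Ψ2 (0, y) = Real.exp (H (ι y)) := by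
      intro y
      simp only [hΨ2, zero_add]
    simp only [h1]
    exact (integral_exp_pos (fun y : Y => H (ι y)) (hHc.comp hι)).ne'
  have hlim := (conc0 Ψ1 hΨ1c).div (conc0 Ψ2 hΨ2c) hD
  have hlim2 : (∫ y, Ψ1 (0, y) ∂haarP Y) / (∫ y, Ψ2 (0, y) ∂haarP Y) =
      gE (fun y => H (ι y)) (fun y => F (ι y)) := by
    unfold gE
    simp only [hΨ1, hΨ2, zero_add]
  rw [← hlim2]
  refine ge_of_tendsto hlim ?_
  filter_upwards [Filter.eventually_ge_atTop (0 : ℝ)] with K hK
  have h1 := hmono K hK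
  rw [hval K] at h1
  exact h1

end H82.BX

end S_H82_BX_TIE

section S_H82_BX_CLO

/-!
# CLO: clocks dominate circles, and converge to circles

`clo`: `gin_mono` with `H'_p = p ∑_w cos(M θ_w)` (characters `θ ↦ M • θ_w`), all `p ≥ 0`; limit `p → ∞`: for continuous `Φ`,
`∫ Φ e^{H'_p}/∫ e^{H'_p} → M^{-|U|} ∑_g Φ(ang M g)`.  Proof of the limit: `H'_p` is invariant under translations by `ang M g`, so `Φ` may be replaced by the average
`Φ̄(θ) = M^{-|U|} ∑_g Φ(θ + ang M g)`, and `Φ̄(θ) = Φ̄(0)` whenever all `cos(M θ_w) = 1`.  By compactness, for `ε > 0` there is `η > 0` with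
`|Φ̄(θ) - Φ̄(0)| ≤ ε` if `∑_w (1 - cos(M θ_w)) ≤ η`; the weight of the complement tends to `0`
(`θ ↦ M • θ` is a continuous surjective homomorphism of `U → Cir`, so the law of `M • θ` is Haar: `integral_comp_surj`; reduces to the statement for
`e^{p ∑ cos u_w}`).
`rie`: `Φ̄(θ) = M^{-|U|} ∑_g Φ(θ + ang M g)` has integral `∫ Φ`; every `θ` is within `2π/M` (each coordinate) of some `ang M g'`, so by uniform continuity
`|Φ̄(θ) - Φ̄(0)| ≤ ε` for `M` large; hence `Φ̄(0) → ∫ Φ`.  Apply to `Φ = F e^H` and `e^H`.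
-/

set_option autoImplicit false

open Finset MeasureTheory

namespace H82.BX

open H82.IC XYB

open Filter Topology in
theorem clo_lap {X : Type*} [AddCommGroup X] [TopologicalSpace X] [IsTopologicalAddGroup X]
    [CompactSpace X] [MeasurableSpace X] [BorelSpace X] [SecondCountableTopology X]
    (h G : X → ℝ) (hh : Continuous h) (hG : Continuous G)
    (h0 : ∀ x, 0 ≤ h x) (x0 : X) (hx0 : h x0 = 0) (c : ℝ) (hc : ∀ x, h x = 0 → G x = c) :
    Tendsto (fun p : ℕ => (∫ x, G x * Real.exp (-((p:ℝ) * h x)) ∂haarP X) /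
      ∫ x, Real.exp (-((p:ℝ) * h x)) ∂haarP X) atTop (𝓝 c) := by
  rw [Metric.tendsto_atTop]
  intro ε hε
  have hGc : Continuous (fun x => |G x - c|) := (hG.sub continuous_const).abs
  have hK : IsCompact {x | ε / 2 ≤ |G x - c|} := (isClosed_le continuous_const hGc).isCompact
  obtain ⟨η, hη, hηK⟩ : ∃ η : ℝ, 0 < η ∧ ∀ x, ε / 2 ≤ |G x - c| → η ≤ h x := by
    rcases Set.eq_empty_or_nonempty {x | ε / 2 ≤ |G x - c|} with hE | hne
    · refine ⟨1, one_pos, fun x hx => ?_⟩
      have : x ∈ {x | ε / 2 ≤ |G x - c|} := hx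
      rw [hE] at this; exact this.elim
    · obtain ⟨y, hy, hmin⟩ := hK.exists_isMinOn hne hh.continuousOn
      refine ⟨h y, ?_, fun x hx => hmin hx⟩
      rcases (h0 y).lt_or_eq with h1 | h1
      · exact h1
      · exfalso
        have h2 := hc y h1.symm
        have h3 : ε / 2 ≤ |G y - c| := hy
        rw [h2, sub_self, abs_zero] at h3
        linarith
  obtain ⟨C0, hC0⟩ := isCompact_univ.exists_bound_of_continuousOn hGc.continuousOn
  obtain ⟨C, hC1, hC⟩ : ∃ C : ℝ, 0 ≤ C ∧ ∀ x, |G x - c| ≤ C := by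
    refine ⟨max C0 0, le_max_right _ _, fun x => ?_⟩
    have := hC0 x (Set.mem_univ x)
    rw [Real.norm_eq_abs, abs_abs] at this
    exact this.trans (le_max_left _ _)
  set S : Set X := {x | h x < η / 2} with hS
  have hSo : IsOpen S := isOpen_lt hh continuous_const
  have hm : 0 < (haarP X).real S := by
    rw [Measure.real, ENNReal.toReal_pos_iff]
    refine ⟨hSo.measure_pos _ ⟨x0, ?_⟩, measure_lt_top _ _⟩
    change h x0 < η / 2
    rw [hx0]; linarith
  set m := (haarP X).real S with hmd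
  have hlim : Tendsto (fun p : ℕ => (C / m) * Real.exp (-((p:ℝ) * (η / 2)))) atTop (𝓝 ((C / m) * 0)) := by
    refine Tendsto.const_mul _ ?_
    refine Real.tendsto_exp_neg_atTop_nhds_zero.comp ?_
    exact Tendsto.atTop_mul_const (by linarith) tendsto_natCast_atTop_atTop
  rw [mul_zero] at hlim
  obtain ⟨N, hN⟩ := (Metric.tendsto_atTop.1 hlim) (ε / 2) (by linarith)
  refine ⟨N, fun p hp => ?_⟩
  have hNp := hN p hp
  rw [Real.dist_eq, sub_zero] at hNp
  have hNp' := lt_of_le_of_lt (le_abs_self _) hNp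
  have hp0 : (0:ℝ) ≤ p := Nat.cast_nonneg p
  have hce : Continuous (fun x => Real.exp (-((p:ℝ) * h x))) :=
    Real.continuous_exp.comp (continuous_const.mul hh).neg
  have hZ : 0 < ∫ x, Real.exp (-((p:ℝ) * h x)) ∂haarP X :=
    integral_exp_pos (fun x => -((p:ℝ) * h x)) (continuous_const.mul hh).neg
  set Z := ∫ x, Real.exp (-((p:ℝ) * h x)) ∂haarP X with hZd
  have hZm : m * Real.exp (-((p:ℝ) * (η / 2))) ≤ Z := by
    have e1 : ∫ x, S.indicator (fun _ => Real.exp (-((p:ℝ) * (η / 2)))) x ∂haarP X =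
        m * Real.exp (-((p:ℝ) * (η / 2))) := by
      rw [integral_indicator_const _ hSo.measurableSet, smul_eq_mul]
    rw [← e1]
    refine integral_mono ?_ (integrable_cont _ hce) ?_
    · exact (integrable_const _).indicator hSo.measurableSet
    · intro x
      by_cases hx : x ∈ S
      · simp only [Set.indicator_of_mem hx]
        apply Real.exp_le_exp.2
        have : h x < η / 2 := hx
        nlinarith
      · simp only [Set.indicator_of_notMem hx]
        exact (Real.exp_pos _).le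
  have hi1 : Integrable (fun x => (G x - c) * Real.exp (-((p:ℝ) * h x))) (haarP X) :=
    integrable_cont _ ((hG.sub continuous_const).mul hce)
  have hi2 : Integrable (fun x => c * Real.exp (-((p:ℝ) * h x))) (haarP X) :=
    integrable_cont _ (continuous_const.mul hce)
  have hi3 : Integrable (fun x => ε / 2 * Real.exp (-((p:ℝ) * h x))) (haarP X) :=
    integrable_cont _ (continuous_const.mul hce)
  have hnum : ∫ x, G x * Real.exp (-((p:ℝ) * h x)) ∂haarP X =
      (∫ x, (G x - c) * Real.exp (-((p:ℝ) * h x)) ∂haarP X) + c * Z := by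
    rw [hZd, ← integral_const_mul, ← integral_add hi1 hi2]
    congr 1; ext x; ring
  have hbd : |∫ x, (G x - c) * Real.exp (-((p:ℝ) * h x)) ∂haarP X| ≤
      ε / 2 * Z + C * Real.exp (-((p:ℝ) * η)) := by
    have e1 : ε / 2 * Z + C * Real.exp (-((p:ℝ) * η)) =
        ∫ x, (ε / 2 * Real.exp (-((p:ℝ) * h x)) + C * Real.exp (-((p:ℝ) * η))) ∂haarP X := by
      rw [integral_add hi3 (integrable_const _), integral_const_mul, integral_const]
      simp [hZd]
    rw [e1]
    refine (abs_integral_le_integral_abs).trans ?_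
    refine integral_mono (integrable_cont _ (((hG.sub continuous_const).mul hce).abs))
      (integrable_cont _ ((continuous_const.mul hce).add continuous_const)) ?_
    intro x
    simp only
    rw [abs_mul, abs_of_pos (Real.exp_pos _)]
    by_cases hx : ε / 2 ≤ |G x - c|
    · have h1 := hηK x hx
      have h2 : Real.exp (-((p:ℝ) * h x)) ≤ Real.exp (-((p:ℝ) * η)) := by
        apply Real.exp_le_exp.2; nlinarith
      have h3 := mul_le_mul (hC x) h2 (Real.exp_pos _).le hC1
      have h4 : 0 ≤ ε / 2 * Real.exp (-((p:ℝ) * h x)) := by positivity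
      linarith
    · push Not at hx
      have h3 := mul_le_mul_of_nonneg_right hx.le (Real.exp_pos (-((p:ℝ) * h x))).le
      have h4 : 0 ≤ C * Real.exp (-((p:ℝ) * η)) := by positivity
      linarith
  rw [Real.dist_eq, hnum]
  have e2 : ((∫ x, (G x - c) * Real.exp (-((p:ℝ) * h x)) ∂haarP X) + c * Z) / Z - c =
      (∫ x, (G x - c) * Real.exp (-((p:ℝ) * h x)) ∂haarP X) / Z := by
    field_simp
    ring
  rw [e2, abs_div, abs_of_pos hZ, div_lt_iff₀ hZ]
  refine lt_of_le_of_lt hbd ?_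
  have e3 : Real.exp (-((p:ℝ) * η)) = Real.exp (-((p:ℝ) * (η / 2))) * Real.exp (-((p:ℝ) * (η / 2))) := by
    rw [← Real.exp_add]; congr 1; ring
  rw [e3]
  set q := Real.exp (-((p:ℝ) * (η / 2))) with hq
  have hq0 : 0 < q := Real.exp_pos _
  have h5 : C * q < ε / 2 * m := by
    have : C / m * q = C * q / m := by ring
    rw [this, div_lt_iff₀ hm] at hNp'
    exact hNp'
  have h6 : C * (q * q) < ε / 2 * (m * q) := by
    have := mul_lt_mul_of_pos_right h5 hq0
    nlinarith
  nlinarith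

theorem clo_nle (x : ℝ) : ‖((x : ℝ) : Cir)‖ ≤ |x| :=
  QuotientAddGroup.norm_mk_le_norm

theorem clo_int (M : ℕ) (hM : 0 < M) (n : ℤ) :
    ∃ a : Fin M, ((2 * Real.pi * a.val / M : ℝ) : Cir) = ((2 * Real.pi * n / M : ℝ) : Cir) := by
  have hM' : (0:ℤ) < M := by exact_mod_cast hM
  have h0 := Int.emod_nonneg n hM'.ne'
  have h1 := Int.emod_lt_of_pos n hM'
  refine ⟨⟨(n % M).toNat, by omega⟩, ?_⟩
  simp only
  have h2 : (((n % M).toNat : ℕ) : ℝ) = ((n % M : ℤ) : ℝ) := by
    have : (((n % M).toNat : ℕ) : ℤ) = n % M := Int.toNat_of_nonneg h0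
    exact_mod_cast this
  rw [h2]
  have h3 : (n : ℝ) = (n % M : ℤ) + M * ((n / M : ℤ) : ℝ) := by
    have := Int.emod_add_mul_ediv n M
    exact_mod_cast this.symm
  have hMr : (M : ℝ) ≠ 0 := by positivity
  have h4 : (2 * Real.pi * n / M : ℝ) = 2 * Real.pi * ((n % M : ℤ) : ℝ) / M +
      (n / M : ℤ) • (2 * Real.pi) := by
    rw [zsmul_eq_mul]
    conv_lhs => rw [h3]
    field_simp
  rw [h4, AddCircle.coe_add, AddCircle.coe_zsmul, AddCircle.coe_period, zsmul_zero, add_zero]

theorem clo_cos (t : Cir) (h : cosC t = 1) : t = 0 := by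
  induction t using cir_ind with
  | h x =>
    rw [cosC_coe, Real.cos_eq_one_iff] at h
    obtain ⟨n, hn⟩ := h
    rw [AddCircle.coe_eq_zero_iff]
    exact ⟨n, by rw [zsmul_eq_mul]; exact hn⟩

theorem clo_div (M : ℕ) (hM : 0 < M) (t : Cir) (h : M • t = 0) :
    ∃ a : Fin M, ((2 * Real.pi * a.val / M : ℝ) : Cir) = t := by
  induction t using cir_ind with
  | h x =>
    have h' : ((M • x : ℝ) : Cir) = 0 := h
    rw [AddCircle.coe_eq_zero_iff] at h'
    obtain ⟨n, hn⟩ := h'
    obtain ⟨a, ha⟩ := clo_int M hM n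
    refine ⟨a, ha.trans ?_⟩
    congr 1
    rw [zsmul_eq_mul, nsmul_eq_mul] at hn
    have hMr : (M : ℝ) ≠ 0 := by positivity
    field_simp
    linarith

theorem clo_tor (M : ℕ) (hM : 0 < M) (a : Fin M) :
    M • ((2 * Real.pi * a.val / M : ℝ) : Cir) = 0 := by
  have hMr : (M : ℝ) ≠ 0 := by positivity
  rw [← AddCircle.coe_nsmul, AddCircle.coe_eq_zero_iff]
  refine ⟨a.val, ?_⟩
  rw [zsmul_eq_mul, nsmul_eq_mul]
  push_cast
  field_simp

variable {U : Type} [Fintype U] [DecidableEq U]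

theorem clo_add (M : ℕ) [NeZero M] (g g' : U → Fin M) : ang M (g + g') = ang M g + ang M g' := by
  funext w
  simp only [ang, Pi.add_apply]
  have hM : 0 < M := Nat.pos_of_ne_zero (NeZero.ne M)
  have hMr : (M : ℝ) ≠ 0 := by positivity
  have h1 : ((g w).val + (g' w).val : ℕ) = ((g w + g' w).val : ℕ) + M * (((g w).val + (g' w).val) / M) := by
    rw [Fin.val_add]
    exact (Nat.mod_add_div _ _).symm
  have h2 : ((g w).val : ℝ) + ((g' w).val : ℝ) = ((g w + g' w).val : ℝ) +
      M * ((((g w).val + (g' w).val) / M : ℕ) : ℝ) := by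
    exact_mod_cast h1
  rw [← AddCircle.coe_add]
  have h3 : 2 * Real.pi * ((g w).val : ℝ) / M + 2 * Real.pi * ((g' w).val : ℝ) / M =
      2 * Real.pi * ((g w + g' w).val : ℝ) / M + (((g w).val + (g' w).val) / M : ℕ) • (2 * Real.pi) := by
    rw [nsmul_eq_mul, ← add_div, ← mul_add, h2]
    field_simp
  rw [h3, AddCircle.coe_add, AddCircle.coe_nsmul, AddCircle.coe_period, nsmul_zero, add_zero]

/-- sum over the translates. -/
noncomputable def clo_S (M : ℕ) (Φ : (U → Cir) → ℝ) (θ : U → Cir) : ℝ := ∑ g : U → Fin M, Φ (θ + ang M g)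

theorem clo_S_cont (M : ℕ) (Φ : (U → Cir) → ℝ) (hΦ : Continuous Φ) : Continuous (clo_S M Φ) := by
  unfold clo_S
  exact continuous_finsetSum _ (fun g _ => hΦ.comp (continuous_id.add continuous_const))

theorem clo_S_inv (M : ℕ) [NeZero M] (Φ : (U → Cir) → ℝ) (θ : U → Cir) (g' : U → Fin M) :
    clo_S M Φ (θ + ang M g') = clo_S M Φ θ := by
  unfold clo_S
  refine Fintype.sum_equiv (Equiv.addLeft g') _ _ (fun g => ?_)
  simp only [Equiv.coe_addLeft]
  rw [clo_add, add_assoc]

theorem clo_S_zero (M : ℕ) (Φ : (U → Cir) → ℝ) : clo_S M Φ 0 = ∑ g : U → Fin M, Φ (ang M g) := by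
  unfold clo_S
  simp

/-- `∑_w (1 - cos (M θ_w))`. -/
noncomputable def clo_h (M : ℕ) (θ : U → Cir) : ℝ := ∑ w, (1 - cosC (M • θ w))

theorem clo_h_cont (M : ℕ) : Continuous (clo_h (U := U) M) := by
  unfold clo_h
  refine continuous_finsetSum _ (fun w _ => continuous_const.sub (continuous_cosC.comp ?_))
  exact (continuous_nsmul M).comp (continuous_apply w)

theorem clo_h_inv (M : ℕ) (hM : 0 < M) (θ : U → Cir) (g : U → Fin M) :
    clo_h M (θ + ang M g) = clo_h M θ := by
  unfold clo_h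
  refine Finset.sum_congr rfl (fun w _ => ?_)
  rw [Pi.add_apply, smul_add]
  have : M • ang M g w = 0 := clo_tor M hM (g w)
  rw [this, add_zero]

theorem clo_int_S (M : ℕ) (hM : 0 < M) (Φ : (U → Cir) → ℝ) (hΦ : Continuous Φ) (k : (U → Cir) → ℝ)
    (hk : Continuous k) (hki : ∀ θ (g : U → Fin M), k (θ + ang M g) = k θ) :
    ∫ θ, clo_S M Φ θ * k θ ∂haarP (U → Cir) =
      (Fintype.card (U → Fin M) : ℝ) * ∫ θ, Φ θ * k θ ∂haarP (U → Cir) := by
  have e1 : ∀ θ, clo_S M Φ θ * k θ = ∑ g : U → Fin M, Φ (θ + ang M g) * k (θ + ang M g) := by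
    intro θ
    unfold clo_S
    rw [Finset.sum_mul]
    exact Finset.sum_congr rfl (fun g _ => by rw [hki])
  simp only [e1]
  rw [integral_finsetSum]
  · rw [Finset.sum_congr rfl (fun g _ => integral_add_const (fun θ => Φ θ * k θ) (ang M g))]
    rw [Finset.sum_const, Finset.card_univ, nsmul_eq_mul]
  · intro g _
    exact integrable_cont _ ((hΦ.mul hk).comp (continuous_id.add continuous_const))

theorem clo (M : ℕ) (hM : 0 < M) (H F : (U → Cir) → ℝ) (hH : Gin H) (hF : Gin F) :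
    gE H F ≤ clE M H F := by
  classical
  have : NeZero M := ⟨hM.ne'⟩
  have hHc := hH.continuous
  have hFc := hF.continuous
  have hzero : ∀ θ : U → Cir, clo_h M θ = 0 → ∃ g : U → Fin M, θ = 0 + ang M g := by
    intro θ hθ
    unfold clo_h at hθ
    rw [Finset.sum_eq_zero_iff_of_nonneg (fun w _ => by linarith [cosC_le_one (M • θ w)])] at hθ
    have h1 : ∀ w, ∃ a : Fin M, ((2 * Real.pi * a.val / M : ℝ) : Cir) = θ w := by
      intro w
      refine clo_div M hM _ (clo_cos _ ?_)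
      have := hθ w (Finset.mem_univ w)
      linarith
    choose g hg using h1
    refine ⟨g, ?_⟩
    rw [zero_add]
    funext w
    exact (hg w).symm
  have hlap : ∀ Φ : (U → Cir) → ℝ, Continuous Φ → Filter.Tendsto (fun p : ℕ =>
      (∫ x, clo_S M Φ x * Real.exp (-((p:ℝ) * clo_h M x)) ∂haarP (U → Cir)) /
      ∫ x, Real.exp (-((p:ℝ) * clo_h M x)) ∂haarP (U → Cir)) Filter.atTop (nhds (clo_S M Φ 0)) := by
    intro Φ hΦ
    refine clo_lap (clo_h M) (clo_S M Φ) (clo_h_cont M) (clo_S_cont M Φ hΦ) ?_ 0 ?_ _ ?_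
    · intro θ
      exact Finset.sum_nonneg (fun w _ => by linarith [cosC_le_one (M • θ w)])
    · unfold clo_h
      simp
    · intro θ hθ
      obtain ⟨g, hg⟩ := hzero θ hθ
      rw [hg, clo_S_inv]
  have hΨ : Continuous (fun θ : U → Cir => Real.exp (H θ)) := Real.continuous_exp.comp hHc
  have hΦ : Continuous (fun θ : U → Cir => F θ * Real.exp (H θ)) := hFc.mul hΨ
  have hpos : 0 < clo_S M (fun θ : U → Cir => Real.exp (H θ)) 0 :=
    Finset.sum_pos (fun g _ => Real.exp_pos _) Finset.univ_nonempty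
  have hT := (hlap _ hΦ).div (hlap _ hΨ) hpos.ne'
  have hcl : clE M H F = clo_S M (fun θ => F θ * Real.exp (H θ)) 0 /
      clo_S M (fun θ : U → Cir => Real.exp (H θ)) 0 := by
    rw [clo_S_zero, clo_S_zero]; rfl
  rw [hcl]
  refine ge_of_tendsto' hT (fun p => ?_)
  -- the quotient is `gE (H + p ∑ cos) F`
  have hH' : Gin (fun θ : U → Cir => (p:ℝ) * ∑ w, cosC (M • θ w)) := by
    refine Gin.smul (Nat.cast_nonneg p) (Gin.sum univ (fun w _ => ?_))
    refine Gin.cos ((nsmulAddMonoidHom M).comp (Pi.evalAddMonoidHom (fun _ : U => Cir) w)) ?_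
    exact (continuous_nsmul M).comp (continuous_apply w)
  have hmono := gin_mono (pi_div cir_div) hF hH hH'
  refine hmono.trans (le_of_eq ?_)
  have hZ : 0 < ∫ x, Real.exp (-((p:ℝ) * clo_h M x)) ∂haarP (U → Cir) :=
    integral_exp_pos (fun x => -((p:ℝ) * clo_h M x)) (continuous_const.mul (clo_h_cont M)).neg
  have hk : Continuous (fun x : U → Cir => Real.exp (-((p:ℝ) * clo_h M x))) :=
    Real.continuous_exp.comp (continuous_const.mul (clo_h_cont M)).neg
  have hki : ∀ (θ : U → Cir) (g : U → Fin M), Real.exp (-((p:ℝ) * clo_h M (θ + ang M g))) =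
      Real.exp (-((p:ℝ) * clo_h M θ)) := fun θ g => by rw [clo_h_inv M hM]
  have hcard : (0:ℝ) < (Fintype.card (U → Fin M) : ℝ) := by exact_mod_cast Fintype.card_pos
  have hZ2 : 0 < ∫ x, Real.exp (H x) * Real.exp (-((p:ℝ) * clo_h M x)) ∂haarP (U → Cir) := by
    have := integral_exp_pos (fun x => H x + -((p:ℝ) * clo_h M x))
      (hHc.add (continuous_const.mul (clo_h_cont M)).neg)
    simpa only [Real.exp_add] using this
  rw [Pi.div_apply, clo_int_S M hM _ hΦ _ hk hki, clo_int_S M hM _ hΨ _ hk hki,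
    div_div_div_cancel_right₀ hZ.ne', mul_div_mul_left _ _ hcard.ne']
  have hid : ∀ θ : U → Cir, Real.exp (H θ + (p:ℝ) * ∑ w, cosC (M • θ w)) =
      Real.exp ((p:ℝ) * Fintype.card U) * (Real.exp (H θ) * Real.exp (-((p:ℝ) * clo_h M θ))) := by
    intro θ
    rw [← Real.exp_add, ← Real.exp_add]
    congr 1
    unfold clo_h
    rw [Finset.sum_sub_distrib]
    simp
    ring
  unfold gE
  simp only [hid]
  have e1 : ∀ θ : U → Cir, F θ * (Real.exp ((p:ℝ) * Fintype.card U) * (Real.exp (H θ) * Real.exp (-((p:ℝ) * clo_h M θ)))) =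
      Real.exp ((p:ℝ) * Fintype.card U) * (F θ * Real.exp (H θ) * Real.exp (-((p:ℝ) * clo_h M θ))) := by
    intro θ; ring
  simp only [e1]
  rw [integral_const_mul, integral_const_mul, mul_div_mul_left _ _ (Real.exp_pos _).ne']

/-- Riemann sums. -/
theorem clo_rie (Φ : (U → Cir) → ℝ) (hΦ : Continuous Φ) :
    Filter.Tendsto (fun M : ℕ => (Fintype.card (U → Fin M) : ℝ)⁻¹ * clo_S M Φ 0) Filter.atTop
      (nhds (∫ θ, Φ θ ∂haarP (U → Cir))) := by
  classical
  rw [Metric.tendsto_atTop]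
  intro ε hε
  have huc : UniformContinuous Φ := CompactSpace.uniformContinuous_of_continuous hΦ
  obtain ⟨δ, hδ, hδ2⟩ := Metric.uniformContinuous_iff.1 huc (ε / 2) (by linarith)
  obtain ⟨N, hN⟩ := exists_nat_gt (2 * Real.pi / δ)
  refine ⟨max N 1, fun M hM => ?_⟩
  have hM1 : 0 < M := lt_of_lt_of_le one_pos ((le_max_right N 1).trans hM)
  have hMN : (N:ℝ) ≤ M := by exact_mod_cast (le_max_left N 1).trans hM
  have : NeZero M := ⟨hM1.ne'⟩
  have hMr : (0:ℝ) < M := by exact_mod_cast hM1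
  have hsmall : 2 * Real.pi / M < δ := by
    rw [div_lt_iff₀ hMr]
    rw [div_lt_iff₀ hδ] at hN
    nlinarith
  have hcard : (0:ℝ) < (Fintype.card (U → Fin M) : ℝ) := by exact_mod_cast Fintype.card_pos
  -- coordinates
  have hcoord : ∀ t : Cir, ∃ a : Fin M, ‖t - ((2 * Real.pi * a.val / M : ℝ) : Cir)‖ < δ := by
    intro t
    induction t using cir_ind with
    | h x =>
      obtain ⟨a, ha⟩ := clo_int M hM1 ⌊x * M / (2 * Real.pi)⌋
      refine ⟨a, ?_⟩
      rw [ha]
      change ‖((x : ℝ) : Cir) - _‖ < δ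
      rw [← AddCircle.coe_sub]
      refine lt_of_le_of_lt (clo_nle _) ?_
      refine lt_of_le_of_lt ?_ hsmall
      have h1 := Int.floor_le (x * M / (2 * Real.pi))
      have h2 := Int.lt_floor_add_one (x * M / (2 * Real.pi))
      have hpi := Real.two_pi_pos
      rw [le_div_iff₀ hpi] at h1
      rw [div_lt_iff₀ hpi] at h2
      rw [abs_le]
      constructor
      · have h5 : 2 * Real.pi * (⌊x * M / (2 * Real.pi)⌋ : ℝ) / M ≤ x := by
          rw [div_le_iff₀ hMr]
          linarith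
        have h6 : 0 < 2 * Real.pi / M := by positivity
        linarith
      · rw [sub_le_iff_le_add, ← add_div, le_div_iff₀ hMr]
        nlinarith
  have hclose : ∀ θ : U → Cir, |clo_S M Φ θ - clo_S M Φ 0| ≤ Fintype.card (U → Fin M) * (ε / 2) := by
    intro θ
    choose g hg using fun w => hcoord (θ w)
    have e1 : clo_S M Φ θ = clo_S M Φ (θ - ang M g) := by
      rw [← clo_S_inv M Φ (θ - ang M g) g, sub_add_cancel]
    rw [e1]
    unfold clo_S
    rw [← Finset.sum_sub_distrib]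
    refine (Finset.abs_sum_le_sum_abs _ _).trans ?_
    refine (Finset.sum_le_card_nsmul _ _ (ε / 2) ?_).trans (le_of_eq ?_)
    · intro g' _
      have h1 : dist (θ - ang M g + ang M g') (0 + ang M g') < δ := by
        rw [dist_add_right, dist_zero_right]
        rw [pi_norm_lt_iff hδ]
        intro w
        exact hg w
      have h2 := hδ2 h1
      rw [Real.dist_eq] at h2
      exact h2.le
    · rw [Finset.card_univ, nsmul_eq_mul]
  have hint : ∫ θ, clo_S M Φ θ ∂haarP (U → Cir) =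
      (Fintype.card (U → Fin M) : ℝ) * ∫ θ, Φ θ ∂haarP (U → Cir) := by
    have := clo_int_S M hM1 Φ hΦ (fun _ => 1) continuous_const (fun _ _ => rfl)
    simpa using this
  have e1 : (Fintype.card (U → Fin M) : ℝ)⁻¹ * clo_S M Φ 0 - ∫ θ, Φ θ ∂haarP (U → Cir) =
      (Fintype.card (U → Fin M) : ℝ)⁻¹ * ∫ θ, (clo_S M Φ 0 - clo_S M Φ θ) ∂haarP (U → Cir) := by
    rw [integral_sub (integrable_const _) (integrable_cont _ (clo_S_cont M Φ hΦ)), hint, integral_const]
    simp only [probReal_univ, one_smul]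
    field_simp
  rw [Real.dist_eq, e1, abs_mul, abs_of_pos (inv_pos.2 hcard)]
  have h2 : |∫ θ, (clo_S M Φ 0 - clo_S M Φ θ) ∂haarP (U → Cir)| ≤ Fintype.card (U → Fin M) * (ε / 2) := by
    refine (abs_integral_le_integral_abs).trans ?_
    have h3 : ∫ θ : U → Cir, (Fintype.card (U → Fin M) * (ε / 2) : ℝ) ∂haarP (U → Cir) =
        Fintype.card (U → Fin M) * (ε / 2) := by
      rw [integral_const]; simp
    rw [← h3]
    refine integral_mono (integrable_cont _ ((continuous_const.sub (clo_S_cont M Φ hΦ)).abs))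
      (integrable_const _) ?_
    intro θ
    simp only
    rw [abs_sub_comm]
    exact hclose θ
  have h4 := mul_le_mul_of_nonneg_left h2 (inv_pos.2 hcard).le
  refine lt_of_le_of_lt h4 ?_
  rw [← mul_assoc, inv_mul_cancel₀ hcard.ne']
  linarith

theorem rie (H F : (U → Cir) → ℝ) (hH : Continuous H) (hF : Continuous F) :
    Filter.Tendsto (fun M : ℕ => clE M H F) Filter.atTop (nhds (gE H F)) := by
  have hΨ : Continuous (fun θ : U → Cir => Real.exp (H θ)) := Real.continuous_exp.comp hH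
  have hΦ : Continuous (fun θ : U → Cir => F θ * Real.exp (H θ)) := hF.mul hΨ
  have hpos := integral_exp_pos H hH
  have hT := (clo_rie _ hΦ).div (clo_rie _ hΨ) hpos.ne'
  have : gE H F = (∫ θ, F θ * Real.exp (H θ) ∂haarP (U → Cir)) / ∫ θ, Real.exp (H θ) ∂haarP (U → Cir) := rfl
  rw [this]
  refine hT.congr' ?_
  filter_upwards [Filter.eventually_gt_atTop 0] with M hM
  have : NeZero M := ⟨hM.ne'⟩
  have hcard : (0:ℝ) < (Fintype.card (U → Fin M) : ℝ) := by exact_mod_cast Fintype.card_pos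
  rw [Pi.div_apply, mul_div_mul_left _ _ (inv_pos.2 hcard).ne', clo_S_zero, clo_S_zero]
  rfl

end H82.BX

end S_H82_BX_CLO

section S_H82_BX_A3

/-!
# A3: the clock chain model on the torus dominates the XY model on the chained triangular box

`tie` with `W = ↥(bx 2 n) ⊕ ↥(EN n) × Fin 5`, `Y = SV(torus) → Cir`, `ι θ p = θ (pT L n p)`.  The six links of the edge `(x, i)` (`i = 0, 1`) are mapped to the
positions `x, x, x, x, z, m, x + e_i` (`z, m` the chain of the torus edge `(x, i)`), those of the diagonal `(x, 2)` to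
`x, z, m, x+e₀, z', m', x+e₀+e₁` (chains of the torus edges `(x,0)` and `(x+e₀,1)`).  So `hG (C6 (TB n)) κ (ι θ) = const + κ ∑_{torus links} N cos`, with
multiplicity `N ∈ {0,1,2}` (`(x,i)` and the diagonal `(x,2)` resp. `(x - e₀, 2)`; injectivity of the projection of the box to the torus since
`L ≥ 4n+4`).  As `2 κ ≤ b` and `0 ≤ l`, the difference `hS (TD L) b l - hG ∘ ι` is (up to a constant) in the cone: `gin_mono`; then `clo`.
-/

set_option autoImplicit false

open Finset MeasureTheory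

namespace H82.BX

open H82.IC XYB

/-- projection to the torus. -/
def prT (L : ℕ) (x : Vx 2) : Fin 2 → ZMod L := fun i => (x i : ZMod L)

/-- positions on the torus of the inner vertices of the chained triangular box. -/
def pT (L n : ℕ) : ↥(bx 2 n) ⊕ (↥(EN n) × Fin 5) → SV (Fin 2 → ZMod L) ((Fin 2 → ZMod L) × Fin 2)
  | Sum.inl v => Sum.inl (prT L v.1)
  | Sum.inr q =>
    (![(![Sum.inl (prT L q.1.1.1), Sum.inl (prT L q.1.1.1), Sum.inl (prT L q.1.1.1),
          Sum.inr ((prT L q.1.1.1, 0), false), Sum.inr ((prT L q.1.1.1, 0), true)] : Fin 5 → _),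
       (![Sum.inl (prT L q.1.1.1), Sum.inl (prT L q.1.1.1), Sum.inl (prT L q.1.1.1),
          Sum.inr ((prT L q.1.1.1, 1), false), Sum.inr ((prT L q.1.1.1, 1), true)] : Fin 5 → _),
       (![Sum.inr ((prT L q.1.1.1, 0), false), Sum.inr ((prT L q.1.1.1, 0), true),
          Sum.inl (prT L q.1.1.1 + Pi.single 0 1),
          Sum.inr ((prT L q.1.1.1 + Pi.single 0 1, 1), false),
          Sum.inr ((prT L q.1.1.1 + Pi.single 0 1, 1), true)] : Fin 5 → _)] :
      Fin 3 → Fin 5 → SV (Fin 2 → ZMod L) ((Fin 2 → ZMod L) × Fin 2)) q.1.1.2 q.2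

section aux

/-- the restriction homomorphism. -/
def a3io (L n : ℕ) : (SV (Fin 2 → ZMod L) ((Fin 2 → ZMod L) × Fin 2) → Cir) →+
    (↥(bx 2 n) ⊕ (↥(EN n) × Fin 5) → Cir) where
  toFun θ p := θ (pT L n p)
  map_zero' := rfl
  map_add' _ _ := rfl

/-- energy of the chain of a torus edge. -/
noncomputable def a3A {L : ℕ} (f : (Fin 2 → ZMod L) × Fin 2)
    (θ : SV (Fin 2 → ZMod L) ((Fin 2 → ZMod L) × Fin 2) → Cir) : ℝ :=
  ∑ k : Fin 3, cosC (θ ((LK (TD L)).r (f, k)) - θ ((LK (TD L)).s (f, k)))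

/-- first torus edge of an edge of the box. -/
def a3g1 (L : ℕ) (e : Vx 2 × Fin 3) : (Fin 2 → ZMod L) × Fin 2 :=
  (prT L e.1, if e.2 = 1 then 1 else 0)

/-- second torus edge of a diagonal of the box. -/
def a3g2 (L : ℕ) (e : Vx 2 × Fin 3) : (Fin 2 → ZMod L) × Fin 2 :=
  (prT L e.1 + Pi.single 0 1, 1)

lemma a3_prT_add (L : ℕ) (x y : Vx 2) : prT L (x + y) = prT L x + prT L y := by
  funext i; simp [prT]

lemma a3_prT_single (L : ℕ) (i : Fin 2) : prT L (Pi.single i 1) = Pi.single i 1 := by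
  funext j
  by_cases h : j = i
  · subst h; simp [prT]
  · simp [prT, Pi.single_eq_of_ne h]

lemma a3_inner (L n : ℕ) (e : ↥(EN n))
    (θ : SV (Fin 2 → ZMod L) ((Fin 2 → ZMod L) × Fin 2) → Cir) :
    ∑ j : Fin 6, cosC (θ (pT L n ((C6 (TB n)).r (e, j))) - θ (pT L n ((C6 (TB n)).s (e, j)))) =
      (if e.1.2 = 2 then 0 else 3) + a3A (a3g1 L e.1) θ +
        (if e.1.2 = 2 then a3A (a3g2 L e.1) θ else 0) := by
  obtain ⟨⟨x, k⟩, he⟩ := e
  fin_cases k
  · simp [Fin.sum_univ_six, Fin.sum_univ_three, C6, TB, pT, a3A, a3g1, LK, TD, TT, a3_prT_add, a3_prT_single]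
    ring
  · simp [Fin.sum_univ_six, Fin.sum_univ_three, C6, TB, pT, a3A, a3g1, LK, TD, TT, a3_prT_add, a3_prT_single]
    ring
  · simp [Fin.sum_univ_six, Fin.sum_univ_three, C6, TB, pT, a3A, a3g1, a3g2, LK, TD, TT, a3_prT_add, a3_prT_single]
    ring_nf

lemma a3_prT_inj {n L : ℕ} (hL : 4 * n + 4 ≤ L) {x y : Vx 2} (hx : x ∈ bx 2 n) (hy : y ∈ bx 2 n)
    (h : prT L x = prT L y) : x = y := by
  funext i
  have h1 := congrFun h i
  unfold prT at h1
  rw [ZMod.intCast_eq_intCast_iff] at h1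
  have hxi := Finset.mem_Icc.1 (Fintype.mem_piFinset.1 hx i)
  have hyi := Finset.mem_Icc.1 (Fintype.mem_piFinset.1 hy i)
  obtain ⟨c, hc⟩ := h1.dvd
  have hc0 : c = 0 := by
    by_contra hne
    have hL' : (4 * (n : ℤ) + 4) ≤ (L : ℤ) := by exact_mod_cast hL
    rcases lt_or_gt_of_ne hne with h2 | h2
    · have : (L : ℤ) * c ≤ (L : ℤ) * (-1) := by
        apply mul_le_mul_of_nonneg_left _ (by positivity); omega
      omega
    · have : (L : ℤ) * 1 ≤ (L : ℤ) * c := by
        apply mul_le_mul_of_nonneg_left _ (by positivity); omega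
      omega
  rw [hc0] at hc
  omega

lemma a3_EN_fst {n : ℕ} (e : ↥(EN n)) : e.1.1 ∈ bx 2 n :=
  (mem_product.1 (mem_filter.1 e.2).1).1

/-- multiplicities. -/
noncomputable def a3N (L n : ℕ) (f : (Fin 2 → ZMod L) × Fin 2) : ℝ :=
  open Classical in
  (if f ∈ (univ.filter (fun e : ↥(EN n) => e.1.2 ≠ 2)).image (fun e => a3g1 L e.1) then 1 else 0) +
  (if f ∈ (univ.filter (fun e : ↥(EN n) => e.1.2 = 2)).image (fun e => a3g1 L e.1) then 1 else 0) +
  (if f ∈ (univ.filter (fun e : ↥(EN n) => e.1.2 = 2)).image (fun e => a3g2 L e.1) then 1 else 0)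

lemma a3N_le (L n : ℕ) (f : (Fin 2 → ZMod L) × Fin 2) : a3N L n f ≤ 2 := by
  classical
  unfold a3N
  by_cases h1 : f ∈ (univ.filter (fun e : ↥(EN n) => e.1.2 = 2)).image (fun e => a3g1 L e.1)
  · by_cases h2 : f ∈ (univ.filter (fun e : ↥(EN n) => e.1.2 = 2)).image (fun e => a3g2 L e.1)
    · exfalso
      obtain ⟨e, he, hef⟩ := mem_image.1 h1
      obtain ⟨e', he', hef'⟩ := mem_image.1 h2
      have hk := (mem_filter.1 he).2
      have := congrArg Prod.snd (hef.trans hef'.symm)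
      simp [a3g1, a3g2, hk] at this
    · rw [if_pos h1, if_neg h2]
      split_ifs <;> norm_num
  · rw [if_neg h1]
    split_ifs <;> norm_num

lemma a3_sum (L n : ℕ) [NeZero L] (hL : 4 * n + 4 ≤ L)
    (θ : SV (Fin 2 → ZMod L) ((Fin 2 → ZMod L) × Fin 2) → Cir) :
    ∑ e : ↥(EN n), (a3A (a3g1 L e.1) θ + (if e.1.2 = 2 then a3A (a3g2 L e.1) θ else 0)) =
      ∑ f, a3N L n f * a3A f θ := by
  classical
  have key : ∀ (S : Finset ↥(EN n)) (g : ↥(EN n) → (Fin 2 → ZMod L) × Fin 2), Set.InjOn g S →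
      ∑ e ∈ S, a3A (g e) θ = ∑ f, (if f ∈ S.image g then 1 else 0) * a3A f θ := by
    intro S g hg
    simp only [ite_mul, one_mul, zero_mul]
    rw [Finset.sum_ite_mem, Finset.univ_inter, Finset.sum_image hg]
  have h0 := key (univ.filter (fun e : ↥(EN n) => e.1.2 ≠ 2)) (fun e => a3g1 L e.1) (by
    intro e he e' he' h
    have hk := (mem_filter.1 he).2
    have hk' := (mem_filter.1 he').2
    have h1 := a3_prT_inj hL (a3_EN_fst e) (a3_EN_fst e') (congrArg Prod.fst h)
    have h2 := congrArg Prod.snd h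
    simp only [a3g1] at h2
    apply Subtype.ext
    apply Prod.ext h1
    generalize e.1.2 = a at hk h2 ⊢
    generalize e'.1.2 = a' at hk' h2 ⊢
    revert hk hk' h2
    fin_cases a <;> fin_cases a' <;> simp)
  have h1 := key (univ.filter (fun e : ↥(EN n) => e.1.2 = 2)) (fun e => a3g1 L e.1) (by
    intro e he e' he' h
    have hk := (mem_filter.1 he).2
    have hk' := (mem_filter.1 he').2
    have h1 := a3_prT_inj hL (a3_EN_fst e) (a3_EN_fst e') (congrArg Prod.fst h)
    apply Subtype.ext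
    exact Prod.ext h1 (hk.trans hk'.symm))
  have h2 := key (univ.filter (fun e : ↥(EN n) => e.1.2 = 2)) (fun e => a3g2 L e.1) (by
    intro e he e' he' h
    have hk := (mem_filter.1 he).2
    have hk' := (mem_filter.1 he').2
    have h1 := a3_prT_inj hL (a3_EN_fst e) (a3_EN_fst e') (add_right_cancel (congrArg Prod.fst h))
    apply Subtype.ext
    exact Prod.ext h1 (hk.trans hk'.symm))
  have e1 : ∑ f, a3N L n f * a3A f θ =
      ∑ e ∈ univ.filter (fun e : ↥(EN n) => e.1.2 ≠ 2), a3A (a3g1 L e.1) θ +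
      ∑ e ∈ univ.filter (fun e : ↥(EN n) => e.1.2 = 2), a3A (a3g1 L e.1) θ +
      ∑ e ∈ univ.filter (fun e : ↥(EN n) => e.1.2 = 2), a3A (a3g2 L e.1) θ := by
    rw [h0, h1, h2, ← Finset.sum_add_distrib, ← Finset.sum_add_distrib]
    apply Finset.sum_congr rfl
    intro f _
    unfold a3N
    ring
  rw [e1, Finset.sum_add_distrib, Finset.sum_filter _ (fun e : ↥(EN n) => a3A (a3g2 L e.1) θ),
    ← Finset.sum_filter_add_sum_filter_not univ (fun e : ↥(EN n) => e.1.2 = 2)
      (fun e => a3A (a3g1 L e.1) θ)]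
  ring

lemma a3_hG (L n : ℕ) [NeZero L] (hL : 4 * n + 4 ≤ L) (κ : ℝ)
    (θ : SV (Fin 2 → ZMod L) ((Fin 2 → ZMod L) × Fin 2) → Cir) :
    hG (C6 (TB n)) (fun _ => κ) (a3io L n θ) =
      κ * (∑ e : ↥(EN n), if e.1.2 = 2 then 0 else 3) + ∑ f, κ * a3N L n f * a3A f θ := by
  unfold hG
  rw [Fintype.sum_prod_type]
  have h : ∀ e : ↥(EN n), ∑ j : Fin 6, κ * cosC (a3io L n θ ((C6 (TB n)).r (e, j)) -
      a3io L n θ ((C6 (TB n)).s (e, j))) = κ * (if e.1.2 = 2 then 0 else 3) +
      κ * (a3A (a3g1 L e.1) θ + (if e.1.2 = 2 then a3A (a3g2 L e.1) θ else 0)) := by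
    intro e
    rw [← Finset.mul_sum]
    have := a3_inner L n e θ
    simp only [a3io, AddMonoidHom.coe_mk, ZeroHom.coe_mk]
    rw [this]; ring
  rw [Finset.sum_congr rfl (fun e _ => h e), Finset.sum_add_distrib, ← Finset.mul_sum,
    ← Finset.mul_sum, a3_sum L n hL θ, Finset.mul_sum (s := univ) (f := fun f => a3N L n f * a3A f θ)]
  congr 1
  apply Finset.sum_congr rfl
  intro f _
  ring

lemma a3_LK (L : ℕ) [NeZero L] (J : (Fin 2 → ZMod L) × Fin 2 → ℝ)
    (θ : SV (Fin 2 → ZMod L) ((Fin 2 → ZMod L) × Fin 2) → Cir) :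
    hG (LK (TD L)) (fun l => J l.1) θ = ∑ f, J f * a3A f θ := by
  unfold hG a3A
  rw [Fintype.sum_prod_type]
  apply Finset.sum_congr rfl
  intro f _
  rw [Finset.mul_sum]

lemma a3_gE_addc {X : Type*} [AddCommGroup X] [TopologicalSpace X] [IsTopologicalAddGroup X]
    [CompactSpace X] [MeasurableSpace X] [BorelSpace X] [SecondCountableTopology X]
    (H F : X → ℝ) (c : ℝ) : gE (fun x => c + H x) F = gE H F := by
  unfold gE
  have h1 : (fun x => F x * Real.exp (c + H x)) = fun x => Real.exp c * (F x * Real.exp (H x)) := by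
    funext x; rw [Real.exp_add]; ring
  have h2 : (fun x => Real.exp (c + H x)) = fun x => Real.exp c * Real.exp (H x) := by
    funext x; rw [Real.exp_add]
  rw [h1, h2, integral_const_mul, integral_const_mul, mul_div_mul_left _ _ (Real.exp_pos c).ne']

end aux

lemma a3_split (L n : ℕ) [NeZero L] (hL : 4 * n + 4 ≤ L) (b κ l : ℝ)
    (θ : SV (Fin 2 → ZMod L) ((Fin 2 → ZMod L) × Fin 2) → Cir) :
    hG (C6 (TB n)) (fun _ => κ) (a3io L n θ) +
      (hG (LK (TD L)) (fun l => b - κ * a3N L n l.1) θ + hS (TD L) 0 l θ) =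
      κ * (∑ e : ↥(EN n), if e.1.2 = 2 then 0 else 3) + hS (TD L) b l θ := by
  have e1 := a3_hG L n hL κ θ
  have e2 := a3_LK L (fun f => b - κ * a3N L n f) θ
  have e3 := a3_LK L (fun _ => (0:ℝ)) θ
  have e4 := a3_LK L (fun _ => b) θ
  have e5 : ∑ f, (b - κ * a3N L n f) * a3A f θ =
      ∑ f, b * a3A f θ - ∑ f, κ * a3N L n f * a3A f θ := by
    rw [← Finset.sum_sub_distrib]
    apply Finset.sum_congr rfl
    intro f _
    ring
  simp only [zero_mul, Finset.sum_const_zero] at e3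
  unfold hS
  rw [e1, e2, e3, e4, e5]
  ring

theorem a3 (n L : ℕ) [NeZero L] (hL : 4 * n + 4 ≤ L) (b κ l : ℝ) (hκ : 0 ≤ κ) (hb : 2 * κ ≤ b)
    (hl : 0 ≤ l) (M : ℕ) (hM : 0 < M) (p q : ↥(bx 2 n) ⊕ (↥(EN n) × Fin 5)) :
    gE (hG (C6 (TB n)) (fun _ => κ)) (fun θ => cosC (θ p) * cosC (θ q)) ≤
      clE M (hS (TD L) b l) (fun θ => cosC (θ (pT L n p)) * cosC (θ (pT L n q))) := by
  have hb0 : 0 ≤ b := by linarith
  have hι : Continuous (a3io L n) := continuous_pi fun w => continuous_apply (pT L n w)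
  have h1 : gE (hG (C6 (TB n)) (fun _ => κ)) (fun θ => cosC (θ p) * cosC (θ q)) ≤
      gE (fun θ => hG (C6 (TB n)) (fun _ => κ) (a3io L n θ))
        (fun θ => cosC (θ (pT L n p)) * cosC (θ (pT L n q))) :=
    tie (cir_pi_div (U := SV (Fin 2 → ZMod L) ((Fin 2 → ZMod L) × Fin 2))) (a3io L n) hι
      (hG (C6 (TB n)) (fun _ => κ)) (fun θ => cosC (θ p) * cosC (θ q))
      (gin_hG _ _ (fun _ => hκ)) (gin_cc p q)
  refine h1.trans ?_
  have hJ : ∀ f : (Fin 2 → ZMod L) × Fin 2, 0 ≤ b - κ * a3N L n f := fun f => by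
    have := mul_le_mul_of_nonneg_left (a3N_le L n f) hκ
    linarith
  have hG1 : Gin (fun θ => hG (LK (TD L)) (fun l => b - κ * a3N L n l.1) θ) :=
    gin_hG _ _ (fun e => hJ e.1)
  have hG2 : Gin (fun θ => hS (TD L) 0 l θ) := gin_hS _ 0 l le_rfl hl
  have hGι : Gin (fun θ => hG (C6 (TB n)) (fun _ => κ) (a3io L n θ)) :=
    gin_comp (a3io L n) hι (gin_hG _ _ (fun _ => hκ))
  have hcc : Gin (fun θ : SV (Fin 2 → ZMod L) ((Fin 2 → ZMod L) × Fin 2) → Cir =>
      cosC (θ (pT L n p)) * cosC (θ (pT L n q))) := gin_cc (pT L n p) (pT L n q)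
  have h2 := gin_mono (cir_pi_div (U := SV (Fin 2 → ZMod L) ((Fin 2 → ZMod L) × Fin 2)))
    hcc hGι (hG1.add hG2)
  have hcl : gE (hS (TD L) b l) (fun θ => cosC (θ (pT L n p)) * cosC (θ (pT L n q))) ≤
    clE M (hS (TD L) b l) (fun θ => cosC (θ (pT L n p)) * cosC (θ (pT L n q))) :=
      clo M hM _ _ (gin_hS _ b l hb0 hl) hcc
  have h3 : gE (fun θ => hG (C6 (TB n)) (fun _ => κ) (a3io L n θ) +
      (hG (LK (TD L)) (fun l => b - κ * a3N L n l.1) θ + hS (TD L) 0 l θ))
      (fun θ => cosC (θ (pT L n p)) * cosC (θ (pT L n q))) =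
      gE (hS (TD L) b l) (fun θ => cosC (θ (pT L n p)) * cosC (θ (pT L n q))) := by
    rw [funext (a3_split L n hL b κ l)]
    exact a3_gE_addc (hS (TD L) b l) _ _
  exact (h2.trans (le_of_eq h3)).trans hcl

end H82.BX

end S_H82_BX_A3
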