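import Mathlib
import Pool.Agent.H82.BXM.G06
import Pool.Agent.H82.BXM.G07
import Pool.Agent.H82.BXM.G09

/-! MP_26628e_mp: this file joins several modules to save build time. -/

section S_H82_BX_DRB

/-!
# DRB: the supercritical half, and the dichotomy

`dr_up`: let `N` be large and `S_j(l1) ≥ √j` for `n0 ≤ j ≤ N` (`n0 ≥ 1`).  For `l ∈ [l1, 2 l1]` let
`T(l) = (1/log N) ∑_{n0 ≤ j < N} f_j(l)/j`.  By the differential inequality (`S_j > 0` since `f_0 = 1`)
`f_j'/j ≥ f_j/(C0 S_j) ≥ (1/C0)(log S_{j+1} - log S_j)` (`S_{j+1} - S_j = f_j`, `log(1+x) ≤ x`), so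
`T' ≥ (1/(C0 log N)) (log S_N - log S_{n0}) ≥ (1/(C0 log N)) (½ log N - log n0) ≥ 1/(4 C0)` if `log N ≥ 4 log n0`
(`S_N(l) ≥ S_N(l1) ≥ √N`, `S_{n0} ≤ n0`).  Hence `T(2 l1) ≥ T(l1) + l1/(4 C0) ≥ l1/(4 C0)` (mean value inequality).
On the other hand `T(2 l1) ≤ (1/log N) (∑_{1 ≤ j ≤ n} 1/j + f_n(2 l1) ∑_{n < j < N} 1/j) ≤ (1 + log n)/log N + f_n(2 l1)·(1 + …)`:
precisely `∑_{n<j<N} 1/j ≤ log N` for `n ≥ 1`.  So `f_n(2 l1) ≥ l1/(4 C0) - (1 + log n)/log N ≥ l1/(8 C0)` for `N` large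
depending on `n`, `n0`, `C0`, `l1` only (`n = 0`: `f_0 = 1`; it is enough to treat `n ≥ 1`; replace the constant by
`min 1 (l1/(8 C0))`).
`drt`: `n0` from `dr_down` (replace it by `max n0 1`), `N` from `dr_up` for the given `n`; either `S_j(l1) ≥ √j` for all
`n0 ≤ j ≤ N`, or `dr_down` applies with some `j`.
-/

set_option autoImplicit false

open Finset

namespace H82.BX

theorem dr_up_le_one {C0 b : ℝ} {f : ℕ → ℝ → ℝ} (h : DR C0 b f) (l : ℝ) (hl : l ∈ Set.Icc 0 b) (n : ℕ) :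
    f n l ≤ 1 := by
  induction n with
  | zero => exact (h.zero l hl).le
  | succ n ih => exact (h.anti n l hl).trans ih

theorem dr_up_anti {C0 b : ℝ} {f : ℕ → ℝ → ℝ} (h : DR C0 b f) (l : ℝ) (hl : l ∈ Set.Icc 0 b) {m n : ℕ}
    (hmn : m ≤ n) : f n l ≤ f m l := by
  induction n, hmn using Nat.le_induction with
  | base => exact le_rfl
  | succ n _ ih => exact (h.anti n l hl).trans ih

theorem dr_up_harm (n : ℕ) : ∑ j ∈ Icc 1 n, ((j : ℝ))⁻¹ ≤ 1 + Real.log n := by
  have h := harmonic_le_one_add_log n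
  rw [harmonic_eq_sum_Icc] at h
  push_cast at h
  exact h

/-- the upper bound on the logarithmic average. -/
theorem dr_up_ub {C0 b : ℝ} {f : ℕ → ℝ → ℝ} (h : DR C0 b f) (l : ℝ) (hl : l ∈ Set.Icc 0 b) (n0 n N : ℕ)
    (hn0 : 1 ≤ n0) :
    ∑ j ∈ Ico n0 N, f j l / j ≤ (1 + Real.log n) + f n l * (1 + Real.log N) := by
  have hb : ∀ j ∈ Ico n0 N, f j l / j ≤ (if j ≤ n then ((j : ℝ))⁻¹ else 0) + f n l * ((j : ℝ))⁻¹ := by
    intro j hj
    have hjp : (0 : ℝ) < j := by
      have := (mem_Ico.1 hj).1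
      exact_mod_cast (by omega : 0 < j)
    have hi : (0 : ℝ) ≤ ((j : ℝ))⁻¹ := inv_nonneg.2 hjp.le
    rw [div_eq_mul_inv]
    split_ifs with hjn
    · have h1 : f j l * ((j : ℝ))⁻¹ ≤ 1 * ((j : ℝ))⁻¹ :=
        mul_le_mul_of_nonneg_right (dr_up_le_one h l hl j) hi
      have h2 : 0 ≤ f n l * ((j : ℝ))⁻¹ := mul_nonneg (h.nonneg n l hl) hi
      linarith
    · have h1 : f j l * ((j : ℝ))⁻¹ ≤ f n l * ((j : ℝ))⁻¹ :=
        mul_le_mul_of_nonneg_right (dr_up_anti h l hl (by omega)) hi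
      linarith
  refine (sum_le_sum hb).trans ?_
  rw [sum_add_distrib, ← mul_sum]
  refine add_le_add ?_ ?_
  · rw [← sum_filter]
    refine le_trans (sum_le_sum_of_subset_of_nonneg (t := Icc 1 n) ?_ ?_) (dr_up_harm n)
    · intro j hj
      rw [mem_filter, mem_Ico] at hj
      rw [mem_Icc]
      omega
    · intro j _ _
      positivity
  · refine mul_le_mul_of_nonneg_left ?_ (h.nonneg n l hl)
    refine le_trans (sum_le_sum_of_subset_of_nonneg (t := Icc 1 N) ?_ ?_) (dr_up_harm N)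
    · intro j hj
      rw [mem_Ico] at hj
      rw [mem_Icc]
      omega
    · intro j _ _
      positivity

/-- the lower bound on the derivative. -/
theorem dr_up_der {C0 l1 : ℝ} (hC : 0 < C0) (hl1 : 0 < l1) {f : ℕ → ℝ → ℝ} (h : DR C0 (2 * l1) f) (l : ℝ)
    (hl : l ∈ Set.Icc l1 (2 * l1)) (n0 N : ℕ) (hn0 : 1 ≤ n0) (hN : n0 ≤ N)
    (hS : ∀ j : ℕ, n0 ≤ j → j ≤ N → Real.sqrt j ≤ ∑ i ∈ range j, f i l1) :
    (1 / C0) * (Real.log N / 2 - Real.log n0) ≤ ∑ j ∈ Ico n0 N, deriv (f j) l / j := by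
  have hl' : l ∈ Set.Icc 0 (2 * l1) := ⟨by linarith [hl.1], hl.2⟩
  have hl1' : l1 ∈ Set.Icc 0 (2 * l1) := ⟨hl1.le, by linarith⟩
  set S : ℕ → ℝ := fun j => ∑ i ∈ range j, f i l with hSd
  have hSl : ∀ j : ℕ, n0 ≤ j → j ≤ N → Real.sqrt j ≤ S j := by
    intro j h1 h2
    exact (hS j h1 h2).trans (sum_le_sum fun i _ => h.mono i hl1' hl' hl.1)
  have hSp : ∀ j : ℕ, n0 ≤ j → j ≤ N → 0 < S j := by
    intro j h1 h2
    refine lt_of_lt_of_le (Real.sqrt_pos.2 ?_) (hSl j h1 h2)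
    exact_mod_cast (by omega : 0 < j)
  have hterm : ∀ j ∈ Ico n0 N, (1 / C0) * (Real.log (S (j + 1)) - Real.log (S j)) ≤ deriv (f j) l / j := by
    intro j hj
    rw [mem_Ico] at hj
    have hjp : (0 : ℝ) < j := by exact_mod_cast (by omega : 0 < j)
    have hs := hSp j hj.1 hj.2.le
    have hs1 := hSp (j + 1) (by omega) (by omega)
    have hss : S (j + 1) = S j + f j l := by simp only [hSd, sum_range_succ]
    have hlog : Real.log (S (j + 1)) - Real.log (S j) ≤ f j l / S j := by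
      rw [← Real.log_div hs1.ne' hs.ne']
      have := Real.log_le_sub_one_of_pos (div_pos hs1 hs)
      have e : S (j + 1) / S j - 1 = f j l / S j := by
        rw [hss]
        field_simp
        ring
      rw [← e]
      exact this
    have hin := h.ineq j l hl'
    calc (1 / C0) * (Real.log (S (j + 1)) - Real.log (S j)) ≤ (1 / C0) * (f j l / S j) :=
          mul_le_mul_of_nonneg_left hlog (by positivity)
      _ ≤ deriv (f j) l / j := by
          rw [div_mul_div_comm, one_mul, div_le_div_iff₀ (mul_pos hC hs) hjp]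
          calc f j l * j = j * f j l := by ring
            _ ≤ C0 * S j * deriv (f j) l := hin
            _ = deriv (f j) l * (C0 * S j) := by ring
  have hsum := sum_le_sum hterm
  rw [← mul_sum] at hsum
  have htel : ∑ j ∈ Ico n0 N, (Real.log (S (j + 1)) - Real.log (S j)) = Real.log (S N) - Real.log (S n0) := by
    rw [Finset.sum_Ico_eq_sub _ hN, Finset.sum_range_sub (fun j => Real.log (S j)),
      Finset.sum_range_sub (fun j => Real.log (S j))]
    ring
  rw [htel] at hsum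
  refine le_trans (mul_le_mul_of_nonneg_left ?_ (by positivity)) hsum
  have hNp : (0 : ℝ) < N := by exact_mod_cast (by omega : 0 < N)
  have h1 : Real.log N / 2 ≤ Real.log (S N) := by
    rw [← Real.log_sqrt hNp.le]
    exact Real.log_le_log (Real.sqrt_pos.2 hNp) (hSl N hN le_rfl)
  have h2 : Real.log (S n0) ≤ Real.log n0 := by
    refine Real.log_le_log (hSp n0 le_rfl hN) ?_
    calc S n0 ≤ ∑ _i ∈ range n0, (1 : ℝ) := sum_le_sum fun i _ => dr_up_le_one h l hl' i
      _ = n0 := by simp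
  linarith

theorem dr_up (C0 l1 : ℝ) (hC : 0 < C0) (hl : 0 < l1) :
    ∃ c : ℝ, 0 < c ∧ ∀ n0 n : ℕ, ∃ N : ℕ, ∀ f : ℕ → ℝ → ℝ, DR C0 (2 * l1) f →
      (∀ j : ℕ, n0 ≤ j → j ≤ N → Real.sqrt j ≤ ∑ i ∈ range j, f i l1) → c ≤ f n (2 * l1) := by
  refine ⟨l1 / (8 * C0), by positivity, ?_⟩
  intro n0 n
  have hlog : Filter.Tendsto (fun N : ℕ => Real.log (N : ℝ)) Filter.atTop Filter.atTop :=
    Real.tendsto_log_atTop.comp tendsto_natCast_atTop_atTop
  obtain ⟨N, hN1, hN2, hN3, hN4⟩ :=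
    ((hlog.eventually_ge_atTop (4 * Real.log ((max n0 1 : ℕ) : ℝ))).and
      ((hlog.eventually_ge_atTop ((2 + Real.log n) * (8 * C0 / l1))).and
        ((Filter.eventually_ge_atTop (max n0 1)).and (Filter.eventually_ge_atTop 3)))).exists
  refine ⟨N, fun f h hS => ?_⟩
  have hn0 : 1 ≤ max n0 1 := le_max_right _ _
  set T : ℝ → ℝ := fun l => ∑ j ∈ Ico (max n0 1) N, f j l / j with hT
  have hdiff : ∀ j : ℕ, Differentiable ℝ (fun l => f j l / (j : ℝ)) := fun j => (h.diff j).div_const _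
  have hTd : Differentiable ℝ T := by
    rw [hT]
    exact Differentiable.fun_sum fun j _ => hdiff j
  have hTder : ∀ l, deriv T l = ∑ j ∈ Ico (max n0 1) N, deriv (f j) l / j := by
    intro l
    rw [hT, deriv_fun_sum fun j _ => (hdiff j) l]
    exact sum_congr rfl fun j _ => by rw [deriv_div_const]
  have hlogN : 0 < Real.log N := by
    refine Real.log_pos ?_
    exact_mod_cast (by omega : 1 < N)
  have hder : ∀ l ∈ interior (Set.Icc l1 (2 * l1)), Real.log N / (4 * C0) ≤ deriv T l := by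
    intro l hl'
    rw [hTder]
    refine le_trans ?_ (dr_up_der hC hl h l (interior_subset hl') (max n0 1) N hn0 hN3
      (fun j h1 h2 => hS j (le_trans (le_max_left _ _) h1) h2))
    rw [div_le_iff₀ (by positivity)]
    have : (1 / C0) * (Real.log N / 2 - Real.log ((max n0 1 : ℕ) : ℝ)) * (4 * C0)
        = 4 * (Real.log N / 2 - Real.log ((max n0 1 : ℕ) : ℝ)) := by
      field_simp
    rw [this]
    linarith
  have hmv := (convex_Icc l1 (2 * l1)).mul_sub_le_image_sub_of_le_deriv hTd.continuous.continuousOn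
    hTd.differentiableOn hder l1 (Set.left_mem_Icc.2 (by linarith)) (2 * l1)
    (Set.right_mem_Icc.2 (by linarith)) (by linarith)
  have hl1' : l1 ∈ Set.Icc 0 (2 * l1) := ⟨hl.le, by linarith⟩
  have hl2' : 2 * l1 ∈ Set.Icc 0 (2 * l1) := ⟨by linarith, le_rfl⟩
  have hT1 : 0 ≤ T l1 := sum_nonneg fun j _ => div_nonneg (h.nonneg j l1 hl1') (Nat.cast_nonneg j)
  have hT2 : T (2 * l1) ≤ (1 + Real.log n) + f n (2 * l1) * (1 + Real.log N) :=
    dr_up_ub h (2 * l1) hl2' (max n0 1) n N hn0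
  have hf1 := dr_up_le_one h (2 * l1) hl2' n
  have hkey : l1 / (4 * C0) * Real.log N ≤ (2 + Real.log n) + f n (2 * l1) * Real.log N := by
    have e : Real.log N / (4 * C0) * (2 * l1 - l1) = l1 / (4 * C0) * Real.log N := by
      field_simp
      ring
    rw [e] at hmv
    nlinarith
  have hk2 : 2 + Real.log n ≤ l1 / (8 * C0) * Real.log N := by
    have e : (2 + Real.log n) = l1 / (8 * C0) * ((2 + Real.log n) * (8 * C0 / l1)) := by
      field_simp
    rw [e]
    exact mul_le_mul_of_nonneg_left hN2 (by positivity)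
  have hk3 : l1 / (8 * C0) * Real.log N ≤ f n (2 * l1) * Real.log N := by
    have e : l1 / (4 * C0) * Real.log N = 2 * (l1 / (8 * C0) * Real.log N) := by
      field_simp
      ring
    linarith
  exact le_of_mul_le_mul_right hk3 hlogN

theorem drt (C0 l1 : ℝ) (hC : 0 < C0) (hl : 0 < l1) :
    ∃ c : ℝ, 0 < c ∧ ∀ n : ℕ, ∃ C a : ℝ, 0 < C ∧ 0 < a ∧ ∀ f : ℕ → ℝ → ℝ, DR C0 (2 * l1) f →
      c ≤ f n (2 * l1) ∨ ∀ m : ℕ, f m (l1 / 4) ≤ C * Real.exp (-a * m) := by
  obtain ⟨c, hc, hup⟩ := dr_up C0 l1 hC hl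
  obtain ⟨n0, hdn⟩ := dr_down C0 l1 hC hl
  refine ⟨c, hc, fun n => ?_⟩
  obtain ⟨N, hN⟩ := hup n0 n
  obtain ⟨C, a, hCp, ha, hd⟩ := hdn N
  refine ⟨C, a, hCp, ha, fun f h => ?_⟩
  by_cases hj : ∀ j : ℕ, n0 ≤ j → j ≤ N → Real.sqrt j ≤ ∑ i ∈ range j, f i l1
  · exact Or.inl (hN f h hj)
  · push Not at hj
    obtain ⟨j, h1, h2, h3⟩ := hj
    exact Or.inr (hd f h j h1 h2 h3.le)

end H82.BX

end S_H82_BX_DRB

section S_H82_BX_DCH

/-!
# DCH: the one arm probabilities are bounded below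

`C0` from `fT_DR0 b l`; `l1 = l/2`, so `DR C0 (2 l1) (fT L (clk K 0) b)` for all `L`, `K`.  `c` from `drt C0 l1`.  Suppose for some `n` there are arbitrarily large `L` (with some `K ≥ 1`) with
`fT n l < c`.  Then for those `(L, K)`: `fT m (l/8) ≤ C exp(-a m)` for all `m`, `C, a` not depending on `(L, K)`.  Let `n'` be a box size; take such an `L ≥ 4 n' + 4`: by `a3` (with `l/8`) and `up0` the box correlation of
`p, q` is at most `∑_{x ∈ en, y ∈ en} P(x ↔ y) ≤ 4 max P(armT (td (y - x)) x) ≤ 4 C exp(-a (nm (bp p - bp q) - 4))` (`fT_tr`; the ends of `pT p` are within distance `2` of `prT (bp p)`, and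
`td (prT z) = nm z` for `nm z ≤ 2 n' ≤ L/2`).  This contradicts `noED κ`.
-/

set_option autoImplicit false

open Finset MeasureTheory Filter Topology

namespace H82.BX

open H82.IC XYB

section gen
variable {V E : Type} [Fintype V] [DecidableEq V] [Fintype E] [DecidableEq E]

theorem DCH_EW_mono (G : Gr V E) (b l : ℝ) (hb : 0 < b) (K : ℕ) (hK : 0 < K) (f g : (E → Bool) → ℝ)
    (hfg : ∀ o, f o ≤ g o) :
    EW G (clk K 0) b l (fun _ o => f o) ≤ EW G (clk K 0) b l (fun _ o => g o) := by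
  unfold EW
  refine div_le_div_of_nonneg_right ?_ (W0_pos G b l hb K hK).le
  exact sum_le_sum fun c _ => sum_le_sum fun o _ =>
    mul_le_mul_of_nonneg_left (hfg o) (W0_nonneg G b l hb K hK c o)

theorem DCH_en_card (G : Gr V E) (p : SV V E) : (en G p).card ≤ 2 := by
  rcases p with v | ⟨e, i⟩
  · simp [en]
  · exact Finset.card_le_two

end gen

theorem DCH_ind_mono {p q : Prop} (h : p → q) : ind p ≤ ind q := by
  unfold ind
  by_cases hp : p
  · simp [hp, h hp]
  · by_cases hq : q <;> simp [hp, hq]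

variable {L : ℕ} [NeZero L]

theorem DCH_td_single (i : Fin 2) : td (Pi.single i 1 : Fin 2 → ZMod L) ≤ 1 := by
  have h := (td_edge (0 : Fin 2 → ZMod L) ((0 : Fin 2 → ZMod L), i)).1
  simp only [TD, zero_add, sub_zero, td_zero] at h
  exact h

theorem DCH_conn_arm (x y : Fin 2 → ZMod L) (o : (Fin 2 → ZMod L) × Fin 2 → Bool)
    (h : (TD L).Conn (op1 o) x y) : armT (td (y - x)) x o := ⟨y, le_rfl, h⟩

theorem DCH_nm_td (n : ℕ) (hL : 4 * n + 4 ≤ L) (z : Vx 2) (hz : ∀ i, (z i).natAbs ≤ 2 * n) :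
    nm z ≤ td (prT L z) := by
  unfold nm td
  refine Finset.sup_mono_fun fun i _ => ?_
  have h1 : ((z i : ZMod L)).valMinAbs = z i := by
    rw [ZMod.valMinAbs_spec]
    refine ⟨rfl, ?_⟩
    have := hz i
    rw [Set.mem_Ioc]
    constructor <;> omega
  rw [show prT L z i = (z i : ZMod L) from rfl, h1]

theorem DCH_prT_sub (x y : Vx 2) : prT L (x - y) = prT L x - prT L y := by
  funext i
  simp [prT]

/-- the ends of `pT p` are within distance `2` of `prT (bp p)`. -/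
theorem DCH_ends (n : ℕ) (p : ↥(bx 2 n) ⊕ (↥(EN n) × Fin 5)) (x : Fin 2 → ZMod L)
    (hx : x ∈ en (TD L) (pT L n p)) : td (x - prT L (bp p)) ≤ 2 := by
  have s0 : td (Pi.single 0 1 : Fin 2 → ZMod L) ≤ 1 := DCH_td_single 0
  have s1 : td (Pi.single 1 1 : Fin 2 → ZMod L) ≤ 1 := DCH_td_single 1
  have s2 : td ((Pi.single 0 1 : Fin 2 → ZMod L) + Pi.single 1 1) ≤ 2 := (td_add _ _).trans (by omega)
  have s3 : td (0 : Fin 2 → ZMod L) ≤ 2 := by rw [td_zero]; omega
  rcases p with v | ⟨e, j⟩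
  · simp only [pT, en, mem_singleton] at hx
    rw [hx]
    simp only [bp, sub_self]
    exact s3
  · obtain ⟨⟨z, k⟩, he⟩ := e
    have key : x - prT L z = 0 ∨ x - prT L z = Pi.single 0 1 ∨ x - prT L z = Pi.single 1 1 ∨
        x - prT L z = Pi.single 0 1 + Pi.single 1 1 := by
      fin_cases k <;> fin_cases j <;>
        simp [pT, en, TD] at hx <;>
        first
        | (left; rw [hx]; exact sub_self _)
        | (rcases hx with hx | hx <;> rw [hx] <;> simp [add_assoc])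
        | (right; left; rw [hx]; simp)
    show td (x - prT L z) ≤ 2
    rcases key with h | h | h | h <;> rw [h]
    · exact s3
    · exact s0.trans (by omega)
    · exact s1.trans (by omega)
    · exact s2

/-- the box correlation is bounded by one arm probabilities. -/
theorem DCH_bound (κ b l C a : ℝ) (hκ0 : 0 < κ) (hb : 2 * κ ≤ b) (hl : 0 < l) (hC : 0 < C) (ha : 0 < a)
    (K : ℕ) (hK : 0 < K) (n : ℕ) (hL : 4 * n + 4 ≤ L)
    (hf : ∀ m : ℕ, fT L (clk K 0) b m l ≤ C * Real.exp (-a * m))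
    (p q : ↥(bx 2 n) ⊕ (↥(EN n) × Fin 5)) :
    gE (hG (C6 (TB n)) (fun _ => κ)) (fun θ => cosC (θ p) * cosC (θ q)) ≤
      (4 * C * Real.exp (4 * a)) * Real.exp (-a * nm (bp p - bp q)) := by
  have hb0 : 0 < b := by linarith
  refine (a3 n L hL b κ l hκ0.le hb hl.le (24 * K) (by omega) p q).trans ?_
  refine (up0 (TD L) b l hb0 K hK (pT L n p) (pT L n q)).trans ?_
  have hterm : ∀ x ∈ en (TD L) (pT L n p), ∀ y ∈ en (TD L) (pT L n q),
      EW (TD L) (clk K 0) b l (fun _ o => ind ((TD L).Conn (op1 o) x y)) ≤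
        C * Real.exp (4 * a) * Real.exp (-a * nm (bp p - bp q)) := by
    intro x hx y hy
    have h1 : EW (TD L) (clk K 0) b l (fun _ o => ind ((TD L).Conn (op1 o) x y)) ≤
        EW (TD L) (clk K 0) b l (fun _ o => ind (armT (td (y - x)) x o)) :=
      DCH_EW_mono (TD L) b l hb0 K hK _ _ fun o => DCH_ind_mono (DCH_conn_arm x y o)
    rw [fT_tr] at h1
    refine h1.trans ((hf _).trans ?_)
    rw [mul_assoc, ← Real.exp_add]
    refine mul_le_mul_of_nonneg_left (Real.exp_le_exp.2 ?_) hC.le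
    have e1 := DCH_ends n p x hx
    have e2 := DCH_ends n q y hy
    have e3 : nm (bp p - bp q) ≤ td (prT L (bp p - bp q)) := by
      refine DCH_nm_td n hL _ fun i => ?_
      have hbd : ∀ r : ↥(bx 2 n) ⊕ (↥(EN n) × Fin 5), (bp r i).natAbs ≤ n := by
        intro r
        have hm : bp r ∈ bx 2 n := by
          rcases r with v | ⟨e, j⟩
          · exact v.2
          · exact (mem_product.1 (mem_filter.1 e.2).1).1
        rw [bx, Fintype.mem_piFinset] at hm
        have := Finset.mem_Icc.1 (hm i)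
        omega
      have h1 := hbd p
      have h2 := hbd q
      rw [Pi.sub_apply]
      omega
    rw [DCH_prT_sub] at e3
    have e4 : td (prT L (bp p) - prT L (bp q)) ≤ td (y - x) + 4 := by
      have : prT L (bp p) - prT L (bp q) =
          -(x - prT L (bp p)) + (-(y - x) + (y - prT L (bp q))) := by abel
      rw [this]
      refine (td_add _ _).trans ?_
      have t1 := td_add (-(y - x)) (y - prT L (bp q))
      rw [td_neg] at t1 ⊢
      omega
    have e5 : (nm (bp p - bp q) : ℝ) ≤ (td (y - x) : ℝ) + 4 := by exact_mod_cast e3.trans e4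
    nlinarith
  calc ∑ x ∈ en (TD L) (pT L n p), ∑ y ∈ en (TD L) (pT L n q),
      EW (TD L) (clk K 0) b l (fun _ o => ind ((TD L).Conn (op1 o) x y))
      ≤ ∑ x ∈ en (TD L) (pT L n p), ∑ y ∈ en (TD L) (pT L n q),
        C * Real.exp (4 * a) * Real.exp (-a * nm (bp p - bp q)) :=
        sum_le_sum fun x hx => sum_le_sum fun y hy => hterm x hx y hy
    _ = ((en (TD L) (pT L n p)).card * (en (TD L) (pT L n q)).card : ℝ) *
        (C * Real.exp (4 * a) * Real.exp (-a * nm (bp p - bp q))) := by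
        simp only [sum_const, nsmul_eq_mul]
        ring
    _ ≤ (2 * 2 : ℝ) * (C * Real.exp (4 * a) * Real.exp (-a * nm (bp p - bp q))) := by
        refine mul_le_mul_of_nonneg_right ?_ (by positivity)
        have c1 : ((en (TD L) (pT L n p)).card : ℝ) ≤ 2 := by exact_mod_cast DCH_en_card _ _
        have c2 : ((en (TD L) (pT L n q)).card : ℝ) ≤ 2 := by exact_mod_cast DCH_en_card _ _
        exact mul_le_mul c1 c2 (Nat.cast_nonneg _) (by norm_num)
    _ = _ := by ring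

theorem dch (κ b l : ℝ) (hκ0 : 0 < κ) (hκ : noED κ) (hb : 2 * κ ≤ b) (hl : 0 < l) :
    ∃ c : ℝ, 0 < c ∧ ∀ n : ℕ, ∃ L0 : ℕ, ∀ L : ℕ, L0 ≤ L → ∀ [NeZero L] (K : ℕ), 0 < K →
      c ≤ fT L (clk K 0) b n l := by
  have hb0 : 0 < b := by linarith
  obtain ⟨C0, hC0, hDR⟩ := fT_DR0 b l hb0 hl
  obtain ⟨c, hc, hdrt⟩ := drt C0 (l / 2) hC0 (by linarith)
  refine ⟨c, hc, fun n => ?_⟩
  obtain ⟨C, a, hC, ha, hf⟩ := hdrt n
  by_contra hcon
  push Not at hcon
  refine hκ ⟨4 * C * Real.exp (4 * a), a, ha, fun n' p q => ?_⟩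
  obtain ⟨L, hL, hne, K, hK, hlt⟩ := hcon (4 * n' + 4)
  have h2 : 2 * (l / 2) = l := by ring
  have hD : DR C0 (2 * (l / 2)) (fT L (clk K 0) b) := by
    rw [h2]
    exact hDR L K hK
  rcases hf _ hD with h | h
  · rw [h2] at h
    exact absurd hlt (not_lt.2 h)
  · exact DCH_bound κ b (l / 2 / 4) C a hκ0 hb (by positivity) hC ha K hK n' hL h p q

end H82.BX

end S_H82_BX_DCH
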