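import Mathlib
import Pool.Agent.H2.XY.Prob
import Pool.Agent.H82.BXM.G01
import Pool.Agent.H82.BXM.G04
import Pool.Agent.H82.BXM.G05
import Pool.Agent.H82.BXM.G09

/-! MP_26628e_mp: this file joins several modules to save build time. -/

section S_H82_BX_PG2

/-!
# PG2: Burton-Keane counting in a box of a periodic graph

Adapt `IC/BKB.lean` (`bk_box`, for the lattice `Zl d`) to periodic graphs: `til` is replaced by `tl`, `box_conn` /
`BKB_tile_conn` by `tile_conn` (`1 ≤ r`), `exit_box` by `exit_pg`, `bdry` by `pbd`.  The contraction sends the vertices of the tile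
`tl r x` to `(x, k0)` (`k0 : K` fixed, `(x, k0) ∈ tl r x`).  `D` = the image of `X` under `x ↦ (x, k0)`.
-/

set_option autoImplicit false

open Finset MeasureTheory

namespace H82.BX

open H82.IC

variable {K K' : Type} [Fintype K] [Fintype K']

/-- three infinite branches at the tile. -/
def TriP (P : PG K K') (S : Set (Vx 2 × K')) (r : ℕ) (x : Vx 2) : Prop :=
  ∃ v1 ∈ (tl r x : Set (Vx 2 × K)), ∃ v2 ∈ (tl r x : Set (Vx 2 × K)), ∃ v3 ∈ (tl r x : Set (Vx 2 × K)),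
    (P.gr.cl (S \ P.gr.ins (tl r x)) v1).Infinite ∧
    (P.gr.cl (S \ P.gr.ins (tl r x)) v2).Infinite ∧
    (P.gr.cl (S \ P.gr.ins (tl r x)) v3).Infinite ∧
    ¬ P.gr.Conn (S \ P.gr.ins (tl r x)) v1 v2 ∧
    ¬ P.gr.Conn (S \ P.gr.ins (tl r x)) v1 v3 ∧
    ¬ P.gr.Conn (S \ P.gr.ins (tl r x)) v2 v3

theorem PG2_self (r : ℕ) (x : Vx 2) (k : K) : (x, k) ∈ (tl r x : Set (Vx 2 × K)) := by
  change nm (x - x) ≤ r
  rw [sub_self, nm_zero]
  exact Nat.zero_le r

theorem PG2_nm {r : ℕ} {x : Vx 2} {z : Vx 2 × K} (h : z ∈ (tl r x : Set (Vx 2 × K))) :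
    nm z.1 ≤ nm x + r := by
  have h1 : nm (z.1 - x) ≤ r := h
  have h2 := nm_add (z.1 - x) x
  rw [sub_add_cancel] at h2
  omega

/-- the contraction of the tiles -/
noncomputable def PG2_q (k0 : K) (r : ℕ) (X : Finset (Vx 2)) (z : Vx 2 × K) : Vx 2 × K :=
  open Classical in if h : ∃ x, x ∈ X ∧ z ∈ (tl r x : Set (Vx 2 × K)) then (h.choose, k0) else z

theorem PG2_q1 (k0 : K) {r : ℕ} {X : Finset (Vx 2)}
    (hX2 : ∀ x ∈ X, ∀ y ∈ X, x ≠ y → Disjoint (tl r x : Set (Vx 2 × K)) (tl r y)) {x : Vx 2}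
    {z : Vx 2 × K} (hx : x ∈ X) (hz : z ∈ (tl r x : Set (Vx 2 × K))) :
    PG2_q k0 r X z = (x, k0) := by
  have h : ∃ x, x ∈ X ∧ z ∈ (tl r x : Set (Vx 2 × K)) := ⟨x, hx, hz⟩
  unfold PG2_q
  rw [dif_pos h]
  obtain ⟨h1, h2⟩ := h.choose_spec
  have h3 : h.choose = x := by
    by_contra hne
    exact Set.disjoint_left.1 (hX2 _ h1 _ hx hne) h2 hz
  rw [h3]

theorem PG2_q2 (k0 : K) {r : ℕ} {X : Finset (Vx 2)} {z : Vx 2 × K}
    (hz : ∀ x ∈ X, z ∉ (tl r x : Set (Vx 2 × K))) : PG2_q k0 r X z = z := by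
  have h : ¬ ∃ x, x ∈ X ∧ z ∈ (tl r x : Set (Vx 2 × K)) := by
    rintro ⟨x, hx, h⟩
    exact hz x hx h
  unfold PG2_q
  rw [dif_neg h]

/-- two points with the same image are equal or in the same tile -/
theorem PG2_q3 (k0 : K) {r : ℕ} {X : Finset (Vx 2)}
    (hX2 : ∀ x ∈ X, ∀ y ∈ X, x ≠ y → Disjoint (tl r x : Set (Vx 2 × K)) (tl r y))
    {a b : Vx 2 × K} (hab : PG2_q k0 r X a = PG2_q k0 r X b) :
    a = b ∨ ∃ x ∈ X, a ∈ (tl r x : Set (Vx 2 × K)) ∧ b ∈ (tl r x : Set (Vx 2 × K)) := by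
  by_cases ha : ∃ x ∈ X, a ∈ (tl r x : Set (Vx 2 × K))
  · obtain ⟨x, hx, hax⟩ := ha
    rw [PG2_q1 k0 hX2 hx hax] at hab
    right
    by_cases hb : ∃ y ∈ X, b ∈ (tl r y : Set (Vx 2 × K))
    · obtain ⟨y, hy, hby⟩ := hb
      rw [PG2_q1 k0 hX2 hy hby] at hab
      have hxy : x = y := congrArg Prod.fst hab
      rw [← hxy] at hby
      exact ⟨x, hx, hax, hby⟩
    · push Not at hb
      rw [PG2_q2 k0 hb] at hab
      exact absurd (hab ▸ PG2_self r x k0) (hb x hx)
  · push Not at ha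
    rw [PG2_q2 k0 ha] at hab
    by_cases hb : ∃ y ∈ X, b ∈ (tl r y : Set (Vx 2 × K))
    · obtain ⟨y, hy, hby⟩ := hb
      rw [PG2_q1 k0 hX2 hy hby] at hab
      exact absurd (hab ▸ PG2_self r y k0) (ha y hy)
    · push Not at hb
      rw [PG2_q2 k0 hb] at hab
      exact Or.inl hab

/-- the contracted graph -/
noncomputable def PG2_G (P : PG K K') (k0 : K) (r n : ℕ) (X : Finset (Vx 2)) :
    Gr (Vx 2 × K) ↥(pbE P n) where
  s e := PG2_q k0 r X (P.gr.s e.1)
  r e := PG2_q k0 r X (P.gr.r e.1)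

theorem PG2_map (P : PG K K') (k0 : K) (r n : ℕ) (X : Finset (Vx 2)) (Q : Set (Vx 2 × K'))
    (ω : Set ↥(pbE P n)) (hP : ∀ e ∈ Q, ∃ h : e ∈ pbE P n, (⟨e, h⟩ : ↥(pbE P n)) ∈ ω)
    {z w : Vx 2 × K} (h : P.gr.Conn Q z w) :
    (PG2_G P k0 r n X).Conn ω (PG2_q k0 r X z) (PG2_q k0 r X w) := by
  induction h with
  | refl => exact Relation.ReflTransGen.refl
  | tail _ h2 ih =>
    refine Relation.ReflTransGen.tail ih ?_
    obtain ⟨e, he, h3⟩ := h2
    obtain ⟨h4, h5⟩ := hP e he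
    refine ⟨⟨e, h4⟩, h5, ?_⟩
    rcases h3 with ⟨h6, h7⟩ | ⟨h6, h7⟩
    · exact Or.inl ⟨congrArg (PG2_q k0 r X) h6, congrArg (PG2_q k0 r X) h7⟩
    · exact Or.inr ⟨congrArg (PG2_q k0 r X) h6, congrArg (PG2_q k0 r X) h7⟩

theorem bk_pg (P : PG K K') (hP : P.Ok) (S : Set (Vx 2 × K')) (r n : ℕ) (hr : 1 ≤ r)
    (X : Finset (Vx 2)) (hX1 : ∀ x ∈ X, nm x + r + 2 ≤ n)
    (hX2 : ∀ x ∈ X, ∀ y ∈ X, x ≠ y → Disjoint (tl r x : Set (Vx 2 × K)) (tl r y))
    (hX3 : ∀ x ∈ X, P.gr.ins (tl r x) ⊆ S) (hX4 : ∀ x ∈ X, TriP P S r x) :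
    X.card ≤ (pbd K n).card := by
  classical
  rcases X.eq_empty_or_nonempty with hXe | ⟨x0, hx0⟩
  · rw [hXe, Finset.card_empty]
    exact Nat.zero_le _
  obtain ⟨v0, hv0, -⟩ := hX4 x0 hx0
  let k0 : K := v0.2
  have hbt : ∀ b ∈ pbd K n, ∀ x ∈ X, b ∉ (tl r x : Set (Vx 2 × K)) := by
    intro b hb x hx hbx
    have h1 := (mem_pbd n b).1 hb
    have h2 := PG2_nm hbx
    have h3 := hX1 x hx
    omega
  let ω' : Finset ↥(pbE P n) := univ.filter (fun e => e.1 ∈ S)
  have hω' : ∀ e : ↥(pbE P n), e ∈ (ω' : Set ↥(pbE P n)) ↔ e.1 ∈ S := by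
    intro e
    rw [Finset.mem_coe, Finset.mem_filter]
    exact ⟨fun h => h.2, fun h => ⟨Finset.mem_univ _, h⟩⟩
  -- the lifting lemma
  have lift : ∀ c ∈ X, ∀ b1 ∈ pbd K n, ∀ b2 ∈ pbd K n,
      (PG2_G P k0 r n X).Conn ((ω' : Set ↥(pbE P n)) \ (PG2_G P k0 r n X).tch {(c, k0)}) b1 b2 →
      P.gr.Conn (S \ P.gr.ins (tl r c)) b1 b2 := by
    intro c hc b1 hb1 b2 hb2 hconn
    have L : ∀ a b : Vx 2 × K, PG2_q k0 r X a = PG2_q k0 r X b → a ∉ (tl r c : Set (Vx 2 × K)) →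
        P.gr.Conn (S \ P.gr.ins (tl r c)) a b := by
      intro a b hab ha
      rcases PG2_q3 k0 hX2 hab with rfl | ⟨x, hx, hax, hbx⟩
      · exact conn_refl _ _ _
      · refine conn_mono _ ?_ (tile_conn P hP r hr x a b hax hbx)
        intro e he
        refine ⟨hX3 x hx he, ?_⟩
        rintro ⟨h1, -⟩
        have hxc : x ≠ c := by
          rintro rfl
          exact ha hax
        exact Set.disjoint_left.1 (hX2 x hx c hc hxc) he.1 h1
    have key : ∀ v, (PG2_G P k0 r n X).Conn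
        ((ω' : Set ↥(pbE P n)) \ (PG2_G P k0 r n X).tch {(c, k0)}) b1 v →
        ∃ a, PG2_q k0 r X a = v ∧ a ∉ (tl r c : Set (Vx 2 × K)) ∧
          P.gr.Conn (S \ P.gr.ins (tl r c)) b1 a := by
      intro v hv
      induction hv with
      | refl => exact ⟨b1, PG2_q2 k0 (hbt b1 hb1), hbt b1 hb1 c hc, conn_refl _ _ _⟩
      | tail _ h2 ih =>
        obtain ⟨a, ha1, ha2, ha3⟩ := ih
        obtain ⟨e, ⟨he1, he2⟩, h3⟩ := h2
        have hs : P.gr.s e.1 ∉ (tl r c : Set (Vx 2 × K)) :=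
          fun h => he2 (Or.inl (PG2_q1 k0 hX2 hc h))
        have hr : P.gr.r e.1 ∉ (tl r c : Set (Vx 2 × K)) :=
          fun h => he2 (Or.inr (PG2_q1 k0 hX2 hc h))
        have heS : e.1 ∈ S \ P.gr.ins (tl r c) := ⟨(hω' e).1 he1, fun h => hs h.1⟩
        have hedge := conn_edge P.gr heS
        rcases h3 with ⟨h6, h7⟩ | ⟨h6, h7⟩
        · have h8 : PG2_q k0 r X a = PG2_q k0 r X (P.gr.s e.1) := ha1.trans h6.symm
          exact ⟨P.gr.r e.1, h7, hr, conn_trans _ ha3 (conn_trans _ (L _ _ h8 ha2) hedge)⟩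
        · have h8 : PG2_q k0 r X a = PG2_q k0 r X (P.gr.r e.1) := ha1.trans h7.symm
          exact ⟨P.gr.s e.1, h6, hs,
            conn_trans _ ha3 (conn_trans _ (L _ _ h8 ha2) (conn_symm _ hedge))⟩
    obtain ⟨a, ha1, ha2, ha3⟩ := key b2 hconn
    have h8 : PG2_q k0 r X a = PG2_q k0 r X b2 := by rw [ha1, PG2_q2 k0 (hbt b2 hb2)]
    exact conn_trans _ ha3 (L _ _ h8 ha2)
  -- the exits
  have exits : ∀ c ∈ X, ∀ v ∈ (tl r c : Set (Vx 2 × K)),
      (P.gr.cl (S \ P.gr.ins (tl r c)) v).Infinite →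
      ∃ b ∈ pbd K n, (PG2_G P k0 r n X).Conn (ω' : Set ↥(pbE P n)) (c, k0) b ∧
        P.gr.Conn (S \ P.gr.ins (tl r c)) v b := by
    intro c hc v hv hinf
    obtain ⟨y, hny, hy⟩ := (inf_pg P _ v).1 hinf (n + 1)
    have h1 := PG2_nm hv
    have h2 := hX1 c hc
    obtain ⟨b, hb, hvb⟩ := exit_pg P hP (by omega : nm v.1 ≤ n) (by omega : n < nm y.1) hy
    refine ⟨b, hb, ?_, conn_mono _ Set.inter_subset_left hvb⟩
    have h3 := PG2_map P k0 r n X ((S \ P.gr.ins (tl r c)) ∩ (pbE P n : Set (Vx 2 × K')))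
      (ω' : Set ↥(pbE P n)) (fun e he => ⟨he.2, (hω' _).2 he.1.1⟩) hvb
    rw [PG2_q1 k0 hX2 hc hv, PG2_q2 k0 (hbt b hb)] at h3
    exact h3
  have hcard : (X.image (fun x => ((x, k0) : Vx 2 × K))).card = X.card := by
    refine Finset.card_image_of_injective _ ?_
    intro x y hxy
    exact congrArg Prod.fst hxy
  rw [← hcard]
  refine bk_finite (PG2_G P k0 r n X) ω' (pbd K n) _ ?_ ?_
  · intro c hc hcb
    obtain ⟨x, hx, rfl⟩ := Finset.mem_image.1 hc
    exact hbt _ hcb x hx (PG2_self r x k0)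
  · intro c' hc'
    obtain ⟨c, hc, rfl⟩ := Finset.mem_image.1 hc'
    obtain ⟨v1, hv1, v2, hv2, v3, hv3, i1, i2, i3, n12, n13, n23⟩ := hX4 c hc
    obtain ⟨b1, hb1, c1, d1⟩ := exits c hc v1 hv1 i1
    obtain ⟨b2, hb2, c2, d2⟩ := exits c hc v2 hv2 i2
    obtain ⟨b3, hb3, c3, d3⟩ := exits c hc v3 hv3 i3
    refine ⟨b1, hb1, b2, hb2, b3, hb3, c1, c2, c3, ?_, ?_, ?_⟩
    · intro h
      exact n12 (conn_trans _ d1 (conn_trans _ (lift c hc b1 hb1 b2 hb2 h) (conn_symm _ d2)))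
    · intro h
      exact n13 (conn_trans _ d1 (conn_trans _ (lift c hc b1 hb1 b3 hb3 h) (conn_symm _ d3)))
    · intro h
      exact n23 (conn_trans _ d2 (conn_trans _ (lift c hc b2 hb2 b3 hb3 h) (conn_symm _ d3)))

end H82.BX

end S_H82_BX_PG2

section S_H82_IC_BKB

/-!
# BKB: Burton-Keane in a box of the lattice

`til r x = {z | nm (z - x) ≤ r}`.  `Tri S r x` (for a set `S` of open edges): there are `v1 v2 v3 ∈ til r x` whose clusters in `S \ ins (til r x)` are infinite and pairwise not connected in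
`S \ ins (til r x)`.
Let `q z = x` if `z ∈ til r x` for the (unique) `x ∈ X`, `q z = z` if `z` is in no tile; `Γ'` the graph on the edges `↥(bE d n)` with ends `q (s e)`, `q (r e)` (contraction of the tiles), `ω'` the finset of the
edges of `bE n` in `S`.
* Lifting lemma: let `P ⊆ bE n` be a set of edges and let `X' ⊆ X` be such that for every `x ∈ X'` all edges of `ins (til r x)` are in `P`, and no edge of `P` touches a tile `til r x` with `x ∈ X \ X'`.  Then for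
  `z, w` not in any tile: `Conn Γ' P (q z) (q w)` implies `Conn (Zl d) P z w` (induction on the path in `Γ'`: if `q (r e) = q (s e')` then `r e = s e'` or both are in one tile `til r x`, `x ∈ X'`, which is
  connected inside by edges of `P`: `box_conn` translated).
* Conversely `Conn (Zl d) P z w` implies `Conn Γ' P (q z) (q w)` (map the path).
Apply `bk_finite` to `Γ'`, `ω'`, `S := bdry d n`, `D := X`.  Centres are not in `bdry n` (`nm x < n`).  For `x ∈ X` let `v_j` be as in `Tri`; the infinite cluster of `v_j` in `S \ ins (til r x)` leaves `Λ_n`, so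
`exit_box` gives `b_j ∈ bdry n` with `v_j ↔ b_j` in `(S \ ins (til r x)) ∩ bE n`.  So `Conn Γ' ω' x b_j` (`q v_j = x`, `q b_j = b_j` since tiles are inside `Λ_{n-1}`).  If `b_1, b_2` were connected in
`Γ'` by edges of `ω' \ tch' {x}` (= edges of `S ∩ bE n` not touching `til r x`), then by the lifting lemma (`X' = X \ {x}`, tiles are disjoint so the inner edges of the others do not touch `til r x`) they would be
connected in `S ∩ bE n \ tch (til r x) ⊆ S \ ins (til r x)`, and so `v_1 ↔ v_2` there, contradiction.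
-/

set_option autoImplicit false

open Finset

namespace H82.IC

variable {d : ℕ}

/-- tile of radius `r` around `x`. -/
def til {d : ℕ} (r : ℕ) (x : Vx d) : Set (Vx d) := {z | nm (z - x) ≤ r}

/-- three infinite branches at the tile. -/
def Tri {d : ℕ} (S : Set (Ed d)) (r : ℕ) (x : Vx d) : Prop :=
  ∃ v1 ∈ til r x, ∃ v2 ∈ til r x, ∃ v3 ∈ til r x,
    ((Zl d).cl (S \ (Zl d).ins (til r x)) v1).Infinite ∧
    ((Zl d).cl (S \ (Zl d).ins (til r x)) v2).Infinite ∧
    ((Zl d).cl (S \ (Zl d).ins (til r x)) v3).Infinite ∧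
    ¬ (Zl d).Conn (S \ (Zl d).ins (til r x)) v1 v2 ∧
    ¬ (Zl d).Conn (S \ (Zl d).ins (til r x)) v1 v3 ∧
    ¬ (Zl d).Conn (S \ (Zl d).ins (til r x)) v2 v3

theorem BKB_til_self (r : ℕ) (x : Vx d) : x ∈ til r x := by
  change nm (x - x) ≤ r
  rw [sub_self, nm_zero]
  exact Nat.zero_le r

theorem BKB_til_nm {r : ℕ} {x z : Vx d} (h : z ∈ til r x) : nm z ≤ nm x + r := by
  have h1 : nm (z - x) ≤ r := h
  have h2 := nm_add (z - x) x
  rw [sub_add_cancel] at h2
  omega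

theorem BKB_tile_conn {r : ℕ} {x a b : Vx d} (ha : a ∈ til r x) (hb : b ∈ til r x) :
    (Zl d).Conn ((Zl d).ins (til r x)) a b := by
  have h1 : (Zl d).Conn (bE d r : Set (Ed d)) (a - x) (b - x) := box_conn ha hb
  have key : ∀ u v : Vx d, (Zl d).Conn (bE d r : Set (Ed d)) u v →
      (Zl d).Conn ((Zl d).ins (til r x)) (u + x) (v + x) := by
    intro u v h
    induction h with
    | refl => exact Relation.ReflTransGen.refl
    | tail _ h2 ih =>
      refine Relation.ReflTransGen.tail ih ?_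
      obtain ⟨e, he, h3⟩ := h2
      have h4 := mem_bE.1 (Finset.mem_coe.1 he)
      have hs : (Zl d).s ((e.1 + x, e.2) : Ed d) = (Zl d).s e + x := rfl
      have hr : (Zl d).r ((e.1 + x, e.2) : Ed d) = (Zl d).r e + x := by
        change e.1 + x + Pi.single e.2 1 = e.1 + Pi.single e.2 1 + x
        rw [add_right_comm]
      refine ⟨(e.1 + x, e.2), ⟨?_, ?_⟩, ?_⟩
      · rw [hs]
        change nm ((Zl d).s e + x - x) ≤ r
        rw [add_sub_cancel_right]
        exact h4.1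
      · rw [hr]
        change nm ((Zl d).r e + x - x) ≤ r
        rw [add_sub_cancel_right]
        exact h4.2
      · rw [hs, hr]
        rcases h3 with ⟨h5, h6⟩ | ⟨h5, h6⟩
        · exact Or.inl ⟨by rw [h5], by rw [h6]⟩
        · exact Or.inr ⟨by rw [h5], by rw [h6]⟩
  have h2 := key _ _ h1
  rw [sub_add_cancel, sub_add_cancel] at h2
  exact h2

/-- the contraction of the tiles -/
noncomputable def BKB_q (r : ℕ) (X : Finset (Vx d)) (z : Vx d) : Vx d :=
  open Classical in if h : ∃ x, x ∈ X ∧ z ∈ til r x then h.choose else z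

theorem BKB_q1 {r : ℕ} {X : Finset (Vx d)}
    (hX2 : ∀ x ∈ X, ∀ y ∈ X, x ≠ y → Disjoint (til r x) (til r y)) {x z : Vx d} (hx : x ∈ X)
    (hz : z ∈ til r x) : BKB_q r X z = x := by
  have h : ∃ x, x ∈ X ∧ z ∈ til r x := ⟨x, hx, hz⟩
  unfold BKB_q
  rw [dif_pos h]
  obtain ⟨h1, h2⟩ := h.choose_spec
  by_contra hne
  exact Set.disjoint_left.1 (hX2 _ h1 _ hx hne) h2 hz

theorem BKB_q2 {r : ℕ} {X : Finset (Vx d)} {z : Vx d} (hz : ∀ x ∈ X, z ∉ til r x) :
    BKB_q r X z = z := by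
  have h : ¬ ∃ x, x ∈ X ∧ z ∈ til r x := by
    rintro ⟨x, hx, h⟩
    exact hz x hx h
  unfold BKB_q
  rw [dif_neg h]

/-- two points with the same image are equal or in the same tile -/
theorem BKB_q3 {r : ℕ} {X : Finset (Vx d)}
    (hX2 : ∀ x ∈ X, ∀ y ∈ X, x ≠ y → Disjoint (til r x) (til r y)) {a b : Vx d}
    (hab : BKB_q r X a = BKB_q r X b) : a = b ∨ ∃ x ∈ X, a ∈ til r x ∧ b ∈ til r x := by
  by_cases ha : ∃ x ∈ X, a ∈ til r x
  · obtain ⟨x, hx, hax⟩ := ha
    rw [BKB_q1 hX2 hx hax] at hab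
    right
    by_cases hb : ∃ y ∈ X, b ∈ til r y
    · obtain ⟨y, hy, hby⟩ := hb
      rw [BKB_q1 hX2 hy hby] at hab
      rw [← hab] at hby
      exact ⟨x, hx, hax, hby⟩
    · push Not at hb
      rw [BKB_q2 hb] at hab
      exact absurd (hab ▸ BKB_til_self r x) (hb x hx)
  · push Not at ha
    rw [BKB_q2 ha] at hab
    by_cases hb : ∃ y ∈ X, b ∈ til r y
    · obtain ⟨y, hy, hby⟩ := hb
      rw [BKB_q1 hX2 hy hby] at hab
      exact absurd (hab ▸ BKB_til_self r y) (ha y hy)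
    · push Not at hb
      rw [BKB_q2 hb] at hab
      exact Or.inl hab

/-- the contracted graph -/
noncomputable def BKB_G (r n : ℕ) (X : Finset (Vx d)) : Gr (Vx d) ↥(bE d n) where
  s e := BKB_q r X ((Zl d).s e.1)
  r e := BKB_q r X ((Zl d).r e.1)

theorem BKB_map (r n : ℕ) (X : Finset (Vx d)) (P : Set (Ed d)) (ω : Set ↥(bE d n))
    (hP : ∀ e ∈ P, ∃ h : e ∈ bE d n, (⟨e, h⟩ : ↥(bE d n)) ∈ ω) {z w : Vx d}
    (h : (Zl d).Conn P z w) : (BKB_G r n X).Conn ω (BKB_q r X z) (BKB_q r X w) := by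
  induction h with
  | refl => exact Relation.ReflTransGen.refl
  | tail _ h2 ih =>
    refine Relation.ReflTransGen.tail ih ?_
    obtain ⟨e, he, h3⟩ := h2
    obtain ⟨h4, h5⟩ := hP e he
    refine ⟨⟨e, h4⟩, h5, ?_⟩
    rcases h3 with ⟨h6, h7⟩ | ⟨h6, h7⟩
    · exact Or.inl ⟨congrArg (BKB_q r X) h6, congrArg (BKB_q r X) h7⟩
    · exact Or.inr ⟨congrArg (BKB_q r X) h6, congrArg (BKB_q r X) h7⟩

theorem BKB_inf {n : ℕ} {C : Set (Vx d)} (hC : C.Infinite) : ∃ y ∈ C, n ≤ nm y := by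
  by_contra hcon
  push Not at hcon
  apply hC
  refine (bx d n).finite_toSet.subset ?_
  intro y hy
  rw [Finset.mem_coe, mem_bx]
  exact (hcon y hy).le

theorem bk_box (hd : 1 ≤ d) (S : Set (Ed d)) (r n : ℕ) (X : Finset (Vx d))
    (hX1 : ∀ x ∈ X, nm x + r + 1 ≤ n) (hX2 : ∀ x ∈ X, ∀ y ∈ X, x ≠ y → Disjoint (til r x) (til r y))
    (hX3 : ∀ x ∈ X, (Zl d).ins (til r x) ⊆ S) (hX4 : ∀ x ∈ X, Tri S r x) :
    X.card ≤ (bdry d n).card := by
  classical
  have hbt : ∀ b ∈ bdry d n, ∀ x ∈ X, b ∉ til r x := by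
    intro b hb x hx hbx
    have h1 := (mem_bdry hd).1 hb
    have h2 := BKB_til_nm hbx
    have h3 := hX1 x hx
    omega
  let ω' : Finset ↥(bE d n) := univ.filter (fun e => e.1 ∈ S)
  have hω' : ∀ e : ↥(bE d n), e ∈ (ω' : Set ↥(bE d n)) ↔ e.1 ∈ S := by
    intro e
    rw [Finset.mem_coe, Finset.mem_filter]
    exact ⟨fun h => h.2, fun h => ⟨Finset.mem_univ _, h⟩⟩
  -- the lifting lemma
  have lift : ∀ c ∈ X, ∀ b1 ∈ bdry d n, ∀ b2 ∈ bdry d n,
      (BKB_G r n X).Conn ((ω' : Set ↥(bE d n)) \ (BKB_G r n X).tch {c}) b1 b2 →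
      (Zl d).Conn (S \ (Zl d).ins (til r c)) b1 b2 := by
    intro c hc b1 hb1 b2 hb2 hconn
    have L : ∀ a b : Vx d, BKB_q r X a = BKB_q r X b → a ∉ til r c →
        (Zl d).Conn (S \ (Zl d).ins (til r c)) a b := by
      intro a b hab ha
      rcases BKB_q3 hX2 hab with rfl | ⟨x, hx, hax, hbx⟩
      · exact conn_refl _ _ _
      · refine conn_mono _ ?_ (BKB_tile_conn hax hbx)
        intro e he
        refine ⟨hX3 x hx he, ?_⟩
        rintro ⟨h1, -⟩
        have hxc : x ≠ c := by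
          rintro rfl
          exact ha hax
        exact Set.disjoint_left.1 (hX2 x hx c hc hxc) he.1 h1
    have key : ∀ v, (BKB_G r n X).Conn ((ω' : Set ↥(bE d n)) \ (BKB_G r n X).tch {c}) b1 v →
        ∃ a, BKB_q r X a = v ∧ a ∉ til r c ∧ (Zl d).Conn (S \ (Zl d).ins (til r c)) b1 a := by
      intro v hv
      induction hv with
      | refl => exact ⟨b1, BKB_q2 (hbt b1 hb1), hbt b1 hb1 c hc, conn_refl _ _ _⟩
      | tail _ h2 ih =>
        obtain ⟨a, ha1, ha2, ha3⟩ := ih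
        obtain ⟨e, ⟨he1, he2⟩, h3⟩ := h2
        have hs : (Zl d).s e.1 ∉ til r c := fun h => he2 (Or.inl (BKB_q1 hX2 hc h))
        have hr : (Zl d).r e.1 ∉ til r c := fun h => he2 (Or.inr (BKB_q1 hX2 hc h))
        have heS : e.1 ∈ S \ (Zl d).ins (til r c) := ⟨(hω' e).1 he1, fun h => hs h.1⟩
        have hedge := conn_edge (Zl d) heS
        rcases h3 with ⟨h6, h7⟩ | ⟨h6, h7⟩
        · have h8 : BKB_q r X a = BKB_q r X ((Zl d).s e.1) := ha1.trans h6.symm
          exact ⟨(Zl d).r e.1, h7, hr, conn_trans _ ha3 (conn_trans _ (L _ _ h8 ha2) hedge)⟩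
        · have h8 : BKB_q r X a = BKB_q r X ((Zl d).r e.1) := ha1.trans h7.symm
          exact ⟨(Zl d).s e.1, h6, hs,
            conn_trans _ ha3 (conn_trans _ (L _ _ h8 ha2) (conn_symm _ hedge))⟩
    obtain ⟨a, ha1, ha2, ha3⟩ := key b2 hconn
    have h8 : BKB_q r X a = BKB_q r X b2 := by rw [ha1, BKB_q2 (hbt b2 hb2)]
    exact conn_trans _ ha3 (L _ _ h8 ha2)
  -- the exits
  have exits : ∀ c ∈ X, ∀ v ∈ til r c, ((Zl d).cl (S \ (Zl d).ins (til r c)) v).Infinite →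
      ∃ b ∈ bdry d n, (BKB_G r n X).Conn (ω' : Set ↥(bE d n)) c b ∧
        (Zl d).Conn (S \ (Zl d).ins (til r c)) v b := by
    intro c hc v hv hinf
    obtain ⟨y, hy, hny⟩ := BKB_inf (n := n) hinf
    have h1 := BKB_til_nm hv
    have h2 := hX1 c hc
    obtain ⟨b, hb, hvb⟩ := exit_box hd (by omega) hny hy
    refine ⟨b, hb, ?_, conn_mono _ Set.inter_subset_left hvb⟩
    have h3 := BKB_map r n X ((S \ (Zl d).ins (til r c)) ∩ (bE d n : Set (Ed d)))
      (ω' : Set ↥(bE d n)) (fun e he => ⟨he.2, (hω' _).2 he.1.1⟩) hvb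
    rw [BKB_q1 hX2 hc hv, BKB_q2 (hbt b hb)] at h3
    exact h3
  refine bk_finite (BKB_G r n X) ω' (bdry d n) X ?_ ?_
  · intro c hc hcb
    exact hbt c hcb c hc (BKB_til_self r c)
  · intro c hc
    obtain ⟨v1, hv1, v2, hv2, v3, hv3, i1, i2, i3, n12, n13, n23⟩ := hX4 c hc
    obtain ⟨b1, hb1, c1, d1⟩ := exits c hc v1 hv1 i1
    obtain ⟨b2, hb2, c2, d2⟩ := exits c hc v2 hv2 i2
    obtain ⟨b3, hb3, c3, d3⟩ := exits c hc v3 hv3 i3
    refine ⟨b1, hb1, b2, hb2, b3, hb3, c1, c2, c3, ?_, ?_, ?_⟩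
    · intro h
      exact n12 (conn_trans _ d1 (conn_trans _ (lift c hc b1 hb1 b2 hb2 h) (conn_symm _ d2)))
    · intro h
      exact n13 (conn_trans _ d1 (conn_trans _ (lift c hc b1 hb1 b3 hb3 h) (conn_symm _ d3)))
    · intro h
      exact n23 (conn_trans _ d2 (conn_trans _ (lift c hc b2 hb2 b3 hb3 h) (conn_symm _ d3)))

end H82.IC

end S_H82_IC_BKB

section S_H82_IC_BKC

/-!
# BKC: no trifurcation boxes

`shf a ω e = ω (e.1 + a, e.2)`, `opE e ω = Function.update ω e true`.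
`TI ν`: `ν` is invariant under all `shf a`; `INS ν C`: `ν {opE e ω ∈ X} ≤ C ν X` for all `e` and measurable `X`.
* measurability of `{ω | Tri (opn ω) r x}`: finite union over `v1 v2 v3`; `ω ↦ opn ω \ K` is the configuration obtained by closing the edges of `K` (a measurable map `Cf d → Cf d`);
  `{cluster of v infinite}` = `⋂_n {∃ b, nm (b - v) = n, v ↔ b}` (countable), `meas_cn`.
* suppose `p0 = ν {Tri (opn ω) r 0} > 0`.  The edges of `ins (til r 0) = bE r` are finitely many `e_1..e_k`; `Tri` does not depend on them.  With `X_j = {Tri} ∩ {e_1..e_j open}`: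
  `X_{j-1} ⊆ {opE e_j ω ∈ X_j}`, so `ν X_{j-1} ≤ C ν X_j`; hence `p = ν (X_k) > 0` (`C > 0`).
* for `K : ℕ`, `n = (2r+1) K + r + 1`, grid `{(2r+1) k : nm k ≤ K}`: tiles are disjoint (`nm` of the difference of two centres is a positive multiple of `2r+1`), `nm x + r + 1 ≤ n`.  For every `ω` the number of grid
  points `x` with `Tri (opn ω) r x` and all edges of `ins (til r x)` open is `≤ |bdry d n|` (`bk_box`).  Integrate: by `TI` each grid point has probability `p`, so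
  `(2K+1)^d p ≤ |bdry d n| = (2n+1)^d - (2n-1)^d ≤ 2d (2n+1)^(d-1)` for `n ≥ 1` and `2n + 1 ≤ (4r+4)(2K+1)`-type bounds: contradiction as `K → ∞`.
-/

set_option autoImplicit false

open Finset MeasureTheory Filter Topology

namespace H82.IC

variable {d : ℕ}

/-- shift of a configuration. -/
def shf {d : ℕ} (a : Vx d) (ω : Cf d) : Cf d := fun e => ω (e.1 + a, e.2)

/-- open the edge `e`. -/
noncomputable def opE {d : ℕ} (e : Ed d) (ω : Cf d) : Cf d := Function.update ω e true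

def TI {d : ℕ} (ν : Measure (Cf d)) : Prop :=
  ∀ (a : Vx d) (X : Set (Cf d)), MeasurableSet X → ν.real {ω | shf a ω ∈ X} = ν.real X

def INS {d : ℕ} (ν : Measure (Cf d)) (C : ℝ) : Prop :=
  ∀ (e : Ed d) (X : Set (Cf d)), MeasurableSet X → ν.real {ω | opE e ω ∈ X} ≤ C * ν.real X

theorem BKC_inf {S : Set (Ed d)} {v : Vx d} :
    ((Zl d).cl S v).Infinite ↔ ∀ n : ℕ, ∃ b : Vx d, n ≤ nm b ∧ (Zl d).Conn S v b := by
  constructor
  · intro h n
    obtain ⟨b, hb, hbn⟩ := h.exists_notMem_finset (bx d n)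
    rw [mem_bx, not_le] at hbn
    exact ⟨b, hbn.le, hb⟩
  · intro h hfin
    obtain ⟨b, hb, hc⟩ := h (hfin.toFinset.sup nm + 1)
    have h2 : nm b ≤ hfin.toFinset.sup nm :=
      Finset.le_sup (f := nm) (hfin.mem_toFinset.mpr hc)
    omega

/-- close the edges of `K`. -/
noncomputable def BKC_cls {d : ℕ} (K : Set (Ed d)) (ω : Cf d) : Cf d :=
  open Classical in fun e => if e ∈ K then false else ω e

theorem BKC_cls_meas (K : Set (Ed d)) : Measurable (BKC_cls K) := by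
  classical
  refine measurable_pi_lambda _ fun e => ?_
  by_cases h : e ∈ K
  · have h1 : (fun ω : Cf d => BKC_cls K ω e) = fun _ => false := by
      funext ω
      unfold BKC_cls
      rw [if_pos h]
    rw [h1]
    exact measurable_const
  · have h1 : (fun ω : Cf d => BKC_cls K ω e) = fun ω => ω e := by
      funext ω
      unfold BKC_cls
      rw [if_neg h]
    rw [h1]
    exact measurable_pi_apply e

theorem BKC_opn (K : Set (Ed d)) (ω : Cf d) : opn (BKC_cls K ω) = opn ω \ K := by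
  classical
  ext e
  show (if e ∈ K then false else ω e) = true ↔ ω e = true ∧ e ∉ K
  by_cases h : e ∈ K
  · rw [if_pos h]
    exact ⟨fun h1 => absurd h1 (by decide), fun h1 => absurd h h1.2⟩
  · rw [if_neg h]
    exact ⟨fun h1 => ⟨h1, h⟩, fun h1 => h1.1⟩

theorem BKC_meas_conn (K : Set (Ed d)) (v w : Vx d) :
    MeasurableSet {ω : Cf d | (Zl d).Conn (opn ω \ K) v w} := by
  have e : {ω : Cf d | (Zl d).Conn (opn ω \ K) v w} = BKC_cls K ⁻¹' cn v w := by
    ext ω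
    show (Zl d).Conn (opn ω \ K) v w ↔ (Zl d).Conn (opn (BKC_cls K ω)) v w
    rw [BKC_opn]
  rw [e]
  exact BKC_cls_meas K (meas_cn v w)

theorem BKC_meas_inf (K : Set (Ed d)) (v : Vx d) :
    MeasurableSet {ω : Cf d | ((Zl d).cl (opn ω \ K) v).Infinite} := by
  have e : {ω : Cf d | ((Zl d).cl (opn ω \ K) v).Infinite} =
      ⋂ n : ℕ, ⋃ b : Vx d, ({ω : Cf d | n ≤ nm b} ∩ {ω | (Zl d).Conn (opn ω \ K) v b}) := by
    ext ω
    rw [Set.mem_iInter]
    show ((Zl d).cl (opn ω \ K) v).Infinite ↔ _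
    rw [BKC_inf]
    refine forall_congr' fun n => ?_
    rw [Set.mem_iUnion]
    exact Iff.rfl
  rw [e]
  exact MeasurableSet.iInter fun n => MeasurableSet.iUnion fun b =>
    (MeasurableSet.const _).inter (BKC_meas_conn K v b)

theorem meas_Tri (r : ℕ) (x : Vx d) : MeasurableSet {ω : Cf d | Tri (opn ω) r x} := by
  set K := (Zl d).ins (til r x) with hK
  have e : {ω : Cf d | Tri (opn ω) r x} = ⋃ v1 : Vx d, ⋃ v2 : Vx d, ⋃ v3 : Vx d,
      ({ω : Cf d | v1 ∈ til r x ∧ v2 ∈ til r x ∧ v3 ∈ til r x} ∩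
        ({ω | ((Zl d).cl (opn ω \ K) v1).Infinite} ∩ ({ω | ((Zl d).cl (opn ω \ K) v2).Infinite} ∩
        ({ω | ((Zl d).cl (opn ω \ K) v3).Infinite} ∩ ({ω | (Zl d).Conn (opn ω \ K) v1 v2}ᶜ ∩
        ({ω | (Zl d).Conn (opn ω \ K) v1 v3}ᶜ ∩ {ω | (Zl d).Conn (opn ω \ K) v2 v3}ᶜ)))))) := by
    ext ω
    simp only [Set.mem_iUnion]
    constructor
    · rintro ⟨v1, h1, v2, h2, v3, h3, a1, a2, a3, b1, b2, b3⟩
      exact ⟨v1, v2, v3, ⟨h1, h2, h3⟩, a1, a2, a3, b1, b2, b3⟩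
    · rintro ⟨v1, v2, v3, ⟨h1, h2, h3⟩, a1, a2, a3, b1, b2, b3⟩
      exact ⟨v1, h1, v2, h2, v3, h3, a1, a2, a3, b1, b2, b3⟩
  rw [e]
  exact MeasurableSet.iUnion fun v1 => MeasurableSet.iUnion fun v2 => MeasurableSet.iUnion fun v3 =>
    (MeasurableSet.const _).inter ((BKC_meas_inf K v1).inter ((BKC_meas_inf K v2).inter
      ((BKC_meas_inf K v3).inter ((BKC_meas_conn K v1 v2).compl.inter
        ((BKC_meas_conn K v1 v3).compl.inter (BKC_meas_conn K v2 v3).compl)))))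

/-! ### opening the edges of a tile -/

theorem BKC_Tri_congr {S S' : Set (Ed d)} {r : ℕ} {x : Vx d}
    (h : S \ (Zl d).ins (til r x) = S' \ (Zl d).ins (til r x)) (hT : Tri S r x) : Tri S' r x := by
  unfold Tri at hT ⊢
  rwa [h] at hT

theorem BKC_bE {r : ℕ} {x : Vx d} {e : Ed d} :
    e ∈ (Zl d).ins (til r x) ↔ ((e.1 - x, e.2) : Ed d) ∈ bE d r := by
  rw [mem_bE]
  show (nm (e.1 - x) ≤ r ∧ nm (e.1 + Pi.single e.2 1 - x) ≤ r) ↔
    (nm (e.1 - x) ≤ r ∧ nm (e.1 - x + Pi.single e.2 1) ≤ r)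
  have h : e.1 + Pi.single e.2 1 - x = e.1 - x + Pi.single e.2 1 := by abel
  rw [h]

theorem BKC_bE0 {r : ℕ} {e : Ed d} : e ∈ (Zl d).ins (til r (0 : Vx d)) ↔ e ∈ bE d r := by
  rw [BKC_bE]
  have h : ((e.1 - 0, e.2) : Ed d) = e := by rw [sub_zero]
  rw [h]

theorem BKC_pos (ν : Measure (Cf d)) [IsProbabilityMeasure ν] (C : ℝ) (hC : 0 < C)
    (hI : INS ν C) (r : ℕ) (h0 : 0 < ν.real {ω : Cf d | Tri (opn ω) r 0}) (F : Finset (Ed d)) :
    F ⊆ bE d r → 0 < ν.real ({ω : Cf d | Tri (opn ω) r 0} ∩ up F) := by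
  classical
  induction F using Finset.induction_on with
  | empty =>
    intro _
    have h : ({ω : Cf d | Tri (opn ω) r 0} ∩ up ∅) = {ω : Cf d | Tri (opn ω) r 0} := by
      ext ω
      refine ⟨fun h => h.1, fun h => ⟨h, fun e he => absurd he (Finset.notMem_empty e)⟩⟩
    rw [h]
    exact h0
  | insert e F _ ih =>
    intro hF
    have h1 := ih ((Finset.subset_insert e F).trans hF)
    have he : e ∈ (Zl d).ins (til r (0 : Vx d)) := BKC_bE0.2 (hF (Finset.mem_insert_self e F))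
    have hsub : ({ω : Cf d | Tri (opn ω) r 0} ∩ up F) ⊆
        {ω | opE e ω ∈ ({ω : Cf d | Tri (opn ω) r 0} ∩ up (insert e F))} := by
      rintro ω ⟨h2, h3⟩
      constructor
      · refine BKC_Tri_congr (S := opn ω) ?_ h2
        ext e'
        constructor
        · rintro ⟨h4, h5⟩
          refine ⟨?_, h5⟩
          show opE e ω e' = true
          unfold opE
          rw [Function.update_of_ne (fun h => h5 (by rw [h]; exact he))]
          exact h4
        · rintro ⟨h4, h5⟩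
          refine ⟨?_, h5⟩
          have h6 : opE e ω e' = true := h4
          unfold opE at h6
          rwa [Function.update_of_ne (fun h => h5 (by rw [h]; exact he))] at h6
      · intro e' he'
        unfold opE
        by_cases h : e' = e
        · rw [h, Function.update_self]
        · rw [Function.update_of_ne h]
          rcases Finset.mem_insert.1 he' with h5 | h5
          · exact absurd h5 h
          · exact h3 e' h5
    have hm : MeasurableSet ({ω : Cf d | Tri (opn ω) r 0} ∩ up (insert e F)) :=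
      (meas_Tri r 0).inter (lcl_measurable (lcl_up _))
    have h4 := hI e _ hm
    have h5 : ν.real ({ω : Cf d | Tri (opn ω) r 0} ∩ up F) ≤
        ν.real {ω | opE e ω ∈ ({ω : Cf d | Tri (opn ω) r 0} ∩ up (insert e F))} :=
      measureReal_mono hsub
    have h6 : 0 < C * ν.real ({ω : Cf d | Tri (opn ω) r 0} ∩ up (insert e F)) := by linarith
    exact (pos_iff_pos_of_mul_pos h6).1 hC

/-! ### translations -/

theorem BKC_conn (a : Vx d) (S : Set (Ed d)) {u v : Vx d}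
    (h : (Zl d).Conn {e | ((e.1 + a, e.2) : Ed d) ∈ S} u v) : (Zl d).Conn S (u + a) (v + a) := by
  induction h with
  | refl => exact conn_refl _ _ _
  | tail _ h2 ih =>
    refine Relation.ReflTransGen.tail ih ?_
    obtain ⟨e, he, h3⟩ := h2
    refine ⟨(e.1 + a, e.2), he, ?_⟩
    have e1 : (Zl d).s ((e.1 + a, e.2) : Ed d) = (Zl d).s e + a := rfl
    have e2 : (Zl d).r ((e.1 + a, e.2) : Ed d) = (Zl d).r e + a := by
      show e.1 + a + Pi.single e.2 1 = e.1 + Pi.single e.2 1 + a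
      abel
    rw [e1, e2]
    rcases h3 with ⟨h3, h4⟩ | ⟨h3, h4⟩
    · exact Or.inl ⟨by rw [h3], by rw [h4]⟩
    · exact Or.inr ⟨by rw [h3], by rw [h4]⟩

theorem BKC_conn_iff (a : Vx d) (S : Set (Ed d)) (u v : Vx d) :
    (Zl d).Conn {e | ((e.1 + a, e.2) : Ed d) ∈ S} u v ↔ (Zl d).Conn S (u + a) (v + a) := by
  refine ⟨BKC_conn a S, fun h => ?_⟩
  have e : S = {e | ((e.1 + -a, e.2) : Ed d) ∈ {e | ((e.1 + a, e.2) : Ed d) ∈ S}} := by
    ext e
    show e ∈ S ↔ ((e.1 + -a + a, e.2) : Ed d) ∈ S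
    have h1 : ((e.1 + -a + a, e.2) : Ed d) = e := by rw [neg_add_cancel_right]
    rw [h1]
  rw [e] at h
  have h2 := BKC_conn (-a) _ h
  rw [add_neg_cancel_right, add_neg_cancel_right] at h2
  exact h2

/-- the event at `x` -/
def BKC_A {d : ℕ} (r : ℕ) (x : Vx d) : Set (Cf d) :=
  {ω | Tri (opn ω) r x} ∩ ⋂ e : Ed d, {ω | e ∈ (Zl d).ins (til r x) → ω e = true}

theorem BKC_A_meas (r : ℕ) (x : Vx d) : MeasurableSet (BKC_A r x) := by
  refine (meas_Tri r x).inter (MeasurableSet.iInter fun e => ?_)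
  by_cases h : e ∈ (Zl d).ins (til r x)
  · have h1 : {ω : Cf d | e ∈ (Zl d).ins (til r x) → ω e = true} = (fun ω => ω e) ⁻¹' {true} := by
      ext ω
      exact ⟨fun h2 => h2 h, fun h2 _ => h2⟩
    rw [h1]
    exact measurable_pi_apply e (MeasurableSet.singleton _)
  · have h1 : {ω : Cf d | e ∈ (Zl d).ins (til r x) → ω e = true} = Set.univ := by
      ext ω
      exact ⟨fun _ => trivial, fun _ h2 => absurd h2 h⟩
    rw [h1]
    exact MeasurableSet.univ

theorem BKC_shift (r : ℕ) (x : Vx d) :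
    {ω : Cf d | shf x ω ∈ ({ω : Cf d | Tri (opn ω) r 0} ∩ up (bE d r))} ⊆ BKC_A r x := by
  rintro ω ⟨h1, h2⟩
  have hset : {e : Ed d | ((e.1 + x, e.2) : Ed d) ∈ opn ω \ (Zl d).ins (til r x)} =
      opn (shf x ω) \ (Zl d).ins (til r 0) := by
    ext e
    show (ω (e.1 + x, e.2) = true ∧ ((e.1 + x, e.2) : Ed d) ∉ (Zl d).ins (til r x)) ↔
      (ω (e.1 + x, e.2) = true ∧ e ∉ (Zl d).ins (til r 0))
    rw [BKC_bE, BKC_bE0]
    have h3 : (((e.1 + x, e.2) : Ed d).1 - x, ((e.1 + x, e.2) : Ed d).2) = e := by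
      show (e.1 + x - x, e.2) = e
      rw [add_sub_cancel_right]
    rw [h3]
  have hc : ∀ u v, (Zl d).Conn (opn (shf x ω) \ (Zl d).ins (til r 0)) u v ↔
      (Zl d).Conn (opn ω \ (Zl d).ins (til r x)) (u + x) (v + x) := by
    intro u v
    rw [← hset]
    exact BKC_conn_iff x _ u v
  have hi : ∀ v, ((Zl d).cl (opn (shf x ω) \ (Zl d).ins (til r 0)) v).Infinite →
      ((Zl d).cl (opn ω \ (Zl d).ins (til r x)) (v + x)).Infinite := by
    intro v hv
    refine (hv.image (add_left_injective x).injOn).mono ?_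
    rintro _ ⟨w, hw, rfl⟩
    exact (hc v w).1 hw
  have ht : ∀ v, v ∈ til r (0 : Vx d) → v + x ∈ til r x := by
    intro v hv
    have h3 : nm (v - 0) ≤ r := hv
    show nm (v + x - x) ≤ r
    rwa [add_sub_cancel_right, ← sub_zero v]
  refine ⟨?_, ?_⟩
  · obtain ⟨v1, m1, v2, m2, v3, m3, a1, a2, a3, b1, b2, b3⟩ := h1
    exact ⟨v1 + x, ht _ m1, v2 + x, ht _ m2, v3 + x, ht _ m3, hi _ a1, hi _ a2, hi _ a3,
      fun h => b1 ((hc _ _).2 h), fun h => b2 ((hc _ _).2 h), fun h => b3 ((hc _ _).2 h)⟩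
  · rw [Set.mem_iInter]
    intro e he
    have h3 := h2 _ (BKC_bE.1 he)
    have h4 : ω ((e.1 - x) + x, e.2) = true := h3
    rwa [sub_add_cancel] at h4

/-! ### counting -/

/-- grid -/
def BKC_g {d : ℕ} (r : ℕ) (k : Vx d) : Vx d := fun i => (2 * (r : ℤ) + 1) * k i

theorem BKC_g_inj (r : ℕ) : Function.Injective (BKC_g r : Vx d → Vx d) := by
  intro k k' h
  funext i
  have h1 := congrFun h i
  have h2 : (2 * (r : ℤ) + 1) ≠ 0 := by positivity
  exact mul_left_cancel₀ h2 h1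

theorem BKC_g_nm {r K : ℕ} {k : Vx d} (hk : nm k ≤ K) : nm (BKC_g r k) ≤ (2 * r + 1) * K := by
  rw [G1_nm_le]
  intro i
  have h1 := G1_nm_le.1 hk i
  show ((2 * (r : ℤ) + 1) * k i).natAbs ≤ _
  rw [Int.natAbs_mul]
  have h2 : (2 * (r : ℤ) + 1).natAbs = 2 * r + 1 := by omega
  rw [h2]
  exact Nat.mul_le_mul_left _ h1

theorem BKC_g_disj {r : ℕ} {k k' : Vx d} (h : k ≠ k') :
    Disjoint (til r (BKC_g r k)) (til r (BKC_g r k')) := by
  rw [Set.disjoint_left]
  intro z hz hz'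
  apply h
  funext i
  have h1 := G1_nm_le.1 hz i
  have h2 := G1_nm_le.1 hz' i
  rw [Pi.sub_apply] at h1 h2
  have e1 : BKC_g r k i = (2 * (r : ℤ) + 1) * k i := rfl
  have e2 : BKC_g r k' i = (2 * (r : ℤ) + 1) * k' i := rfl
  rw [e1] at h1
  rw [e2] at h2
  have h3 : |(2 * (r : ℤ) + 1) * (k i - k' i)| ≤ 2 * r := by
    rw [abs_le]
    have h4 : (2 * (r : ℤ) + 1) * (k i - k' i) =
        (z i - (2 * (r : ℤ) + 1) * k' i) - (z i - (2 * (r : ℤ) + 1) * k i) := by ring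
    omega
  by_contra hne
  have h5 : 1 ≤ |k i - k' i| := Int.one_le_abs (sub_ne_zero.2 hne)
  rw [abs_mul, abs_of_pos (by positivity)] at h3
  nlinarith

theorem BKC_count (hd : 1 ≤ d) (r K : ℕ) (ω : Cf d) :
    ∑ k ∈ bx d K, (BKC_A r (BKC_g r k)).indicator (fun _ => (1 : ℝ)) ω ≤
      ((bdry d ((2 * r + 1) * K + r + 1)).card : ℝ) := by
  classical
  set X : Finset (Vx d) := ((bx d K).filter (fun k => ω ∈ BKC_A r (BKC_g r k))).image (BKC_g r)
    with hX
  have h1 : ∑ k ∈ bx d K, (BKC_A r (BKC_g r k)).indicator (fun _ => (1 : ℝ)) ω = (X.card : ℝ) := by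
    rw [hX, Finset.card_image_of_injective _ (BKC_g_inj r), Finset.card_filter, Nat.cast_sum]
    refine Finset.sum_congr rfl fun k _ => ?_
    by_cases h : ω ∈ BKC_A r (BKC_g r k)
    · rw [Set.indicator_of_mem h, if_pos h, Nat.cast_one]
    · rw [Set.indicator_of_notMem h, if_neg h, Nat.cast_zero]
  rw [h1]
  have hmem : ∀ x ∈ X, ∃ k, nm k ≤ K ∧ ω ∈ BKC_A r (BKC_g r k) ∧ BKC_g r k = x := by
    intro x hx
    obtain ⟨k, hk, hkx⟩ := Finset.mem_image.1 hx
    obtain ⟨h2, h3⟩ := Finset.mem_filter.1 hk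
    exact ⟨k, mem_bx.1 h2, h3, hkx⟩
  have h2 := bk_box hd (opn ω) r ((2 * r + 1) * K + r + 1) X ?_ ?_ ?_ ?_
  · exact_mod_cast h2
  · intro x hx
    obtain ⟨k, hk, -, rfl⟩ := hmem x hx
    have := BKC_g_nm (r := r) hk
    omega
  · intro x hx y hy hxy
    obtain ⟨k, -, -, rfl⟩ := hmem x hx
    obtain ⟨k', -, -, rfl⟩ := hmem y hy
    exact BKC_g_disj (fun h => hxy (by rw [h]))
  · intro x hx e he
    obtain ⟨k, -, h3, rfl⟩ := hmem x hx
    exact Set.mem_iInter.1 h3.2 e he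
  · intro x hx
    obtain ⟨k, -, h3, rfl⟩ := hmem x hx
    exact h3.1

theorem BKC_int (hd : 1 ≤ d) (ν : Measure (Cf d)) [IsProbabilityMeasure ν] (r K : ℕ) :
    ∑ k ∈ bx d K, ν.real (BKC_A r (BKC_g r k)) ≤
      ((bdry d ((2 * r + 1) * K + r + 1)).card : ℝ) := by
  have hi : ∀ k ∈ bx d K, Integrable
      (fun ω => (BKC_A r (BKC_g r k)).indicator (fun _ => (1 : ℝ)) ω) ν := by
    intro k _
    exact (integrable_const (1 : ℝ)).indicator (BKC_A_meas r _)
  have h1 : ∑ k ∈ bx d K, ν.real (BKC_A r (BKC_g r k)) =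
      ∫ ω, ∑ k ∈ bx d K, (BKC_A r (BKC_g r k)).indicator (fun _ => (1 : ℝ)) ω ∂ν := by
    rw [integral_finsetSum _ hi]
    refine Finset.sum_congr rfl fun k _ => ?_
    rw [integral_indicator_const _ (BKC_A_meas r _), smul_eq_mul, mul_one]
  rw [h1]
  have h2 : ∫ ω, ∑ k ∈ bx d K, (BKC_A r (BKC_g r k)).indicator (fun _ => (1 : ℝ)) ω ∂ν ≤
      ∫ _ω, ((bdry d ((2 * r + 1) * K + r + 1)).card : ℝ) ∂ν :=
    integral_mono (integrable_finsetSum _ hi) (integrable_const _)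
      (fun ω => BKC_count hd r K ω)
  rwa [integral_const, probReal_univ, one_smul] at h2

theorem BKC_bdry (hd : 1 ≤ d) {n : ℕ} (hn : 1 ≤ n) :
    ((bdry d n).card : ℝ) ≤ 2 * d * (2 * n + 1) ^ (d - 1) := by
  have h1 : (bdry d n).card + (bx d (n - 1)).card = (bx d n).card := by
    have h2 : bx d n = bdry d n ∪ bx d (n - 1) := by
      ext x
      rw [Finset.mem_union, mem_bx, mem_bx, mem_bdry hd]
      omega
    rw [h2, Finset.card_union_of_disjoint]
    rw [Finset.disjoint_left]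
    intro x hx hx'
    rw [mem_bdry hd] at hx
    rw [mem_bx] at hx'
    omega
  rw [card_bx, card_bx] at h1
  have h3 : ((bdry d n).card : ℝ) = (2 * n + 1) ^ d - (2 * n - 1) ^ d := by
    have h4 : (((bdry d n).card + (2 * (n - 1) + 1) ^ d : ℕ) : ℝ) = (((2 * n + 1) ^ d : ℕ) : ℝ) := by
      exact_mod_cast h1
    push_cast [Nat.cast_sub hn] at h4
    have h5 : (2 * ((n : ℝ) - 1) + 1) = 2 * n - 1 := by ring
    rw [h5] at h4
    linarith
  rw [h3]
  have hn' : (1 : ℝ) ≤ n := by exact_mod_cast hn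
  have hpos : (0 : ℝ) < 2 * n + 1 := by positivity
  have hb := one_add_mul_le_pow (a := -(2 / (2 * (n : ℝ) + 1))) (by
    rw [neg_le_neg_iff, div_le_iff₀ hpos]
    linarith) d
  have h6 : 1 + -(2 / (2 * (n : ℝ) + 1)) = (2 * n - 1) / (2 * n + 1) := by
    field_simp
    ring
  rw [h6, div_pow, le_div_iff₀ (by positivity)] at hb
  have h7 : (2 * (n : ℝ) + 1) ^ d = (2 * n + 1) ^ (d - 1) * (2 * n + 1) := by
    rw [← pow_succ]
    congr 1
    omega
  have h8 : (1 + (d : ℝ) * -(2 / (2 * (n : ℝ) + 1))) * (2 * n + 1) ^ d =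
      (2 * n + 1) ^ d - 2 * d * (2 * n + 1) ^ (d - 1) := by
    rw [h7]
    field_simp
    ring
  rw [h8] at hb
  linarith

theorem no_tri (hd : 1 ≤ d) (ν : Measure (Cf d)) [IsProbabilityMeasure ν] (hT : TI ν) (C : ℝ)
    (hC : 0 < C) (hI : INS ν C) (r : ℕ) : ν.real {ω : Cf d | Tri (opn ω) r 0} = 0 := by
  by_contra hne
  have h0 : 0 < ν.real {ω : Cf d | Tri (opn ω) r 0} := lt_of_le_of_ne measureReal_nonneg (Ne.symm hne)
  have hp := BKC_pos ν C hC hI r h0 (bE d r) (Finset.Subset.refl _)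
  set p := ν.real ({ω : Cf d | Tri (opn ω) r 0} ∩ up (bE d r)) with hpd
  have hA : ∀ x, p ≤ ν.real (BKC_A r x) := by
    intro x
    rw [hpd, ← hT x _ ((meas_Tri r 0).inter (lcl_measurable (lcl_up _)))]
    exact measureReal_mono (BKC_shift r x)
  have key : ∀ K : ℕ, (2 * (K : ℝ) + 1) * p ≤ 2 * d * (2 * r + 3) ^ (d - 1) := by
    intro K
    have h1 := BKC_int hd ν r K
    have h2 : ((2 * (K : ℝ) + 1) ^ d) * p ≤ ∑ k ∈ bx d K, ν.real (BKC_A r (BKC_g r k)) := by
      have h3 : ∑ _k ∈ bx d K, p ≤ ∑ k ∈ bx d K, ν.real (BKC_A r (BKC_g r k)) :=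
        Finset.sum_le_sum fun k _ => hA _
      rw [Finset.sum_const, card_bx, nsmul_eq_mul] at h3
      push_cast at h3
      exact h3
    have h4 := BKC_bdry hd (n := (2 * r + 1) * K + r + 1) (by omega)
    have h5 : (2 * (((2 * r + 1) * K + r + 1 : ℕ) : ℝ) + 1) ≤ (2 * r + 3) * (2 * K + 1) := by
      push_cast
      have : (0 : ℝ) ≤ K := Nat.cast_nonneg K
      nlinarith
    have h6 : (2 * (((2 * r + 1) * K + r + 1 : ℕ) : ℝ) + 1) ^ (d - 1) ≤
        ((2 * (r : ℝ) + 3) * (2 * K + 1)) ^ (d - 1) :=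
      pow_le_pow_left₀ (by positivity) h5 _
    have h7 : ((2 * (K : ℝ) + 1) ^ d) * p ≤ 2 * d * ((2 * (r : ℝ) + 3) * (2 * K + 1)) ^ (d - 1) :=
      (h2.trans h1).trans (h4.trans (mul_le_mul_of_nonneg_left h6 (by positivity)))
    have h8 : (2 * (K : ℝ) + 1) ^ d = (2 * K + 1) ^ (d - 1) * (2 * K + 1) := by
      rw [← pow_succ]
      congr 1
      omega
    rw [h8, mul_pow] at h7
    have h9 : (0 : ℝ) < (2 * K + 1) ^ (d - 1) := by positivity
    refine le_of_mul_le_mul_left ?_ h9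
    linarith
  obtain ⟨K, hK⟩ := exists_nat_gt (2 * d * (2 * (r : ℝ) + 3) ^ (d - 1) / p)
  rw [div_lt_iff₀ hp] at hK
  have h1 := key K
  have : (0 : ℝ) ≤ K := Nat.cast_nonneg K
  nlinarith

end H82.IC

end S_H82_IC_BKC

section S_H2_XY_REA

/-!
# REA: the problem's correlation is a Gibbs expectation over Haar measure

Proof.  `cos² φ = (1 + cos 2φ)/2`, so
`-Hclean/T = (1/T) ∑ (cos ...) + (1/(4hT)) ∑_x (1 + cos 2φ_x) = hTor L (1/T) (1/(4hT)) (θ mod 2π) + const`,
and the constant cancels in the quotient.  The map `ℝ → Cir` sends `volume.restrict (Ioc (-π) π)` to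
`volume = 2π • haarAddCircle` (`AddCircle.measurePreserving_mk (2π) (-π)`,
`AddCircle.volume_eq_smul_haarAddCircle`), so the product map sends
`volume.restrict (angles L)` to `(2π)^(2 L²) • haarP` (`measurePreserving_pi` twice,
`Measure.restrict_pi_pi`, `haarP_pi` twice, `haarP_cir`); the factor cancels in the quotient.
`angles L = pi univ (fun _ => pi univ fun _ => Ioc (-π) π)`.
-/

open MeasureTheory Set

noncomputable section

namespace XYB

/-- the angles modulo `2π` -/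
def REA_q {L : ℕ} (θ : Bool → ZMod L × ZMod L → ℝ) : Bool → ZMod L × ZMod L → Cir :=
  fun b x => ((θ b x : ℝ) : Cir)

lemma REA_angles (L : ℕ) : angles L = Set.univ.pi fun _ : Bool =>
    Set.univ.pi fun _ : ZMod L × ZMod L => Ioc (-Real.pi) Real.pi := by
  ext θ
  simp [angles]

lemma REA_mp (L : ℕ) [NeZero L] : MeasurePreserving (REA_q (L := L))
    (volume.restrict (angles L)) (volume : Measure (Bool → ZMod L × ZMod L → Cir)) := by
  have h1 : MeasurePreserving (fun t : ℝ => (t : Cir)) (volume.restrict (Ioc (-Real.pi) Real.pi))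
      (volume : Measure Cir) := by
    have h := AddCircle.measurePreserving_mk (2 * Real.pi) (-Real.pi)
    have e : -Real.pi + 2 * Real.pi = Real.pi := by ring
    rw [e] at h
    exact h
  have h2 : MeasurePreserving (fun (θ : ZMod L × ZMod L → ℝ) x => ((θ x : ℝ) : Cir))
      (Measure.pi fun _ => volume.restrict (Ioc (-Real.pi) Real.pi))
      (Measure.pi fun _ => (volume : Measure Cir)) :=
    measurePreserving_pi _ _ fun _ => h1
  have h3 : MeasurePreserving (fun (θ : Bool → ZMod L × ZMod L → ℝ) b x => ((θ b x : ℝ) : Cir))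
      (Measure.pi fun _ => Measure.pi fun _ => volume.restrict (Ioc (-Real.pi) Real.pi))
      (Measure.pi fun _ => Measure.pi fun _ => (volume : Measure Cir)) :=
    measurePreserving_pi _ _ fun _ => h2
  rw [REA_angles, volume_pi, Measure.restrict_pi_pi]
  simp_rw [volume_pi, Measure.restrict_pi_pi]
  exact h3

lemma REA_int (L : ℕ) [NeZero L] : ∃ c : ℝ, 0 < c ∧
    ∀ g : (Bool → ZMod L × ZMod L → Cir) → ℝ, Continuous g →
      ∫ θ in angles L, g (REA_q θ) = c * ∫ θ, g θ ∂haarP (Bool → ZMod L × ZMod L → Cir) := by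
  have hc := Measure.isAddInvariant_eq_smul_of_compactSpace
    (volume : Measure (Bool → ZMod L × ZMod L → Cir)) (haarP (Bool → ZMod L × ZMod L → Cir))
  refine ⟨Measure.addHaarScalarFactor (volume : Measure (Bool → ZMod L × ZMod L → Cir))
    (haarP (Bool → ZMod L × ZMod L → Cir)), ?_, fun g hg => ?_⟩
  · have i1 : (volume : Measure (ZMod L × ZMod L → Cir)).IsAddHaarMeasure :=
      Measure.pi.isAddHaarMeasure _
    have i2 : (volume : Measure (Bool → ZMod L × ZMod L → Cir)).IsAddHaarMeasure :=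
      Measure.pi.isAddHaarMeasure _
    exact_mod_cast Measure.addHaarScalarFactor_pos_of_isAddHaarMeasure _ _
  · have h1 : ∫ θ in angles L, g (REA_q θ) =
        ∫ θ, g θ ∂(volume : Measure (Bool → ZMod L × ZMod L → Cir)) := by
      have hm := REA_mp L
      rw [← hm.map_eq, integral_map hm.measurable.aemeasurable hg.aestronglyMeasurable]
    rw [h1]
    conv_lhs => rw [hc]
    rw [integral_smul_nnreal_measure]
    rfl

lemma REA_energy (L : ℕ) [NeZero L] (h T : ℝ) (hh : 0 < h) (hT : 0 < T)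
    (θ : Bool → ZMod L × ZMod L → ℝ) : -Hclean L h θ / T =
      hTor L (1 / T) (1 / (4 * h * T)) (REA_q θ) +
        ∑ _x : ZMod L × ZMod L, 1 / (4 * h * T) := by
  have e1 : ∀ (b : Bool) (x y : ZMod L × ZMod L),
      cosC (REA_q θ b y - REA_q θ b x) = Real.cos (θ b y - θ b x) := by
    intro b x y
    exact cosC_coe (θ b y - θ b x)
  have e2 : ∀ x : ZMod L × ZMod L, cosC (ph (REA_q θ) x + ph (REA_q θ) x) =
      2 * Real.cos (θ true x - θ false x) ^ 2 - 1 := by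
    intro x
    rw [cosC_two]
    have : cosC (ph (REA_q θ) x) = Real.cos (θ true x - θ false x) :=
      cosC_coe (θ true x - θ false x)
    rw [this]
  have e3 : ∀ x : ZMod L × ZMod L, 1 / (4 * h * T) * (2 * Real.cos (θ true x - θ false x) ^ 2 - 1) +
      1 / (4 * h * T) = 1 / T * (1 / (2 * h)) * Real.cos (θ true x - θ false x) ^ 2 := by
    intro x
    field_simp
    ring
  have e4 : ∑ x : ZMod L × ZMod L, 1 / (4 * h * T) * (2 * Real.cos (θ true x - θ false x) ^ 2 - 1) +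
      ∑ _x : ZMod L × ZMod L, 1 / (4 * h * T) =
      1 / T * (1 / (2 * h)) * ∑ x : ZMod L × ZMod L, Real.cos (θ true x - θ false x) ^ 2 := by
    rw [← Finset.sum_add_distrib, Finset.mul_sum]
    exact Finset.sum_congr rfl fun x _ => e3 x
  have e5 : ∀ b : Bool, ∑ x : ZMod L × ZMod L, (1 / T * Real.cos (θ b (x.1 + 1, x.2) - θ b x) +
      1 / T * Real.cos (θ b (x.1, x.2 + 1) - θ b x)) = 1 / T * ∑ x : ZMod L × ZMod L,
      (Real.cos (θ b (x.1 + 1, x.2) - θ b x) + Real.cos (θ b (x.1, x.2 + 1) - θ b x)) := by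
    intro b
    rw [Finset.mul_sum]
    exact Finset.sum_congr rfl fun x _ => by ring
  unfold hTor Hclean HXY
  simp only [e1, e2, e5, Fintype.sum_bool]
  rw [add_assoc _ _ (∑ _x : ZMod L × ZMod L, 1 / (4 * h * T)), e4]
  generalize (∑ x : ZMod L × ZMod L,
      (Real.cos (θ true (x.1 + 1, x.2) - θ true x) + Real.cos (θ true (x.1, x.2 + 1) - θ true x))) = A
  generalize (∑ x : ZMod L × ZMod L,
      (Real.cos (θ false (x.1 + 1, x.2) - θ false x) + Real.cos (θ false (x.1, x.2 + 1) - θ false x))) = B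
  generalize (∑ x : ZMod L × ZMod L, Real.cos (θ true x - θ false x) ^ 2) = C
  field_simp
  ring

theorem rea (L : ℕ) [NeZero L] (h T : ℝ) (hh : 0 < h) (hT : 0 < T) (x : ℤ × ℤ) :
    corr L h T x = gE (hTor L (1 / T) (1 / (4 * h * T)))
      (fun θ => cosC (ph θ 0) * cosC (ph θ ((x.1 : ZMod L), (x.2 : ZMod L)))) := by
  obtain ⟨c, hc, hint⟩ := REA_int L
  set y : ZMod L × ZMod L := ((x.1 : ZMod L), (x.2 : ZMod L)) with hy
  set S : ℝ := ∑ _x : ZMod L × ZMod L, 1 / (4 * h * T) with hS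
  have hph : ∀ v : ZMod L × ZMod L,
      Continuous fun θ : Bool → ZMod L × ZMod L → Cir => ph θ v := by
    intro v
    unfold ph
    fun_prop
  have hH : Continuous (hTor L (1 / T) (1 / (4 * h * T))) := by
    unfold hTor
    refine Continuous.add ?_ ?_
    · refine continuous_finsetSum _ fun b _ => continuous_finsetSum _ fun v _ => ?_
      refine Continuous.add ?_ ?_
      · exact continuous_const.mul (continuous_cosC.comp (by fun_prop))
      · exact continuous_const.mul (continuous_cosC.comp (by fun_prop))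
    · refine continuous_finsetSum _ fun v _ => ?_
      exact continuous_const.mul (continuous_cosC.comp ((hph v).add (hph v)))
  have hF : Continuous fun θ : Bool → ZMod L × ZMod L → Cir => cosC (ph θ 0) * cosC (ph θ y) :=
    (continuous_cosC.comp (hph 0)).mul (continuous_cosC.comp (hph y))
  have hE : Continuous fun θ : Bool → ZMod L × ZMod L → Cir =>
      Real.exp (hTor L (1 / T) (1 / (4 * h * T)) θ) := Real.continuous_exp.comp hH
  have h1 : ∫ θ in angles L, Real.exp (-Hclean L h θ / T) = Real.exp S *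
      (c * ∫ θ, Real.exp (hTor L (1 / T) (1 / (4 * h * T)) θ) ∂haarP _) := by
    rw [← hint _ hE, ← integral_const_mul]
    congr 1
    ext θ
    rw [REA_energy L h T hh hT θ, Real.exp_add, mul_comm]
  have h2 : ∫ θ in angles L, (Real.cos (θ true 0 - θ false 0) *
      Real.cos (θ true y - θ false y)) * Real.exp (-Hclean L h θ / T) = Real.exp S *
      (c * ∫ θ, (cosC (ph θ 0) * cosC (ph θ y)) *
        Real.exp (hTor L (1 / T) (1 / (4 * h * T)) θ) ∂haarP _) := by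
    rw [← hint (fun θ => cosC (ph θ 0) * cosC (ph θ y) *
      Real.exp (hTor L (1 / T) (1 / (4 * h * T)) θ)) (hF.mul hE), ← integral_const_mul]
    congr 1
    ext θ
    have k1 : ∀ v, cosC (ph (REA_q θ) v) = Real.cos (θ true v - θ false v) := fun v =>
      cosC_coe (θ true v - θ false v)
    rw [REA_energy L h T hh hT θ, Real.exp_add, k1, k1]
    ring
  unfold corr gibbs gE
  rw [h1, h2, mul_div_mul_left _ _ (Real.exp_pos S).ne', mul_div_mul_left _ _ hc.ne']

end XYB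

end
end S_H2_XY_REA

section S_H82_BX_A1

/-!
# A1: the bilayer model dominates the chain model on the torus

`rea`: `corr L h T x = gE (hTor L (1/T) (1/(4hT))) (cos ph_0 cos ph_x)` on `Y = Bool → ZMod L × ZMod L → Cir`.
`ι : Y →+ (SV → Cir)`: `ι θ (inl v) = ph θ v`, `ι θ (inr (e, false)) = ph θ (s e)`,
`ι θ (inr (e, true)) = θ true (s e) - θ false (r e)` (identify `v : Fin 2 → ZMod L` with `(v 0, v 1)`).  On the three links of `e` the differences are
`0`, `θ false (s e) - θ false (r e)`, `θ true (r e) - θ true (s e)`.  So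
`hS (TD L) b l (ι θ) = b ∑_e (1 + cos(dθ^-) + cos(dθ^+)) + 3 l ∑_v cos²(ph θ v)` (every `v` is `s e` for two edges), which is
`hTor L b (3l/2) θ + const` (`cosC_two`); `b = 1/T`, `l = 1/(6hT)`.  Constants cancel in `gE`.  Then `tie` (`gin_hS`, `gin_cc`).
-/

set_option autoImplicit false

open Finset MeasureTheory

namespace H82.BX

open H82.IC XYB

/-- point of the torus. -/
def toT (L : ℕ) (x : ℤ × ℤ) : Fin 2 → ZMod L := ![(x.1 : ZMod L), (x.2 : ZMod L)]

/-- the angles of the chain model as functions of the bilayer angles -/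
noncomputable def A1_f (L : ℕ) (θ : Bool → ZMod L × ZMod L → Cir) :
    SV (Fin 2 → ZMod L) ((Fin 2 → ZMod L) × Fin 2) → Cir
  | Sum.inl v => θ true (v 0, v 1) - θ false (v 0, v 1)
  | Sum.inr (e, false) => θ true (e.1 0, e.1 1) - θ false (e.1 0, e.1 1)
  | Sum.inr (e, true) => θ true (e.1 0, e.1 1) -
      θ false ((e.1 + Pi.single e.2 1 : Fin 2 → ZMod L) 0, (e.1 + Pi.single e.2 1 : Fin 2 → ZMod L) 1)

/-- the homomorphism -/
noncomputable def A1_i (L : ℕ) : (Bool → ZMod L × ZMod L → Cir) →+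
    (SV (Fin 2 → ZMod L) ((Fin 2 → ZMod L) × Fin 2) → Cir) where
  toFun := A1_f L
  map_zero' := by
    funext w
    rcases w with v | ⟨e, _ | _⟩ <;> simp [A1_f]
  map_add' := by
    intro θ η
    funext w
    rcases w with v | ⟨e, _ | _⟩ <;> simp only [A1_f, Pi.add_apply] <;> abel

theorem A1_cont (L : ℕ) : Continuous (A1_i L) := by
  show Continuous (A1_f L)
  refine continuous_pi fun w => ?_
  rcases w with v | ⟨e, _ | _⟩ <;> simp only [A1_f] <;> fun_prop

theorem A1_link (L : ℕ) [NeZero L] (b : ℝ) (θ : Bool → ZMod L × ZMod L → Cir)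
    (e : (Fin 2 → ZMod L) × Fin 2) :
    ∑ j : Fin 3, b * cosC (A1_f L θ ((LK (TD L)).r (e, j)) - A1_f L θ ((LK (TD L)).s (e, j))) =
      b + b * cosC (θ false ((e.1 + Pi.single e.2 1 : Fin 2 → ZMod L) 0,
          (e.1 + Pi.single e.2 1 : Fin 2 → ZMod L) 1) - θ false (e.1 0, e.1 1)) +
        b * cosC (θ true ((e.1 + Pi.single e.2 1 : Fin 2 → ZMod L) 0,
          (e.1 + Pi.single e.2 1 : Fin 2 → ZMod L) 1) - θ true (e.1 0, e.1 1)) := by
  rw [Fin.sum_univ_three]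
  have h0 : A1_f L θ ((LK (TD L)).r (e, 0)) - A1_f L θ ((LK (TD L)).s (e, 0)) = 0 := by
    show (θ true (e.1 0, e.1 1) - θ false (e.1 0, e.1 1)) -
      (θ true (e.1 0, e.1 1) - θ false (e.1 0, e.1 1)) = 0
    abel
  have h1 : A1_f L θ ((LK (TD L)).r (e, 1)) - A1_f L θ ((LK (TD L)).s (e, 1)) =
      -(θ false ((e.1 + Pi.single e.2 1 : Fin 2 → ZMod L) 0,
          (e.1 + Pi.single e.2 1 : Fin 2 → ZMod L) 1) - θ false (e.1 0, e.1 1)) := by
    show (θ true (e.1 0, e.1 1) - θ false ((e.1 + Pi.single e.2 1 : Fin 2 → ZMod L) 0,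
          (e.1 + Pi.single e.2 1 : Fin 2 → ZMod L) 1)) -
      (θ true (e.1 0, e.1 1) - θ false (e.1 0, e.1 1)) = _
    abel
  have h2 : A1_f L θ ((LK (TD L)).r (e, 2)) - A1_f L θ ((LK (TD L)).s (e, 2)) =
      (θ true ((e.1 + Pi.single e.2 1 : Fin 2 → ZMod L) 0,
          (e.1 + Pi.single e.2 1 : Fin 2 → ZMod L) 1) - θ true (e.1 0, e.1 1)) := by
    show (θ true ((e.1 + Pi.single e.2 1 : Fin 2 → ZMod L) 0,
          (e.1 + Pi.single e.2 1 : Fin 2 → ZMod L) 1) -
        θ false ((e.1 + Pi.single e.2 1 : Fin 2 → ZMod L) 0,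
          (e.1 + Pi.single e.2 1 : Fin 2 → ZMod L) 1)) -
      (θ true (e.1 0, e.1 1) - θ false ((e.1 + Pi.single e.2 1 : Fin 2 → ZMod L) 0,
          (e.1 + Pi.single e.2 1 : Fin 2 → ZMod L) 1)) = _
    abel
  rw [h0, h1, h2, cosC_neg, cosC_zero, mul_one]

theorem A1_shift (L : ℕ) (v : Fin 2 → ZMod L) (i : Fin 2) :
    (((v + Pi.single i 1 : Fin 2 → ZMod L) 0, (v + Pi.single i 1 : Fin 2 → ZMod L) 1) :
      ZMod L × ZMod L) = if i = 0 then (v 0 + 1, v 1) else (v 0, v 1 + 1) := by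
  fin_cases i <;> simp

theorem A1_sum (L : ℕ) [NeZero L] (f : ZMod L × ZMod L → ℝ) :
    ∑ v : Fin 2 → ZMod L, f (v 0, v 1) = ∑ x : ZMod L × ZMod L, f x :=
  Fintype.sum_equiv (finTwoArrowEquiv (ZMod L)) _ _ fun _ => rfl

theorem A1_energy (L : ℕ) [NeZero L] (b l : ℝ) (θ : Bool → ZMod L × ZMod L → Cir) :
    hS (TD L) b l (A1_f L θ) = hTor L b (3 * l / 2) θ +
      ∑ _x : ZMod L × ZMod L, (2 * b + 3 * l / 2) := by
  have e1 : hG (LK (TD L)) (fun _ => b) (A1_f L θ) =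
      ∑ x : ZMod L × ZMod L, (2 * b + ∑ c : Bool,
        (b * cosC (θ c (x.1 + 1, x.2) - θ c x) + b * cosC (θ c (x.1, x.2 + 1) - θ c x))) := by
    unfold hG
    rw [Fintype.sum_prod_type]
    simp only [A1_link]
    rw [Fintype.sum_prod_type, ← A1_sum L]
    refine Finset.sum_congr rfl fun v _ => ?_
    simp only [A1_shift]
    rw [Fin.sum_univ_two, Fintype.sum_bool]
    simp only [Fin.isValue, if_true, one_ne_zero, if_false]
    ring
  have e2 : ∑ w : SV (Fin 2 → ZMod L) ((Fin 2 → ZMod L) × Fin 2),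
      l * pn w * cosC (A1_f L θ w) ^ 2 =
      ∑ x : ZMod L × ZMod L, 3 * l * cosC (θ true x - θ false x) ^ 2 := by
    rw [Fintype.sum_sum_type, Fintype.sum_prod_type]
    simp only [Fintype.sum_bool]
    rw [Fintype.sum_prod_type, ← A1_sum L, ← Finset.sum_add_distrib]
    refine Finset.sum_congr rfl fun v _ => ?_
    rw [Fin.sum_univ_two]
    simp only [pn, A1_f]
    ring
  unfold hS hTor
  rw [e1, e2]
  have e3 : ∀ x : ZMod L × ZMod L, 3 * l * cosC (θ true x - θ false x) ^ 2 =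
      3 * l / 2 * cosC (ph θ x + ph θ x) + 3 * l / 2 := by
    intro x
    rw [cosC_two]
    show _ = 3 * l / 2 * (2 * cosC (θ true x - θ false x) ^ 2 - 1) + 3 * l / 2
    ring
  simp only [e3]
  rw [Finset.sum_comm (s := (univ : Finset Bool))]
  simp only [Finset.sum_add_distrib]
  ring

theorem A1_gE_const {X : Type*} [AddCommGroup X] [TopologicalSpace X] [IsTopologicalAddGroup X]
    [CompactSpace X] [MeasurableSpace X] [BorelSpace X] (H F : X → ℝ) (c : ℝ) :
    gE (fun x => H x + c) F = gE H F := by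
  unfold gE
  have h1 : (fun x : X => F x * Real.exp (H x + c)) =
      fun x => Real.exp c * (F x * Real.exp (H x)) := by
    funext x
    rw [Real.exp_add]
    ring
  have h2 : (fun x : X => Real.exp (H x + c)) = fun x => Real.exp c * Real.exp (H x) := by
    funext x
    rw [Real.exp_add]
    ring
  rw [h1, h2, integral_const_mul, integral_const_mul, mul_div_mul_left _ _ (Real.exp_pos c).ne']

theorem a1 (L : ℕ) [NeZero L] (h T : ℝ) (hh : 0 < h) (hT : 0 < T) (x : ℤ × ℤ) :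
    gE (hS (TD L) (1 / T) (1 / (6 * h * T)))
      (fun θ => cosC (θ (Sum.inl 0)) * cosC (θ (Sum.inl (toT L x)))) ≤ corr L h T x := by
  have hdiv : ∀ y : Bool → ZMod L × ZMod L → Cir, ∃ z, z + z = y := by
    intro y
    choose z hz using fun b => cir_pi_div (y b)
    exact ⟨z, funext hz⟩
  have h1 := tie hdiv (A1_i L) (A1_cont L) (hS (TD L) (1 / T) (1 / (6 * h * T)))
    (fun θ => cosC (θ (Sum.inl 0)) * cosC (θ (Sum.inl (toT L x))))
    (gin_hS (TD L) (1 / T) (1 / (6 * h * T)) (by positivity) (by positivity))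
    (gin_cc (Sum.inl 0) (Sum.inl (toT L x)))
  refine h1.trans (le_of_eq ?_)
  rw [rea L h T hh hT x]
  have h2 : (fun y => hS (TD L) (1 / T) (1 / (6 * h * T)) (A1_i L y)) =
      fun y => hTor L (1 / T) (1 / (4 * h * T)) y +
        ∑ _x : ZMod L × ZMod L, (2 * (1 / T) + 3 * (1 / (6 * h * T)) / 2) := by
    funext y
    have h3 := A1_energy L (1 / T) (1 / (6 * h * T)) y
    have h4 : 3 * (1 / (6 * h * T)) / 2 = 1 / (4 * h * T) := by
      field_simp
      ring
    rw [h4] at h3 ⊢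
    exact h3
  rw [h2, A1_gE_const]
  rfl

end H82.BX

end S_H82_BX_A1
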