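import Mathlib
import Pool.Agent.H82.BXM.G01
import Pool.Agent.H82.BXM.G04
import Pool.Agent.H82.BXM.G08

/-! MP_26628e_mp: this file joins several modules to save build time. -/

section S_H82_BX_DU1

/-!
# DU1: duality for the chained triangular box

`du0` for the graph `C6 (TB n)`.  A flow `J : ↥(EN n) × Fin 6 → ℤ` has zero divergence at the inner vertex `inr (e, j)` iff `J (e, j) = J (e, j+1)`; so the flows without divergence are the
`(e, j) ↦ J0 e` with `dv (TB n) J0 = 0` (the divergence at `inl v` is the one of `J0`), and `poi` parametrises `J0` by heights.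
-/

set_option autoImplicit false

open Finset MeasureTheory

namespace H82.BX

open H82.IC XYB

section DU1aux
variable {V E : Type} [Fintype V] [DecidableEq V] [Fintype E] [DecidableEq E]

theorem DU1_r_inr (G : Gr V E) (l : E × Fin 6) (e : E) (j : Fin 5) :
    (C6 G).r l = Sum.inr (e, j) ↔ l = (e, j.castSucc) := by
  obtain ⟨e', k⟩ := l
  obtain ⟨k, hk⟩ := k
  obtain ⟨j, hj⟩ := j
  simp only [C6]
  split_ifs with h
  · constructor
    · intro hh
      exact absurd hh (by simp)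
    · intro hh
      have h2 := congrArg (fun l => l.2.val) hh
      simp only [Fin.castSucc_mk] at h2
      omega
  · simp only [Sum.inr.injEq, Prod.mk.injEq, Fin.mk.injEq, Fin.castSucc_mk]

theorem DU1_s_inr (G : Gr V E) (l : E × Fin 6) (e : E) (j : Fin 5) :
    (C6 G).s l = Sum.inr (e, j) ↔ l = (e, j.succ) := by
  obtain ⟨e', k⟩ := l
  obtain ⟨k, hk⟩ := k
  obtain ⟨j, hj⟩ := j
  simp only [C6]
  split_ifs with h
  · constructor
    · intro hh
      exact absurd hh (by simp)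
    · intro hh
      have h2 := congrArg (fun l => l.2.val) hh
      simp only [Fin.succ_mk] at h2
      omega
  · simp only [Sum.inr.injEq, Prod.mk.injEq, Fin.mk.injEq, Fin.succ_mk]
    constructor
    · rintro ⟨h1, h2⟩
      exact ⟨h1, by omega⟩
    · rintro ⟨h1, h2⟩
      exact ⟨h1, by omega⟩

theorem DU1_r_inl (G : Gr V E) (e : E) (j : Fin 6) (v : V) :
    (C6 G).r (e, j) = Sum.inl v ↔ (G.r e = v ∧ j = 5) := by
  obtain ⟨k, hk⟩ := j
  simp only [C6]
  split_ifs with h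
  · subst h
    simp only [Sum.inl.injEq]
    constructor
    · intro h1
      exact ⟨h1, rfl⟩
    · intro h1
      exact h1.1
  · constructor
    · intro hh
      exact absurd hh (by simp)
    · rintro ⟨_, hh⟩
      have h2 := congrArg (fun l : Fin 6 => l.val) hh
      simp only at h2 h
      exact absurd h2 h

theorem DU1_s_inl (G : Gr V E) (e : E) (j : Fin 6) (v : V) :
    (C6 G).s (e, j) = Sum.inl v ↔ (G.s e = v ∧ j = 0) := by
  obtain ⟨k, hk⟩ := j
  simp only [C6]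
  split_ifs with h
  · subst h
    simp only [Sum.inl.injEq]
    constructor
    · intro h1
      exact ⟨h1, rfl⟩
    · intro h1
      exact h1.1
  · constructor
    · intro hh
      exact absurd hh (by simp)
    · rintro ⟨_, hh⟩
      have h2 := congrArg (fun l : Fin 6 => l.val) hh
      simp only at h2 h
      exact absurd h2 h

theorem DU1_dv_inr (G : Gr V E) (J : E × Fin 6 → ℤ) (e : E) (j : Fin 5) :
    dv (C6 G) J (Sum.inr (e, j)) = J (e, j.castSucc) - J (e, j.succ) := by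
  unfold dv
  rw [Finset.sum_sub_distrib]
  simp only [DU1_r_inr, DU1_s_inr, Finset.sum_ite_eq', Finset.mem_univ, if_true]

theorem DU1_dv_inl (G : Gr V E) (J : E × Fin 6 → ℤ) (v : V) :
    dv (C6 G) J (Sum.inl v) =
      ∑ e, ((if G.r e = v then J (e, 5) else 0) - (if G.s e = v then J (e, 0) else 0)) := by
  unfold dv
  rw [Fintype.sum_prod_type]
  refine Finset.sum_congr rfl fun e _ => ?_
  rw [Finset.sum_sub_distrib]
  simp only [DU1_r_inl, DU1_s_inl]
  congr 1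
  · by_cases h : G.r e = v
    · simp [h]
    · simp [h]
  · by_cases h : G.s e = v
    · simp [h]
    · simp [h]

theorem DU1_const (G : Gr V E) (J : E × Fin 6 → ℤ) (h : ∀ v, dv (C6 G) J v = 0) (e : E)
    (j : Fin 6) : J (e, j) = J (e, 0) := by
  have h1 : ∀ i : Fin 5, J (e, i.succ) = J (e, i.castSucc) := by
    intro i
    have h2 := h (Sum.inr (e, i))
    rw [DU1_dv_inr] at h2
    omega
  induction j using Fin.induction with
  | zero => rfl
  | succ i ih => rw [h1 i, ih]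

theorem DU1_iff (G : Gr V E) (J : E × Fin 6 → ℤ) :
    (∀ v, dv (C6 G) J v = 0) ↔
      ∃ J0 : E → ℤ, (∀ v, dv G J0 v = 0) ∧ ∀ l, J l = J0 l.1 := by
  constructor
  · intro h
    refine ⟨fun e => J (e, 0), ?_, fun l => DU1_const G J h l.1 l.2⟩
    intro v
    have h1 := h (Sum.inl v)
    rw [DU1_dv_inl] at h1
    simp only [DU1_const G J h] at h1
    exact h1
  · rintro ⟨J0, h0, h1⟩ v
    rcases v with v | ⟨e, j⟩
    · rw [DU1_dv_inl]
      simp only [h1]
      exact h0 v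
    · rw [DU1_dv_inr, h1, h1]
      simp only [sub_self]

end DU1aux

theorem du1 (n : ℕ) (g : (↥(EN n) × Fin 6) → Cir → ℂ) (a : (↥(EN n) × Fin 6) → ℤ → ℂ)
    (ha : ∀ l, Summable (fun m => ‖a l m‖))
    (hg : ∀ l x, HasSum (fun m : ℤ => a l m * fourier m x) (g l x)) :
    Summable (fun h : ↥(FN n) → ℤ => ‖∏ e : ↥(EN n), ∏ j : Fin 6, a (e, j) (dh (ex h) e.1)‖) ∧
    ∫ θ, ∏ l, g l (θ ((C6 (TB n)).r l) - θ ((C6 (TB n)).s l)) ∂haarP (↥(bx 2 n) ⊕ (↥(EN n) × Fin 5) → Cir) =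
      ∑' h : ↥(FN n) → ℤ, ∏ e : ↥(EN n), ∏ j : Fin 6, a (e, j) (dh (ex h) e.1) := by
  obtain ⟨φ, hφ⟩ := poi n
  obtain ⟨hs, hi⟩ := du0 (C6 (TB n)) g a ha hg
  set ψ : (↥(FN n) → ℤ) → (↥(EN n) × Fin 6 → ℤ) := fun h l => dh (ex h) l.1.1 with hψ
  have hinj : Function.Injective ψ := by
    intro h h' hh
    apply φ.injective
    apply Subtype.ext
    funext e
    rw [hφ, hφ]
    exact congrFun hh (e, 0)
  have hran : ∀ J : ↥(EN n) × Fin 6 → ℤ, (∀ v, dv (C6 (TB n)) J v = 0) ↔ J ∈ Set.range ψ := by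
    intro J
    rw [DU1_iff]
    constructor
    · rintro ⟨J0, h0, h1⟩
      refine ⟨φ.symm ⟨J0, h0⟩, ?_⟩
      funext l
      simp only [hψ]
      rw [← hφ, Equiv.apply_symm_apply, h1]
    · rintro ⟨h, rfl⟩
      refine ⟨(φ h).1, (φ h).2, fun l => ?_⟩
      rw [hφ]
  have hprod : ∀ h : ↥(FN n) → ℤ, ∏ l, a l (ψ h l) =
      ∏ e : ↥(EN n), ∏ j : Fin 6, a (e, j) (dh (ex h) e.1) := by
    intro h
    rw [Fintype.prod_prod_type]
  constructor
  · have h1 := hs.comp_injective hinj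
    refine h1.congr fun h => ?_
    simp only [Function.comp_apply]
    rw [hprod]
  · rw [hi]
    have h2 : ∀ h : ↥(FN n) → ℤ, (∏ e : ↥(EN n), ∏ j : Fin 6, a (e, j) (dh (ex h) e.1)) =
        (fun J : ↥(EN n) × Fin 6 → ℤ =>
          if (∀ v, dv (C6 (TB n)) J v = 0) then ∏ e, a e (J e) else 0) (ψ h) := by
      intro h
      have h3 : ∀ v, dv (C6 (TB n)) (ψ h) v = 0 := (hran (ψ h)).2 ⟨h, rfl⟩
      simp only [if_pos h3]
      rw [hprod]
    rw [tsum_congr h2]
    refine (hinj.tsum_eq ?_).symm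
    intro J hJ
    rw [Function.mem_support] at hJ
    by_contra hc
    apply hJ
    exact if_neg (fun hc2 => hc ((hran J).1 hc2))

end H82.BX

end S_H82_BX_DU1

section S_H82_BX_BES

/-!
# BES: Fourier coefficients of `exp (κ cos x)`

`bI κ n = ∫ cos(n t) e^{κ cos t}` is the `n`-th Fourier coefficient (the function is real and even).  Series: expanding
`e^{κ cos t} = e^{κ e^{it}/2} e^{κ e^{-it}/2} = ∑_{j,k} (κ/2)^{j+k}/(j! k!) e^{i(j-k)t}` (absolutely convergent double series) gives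
`bI κ n = ∑_{k} (κ/2)^{2k+|n|}/(k! (k+|n|)!)`, positive for `κ > 0`, and `bI 0 n = 1[n = 0]`.
Bound: `bI κ n ≤ (κ/2)^{|n|}/|n|! · e^{κ²/4}`, so all moments are summable.
`bes_fourier`: the double series grouped by `n = j - k`.
-/

set_option autoImplicit false

open Finset MeasureTheory

namespace H82.BX

open H82.IC XYB

lemma bes_fou_cos (n : ℤ) (t : Cir) :
    (fourier n t : ℂ) = (cosC (n • t) : ℂ) + (sinC (n • t) : ℂ) * Complex.I := by
  induction t using cir_ind with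
  | h x =>
    rw [fourier_coe_apply, ← AddCircle.coe_zsmul, cosC_coe, sinC_coe]
    rw [show (2 * (Real.pi : ℂ) * Complex.I * n * x / ((2 * Real.pi : ℝ) : ℂ)) =
      ((n • x : ℝ) : ℂ) * Complex.I by
        have : (Real.pi : ℂ) ≠ 0 := by exact_mod_cast Real.pi_ne_zero
        rw [zsmul_eq_mul]
        push_cast
        field_simp]
    rw [Complex.exp_mul_I]
    simp

lemma bes_fou_one_add (t : Cir) : (fourier 1 t : ℂ) + fourier (-1) t = 2 * (cosC t : ℂ) := by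
  rw [bes_fou_cos, bes_fou_cos]
  simp
  ring

lemma bes_fou_pow (m : ℤ) (j : ℕ) (t : Cir) : (fourier m t : ℂ) ^ j = fourier (m * j) t := by
  induction j with
  | zero => simp
  | succ j ih =>
    rw [pow_succ, ih, ← fourier_add, show m * (j : ℤ) + m = m * ((j + 1 : ℕ) : ℤ) by push_cast; ring]

noncomputable def bes_cf (κ : ℝ) (p : ℕ × ℕ) : ℝ :=
  (κ / 2) ^ p.1 / p.1.factorial * ((κ / 2) ^ p.2 / p.2.factorial)

lemma bes_summ_cf (κ : ℝ) : Summable (fun p : ℕ × ℕ => |bes_cf κ p|) := by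
  have h : Summable (fun j : ℕ => ‖(κ / 2) ^ j / (j.factorial : ℝ)‖) :=
    (Real.summable_pow_div_factorial (κ / 2)).norm
  have := h.mul_norm h
  refine this.congr fun p => ?_
  rw [bes_cf, Real.norm_eq_abs]

lemma bes_cexp_hs (z : ℂ) : HasSum (fun n : ℕ => z ^ n / n.factorial) (Complex.exp z) := by
  rw [Complex.exp_eq_exp_ℂ]
  exact NormedSpace.expSeries_div_hasSum_exp z

lemma bes_cexp_hs2 (z w : ℂ) :
    HasSum (fun p : ℕ × ℕ => z ^ p.1 / p.1.factorial * (w ^ p.2 / p.2.factorial))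
      (Complex.exp z * Complex.exp w) := by
  have hs : Summable (fun p : ℕ × ℕ => (fun n : ℕ => z ^ n / (n.factorial : ℂ)) p.1 *
      (fun n : ℕ => w ^ n / (n.factorial : ℂ)) p.2) :=
    summable_mul_of_summable_norm (f := fun n : ℕ => z ^ n / (n.factorial : ℂ))
      (g := fun n : ℕ => w ^ n / (n.factorial : ℂ)) (NormedSpace.norm_expSeries_div_summable z)
      (NormedSpace.norm_expSeries_div_summable w)
  exact HasSum.mul (f := fun n : ℕ => z ^ n / (n.factorial : ℂ))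
    (g := fun n : ℕ => w ^ n / (n.factorial : ℂ)) (bes_cexp_hs z) (bes_cexp_hs w) hs

lemma bes_dbl (κ : ℝ) (t : Cir) :
    HasSum (fun p : ℕ × ℕ => (bes_cf κ p : ℂ) * fourier ((p.1 : ℤ) - p.2) t)
      (Real.exp (κ * cosC t) : ℂ) := by
  have h := bes_cexp_hs2 ((κ / 2 : ℂ) * fourier 1 t) ((κ / 2 : ℂ) * fourier (-1) t)
  have e : Complex.exp ((κ / 2 : ℂ) * fourier 1 t) * Complex.exp ((κ / 2 : ℂ) * fourier (-1) t)
      = (Real.exp (κ * cosC t) : ℂ) := by
    rw [← Complex.exp_add, ← mul_add, bes_fou_one_add, Complex.ofReal_exp]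
    congr 1
    push_cast
    ring
  rw [e] at h
  have e2 : (fun p : ℕ × ℕ => (bes_cf κ p : ℂ) * (fourier ((p.1 : ℤ) - p.2) t : ℂ)) =
      fun p : ℕ × ℕ => ((κ / 2 : ℂ) * fourier 1 t) ^ p.1 / p.1.factorial *
        (((κ / 2 : ℂ) * fourier (-1) t) ^ p.2 / p.2.factorial) := by
    funext p
    rw [mul_pow, mul_pow, bes_fou_pow, bes_fou_pow, bes_cf]
    rw [show ((p.1 : ℤ) - p.2) = 1 * p.1 + (-1) * p.2 by ring, fourier_add]
    push_cast
    ring
  rw [e2]
  exact h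

/-- integral of a character -/
lemma bes_int_fou (n : ℤ) : ∫ t : Cir, (fourier n t : ℂ) ∂haarP Cir = if n = 0 then 1 else 0 := by
  have h := congrFun (fourierCoeff_fourier (T := 2 * Real.pi) n) 0
  rw [fourierCoeff] at h
  simp only [neg_zero, fourier_zero, one_smul] at h
  rw [haarP_cir, h, Pi.single_apply]
  simp only [eq_comm]

lemma bes_cont_E (κ : ℝ) : Continuous (fun t : Cir => Real.exp (κ * cosC t)) :=
  Real.continuous_exp.comp (continuous_const.mul continuous_cosC)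

lemma bes_integrable_C (f : Cir → ℂ) (hf : Continuous f) : Integrable f (haarP Cir) :=
  hf.integrable_of_hasCompactSupport (HasCompactSupport.of_compactSpace f)

lemma bes_coef (κ : ℝ) (n : ℤ) :
    HasSum (fun p : ℕ × ℕ => (((bes_cf κ p) * (if (p.1 : ℤ) - p.2 = n then 1 else 0) : ℝ) : ℂ))
      (∫ t : Cir, (fourier (-n) t : ℂ) * (Real.exp (κ * cosC t) : ℂ) ∂haarP Cir) := by
  have h := hasSum_integral_of_summable_integral_norm (μ := haarP Cir)
    (F := fun (p : ℕ × ℕ) (t : Cir) => (bes_cf κ p : ℂ) * (fourier ((p.1 : ℤ) - p.2 - n) t : ℂ))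
    (fun p => bes_integrable_C _ (continuous_const.mul (map_continuous _))) (by
      refine (bes_summ_cf κ).congr fun p => ?_
      simp [Circle.norm_coe])
  have e1 : ∀ p : ℕ × ℕ, ∫ t : Cir, (bes_cf κ p : ℂ) * (fourier ((p.1 : ℤ) - p.2 - n) t : ℂ) ∂haarP Cir
      = (((bes_cf κ p) * (if (p.1 : ℤ) - p.2 = n then 1 else 0) : ℝ) : ℂ) := by
    intro p
    rw [integral_const_mul, bes_int_fou]
    by_cases hp : (p.1 : ℤ) - p.2 = n
    · simp [hp]
    · rw [if_neg (sub_ne_zero.2 hp), if_neg hp]; simp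
  have e2 : ∀ t : Cir, ∑' p : ℕ × ℕ, (bes_cf κ p : ℂ) * (fourier ((p.1 : ℤ) - p.2 - n) t : ℂ) =
      (fourier (-n) t : ℂ) * (Real.exp (κ * cosC t) : ℂ) := by
    intro t
    rw [← ((bes_dbl κ t).mul_left (fourier (-n) t : ℂ)).tsum_eq]
    refine tsum_congr fun p => ?_
    rw [sub_eq_add_neg _ n, fourier_add]
    ring
  simp_rw [e1, e2] at h
  exact h

lemma bes_bI_re (κ : ℝ) (n : ℤ) :
    bI κ n = (∫ t : Cir, (fourier (-n) t : ℂ) * (Real.exp (κ * cosC t) : ℂ) ∂haarP Cir).re := by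
  have hi : Integrable (fun t : Cir => (fourier (-n) t : ℂ) * (Real.exp (κ * cosC t) : ℂ))
      (haarP Cir) :=
    bes_integrable_C _ ((map_continuous _).mul (Complex.continuous_ofReal.comp (bes_cont_E κ)))
  have h := integral_re hi
  rw [bI]
  simp only [RCLike.re_to_complex] at h
  rw [← h]
  refine integral_congr_ae (ae_of_all _ fun t => ?_)
  simp only
  rw [Complex.re_mul_ofReal, bes_fou_cos]
  simp

lemma bes_coefR (κ : ℝ) (n : ℤ) :
    HasSum (fun p : ℕ × ℕ => (bes_cf κ p) * (if (p.1 : ℤ) - p.2 = n then 1 else 0)) (bI κ n) := by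
  rw [bes_bI_re]
  have h := Complex.hasSum_re (bes_coef κ n)
  simpa using h

lemma bes_coefC (κ : ℝ) (n : ℤ) :
    (∫ t : Cir, (fourier (-n) t : ℂ) * (Real.exp (κ * cosC t) : ℂ) ∂haarP Cir) = (bI κ n : ℂ) :=
  (bes_coef κ n).unique (Complex.hasSum_ofReal.2 (bes_coefR κ n))

theorem bI_series (κ : ℝ) (n : ℕ) :
    HasSum (fun k : ℕ => (κ / 2) ^ (2 * k + n) / (k.factorial * (k + n).factorial)) (bI κ n) := by
  have h := bes_coefR κ n
  have hinj : Function.Injective (fun k : ℕ => ((k + n, k) : ℕ × ℕ)) := by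
    intro a b hab
    exact (Prod.ext_iff.1 hab).2
  rw [← hinj.hasSum_iff] at h
  · have e : (fun k : ℕ => (κ / 2) ^ (2 * k + n) / (k.factorial * (k + n).factorial : ℝ)) =
        (fun p : ℕ × ℕ => (bes_cf κ p) * (if (p.1 : ℤ) - p.2 = n then 1 else 0)) ∘
          (fun k : ℕ => ((k + n, k) : ℕ × ℕ)) := by
      funext k
      simp only [Function.comp, bes_cf]
      rw [if_pos (by push_cast; ring), show 2 * k + n = (k + n) + k by ring, pow_add (κ / 2) (k + n) k]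
      field_simp
    rw [e]
    exact h
  · intro p hp
    rw [if_neg, mul_zero]
    intro hpn
    apply hp
    exact ⟨p.2, Prod.ext (by simp only; omega) rfl⟩

theorem bI_neg (κ : ℝ) (n : ℤ) : bI κ (-n) = bI κ n := by
  unfold bI
  simp only [neg_zsmul, cosC_neg]

theorem bI_pos (κ : ℝ) (hκ : 0 < κ) (n : ℤ) : 0 < bI κ n := by
  have key : ∀ m : ℕ, 0 < bI κ m := by
    intro m
    have h := bI_series κ m
    rw [← h.tsum_eq]
    refine h.summable.tsum_pos (fun k => ?_) 0 ?_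
    · positivity
    · positivity
  obtain ⟨m, rfl | rfl⟩ := n.eq_nat_or_neg
  · exact key m
  · rw [bI_neg]; exact key m

theorem bI_zero (n : ℤ) : bI 0 n = if n = 0 then 1 else 0 := by
  rw [bes_bI_re]
  simp only [zero_mul, Real.exp_zero, Complex.ofReal_one, mul_one]
  rw [bes_int_fou]
  by_cases h : n = 0
  · simp [h]
  · simp [h]

theorem bI_nonneg (κ : ℝ) (hκ : 0 ≤ κ) (n : ℤ) : 0 ≤ bI κ n := by
  rcases hκ.eq_or_lt with rfl | h
  · rw [bI_zero]; split_ifs <;> norm_num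
  · exact (bI_pos κ h n).le

lemma bes_bI_le (κ : ℝ) (hκ : 0 ≤ κ) (n : ℕ) :
    bI κ n ≤ (κ / 2) ^ n / n.factorial * Real.exp ((κ / 2) ^ 2) := by
  have h := bI_series κ n
  have h2 : HasSum (fun k : ℕ => (κ / 2) ^ n / n.factorial * (((κ / 2) ^ 2) ^ k / k.factorial))
      ((κ / 2) ^ n / n.factorial * Real.exp ((κ / 2) ^ 2)) := by
    refine HasSum.mul_left _ ?_
    rw [Real.exp_eq_exp_ℝ]
    exact NormedSpace.expSeries_div_hasSum_exp _
  refine hasSum_le (fun k => ?_) h h2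
  rw [div_mul_div_comm, ← pow_mul, ← pow_add, show n + 2 * k = 2 * k + n by ring]
  refine div_le_div_of_nonneg_left (by positivity) (by positivity) ?_
  rw [mul_comm (n.factorial : ℝ)]
  refine mul_le_mul_of_nonneg_left ?_ (by positivity)
  exact_mod_cast Nat.factorial_le (Nat.le_add_left n k)

lemma bes_summ_nat (κ : ℝ) (hκ : 0 ≤ κ) (k : ℕ) : Summable (fun n : ℕ => (n : ℝ) ^ k * bI κ n) := by
  have h1 : Summable (fun n : ℕ => ((k.factorial : ℝ) * Real.exp ((κ / 2) ^ 2)) *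
      ((Real.exp 1 * (κ / 2)) ^ n / n.factorial)) :=
    (Real.summable_pow_div_factorial _).mul_left _
  refine Summable.of_nonneg_of_le (fun n => mul_nonneg (by positivity) (bI_nonneg κ hκ n))
    (fun n => ?_) h1
  have h2 := bes_bI_le κ hκ n
  have h3 : (n : ℝ) ^ k ≤ k.factorial * Real.exp 1 ^ n := by
    have := Real.pow_div_factorial_le_exp (x := (n : ℝ)) (Nat.cast_nonneg n) k
    rw [div_le_iff₀ (by positivity)] at this
    rw [Real.exp_one_pow]
    linarith [this]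
  calc (n : ℝ) ^ k * bI κ n ≤ (k.factorial * Real.exp 1 ^ n) *
        ((κ / 2) ^ n / n.factorial * Real.exp ((κ / 2) ^ 2)) :=
        mul_le_mul h3 h2 (bI_nonneg κ hκ n) (by positivity)
    _ = _ := by rw [mul_pow]; ring

theorem bI_summ (κ : ℝ) (hκ : 0 ≤ κ) (k : ℕ) : Summable (fun n : ℤ => |(n : ℝ)| ^ k * bI κ n) := by
  refine Summable.of_nat_of_neg ?_ ?_
  · refine (bes_summ_nat κ hκ k).congr fun n => ?_
    simp
  · refine (bes_summ_nat κ hκ k).congr fun n => ?_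
    rw [bI_neg]
    simp

lemma bes_fcoef (κ : ℝ) (n : ℤ) :
    fourierCoeff (T := 2 * Real.pi) (fun t : Cir => (Real.exp (κ * cosC t) : ℂ)) n = (bI κ n : ℂ) := by
  rw [← bes_coefC, fourierCoeff, haarP_cir]
  simp only [smul_eq_mul]

theorem bes_fourier (κ : ℝ) (hκ : 0 ≤ κ) (x : Cir) :
    HasSum (fun n : ℤ => (bI κ n : ℂ) * fourier n x) (Real.exp (κ * cosC x) : ℂ) := by
  let f : C(Cir, ℂ) := ⟨fun t : Cir => (Real.exp (κ * cosC t) : ℂ),
    Complex.continuous_ofReal.comp (bes_cont_E κ)⟩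
  have hf : ∀ n, fourierCoeff (T := 2 * Real.pi) f n = (bI κ n : ℂ) := fun n => bes_fcoef κ n
  have hs : Summable (fourierCoeff (T := 2 * Real.pi) f) := by
    have h0 := bI_summ κ hκ 0
    simp only [pow_zero, one_mul] at h0
    refine (Complex.summable_ofReal.2 h0).congr fun n => ?_
    rw [hf]
  have h := has_pointwise_sum_fourier_series_of_summable (T := 2 * Real.pi) hs x
  simp only [hf, smul_eq_mul] at h
  exact h


lemma bes_rec_nat (κ : ℝ) (n : ℕ) :
    κ / 2 * bI κ n - κ / 2 * bI κ ((n + 2 : ℕ) : ℤ) = ((n : ℝ) + 1) * bI κ ((n + 1 : ℕ) : ℤ) := by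
  have h0 := (bI_series κ n).mul_left (κ / 2)
  have h2 := (bI_series κ (n + 2)).mul_left (κ / 2)
  have h1 := (bI_series κ (n + 1)).mul_left ((n : ℝ) + 1)
  have h3 : HasSum (fun k : ℕ => (k : ℝ) * ((κ / 2) ^ (2 * k + (n + 1)) /
      (k.factorial * (k + (n + 1)).factorial))) (κ / 2 * bI κ ((n + 2 : ℕ) : ℤ)) := by
    have := (hasSum_nat_add_iff (f := fun k : ℕ => (k : ℝ) * ((κ / 2) ^ (2 * k + (n + 1)) /
      (k.factorial * (k + (n + 1)).factorial))) 1 (g := κ / 2 * bI κ ((n + 2 : ℕ) : ℤ))).1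
    simp only [Finset.sum_range_one, Nat.cast_zero, zero_mul, add_zero] at this
    apply this
    have e : (fun k : ℕ => ((k + 1 : ℕ) : ℝ) * ((κ / 2) ^ (2 * (k + 1) + (n + 1)) /
        ((k + 1).factorial * (k + 1 + (n + 1)).factorial))) =
        fun k : ℕ => κ / 2 * ((κ / 2) ^ (2 * k + (n + 2)) / (k.factorial * (k + (n + 2)).factorial)) := by
      funext k
      rw [show k + 1 + (n + 1) = k + (n + 2) by ring, Nat.factorial_succ k,
        show 2 * (k + 1) + (n + 1) = (2 * k + (n + 2)) + 1 by ring, pow_succ]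
      have h1 : ((k + 1 : ℕ) : ℝ) ≠ 0 := by positivity
      have h2 : (k.factorial : ℝ) ≠ 0 := by positivity
      have h3 : ((k + (n + 2)).factorial : ℝ) ≠ 0 := by positivity
      push_cast at h1 ⊢
      field_simp
    rw [e]
    exact h2
  have h4 : HasSum (fun k : ℕ => ((k : ℝ) + (n + 1)) * ((κ / 2) ^ (2 * k + (n + 1)) /
      (k.factorial * (k + (n + 1)).factorial))) (κ / 2 * bI κ n) := by
    have e : (fun k : ℕ => ((k : ℝ) + (n + 1)) * ((κ / 2) ^ (2 * k + (n + 1)) /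
      (k.factorial * (k + (n + 1)).factorial))) =
        fun k : ℕ => κ / 2 * ((κ / 2) ^ (2 * k + n) / (k.factorial * (k + n).factorial)) := by
      funext k
      rw [← add_assoc k n 1, Nat.factorial_succ (k + n), ← add_assoc (2 * k) n 1, pow_succ]
      have h1 : ((k : ℝ) + n + 1) ≠ 0 := by positivity
      have h2 : (k.factorial : ℝ) ≠ 0 := by positivity
      have h3 : ((k + n).factorial : ℝ) ≠ 0 := by positivity
      push_cast
      field_simp
      ring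
    rw [e]
    exact h0
  have h5 := h4.sub h3
  refine h5.unique ?_
  have e : (fun k : ℕ => ((k : ℝ) + (n + 1)) * ((κ / 2) ^ (2 * k + (n + 1)) /
      (k.factorial * (k + (n + 1)).factorial)) - (k : ℝ) * ((κ / 2) ^ (2 * k + (n + 1)) /
      (k.factorial * (k + (n + 1)).factorial))) = fun k : ℕ => ((n : ℝ) + 1) *
      ((κ / 2) ^ (2 * k + (n + 1)) / (k.factorial * (k + (n + 1)).factorial)) := by
    funext k
    ring
  rw [e]
  exact h1

lemma bes_rec (κ : ℝ) (n : ℤ) :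
    κ / 2 * bI κ (n - 1) - κ / 2 * bI κ (n + 1) = (n : ℝ) * bI κ n := by
  have key : ∀ m : ℕ, κ / 2 * bI κ (m - 1) - κ / 2 * bI κ (m + 1) = (m : ℝ) * bI κ m := by
    intro m
    cases m with
    | zero =>
      have := bI_neg κ 1
      simp only [Nat.cast_zero, zero_sub, zero_add, zero_mul]
      rw [this, sub_self]
    | succ m =>
      have h := bes_rec_nat κ m
      push_cast at h ⊢
      rw [add_sub_cancel_right, show (m : ℤ) + 1 + 1 = m + 2 by ring]
      exact h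
  obtain ⟨m, rfl | rfl⟩ := n.eq_nat_or_neg
  · exact_mod_cast key m
  · have h := key m
    rw [bI_neg, show -(m : ℤ) - 1 = -(m + 1) by ring, bI_neg, show -(m : ℤ) + 1 = -(m - 1) by ring,
      bI_neg]
    push_cast
    linarith

/-- derivative of the series: `∑ n I_n e^{inx} = -i (d/dx) e^{κ cos x} = i κ sin x e^{κ cos x}`. -/
theorem bes_fourier' (κ : ℝ) (hκ : 0 ≤ κ) (x : Cir) :
    HasSum (fun n : ℤ => ((n : ℂ) * bI κ n) * fourier n x)
      (Complex.I * (κ * sinC x * Real.exp (κ * cosC x) : ℝ)) := by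
  have h := bes_fourier κ hκ x
  have hp : HasSum (fun n : ℤ => (bI κ (n - 1) : ℂ) * (fourier n x : ℂ))
      ((fourier 1 x : ℂ) * (Real.exp (κ * cosC x) : ℂ)) := by
    have h1 := h.mul_left (fourier 1 x : ℂ)
    rw [← (Equiv.addRight (-1 : ℤ)).hasSum_iff] at h1
    have e : (fun n : ℤ => (bI κ (n - 1) : ℂ) * (fourier n x : ℂ)) =
        (fun n : ℤ => (fourier 1 x : ℂ) * ((bI κ n : ℂ) * (fourier n x : ℂ))) ∘
          (Equiv.addRight (-1 : ℤ)) := by
      funext n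
      simp only [Function.comp, Equiv.coe_addRight]
      rw [← sub_eq_add_neg]
      conv_lhs => rw [show n = 1 + (n - 1) by ring, fourier_add]
      rw [show 1 + (n - 1) - 1 = n - 1 by ring]
      ring
    rw [e]
    exact h1
  have hm : HasSum (fun n : ℤ => (bI κ (n + 1) : ℂ) * (fourier n x : ℂ))
      ((fourier (-1) x : ℂ) * (Real.exp (κ * cosC x) : ℂ)) := by
    have h1 := h.mul_left (fourier (-1) x : ℂ)
    rw [← (Equiv.addRight (1 : ℤ)).hasSum_iff] at h1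
    have e : (fun n : ℤ => (bI κ (n + 1) : ℂ) * (fourier n x : ℂ)) =
        (fun n : ℤ => (fourier (-1) x : ℂ) * ((bI κ n : ℂ) * (fourier n x : ℂ))) ∘
          (Equiv.addRight (1 : ℤ)) := by
      funext n
      simp only [Function.comp, Equiv.coe_addRight]
      conv_lhs => rw [show n = -1 + (n + 1) by ring, fourier_add]
      rw [show -1 + (n + 1) + 1 = n + 1 by ring]
      ring
    rw [e]
    exact h1
  have h2 := (hp.sub hm).mul_left (κ / 2 : ℂ)
  have e1 : (fun n : ℤ => ((n : ℂ) * bI κ n) * (fourier n x : ℂ)) =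
      fun n : ℤ => (κ / 2 : ℂ) * ((bI κ (n - 1) : ℂ) * (fourier n x : ℂ) -
        (bI κ (n + 1) : ℂ) * (fourier n x : ℂ)) := by
    funext n
    have hr : ((κ / 2 : ℂ) * (bI κ (n - 1) : ℂ) - (κ / 2 : ℂ) * (bI κ (n + 1) : ℂ)) =
        (n : ℂ) * bI κ n := by
      exact_mod_cast congrArg (fun r : ℝ => (r : ℂ)) (bes_rec κ n)
    rw [← hr]
    ring
  have e2 : (Complex.I * (κ * sinC x * Real.exp (κ * cosC x) : ℝ)) =
      (κ / 2 : ℂ) * ((fourier 1 x : ℂ) * (Real.exp (κ * cosC x) : ℂ) -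
        (fourier (-1) x : ℂ) * (Real.exp (κ * cosC x) : ℂ)) := by
    rw [bes_fou_cos, bes_fou_cos]
    simp
    ring
  rw [e1, e2]
  exact h2

end H82.BX

end S_H82_BX_BES

section S_H82_BX_BE2

/-!
# BE2: log-concavity of `n ↦ I_n(κ)`, and `I_1/I_0 → 1`

Log-concavity: with `s = a + b`, `t = a - b` one gets
`2 (I_n² - I_{n-1} I_{n+1}) = ∫∫ (cos 2na (1 - cos 2b) + cos 2nb (1 - cos 2a)) e^{2κ cos a cos b}`
and `∫ cos 2na e^{x cos a} da ≥ 0` for all real `x` (`x ↦ -x` is the translation of `a` by `π`).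
-/

set_option autoImplicit false

open Finset MeasureTheory

namespace H82.BX

open H82.IC XYB

lemma be2_cont (κ : ℝ) (n : ℤ) : Continuous fun t : Cir => cosC (n • t) * Real.exp (κ * cosC t) :=
  (continuous_cosC.comp (continuous_zsmul n)).mul
    (Real.continuous_exp.comp (continuous_const.mul continuous_cosC))

lemma be2_smul2 {G : Type} [AddCommGroup G] (n : ℤ) (x : G) (h : (2 : ℤ) • x = 0) :
    (2 * n) • x = 0 := by
  rw [mul_comm, mul_smul, h, smul_zero]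

/-- translation by `π`. -/
lemma be2_neg (κ : ℝ) (n : ℤ) : bI (-κ) (2 * n) = bI κ (2 * n) := by
  unfold bI
  rw [← integral_add_const (fun t : Cir => cosC ((2 * n) • t) * Real.exp (κ * cosC t)) ((Real.pi : ℝ) : Cir)]
  congr 1
  ext t
  have h1 : (2 * n) • (t + ((Real.pi : ℝ) : Cir)) = (2 * n) • t := by
    rw [smul_add]
    have : (2 * n) • ((Real.pi : ℝ) : Cir) = 0 := by
      have h2 : (2 : ℤ) • ((Real.pi : ℝ) : Cir) = 0 := by
        rw [← AddCircle.coe_zsmul]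
        have : (2 : ℤ) • Real.pi = 2 * Real.pi := by simp
        rw [this]
        exact AddCircle.coe_period _
      exact be2_smul2 n _ h2
    rw [this, add_zero]
  have h2 : cosC (t + ((Real.pi : ℝ) : Cir)) = - cosC t := by
    rw [cosC_add]; simp
  rw [h1, h2]
  congr 2
  ring

lemma be2_even_nonneg (x : ℝ) (n : ℤ) : 0 ≤ bI x (2 * n) := by
  rcases le_total 0 x with h | h
  · exact bI_nonneg x h _
  · rw [← be2_neg]
    exact bI_nonneg _ (by linarith) _

/-- the homomorphism `(a, b) ↦ (a + b, a - b)`. -/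
noncomputable def be2phi : Cir × Cir →+ Cir × Cir where
  toFun p := (p.1 + p.2, p.1 - p.2)
  map_zero' := by simp
  map_add' p q := by
    ext1
    · simp only [Prod.fst_add, Prod.snd_add]; abel
    · simp only [Prod.fst_add, Prod.snd_add]; abel

lemma be2phi_cont : Continuous be2phi := by
  change Continuous (fun p : Cir × Cir => (p.1 + p.2, p.1 - p.2))
  fun_prop

lemma be2phi_surj : Function.Surjective be2phi := by
  rintro ⟨s, t⟩
  obtain ⟨a, ha⟩ := cir_div (s + t)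
  refine ⟨(a, s - a), ?_⟩
  change (a + (s - a), a - (s - a)) = (s, t)
  ext1
  · simp
  · change a - (s - a) = t
    have : a - (s - a) = (a + a) - s := by abel
    rw [this, ha]; abel

/-- the reflection `(a, b) ↦ (-a, b)`. -/
noncomputable def be2psi : Cir × Cir →+ Cir × Cir where
  toFun p := (-p.1, p.2)
  map_zero' := by simp
  map_add' p q := by
    ext1
    · simp only [Prod.fst_add]; abel
    · simp only [Prod.snd_add]

lemma be2psi_cont : Continuous be2psi := by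
  change Continuous (fun p : Cir × Cir => (-p.1, p.2))
  fun_prop

lemma be2psi_surj : Function.Surjective be2psi := by
  rintro ⟨s, t⟩
  refine ⟨(-s, t), ?_⟩
  change (- -s, t) = (s, t)
  simp

lemma be2_mul (κ : ℝ) (n m : ℤ) : bI κ n * bI κ m =
    ∫ p : Cir × Cir, cosC (n • p.1) * cosC (m • p.2) * Real.exp (κ * (cosC p.1 + cosC p.2))
      ∂haarP (Cir × Cir) := by
  unfold bI
  rw [haarP_prod, ← integral_prod_mul]
  congr 1
  ext p
  rw [mul_add, Real.exp_add]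
  ring

lemma be2_smul {G : Type} [AddCommGroup G] (n : ℤ) (a b : G) :
    n • (a + b) + n • (a - b) = (2 * n) • a ∧
    n • (a + b) - n • (a - b) = (2 * n) • b ∧
    (n - 1) • (a + b) + (n + 1) • (a - b) = (2 * n) • a - (b + b) ∧
    (n - 1) • (a + b) - (n + 1) • (a - b) = (2 * n) • b - (a + a) ∧
    n • (-a + b) + n • (-a - b) = -((2 * n) • a) ∧
    n • (-a + b) - n • (-a - b) = (2 * n) • b ∧
    (n - 1) • (-a + b) + (n + 1) • (-a - b) = -((2 * n) • a + (b + b)) ∧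
    (n - 1) • (-a + b) - (n + 1) • (-a - b) = (2 * n) • b + (a + a) := by
  refine ⟨?_, ?_, ?_, ?_, ?_, ?_, ?_, ?_⟩ <;> module

lemma be2_trig (n : ℤ) (a b : Cir) :
    (cosC (n • (a + b)) * cosC (n • (a - b)) - cosC ((n - 1) • (a + b)) * cosC ((n + 1) • (a - b))) +
      (cosC (n • (-a + b)) * cosC (n • (-a - b)) -
        cosC ((n - 1) • (-a + b)) * cosC ((n + 1) • (-a - b))) =
      cosC ((2 * n) • a) * (1 - cosC (b + b)) + cosC ((2 * n) • b) * (1 - cosC (a + a)) := by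
  have key : ∀ s t : Cir, cosC s * cosC t = (cosC (s + t) + cosC (s - t)) / 2 := by
    intro s t
    rw [cosC_add, cosC_sub]; ring
  obtain ⟨e1, e2, e3, e4, e5, e6, e7, e8⟩ := be2_smul n a b
  rw [key, key (_ • _) (_ • (a - b)), key (n • (-a + b)), key (_ • (-a + b)), e1, e2, e3, e4, e5, e6,
    e7, e8, cosC_neg, cosC_neg, cosC_sub, cosC_sub, cosC_add ((2 * n) • a), cosC_add ((2 * n) • b)]
  ring

lemma be2_exp (κ : ℝ) (a b : Cir) : κ * (cosC (a + b) + cosC (a - b)) = 2 * κ * cosC b * cosC a := by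
  rw [cosC_add, cosC_sub]; ring

lemma be2_fub (κ : ℝ) (n : ℤ) :
    0 ≤ ∫ p : Cir × Cir, (1 - cosC (p.2 + p.2)) *
      (cosC ((2 * n) • p.1) * Real.exp (2 * κ * cosC p.2 * cosC p.1)) ∂haarP (Cir × Cir) := by
  have hc : Continuous fun p : Cir × Cir => (1 - cosC (p.2 + p.2)) *
      (cosC ((2 * n) • p.1) * Real.exp (2 * κ * cosC p.2 * cosC p.1)) := by
    have c1 : Continuous fun p : Cir × Cir => cosC (p.2 + p.2) :=
      continuous_cosC.comp (continuous_snd.add continuous_snd)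
    have c2 : Continuous fun p : Cir × Cir => cosC ((2 * n) • p.1) :=
      continuous_cosC.comp ((continuous_zsmul _).comp continuous_fst)
    have c3 : Continuous fun p : Cir × Cir => cosC p.2 := continuous_cosC.comp continuous_snd
    have c4 : Continuous fun p : Cir × Cir => cosC p.1 := continuous_cosC.comp continuous_fst
    fun_prop
  have hi := integrable_cont _ hc
  rw [haarP_prod] at hi ⊢
  rw [integral_prod_symm _ hi]
  apply integral_nonneg
  intro b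
  change 0 ≤ ∫ a, (1 - cosC (b + b)) * (cosC ((2 * n) • a) * Real.exp (2 * κ * cosC b * cosC a))
    ∂haarP Cir
  rw [integral_const_mul]
  exact mul_nonneg (by linarith [cosC_le_one (b + b)]) (be2_even_nonneg _ _)

lemma be2_fub' (κ : ℝ) (n : ℤ) :
    0 ≤ ∫ p : Cir × Cir, (1 - cosC (p.1 + p.1)) *
      (cosC ((2 * n) • p.2) * Real.exp (2 * κ * cosC p.1 * cosC p.2)) ∂haarP (Cir × Cir) := by
  have hc : Continuous fun p : Cir × Cir => (1 - cosC (p.1 + p.1)) *
      (cosC ((2 * n) • p.2) * Real.exp (2 * κ * cosC p.1 * cosC p.2)) := by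
    have c1 : Continuous fun p : Cir × Cir => cosC (p.1 + p.1) :=
      continuous_cosC.comp (continuous_fst.add continuous_fst)
    have c2 : Continuous fun p : Cir × Cir => cosC ((2 * n) • p.2) :=
      continuous_cosC.comp ((continuous_zsmul _).comp continuous_snd)
    have c3 : Continuous fun p : Cir × Cir => cosC p.2 := continuous_cosC.comp continuous_snd
    have c4 : Continuous fun p : Cir × Cir => cosC p.1 := continuous_cosC.comp continuous_fst
    fun_prop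
  have hi := integrable_cont _ hc
  rw [haarP_prod] at hi ⊢
  rw [integral_prod _ hi]
  apply integral_nonneg
  intro b
  change 0 ≤ ∫ a, (1 - cosC (b + b)) * (cosC ((2 * n) • a) * Real.exp (2 * κ * cosC b * cosC a))
    ∂haarP Cir
  rw [integral_const_mul]
  exact mul_nonneg (by linarith [cosC_le_one (b + b)]) (be2_even_nonneg _ _)

theorem bI_lc (κ : ℝ) (hκ : 0 ≤ κ) (n : ℤ) : bI κ (n - 1) * bI κ (n + 1) ≤ bI κ n ^ 2 := by
  have _ := hκ
  set f : Cir × Cir → ℝ := fun p => (cosC (n • p.1) * cosC (n • p.2) -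
    cosC ((n - 1) • p.1) * cosC ((n + 1) • p.2)) * Real.exp (κ * (cosC p.1 + cosC p.2)) with hf
  have cc : ∀ m : ℤ, Continuous fun p : Cir × Cir => cosC (m • p.1) := fun m =>
    continuous_cosC.comp ((continuous_zsmul _).comp continuous_fst)
  have cd : ∀ m : ℤ, Continuous fun p : Cir × Cir => cosC (m • p.2) := fun m =>
    continuous_cosC.comp ((continuous_zsmul _).comp continuous_snd)
  have c3 : Continuous fun p : Cir × Cir => cosC p.2 := continuous_cosC.comp continuous_snd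
  have c4 : Continuous fun p : Cir × Cir => cosC p.1 := continuous_cosC.comp continuous_fst
  have ce : Continuous fun p : Cir × Cir => Real.exp (κ * (cosC p.1 + cosC p.2)) := by fun_prop
  have hfc : Continuous f := by
    have a1 := cc n
    have a2 := cc (n - 1)
    have a3 := cd n
    have a4 := cd (n + 1)
    exact ((a1.mul a3).sub (a2.mul a4)).mul ce
  have h1 : bI κ n ^ 2 - bI κ (n - 1) * bI κ (n + 1) = ∫ p, f p ∂haarP (Cir × Cir) := by
    rw [sq, be2_mul, be2_mul, ← integral_sub]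
    · congr 1
      ext p
      simp only [hf]
      ring
    · exact integrable_cont _ (((cc n).mul (cd n)).mul ce)
    · exact integrable_cont _ (((cc (n - 1)).mul (cd (n + 1))).mul ce)
  have h2 : ∫ p, f p ∂haarP (Cir × Cir) = ∫ p, f (be2phi p) ∂haarP (Cir × Cir) :=
    (integral_comp_surj be2phi be2phi_cont be2phi_surj f hfc).symm
  have h3 : ∫ p, f (be2phi p) ∂haarP (Cir × Cir) = ∫ p, f (be2phi (be2psi p)) ∂haarP (Cir × Cir) :=
    (integral_comp_surj be2psi be2psi_cont be2psi_surj (fun p => f (be2phi p))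
      (hfc.comp be2phi_cont)).symm
  have i1 : Integrable (fun p => f (be2phi p)) (haarP (Cir × Cir)) :=
    integrable_cont _ (hfc.comp be2phi_cont)
  have i2 : Integrable (fun p => f (be2phi (be2psi p))) (haarP (Cir × Cir)) :=
    integrable_cont _ ((hfc.comp be2phi_cont).comp be2psi_cont)
  have h4 : (∫ p, f (be2phi p) ∂haarP (Cir × Cir)) + ∫ p, f (be2phi (be2psi p)) ∂haarP (Cir × Cir) =
      (∫ p : Cir × Cir, (1 - cosC (p.2 + p.2)) *
        (cosC ((2 * n) • p.1) * Real.exp (2 * κ * cosC p.2 * cosC p.1)) ∂haarP (Cir × Cir)) +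
      ∫ p : Cir × Cir, (1 - cosC (p.1 + p.1)) *
        (cosC ((2 * n) • p.2) * Real.exp (2 * κ * cosC p.1 * cosC p.2)) ∂haarP (Cir × Cir) := by
    have g1 : Continuous fun p : Cir × Cir => cosC (p.1 + p.1) :=
      continuous_cosC.comp (continuous_fst.add continuous_fst)
    have g2 : Continuous fun p : Cir × Cir => cosC (p.2 + p.2) :=
      continuous_cosC.comp (continuous_snd.add continuous_snd)
    have g3 := cc (2 * n)
    have g4 := cd (2 * n)
    rw [← integral_add i1 i2, ← integral_add]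
    · congr 1
      ext p
      obtain ⟨a, b⟩ := p
      have t := be2_trig n a b
      have x1 := be2_exp κ a b
      have x2 : κ * (cosC (-a + b) + cosC (-a - b)) = 2 * κ * cosC b * cosC a := by
        rw [be2_exp, cosC_neg]
      change (cosC (n • (a + b)) * cosC (n • (a - b)) -
          cosC ((n - 1) • (a + b)) * cosC ((n + 1) • (a - b))) *
            Real.exp (κ * (cosC (a + b) + cosC (a - b))) +
        (cosC (n • (-a + b)) * cosC (n • (-a - b)) -
          cosC ((n - 1) • (-a + b)) * cosC ((n + 1) • (-a - b))) *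
            Real.exp (κ * (cosC (-a + b) + cosC (-a - b))) =
        (1 - cosC (b + b)) * (cosC ((2 * n) • a) * Real.exp (2 * κ * cosC b * cosC a)) +
        (1 - cosC (a + a)) * (cosC ((2 * n) • b) * Real.exp (2 * κ * cosC a * cosC b))
      rw [x1, x2, ← add_mul, t, show 2 * κ * cosC a * cosC b = 2 * κ * cosC b * cosC a by ring]
      ring
    · exact integrable_cont _ (by fun_prop)
    · exact integrable_cont _ (by fun_prop)
  have p1 := be2_fub κ n
  have p2 := be2_fub' κ n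
  linarith

lemma bI_zero' (κ : ℝ) : bI κ 0 = I0 κ := by
  unfold bI I0
  simp

theorem bI_one_lt (κ : ℝ) (hκ : 0 ≤ κ) : bI κ 1 < bI κ 0 := by
  have _ := hκ
  have hc1 := be2_cont κ 1
  have hc0 := be2_cont κ 0
  have h : 0 < ∫ t : Cir, (1 - cosC t) * Real.exp (κ * cosC t) ∂haarP Cir := by
    have hc : Continuous fun t : Cir => (1 - cosC t) * Real.exp (κ * cosC t) := by
      have := continuous_cosC
      fun_prop
    refine hc.integral_pos_of_hasCompactSupport_nonneg_nonzero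
      (HasCompactSupport.of_compactSpace _) (fun t => ?_) (x := ((Real.pi : ℝ) : Cir)) ?_
    · exact mul_nonneg (by linarith [cosC_le_one t]) (Real.exp_pos _).le
    · simp only [cosC_coe, Real.cos_pi]
      have := Real.exp_pos (κ * -1)
      positivity
  have e : bI κ 0 - bI κ 1 = ∫ t : Cir, (1 - cosC t) * Real.exp (κ * cosC t) ∂haarP Cir := by
    unfold bI
    rw [← integral_sub (integrable_cont _ hc0) (integrable_cont _ hc1)]
    congr 1
    ext t
    simp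
    ring
  linarith

theorem bI_ratio : ∃ κ : ℝ, 0 < κ ∧ 1 / 2 ≤ (bI κ 1 / bI κ 0) ^ 6 := by
  obtain ⟨p, hp, hb⟩ := i0b (39 / 40) (by norm_num)
  set κ : ℝ := 1600 / p with hκd
  have hκ : 0 < κ := by positivity
  refine ⟨κ, hκ, ?_⟩
  have hI := hb κ hκ.le
  have hI0 : 0 < bI κ 0 := by
    rw [bI_zero']
    have := Real.exp_pos (κ * (39 / 40))
    nlinarith
  have hc1 := be2_cont κ 1
  have hc0 := be2_cont κ 0
  -- pointwise bound
  have hpt : ∀ t : Cir, (1 - cosC t) * Real.exp (κ * cosC t) ≤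
      (1 / 20) * Real.exp (κ * cosC t) + 2 * Real.exp (κ * (19 / 20)) := by
    intro t
    have l1 := cosC_le_one t
    have l2 := neg_one_le_cosC t
    have e1 := Real.exp_pos (κ * cosC t)
    have e2 := Real.exp_pos (κ * (19 / 20))
    by_cases h : 1 - cosC t ≤ 1 / 20
    · nlinarith
    · push Not at h
      have : Real.exp (κ * cosC t) ≤ Real.exp (κ * (19 / 20)) :=
        Real.exp_le_exp.2 (by nlinarith)
      nlinarith
  have e : bI κ 0 - bI κ 1 = ∫ t : Cir, (1 - cosC t) * Real.exp (κ * cosC t) ∂haarP Cir := by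
    unfold bI
    rw [← integral_sub (integrable_cont _ hc0) (integrable_cont _ hc1)]
    congr 1
    ext t
    simp
    ring
  have hle : bI κ 0 - bI κ 1 ≤ (1 / 20) * bI κ 0 + 2 * Real.exp (κ * (19 / 20)) := by
    rw [e, bI_zero']
    have hcc : Continuous fun t : Cir => Real.exp (κ * cosC t) := by
      have := continuous_cosC
      fun_prop
    have hca : Continuous fun t : Cir => (1 - cosC t) * Real.exp (κ * cosC t) := by
      have := continuous_cosC
      fun_prop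
    calc ∫ t : Cir, (1 - cosC t) * Real.exp (κ * cosC t) ∂haarP Cir
        ≤ ∫ t : Cir, ((1 / 20) * Real.exp (κ * cosC t) + 2 * Real.exp (κ * (19 / 20))) ∂haarP Cir := by
          apply integral_mono (integrable_cont _ hca) (integrable_cont _ (by fun_prop))
          intro t
          exact hpt t
      _ = (1 / 20) * I0 κ + 2 * Real.exp (κ * (19 / 20)) := by
          rw [integral_add (integrable_cont _ (by fun_prop)) (integrable_const _),
            integral_const_mul]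
          simp [I0]
  have hexp : 2 * Real.exp (κ * (19 / 20)) ≤ (1 / 20) * bI κ 0 := by
    rw [bI_zero']
    have h1 : Real.exp (κ * (39 / 40)) = Real.exp (κ * (19 / 20)) * Real.exp (κ / 40) := by
      rw [← Real.exp_add]; congr 1; ring
    have h2 : κ / 40 + 1 ≤ Real.exp (κ / 40) := Real.add_one_le_exp _
    have h3 : p * (κ / 40) = 40 := by
      rw [hκd]; field_simp; norm_num
    have h4 : 40 ≤ p * Real.exp (κ / 40) := by nlinarith
    have h5 := Real.exp_pos (κ * (19 / 20))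
    have h6 : 40 * Real.exp (κ * (19 / 20)) ≤ I0 κ := by
      calc 40 * Real.exp (κ * (19 / 20)) ≤ (p * Real.exp (κ / 40)) * Real.exp (κ * (19 / 20)) := by
            exact mul_le_mul_of_nonneg_right h4 h5.le
        _ = p * Real.exp (κ * (39 / 40)) := by rw [h1]; ring
        _ ≤ I0 κ := hI
    linarith
  have hr : 9 / 10 ≤ bI κ 1 / bI κ 0 := by
    rw [le_div_iff₀ hI0]
    linarith
  calc (1 / 2 : ℝ) ≤ (9 / 10) ^ 6 := by norm_num
    _ ≤ (bI κ 1 / bI κ 0) ^ 6 := pow_le_pow_left₀ (by norm_num) hr 6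

lemma bI_le_zero (κ : ℝ) (n : ℤ) : bI κ n ≤ bI κ 0 := by
  unfold bI
  apply integral_mono (integrable_cont _ (be2_cont κ n)) (integrable_cont _ (be2_cont κ 0))
  intro t
  have e1 := Real.exp_pos (κ * cosC t)
  have l1 := cosC_le_one (n • t)
  have : cosC ((0 : ℤ) • t) = 1 := by simp
  simp only [this]
  exact mul_le_mul_of_nonneg_right l1 e1.le

theorem wk_ok (κ : ℝ) (hκ : 0 < κ) : WOk (wk κ) where
  pos n := pow_pos (bI_pos κ hκ n) 6
  symm n := by unfold wk; rw [bI_neg]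
  lc n := by
    unfold wk
    rw [← mul_pow, ← pow_mul, mul_comm 6 2, pow_mul]
    exact pow_le_pow_left₀ (mul_nonneg (bI_nonneg κ hκ.le _) (bI_nonneg κ hκ.le _))
      (bI_lc κ hκ.le n) 6
  summ k := by
    have h := (bI_summ κ hκ.le k).mul_left (bI κ 0 ^ 5)
    refine Summable.of_nonneg_of_le (fun n => ?_) (fun n => ?_) h
    · exact mul_nonneg (by positivity) (pow_nonneg (bI_nonneg κ hκ.le n) 6)
    · unfold wk
      have h0 := bI_nonneg κ hκ.le n
      have h1 := bI_le_zero κ n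
      have h2 : bI κ n ^ 5 ≤ bI κ 0 ^ 5 := pow_le_pow_left₀ h0 h1 5
      have h3 : (0 : ℝ) ≤ |(n : ℝ)| ^ k := by positivity
      calc |(n : ℝ)| ^ k * bI κ n ^ 6 = (|(n : ℝ)| ^ k * bI κ n) * bI κ n ^ 5 := by ring
        _ ≤ (|(n : ℝ)| ^ k * bI κ n) * bI κ 0 ^ 5 :=
            mul_le_mul_of_nonneg_left h2 (mul_nonneg h3 h0)
        _ = bI κ 0 ^ 5 * (|(n : ℝ)| ^ k * bI κ n) := by ring

end H82.BX

end S_H82_BX_BE2

section S_H82_BX_DU2

/-!
# DU2: partition function with phases, second moments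

* `du_phase`: `du1` with `g l x = exp(κ_l cos(x + α_l))`, `a l m = bI κ_l m e^{i m α_l}` (`bes_fourier` at `x + α_l`).  The sum over `h` is real: the terms `h` and `-h` are conjugate.
* `du_two`: for `l = (e,0)`, `l' = (e',0)`, `e ≠ e'`: `a l m = m bI κ m`, `g l x = i κ sin x e^{κ cos x}` (`bes_fourier'`), the other links as before.
Both divided by the value for zero phases: `∫ e^{hG} = ∑' WH`, with `WH = ∏_{e ∈ EN n} wk κ (dh e)`.
-/

set_option autoImplicit false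

open Finset MeasureTheory

namespace H82.BX

open H82.IC XYB

/-- integral with phases. -/
noncomputable def ZX (n : ℕ) (κ : (↥(EN n) × Fin 6) → ℝ) (α : (↥(EN n) × Fin 6) → Cir) : ℝ :=
  ∫ θ, Real.exp (∑ l, κ l * cosC (θ ((C6 (TB n)).r l) - θ ((C6 (TB n)).s l) + α l))
    ∂haarP (↥(bx 2 n) ⊕ (↥(EN n) × Fin 5) → Cir)

lemma DU2_fourier_add (m : ℤ) (x y : Cir) :
    (fourier m (x + y) : ℂ) = fourier m x * fourier m y := by
  simp only [fourier_apply, smul_add, AddCircle.toCircle_add, Circle.coe_mul]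

lemma DU2_fourier_coe (m : ℤ) (x : ℝ) :
    (fourier m ((x : ℝ) : Cir) : ℂ) = Complex.exp (((x * m : ℝ) : ℂ) * Complex.I) := by
  rw [fourier_coe_apply]
  congr 1
  have hpi : (Real.pi : ℂ) ≠ 0 := by exact_mod_cast Real.pi_ne_zero
  push_cast
  field_simp

lemma DU2_norm_fourier (m : ℤ) (x : Cir) : ‖(fourier m x : ℂ)‖ = 1 := by
  rw [fourier_apply]; exact Circle.norm_coe _

lemma DU2_summ (κ : ℝ) (hκ : 0 ≤ κ) : Summable (fun m : ℤ => bI κ m) := by
  have h := bI_summ κ hκ 0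
  simpa using h

lemma DU2_summ1 (κ : ℝ) (hκ : 0 ≤ κ) : Summable (fun m : ℤ => |(m : ℝ)| * bI κ m) := by
  have h := bI_summ κ hκ 1
  simpa using h

lemma DU2_WH (n : ℕ) (κ : ℝ) (h : ↥(FN n) → ℤ) :
    WH HH.gr (FN n) (EN n) (wk κ) h = ∏ e : ↥(EN n), ∏ _j : Fin 6, bI κ (dh (ex h) e.1) := by
  unfold WH
  rw [← Finset.prod_coe_sort (EN n) (fun e => wk κ (ex h (HH.gr.s e) - ex h (HH.gr.r e)))]
  refine Finset.prod_congr rfl (fun e _ => ?_)
  simp [wk, dh]

/-- phases on the first links only. -/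
theorem du_phase (n : ℕ) (κ : (↥(EN n) × Fin 6) → ℝ) (hκ : ∀ l, 0 ≤ κ l) (α : ↥(EN n) → ℝ) :
    Summable (fun h : ↥(FN n) → ℤ => ∏ e : ↥(EN n), ∏ j : Fin 6, bI (κ (e, j)) (dh (ex h) e.1)) ∧
    ZX n κ (fun l => if l.2 = 0 then ((α l.1 : ℝ) : Cir) else 0) =
      ∑' h : ↥(FN n) → ℤ, (∏ e : ↥(EN n), ∏ j : Fin 6, bI (κ (e, j)) (dh (ex h) e.1)) *
        Real.cos (∑ e : ↥(EN n), α e * (dh (ex h) e.1 : ℝ)) := by
  classical
  set p : (↥(EN n) × Fin 6) → Cir := fun l => if l.2 = 0 then ((α l.1 : ℝ) : Cir) else 0 with hp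
  set a : (↥(EN n) × Fin 6) → ℤ → ℂ := fun l m => (bI (κ l) m : ℂ) * fourier m (p l) with ha
  set g : (↥(EN n) × Fin 6) → Cir → ℂ := fun l x => (Real.exp (κ l * cosC (x + p l)) : ℂ) with hg
  have hnorm : ∀ l m, ‖a l m‖ = bI (κ l) m := by
    intro l m
    simp only [ha, norm_mul, DU2_norm_fourier, mul_one, Complex.norm_real, Real.norm_eq_abs]
    exact abs_of_nonneg (bI_nonneg _ (hκ l) m)
  obtain ⟨h1, h2⟩ := du1 n g a
    (by intro l; simp only [hnorm]; exact DU2_summ _ (hκ l))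
    (by
      intro l x
      have h := bes_fourier (κ l) (hκ l) (x + p l)
      have e : (fun m : ℤ => a l m * fourier m x) =
          fun m : ℤ => (bI (κ l) m : ℂ) * fourier m (x + p l) := by
        funext m
        simp only [ha]
        rw [DU2_fourier_add]; ring
      rw [e]; exact h)
  have hn2 : ∀ h : ↥(FN n) → ℤ, ‖∏ e : ↥(EN n), ∏ j : Fin 6, a (e, j) (dh (ex h) e.1)‖ =
      ∏ e : ↥(EN n), ∏ j : Fin 6, bI (κ (e, j)) (dh (ex h) e.1) := by
    intro h
    rw [norm_prod]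
    refine Finset.prod_congr rfl (fun e _ => ?_)
    rw [norm_prod]
    refine Finset.prod_congr rfl (fun j _ => hnorm _ _)
  have hval : ∀ h : ↥(FN n) → ℤ, (∏ e : ↥(EN n), ∏ j : Fin 6, a (e, j) (dh (ex h) e.1)).re =
      (∏ e : ↥(EN n), ∏ j : Fin 6, bI (κ (e, j)) (dh (ex h) e.1)) *
        Real.cos (∑ e : ↥(EN n), α e * (dh (ex h) e.1 : ℝ)) := by
    intro h
    have e1 : ∀ e : ↥(EN n), ∏ j : Fin 6, a (e, j) (dh (ex h) e.1) =
        ((∏ j : Fin 6, bI (κ (e, j)) (dh (ex h) e.1) : ℝ) : ℂ) *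
          Complex.exp (((α e * (dh (ex h) e.1 : ℝ) : ℝ) : ℂ) * Complex.I) := by
      intro e
      simp only [ha]
      rw [Finset.prod_mul_distrib]
      congr 1
      · push_cast; rfl
      · rw [Fin.prod_univ_succ]
        have z : ∀ j : Fin 5, (fourier (dh (ex h) e.1) (p (e, j.succ)) : ℂ) = 1 := by
          intro j
          simp [hp, Fin.succ_ne_zero]
        simp only [z, Finset.prod_const_one, mul_one]
        simp only [hp, if_true]
        rw [DU2_fourier_coe]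
    rw [Finset.prod_congr rfl (fun e _ => e1 e), Finset.prod_mul_distrib, ← Complex.exp_sum,
      ← Finset.sum_mul, ← Complex.ofReal_sum, ← Complex.ofReal_prod, Complex.re_ofReal_mul,
      Complex.exp_ofReal_mul_I_re]
  constructor
  · simpa only [hn2] using h1
  · have hs : Summable (fun h : ↥(FN n) → ℤ =>
        ∏ e : ↥(EN n), ∏ j : Fin 6, a (e, j) (dh (ex h) e.1)) := h1.of_norm
    have e2 : (∫ θ, ∏ l, g l (θ ((C6 (TB n)).r l) - θ ((C6 (TB n)).s l))
        ∂haarP (↥(bx 2 n) ⊕ (↥(EN n) × Fin 5) → Cir)) = ((ZX n κ p : ℝ) : ℂ) := by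
      unfold ZX
      rw [← integral_complex_ofReal]
      congr 1
      funext θ
      simp only [hg]
      rw [Real.exp_sum]
      push_cast
      rfl
    have e3 : ZX n κ p = (∑' h : ↥(FN n) → ℤ,
        ∏ e : ↥(EN n), ∏ j : Fin 6, a (e, j) (dh (ex h) e.1)).re := by
      rw [← h2, e2, Complex.ofReal_re]
    rw [e3, Complex.re_tsum hs]
    exact tsum_congr hval

theorem du_two (n : ℕ) (κ : ℝ) (hκ : 0 < κ) (e e' : ↥(EN n)) (he : e ≠ e') :
    En (wk κ) n (fun h => (dh h e.1 : ℝ) * (dh h e'.1 : ℝ)) =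
      -κ ^ 2 * gE (hG (C6 (TB n)) (fun _ => κ)) (fun θ =>
        sinC (θ ((C6 (TB n)).r (e, 0)) - θ ((C6 (TB n)).s (e, 0))) *
          sinC (θ ((C6 (TB n)).r (e', 0)) - θ ((C6 (TB n)).s (e', 0)))) := by
  classical
  have hpq : ((e, 0) : ↥(EN n) × Fin 6) ≠ (e', 0) := by
    intro h; exact he (Prod.ext_iff.1 h).1
  -- denominators
  have hden : (∑' h : ↥(FN n) → ℤ, WH HH.gr (FN n) (EN n) (wk κ) h) =
      ∫ θ : ↥(bx 2 n) ⊕ (↥(EN n) × Fin 5) → Cir, Real.exp (hG (C6 (TB n)) (fun _ => κ) θ)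
        ∂haarP (↥(bx 2 n) ⊕ (↥(EN n) × Fin 5) → Cir) := by
    have h := (du_phase n (fun _ => κ) (fun _ => hκ.le) (fun _ => 0)).2
    simp only [zero_mul, Finset.sum_const_zero, Real.cos_zero, mul_one] at h
    simp only [DU2_WH]
    rw [← h]
    unfold ZX hG
    simp
  set p : ↥(EN n) × Fin 6 := (e, 0) with hp
  set q : ↥(EN n) × Fin 6 := (e', 0) with hq
  set a : (↥(EN n) × Fin 6) → ℤ → ℂ := fun l m =>
    (if l = p then (m : ℂ) else 1) * (if l = q then (m : ℂ) else 1) * (bI κ m : ℂ) with ha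
  set g : (↥(EN n) × Fin 6) → Cir → ℂ := fun l x =>
    (if l = p then Complex.I * (κ * sinC x : ℝ) else 1) *
      (if l = q then Complex.I * (κ * sinC x : ℝ) else 1) * (Real.exp (κ * cosC x) : ℂ) with hg
  have hcase : ∀ l : ↥(EN n) × Fin 6, (∀ m, a l m = (bI κ m : ℂ) ∧ True) ∧
      (∀ x, g l x = (Real.exp (κ * cosC x) : ℂ)) ∨
      (∀ m, a l m = (m : ℂ) * (bI κ m : ℂ)) ∧
      (∀ x, g l x = Complex.I * (κ * sinC x * Real.exp (κ * cosC x) : ℝ)) := by
    intro l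
    by_cases h1 : l = p
    · right
      have h2 : l ≠ q := by rw [h1]; exact hpq
      constructor
      · intro m; simp only [ha, if_pos h1, if_neg h2, mul_one]
      · intro x; simp only [hg, if_pos h1, if_neg h2, mul_one]; push_cast; ring
    · by_cases h2 : l = q
      · right
        constructor
        · intro m; simp only [ha, if_neg h1, if_pos h2, one_mul]
        · intro x; simp only [hg, if_neg h1, if_pos h2, one_mul]; push_cast; ring
      · left
        constructor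
        · intro m; simp only [ha, if_neg h1, if_neg h2, one_mul, and_true]
        · intro x; simp only [hg, if_neg h1, if_neg h2, one_mul]
  obtain ⟨h1, h2⟩ := du1 n g a
    (by
      intro l
      rcases hcase l with ⟨hA, -⟩ | ⟨hA, -⟩
      · have : (fun m => ‖a l m‖) = fun m : ℤ => bI κ m := by
          funext m
          rw [(hA m).1, Complex.norm_real, Real.norm_eq_abs, abs_of_nonneg (bI_nonneg κ hκ.le m)]
        rw [this]; exact DU2_summ κ hκ.le
      · have : (fun m => ‖a l m‖) = fun m : ℤ => |(m : ℝ)| * bI κ m := by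
          funext m
          rw [hA m, norm_mul, Complex.norm_real, Real.norm_eq_abs,
            abs_of_nonneg (bI_nonneg κ hκ.le m), Complex.norm_intCast]
        rw [this]; exact DU2_summ1 κ hκ.le)
    (by
      intro l x
      rcases hcase l with ⟨hA, hB⟩ | ⟨hA, hB⟩
      · have : (fun m => a l m * fourier m x) = fun m : ℤ => (bI κ m : ℂ) * fourier m x := by
          funext m; rw [(hA m).1]
        rw [this, hB x]
        exact bes_fourier κ hκ.le x
      · have : (fun m => a l m * fourier m x) =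
            fun m : ℤ => ((m : ℂ) * bI κ m) * fourier m x := by
          funext m; rw [hA m]
        rw [this, hB x]
        exact bes_fourier' κ hκ.le x)
  have hval : ∀ h : ↥(FN n) → ℤ, (∏ e : ↥(EN n), ∏ j : Fin 6, a (e, j) (dh (ex h) e.1)) =
      ((WH HH.gr (FN n) (EN n) (wk κ) h *
        ((dh (ex h) e.1 : ℝ) * (dh (ex h) e'.1 : ℝ)) : ℝ) : ℂ) := by
    intro h
    have e0 : (∏ e : ↥(EN n), ∏ j : Fin 6, a (e, j) (dh (ex h) e.1)) =
        ∏ l : ↥(EN n) × Fin 6, a l (dh (ex h) l.1.1) := by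
      rw [Fintype.prod_prod_type]
    rw [e0]
    simp only [ha]
    rw [Finset.prod_mul_distrib, Finset.prod_mul_distrib]
    rw [Finset.prod_ite_eq' Finset.univ p (fun l => ((dh (ex h) l.1.1 : ℤ) : ℂ)),
      Finset.prod_ite_eq' Finset.univ q (fun l => ((dh (ex h) l.1.1 : ℤ) : ℂ))]
    simp only [Finset.mem_univ, if_true]
    rw [DU2_WH, Fintype.prod_prod_type]
    push_cast
    simp only [hp, hq]
    ring
  have hint : (∫ θ, ∏ l, g l (θ ((C6 (TB n)).r l) - θ ((C6 (TB n)).s l))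
      ∂haarP (↥(bx 2 n) ⊕ (↥(EN n) × Fin 5) → Cir)) =
      ((-κ ^ 2 * ∫ θ, (sinC (θ ((C6 (TB n)).r p) - θ ((C6 (TB n)).s p)) *
          sinC (θ ((C6 (TB n)).r q) - θ ((C6 (TB n)).s q))) *
          Real.exp (hG (C6 (TB n)) (fun _ => κ) θ)
        ∂haarP (↥(bx 2 n) ⊕ (↥(EN n) × Fin 5) → Cir) : ℝ) : ℂ) := by
    rw [← integral_const_mul, ← integral_complex_ofReal]
    congr 1
    funext θ
    simp only [hg]
    rw [Finset.prod_mul_distrib, Finset.prod_mul_distrib]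
    rw [Finset.prod_ite_eq' Finset.univ p (fun l => Complex.I *
        ((κ * sinC (θ ((C6 (TB n)).r l) - θ ((C6 (TB n)).s l)) : ℝ) : ℂ)),
      Finset.prod_ite_eq' Finset.univ q (fun l => Complex.I *
        ((κ * sinC (θ ((C6 (TB n)).r l) - θ ((C6 (TB n)).s l)) : ℝ) : ℂ))]
    simp only [Finset.mem_univ, if_true]
    unfold hG
    rw [Real.exp_sum]
    push_cast
    linear_combination (κ : ℂ) ^ 2 * (sinC (θ ((C6 (TB n)).r p) - θ ((C6 (TB n)).s p)) : ℂ) *
      (sinC (θ ((C6 (TB n)).r q) - θ ((C6 (TB n)).s q)) : ℂ) *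
      (∏ x, Complex.exp ((κ : ℂ) * (cosC (θ ((C6 (TB n)).r x) - θ ((C6 (TB n)).s x)) : ℂ))) *
        Complex.I_sq
  have hnum : (∑' h : ↥(FN n) → ℤ, WH HH.gr (FN n) (EN n) (wk κ) h *
        ((dh (ex h) e.1 : ℝ) * (dh (ex h) e'.1 : ℝ))) =
      -κ ^ 2 * ∫ θ, (sinC (θ ((C6 (TB n)).r p) - θ ((C6 (TB n)).s p)) *
          sinC (θ ((C6 (TB n)).r q) - θ ((C6 (TB n)).s q))) *
          Real.exp (hG (C6 (TB n)) (fun _ => κ) θ)
        ∂haarP (↥(bx 2 n) ⊕ (↥(EN n) × Fin 5) → Cir) := by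
    have h3 := h2
    rw [hint, tsum_congr hval, ← Complex.ofReal_tsum] at h3
    exact (Complex.ofReal_injective h3).symm
  unfold En Eh gE
  rw [hnum, hden, mul_div_assoc]

end H82.BX

end S_H82_BX_DU2

section S_H82_BX_DOM

/-!
# DOM: characteristic functions decrease when the box grows

`FNa a n`, `ENa a n` = the translates of `FN n`, `EN n` by `a`.  Let `FNa a n ⊆ FN m`.  For `t` supported in `FNa a n`:
`∑_v t v h v = ∑_{e ∈ EN m} α_e dh h e` for all `h` vanishing off `FN m` (`left_path` for each `v`).  `du_phase` with couplings `κ` everywhere: numerator and denominator of `Eh (FN m) (cos (t·h))` are `ZX m κ α`, `ZX m κ 0`.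
With couplings `κ'_e = κ` for `e ∈ ENa a n` and `0` for the other edges of `EN m` (`bI 0 j = 1[j = 0]`): the sum over `h` is restricted to `h` with `dh h e = 0` for `e ∈ EN m \\ ENa a n`; such an `h` vanishes off `FNa a n` (a site `v` of `FN m` off `FNa a n`
is joined to the outside of `FN m` by a row path (to the left or to the right, `left_path`/`right_path`) whose edges do not touch `FNa a n`: if the row of `v` does not meet the small box any direction works, otherwise go away from it), and conversely; so the sum is the one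
over heights on `FNa a n`.  `mmp` (on the graph `C6 (TB m)`, `K = κ'`, `K' = κ`): the ratio is smaller for the larger couplings.
`Eh_shift`: translation of everything by `a` (`Eh_iso`).
-/

set_option autoImplicit false

open Finset MeasureTheory

namespace H82.BX

open H82.IC XYB

/-- translated boxes. -/
noncomputable def FNa (a : Vx 2) (n : ℕ) : Finset (Vx 2 × Bool) := (FN n).image (fun v => (v.1 + a, v.2))
noncomputable def ENa (a : Vx 2) (n : ℕ) : Finset (Vx 2 × Fin 3) := (EN n).image (fun e => (e.1 + a, e.2))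

theorem mem_FNa (a : Vx 2) (n : ℕ) (v : Vx 2 × Bool) : v ∈ FNa a n ↔ (v.1 - a, v.2) ∈ FN n := by
  unfold FNa
  rw [Finset.mem_image]
  constructor
  · rintro ⟨w, hw, rfl⟩
    simpa using hw
  · intro h
    exact ⟨_, h, by simp⟩

theorem mem_ENa (a : Vx 2) (n : ℕ) (v : Vx 2 × Fin 3) : v ∈ ENa a n ↔ (v.1 - a, v.2) ∈ EN n := by
  unfold ENa
  rw [Finset.mem_image]
  constructor
  · rintro ⟨w, hw, rfl⟩
    simpa using hw
  · intro h
    exact ⟨_, h, by simp⟩

theorem ENa_touch (a : Vx 2) (n : ℕ) (e : Vx 2 × Fin 3) :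
    e ∈ ENa a n ↔ HH.gr.s e ∈ FNa a n ∨ HH.gr.r e ∈ FNa a n := by
  rw [mem_ENa, (FN_Bd n).mem, mem_FNa, mem_FNa]
  have h1 : HH.gr.s (e.1 - a, e.2) = ((HH.gr.s e).1 - a, (HH.gr.s e).2) := by
    simp only [PG.gr, Prod.mk.injEq, and_true]; abel
  have h2 : HH.gr.r (e.1 - a, e.2) = ((HH.gr.r e).1 - a, (HH.gr.r e).2) := by
    simp only [PG.gr, Prod.mk.injEq, and_true]; abel
  rw [h1, h2]

theorem Eh_shift (w : ℤ → ℝ) (hw : WOk w) (a : Vx 2) (n : ℕ) (g : (Vx 2 × Bool → ℤ) → ℝ) :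
    Eh HH.gr (FNa a n) (ENa a n) w g = En w n (fun h => g (fun v => h (v.1 - a, v.2))) := by
  unfold En
  let gV : Vx 2 × Bool ≃ Vx 2 × Bool :=
    ⟨fun v => (v.1 + a, v.2), fun v => (v.1 - a, v.2), fun v => by simp, fun v => by simp⟩
  let gE : Vx 2 × Fin 3 ≃ Vx 2 × Fin 3 :=
    ⟨fun v => (v.1 + a, v.2), fun v => (v.1 - a, v.2), fun v => by simp, fun v => by simp⟩
  refine Eh_iso HH.gr (FN n) (FNa a n) (EN n) (ENa a n) w hw gV gE (fun e => Or.inl ⟨?_, ?_⟩)
    (fun v => ?_) (fun e => ?_) g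
  · simp only [gV, gE, PG.gr, Equiv.coe_fn_mk, Prod.mk.injEq, and_true]; abel
  · simp only [gV, gE, PG.gr, Equiv.coe_fn_mk, Prod.mk.injEq, and_true]; abel
  · rw [mem_FNa]; simp [gV]
  · rw [mem_ENa]; simp [gE]

/-- functionals represented by edge differences. -/
def Rep (m : ℕ) (L : (Vx 2 × Bool → ℤ) → ℝ) : Prop :=
  ∃ c : ↥(EN m) → ℝ, ∀ h : Vx 2 × Bool → ℤ, (∀ v, v ∉ FN m → h v = 0) →
    L h = ∑ e : ↥(EN m), c e * (dh h e.1 : ℝ)

theorem Rep_zero (m : ℕ) : Rep m (fun _ => 0) := ⟨0, fun h _ => by simp⟩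

theorem Rep_add (m : ℕ) (L L' : (Vx 2 × Bool → ℤ) → ℝ) (h : Rep m L) (h' : Rep m L') :
    Rep m (fun x => L x + L' x) := by
  obtain ⟨c, hc⟩ := h
  obtain ⟨c', hc'⟩ := h'
  refine ⟨fun e => c e + c' e, fun h h0 => ?_⟩
  change L h + L' h = _
  rw [hc h h0, hc' h h0, ← Finset.sum_add_distrib]
  exact Finset.sum_congr rfl fun e _ => by ring

theorem Rep_smul (m : ℕ) (r : ℝ) (L : (Vx 2 × Bool → ℤ) → ℝ) (h : Rep m L) :
    Rep m (fun x => r * L x) := by
  obtain ⟨c, hc⟩ := h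
  refine ⟨fun e => r * c e, fun h h0 => ?_⟩
  change r * L h = _
  rw [hc h h0, Finset.mul_sum]
  exact Finset.sum_congr rfl fun e _ => by ring

theorem Rep_sum {ι : Type} (m : ℕ) (s : Finset ι) (L : ι → (Vx 2 × Bool → ℤ) → ℝ)
    (h : ∀ i ∈ s, Rep m (L i)) : Rep m (fun x => ∑ i ∈ s, L i x) := by
  classical
  induction s using Finset.induction_on with
  | empty => simpa using Rep_zero m
  | insert i s hi ih =>
    have h1 := Rep_add m _ _ (h i (Finset.mem_insert_self _ _))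
      (ih fun j hj => h j (Finset.mem_insert_of_mem hj))
    simpa [Finset.sum_insert hi] using h1

theorem Rep_dh (m : ℕ) (e : Vx 2 × Fin 3) : Rep m (fun h => (dh h e : ℝ)) := by
  classical
  by_cases he : e ∈ EN m
  · refine ⟨fun e' => if e' = ⟨e, he⟩ then 1 else 0, fun h _ => ?_⟩
    simp
  · refine ⟨fun _ => 0, fun h h0 => ?_⟩
    have h1 := (FN_Bd m).mem e
    have h2 : HH.gr.s e ∉ FN m ∧ HH.gr.r e ∉ FN m := by
      constructor
      · intro h3; exact he (h1.2 (Or.inl h3))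
      · intro h3; exact he (h1.2 (Or.inr h3))
    simp [dh, h0 _ h2.1, h0 _ h2.2]

theorem Rep_v (m : ℕ) (v : Vx 2 × Bool) (hv : v ∈ FN m) : Rep m (fun h => (h v : ℝ)) := by
  have h1 : Rep m (fun h => (-1) * ∑ x ∈ Icc (-(m : ℤ)) (v.1 0), ((dh h (![x, v.1 1], 1) : ℝ) +
      (if v.2 = true ∧ x = v.1 0 then 0 else 1) * (dh h (![x, v.1 1], 2) : ℝ))) := by
    refine Rep_smul m _ _ (Rep_sum m _ _ fun x _ => Rep_add m _ _ (Rep_dh m _) ?_)
    exact Rep_smul m _ _ (Rep_dh m _)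
  obtain ⟨c, hc⟩ := h1
  refine ⟨c, fun h h0 => ?_⟩
  rw [← hc h h0]
  change ((h v : ℤ) : ℝ) = (-1) * ∑ x ∈ Icc (-(m : ℤ)) (v.1 0), ((dh h (![x, v.1 1], 1) : ℝ) +
      (if v.2 = true ∧ x = v.1 0 then 0 else 1) * (dh h (![x, v.1 1], 2) : ℝ))
  rw [left_path m h h0 v hv]
  push_cast
  rw [neg_one_mul]
  congr 1
  refine Finset.sum_congr rfl fun x _ => ?_
  split_ifs <;> simp

theorem ex_off {V : Type} [DecidableEq V] (F : Finset V) (h : ↥F → ℤ) (v : V) (hv : v ∉ F) :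
    ex h v = 0 := by
  simp [ex, hv]

/-- phases. -/
noncomputable def PHZ (m : ℕ) (α : ↥(EN m) → ℝ) : ↥(EN m) × Fin 6 → Cir :=
  fun l => if l.2 = 0 then ((α l.1 : ℝ) : Cir) else 0

theorem PHZ_zero (m : ℕ) : PHZ m (fun _ => 0) = 0 := by
  funext l
  unfold PHZ
  split_ifs
  · rfl
  · rfl

theorem dom_num1 (κ : ℝ) (hκ : 0 < κ) (m : ℕ) (α : ↥(EN m) → ℝ) (g : (Vx 2 × Bool → ℤ) → ℝ)
    (hg : ∀ h : ↥(FN m) → ℤ, g (ex h) = Real.cos (∑ e, α e * (dh (ex h) e.1 : ℝ))) :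
    ZX m (fun _ => κ) (PHZ m α) =
      ∑' h : ↥(FN m) → ℤ, WH HH.gr (FN m) (EN m) (wk κ) h * g (ex h) := by
  have h1 := (du_phase m (fun _ => κ) (fun _ => hκ.le) α).2
  unfold PHZ
  rw [h1]
  refine tsum_congr fun h => ?_
  rw [hg h]
  congr 1
  unfold WH wk
  rw [← Finset.prod_coe_sort (EN m)]
  refine Finset.prod_congr rfl fun e _ => ?_
  simp [dh]

/-- a height without jumps off the small box vanishes off the small box. -/
theorem dom_van (a : Vx 2) (n m : ℕ) (h : Vx 2 × Bool → ℤ)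
    (h0 : ∀ v, v ∉ FN m → h v = 0) (h1 : ∀ e, e ∉ ENa a n → dh h e = 0)
    (v : Vx 2 × Bool) (hv : v ∉ FNa a n) : h v = 0 := by
  -- row relations
  have r1 : ∀ x b : ℤ, (![x, b], (1 : Fin 3)) ∉ ENa a n → h (![x - 1, b], false) = h (![x, b], true) := by
    intro x b hx
    have := h1 _ hx
    have e1 : HH.gr.s (![x, b], (1 : Fin 3)) = (![x - 1, b], false) := by
      simp only [PG.gr, HH, Prod.mk.injEq]
      refine ⟨?_, by simp⟩
      funext i; fin_cases i <;> simp [sub_eq_add_neg]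
    have e2 : HH.gr.r (![x, b], (1 : Fin 3)) = (![x, b], true) := by
      simp only [PG.gr, HH, Prod.mk.injEq]
      refine ⟨?_, by simp⟩
      funext i; fin_cases i <;> simp
    unfold dh at this
    rw [e1, e2] at this
    linarith
  have r2 : ∀ x b : ℤ, (![x, b], (2 : Fin 3)) ∉ ENa a n → h (![x, b], true) = h (![x, b], false) := by
    intro x b hx
    have := h1 _ hx
    have e1 : HH.gr.s (![x, b], (2 : Fin 3)) = (![x, b], true) := by
      simp only [PG.gr, HH, Prod.mk.injEq]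
      refine ⟨?_, by simp⟩
      funext i; fin_cases i <;> simp
    have e2 : HH.gr.r (![x, b], (2 : Fin 3)) = (![x, b], false) := by
      simp only [PG.gr, HH, Prod.mk.injEq]
      refine ⟨?_, by simp⟩
      funext i; fin_cases i <;> simp
    unfold dh at this
    rw [e1, e2] at this
    linarith
  -- membership of edges
  have m1 : ∀ x b : ℤ, (![x, b], (1 : Fin 3)) ∈ ENa a n →
      (![x - 1, b], false) ∈ FNa a n ∨ (![x, b], true) ∈ FNa a n := by
    intro x b hx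
    rw [ENa_touch] at hx
    have e1 : HH.gr.s (![x, b], (1 : Fin 3)) = (![x - 1, b], false) := by
      simp only [PG.gr, HH, Prod.mk.injEq]
      refine ⟨?_, by simp⟩
      funext i; fin_cases i <;> simp [sub_eq_add_neg]
    have e2 : HH.gr.r (![x, b], (1 : Fin 3)) = (![x, b], true) := by
      simp only [PG.gr, HH, Prod.mk.injEq]
      refine ⟨?_, by simp⟩
      funext i; fin_cases i <;> simp
    rwa [e1, e2] at hx
  have m2 : ∀ x b : ℤ, (![x, b], (2 : Fin 3)) ∈ ENa a n →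
      (![x, b], true) ∈ FNa a n ∨ (![x, b], false) ∈ FNa a n := by
    intro x b hx
    rw [ENa_touch] at hx
    have e1 : HH.gr.s (![x, b], (2 : Fin 3)) = (![x, b], true) := by
      simp only [PG.gr, HH, Prod.mk.injEq]
      refine ⟨?_, by simp⟩
      funext i; fin_cases i <;> simp
    have e2 : HH.gr.r (![x, b], (2 : Fin 3)) = (![x, b], false) := by
      simp only [PG.gr, HH, Prod.mk.injEq]
      refine ⟨?_, by simp⟩
      funext i; fin_cases i <;> simp
    rwa [e1, e2] at hx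
  have mF : ∀ (x b : ℤ) (k : Bool), (![x, b], k) ∈ FNa a n ↔
      ((a 0 - n ≤ x ∧ x < a 0 + n) ∧ (a 1 - n ≤ b ∧ b < a 1 + n)) := by
    intro x b k
    rw [mem_FNa, mem_FN]
    simp only [Fin.forall_fin_two, Pi.sub_apply, Matrix.cons_val_zero, Matrix.cons_val_one]
    constructor
    · rintro ⟨⟨h1, h2⟩, h3, h4⟩
      exact ⟨⟨by linarith, by linarith⟩, by linarith, by linarith⟩
    · rintro ⟨⟨h1, h2⟩, h3, h4⟩
      exact ⟨⟨by linarith, by linarith⟩, by linarith, by linarith⟩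
  have hvv : v = (![v.1 0, v.1 1], v.2) := by
    refine Prod.ext ?_ rfl
    funext i; fin_cases i <;> rfl
  obtain ⟨x, b, k, rfl⟩ : ∃ (x b : ℤ) (k : Bool), v = (![x, b], k) := ⟨_, _, _, hvv⟩
  have out : ∀ (x : ℤ) (k : Bool), (x < -(m : ℤ) ∨ (m : ℤ) ≤ x) → h (![x, b], k) = 0 := by
    intro x k hx
    apply h0
    rw [mem_FN]
    intro h2
    have := h2 0
    simp only [Matrix.cons_val_zero] at this
    rcases hx with hx | hx <;> omega
  have both : (h (![x, b], true) = 0 ∧ h (![x, b], false) = 0) → h (![x, b], k) = 0 := by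
    rintro ⟨h2, h3⟩
    cases k
    · exact h3
    · exact h2
  apply both
  rw [mF] at hv
  by_cases hl : x < a 0 - n ∨ ¬ (a 1 - n ≤ b ∧ b < a 1 + n)
  · -- go to the left
    have key : ∀ y : ℤ, -(m : ℤ) - 1 ≤ y → y ≤ x → (h (![y, b], true) = 0 ∧ h (![y, b], false) = 0) := by
      intro y hy
      induction y, hy using Int.leInduction with
      | base => intro _; exact ⟨out _ _ (Or.inl (by omega)), out _ _ (Or.inl (by omega))⟩
      | succ y hy ih =>
        intro hyx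
        obtain ⟨i1, i2⟩ := ih (by omega)
        have n1 : (![y + 1, b], (1 : Fin 3)) ∉ ENa a n := by
          intro h2
          rcases m1 _ _ h2 with h3 | h3 <;> rw [mF] at h3 <;> rcases hl with hl | hl <;> omega
        have n2 : (![y + 1, b], (2 : Fin 3)) ∉ ENa a n := by
          intro h2
          rcases m2 _ _ h2 with h3 | h3 <;> rw [mF] at h3 <;> rcases hl with hl | hl <;> omega
        have q1 := r1 _ _ n1
        have q2 := r2 _ _ n2
        rw [show y + 1 - 1 = y by ring] at q1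
        constructor
        · rw [← q1]; exact i2
        · rw [← q2, ← q1]; exact i2
    by_cases hx : -(m : ℤ) - 1 ≤ x
    · exact key x hx le_rfl
    · exact ⟨out _ _ (Or.inl (by omega)), out _ _ (Or.inl (by omega))⟩
  · -- go to the right
    push Not at hl
    have hx : a 0 + n ≤ x := by
      by_contra h2
      exact hv ⟨⟨hl.1, by omega⟩, hl.2⟩
    have key : ∀ y : ℤ, y ≤ m → x ≤ y → (h (![y, b], true) = 0 ∧ h (![y, b], false) = 0) := by
      intro y hy
      induction y, hy using Int.leInductionDown with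
      | base => intro _; exact ⟨out _ _ (Or.inr (by omega)), out _ _ (Or.inr (by omega))⟩
      | pred y hy ih =>
        intro hyx
        obtain ⟨i1, i2⟩ := ih (by omega)
        have n1 : (![y, b], (1 : Fin 3)) ∉ ENa a n := by
          intro h2
          rcases m1 _ _ h2 with h3 | h3 <;> rw [mF] at h3 <;> omega
        have n2 : (![y - 1, b], (2 : Fin 3)) ∉ ENa a n := by
          intro h2
          rcases m2 _ _ h2 with h3 | h3 <;> rw [mF] at h3 <;> omega
        have q1 := r1 _ _ n1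
        have q2 := r2 _ _ n2
        constructor
        · rw [q2, q1]; exact i1
        · rw [q1]; exact i1
    by_cases hxm : x ≤ m
    · exact key x hxm le_rfl
    · exact ⟨out _ _ (Or.inr (by omega)), out _ _ (Or.inr (by omega))⟩

theorem dom_num2 (κ : ℝ) (hκ : 0 < κ) (a : Vx 2) (n m : ℕ) (hs : FNa a n ⊆ FN m)
    (α : ↥(EN m) → ℝ) (g : (Vx 2 × Bool → ℤ) → ℝ)
    (hg : ∀ h : ↥(FN m) → ℤ, g (ex h) = Real.cos (∑ e, α e * (dh (ex h) e.1 : ℝ))) :
    ZX m (fun l => if l.1.1 ∈ ENa a n then κ else 0) (PHZ m α) =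
      ∑' h : ↥(FNa a n) → ℤ, WH HH.gr (FNa a n) (ENa a n) (wk κ) h * g (ex h) := by
  classical
  have h1 := (du_phase m (fun l => if l.1.1 ∈ ENa a n then κ else 0)
    (fun l => by split_ifs <;> [exact hκ.le; exact le_rfl]) α).2
  unfold PHZ
  rw [h1]
  -- the embedding
  let ι : (↥(FNa a n) → ℤ) → (↥(FN m) → ℤ) := fun h v => ex h v.1
  have hι : ∀ h, ex (ι h) = ex h := by
    intro h
    funext v
    by_cases hv : v ∈ FN m
    · simp [ex, hv, ι]
    · rw [ex_off _ _ _ hv, ex_off _ _ _ (fun h2 => hv (hs h2))]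
  have hinj : Function.Injective ι := by
    intro h h' hh
    have h2 : ex h = ex h' := by rw [← hι h, ← hι h', hh]
    funext v
    have h3 := congrFun h2 v.1
    simpa [ex] using h3
  -- the weight vanishes off the range
  have hsupp : Function.support (fun h : ↥(FN m) → ℤ =>
      (∏ e : ↥(EN m), ∏ _j : Fin 6, bI (if e.1 ∈ ENa a n then κ else 0) (dh (ex h) e.1)) *
        Real.cos (∑ e : ↥(EN m), α e * (dh (ex h) e.1 : ℝ))) ⊆ Set.range ι := by
    intro h hh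
    have h2 : (∏ e : ↥(EN m), ∏ _j : Fin 6, bI (if e.1 ∈ ENa a n then κ else 0) (dh (ex h) e.1)) ≠ 0 :=
      left_ne_zero_of_mul hh
    rw [Finset.prod_ne_zero_iff] at h2
    have h3 : ∀ e, e ∉ ENa a n → dh (ex h) e = 0 := by
      intro e he
      by_cases hm : e ∈ EN m
      · have h4 := h2 ⟨e, hm⟩ (Finset.mem_univ _)
        rw [Finset.prod_ne_zero_iff] at h4
        have h5 := h4 0 (Finset.mem_univ _)
        dsimp only at h5
        rw [if_neg he, bI_zero] at h5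
        by_contra h6
        exact h5 (if_neg h6)
      · have h4 := (FN_Bd m).mem e
        have h5 : HH.gr.s e ∉ FN m ∧ HH.gr.r e ∉ FN m := by
          constructor
          · intro h3; exact hm (h4.2 (Or.inl h3))
          · intro h3; exact hm (h4.2 (Or.inr h3))
        simp [dh, ex_off _ _ _ h5.1, ex_off _ _ _ h5.2]
    have h4 := dom_van a n m (ex h) (fun v hv => ex_off _ _ _ hv) h3
    refine ⟨fun v => ex h v.1, ?_⟩
    funext v
    change ex (fun v : ↥(FNa a n) => ex h v.1) v.1 = h v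
    have h5 : ex h v.1 = h v := by simp [ex]
    by_cases hv : v.1 ∈ FNa a n
    · simp [ex, hv]
    · rw [ex_off _ _ _ hv, ← h5, h4 _ hv]
  rw [← hinj.tsum_eq hsupp]
  refine tsum_congr fun h => ?_
  rw [← hg (ι h), hι h]
  congr 1
  unfold WH wk
  have hsub : ENa a n ⊆ EN m := by
    intro e he
    rw [ENa_touch] at he
    rw [(FN_Bd m).mem]
    exact he.imp (fun h2 => hs h2) (fun h2 => hs h2)
  rw [Finset.prod_coe_sort (EN m)
    (fun e => ∏ _j : Fin 6, bI (if e ∈ ENa a n then κ else 0) (dh (ex h) e))]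
  rw [← Finset.prod_subset hsub]
  · refine Finset.prod_congr rfl fun e he => ?_
    simp [dh, he]
  · intro e _ he
    have h5 : HH.gr.s e ∉ FNa a n ∧ HH.gr.r e ∉ FNa a n := by
      rw [ENa_touch] at he
      exact not_or.1 he
    rw [if_neg he]
    simp [dh, ex_off _ _ _ h5.1, ex_off _ _ _ h5.2, bI_zero]

theorem ZG_pos {V E : Type} [Fintype V] [DecidableEq V] [Fintype E] [DecidableEq E]
    (G : Gr V E) (K : E → ℝ) (α : E → Cir) : 0 < ZG G K α := by
  unfold ZG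
  refine integral_exp_pos _ ?_
  refine continuous_finsetSum _ fun e _ => continuous_const.mul (continuous_cosC.comp ?_)
  exact ((continuous_apply (G.r e)).sub (continuous_apply (G.s e))).add continuous_const

theorem dom (κ : ℝ) (hκ : 0 < κ) (a : Vx 2) (n m : ℕ) (hs : FNa a n ⊆ FN m)
    (t : Vx 2 × Bool → ℝ) :
    En (wk κ) m (fun h => Real.cos (∑ v ∈ FNa a n, t v * (h v : ℝ))) ≤
      Eh HH.gr (FNa a n) (ENa a n) (wk κ) (fun h => Real.cos (∑ v ∈ FNa a n, t v * (h v : ℝ))) := by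
  classical
  have hR : Rep m (fun h => ∑ v ∈ FNa a n, t v * (h v : ℝ)) :=
    Rep_sum m _ _ fun v hv => Rep_smul m _ _ (Rep_v m v (hs hv))
  obtain ⟨α, hα⟩ := hR
  have hα' : ∀ h : ↥(FN m) → ℤ, Real.cos (∑ v ∈ FNa a n, t v * (ex h v : ℝ)) =
      Real.cos (∑ e, α e * (dh (ex h) e.1 : ℝ)) := by
    intro h
    rw [← hα (ex h) (fun v hv => ex_off _ _ _ hv)]
  have h1 := dom_num1 κ hκ m α (fun h => Real.cos (∑ v ∈ FNa a n, t v * (h v : ℝ))) hα'
  have h2 := dom_num1 κ hκ m (fun _ => 0) (fun _ => 1) (fun h => by simp)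
  have h3 := dom_num2 κ hκ a n m hs α (fun h => Real.cos (∑ v ∈ FNa a n, t v * (h v : ℝ))) hα'
  have h4 := dom_num2 κ hκ a n m hs (fun _ => 0) (fun _ => 1) (fun h => by simp)
  rw [PHZ_zero] at h2 h4
  simp only [mul_one] at h2 h4
  unfold En Eh
  rw [← h1, ← h2, ← h3, ← h4]
  have e1 : ∀ K α, ZX m K α = ZG (C6 (TB m)) K α := fun _ _ => rfl
  simp only [e1]
  rw [div_le_div_iff₀ (ZG_pos _ _ _) (ZG_pos _ _ _)]
  refine mmp (C6 (TB m)) _ _ (fun l => ?_) (fun l => ?_) _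
  · split_ifs
    · exact hκ.le
    · exact le_rfl
  · split_ifs
    · exact le_rfl
    · exact hκ.le

end H82.BX

end S_H82_BX_DOM

section S_H82_BX_LIH

/-!
# LIH: convergence of the local laws of the heights

Assume second moments bounded by `C'` uniformly (`n`, `i ∈ FN n`).
For a finitely supported `t`, let `χ_n(t) = En (cos (t·h))`.  `dom` with `a = 0`: `χ_n(t)` is eventually antitone in `n`,
so it converges to `χ(t)`; `dom` and `Eh_shift` give `χ(t^a) ≤ χ(t)` for the shifted `t^a`, hence `=`.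
`En (sin (t·h)) = 0` (`Eh_neg`).  The indicators of `h_S ≡ k mod P` are finite combinations of `cos (c + t·h)`.
For `g` depending on `h_S` only, `g_P = ∑_k g(k) 1[h_S ≡ k mod P]` (`P = 2R+1`, `|k| ≤ R`) equals `g` if `|h_v| ≤ R` on `S`;
second moments: `|En g - En g_P| ≤ 2 |S| C'/(R+1)²`.
-/

set_option autoImplicit false

open Finset MeasureTheory Filter Topology

namespace H82.BX

open H82.IC XYB

namespace LIHx

/-- shift of heights -/
def lsh (a : Vx 2) (h : Vx 2 × Bool → ℤ) : Vx 2 × Bool → ℤ := fun v => h (v.1 + a, v.2)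

theorem lih_FN_ev (S : Finset (Vx 2 × Bool)) : ∃ n0 : ℕ, ∀ n, n0 ≤ n → S ⊆ FN n := by
  classical
  induction S using Finset.induction_on with
  | empty => exact ⟨0, fun _ _ => Finset.empty_subset _⟩
  | insert v S hv ih =>
    obtain ⟨n0, h0⟩ := ih
    refine ⟨max n0 ((v.1 0).natAbs + (v.1 1).natAbs + 1), fun n hn => ?_⟩
    rw [Finset.insert_subset_iff]
    refine ⟨?_, h0 n (le_trans (le_max_left _ _) hn)⟩
    have h1 := le_trans (le_max_right n0 _) hn
    rw [FN, Finset.mem_product, Fintype.mem_piFinset]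
    refine ⟨fun i => ?_, Finset.mem_univ _⟩
    rw [Finset.mem_Ico]
    fin_cases i
    · show -(n : ℤ) ≤ v.1 0 ∧ v.1 0 < n
      omega
    · show -(n : ℤ) ≤ v.1 1 ∧ v.1 1 < n
      omega

/-- linear forms of the heights -/
noncomputable def lin (t : Vx 2 × Bool →₀ ℝ) (h : Vx 2 × Bool → ℤ) : ℝ := t.sum fun v x => x * (h v : ℝ)

theorem lin_add (t s : Vx 2 × Bool →₀ ℝ) (h : Vx 2 × Bool → ℤ) : lin (t + s) h = lin t h + lin s h := by
  classical
  unfold lin
  exact Finsupp.sum_add_index' (fun v => by simp) (fun v x y => by ring)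

theorem lin_single (v : Vx 2 × Bool) (x : ℝ) (h : Vx 2 × Bool → ℤ) :
    lin (Finsupp.single v x) h = x * (h v : ℝ) := by
  unfold lin
  exact Finsupp.sum_single_index (by simp)

theorem lin_zero (h : Vx 2 × Bool → ℤ) : lin 0 h = 0 := by
  simp [lin]

theorem lin_neg (t : Vx 2 × Bool →₀ ℝ) (h : Vx 2 × Bool → ℤ) : lin t (-h) = -lin t h := by
  unfold lin Finsupp.sum
  rw [← Finset.sum_neg_distrib]
  refine Finset.sum_congr rfl fun v _ => ?_
  simp

/-- shifted coefficients -/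
noncomputable def tsh (a : Vx 2) (t : Vx 2 × Bool →₀ ℝ) : Vx 2 × Bool →₀ ℝ :=
  t.mapDomain (fun v => (v.1 + a, v.2))

theorem lin_tsh (a : Vx 2) (t : Vx 2 × Bool →₀ ℝ) (h : Vx 2 × Bool → ℤ) :
    lin (tsh a t) h = lin t (lsh a h) := by
  unfold lin tsh lsh
  exact Finsupp.sum_mapDomain_index (fun v => by simp) (fun v x y => by ring)

theorem tsh_zero (t : Vx 2 × Bool →₀ ℝ) : tsh 0 t = t := by
  unfold tsh
  have : (fun v : Vx 2 × Bool => (v.1 + 0, v.2)) = id := by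
    funext v
    simp
  rw [this, Finsupp.mapDomain_id]

theorem tsh_tsh (a : Vx 2) (t : Vx 2 × Bool →₀ ℝ) : tsh (-a) (tsh a t) = t := by
  unfold tsh
  rw [← Finsupp.mapDomain_comp]
  have : ((fun v : Vx 2 × Bool => (v.1 + -a, v.2)) ∘ fun v : Vx 2 × Bool => (v.1 + a, v.2)) = id := by
    funext v
    simp
  rw [this, Finsupp.mapDomain_id]

/-- characteristic functions -/
noncomputable def chX (κ : ℝ) (n : ℕ) (t : Vx 2 × Bool →₀ ℝ) : ℝ :=
  En (wk κ) n (fun h => Real.cos (lin t h))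

theorem lih_dom (κ : ℝ) (hκ : 0 < κ) (a : Vx 2) (n m : ℕ) (hs : FNa a n ⊆ FN m)
    (t : Vx 2 × Bool →₀ ℝ) (ht : t.support ⊆ FN n) : chX κ m (tsh a t) ≤ chX κ n t := by
  classical
  have hsup : (tsh a t).support ⊆ FNa a n := by
    refine Finsupp.mapDomain_support.trans ?_
    unfold FNa
    exact Finset.image_subset_image ht
  have hsum : ∀ h : Vx 2 × Bool → ℤ, ∑ v ∈ FNa a n, tsh a t v * (h v : ℝ) = lin (tsh a t) h := by
    intro h
    unfold lin
    exact (Finsupp.sum_of_support_subset _ hsup (fun v x => x * (h v : ℝ)) (fun v _ => by simp)).symm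
  have h1 := dom κ hκ a n m hs (tsh a t)
  rw [Eh_shift (wk κ) (wk_ok κ hκ)] at h1
  simp only [hsum, lin_tsh] at h1
  unfold chX
  simp only [lin_tsh]
  refine h1.trans (le_of_eq ?_)
  congr 1
  funext h
  congr 2
  funext v
  simp [lsh]

theorem FNa_zero (n : ℕ) : FNa 0 n = FN n := by
  unfold FNa
  have : (fun v : Vx 2 × Bool => (v.1 + 0, v.2)) = id := by
    funext v
    simp
  rw [this, Finset.image_id]

theorem FN_mono {n m : ℕ} (h : n ≤ m) : FN n ⊆ FN m := by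
  intro v hv
  rw [FN, Finset.mem_product, Fintype.mem_piFinset] at hv ⊢
  refine ⟨fun i => ?_, hv.2⟩
  have := Finset.mem_Ico.1 (hv.1 i)
  rw [Finset.mem_Ico]
  omega

theorem En_bd (κ : ℝ) (hκ : 0 < κ) (n : ℕ) (g : (Vx 2 × Bool → ℤ) → ℝ) (C : ℝ) (hC : ∀ h, |g h| ≤ C) :
    -C ≤ En (wk κ) n g ∧ En (wk κ) n g ≤ C := by
  have hw := wk_ok κ hκ
  have hB := FN_Bd n
  have hg : PBd (FN n) g := PBd_bdd _ g C hC
  have hc : ∀ c : ℝ, PBd (FN n) (fun _ : Vx 2 × Bool → ℤ => c) := fun c => PBd_bdd _ _ |c| fun _ => le_rfl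
  constructor
  · have := Eh_mono HH.gr (FN n) (EN n) hB (wk κ) hw (fun _ => -C) g (hc _) hg
      (fun h => (abs_le.1 (hC _)).1)
    rw [Eh_one _ _ _ hB _ hw] at this
    exact this
  · have := Eh_mono HH.gr (FN n) (EN n) hB (wk κ) hw g (fun _ => C) hg (hc _)
      (fun h => (abs_le.1 (hC _)).2)
    rw [Eh_one _ _ _ hB _ hw] at this
    exact this

theorem chX_tendsto (κ : ℝ) (hκ : 0 < κ) (t : Vx 2 × Bool →₀ ℝ) :
    ∃ ℓ : ℝ, Tendsto (fun n => chX κ n t) atTop (𝓝 ℓ) := by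
  obtain ⟨n0, h0⟩ := lih_FN_ev t.support
  have hanti : Antitone (fun n => chX κ (n + n0) t) := by
    intro n m hnm
    have := lih_dom κ hκ 0 (n + n0) (m + n0) (by rw [FNa_zero]; exact FN_mono (by omega)) t
      (h0 _ (by omega))
    rwa [tsh_zero] at this
  have hbdd : BddBelow (Set.range (fun n => chX κ (n + n0) t)) := by
    refine ⟨-1, ?_⟩
    rintro _ ⟨n, rfl⟩
    exact (En_bd κ hκ _ _ 1 fun h => Real.abs_cos_le_one _).1
  have h1 := tendsto_atTop_ciInf hanti hbdd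
  exact ⟨_, (tendsto_add_atTop_iff_nat (f := fun n => chX κ n t) n0).1 h1⟩

/-- limit characteristic function -/
noncomputable def chL (κ : ℝ) (hκ : 0 < κ) (t : Vx 2 × Bool →₀ ℝ) : ℝ := (chX_tendsto κ hκ t).choose

theorem chL_spec (κ : ℝ) (hκ : 0 < κ) (t : Vx 2 × Bool →₀ ℝ) :
    Tendsto (fun n => chX κ n t) atTop (𝓝 (chL κ hκ t)) := (chX_tendsto κ hκ t).choose_spec

theorem chL_le (κ : ℝ) (hκ : 0 < κ) (a : Vx 2) (t : Vx 2 × Bool →₀ ℝ) :
    chL κ hκ (tsh a t) ≤ chL κ hκ t := by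
  obtain ⟨n0, h0⟩ := lih_FN_ev t.support
  refine ge_of_tendsto (chL_spec κ hκ t) ?_
  filter_upwards [eventually_ge_atTop n0] with n hn
  obtain ⟨m0, hm0⟩ := lih_FN_ev (FNa a n)
  refine le_of_tendsto (chL_spec κ hκ (tsh a t)) ?_
  filter_upwards [eventually_ge_atTop m0] with m hm
  exact lih_dom κ hκ a n m (hm0 m hm) t (h0 n hn)

theorem chL_eq (κ : ℝ) (hκ : 0 < κ) (a : Vx 2) (t : Vx 2 × Bool →₀ ℝ) :
    chL κ hκ (tsh a t) = chL κ hκ t := by
  refine le_antisymm (chL_le κ hκ a t) ?_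
  have := chL_le κ hκ (-a) (tsh a t)
  rwa [tsh_tsh] at this

/-- good functions -/
def Gd (κ : ℝ) (g : (Vx 2 × Bool → ℤ) → ℝ) : Prop :=
  (∃ C : ℝ, ∀ h, |g h| ≤ C) ∧ ∃ ℓ : ℝ, Tendsto (fun n => En (wk κ) n g) atTop (𝓝 ℓ) ∧
    ∀ a : Vx 2, Tendsto (fun n => En (wk κ) n (fun h => g (lsh a h))) atTop (𝓝 ℓ)

theorem Gd_smul (κ : ℝ) (c : ℝ) (g : (Vx 2 × Bool → ℤ) → ℝ) (hg : Gd κ g) :
    Gd κ (fun h => c * g h) := by
  obtain ⟨⟨C, hC⟩, ℓ, h1, h2⟩ := hg
  have key : ∀ (n : ℕ) (g : (Vx 2 × Bool → ℤ) → ℝ), En (wk κ) n (fun h => c * g h) =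
      c * En (wk κ) n g := fun n g => Eh_smul _ _ _ _ _ _
  refine ⟨⟨|c| * C, fun h => ?_⟩, c * ℓ, ?_, fun a => ?_⟩
  · rw [abs_mul]
    exact mul_le_mul_of_nonneg_left (hC h) (abs_nonneg _)
  · simp only [key]
    exact h1.const_mul c
  · have : ∀ n, En (wk κ) n (fun h => c * g (lsh a h)) = c * En (wk κ) n (fun h => g (lsh a h)) :=
      fun n => key n _
    simp only [this]
    exact (h2 a).const_mul c

theorem Gd_add (κ : ℝ) (hκ : 0 < κ) (g g' : (Vx 2 × Bool → ℤ) → ℝ) (hg : Gd κ g) (hg' : Gd κ g') :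
    Gd κ (fun h => g h + g' h) := by
  obtain ⟨⟨C, hC⟩, ℓ, h1, h2⟩ := hg
  obtain ⟨⟨C', hC'⟩, ℓ', h1', h2'⟩ := hg'
  have key : ∀ (n : ℕ) (g g' : (Vx 2 × Bool → ℤ) → ℝ), (∀ h, |g h| ≤ C) → (∀ h, |g' h| ≤ C') →
      En (wk κ) n (fun h => g h + g' h) = En (wk κ) n g + En (wk κ) n g' := fun n g g' a b =>
    Eh_add _ _ _ (FN_Bd n) _ (wk_ok κ hκ) _ _ (PBd_bdd _ _ C a) (PBd_bdd _ _ C' b)
  refine ⟨⟨C + C', fun h => (abs_add_le _ _).trans (add_le_add (hC h) (hC' h))⟩, ℓ + ℓ', ?_,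
    fun a => ?_⟩
  · simp only [key _ g g' hC hC']
    exact h1.add h1'
  · have : ∀ n, En (wk κ) n (fun h => g (lsh a h) + g' (lsh a h)) =
      En (wk κ) n (fun h => g (lsh a h)) + En (wk κ) n (fun h => g' (lsh a h)) :=
      fun n => key n _ _ (fun h => hC _) (fun h => hC' _)
    simp only [this]
    exact (h2 a).add (h2' a)

theorem Gd_zero (κ : ℝ) (hκ : 0 < κ) : Gd κ (fun _ => 0) := by
  have key : ∀ n, En (wk κ) n (fun _ => 0) = 0 := fun n =>
    Eh_one _ _ _ (FN_Bd n) _ (wk_ok κ hκ) 0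
  refine ⟨⟨0, fun h => by simp⟩, 0, ?_, fun a => ?_⟩
  · simp only [key]
    exact tendsto_const_nhds
  · simp only [key]
    exact tendsto_const_nhds

theorem Gd_sum {ι : Type} (κ : ℝ) (hκ : 0 < κ) (s : Finset ι) (g : ι → (Vx 2 × Bool → ℤ) → ℝ)
    (hg : ∀ i ∈ s, Gd κ (g i)) : Gd κ (fun h => ∑ i ∈ s, g i h) := by
  classical
  induction s using Finset.induction_on with
  | empty => simpa using Gd_zero κ hκ
  | insert i s hi ih =>
    simp only [Finset.sum_insert hi]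
    exact Gd_add κ hκ _ _ (hg i (Finset.mem_insert_self _ _))
      (ih fun j hj => hg j (Finset.mem_insert_of_mem hj))

theorem Gd_cos (κ : ℝ) (hκ : 0 < κ) (t : Vx 2 × Bool →₀ ℝ) : Gd κ (fun h => Real.cos (lin t h)) := by
  refine ⟨⟨1, fun h => Real.abs_cos_le_one _⟩, chL κ hκ t, chL_spec κ hκ t, fun a => ?_⟩
  simp only [← lin_tsh]
  rw [← chL_eq κ hκ a t]
  exact chL_spec κ hκ (tsh a t)

theorem En_sin (κ : ℝ) (hκ : 0 < κ) (n : ℕ) (t : Vx 2 × Bool →₀ ℝ) :
    En (wk κ) n (fun h => Real.sin (lin t h)) = 0 := by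
  have h1 := Eh_neg HH.gr (FN n) (EN n) (wk κ) (wk_ok κ hκ) (fun h => Real.sin (lin t h))
  have h2 := Eh_smul HH.gr (FN n) (EN n) (wk κ) (-1) (fun h => Real.sin (lin t h))
  have h3 : (fun h : Vx 2 × Bool → ℤ => Real.sin (lin t (-h))) =
      fun h => (-1) * Real.sin (lin t h) := by
    funext h
    rw [lin_neg, Real.sin_neg]
    ring
  rw [h3, h2] at h1
  unfold En
  linarith

theorem Gd_sin (κ : ℝ) (hκ : 0 < κ) (t : Vx 2 × Bool →₀ ℝ) : Gd κ (fun h => Real.sin (lin t h)) := by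
  refine ⟨⟨1, fun h => Real.abs_sin_le_one _⟩, 0, ?_, fun a => ?_⟩
  · simp only [En_sin κ hκ]
    exact tendsto_const_nhds
  · simp only [← lin_tsh, En_sin κ hκ]
    exact tendsto_const_nhds

theorem Gd_cosc (κ : ℝ) (hκ : 0 < κ) (c : ℝ) (t : Vx 2 × Bool →₀ ℝ) :
    Gd κ (fun h => Real.cos (c + lin t h)) := by
  have h1 := Gd_add κ hκ _ _ (Gd_smul κ (Real.cos c) _ (Gd_cos κ hκ t))
    (Gd_smul κ (-Real.sin c) _ (Gd_sin κ hκ t))
  convert h1 using 2 with h
  rw [Real.cos_add]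
  ring

theorem cos_avg (P : ℕ) (hP : 0 < P) (m : ℤ) :
    (∑ j ∈ range P, Real.cos (2 * Real.pi * j * m / P)) = if (P : ℤ) ∣ m then (P : ℝ) else 0 := by
  have hP' : (P : ℝ) ≠ 0 := by positivity
  have hPc : (P : ℂ) ≠ 0 := by exact_mod_cast hP.ne'
  split_ifs with h
  · obtain ⟨q, rfl⟩ := h
    have : ∀ j ∈ range P, Real.cos (2 * Real.pi * j * ((P * q : ℤ) : ℝ) / P) = 1 := by
      intro j _
      have e : 2 * Real.pi * j * ((P * q : ℤ) : ℝ) / P = ((j * q : ℤ) : ℝ) * (2 * Real.pi) := by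
        push_cast
        field_simp
      rw [e]
      exact Real.cos_int_mul_two_pi _
    rw [Finset.sum_congr rfl this]
    simp
  · set ζ : ℂ := Complex.exp (2 * Real.pi * Complex.I * m / P) with hζ
    have hne : ζ ≠ 1 := by
      rw [hζ, Ne, Complex.exp_eq_one_iff]
      rintro ⟨n, hn⟩
      apply h
      have h2 : (m : ℂ) = n * P := by
        have h3 : (2 * Real.pi * Complex.I : ℂ) ≠ 0 := by
          simp [Real.pi_ne_zero, Complex.I_ne_zero]
        have h4 : (2 * Real.pi * Complex.I : ℂ) * m = (2 * Real.pi * Complex.I) * (n * P) := by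
          rw [div_eq_iff hPc] at hn
          rw [hn]
          ring
        exact mul_left_cancel₀ h3 h4
      have h5 : m = n * P := by exact_mod_cast h2
      exact ⟨n, by rw [h5]; ring⟩
    have hpow : ζ ^ P = 1 := by
      rw [hζ, ← Complex.exp_nat_mul, Complex.exp_eq_one_iff]
      refine ⟨m, ?_⟩
      field_simp
    have hgeom : ∑ j ∈ range P, ζ ^ j = 0 := by
      rw [geom_sum_eq hne, hpow, sub_self, zero_div]
    have hre : ∀ j ∈ range P, Real.cos (2 * Real.pi * j * m / P) = (ζ ^ j).re := by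
      intro j _
      rw [hζ, ← Complex.exp_nat_mul]
      have e : (j : ℂ) * (2 * Real.pi * Complex.I * m / P) =
          ((2 * Real.pi * j * m / P : ℝ) : ℂ) * Complex.I := by
        push_cast
        ring
      rw [e, Complex.exp_ofReal_mul_I_re]
    rw [Finset.sum_congr rfl hre, ← Complex.re_sum, hgeom, Complex.zero_re]

theorem Gd_prod (κ : ℝ) (hκ : 0 < κ) (P : ℕ) (hP : 0 < P) (k : Vx 2 × Bool → ℤ)
    (S : Finset (Vx 2 × Bool)) : ∀ (c : ℝ) (t : Vx 2 × Bool →₀ ℝ),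
    Gd κ (fun h => (∏ v ∈ S, if (P : ℤ) ∣ h v - k v then (1 : ℝ) else 0) *
      Real.cos (c + lin t h)) := by
  classical
  induction S using Finset.induction_on with
  | empty =>
    intro c t
    simpa using Gd_cosc κ hκ c t
  | insert v S hv ih =>
    intro c t
    have h1 := Gd_smul κ (1 / (2 * P)) _ (Gd_sum κ hκ (range P) (fun j h =>
      (∏ v ∈ S, if (P : ℤ) ∣ h v - k v then (1 : ℝ) else 0) *
        Real.cos ((c - 2 * Real.pi * j * k v / P) + lin (t + Finsupp.single v (2 * Real.pi * j / P)) h) +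
      (∏ v ∈ S, if (P : ℤ) ∣ h v - k v then (1 : ℝ) else 0) *
        Real.cos ((c + 2 * Real.pi * j * k v / P) +
          lin (t + Finsupp.single v (-(2 * Real.pi * j / P))) h))
      (fun j _ => Gd_add κ hκ _ _ (ih _ _) (ih _ _)))
    convert h1 using 2 with h
    rw [Finset.prod_insert hv]
    have hP' : (P : ℝ) ≠ 0 := by positivity
    have h2 : (if (P : ℤ) ∣ h v - k v then (1 : ℝ) else 0) =
        (1 / P) * ∑ j ∈ range P, Real.cos (2 * Real.pi * j * ((h v - k v : ℤ) : ℝ) / P) := by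
      rw [cos_avg P hP]
      split_ifs
      · field_simp
      · simp
    rw [h2]
    have h3 : ∀ j : ℕ, Real.cos ((c - 2 * Real.pi * j * k v / P) +
        lin (t + Finsupp.single v (2 * Real.pi * j / P)) h) +
        Real.cos ((c + 2 * Real.pi * j * k v / P) +
          lin (t + Finsupp.single v (-(2 * Real.pi * j / P))) h) =
        2 * (Real.cos (2 * Real.pi * j * ((h v - k v : ℤ) : ℝ) / P) * Real.cos (c + lin t h)) := by
      intro j
      rw [lin_add, lin_add, lin_single, lin_single]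
      set A : ℝ := 2 * Real.pi * j * ((h v - k v : ℤ) : ℝ) / P with hA
      have e1 : (c - 2 * Real.pi * j * k v / P) + (lin t h + 2 * Real.pi * j / P * (h v : ℝ)) =
          (c + lin t h) + A := by
        rw [hA]
        push_cast
        ring
      have e2 : (c + 2 * Real.pi * j * k v / P) + (lin t h + -(2 * Real.pi * j / P) * (h v : ℝ)) =
          (c + lin t h) - A := by
        rw [hA]
        push_cast
        ring
      rw [e1, e2, Real.cos_add, Real.cos_sub]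
      ring
    simp only [← mul_add, h3]
    rw [Finset.mul_sum, Finset.sum_mul, Finset.sum_mul, Finset.mul_sum]
    refine Finset.sum_congr rfl fun j _ => ?_
    field_simp

/-- representative mod `2R+1` in `[-R,R]` -/
def rep (R : ℕ) (m : ℤ) : ℤ := (m + R) % (2 * R + 1) - R

theorem rep_mem (R : ℕ) (m : ℤ) : rep R m ∈ Finset.Icc (-(R : ℤ)) R := by
  unfold rep
  rw [Finset.mem_Icc]
  have h1 := Int.emod_nonneg (m + R) (by omega : (2 * (R : ℤ) + 1) ≠ 0)
  have h2 := Int.emod_lt_of_pos (m + R) (by omega : 0 < (2 * (R : ℤ) + 1))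
  constructor <;> omega

theorem rep_iff (R : ℕ) (m k : ℤ) (hk : k ∈ Finset.Icc (-(R : ℤ)) R) :
    ((2 * R + 1 : ℕ) : ℤ) ∣ m - k ↔ k = rep R m := by
  rw [Finset.mem_Icc] at hk
  unfold rep
  push_cast
  have h1 := Int.emod_add_mul_ediv (m + R) (2 * (R : ℤ) + 1)
  have h2 := Int.emod_nonneg (m + R) (by omega : (2 * (R : ℤ) + 1) ≠ 0)
  have h3 := Int.emod_lt_of_pos (m + R) (by omega : 0 < (2 * (R : ℤ) + 1))
  constructor
  · rintro ⟨q, hq⟩
    have h4 : m + R = (k + R) + (2 * (R : ℤ) + 1) * q := by linarith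
    have h5 : (m + R) % (2 * (R : ℤ) + 1) = k + R := by
      rw [h4, Int.add_mul_emod_self_left]
      exact Int.emod_eq_of_lt (by omega) (by omega)
    rw [h5]
    ring
  · intro h
    refine ⟨(m + R) / (2 * (R : ℤ) + 1), ?_⟩
    rw [h]
    linarith

theorem rep_self (R : ℕ) (m : ℤ) (hm : |m| ≤ R) : rep R m = m := by
  have := abs_le.1 hm
  exact ((rep_iff R m m (Finset.mem_Icc.2 this)).1 (by simp)).symm

end LIHx

open LIHx

theorem lih (κ C' : ℝ) (hκ : 0 < κ)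
    (hM : ∀ n : ℕ, ∀ i ∈ FN n, En (wk κ) n (fun h => (h i : ℝ) ^ 2) ≤ C')
    (S : Finset (Vx 2 × Bool)) (g : (Vx 2 × Bool → ℤ) → ℝ)
    (hg : ∀ h h', (∀ v ∈ S, h v = h' v) → g h = g h') (hb : ∀ h, |g h| ≤ 1) :
    ∃ ℓ : ℝ, Tendsto (fun n => En (wk κ) n g) atTop (𝓝 ℓ) ∧
      ∀ a : Vx 2, Tendsto (fun n => En (wk κ) n (fun h => g (fun v => h (v.1 + a, v.2)))) atTop (𝓝 ℓ) := by
  classical
  have hw := wk_ok κ hκ
  -- the periodised function
  set gP : ℕ → (Vx 2 × Bool → ℤ) → ℝ := fun R h =>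
    ∑ k ∈ Fintype.piFinset (fun _ : ↥S => Finset.Icc (-(R : ℤ)) R),
      g (ex k) * ((∏ v ∈ S, if ((2 * R + 1 : ℕ) : ℤ) ∣ h v - ex k v then (1 : ℝ) else 0) *
        Real.cos (0 + lin 0 h)) with hgP
  have hGd : ∀ R, Gd κ (gP R) := fun R =>
    Gd_sum κ hκ _ _ fun k _ => Gd_smul κ _ _ (Gd_prod κ hκ (2 * R + 1) (by omega) (ex k) S 0 0)
  have hval : ∀ R h, gP R h = g (ex (fun v : ↥S => rep R (h v.1))) := by
    intro R h
    rw [hgP]
    simp only [lin_zero, add_zero, Real.cos_zero, mul_one]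
    rw [Finset.sum_eq_single (fun v : ↥S => rep R (h v.1))]
    · have : ∏ v ∈ S, (if ((2 * R + 1 : ℕ) : ℤ) ∣ h v - ex (fun v : ↥S => rep R (h v.1)) v
          then (1 : ℝ) else 0) = 1 := by
        refine Finset.prod_eq_one fun v hv => ?_
        rw [if_pos]
        have e : ex (fun v : ↥S => rep R (h v.1)) v = rep R (h v) := by
          unfold ex
          rw [dif_pos hv]
        rw [e]
        exact (rep_iff R (h v) _ (rep_mem R _)).2 rfl
      rw [this, mul_one]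
    · intro k hk hne
      rw [Fintype.mem_piFinset] at hk
      obtain ⟨v, hv⟩ := Function.ne_iff.1 hne
      have e : ex k v.1 = k v := by
        unfold ex
        rw [dif_pos v.2]
      have : ∏ v ∈ S, (if ((2 * R + 1 : ℕ) : ℤ) ∣ h v - ex k v then (1 : ℝ) else 0) = 0 := by
        refine Finset.prod_eq_zero v.2 ?_
        rw [if_neg]
        rw [e, rep_iff R _ _ (hk v)]
        exact hv
      rw [this, mul_zero]
    · intro hn
      exact absurd (Fintype.mem_piFinset.2 fun v => rep_mem R _) hn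
  -- pointwise comparison
  have hpt : ∀ R h, |g h - gP R h| ≤ ∑ v ∈ S, (2 / ((R : ℝ) + 1) ^ 2) * (h v : ℝ) ^ 2 := by
    intro R h
    rw [hval]
    by_cases hs : ∀ v ∈ S, |h v| ≤ R
    · have e : g (ex (fun v : ↥S => rep R (h v.1))) = g h := by
        refine hg _ _ fun v hv => ?_
        unfold ex
        rw [dif_pos hv]
        exact rep_self R (h v) (hs v hv)
      rw [e, sub_self, abs_zero]
      exact Finset.sum_nonneg fun v _ => by positivity
    · push Not at hs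
      obtain ⟨v, hv, hlt⟩ := hs
      have h1 : |g h - g (ex (fun v : ↥S => rep R (h v.1)))| ≤ 2 := by
        have := abs_sub (g h) (g (ex (fun v : ↥S => rep R (h v.1))))
        linarith [hb h, hb (ex (fun v : ↥S => rep R (h v.1)))]
      refine h1.trans ?_
      refine le_trans ?_ (Finset.single_le_sum (f := fun v => (2 / ((R : ℝ) + 1) ^ 2) * (h v : ℝ) ^ 2)
        (fun v _ => by positivity) hv)
      have h2 : (R : ℝ) + 1 ≤ |(h v : ℝ)| := by
        have : (R : ℤ) + 1 ≤ |h v| := hlt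
        exact_mod_cast this
      have h3 : ((R : ℝ) + 1) ^ 2 ≤ (h v : ℝ) ^ 2 := by
        rw [← sq_abs (h v : ℝ)]
        gcongr
      show 2 ≤ (2 / ((R : ℝ) + 1) ^ 2) * (h v : ℝ) ^ 2
      rw [div_mul_eq_mul_div, le_div_iff₀ (by positivity)]
      linarith
  have hgPb : ∀ R h, |gP R h| ≤ 1 := fun R h => by
    rw [hval]
    exact hb _
  -- comparison of expectations
  have hcmp : ∀ (R : ℕ) (a : Vx 2) (n : ℕ), (S.image (fun v => (v.1 + a, v.2))) ⊆ FN n →
      |En (wk κ) n (fun h => g (lsh a h)) - En (wk κ) n (fun h => gP R (lsh a h))| ≤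
        (S.card : ℝ) * ((2 / ((R : ℝ) + 1) ^ 2) * |C'|) := by
    intro R a n hn
    have hB := FN_Bd n
    have hp1 : PBd (FN n) (fun h => g (lsh a h)) := PBd_bdd _ _ 1 fun h => hb _
    have hp2 : PBd (FN n) (fun h => gP R (lsh a h)) := PBd_bdd _ _ 1 fun h => hgPb R _
    have hpv : ∀ v, PBd (FN n) (fun h => (2 / ((R : ℝ) + 1) ^ 2) * ((lsh a h v : ℤ) : ℝ) ^ 2) := by
      intro v
      refine PBd_smul _ _ _ ?_
      have := PBd_mul _ _ _ (PBd_h (FN n) (v.1 + a, v.2)) (PBd_h (FN n) (v.1 + a, v.2))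
      convert this using 2 with h
      rw [pow_two]
      rfl
    have hp3 : PBd (FN n) (fun h => ∑ v ∈ S, (2 / ((R : ℝ) + 1) ^ 2) * ((lsh a h v : ℤ) : ℝ) ^ 2) := by
      have : ∀ T : Finset (Vx 2 × Bool), PBd (FN n)
          (fun h => ∑ v ∈ T, (2 / ((R : ℝ) + 1) ^ 2) * ((lsh a h v : ℤ) : ℝ) ^ 2) := by
        intro T
        induction T using Finset.induction_on with
        | empty => exact PBd_bdd _ _ 0 fun h => by simp
        | insert v T hv ih =>
          simp only [Finset.sum_insert hv]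
          exact PBd_add _ _ _ (hpv v) ih
      exact this S
    have hmom : En (wk κ) n (fun h => ∑ v ∈ S, (2 / ((R : ℝ) + 1) ^ 2) * ((lsh a h v : ℤ) : ℝ) ^ 2) ≤
        (S.card : ℝ) * ((2 / ((R : ℝ) + 1) ^ 2) * |C'|) := by
      have h1 := Eh_sum HH.gr (FN n) (EN n) hB (wk κ) hw S
        (fun v h => (2 / ((R : ℝ) + 1) ^ 2) * ((lsh a h v : ℤ) : ℝ) ^ 2) (fun v _ => hpv v)
      unfold En
      rw [h1]
      have h2 : ∀ v ∈ S, Eh HH.gr (FN n) (EN n) (wk κ)
          (fun h => (2 / ((R : ℝ) + 1) ^ 2) * ((lsh a h v : ℤ) : ℝ) ^ 2) ≤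
          (2 / ((R : ℝ) + 1) ^ 2) * |C'| := by
        intro v hv
        rw [Eh_smul]
        refine mul_le_mul_of_nonneg_left ?_ (by positivity)
        exact (hM n (v.1 + a, v.2) (hn (Finset.mem_image_of_mem _ hv))).trans (le_abs_self _)
      refine (Finset.sum_le_sum h2).trans (le_of_eq ?_)
      rw [Finset.sum_const, nsmul_eq_mul]
    have hadd : ∀ f f' : (Vx 2 × Bool → ℤ) → ℝ, PBd (FN n) f → PBd (FN n) f' →
        En (wk κ) n (fun h => f h + f' h) = En (wk κ) n f + En (wk κ) n f' :=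
      fun f f' a b => Eh_add _ _ _ hB _ hw _ _ a b
    have hmono : ∀ f f' : (Vx 2 × Bool → ℤ) → ℝ, PBd (FN n) f → PBd (FN n) f' →
        (∀ h, f h ≤ f' h) → En (wk κ) n f ≤ En (wk κ) n f' :=
      fun f f' a b c => Eh_mono _ _ _ hB _ hw _ _ a b (fun h => c _)
    have hpta : ∀ h, |g (lsh a h) - gP R (lsh a h)| ≤
        ∑ v ∈ S, (2 / ((R : ℝ) + 1) ^ 2) * ((lsh a h v : ℤ) : ℝ) ^ 2 := fun h => hpt R (lsh a h)
    have h1 := hmono _ _ hp1 (PBd_add _ _ _ hp2 hp3) (fun h => by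
      have := (abs_le.1 (hpta h)).2
      linarith)
    rw [hadd _ _ hp2 hp3] at h1
    have h2 := hmono _ _ hp2 (PBd_add _ _ _ hp1 hp3) (fun h => by
      have := (abs_le.1 (hpta h)).1
      linarith)
    rw [hadd _ _ hp1 hp3] at h2
    rw [abs_le]
    constructor <;> linarith
  -- smallness
  have hsmall : ∀ ε : ℝ, 0 < ε → ∃ R : ℕ, (S.card : ℝ) * ((2 / ((R : ℝ) + 1) ^ 2) * |C'|) < ε := by
    intro ε hε
    obtain ⟨R, hR⟩ := exists_nat_gt ((S.card : ℝ) * (2 * |C'|) / ε)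
    refine ⟨R, ?_⟩
    rw [div_lt_iff₀ hε] at hR
    have hR1 : (R : ℝ) ≤ ((R : ℝ) + 1) ^ 2 := by nlinarith [(Nat.cast_nonneg R : (0 : ℝ) ≤ R)]
    have hpos : (0 : ℝ) < ((R : ℝ) + 1) ^ 2 := by positivity
    have e : (S.card : ℝ) * ((2 / ((R : ℝ) + 1) ^ 2) * |C'|) =
        (S.card : ℝ) * (2 * |C'|) / ((R : ℝ) + 1) ^ 2 := by
      field_simp
    rw [e, div_lt_iff₀ hpos]
    nlinarith
  have hlsh0 : ∀ h : Vx 2 × Bool → ℤ, lsh 0 h = h := by
    intro h
    funext v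
    simp [lsh]
  have hev : ∀ a : Vx 2, ∀ᶠ n in atTop, (S.image (fun v : Vx 2 × Bool => (v.1 + a, v.2))) ⊆ FN n := by
    intro a
    obtain ⟨n0, h0⟩ := lih_FN_ev (S.image (fun v : Vx 2 × Bool => (v.1 + a, v.2)))
    filter_upwards [eventually_ge_atTop n0] with n hn
    exact h0 n hn
  have hcmp0 : ∀ (R : ℕ), ∀ᶠ n in atTop,
      |En (wk κ) n g - En (wk κ) n (gP R)| ≤ (S.card : ℝ) * ((2 / ((R : ℝ) + 1) ^ 2) * |C'|) := by
    intro R
    filter_upwards [hev 0] with n hn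
    have := hcmp R 0 n hn
    simp only [hlsh0] at this
    exact this
  -- Cauchy
  have hcauchy : CauchySeq (fun n => En (wk κ) n g) := by
    rw [Metric.cauchySeq_iff']
    intro ε hε
    obtain ⟨R, hR⟩ := hsmall (ε / 4) (by positivity)
    obtain ⟨-, ℓ, hℓ, -⟩ := hGd R
    have h1 := Metric.tendsto_atTop.1 hℓ (ε / 4) (by positivity)
    obtain ⟨n1, hn1⟩ := h1
    obtain ⟨n2, hn2⟩ := eventually_atTop.1 (hcmp0 R)
    refine ⟨max n1 n2, fun n hn => ?_⟩
    have a1 := hn1 n (le_trans (le_max_left _ _) hn)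
    have a2 := hn1 (max n1 n2) (le_max_left _ _)
    have b1 := (hn2 n (le_trans (le_max_right _ _) hn)).trans_lt hR
    have b2 := (hn2 (max n1 n2) (le_max_right _ _)).trans_lt hR
    rw [Real.dist_eq] at a1 a2 ⊢
    rw [abs_lt] at a1 a2 b1 b2 ⊢
    constructor <;> linarith
  obtain ⟨ℓ, hℓ⟩ := cauchySeq_tendsto_of_complete hcauchy
  refine ⟨ℓ, hℓ, fun a => ?_⟩
  rw [Metric.tendsto_atTop]
  intro ε hε
  obtain ⟨R, hR⟩ := hsmall (ε / 5) (by positivity)
  obtain ⟨-, ℓ', hℓ', hℓa⟩ := hGd R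
  have c1 : ∀ᶠ n in atTop, |En (wk κ) n (gP R) - ℓ'| < ε / 5 := by
    have := Metric.tendsto_nhds.1 hℓ' (ε / 5) (by positivity)
    simpa only [Real.dist_eq] using this
  have c2 : ∀ᶠ n in atTop, |En (wk κ) n (fun h => gP R (lsh a h)) - ℓ'| < ε / 5 := by
    have := Metric.tendsto_nhds.1 (hℓa a) (ε / 5) (by positivity)
    simpa only [Real.dist_eq] using this
  have c3 : ∀ᶠ n in atTop, |En (wk κ) n g - ℓ| < ε / 5 := by
    have := Metric.tendsto_nhds.1 hℓ (ε / 5) (by positivity)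
    simpa only [Real.dist_eq] using this
  obtain ⟨N, hN⟩ := eventually_atTop.1 ((((c1.and c2).and c3).and (hcmp0 R)).and (hev a))
  refine ⟨N, fun n hn => ?_⟩
  obtain ⟨⟨⟨⟨d1, d2⟩, d3⟩, d4⟩, d5⟩ := hN n hn
  have d6 := (hcmp R a n d5).trans_lt hR
  have d4' := d4.trans_lt hR
  rw [Real.dist_eq]
  have e : (fun h : Vx 2 × Bool → ℤ => g (fun v => h (v.1 + a, v.2))) = fun h => g (lsh a h) := rfl
  rw [e]
  rw [abs_lt] at d1 d2 d3 d4' d6 ⊢
  constructor <;> linarith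

end H82.BX

end S_H82_BX_LIH

section S_H82_BX_CR1

/-!
# CR1: an infinite cluster of the box `FN K` touches one of the four sides of `FN N`

`AS K S N σ`: some vertex of `FN K` is connected to `σ` by edges of `S ∩ inN N`.
`as_geo`: `v ∈ FN K ⊆ FN N` has an infinite cluster in `S`, so it is connected to a vertex outside the finite set `FN N`; follow a path to the first exit of `FN N`: the part before the exit uses edges of `S ∩ inN N` and its last vertex `w` has a neighbour outside of `FN N`: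
an upper triangle `(z, true)` has the neighbours `(z, false)`, `(z - e₀, false)`, `(z + e₁, false)`, so `w = (z, true)` has `z 0 = -N` (`w ∈ Lf N`) or `z 1 = N - 1` (`Tp N`); a lower triangle `(z, false)` has the neighbours `(z, true)`, `(z + e₀, true)`, `(z - e₁, true)`, so
`z 0 = N - 1` (`Rt N`) or `z 1 = -N` (`Bt N`).
`as_sy1`, `as_sy2`: the reflections `sV1`, `sV2` preserve `FN K`, `FN N`, `inN N` and exchange the sides: `sV1 : Lf ↔ Bt, Rt ↔ Tp`, `sV2 : Lf ↔ Tp, Rt ↔ Bt`; the edge `e` is open in `ω ∘ sE1` iff `sE1 e` is open in `ω` and `sE1` is an involution which maps the ends of `e` to the ends of `sE1 e`.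
`tb_sy1`: same for the crossings.
-/

set_option autoImplicit false

open Finset MeasureTheory Filter Topology

namespace H82.BX

open H82.IC XYB

/-- `FN K` is joined to `σ` inside `FN N`. -/
def AS (K N : ℕ) (σ : Set (Vx 2 × Bool)) (S : Set (Vx 2 × Fin 3)) : Prop :=
  ∃ u ∈ FN K, ∃ v ∈ σ, HH.gr.Conn (S ∩ inN N) u v

theorem CR1_s0 (x : Vx 2) : HH.gr.s (x, (0 : Fin 3)) = (x, false) := by
  show (x + 0, false) = (x, false)
  rw [add_zero]

theorem CR1_r0 (x : Vx 2) : HH.gr.r (x, (0 : Fin 3)) = (x + -Pi.single 1 1, true) := rfl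

theorem CR1_s1 (x : Vx 2) : HH.gr.s (x, (1 : Fin 3)) = (x + -Pi.single 0 1, false) := rfl

theorem CR1_r1 (x : Vx 2) : HH.gr.r (x, (1 : Fin 3)) = (x, true) := by
  show (x + 0, true) = (x, true)
  rw [add_zero]

theorem CR1_s2 (x : Vx 2) : HH.gr.s (x, (2 : Fin 3)) = (x, true) := by
  show (x + 0, true) = (x, true)
  rw [add_zero]

theorem CR1_r2 (x : Vx 2) : HH.gr.r (x, (2 : Fin 3)) = (x, false) := by
  show (x + 0, false) = (x, false)
  rw [add_zero]

theorem CR1_mem (n : ℕ) (x : Vx 2) (k : Bool) :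
    (x, k) ∈ FN n ↔ (-(n : ℤ) ≤ x 0 ∧ x 0 < n) ∧ (-(n : ℤ) ≤ x 1 ∧ x 1 < n) := by
  rw [mem_FN, Fin.forall_fin_two]

/-- the side of the box through which the path leaves. -/
theorem CR1_exit (N : ℕ) (a b : Vx 2 × Bool) (e : Vx 2 × Fin 3)
    (hab : (HH.gr.s e = a ∧ HH.gr.r e = b) ∨ (HH.gr.s e = b ∧ HH.gr.r e = a))
    (ha : a ∈ FN N) (hb : b ∉ FN N) : a ∈ Lf N ∨ a ∈ Rt N ∨ a ∈ Tp N ∨ a ∈ Bt N := by
  obtain ⟨x, k⟩ := e
  fin_cases k
  · change (HH.gr.s (x, (0 : Fin 3)) = a ∧ HH.gr.r (x, (0 : Fin 3)) = b) ∨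
      (HH.gr.s (x, (0 : Fin 3)) = b ∧ HH.gr.r (x, (0 : Fin 3)) = a) at hab
    rw [CR1_s0, CR1_r0] at hab
    rcases hab with ⟨rfl, rfl⟩ | ⟨rfl, rfl⟩
    · right; right; right
      refine ⟨ha, rfl, ?_⟩
      rw [CR1_mem] at ha hb
      simp at ha hb ⊢
      omega
    · right; right; left
      refine ⟨ha, rfl, ?_⟩
      rw [CR1_mem] at ha hb
      simp at ha hb ⊢
      omega
  · change (HH.gr.s (x, (1 : Fin 3)) = a ∧ HH.gr.r (x, (1 : Fin 3)) = b) ∨
      (HH.gr.s (x, (1 : Fin 3)) = b ∧ HH.gr.r (x, (1 : Fin 3)) = a) at hab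
    rw [CR1_s1, CR1_r1] at hab
    rcases hab with ⟨rfl, rfl⟩ | ⟨rfl, rfl⟩
    · right; left
      refine ⟨ha, rfl, ?_⟩
      rw [CR1_mem] at ha hb
      simp at ha hb ⊢
      omega
    · left
      refine ⟨ha, rfl, ?_⟩
      rw [CR1_mem] at ha hb
      simp at ha hb ⊢
      omega
  · change (HH.gr.s (x, (2 : Fin 3)) = a ∧ HH.gr.r (x, (2 : Fin 3)) = b) ∨
      (HH.gr.s (x, (2 : Fin 3)) = b ∧ HH.gr.r (x, (2 : Fin 3)) = a) at hab
    rw [CR1_s2, CR1_r2] at hab
    rcases hab with ⟨rfl, rfl⟩ | ⟨rfl, rfl⟩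
    · exfalso
      rw [CR1_mem] at ha hb
      exact hb ha
    · exfalso
      rw [CR1_mem] at ha hb
      exact hb ha

theorem as_geo (K N : ℕ) (hKN : K ≤ N) (S : Set (Vx 2 × Fin 3)) (v : Vx 2 × Bool) (hv : v ∈ FN K)
    (hinf : (HH.gr.cl S v).Infinite) :
    AS K N (Lf N) S ∨ AS K N (Rt N) S ∨ AS K N (Tp N) S ∨ AS K N (Bt N) S := by
  have hvN : v ∈ FN N := by
    rw [mem_FN] at hv ⊢
    intro i
    have h := hv i
    have h2 : (K : ℤ) ≤ N := by exact_mod_cast hKN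
    constructor <;> omega
  have hex : ∃ u ∈ HH.gr.cl S v, u ∉ FN N := by
    by_contra hcon
    push Not at hcon
    exact hinf ((FN N).finite_toSet.subset (fun u hu => hcon u hu))
  obtain ⟨u, hu, huN⟩ := hex
  have key : ∀ u, HH.gr.Conn S v u → (u ∈ FN N ∧ HH.gr.Conn (S ∩ inN N) v u) ∨
      ∃ w, HH.gr.Conn (S ∩ inN N) v w ∧ (w ∈ Lf N ∨ w ∈ Rt N ∨ w ∈ Tp N ∨ w ∈ Bt N) := by
    intro u hu
    induction hu with
    | refl => exact Or.inl ⟨hvN, conn_refl _ _ _⟩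
    | @tail a b _ hab ih =>
      rcases ih with ⟨ha, hc⟩ | h
      · obtain ⟨e, he, hab⟩ := hab
        by_cases hb : b ∈ FN N
        · left
          refine ⟨hb, Relation.ReflTransGen.tail hc ⟨e, ⟨he, ?_⟩, hab⟩⟩
          show HH.gr.s e ∈ (FN N : Set (Vx 2 × Bool)) ∧ HH.gr.r e ∈ (FN N : Set (Vx 2 × Bool))
          rcases hab with ⟨h1, h2⟩ | ⟨h1, h2⟩
          · rw [h1, h2]
            exact ⟨ha, hb⟩
          · rw [h1, h2]
            exact ⟨hb, ha⟩
        · right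
          exact ⟨a, hc, CR1_exit N a b e hab ha hb⟩
      · exact Or.inr h
  rcases key u hu with ⟨h1, _⟩ | ⟨w, hw, h⟩
  · exact absurd h1 huN
  · rcases h with h | h | h | h
    · exact Or.inl ⟨v, hv, w, h, hw⟩
    · exact Or.inr (Or.inl ⟨v, hv, w, h, hw⟩)
    · exact Or.inr (Or.inr (Or.inl ⟨v, hv, w, h, hw⟩))
    · exact Or.inr (Or.inr (Or.inr ⟨v, hv, w, h, hw⟩))

/-- `ψ` maps the ends of `e` to the ends of the image. -/
def CR1H {V E : Type} (G : Gr V E) (φ : V → V) (ψ : E → E) : Prop :=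
  ∀ e, (G.s (ψ e) = φ (G.s e) ∧ G.r (ψ e) = φ (G.r e)) ∨
    (G.s (ψ e) = φ (G.r e) ∧ G.r (ψ e) = φ (G.s e))

theorem CR1_tr {V E : Type} (G : Gr V E) (φ : V → V) (ψ : E → E) (h : CR1H G φ ψ) (S S' : Set E)
    (hS : ∀ e ∈ S, ψ e ∈ S') (u v : V) (hc : G.Conn S u v) : G.Conn S' (φ u) (φ v) := by
  induction hc with
  | refl => exact conn_refl _ _ _
  | @tail a b _ hab ih =>
    refine Relation.ReflTransGen.tail ih ?_
    obtain ⟨e, he, hab⟩ := hab
    refine ⟨ψ e, hS e he, ?_⟩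
    rcases h e with ⟨h1, h2⟩ | ⟨h1, h2⟩
    · rw [h1, h2]
      rcases hab with ⟨h3, h4⟩ | ⟨h3, h4⟩
      · left
        rw [h3, h4]
        exact ⟨rfl, rfl⟩
      · right
        rw [h3, h4]
        exact ⟨rfl, rfl⟩
    · rw [h1, h2]
      rcases hab with ⟨h3, h4⟩ | ⟨h3, h4⟩
      · right
        rw [h3, h4]
        exact ⟨rfl, rfl⟩
      · left
        rw [h3, h4]
        exact ⟨rfl, rfl⟩

theorem CR1_in (N : ℕ) (φ : Vx 2 × Bool → Vx 2 × Bool) (ψ : Vx 2 × Fin 3 → Vx 2 × Fin 3)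
    (h : CR1H HH.gr φ ψ) (hN : ∀ v ∈ FN N, φ v ∈ FN N) (e : Vx 2 × Fin 3) (he : e ∈ inN N) :
    ψ e ∈ inN N := by
  obtain ⟨h1, h2⟩ := he
  show HH.gr.s (ψ e) ∈ (FN N : Set (Vx 2 × Bool)) ∧ HH.gr.r (ψ e) ∈ (FN N : Set (Vx 2 × Bool))
  rcases h e with ⟨h3, h4⟩ | ⟨h3, h4⟩
  · rw [h3, h4]
    exact ⟨hN _ h1, hN _ h2⟩
  · rw [h3, h4]
    exact ⟨hN _ h2, hN _ h1⟩

theorem CR1_cn (N : ℕ) (φ : Vx 2 × Bool → Vx 2 × Bool) (ψ : Vx 2 × Fin 3 → Vx 2 × Fin 3)
    (h : CR1H HH.gr φ ψ) (hN : ∀ v ∈ FN N, φ v ∈ FN N) (ω : Vx 2 × Fin 3 → Bool)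
    (u v : Vx 2 × Bool) (hc : HH.gr.Conn (op1 (ω ∘ ψ) ∩ inN N) u v) :
    HH.gr.Conn (op1 ω ∩ inN N) (φ u) (φ v) :=
  CR1_tr HH.gr φ ψ h (op1 (ω ∘ ψ) ∩ inN N) (op1 ω ∩ inN N)
    (fun e he => ⟨he.1, CR1_in N φ ψ h hN e he.2⟩) u v hc

theorem CR1_cn' (N : ℕ) (φ : Vx 2 × Bool → Vx 2 × Bool) (ψ : Vx 2 × Fin 3 → Vx 2 × Fin 3)
    (h : CR1H HH.gr φ ψ) (hN : ∀ v ∈ FN N, φ v ∈ FN N) (hi : ∀ e, ψ (ψ e) = e)
    (ω : Vx 2 × Fin 3 → Bool)
    (u v : Vx 2 × Bool) (hc : HH.gr.Conn (op1 ω ∩ inN N) u v) :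
    HH.gr.Conn (op1 (ω ∘ ψ) ∩ inN N) (φ u) (φ v) := by
  refine CR1_tr HH.gr φ ψ h (op1 ω ∩ inN N) (op1 (ω ∘ ψ) ∩ inN N)
    (fun e he => ⟨?_, CR1_in N φ ψ h hN e he.2⟩) u v hc
  show ω (ψ (ψ e)) = true
  rw [hi]
  exact he.1

theorem CR1_as (K N : ℕ) (φ : Vx 2 × Bool → Vx 2 × Bool) (ψ : Vx 2 × Fin 3 → Vx 2 × Fin 3)
    (h : CR1H HH.gr φ ψ) (hK : ∀ n, ∀ v ∈ FN n, φ v ∈ FN n) (hi : ∀ e, ψ (ψ e) = e)
    (σ σ' : Set (Vx 2 × Bool)) (h1 : ∀ v ∈ σ, φ v ∈ σ') (h2 : ∀ v ∈ σ', φ v ∈ σ)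
    (ω : Vx 2 × Fin 3 → Bool) :
    AS K N σ (op1 (ω ∘ ψ)) ↔ AS K N σ' (op1 ω) := by
  constructor
  · rintro ⟨u, hu, v, hv, hc⟩
    exact ⟨φ u, hK K u hu, φ v, h1 v hv, CR1_cn N φ ψ h (hK N) ω u v hc⟩
  · rintro ⟨u, hu, v, hv, hc⟩
    exact ⟨φ u, hK K u hu, φ v, h2 v hv, CR1_cn' N φ ψ h (hK N) hi ω u v hc⟩

theorem CR1_H1 : CR1H HH.gr sV1 sE1 := by
  rintro ⟨x, k⟩
  fin_cases k
  · right
    change HH.gr.s (swp x, (1 : Fin 3)) = sV1 (HH.gr.r (x, (0 : Fin 3))) ∧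
      HH.gr.r (swp x, (1 : Fin 3)) = sV1 (HH.gr.s (x, (0 : Fin 3)))
    rw [CR1_s0, CR1_r0, CR1_s1, CR1_r1]
    refine ⟨Prod.ext ?_ rfl, rfl⟩
    funext i
    fin_cases i <;> simp [sV1, swp]
  · right
    change HH.gr.s (swp x, (0 : Fin 3)) = sV1 (HH.gr.r (x, (1 : Fin 3))) ∧
      HH.gr.r (swp x, (0 : Fin 3)) = sV1 (HH.gr.s (x, (1 : Fin 3)))
    rw [CR1_s0, CR1_r0, CR1_s1, CR1_r1]
    refine ⟨rfl, Prod.ext ?_ rfl⟩
    funext i
    fin_cases i <;> simp [sV1, swp]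
  · right
    change HH.gr.s (swp x, (2 : Fin 3)) = sV1 (HH.gr.r (x, (2 : Fin 3))) ∧
      HH.gr.r (swp x, (2 : Fin 3)) = sV1 (HH.gr.s (x, (2 : Fin 3)))
    rw [CR1_s2, CR1_r2, CR1_s2, CR1_r2]
    exact ⟨rfl, rfl⟩

theorem CR1_H2 : CR1H HH.gr sV2 sE2 := by
  rintro ⟨x, k⟩
  fin_cases k
  · left
    change HH.gr.s (-swp x - Pi.single 1 1, (1 : Fin 3)) = sV2 (HH.gr.s (x, (0 : Fin 3))) ∧
      HH.gr.r (-swp x - Pi.single 1 1, (1 : Fin 3)) = sV2 (HH.gr.r (x, (0 : Fin 3)))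
    rw [CR1_s0, CR1_r0, CR1_s1, CR1_r1]
    refine ⟨Prod.ext ?_ rfl, Prod.ext ?_ rfl⟩
    · funext i
      fin_cases i
      · show -(x 1) - 0 + -1 = -(x 1) - 1
        ring
      · show -(x 0) - 1 + -0 = -(x 0) - 1
        ring
    · funext i
      fin_cases i
      · show -(x 1) - 0 = -(x 1 + -1) - 1
        ring
      · show -(x 0) - 1 = -(x 0 + -0) - 1
        ring
  · left
    change HH.gr.s (-swp x - Pi.single 0 1, (0 : Fin 3)) = sV2 (HH.gr.s (x, (1 : Fin 3))) ∧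
      HH.gr.r (-swp x - Pi.single 0 1, (0 : Fin 3)) = sV2 (HH.gr.r (x, (1 : Fin 3)))
    rw [CR1_s0, CR1_r0, CR1_s1, CR1_r1]
    refine ⟨Prod.ext ?_ rfl, Prod.ext ?_ rfl⟩
    · funext i
      fin_cases i
      · show -(x 1) - 1 = -(x 1 + -0) - 1
        ring
      · show -(x 0) - 0 = -(x 0 + -1) - 1
        ring
    · funext i
      fin_cases i
      · show -(x 1) - 1 + -0 = -(x 1) - 1
        ring
      · show -(x 0) - 0 + -1 = -(x 0) - 1
        ring
  · left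
    change HH.gr.s (-swp x - 1, (2 : Fin 3)) = sV2 (HH.gr.s (x, (2 : Fin 3))) ∧
      HH.gr.r (-swp x - 1, (2 : Fin 3)) = sV2 (HH.gr.r (x, (2 : Fin 3)))
    rw [CR1_s2, CR1_r2, CR1_s2, CR1_r2]
    exact ⟨rfl, rfl⟩

theorem CR1_i1 (e : Vx 2 × Fin 3) : sE1 (sE1 e) = e := by
  obtain ⟨x, k⟩ := e
  refine Prod.ext ?_ ?_
  · funext i
    fin_cases i <;> rfl
  · fin_cases k <;> rfl

theorem CR1_i2 (e : Vx 2 × Fin 3) : sE2 (sE2 e) = e := by
  obtain ⟨x, k⟩ := e
  refine Prod.ext ?_ ?_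
  · funext i
    fin_cases k <;> fin_cases i
    · show -(-(x 0) - 1) - 1 = x 0
      ring
    · show -(-(x 1) - 0) - 0 = x 1
      ring
    · show -(-(x 0) - 0) - 0 = x 0
      ring
    · show -(-(x 1) - 1) - 1 = x 1
      ring
    · show -(-(x 0) - 1) - 1 = x 0
      ring
    · show -(-(x 1) - 1) - 1 = x 1
      ring
  · fin_cases k <;> rfl

theorem CR1_F1 (n : ℕ) : ∀ v ∈ FN n, sV1 v ∈ FN n := by
  rintro ⟨x, k⟩ hv
  show (swp x, !k) ∈ FN n
  rw [CR1_mem] at hv ⊢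
  exact ⟨hv.2, hv.1⟩

theorem CR1_F2 (n : ℕ) : ∀ v ∈ FN n, sV2 v ∈ FN n := by
  rintro ⟨x, k⟩ hv
  show (-swp x - 1, k) ∈ FN n
  rw [CR1_mem] at hv ⊢
  simp [swp] at hv ⊢
  omega

theorem CR1_LB1 (N : ℕ) : ∀ v ∈ Lf N, sV1 v ∈ Bt N := by
  rintro ⟨x, k⟩ ⟨h1, h2, h3⟩
  refine ⟨CR1_F1 N _ h1, ?_, h3⟩
  show (!k) = false
  rw [show k = true from h2]
  rfl

theorem CR1_BL1 (N : ℕ) : ∀ v ∈ Bt N, sV1 v ∈ Lf N := by
  rintro ⟨x, k⟩ ⟨h1, h2, h3⟩
  refine ⟨CR1_F1 N _ h1, ?_, h3⟩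
  show (!k) = true
  rw [show k = false from h2]
  rfl

theorem CR1_RT1 (N : ℕ) : ∀ v ∈ Rt N, sV1 v ∈ Tp N := by
  rintro ⟨x, k⟩ ⟨h1, h2, h3⟩
  refine ⟨CR1_F1 N _ h1, ?_, h3⟩
  show (!k) = true
  rw [show k = false from h2]
  rfl

theorem CR1_TR1 (N : ℕ) : ∀ v ∈ Tp N, sV1 v ∈ Rt N := by
  rintro ⟨x, k⟩ ⟨h1, h2, h3⟩
  refine ⟨CR1_F1 N _ h1, ?_, h3⟩
  show (!k) = false
  rw [show k = true from h2]
  rfl

theorem CR1_LT2 (N : ℕ) : ∀ v ∈ Lf N, sV2 v ∈ Tp N := by
  rintro ⟨x, k⟩ ⟨h1, h2, h3⟩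
  refine ⟨CR1_F2 N _ h1, h2, ?_⟩
  have h4 : x 0 = -(N : ℤ) := h3
  show -(x 0) - 1 = (N : ℤ) - 1
  omega

theorem CR1_TL2 (N : ℕ) : ∀ v ∈ Tp N, sV2 v ∈ Lf N := by
  rintro ⟨x, k⟩ ⟨h1, h2, h3⟩
  refine ⟨CR1_F2 N _ h1, h2, ?_⟩
  have h4 : x 1 = (N : ℤ) - 1 := h3
  show -(x 1) - 1 = -(N : ℤ)
  omega

theorem CR1_RB2 (N : ℕ) : ∀ v ∈ Rt N, sV2 v ∈ Bt N := by
  rintro ⟨x, k⟩ ⟨h1, h2, h3⟩
  refine ⟨CR1_F2 N _ h1, h2, ?_⟩
  have h4 : x 0 = (N : ℤ) - 1 := h3
  show -(x 0) - 1 = -(N : ℤ)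
  omega

theorem CR1_BR2 (N : ℕ) : ∀ v ∈ Bt N, sV2 v ∈ Rt N := by
  rintro ⟨x, k⟩ ⟨h1, h2, h3⟩
  refine ⟨CR1_F2 N _ h1, h2, ?_⟩
  have h4 : x 1 = -(N : ℤ) := h3
  show -(x 1) - 1 = (N : ℤ) - 1
  omega

theorem as_sy1 (K N : ℕ) (ω : Vx 2 × Fin 3 → Bool) :
    (AS K N (Bt N) (op1 (ω ∘ sE1)) ↔ AS K N (Lf N) (op1 ω)) ∧
      (AS K N (Tp N) (op1 (ω ∘ sE1)) ↔ AS K N (Rt N) (op1 ω)) :=
  ⟨CR1_as K N sV1 sE1 CR1_H1 CR1_F1 CR1_i1 _ _ (CR1_BL1 N) (CR1_LB1 N) ω,
    CR1_as K N sV1 sE1 CR1_H1 CR1_F1 CR1_i1 _ _ (CR1_TR1 N) (CR1_RT1 N) ω⟩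

theorem as_sy2 (K N : ℕ) (ω : Vx 2 × Fin 3 → Bool) :
    (AS K N (Tp N) (op1 (ω ∘ sE2)) ↔ AS K N (Lf N) (op1 ω)) ∧
      (AS K N (Bt N) (op1 (ω ∘ sE2)) ↔ AS K N (Rt N) (op1 ω)) :=
  ⟨CR1_as K N sV2 sE2 CR1_H2 CR1_F2 CR1_i2 _ _ (CR1_TL2 N) (CR1_LT2 N) ω,
    CR1_as K N sV2 sE2 CR1_H2 CR1_F2 CR1_i2 _ _ (CR1_BR2 N) (CR1_RB2 N) ω⟩

theorem tb_sy1 (N : ℕ) (ω : Vx 2 × Fin 3 → Bool) :
    TBc N (op1 (ω ∘ sE1)) ↔ LRc N (op1 ω) := by
  constructor
  · rintro ⟨u, hu, v, hv, hc⟩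
    refine ⟨sV1 v, CR1_BL1 N v hv, sV1 u, CR1_TR1 N u hu, ?_⟩
    exact conn_symm _ (CR1_cn N sV1 sE1 CR1_H1 (CR1_F1 N) ω u v hc)
  · rintro ⟨u, hu, v, hv, hc⟩
    refine ⟨sV1 v, CR1_RT1 N v hv, sV1 u, CR1_LB1 N u hu, ?_⟩
    exact conn_symm _ (CR1_cn' N sV1 sE1 CR1_H1 (CR1_F1 N) CR1_i1 ω u v hc)

/-- the edges inside the box form a finite set. -/
theorem CR1_fin (N : ℕ) : ∃ F : Finset (Vx 2 × Fin 3), inN N ⊆ F := by
  refine ⟨(bx 2 (N + 1)) ×ˢ univ, ?_⟩
  rintro ⟨x, k⟩ ⟨h1, _⟩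
  rw [Finset.mem_coe, mem_product]
  refine ⟨?_, mem_univ _⟩
  show x ∈ bx 2 (N + 1)
  unfold bx
  rw [Fintype.mem_piFinset]
  have h2 : HH.gr.s (x, k) ∈ FN N := h1
  intro i
  rw [Finset.mem_Icc]
  fin_cases k
  · change HH.gr.s (x, (0 : Fin 3)) ∈ FN N at h2
    rw [CR1_s0, CR1_mem] at h2
    push_cast
    fin_cases i
    · show -((N : ℤ) + 1) ≤ x 0 ∧ x 0 ≤ (N : ℤ) + 1
      omega
    · show -((N : ℤ) + 1) ≤ x 1 ∧ x 1 ≤ (N : ℤ) + 1
      omega
  · change HH.gr.s (x, (1 : Fin 3)) ∈ FN N at h2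
    rw [CR1_s1, CR1_mem] at h2
    simp at h2
    push_cast
    fin_cases i
    · show -((N : ℤ) + 1) ≤ x 0 ∧ x 0 ≤ (N : ℤ) + 1
      omega
    · show -((N : ℤ) + 1) ≤ x 1 ∧ x 1 ≤ (N : ℤ) + 1
      omega
  · change HH.gr.s (x, (2 : Fin 3)) ∈ FN N at h2
    rw [CR1_s2, CR1_mem] at h2
    push_cast
    fin_cases i
    · show -((N : ℤ) + 1) ≤ x 0 ∧ x 0 ≤ (N : ℤ) + 1
      omega
    · show -((N : ℤ) + 1) ≤ x 1 ∧ x 1 ≤ (N : ℤ) + 1
      omega

theorem CR1_eq (N : ℕ) (F : Finset (Vx 2 × Fin 3)) (hF : inN N ⊆ F)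
    (ω ω' : Vx 2 × Fin 3 → Bool) (h : ∀ e ∈ F, ω e = ω' e) :
    op1 ω ∩ inN N = op1 ω' ∩ inN N := by
  ext e
  constructor
  · rintro ⟨h1, h2⟩
    refine ⟨?_, h2⟩
    show ω' e = true
    rw [← h e (hF h2)]
    exact h1
  · rintro ⟨h1, h2⟩
    refine ⟨?_, h2⟩
    show ω e = true
    rw [h e (hF h2)]
    exact h1

/-- the events depend on finitely many edges and are increasing. -/
theorem as_lc (K N : ℕ) (σ : Set (Vx 2 × Bool)) : Lc {ω : Vx 2 × Fin 3 → Bool | AS K N σ (op1 ω)} ∧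
    Inc1 {ω : Vx 2 × Fin 3 → Bool | AS K N σ (op1 ω)} := by
  constructor
  · obtain ⟨F, hF⟩ := CR1_fin N
    refine ⟨F, fun ω ω' h => ?_⟩
    show AS K N σ (op1 ω) ↔ AS K N σ (op1 ω')
    unfold AS
    rw [CR1_eq N F hF ω ω' h]
  · rintro ω ω' h ⟨u, hu, v, hv, hc⟩
    have hsub : op1 ω ∩ inN N ⊆ op1 ω' ∩ inN N := fun e he => ⟨h e he.1, he.2⟩
    exact ⟨u, hu, v, hv, conn_mono _ hsub hc⟩

theorem lr_lc (N : ℕ) : Lc {ω : Vx 2 × Fin 3 → Bool | LRc N (op1 ω)} ∧
    Lc {ω : Vx 2 × Fin 3 → Bool | TBc N (op1 ω)} := by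
  obtain ⟨F, hF⟩ := CR1_fin N
  constructor
  · refine ⟨F, fun ω ω' h => ?_⟩
    show LRc N (op1 ω) ↔ LRc N (op1 ω')
    unfold LRc
    rw [CR1_eq N F hF ω ω' h]
  · refine ⟨F, fun ω ω' h => ?_⟩
    show TBc N (op1 ω) ↔ TBc N (op1 ω')
    unfold TBc
    rw [CR1_eq N F hF ω ω' h]

end H82.BX

end S_H82_BX_CR1
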