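import Mathlib
import Pool.Agent.H82.BXM.G01
import Pool.Agent.H82.BXM.G08

/-! MP_26628e_mp: this file joins several modules to save build time. -/

section S_H82_BX_HS3

/-!
# HS3: the opening probabilities, association of `ω⁻`, mixing

* `qm_mono`: for `a, b ≤ 0` put `x = 1/2 - a`, `y = 1/2 - b > 0`: `qm = 1 - w(x+y)/w(x-y)` (half integers; in integers `w(a+b-1)/w(a-b)`); the ratio decreases when `a` decreases: `w(a+b-2) w(a-b) ≤ w(a+b-1) w(a-1-b)`
  (`w_lc2`, symmetric `w`).  `0 ≤ qm < 1`: `|a+b-1| ≥ |a-b|` for `a, b ≤ 0` and `w` is nonincreasing in `|·|` (`w_lc2` with symmetry).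
* `qm_sum`: `qm a b + qm (-a) (-b) ≤ 1`: both nonzero only if `a = b = 0`, then `2 (1 - w 1/w 0) ≤ 1`.
* `em_mono`: `em B h φ` is antitone in `h` for increasing `φ` (product measures with larger parameters; change one parameter at a time).
* `em_fkg`: Harris for product measures (`fkg` on `↥B → Bool`).
* `pm_fkg`: `em_fkg` inside, then `hs_fkg` for the two increasing functions `-em`.
* `pm_mix`: `f = -em B1 φ1`, `g = -em B2 φ2` are increasing with values in `[-1,0]`, `em (B1 ∪ B2) (φ1 φ2) = em B1 φ1 em B2 φ2`.  With `S1 = ∑_{i ∈ N1} h_i`, `N1` = the ends of `B1` in `F`: `S1 ± f` are increasing (if `h ≤ h'` differ on `N1` then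
  `S1(h') - S1(h) ≥ 1 ≥ |f(h') - f(h)|`; `f` depends only on the heights of the ends of `B1`), same for `S2 ± g`.  `hs_fkg`: `Cov(S1+f, S2-g) + Cov(S1-f, S2+g) ≥ 0`, i.e. `Cov(f,g) ≤ Cov(S1,S2) = ∑∑ Eh(h_i h_j)` (`Eh h_i = 0` by `Eh_neg`).
-/

set_option autoImplicit false

open Finset MeasureTheory

namespace H82.BX

open H82.IC

variable {V E : Type} [DecidableEq V] [DecidableEq E]

/-! ### product measures -/

section prod
variable {ι : Type} [Fintype ι]

/-- product weight. -/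
noncomputable def h3b (q : ι → ℝ) (ω : ι → Bool) : ℝ := ∏ i, if ω i then q i else 1 - q i

theorem h3b_nonneg (q : ι → ℝ) (h0 : ∀ i, 0 ≤ q i) (h1 : ∀ i, q i ≤ 1) (ω : ι → Bool) :
    0 ≤ h3b q ω := by
  refine prod_nonneg fun i _ => ?_
  split_ifs
  · exact h0 i
  · linarith [h1 i]

theorem h3b_sum [DecidableEq ι] (q : ι → ℝ) : ∑ ω, h3b q ω = 1 := by
  unfold h3b
  have := Finset.prod_univ_sum (fun _ : ι => (univ : Finset Bool))
    (fun i (b : Bool) => if b = true then q i else 1 - q i)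
  rw [Fintype.piFinset_univ] at this
  rw [← this]
  refine prod_eq_one fun i _ => ?_
  simp

theorem h3b_mono [DecidableEq ι] (q q' : ι → ℝ) (h0 : ∀ i, 0 ≤ q i) (h1 : ∀ i, q' i ≤ 1)
    (hq : ∀ i, q i ≤ q' i) (φ : (ι → Bool) → ℝ) (hφ : Monotone φ) :
    ∑ ω, h3b q ω * φ ω ≤ ∑ ω, h3b q' ω * φ ω := by
  have hb : ∃ C : ℝ, ∀ ω, -C ≤ φ ω := by
    refine ⟨∑ ω, |φ ω|, fun ω => ?_⟩
    have := single_le_sum (f := fun ω => |φ ω|) (fun i _ => abs_nonneg _) (mem_univ ω)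
    have h2 := neg_abs_le (φ ω)
    linarith
  obtain ⟨C, hC⟩ := hb
  have key := holley (μ := fun ω => φ ω + C) (f := h3b q) (g := h3b q')
    (fun ω => by have := hC ω; simp only [Pi.zero_apply]; linarith)
    (h3b_nonneg q h0 fun i => (hq i).trans (h1 i)) (h3b_nonneg q' (fun i => (h0 i).trans (hq i)) h1)
    (fun a b h => by have := hφ h; simp only; linarith)
    (by rw [h3b_sum, h3b_sum]) ?_
  · simp only [add_mul, sum_add_distrib, ← mul_sum, h3b_sum] at key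
    have e1 : ∀ r : ι → ℝ, ∑ ω, h3b r ω * φ ω = ∑ ω, φ ω * h3b r ω := fun r =>
      sum_congr rfl fun _ _ => mul_comm _ _
    rw [e1, e1]
    linarith
  · intro a b
    unfold h3b
    rw [← prod_mul_distrib, ← prod_mul_distrib]
    refine prod_le_prod (fun i _ => mul_nonneg ?_ ?_) fun i _ => ?_
    · split_ifs
      · exact h0 i
      · linarith [hq i, h1 i]
    · split_ifs
      · exact (h0 i).trans (hq i)
      · linarith [h1 i]
    · rw [Pi.inf_apply, Pi.sup_apply]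
      cases a i <;> cases b i <;> simp
      nlinarith [h0 i, hq i, h1 i]

theorem h3b_fkg [DecidableEq ι] (q : ι → ℝ) (h0 : ∀ i, 0 ≤ q i) (h1 : ∀ i, q i ≤ 1)
    (φ ψ : (ι → Bool) → ℝ) (hφ : Monotone φ) (hψ : Monotone ψ) :
    (∑ ω, h3b q ω * φ ω) * (∑ ω, h3b q ω * ψ ω) ≤ ∑ ω, h3b q ω * (φ ω * ψ ω) := by
  have hb : ∀ χ : (ι → Bool) → ℝ, ∃ C : ℝ, ∀ ω, -C ≤ χ ω := by
    intro χ
    refine ⟨∑ ω, |χ ω|, fun ω => ?_⟩
    have := single_le_sum (f := fun ω => |χ ω|) (fun i _ => abs_nonneg _) (mem_univ ω)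
    have h2 := neg_abs_le (χ ω)
    linarith
  obtain ⟨C, hC⟩ := hb φ
  obtain ⟨D, hD⟩ := hb ψ
  have key := fkg (μ := h3b q) (f := fun ω => φ ω + C) (g := fun ω => ψ ω + D)
    (h3b_nonneg q h0 h1) (fun ω => by have := hC ω; simp only [Pi.zero_apply]; linarith)
    (fun ω => by have := hD ω; simp only [Pi.zero_apply]; linarith)
    (fun a b h => by have := hφ h; simp only; linarith)
    (fun a b h => by have := hψ h; simp only; linarith) ?_
  · have e1 : ∑ ω, h3b q ω * (φ ω + C) = (∑ ω, h3b q ω * φ ω) + C := by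
      simp only [mul_add, sum_add_distrib, ← sum_mul, h3b_sum, one_mul]
    have e2 : ∑ ω, h3b q ω * (ψ ω + D) = (∑ ω, h3b q ω * ψ ω) + D := by
      simp only [mul_add, sum_add_distrib, ← sum_mul, h3b_sum, one_mul]
    have e3 : ∑ ω, h3b q ω * ((φ ω + C) * (ψ ω + D)) = (∑ ω, h3b q ω * (φ ω * ψ ω)) +
        D * (∑ ω, h3b q ω * φ ω) + C * (∑ ω, h3b q ω * ψ ω) + C * D := by
      have : ∀ ω, h3b q ω * ((φ ω + C) * (ψ ω + D)) = h3b q ω * (φ ω * ψ ω) +
          D * (h3b q ω * φ ω) + C * (h3b q ω * ψ ω) + (C * D) * h3b q ω := fun ω => by ring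
      simp only [this, sum_add_distrib, ← mul_sum, h3b_sum, mul_one]
    rw [e1, e2, e3, h3b_sum] at key
    nlinarith [key]
  · intro a b
    unfold h3b
    rw [← prod_mul_distrib, ← prod_mul_distrib]
    refine le_of_eq (prod_congr rfl fun i _ => ?_)
    rw [Pi.inf_apply, Pi.sup_apply]
    cases a i <;> cases b i <;> simp
    ring

end prod

omit [DecidableEq V] in
theorem h3_em (w : ℤ → ℝ) (G : Gr V E) (B : Finset E) (h : V → ℤ) (φ : (E → Bool) → ℝ) :
    em w G B h φ = ∑ ω, h3b (fun e : ↥B => qm w (h (G.s e.1)) (h (G.r e.1))) ω * φ (g0 B ω) := rfl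

/-! ### opening probabilities -/

theorem h3_dec (w : ℤ → ℝ) (hw : WOk w) (x y : ℤ) (h1 : -y ≤ x) (h2 : x ≤ y) : w y ≤ w x := by
  have h := w_lc2 w hw (-y) y (y - x) (by linarith) (by linarith)
  rw [show -y + (y - x) = -x by ring, show y - (y - x) = x by ring, hw.symm, hw.symm] at h
  exact le_of_sq_le_sq' (by rw [sq, sq]; exact h) (hw.pos x).le
where
  le_of_sq_le_sq' {a b : ℝ} (h : a ^ 2 ≤ b ^ 2) (hb : 0 ≤ b) : a ≤ b := abs_le_of_sq_le_sq' h hb |>.2

theorem qm_bd (w : ℤ → ℝ) (hw : WOk w) (a b : ℤ) : 0 ≤ qm w a b ∧ qm w a b < 1 := by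
  unfold qm
  split_ifs with h
  · have hp := hw.pos (a - b)
    have hq := hw.pos (a + b - 1)
    constructor
    · rw [sub_nonneg, div_le_one hp, ← hw.symm (a + b - 1)]
      exact h3_dec w hw _ _ (by omega) (by omega)
    · have := div_pos hq hp
      linarith
  · exact ⟨le_rfl, one_pos⟩

theorem qm_symm (w : ℤ → ℝ) (hw : WOk w) (a b : ℤ) : qm w a b = qm w b a := by
  unfold qm
  rw [show a + b - 1 = b + a - 1 by ring, show a - b = -(b - a) by ring, hw.symm]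
  simp only [and_comm]

theorem h3_qm1 (w : ℤ → ℝ) (hw : WOk w) (a b : ℤ) (ha : a ≤ 0) (hb : b ≤ 0) :
    qm w a b ≤ qm w (a - 1) b := by
  unfold qm
  rw [if_pos ⟨ha, hb⟩, if_pos ⟨by omega, hb⟩]
  refine sub_le_sub_left ?_ _
  rw [div_le_div_iff₀ (hw.pos _) (hw.pos _)]
  have h := w_lc2 w hw (a + b - 2) (a - b) 1 (by norm_num) (by omega)
  rw [show a + b - 2 + 1 = a + b - 1 by ring, show a - b - 1 = a - 1 - b by ring] at h
  rw [show a - 1 + b - 1 = a + b - 2 by ring]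
  exact h

theorem h3_qml (w : ℤ → ℝ) (hw : WOk w) (a a' b : ℤ) (ha : a ≤ a') : qm w a' b ≤ qm w a b := by
  by_cases h : a' ≤ 0 ∧ b ≤ 0
  · obtain ⟨n, hn⟩ := Int.eq_ofNat_of_zero_le (sub_nonneg.2 ha)
    have key : ∀ n : ℕ, qm w a' b ≤ qm w (a' - n) b := by
      intro n
      induction n with
      | zero => simp
      | succ n ih =>
        refine ih.trans ?_
        have := h3_qm1 w hw (a' - n) b (by omega) h.2
        rw [show a' - ((n + 1 : ℕ) : ℤ) = a' - n - 1 by push_cast; ring]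
        exact this
    have := key n
    rwa [show a' - (n : ℤ) = a by omega] at this
  · have : qm w a' b = 0 := by unfold qm; rw [if_neg h]
    rw [this]
    exact (qm_bd w hw a b).1

theorem qm_mono (w : ℤ → ℝ) (hw : WOk w) (a a' b b' : ℤ) (ha : a ≤ a') (hb : b ≤ b') :
    qm w a' b' ≤ qm w a b := by
  refine (h3_qml w hw a a' b' ha).trans ?_
  rw [qm_symm w hw a b', qm_symm w hw a b]
  exact h3_qml w hw b b' a hb

theorem qm_sum (w : ℤ → ℝ) (hw : WOk w) (h1 : w 0 ≤ 2 * w 1) (a b : ℤ) :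
    qm w a b + qm w (-a) (-b) ≤ 1 := by
  by_cases h : a ≤ 0 ∧ b ≤ 0
  · by_cases h' : -a ≤ 0 ∧ -b ≤ 0
    · have ea : a = 0 := by omega
      have eb : b = 0 := by omega
      subst ea
      subst eb
      have hw1 : w (-1) = w 1 := hw.symm 1
      have : qm w 0 0 = 1 - w 1 / w 0 := by
        unfold qm
        simp [hw1]
      rw [neg_zero, this]
      have h0 := hw.pos 0
      have : 1 / 2 ≤ w 1 / w 0 := by
        rw [div_le_div_iff₀ (by norm_num) h0]
        linarith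
      linarith
    · have : qm w (-a) (-b) = 0 := by unfold qm; rw [if_neg h']
      rw [this, add_zero]
      exact (qm_bd w hw a b).2.le
  · have : qm w a b = 0 := by unfold qm; rw [if_neg h]
    rw [this, zero_add]
    exact (qm_bd w hw _ _).2.le

/-! ### averages given the heights -/

theorem em_bd (w : ℤ → ℝ) (hw : WOk w) (G : Gr V E) (B : Finset E) (h : V → ℤ) (φ : (E → Bool) → ℝ)
    (h0 : ∀ o, 0 ≤ φ o) (h1 : ∀ o, φ o ≤ 1) : 0 ≤ em w G B h φ ∧ em w G B h φ ≤ 1 := by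
  have hn : ∀ ω, 0 ≤ h3b (fun e : ↥B => qm w (h (G.s e.1)) (h (G.r e.1))) ω :=
    h3b_nonneg _ (fun e => (qm_bd w hw _ _).1) fun e => (qm_bd w hw _ _).2.le
  constructor
  · exact sum_nonneg fun ω _ => mul_nonneg (hn ω) (h0 _)
  · rw [h3_em, ← h3b_sum (fun e : ↥B => qm w (h (G.s e.1)) (h (G.r e.1)))]
    exact sum_le_sum fun ω _ => mul_le_of_le_one_right (hn ω) (h1 _)

theorem em_one (w : ℤ → ℝ) (G : Gr V E) (B : Finset E) (h : V → ℤ) :
    em w G B h (fun _ => 1) = 1 := by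
  rw [h3_em]
  simp only [mul_one]
  exact h3b_sum _

theorem h3_g0 (B : Finset E) : Monotone (g0 B) := by
  intro ω ω' h e
  unfold g0
  split_ifs with he
  · exact h _
  · exact le_rfl

theorem em_anti (w : ℤ → ℝ) (hw : WOk w) (G : Gr V E) (B : Finset E) (h h' : V → ℤ) (hh : h ≤ h')
    (φ : (E → Bool) → ℝ) (hφ : Monotone φ) : em w G B h' φ ≤ em w G B h φ := by
  rw [h3_em, h3_em]
  exact h3b_mono _ _ (fun e => (qm_bd w hw _ _).1) (fun e => (qm_bd w hw _ _).2.le)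
    (fun e => qm_mono w hw _ _ _ _ (hh _) (hh _)) (fun ω => φ (g0 B ω)) (hφ.comp (h3_g0 B))

theorem h3_em_abs (w : ℤ → ℝ) (hw : WOk w) (G : Gr V E) (B : Finset E) (h : V → ℤ)
    (φ : (E → Bool) → ℝ) : |em w G B h φ| ≤ ∑ ω : ↥B → Bool, |φ (g0 B ω)| := by
  rw [h3_em]
  refine (abs_sum_le_sum_abs _ _).trans (sum_le_sum fun ω _ => ?_)
  have hn := h3b_nonneg (fun e : ↥B => qm w (h (G.s e.1)) (h (G.r e.1)))
    (fun e => (qm_bd w hw _ _).1) (fun e => (qm_bd w hw _ _).2.le) ω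
  rw [abs_mul, abs_of_nonneg hn]
  refine mul_le_of_le_one_left (abs_nonneg _) ?_
  unfold h3b
  refine prod_le_one (fun e _ => ?_) fun e _ => ?_
  · split_ifs
    · exact (qm_bd w hw _ _).1
    · linarith [(qm_bd w hw (h (G.s e.1)) (h (G.r e.1))).2]
  · split_ifs
    · exact (qm_bd w hw _ _).2.le
    · linarith [(qm_bd w hw (h (G.s e.1)) (h (G.r e.1))).1]

theorem h3_pbd (w : ℤ → ℝ) (hw : WOk w) (G : Gr V E) (F : Finset V) (B : Finset E)
    (φ : (E → Bool) → ℝ) : PBd F (fun h => em w G B h φ) :=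
  PBd_bdd F _ _ fun h => h3_em_abs w hw G B h φ

theorem pm_fkg (G : Gr V E) (F : Finset V) (EF : Finset E) (hB : Bd G F EF) (w : ℤ → ℝ) (hw : WOk w)
    (B : Finset E) (φ ψ : (E → Bool) → ℝ) (hφ : Monotone φ) (hψ : Monotone ψ) :
    PM G F EF w B φ * PM G F EF w B ψ ≤ PM G F EF w B (fun o => φ o * ψ o) := by
  unfold PM
  have h1 := hs_fkg G F EF hB w hw (fun h => (-1) * em w G B h φ) (fun h => (-1) * em w G B h ψ)
    (fun h h' hh => by
      have := em_anti w hw G B h h' hh φ hφ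
      simp only
      linarith)
    (fun h h' hh => by
      have := em_anti w hw G B h h' hh ψ hψ
      simp only
      linarith) (PBd_smul F _ _ (h3_pbd w hw G F B φ)) (PBd_smul F _ _ (h3_pbd w hw G F B ψ))
  rw [Eh_smul, Eh_smul] at h1
  have h2 : Eh G F EF w (fun h => (-1) * em w G B h φ * ((-1) * em w G B h ψ)) ≤
      Eh G F EF w (fun h => em w G B h (fun o => φ o * ψ o)) := by
    refine Eh_mono G F EF hB w hw _ _ (PBd_mul F _ _ (PBd_smul F _ _ (h3_pbd w hw G F B φ))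
      (PBd_smul F _ _ (h3_pbd w hw G F B ψ))) (h3_pbd w hw G F B _) fun h => ?_
    have := h3b_fkg (fun e : ↥B => qm w (ex h (G.s e.1)) (ex h (G.r e.1)))
      (fun e => (qm_bd w hw _ _).1) (fun e => (qm_bd w hw _ _).2.le) (fun ω => φ (g0 B ω))
      (fun ω => ψ (g0 B ω)) (hφ.comp (h3_g0 B)) (hψ.comp (h3_g0 B))
    rw [h3_em, h3_em, h3_em]
    linarith
  linarith

/-! ### mixing -/

theorem h3_em_union (w : ℤ → ℝ) (G : Gr V E) (B1 B2 : Finset E) (hd : Disjoint B1 B2) (h : V → ℤ)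
    (φ1 φ2 : (E → Bool) → ℝ)
    (l1 : ∀ o o', (∀ e ∈ B1, o e = o' e) → φ1 o = φ1 o') (l2 : ∀ o o', (∀ e ∈ B2, o e = o' e) → φ2 o = φ2 o') :
    em w G (B1 ∪ B2) h (fun o => φ1 o * φ2 o) = em w G B1 h φ1 * em w G B2 h φ2 := by
  have hq : ∀ (B : Finset E) (ω : ↥B → Bool),
      h3b (fun e : ↥B => qm w (h (G.s e.1)) (h (G.r e.1))) ω =
        ∏ e ∈ B, if g0 B ω e then qm w (h (G.s e)) (h (G.r e)) else 1 - qm w (h (G.s e)) (h (G.r e)) := by
    intro B ω
    unfold h3b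
    rw [← prod_coe_sort B (fun e => if g0 B ω e then qm w (h (G.s e)) (h (G.r e))
      else 1 - qm w (h (G.s e)) (h (G.r e)))]
    refine prod_congr rfl fun e _ => ?_
    have : g0 B ω e.1 = ω e := by
      unfold g0
      rw [dif_pos e.2]
    rw [this]
  rw [h3_em, h3_em, h3_em]
  rw [← (Equiv.piFinsetUnion (fun _ : E => Bool) hd).sum_comp]
  rw [Fintype.sum_prod_type, Finset.sum_mul_sum]
  refine sum_congr rfl fun ω1 _ => sum_congr rfl fun ω2 _ => ?_
  have g1 : ∀ e ∈ B1, g0 (B1 ∪ B2) (Equiv.piFinsetUnion (fun _ : E => Bool) hd (ω1, ω2)) e = g0 B1 ω1 e := by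
    intro e he
    unfold g0
    rw [dif_pos (mem_union_left _ he), dif_pos he]
    exact Equiv.piFinsetUnion_left (fun _ : E => Bool) hd he _
  have g2 : ∀ e ∈ B2, g0 (B1 ∪ B2) (Equiv.piFinsetUnion (fun _ : E => Bool) hd (ω1, ω2)) e = g0 B2 ω2 e := by
    intro e he
    unfold g0
    rw [dif_pos (mem_union_right _ he), dif_pos he]
    exact Equiv.piFinsetUnion_right (fun _ : E => Bool) hd he _
  rw [hq, hq, hq, prod_union hd, l1 _ _ g1, l2 _ _ g2]
  have p1 : ∏ e ∈ B1, (if g0 (B1 ∪ B2) (Equiv.piFinsetUnion (fun _ : E => Bool) hd (ω1, ω2)) e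
      then qm w (h (G.s e)) (h (G.r e)) else 1 - qm w (h (G.s e)) (h (G.r e))) =
      ∏ e ∈ B1, if g0 B1 ω1 e then qm w (h (G.s e)) (h (G.r e)) else 1 - qm w (h (G.s e)) (h (G.r e)) :=
    prod_congr rfl fun e he => by rw [g1 e he]
  have p2 : ∏ e ∈ B2, (if g0 (B1 ∪ B2) (Equiv.piFinsetUnion (fun _ : E => Bool) hd (ω1, ω2)) e
      then qm w (h (G.s e)) (h (G.r e)) else 1 - qm w (h (G.s e)) (h (G.r e))) =
      ∏ e ∈ B2, if g0 B2 ω2 e then qm w (h (G.s e)) (h (G.r e)) else 1 - qm w (h (G.s e)) (h (G.r e)) :=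
    prod_congr rfl fun e he => by rw [g2 e he]
  rw [p1, p2]
  ring

/-- heights cut to `F`. -/
def h3t (F : Finset V) (h : V → ℤ) : V → ℤ := fun v => if v ∈ F then h v else 0

theorem h3t_ex (F : Finset V) (h : ↥F → ℤ) : h3t F (ex h) = ex h := by
  funext v
  unfold h3t
  split_ifs with hv
  · rfl
  · unfold ex
    rw [dif_neg hv]

/-- `∑_{N} h ± em` is increasing. -/
theorem h3_inc (G : Gr V E) (F : Finset V) (w : ℤ → ℝ) (hw : WOk w)
    (B : Finset E) (N : Finset V)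
    (hN : ∀ e ∈ B, (G.s e ∈ F → G.s e ∈ N) ∧ (G.r e ∈ F → G.r e ∈ N))
    (φ : (E → Bool) → ℝ) (h0 : ∀ o, 0 ≤ φ o ∧ φ o ≤ 1) (t : ℝ) (ht : |t| ≤ 1) :
    Monotone (fun h : V → ℤ => ∑ i ∈ N, (h i : ℝ) + t * em w G B (h3t F h) φ) := by
  intro h h' hh
  by_cases he : ∀ i ∈ N, h i = h' i
  · have : em w G B (h3t F h) φ = em w G B (h3t F h') φ := by
      have hs : ∀ v, (v ∈ F → v ∈ N) → h3t F h v = h3t F h' v := by
        intro v hv
        unfold h3t
        split_ifs with hF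
        · exact he v (hv hF)
        · rfl
      unfold em
      refine sum_congr rfl fun ω _ => ?_
      congr 1
      refine prod_congr rfl fun e _ => ?_
      rw [hs _ (hN e.1 e.2).1, hs _ (hN e.1 e.2).2]
    simp only
    rw [this]
    have : ∑ i ∈ N, (h i : ℝ) = ∑ i ∈ N, (h' i : ℝ) := sum_congr rfl fun i hi => by rw [he i hi]
    rw [this]
  · push Not at he
    obtain ⟨j, hj, hne⟩ := he
    have hlt : h j + 1 ≤ h' j := by
      have : h j ≤ h' j := hh j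
      omega
    have h1 : ∑ i ∈ N, (h i : ℝ) + 1 ≤ ∑ i ∈ N, (h' i : ℝ) := by
      have e1 := add_sum_erase N (fun i => (h i : ℝ)) hj
      have e2 := add_sum_erase N (fun i => (h' i : ℝ)) hj
      have e3 : ∑ i ∈ N.erase j, (h i : ℝ) ≤ ∑ i ∈ N.erase j, (h' i : ℝ) :=
        sum_le_sum fun i _ => by exact_mod_cast hh i
      have e4 : (h j : ℝ) + 1 ≤ h' j := by exact_mod_cast hlt
      linarith
    have b1 := em_bd w hw G B (h3t F h) φ (fun o => (h0 o).1) (fun o => (h0 o).2)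
    have b2 := em_bd w hw G B (h3t F h') φ (fun o => (h0 o).1) (fun o => (h0 o).2)
    have ht' := abs_le.1 ht
    have h2 : |t * (em w G B (h3t F h) φ - em w G B (h3t F h') φ)| ≤ 1 := by
      rw [abs_mul]
      have : |em w G B (h3t F h) φ - em w G B (h3t F h') φ| ≤ 1 := by
        rw [abs_le]
        constructor <;> linarith
      calc |t| * |em w G B (h3t F h) φ - em w G B (h3t F h') φ| ≤ 1 * 1 :=
            mul_le_mul ht this (abs_nonneg _) zero_le_one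
        _ = 1 := by norm_num
    have h3 := (abs_le.1 h2).2
    simp only
    linarith

theorem pm_mix (G : Gr V E) (F : Finset V) (EF : Finset E) (hB : Bd G F EF) (w : ℤ → ℝ) (hw : WOk w)
    (B1 B2 : Finset E) (hd : Disjoint B1 B2) (N1 N2 : Finset V)
    (hN1 : ∀ e ∈ B1, (G.s e ∈ F → G.s e ∈ N1) ∧ (G.r e ∈ F → G.r e ∈ N1))
    (hN2 : ∀ e ∈ B2, (G.s e ∈ F → G.s e ∈ N2) ∧ (G.r e ∈ F → G.r e ∈ N2))
    (φ1 φ2 : (E → Bool) → ℝ) (hφ1 : Monotone φ1) (hφ2 : Monotone φ2)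
    (l1 : ∀ o o', (∀ e ∈ B1, o e = o' e) → φ1 o = φ1 o') (l2 : ∀ o o', (∀ e ∈ B2, o e = o' e) → φ2 o = φ2 o')
    (h01 : ∀ o, 0 ≤ φ1 o ∧ φ1 o ≤ 1) (h02 : ∀ o, 0 ≤ φ2 o ∧ φ2 o ≤ 1) :
    PM G F EF w (B1 ∪ B2) (fun o => φ1 o * φ2 o) ≤
      PM G F EF w B1 φ1 * PM G F EF w B2 φ2 +
        ∑ i ∈ N1, ∑ j ∈ N2, |Eh G F EF w (fun h => (h i : ℝ) * (h j : ℝ))| := by
  have ps : ∀ N : Finset V, PBd F (fun h => ∑ i ∈ N, (h i : ℝ)) := by
    intro N
    induction N using Finset.induction_on with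
    | empty =>
      refine PBd_bdd F _ 0 fun h => ?_
      simp
    | insert a s ha ih =>
      have := PBd_add F _ _ (PBd_h F a) ih
      simpa only [sum_insert ha] using this
  have pe : ∀ (B : Finset E) (φ : (E → Bool) → ℝ), PBd F (fun h => em w G B (h3t F h) φ) :=
    fun B φ => PBd_bdd F _ _ fun h => h3_em_abs w hw G B _ φ
  have pt : ∀ (N : Finset V) (B : Finset E) (φ : (E → Bool) → ℝ) (t : ℝ),
      PBd F (fun h => ∑ i ∈ N, (h i : ℝ) + t * em w G B (h3t F h) φ) := fun N B φ t =>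
    PBd_add F _ _ (ps N) (PBd_smul F t _ (pe B φ))
  have hz : ∀ N : Finset V, Eh G F EF w (fun h => ∑ i ∈ N, (h i : ℝ)) = 0 := by
    intro N
    have e := Eh_neg G F EF w hw (fun h => ∑ i ∈ N, (h i : ℝ))
    have e2 : Eh G F EF w (fun h => ∑ i ∈ N, (((-h) i : ℤ) : ℝ)) =
        (-1) * Eh G F EF w (fun h => ∑ i ∈ N, (h i : ℝ)) := by
      rw [← Eh_smul]
      congr 1
      funext h
      rw [mul_sum]
      refine sum_congr rfl fun i _ => ?_
      push_cast [Pi.neg_apply]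
      ring
    rw [e2] at e
    linarith
  have hm : ∀ (N : Finset V) (B : Finset E) (φ : (E → Bool) → ℝ) (t : ℝ),
      Eh G F EF w (fun h => ∑ i ∈ N, (h i : ℝ) + t * em w G B (h3t F h) φ) =
        t * PM G F EF w B φ := by
    intro N B φ t
    rw [Eh_add G F EF hB w hw _ _ (ps N) (PBd_smul F t _ (pe B φ)), hz, zero_add, Eh_smul]
    congr 1
    unfold PM
    refine Eh_congr G F EF w _ _ fun h => ?_
    rw [h3t_ex]
  have k1 := hs_fkg G F EF hB w hw _ _ (h3_inc G F w hw B1 N1 hN1 φ1 h01 (-1) (by norm_num))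
    (h3_inc G F w hw B2 N2 hN2 φ2 h02 1 (by norm_num)) (pt _ _ _ _) (pt _ _ _ _)
  have k2 := hs_fkg G F EF hB w hw _ _ (h3_inc G F w hw B1 N1 hN1 φ1 h01 1 (by norm_num))
    (h3_inc G F w hw B2 N2 hN2 φ2 h02 (-1) (by norm_num)) (pt _ _ _ _) (pt _ _ _ _)
  rw [hm, hm] at k1 k2
  have hss : PBd F (fun h => (∑ i ∈ N1, (h i : ℝ)) * (∑ j ∈ N2, (h j : ℝ))) :=
    PBd_mul F _ _ (ps N1) (ps N2)
  have hee : PBd F (fun h => em w G B1 (h3t F h) φ1 * em w G B2 (h3t F h) φ2) :=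
    PBd_mul F _ _ (pe B1 φ1) (pe B2 φ2)
  have hsum := Eh_add G F EF hB w hw _ _ (PBd_mul F _ _ (pt N1 B1 φ1 (-1)) (pt N2 B2 φ2 1))
    (PBd_mul F _ _ (pt N1 B1 φ1 1) (pt N2 B2 φ2 (-1)))
  have e1 : Eh G F EF w (fun h => (∑ i ∈ N1, (h i : ℝ) + (-1) * em w G B1 (h3t F h) φ1) *
      (∑ i ∈ N2, (h i : ℝ) + 1 * em w G B2 (h3t F h) φ2) +
      (∑ i ∈ N1, (h i : ℝ) + 1 * em w G B1 (h3t F h) φ1) *
      (∑ i ∈ N2, (h i : ℝ) + (-1) * em w G B2 (h3t F h) φ2)) =
      2 * Eh G F EF w (fun h => (∑ i ∈ N1, (h i : ℝ)) * (∑ j ∈ N2, (h j : ℝ))) +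
      (-2) * Eh G F EF w (fun h => em w G B1 (h3t F h) φ1 * em w G B2 (h3t F h) φ2) := by
    rw [← Eh_smul, ← Eh_smul, ← Eh_add G F EF hB w hw _ _ (PBd_smul F _ _ hss) (PBd_smul F _ _ hee)]
    congr 1
    funext h
    ring
  have e2 : PM G F EF w (B1 ∪ B2) (fun o => φ1 o * φ2 o) =
      Eh G F EF w (fun h => em w G B1 (h3t F h) φ1 * em w G B2 (h3t F h) φ2) := by
    unfold PM
    refine Eh_congr G F EF w _ _ fun h => ?_
    rw [h3t_ex, h3_em_union w G B1 B2 hd _ φ1 φ2 l1 l2]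
  have e3 : Eh G F EF w (fun h => (∑ i ∈ N1, (h i : ℝ)) * (∑ j ∈ N2, (h j : ℝ))) ≤
      ∑ i ∈ N1, ∑ j ∈ N2, |Eh G F EF w (fun h => (h i : ℝ) * (h j : ℝ))| := by
    have : (fun h : V → ℤ => (∑ i ∈ N1, (h i : ℝ)) * (∑ j ∈ N2, (h j : ℝ))) =
        fun h => ∑ i ∈ N1, ∑ j ∈ N2, (h i : ℝ) * (h j : ℝ) := by
      funext h
      rw [sum_mul_sum]
    rw [this, Eh_sum G F EF hB w hw N1 (fun i h => ∑ j ∈ N2, (h i : ℝ) * (h j : ℝ))]
    · refine sum_le_sum fun i _ => ?_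
      rw [Eh_sum G F EF hB w hw N2 (fun j h => (h i : ℝ) * (h j : ℝ))]
      · exact sum_le_sum fun j _ => le_abs_self _
      · exact fun j _ => PBd_mul F _ _ (PBd_h F i) (PBd_h F j)
    · intro i _
      have := PBd_mul F _ _ (PBd_h F i) (ps N2)
      simpa only [mul_sum] using this
  rw [hsum] at e1
  rw [e2]
  linarith

end H82.BX

end S_H82_BX_HS3

section S_H82_BX_HS5

/-!
# HS5: approximate insertion tolerance of `ω⁻`

`e ∈ B` with ends `a, b`; `T` = finset containing all edges of `B ∪ EF` that touch `a` or `b`, `Nr` = finset containing the ends of the edges of `T` (`|T| ≤ D`).  On `{|h_v| ≤ R for v ∈ Nr}` let `h'` be `h` with `h_a, h_b` replaced by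
`min h_a 0`, `min h_b 0` (vertices outside `F` have height `0` and are not changed).  Then (constants depend on `w, R, D` only)
* `WH(h) ≤ C WH(h')` (at most `D` factors change, all arguments are in `[-2R, 2R]`, `w > 0`);
* `em B h (φ ∘ opP e) ≤ C em B h' φ`: product measures; for the edges of `B` not in `T` the probabilities agree; for `f ∈ T`: `qm_f(h) ≤ qm_f(h')`, `1 - qm_f(h) ≤ 1 ≤ C (1 - qm_f(h'))` (`qm < 1`, finitely many values), and `qm_e(h') ≥ c > 0`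
  (`h'_a, h'_b ≤ 0`, in `[-R, 0]`; `qm w a b > 0` for `a, b ≤ 0`: `w (n+1) < w n` for `n ≥ 0` by log-concavity and `w 1 < w 0`, and
  `|a+b-1| > |a-b|`);
* each `h'` comes from at most `(R+1)²` functions `h` (with `|h_a|, |h_b| ≤ R`).
Sum over `h`; on the complement use `φ ≤ 1` and `1[∃ v ∈ Nr, |h_v| > R] ≤ ∑_{v ∈ Nr} h_v²/R²`.
-/

set_option autoImplicit false

open Finset MeasureTheory

namespace H82.BX

open H82.IC

theorem HS5_prod_le {ι : Type} (S : Finset ι) (P : ι → Prop) [DecidablePred P] (D : ℕ) (K : ℝ)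
    (hK : 1 ≤ K) (hD : (S.filter P).card ≤ D) (a b : ι → ℝ) (ha : ∀ i ∈ S, 0 ≤ a i)
    (hb : ∀ i ∈ S, 0 ≤ b i) (h1 : ∀ i ∈ S, P i → a i ≤ K * b i) (h2 : ∀ i ∈ S, ¬ P i → a i ≤ b i) :
    ∏ i ∈ S, a i ≤ K ^ D * ∏ i ∈ S, b i := by
  have h : ∏ i ∈ S, a i ≤ ∏ i ∈ S, ((if P i then K else 1) * b i) := by
    apply Finset.prod_le_prod ha
    intro i hi
    split_ifs with h
    · exact h1 i hi h
    · rw [one_mul]; exact h2 i hi h
  rw [Finset.prod_mul_distrib, Finset.prod_ite] at h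
  simp only [Finset.prod_const, one_pow, mul_one] at h
  exact h.trans (mul_le_mul_of_nonneg_right (pow_le_pow_right₀ hK hD) (Finset.prod_nonneg hb))

theorem HS5_const (S : Finset (ℤ × ℤ)) (g : ℤ × ℤ → ℝ) (hg : ∀ p ∈ S, 0 < g p) :
    ∃ C : ℝ, 1 ≤ C ∧ ∀ p ∈ S, 1 ≤ C * g p := by
  have h0 : ∀ p ∈ S, 0 ≤ (g p)⁻¹ := fun p hp => (inv_pos.2 (hg p hp)).le
  refine ⟨1 + ∑ p ∈ S, (g p)⁻¹, ?_, ?_⟩
  · have := Finset.sum_nonneg h0
    linarith
  · intro p hp
    have h1 := Finset.single_le_sum h0 hp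
    have h2 : 1 = (g p)⁻¹ * g p := (inv_mul_cancel₀ (hg p hp).ne').symm
    rw [add_mul, one_mul]
    have h3 := mul_le_mul_of_nonneg_right h1 (hg p hp).le
    have := (hg p hp).le
    linarith

theorem HS5_wsucc (w : ℤ → ℝ) (hw : WOk w) (h10 : w 1 < w 0) (n : ℕ) : w ((n + 1 : ℕ) : ℤ) < w (n : ℤ) := by
  induction n with
  | zero => simpa using h10
  | succ n ih =>
    have h1 := hw.lc ((n + 1 : ℕ) : ℤ)
    have e1 : (((n + 1 : ℕ) : ℤ) - 1) = (n : ℤ) := by push_cast; ring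
    have e2 : (((n + 1 : ℕ) : ℤ) + 1) = ((n + 1 + 1 : ℕ) : ℤ) := by push_cast; ring
    rw [e1, e2] at h1
    have p0 := hw.pos (n : ℤ)
    have p1 := hw.pos ((n + 1 : ℕ) : ℤ)
    have p2 := hw.pos ((n + 1 + 1 : ℕ) : ℤ)
    by_contra hc
    push Not at hc
    nlinarith

theorem HS5_wanti (w : ℤ → ℝ) (hw : WOk w) (h10 : w 1 < w 0) (x y : ℤ) (h : |x| < |y|) : w y < w x := by
  have hs : StrictAnti (fun n : ℕ => w (n : ℤ)) := strictAnti_nat_of_succ_lt (HS5_wsucc w hw h10)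
  have ha : ∀ z : ℤ, w z = w ((z.natAbs : ℕ) : ℤ) := by
    intro z
    rcases Int.natAbs_eq z with h | h
    · rw [← h]
    · conv_lhs => rw [h]
      exact hw.symm _
  rw [ha x, ha y]
  apply hs
  zify
  exact h

theorem HS5_qpos (w : ℤ → ℝ) (hw : WOk w) (h10 : w 1 < w 0) (a b : ℤ) (ha : a ≤ 0) (hb : b ≤ 0) :
    0 < qm w a b := by
  unfold qm
  rw [if_pos ⟨ha, hb⟩, sub_pos, div_lt_one (hw.pos _)]
  apply HS5_wanti w hw h10
  rw [abs_lt]
  have : |a + b - 1| = 1 - a - b := by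
    rw [abs_of_nonpos (by linarith)]
    ring
  rw [this]
  constructor <;> linarith

variable {V E : Type} [DecidableEq V] [DecidableEq E]

theorem HS5_em (w : ℤ → ℝ) (hw : WOk w) (R D : ℕ) (K : ℝ) (hK : 1 ≤ K)
    (k2 : ∀ x y : ℤ, |x| ≤ R → |y| ≤ R → 1 ≤ K * (1 - qm w x y))
    (k3 : ∀ x y : ℤ, |x| ≤ R → |y| ≤ R → x ≤ 0 → y ≤ 0 → 1 ≤ K * qm w x y)
    (G : Gr V E) (B T : Finset E) (e : E) (he : e ∈ B) (hT : T.card ≤ D) (h h' : V → ℤ)
    (hle : h' ≤ h) (hbd : ∀ f ∈ T, |h' (G.s f)| ≤ R ∧ |h' (G.r f)| ≤ R)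
    (hse : h' (G.s e) ≤ 0) (hre : h' (G.r e) ≤ 0) (heT : e ∈ T)
    (hout : ∀ f ∈ B, f ∉ T → h' (G.s f) = h (G.s f) ∧ h' (G.r f) = h (G.r f))
    (φ : (E → Bool) → ℝ) (h0 : ∀ o, 0 ≤ φ o) :
    em w G B h (fun o => φ (opP e o)) ≤ 2 * K ^ D * em w G B h' φ := by
  have hg0 : ∀ ω : ↥B → Bool, opP e (g0 B ω) = g0 B (Function.update ω ⟨e, he⟩ true) := by
    intro ω
    funext f
    unfold opP g0
    by_cases hf : f = e
    · subst hf
      simp [he]
    · simp only [Function.update, hf, dite_false]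
      by_cases hfB : f ∈ B
      · have hne : (⟨f, hfB⟩ : ↥B) ≠ ⟨e, he⟩ := by
          intro hc
          exact hf (congrArg Subtype.val hc)
        simp [hfB, hf]
      · simp [hfB]
  set P : (V → ℤ) → (↥B → Bool) → ℝ := fun h ω => ∏ f : ↥B, if ω f then qm w (h (G.s f.1)) (h (G.r f.1))
    else 1 - qm w (h (G.s f.1)) (h (G.r f.1)) with hP
  have hfac0 : ∀ (h : V → ℤ) (ω : ↥B → Bool) (f : ↥B), 0 ≤ (if ω f then qm w (h (G.s f.1)) (h (G.r f.1))
      else 1 - qm w (h (G.s f.1)) (h (G.r f.1))) := by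
    intro h ω f
    have := qm_bd w hw (h (G.s f.1)) (h (G.r f.1))
    split_ifs
    · exact this.1
    · linarith [this.2]
  have hP0 : ∀ h ω, 0 ≤ P h ω := fun h ω => Finset.prod_nonneg (fun f _ => hfac0 h ω f)
  have key : ∀ ω : ↥B → Bool, P h ω ≤ K ^ D * P h' (Function.update ω ⟨e, he⟩ true) := by
    intro ω
    apply HS5_prod_le univ (fun f : ↥B => f.1 ∈ T) D K hK
    · refine le_trans ?_ hT
      apply Finset.card_le_card_of_injOn Subtype.val
      · intro f hf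
        have := (Finset.mem_filter.1 (Finset.mem_coe.1 hf)).2
        exact Finset.mem_coe.2 this
      · exact Subtype.val_injective.injOn
    · intro f _
      exact hfac0 h ω f
    · intro f _
      exact hfac0 h' _ f
    · intro f _ hf
      have b1 := qm_bd w hw (h (G.s f.1)) (h (G.r f.1))
      have b2 := qm_bd w hw (h' (G.s f.1)) (h' (G.r f.1))
      by_cases hfe : f = ⟨e, he⟩
      · subst hfe
        have := k3 _ _ (hbd e heT).1 (hbd e heT).2 hse hre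
        rw [Function.update_self, if_pos rfl]
        refine le_trans ?_ this
        split_ifs
        · exact b1.2.le
        · linarith [b1.1]
      · rw [Function.update_of_ne hfe]
        have m1 := qm_mono w hw _ _ _ _ (hle (G.s f.1)) (hle (G.r f.1))
        split_ifs
        · refine m1.trans ?_
          nlinarith [b2.1]
        · have := k2 _ _ (hbd f.1 hf).1 (hbd f.1 hf).2
          linarith [b1.1]
    · intro f _ hf
      have hfe : f ≠ ⟨e, he⟩ := by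
        intro hc
        rw [hc] at hf
        exact hf heT
      rw [Function.update_of_ne hfe]
      have := hout f.1 f.2 hf
      rw [this.1, this.2]
  set fl : (↥B → Bool) → (↥B → Bool) := fun ω => Function.update ω ⟨e, he⟩ (!(ω ⟨e, he⟩)) with hfl
  have hinv : Function.Involutive fl := by
    intro ω
    simp [hfl]
  have hF : ∀ Q : (↥B → Bool) → ℝ, (∀ ω, 0 ≤ Q ω) →
      ∑ ω, Q (Function.update ω ⟨e, he⟩ true) ≤ 2 * ∑ ω, Q ω := by
    intro Q hQ
    have h2 : ∑ ω, Q (fl ω) = ∑ ω, Q ω := Equiv.sum_comp (Function.Involutive.toPerm fl hinv) Q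
    calc ∑ ω, Q (Function.update ω ⟨e, he⟩ true) ≤ ∑ ω, (Q ω + Q (fl ω)) := by
          apply Finset.sum_le_sum
          intro ω _
          by_cases hω : ω ⟨e, he⟩ = true
          · have : Function.update ω ⟨e, he⟩ true = ω := by
              rw [← hω]
              exact Function.update_eq_self _ _
            rw [this]
            linarith [hQ (fl ω)]
          · have h3 : ω ⟨e, he⟩ = false := by simpa using hω
            have : Function.update ω ⟨e, he⟩ true = fl ω := by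
              simp [hfl, h3]
            rw [this]
            linarith [hQ ω]
      _ = 2 * ∑ ω, Q ω := by
          rw [Finset.sum_add_distrib, h2]
          ring
  have hKD : 0 ≤ K ^ D := pow_nonneg (by linarith) D
  calc em w G B h (fun o => φ (opP e o)) = ∑ ω : ↥B → Bool, P h ω * φ (g0 B (Function.update ω ⟨e, he⟩ true)) := by
        unfold em
        apply Finset.sum_congr rfl
        intro ω _
        show _ * φ (opP e (g0 B ω)) = _
        rw [hg0]
    _ ≤ ∑ ω : ↥B → Bool, K ^ D * (P h' (Function.update ω ⟨e, he⟩ true) *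
          φ (g0 B (Function.update ω ⟨e, he⟩ true))) := by
        apply Finset.sum_le_sum
        intro ω _
        rw [← mul_assoc]
        exact mul_le_mul_of_nonneg_right (key ω) (h0 _)
    _ = K ^ D * ∑ ω : ↥B → Bool, (P h' (Function.update ω ⟨e, he⟩ true) *
          φ (g0 B (Function.update ω ⟨e, he⟩ true))) := by
        rw [Finset.mul_sum]
    _ ≤ K ^ D * (2 * ∑ ω : ↥B → Bool, (P h' ω * φ (g0 B ω))) := by
        apply mul_le_mul_of_nonneg_left _ hKD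
        exact hF (fun ω => P h' ω * φ (g0 B ω)) (fun ω => mul_nonneg (hP0 h' ω) (h0 _))
    _ = 2 * K ^ D * em w G B h' φ := by
        unfold em
        rw [hP]
        ring

/-- truncation at the ends of the edge. -/
noncomputable def HS5_tr {F : Finset V} (a b : V) (h : ↥F → ℤ) : ↥F → ℤ :=
  fun v => if v.1 = a ∨ v.1 = b then min (h v) 0 else h v

theorem HS5_ex {F : Finset V} (a b : V) (h : ↥F → ℤ) (v : V) :
    ex (HS5_tr a b h) v = if v = a ∨ v = b then min (ex h v) 0 else ex h v := by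
  unfold ex HS5_tr
  by_cases hv : v ∈ F
  · simp only [hv, dite_true]
  · simp only [hv, dite_false, min_self, ite_self]

/-- the differences. -/
noncomputable def HS5_dl {F : Finset V} (R : ℕ) (a b : V) : Finset (↥F → ℤ) :=
  Fintype.piFinset (fun v => if v.1 = a ∨ v.1 = b then Finset.Icc (0 : ℤ) R else {0})

theorem HS5_dlc {F : Finset V} (R : ℕ) (a b : V) :
    ((HS5_dl R a b : Finset (↥F → ℤ)).card : ℝ) ≤ (R + 1) ^ 2 := by
  unfold HS5_dl
  rw [Fintype.card_piFinset]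
  push_cast
  have h := HS5_prod_le (univ : Finset ↥F) (fun v => v.1 = a ∨ v.1 = b) 2 ((R : ℝ) + 1)
    (by linarith [Nat.cast_nonneg (α := ℝ) R]) ?_
    (fun v => (((if v.1 = a ∨ v.1 = b then Finset.Icc (0 : ℤ) R else {0}) : Finset ℤ).card : ℝ))
    (fun _ => 1) (fun _ _ => Nat.cast_nonneg _) (fun _ _ => zero_le_one) ?_ ?_
  · simpa using h
  · have : (univ.filter (fun v : ↥F => v.1 = a ∨ v.1 = b)).card ≤ ({a, b} : Finset V).card := by
      apply Finset.card_le_card_of_injOn Subtype.val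
      · intro v hv
        have := (Finset.mem_filter.1 (Finset.mem_coe.1 hv)).2
        simpa using this
      · exact Subtype.val_injective.injOn
    exact this.trans Finset.card_le_two
  · intro v _ hv
    simp only [hv, if_true]
    rw [Int.card_Icc]
    have : ((R : ℤ) + 1 - 0).toNat = R + 1 := by omega
    rw [this]
    push_cast
    linarith
  · intro v _ hv
    simp only [hv, if_false]
    simp

theorem HS5_pt (w : ℤ → ℝ) (hw : WOk w) (R D : ℕ) (K : ℝ) (hK : 1 ≤ K)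
    (k1 : ∀ x y : ℤ, |x| ≤ 2 * R → |y| ≤ 2 * R → w x ≤ K * w y)
    (k2 : ∀ x y : ℤ, |x| ≤ R → |y| ≤ R → 1 ≤ K * (1 - qm w x y))
    (k3 : ∀ x y : ℤ, |x| ≤ R → |y| ≤ R → x ≤ 0 → y ≤ 0 → 1 ≤ K * qm w x y)
    (G : Gr V E) (F : Finset V) (EF : Finset E) (B T : Finset E) (Nr : Finset V) (e : E) (he : e ∈ B)
    (hT : T.card ≤ D)
    (hTT : ∀ f ∈ B ∪ EF, (G.s f = G.s e ∨ G.s f = G.r e ∨ G.r f = G.s e ∨ G.r f = G.r e) → f ∈ T)
    (hTN : ∀ f ∈ T, G.s f ∈ Nr ∧ G.r f ∈ Nr)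
    (φ : (E → Bool) → ℝ) (h0 : ∀ o, 0 ≤ φ o)
    (h : ↥F → ℤ) (hg : ∀ v ∈ Nr, |ex h v| ≤ R) :
    WH G F EF w h * em w G B (ex h) (fun o => φ (opP e o)) ≤
      2 * K ^ D * K ^ D * (WH G F EF w (HS5_tr (G.s e) (G.r e) h) *
        em w G B (ex (HS5_tr (G.s e) (G.r e) h)) φ) := by
  have heT : e ∈ T := hTT e (Finset.mem_union_left _ he) (Or.inl rfl)
  have hle : ex (HS5_tr (G.s e) (G.r e) h) ≤ ex h := by
    intro v
    rw [HS5_ex]
    split_ifs
    · exact min_le_left _ _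
    · exact le_rfl
  have hbd : ∀ v ∈ Nr, |ex (HS5_tr (G.s e) (G.r e) h) v| ≤ R := by
    intro v hv
    have h1 := abs_le.1 (hg v hv)
    rw [HS5_ex, abs_le]
    split_ifs
    · constructor
      · apply le_min h1.1
        omega
      · exact (min_le_left _ _).trans h1.2
    · exact h1
  have hout : ∀ f ∈ B ∪ EF, f ∉ T → ex (HS5_tr (G.s e) (G.r e) h) (G.s f) = ex h (G.s f) ∧
      ex (HS5_tr (G.s e) (G.r e) h) (G.r f) = ex h (G.r f) := by
    intro f hf hfT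
    have hn : ¬ (G.s f = G.s e ∨ G.s f = G.r e ∨ G.r f = G.s e ∨ G.r f = G.r e) :=
      fun hc => hfT (hTT f hf hc)
    rw [HS5_ex, HS5_ex, if_neg (by tauto), if_neg (by tauto)]
    exact ⟨rfl, rfl⟩
  have hem := HS5_em w hw R D K hK k2 k3 G B T e he hT (ex h) (ex (HS5_tr (G.s e) (G.r e) h)) hle
    (fun f hf => ⟨hbd _ (hTN f hf).1, hbd _ (hTN f hf).2⟩)
    (by rw [HS5_ex, if_pos (Or.inl rfl)]; exact min_le_right _ _)
    (by rw [HS5_ex, if_pos (Or.inr rfl)]; exact min_le_right _ _) heT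
    (fun f hf hfT => hout f (Finset.mem_union_left _ hf) hfT) φ h0
  have hWH : WH G F EF w h ≤ K ^ D * WH G F EF w (HS5_tr (G.s e) (G.r e) h) := by
    unfold WH
    apply HS5_prod_le EF (fun f => f ∈ T) D K hK
    · refine le_trans (Finset.card_le_card ?_) hT
      intro f hf
      exact (Finset.mem_filter.1 hf).2
    · intro f _
      exact (hw.pos _).le
    · intro f _
      exact (hw.pos _).le
    · intro f hf hfT
      apply k1
      · have h1 := abs_le.1 (hg _ (hTN f hfT).1)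
        have h2 := abs_le.1 (hg _ (hTN f hfT).2)
        rw [abs_le]
        constructor <;> linarith [h1.1, h1.2, h2.1, h2.2]
      · have h1 := abs_le.1 (hbd _ (hTN f hfT).1)
        have h2 := abs_le.1 (hbd _ (hTN f hfT).2)
        rw [abs_le]
        constructor <;> linarith [h1.1, h1.2, h2.1, h2.2]
    · intro f hf hfT
      have := hout f (Finset.mem_union_right _ hf) hfT
      rw [this.1, this.2]
  have hW0 : 0 ≤ WH G F EF w h := (WH_pos G F EF w hw h).le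
  have hKD : 0 ≤ K ^ D := pow_nonneg (by linarith) D
  have hE0 : 0 ≤ 2 * K ^ D * em w G B (ex (HS5_tr (G.s e) (G.r e) h)) φ := by
    refine mul_nonneg (by linarith) ?_
    unfold em
    apply Finset.sum_nonneg
    intro ω _
    apply mul_nonneg _ (h0 _)
    apply Finset.prod_nonneg
    intro f _
    have := qm_bd w hw (ex (HS5_tr (G.s e) (G.r e) h) (G.s f.1)) (ex (HS5_tr (G.s e) (G.r e) h) (G.r f.1))
    split_ifs
    · exact this.1
    · linarith [this.2]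
  calc WH G F EF w h * em w G B (ex h) (fun o => φ (opP e o)) ≤
      WH G F EF w h * (2 * K ^ D * em w G B (ex (HS5_tr (G.s e) (G.r e) h)) φ) :=
        mul_le_mul_of_nonneg_left hem hW0
    _ ≤ (K ^ D * WH G F EF w (HS5_tr (G.s e) (G.r e) h)) *
        (2 * K ^ D * em w G B (ex (HS5_tr (G.s e) (G.r e) h)) φ) :=
        mul_le_mul_of_nonneg_right hWH hE0
    _ = _ := by ring

theorem HS5_main (w : ℤ → ℝ) (hw : WOk w) (R D : ℕ) (hR : 0 < R) (K : ℝ) (hK : 1 ≤ K)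
    (k1 : ∀ x y : ℤ, |x| ≤ 2 * R → |y| ≤ 2 * R → w x ≤ K * w y)
    (k2 : ∀ x y : ℤ, |x| ≤ R → |y| ≤ R → 1 ≤ K * (1 - qm w x y))
    (k3 : ∀ x y : ℤ, |x| ≤ R → |y| ≤ R → x ≤ 0 → y ≤ 0 → 1 ≤ K * qm w x y)
    (G : Gr V E) (F : Finset V) (EF : Finset E) (hBd : Bd G F EF)
    (B T : Finset E) (Nr : Finset V) (e : E) (he : e ∈ B)
    (hT : T.card ≤ D)
    (hTT : ∀ f ∈ B ∪ EF, (G.s f = G.s e ∨ G.s f = G.r e ∨ G.r f = G.s e ∨ G.r f = G.r e) → f ∈ T)
    (hTN : ∀ f ∈ T, G.s f ∈ Nr ∧ G.r f ∈ Nr)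
    (φ : (E → Bool) → ℝ) (h0 : ∀ o, 0 ≤ φ o) (h1 : ∀ o, φ o ≤ 1) :
    PM G F EF w B (fun o => φ (opP e o)) ≤ (2 * K ^ D * K ^ D * (R + 1) ^ 2) * PM G F EF w B φ +
        (∑ v ∈ Nr, Eh G F EF w (fun h => (h v : ℝ) ^ 2)) / R ^ 2 := by
  set C1 : ℝ := 2 * K ^ D * K ^ D with hC1
  have hC10 : 0 ≤ C1 := by positivity
  have hR0 : (0 : ℝ) < R := by exact_mod_cast hR
  have hemb : ∀ (ψ : (E → Bool) → ℝ), (∀ o, 0 ≤ ψ o) → (∀ o, ψ o ≤ 1) →
      PBd F (fun h => em w G B h ψ) := by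
    intro ψ hψ0 hψ1
    apply PBd_bdd F _ 1
    intro h
    have := em_bd w hw G B h ψ hψ0 hψ1
    rw [abs_le]
    constructor <;> linarith [this.1, this.2]
  have sq : ∀ v, PBd F (fun h => (h v : ℝ) ^ 2) := by
    intro v
    have := PBd_mul F _ _ (PBd_h F v) (PBd_h F v)
    simpa only [pow_two] using this
  obtain ⟨Q, hQ⟩ : ∃ Q : (↥F → ℤ) → ℝ, ∀ h, Q h = WH G F EF w h * em w G B (ex h) φ :=
    ⟨fun h => WH G F EF w h * em w G B (ex h) φ, fun _ => rfl⟩
  have hQs : Summable Q := by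
    have h2 : Q = fun h => WH G F EF w h * em w G B (ex h) φ := funext hQ
    rw [h2]
    exact WH_summ G F EF hBd w hw (fun h => em w G B h φ) (hemb φ h0 h1)
  have hQ0 : ∀ h, 0 ≤ Q h := fun h => by
    rw [hQ]
    exact mul_nonneg (WH_pos G F EF w hw h).le (em_bd w hw G B (ex h) φ h0 h1).1
  have hLs : Summable (fun h : ↥F → ℤ => WH G F EF w h * em w G B (ex h) (fun o => φ (opP e o))) :=
    WH_summ G F EF hBd w hw (fun h => em w G B h (fun o => φ (opP e o)))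
      (hemb (fun o => φ (opP e o)) (fun o => h0 _) (fun o => h1 _))
  have hVs : ∀ v, Summable (fun h : ↥F → ℤ => WH G F EF w h * ((ex h v : ℤ) : ℝ) ^ 2) :=
    fun v => WH_summ G F EF hBd w hw (fun h => (h v : ℝ) ^ 2) (sq v)
  obtain ⟨hZs, hZ⟩ := WH_summ1 G F EF hBd w hw
  have hpt : ∀ h : ↥F → ℤ, WH G F EF w h * em w G B (ex h) (fun o => φ (opP e o)) ≤
      C1 * (∑ d ∈ (HS5_dl R (G.s e) (G.r e) : Finset (↥F → ℤ)), Q (h - d)) +
        (∑ v ∈ Nr, WH G F EF w h * ((ex h v : ℤ) : ℝ) ^ 2) / R ^ 2 := by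
    intro h
    have hW0 : 0 ≤ WH G F EF w h := (WH_pos G F EF w hw h).le
    have a1 : 0 ≤ (∑ v ∈ Nr, WH G F EF w h * ((ex h v : ℤ) : ℝ) ^ 2) / R ^ 2 := by
      apply div_nonneg _ (by positivity)
      apply Finset.sum_nonneg
      intro v _
      exact mul_nonneg hW0 (sq_nonneg _)
    have a2 : 0 ≤ C1 * (∑ d ∈ (HS5_dl R (G.s e) (G.r e) : Finset (↥F → ℤ)), Q (h - d)) :=
      mul_nonneg hC10 (Finset.sum_nonneg (fun d _ => hQ0 _))
    by_cases hg : ∀ v ∈ Nr, |ex h v| ≤ R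
    · have b1 := HS5_pt w hw R D K hK k1 k2 k3 G F EF B T Nr e he hT hTT hTN φ h0 h hg
      have heT : e ∈ T := hTT e (Finset.mem_union_left _ he) (Or.inl rfl)
      have b2 : h - HS5_tr (G.s e) (G.r e) h ∈ (HS5_dl R (G.s e) (G.r e) : Finset (↥F → ℤ)) := by
        unfold HS5_dl
        rw [Fintype.mem_piFinset]
        intro v
        rw [Pi.sub_apply]
        unfold HS5_tr
        by_cases hv : v.1 = G.s e ∨ v.1 = G.r e
        · have hvN : v.1 ∈ Nr := by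
            rcases hv with hv | hv
            · rw [hv]; exact (hTN e heT).1
            · rw [hv]; exact (hTN e heT).2
          have h3 := hg v.1 hvN
          have h4 : ex h v.1 = h v := by
            unfold ex
            simp
          rw [h4, abs_le] at h3
          rw [if_pos hv, if_pos hv, Finset.mem_Icc]
          rcases le_total (h v) 0 with h5 | h5
          · rw [min_eq_left h5]
            omega
          · rw [min_eq_right h5]
            omega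
        · rw [if_neg hv, if_neg hv, sub_self]
          exact Finset.mem_singleton_self 0
      have b3 : Q (HS5_tr (G.s e) (G.r e) h) ≤
          ∑ d ∈ (HS5_dl R (G.s e) (G.r e) : Finset (↥F → ℤ)), Q (h - d) := by
        have := Finset.single_le_sum (f := fun d => Q (h - d)) (fun d _ => hQ0 _) b2
        simpa using this
      have b4 := mul_le_mul_of_nonneg_left b3 hC10
      refine b1.trans ?_
      have : 2 * K ^ D * K ^ D * (WH G F EF w (HS5_tr (G.s e) (G.r e) h) *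
        em w G B (ex (HS5_tr (G.s e) (G.r e) h)) φ) = C1 * Q (HS5_tr (G.s e) (G.r e) h) := by
          rw [hC1, hQ]
      rw [this]
      linarith
    · push Not at hg
      obtain ⟨v, hv, hvR⟩ := hg
      have b1 := em_bd w hw G B (ex h) (fun o => φ (opP e o)) (fun o => h0 _) (fun o => h1 _)
      have b2 : WH G F EF w h * em w G B (ex h) (fun o => φ (opP e o)) ≤ WH G F EF w h := by
        calc _ ≤ WH G F EF w h * 1 := mul_le_mul_of_nonneg_left b1.2 hW0
          _ = _ := mul_one _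
      have b3 : WH G F EF w h * ((ex h v : ℤ) : ℝ) ^ 2 ≤ ∑ v ∈ Nr, WH G F EF w h * ((ex h v : ℤ) : ℝ) ^ 2 :=
        Finset.single_le_sum (f := fun v => WH G F EF w h * ((ex h v : ℤ) : ℝ) ^ 2)
          (fun v _ => mul_nonneg hW0 (sq_nonneg _)) hv
      have b4 : (R : ℝ) ≤ |((ex h v : ℤ) : ℝ)| := by
        rw [← Int.cast_abs]
        exact_mod_cast hvR.le
      have b5 : (R : ℝ) ^ 2 ≤ ((ex h v : ℤ) : ℝ) ^ 2 := by
        rw [← sq_abs ((ex h v : ℤ) : ℝ)]
        exact pow_le_pow_left₀ hR0.le b4 2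
      have b6 : WH G F EF w h ≤ (∑ v ∈ Nr, WH G F EF w h * ((ex h v : ℤ) : ℝ) ^ 2) / R ^ 2 := by
        rw [le_div_iff₀ (by positivity)]
        exact (mul_le_mul_of_nonneg_left b5 hW0).trans b3
      linarith
  have hshift : ∀ d : ↥F → ℤ, Summable (fun h => Q (h - d)) := fun d =>
    (Equiv.subRight d).summable_iff.2 hQs
  have hsum1 : Summable (fun h => C1 * (∑ d ∈ (HS5_dl R (G.s e) (G.r e) : Finset (↥F → ℤ)), Q (h - d))) :=
    (summable_sum (fun d _ => hshift d)).mul_left C1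
  have hsum2 : Summable (fun h : ↥F → ℤ => (∑ v ∈ Nr, WH G F EF w h * ((ex h v : ℤ) : ℝ) ^ 2) / (R : ℝ) ^ 2) :=
    (summable_sum (fun v _ => hVs v)).div_const _
  have htot := hLs.tsum_le_tsum hpt (hsum1.add hsum2)
  rw [hsum1.tsum_add hsum2, tsum_mul_left, tsum_div_const, Summable.tsum_finsetSum (fun d _ => hshift d),
    Summable.tsum_finsetSum (fun v _ => hVs v)] at htot
  have hsh : ∀ d : ↥F → ℤ, ∑' h, Q (h - d) = ∑' h, Q h := fun d => (Equiv.subRight d).tsum_eq Q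
  simp only [hsh, Finset.sum_const, nsmul_eq_mul] at htot
  have hcard := HS5_dlc (F := F) R (G.s e) (G.r e)
  have hQt : 0 ≤ ∑' h, Q h := tsum_nonneg hQ0
  have hfin : ∑' h : ↥F → ℤ, WH G F EF w h * em w G B (ex h) (fun o => φ (opP e o)) ≤
      (C1 * (R + 1) ^ 2) * ∑' h, Q h + (∑ v ∈ Nr, ∑' h : ↥F → ℤ, WH G F EF w h * ((ex h v : ℤ) : ℝ) ^ 2) / R ^ 2 := by
    refine htot.trans ?_
    have := mul_le_mul_of_nonneg_left (mul_le_mul_of_nonneg_right hcard hQt) hC10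
    rw [← mul_assoc C1] at this
    linarith
  have hQf : ∑' h, Q h = ∑' h : ↥F → ℤ, WH G F EF w h * em w G B (ex h) φ := by simp only [hQ]
  rw [hQf] at hfin
  unfold PM Eh
  rw [div_le_iff₀ hZ, add_mul]
  have e1 : C1 * (R + 1) ^ 2 * ((∑' h : ↥F → ℤ, WH G F EF w h * em w G B (ex h) φ) /
      ∑' h : ↥F → ℤ, WH G F EF w h) * (∑' h : ↥F → ℤ, WH G F EF w h) =
      C1 * (R + 1) ^ 2 * ∑' h : ↥F → ℤ, WH G F EF w h * em w G B (ex h) φ := by
    field_simp
  have e2 : (∑ v ∈ Nr, (∑' h : ↥F → ℤ, WH G F EF w h * ((ex h v : ℤ) : ℝ) ^ 2) / ∑' h : ↥F → ℤ, WH G F EF w h) / (R : ℝ) ^ 2 *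
      (∑' h : ↥F → ℤ, WH G F EF w h) = (∑ v ∈ Nr, ∑' h : ↥F → ℤ, WH G F EF w h * ((ex h v : ℤ) : ℝ) ^ 2) / R ^ 2 := by
    rw [← Finset.sum_div]
    field_simp
  calc _ ≤ _ := hfin
    _ = _ := by rw [← e1, ← e2]

theorem hs_ins (w : ℤ → ℝ) (hw : WOk w) (h10 : w 1 < w 0) (R : ℕ)
    (hR : 0 < R) (D : ℕ) : ∃ C : ℝ, 0 < C ∧
    ∀ (V E : Type) [DecidableEq V] [DecidableEq E] (G : Gr V E) (F : Finset V) (EF : Finset E),
      Bd G F EF → ∀ (B T : Finset E) (Nr : Finset V) (e : E), e ∈ B → T.card ≤ D →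
      (∀ f ∈ B ∪ EF, (G.s f = G.s e ∨ G.s f = G.r e ∨ G.r f = G.s e ∨ G.r f = G.r e) → f ∈ T) →
      (∀ f ∈ T, G.s f ∈ Nr ∧ G.r f ∈ Nr) →
      ∀ φ : (E → Bool) → ℝ, (∀ o, 0 ≤ φ o) → (∀ o, φ o ≤ 1) →
      PM G F EF w B (fun o => φ (opP e o)) ≤ C * PM G F EF w B φ +
        (∑ v ∈ Nr, Eh G F EF w (fun h => (h v : ℝ) ^ 2)) / R ^ 2 := by
  classical
  obtain ⟨K1, hK1, k1⟩ := HS5_const ((Finset.Icc (-(2 * R : ℤ)) (2 * R)) ×ˢ (Finset.Icc (-(2 * R : ℤ)) (2 * R)))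
    (fun p => w p.2 / w p.1) (fun p _ => div_pos (hw.pos _) (hw.pos _))
  obtain ⟨K2, hK2, k2⟩ := HS5_const ((Finset.Icc (-(R : ℤ)) R) ×ˢ (Finset.Icc (-(R : ℤ)) R))
    (fun p => 1 - qm w p.1 p.2) (fun p _ => by linarith [(qm_bd w hw p.1 p.2).2])
  obtain ⟨K3, hK3, k3⟩ := HS5_const ((Finset.Icc (-(R : ℤ)) 0) ×ˢ (Finset.Icc (-(R : ℤ)) 0))
    (fun p => qm w p.1 p.2) (fun p hp => by
      rw [Finset.mem_product, Finset.mem_Icc, Finset.mem_Icc] at hp
      exact HS5_qpos w hw h10 _ _ hp.1.2 hp.2.2)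
  set K := K1 + K2 + K3 with hKd
  have hK : 1 ≤ K := by linarith
  refine ⟨2 * K ^ D * K ^ D * (R + 1) ^ 2, by positivity, ?_⟩
  intro V E _ _ G F EF hBd B T Nr e he hT hTT hTN φ h0 h1
  refine HS5_main w hw R D hR K hK ?_ ?_ ?_ G F EF hBd B T Nr e he hT hTT hTN φ h0 h1
  · intro x y hx hy
    rw [abs_le] at hx hy
    have h := k1 (x, y) (by
      rw [Finset.mem_product, Finset.mem_Icc, Finset.mem_Icc]
      exact ⟨hx, hy⟩)
    have px := hw.pos x
    have py := hw.pos y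
    simp only at h
    rw [← mul_div_assoc, one_le_div px] at h
    refine h.trans ?_
    exact mul_le_mul_of_nonneg_right (by linarith) py.le
  · intro x y hx hy
    rw [abs_le] at hx hy
    have h := k2 (x, y) (by
      rw [Finset.mem_product, Finset.mem_Icc, Finset.mem_Icc]
      exact ⟨hx, hy⟩)
    refine h.trans ?_
    exact mul_le_mul_of_nonneg_right (by linarith) (by linarith [(qm_bd w hw x y).2])
  · intro x y hx hy hx0 hy0
    rw [abs_le] at hx hy
    have h := k3 (x, y) (by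
      rw [Finset.mem_product, Finset.mem_Icc, Finset.mem_Icc]
      exact ⟨⟨hx.1, hx0⟩, ⟨hy.1, hy0⟩⟩)
    refine h.trans ?_
    exact mul_le_mul_of_nonneg_right (by linarith) (qm_bd w hw x y).1

end H82.BX

end S_H82_BX_HS5

section S_H82_BX_HS4

/-!
# HS4: connection to the outside (FK representation of the signs at level 1/2)

`g = h - 1/2` (half integers, `-1/2` outside `F`).  For a height function and `ω ⊆ EF` consider the joint weight
`Q(h, ω) = ∏_{e ∈ ω} (w(|g_a| - |g_b|) - w(|g_a| + |g_b|)) 1[g_a g_b > 0] ∏_{e ∈ EF \ ω} w(|g_a| + |g_b|)` (arguments are integers).  Summing over `ω` gives `WH` (same sign: `w(|g_a|-|g_b|) = w(g_a - g_b)`;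
opposite signs: `w(|g_a|+|g_b|) = w(g_a - g_b)`).  Given `h`, `ω` is a product measure with probabilities `1 - w(|g_a|+|g_b|)/w(g_a-g_b)` on the edges with `g_a g_b > 0`, which for `g_a, g_b < 0` (`h_a, h_b ≤ 0`) is `qm w h_a h_b`.
Let `C` be the `ω`-cluster of `v` (in `EF`).  If `C ⊆ F`, the map `g ↦ -g` on `C` (`h ↦ 1 - h` on `C`, `ω` fixed) is an involution preserving `Q` and `C`: so `∑_{h,ω} Q g_v 1[C ⊆ F] = 0`.
By symmetry (`Eh_neg`) `Eh h_v = 0`, so `-1/2 = E g_v = E[g_v ; C ⊄ F]`.  On `{C ⊄ F}` all `g` on the path from `v` to the outside have the sign of `-1/2`, so `g_v < 0` and the path consists of `ω⁻` edges: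
`1/2 = E[|g_v| ; C ⊄ F] ≤ E[|g_v| 1_A]`, `A = {v ↔ outside in ω⁻}`.  For `t = E g_v² = Eh h_v² + 1/4`: `|g_v| 1_A ≤ g_v²/(4t) + t 1_A`, so `1/2 ≤ 1/4 + t P(A)`, `P(A) ≥ 1/(4t)`.
-/

set_option autoImplicit false

open Finset MeasureTheory

namespace H82.BX

open H82.IC

variable {V E : Type} [DecidableEq V] [DecidableEq E]

/-- weight of a closed edge. -/
noncomputable def HS4_B (w : ℤ → ℝ) (a b : ℤ) : ℝ :=
  if (a ≤ 0 ↔ b ≤ 0) then w (a + b - 1) else w (a - b)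

/-- weight of an open edge. -/
noncomputable def HS4_A (w : ℤ → ℝ) (a b : ℤ) : ℝ :=
  if (a ≤ 0 ↔ b ≤ 0) then w (a - b) - w (a + b - 1) else 0

theorem HS4_AB (w : ℤ → ℝ) (a b : ℤ) : HS4_A w a b + HS4_B w a b = w (a - b) := by
  unfold HS4_A HS4_B
  split_ifs <;> ring

theorem HS4_symm' (w : ℤ → ℝ) (hw : WOk w) (x y : ℤ) (h : x = -y) : w x = w y := by
  rw [h, hw.symm]

theorem HS4_Aflip (w : ℤ → ℝ) (hw : WOk w) (a b : ℤ) : HS4_A w (1 - a) (1 - b) = HS4_A w a b := by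
  unfold HS4_A
  by_cases h : (a ≤ 0 ↔ b ≤ 0)
  · have h' : (1 - a ≤ 0 ↔ 1 - b ≤ 0) := by omega
    rw [if_pos h, if_pos h', HS4_symm' w hw (1 - a - (1 - b)) (a - b) (by ring),
      HS4_symm' w hw (1 - a + (1 - b) - 1) (a + b - 1) (by ring)]
  · have h' : ¬ (1 - a ≤ 0 ↔ 1 - b ≤ 0) := by omega
    rw [if_neg h, if_neg h']

theorem HS4_Bflip1 (w : ℤ → ℝ) (hw : WOk w) (a b : ℤ) : HS4_B w (1 - a) b = HS4_B w a b := by
  unfold HS4_B
  by_cases h : (a ≤ 0 ↔ b ≤ 0)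
  · have h' : ¬ (1 - a ≤ 0 ↔ b ≤ 0) := by omega
    rw [if_pos h, if_neg h', HS4_symm' w hw (1 - a - b) (a + b - 1) (by ring)]
  · have h' : (1 - a ≤ 0 ↔ b ≤ 0) := by omega
    rw [if_neg h, if_pos h', HS4_symm' w hw (1 - a + b - 1) (a - b) (by ring)]

theorem HS4_Bflip2 (w : ℤ → ℝ) (hw : WOk w) (a b : ℤ) : HS4_B w a (1 - b) = HS4_B w a b := by
  unfold HS4_B
  by_cases h : (a ≤ 0 ↔ b ≤ 0)
  · have h' : ¬ (a ≤ 0 ↔ 1 - b ≤ 0) := by omega
    rw [if_pos h, if_neg h']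
    congr 1; ring
  · have h' : (a ≤ 0 ↔ 1 - b ≤ 0) := by omega
    rw [if_neg h, if_pos h']
    congr 1; ring

theorem HS4_Bpos (w : ℤ → ℝ) (hw : WOk w) (a b : ℤ) : 0 < HS4_B w a b := by
  unfold HS4_B
  split_ifs <;> exact hw.pos _

theorem HS4_Aneg (w : ℤ → ℝ) (hw : WOk w) (a b : ℤ) (ha : a ≤ 0) (hb : b ≤ 0) :
    HS4_A w a b = w (a - b) * qm w a b := by
  unfold HS4_A qm
  have h : (a ≤ 0 ↔ b ≤ 0) := by omega
  rw [if_pos h, if_pos ⟨ha, hb⟩]
  have := (hw.pos (a - b)).ne'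
  field_simp

theorem HS4_Apos (w : ℤ → ℝ) (hw : WOk w) (a b : ℤ) : 0 ≤ HS4_A w a b := by
  by_cases h : (a ≤ 0 ↔ b ≤ 0)
  · by_cases ha : a ≤ 0
    · rw [HS4_Aneg w hw a b ha (h.1 ha)]
      exact mul_nonneg (hw.pos _).le (qm_bd w hw a b).1
    · rw [← HS4_Aflip w hw, HS4_Aneg w hw (1 - a) (1 - b) (by omega) (by omega)]
      exact mul_nonneg (hw.pos _).le (qm_bd w hw _ _).1
  · unfold HS4_A
    rw [if_neg h]

/-! ### products of two-point weights -/

theorem HS4_prod_sum {I : Type} [Fintype I] [DecidableEq I] (c : I → Bool → ℝ) :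
    ∑ o : I → Bool, (∏ i, c i (o i)) = ∏ i, (c i true + c i false) := by
  have h := Finset.prod_univ_sum (fun _ : I => (Finset.univ : Finset Bool)) c
  rw [Fintype.piFinset_univ] at h
  rw [← h]
  refine Finset.prod_congr rfl (fun i _ => ?_)
  rw [Fintype.sum_bool]

theorem HS4_prod_loc1 {I : Type} [Fintype I] [DecidableEq I] (N : I → Prop) [DecidablePred N]
    (f : (I → Bool) → ℝ) (hf : ∀ o o', (∀ i, N i → o i = o' i) → f o = f o') (c : I → Bool → ℝ) :
    ∑ o : I → Bool, (∏ i, c i (o i)) * f o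
      = ∑ o1 : {i // N i} → Bool, (∏ i : {i // N i}, c i (o1 i)) *
        (f (fun i => if h : N i then o1 ⟨i, h⟩ else false)) *
          ∏ i : {i // ¬ N i}, (c i true + c i false) := by
  rw [← (Equiv.piEquivPiSubtypeProd N (fun _ => Bool)).symm.sum_comp, Fintype.sum_prod_type]
  refine Finset.sum_congr rfl (fun o1 _ => ?_)
  rw [← HS4_prod_sum (fun i : {i // ¬ N i} => c i.1), Finset.mul_sum]
  refine Finset.sum_congr rfl (fun o2 _ => ?_)
  have e1 : f ((Equiv.piEquivPiSubtypeProd N (fun _ => Bool)).symm (o1, o2)) =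
      f (fun i => if h : N i then o1 ⟨i, h⟩ else false) := by
    apply hf
    intro i hi
    simp [Equiv.piEquivPiSubtypeProd, hi]
  have e2 : (∏ i, c i ((Equiv.piEquivPiSubtypeProd N (fun _ => Bool)).symm (o1, o2) i)) =
      (∏ i : {i // N i}, c i (o1 i)) * ∏ i : {i // ¬ N i}, c i (o2 i) := by
    rw [← Fintype.prod_subtype_mul_prod_subtype N]
    congr 1
    · refine Finset.prod_congr rfl (fun i _ => ?_)
      have := i.2
      simp [Equiv.piEquivPiSubtypeProd, this]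
    · refine Finset.prod_congr rfl (fun i _ => ?_)
      have := i.2
      simp [Equiv.piEquivPiSubtypeProd, this]
  rw [e1, e2]
  ring

theorem HS4_prod_loc {I : Type} [Fintype I] [DecidableEq I] (N : I → Prop) [DecidablePred N]
    (c c' : I → Bool → ℝ) (h1 : ∀ i b, N i → c i b = c' i b)
    (h2 : ∀ i, ¬ N i → c i true + c i false = c' i true + c' i false)
    (f : (I → Bool) → ℝ) (hf : ∀ o o', (∀ i, N i → o i = o' i) → f o = f o') :
    ∑ o : I → Bool, (∏ i, c i (o i)) * f o = ∑ o : I → Bool, (∏ i, c' i (o i)) * f o := by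
  rw [HS4_prod_loc1 N f hf c, HS4_prod_loc1 N f hf c']
  refine Finset.sum_congr rfl (fun o1 _ => ?_)
  congr 1
  · congr 1
    exact Finset.prod_congr rfl (fun i _ => h1 i.1 _ i.2)
  · exact Finset.prod_congr rfl (fun i _ => h2 i.1 i.2)

/-! ### the joint weight -/

/-- joint weight of the heights and of the sign clusters. -/
noncomputable def HS4_Q (G : Gr V E) (EF : Finset E) (w : ℤ → ℝ) (x : V → ℤ) (o : ↥EF → Bool) : ℝ :=
  ∏ e : ↥EF, if o e then HS4_A w (x (G.s e.1)) (x (G.r e.1)) else HS4_B w (x (G.s e.1)) (x (G.r e.1))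

theorem HS4_Qnn (G : Gr V E) (EF : Finset E) (w : ℤ → ℝ) (hw : WOk w) (x : V → ℤ) (o : ↥EF → Bool) :
    0 ≤ HS4_Q G EF w x o := by
  unfold HS4_Q
  refine Finset.prod_nonneg (fun e _ => ?_)
  split_ifs
  · exact HS4_Apos w hw _ _
  · exact (HS4_Bpos w hw _ _).le

theorem HS4_Qsum (G : Gr V E) (EF : Finset E) (w : ℤ → ℝ) (x : V → ℤ) :
    ∑ o : ↥EF → Bool, HS4_Q G EF w x o = ∏ e ∈ EF, w (x (G.s e) - x (G.r e)) := by
  unfold HS4_Q
  have := HS4_prod_sum (fun (e : ↥EF) (b : Bool) =>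
    if b then HS4_A w (x (G.s e.1)) (x (G.r e.1)) else HS4_B w (x (G.s e.1)) (x (G.r e.1)))
  rw [this, ← Finset.prod_coe_sort EF]
  refine Finset.prod_congr rfl (fun e _ => ?_)
  simp only [if_true]
  simpa using HS4_AB w (x (G.s e.1)) (x (G.r e.1))

theorem HS4_Qle (G : Gr V E) (EF : Finset E) (w : ℤ → ℝ) (hw : WOk w) (x : V → ℤ) (o : ↥EF → Bool) :
    HS4_Q G EF w x o ≤ ∏ e ∈ EF, w (x (G.s e) - x (G.r e)) := by
  rw [← HS4_Qsum]
  exact Finset.single_le_sum (fun o _ => HS4_Qnn G EF w hw x o) (Finset.mem_univ o)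

/-- connection to the outside. -/
def HS4_out (G : Gr V E) (F : Finset V) (v : V) (o : E → Bool) : Prop :=
  ∃ u, u ∉ F ∧ G.Conn (op1 o) v u

/-- on the support of `Q` a path to the outside has only nonpositive heights. -/
theorem HS4_path (G : Gr V E) (EF : Finset E) (w : ℤ → ℝ) (x : V → ℤ)
    (o : ↥EF → Bool) (hQ : HS4_Q G EF w x o ≠ 0) (v u : V) (hu : x u ≤ 0)
    (hc : G.Conn (op1 (g0 EF o)) v u) :
    x v ≤ 0 ∧ G.Conn {e | e ∈ op1 (g0 EF o) ∧ x (G.s e) ≤ 0 ∧ x (G.r e) ≤ 0} v u := by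
  have hsame : ∀ e ∈ op1 (g0 EF o), (x (G.s e) ≤ 0 ↔ x (G.r e) ≤ 0) := by
    intro e he
    by_contra hne
    apply hQ
    unfold op1 g0 at he
    simp only [Set.mem_setOf_eq] at he
    by_cases heF : e ∈ EF
    · rw [dif_pos heF] at he
      unfold HS4_Q
      refine Finset.prod_eq_zero (Finset.mem_univ (⟨e, heF⟩ : ↥EF)) ?_
      rw [if_pos he]
      unfold HS4_A
      rw [if_neg hne]
    · rw [dif_neg heF] at he
      exact absurd he (by simp)
  unfold Gr.Conn at hc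
  induction hc using Relation.ReflTransGen.head_induction_on with
  | refl => exact ⟨hu, Relation.ReflTransGen.refl⟩
  | @head a c h1 _ ih =>
    obtain ⟨e, he, h2⟩ := h1
    have hs := hsame e he
    rcases h2 with ⟨rfl, rfl⟩ | ⟨rfl, rfl⟩
    · have ha : x (G.s e) ≤ 0 := hs.2 ih.1
      refine ⟨ha, Relation.ReflTransGen.head ⟨e, ⟨he, ha, ih.1⟩, Or.inl ⟨rfl, rfl⟩⟩ ih.2⟩
    · have ha : x (G.r e) ≤ 0 := hs.1 ih.1
      refine ⟨ha, Relation.ReflTransGen.head ⟨e, ⟨he, ih.1, ha⟩, Or.inr ⟨rfl, rfl⟩⟩ ih.2⟩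

theorem HS4_conn_le (G : Gr V E) (F : Finset V) (EF : Finset E) (w : ℤ → ℝ) (hw : WOk w)
    (x : V → ℤ) (hx : ∀ u, u ∉ F → x u ≤ 0) (v : V) :
    ∑ o : ↥EF → Bool, HS4_Q G EF w x o * ind (HS4_out G F v (g0 EF o)) ≤
      (∏ e ∈ EF, w (x (G.s e) - x (G.r e))) *
        em w G EF x (fun o => ind (HS4_out G F v o)) := by
  classical
  set N : ↥EF → Prop := fun e => x (G.s e.1) ≤ 0 ∧ x (G.r e.1) ≤ 0 with hN
  set f : (↥EF → Bool) → ℝ := fun o => ind (∃ u, u ∉ F ∧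
    G.Conn {e | e ∈ op1 (g0 EF o) ∧ x (G.s e) ≤ 0 ∧ x (G.r e) ≤ 0} v u) with hf
  have hf1 : ∀ o o', (∀ i, N i → o i = o' i) → f o = f o' := by
    intro o o' hoo
    have : {e | e ∈ op1 (g0 EF o) ∧ x (G.s e) ≤ 0 ∧ x (G.r e) ≤ 0} =
        {e | e ∈ op1 (g0 EF o') ∧ x (G.s e) ≤ 0 ∧ x (G.r e) ≤ 0} := by
      ext e
      simp only [Set.mem_setOf_eq]
      constructor
      · rintro ⟨h1, h2, h3⟩
        refine ⟨?_, h2, h3⟩
        unfold op1 g0 at h1 ⊢
        simp only [Set.mem_setOf_eq] at h1 ⊢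
        by_cases heF : e ∈ EF
        · rw [dif_pos heF] at h1 ⊢
          rw [← hoo ⟨e, heF⟩ ⟨h2, h3⟩]; exact h1
        · rw [dif_neg heF] at h1
          exact absurd h1 (by simp)
      · rintro ⟨h1, h2, h3⟩
        refine ⟨?_, h2, h3⟩
        unfold op1 g0 at h1 ⊢
        simp only [Set.mem_setOf_eq] at h1 ⊢
        by_cases heF : e ∈ EF
        · rw [dif_pos heF] at h1 ⊢
          rw [hoo ⟨e, heF⟩ ⟨h2, h3⟩]; exact h1
        · rw [dif_neg heF] at h1
          exact absurd h1 (by simp)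
    simp only [hf, this]
  set c : ↥EF → Bool → ℝ := fun e b =>
    if b then HS4_A w (x (G.s e.1)) (x (G.r e.1)) else HS4_B w (x (G.s e.1)) (x (G.r e.1)) with hc
  set c' : ↥EF → Bool → ℝ := fun e b =>
    w (x (G.s e.1) - x (G.r e.1)) * (if b then qm w (x (G.s e.1)) (x (G.r e.1)) else
      1 - qm w (x (G.s e.1)) (x (G.r e.1))) with hc'
  have h1 : ∀ i b, N i → c i b = c' i b := by
    intro i b hi
    have hA := HS4_Aneg w hw _ _ hi.1 hi.2
    have hAB := HS4_AB w (x (G.s i.1)) (x (G.r i.1))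
    cases b
    · simp only [hc, hc', if_false, Bool.false_eq_true]
      rw [hA] at hAB
      linarith
    · simp only [hc, hc', if_true]
      exact hA
  have h2 : ∀ i, ¬ N i → c i true + c i false = c' i true + c' i false := by
    intro i _
    have hAB := HS4_AB w (x (G.s i.1)) (x (G.r i.1))
    simp only [hc, hc', if_true, if_false, Bool.false_eq_true]
    rw [hAB]; ring
  have h3 := HS4_prod_loc N c c' h1 h2 f hf1
  have h4 : ∑ o : ↥EF → Bool, HS4_Q G EF w x o * ind (HS4_out G F v (g0 EF o)) ≤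
      ∑ o : ↥EF → Bool, (∏ i, c i (o i)) * f o := by
    refine Finset.sum_le_sum (fun o _ => ?_)
    by_cases hQ : HS4_Q G EF w x o = 0
    · have : (∏ i, c i (o i)) = 0 := hQ
      rw [hQ, this]; simp
    · have hQ' : (∏ i, c i (o i)) = HS4_Q G EF w x o := rfl
      rw [hQ']
      refine mul_le_mul_of_nonneg_left ?_ (HS4_Qnn G EF w hw x o)
      simp only [hf]
      unfold ind HS4_out
      split_ifs with ha hb hb
      · exact le_rfl
      · exfalso
        obtain ⟨u, hu, huc⟩ := ha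
        exact hb ⟨u, hu, (HS4_path G EF w x o hQ v u (hx u hu) huc).2⟩
      · exact zero_le_one
      · exact le_rfl
  refine h4.trans ?_
  rw [h3]
  unfold em
  rw [Finset.mul_sum]
  refine Finset.sum_le_sum (fun o _ => ?_)
  have h5 : (∏ i, c' i (o i)) = (∏ e ∈ EF, w (x (G.s e) - x (G.r e))) *
      ∏ e : ↥EF, (if o e then qm w (x (G.s e.1)) (x (G.r e.1)) else
        1 - qm w (x (G.s e.1)) (x (G.r e.1))) := by
    simp only [hc']
    rw [Finset.prod_mul_distrib, Finset.prod_coe_sort EF (fun e => w (x (G.s e) - x (G.r e)))]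
  rw [h5, mul_assoc]
  refine mul_le_mul_of_nonneg_left ?_ (Finset.prod_nonneg (fun e _ => (hw.pos _).le))
  refine mul_le_mul_of_nonneg_left ?_ (Finset.prod_nonneg (fun e _ => ?_))
  · simp only [hf]
    unfold ind HS4_out
    split_ifs with ha hb hb
    · exact le_rfl
    · exfalso
      obtain ⟨u, hu, huc⟩ := ha
      exact hb ⟨u, hu, conn_mono G (fun e he => he.1) huc⟩
    · exact zero_le_one
    · exact le_rfl
  · have := qm_bd w hw (x (G.s e.1)) (x (G.r e.1))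
    split_ifs
    · exact this.1
    · linarith [this.2]

/-! ### the flip -/

/-- `h ↦ 1 - h` on `S`. -/
noncomputable def HS4_fl {F : Finset V} (S : Set V) (h : ↥F → ℤ) : ↥F → ℤ :=
  open Classical in fun u => if u.1 ∈ S then 1 - h u else h u

theorem HS4_fl_inv {F : Finset V} (S : Set V) : Function.Involutive (HS4_fl (F := F) S) := by
  intro h
  funext u
  unfold HS4_fl
  by_cases hu : u.1 ∈ S
  · simp [hu]
  · simp [hu]

theorem HS4_fl_ex1 {F : Finset V} (S : Set V) (hS : ∀ u ∈ S, u ∈ F) (h : ↥F → ℤ) (u : V) (hu : u ∈ S) :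
    ex (HS4_fl S h) u = 1 - ex h u := by
  unfold ex HS4_fl
  simp [hS u hu, hu]

theorem HS4_fl_ex2 {F : Finset V} (S : Set V) (h : ↥F → ℤ) (u : V) (hu : u ∉ S) :
    ex (HS4_fl S h) u = ex h u := by
  unfold ex HS4_fl
  by_cases hF : u ∈ F
  · simp [hF, hu]
  · simp [hF]

theorem HS4_Qfl (G : Gr V E) (F : Finset V) (EF : Finset E) (w : ℤ → ℝ) (hw : WOk w)
    (v : V) (o : ↥EF → Bool) (S : Set V) (hS : ∀ u ∈ S, u ∈ F)
    (hSd : S = {u | G.Conn (op1 (g0 EF o)) v u}) (h : ↥F → ℤ) :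
    HS4_Q G EF w (ex (HS4_fl S h)) o = HS4_Q G EF w (ex h) o := by
  unfold HS4_Q
  refine Finset.prod_congr rfl (fun e _ => ?_)
  by_cases hoe : o e = true
  · rw [if_pos hoe, if_pos hoe]
    have hmem : e.1 ∈ op1 (g0 EF o) := by
      unfold op1 g0
      simp [hoe]
    have hiff : (G.s e.1 ∈ S ↔ G.r e.1 ∈ S) := by
      rw [hSd]
      simp only [Set.mem_setOf_eq]
      constructor
      · intro hs
        exact conn_trans G hs (conn_edge G hmem)
      · intro hr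
        exact conn_trans G hr (conn_symm G (conn_edge G hmem))
    by_cases hs : G.s e.1 ∈ S
    · rw [HS4_fl_ex1 S hS h _ hs, HS4_fl_ex1 S hS h _ (hiff.1 hs), HS4_Aflip w hw]
    · rw [HS4_fl_ex2 S h _ hs, HS4_fl_ex2 S h _ (fun hr => hs (hiff.2 hr))]
  · rw [if_neg hoe, if_neg hoe]
    by_cases hs : G.s e.1 ∈ S
    · rw [HS4_fl_ex1 S hS h _ hs, HS4_Bflip1 w hw]
      by_cases hr : G.r e.1 ∈ S
      · rw [HS4_fl_ex1 S hS h _ hr, HS4_Bflip2 w hw]
      · rw [HS4_fl_ex2 S h _ hr]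
    · rw [HS4_fl_ex2 S h _ hs]
      by_cases hr : G.r e.1 ∈ S
      · rw [HS4_fl_ex1 S hS h _ hr, HS4_Bflip2 w hw]
      · rw [HS4_fl_ex2 S h _ hr]

theorem HS4_tsum0 (G : Gr V E) (F : Finset V) (EF : Finset E) (w : ℤ → ℝ) (hw : WOk w)
    (v : V) (o : ↥EF → Bool) (hno : ¬ HS4_out G F v (g0 EF o)) :
    ∑' h : ↥F → ℤ, HS4_Q G EF w (ex h) o * ((ex h v : ℝ) - 1 / 2) = 0 := by
  set S : Set V := {u | G.Conn (op1 (g0 EF o)) v u} with hSd
  have hS : ∀ u ∈ S, u ∈ F := by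
    intro u hu
    by_contra huF
    exact hno ⟨u, huF, hu⟩
  have hvS : v ∈ S := conn_refl G _ v
  have h1 := (Function.Involutive.toPerm (HS4_fl (F := F) S) (HS4_fl_inv (F := F) S)).tsum_eq
    (fun h : ↥F → ℤ => HS4_Q G EF w (ex h) o * ((ex h v : ℝ) - 1 / 2))
  have h2 : ∀ h : ↥F → ℤ, HS4_Q G EF w
      (ex (Function.Involutive.toPerm (HS4_fl (F := F) S) (HS4_fl_inv (F := F) S) h)) o *
      ((ex (Function.Involutive.toPerm (HS4_fl (F := F) S) (HS4_fl_inv (F := F) S) h) v : ℝ) - 1 / 2) =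
      -(HS4_Q G EF w (ex h) o * ((ex h v : ℝ) - 1 / 2)) := by
    intro h
    have e1 : (Function.Involutive.toPerm (HS4_fl (F := F) S) (HS4_fl_inv (F := F) S)) h =
      HS4_fl S h := rfl
    rw [e1, HS4_Qfl G F EF w hw v o S hS hSd, HS4_fl_ex1 S hS h v hvS]
    push_cast
    ring
  simp only [h2, tsum_neg] at h1
  linarith

theorem hs_arm (G : Gr V E) (F : Finset V) (EF : Finset E) (hB : Bd G F EF) (w : ℤ → ℝ) (hw : WOk w)
    (v : V) (hv : v ∈ F) :
    1 / (4 * Eh G F EF w (fun h => (h v : ℝ) ^ 2) + 1) ≤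
      PM G F EF w EF (fun o => ind (∃ u, u ∉ F ∧ G.Conn (op1 o) v u)) := by
  classical
  have hWH : ∀ h : ↥F → ℤ, WH G F EF w h = ∏ e ∈ EF, w (ex h (G.s e) - ex h (G.r e)) := fun h => rfl
  set φ : (E → Bool) → ℝ := fun o => ind (HS4_out G F v o) with hφ
  have hφ0 : ∀ o, 0 ≤ φ o := by
    intro o; simp only [hφ]; unfold ind; split_ifs <;> norm_num
  have hφ1 : ∀ o, φ o ≤ 1 := by
    intro o; simp only [hφ]; unfold ind; split_ifs <;> norm_num
  have hem := fun h : V → ℤ => em_bd w hw G EF h φ hφ0 hφ1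
  obtain ⟨hZs, hZ⟩ := WH_summ1 G F EF hB w hw
  set Z := ∑' h : ↥F → ℤ, WH G F EF w h with hZd
  -- the function g
  have pb1 : PBd F (fun h : V → ℤ => ((h v : ℝ) - 1 / 2)) := by
    have := PBd_add F (fun h => (h v : ℝ)) (fun _ => -(1 / 2 : ℝ)) (PBd_h F v)
      (PBd_bdd F _ (1 / 2) (fun h => by rw [abs_neg, abs_of_pos] <;> norm_num))
    simpa [sub_eq_add_neg] using this
  have s1 := WH_summ G F EF hB w hw _ pb1
  have s1a : Summable (fun h : ↥F → ℤ => WH G F EF w h * |(ex h v : ℝ) - 1 / 2|) := by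
    have := s1.abs
    refine this.congr (fun h => ?_)
    rw [abs_mul, abs_of_pos (WH_pos G F EF w hw h)]
  have sQ : ∀ o : ↥EF → Bool, Summable (fun h : ↥F → ℤ =>
      HS4_Q G EF w (ex h) o * ((ex h v : ℝ) - 1 / 2)) := by
    intro o
    refine Summable.of_norm_bounded s1a (fun h => ?_)
    rw [Real.norm_eq_abs, abs_mul, abs_of_nonneg (HS4_Qnn G EF w hw _ o), hWH]
    exact mul_le_mul_of_nonneg_right (HS4_Qle G EF w hw _ o) (abs_nonneg _)
  -- the expectation of g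
  have hE1 : Eh G F EF w (fun h => (h v : ℝ)) = 0 := by
    have a := Eh_neg G F EF w hw (fun h => (h v : ℝ))
    have b := Eh_smul G F EF w (-1) (fun h => (h v : ℝ))
    have c : Eh G F EF w (fun h => ((-h) v : ℤ) : (V → ℤ) → ℝ) =
        Eh G F EF w (fun h => (-1) * (h v : ℝ)) := by
      refine Eh_congr G F EF w _ _ (fun h => ?_)
      push_cast [Pi.neg_apply]
      ring
    linarith
  have hE2 : ∑' h : ↥F → ℤ, WH G F EF w h * ((ex h v : ℝ) - 1 / 2) = -(1 / 2) * Z := by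
    have a := Eh_add G F EF hB w hw (fun h => (h v : ℝ)) (fun _ => -(1 / 2 : ℝ)) (PBd_h F v)
      (PBd_bdd F _ (1 / 2) (fun h => by rw [abs_neg, abs_of_pos] <;> norm_num))
    rw [hE1, Eh_one G F EF hB w hw] at a
    unfold Eh at a
    rw [div_eq_iff hZ.ne'] at a
    rw [zero_add] at a
    rw [← a]
    rfl
  have hE3 : ∑' h : ↥F → ℤ, WH G F EF w h * ((ex h v : ℝ) - 1 / 2) =
      ∑ o : ↥EF → Bool, ∑' h : ↥F → ℤ, HS4_Q G EF w (ex h) o * ((ex h v : ℝ) - 1 / 2) := by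
    rw [← Summable.tsum_finsetSum (fun o _ => sQ o)]
    refine tsum_congr (fun h => ?_)
    rw [← Finset.sum_mul, HS4_Qsum, hWH]
  have hE4 : ∑ o : ↥EF → Bool, ∑' h : ↥F → ℤ, HS4_Q G EF w (ex h) o * ((ex h v : ℝ) - 1 / 2) =
      ∑ o : ↥EF → Bool, ∑' h : ↥F → ℤ, HS4_Q G EF w (ex h) o * ((ex h v : ℝ) - 1 / 2) *
        φ (g0 EF o) := by
    refine Finset.sum_congr rfl (fun o _ => ?_)
    by_cases ho : HS4_out G F v (g0 EF o)
    · have : φ (g0 EF o) = 1 := by simp only [hφ]; unfold ind; rw [if_pos ho]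
      simp only [this, mul_one]
    · have : φ (g0 EF o) = 0 := by simp only [hφ]; unfold ind; rw [if_neg ho]
      rw [HS4_tsum0 G F EF w hw v o ho]
      simp only [this, mul_zero, tsum_zero]
  have sQφ : ∀ o : ↥EF → Bool, Summable (fun h : ↥F → ℤ =>
      HS4_Q G EF w (ex h) o * ((ex h v : ℝ) - 1 / 2) * φ (g0 EF o)) := fun o => (sQ o).mul_right _
  have hE5 : ∑ o : ↥EF → Bool, ∑' h : ↥F → ℤ, HS4_Q G EF w (ex h) o * ((ex h v : ℝ) - 1 / 2) *
        φ (g0 EF o) = ∑' h : ↥F → ℤ, ∑ o : ↥EF → Bool,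
          HS4_Q G EF w (ex h) o * ((ex h v : ℝ) - 1 / 2) * φ (g0 EF o) := by
    rw [← Summable.tsum_finsetSum (fun o _ => sQφ o)]
  -- t
  have pb2 : PBd F (fun h : V → ℤ => ((h v : ℝ)) ^ 2) := by
    have := PBd_mul F _ _ (PBd_h F v) (PBd_h F v)
    simpa [pow_two] using this
  set T := Eh G F EF w (fun h => (h v : ℝ) ^ 2) with hT
  have hT0 : 0 ≤ T := by
    have := Eh_mono G F EF hB w hw (fun _ => 0) (fun h => (h v : ℝ) ^ 2)
      (PBd_bdd F _ 0 (fun _ => by simp)) pb2 (fun h => by positivity)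
    rw [Eh_one G F EF hB w hw] at this
    exact this
  set t : ℝ := T + 1 / 4 with ht
  have ht0 : 0 < t := by rw [ht]; linarith
  -- pointwise bound
  have pb3 : PBd F (fun h : V → ℤ => em w G EF h φ) :=
    PBd_bdd F _ 1 (fun h => by rw [abs_of_nonneg (hem h).1]; exact (hem h).2)
  have pb4 : PBd F (fun h : V → ℤ => ((h v : ℝ) - 1 / 2) * ((h v : ℝ) - 1 / 2)) :=
    PBd_mul F _ _ pb1 pb1
  have pb5 : PBd F (fun h : V → ℤ => (1 / (4 * t)) * (((h v : ℝ) - 1 / 2) * ((h v : ℝ) - 1 / 2)) +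
      t * em w G EF h φ) := PBd_add F _ _ (PBd_smul F _ _ pb4) (PBd_smul F _ _ pb3)
  have s5 := WH_summ G F EF hB w hw _ pb5
  have hpt : ∀ h : ↥F → ℤ, -(WH G F EF w h * ((1 / (4 * t)) *
      (((ex h v : ℝ) - 1 / 2) * ((ex h v : ℝ) - 1 / 2)) + t * em w G EF (ex h) φ)) ≤
      ∑ o : ↥EF → Bool, HS4_Q G EF w (ex h) o * ((ex h v : ℝ) - 1 / 2) * φ (g0 EF o) := by
    intro h
    set gv : ℝ := (ex h v : ℝ) - 1 / 2 with hgv
    have hx : ∀ u, u ∉ F → ex h u ≤ 0 := by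
      intro u hu
      unfold ex
      rw [dif_neg hu]
    have hle := HS4_conn_le G F EF w hw (ex h) hx v
    have e1 : ∑ o : ↥EF → Bool, HS4_Q G EF w (ex h) o * gv * φ (g0 EF o) =
        gv * ∑ o : ↥EF → Bool, HS4_Q G EF w (ex h) o * φ (g0 EF o) := by
      rw [Finset.mul_sum]
      exact Finset.sum_congr rfl (fun o _ => by ring)
    rw [e1]
    set X : ℝ := ∑ o : ↥EF → Bool, HS4_Q G EF w (ex h) o * φ (g0 EF o) with hX
    have hX0 : 0 ≤ X := Finset.sum_nonneg (fun o _ => mul_nonneg (HS4_Qnn G EF w hw _ o) (hφ0 _))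
    have hX1 : X ≤ WH G F EF w h * em w G EF (ex h) φ := hle
    have hW := WH_pos G F EF w hw h
    set a := em w G EF (ex h) φ with ha
    have ha0 : 0 ≤ a := (hem _).1
    have ha1 : a ≤ 1 := (hem _).2
    have h6 : |gv| * a ≤ (1 / (4 * t)) * (gv * gv) + t * a := by
      have h7 : |gv| * a ≤ (1 / (4 * t)) * (gv * gv) + t * (a * a) := by
        have h8 : 0 ≤ (|gv| / (2 * t) - a) ^ 2 * t := by positivity
        have h9 : (|gv| / (2 * t) - a) ^ 2 * t = (1 / (4 * t)) * (|gv| * |gv|) - |gv| * a + t * (a * a) := by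
          field_simp
          ring
        rw [h9, abs_mul_abs_self] at h8
        linarith
      have h10 : t * (a * a) ≤ t * a := by
        refine mul_le_mul_of_nonneg_left ?_ ht0.le
        nlinarith
      linarith
    have h11 : -(|gv| * X) ≤ gv * X := by
      have := neg_abs_le gv
      nlinarith
    have h12 : |gv| * X ≤ WH G F EF w h * ((1 / (4 * t)) * (gv * gv) + t * a) := by
      calc |gv| * X ≤ |gv| * (WH G F EF w h * a) := mul_le_mul_of_nonneg_left hX1 (abs_nonneg _)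
        _ = WH G F EF w h * (|gv| * a) := by ring
        _ ≤ _ := mul_le_mul_of_nonneg_left h6 hW.le
    linarith
  have hfin : -(∑' h : ↥F → ℤ, WH G F EF w h * ((1 / (4 * t)) *
      (((ex h v : ℝ) - 1 / 2) * ((ex h v : ℝ) - 1 / 2)) + t * em w G EF (ex h) φ)) ≤
      -(1 / 2) * Z := by
    rw [← hE2, hE3, hE4, hE5, ← tsum_neg]
    refine Summable.tsum_le_tsum hpt s5.neg ?_
    exact summable_sum (fun o _ => sQφ o)
  -- evaluate
  have hEv : ∑' h : ↥F → ℤ, WH G F EF w h * ((1 / (4 * t)) *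
      (((ex h v : ℝ) - 1 / 2) * ((ex h v : ℝ) - 1 / 2)) + t * em w G EF (ex h) φ) =
      Z * (1 / (4 * t) * t + t * PM G F EF w EF φ) := by
    have a := Eh_add G F EF hB w hw
      (fun h : V → ℤ => (1 / (4 * t)) * (((h v : ℝ) - 1 / 2) * ((h v : ℝ) - 1 / 2)))
      (fun h => t * em w G EF h φ) (PBd_smul F _ _ pb4) (PBd_smul F _ _ pb3)
    rw [Eh_smul, Eh_smul] at a
    have b : Eh G F EF w (fun h : V → ℤ => ((h v : ℝ) - 1 / 2) * ((h v : ℝ) - 1 / 2)) = t := by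
      have c : Eh G F EF w (fun h : V → ℤ => ((h v : ℝ) - 1 / 2) * ((h v : ℝ) - 1 / 2)) =
          Eh G F EF w (fun h : V → ℤ => ((h v : ℝ) ^ 2 + ((-1) * (h v : ℝ) + 1 / 4))) := by
        refine Eh_congr G F EF w _ _ (fun h => ?_)
        ring
      rw [c, Eh_add G F EF hB w hw _ _ pb2 (PBd_add F _ _ (PBd_smul F _ _ (PBd_h F v))
        (PBd_bdd F _ (1 / 4) (fun h => by rw [abs_of_pos] <;> norm_num))),
        Eh_add G F EF hB w hw _ _ (PBd_smul F _ _ (PBd_h F v))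
        (PBd_bdd F _ (1 / 4) (fun h => by rw [abs_of_pos] <;> norm_num)), Eh_smul, hE1,
        Eh_one G F EF hB w hw, ht, hT]
      ring
    rw [b] at a
    unfold Eh at a
    rw [div_eq_iff hZ.ne'] at a
    rw [a]
    unfold PM Eh
    ring
  rw [hEv] at hfin
  have h20 : (1 / (4 * t) * t + t * PM G F EF w EF φ) = 1 / 4 + t * PM G F EF w EF φ := by
    field_simp
  rw [h20] at hfin
  have h21 : 1 / 4 ≤ t * PM G F EF w EF φ := by
    by_contra hcon
    push Not at hcon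
    nlinarith
  have h22 : 1 / (4 * T + 1) ≤ PM G F EF w EF φ := by
    have : 4 * T + 1 = 4 * t := by rw [ht]; ring
    rw [this, div_le_iff₀ (by linarith)]
    linarith
  exact h22

end H82.BX

end S_H82_BX_HS4
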