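import Mathlib
import Pool.Agent.H82.BXM.G04
import Pool.Agent.H82.BXM.G11
import Pool.Agent.H82.BXM.G12
import Pool.Agent.H82.BXM.G13

/-! MP_26628e_mp: this file joins several modules to save build time. -/

section S_H82_BX_KOL

/-!
# KOL: limits of consistent families of cylinder masses

For each `i` and each finite set `F` let `ρ_{i,F}` be the measure `∑_{ζ : F → α} P_i(F, ext ζ) δ_{ext ζ}` on `E → α` (`ext ζ` = `ζ` on `F`, arbitrary fixed value off `F`).  Choose an exhaustion `F_i` of `E` (countable) and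
`ρ_i = ρ_{i, F_i}`: for `F ⊆ F_i` the mass of `{ω = ξ on F}` is `P_i(F, ξ)` (consistency).  The space of probability measures on the compact metrizable space `E → α` (discrete topology on `α`; Borel σ-algebra = product σ-algebra) is compact, so the
ultrafilter `hyperfilter ℕ` gives a limit, and cylinder events are clopen (compare `IC/PM1.lean`, `exists_ultra_limit`).
`kol_event`: an event depending only on `F` is the disjoint union of the cylinders `{ω = ξ on F}` over `ξ : F → α` in the event.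
-/

set_option autoImplicit false

open Finset MeasureTheory Filter Topology

namespace H82.BX

open H82.IC

section
variable {E α : Type} [Countable E] [DecidableEq E] [Fintype α] [DecidableEq α] [Nonempty α]
  [MeasurableSpace α] [MeasurableSingletonClass α]

/-- consistent family of cylinder masses. -/
structure Cyl (P : Finset E → (E → α) → ℝ) : Prop where
  nonneg : ∀ F ξ, 0 ≤ P F ξ
  loc : ∀ F ξ ξ', (∀ e ∈ F, ξ e = ξ' e) → P F ξ = P F ξ'
  one : ∀ ξ, P ∅ ξ = 1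
  cons : ∀ F ξ e, e ∉ F → P F ξ = ∑ a, P (insert e F) (Function.update ξ e a)

/-- `ζ` on `F`, a fixed value elsewhere. -/
noncomputable def gl (F : Finset E) (ζ : ↥F → α) : E → α :=
  fun e => if h : e ∈ F then ζ ⟨e, h⟩ else Classical.arbitrary α

/-- mass of an event. -/
noncomputable def PX (P : Finset E → (E → α) → ℝ) (F : Finset E) (X : Set (E → α)) : ℝ :=
  ∑ ζ : ↥F → α, ind (gl F ζ ∈ X) * P F (gl F ζ)

/-- functions on `insert e F` are pairs of a function on `F` and a value at `e`. -/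
def KOL_eq (F : Finset E) (e : E) (he : e ∉ F) : (↥(insert e F) → α) ≃ (↥F → α) × α where
  toFun ζ := (fun x => ζ ⟨x.1, Finset.mem_insert_of_mem x.2⟩, ζ ⟨e, Finset.mem_insert_self e F⟩)
  invFun p := fun x => if h : x.1 ∈ F then p.1 ⟨x.1, h⟩ else p.2
  left_inv ζ := by
    funext x
    by_cases h : x.1 ∈ F
    · simp only [h, dite_true]
    · simp only [h, dite_false]
      have hx : x.1 = e := by
        rcases Finset.mem_insert.1 x.2 with h1 | h1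
        · exact h1
        · exact absurd h1 h
      exact congrArg ζ (Subtype.ext hx.symm)
  right_inv p := by
    apply Prod.ext
    · funext x
      simp only [x.2, dite_true]
    · simp only [he, dite_false]

omit [Countable E] [Fintype α] [DecidableEq α] [MeasurableSpace α] [MeasurableSingletonClass α] in
theorem KOL_gl (F : Finset E) (e : E) (he : e ∉ F) (p : (↥F → α) × α) :
    gl (insert e F) ((KOL_eq F e he).symm p) = Function.update (gl F p.1) e p.2 := by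
  funext x
  by_cases hx : x = e
  · subst hx
    simp [gl, KOL_eq, he]
  · by_cases hF : x ∈ F
    · simp [gl, KOL_eq, hx, hF]
    · simp [gl, hx, hF]

omit [Countable E] [DecidableEq α] [MeasurableSpace α] [MeasurableSingletonClass α] in
theorem KOL_step (P : Finset E → (E → α) → ℝ) (h : Cyl P) (F : Finset E) (e : E) (he : e ∉ F)
    (X : Set (E → α)) (hX : ∀ ω ω' : E → α, (∀ e ∈ F, ω e = ω' e) → (ω ∈ X ↔ ω' ∈ X)) :
    PX P F X = PX P (insert e F) X := by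
  unfold PX
  rw [← (KOL_eq (α := α) F e he).symm.sum_comp
    (fun ζ => ind (gl (insert e F) ζ ∈ X) * P (insert e F) (gl (insert e F) ζ)),
    Fintype.sum_prod_type]
  refine Finset.sum_congr rfl fun ζ _ => ?_
  rw [h.cons F (gl F ζ) e he, Finset.mul_sum]
  refine Finset.sum_congr rfl fun a _ => ?_
  rw [KOL_gl]
  have h1 : (Function.update (gl F ζ) e a ∈ X) = (gl F ζ ∈ X) := by
    refine propext (hX _ _ ?_)
    intro x hx
    have hxe : x ≠ e := by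
      rintro rfl; exact he hx
    exact Function.update_of_ne hxe _ _
  simp only [h1]

omit [Countable E] [DecidableEq α] [MeasurableSpace α] [MeasurableSingletonClass α] in
/-- enlarging `F` does not change the mass of an event depending on `F`. -/
theorem PX_mono (P : Finset E → (E → α) → ℝ) (h : Cyl P) (F F' : Finset E) (hF : F ⊆ F')
    (X : Set (E → α)) (hX : ∀ ω ω' : E → α, (∀ e ∈ F, ω e = ω' e) → (ω ∈ X ↔ ω' ∈ X)) :
    PX P F X = PX P F' X := by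
  have key : ∀ G : Finset E, PX P F X = PX P (F ∪ G) X := by
    intro G
    induction G using Finset.induction_on with
    | empty => rw [Finset.union_empty]
    | insert e G he ih =>
      rw [Finset.union_insert]
      by_cases h1 : e ∈ F ∪ G
      · rw [Finset.insert_eq_of_mem h1]; exact ih
      · rw [ih]
        refine KOL_step P h (F ∪ G) e h1 X ?_
        intro ω ω' hw
        exact hX ω ω' fun x hx => hw x (Finset.mem_union_left _ hx)
  have h2 := key F'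
  rwa [Finset.union_eq_right.2 hF] at h2

/-- the finite approximations. -/
noncomputable def KOL_mu (P : Finset E → (E → α) → ℝ) (F : Finset E) : Measure (E → α) :=
  ∑ ζ : ↥F → α, ENNReal.ofReal (P F (gl F ζ)) • Measure.dirac (gl F ζ)

omit [Countable E] [DecidableEq α] [MeasurableSingletonClass α] in
theorem KOL_mu_apply (P : Finset E → (E → α) → ℝ) (h : Cyl P) (F : Finset E) (X : Set (E → α))
    (hX : MeasurableSet X) : KOL_mu P F X = ENNReal.ofReal (PX P F X) := by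
  classical
  unfold KOL_mu PX
  rw [Measure.finsetSum_apply, ENNReal.ofReal_sum_of_nonneg]
  · refine Finset.sum_congr rfl fun ζ _ => ?_
    rw [Measure.smul_apply, Measure.dirac_apply' _ hX, smul_eq_mul]
    by_cases h1 : gl F ζ ∈ X
    · simp [ind, h1]
    · simp [ind, h1]
  · intro ζ _
    refine mul_nonneg ?_ (h.nonneg _ _)
    unfold ind
    split_ifs <;> norm_num

omit [Countable E] [DecidableEq α] [MeasurableSpace α] [MeasurableSingletonClass α] in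
theorem KOL_univ (P : Finset E → (E → α) → ℝ) (h : Cyl P) (F : Finset E) :
    PX P F Set.univ = 1 := by
  rw [← PX_mono P h ∅ F (Finset.empty_subset F) Set.univ (fun _ _ _ => Iff.rfl)]
  unfold PX
  have h1 : ∀ ζ : ↥(∅ : Finset E) → α, ind (gl ∅ ζ ∈ Set.univ) * P ∅ (gl ∅ ζ) = 1 := by
    intro ζ
    rw [h.one]
    simp [ind]
  rw [Finset.sum_congr rfl fun ζ _ => h1 ζ]
  simp

omit [Countable E] [DecidableEq α] [MeasurableSingletonClass α] in
theorem KOL_prob (P : Finset E → (E → α) → ℝ) (h : Cyl P) (F : Finset E) :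
    IsProbabilityMeasure (KOL_mu P F) := by
  refine ⟨?_⟩
  rw [KOL_mu_apply P h F _ MeasurableSet.univ, KOL_univ P h F, ENNReal.ofReal_one]

theorem kol (P : ℕ → Finset E → (E → α) → ℝ) (h : ∀ i, Cyl (P i)) :
    ∃ ν : Measure (E → α), IsProbabilityMeasure ν ∧ ∀ (F : Finset E) (X : Set (E → α)),
      (∀ ω ω' : E → α, (∀ e ∈ F, ω e = ω' e) → (ω ∈ X ↔ ω' ∈ X)) →
      Tendsto (fun i => PX (P i) F X) (hyperfilter ℕ) (𝓝 (ν.real X)) := by
  classical
  let _ : TopologicalSpace α := ⊥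
  have : DiscreteTopology α := ⟨rfl⟩
  have : BorelSpace α := by
    refine ⟨?_⟩
    ext s
    constructor
    · intro _
      exact MeasurableSpace.measurableSet_generateFrom (isOpen_discrete s)
    · intro _
      exact Set.Finite.measurableSet (Set.toFinite s)
  obtain ⟨f, hf⟩ := exists_injective_nat E
  let Fi : ℕ → Finset E := fun i => ((Set.finite_Iio i).preimage hf.injOn).toFinset
  have hFi : ∀ i e, e ∈ Fi i ↔ f e < i := by
    intro i e
    simp [Fi]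
  let Pr : ℕ → ProbabilityMeasure (E → α) := fun i =>
    ⟨KOL_mu (P i) (Fi i), KOL_prob (P i) (h i) (Fi i)⟩
  obtain ⟨μ, -, hμ⟩ := isCompact_univ.ultrafilter_le_nhds ((hyperfilter ℕ).map Pr) (by simp)
  have hlim : Tendsto Pr (hyperfilter ℕ) (𝓝 μ) := hμ
  refine ⟨μ, μ.2, fun F X hX => ?_⟩
  have hcl : IsClopen X := by
    have hm : Continuous (fun (ω : E → α) (e : F) => ω e) :=
      continuous_pi fun e => continuous_apply _
    have hX' : X = (fun (ω : E → α) (e : F) => ω e) ⁻¹' ((fun (ω : E → α) (e : F) => ω e) '' X) := by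
      ext ω
      constructor
      · intro hω
        exact ⟨ω, hω, rfl⟩
      · rintro ⟨ω', hω', h1⟩
        refine (hX ω' ω fun e he => ?_).mp hω'
        exact congrFun h1 ⟨e, he⟩
    rw [hX']
    exact (isClopen_discrete _).preimage hm
  have h1 := ProbabilityMeasure.tendsto_measure_of_isClopen_of_tendsto hlim hcl
  have h2 := (NNReal.tendsto_coe.2 h1)
  refine Tendsto.congr' ?_ h2
  have h3 : ∀ᶠ i : ℕ in atTop, F ⊆ Fi i := by
    refine eventually_atTop.2 ⟨F.sup f + 1, fun i hi e he => ?_⟩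
    rw [hFi]
    have h4 : f e ≤ F.sup f := Finset.le_sup he
    omega
  have h4 : ∀ᶠ i : ℕ in (hyperfilter ℕ : Filter ℕ), F ⊆ Fi i := by
    have h5 : (hyperfilter ℕ : Filter ℕ) ≤ atTop := by
      rw [← Nat.cofinite_eq_atTop]
      exact hyperfilter_le_cofinite
    exact h5 h3
  filter_upwards [h4] with i hi
  rw [PX_mono (P i) (h i) F (Fi i) hi X hX]
  have h6 : (KOL_mu (P i) (Fi i)).real X = PX (P i) (Fi i) X := by
    rw [Measure.real, KOL_mu_apply (P i) (h i) (Fi i) X hcl.isOpen.measurableSet, ENNReal.toReal_ofReal]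
    refine Finset.sum_nonneg fun ζ _ => mul_nonneg ?_ ((h i).nonneg _ _)
    unfold ind
    split_ifs <;> norm_num
  exact h6

end

end H82.BX

end S_H82_BX_KOL

section S_H82_BX_PG3

/-!
# PG3: no trifurcation tiles

Adapt `IC/BKC.lean` (`meas_Tri`, `no_tri`).  Measurability: `{ω | Conn (op1 ω \ S0) u v}` is a countable union over `n` of cylinder
events (`conn_pg`), infinite clusters by `inf_pg`.  Positivity after opening: suppose `p0 = ν{TriP (op1 ω) r 0} > 0` and let `F` be the finset of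
the edges of `ins (tl r 0)` (`⊆ pbE P r`).  `TriP` does not depend on the edges of `F`, so
`{TriP} ⊆ {opF F ω ∈ {TriP} ∩ {F open}}`, and `opF_bound` with `ε = p0/2` gives `ν({TriP} ∩ {F open}) > 0`.
Then the grid argument with `bk_pg` (grid `(2r+1) k`, `nm k ≤ m`, `n = (2r+1) m + r + 2`), `card_pbd` and `TIP`:
`(2m+1)^2 p ≤ C (n+1)`, contradiction as `m → ∞`.
-/

set_option autoImplicit false

open Finset MeasureTheory

namespace H82.BX

open H82.IC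

variable {K K' : Type} [Fintype K] [Fintype K'] [Nonempty K]

theorem PG3_lcn (P : PG K K') (S0 : Set (Vx 2 × K')) (u v : Vx 2 × K) (n : ℕ) :
    Lc {ω : Vx 2 × K' → Bool | P.gr.Conn ((op1 ω \ S0) ∩ pbE P n) u v} := by
  refine ⟨pbE P n, fun ω ω' h => ?_⟩
  have h1 : (op1 ω \ S0) ∩ pbE P n = (op1 ω' \ S0) ∩ pbE P n := by
    ext e
    constructor
    · rintro ⟨⟨h2, h3⟩, h4⟩
      refine ⟨⟨?_, h3⟩, h4⟩
      have h5 : ω e = true := h2
      show ω' e = true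
      rw [← h e (Finset.mem_coe.1 h4)]
      exact h5
    · rintro ⟨⟨h2, h3⟩, h4⟩
      refine ⟨⟨?_, h3⟩, h4⟩
      have h5 : ω' e = true := h2
      show ω e = true
      rw [h e (Finset.mem_coe.1 h4)]
      exact h5
  show P.gr.Conn ((op1 ω \ S0) ∩ pbE P n) u v ↔ P.gr.Conn ((op1 ω' \ S0) ∩ pbE P n) u v
  rw [h1]

theorem meas_connP (P : PG K K') (hP : P.Ok) (S0 : Set (Vx 2 × K')) (u v : Vx 2 × K) :
    MeasurableSet {ω : Vx 2 × K' → Bool | P.gr.Conn (op1 ω \ S0) u v} := by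
  have e : {ω : Vx 2 × K' → Bool | P.gr.Conn (op1 ω \ S0) u v} =
      ⋃ n : ℕ, {ω : Vx 2 × K' → Bool | P.gr.Conn ((op1 ω \ S0) ∩ pbE P n) u v} := by
    ext ω
    rw [Set.mem_iUnion]
    constructor
    · intro h
      exact conn_pg P hP h
    · rintro ⟨n, h⟩
      exact conn_mono _ Set.inter_subset_left h
  rw [e]
  exact MeasurableSet.iUnion fun n => lc_meas (PG3_lcn P S0 u v n)

theorem meas_infP (P : PG K K') (hP : P.Ok) (S0 : Set (Vx 2 × K')) (v : Vx 2 × K) :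
    MeasurableSet {ω : Vx 2 × K' → Bool | (P.gr.cl (op1 ω \ S0) v).Infinite} := by
  have e : {ω : Vx 2 × K' → Bool | (P.gr.cl (op1 ω \ S0) v).Infinite} =
      ⋂ n : ℕ, ⋃ b : Vx 2 × K, ({ω : Vx 2 × K' → Bool | n ≤ nm b.1} ∩
        {ω | P.gr.Conn (op1 ω \ S0) v b}) := by
    ext ω
    rw [Set.mem_iInter]
    show (P.gr.cl (op1 ω \ S0) v).Infinite ↔ _
    rw [inf_pg]
    refine forall_congr' fun n => ?_
    rw [Set.mem_iUnion]
    exact Iff.rfl
  rw [e]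
  exact MeasurableSet.iInter fun n => MeasurableSet.iUnion fun b =>
    (MeasurableSet.const _).inter (meas_connP P hP S0 v b)

theorem PG3_meas (P : PG K K') (hP : P.Ok) (r : ℕ) (x : Vx 2) :
    MeasurableSet {ω : Vx 2 × K' → Bool | TriP P (op1 ω) r x} := by
  set T := P.gr.ins (tl r x : Set (Vx 2 × K)) with hT
  have e : {ω : Vx 2 × K' → Bool | TriP P (op1 ω) r x} =
      ⋃ v1 : Vx 2 × K, ⋃ v2 : Vx 2 × K, ⋃ v3 : Vx 2 × K,
      ({ω : Vx 2 × K' → Bool | v1 ∈ (tl r x : Set (Vx 2 × K)) ∧ v2 ∈ (tl r x : Set (Vx 2 × K)) ∧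
          v3 ∈ (tl r x : Set (Vx 2 × K))} ∩
        ({ω | (P.gr.cl (op1 ω \ T) v1).Infinite} ∩ ({ω | (P.gr.cl (op1 ω \ T) v2).Infinite} ∩
        ({ω | (P.gr.cl (op1 ω \ T) v3).Infinite} ∩ ({ω | P.gr.Conn (op1 ω \ T) v1 v2}ᶜ ∩
        ({ω | P.gr.Conn (op1 ω \ T) v1 v3}ᶜ ∩ {ω | P.gr.Conn (op1 ω \ T) v2 v3}ᶜ)))))) := by
    ext ω
    simp only [Set.mem_iUnion]
    constructor
    · rintro ⟨v1, h1, v2, h2, v3, h3, a1, a2, a3, b1, b2, b3⟩
      exact ⟨v1, v2, v3, ⟨h1, h2, h3⟩, a1, a2, a3, b1, b2, b3⟩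
    · rintro ⟨v1, v2, v3, ⟨h1, h2, h3⟩, a1, a2, a3, b1, b2, b3⟩
      exact ⟨v1, h1, v2, h2, v3, h3, a1, a2, a3, b1, b2, b3⟩
  rw [e]
  exact MeasurableSet.iUnion fun v1 => MeasurableSet.iUnion fun v2 => MeasurableSet.iUnion fun v3 =>
    (MeasurableSet.const _).inter ((meas_infP P hP T v1).inter ((meas_infP P hP T v2).inter
      ((meas_infP P hP T v3).inter ((meas_connP P hP T v1 v2).compl.inter
        ((meas_connP P hP T v1 v3).compl.inter (meas_connP P hP T v2 v3).compl)))))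

/-- the event at `x` -/
def PG3_A (P : PG K K') (r : ℕ) (x : Vx 2) : Set (Vx 2 × K' → Bool) :=
  {ω | TriP P (op1 ω) r x} ∩
    ⋂ e : Vx 2 × K', {ω | e ∈ P.gr.ins (tl r x : Set (Vx 2 × K)) → ω e = true}

theorem PG3_A_meas (P : PG K K') (hP : P.Ok) (r : ℕ) (x : Vx 2) :
    MeasurableSet (PG3_A P r x) := by
  refine (PG3_meas P hP r x).inter (MeasurableSet.iInter fun e => ?_)
  by_cases h : e ∈ P.gr.ins (tl r x : Set (Vx 2 × K))
  · have h1 : {ω : Vx 2 × K' → Bool | e ∈ P.gr.ins (tl r x : Set (Vx 2 × K)) → ω e = true} =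
        (fun ω => ω e) ⁻¹' {true} := by
      ext ω
      exact ⟨fun h2 => h2 h, fun h2 _ => h2⟩
    rw [h1]
    exact measurable_pi_apply e (MeasurableSet.singleton _)
  · have h1 : {ω : Vx 2 × K' → Bool | e ∈ P.gr.ins (tl r x : Set (Vx 2 × K)) → ω e = true} =
        Set.univ := by
      ext ω
      exact ⟨fun _ => trivial, fun _ h2 => absurd h2 h⟩
    rw [h1]
    exact MeasurableSet.univ

theorem PG3_ins (P : PG K K') (hP : P.Ok) (r : ℕ) (e : Vx 2 × K') :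
    e ∈ P.gr.ins (tl r 0 : Set (Vx 2 × K)) ↔ e ∈ pbE P r := by
  rw [mem_pbE P hP]
  show (nm ((P.gr.s e).1 - 0) ≤ r ∧ nm ((P.gr.r e).1 - 0) ≤ r) ↔ _
  rw [sub_zero, sub_zero]

theorem PG3_insx (P : PG K K') (r : ℕ) (x : Vx 2) (e : Vx 2 × K') :
    ((e.1 + x, e.2) : Vx 2 × K') ∈ P.gr.ins (tl r x : Set (Vx 2 × K)) ↔
      e ∈ P.gr.ins (tl r 0 : Set (Vx 2 × K)) := by
  show (nm (e.1 + x + P.sv e.2 - x) ≤ r ∧ nm (e.1 + x + P.rv e.2 - x) ≤ r) ↔
    (nm (e.1 + P.sv e.2 - 0) ≤ r ∧ nm (e.1 + P.rv e.2 - 0) ≤ r)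
  have h1 : e.1 + x + P.sv e.2 - x = e.1 + P.sv e.2 - 0 := by abel
  have h2 : e.1 + x + P.rv e.2 - x = e.1 + P.rv e.2 - 0 := by abel
  rw [h1, h2]

theorem PG3_congr (P : PG K K') {S S' : Set (Vx 2 × K')} {r : ℕ} {x : Vx 2}
    (h : S \ P.gr.ins (tl r x : Set (Vx 2 × K)) = S' \ P.gr.ins (tl r x : Set (Vx 2 × K)))
    (hT : TriP P S r x) : TriP P S' r x := by
  unfold TriP at hT ⊢
  rwa [h] at hT

theorem PG3_pos (P : PG K K') (hP : P.Ok) (ν : Measure (Vx 2 × K' → Bool))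
    [IsProbabilityMeasure ν] (hI : INSe ν) (r : ℕ)
    (h0 : 0 < ν.real {ω : Vx 2 × K' → Bool | TriP P (op1 ω) r 0}) :
    0 < ν.real (PG3_A P r 0) := by
  classical
  set p0 := ν.real {ω : Vx 2 × K' → Bool | TriP P (op1 ω) r 0} with hp0
  obtain ⟨C, hC, h1⟩ := opF_bound ν hI (pbE P r) (p0 / 2) (by positivity)
  have h2 := h1 (PG3_A P r 0) (PG3_A_meas P hP r 0)
  have h3 : {ω : Vx 2 × K' → Bool | TriP P (op1 ω) r 0} ⊆
      {ω | opF (pbE P r) ω ∈ PG3_A P r 0} := by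
    intro ω hω
    refine ⟨?_, ?_⟩
    · refine PG3_congr P (S := op1 ω) ?_ hω
      ext e
      constructor
      · rintro ⟨h4, h5⟩
        refine ⟨?_, h5⟩
        show opF (pbE P r) ω e = true
        unfold opF
        rw [if_neg (fun h => h5 ((PG3_ins P hP r e).2 h))]
        exact h4
      · rintro ⟨h4, h5⟩
        refine ⟨?_, h5⟩
        have h6 : opF (pbE P r) ω e = true := h4
        unfold opF at h6
        rw [if_neg (fun h => h5 ((PG3_ins P hP r e).2 h))] at h6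
        exact h6
    · rw [Set.mem_iInter]
      intro e he
      show opF (pbE P r) ω e = true
      unfold opF
      rw [if_pos ((PG3_ins P hP r e).1 he)]
  have h4 : p0 ≤ ν.real {ω | opF (pbE P r) ω ∈ PG3_A P r 0} := by
    rw [hp0]
    exact measureReal_mono h3
  have h5 : 0 < C * ν.real (PG3_A P r 0) := by linarith
  exact (pos_iff_pos_of_mul_pos h5).1 hC

theorem PG3_shift (P : PG K K') (r : ℕ) (x : Vx 2) :
    {ω : Vx 2 × K' → Bool | shP x ω ∈ PG3_A P r 0} ⊆ PG3_A P r x := by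
  rintro ω ⟨h1, h2⟩
  have hset : {e : Vx 2 × K' | ((e.1 + x, e.2) : Vx 2 × K') ∈
      op1 ω \ P.gr.ins (tl r x : Set (Vx 2 × K))} =
      op1 (shP x ω) \ P.gr.ins (tl r 0 : Set (Vx 2 × K)) := by
    ext e
    show (ω (e.1 + x, e.2) = true ∧
        ¬ ((e.1 + x, e.2) : Vx 2 × K') ∈ P.gr.ins (tl r x : Set (Vx 2 × K))) ↔
      (ω (e.1 + x, e.2) = true ∧ ¬ e ∈ P.gr.ins (tl r 0 : Set (Vx 2 × K)))
    rw [PG3_insx]
  have hc : ∀ u v, P.gr.Conn (op1 (shP x ω) \ P.gr.ins (tl r 0 : Set (Vx 2 × K))) u v ↔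
      P.gr.Conn (op1 ω \ P.gr.ins (tl r x : Set (Vx 2 × K))) (u.1 + x, u.2) (v.1 + x, v.2) := by
    intro u v
    rw [← hset]
    exact conn_sh P x _ u v
  have hinj : Function.Injective (fun z : Vx 2 × K => ((z.1 + x, z.2) : Vx 2 × K)) := by
    intro a b hab
    have hab' : ((a.1 + x, a.2) : Vx 2 × K) = (b.1 + x, b.2) := hab
    obtain ⟨e1, e2⟩ := Prod.mk.inj hab'
    exact Prod.ext (add_right_cancel e1) e2
  have hi : ∀ v : Vx 2 × K,
      (P.gr.cl (op1 (shP x ω) \ P.gr.ins (tl r 0 : Set (Vx 2 × K))) v).Infinite →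
      (P.gr.cl (op1 ω \ P.gr.ins (tl r x : Set (Vx 2 × K))) (v.1 + x, v.2)).Infinite := by
    intro v hv
    refine (hv.image hinj.injOn).mono ?_
    rintro _ ⟨w, hw, rfl⟩
    exact (hc v w).1 hw
  have ht : ∀ v : Vx 2 × K, v ∈ (tl r 0 : Set (Vx 2 × K)) →
      ((v.1 + x, v.2) : Vx 2 × K) ∈ (tl r x : Set (Vx 2 × K)) := by
    intro v hv
    have h3 : nm (v.1 - 0) ≤ r := hv
    show nm (v.1 + x - x) ≤ r
    rwa [add_sub_cancel_right, ← sub_zero v.1]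
  refine ⟨?_, ?_⟩
  · obtain ⟨v1, m1, v2, m2, v3, m3, a1, a2, a3, b1, b2, b3⟩ := h1
    exact ⟨_, ht _ m1, _, ht _ m2, _, ht _ m3, hi _ a1, hi _ a2, hi _ a3,
      fun h => b1 ((hc _ _).2 h), fun h => b2 ((hc _ _).2 h), fun h => b3 ((hc _ _).2 h)⟩
  · rw [Set.mem_iInter] at h2 ⊢
    intro e he
    have e0 : ((e.1 - x + x, e.2) : Vx 2 × K') = e := by rw [sub_add_cancel]
    have h3 : ((e.1 - x, e.2) : Vx 2 × K') ∈ P.gr.ins (tl r 0 : Set (Vx 2 × K)) := by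
      rw [← PG3_insx P r x ((e.1 - x, e.2) : Vx 2 × K')]
      show ((e.1 - x + x, e.2) : Vx 2 × K') ∈ P.gr.ins (tl r x : Set (Vx 2 × K))
      rw [e0]
      exact he
    have h4 : ω ((e.1 - x) + x, e.2) = true := h2 _ h3
    rwa [e0] at h4

theorem PG3_disj {r : ℕ} {k k' : Vx 2} (h : k ≠ k') :
    Disjoint (tl r (BKC_g r k) : Set (Vx 2 × K)) (tl r (BKC_g r k')) := by
  rw [Set.disjoint_left]
  intro z hz hz'
  have h1 : z.1 ∈ til r (BKC_g r k) := hz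
  have h2 : z.1 ∈ til r (BKC_g r k') := hz'
  exact Set.disjoint_left.1 (BKC_g_disj (r := r) h) h1 h2

theorem PG3_count (P : PG K K') (hP : P.Ok) (r m : ℕ) (hr : 1 ≤ r) (ω : Vx 2 × K' → Bool) :
    ∑ k ∈ bx 2 m, (PG3_A P r (BKC_g r k)).indicator (fun _ => (1 : ℝ)) ω ≤
      ((pbd K ((2 * r + 1) * m + r + 2)).card : ℝ) := by
  classical
  set X : Finset (Vx 2) := ((bx 2 m).filter (fun k => ω ∈ PG3_A P r (BKC_g r k))).image (BKC_g r)
    with hX
  have h1 : ∑ k ∈ bx 2 m, (PG3_A P r (BKC_g r k)).indicator (fun _ => (1 : ℝ)) ω =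
      (X.card : ℝ) := by
    rw [hX, Finset.card_image_of_injective _ (BKC_g_inj r), Finset.card_filter, Nat.cast_sum]
    refine Finset.sum_congr rfl fun k _ => ?_
    by_cases h : ω ∈ PG3_A P r (BKC_g r k)
    · rw [Set.indicator_of_mem h, if_pos h, Nat.cast_one]
    · rw [Set.indicator_of_notMem h, if_neg h, Nat.cast_zero]
  rw [h1]
  have hmem : ∀ x ∈ X, ∃ k, nm k ≤ m ∧ ω ∈ PG3_A P r (BKC_g r k) ∧ BKC_g r k = x := by
    intro x hx
    obtain ⟨k, hk, hkx⟩ := Finset.mem_image.1 hx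
    obtain ⟨h2, h3⟩ := Finset.mem_filter.1 hk
    exact ⟨k, mem_bx.1 h2, h3, hkx⟩
  have h2 := bk_pg P hP (op1 ω) r ((2 * r + 1) * m + r + 2) hr X ?_ ?_ ?_ ?_
  · exact_mod_cast h2
  · intro x hx
    obtain ⟨k, hk, -, rfl⟩ := hmem x hx
    have := BKC_g_nm (r := r) hk
    omega
  · intro x hx y hy hxy
    obtain ⟨k, -, -, rfl⟩ := hmem x hx
    obtain ⟨k', -, -, rfl⟩ := hmem y hy
    exact PG3_disj (fun h => hxy (by rw [h]))
  · intro x hx e he
    obtain ⟨k, -, h3, rfl⟩ := hmem x hx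
    exact Set.mem_iInter.1 h3.2 e he
  · intro x hx
    obtain ⟨k, -, h3, rfl⟩ := hmem x hx
    exact h3.1

theorem PG3_int (P : PG K K') (hP : P.Ok) (ν : Measure (Vx 2 × K' → Bool))
    [IsProbabilityMeasure ν] (r m : ℕ) (hr : 1 ≤ r) :
    ∑ k ∈ bx 2 m, ν.real (PG3_A P r (BKC_g r k)) ≤
      ((pbd K ((2 * r + 1) * m + r + 2)).card : ℝ) := by
  have hi : ∀ k ∈ bx 2 m, Integrable
      (fun ω => (PG3_A P r (BKC_g r k)).indicator (fun _ => (1 : ℝ)) ω) ν := by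
    intro k _
    exact (integrable_const (1 : ℝ)).indicator (PG3_A_meas P hP r _)
  have h1 : ∑ k ∈ bx 2 m, ν.real (PG3_A P r (BKC_g r k)) =
      ∫ ω, ∑ k ∈ bx 2 m, (PG3_A P r (BKC_g r k)).indicator (fun _ => (1 : ℝ)) ω ∂ν := by
    rw [integral_finsetSum _ hi]
    refine Finset.sum_congr rfl fun k _ => ?_
    rw [integral_indicator_const _ (PG3_A_meas P hP r _), smul_eq_mul, mul_one]
  rw [h1]
  have h2 : ∫ ω, ∑ k ∈ bx 2 m, (PG3_A P r (BKC_g r k)).indicator (fun _ => (1 : ℝ)) ω ∂ν ≤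
      ∫ _ω, ((pbd K ((2 * r + 1) * m + r + 2)).card : ℝ) ∂ν :=
    integral_mono (integrable_finsetSum _ hi) (integrable_const _)
      (fun ω => PG3_count P hP r m hr ω)
  rwa [integral_const, probReal_univ, one_smul] at h2

theorem no_triP (P : PG K K') (hP : P.Ok) (ν : Measure (Vx 2 × K' → Bool)) [IsProbabilityMeasure ν]
    (hT : TIP ν) (hI : INSe ν) (r : ℕ) (hr : 1 ≤ r) :
    ν.real {ω : Vx 2 × K' → Bool | TriP P (op1 ω) r 0} = 0 := by
  by_contra hne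
  have h0 : 0 < ν.real {ω : Vx 2 × K' → Bool | TriP P (op1 ω) r 0} :=
    lt_of_le_of_ne measureReal_nonneg (Ne.symm hne)
  have hp := PG3_pos P hP ν hI r h0
  set p := ν.real (PG3_A P r 0) with hpd
  have hA : ∀ x, p ≤ ν.real (PG3_A P r x) := by
    intro x
    rw [hpd, ← hT x _ (PG3_A_meas P hP r 0)]
    exact measureReal_mono (PG3_shift P r x)
  obtain ⟨C, hC⟩ := card_pbd K
  have key : ∀ m : ℕ, (2 * (m : ℝ) + 1) * p ≤ C * (2 * r + 3) := by
    intro m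
    have h1 := PG3_int P hP ν r m hr
    have h2 : ((2 * (m : ℝ) + 1) ^ 2) * p ≤ ∑ k ∈ bx 2 m, ν.real (PG3_A P r (BKC_g r k)) := by
      have h3 : ∑ _k ∈ bx 2 m, p ≤ ∑ k ∈ bx 2 m, ν.real (PG3_A P r (BKC_g r k)) :=
        Finset.sum_le_sum fun k _ => hA _
      rw [Finset.sum_const, card_bx, nsmul_eq_mul] at h3
      push_cast at h3
      exact h3
    have h4 : ((pbd K ((2 * r + 1) * m + r + 2)).card : ℝ) ≤
        C * ((2 * r + 1) * m + r + 3) := by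
      have h5 := hC ((2 * r + 1) * m + r + 2)
      have h6 : ((pbd K ((2 * r + 1) * m + r + 2)).card : ℝ) ≤
          ((C * ((2 * r + 1) * m + r + 2 + 1) : ℕ) : ℝ) := by exact_mod_cast h5
      refine h6.trans (le_of_eq ?_)
      push_cast
      ring
    have hm : (0 : ℝ) ≤ m := Nat.cast_nonneg m
    have hrr : (0 : ℝ) ≤ r := Nat.cast_nonneg r
    have hCC : (0 : ℝ) ≤ C := Nat.cast_nonneg C
    have h5 : ((2 * (r : ℝ) + 1) * m + r + 3) ≤ (2 * r + 3) * (2 * m + 1) := by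
      nlinarith [mul_nonneg hrr hm]
    have h6 : ((2 * (m : ℝ) + 1) ^ 2) * p ≤ C * ((2 * r + 3) * (2 * m + 1)) :=
      (h2.trans h1).trans (h4.trans (mul_le_mul_of_nonneg_left h5 hCC))
    have h9 : (0 : ℝ) < 2 * m + 1 := by positivity
    refine le_of_mul_le_mul_left ?_ h9
    linarith
  obtain ⟨m, hm⟩ := exists_nat_gt (C * (2 * (r : ℝ) + 3) / p)
  rw [div_lt_iff₀ hp] at hm
  have h1 := key m
  have : (0 : ℝ) ≤ m := Nat.cast_nonneg m
  nlinarith

end H82.BX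

end S_H82_BX_PG3

section S_H82_IC_BKD

/-!
# BKD: no percolation if the two point function has vanishing box averages

* `two_clusters`: if `¬ Tri S r 0` for all `r`, then among any three vertices with infinite clusters in `S` two are connected in `S`: take `r` with the three vertices `v_i` in `bx r`.  For each `i` the cluster of
  `v_i` in `S` is the union of the clusters in `S \ bE r` (`ins (til r 0) = bE r`) of those points of `bx r` that are connected to `v_i` in `S` (a cluster of `S \ bE r` contained in the cluster of `v_i` and not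
  meeting `bx r` would be closed under `S`): finite union, so some `w_i ∈ bx r`, `w_i ↔ v_i` in `S`, has an infinite cluster in `S \ bE r`.  If no two `v_i` are connected in `S`, the `w_i` are pairwise not connected
  in `S \ bE r`: `Tri S r 0`.
* `bk_main`: `ρ = ν (perc d)`.  For a finset `Q`, `I ω` = number of `x ∈ Q` with infinite cluster.  Almost surely (`no_tri` for all `r`) the infinite clusters split the `I` points into at most two classes `a + b = I`,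
  so `∑_{x,y ∈ Q} 1[x ↔ y] ≥ a² + b² ≥ I²/2`.  Integrate: `∑_{x,y} ν (cn x y) ≥ E[I²]/2 ≥ (E I)²/2 = ρ² |Q|²/2` (Jensen / Cauchy-Schwarz; `TI`: `ν {x infinite} = ρ`; `shf a ω ∈ cn x y ↔ ω ∈ cn (x+a) (y+a)`).
  With the hypothesis: `ρ²/2 ≤ ε` for all `ε > 0`, so `ρ = 0`.
-/

set_option autoImplicit false

open Finset MeasureTheory Filter Topology

namespace H82.IC

variable {d : ℕ}

theorem shf_cn (a x y : Vx d) (ω : Cf d) : shf a ω ∈ cn x y ↔ ω ∈ cn (x + a) (y + a) := by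
  obtain ⟨g, hg, hgE⟩ := exists_trA a
  have h : act g ω = shf a ω := by
    funext e
    change ω (g.gE e) = ω (e.1 + a, e.2)
    rw [hgE]
  have h2 := act_cn g ω x y
  rw [h, hg, hg] at h2
  exact h2

/-- a vertex of the box, connected to `v`, with infinite cluster outside the box. -/
theorem BKD_branch (S : Set (Ed d)) (r : ℕ) (v : Vx d) (hv : nm v ≤ r)
    (h : ((Zl d).cl S v).Infinite) :
    ∃ w ∈ til r (0 : Vx d), (Zl d).Conn S v w ∧
      ((Zl d).cl (S \ (Zl d).ins (til r (0 : Vx d))) w).Infinite := by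
  by_contra hcon
  push Not at hcon
  apply h
  have hsub : (Zl d).cl S v ⊆ ⋃ w ∈ {w : Vx d | w ∈ til r (0 : Vx d) ∧ (Zl d).Conn S v w},
      (Zl d).cl (S \ (Zl d).ins (til r (0 : Vx d))) w := by
    intro z hz
    have hz' : (Zl d).Conn S v z := hz
    simp only [Set.mem_iUnion]
    induction hz' with
    | refl =>
      refine ⟨v, ⟨?_, conn_refl _ _ _⟩, mem_cl_self _ _ _⟩
      change nm (v - 0) ≤ r
      rwa [sub_zero]
    | @tail b c hb h2 ih =>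
      obtain ⟨w, ⟨hw1, hw2⟩, hw3⟩ := ih hb
      obtain ⟨e, he, h1⟩ := h2
      by_cases hK : e ∈ (Zl d).ins (til r (0 : Vx d))
      · have hc : c ∈ til r (0 : Vx d) := by
          rcases h1 with ⟨_, rfl⟩ | ⟨rfl, _⟩
          · exact hK.2
          · exact hK.1
        refine ⟨c, ⟨hc, ?_⟩, mem_cl_self _ _ _⟩
        exact Relation.ReflTransGen.tail hb ⟨e, he, h1⟩
      · refine ⟨w, ⟨hw1, hw2⟩, ?_⟩
        exact Relation.ReflTransGen.tail hw3 ⟨e, ⟨he, hK⟩, h1⟩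
  apply Set.Finite.subset _ hsub
  have hfin : {w : Vx d | w ∈ til r (0 : Vx d) ∧ (Zl d).Conn S v w}.Finite := by
    apply (bx d r).finite_toSet.subset
    rintro w ⟨hw, _⟩
    have hw' : nm (w - 0) ≤ r := hw
    rw [sub_zero] at hw'
    exact Finset.mem_coe.mpr (mem_bx.mpr hw')
  apply hfin.biUnion
  rintro w ⟨hw1, hw2⟩
  exact hcon w hw1 hw2

theorem two_clusters (hd : 1 ≤ d) (S : Set (Ed d)) (h : ∀ r, ¬ Tri S r 0) (v1 v2 v3 : Vx d)
    (h1 : ((Zl d).cl S v1).Infinite) (h2 : ((Zl d).cl S v2).Infinite)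
    (h3 : ((Zl d).cl S v3).Infinite) :
    (Zl d).Conn S v1 v2 ∨ (Zl d).Conn S v1 v3 ∨ (Zl d).Conn S v2 v3 := by
  by_contra hcon
  push Not at hcon
  obtain ⟨n12, n13, n23⟩ := hcon
  obtain ⟨r, hr⟩ : ∃ r : ℕ, r = nm v1 + nm v2 + nm v3 := ⟨_, rfl⟩
  obtain ⟨w1, m1, c1, i1⟩ := BKD_branch S r v1 (by omega) h1
  obtain ⟨w2, m2, c2, i2⟩ := BKD_branch S r v2 (by omega) h2
  obtain ⟨w3, m3, c3, i3⟩ := BKD_branch S r v3 (by omega) h3
  apply h r
  refine ⟨w1, m1, w2, m2, w3, m3, i1, i2, i3, ?_, ?_, ?_⟩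
  · intro hc
    exact n12 (conn_trans _ c1 (conn_trans _ (conn_mono _ Set.sdiff_subset hc) (conn_symm _ c2)))
  · intro hc
    exact n13 (conn_trans _ c1 (conn_trans _ (conn_mono _ Set.sdiff_subset hc) (conn_symm _ c3)))
  · intro hc
    exact n23 (conn_trans _ c2 (conn_trans _ (conn_mono _ Set.sdiff_subset hc) (conn_symm _ c3)))

theorem BKD_meas_shf (a : Vx d) : Measurable (shf a : Cf d → Cf d) := by
  rw [measurable_pi_iff]
  intro e
  exact measurable_pi_apply (e.1 + a, e.2)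

theorem BKD_inf (a : Vx d) (ω : Cf d) :
    shf a ω ∈ perc d ↔ ((Zl d).cl (opn ω) a).Infinite := by
  have h : (fun y => y + a) '' ((Zl d).cl (opn (shf a ω)) 0) = (Zl d).cl (opn ω) a := by
    ext z
    constructor
    · rintro ⟨y, hy, rfl⟩
      have := (shf_cn a 0 y ω).mp hy
      rwa [zero_add] at this
    · intro hz
      refine ⟨z - a, ?_, sub_add_cancel z a⟩
      apply (shf_cn a 0 (z - a) ω).mpr
      rwa [zero_add, sub_add_cancel]
  rw [← h]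
  exact (Set.infinite_image_iff ((add_left_injective a).injOn)).symm

/-- two classes: finite counting. -/
theorem BKD_count (S : Set (Ed d)) (h3 : ∀ v1 v2 v3 : Vx d, ((Zl d).cl S v1).Infinite →
    ((Zl d).cl S v2).Infinite → ((Zl d).cl S v3).Infinite →
    (Zl d).Conn S v1 v2 ∨ (Zl d).Conn S v1 v3 ∨ (Zl d).Conn S v2 v3) (Q : Finset (Vx d)) :
    (∑ x ∈ Q, ind ((Zl d).cl S x).Infinite) ^ 2 ≤
      2 * ∑ x ∈ Q, ∑ y ∈ Q, ind ((Zl d).Conn S x y) := by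
  classical
  have hA : ∑ x ∈ Q, ind ((Zl d).cl S x).Infinite
      = ((Q.filter (fun x => ((Zl d).cl S x).Infinite)).card : ℝ) := by
    rw [Finset.card_filter]
    push_cast
    apply Finset.sum_congr rfl
    intro x _
    unfold ind
    split_ifs <;> rfl
  have hB : ∑ x ∈ Q, ∑ y ∈ Q, ind ((Zl d).Conn S x y)
      = (((Q ×ˢ Q).filter (fun p => (Zl d).Conn S p.1 p.2)).card : ℝ) := by
    rw [Finset.card_filter, Finset.sum_product]
    push_cast
    apply Finset.sum_congr rfl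
    intro x _
    apply Finset.sum_congr rfl
    intro y _
    unfold ind
    split_ifs <;> rfl
  rw [hA, hB]
  obtain ⟨A, hAd⟩ : ∃ A : Finset (Vx d), A = Q.filter (fun x => ((Zl d).cl S x).Infinite) :=
    ⟨_, rfl⟩
  rw [← hAd]
  rcases A.eq_empty_or_nonempty with h0 | ⟨x0, hx0⟩
  · rw [h0]
    simp
  obtain ⟨A1, hA1⟩ : ∃ A1 : Finset (Vx d), A1 = A.filter (fun x => (Zl d).Conn S x0 x) :=
    ⟨_, rfl⟩
  obtain ⟨A2, hA2⟩ : ∃ A2 : Finset (Vx d), A2 = A.filter (fun x => ¬ (Zl d).Conn S x0 x) :=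
    ⟨_, rfl⟩
  have hcard : A.card = A1.card + A2.card := by
    rw [hA1, hA2, Finset.card_filter_add_card_filter_not]
  have hAmem : ∀ x ∈ A, x ∈ Q ∧ ((Zl d).cl S x).Infinite := by
    intro x hx
    rw [hAd, Finset.mem_filter] at hx
    exact hx
  have hm1 : ∀ x ∈ A1, x ∈ A ∧ (Zl d).Conn S x0 x := by
    intro x hx
    rw [hA1, Finset.mem_filter] at hx
    exact hx
  have hm2 : ∀ x ∈ A2, x ∈ A ∧ ¬ (Zl d).Conn S x0 x := by
    intro x hx
    rw [hA2, Finset.mem_filter] at hx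
    exact hx
  have hsub : (A1 ×ˢ A1) ∪ (A2 ×ˢ A2) ⊆ (Q ×ˢ Q).filter (fun p => (Zl d).Conn S p.1 p.2) := by
    rintro ⟨x, y⟩ hxy
    rw [Finset.mem_filter, Finset.mem_product]
    rw [Finset.mem_union, Finset.mem_product, Finset.mem_product] at hxy
    rcases hxy with ⟨hx, hy⟩ | ⟨hx, hy⟩
    · obtain ⟨a1, a2⟩ := hm1 x hx
      obtain ⟨b1, b2⟩ := hm1 y hy
      exact ⟨⟨(hAmem x a1).1, (hAmem y b1).1⟩, conn_trans _ (conn_symm _ a2) b2⟩
    · obtain ⟨a1, a2⟩ := hm2 x hx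
      obtain ⟨b1, b2⟩ := hm2 y hy
      refine ⟨⟨(hAmem x a1).1, (hAmem y b1).1⟩, ?_⟩
      rcases h3 x0 x y (hAmem x0 hx0).2 (hAmem x a1).2 (hAmem y b1).2 with h | h | h
      · exact absurd h a2
      · exact absurd h b2
      · exact h
  have hdisj : Disjoint (A1 ×ˢ A1) (A2 ×ˢ A2) := by
    rw [Finset.disjoint_left]
    rintro ⟨x, y⟩ hx hx'
    rw [Finset.mem_product] at hx hx'
    exact (hm2 x hx'.1).2 (hm1 x hx.1).2
  have hle := Finset.card_le_card hsub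
  rw [Finset.card_union_of_disjoint hdisj, Finset.card_product, Finset.card_product] at hle
  have hle' : (A1.card : ℝ) * A1.card + (A2.card : ℝ) * A2.card ≤
      (((Q ×ˢ Q).filter (fun p => (Zl d).Conn S p.1 p.2)).card : ℝ) := by exact_mod_cast hle
  rw [hcard]
  push_cast
  nlinarith [sq_nonneg ((A1.card : ℝ) - A2.card)]

theorem BKD_ind_int {ν : Measure (Cf d)} [IsProbabilityMeasure ν] {X : Set (Cf d)}
    (hX : MeasurableSet X) : Integrable (fun ω => ind (ω ∈ X)) ν ∧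
      ∫ ω, ind (ω ∈ X) ∂ν = ν.real X := by
  classical
  have h : (fun ω => ind (ω ∈ X)) = X.indicator (1 : Cf d → ℝ) := by
    funext ω
    unfold ind
    by_cases h : ω ∈ X
    · rw [if_pos h, Set.indicator_of_mem h]
      rfl
    · rw [if_neg h, Set.indicator_of_notMem h]
  rw [h]
  refine ⟨?_, integral_indicator_one hX⟩
  exact (integrable_const (1 : ℝ)).indicator hX

theorem bk_main (hd : 1 ≤ d) (ν : Measure (Cf d)) [IsProbabilityMeasure ν] (hT : TI ν) (C : ℝ)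
    (hC : 0 < C) (hI : INS ν C)
    (hA : ∀ ε : ℝ, 0 < ε → ∃ Q : Finset (Vx d), Q.Nonempty ∧
      ∑ x ∈ Q, ∑ y ∈ Q, ν.real (cn x y) ≤ ε * (Q.card : ℝ) ^ 2) :
    ν.real (perc d) = 0 := by
  obtain ⟨ρ, hρ⟩ : ∃ ρ : ℝ, ρ = ν.real (perc d) := ⟨_, rfl⟩
  have hρ0 : 0 ≤ ρ := by rw [hρ]; exact measureReal_nonneg
  have hInf : ∀ x : Vx d, ν.real {ω : Cf d | shf x ω ∈ perc d} = ρ := by
    intro x
    rw [hT x _ (meas_perc hd), hρ]
  have hmInf : ∀ x : Vx d, MeasurableSet {ω : Cf d | shf x ω ∈ perc d} := fun x =>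
    BKD_meas_shf x (meas_perc hd)
  have hnull : ∀ᵐ ω ∂ν, ∀ r, ¬ Tri (opn ω) r (0 : Vx d) := by
    rw [ae_all_iff]
    intro r
    have h0 := no_tri hd ν hT C hC hI r
    rw [measureReal_eq_zero_iff] at h0
    have h1 : ν {ω | ¬ ¬ Tri (opn ω) r (0 : Vx d)} = 0 := by
      simpa only [not_not] using h0
    exact h1
  have key : ∀ Q : Finset (Vx d), (ρ * Q.card) ^ 2 ≤
      2 * ∑ x ∈ Q, ∑ y ∈ Q, ν.real (cn x y) := by
    intro Q
    obtain ⟨t, ht⟩ : ∃ t : ℝ, t = ρ * Q.card := ⟨_, rfl⟩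
    have hf_int : Integrable (fun ω : Cf d =>
        2 * t * (∑ x ∈ Q, ind (ω ∈ {ω : Cf d | shf x ω ∈ perc d})) - t ^ 2) ν := by
      apply Integrable.sub _ (integrable_const _)
      apply Integrable.const_mul
      exact integrable_finsetSum _ (fun x _ => (BKD_ind_int (hmInf x)).1)
    have hg_int : Integrable (fun ω : Cf d =>
        2 * (∑ x ∈ Q, ∑ y ∈ Q, ind (ω ∈ (cn x y : Set (Cf d))))) ν := by
      apply Integrable.const_mul
      exact integrable_finsetSum _ (fun x _ => integrable_finsetSum _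
        (fun y _ => (BKD_ind_int (meas_cn x y)).1))
    have hmono : ∫ ω : Cf d,
        (2 * t * (∑ x ∈ Q, ind (ω ∈ {ω : Cf d | shf x ω ∈ perc d})) - t ^ 2) ∂ν ≤
        ∫ ω : Cf d, (2 * (∑ x ∈ Q, ∑ y ∈ Q, ind (ω ∈ (cn x y : Set (Cf d))))) ∂ν := by
      apply integral_mono_ae hf_int hg_int
      filter_upwards [hnull] with ω hω
      have hc := BKD_count (opn ω) (two_clusters hd (opn ω) hω) Q
      have he : ∑ x ∈ Q, ind (shf x ω ∈ perc d)
          = ∑ x ∈ Q, ind ((Zl d).cl (opn ω) x).Infinite := by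
        apply Finset.sum_congr rfl
        intro x _
        rw [propext (BKD_inf x ω)]
      rw [he]
      have hsq := sq_nonneg ((∑ x ∈ Q, ind ((Zl d).cl (opn ω) x).Infinite) - t)
      have hc' : (∑ x ∈ Q, ind ((Zl d).cl (opn ω) x).Infinite) ^ 2 ≤
        2 * ∑ x ∈ Q, ∑ y ∈ Q, ind (ω ∈ (cn x y : Set (Cf d))) := hc
      linarith
    rw [integral_sub _ (integrable_const _), integral_const_mul, integral_const_mul,
      integral_finsetSum _ (fun x _ => (BKD_ind_int (hmInf x)).1),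
      integral_finsetSum _ (fun x _ => integrable_finsetSum _
        (fun y _ => (BKD_ind_int (meas_cn x y)).1))] at hmono
    · have e1 : ∑ x ∈ Q, ∫ ω : Cf d, ind (ω ∈ {ω : Cf d | shf x ω ∈ perc d}) ∂ν = t := by
        rw [Finset.sum_congr rfl (fun x _ => (BKD_ind_int (ν := ν) (hmInf x)).2),
          Finset.sum_congr rfl (fun x _ => hInf x), Finset.sum_const, nsmul_eq_mul, ht, mul_comm]
      have e2 : ∑ x ∈ Q, ∫ ω : Cf d, ∑ y ∈ Q, ind (ω ∈ (cn x y : Set (Cf d))) ∂ν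
          = ∑ x ∈ Q, ∑ y ∈ Q, ν.real (cn x y) := by
        apply Finset.sum_congr rfl
        intro x _
        rw [integral_finsetSum _ (fun y _ => (BKD_ind_int (meas_cn x y)).1)]
        apply Finset.sum_congr rfl
        intro y _
        exact (BKD_ind_int (meas_cn x y)).2
      rw [e1, e2] at hmono
      simp only [integral_const, probReal_univ, one_smul] at hmono
      rw [← ht]
      nlinarith
    · apply Integrable.const_mul
      exact integrable_finsetSum _ (fun x _ => (BKD_ind_int (hmInf x)).1)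
  have hsmall : ∀ ε : ℝ, 0 < ε → ρ ^ 2 ≤ 2 * ε := by
    intro ε hε
    obtain ⟨Q, hQ, hQe⟩ := hA ε hε
    have h1 := key Q
    have hq : (0 : ℝ) < Q.card := by exact_mod_cast hQ.card_pos
    have h2 : ρ ^ 2 * (Q.card : ℝ) ^ 2 ≤ 2 * ε * (Q.card : ℝ) ^ 2 := by
      rw [mul_pow] at h1
      linarith
    exact le_of_mul_le_mul_right h2 (by positivity)
  have hρ2 : ρ ^ 2 ≤ 0 := by
    by_contra hcon
    push Not at hcon
    have := hsmall (ρ ^ 2 / 4) (by linarith)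
    linarith
  rw [← hρ]
  nlinarith [sq_nonneg ρ]

end H82.IC

end S_H82_IC_BKD

section S_H82_BX_NU0

/-!
# NU0: the limit of the joint law of `(ω⁻, ω⁺)`

`Pq κ n F ξ = En (∏_{e ∈ F} q3 (wk κ) (h (s e)) (h (r e)) (ξ e))`.
`Pq_cyl`: nonnegative (`q3 ≥ 0`: `qm_bd`, `qm_sum`), consistent (`∑_a q3 a = 1`, `Eh_sum`), `Pq ∅ = 1` (`Eh_one`).
`nu0`: by `lih` every `Pq κ n F ξ` converges as `n → ∞` (the integrand is a function of finitely many heights with values in `[0,1]`), so `PX (Pq κ n) F X` (a finite sum) converges; `kol` gives `ν` with `ν.real X = ` the ultrafilter limit `=` the limit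
(`hyperfilter ℕ ≤ atTop`, uniqueness of limits).
-/

set_option autoImplicit false

open Finset MeasureTheory Filter Topology

namespace H82.BX

open H82.IC XYB

/-- the configuration of the edges in state `x`. -/
def stt {E : Type} (x : Fin 3) (η : E → Fin 3) : E → Bool := fun e => decide (η e = x)

/-- mass of the cylinder `η = ξ` on `F` in the box `n`. -/
noncomputable def Pq (κ : ℝ) (n : ℕ) (F : Finset (Vx 2 × Fin 3)) (ξ : Vx 2 × Fin 3 → Fin 3) : ℝ :=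
  En (wk κ) n (fun h => ∏ e ∈ F, q3 (wk κ) (h (HH.gr.s e)) (h (HH.gr.r e)) (ξ e))

/-- `ν` is the limit of the laws in the boxes. -/
def NuL (κ : ℝ) (ν : Measure (Vx 2 × Fin 3 → Fin 3)) : Prop :=
  ∀ (F : Finset (Vx 2 × Fin 3)) (X : Set (Vx 2 × Fin 3 → Fin 3)),
    (∀ ω ω' : Vx 2 × Fin 3 → Fin 3, (∀ e ∈ F, ω e = ω' e) → (ω ∈ X ↔ ω' ∈ X)) →
    Tendsto (fun n => PX (Pq κ n) F X) atTop (𝓝 (ν.real X))

theorem NU0_q3sum (w : ℤ → ℝ) (a b : ℤ) : ∑ i, q3 w a b i = 1 := by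
  rw [Fin.sum_univ_three]
  show (1 - qm w a b - qm w (-a) (-b)) + qm w a b + qm w (-a) (-b) = 1
  ring

theorem NU0_q3 (w : ℤ → ℝ) (hw : WOk w) (h1 : w 0 ≤ 2 * w 1) (a b : ℤ) (i : Fin 3) :
    0 ≤ q3 w a b i ∧ q3 w a b i ≤ 1 := by
  have h0 : ∀ i, 0 ≤ q3 w a b i := by
    intro i
    fin_cases i
    · show 0 ≤ 1 - qm w a b - qm w (-a) (-b)
      have := qm_sum w hw h1 a b
      linarith
    · exact (qm_bd w hw a b).1
    · exact (qm_bd w hw (-a) (-b)).1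
  refine ⟨h0 i, ?_⟩
  rw [← NU0_q3sum w a b]
  exact Finset.single_le_sum (f := q3 w a b) (fun j _ => h0 j) (Finset.mem_univ i)

theorem NU0_prod (w : ℤ → ℝ) (hw : WOk w) (h1 : w 0 ≤ 2 * w 1) (F : Finset (Vx 2 × Fin 3))
    (ξ : Vx 2 × Fin 3 → Fin 3) (h : Vx 2 × Bool → ℤ) :
    0 ≤ ∏ e ∈ F, q3 w (h (HH.gr.s e)) (h (HH.gr.r e)) (ξ e) ∧
    |∏ e ∈ F, q3 w (h (HH.gr.s e)) (h (HH.gr.r e)) (ξ e)| ≤ 1 := by
  have h0 : 0 ≤ ∏ e ∈ F, q3 w (h (HH.gr.s e)) (h (HH.gr.r e)) (ξ e) :=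
    Finset.prod_nonneg (fun e _ => (NU0_q3 w hw h1 _ _ _).1)
  refine ⟨h0, ?_⟩
  rw [abs_of_nonneg h0]
  exact Finset.prod_le_one (fun e _ => (NU0_q3 w hw h1 _ _ _).1)
    (fun e _ => (NU0_q3 w hw h1 _ _ _).2)

theorem Pq_cyl (κ : ℝ) (hκ : 0 < κ) (h1 : wk κ 0 ≤ 2 * wk κ 1) (n : ℕ) : Cyl (Pq κ n) := by
  have hw := wk_ok κ hκ
  have hB := FN_Bd n
  refine ⟨?_, ?_, ?_, ?_⟩
  · intro F ξ
    unfold Pq En Eh
    refine div_nonneg (tsum_nonneg (fun h => mul_nonneg (WH_pos _ _ _ _ hw h).le ?_))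
      (tsum_nonneg (fun h => (WH_pos _ _ _ _ hw h).le))
    exact (NU0_prod (wk κ) hw h1 F ξ (ex h)).1
  · intro F ξ ξ' h
    unfold Pq
    congr 1
    funext g
    exact Finset.prod_congr rfl (fun e he => by rw [h e he])
  · intro ξ
    unfold Pq En
    simp only [Finset.prod_empty]
    exact Eh_one HH.gr (FN n) (EN n) hB (wk κ) hw 1
  · intro F ξ e he
    unfold Pq En
    rw [← Eh_sum HH.gr (FN n) (EN n) hB (wk κ) hw univ (fun a h => ∏ e' ∈ insert e F,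
      q3 (wk κ) (h (HH.gr.s e')) (h (HH.gr.r e')) (Function.update ξ e a e'))
      (fun a _ => PBd_bdd (FN n) _ 1 (fun h => (NU0_prod (wk κ) hw h1 _ _ h).2))]
    congr 1
    funext h
    have e1 : ∀ a : Fin 3, (∏ e' ∈ insert e F,
        q3 (wk κ) (h (HH.gr.s e')) (h (HH.gr.r e')) (Function.update ξ e a e')) =
        q3 (wk κ) (h (HH.gr.s e)) (h (HH.gr.r e)) a *
          ∏ e' ∈ F, q3 (wk κ) (h (HH.gr.s e')) (h (HH.gr.r e')) (ξ e') := by
      intro a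
      rw [Finset.prod_insert he, Function.update_self]
      congr 1
      refine Finset.prod_congr rfl (fun e' he' => ?_)
      rw [Function.update_of_ne (fun h' : e' = e => he (h' ▸ he'))]
    simp only [e1]
    rw [← Finset.sum_mul, NU0_q3sum, one_mul]

theorem nu0 (κ C' : ℝ) (hκ : 0 < κ) (h1 : wk κ 0 ≤ 2 * wk κ 1)
    (hM : ∀ n : ℕ, ∀ i ∈ FN n, En (wk κ) n (fun h => (h i : ℝ) ^ 2) ≤ C') :
    ∃ ν : Measure (Vx 2 × Fin 3 → Fin 3), IsProbabilityMeasure ν ∧ NuL κ ν := by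
  have hw := wk_ok κ hκ
  obtain ⟨ν, hν, hk⟩ := kol (fun n => Pq κ n) (fun n => Pq_cyl κ hκ h1 n)
  refine ⟨ν, hν, ?_⟩
  intro F X hX
  have hlim : ∀ ξ : Vx 2 × Fin 3 → Fin 3, ∃ ℓ : ℝ,
      Tendsto (fun n => Pq κ n F ξ) atTop (𝓝 ℓ) := by
    intro ξ
    obtain ⟨ℓ, hℓ, _⟩ := lih κ C' hκ hM (F.image HH.gr.s ∪ F.image HH.gr.r)
      (fun h => ∏ e ∈ F, q3 (wk κ) (h (HH.gr.s e)) (h (HH.gr.r e)) (ξ e)) (by
        intro h h' hh
        refine Finset.prod_congr rfl (fun e he => ?_)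
        rw [hh _ (Finset.mem_union_left _ (Finset.mem_image_of_mem _ he)),
          hh _ (Finset.mem_union_right _ (Finset.mem_image_of_mem _ he))])
      (fun h => (NU0_prod (wk κ) hw h1 F ξ h).2)
    exact ⟨ℓ, hℓ⟩
  choose ℓ hℓ using hlim
  have hL : Tendsto (fun n => PX (Pq κ n) F X) atTop
      (𝓝 (∑ ζ : ↥F → Fin 3, ind (gl F ζ ∈ X) * ℓ (gl F ζ))) := by
    unfold PX
    exact tendsto_finsetSum _ (fun ζ _ => (hℓ (gl F ζ)).const_mul _)
  have hu : Tendsto (fun n => PX (Pq κ n) F X) (hyperfilter ℕ : Filter ℕ)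
      (𝓝 (∑ ζ : ↥F → Fin 3, ind (gl F ζ ∈ X) * ℓ (gl F ζ))) :=
    hL.mono_left Nat.hyperfilter_le_atTop
  rw [tendsto_nhds_unique (hk F X hX) hu]
  exact hL

end H82.BX

end S_H82_BX_NU0

section S_H82_BX_NU1

/-!
# NU1: the law of `ω⁻` in the limit

For an event `X` of edge configurations depending on `F`: `PX (Pq κ n) F {η | stt 1 η ∈ X} = PM HH.gr (FN n) (EN n) (wk κ) F (ind X)`:
group the letters `ζ : F → Fin 3` by `ω = (ζ = 1)`; `q3 1 = qm`, `q3 0 + q3 2 = 1 - qm` (lemmas by helper78).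
-/

set_option autoImplicit false

open Finset MeasureTheory Filter Topology

namespace H82.BX

open H82.IC XYB

section NU1gen
variable {E α : Type} [DecidableEq E] [Fintype α] [DecidableEq α] [Nonempty α]

theorem NU1_gl (F : Finset E) (ζ : ↥F → α) (e : E) (he : e ∈ F) : gl F ζ e = ζ ⟨e, he⟩ := by
  unfold gl; rw [dif_pos he]

/-- mass of an event for independent letters with weights `q`. -/
noncomputable def NU1_Q (F : Finset E) (X : Set (E → α)) (q : E → α → ℝ) : ℝ :=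
  ∑ ζ : ↥F → α, ind (gl F ζ ∈ X) * ∏ e : ↥F, q e.1 (ζ e)

theorem NU1_ind_congr {p q : Prop} (h : p ↔ q) : ind p = ind q := by
  have h' := propext h
  subst h'
  rfl

theorem NU1_ind01 (p : Prop) : 0 ≤ ind p ∧ ind p ≤ 1 := by
  unfold ind; split_ifs <;> simp

theorem NU1_sum_one (F : Finset E) (q : E → α → ℝ) (h1 : ∀ e, ∑ a, q e a = 1) :
    ∑ ζ : ↥F → α, ∏ e : ↥F, q e.1 (ζ e) = 1 := by
  have h := Finset.prod_univ_sum (fun _ : ↥F => (Finset.univ : Finset α)) (fun e a => q e.1 a)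
  rw [Fintype.piFinset_univ] at h
  rw [← h]
  simp [h1]

theorem NU1_Q_bd (F : Finset E) (X : Set (E → α)) (q : E → α → ℝ) (h0 : ∀ e a, 0 ≤ q e a)
    (h1 : ∀ e, ∑ a, q e a = 1) : 0 ≤ NU1_Q F X q ∧ NU1_Q F X q ≤ 1 := by
  have hp : ∀ ζ : ↥F → α, 0 ≤ ∏ e : ↥F, q e.1 (ζ e) := fun ζ => Finset.prod_nonneg (fun e _ => h0 _ _)
  constructor
  · exact Finset.sum_nonneg (fun ζ _ => mul_nonneg (NU1_ind01 _).1 (hp ζ))
  · rw [← NU1_sum_one F q h1]
    refine Finset.sum_le_sum (fun ζ _ => ?_)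
    exact mul_le_of_le_one_left (hp ζ) (NU1_ind01 _).2

theorem NU1_Q_congr (F : Finset E) (X : Set (E → α)) (q q' : E → α → ℝ)
    (h : ∀ e ∈ F, q e = q' e) : NU1_Q F X q = NU1_Q F X q' := by
  refine Finset.sum_congr rfl (fun ζ _ => ?_)
  congr 1
  refine Finset.prod_congr rfl (fun e _ => ?_)
  rw [h e.1 e.2]

end NU1gen

section NU1em
variable {E : Type} [DecidableEq E]

theorem NU1_Q_stt (F : Finset E) (X : Set (E → Bool)) (q : E → Fin 3 → ℝ)
    (h1 : ∀ e, ∑ a, q e a = 1)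
    (hX : ∀ ω ω' : E → Bool, (∀ e ∈ F, ω e = ω' e) → (ω ∈ X ↔ ω' ∈ X)) :
    NU1_Q F {η | stt 1 η ∈ X} q =
      ∑ ω : ↥F → Bool, (∏ e : ↥F, if ω e then q e.1 1 else 1 - q e.1 1) * ind (g0 F ω ∈ X) := by
  have hone : ∀ (ω : ↥F → Bool) (e : ↥F), (if ω e then q e.1 1 else 1 - q e.1 1) =
      ∑ a : Fin 3, if decide (a = 1) = ω e then q e.1 a else 0 := by
    intro ω e
    have h := h1 e.1
    rw [Fin.sum_univ_three] at h ⊢
    cases hω : ω e
    · simp; linarith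
    · simp
  have hexp : ∀ ω : ↥F → Bool, (∏ e : ↥F, if ω e then q e.1 1 else 1 - q e.1 1) =
      ∑ ζ : ↥F → Fin 3, ∏ e : ↥F, if decide (ζ e = 1) = ω e then q e.1 (ζ e) else 0 := by
    intro ω
    simp only [hone]
    have h := Finset.prod_univ_sum (fun _ : ↥F => (Finset.univ : Finset (Fin 3)))
      (fun e a => if decide (a = 1) = ω e then q e.1 a else 0)
    rw [Fintype.piFinset_univ] at h
    exact h
  simp only [hexp]
  simp only [Finset.sum_mul]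
  rw [Finset.sum_comm]
  unfold NU1_Q
  refine Finset.sum_congr rfl (fun ζ _ => ?_)
  rw [Finset.sum_eq_single (fun e => decide (ζ e = 1))]
  · simp only [if_true]
    rw [mul_comm]
    congr 1
    refine NU1_ind_congr ?_
    rw [Set.mem_ofPred_eq]
    refine hX _ _ (fun e he => ?_)
    unfold stt g0
    rw [NU1_gl _ _ _ he, dif_pos he]
  · intro ω _ hω
    have : ∃ e, ¬ decide (ζ e = 1) = ω e := by
      by_contra hcon
      push Not at hcon
      exact hω (funext (fun e => (hcon e).symm))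
    obtain ⟨e, he⟩ := this
    rw [Finset.prod_eq_zero (Finset.mem_univ e) (by rw [if_neg he]), zero_mul]
  · intro h
    exact absurd (Finset.mem_univ _) h

end NU1em

/-- letters of the edges given the heights. -/
noncomputable def NU1_q (κ : ℝ) (h : Vx 2 × Bool → ℤ) (e : Vx 2 × Fin 3) : Fin 3 → ℝ :=
  q3 (wk κ) (h (HH.gr.s e)) (h (HH.gr.r e))

theorem NU1_q3_sum (w : ℤ → ℝ) (a b : ℤ) : ∑ c, q3 w a b c = 1 := by
  rw [Fin.sum_univ_three]; simp [q3]; ring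

theorem NU1_q3_nonneg (w : ℤ → ℝ) (hw : WOk w) (h1 : w 0 ≤ 2 * w 1) (a b : ℤ) (c : Fin 3) :
    0 ≤ q3 w a b c := by
  have h2 := qm_sum w hw h1 a b
  have h3 := (qm_bd w hw a b).1
  have h4 := (qm_bd w hw (-a) (-b)).1
  fin_cases c
  · simp [q3]; linarith
  · simpa [q3] using h3
  · simpa [q3] using h4

theorem nu_pm (κ : ℝ) (hκ : 0 < κ) (h1 : wk κ 0 ≤ 2 * wk κ 1)
    (ν : Measure (Vx 2 × Fin 3 → Fin 3)) (hν : NuL κ ν)
    (F : Finset (Vx 2 × Fin 3)) (X : Set (Vx 2 × Fin 3 → Bool))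
    (hX : ∀ ω ω' : Vx 2 × Fin 3 → Bool, (∀ e ∈ F, ω e = ω' e) → (ω ∈ X ↔ ω' ∈ X)) :
    Tendsto (fun n => PM HH.gr (FN n) (EN n) (wk κ) F (fun o => ind (o ∈ X))) atTop
      (𝓝 (ν.real {η | stt 1 η ∈ X})) := by
  have hw : WOk (wk κ) := wk_ok κ hκ
  have hq0 : ∀ h e a, 0 ≤ NU1_q κ h e a := fun h e a => NU1_q3_nonneg _ hw h1 _ _ _
  have hq1 : ∀ h e, ∑ a, NU1_q κ h e a = 1 := fun h e => NU1_q3_sum _ _ _
  have hle1 : ∀ h e a, NU1_q κ h e a ≤ 1 := by
    intro h e a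
    rw [← hq1 h e]
    exact Finset.single_le_sum (f := fun a => NU1_q κ h e a) (fun b _ => hq0 h e b) (Finset.mem_univ a)
  have hPX : ∀ (n : ℕ) (F : Finset (Vx 2 × Fin 3)) (X : Set (Vx 2 × Fin 3 → Fin 3)),
      PX (Pq κ n) F X = En (wk κ) n (fun h => NU1_Q F X (NU1_q κ h)) := by
    intro n F X
    unfold PX
    have h2 : ∀ ζ : ↥F → Fin 3, ind (gl F ζ ∈ X) * Pq κ n F (gl F ζ) =
        Eh HH.gr (FN n) (EN n) (wk κ) (fun h => ind (gl F ζ ∈ X) * ∏ e : ↥F, NU1_q κ h e.1 (ζ e)) := by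
      intro ζ
      rw [Eh_smul]
      congr 1
      unfold Pq En
      congr 1
      funext h
      rw [← Finset.prod_coe_sort]
      refine Finset.prod_congr rfl (fun e _ => ?_)
      rw [NU1_gl _ _ _ e.2]
      rfl
    simp only [h2]
    rw [← Eh_sum HH.gr (FN n) (EN n) (FN_Bd n) (wk κ) hw Finset.univ]
    · rfl
    · intro ζ _
      refine PBd_bdd _ _ 1 (fun h => ?_)
      have h3 : 0 ≤ ∏ e : ↥F, NU1_q κ h e.1 (ζ e) := Finset.prod_nonneg (fun e _ => hq0 _ _ _)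
      have h4 : ∏ e : ↥F, NU1_q κ h e.1 (ζ e) ≤ 1 :=
        Finset.prod_le_one (fun e _ => hq0 _ _ _) (fun e _ => hle1 _ _ _)
      rw [abs_of_nonneg (mul_nonneg (NU1_ind01 _).1 h3)]
      exact mul_le_one₀ (NU1_ind01 _).2 h3 h4
  have hdep : ∀ η η' : Vx 2 × Fin 3 → Fin 3, (∀ e ∈ F, η e = η' e) →
      (η ∈ {η : Vx 2 × Fin 3 → Fin 3 | stt 1 η ∈ X} ↔ η' ∈ {η | stt 1 η ∈ X}) := by
    intro η η' h
    rw [Set.mem_ofPred_eq, Set.mem_ofPred_eq]
    refine hX _ _ (fun e he => ?_)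
    unfold stt
    rw [h e he]
  have h3 := hν F {η | stt 1 η ∈ X} hdep
  refine h3.congr (fun n => ?_)
  rw [hPX]
  unfold PM En
  congr 1
  funext h
  rw [NU1_Q_stt F X (NU1_q κ h) (hq1 h) hX]
  rfl

end H82.BX

end S_H82_BX_NU1

section S_H82_BX_NU3

/-!
# NU3: insertion tolerance and association of the limit law of `ω⁻`

All cylinder probabilities are limits of `PM HH.gr (FN n) (EN n) (wk κ) F (ind X)` (`nu_pm`); `(ν.map (stt 1)).real X = ν.real {η | stt 1 η ∈ X}` (`stt 1` is measurable).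
* `nu_ins`: `insc_inse` (it suffices to have the approximate insertion tolerance for cylinder events); `hs_ins` with `T` = the edges touching an end of `e` (`HH.gr` has degree `3`: at most `5` edges, `D = 5`), `Nr` = all their ends (at most `10`), and
  `R` with `10 C'/R² ≤ ε` (the vertices of `Nr` outside `FN n` have height `0`, so the second moment is `0`; the others by `hM`; `0 ≤ C'`); `F` is enlarged to contain `e` (`X` and `{opP e ω ∈ X}` both depend on `insert e F`).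
  `wk κ 1 < wk κ 0` by `bI_one_lt`.
* `nu_fkg`: `pm_fkg` (both events depend on `F1 ∪ F2`), limit.
-/

set_option autoImplicit false

open Finset MeasureTheory Filter Topology

namespace H82.BX

open H82.IC XYB

theorem NU3_smeas {E : Type} : Measurable (stt (E := E) 1) := by
  rw [measurable_pi_iff]
  intro e
  have h1 : (fun η : E → Fin 3 => stt 1 η e) = (fun a : Fin 3 => decide (a = 1)) ∘ (fun η => η e) := rfl
  rw [h1]
  exact (measurable_of_finite _).comp (measurable_pi_apply e)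

theorem NU3_map (ν : Measure (Vx 2 × Fin 3 → Fin 3)) (X : Set (Vx 2 × Fin 3 → Bool)) (hX : Lc X) :
    (ν.map (stt 1)).real X = ν.real {η | stt 1 η ∈ X} := by
  rw [Measure.real, Measure.map_apply NU3_smeas (lc_meas hX)]
  rfl

/-- the edges touching a vertex. -/
noncomputable def NU3_t (v : Vx 2 × Bool) : Finset (Vx 2 × Fin 3) :=
  match v with
  | (x, false) => {(x, 0), (x + Pi.single 0 1, 1), (x, 2)}
  | (x, true) => {(x + Pi.single 1 1, 0), (x, 1), (x, 2)}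

theorem NU3_t_card (v : Vx 2 × Bool) : (NU3_t v).card ≤ 3 := by
  obtain ⟨x, b⟩ := v
  cases b
  · exact Finset.card_le_three
  · exact Finset.card_le_three

theorem NU3_t_mem (f : Vx 2 × Fin 3) (v : Vx 2 × Bool) (h : HH.gr.s f = v ∨ HH.gr.r f = v) :
    f ∈ NU3_t v := by
  obtain ⟨x, k⟩ := f
  fin_cases k
  · rcases h with h | h
    · have h1 : v = (x, false) := by rw [← h]; simp [PG.gr, HH]
      rw [h1]; simp [NU3_t]
    · have h1 : v = (x - Pi.single 1 1, true) := by rw [← h]; simp [PG.gr, HH, sub_eq_add_neg]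
      rw [h1]; simp [NU3_t]
  · rcases h with h | h
    · have h1 : v = (x - Pi.single 0 1, false) := by rw [← h]; simp [PG.gr, HH, sub_eq_add_neg]
      rw [h1]; simp [NU3_t]
    · have h1 : v = (x, true) := by rw [← h]; simp [PG.gr, HH]
      rw [h1]; simp [NU3_t]
  · rcases h with h | h
    · have h1 : v = (x, true) := by rw [← h]; simp [PG.gr, HH]
      rw [h1]; simp [NU3_t]
    · have h1 : v = (x, false) := by rw [← h]; simp [PG.gr, HH]
      rw [h1]; simp [NU3_t]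

theorem NU3_ind (p : Prop) : 0 ≤ ind p ∧ ind p ≤ 1 := by
  unfold ind
  split_ifs <;> norm_num

theorem NU3_wlt (κ : ℝ) (hκ : 0 < κ) : wk κ 1 < wk κ 0 := by
  have h1 := bI_one_lt κ hκ.le
  have h3 : 0 ≤ bI κ 1 := bI_nonneg κ hκ.le 1
  unfold wk
  exact pow_lt_pow_left₀ h1 h3 (by norm_num)

theorem NU3_out (κ : ℝ) (n : ℕ) (v : Vx 2 × Bool) (hv : v ∉ FN n) :
    En (wk κ) n (fun h => (h v : ℝ) ^ 2) = 0 := by
  unfold En Eh
  have h1 : ∀ h : ↥(FN n) → ℤ, ex h v = 0 := by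
    intro h
    simp [ex, hv]
  simp [h1]

theorem nu_ins (κ C' : ℝ) (hκ : 0 < κ) (h1 : wk κ 0 ≤ 2 * wk κ 1)
    (hM : ∀ n : ℕ, ∀ i ∈ FN n, En (wk κ) n (fun h => (h i : ℝ) ^ 2) ≤ C')
    (ν : Measure (Vx 2 × Fin 3 → Fin 3)) [IsProbabilityMeasure ν] (hν : NuL κ ν) :
    INSe (ν.map (stt 1)) := by
  classical
  have : IsProbabilityMeasure (ν.map (stt 1)) :=
    Measure.isProbabilityMeasure_map NU3_smeas.aemeasurable
  apply insc_inse
  intro ε hε
  obtain ⟨R, hR⟩ : ∃ R : ℕ, 12 * max C' 0 / ε + 1 ≤ R := exists_nat_ge _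
  have hC0 : 0 ≤ max C' 0 := le_max_right _ _
  have hR1 : (1 : ℝ) ≤ R := by
    have : 0 ≤ 12 * max C' 0 / ε := by positivity
    linarith
  have hR0 : 0 < R := by
    have : (0 : ℝ) < R := by linarith
    exact_mod_cast this
  have hR2 : 12 * max C' 0 / (R : ℝ) ^ 2 ≤ ε := by
    rw [div_le_iff₀ (by positivity)]
    have h2 : 12 * max C' 0 / ε ≤ R := by linarith
    rw [div_le_iff₀ hε] at h2
    nlinarith [mul_nonneg hε.le (sub_nonneg.2 hR1)]
  obtain ⟨C, hC, H⟩ := hs_ins (wk κ) (wk_ok κ hκ) (NU3_wlt κ hκ) R hR0 6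
  refine ⟨C, hC, ?_⟩
  rintro e X ⟨F0, hF0⟩
  have hX : ∀ ω ω' : Vx 2 × Fin 3 → Bool, (∀ f ∈ insert e F0, ω f = ω' f) → (ω ∈ X ↔ ω' ∈ X) :=
    fun ω ω' h => hF0 ω ω' (fun f hf => h f (mem_insert_of_mem hf))
  have hX' : ∀ ω ω' : Vx 2 × Fin 3 → Bool, (∀ f ∈ insert e F0, ω f = ω' f) →
      (ω ∈ {ω | opP e ω ∈ X} ↔ ω' ∈ {ω | opP e ω ∈ X}) := by
    intro ω ω' h
    refine hX _ _ (fun f hf => ?_)
    unfold opP
    by_cases hfe : f = e
    · subst hfe; simp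
    · simp [Function.update, hfe, h f hf]
  have l1 := nu_pm κ hκ h1 ν hν (insert e F0) {ω | opP e ω ∈ X} hX'
  have l2 := nu_pm κ hκ h1 ν hν (insert e F0) X hX
  rw [NU3_map ν X ⟨_, hX⟩, NU3_map ν {ω | opP e ω ∈ X} ⟨_, hX'⟩]
  refine le_of_tendsto_of_tendsto' l1 ((l2.const_mul C).add_const ε) (fun n => ?_)
  have hT : (NU3_t (HH.gr.s e) ∪ NU3_t (HH.gr.r e)).card ≤ 6 := by
    refine (card_union_le _ _).trans ?_
    have := NU3_t_card (HH.gr.s e)
    have := NU3_t_card (HH.gr.r e)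
    omega
  set T := NU3_t (HH.gr.s e) ∪ NU3_t (HH.gr.r e) with hTd
  have hNc : (T.image HH.gr.s ∪ T.image HH.gr.r).card ≤ 12 := by
    refine (card_union_le _ _).trans ?_
    have := card_image_le (s := T) (f := HH.gr.s)
    have := card_image_le (s := T) (f := HH.gr.r)
    omega
  have h3 := H _ _ HH.gr (FN n) (EN n) (FN_Bd n) (insert e F0) T
    (T.image HH.gr.s ∪ T.image HH.gr.r) e (mem_insert_self _ _) hT
    (by
      intro f _ hf
      rw [hTd, mem_union]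
      rcases hf with hf | hf | hf | hf
      · exact Or.inl (NU3_t_mem f _ (Or.inl hf))
      · exact Or.inr (NU3_t_mem f _ (Or.inl hf))
      · exact Or.inl (NU3_t_mem f _ (Or.inr hf))
      · exact Or.inr (NU3_t_mem f _ (Or.inr hf)))
    (by
      intro f hf
      exact ⟨mem_union_left _ (mem_image_of_mem _ hf), mem_union_right _ (mem_image_of_mem _ hf)⟩)
    (fun o => ind (o ∈ X)) (fun o => (NU3_ind _).1) (fun o => (NU3_ind _).2)
  refine h3.trans ?_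
  have h4 : ∑ v ∈ T.image HH.gr.s ∪ T.image HH.gr.r,
      Eh HH.gr (FN n) (EN n) (wk κ) (fun h => (h v : ℝ) ^ 2) ≤ 12 * max C' 0 := by
    calc ∑ v ∈ T.image HH.gr.s ∪ T.image HH.gr.r,
        Eh HH.gr (FN n) (EN n) (wk κ) (fun h => (h v : ℝ) ^ 2)
        ≤ ∑ v ∈ T.image HH.gr.s ∪ T.image HH.gr.r, max C' 0 := by
          refine sum_le_sum (fun v _ => ?_)
          by_cases hv : v ∈ FN n
          · exact (hM n v hv).trans (le_max_left _ _)
          · exact (NU3_out κ n v hv).le.trans hC0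
      _ = ((T.image HH.gr.s ∪ T.image HH.gr.r).card : ℝ) * max C' 0 := by
          rw [sum_const, nsmul_eq_mul]
      _ ≤ 12 * max C' 0 := by
          apply mul_le_mul_of_nonneg_right _ hC0
          exact_mod_cast hNc
  have h5 : (∑ v ∈ T.image HH.gr.s ∪ T.image HH.gr.r,
      Eh HH.gr (FN n) (EN n) (wk κ) (fun h => (h v : ℝ) ^ 2)) / (R : ℝ) ^ 2 ≤ ε := by
    refine le_trans ?_ hR2
    gcongr
  exact add_le_add le_rfl h5

theorem NU3_mono (X : Set (Vx 2 × Fin 3 → Bool)) (hX : Inc1 X) :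
    Monotone (fun o : Vx 2 × Fin 3 → Bool => ind (o ∈ X)) := by
  intro o o' h
  have h1 : o ∈ X → o' ∈ X := by
    apply hX
    intro e he
    have := h e
    rw [he] at this
    exact Bool.eq_true_of_true_le this
  show ind (o ∈ X) ≤ ind (o' ∈ X)
  unfold ind
  by_cases hx : o ∈ X
  · rw [if_pos hx, if_pos (h1 hx)]
  · rw [if_neg hx]
    split_ifs <;> norm_num

theorem nu_fkg (κ : ℝ) (hκ : 0 < κ) (h1 : wk κ 0 ≤ 2 * wk κ 1)
    (ν : Measure (Vx 2 × Fin 3 → Fin 3)) [IsProbabilityMeasure ν] (hν : NuL κ ν)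
    (X Y : Set (Vx 2 × Fin 3 → Bool)) (hX : Lc X) (hY : Lc Y) (hX' : Inc1 X) (hY' : Inc1 Y) :
    (ν.map (stt 1)).real X * (ν.map (stt 1)).real Y ≤ (ν.map (stt 1)).real (X ∩ Y) := by
  classical
  rw [NU3_map ν X hX, NU3_map ν Y hY, NU3_map ν (X ∩ Y) (lc_inter hX hY)]
  obtain ⟨F1, hF1⟩ := hX
  obtain ⟨F2, hF2⟩ := hY
  have a1 : ∀ ω ω' : Vx 2 × Fin 3 → Bool, (∀ f ∈ F1 ∪ F2, ω f = ω' f) → (ω ∈ X ↔ ω' ∈ X) :=
    fun ω ω' h => hF1 ω ω' (fun f hf => h f (mem_union_left _ hf))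
  have a2 : ∀ ω ω' : Vx 2 × Fin 3 → Bool, (∀ f ∈ F1 ∪ F2, ω f = ω' f) → (ω ∈ Y ↔ ω' ∈ Y) :=
    fun ω ω' h => hF2 ω ω' (fun f hf => h f (mem_union_right _ hf))
  have a3 : ∀ ω ω' : Vx 2 × Fin 3 → Bool, (∀ f ∈ F1 ∪ F2, ω f = ω' f) →
      (ω ∈ X ∩ Y ↔ ω' ∈ X ∩ Y) := fun ω ω' h => and_congr (a1 ω ω' h) (a2 ω ω' h)
  have l1 := nu_pm κ hκ h1 ν hν (F1 ∪ F2) X a1
  have l2 := nu_pm κ hκ h1 ν hν (F1 ∪ F2) Y a2
  have l3 := nu_pm κ hκ h1 ν hν (F1 ∪ F2) (X ∩ Y) a3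
  refine le_of_tendsto_of_tendsto' (l1.mul l2) l3 (fun n => ?_)
  refine (pm_fkg HH.gr (FN n) (EN n) (FN_Bd n) (wk κ) (wk_ok κ hκ) (F1 ∪ F2) _ _
    (NU3_mono X hX') (NU3_mono Y hY')).trans (le_of_eq ?_)
  congr 1
  funext o
  show ind (o ∈ X) * ind (o ∈ Y) = ind (o ∈ X ∩ Y)
  unfold ind
  by_cases hx : o ∈ X <;> by_cases hy : o ∈ Y <;> simp [hx, hy]

end H82.BX

end S_H82_BX_NU3

section S_H82_BX_NU4

/-!
# NU4: mixing of the limit law of `ω⁻`

`X` depends on `F1`, `Y` on `F2`; the translated event `{ω | shP (k e₀) ω ∈ Y}` depends on `F2 + (k, 0)`.  For `k` large all ends of the edges of `F1` have first coordinate smaller than all ends of the edges of `F2 + (k,0)` (so the two edge sets are disjoint and their vertices too):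
`pm_mix` with `B1 = F1`, `B2 = F2 + (k,0)`; the error is `∑_{i ∈ N1, j ∈ N2} En (h_i h_j) ≤ |N1| |N2| C' e^{-a (k - k1)}` (second part of `mom`; vertices outside `FN n` have height `0`), uniformly in `n`; let `n → ∞` (`nu_pm`) for fixed `k`.
-/

set_option autoImplicit false

open Finset MeasureTheory Filter Topology

namespace H82.BX

open H82.IC XYB

theorem nu4_stt_meas : Measurable (stt 1 : (Vx 2 × Fin 3 → Fin 3) → Vx 2 × Fin 3 → Bool) := by
  rw [measurable_pi_iff]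
  intro e
  exact (measurable_of_finite (fun x : Fin 3 => decide (x = 1))).comp (measurable_pi_apply e)

theorem nu4_map (ν : Measure (Vx 2 × Fin 3 → Fin 3)) (X : Set (Vx 2 × Fin 3 → Bool)) (hX : Lc X) :
    (ν.map (stt 1)).real X = ν.real {η | stt 1 η ∈ X} := by
  rw [Measure.real, Measure.map_apply nu4_stt_meas (lc_meas hX)]
  rfl

theorem nu4_ind_mono (X : Set (Vx 2 × Fin 3 → Bool)) (hX : Inc1 X) :
    Monotone (fun o : Vx 2 × Fin 3 → Bool => ind (o ∈ X)) := by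
  intro o o' h
  unfold ind
  by_cases h1 : o ∈ X
  · have h2 : o' ∈ X := hX o o' (fun e he => by
      have := h e
      rw [he] at this
      exact Bool.eq_true_of_true_le this) h1
    simp only [h1, h2, if_true, le_refl]
  · simp only [h1, if_false]
    split_ifs <;> norm_num

theorem nu4_ind_bd (X : Set (Vx 2 × Fin 3 → Bool)) (o : Vx 2 × Fin 3 → Bool) :
    0 ≤ ind (o ∈ X) ∧ ind (o ∈ X) ≤ 1 := by
  unfold ind
  split_ifs <;> norm_num

theorem nu4_bdd (F : Finset (Vx 2 × Bool)) : ∃ M : ℕ, ∀ v ∈ F, |v.1 0| ≤ M := by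
  refine ⟨F.sup (fun v => (v.1 0).natAbs), fun v hv => ?_⟩
  have : (v.1 0).natAbs ≤ F.sup (fun v => (v.1 0).natAbs) :=
    Finset.le_sup (f := fun v : Vx 2 × Bool => (v.1 0).natAbs) hv
  rw [Int.abs_eq_natAbs]
  exact_mod_cast this

theorem nu_mix (κ C' a : ℝ) (hκ : 0 < κ) (ha : 0 < a) (h1 : wk κ 0 ≤ 2 * wk κ 1) (hC : 0 < C')
    (hM : ∀ n : ℕ, ∀ i ∈ FN n, ∀ j ∈ FN n, i.1 0 < j.1 0 →
      |En (wk κ) n (fun h => (h i : ℝ) * (h j : ℝ))| ≤ C' * Real.exp (-a * (j.1 0 - i.1 0 : ℤ)))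
    (ν : Measure (Vx 2 × Fin 3 → Fin 3)) [IsProbabilityMeasure ν] (hν : NuL κ ν) (hT : TIP ν)
    (X Y : Set (Vx 2 × Fin 3 → Bool)) (hX : Lc X) (hY : Lc Y) (hX' : Inc1 X) (hY' : Inc1 Y)
    (ε : ℝ) (hε : 0 < ε) : ∃ k0 : ℕ, ∀ k : ℕ, k0 ≤ k →
      (ν.map (stt 1)).real (X ∩ {ω | shP (Pi.single 0 (k : ℤ)) ω ∈ Y}) ≤
        (ν.map (stt 1)).real X * (ν.map (stt 1)).real Y + ε := by
  have hX0 := hX
  have hY0 := hY
  obtain ⟨F1, hF1⟩ := hX
  obtain ⟨F2, hF2⟩ := hY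
  set N1 : Finset (Vx 2 × Bool) := F1.image HH.gr.s ∪ F1.image HH.gr.r with hN1
  set N2 : Finset (Vx 2 × Bool) := F2.image HH.gr.s ∪ F2.image HH.gr.r with hN2
  obtain ⟨M, hMM⟩ := nu4_bdd (N1 ∪ N2)
  -- choice of `k0`
  have hlim : Tendsto (fun k : ℕ => (N1.card * N2.card : ℝ) * (C' * Real.exp (-a * ((k : ℝ) - 2 * M))))
      atTop (𝓝 ((N1.card * N2.card : ℝ) * (C' * 0))) := by
    refine Tendsto.const_mul _ (Tendsto.const_mul _ ?_)
    refine Real.tendsto_exp_atBot.comp ?_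
    have : Tendsto (fun k : ℕ => (k : ℝ) - 2 * M) atTop atTop :=
      tendsto_atTop_add_const_right _ _ tendsto_natCast_atTop_atTop
    exact this.const_mul_atTop_of_neg (by linarith)
  rw [mul_zero, mul_zero] at hlim
  have hev := (hlim.eventually (gt_mem_nhds hε)).and (eventually_gt_atTop (2 * M))
  obtain ⟨k0, hk0⟩ := eventually_atTop.1 hev
  refine ⟨k0, fun k hk => ?_⟩
  obtain ⟨hk1, hk2⟩ := hk0 k hk
  set sh : Vx 2 := Pi.single 0 (k : ℤ) with hsh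
  have hsh0 : sh 0 = k := by simp [hsh]
  set Y' : Set (Vx 2 × Fin 3 → Bool) := {ω | shP sh ω ∈ Y} with hY'def
  set B2 : Finset (Vx 2 × Fin 3) := F2.image (fun e => (e.1 + sh, e.2)) with hB2
  set N2' : Finset (Vx 2 × Bool) := N2.image (fun v => (v.1 + sh, v.2)) with hN2'
  have hF2' : ∀ ω ω' : Vx 2 × Fin 3 → Bool, (∀ e ∈ B2, ω e = ω' e) → (ω ∈ Y' ↔ ω' ∈ Y') := by
    intro ω ω' h
    exact hF2 (shP sh ω) (shP sh ω') fun e he => h (e.1 + sh, e.2) (Finset.mem_image_of_mem _ he)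
  have hYlc : Lc Y' := ⟨B2, hF2'⟩
  have hYinc : Inc1 Y' := fun ω ω' h h' => hY' (shP sh ω) (shP sh ω') (fun e he => h _ he) h'
  -- the ends
  have e1 : ∀ e ∈ F1, HH.gr.s e ∈ N1 ∧ HH.gr.r e ∈ N1 := fun e he =>
    ⟨mem_union_left _ (mem_image_of_mem _ he), mem_union_right _ (mem_image_of_mem _ he)⟩
  have hss : ∀ e : Vx 2 × Fin 3, HH.gr.s (e.1 + sh, e.2) = ((HH.gr.s e).1 + sh, (HH.gr.s e).2) := by
    intro e
    unfold PG.gr
    simp only [Prod.mk.injEq, and_true]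
    abel
  have hrr : ∀ e : Vx 2 × Fin 3, HH.gr.r (e.1 + sh, e.2) = ((HH.gr.r e).1 + sh, (HH.gr.r e).2) := by
    intro e
    unfold PG.gr
    simp only [Prod.mk.injEq, and_true]
    abel
  have e2 : ∀ e ∈ B2, HH.gr.s e ∈ N2' ∧ HH.gr.r e ∈ N2' := by
    intro e he
    obtain ⟨e', he', rfl⟩ := mem_image.1 he
    rw [hss, hrr]
    exact ⟨mem_image_of_mem (fun v : Vx 2 × Bool => (v.1 + sh, v.2))
        (mem_union_left _ (mem_image_of_mem _ he')),
      mem_image_of_mem (fun v : Vx 2 × Bool => (v.1 + sh, v.2))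
        (mem_union_right _ (mem_image_of_mem _ he'))⟩
  have b1 : ∀ v ∈ N1, v.1 0 ≤ M := fun v hv => (abs_le.1 (hMM v (mem_union_left _ hv))).2
  have b2 : ∀ v ∈ N2', (k : ℤ) - M ≤ v.1 0 := by
    intro v hv
    obtain ⟨v', hv', rfl⟩ := mem_image.1 hv
    have := (abs_le.1 (hMM v' (mem_union_right _ hv'))).1
    simp only [Pi.add_apply, hsh0]
    omega
  have hdis : Disjoint F1 B2 := by
    rw [Finset.disjoint_left]
    intro e h h'
    have i1 := b1 _ (e1 e h).1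
    have i2 := b2 _ (e2 e h').1
    omega
  -- the bound in the boxes
  have key : ∀ n : ℕ, PM HH.gr (FN n) (EN n) (wk κ) (F1 ∪ B2) (fun o => ind (o ∈ X ∩ Y')) ≤
      PM HH.gr (FN n) (EN n) (wk κ) F1 (fun o => ind (o ∈ X)) *
        PM HH.gr (FN n) (EN n) (wk κ) B2 (fun o => ind (o ∈ Y')) + ε := by
    intro n
    have hm := pm_mix HH.gr (FN n) (EN n) (FN_Bd n) (wk κ) (wk_ok κ hκ) F1 B2 hdis N1 N2'
      (fun e he => ⟨fun _ => (e1 e he).1, fun _ => (e1 e he).2⟩)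
      (fun e he => ⟨fun _ => (e2 e he).1, fun _ => (e2 e he).2⟩)
      (fun o => ind (o ∈ X)) (fun o => ind (o ∈ Y')) (nu4_ind_mono X hX') (nu4_ind_mono Y' hYinc)
      (fun o o' h => by simp only [hF1 o o' h]) (fun o o' h => by simp only [hF2' o o' h])
      (nu4_ind_bd X) (nu4_ind_bd Y')
    have hprod : (fun o : Vx 2 × Fin 3 → Bool => ind (o ∈ X) * ind (o ∈ Y')) =
        fun o => ind (o ∈ X ∩ Y') := by
      funext o
      unfold ind
      by_cases h1 : o ∈ X <;> by_cases h2 : o ∈ Y' <;> simp [h1, h2]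
    rw [hprod] at hm
    refine hm.trans (add_le_add_right ?_ _)
    have hterm : ∀ i ∈ N1, ∀ j ∈ N2',
        |Eh HH.gr (FN n) (EN n) (wk κ) (fun h => (h i : ℝ) * (h j : ℝ))| ≤
          C' * Real.exp (-a * ((k : ℝ) - 2 * M)) := by
      intro i hi j hj
      have hz : ∀ v : Vx 2 × Bool, v ∉ FN n → ∀ h : ↥(FN n) → ℤ, ex h v = 0 := by
        intro v hv h
        unfold ex
        rw [dif_neg hv]
      have hpos : 0 ≤ C' * Real.exp (-a * ((k : ℝ) - 2 * M)) := by positivity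
      have hzero : (∀ h : ↥(FN n) → ℤ, ((ex h i : ℤ) : ℝ) * ((ex h j : ℤ) : ℝ) = 0) →
          |Eh HH.gr (FN n) (EN n) (wk κ) (fun h => (h i : ℝ) * (h j : ℝ))| ≤
          C' * Real.exp (-a * ((k : ℝ) - 2 * M)) := by
        intro h0
        have := Eh_congr HH.gr (FN n) (EN n) (wk κ) (fun h => (h i : ℝ) * (h j : ℝ)) (fun _ => 0)
          (fun h => h0 h)
        rw [this, Eh_one HH.gr (FN n) (EN n) (FN_Bd n) (wk κ) (wk_ok κ hκ), abs_zero]
        exact hpos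
      by_cases hi' : i ∈ FN n
      · by_cases hj' : j ∈ FN n
        · have i1 := b1 i hi
          have i2 := b2 j hj
          have hlt : i.1 0 < j.1 0 := by omega
          refine (hM n i hi' j hj' hlt).trans ?_
          refine mul_le_mul_of_nonneg_left (Real.exp_le_exp.2 ?_) hC.le
          have : ((k : ℝ) - 2 * M) ≤ ((j.1 0 - i.1 0 : ℤ) : ℝ) := by
            have : (k : ℤ) - 2 * M ≤ j.1 0 - i.1 0 := by omega
            exact_mod_cast this
          nlinarith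
        · exact hzero fun h => by rw [hz j hj' h]; simp
      · exact hzero fun h => by rw [hz i hi' h]; simp
    have hcard : ∑ i ∈ N1, ∑ j ∈ N2',
        |Eh HH.gr (FN n) (EN n) (wk κ) (fun h => (h i : ℝ) * (h j : ℝ))| ≤
        (N1.card * N2'.card : ℝ) * (C' * Real.exp (-a * ((k : ℝ) - 2 * M))) := by
      calc _ ≤ ∑ i ∈ N1, ∑ j ∈ N2', C' * Real.exp (-a * ((k : ℝ) - 2 * M)) :=
            sum_le_sum fun i hi => sum_le_sum fun j hj => hterm i hi j hj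
        _ = _ := by
          simp only [sum_const, nsmul_eq_mul]
          ring
    refine hcard.trans (le_trans ?_ hk1.le)
    refine mul_le_mul_of_nonneg_right ?_ (by positivity)
    refine mul_le_mul_of_nonneg_left ?_ (Nat.cast_nonneg _)
    exact_mod_cast Finset.card_image_le
  -- the limits
  have t1 := nu_pm κ hκ h1 ν hν (F1 ∪ B2) (X ∩ Y') (fun ω ω' h => by
    rw [Set.mem_inter_iff, Set.mem_inter_iff, hF1 ω ω' (fun e he => h e (mem_union_left _ he)),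
      hF2' ω ω' (fun e he => h e (mem_union_right _ he))])
  have t2 := nu_pm κ hκ h1 ν hν F1 X hF1
  have t3 := nu_pm κ hκ h1 ν hν B2 Y' hF2'
  have hle := le_of_tendsto_of_tendsto' t1 ((t2.mul t3).add_const ε) key
  have htr : ν.real {η | stt 1 η ∈ Y'} = ν.real {η | stt 1 η ∈ Y} := by
    have hmy : MeasurableSet {η : Vx 2 × Fin 3 → Fin 3 | stt 1 η ∈ Y} :=
      nu4_stt_meas (lc_meas hY0)
    exact hT sh _ hmy
  rw [htr] at hle
  rw [nu4_map ν _ (lc_inter hX0 hYlc), nu4_map ν X hX0, nu4_map ν Y hY0]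
  exact hle

end H82.BX

end S_H82_BX_NU4

section S_H82_BX_NU6

/-!
# NU6: invariances of the limit law

* `nu_tip`: `tip_of_lc` (translation invariance for cylinder events suffices): for a cylinder event `X` depending on `F` the event `{η | shP a η ∈ X}` depends on the translate of `F` and `PX (Pq κ n) (F + a) {..} = ∑_ξ En (the translated integrand)`;
  by the second part of `lih` it has the same limit as `PX (Pq κ n) F X`.
* `nu_s1`, `nu_s2`: `Eh_iso` with the involutions `sV1`, `sV2` of the vertices and `sE1`, `sE2` of the edges (`FN n`, `EN n` are invariant, `HH.gr.s`, `r` are mapped to each other in some order; `qm_symm`): the masses `PX (Pq κ n)` of `X` and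
  of `{η | η ∘ sE1 ∈ X}` are equal for every `n`; cylinder events generate (compare `tip_of_lc`: uniqueness of measures on a pi-system).
* `nu_fl`: `Eh_neg` and `q3 w (-a) (-b) = q3 w a b ∘ fl3`.
-/

set_option autoImplicit false

open Finset MeasureTheory Filter Topology

namespace H82.BX

open H82.IC XYB

theorem NU6_PX (σ : Vx 2 × Fin 3 ≃ Vx 2 × Fin 3) (τ : Fin 3 ≃ Fin 3)
    (P Q : Finset (Vx 2 × Fin 3) → (Vx 2 × Fin 3 → Fin 3) → ℝ) (F : Finset (Vx 2 × Fin 3))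
    (X : Set (Vx 2 × Fin 3 → Fin 3))
    (hX : ∀ ω ω' : Vx 2 × Fin 3 → Fin 3, (∀ e ∈ F, ω e = ω' e) → (ω ∈ X ↔ ω' ∈ X))
    (hQ : ∀ ξ ξ' : Vx 2 × Fin 3 → Fin 3, (∀ e ∈ F, ξ e = ξ' e) → Q F ξ = Q F ξ')
    (hPQ : ∀ ξ, P (F.map σ.toEmbedding) ξ = Q F (fun e => τ (ξ (σ e)))) :
    PX P (F.map σ.toEmbedding) {η | (fun e => τ (η (σ e))) ∈ X} = PX Q F X := by
  unfold PX
  have hm : ∀ e, e ∈ F ↔ σ e ∈ F.map σ.toEmbedding := by intro e; simp
  refine Fintype.sum_equiv (Equiv.arrowCongr (σ.subtypeEquiv hm).symm τ) _ _ ?_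
  intro ζ
  have h1 : ∀ e ∈ F, τ (gl (F.map σ.toEmbedding) ζ (σ e)) =
      gl F (Equiv.arrowCongr (σ.subtypeEquiv hm).symm τ ζ) e := by
    intro e he
    have he' := (hm e).1 he
    unfold gl
    rw [dif_pos he, dif_pos he']
    rfl
  rw [hPQ, hQ _ _ h1]
  have h2 : ((fun e => τ (gl (F.map σ.toEmbedding) ζ (σ e))) ∈ X) =
      (gl F (Equiv.arrowCongr (σ.subtypeEquiv hm).symm τ ζ) ∈ X) :=
    propext (hX _ _ h1)
  rw [Set.mem_ofPred_eq, h2]

theorem NU6_Pq_loc (κ : ℝ) (n : ℕ) (F : Finset (Vx 2 × Fin 3)) (ξ ξ' : Vx 2 × Fin 3 → Fin 3)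
    (h : ∀ e ∈ F, ξ e = ξ' e) : Pq κ n F ξ = Pq κ n F ξ' := by
  unfold Pq
  congr 1
  funext g
  exact Finset.prod_congr rfl (fun e he => by rw [h e he])

theorem NU6_locX (σ : Vx 2 × Fin 3 ≃ Vx 2 × Fin 3) (τ : Fin 3 ≃ Fin 3) (F : Finset (Vx 2 × Fin 3))
    (X : Set (Vx 2 × Fin 3 → Fin 3))
    (hX : ∀ ω ω' : Vx 2 × Fin 3 → Fin 3, (∀ e ∈ F, ω e = ω' e) → (ω ∈ X ↔ ω' ∈ X))
    (ω ω' : Vx 2 × Fin 3 → Fin 3) (h : ∀ e ∈ F.map σ.toEmbedding, ω e = ω' e) :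
    (ω ∈ {η : Vx 2 × Fin 3 → Fin 3 | (fun e => τ (η (σ e))) ∈ X} ↔
      ω' ∈ {η : Vx 2 × Fin 3 → Fin 3 | (fun e => τ (η (σ e))) ∈ X}) := by
  refine hX _ _ fun e he => ?_
  have h1 := h (σ e) (by simpa using he)
  show τ (ω (σ e)) = τ (ω' (σ e))
  rw [h1]

theorem NU6_lc0 (κ : ℝ) (ν : Measure (Vx 2 × Fin 3 → Fin 3)) (hν : NuL κ ν)
    (σ : Vx 2 × Fin 3 ≃ Vx 2 × Fin 3) (τ : Fin 3 ≃ Fin 3)
    (hPQ : ∀ (n : ℕ) (F : Finset (Vx 2 × Fin 3)) (ξ : Vx 2 × Fin 3 → Fin 3),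
      Pq κ n (F.map σ.toEmbedding) ξ = Pq κ n F (fun e => τ (ξ (σ e))))
    (X : Set (Vx 2 × Fin 3 → Fin 3)) (hX : Lc X) :
    ν.real {η | (fun e => τ (η (σ e))) ∈ X} = ν.real X := by
  obtain ⟨F, hF⟩ := hX
  have h1 := hν F X hF
  have h2 := hν (F.map σ.toEmbedding) _ (NU6_locX σ τ F X hF)
  have h3 : (fun n => PX (Pq κ n) (F.map σ.toEmbedding)
      {η : Vx 2 × Fin 3 → Fin 3 | (fun e => τ (η (σ e))) ∈ X}) = fun n => PX (Pq κ n) F X := by
    funext n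
    exact NU6_PX σ τ (Pq κ n) (Pq κ n) F X hF (NU6_Pq_loc κ n F) (hPQ n F)
  rw [h3] at h2
  exact tendsto_nhds_unique h2 h1

theorem NU6_ext (ν : Measure (Vx 2 × Fin 3 → Fin 3)) [IsProbabilityMeasure ν]
    (σ : Vx 2 × Fin 3 → Vx 2 × Fin 3) (τ : Fin 3 → Fin 3)
    (h : ∀ X : Set (Vx 2 × Fin 3 → Fin 3), Lc X → ν.real {η | (fun e => τ (η (σ e))) ∈ X} = ν.real X)
    (X : Set (Vx 2 × Fin 3 → Fin 3)) (hX : MeasurableSet X) :
    ν.real {η | (fun e => τ (η (σ e))) ∈ X} = ν.real X := by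
  have hm : Measurable (fun (η : Vx 2 × Fin 3 → Fin 3) (e : Vx 2 × Fin 3) => τ (η (σ e))) := by
    rw [measurable_pi_iff]
    intro e
    exact (measurable_of_finite τ).comp (measurable_pi_apply (σ e))
  have hpm : IsProbabilityMeasure (ν.map (fun (η : Vx 2 × Fin 3 → Fin 3) (e : Vx 2 × Fin 3) =>
      τ (η (σ e)))) := Measure.isProbabilityMeasure_map hm.aemeasurable
  have h1 : ν.map (fun (η : Vx 2 × Fin 3 → Fin 3) (e : Vx 2 × Fin 3) => τ (η (σ e))) = ν := by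
    refine lc_ext _ _ ?_
    intro Y hY
    have h2 := h Y hY
    rw [← h2, Measure.real, Measure.map_apply hm (lc_meas hY)]
    rfl
  have h3 : (ν.map (fun (η : Vx 2 × Fin 3 → Fin 3) (e : Vx 2 × Fin 3) => τ (η (σ e)))).real X =
      ν.real X := by rw [h1]
  rw [Measure.real, Measure.map_apply hm hX] at h3
  exact h3

theorem NU6_q3_symm (w : ℤ → ℝ) (hw : WOk w) (a b : ℤ) (i : Fin 3) : q3 w a b i = q3 w b a i := by
  unfold q3
  rw [qm_symm w hw a b, qm_symm w hw (-a) (-b)]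

theorem NU6_q3_neg (w : ℤ → ℝ) (a b : ℤ) (i : Fin 3) : q3 w (-a) (-b) i = q3 w a b (fl3 i) := by
  unfold q3 fl3
  rw [neg_neg, neg_neg]
  fin_cases i
  · show 1 - qm w (-a) (-b) - qm w a b = 1 - qm w a b - qm w (-a) (-b)
    ring
  · rfl
  · rfl

/-- invariance under a symmetry of the boxes. -/
theorem NU6_iso (κ : ℝ) (hκ : 0 < κ) (gV : Vx 2 × Bool ≃ Vx 2 × Bool)
    (σ : Vx 2 × Fin 3 ≃ Vx 2 × Fin 3)
    (hg : ∀ e, (gV (HH.gr.s e) = HH.gr.s (σ e) ∧ gV (HH.gr.r e) = HH.gr.r (σ e)) ∨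
      (gV (HH.gr.s e) = HH.gr.r (σ e) ∧ gV (HH.gr.r e) = HH.gr.s (σ e))) (n : ℕ)
    (hF : ∀ v, v ∈ FN n ↔ gV v ∈ FN n) (hE : ∀ e, e ∈ EN n ↔ σ e ∈ EN n)
    (F : Finset (Vx 2 × Fin 3)) (ξ : Vx 2 × Fin 3 → Fin 3) :
    Pq κ n (F.map σ.toEmbedding) ξ = Pq κ n F (fun e => ξ (σ e)) := by
  have hw := wk_ok κ hκ
  unfold Pq En
  rw [Eh_iso HH.gr (FN n) (FN n) (EN n) (EN n) (wk κ) hw gV σ hg hF hE]
  congr 1
  funext h
  rw [Finset.prod_map]
  refine Finset.prod_congr rfl fun e _ => ?_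
  show q3 (wk κ) (h (gV.symm (HH.gr.s (σ e)))) (h (gV.symm (HH.gr.r (σ e)))) (ξ (σ e)) = _
  rcases hg e with ⟨h1, h2⟩ | ⟨h1, h2⟩
  · rw [← h1, ← h2, Equiv.symm_apply_apply, Equiv.symm_apply_apply]
  · rw [← h1, ← h2, Equiv.symm_apply_apply, Equiv.symm_apply_apply, NU6_q3_symm _ hw]

set_option linter.unusedSimpArgs false

theorem NU6_swp_swp (z : Vx 2) : swp (swp z) = z := by
  ext i; fin_cases i <;> rfl

theorem NU6_sV1_inv (v : Vx 2 × Bool) : sV1 (sV1 v) = v := by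
  simp [sV1, NU6_swp_swp]

theorem NU6_fin3 (k : Fin 3) : k = 0 ∨ k = 1 ∨ k = 2 := by
  fin_cases k <;> simp

theorem NU6_sE1_inv (e : Vx 2 × Fin 3) : sE1 (sE1 e) = e := by
  obtain ⟨z, k⟩ := e
  rcases NU6_fin3 k with rfl | rfl | rfl <;> simp [sE1, NU6_swp_swp]

theorem NU6_e00 : (Pi.single 0 1 : Vx 2) 0 = 1 := by simp
theorem NU6_e01 : (Pi.single 0 1 : Vx 2) 1 = 0 := by simp
theorem NU6_e10 : (Pi.single 1 1 : Vx 2) 0 = 0 := by simp
theorem NU6_e11 : (Pi.single 1 1 : Vx 2) 1 = 1 := by simp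
theorem NU6_p2 {x y : Vx 2} (h0 : x 0 = y 0) (h1 : x 1 = y 1) : x = y := by
  funext i
  rcases (by fin_cases i <;> simp : i = 0 ∨ i = 1) with rfl | rfl
  · exact h0
  · exact h1

theorem NU6_sV2_inv (v : Vx 2 × Bool) : sV2 (sV2 v) = v := by
  obtain ⟨z, b⟩ := v
  refine Prod.ext (NU6_p2 ?_ ?_) rfl
  · show -(-z 0 - 1) - 1 = z 0
    ring
  · show -(-z 1 - 1) - 1 = z 1
    ring

theorem NU6_sE2_inv (e : Vx 2 × Fin 3) : sE2 (sE2 e) = e := by
  obtain ⟨z, k⟩ := e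
  rcases NU6_fin3 k with rfl | rfl | rfl
  · refine Prod.ext (NU6_p2 ?_ ?_) rfl
    · show -(-z 0 - (Pi.single 1 1 : Vx 2) 1) - (Pi.single 0 1 : Vx 2) 0 = z 0
      rw [NU6_e00, NU6_e11]; ring
    · show -(-z 1 - (Pi.single 1 1 : Vx 2) 0) - (Pi.single 0 1 : Vx 2) 1 = z 1
      rw [NU6_e01, NU6_e10]; ring
  · refine Prod.ext (NU6_p2 ?_ ?_) rfl
    · show -(-z 0 - (Pi.single 0 1 : Vx 2) 1) - (Pi.single 1 1 : Vx 2) 0 = z 0
      rw [NU6_e01, NU6_e10]; ring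
    · show -(-z 1 - (Pi.single 0 1 : Vx 2) 0) - (Pi.single 1 1 : Vx 2) 1 = z 1
      rw [NU6_e00, NU6_e11]; ring
  · refine Prod.ext (NU6_p2 ?_ ?_) rfl
    · show -(-z 0 - 1) - 1 = z 0
      ring
    · show -(-z 1 - 1) - 1 = z 1
      ring

def NU6_V1 : Vx 2 × Bool ≃ Vx 2 × Bool := ⟨sV1, sV1, NU6_sV1_inv, NU6_sV1_inv⟩
def NU6_E1 : Vx 2 × Fin 3 ≃ Vx 2 × Fin 3 := ⟨sE1, sE1, NU6_sE1_inv, NU6_sE1_inv⟩
def NU6_V2 : Vx 2 × Bool ≃ Vx 2 × Bool := ⟨sV2, sV2, NU6_sV2_inv, NU6_sV2_inv⟩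
def NU6_E2 : Vx 2 × Fin 3 ≃ Vx 2 × Fin 3 := ⟨sE2, sE2, NU6_sE2_inv, NU6_sE2_inv⟩

theorem NU6_a0 (x y : Vx 2) (i : Fin 2) : (x + y) i = x i + y i := rfl
theorem NU6_a1 (x y : Vx 2) (i : Fin 2) : (x - y) i = x i - y i := rfl
theorem NU6_a2 (x : Vx 2) (i : Fin 2) : (-x) i = -x i := rfl
theorem NU6_a3 (z : Vx 2) : swp z 0 = z 1 := rfl
theorem NU6_a4 (z : Vx 2) : swp z 1 = z 0 := rfl
theorem NU6_a5 (i : Fin 2) : (0 : Vx 2) i = 0 := rfl
theorem NU6_a6 (i : Fin 2) : (1 : Vx 2) i = 1 := rfl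

theorem NU6_g1 (e : Vx 2 × Fin 3) :
    sV1 (HH.gr.s e) = HH.gr.r (sE1 e) ∧ sV1 (HH.gr.r e) = HH.gr.s (sE1 e) := by
  obtain ⟨z, k⟩ := e
  rcases NU6_fin3 k with rfl | rfl | rfl
  · refine ⟨Prod.ext (show swp (z + 0) = swp z + 0 from NU6_p2 ?_ ?_) rfl,
      Prod.ext (show swp (z + -Pi.single 1 1) = swp z + -Pi.single 0 1 from NU6_p2 ?_ ?_) rfl⟩ <;>
    simp only [NU6_a0, NU6_a1, NU6_a2, NU6_a3, NU6_a4, NU6_a5, NU6_a6, NU6_e00, NU6_e01, NU6_e10, NU6_e11]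
  · refine ⟨Prod.ext (show swp (z + -Pi.single 0 1) = swp z + -Pi.single 1 1 from NU6_p2 ?_ ?_) rfl,
      Prod.ext (show swp (z + 0) = swp z + 0 from NU6_p2 ?_ ?_) rfl⟩ <;>
    simp only [NU6_a0, NU6_a1, NU6_a2, NU6_a3, NU6_a4, NU6_a5, NU6_a6, NU6_e00, NU6_e01, NU6_e10, NU6_e11]
  · refine ⟨Prod.ext (show swp (z + 0) = swp z + 0 from NU6_p2 ?_ ?_) rfl,
      Prod.ext (show swp (z + 0) = swp z + 0 from NU6_p2 ?_ ?_) rfl⟩ <;>
    simp only [NU6_a0, NU6_a1, NU6_a2, NU6_a3, NU6_a4, NU6_a5, NU6_a6, NU6_e00, NU6_e01, NU6_e10, NU6_e11]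

theorem NU6_g2 (e : Vx 2 × Fin 3) :
    sV2 (HH.gr.s e) = HH.gr.s (sE2 e) ∧ sV2 (HH.gr.r e) = HH.gr.r (sE2 e) := by
  obtain ⟨z, k⟩ := e
  rcases NU6_fin3 k with rfl | rfl | rfl
  · refine ⟨Prod.ext (show -swp (z + 0) - 1 = (-swp z - Pi.single 1 1) + -Pi.single 0 1
        from NU6_p2 ?_ ?_) rfl,
      Prod.ext (show -swp (z + -Pi.single 1 1) - 1 = (-swp z - Pi.single 1 1) + 0
        from NU6_p2 ?_ ?_) rfl⟩ <;>
    simp only [NU6_a0, NU6_a1, NU6_a2, NU6_a3, NU6_a4, NU6_a5, NU6_a6, NU6_e00, NU6_e01, NU6_e10, NU6_e11] <;> ring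
  · refine ⟨Prod.ext (show -swp (z + -Pi.single 0 1) - 1 = (-swp z - Pi.single 0 1) + 0
        from NU6_p2 ?_ ?_) rfl,
      Prod.ext (show -swp (z + 0) - 1 = (-swp z - Pi.single 0 1) + -Pi.single 1 1
        from NU6_p2 ?_ ?_) rfl⟩ <;>
    simp only [NU6_a0, NU6_a1, NU6_a2, NU6_a3, NU6_a4, NU6_a5, NU6_a6, NU6_e00, NU6_e01, NU6_e10, NU6_e11] <;> ring
  · refine ⟨Prod.ext (show -swp (z + 0) - 1 = (-swp z - 1) + 0
        from NU6_p2 ?_ ?_) rfl,
      Prod.ext (show -swp (z + 0) - 1 = (-swp z - 1) + 0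
        from NU6_p2 ?_ ?_) rfl⟩ <;>
    simp only [NU6_a0, NU6_a1, NU6_a2, NU6_a3, NU6_a4, NU6_a5, NU6_a6, NU6_e00, NU6_e01, NU6_e10, NU6_e11] <;> ring

theorem NU6_t1 (e : Vx 2 × Fin 3) : TT.r (sE1 e) = swp (TT.r e) := by
  obtain ⟨z, k⟩ := e
  rcases NU6_fin3 k with rfl | rfl | rfl
  · refine (show swp z + Pi.single 1 1 = swp (z + Pi.single 0 1) from NU6_p2 ?_ ?_) <;>
    simp only [NU6_a0, NU6_a1, NU6_a2, NU6_a3, NU6_a4, NU6_a5, NU6_a6, NU6_e00, NU6_e01, NU6_e10, NU6_e11]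
  · refine (show swp z + Pi.single 0 1 = swp (z + Pi.single 1 1) from NU6_p2 ?_ ?_) <;>
    simp only [NU6_a0, NU6_a1, NU6_a2, NU6_a3, NU6_a4, NU6_a5, NU6_a6, NU6_e00, NU6_e01, NU6_e10, NU6_e11]
  · refine (show swp z + (Pi.single 0 1 + Pi.single 1 1) = swp (z + (Pi.single 0 1 + Pi.single 1 1))
      from NU6_p2 ?_ ?_) <;>
    simp only [NU6_a0, NU6_a1, NU6_a2, NU6_a3, NU6_a4, NU6_a5, NU6_a6, NU6_e00, NU6_e01, NU6_e10, NU6_e11] <;> ring

theorem NU6_t2 (e : Vx 2 × Fin 3) : TT.s (sE2 e) = -swp (TT.r e) := by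
  obtain ⟨z, k⟩ := e
  rcases NU6_fin3 k with rfl | rfl | rfl
  · refine (show -swp z - Pi.single 1 1 = -swp (z + Pi.single 0 1) from NU6_p2 ?_ ?_) <;>
    simp only [NU6_a0, NU6_a1, NU6_a2, NU6_a3, NU6_a4, NU6_a5, NU6_a6, NU6_e00, NU6_e01, NU6_e10, NU6_e11] <;> ring
  · refine (show -swp z - Pi.single 0 1 = -swp (z + Pi.single 1 1) from NU6_p2 ?_ ?_) <;>
    simp only [NU6_a0, NU6_a1, NU6_a2, NU6_a3, NU6_a4, NU6_a5, NU6_a6, NU6_e00, NU6_e01, NU6_e10, NU6_e11] <;> ring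
  · refine (show -swp z - 1 = -swp (z + (Pi.single 0 1 + Pi.single 1 1))
      from NU6_p2 ?_ ?_) <;>
    simp only [NU6_a0, NU6_a1, NU6_a2, NU6_a3, NU6_a4, NU6_a5, NU6_a6, NU6_e00, NU6_e01, NU6_e10, NU6_e11] <;> ring

theorem NU6_t3 (e : Vx 2 × Fin 3) : TT.r (sE2 e) = -swp (TT.s e) := by
  obtain ⟨z, k⟩ := e
  rcases NU6_fin3 k with rfl | rfl | rfl
  · refine (show (-swp z - Pi.single 1 1) + Pi.single 1 1 = -swp z from ?_)
    abel
  · refine (show (-swp z - Pi.single 0 1) + Pi.single 0 1 = -swp z from ?_)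
    abel
  · refine (show (-swp z - 1) + (Pi.single 0 1 + Pi.single 1 1) = -swp z
      from NU6_p2 ?_ ?_) <;>
    simp only [NU6_a0, NU6_a1, NU6_a2, NU6_a3, NU6_a4, NU6_a5, NU6_a6, NU6_e00, NU6_e01, NU6_e10, NU6_e11] <;> ring

theorem nu_tip (κ C' : ℝ) (hκ : 0 < κ) (h1 : wk κ 0 ≤ 2 * wk κ 1)
    (hM : ∀ n : ℕ, ∀ i ∈ FN n, En (wk κ) n (fun h => (h i : ℝ) ^ 2) ≤ C')
    (ν : Measure (Vx 2 × Fin 3 → Fin 3)) [IsProbabilityMeasure ν] (hν : NuL κ ν) : TIP ν := by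
  apply tip_of_lc
  intro a X hX
  obtain ⟨F, hF⟩ := hX
  have hw := wk_ok κ hκ
  set σ : Vx 2 × Fin 3 ≃ Vx 2 × Fin 3 := ⟨fun e => (e.1 + a, e.2), fun e => (e.1 - a, e.2),
    fun e => by simp, fun e => by simp⟩ with hσ
  have hs : ∀ e, HH.gr.s (σ e) = ((HH.gr.s e).1 + a, (HH.gr.s e).2) := by
    intro e
    refine Prod.ext ?_ rfl
    show e.1 + a + HH.sv e.2 = e.1 + HH.sv e.2 + a
    abel
  have hr : ∀ e, HH.gr.r (σ e) = ((HH.gr.r e).1 + a, (HH.gr.r e).2) := by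
    intro e
    refine Prod.ext ?_ rfl
    show e.1 + a + HH.rv e.2 = e.1 + HH.rv e.2 + a
    abel
  set Q : ℕ → Finset (Vx 2 × Fin 3) → (Vx 2 × Fin 3 → Fin 3) → ℝ := fun n F ξ =>
    En (wk κ) n (fun h => ∏ e ∈ F, q3 (wk κ) (h ((HH.gr.s e).1 + a, (HH.gr.s e).2))
      (h ((HH.gr.r e).1 + a, (HH.gr.r e).2)) (ξ e)) with hQdef
  have hQ : ∀ n, ∀ ξ ξ' : Vx 2 × Fin 3 → Fin 3, (∀ e ∈ F, ξ e = ξ' e) → Q n F ξ = Q n F ξ' := by
    intro n ξ ξ' h
    simp only [hQdef]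
    congr 1
    funext g
    exact Finset.prod_congr rfl (fun e he => by rw [h e he])
  have hPQ : ∀ n ξ, Pq κ n (F.map σ.toEmbedding) ξ =
      Q n F (fun e => (Equiv.refl (Fin 3)) (ξ (σ e))) := by
    intro n ξ
    simp only [hQdef]
    unfold Pq
    congr 1
    funext h
    rw [Finset.prod_map]
    refine Finset.prod_congr rfl fun e _ => ?_
    show q3 (wk κ) (h (HH.gr.s (σ e))) (h (HH.gr.r (σ e))) (ξ (σ e)) = _
    rw [hs, hr]
    rfl
  have hlim : ∀ ξ : Vx 2 × Fin 3 → Fin 3, ∃ ℓ : ℝ, Tendsto (fun n => Pq κ n F ξ) atTop (𝓝 ℓ) ∧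
      Tendsto (fun n => Q n F ξ) atTop (𝓝 ℓ) := by
    intro ξ
    obtain ⟨ℓ, hℓ, hℓ'⟩ := lih κ C' hκ hM (F.image HH.gr.s ∪ F.image HH.gr.r)
      (fun h => ∏ e ∈ F, q3 (wk κ) (h (HH.gr.s e)) (h (HH.gr.r e)) (ξ e)) (by
        intro h h' hh
        refine Finset.prod_congr rfl (fun e he => ?_)
        rw [hh _ (Finset.mem_union_left _ (Finset.mem_image_of_mem _ he)),
          hh _ (Finset.mem_union_right _ (Finset.mem_image_of_mem _ he))])
      (fun h => (NU0_prod (wk κ) hw h1 F ξ h).2)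
    exact ⟨ℓ, hℓ, hℓ' a⟩
  choose ℓ hℓ hℓ' using hlim
  have hL : Tendsto (fun n => PX (Pq κ n) F X) atTop
      (𝓝 (∑ ζ : ↥F → Fin 3, ind (gl F ζ ∈ X) * ℓ (gl F ζ))) := by
    unfold PX
    exact tendsto_finsetSum _ (fun ζ _ => (hℓ (gl F ζ)).const_mul _)
  have hL' : Tendsto (fun n => PX (Q n) F X) atTop
      (𝓝 (∑ ζ : ↥F → Fin 3, ind (gl F ζ ∈ X) * ℓ (gl F ζ))) := by
    unfold PX
    exact tendsto_finsetSum _ (fun ζ _ => (hℓ' (gl F ζ)).const_mul _)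
  have h2 := hν F X hF
  have h3 := hν (F.map σ.toEmbedding) _ (NU6_locX σ (Equiv.refl _) F X hF)
  have h4 : (fun n => PX (Pq κ n) (F.map σ.toEmbedding)
      {η : Vx 2 × Fin 3 → Fin 3 | (fun e => (Equiv.refl (Fin 3)) (η (σ e))) ∈ X}) =
      fun n => PX (Q n) F X := by
    funext n
    exact NU6_PX σ (Equiv.refl _) (Pq κ n) (Q n) F X hF (hQ n) (hPQ n)
  rw [h4] at h3
  have h5 := tendsto_nhds_unique h3 hL'
  have h6 := tendsto_nhds_unique h2 hL
  rw [h6, ← h5]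
  rfl

theorem nu_s1 (κ : ℝ) (hκ : 0 < κ) (h1 : wk κ 0 ≤ 2 * wk κ 1)
    (ν : Measure (Vx 2 × Fin 3 → Fin 3)) [IsProbabilityMeasure ν] (hν : NuL κ ν)
    (X : Set (Vx 2 × Fin 3 → Fin 3)) (hX : MeasurableSet X) : ν.real {η | η ∘ sE1 ∈ X} = ν.real X := by
  refine NU6_ext ν sE1 id (fun Y hY => ?_) X hX
  refine NU6_lc0 κ ν hν NU6_E1 (Equiv.refl _) (fun n F ξ => ?_) Y hY
  refine NU6_iso κ hκ NU6_V1 NU6_E1 (fun e => Or.inr (NU6_g1 e)) n ?_ ?_ F ξ
  · intro v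
    rw [mem_FN, mem_FN, Fin.forall_fin_two, Fin.forall_fin_two]
    show _ ↔ (-(n : ℤ) ≤ v.1 1 ∧ v.1 1 < n) ∧ (-(n : ℤ) ≤ v.1 0 ∧ v.1 0 < n)
    tauto
  · intro e
    rw [mem_EN, mem_EN]
    have h2 : ∀ z : Vx 2, z ∈ bx 2 n ↔ swp z ∈ bx 2 n := by
      intro z
      simp only [bx, Fintype.mem_piFinset, Fin.forall_fin_two, Finset.mem_Icc]
      show _ ↔ (-(n : ℤ) ≤ z 1 ∧ z 1 ≤ n) ∧ (-(n : ℤ) ≤ z 0 ∧ z 0 ≤ n)
      tauto
    have h3 : TT.s (sE1 e) = swp (TT.s e) := rfl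
    have h4 : TT.r (sE1 e) = swp (TT.r e) := NU6_t1 e
    show _ ↔ TT.s (sE1 e) ∈ bx 2 n ∧ TT.r (sE1 e) ∈ bx 2 n
    rw [h3, h4, ← h2, ← h2]

theorem nu_s2 (κ : ℝ) (hκ : 0 < κ) (h1 : wk κ 0 ≤ 2 * wk κ 1)
    (ν : Measure (Vx 2 × Fin 3 → Fin 3)) [IsProbabilityMeasure ν] (hν : NuL κ ν)
    (X : Set (Vx 2 × Fin 3 → Fin 3)) (hX : MeasurableSet X) : ν.real {η | η ∘ sE2 ∈ X} = ν.real X := by
  refine NU6_ext ν sE2 id (fun Y hY => ?_) X hX
  refine NU6_lc0 κ ν hν NU6_E2 (Equiv.refl _) (fun n F ξ => ?_) Y hY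
  refine NU6_iso κ hκ NU6_V2 NU6_E2 (fun e => Or.inl (NU6_g2 e)) n ?_ ?_ F ξ
  · intro v
    rw [mem_FN, mem_FN, Fin.forall_fin_two, Fin.forall_fin_two]
    show _ ↔ (-(n : ℤ) ≤ -v.1 1 - 1 ∧ -v.1 1 - 1 < n) ∧ (-(n : ℤ) ≤ -v.1 0 - 1 ∧ -v.1 0 - 1 < n)
    omega
  · intro e
    rw [mem_EN, mem_EN]
    have h2 : ∀ z : Vx 2, z ∈ bx 2 n ↔ -swp z ∈ bx 2 n := by
      intro z
      simp only [bx, Fintype.mem_piFinset, Fin.forall_fin_two, Finset.mem_Icc]
      show _ ↔ (-(n : ℤ) ≤ -z 1 ∧ -z 1 ≤ n) ∧ (-(n : ℤ) ≤ -z 0 ∧ -z 0 ≤ n)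
      omega
    have h3 : TT.s (sE2 e) = -swp (TT.r e) := NU6_t2 e
    have h4 : TT.r (sE2 e) = -swp (TT.s e) := NU6_t3 e
    show _ ↔ TT.s (sE2 e) ∈ bx 2 n ∧ TT.r (sE2 e) ∈ bx 2 n
    rw [h3, h4, ← h2, ← h2]
    exact and_comm

theorem nu_fl (κ : ℝ) (hκ : 0 < κ) (h1 : wk κ 0 ≤ 2 * wk κ 1)
    (ν : Measure (Vx 2 × Fin 3 → Fin 3)) [IsProbabilityMeasure ν] (hν : NuL κ ν)
    (X : Set (Vx 2 × Fin 3 → Fin 3)) (hX : MeasurableSet X) : ν.real {η | fl3 ∘ η ∈ X} = ν.real X := by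
  have hw := wk_ok κ hκ
  have hinv : ∀ i, fl3 (fl3 i) = i := by decide
  refine NU6_ext ν id fl3 (fun Y hY => ?_) X hX
  refine NU6_lc0 κ ν hν (Equiv.refl _) ⟨fl3, fl3, hinv, hinv⟩ (fun n F ξ => ?_) Y hY
  have h2 : F.map (Equiv.refl (Vx 2 × Fin 3)).toEmbedding = F := by
    ext e; simp
  rw [h2]
  unfold Pq En
  rw [← Eh_neg HH.gr (FN n) (EN n) (wk κ) hw]
  congr 1
  funext h
  refine Finset.prod_congr rfl fun e _ => ?_
  exact NU6_q3_neg (wk κ) _ _ _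

end H82.BX

end S_H82_BX_NU6
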