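import Mathlib
import Pool.Agent.H82.BXM.G04
import Pool.Agent.H82.BXM.G08
import Pool.Agent.H82.BXM.G12

/-! MP_26628e_mp: this file joins several modules to save build time. -/

section S_H82_BX_MOM

/-!
# MOM: second moments of the heights under exponential decay

Hypothesis `hED`: the box correlations are `≤ C exp(-a nm (bp p - bp q))` for all `n, p, q` (`C ≥ 0`: take `p = q`).
`du_two`, `ssn` with `p, p'` the ends of the link `(e,0)` (base points `e.1`, both: `bp (inl (TT.s e)) = e.1`, `bp (inr (e,0)) = e.1`): for `e ≠ e'`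
`|En (dh e dh e')| ≤ 4 κ² C exp(-a nm (e.1 - e'.1))`.
For `i`, `j` in `FN n` with `i.1 0 < j.1 0`, or `i = j`: `h i` by `left_path`, `h j` by `right_path` (heights are `0` outside): the edges `(x, i.1 1; k)` with `x ≤ i.1 0` and `(x', j.1 1; k')` with `x' ≥ j.1 0` are different
(if `i.1 0 < j.1 0` by `x < x'`; for `i = j`: `left_path` uses `(a;1)` and, for lower triangles, `(a;2)`; `right_path` uses `(a;2)` only for upper triangles, and `x' > a`).  Edges of the row not in `EN n` contribute `0`.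
`|En (h_i h_j)| ≤ 4 κ² C ∑_{x ≤ i0} ∑_{x' ≥ j0} 4 exp(-a (x' - x)) ≤ C' exp(-a (j0 - i0))`, `C' = 16 κ² C/(1-e^{-a})²`.
-/

set_option autoImplicit false

open Finset MeasureTheory

namespace H82.BX

open H82.IC XYB

/-- edge types 1 and 2. -/
private def mty : Fin 2 → Fin 3 := ![1, 2]

private theorem mty_inj {k k' : Fin 2} (h : mty k = mty k') : k = k' := by
  revert h; revert k k'; decide

/-- coefficients of the path to the left. -/
private noncomputable def mcL (i : Vx 2 × Bool) (x : ℤ) (k : Fin 2) : ℝ :=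
  if x ≤ i.1 0 then (if k = 1 ∧ i.2 = true ∧ x = i.1 0 then 0 else -1) else 0

/-- coefficients of the path to the right. -/
private noncomputable def mcR (j : Vx 2 × Bool) (x : ℤ) (k : Fin 2) : ℝ :=
  if j.1 0 < x then 1 else if k = 1 ∧ j.2 = true ∧ x = j.1 0 then 1 else 0

private theorem left_sum (n : ℕ) (h : Vx 2 × Bool → ℤ) (h0 : ∀ v, v ∉ FN n → h v = 0)
    (i : Vx 2 × Bool) (hi : i ∈ FN n) :
    (h i : ℝ) = ∑ x ∈ Icc (-(n : ℤ)) n, ∑ k : Fin 2, mcL i x k * (dh h (![x, i.1 1], mty k) : ℝ) := by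
  have hin := (mem_FN n i).1 hi 0
  rw [left_path n h h0 i hi]
  push_cast
  rw [← Finset.sum_neg_distrib]
  have hsub : Icc (-(n : ℤ)) (i.1 0) ⊆ Icc (-(n : ℤ)) n := by
    intro x hx
    rw [Finset.mem_Icc] at hx ⊢
    omega
  rw [← Finset.sum_subset hsub (f := fun x => ∑ k : Fin 2, mcL i x k * (dh h (![x, i.1 1], mty k) : ℝ))]
  · refine Finset.sum_congr rfl fun x hx => ?_
    rw [Finset.mem_Icc] at hx
    rw [Fin.sum_univ_two]
    simp only [mcL, hx.2, if_true, mty]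
    by_cases hc : i.2 = true ∧ x = i.1 0
    · simp [hc]
    · rw [if_neg hc]
      simp only [hc, and_false, if_false]
      simp
      ring
  · intro x hx hx'
    rw [Finset.mem_Icc] at hx hx'
    have : ¬ x ≤ i.1 0 := by omega
    simp [mcL, this]

private theorem right_sum (n : ℕ) (h : Vx 2 × Bool → ℤ) (h0 : ∀ v, v ∉ FN n → h v = 0)
    (j : Vx 2 × Bool) (hj : j ∈ FN n) :
    (h j : ℝ) = ∑ x ∈ Icc (-(n : ℤ)) n, ∑ k : Fin 2, mcR j x k * (dh h (![x, j.1 1], mty k) : ℝ) := by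
  have hin := (mem_FN n j).1 hj 0
  rw [right_path n h h0 j hj]
  push_cast
  have hsplit : Icc (-(n : ℤ)) n = Ico (-(n : ℤ)) (j.1 0) ∪ ({j.1 0} ∪ Ioc (j.1 0) n) := by
    ext x
    simp only [Finset.mem_Icc, Finset.mem_union, Finset.mem_Ico, Finset.mem_singleton, Finset.mem_Ioc]
    omega
  have hd1 : Disjoint (Ico (-(n : ℤ)) (j.1 0)) ({j.1 0} ∪ Ioc (j.1 0) (n : ℤ)) := by
    rw [Finset.disjoint_left]
    intro x
    simp only [Finset.mem_union, Finset.mem_Ico, Finset.mem_singleton, Finset.mem_Ioc]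
    omega
  have hd2 : Disjoint ({j.1 0} : Finset ℤ) (Ioc (j.1 0) (n : ℤ)) := by
    rw [Finset.disjoint_left]
    intro x
    simp only [Finset.mem_singleton, Finset.mem_Ioc]
    omega
  rw [hsplit, Finset.sum_union hd1, Finset.sum_union hd2, Finset.sum_singleton]
  have hv : j.1 = ![j.1 0, j.1 1] := by
    funext t; fin_cases t <;> rfl
  have h1 : ∑ x ∈ Ico (-(n : ℤ)) (j.1 0), ∑ k : Fin 2, mcR j x k * (dh h (![x, j.1 1], mty k) : ℝ) = 0 := by
    refine Finset.sum_eq_zero fun x hx => Finset.sum_eq_zero fun k _ => ?_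
    rw [Finset.mem_Ico] at hx
    have e1 : ¬ (j.1 0 < x) := by omega
    have e2 : ¬ (k = 1 ∧ j.2 = true ∧ x = j.1 0) := by
      rintro ⟨-, -, h⟩; omega
    simp [mcR, e1, e2]
  have h2 : ∑ x ∈ Ioc (j.1 0) (n : ℤ), ∑ k : Fin 2, mcR j x k * (dh h (![x, j.1 1], mty k) : ℝ) =
      ∑ x ∈ Ioc (j.1 0) (n : ℤ), ((dh h (![x, j.1 1], 1) : ℝ) + (dh h (![x, j.1 1], 2) : ℝ)) := by
    refine Finset.sum_congr rfl fun x hx => ?_
    rw [Finset.mem_Ioc] at hx
    rw [Fin.sum_univ_two]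
    simp [mcR, hx.1, mty]
  have h3 : ∑ k : Fin 2, mcR j (j.1 0) k * (dh h (![j.1 0, j.1 1], mty k) : ℝ) =
      if j.2 = true then (dh h (j.1, 2) : ℝ) else 0 := by
    rw [Fin.sum_univ_two, ← hv]
    by_cases hc : j.2 = true
    · simp [mcR, hc, mty]
    · simp [mcR, hc]
  rw [h1, h2, h3]
  by_cases hc : j.2 = true
  · simp only [hc, if_true]; ring
  · simp only [hc]; ring

private theorem abs_mcL (i : Vx 2 × Bool) (x : ℤ) (k : Fin 2) :
    |mcL i x k| ≤ if x ≤ i.1 0 then 1 else 0 := by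
  unfold mcL
  split_ifs <;> simp

private theorem abs_mcR (j : Vx 2 × Bool) (x : ℤ) (k : Fin 2) :
    |mcR j x k| ≤ if j.1 0 ≤ x then 1 else 0 := by
  unfold mcR
  split_ifs with h1 h2 h3 h4 h5 <;> first | (exfalso; omega) | simp

private theorem PBd_dh (F : Finset (Vx 2 × Bool)) (e : Vx 2 × Fin 3) :
    PBd F (fun h => (dh h e : ℝ)) := by
  have : (fun h : Vx 2 × Bool → ℤ => (dh h e : ℝ)) =
      fun h => (h (HH.gr.s e) : ℝ) + (-1) * (h (HH.gr.r e) : ℝ) := by
    funext h; unfold dh; push_cast; ring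
  rw [this]
  exact PBd_add F _ _ (PBd_h F _) (PBd_smul F (-1) _ (PBd_h F _))

private theorem gE_cc_le (n : ℕ) (κ C a : ℝ)
    (hED : ∀ (n : ℕ) (p q : ↥(bx 2 n) ⊕ (↥(EN n) × Fin 5)),
      gE (hG (C6 (TB n)) (fun _ => κ)) (fun θ => cosC (θ p) * cosC (θ q)) ≤
        C * Real.exp (-a * nm (bp p - bp q))) (p q : ↥(bx 2 n) ⊕ (↥(EN n) × Fin 5))
    (u v : Vx 2) (hp : bp p = u) (hq : bp q = v) :
    gE (hG (C6 (TB n)) (fun _ => κ)) (fun θ => cosC (θ p) * cosC (θ q)) ≤
        (max C 0) * Real.exp (-a * nm (u - v)) := by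
  refine (hED n p q).trans ?_
  rw [hp, hq]
  exact mul_le_mul_of_nonneg_right (le_max_left _ _) (Real.exp_pos _).le

private theorem c2_bound (κ C a : ℝ) (hκ : 0 < κ) 
    (hED : ∀ (n : ℕ) (p q : ↥(bx 2 n) ⊕ (↥(EN n) × Fin 5)),
      gE (hG (C6 (TB n)) (fun _ => κ)) (fun θ => cosC (θ p) * cosC (θ q)) ≤
        C * Real.exp (-a * nm (bp p - bp q))) (n : ℕ) (e e' : Vx 2 × Fin 3) (hne : e ≠ e') :
    |En (wk κ) n (fun h => (dh h e : ℝ) * (dh h e' : ℝ))| ≤
      (4 * κ ^ 2 * max C 0) * Real.exp (-a * nm (e.1 - e'.1)) := by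
  have hK : 0 ≤ (4 * κ ^ 2 * max C 0) * Real.exp (-a * nm (e.1 - e'.1)) := by positivity
  have hzero : ∀ e : Vx 2 × Fin 3, e ∉ EN n → ∀ h : ↥(FN n) → ℤ, dh (ex h) e = 0 := by
    intro e he h
    have hb := (FN_Bd n).mem e
    have h1 : HH.gr.s e ∉ FN n := fun hh => he (hb.2 (Or.inl hh))
    have h2 : HH.gr.r e ∉ FN n := fun hh => he (hb.2 (Or.inr hh))
    simp [dh, ex, h1, h2]
  by_cases he : e ∈ EN n
  · by_cases he' : e' ∈ EN n
    · have hne' : (⟨e, he⟩ : ↥(EN n)) ≠ ⟨e', he'⟩ := by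
        intro hh; exact hne (congrArg Subtype.val hh)
      rw [du_two n κ hκ ⟨e, he⟩ ⟨e', he'⟩ hne']
      have hs := ssn (C6 (TB n)) (fun _ => κ) (fun _ => hκ.le)
        ((C6 (TB n)).r (⟨e, he⟩, 0)) ((C6 (TB n)).s (⟨e, he⟩, 0))
        ((C6 (TB n)).r (⟨e', he'⟩, 0)) ((C6 (TB n)).s (⟨e', he'⟩, 0))
      have b1 : bp ((C6 (TB n)).r (⟨e, he⟩, 0)) = e.1 := rfl
      have b2 : bp ((C6 (TB n)).s (⟨e, he⟩, 0)) = e.1 := rfl
      have b3 : bp ((C6 (TB n)).r (⟨e', he'⟩, 0)) = e'.1 := rfl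
      have b4 : bp ((C6 (TB n)).s (⟨e', he'⟩, 0)) = e'.1 := rfl
      have g1 := gE_cc_le n κ C a hED _ _ _ _ b1 b3
      have g2 := gE_cc_le n κ C a hED _ _ _ _ b1 b4
      have g3 := gE_cc_le n κ C a hED _ _ _ _ b2 b3
      have g4 := gE_cc_le n κ C a hED _ _ _ _ b2 b4
      rw [abs_mul, abs_neg, abs_of_nonneg (sq_nonneg κ)]
      calc _ ≤ κ ^ 2 * (4 * ((max C 0) * Real.exp (-a * nm (e.1 - e'.1)))) := by
            refine mul_le_mul_of_nonneg_left ?_ (sq_nonneg κ)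
            linarith
        _ = _ := by ring
    · have : En (wk κ) n (fun h => (dh h e : ℝ) * (dh h e' : ℝ)) = 0 := by
        unfold En
        rw [Eh_congr HH.gr (FN n) (EN n) (wk κ) _ (fun _ => 0)]
        · simp [Eh]
        · intro h; simp [hzero e' he' h]
      rw [this, abs_zero]; exact hK
  · have : En (wk κ) n (fun h => (dh h e : ℝ) * (dh h e' : ℝ)) = 0 := by
      unfold En
      rw [Eh_congr HH.gr (FN n) (EN n) (wk κ) _ (fun _ => 0)]
      · simp [Eh]
      · intro h; simp [hzero e he h]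
    rw [this, abs_zero]; exact hK

private theorem geo_sum (a : ℝ) (ha : 0 < a) (S : Finset ℤ) (φ : ℤ → ℤ) (hφ : ∀ x y, φ x = φ y → x = y) :
    ∑ x ∈ S, (if 0 ≤ φ x then Real.exp (-a * (φ x : ℝ)) else 0) ≤ (1 - Real.exp (-a))⁻¹ := by
  have hr0 : 0 ≤ Real.exp (-a) := (Real.exp_pos _).le
  have hr1 : Real.exp (-a) < 1 := by
    rw [Real.exp_lt_one_iff]; linarith
  rw [← Finset.sum_filter]
  have h1 : ∑ x ∈ S.filter (fun x => 0 ≤ φ x), Real.exp (-a * (φ x : ℝ)) =
      ∑ m ∈ (S.filter (fun x => 0 ≤ φ x)).image (fun x => (φ x).toNat), Real.exp (-a) ^ m := by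
    rw [Finset.sum_image]
    · refine Finset.sum_congr rfl fun x hx => ?_
      have hx0 : 0 ≤ φ x := (Finset.mem_filter.1 hx).2
      rw [← Real.exp_nat_mul]
      congr 1
      have : ((φ x).toNat : ℝ) = (φ x : ℝ) := by
        exact_mod_cast Int.toNat_of_nonneg hx0
      rw [this]; ring
    · intro x hx y hy hxy
      have hx0 : 0 ≤ φ x := (Finset.mem_filter.1 hx).2
      have hy0 : 0 ≤ φ y := (Finset.mem_filter.1 hy).2
      refine hφ x y ?_
      have := congrArg (fun m : ℕ => (m : ℤ)) hxy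
      simp only [Int.toNat_of_nonneg hx0, Int.toNat_of_nonneg hy0] at this
      exact this
  rw [h1, ← tsum_geometric_of_lt_one hr0 hr1]
  exact (summable_geometric_of_lt_one hr0 hr1).sum_le_tsum _ (fun m _ => pow_nonneg hr0 m)

private theorem main_bound (κ C a : ℝ) (hκ : 0 < κ) (ha : 0 < a)
    (hED : ∀ (n : ℕ) (p q : ↥(bx 2 n) ⊕ (↥(EN n) × Fin 5)),
      gE (hG (C6 (TB n)) (fun _ => κ)) (fun θ => cosC (θ p) * cosC (θ q)) ≤
        C * Real.exp (-a * nm (bp p - bp q))) (n : ℕ) (i j : Vx 2 × Bool) (hi : i ∈ FN n)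
    (hj : j ∈ FN n) (hij : i.1 0 < j.1 0 ∨ i = j) :
    |En (wk κ) n (fun h => (h i : ℝ) * (h j : ℝ))| ≤
      4 * (4 * κ ^ 2 * max C 0) * ((1 - Real.exp (-a))⁻¹) ^ 2 * Real.exp (-a * (j.1 0 - i.1 0 : ℤ)) := by
  have hw := wk_ok κ hκ
  have hB := FN_Bd n
  set K : ℝ := 4 * κ ^ 2 * max C 0 with hK
  have hK0 : 0 ≤ K := by positivity
  have hij0 : i.1 0 ≤ j.1 0 := by
    rcases hij with h | h
    · exact h.le
    · rw [h]
  have hexp : En (wk κ) n (fun h => (h i : ℝ) * (h j : ℝ)) =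
      ∑ x ∈ Icc (-(n : ℤ)) n, ∑ k : Fin 2, ∑ x' ∈ Icc (-(n : ℤ)) n, ∑ k' : Fin 2,
        (mcL i x k * mcR j x' k') *
          En (wk κ) n (fun h => (dh h (![x, i.1 1], mty k) : ℝ) * (dh h (![x', j.1 1], mty k') : ℝ)) := by
    unfold En
    have hc : Eh HH.gr (FN n) (EN n) (wk κ) (fun h => (h i : ℝ) * (h j : ℝ)) =
        Eh HH.gr (FN n) (EN n) (wk κ) (fun h =>
          ∑ x ∈ Icc (-(n : ℤ)) n, ∑ k : Fin 2, ∑ x' ∈ Icc (-(n : ℤ)) n, ∑ k' : Fin 2,
            (mcL i x k * mcR j x' k') *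
              ((dh h (![x, i.1 1], mty k) : ℝ) * (dh h (![x', j.1 1], mty k') : ℝ))) := by
      refine Eh_congr _ _ _ _ _ _ fun h => ?_
      have h0 : ∀ v, v ∉ FN n → (ex h) v = 0 := by
        intro v hv; simp [ex, hv]
      rw [left_sum n (ex h) h0 i hi, right_sum n (ex h) h0 j hj]
      rw [Finset.sum_mul]
      refine Finset.sum_congr rfl fun x _ => ?_
      rw [Finset.sum_mul]
      refine Finset.sum_congr rfl fun k _ => ?_
      rw [Finset.mul_sum]
      refine Finset.sum_congr rfl fun x' _ => ?_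
      rw [Finset.mul_sum]
      refine Finset.sum_congr rfl fun k' _ => ?_
      ring
    rw [hc]
    have hP0 : ∀ x k x' k', PBd (FN n) (fun h => (mcL i x k * mcR j x' k') *
              ((dh h (![x, i.1 1], mty k) : ℝ) * (dh h (![x', j.1 1], mty k') : ℝ))) := by
      intro x k x' k'
      exact PBd_smul _ _ _ (PBd_mul _ _ _ (PBd_dh _ _) (PBd_dh _ _))
    have hPs : ∀ {ι : Type} (s : Finset ι) (g : ι → (Vx 2 × Bool → ℤ) → ℝ),
        (∀ i ∈ s, PBd (FN n) (g i)) → PBd (FN n) (fun h => ∑ i ∈ s, g i h) := by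
      classical
      intro ι s g
      induction s using Finset.induction_on with
      | empty =>
        intro _
        simp only [Finset.sum_empty]
        exact PBd_bdd _ _ 0 (by intro h; simp)
      | insert b t hb ih =>
        intro hg
        have : (fun h : Vx 2 × Bool → ℤ => ∑ i ∈ insert b t, g i h) =
            fun h => g b h + ∑ i ∈ t, g i h := by
          funext h; rw [Finset.sum_insert hb]
        rw [this]
        exact PBd_add _ _ _ (hg b (Finset.mem_insert_self _ _))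
          (ih fun i hi => hg i (Finset.mem_insert_of_mem hi))
    rw [Eh_sum HH.gr (FN n) (EN n) hB (wk κ) hw _ _
      (fun x _ => hPs _ _ fun k _ => hPs _ _ fun x' _ => hPs _ _ fun k' _ => hP0 x k x' k')]
    refine Finset.sum_congr rfl fun x _ => ?_
    rw [Eh_sum HH.gr (FN n) (EN n) hB (wk κ) hw _ _
      (fun k _ => hPs _ _ fun x' _ => hPs _ _ fun k' _ => hP0 x k x' k')]
    refine Finset.sum_congr rfl fun k _ => ?_
    rw [Eh_sum HH.gr (FN n) (EN n) hB (wk κ) hw _ _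
      (fun x' _ => hPs _ _ fun k' _ => hP0 x k x' k')]
    refine Finset.sum_congr rfl fun x' _ => ?_
    rw [Eh_sum HH.gr (FN n) (EN n) hB (wk κ) hw _ _
      (fun k' _ => hP0 x k x' k')]
    refine Finset.sum_congr rfl fun k' _ => ?_
    rw [Eh_smul]
  rw [hexp]
  set L : ℤ → ℝ := fun x => if 0 ≤ i.1 0 - x then Real.exp (-a * ((i.1 0 - x : ℤ) : ℝ)) else 0 with hL
  set R : ℤ → ℝ := fun x => if 0 ≤ x - j.1 0 then Real.exp (-a * ((x - j.1 0 : ℤ) : ℝ)) else 0 with hR
  have hterm : ∀ x k x' k', |(mcL i x k * mcR j x' k') *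
          En (wk κ) n (fun h => (dh h (![x, i.1 1], mty k) : ℝ) * (dh h (![x', j.1 1], mty k') : ℝ))| ≤
      K * Real.exp (-a * (j.1 0 - i.1 0 : ℤ)) * (L x * R x') := by
    intro x k x' k'
    have hL0 : 0 ≤ L x := by
      rw [hL]; dsimp only; split_ifs <;> positivity
    have hR0 : 0 ≤ R x' := by
      rw [hR]; dsimp only; split_ifs <;> positivity
    have hrhs : 0 ≤ K * Real.exp (-a * (j.1 0 - i.1 0 : ℤ)) * (L x * R x') := by positivity
    by_cases hz : mcL i x k * mcR j x' k' = 0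
    · rw [hz, zero_mul, abs_zero]; exact hrhs
    · have hz1 : mcL i x k ≠ 0 := left_ne_zero_of_mul hz
      have hz2 : mcR j x' k' ≠ 0 := right_ne_zero_of_mul hz
      have hx : x ≤ i.1 0 := by
        by_contra hc
        exact hz1 (by simp [mcL, hc])
      have hx' : j.1 0 ≤ x' := by
        by_contra hc
        refine hz2 ?_
        have e1 : ¬ (j.1 0 < x') := by omega
        have e2 : ¬ (k' = 1 ∧ j.2 = true ∧ x' = j.1 0) := by
          rintro ⟨-, -, h⟩; omega
        simp [mcR, e1, e2]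
      have hne : ((![x, i.1 1], mty k) : Vx 2 × Fin 3) ≠ (![x', j.1 1], mty k') := by
        intro hh
        have h1 : x = x' := by
          have := congrArg (fun p : Vx 2 × Fin 3 => p.1 0) hh
          simpa using this
        have h2 : k = k' := mty_inj (congrArg Prod.snd hh)
        rcases hij with hlt | heq
        · omega
        · subst heq
          subst h1
          subst h2
          have hxi : x = i.1 0 := le_antisymm hx hx'
          by_cases hc : k = 1 ∧ i.2 = true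
          · exact hz1 (by simp [mcL, hxi, hc.1, hc.2])
          · refine hz2 ?_
            have e1 : ¬ (i.1 0 < x) := by omega
            have e2 : ¬ (k = 1 ∧ i.2 = true ∧ x = i.1 0) := by tauto
            simp [mcR, e1, e2]
      have hb := c2_bound κ C a hκ hED n _ _ hne
      have hnm : ((x' - x : ℤ) : ℝ) ≤ (nm ((![x, i.1 1] : Vx 2) - ![x', j.1 1]) : ℝ) := by
        have : (x' - x) ≤ ((nm ((![x, i.1 1] : Vx 2) - ![x', j.1 1]) : ℕ) : ℤ) := by
          have h1 : (((![x, i.1 1] : Vx 2) - ![x', j.1 1]) 0).natAbs ≤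
              nm ((![x, i.1 1] : Vx 2) - ![x', j.1 1]) := by
            unfold nm
            exact Finset.le_sup (f := fun i => (((![x, _] : Vx 2) - ![x', _]) i).natAbs) (Finset.mem_univ 0)
          have h2 : ((![x, i.1 1] : Vx 2) - ![x', j.1 1]) 0 = x - x' := by simp
          rw [h2] at h1
          omega
        exact_mod_cast this
      have hLx : L x = Real.exp (-a * ((i.1 0 - x : ℤ) : ℝ)) := by
        rw [hL]; dsimp only; rw [if_pos (by omega)]
      have hRx : R x' = Real.exp (-a * ((x' - j.1 0 : ℤ) : ℝ)) := by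
        rw [hR]; dsimp only; rw [if_pos (by omega)]
      rw [abs_mul, abs_mul]
      have ha1 : |mcL i x k| ≤ 1 := by
        have := abs_mcL i x k
        rwa [if_pos hx] at this
      have ha2 : |mcR j x' k'| ≤ 1 := by
        have := abs_mcR j x' k'
        rwa [if_pos hx'] at this
      calc |mcL i x k| * |mcR j x' k'| * |En (wk κ) n (fun h => (dh h (![x, i.1 1], mty k) : ℝ) *
              (dh h (![x', j.1 1], mty k') : ℝ))|
          ≤ 1 * 1 * (K * Real.exp (-a * nm ((![x, i.1 1] : Vx 2) - ![x', j.1 1]))) := by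
            refine mul_le_mul (mul_le_mul ha1 ha2 (abs_nonneg _) zero_le_one) hb (abs_nonneg _) (by norm_num)
        _ ≤ K * Real.exp (-a * ((x' - x : ℤ) : ℝ)) := by
            rw [one_mul, one_mul]
            refine mul_le_mul_of_nonneg_left (Real.exp_le_exp.2 ?_) hK0
            nlinarith
        _ = K * Real.exp (-a * (j.1 0 - i.1 0 : ℤ)) * (L x * R x') := by
            rw [hLx, hRx, mul_assoc K, ← Real.exp_add, ← Real.exp_add]
            congr 2
            push_cast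
            ring
  have hsum : |∑ x ∈ Icc (-(n : ℤ)) n, ∑ k : Fin 2, ∑ x' ∈ Icc (-(n : ℤ)) n, ∑ k' : Fin 2,
        (mcL i x k * mcR j x' k') *
          En (wk κ) n (fun h => (dh h (![x, i.1 1], mty k) : ℝ) * (dh h (![x', j.1 1], mty k') : ℝ))| ≤
      ∑ x ∈ Icc (-(n : ℤ)) n, ∑ k : Fin 2, ∑ x' ∈ Icc (-(n : ℤ)) n, ∑ k' : Fin 2,
        K * Real.exp (-a * (j.1 0 - i.1 0 : ℤ)) * (L x * R x') := by
    refine (Finset.abs_sum_le_sum_abs _ _).trans (Finset.sum_le_sum fun x _ => ?_)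
    refine (Finset.abs_sum_le_sum_abs _ _).trans (Finset.sum_le_sum fun k _ => ?_)
    refine (Finset.abs_sum_le_sum_abs _ _).trans (Finset.sum_le_sum fun x' _ => ?_)
    refine (Finset.abs_sum_le_sum_abs _ _).trans (Finset.sum_le_sum fun k' _ => ?_)
    exact hterm x k x' k'
  refine hsum.trans ?_
  have hgL : ∑ x ∈ Icc (-(n : ℤ)) n, L x ≤ (1 - Real.exp (-a))⁻¹ :=
    geo_sum a ha _ (fun x => i.1 0 - x) (by intro x y h; simpa using h)
  have hgR : ∑ x ∈ Icc (-(n : ℤ)) n, R x ≤ (1 - Real.exp (-a))⁻¹ :=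
    geo_sum a ha _ (fun x => x - j.1 0) (by intro x y h; simpa using h)
  have hL0 : 0 ≤ ∑ x ∈ Icc (-(n : ℤ)) n, L x :=
    Finset.sum_nonneg fun x _ => by
      rw [hL]; dsimp only; split_ifs <;> positivity
  have hR0 : 0 ≤ ∑ x ∈ Icc (-(n : ℤ)) n, R x :=
    Finset.sum_nonneg fun x _ => by
      rw [hR]; dsimp only; split_ifs <;> positivity
  have hcalc : ∑ x ∈ Icc (-(n : ℤ)) n, ∑ k : Fin 2, ∑ x' ∈ Icc (-(n : ℤ)) n, ∑ k' : Fin 2,
        K * Real.exp (-a * (j.1 0 - i.1 0 : ℤ)) * (L x * R x') =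
      4 * K * Real.exp (-a * (j.1 0 - i.1 0 : ℤ)) *
        ((∑ x ∈ Icc (-(n : ℤ)) n, L x) * ∑ x ∈ Icc (-(n : ℤ)) n, R x) := by
    simp only [Finset.sum_const, Finset.card_univ, Fintype.card_fin, nsmul_eq_mul]
    rw [Finset.sum_mul_sum, Finset.mul_sum]
    refine Finset.sum_congr rfl fun x _ => ?_
    rw [Finset.mul_sum, Finset.mul_sum]
    refine Finset.sum_congr rfl fun x' _ => ?_
    push_cast
    ring
  rw [hcalc]
  have hLR : (∑ x ∈ Icc (-(n : ℤ)) n, L x) * ∑ x ∈ Icc (-(n : ℤ)) n, R x ≤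
      ((1 - Real.exp (-a))⁻¹) ^ 2 := by
    rw [sq]
    exact mul_le_mul hgL hgR hR0 (hL0.trans hgL)
  calc _ ≤ 4 * K * Real.exp (-a * (j.1 0 - i.1 0 : ℤ)) * ((1 - Real.exp (-a))⁻¹) ^ 2 :=
        mul_le_mul_of_nonneg_left hLR (by positivity)
    _ = _ := by ring

theorem mom (κ C a : ℝ) (hκ : 0 < κ) (ha : 0 < a)
    (hED : ∀ (n : ℕ) (p q : ↥(bx 2 n) ⊕ (↥(EN n) × Fin 5)),
      gE (hG (C6 (TB n)) (fun _ => κ)) (fun θ => cosC (θ p) * cosC (θ q)) ≤
        C * Real.exp (-a * nm (bp p - bp q))) :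
    ∃ C' : ℝ, 0 < C' ∧ (∀ n : ℕ, ∀ i ∈ FN n, En (wk κ) n (fun h => (h i : ℝ) ^ 2) ≤ C') ∧
      ∀ n : ℕ, ∀ i ∈ FN n, ∀ j ∈ FN n, i.1 0 < j.1 0 →
        |En (wk κ) n (fun h => (h i : ℝ) * (h j : ℝ))| ≤ C' * Real.exp (-a * (j.1 0 - i.1 0 : ℤ)) := by
  set D : ℝ := 4 * (4 * κ ^ 2 * max C 0) * ((1 - Real.exp (-a))⁻¹) ^ 2 with hD
  have hD0 : 0 ≤ D := by positivity
  refine ⟨D + 1, by linarith, ?_, ?_⟩
  · intro n i hi
    have h := main_bound κ C a hκ ha hED n i i hi hi (Or.inr rfl)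
    rw [sub_self, Int.cast_zero, mul_zero, Real.exp_zero, mul_one] at h
    have h2 : En (wk κ) n (fun h => (h i : ℝ) ^ 2) = En (wk κ) n (fun h => (h i : ℝ) * (h i : ℝ)) := by
      congr 1; funext h; ring
    rw [h2]
    have := (abs_le.1 h).2
    linarith
  · intro n i hi j hj hij
    have h := main_bound κ C a hκ ha hED n i j hi hj (Or.inl hij)
    refine h.trans ?_
    exact mul_le_mul_of_nonneg_right (by linarith) (Real.exp_pos _).le

end H82.BX

end S_H82_BX_MOM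

section S_H82_BX_PLA

/-!
# PLA: two edge-disjoint crossings of a box of the hexagonal lattice are impossible

Write `L(x,y) = ((x,y), false)`, `U(x,y) = ((x,y), true)`; edges `(x,y;0) = {L(x,y), U(x,y-1)}`, `(x,y;1) = {L(x-1,y), U(x,y)}`, `(x,y;2) = {U(x,y), L(x,y)}`.
From the two connections get finite edge sets `P ⊆ S1 ∩ inN N`, `Q ⊆ S2 ∩ inN N` whose degrees are odd exactly at `u ∈ Lf`, `v ∈ Rt` resp. at `u' ∈ Tp`, `v' ∈ Bt` (edge set of a path mod 2).
(1) No vertex of `FN N` touches both `P` and `Q`: `x` has three edges, an end point of `P` (`U(-N,b)` or `L(N-1,b)`) has at most two edges in `inN N`, a vertex which is an end point of `P` and of `Q` (`U(-N,N-1)`, `L(N-1,-N)`) at most one (`N ≥ 1`);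
and a vertex touched by `P` which is not an end point has even degree `≥ 2`; `P ∩ Q = ∅`.
(2) `P̂ = P ∪ {(-N,b;1), (N,b';1)}` if `u = U(-N,b)`, `v = L(N-1,b')`: all degrees at vertices of `FN N` are even.
For `(x,y)` with `-N ≤ x ≤ N` let `φ(x,y) = #{y' ≥ y : (x,y';1) ∈ P̂} mod 2`.  Then `φ(x,y) + φ(x,y+1) = 1[(x,y;1) ∈ P̂]`, and for `-N ≤ x < N`: `φ(x,y) + φ(x+1,y) = 1[(x,y;0) ∈ P̂]`
(sum of the degrees over `L(x,y'), U(x,y')`, `y' ≥ y`), `φ(x,y) + φ(x+1,y+1) = 1[(x,y;2) ∈ P̂]`.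
(3) For `w ∈ FN N` not touched by `P̂` the values of `φ` at the three corners of the triangle `w` agree; call it `f(w)`; `f(w) = f(w')` for neighbours `w, w'` not touched by `P̂` (common corners).  Follow `Q` from `u' = U(a,N-1)` to `v' = L(a',-N)` (all vertices of `Q` are not
touched by `P̂`): `f(u') = φ(a, N) = 0`.  `f(v') = φ(a', -N) = 1`: `φ(-N,-N) = 1` (only the edge `(-N,b;1)`), and `φ(x+1,-N) = φ(x,-N) + 1[(x,-N;0) ∈ P̂] = φ(x,-N)` because `(x,-N;0)` has the end `U(x,-N-1)` outside `FN N`.  Contradiction.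
(`IC/BD.lean` contains lemmas on boundaries of flows mod 2 and connections.)
-/

set_option autoImplicit false

open Finset MeasureTheory Filter Topology

namespace H82.BX

open H82.IC XYB

/-- the three edges at a vertex. -/
noncomputable def PLA_ed (w : Vx 2 × Bool) (i : Fin 3) : Vx 2 × Fin 3 :=
  if w.2 = true then (![(w.1 + Pi.single 1 1, 0), (w.1, 1), (w.1, 2)] : Fin 3 → Vx 2 × Fin 3) i
  else (![(w.1, 0), (w.1 + Pi.single 0 1, 1), (w.1, 2)] : Fin 3 → Vx 2 × Fin 3) i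

/-- degree mod 2. -/
noncomputable def PLA_dg (p : Vx 2 × Fin 3 → ZMod 2) (w : Vx 2 × Bool) : ZMod 2 :=
  p (PLA_ed w 0) + p (PLA_ed w 1) + p (PLA_ed w 2)

/-- one edge. -/
noncomputable def PLA_one (e : Vx 2 × Fin 3) : Vx 2 × Fin 3 → ZMod 2 :=
  fun e' => if e' = e then 1 else 0

theorem PLA_add1 (x y : ℤ) : (![x, y] : Vx 2) + Pi.single 1 1 = ![x, y + 1] := by
  ext i; fin_cases i <;> simp

theorem PLA_add0 (x y : ℤ) : (![x, y] : Vx 2) + Pi.single 0 1 = ![x + 1, y] := by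
  ext i; fin_cases i <;> simp

theorem PLA_sub1 (x y : ℤ) : (![x, y] : Vx 2) - Pi.single 1 1 = ![x, y - 1] := by
  ext i; fin_cases i <;> simp

theorem PLA_sub0 (x y : ℤ) : (![x, y] : Vx 2) - Pi.single 0 1 = ![x - 1, y] := by
  ext i; fin_cases i <;> simp

theorem PLA_eta (z : Vx 2) : (![z 0, z 1] : Vx 2) = z := by
  ext i; fin_cases i <;> rfl

theorem PLA_s0 (z : Vx 2) : HH.gr.s (z, 0) = (z, false) := by
  simp [PG.gr, HH]

theorem PLA_r0 (z : Vx 2) : HH.gr.r (z, 0) = (z - Pi.single 1 1, true) := by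
  simp [PG.gr, HH, sub_eq_add_neg]

theorem PLA_s1 (z : Vx 2) : HH.gr.s (z, 1) = (z - Pi.single 0 1, false) := by
  simp [PG.gr, HH, sub_eq_add_neg]

theorem PLA_r1 (z : Vx 2) : HH.gr.r (z, 1) = (z, true) := by
  simp [PG.gr, HH]

theorem PLA_s2 (z : Vx 2) : HH.gr.s (z, 2) = (z, true) := by
  simp [PG.gr, HH]

theorem PLA_r2 (z : Vx 2) : HH.gr.r (z, 2) = (z, false) := by
  simp [PG.gr, HH]

theorem PLA_dg_one (e : Vx 2 × Fin 3) (w : Vx 2 × Bool) :
    PLA_dg (PLA_one e) w = src (HH.gr.s e) (HH.gr.r e) w := by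
  obtain ⟨z, k⟩ := e
  obtain ⟨t, b⟩ := w
  have h0 : ∀ i : Fin 2, (t + Pi.single i 1 = z) ↔ (t = z - Pi.single i 1) :=
    fun i => eq_sub_iff_add_eq.symm
  have hk : k = 0 ∨ k = 1 ∨ k = 2 := by
    fin_cases k <;> simp
  rcases hk with rfl | rfl | rfl
  · rw [PLA_s0, PLA_r0]
    cases b <;> simp [PLA_dg, PLA_one, PLA_ed, src, h0]
  · rw [PLA_s1, PLA_r1]
    cases b <;> simp [PLA_dg, PLA_one, PLA_ed, src, h0]
  · rw [PLA_s2, PLA_r2]
    cases b <;> simp [PLA_dg, PLA_one, PLA_ed, src]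

theorem PLA_walk {ω : Set (Vx 2 × Fin 3)} {u v : Vx 2 × Bool} (h : HH.gr.Conn ω u v) :
    ∃ (p : Vx 2 × Fin 3 → ZMod 2) (F : Finset (Vx 2 × Fin 3)), (∀ e, p e ≠ 0 → e ∈ ω) ∧
      (∀ e, e ∉ F → p e = 0) ∧ (∀ w, PLA_dg p w = src u v w) ∧
      ∀ f : Vx 2 × Bool → ZMod 2,
        ∑ e ∈ F, p e * (f (HH.gr.s e) + f (HH.gr.r e)) = f u + f v := by
  induction h with
  | refl =>
    refine ⟨0, ∅, fun e he => absurd rfl he, fun e _ => rfl, fun w => ?_, fun f => ?_⟩
    · rw [src_self]; simp [PLA_dg]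
    · rw [Finset.sum_empty]; exact (CharTwo.add_self_eq_zero _).symm
  | @tail b c _ hstep ih =>
    obtain ⟨p, F, h1, h2, h3, h4⟩ := ih
    obtain ⟨e, he, hends⟩ := hstep
    have hsrc : src (HH.gr.s e) (HH.gr.r e) = src b c := by
      rcases hends with ⟨h, h'⟩ | ⟨h, h'⟩
      · rw [h, h']
      · rw [h, h', src_comm]
    have hf : ∀ f : Vx 2 × Bool → ZMod 2, f (HH.gr.s e) + f (HH.gr.r e) = f b + f c := by
      intro f
      rcases hends with ⟨h, h'⟩ | ⟨h, h'⟩
      · rw [h, h']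
      · rw [h, h', add_comm]
    refine ⟨p + PLA_one e, insert e F, ?_, ?_, ?_, ?_⟩
    · intro e' he'
      by_cases hpe : p e' = 0
      · rw [Pi.add_apply, hpe, zero_add] at he'
        have : e' = e := by
          by_contra hne
          exact he' (by simp [PLA_one, hne])
        rw [this]; exact he
      · exact h1 e' hpe
    · intro e' he'
      rw [Finset.mem_insert, not_or] at he'
      rw [Pi.add_apply, h2 e' he'.2, zero_add]
      simp [PLA_one, he'.1]
    · intro w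
      have h5 : PLA_dg (p + PLA_one e) w = PLA_dg p w + PLA_dg (PLA_one e) w := by
        simp only [PLA_dg, Pi.add_apply]; ring
      rw [h5, h3, PLA_dg_one, hsrc, ← Pi.add_apply, src_add]
    · intro f
      have h5 : ∑ e' ∈ insert e F, (p + PLA_one e) e' * (f (HH.gr.s e') + f (HH.gr.r e')) =
          ∑ e' ∈ insert e F, p e' * (f (HH.gr.s e') + f (HH.gr.r e')) +
          ∑ e' ∈ insert e F, PLA_one e e' * (f (HH.gr.s e') + f (HH.gr.r e')) := by
        rw [← Finset.sum_add_distrib]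
        refine Finset.sum_congr rfl fun e' _ => ?_
        rw [Pi.add_apply, add_mul]
      have h6 : ∑ e' ∈ insert e F, p e' * (f (HH.gr.s e') + f (HH.gr.r e')) =
          ∑ e' ∈ F, p e' * (f (HH.gr.s e') + f (HH.gr.r e')) := by
        symm
        refine Finset.sum_subset (Finset.subset_insert _ _) fun e' _ he' => ?_
        rw [h2 e' he', zero_mul]
      have h7 : ∑ e' ∈ insert e F, PLA_one e e' * (f (HH.gr.s e') + f (HH.gr.r e')) =
          f (HH.gr.s e) + f (HH.gr.r e) := by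
        rw [Finset.sum_eq_single e]
        · simp [PLA_one]
        · intro e' _ hne
          simp [PLA_one, hne]
        · intro hne
          exact absurd (Finset.mem_insert_self e F) hne
      rw [h5, h6, h7, h4, hf]
      have h8 : f b + f b = 0 := CharTwo.add_self_eq_zero _
      linear_combination h8

theorem PLA_loc : ∀ p0 p1 p2 q0 q1 q2 : ZMod 2, (p0 ≠ 0 → q0 = 0) → (p1 ≠ 0 → q1 = 0) →
    (p2 ≠ 0 → q2 = 0) → (p0 + p1 + p2 ≠ 0 → p1 = 0 ∧ q1 = 0) →
    (q0 + q1 + q2 ≠ 0 → p0 = 0 ∧ q0 = 0) → (q0 ≠ 0 ∨ q1 ≠ 0 ∨ q2 ≠ 0) →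
    p0 = 0 ∧ p1 = 0 ∧ p2 = 0 := by
  have h01 : ∀ t : ZMod 2, t = 0 ∨ t = 1 := by decide
  intro p0 p1 p2 q0 q1 q2
  rcases h01 p0 with rfl | rfl <;> rcases h01 p1 with rfl | rfl <;>
    rcases h01 p2 with rfl | rfl <;> rcases h01 q0 with rfl | rfl <;>
    rcases h01 q1 with rfl | rfl <;> rcases h01 q2 with rfl | rfl <;> decide

theorem PLA_in0 {N : ℕ} {x y : ℤ} (h : ((![x, y] : Vx 2), (0 : Fin 3)) ∈ inN N) :
    -(N : ℤ) ≤ x ∧ x < N ∧ -(N : ℤ) < y ∧ y < N := by
  obtain ⟨h1, h2⟩ := h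
  rw [PLA_s0, Finset.mem_coe, mem_FN] at h1
  rw [PLA_r0, Finset.mem_coe, mem_FN] at h2
  have a0 := h1 0
  have a1 := h1 1
  have b1 := h2 1
  simp at a0 a1 b1
  refine ⟨a0.1, a0.2, ?_, a1.2⟩
  linarith [b1.1]

theorem PLA_in1 {N : ℕ} {x y : ℤ} (h : ((![x, y] : Vx 2), (1 : Fin 3)) ∈ inN N) :
    -(N : ℤ) < x ∧ x < N ∧ -(N : ℤ) ≤ y ∧ y < N := by
  obtain ⟨h1, h2⟩ := h
  rw [PLA_s1, Finset.mem_coe, mem_FN] at h1
  rw [PLA_r1, Finset.mem_coe, mem_FN] at h2
  have a0 := h1 0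
  have b0 := h2 0
  have b1 := h2 1
  simp at a0 b0 b1
  refine ⟨?_, b0.2, b1.1, b1.2⟩
  linarith [a0.1]

theorem PLA_in2 {N : ℕ} {x y : ℤ} (h : ((![x, y] : Vx 2), (2 : Fin 3)) ∈ inN N) :
    -(N : ℤ) ≤ x ∧ x < N ∧ -(N : ℤ) ≤ y ∧ y < N := by
  obtain ⟨h1, h2⟩ := h
  rw [PLA_s2, Finset.mem_coe, mem_FN] at h1
  have a0 := h1 0
  have a1 := h1 1
  simp at a0 a1
  exact ⟨a0.1, a0.2, a1.1, a1.2⟩

theorem PLA_src_T (a b c d x y : ℤ) : src ((![a, b] : Vx 2), true) ((![c, d] : Vx 2), false)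
    ((![x, y] : Vx 2), true) = if x = a ∧ y = b then 1 else 0 := by
  have h : ((![x, y] : Vx 2) = ![a, b]) ↔ (x = a ∧ y = b) := by
    constructor
    · intro h; exact ⟨congrFun h 0, congrFun h 1⟩
    · rintro ⟨rfl, rfl⟩; rfl
  simp [src]

theorem PLA_src_F (a b c d x y : ℤ) : src ((![a, b] : Vx 2), true) ((![c, d] : Vx 2), false)
    ((![x, y] : Vx 2), false) = if x = c ∧ y = d then 1 else 0 := by
  have h : ((![x, y] : Vx 2) = ![c, d]) ↔ (x = c ∧ y = d) := by
    constructor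
    · intro h; exact ⟨congrFun h 0, congrFun h 1⟩
    · rintro ⟨rfl, rfl⟩; rfl
  simp [src]

theorem PLA_dgF (p : Vx 2 × Fin 3 → ZMod 2) (x y : ℤ) : PLA_dg p ((![x, y] : Vx 2), false) =
    p (![x, y], 0) + p (![x + 1, y], 1) + p (![x, y], 2) := by
  simp only [PLA_dg, PLA_ed, Bool.false_eq_true, if_false, PLA_add0]
  rfl

theorem PLA_dgT (p : Vx 2 × Fin 3 → ZMod 2) (x y : ℤ) : PLA_dg p ((![x, y] : Vx 2), true) =
    p (![x, y + 1], 0) + p (![x, y], 1) + p (![x, y], 2) := by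
  simp only [PLA_dg, PLA_ed, if_true, PLA_add1]
  rfl

/-- a vertex touched by `q` is not touched by `p` (both kinds of vertices). -/
theorem PLA_unt {N : ℕ} {S1 S2 : Set (Vx 2 × Fin 3)} (hd : Disjoint S1 S2)
    {p q : Vx 2 × Fin 3 → ZMod 2} {b b' a a' : ℤ}
    (hp : ∀ e, p e ≠ 0 → e ∈ S1 ∩ inN N) (hq : ∀ e, q e ≠ 0 → e ∈ S2 ∩ inN N)
    (dp : ∀ w, PLA_dg p w = src ((![-(N : ℤ), b] : Vx 2), true) ((![(N : ℤ) - 1, b'] : Vx 2), false) w)
    (dq : ∀ w, PLA_dg q w = src ((![a, (N : ℤ) - 1] : Vx 2), true) ((![a', -(N : ℤ)] : Vx 2), false) w)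
    (x y : ℤ) :
    ((q (![x, y], 0) ≠ 0 ∨ q (![x + 1, y], 1) ≠ 0 ∨ q (![x, y], 2) ≠ 0) →
      p (![x, y], 0) = 0 ∧ p (![x + 1, y], 1) = 0 ∧ p (![x, y], 2) = 0) ∧
    ((q (![x, y + 1], 0) ≠ 0 ∨ q (![x, y], 1) ≠ 0 ∨ q (![x, y], 2) ≠ 0) →
      p (![x, y + 1], 0) = 0 ∧ p (![x, y], 1) = 0 ∧ p (![x, y], 2) = 0) := by
  have hpq : ∀ e, p e ≠ 0 → q e = 0 := by
    intro e he
    by_contra hq'
    exact Set.disjoint_left.1 hd (hp e he).1 (hq e hq').1
  have pz : ∀ e, e ∉ inN N → p e = 0 := by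
    intro e he; by_contra h; exact he (hp e h).2
  have qz : ∀ e, e ∉ inN N → q e = 0 := by
    intro e he; by_contra h; exact he (hq e h).2
  constructor
  · intro h
    refine PLA_loc _ _ _ _ _ _ (hpq _) (hpq _) (hpq _) ?_ ?_ h
    · intro h'
      have h1 := dp ((![x, y] : Vx 2), false)
      rw [PLA_dgF, PLA_src_F] at h1
      rw [h1] at h'
      by_cases hx : x = (N : ℤ) - 1 ∧ y = b'
      · have hn : ((![x + 1, y] : Vx 2), (1 : Fin 3)) ∉ inN N := by
          intro hin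
          have := (PLA_in1 hin).2.1
          omega
        exact ⟨pz _ hn, qz _ hn⟩
      · exact absurd (if_neg hx) h'
    · intro h'
      have h1 := dq ((![x, y] : Vx 2), false)
      rw [PLA_dgF, PLA_src_F] at h1
      rw [h1] at h'
      by_cases hx : x = a' ∧ y = -(N : ℤ)
      · have hn : ((![x, y] : Vx 2), (0 : Fin 3)) ∉ inN N := by
          intro hin
          have := (PLA_in0 hin).2.2.1
          omega
        exact ⟨pz _ hn, qz _ hn⟩
      · exact absurd (if_neg hx) h'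
  · intro h
    refine PLA_loc _ _ _ _ _ _ (hpq _) (hpq _) (hpq _) ?_ ?_ h
    · intro h'
      have h1 := dp ((![x, y] : Vx 2), true)
      rw [PLA_dgT, PLA_src_T] at h1
      rw [h1] at h'
      by_cases hx : x = -(N : ℤ) ∧ y = b
      · have hn : ((![x, y] : Vx 2), (1 : Fin 3)) ∉ inN N := by
          intro hin
          have := (PLA_in1 hin).1
          omega
        exact ⟨pz _ hn, qz _ hn⟩
      · exact absurd (if_neg hx) h'
    · intro h'
      have h1 := dq ((![x, y] : Vx 2), true)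
      rw [PLA_dgT, PLA_src_T] at h1
      rw [h1] at h'
      by_cases hx : x = a ∧ y = (N : ℤ) - 1
      · have hn : ((![x, y + 1] : Vx 2), (0 : Fin 3)) ∉ inN N := by
          intro hin
          have := (PLA_in0 hin).2.2.2
          omega
        exact ⟨pz _ hn, qz _ hn⟩
      · exact absurd (if_neg hx) h'

/-- the completed flow. -/
noncomputable def PLA_ph (N : ℕ) (p : Vx 2 × Fin 3 → ZMod 2) (b b' x y : ℤ) (k : Fin 3) : ZMod 2 :=
  p (![x, y], k) + (if x = -(N : ℤ) ∧ y = b ∧ k = 1 then 1 else 0) +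
    (if x = (N : ℤ) ∧ y = b' ∧ k = 1 then 1 else 0)

/-- the winding function. -/
noncomputable def PLA_fi (N : ℕ) (p : Vx 2 × Fin 3 → ZMod 2) (b b' x y : ℤ) : ZMod 2 :=
  ∑ y' ∈ Finset.Ico y (N : ℤ), PLA_ph N p b b' x y' 1

theorem PLA_fi_top (N : ℕ) (p : Vx 2 × Fin 3 → ZMod 2) (b b' x : ℤ) :
    PLA_fi N p b b' x N = 0 := by
  simp [PLA_fi]

theorem PLA_fi_step (N : ℕ) (p : Vx 2 × Fin 3 → ZMod 2) (b b' x y : ℤ) (hy : y < N) :
    PLA_fi N p b b' x y = PLA_ph N p b b' x y 1 + PLA_fi N p b b' x (y + 1) := by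
  unfold PLA_fi
  have h : Finset.Ico y (N : ℤ) = insert y (Finset.Ico (y + 1) (N : ℤ)) := by
    ext z; simp only [Finset.mem_Ico, Finset.mem_insert]; omega
  rw [h, Finset.sum_insert (by simp)]

theorem pla (N : ℕ) (hN : 1 ≤ N) (S1 S2 : Set (Vx 2 × Fin 3)) (hd : Disjoint S1 S2)
    (h1 : LRc N S1) (h2 : TBc N S2) : False := by
  obtain ⟨u, ⟨hu1, hu2, hu3⟩, v, ⟨hv1, hv2, hv3⟩, hc⟩ := h1
  obtain ⟨u', ⟨hu1', hu2', hu3'⟩, v', ⟨hv1', hv2', hv3'⟩, hc'⟩ := h2
  obtain ⟨p, F, hp, hpF, dp, _⟩ := PLA_walk hc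
  obtain ⟨q, G, hq, hqG, dq, sq⟩ := PLA_walk hc'
  have eu : u = ((![-(N : ℤ), u.1 1] : Vx 2), true) := by
    rw [← hu3, PLA_eta, ← hu2]
  have ev : v = ((![(N : ℤ) - 1, v.1 1] : Vx 2), false) := by
    rw [← hv3, PLA_eta, ← hv2]
  have eu' : u' = ((![u'.1 0, (N : ℤ) - 1] : Vx 2), true) := by
    rw [← hu3', PLA_eta, ← hu2']
  have ev' : v' = ((![v'.1 0, -(N : ℤ)] : Vx 2), false) := by
    rw [← hv3', PLA_eta, ← hv2']
  rw [mem_FN] at hu1 hv1 hu1' hv1'
  have ru := hu1 1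
  have rv := hv1 1
  have ru' := hu1' 0
  have rv' := hv1' 0
  set b := u.1 1 with hb
  set b' := v.1 1 with hb'
  set a := u'.1 0 with ha
  set a' := v'.1 0 with ha'
  clear_value b b' a a'
  subst eu ev eu' ev'
  have unt := PLA_unt hd hp hq dp dq
  have pz : ∀ e, e ∉ inN N → p e = 0 := by
    intro e he; by_contra h; exact he (hp e h).2
  -- degrees of the completed flow
  have dF : ∀ x y : ℤ, -(N : ℤ) ≤ x → x < N → PLA_ph N p b b' x y 0 + PLA_ph N p b b' (x + 1) y 1 +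
      PLA_ph N p b b' x y 2 = 0 := by
    intro x y h1 h2
    have h3 := dp ((![x, y] : Vx 2), false)
    rw [PLA_dgF, PLA_src_F] at h3
    have h4 : ¬ (x + 1 = -(N : ℤ)) := by omega
    have h5 : (x + 1 = (N : ℤ) ∧ y = b') ↔ (x = (N : ℤ) - 1 ∧ y = b') := by
      constructor <;> rintro ⟨h, h'⟩ <;> exact ⟨by omega, h'⟩
    simp only [PLA_ph, h4, false_and, if_false]
    simp only [Fin.isValue, and_true, h5]
    have h6 : ¬ ((0 : Fin 3) = 1) := by decide
    have h7 : ¬ ((2 : Fin 3) = 1) := by decide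
    simp only [h6, h7, and_false, if_false, add_zero]
    by_cases hx : x = (N : ℤ) - 1 ∧ y = b'
    · rw [if_pos hx] at h3 ⊢
      have h8 : (1 : ZMod 2) + 1 = 0 := by decide
      linear_combination h3 + h8
    · rw [if_neg hx] at h3 ⊢
      linear_combination h3
  have dT : ∀ x y : ℤ, -(N : ℤ) ≤ x → x < N → PLA_ph N p b b' x (y + 1) 0 + PLA_ph N p b b' x y 1 +
      PLA_ph N p b b' x y 2 = 0 := by
    intro x y h1 h2
    have h3 := dp ((![x, y] : Vx 2), true)
    rw [PLA_dgT, PLA_src_T] at h3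
    have h4 : ¬ (x = (N : ℤ)) := by omega
    simp only [PLA_ph, h4, false_and, if_false]
    have h6 : ¬ ((0 : Fin 3) = 1) := by decide
    have h7 : ¬ ((2 : Fin 3) = 1) := by decide
    simp only [h6, h7, and_false, and_true, if_false, add_zero]
    by_cases hx : x = -(N : ℤ) ∧ y = b
    · rw [if_pos hx] at h3 ⊢
      have h8 : (1 : ZMod 2) + 1 = 0 := by decide
      linear_combination h3 + h8
    · rw [if_neg hx] at h3 ⊢
      linear_combination h3
  -- horizontal step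
  have hor : ∀ (m : ℕ) (x y : ℤ), -(N : ℤ) ≤ x → x < N → y + m = N →
      PLA_fi N p b b' x y + PLA_fi N p b b' (x + 1) y = PLA_ph N p b b' x y 0 := by
    intro m
    induction m with
    | zero =>
      intro x y h1 h2 h3
      have h4 : y = N := by simpa using h3
      subst h4
      rw [PLA_fi_top, PLA_fi_top]
      have hn : ((![x, (N : ℤ)] : Vx 2), (0 : Fin 3)) ∉ inN N := by
        intro hin
        have := (PLA_in0 hin).2.2.2
        omega
      have h6 : ¬ ((0 : Fin 3) = 1) := by decide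
      simp only [PLA_ph, pz _ hn, h6, and_false, if_false, add_zero]
    | succ m ih =>
      intro x y h1 h2 h3
      have h4 : y < N := by push_cast at h3; omega
      have h5 := ih x (y + 1) h1 h2 (by push_cast at h3 ⊢; omega)
      rw [PLA_fi_step N p b b' x y h4, PLA_fi_step N p b b' (x + 1) y h4]
      have h6 := dF x y h1 h2
      have h7 := dT x y h1 h2
      have h8 : PLA_ph N p b b' x y 2 + PLA_ph N p b b' x y 2 = 0 := CharTwo.add_self_eq_zero _
      have h9 : PLA_ph N p b b' x y 0 + PLA_ph N p b b' x y 0 = 0 := CharTwo.add_self_eq_zero _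
      have h10 : PLA_ph N p b b' x (y + 1) 0 + PLA_ph N p b b' x (y + 1) 0 = 0 :=
        CharTwo.add_self_eq_zero _
      linear_combination h5 + h6 + h7 - h8 - h9 + 0 * h10
  have hor' : ∀ x y : ℤ, -(N : ℤ) ≤ x → x < N → y ≤ N →
      PLA_fi N p b b' x y + PLA_fi N p b b' (x + 1) y = PLA_ph N p b b' x y 0 := by
    intro x y h1 h2 h3
    exact hor (Int.toNat ((N : ℤ) - y)) x y h1 h2 (by omega)
  -- the bottom row
  have bot : ∀ m : ℕ, -(N : ℤ) + m ≤ N → PLA_fi N p b b' (-(N : ℤ) + m) (-(N : ℤ)) = 1 := by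
    intro m
    induction m with
    | zero =>
      intro _
      rw [Nat.cast_zero, add_zero]
      unfold PLA_fi
      rw [Finset.sum_eq_single b]
      · have hn : ((![-(N : ℤ), b] : Vx 2), (1 : Fin 3)) ∉ inN N := by
          intro hin
          have := (PLA_in1 hin).1
          omega
        have h4 : ¬ (-(N : ℤ) = N) := by omega
        simp only [PLA_ph, pz _ hn, h4, false_and, if_false, and_self, if_true]
        decide
      · intro y _ hy
        have hn : ((![-(N : ℤ), y] : Vx 2), (1 : Fin 3)) ∉ inN N := by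
          intro hin
          have := (PLA_in1 hin).1
          omega
        have h4 : ¬ (-(N : ℤ) = N) := by omega
        simp only [PLA_ph, pz _ hn, h4, hy, false_and, and_false, if_false, add_zero]
      · intro hb
        exact absurd (Finset.mem_Ico.2 ⟨ru.1, ru.2⟩) hb
    | succ m ih =>
      intro hm
      push_cast at hm ⊢
      have h1 := ih (by omega)
      have h2 := hor' (-(N : ℤ) + m) (-(N : ℤ)) (by omega) (by omega) (by omega)
      have hn : ((![-(N : ℤ) + m, -(N : ℤ)] : Vx 2), (0 : Fin 3)) ∉ inN N := by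
        intro hin
        have := (PLA_in0 hin).2.2.1
        omega
      have h6 : ¬ ((0 : Fin 3) = 1) := by decide
      have h3 : PLA_ph N p b b' (-(N : ℤ) + m) (-(N : ℤ)) 0 = 0 := by
        simp only [PLA_ph, pz _ hn, h6, and_false, if_false, add_zero]
      rw [h3, h1] at h2
      have h4 : (1 : ZMod 2) + 1 = 0 := by decide
      rw [← add_assoc]
      linear_combination h2 - h4
  -- `f` is constant along `q`
  have key : ∀ e, q e * (PLA_fi N p b b' ((HH.gr.s e).1 0) ((HH.gr.s e).1 1) +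
      PLA_fi N p b b' ((HH.gr.r e).1 0) ((HH.gr.r e).1 1)) = 0 := by
    intro e
    by_cases hqe : q e = 0
    · rw [hqe, zero_mul]
    · obtain ⟨z, k⟩ := e
      have hz : z = ![z 0, z 1] := (PLA_eta z).symm
      generalize z 0 = x at hz
      generalize z 1 = y at hz
      subst hz
      have hin := (hq _ hqe).2
      have hk : k = 0 ∨ k = 1 ∨ k = 2 := by
        fin_cases k <;> simp
      have h6 : ¬ ((0 : Fin 3) = 1) := by decide
      rcases hk with rfl | rfl | rfl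
      · have hr := PLA_in0 hin
        rw [PLA_s0, PLA_r0, PLA_sub1]
        have e1 : (![x, y - 1] : Vx 2) 0 = x := rfl
        have e2 : (![x, y - 1] : Vx 2) 1 = y - 1 := rfl
        simp only [e1, e2]
        have e3 : (![x, y] : Vx 2) 0 = x := rfl
        have e4 : (![x, y] : Vx 2) 1 = y := rfl
        simp only [e3, e4]
        have h7 := (unt x (y - 1)).2
        rw [sub_add_cancel] at h7
        have h8 := h7 (Or.inl hqe)
        have h9 := PLA_fi_step N p b b' x (y - 1) (by omega)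
        rw [sub_add_cancel] at h9
        have h10 : PLA_ph N p b b' x (y - 1) 1 = 0 := by
          have h11 : ¬ (x = (N : ℤ)) := by omega
          have h12 : ¬ (x = -(N : ℤ) ∧ y - 1 = b) := by
            rintro h
            have h13 := dp ((![x, y - 1] : Vx 2), true)
            rw [PLA_dgT, PLA_src_T, if_pos h, sub_add_cancel, h8.1, h8.2.1, h8.2.2] at h13
            exact absurd h13 (by decide)
          simp only [PLA_ph, h8.2.1, h11, false_and, and_true, if_false, if_neg h12, add_zero]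
        rw [h9, h10, zero_add]
        rw [CharTwo.add_self_eq_zero, mul_zero]
      · have hr := PLA_in1 hin
        rw [PLA_s1, PLA_r1, PLA_sub0]
        have e1 : (![x - 1, y] : Vx 2) 0 = x - 1 := rfl
        have e2 : (![x - 1, y] : Vx 2) 1 = y := rfl
        simp only [e1, e2]
        have e3 : (![x, y] : Vx 2) 0 = x := rfl
        have e4 : (![x, y] : Vx 2) 1 = y := rfl
        simp only [e3, e4]
        have h7 := (unt (x - 1) y).1
        rw [sub_add_cancel] at h7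
        have h8 := h7 (Or.inr (Or.inl hqe))
        have h9 := hor' (x - 1) y (by omega) (by omega) (by omega)
        rw [sub_add_cancel] at h9
        have h10 : PLA_ph N p b b' (x - 1) y 0 = 0 := by
          simp only [PLA_ph, h8.1, h6, and_false, if_false, add_zero]
        rw [h9, h10, mul_zero]
      · rw [PLA_s2, PLA_r2]
        rw [CharTwo.add_self_eq_zero, mul_zero]
  have hs := sq (fun w => PLA_fi N p b b' (w.1 0) (w.1 1))
  rw [Finset.sum_eq_zero (fun e _ => key e)] at hs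
  have e1 : (![a, (N : ℤ) - 1] : Vx 2) 0 = a := rfl
  have e2 : (![a, (N : ℤ) - 1] : Vx 2) 1 = (N : ℤ) - 1 := rfl
  have e3 : (![a', -(N : ℤ)] : Vx 2) 0 = a' := rfl
  have e4 : (![a', -(N : ℤ)] : Vx 2) 1 = -(N : ℤ) := rfl
  simp only [e1, e2, e3, e4] at hs
  have hbot : PLA_fi N p b b' a' (-(N : ℤ)) = 1 := by
    have h1 := bot (Int.toNat (a' + N)) (by omega)
    have h2 : -(N : ℤ) + (Int.toNat (a' + N) : ℤ) = a' := by omega
    rwa [h2] at h1
  have htop : PLA_fi N p b b' a ((N : ℤ) - 1) = 0 := by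
    rw [PLA_fi_step N p b b' a ((N : ℤ) - 1) (by omega), sub_add_cancel, PLA_fi_top, add_zero]
    have h1 := dq ((![a, (N : ℤ) - 1] : Vx 2), true)
    rw [PLA_dgT, PLA_src_T, if_pos ⟨rfl, rfl⟩] at h1
    have h2 : q (![a, (N : ℤ) - 1 + 1], 0) ≠ 0 ∨ q (![a, (N : ℤ) - 1], 1) ≠ 0 ∨
        q (![a, (N : ℤ) - 1], 2) ≠ 0 := by
      by_contra hcon
      push Not at hcon
      rw [hcon.1, hcon.2.1, hcon.2.2] at h1
      exact absurd h1 (by decide)
    have h3 := (unt a ((N : ℤ) - 1)).2 h2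
    have h11 : ¬ (a = (N : ℤ)) := by omega
    have h12 : ¬ (a = -(N : ℤ) ∧ (N : ℤ) - 1 = b) := by
      rintro h
      have h13 := dp ((![a, (N : ℤ) - 1] : Vx 2), true)
      rw [PLA_dgT, PLA_src_T, if_pos h, h3.1, h3.2.1, h3.2.2] at h13
      exact absurd h13 (by decide)
    simp only [PLA_ph, h3.2.1, h11, false_and, and_true, if_false, if_neg h12, add_zero]
  rw [hbot, htop] at hs
  exact absurd hs (by decide)

end H82.BX

end S_H82_BX_PLA
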