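import Mathlib
import Pool.Agent.H82.BXM.G04
import Pool.Agent.H82.BXM.G11
import Pool.Agent.H82.BXM.G12
import Pool.Agent.H82.BXM.G13
import Pool.Agent.H82.BXM.G14
import Pool.Agent.H82.BXM.G16

/-! MP_26628e_mp: this file joins several modules to save build time. -/

section S_H82_BX_PG4

/-!
# PG4: at most two infinite clusters (deterministic)

Adapt `BKD_branch`, `two_clusters` of `IC/BKD.lean` to periodic graphs.
-/

set_option autoImplicit false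

open Finset MeasureTheory

namespace H82.BX

open H82.IC

variable {K K' : Type} [Fintype K] [Fintype K']

/-- a vertex of the tile, connected to `v`, with infinite cluster outside the tile. -/
theorem PG4_branch (P : PG K K') (S : Set (Vx 2 × K')) (r : ℕ) (v : Vx 2 × K) (hv : nm v.1 ≤ r)
    (h : (P.gr.cl S v).Infinite) :
    ∃ w ∈ (tl r 0 : Set (Vx 2 × K)), P.gr.Conn S v w ∧
      (P.gr.cl (S \ P.gr.ins (tl r 0)) w).Infinite := by
  by_contra hcon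
  push Not at hcon
  apply h
  have hsub : P.gr.cl S v ⊆ ⋃ w ∈ {w : Vx 2 × K | w ∈ (tl r 0 : Set (Vx 2 × K)) ∧ P.gr.Conn S v w},
      P.gr.cl (S \ P.gr.ins (tl r 0)) w := by
    intro z hz
    have hz' : P.gr.Conn S v z := hz
    simp only [Set.mem_iUnion]
    induction hz' with
    | refl =>
      refine ⟨v, ⟨?_, conn_refl _ _ _⟩, mem_cl_self _ _ _⟩
      change nm (v.1 - 0) ≤ r
      rwa [sub_zero]
    | @tail b c hb h2 ih =>
      obtain ⟨w, ⟨hw1, hw2⟩, hw3⟩ := ih hb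
      obtain ⟨e, he, h1⟩ := h2
      by_cases hK : e ∈ P.gr.ins (tl r 0)
      · have hc : c ∈ (tl r 0 : Set (Vx 2 × K)) := by
          rcases h1 with ⟨_, rfl⟩ | ⟨rfl, _⟩
          · exact hK.2
          · exact hK.1
        refine ⟨c, ⟨hc, ?_⟩, mem_cl_self _ _ _⟩
        exact Relation.ReflTransGen.tail hb ⟨e, he, h1⟩
      · refine ⟨w, ⟨hw1, hw2⟩, ?_⟩
        exact Relation.ReflTransGen.tail hw3 ⟨e, ⟨he, hK⟩, h1⟩
  apply Set.Finite.subset _ hsub
  have hfin : {w : Vx 2 × K | w ∈ (tl r 0 : Set (Vx 2 × K)) ∧ P.gr.Conn S v w}.Finite := by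
    apply (pbx K r).finite_toSet.subset
    rintro w ⟨hw, _⟩
    have hw' : nm (w.1 - 0) ≤ r := hw
    rw [sub_zero] at hw'
    exact Finset.mem_coe.mpr ((mem_pbx r w).mpr hw')
  apply hfin.biUnion
  rintro w ⟨hw1, hw2⟩
  exact hcon w hw1 hw2

theorem two_clustersP (P : PG K K') (hP : P.Ok) (S : Set (Vx 2 × K'))
    (h : ∀ r, 1 ≤ r → ¬ TriP P S r 0) (v1 v2 v3 : Vx 2 × K)
    (h1 : (P.gr.cl S v1).Infinite) (h2 : (P.gr.cl S v2).Infinite)
    (h3 : (P.gr.cl S v3).Infinite) :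
    P.gr.Conn S v1 v2 ∨ P.gr.Conn S v1 v3 ∨ P.gr.Conn S v2 v3 := by
  by_contra hcon
  push Not at hcon
  obtain ⟨n12, n13, n23⟩ := hcon
  obtain ⟨r, hr⟩ : ∃ r : ℕ, r = nm v1.1 + nm v2.1 + nm v3.1 + 1 := ⟨_, rfl⟩
  obtain ⟨w1, m1, c1, i1⟩ := PG4_branch P S r v1 (by omega) h1
  obtain ⟨w2, m2, c2, i2⟩ := PG4_branch P S r v2 (by omega) h2
  obtain ⟨w3, m3, c3, i3⟩ := PG4_branch P S r v3 (by omega) h3
  apply h r (by omega)
  refine ⟨w1, m1, w2, m2, w3, m3, i1, i2, i3, ?_, ?_, ?_⟩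
  · intro hc
    exact n12 (conn_trans _ c1 (conn_trans _ (conn_mono _ Set.sdiff_subset hc) (conn_symm _ c2)))
  · intro hc
    exact n13 (conn_trans _ c1 (conn_trans _ (conn_mono _ Set.sdiff_subset hc) (conn_symm _ c3)))
  · intro hc
    exact n23 (conn_trans _ c2 (conn_trans _ (conn_mono _ Set.sdiff_subset hc) (conn_symm _ c3)))

/-- if the two infinite clusters (of `u` and `v`) meet the tile and all edges of the tile are opened, there is exactly one infinite cluster. -/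
theorem merge_clusters (P : PG K K') (hP : P.Ok) (S : Set (Vx 2 × K')) (r : ℕ) (hr : 1 ≤ r)
    (h3 : ∀ v1 v2 v3 : Vx 2 × K, (P.gr.cl S v1).Infinite → (P.gr.cl S v2).Infinite →
      (P.gr.cl S v3).Infinite → P.gr.Conn S v1 v2 ∨ P.gr.Conn S v1 v3 ∨ P.gr.Conn S v2 v3)
    (u v : Vx 2 × K) (hu : u ∈ (tl r 0 : Set (Vx 2 × K))) (hv : v ∈ (tl r 0 : Set (Vx 2 × K)))
    (hui : (P.gr.cl S u).Infinite) (hvi : (P.gr.cl S v).Infinite) (hn : ¬ P.gr.Conn S u v) :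
    ∀ a b : Vx 2 × K, (P.gr.cl (S ∪ P.gr.ins (tl r 0)) a).Infinite →
      (P.gr.cl (S ∪ P.gr.ins (tl r 0)) b).Infinite → P.gr.Conn (S ∪ P.gr.ins (tl r 0)) a b := by
  have tileconn : ∀ a ∈ (tl r 0 : Set (Vx 2 × K)), ∀ b ∈ (tl r 0 : Set (Vx 2 × K)),
      P.gr.Conn (S ∪ P.gr.ins (tl r 0)) a b := fun a ha b hb =>
    conn_mono _ Set.subset_union_right (hP.conn r hr a ha b hb)
  have key : ∀ a : Vx 2 × K, (P.gr.cl (S ∪ P.gr.ins (tl r 0)) a).Infinite →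
      P.gr.Conn (S ∪ P.gr.ins (tl r 0)) a u := by
    intro a ha
    by_cases hm : ∃ w ∈ (tl r 0 : Set (Vx 2 × K)), P.gr.Conn (S ∪ P.gr.ins (tl r 0)) a w
    · obtain ⟨w, hw, hc⟩ := hm
      exact conn_trans _ hc (tileconn w hw u hu)
    · push Not at hm
      have hsub : P.gr.cl (S ∪ P.gr.ins (tl r 0)) a ⊆ P.gr.cl S a := by
        intro z hz
        have hz' : P.gr.Conn (S ∪ P.gr.ins (tl r 0)) a z := hz
        change P.gr.Conn S a z
        induction hz' with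
        | refl => exact conn_refl _ _ _
        | @tail b c hb h2 ih =>
          have ihb := ih hb
          obtain ⟨e, he, h1⟩ := h2
          rcases he with he | he
          · exact Relation.ReflTransGen.tail ihb ⟨e, he, h1⟩
          · exfalso
            have hbt : b ∈ (tl r 0 : Set (Vx 2 × K)) := by
              rcases h1 with ⟨rfl, _⟩ | ⟨_, rfl⟩
              · exact he.1
              · exact he.2
            exact hm b hbt hb
      have hai : (P.gr.cl S a).Infinite := ha.mono hsub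
      rcases h3 a u v hai hui hvi with h | h | h
      · exact conn_mono _ Set.subset_union_left h
      · exact conn_trans _ (conn_mono _ Set.subset_union_left h) (tileconn v hv u hu)
      · exact absurd h hn
  intro a b ha hb
  exact conn_trans _ (key a ha) (conn_symm _ (key b hb))

end H82.BX

end S_H82_BX_PG4

section S_H82_BX_PG5

/-!
# PG5: uniqueness of the infinite cluster

`N2 = {ω | ∃ u v, both clusters infinite, not connected}` (measurable, shift invariant), `N2 r` = the same with `u, v ∈ tl r 0`.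
Suppose `ν(N2) > 0`; then `p := ν(N2 r) > 0` for some `r ≥ 1` (countable increasing union).  Let `F` be the finset of the edges of
`ins (tl r 0)`.  For a.e. `ω ∈ N2 r` (no `TriP`, all `r`: `no_triP`, so `two_clustersP`) one has `opF F ω ∉ N2` (`merge_clusters`,
`op1 (opF F ω) = op1 ω ∪ F`).  Let `C` be given by `opF_bound` for `F` and `ε = p/8`, and let `δ > 0` with `δ + C δ < p/8`.
By `lc_approx` there is a cylinder event `D0` with `ν(N2 Δ D0) ≤ δ`; let `a` be a translation such that `D = {shP a ω ∈ D0}`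
does not depend on the edges of `F` (move the finite set of edges of `D0` away from `F`).  By invariance of `N2` and `TIP`,
`ν(N2 Δ D) ≤ δ`.  Then
`p - δ ≤ ν(N2 r ∩ D) ≤ ν{opF F ω ∈ N2ᶜ ∩ D} ≤ C ν(N2ᶜ ∩ D) + ε ≤ C δ + p/8`, contradiction.
(`N2` is invariant: `conn_sh`; infinite clusters are mapped to infinite clusters.)
-/

set_option autoImplicit false

open Finset MeasureTheory

namespace H82.BX

open H82.IC

variable {K K' : Type} [Fintype K] [Fintype K'] [Nonempty K]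

/-- there are two infinite clusters. -/
def pg5_N2 (P : PG K K') : Set (Vx 2 × K' → Bool) :=
  {ω | ∃ u v : Vx 2 × K, (P.gr.cl (op1 ω) u).Infinite ∧ (P.gr.cl (op1 ω) v).Infinite ∧
    ¬ P.gr.Conn (op1 ω) u v}

/-- two infinite clusters meet the tile. -/
def pg5_N2r (P : PG K K') (r : ℕ) : Set (Vx 2 × K' → Bool) :=
  {ω | ∃ u ∈ (tl r 0 : Set (Vx 2 × K)), ∃ v ∈ (tl r 0 : Set (Vx 2 × K)),
    (P.gr.cl (op1 ω) u).Infinite ∧ (P.gr.cl (op1 ω) v).Infinite ∧ ¬ P.gr.Conn (op1 ω) u v}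

theorem pg5_mC (P : PG K K') (hP : P.Ok) (u v : Vx 2 × K) :
    MeasurableSet {ω : Vx 2 × K' → Bool | P.gr.Conn (op1 ω) u v} := by
  have h := meas_connP P hP ∅ u v
  simpa using h

theorem pg5_mI (P : PG K K') (hP : P.Ok) (v : Vx 2 × K) :
    MeasurableSet {ω : Vx 2 × K' → Bool | (P.gr.cl (op1 ω) v).Infinite} := by
  have h := meas_infP P hP ∅ v
  simpa using h

theorem pg5_mN (P : PG K K') (hP : P.Ok) (u v : Vx 2 × K) :
    MeasurableSet {ω : Vx 2 × K' → Bool | (P.gr.cl (op1 ω) u).Infinite ∧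
      (P.gr.cl (op1 ω) v).Infinite ∧ ¬ P.gr.Conn (op1 ω) u v} := by
  have h : {ω : Vx 2 × K' → Bool | (P.gr.cl (op1 ω) u).Infinite ∧
      (P.gr.cl (op1 ω) v).Infinite ∧ ¬ P.gr.Conn (op1 ω) u v}
      = {ω | (P.gr.cl (op1 ω) u).Infinite} ∩ ({ω | (P.gr.cl (op1 ω) v).Infinite}
        ∩ {ω | P.gr.Conn (op1 ω) u v}ᶜ) := by
    ext ω; rfl
  rw [h]
  exact (pg5_mI P hP u).inter ((pg5_mI P hP v).inter (pg5_mC P hP u v).compl)

theorem pg5_mN2 (P : PG K K') (hP : P.Ok) : MeasurableSet (pg5_N2 P) := by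
  have h : pg5_N2 P = ⋃ u : Vx 2 × K, ⋃ v : Vx 2 × K, {ω : Vx 2 × K' → Bool |
      (P.gr.cl (op1 ω) u).Infinite ∧ (P.gr.cl (op1 ω) v).Infinite ∧ ¬ P.gr.Conn (op1 ω) u v} := by
    ext ω
    simp only [pg5_N2, Set.mem_setOf_eq, Set.mem_iUnion]
  rw [h]
  exact MeasurableSet.iUnion fun u => MeasurableSet.iUnion fun v => pg5_mN P hP u v

omit [Nonempty K] [Fintype K] [Fintype K'] in
theorem pg5_iUnion (P : PG K K') : pg5_N2 P ⊆ ⋃ r : ℕ, pg5_N2r P (r + 1) := by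
  rintro ω ⟨u, v, hu, hv, huv⟩
  refine Set.mem_iUnion.2 ⟨max (nm u.1) (nm v.1), u, ?_, v, ?_, hu, hv, huv⟩
  · simp only [tl, Set.mem_setOf_eq, sub_zero]
    exact (le_max_left _ _).trans (Nat.le_succ _)
  · simp only [tl, Set.mem_setOf_eq, sub_zero]
    exact (le_max_right _ _).trans (Nat.le_succ _)

omit [Nonempty K] [Fintype K] [Fintype K'] in
theorem pg5_conn_sh (P : PG K K') (hc : ∀ (a : Vx 2) (ω : Set (Vx 2 × K')) (u v : Vx 2 × K),
      P.gr.Conn {e | ((e.1 + a, e.2) : Vx 2 × K') ∈ ω} u v ↔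
      P.gr.Conn ω (u.1 + a, u.2) (v.1 + a, v.2)) (a : Vx 2) (ω : Vx 2 × K' → Bool)
      (u v : Vx 2 × K) :
    P.gr.Conn (op1 (shP a ω)) u v ↔ P.gr.Conn (op1 ω) (u.1 + a, u.2) (v.1 + a, v.2) := by
  have h : op1 (shP a ω) = {e | ((e.1 + a, e.2) : Vx 2 × K') ∈ op1 ω} := by
    ext e; rfl
  rw [h, hc]

omit [Nonempty K] [Fintype K] [Fintype K'] in
theorem pg5_inf_sh (P : PG K K') (hc : ∀ (a : Vx 2) (ω : Set (Vx 2 × K')) (u v : Vx 2 × K),
      P.gr.Conn {e | ((e.1 + a, e.2) : Vx 2 × K') ∈ ω} u v ↔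
      P.gr.Conn ω (u.1 + a, u.2) (v.1 + a, v.2)) (a : Vx 2) (ω : Vx 2 × K' → Bool)
      (u : Vx 2 × K) :
    (P.gr.cl (op1 (shP a ω)) u).Infinite ↔ (P.gr.cl (op1 ω) (u.1 + a, u.2)).Infinite := by
  have hinj : Function.Injective (fun z : Vx 2 × K => ((z.1 + a, z.2) : Vx 2 × K)) := by
    rintro ⟨x, k⟩ ⟨y, l⟩ h
    simp only [Prod.mk.injEq, add_left_inj] at h
    exact Prod.ext h.1 h.2
  have himg : P.gr.cl (op1 ω) (u.1 + a, u.2)
      = (fun z : Vx 2 × K => ((z.1 + a, z.2) : Vx 2 × K)) '' (P.gr.cl (op1 (shP a ω)) u) := by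
    ext w
    constructor
    · intro hw
      refine ⟨(w.1 - a, w.2), ?_, ?_⟩
      · change P.gr.Conn (op1 (shP a ω)) u (w.1 - a, w.2)
        rw [pg5_conn_sh P hc]
        have hw' : P.gr.Conn (op1 ω) (u.1 + a, u.2) w := hw
        simpa using hw'
      · simp
    · rintro ⟨z, hz, rfl⟩
      exact (pg5_conn_sh P hc a ω u z).1 hz
  rw [himg, Set.infinite_image_iff hinj.injOn]

omit [Nonempty K] in
theorem pg5_N2_sh (P : PG K K') (a : Vx 2) (ω : Vx 2 × K' → Bool) :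
    shP a ω ∈ pg5_N2 P ↔ ω ∈ pg5_N2 P := by
  constructor
  · rintro ⟨u, v, hu, hv, huv⟩
    rw [pg5_inf_sh P (conn_sh P)] at hu hv
    rw [pg5_conn_sh P (conn_sh P)] at huv
    exact ⟨_, _, hu, hv, huv⟩
  · rintro ⟨u, v, hu, hv, huv⟩
    refine ⟨(u.1 - a, u.2), (v.1 - a, v.2), ?_, ?_, ?_⟩
    · rw [pg5_inf_sh P (conn_sh P)]; simpa using hu
    · rw [pg5_inf_sh P (conn_sh P)]; simpa using hv
    · rw [pg5_conn_sh P (conn_sh P)]; simpa using huv

omit [Fintype K] [Fintype K'] [Nonempty K] in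
theorem pg5_op1 (F : Finset (Vx 2 × K')) (ω : Vx 2 × K' → Bool) :
    op1 (opF F ω) = op1 ω ∪ (F : Set (Vx 2 × K')) := by
  classical
  ext e
  simp only [op1, opF, Set.mem_setOf_eq, Set.mem_union, Finset.mem_coe]
  by_cases h : e ∈ F
  · simp [h]
  · simp [h]

omit [Fintype K'] in
/-- move a cylinder event away from `F`. -/
theorem pg5_move (F : Finset (Vx 2 × K')) (D0 : Set (Vx 2 × K' → Bool)) (h : Lc D0) :
    ∃ a : Vx 2, ∀ ω : Vx 2 × K' → Bool, shP a (opF F ω) ∈ D0 ↔ shP a ω ∈ D0 := by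
  classical
  obtain ⟨E0, hE0⟩ := h
  obtain ⟨a, ha⟩ := Infinite.exists_notMem_finset
    ((F ×ˢ E0).image fun q : (Vx 2 × K') × (Vx 2 × K') => q.1.1 - q.2.1)
  refine ⟨a, fun ω => hE0 _ _ fun e he => ?_⟩
  have hn : ((e.1 + a, e.2) : Vx 2 × K') ∉ F := by
    intro hF
    apply ha
    rw [Finset.mem_image]
    refine ⟨((e.1 + a, e.2), e), Finset.mk_mem_product hF he, ?_⟩
    simp
  simp only [shP, opF]
  rw [if_neg hn]

theorem bk_unique (P : PG K K') (hP : P.Ok) (ν : Measure (Vx 2 × K' → Bool)) [IsProbabilityMeasure ν]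
    (hT : TIP ν) (hI : INSe ν) :
    ∀ᵐ ω ∂ν, ∀ u v : Vx 2 × K, (P.gr.cl (op1 ω) u).Infinite → (P.gr.cl (op1 ω) v).Infinite →
      P.gr.Conn (op1 ω) u v := by
  suffices hmain : ν (pg5_N2 P) = 0 by
    have h1 : ∀ᵐ ω ∂ν, ω ∉ pg5_N2 P := measure_eq_zero_iff_ae_notMem.1 hmain
    filter_upwards [h1] with ω hω u v hu hv
    by_contra hc
    exact hω ⟨u, v, hu, hv, hc⟩
  by_contra hne
  -- the tile
  obtain ⟨r, hr, hrp⟩ : ∃ r : ℕ, 1 ≤ r ∧ ν (pg5_N2r P r) ≠ 0 := by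
    by_contra hcon
    push Not at hcon
    apply hne
    apply measure_mono_null (pg5_iUnion P)
    rw [measure_iUnion_null_iff]
    intro r
    exact hcon (r + 1) (by omega)
  obtain ⟨p, hp⟩ : ∃ p, p = ν.real (pg5_N2r P r) := ⟨_, rfl⟩
  have hp0 : 0 < p := by
    rw [hp, measureReal_def]
    exact ENNReal.toReal_pos hrp (measure_ne_top _ _)
  -- almost surely at most two infinite clusters
  have hae : ∀ᵐ ω ∂ν, ∀ r' : ℕ, 1 ≤ r' → ¬ TriP P (op1 ω) r' 0 := by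
    rw [ae_all_iff]
    intro r'
    by_cases hr' : 1 ≤ r'
    · have h0 := no_triP P hP ν hT hI r' hr'
      rw [measureReal_eq_zero_iff] at h0
      have h1 : ∀ᵐ ω ∂ν, ω ∉ {ω : Vx 2 × K' → Bool | TriP P (op1 ω) r' 0} :=
        measure_eq_zero_iff_ae_notMem.1 h0
      filter_upwards [h1] with ω hω _
      exact hω
    · filter_upwards with ω h
      exact absurd h hr'
  have hF : ((pbE P r : Finset (Vx 2 × K')) : Set (Vx 2 × K')) = P.gr.ins (tl r 0) := by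
    ext e
    rw [Finset.mem_coe, mem_pbE P hP]
    simp only [Gr.ins, tl, Set.mem_setOf_eq, sub_zero]
  have hmerge : ∀ᵐ ω ∂ν, ω ∈ pg5_N2r P r → opF (pbE P r) ω ∉ pg5_N2 P := by
    filter_upwards [hae] with ω hω hN hN2
    obtain ⟨u, hu, v, hv, hui, hvi, hn⟩ := hN
    obtain ⟨a, b, ha, hb, hab⟩ := hN2
    have hm := merge_clusters P hP (op1 ω) r hr
      (fun v1 v2 v3 => two_clustersP P hP (op1 ω) hω v1 v2 v3) u v hu hv hui hvi hn a b
    rw [pg5_op1, hF] at ha hb hab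
    exact hab (hm ha hb)
  -- constants
  obtain ⟨C, hC, hCb⟩ := opF_bound ν hI (pbE P r) (p / 4) (by positivity)
  have hδ : 0 < p / (4 * (C + 1)) := by positivity
  obtain ⟨D0, hD0, hD0a⟩ := lc_approx ν (pg5_N2 P) (pg5_mN2 P hP) (p / (4 * (C + 1))) hδ
  obtain ⟨a, ha⟩ := pg5_move (pbE P r) D0 hD0
  obtain ⟨D, hD⟩ : ∃ D : Set (Vx 2 × K' → Bool), D = {ω | shP a ω ∈ D0} := ⟨_, rfl⟩
  have hDm : MeasurableSet D := by
    rw [hD]
    exact shP_meas a (lc_meas hD0)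
  have hDinv : ∀ ω : Vx 2 × K' → Bool, opF (pbE P r) ω ∈ D ↔ ω ∈ D := by
    intro ω
    rw [hD]
    exact ha ω
  have hN2m := pg5_mN2 P hP
  have hsd : ν.real (symmDiff (pg5_N2 P) D) ≤ p / (4 * (C + 1)) := by
    have h1 : symmDiff (pg5_N2 P) D = {ω | shP a ω ∈ symmDiff (pg5_N2 P) D0} := by
      ext ω
      simp only [Set.mem_symmDiff, Set.mem_setOf_eq, pg5_N2_sh, hD]
    rw [h1, hT a _ (hN2m.symmDiff (lc_meas hD0))]
    exact hD0a
  -- the inequality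
  have i1 : p ≤ ν.real (pg5_N2r P r ∩ D) + ν.real (symmDiff (pg5_N2 P) D) := by
    rw [hp]
    refine le_trans (measureReal_mono ?_ (measure_ne_top _ _)) (measureReal_union_le _ _)
    intro ω hω
    by_cases hd : ω ∈ D
    · exact Or.inl ⟨hω, hd⟩
    · right
      left
      obtain ⟨u, _, v, _, hui, hvi, hn⟩ := hω
      exact ⟨⟨u, v, hui, hvi, hn⟩, hd⟩
  have i2 : ν.real (pg5_N2r P r ∩ D) ≤ ν.real {ω | opF (pbE P r) ω ∈ (pg5_N2 P)ᶜ ∩ D} := by
    rw [measureReal_def, measureReal_def]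
    apply ENNReal.toReal_mono (measure_ne_top _ _)
    apply measure_mono_ae
    filter_upwards [hmerge] with ω hω hω2
    exact ⟨hω hω2.1, (hDinv ω).2 hω2.2⟩
  have i3 := hCb ((pg5_N2 P)ᶜ ∩ D) (hN2m.compl.inter hDm)
  have i4 : ν.real ((pg5_N2 P)ᶜ ∩ D) ≤ ν.real (symmDiff (pg5_N2 P) D) := by
    apply measureReal_mono _ (measure_ne_top _ _)
    rintro ω ⟨h1, h2⟩
    exact Or.inr ⟨h2, h1⟩
  have i5 : (C + 1) * ν.real (symmDiff (pg5_N2 P) D) ≤ p / 4 := by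
    calc (C + 1) * ν.real (symmDiff (pg5_N2 P) D) ≤ (C + 1) * (p / (4 * (C + 1))) :=
          mul_le_mul_of_nonneg_left hsd (by positivity)
      _ = p / 4 := by field_simp
  have i6 : C * ν.real ((pg5_N2 P)ᶜ ∩ D) ≤ C * ν.real (symmDiff (pg5_N2 P) D) :=
    mul_le_mul_of_nonneg_left i4 hC.le
  linarith

end H82.BX

end S_H82_BX_PG5

section S_H82_BX_LROF

/-!
# LROF: lower bounds on the correlations give long-range order (from H2/XY/FIN2)
-/

open MeasureTheory Set Filter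

noncomputable section

namespace H82.BX

open XYB

lemma corr_le_one (L : ℕ) [NeZero L] (h T : ℝ) (hh : 0 < h) (hT : 0 < T) (x : ℤ × ℤ) :
    corr L h T x ≤ 1 := by
  rw [rea L h T hh hT x, gE_eq]
  have hcont : Continuous (hTor L (1 / T) (1 / (4 * h * T))) := by
    unfold hTor ph
    have := continuous_cosC
    fun_prop
  have := isProb_gM _ hcont
  have hF : ∀ θ : Bool → ZMod L × ZMod L → Cir,
      cosC (ph θ 0) * cosC (ph θ ((x.1 : ZMod L), (x.2 : ZMod L))) ≤ 1 := by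
    intro θ
    have h1 := abs_cosC_le_one (ph θ 0)
    have h2 := abs_cosC_le_one (ph θ ((x.1 : ZMod L), (x.2 : ZMod L)))
    calc _ ≤ |cosC (ph θ 0) * cosC (ph θ ((x.1 : ZMod L), (x.2 : ZMod L)))| := le_abs_self _
      _ = |cosC (ph θ 0)| * |cosC (ph θ ((x.1 : ZMod L), (x.2 : ZMod L)))| := abs_mul _ _
      _ ≤ 1 * 1 := by gcongr
      _ = 1 := by norm_num
  have hFc : Continuous fun θ : Bool → ZMod L × ZMod L → Cir =>
      cosC (ph θ 0) * cosC (ph θ ((x.1 : ZMod L), (x.2 : ZMod L))) := by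
    unfold ph
    have := continuous_cosC
    fun_prop
  calc _ ≤ ∫ θ : Bool → ZMod L × ZMod L → Cir, (1 : ℝ)
        ∂gM (hTor L (1 / T) (1 / (4 * h * T))) := by
        refine integral_mono ?_ (integrable_const 1) hF
        exact hFc.integrable_of_hasCompactSupport (HasCompactSupport.of_compactSpace _)
    _ = 1 := by rw [integral_const]; simp only [smul_eq_mul, mul_one]; exact probReal_univ

theorem LRO_of_lower (m h T : ℝ) (hm : 0 < m) (hh : 0 < h) (hT : 0 < T)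
    (hx : ∀ x : ℤ × ℤ, ∃ L₀ : ℕ, ∀ L : ℕ, L₀ ≤ L → ∀ [NeZero L], m ≤ corr L h T x) :
    m ≤ liminf (fun x : ℤ × ℤ => liminf (fun L : ℕ => corr (L + 1) h T x) atTop) cofinite := by
  have hin : ∀ x : ℤ × ℤ, ∀ᶠ L : ℕ in atTop, m ≤ corr (L + 1) h T x := by
    intro x
    obtain ⟨L₀, hL⟩ := hx x
    filter_upwards [eventually_ge_atTop L₀] with L hLL
    exact hL (L + 1) (by omega)
  have hb : ∀ x : ℤ × ℤ, ∀ᶠ L : ℕ in atTop, corr (L + 1) h T x ≤ 1 := fun x =>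
    Eventually.of_forall fun L => corr_le_one (L + 1) h T hh hT x
  have h1 : ∀ x : ℤ × ℤ, m ≤ liminf (fun L : ℕ => corr (L + 1) h T x) atTop := by
    intro x
    refine le_liminf_of_le ?_ (hin x)
    exact (IsBoundedUnder.isCoboundedUnder_ge ⟨1, by simpa using hb x⟩)
  have h2 : ∀ x : ℤ × ℤ, liminf (fun L : ℕ => corr (L + 1) h T x) atTop ≤ 1 := by
    intro x
    refine liminf_le_of_le ⟨m, by simpa using hin x⟩ ?_
    intro b hb'
    obtain ⟨L, hL⟩ := (hb'.and (hb x)).exists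
    linarith
  refine le_liminf_of_le ?_ (Eventually.of_forall h1)
  refine IsBoundedUnder.isCoboundedUnder_ge ⟨1, ?_⟩
  rw [eventually_map]
  exact Eventually.of_forall h2


end H82.BX

end
end S_H82_BX_LROF

section S_H82_BX_NU5

/-!
# NU5: infinite clusters of `ω⁻` have positive probability

`hs_arm`: for all `n` and `v ∈ FN n`: `PM (EN n) (v ↔ outside of FN n) ≥ 1/(4C'+1)`-type bound.  For fixed `k` and `n > k + nm v.1` the event implies the cylinder event `Ak = {v ↔ {nm ≥ k} inside pbE HH (k+1)}` (or any local version: the first exit of the path, `exit_pg`),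
so `ν⁻(Ak) ≥ 1/(4C'+1)` for all `k` (`nu_pm`; `PM` with `B = EN n` versus `B = F`: the factors of the other edges sum to one); the decreasing intersection of the `Ak` is contained in `{cluster of v infinite}` (`inf_pg`, finite degree: the cluster contains vertices
with `nm ≥ k` for every `k`).
-/

set_option autoImplicit false

open Finset MeasureTheory Filter Topology

namespace H82.BX

open H82.IC XYB

section em
variable {V E : Type} [DecidableEq E]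

theorem NU5_em_insert (w : ℤ → ℝ) (G : Gr V E) (B : Finset E) (e : E) (he : e ∉ B) (h : V → ℤ)
    (φ : (E → Bool) → ℝ) (hφ : ∀ o o' : E → Bool, (∀ a, a ≠ e → o a = o' a) → φ o = φ o') :
    em w G (insert e B) h φ = em w G B h φ := by
  classical
  unfold em
  set q : E → ℝ := fun a => qm w (h (G.s a)) (h (G.r a)) with hq
  let ε : ↥(insert e B) ≃ Option ↥B := Finset.subtypeInsertEquivOption he
  have hs : ∀ b : ↥B, ε.symm (some b) = ⟨b.1, mem_insert_of_mem b.2⟩ := by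
    intro b; rfl
  have hn : ε.symm none = ⟨e, mem_insert_self e B⟩ := by rfl
  let E2 : (↥(insert e B) → Bool) ≃ Bool × (↥B → Bool) :=
    (Equiv.arrowCongr ε (Equiv.refl Bool)).trans (Equiv.piOptionEquivProd (β := fun _ => Bool))
  have key : ∀ ω : ↥(insert e B) → Bool,
      (∏ a : ↥(insert e B), if ω a then q a.1 else 1 - q a.1) * φ (g0 (insert e B) ω) =
      (if (E2 ω).1 then q e else 1 - q e) *
        ((∏ a : ↥B, if (E2 ω).2 a then q a.1 else 1 - q a.1) * φ (g0 B (E2 ω).2)) := by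
    intro ω
    have h1 : (E2 ω).1 = ω ⟨e, mem_insert_self e B⟩ := by
      change ω (ε.symm none) = _
      rw [hn]
    have h2 : ∀ a : ↥B, (E2 ω).2 a = ω ⟨a.1, mem_insert_of_mem a.2⟩ := by
      intro a
      change ω (ε.symm (some a)) = _
      rw [hs]
    have h3 : (∏ a : ↥(insert e B), if ω a then q a.1 else 1 - q a.1) =
        (if (E2 ω).1 then q e else 1 - q e) *
          ∏ a : ↥B, if (E2 ω).2 a then q a.1 else 1 - q a.1 := by
      rw [← Equiv.prod_comp ε.symm, Fintype.prod_option]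
      congr 1
    have h4 : φ (g0 (insert e B) ω) = φ (g0 B (E2 ω).2) := by
      refine hφ _ _ fun a ha => ?_
      unfold g0
      by_cases hb : a ∈ B
      · rw [dif_pos hb, dif_pos (mem_insert_of_mem hb), h2]
      · rw [dif_neg hb, dif_neg]
        intro hc
        rcases Finset.mem_insert.1 hc with h5 | h5
        · exact ha h5
        · exact hb h5
    rw [h3, h4, mul_assoc]
  rw [Finset.sum_congr rfl fun ω _ => key ω]
  rw [Equiv.sum_comp E2 (fun p : Bool × (↥B → Bool) => (if p.1 then q e else 1 - q e) *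
        ((∏ a : ↥B, if p.2 a then q a.1 else 1 - q a.1) * φ (g0 B p.2)))]
  rw [Fintype.sum_prod_type]
  rw [Fintype.sum_bool]
  simp only [if_true, Bool.false_eq_true, if_false]
  rw [← Finset.mul_sum, ← Finset.mul_sum, ← add_mul]
  rw [add_sub_cancel, one_mul]

theorem NU5_em_local (w : ℤ → ℝ) (G : Gr V E) (F B : Finset E) (hFB : F ⊆ B) (h : V → ℤ)
    (φ : (E → Bool) → ℝ) (hφ : ∀ o o' : E → Bool, (∀ a ∈ F, o a = o' a) → φ o = φ o') :
    em w G B h φ = em w G F h φ := by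
  classical
  have key : ∀ D : Finset E, Disjoint D F → em w G (D ∪ F) h φ = em w G F h φ := by
    intro D
    induction D using Finset.induction_on with
    | empty => intro _; rw [Finset.empty_union]
    | @insert e D he ih =>
      intro hd
      rw [Finset.disjoint_insert_left] at hd
      rw [Finset.insert_union, NU5_em_insert w G (D ∪ F) e, ih hd.2]
      · rw [Finset.mem_union]
        rintro (h1 | h1)
        · exact he h1
        · exact hd.1 h1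
      · intro o o' ho
        refine hφ _ _ fun a ha => ho a ?_
        rintro rfl
        exact hd.1 ha
  have h1 := key (B \ F) Finset.sdiff_disjoint
  rwa [Finset.sdiff_union_of_subset hFB] at h1

theorem NU5_em_le (w : ℤ → ℝ) (hw : WOk w) (G : Gr V E) (B : Finset E) (h : V → ℤ)
    (φ ψ : (E → Bool) → ℝ) (hφ : ∀ o, φ o ≤ ψ o) : em w G B h φ ≤ em w G B h ψ := by
  unfold em
  refine Finset.sum_le_sum fun ω _ => mul_le_mul_of_nonneg_left (hφ _) ?_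
  refine Finset.prod_nonneg fun e _ => ?_
  have := qm_bd w hw (h (G.s e.1)) (h (G.r e.1))
  split_ifs
  · exact this.1
  · linarith [this.2]

end em

theorem NU5_ind_nn (p : Prop) : 0 ≤ ind p ∧ ind p ≤ 1 := by
  unfold ind
  split_ifs <;> norm_num

theorem NU5_ind_mono {p q : Prop} (h : p → q) : ind p ≤ ind q := by
  classical
  unfold ind
  by_cases hp : p
  · rw [if_pos hp, if_pos (h hp)]
  · rw [if_neg hp]
    split_ifs <;> norm_num

theorem NU5_PBd_em {V E : Type} [DecidableEq V] [DecidableEq E] (F : Finset V) (w : ℤ → ℝ) (hw : WOk w)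
    (G : Gr V E) (B : Finset E) (φ : (E → Bool) → ℝ) (h0 : ∀ o, 0 ≤ φ o ∧ φ o ≤ 1) :
    PBd F (fun h => em w G B h φ) := by
  refine PBd_bdd F _ 1 fun h => ?_
  have := em_bd w hw G B h φ (fun o => (h0 o).1) (fun o => (h0 o).2)
  rw [abs_le]
  constructor <;> linarith [this.1, this.2]

/-- the local event. -/
def NU5_A (v : Vx 2 × Bool) (k : ℕ) : Set (Vx 2 × Fin 3 → Bool) :=
  {ω | ∃ b ∈ pbd Bool k, HH.gr.Conn (op1 ω ∩ pbE HH k) v b}

theorem NU5_A_loc (v : Vx 2 × Bool) (k : ℕ) (ω ω' : Vx 2 × Fin 3 → Bool)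
    (h : ∀ e ∈ pbE HH k, ω e = ω' e) : ω ∈ NU5_A v k ↔ ω' ∈ NU5_A v k := by
  have h1 : op1 ω ∩ (pbE HH k : Set (Vx 2 × Fin 3)) = op1 ω' ∩ pbE HH k := by
    ext e
    constructor
    · rintro ⟨h2, h3⟩
      refine ⟨?_, h3⟩
      change ω' e = true
      rw [← h e (Finset.mem_coe.1 h3)]
      exact h2
    · rintro ⟨h2, h3⟩
      refine ⟨?_, h3⟩
      change ω e = true
      rw [h e (Finset.mem_coe.1 h3)]
      exact h2
  unfold NU5_A
  rw [Set.mem_setOf_eq, Set.mem_setOf_eq, h1]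

theorem NU5_nm_lt {n : ℕ} {v : Vx 2 × Bool} (h : nm v.1 < n) : v ∈ FN n := by
  rw [mem_FN]
  intro i
  have := G1_le_nm v.1 i
  omega

theorem NU5_nm_ge {n : ℕ} {v : Vx 2 × Bool} (h : v ∉ FN n) : n ≤ nm v.1 := by
  by_contra hc
  exact h (NU5_nm_lt (by omega))

theorem NU5_pbE_EN {k n : ℕ} (h : k < n) : pbE HH k ⊆ EN n := by
  intro e he
  rw [mem_pbE HH HH_ok] at he
  exact ((FN_Bd n).mem e).2 (Or.inl (NU5_nm_lt (by omega)))

theorem nu_arm (κ C' : ℝ) (hκ : 0 < κ) (h1 : wk κ 0 ≤ 2 * wk κ 1)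
    (hM : ∀ n : ℕ, ∀ i ∈ FN n, En (wk κ) n (fun h => (h i : ℝ) ^ 2) ≤ C')
    (ν : Measure (Vx 2 × Fin 3 → Fin 3)) [IsProbabilityMeasure ν] (hν : NuL κ ν)
    (v : Vx 2 × Bool) : 0 < (ν.map (stt 1)).real {ω | (HH.gr.cl (op1 ω) v).Infinite} := by
  classical
  have hw := wk_ok κ hκ
  -- second moments are nonnegative
  have hnn : ∀ n : ℕ, 0 ≤ En (wk κ) n (fun h => (h v : ℝ) ^ 2) := by
    intro n
    have h2 : PBd (FN n) (fun h : (Vx 2 × Bool → ℤ) => (h v : ℝ) ^ 2) := by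
      have h3 := PBd_mul (FN n) _ _ (PBd_h (FN n) v) (PBd_h (FN n) v)
      simpa only [sq] using h3
    have h4 := Eh_mono HH.gr (FN n) (EN n) (FN_Bd n) (wk κ) hw (fun _ => (0 : ℝ))
      (fun h => (h v : ℝ) ^ 2) (PBd_bdd _ _ 0 (fun _ => by simp)) h2 (fun h => sq_nonneg _)
    rw [Eh_one HH.gr (FN n) (EN n) (FN_Bd n) (wk κ) hw 0] at h4
    exact h4
  have hv0 : v ∈ FN (nm v.1 + 1) := NU5_nm_lt (by omega)
  have hC : 0 ≤ C' := (hnn _).trans (hM _ v hv0)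
  set δ : ℝ := 1 / (4 * C' + 1) with hδ
  have hδ0 : 0 < δ := by positivity
  -- the local events
  have hA : ∀ k, nm v.1 ≤ k → δ ≤ ν.real {η | stt 1 η ∈ NU5_A v k} := by
    intro k hk
    have hlim := nu_pm κ hκ h1 ν hν (pbE HH k) (NU5_A v k) (NU5_A_loc v k)
    refine ge_of_tendsto hlim ?_
    filter_upwards [eventually_gt_atTop k] with n hn
    have hvn : v ∈ FN n := NU5_nm_lt (by omega)
    have h2 := hs_arm HH.gr (FN n) (EN n) (FN_Bd n) (wk κ) hw v hvn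
    have h3 : δ ≤ 1 / (4 * Eh HH.gr (FN n) (EN n) (wk κ) (fun h => (h v : ℝ) ^ 2) + 1) := by
      rw [hδ]
      have h4 := hM n v hvn
      have h5 := hnn n
      unfold En at h4 h5
      exact one_div_le_one_div_of_le (by linarith) (by linarith)
    refine h3.trans (h2.trans ?_)
    have h6 : ∀ o : Vx 2 × Fin 3 → Bool, ind (∃ u, u ∉ FN n ∧ HH.gr.Conn (op1 o) v u) ≤
        ind (o ∈ NU5_A v k) := by
      intro o
      refine NU5_ind_mono ?_
      rintro ⟨u, hu, hc⟩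
      exact exit_pg HH HH_ok hk (lt_of_lt_of_le hn (NU5_nm_ge hu)) hc
    have h7 : PM HH.gr (FN n) (EN n) (wk κ) (EN n)
        (fun o => ind (∃ u, u ∉ FN n ∧ HH.gr.Conn (op1 o) v u)) ≤
        PM HH.gr (FN n) (EN n) (wk κ) (EN n) (fun o => ind (o ∈ NU5_A v k)) := by
      unfold PM
      refine Eh_mono HH.gr (FN n) (EN n) (FN_Bd n) (wk κ) hw _ _ ?_ ?_ ?_
      · exact NU5_PBd_em _ _ hw _ _ _ (fun o => NU5_ind_nn _)
      · exact NU5_PBd_em _ _ hw _ _ _ (fun o => NU5_ind_nn _)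
      · intro h
        exact NU5_em_le _ hw _ _ _ _ _ h6
    refine h7.trans (le_of_eq ?_)
    unfold PM
    refine Eh_congr _ _ _ _ _ _ fun h => ?_
    refine NU5_em_local _ _ _ _ (NU5_pbE_EN hn) _ _ ?_
    intro o o' ho
    have h8 := NU5_A_loc v k o o' ho
    rw [show (o ∈ NU5_A v k) = (o' ∈ NU5_A v k) from propext h8]
  -- measurability
  have hst : Measurable (stt 1 : (Vx 2 × Fin 3 → Fin 3) → Vx 2 × Fin 3 → Bool) := by
    rw [measurable_pi_iff]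
    intro e
    have h2 : Measurable (fun a : Fin 3 => decide (a = 1)) := measurable_of_countable _
    exact h2.comp (measurable_pi_apply e)
  let Ck : ℕ → Set (Vx 2 × Fin 3 → Bool) := fun k =>
    {ω | ∃ b : Vx 2 × Bool, k ≤ nm b.1 ∧ HH.gr.Conn (op1 ω) v b}
  have hCm : ∀ k, MeasurableSet (Ck k) := by
    intro k
    have h2 : Ck k = ⋃ b : Vx 2 × Bool, {ω | k ≤ nm b.1 ∧ HH.gr.Conn (op1 ω) v b} := by
      ext ω
      simp only [Ck, Set.mem_setOf_eq, Set.mem_iUnion]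
    rw [h2]
    refine MeasurableSet.iUnion fun b => ?_
    by_cases hb : k ≤ nm b.1
    · have h3 := meas_connP HH HH_ok ∅ v b
      simp only [Set.diff_empty] at h3
      simpa only [hb, true_and] using h3
    · simp only [hb, false_and, Set.setOf_false, MeasurableSet.empty]
  have hanti : Antitone Ck := by
    intro k l hkl ω
    rintro ⟨b, hb, hc⟩
    exact ⟨b, hkl.trans hb, hc⟩
  have hCA : ∀ k, nm v.1 ≤ k + 1 → NU5_A v (k + 1) ⊆ Ck k := by
    intro k _ ω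
    rintro ⟨b, hb, hc⟩
    rw [mem_pbd] at hb
    exact ⟨b, by omega, conn_mono _ Set.inter_subset_left hc⟩
  have hint : (⋂ k, Ck k) = {ω | (HH.gr.cl (op1 ω) v).Infinite} := by
    ext ω
    rw [Set.mem_iInter, Set.mem_setOf_eq, inf_pg HH]
    rfl
  haveI : IsProbabilityMeasure (ν.map (stt 1 : (Vx 2 × Fin 3 → Fin 3) → Vx 2 × Fin 3 → Bool)) :=
    Measure.isProbabilityMeasure_map hst.aemeasurable
  have hlow : ∀ k, nm v.1 ≤ k → δ ≤ (ν.map (stt 1)).real (Ck k) := by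
    intro k hk
    have h2 := hA (k + 1) (by omega)
    rw [map_measureReal_apply hst (hCm k)]
    refine h2.trans (measureReal_mono ?_)
    intro η hη
    exact hCA k (by omega) hη
  have hten : Tendsto (fun k => (ν.map (stt 1)).real (Ck k)) atTop
      (𝓝 ((ν.map (stt 1)).real (⋂ k, Ck k))) := by
    have h2 := tendsto_measure_iInter_atTop (μ := ν.map (stt 1)) (s := Ck)
      (fun k => (hCm k).nullMeasurableSet) hanti ⟨0, measure_ne_top _ _⟩
    exact (ENNReal.tendsto_toReal (measure_ne_top _ _)).comp h2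
  rw [← hint]
  refine lt_of_lt_of_le hδ0 (ge_of_tendsto hten ?_)
  filter_upwards [eventually_ge_atTop (nm v.1)] with k hk
  exact hlow k hk

end H82.BX

end S_H82_BX_NU5

section S_H82_BX_NU2

/-!
# NU2: properties of the limit law of `ω⁻` (assembly)

`mom` gives `C'`; `nu0` gives `ν` with `NuL κ ν`; let `ν⁻ = ν.map (stt 1)`.  `TIP ν⁻`: from `nu_tip` (`stt` commutes with shifts, `stt 1` is measurable); `ins`: `nu_ins`; `fkg`: `nu_fkg`; `mix`: `nu_mix`; `arm`: `nu_arm`; `sy1`, `sy2` from `nu_s1`, `nu_s2` (`stt 1 (η ∘ sE1) = (stt 1 η) ∘ sE1`);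
the flip invariance is `nu_fl`.
-/

set_option autoImplicit false

open Finset MeasureTheory Filter Topology

namespace H82.BX

open H82.IC XYB

/-- the properties of `ω⁻` used in the percolation argument. -/
structure PerOk (ν : Measure (Vx 2 × Fin 3 → Bool)) : Prop where
  prob : IsProbabilityMeasure ν
  tip : TIP ν
  ins : INSe ν
  fkg : ∀ X Y : Set (Vx 2 × Fin 3 → Bool), Lc X → Lc Y → Inc1 X → Inc1 Y →
    ν.real X * ν.real Y ≤ ν.real (X ∩ Y)
  mix : ∀ X Y : Set (Vx 2 × Fin 3 → Bool), Lc X → Lc Y → Inc1 X → Inc1 Y → ∀ ε : ℝ, 0 < ε →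
    ∃ k0 : ℕ, ∀ k : ℕ, k0 ≤ k →
      ν.real (X ∩ {ω | shP (Pi.single 0 (k : ℤ)) ω ∈ Y}) ≤ ν.real X * ν.real Y + ε
  arm : ∀ v : Vx 2 × Bool, 0 < ν.real {ω | (HH.gr.cl (op1 ω) v).Infinite}
  sy1 : ∀ X : Set (Vx 2 × Fin 3 → Bool), MeasurableSet X → ν.real {ω | ω ∘ sE1 ∈ X} = ν.real X
  sy2 : ∀ X : Set (Vx 2 × Fin 3 → Bool), MeasurableSet X → ν.real {ω | ω ∘ sE2 ∈ X} = ν.real X

theorem nu2_stt {E : Type} (x : Fin 3) : Measurable (stt x : (E → Fin 3) → E → Bool) := by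
  refine measurable_pi_iff.2 fun e => ?_
  exact (measurable_of_countable (fun a : Fin 3 => decide (a = x))).comp (measurable_pi_apply e)

theorem nu2_comp {E : Type} (g : E → E) : Measurable (fun ω : E → Bool => fun e => ω (g e)) :=
  measurable_pi_iff.2 fun e => measurable_pi_apply (g e)

theorem nu_props (κ C a : ℝ) (hκ : 0 < κ) (ha : 0 < a) (h1 : wk κ 0 ≤ 2 * wk κ 1)
    (hED : ∀ (n : ℕ) (p q : ↥(bx 2 n) ⊕ (↥(EN n) × Fin 5)),
      gE (hG (C6 (TB n)) (fun _ => κ)) (fun θ => cosC (θ p) * cosC (θ q)) ≤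
        C * Real.exp (-a * nm (bp p - bp q))) :
    ∃ ν : Measure (Vx 2 × Fin 3 → Fin 3), IsProbabilityMeasure ν ∧
      (∀ X : Set (Vx 2 × Fin 3 → Fin 3), MeasurableSet X → ν.real {η | fl3 ∘ η ∈ X} = ν.real X) ∧
      PerOk (ν.map (stt 1)) := by
  obtain ⟨C', hC', hM, hMx⟩ := mom κ C a hκ ha hED
  obtain ⟨ν, hprob, hν⟩ := nu0 κ C' hκ h1 hM
  have hs := nu2_stt (E := Vx 2 × Fin 3) 1
  refine ⟨ν, hprob, fun X hX => nu_fl κ hκ h1 ν hν X hX, ?_⟩
  refine ⟨Measure.isProbabilityMeasure_map hs.aemeasurable, ?_, nu_ins κ C' hκ h1 hM ν hν,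
    nu_fkg κ hκ h1 ν hν, nu_mix κ C' a hκ ha h1 hC' hMx ν hν (nu_tip κ C' hκ h1 hM ν hν), nu_arm κ C' hκ h1 hM ν hν, ?_, ?_⟩
  · intro b X hX
    have hsh : MeasurableSet {ω : Vx 2 × Fin 3 → Bool | shP b ω ∈ X} :=
      (nu2_comp (fun e : Vx 2 × Fin 3 => (e.1 + b, e.2))) hX
    rw [map_measureReal_apply hs hsh, map_measureReal_apply hs hX]
    exact nu_tip κ C' hκ h1 hM ν hν b (stt 1 ⁻¹' X) (hs hX)
  · intro X hX
    have hsh : MeasurableSet {ω : Vx 2 × Fin 3 → Bool | ω ∘ sE1 ∈ X} := (nu2_comp sE1) hX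
    rw [map_measureReal_apply hs hsh, map_measureReal_apply hs hX]
    exact nu_s1 κ hκ h1 ν hν (stt 1 ⁻¹' X) (hs hX)
  · intro X hX
    have hsh : MeasurableSet {ω : Vx 2 × Fin 3 → Bool | ω ∘ sE2 ∈ X} := (nu2_comp sE2) hX
    rw [map_measureReal_apply hs hsh, map_measureReal_apply hs hX]
    exact nu_s2 κ hκ h1 ν hν (stt 1 ⁻¹' X) (hs hX)

end H82.BX

end S_H82_BX_NU2

section S_H82_BX_PER

/-!
# PER: `ω⁻` percolates almost surely

`A_{K,N}` = `{some vertex of Λ_K is connected to {nm ≥ N} inside pbE HH (N+1)}`-type cylinder event, decreasing in `N` to `I_K = {some vertex of Λ_K has an infinite cluster}`, `I_K` increasing to `I = {there is an infinite cluster}`, `p = ν(I) > 0`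
(`arm`), `I` is shift invariant.  Let `δ > 0`; choose `K` with `ν(I_K) ≥ p - δ` and `N` with `ν(A_{K,N}) ≤ ν(I_K) + δ ≤ p + δ`.  For `k` large (`mix`):
`ν(A ∩ τ_k A) ≤ ν(A)² + δ ≤ (p+δ)² + δ`, while `A ∩ τ_k A ⊇ I_K ∩ τ_k I_K`, both subsets of `I` of probability `≥ p - δ`: `ν ≥ p - 2δ`.  So `p - 2δ ≤ (p+δ)² + δ` for all `δ`: `p ≤ p²`, `p = 1`.
-/

set_option autoImplicit false

open Finset MeasureTheory Filter Topology

namespace H82.BX

open H82.IC XYB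

/-- cylinder approximation of `v` having an infinite cluster. -/
def per_Av (v : Vx 2 × Bool) (n : ℕ) : Set (Vx 2 × Fin 3 → Bool) :=
  {ω | ∀ m : ℕ, m ≤ n → nm v.1 ≤ m →
    ∃ b ∈ pbd Bool m, HH.gr.Conn (op1 ω ∩ (pbE HH m : Set (Vx 2 × Fin 3))) v b}

/-- some vertex of the box satisfies `per_Av`. -/
def per_U (K n : ℕ) : Set (Vx 2 × Fin 3 → Bool) :=
  {ω | ∃ v : Vx 2 × Bool, nm v.1 ≤ K ∧ ω ∈ per_Av v n}

/-- some vertex of the box has an infinite cluster. -/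
def per_I (K : ℕ) : Set (Vx 2 × Fin 3 → Bool) :=
  {ω | ∃ v : Vx 2 × Bool, nm v.1 ≤ K ∧ (HH.gr.cl (op1 ω) v).Infinite}

/-- some vertex has an infinite cluster. -/
def per_J : Set (Vx 2 × Fin 3 → Bool) :=
  {ω | ∃ v : Vx 2 × Bool, (HH.gr.cl (op1 ω) v).Infinite}

theorem per_op_mono {ω ω' : Vx 2 × Fin 3 → Bool} (h : ∀ e, ω e = true → ω' e = true) :
    op1 ω ⊆ op1 ω' := fun e he => h e he

theorem per_Av_mono (v : Vx 2 × Bool) {n n' : ℕ} (h : n ≤ n') : per_Av v n' ⊆ per_Av v n :=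
  fun _ hω m hm hv => hω m (hm.trans h) hv

theorem per_Av_lc (n : ℕ) (v : Vx 2 × Bool) (ω ω' : Vx 2 × Fin 3 → Bool)
    (h : ∀ e ∈ pbE HH n, ω e = ω' e) (hω : ω ∈ per_Av v n) : ω' ∈ per_Av v n := by
  intro m hm hv
  obtain ⟨b, hb, hc⟩ := hω m hm hv
  refine ⟨b, hb, ?_⟩
  have h1 : op1 ω' ∩ (pbE HH m : Set (Vx 2 × Fin 3)) = op1 ω ∩ (pbE HH m : Set (Vx 2 × Fin 3)) := by
    ext e
    simp only [Set.mem_inter_iff, Finset.mem_coe, and_congr_left_iff]
    intro he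
    have h2 := h e (pbE_mono HH HH_ok hm he)
    simp only [op1, Set.mem_setOf_eq, h2]
  rw [h1]; exact hc

theorem per_U_lc (K n : ℕ) : Lc (per_U K n) := by
  refine ⟨pbE HH n, fun ω ω' h => ⟨?_, ?_⟩⟩
  · rintro ⟨v, hv, h1⟩
    exact ⟨v, hv, per_Av_lc n v ω ω' h h1⟩
  · rintro ⟨v, hv, h1⟩
    exact ⟨v, hv, per_Av_lc n v ω' ω (fun e he => (h e he).symm) h1⟩

theorem per_U_inc (K n : ℕ) : Inc1 (per_U K n) := by
  rintro ω ω' h ⟨v, hv, h1⟩
  refine ⟨v, hv, fun m hm hvm => ?_⟩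
  obtain ⟨b, hb, hc⟩ := h1 m hm hvm
  exact ⟨b, hb, conn_mono _ (Set.inter_subset_inter_left _ (per_op_mono h)) hc⟩

theorem per_inf_sub (v : Vx 2 × Bool) (n : ℕ) (ω : Vx 2 × Fin 3 → Bool)
    (h : (HH.gr.cl (op1 ω) v).Infinite) : ω ∈ per_Av v n := by
  intro m _ hv
  obtain ⟨y, hy, hc⟩ := (inf_pg HH (op1 ω) v).1 h (m + 1)
  exact exit_pg HH HH_ok hv hy hc

theorem per_sub_inf (v : Vx 2 × Bool) (ω : Vx 2 × Fin 3 → Bool)
    (h : ∀ n, ω ∈ per_Av v n) : (HH.gr.cl (op1 ω) v).Infinite := by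
  rw [inf_pg]
  intro n
  obtain ⟨b, hb, hc⟩ := h (max (n + 1) (nm v.1)) (max (n + 1) (nm v.1)) le_rfl (le_max_right _ _)
  refine ⟨b, ?_, conn_mono _ Set.inter_subset_left hc⟩
  have h1 := ((mem_pbd _ b).1 hb).2
  have h2 := le_max_left (n + 1) (nm v.1)
  omega

theorem per_iInter (K : ℕ) : ⋂ n, per_U K n = per_I K := by
  ext ω
  constructor
  · intro h
    rw [Set.mem_iInter] at h
    by_contra hc
    have h1 : ∀ v ∈ pbx Bool K, ∃ n, ω ∉ per_Av v n := by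
      intro v hv
      by_contra hcc
      push Not at hcc
      exact hc ⟨v, (mem_pbx K v).1 hv, per_sub_inf v ω hcc⟩
    choose! f hf using h1
    obtain ⟨v, hv, h2⟩ := h ((pbx Bool K).sup f)
    have hv' := (mem_pbx K v).2 hv
    exact hf v hv' (per_Av_mono v (Finset.le_sup hv') h2)
  · rintro ⟨v, hv, h⟩
    rw [Set.mem_iInter]
    intro n
    exact ⟨v, hv, per_inf_sub v n ω h⟩

theorem per_iUnion : ⋃ K, per_I K = per_J := by
  ext ω
  constructor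
  · intro h
    obtain ⟨K, v, _, h⟩ := Set.mem_iUnion.1 h
    exact ⟨v, h⟩
  · rintro ⟨v, h⟩
    exact Set.mem_iUnion.2 ⟨nm v.1, v, le_rfl, h⟩

theorem per_mI (K : ℕ) : MeasurableSet (per_I K) := by
  rw [← per_iInter]
  exact MeasurableSet.iInter fun n => lc_meas (per_U_lc K n)

theorem per_mJ : MeasurableSet per_J := by
  rw [← per_iUnion]
  exact MeasurableSet.iUnion fun K => per_mI K

theorem per_J_sh (a : Vx 2) (ω : Vx 2 × Fin 3 → Bool) (h : shP a ω ∈ per_J) : ω ∈ per_J := by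
  obtain ⟨v, hv⟩ := h
  rw [pg5_inf_sh HH (conn_sh HH)] at hv
  exact ⟨_, hv⟩

theorem per_one (ν : Measure (Vx 2 × Fin 3 → Bool)) (h : PerOk ν) (ε : ℝ) (hε : 0 < ε) :
    ∃ K : ℕ, 1 - ε ≤ ν.real {ω | ∃ v : Vx 2 × Bool, nm v.1 ≤ K ∧ (HH.gr.cl (op1 ω) v).Infinite} := by
  have hp := h.prob
  -- limits
  have hT1 : Tendsto (fun K => ν.real (per_I K)) atTop (𝓝 (ν.real per_J)) := by
    have h1 : Tendsto (fun K => ν (per_I K)) atTop (𝓝 (ν per_J)) := by
      rw [← per_iUnion]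
      refine tendsto_measure_iUnion_atTop ?_
      intro K K' hK ω hω
      obtain ⟨v, hv, hi⟩ := hω
      exact ⟨v, hv.trans hK, hi⟩
    exact (ENNReal.tendsto_toReal (measure_ne_top _ _)).comp h1
  have hT2 : ∀ K, Tendsto (fun n => ν.real (per_U K n)) atTop (𝓝 (ν.real (per_I K))) := by
    intro K
    have h1 : Tendsto (fun n => ν (per_U K n)) atTop (𝓝 (ν (per_I K))) := by
      rw [← per_iInter]
      refine tendsto_measure_iInter_atTop (fun n => (lc_meas (per_U_lc K n)).nullMeasurableSet) ?_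
        ⟨0, measure_ne_top _ _⟩
      intro n n' hn ω hω
      obtain ⟨v, hv, hi⟩ := hω
      exact ⟨v, hv, per_Av_mono v hn hi⟩
    exact (ENNReal.tendsto_toReal (measure_ne_top _ _)).comp h1
  have hIJ : ∀ K, ν.real (per_I K) ≤ ν.real per_J := by
    intro K
    refine measureReal_mono ?_
    rintro ω ⟨v, _, hi⟩
    exact ⟨v, hi⟩
  have hIU : ∀ K n, per_I K ⊆ per_U K n := by
    intro K n ω hω
    rw [← per_iInter] at hω
    exact Set.mem_iInter.1 hω n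
  have hpos : 0 < ν.real per_J := by
    refine lt_of_lt_of_le (h.arm (0, false)) (measureReal_mono ?_)
    intro ω hω
    exact ⟨_, hω⟩
  have hkey : ∀ δ : ℝ, 0 < δ → ν.real per_J - 2 * δ ≤ (ν.real per_J + δ) ^ 2 + δ := by
    intro δ hδ
    obtain ⟨K, hK⟩ : ∃ K, ν.real per_J - δ ≤ ν.real (per_I K) := by
      have h1 := hT1.eventually (lt_mem_nhds (show ν.real per_J - δ < ν.real per_J by linarith))
      obtain ⟨K, hK⟩ := h1.exists
      exact ⟨K, hK.le⟩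
    obtain ⟨n, hn⟩ : ∃ n, ν.real (per_U K n) ≤ ν.real (per_I K) + δ := by
      have h1 := (hT2 K).eventually (gt_mem_nhds (show ν.real (per_I K) < ν.real (per_I K) + δ by linarith))
      obtain ⟨n, hn⟩ := h1.exists
      exact ⟨n, hn.le⟩
    obtain ⟨k0, hk0⟩ := h.mix (per_U K n) (per_U K n) (per_U_lc K n) (per_U_lc K n) (per_U_inc K n)
      (per_U_inc K n) δ hδ
    have h1 := hk0 k0 le_rfl
    set a : Vx 2 := Pi.single 0 (k0 : ℤ) with ha
    have h2 : ν.real (per_I K ∩ {ω | shP a ω ∈ per_I K}) ≤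
        ν.real (per_U K n ∩ {ω | shP a ω ∈ per_U K n}) := by
      refine measureReal_mono ?_
      rintro ω ⟨h3, h4⟩
      exact ⟨hIU K n h3, hIU K n h4⟩
    have hm2 : MeasurableSet {ω : Vx 2 × Fin 3 → Bool | shP a ω ∈ per_I K} :=
      (shP_meas a) (per_mI K)
    have h3 : ν.real {ω | shP a ω ∈ per_I K} = ν.real (per_I K) := h.tip a _ (per_mI K)
    have h4 : ν.real (per_I K ∪ {ω | shP a ω ∈ per_I K}) + ν.real (per_I K ∩ {ω | shP a ω ∈ per_I K}) =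
        ν.real (per_I K) + ν.real {ω | shP a ω ∈ per_I K} :=
      measureReal_union_add_inter hm2
    have h5 : ν.real (per_I K ∪ {ω | shP a ω ∈ per_I K}) ≤ ν.real per_J := by
      refine measureReal_mono ?_
      rintro ω (h6 | h6)
      · obtain ⟨v, _, hi⟩ := h6
        exact ⟨v, hi⟩
      · refine per_J_sh a ω ?_
        obtain ⟨v, _, hi⟩ := h6
        exact ⟨v, hi⟩
    have h6 := hIJ K
    have h7 : ν.real (per_U K n) ≤ ν.real per_J + δ := by linarith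
    have h8 : (0 : ℝ) ≤ ν.real (per_U K n) := measureReal_nonneg
    have h9 : ν.real (per_U K n) * ν.real (per_U K n) ≤ (ν.real per_J + δ) ^ 2 := by
      rw [sq]
      exact mul_le_mul h7 h7 h8 (by linarith)
    linarith
  have hone : 1 ≤ ν.real per_J := by
    by_contra hlt
    push Not at hlt
    set p := ν.real per_J with hpdef
    have h1 := hkey (p * (1 - p) / 8) (by
      have : 0 < p * (1 - p) := mul_pos hpos (by linarith)
      linarith)
    have hq : 0 < p * (1 - p) := mul_pos hpos (by linarith)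
    have hq1 : p * (1 - p) ≤ 1 := by nlinarith
    nlinarith
  have h1 := hT1.eventually (lt_mem_nhds (show ν.real per_J - ε < ν.real per_J by linarith))
  obtain ⟨K, hK⟩ := h1.exists
  refine ⟨K, ?_⟩
  change 1 - ε ≤ ν.real (per_I K)
  linarith

end H82.BX

end S_H82_BX_PER

section S_H82_BX_CR2

/-!
# CR2: square root trick

Let `q = ν(AS K N (Lf N))`.  By `sy1`, `as_sy1`: `ν(AS Bt) = ν(AS Lf)`, `ν(AS Tp) = ν(AS Rt)`; by `sy2`, `as_sy2`: `ν(AS Tp) = ν(AS Lf)`, `ν(AS Bt) = ν(AS Rt)`; so all four are `q` (cylinder events are measurable).  The complements of the four increasing cylinder events `X1..X4`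
satisfy `ν(X1ᶜ ∩ .. ∩ X4ᶜ) ≥ (1-q)^4` (`fkg` for `X1 ∪ X2` etc.: `ν(Xᶜ ∩ Yᶜ) = 1 - ν X - ν Y + ν(X ∩ Y) ≥ (1 - ν X)(1 - ν Y)`), and by `as_geo` this intersection is disjoint from `{some v ∈ FN K has an infinite cluster}`, so `(1-q)^4 ≤ ε^4`.
-/

set_option autoImplicit false

open Finset MeasureTheory Filter Topology

namespace H82.BX

open H82.IC XYB

theorem CR2_un (ν : Measure (Vx 2 × Fin 3 → Bool)) (h : PerOk ν) (X Y : Set (Vx 2 × Fin 3 → Bool))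
    (hX : Lc X) (hY : Lc Y) (iX : Inc1 X) (iY : Inc1 Y) :
    (1 - ν.real X) * (1 - ν.real Y) ≤ 1 - ν.real (X ∪ Y) := by
  haveI := h.prob
  have h1 := h.fkg X Y hX hY iX iY
  have h2 : ν.real (X ∪ Y) + ν.real (X ∩ Y) = ν.real X + ν.real Y :=
    measureReal_union_add_inter (lc_meas hY)
  nlinarith

theorem CR2_inc (X Y : Set (Vx 2 × Fin 3 → Bool)) (iX : Inc1 X) (iY : Inc1 Y) : Inc1 (X ∪ Y) := by
  intro ω ω' hw h
  rcases h with h | h
  · exact Or.inl (iX ω ω' hw h)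
  · exact Or.inr (iY ω ω' hw h)

theorem cr_sq (ν : Measure (Vx 2 × Fin 3 → Bool)) (h : PerOk ν) (ε : ℝ) (hε : 0 < ε) (K N : ℕ)
    (hKN : K ≤ N)
    (hp : 1 - ε ^ 4 ≤ ν.real {ω | ∃ v ∈ FN K, (HH.gr.cl (op1 ω) v).Infinite}) :
    1 - ε ≤ ν.real {ω | AS K N (Lf N) (op1 ω)} ∧ 1 - ε ≤ ν.real {ω | AS K N (Rt N) (op1 ω)} := by
  haveI := h.prob
  obtain ⟨cL, iL⟩ := as_lc K N (Lf N)
  obtain ⟨cR, iR⟩ := as_lc K N (Rt N)
  obtain ⟨cT, iT⟩ := as_lc K N (Tp N)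
  obtain ⟨cB, iB⟩ := as_lc K N (Bt N)
  have e1 : ν.real {ω | AS K N (Lf N) (op1 ω)} = ν.real {ω | AS K N (Bt N) (op1 ω)} := by
    rw [← h.sy1 {ω | AS K N (Bt N) (op1 ω)} (lc_meas cB)]
    congr 1
    ext ω
    exact (as_sy1 K N ω).1.symm
  have e2 : ν.real {ω | AS K N (Rt N) (op1 ω)} = ν.real {ω | AS K N (Tp N) (op1 ω)} := by
    rw [← h.sy1 {ω | AS K N (Tp N) (op1 ω)} (lc_meas cT)]
    congr 1
    ext ω
    exact (as_sy1 K N ω).2.symm
  have e3 : ν.real {ω | AS K N (Lf N) (op1 ω)} = ν.real {ω | AS K N (Tp N) (op1 ω)} := by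
    rw [← h.sy2 {ω | AS K N (Tp N) (op1 ω)} (lc_meas cT)]
    congr 1
    ext ω
    exact (as_sy2 K N ω).1.symm
  set q := ν.real {ω | AS K N (Lf N) (op1 ω)} with hq
  have u1 := CR2_un ν h _ _ cL cR iL iR
  have u2 := CR2_un ν h _ _ cT cB iT iB
  have u3 := CR2_un ν h _ _ (lc_union cL cR) (lc_union cT cB) (CR2_inc _ _ iL iR)
    (CR2_inc _ _ iT iB)
  rw [← hq, e2, ← e3] at u1
  rw [← e3, ← e1] at u2
  have hE : ν.real {ω | ∃ v ∈ FN K, (HH.gr.cl (op1 ω) v).Infinite} ≤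
      ν.real (({ω | AS K N (Lf N) (op1 ω)} ∪ {ω | AS K N (Rt N) (op1 ω)}) ∪
        ({ω | AS K N (Tp N) (op1 ω)} ∪ {ω | AS K N (Bt N) (op1 ω)})) := by
    refine measureReal_mono ?_
    rintro ω ⟨v, hv, hinf⟩
    rcases as_geo K N hKN (op1 ω) v hv hinf with g | g | g | g
    · exact Or.inl (Or.inl g)
    · exact Or.inl (Or.inr g)
    · exact Or.inr (Or.inl g)
    · exact Or.inr (Or.inr g)
  have hq1 : q ≤ 1 := measureReal_le_one
  have h0 : 0 ≤ (1 - q) * (1 - q) := mul_nonneg (by linarith) (by linarith)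
  have h4 : (1 - q) ^ 4 ≤ ε ^ 4 := by
    have : ((1 - q) * (1 - q)) * ((1 - q) * (1 - q)) ≤
        (1 - ν.real ({ω | AS K N (Lf N) (op1 ω)} ∪ {ω | AS K N (Rt N) (op1 ω)})) *
        (1 - ν.real ({ω | AS K N (Tp N) (op1 ω)} ∪ {ω | AS K N (Bt N) (op1 ω)})) :=
      mul_le_mul u1 u2 h0 (le_trans h0 u1)
    calc (1 - q) ^ 4 = ((1 - q) * (1 - q)) * ((1 - q) * (1 - q)) := by ring
      _ ≤ _ := this
      _ ≤ _ := u3
      _ ≤ ε ^ 4 := by linarith
  have h5 : 1 - q ≤ ε := le_of_pow_le_pow_left₀ (by norm_num) hε.le h4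
  refine ⟨by linarith, ?_⟩
  rw [e2, ← e3]
  linarith

end H82.BX

end S_H82_BX_CR2

section S_H82_BX_CR3

/-!
# CR3: uniqueness in finite boxes

`D N` = there are `u, v ∈ FN K` such that `u` is connected in `op1 ω ∩ inN N` to a vertex of `Lf N`, `v` to a vertex of `Rt N`, and `u, v` are not connected in `op1 ω ∩ inN N`.  Let `D' N` be the same with the two connections replaced by connections in `op1 ω` to vertices of norm at least `N - 1`;
`D N ⊆ D' N`, `D'` is decreasing in `N` (a connection inside `inN N` is one inside `inN (N+1)`), and the intersection of the `D' N` is contained in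
`{∃ u v, infinite clusters, not connected}` (finitely many pairs `u, v`; decreasing; a cluster which leaves every box is infinite), a null event by `bk_unique` (`HH_ok`, `h.tip`, `h.ins`).  Continuity of the measure.
-/

set_option autoImplicit false

open Finset MeasureTheory Filter Topology

namespace H82.BX

open H82.IC XYB

private theorem CR3_mem_FN (n : ℕ) (v : Vx 2 × Bool) :
    v ∈ FN n ↔ ∀ i : Fin 2, -(n : ℤ) ≤ v.1 i ∧ v.1 i < n := by
  unfold FN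
  rw [Finset.mem_product, Fintype.mem_piFinset]
  simp only [Finset.mem_Ico, Finset.mem_univ, and_true]

private theorem CR3_FN_mono {n m : ℕ} (h : n ≤ m) : FN n ⊆ FN m := by
  intro v hv
  rw [CR3_mem_FN] at hv ⊢
  intro i
  have h1 := hv i
  have h2 : (n : ℤ) ≤ m := by exact_mod_cast h
  constructor <;> omega

private theorem CR3_inN_mono {n m : ℕ} (h : n ≤ m) : inN n ⊆ inN m := by
  rintro e ⟨h1, h2⟩
  exact ⟨Finset.coe_subset.2 (CR3_FN_mono h) h1, Finset.coe_subset.2 (CR3_FN_mono h) h2⟩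

private theorem CR3_nm_FN {n : ℕ} {v : Vx 2 × Bool} (h : nm v.1 ≤ n) : v ∈ FN (n + 1) := by
  rw [CR3_mem_FN]
  intro i
  have h1 := G1_nm_le.1 h i
  constructor <;> omega

private theorem CR3_pbE_inN (n : ℕ) : (pbE HH n : Set (Vx 2 × Fin 3)) ⊆ inN (n + 1) := by
  intro e he
  rw [Finset.mem_coe, mem_pbE HH HH_ok] at he
  exact ⟨CR3_nm_FN he.1, CR3_nm_FN he.2⟩

/-- the bad event for the pair `u, v`. -/
private def CR3_B (u v : Vx 2 × Bool) (N : ℕ) : Set (Vx 2 × Fin 3 → Bool) :=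
  {ω | (∃ b : Vx 2 × Bool, N ≤ nm b.1 + 1 ∧ HH.gr.Conn (op1 ω) u b) ∧
    (∃ b : Vx 2 × Bool, N ≤ nm b.1 + 1 ∧ HH.gr.Conn (op1 ω) v b) ∧
    ¬ HH.gr.Conn (op1 ω ∩ inN N) u v}

private theorem CR3_B_anti (u v : Vx 2 × Bool) : Antitone (CR3_B u v) := by
  intro n m h ω hω
  obtain ⟨⟨b, hb, hb'⟩, ⟨c, hc, hc'⟩, hn⟩ := hω
  refine ⟨⟨b, h.trans hb, hb'⟩, ⟨c, h.trans hc, hc'⟩, fun hcon => hn ?_⟩
  exact conn_mono _ (Set.inter_subset_inter_right _ (CR3_inN_mono h)) hcon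

private theorem CR3_B_meas (u v : Vx 2 × Bool) (N : ℕ) : MeasurableSet (CR3_B u v N) := by
  have h1 : ∀ w : Vx 2 × Bool, MeasurableSet
      {ω : Vx 2 × Fin 3 → Bool | ∃ b : Vx 2 × Bool, N ≤ nm b.1 + 1 ∧ HH.gr.Conn (op1 ω) w b} := by
    intro w
    have h2 : {ω : Vx 2 × Fin 3 → Bool | ∃ b : Vx 2 × Bool, N ≤ nm b.1 + 1 ∧
        HH.gr.Conn (op1 ω) w b} = ⋃ b : Vx 2 × Bool, ({ω : Vx 2 × Fin 3 → Bool | N ≤ nm b.1 + 1} ∩
          {ω | HH.gr.Conn (op1 ω) w b}) := by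
      ext ω
      simp only [Set.mem_setOf_eq, Set.mem_iUnion, Set.mem_inter_iff]
    rw [h2]
    exact MeasurableSet.iUnion fun b => (MeasurableSet.const _).inter (pg5_mC HH HH_ok w b)
  have h3 : MeasurableSet {ω : Vx 2 × Fin 3 → Bool | HH.gr.Conn (op1 ω ∩ inN N) u v} := by
    have h4 := meas_connP HH HH_ok (inN N)ᶜ u v
    simpa only [Set.diff_compl] using h4
  exact (h1 u).inter ((h1 v).inter h3.compl)

private theorem CR3_B_inter (u v : Vx 2 × Bool) :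
    (⋂ N : ℕ, CR3_B u v N) ⊆ {ω : Vx 2 × Fin 3 → Bool | (HH.gr.cl (op1 ω) u).Infinite ∧
      (HH.gr.cl (op1 ω) v).Infinite ∧ ¬ HH.gr.Conn (op1 ω) u v} := by
  intro ω hω
  rw [Set.mem_iInter] at hω
  refine ⟨(inf_pg HH _ _).2 fun n => ?_, (inf_pg HH _ _).2 fun n => ?_, fun hcon => ?_⟩
  · obtain ⟨⟨b, hb, hb'⟩, -, -⟩ := hω (n + 1)
    exact ⟨b, by omega, hb'⟩
  · obtain ⟨-, ⟨b, hb, hb'⟩, -⟩ := hω (n + 1)
    exact ⟨b, by omega, hb'⟩
  · obtain ⟨n, hn⟩ := conn_pg HH HH_ok hcon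
    obtain ⟨-, -, h3⟩ := hω (n + 1)
    exact h3 (conn_mono _ (Set.inter_subset_inter_right _ (CR3_pbE_inN n)) hn)

private theorem CR3_lim (ν : Measure (Vx 2 × Fin 3 → Bool)) (h : PerOk ν) (u v : Vx 2 × Bool) :
    Tendsto (fun N => ν.real (CR3_B u v N)) atTop (𝓝 0) := by
  haveI := h.prob
  have h0 : ν (⋂ N : ℕ, CR3_B u v N) = 0 := by
    have h1 := bk_unique HH HH_ok ν h.tip h.ins
    have h2 : ∀ᵐ ω ∂ν, ω ∉ ⋂ N : ℕ, CR3_B u v N := by
      filter_upwards [h1] with ω hω hmem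
      obtain ⟨a, b, c⟩ := CR3_B_inter u v hmem
      exact c (hω u v a b)
    exact measure_eq_zero_iff_ae_notMem.2 h2
  have h3 : Tendsto (fun N => ν (CR3_B u v N)) atTop (𝓝 (ν (⋂ N : ℕ, CR3_B u v N))) :=
    tendsto_measure_iInter_atTop (fun N => (CR3_B_meas u v N).nullMeasurableSet)
      (CR3_B_anti u v) ⟨0, measure_ne_top _ _⟩
  rw [h0] at h3
  have h4 := (ENNReal.tendsto_toReal ENNReal.zero_ne_top).comp h3
  simpa [Measure.real, Function.comp_def] using h4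

private theorem CR3_sub (K N : ℕ) : {ω : Vx 2 × Fin 3 → Bool | ∃ u ∈ FN K, ∃ v ∈ FN K,
      (∃ a ∈ Lf N, HH.gr.Conn (op1 ω ∩ inN N) u a) ∧ (∃ b ∈ Rt N, HH.gr.Conn (op1 ω ∩ inN N) v b) ∧
      ¬ HH.gr.Conn (op1 ω ∩ inN N) u v} ⊆ ⋃ p ∈ FN K ×ˢ FN K, CR3_B p.1 p.2 N := by
  rintro ω ⟨u, hu, v, hv, ⟨a, ha, ha'⟩, ⟨b, hb, hb'⟩, hn⟩
  simp only [Set.mem_iUnion]
  refine ⟨(u, v), Finset.mem_product.2 ⟨hu, hv⟩, ⟨a, ?_, conn_mono _ Set.inter_subset_left ha'⟩,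
    ⟨b, ?_, conn_mono _ Set.inter_subset_left hb'⟩, hn⟩
  · obtain ⟨-, -, h3⟩ := ha
    by_contra hlt
    have h4 : nm a.1 ≤ N - 1 := by omega
    have h5 := G1_nm_le.1 h4 0
    omega
  · obtain ⟨h1, -, h3⟩ := hb
    by_contra hlt
    have h4 : nm b.1 ≤ N - 2 := by omega
    have h5 := G1_nm_le.1 h4 0
    omega

theorem cr_uni (ν : Measure (Vx 2 × Fin 3 → Bool)) (h : PerOk ν) (ε : ℝ) (hε : 0 < ε) (K : ℕ) :
    ∃ N0 : ℕ, ∀ N : ℕ, N0 ≤ N → ν.real {ω | ∃ u ∈ FN K, ∃ v ∈ FN K,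
      (∃ a ∈ Lf N, HH.gr.Conn (op1 ω ∩ inN N) u a) ∧ (∃ b ∈ Rt N, HH.gr.Conn (op1 ω ∩ inN N) v b) ∧
      ¬ HH.gr.Conn (op1 ω ∩ inN N) u v} ≤ ε := by
  haveI := h.prob
  have h1 : Tendsto (fun N => ∑ p ∈ FN K ×ˢ FN K, ν.real (CR3_B p.1 p.2 N)) atTop
      (𝓝 (∑ p ∈ FN K ×ˢ FN K, (0 : ℝ))) :=
    tendsto_finset_sum _ fun p _ => CR3_lim ν h p.1 p.2
  rw [Finset.sum_const_zero] at h1
  obtain ⟨N0, hN0⟩ := Filter.eventually_atTop.1 (h1.eventually (ge_mem_nhds hε))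
  refine ⟨N0, fun N hN => ?_⟩
  refine (measureReal_mono (CR3_sub K N) (measure_ne_top _ _)).trans ?_
  exact (measureReal_biUnion_finset_le _ _).trans (hN0 N hN)

end H82.BX

end S_H82_BX_CR3

section S_H82_BX_CRO

/-!
# CRO: crossings (assembly)

`per_one` with `ε = 10^{-4}` gives `K0`; vertices with `nm v.1 ≤ K0` are in `FN (K0+1)`; let `K = K0 + 1`.  `cr_sq` with `ε = 1/10` (`ε^4 = 10^{-4}`), `cr_uni` with `ε = 1/10`: for `N` large, `N ≥ K`,
`ν(AS Lf ∩ AS Rt ∖ D) ≥ 1 - 3/10 > 1/2`, and on this event there is a left-right crossing (`a - u - v - b`; `LRc N (op1 ω)` uses `op1 ω ∩ inN N`).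
-/

set_option autoImplicit false

open Finset MeasureTheory Filter Topology

namespace H82.BX

open H82.IC XYB

theorem cro_sub (K N : ℕ) (ω : Vx 2 × Fin 3 → Bool) (h1 : AS K N (Lf N) (op1 ω))
    (h2 : AS K N (Rt N) (op1 ω))
    (h3 : ¬ ∃ u ∈ FN K, ∃ v ∈ FN K,
      (∃ a ∈ Lf N, HH.gr.Conn (op1 ω ∩ inN N) u a) ∧ (∃ b ∈ Rt N, HH.gr.Conn (op1 ω ∩ inN N) v b) ∧
      ¬ HH.gr.Conn (op1 ω ∩ inN N) u v) : LRc N (op1 ω) := by
  obtain ⟨u, hu, a, ha, hua⟩ := h1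
  obtain ⟨v, hv, b, hb, hvb⟩ := h2
  have huv : HH.gr.Conn (op1 ω ∩ inN N) u v := by
    by_contra hc
    exact h3 ⟨u, hu, v, hv, ⟨a, ha, hua⟩, ⟨b, hb, hvb⟩, hc⟩
  exact ⟨a, ha, b, hb, conn_trans _ (conn_trans _ (conn_symm _ hua) huv) hvb⟩

theorem cro (ν : Measure (Vx 2 × Fin 3 → Bool)) (h : PerOk ν) :
    ∃ N : ℕ, 1 ≤ N ∧ 1 / 2 < ν.real {ω | LRc N (op1 ω)} := by
  haveI := h.prob
  obtain ⟨K0, hK0⟩ := per_one ν h ((1 / 10 : ℝ) ^ 4) (by positivity)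
  have hp : 1 - (1 / 10 : ℝ) ^ 4 ≤
      ν.real {ω | ∃ v ∈ FN (K0 + 1), (HH.gr.cl (op1 ω) v).Infinite} := by
    refine hK0.trans (measureReal_mono ?_ (measure_ne_top _ _))
    rintro ω ⟨v, hv, hinf⟩
    refine ⟨v, ?_, hinf⟩
    rw [mem_FN]
    intro i
    have h1 := G1_le_nm v.1 i
    constructor
    · push_cast; omega
    · push_cast; omega
  obtain ⟨N0, hN0⟩ := cr_uni ν h (1 / 10) (by norm_num) (K0 + 1)
  obtain ⟨N, hN⟩ : ∃ N, N = max N0 (K0 + 1) := ⟨_, rfl⟩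
  have hNK : K0 + 1 ≤ N := hN ▸ le_max_right _ _
  refine ⟨N, by omega, ?_⟩
  obtain ⟨hL, hR⟩ := cr_sq ν h (1 / 10) (by norm_num) (K0 + 1) N hNK hp
  have hD := hN0 N (hN ▸ le_max_left _ _)
  obtain ⟨A, hA⟩ : ∃ A, A = {ω : Vx 2 × Fin 3 → Bool | AS (K0 + 1) N (Lf N) (op1 ω)} := ⟨_, rfl⟩
  obtain ⟨B, hB⟩ : ∃ B, B = {ω : Vx 2 × Fin 3 → Bool | AS (K0 + 1) N (Rt N) (op1 ω)} := ⟨_, rfl⟩
  obtain ⟨D, hDd⟩ : ∃ D, D = {ω : Vx 2 × Fin 3 → Bool | ∃ u ∈ FN (K0 + 1), ∃ v ∈ FN (K0 + 1),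
      (∃ a ∈ Lf N, HH.gr.Conn (op1 ω ∩ inN N) u a) ∧ (∃ b ∈ Rt N, HH.gr.Conn (op1 ω ∩ inN N) v b) ∧
      ¬ HH.gr.Conn (op1 ω ∩ inN N) u v} := ⟨_, rfl⟩
  rw [← hA] at hL
  rw [← hB] at hR
  rw [← hDd] at hD
  have hAm : MeasurableSet A := hA ▸ lc_meas (as_lc _ _ _).1
  have hBm : MeasurableSet B := hB ▸ lc_meas (as_lc _ _ _).1
  have hsub : (Aᶜ ∪ Bᶜ ∪ D)ᶜ ⊆ {ω | LRc N (op1 ω)} := by
    intro ω hω
    simp only [Set.mem_compl_iff, Set.mem_union, not_or, not_not] at hω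
    obtain ⟨⟨h1, h2⟩, h3⟩ := hω
    rw [hA] at h1
    rw [hB] at h2
    rw [hDd] at h3
    exact cro_sub _ _ _ h1 h2 h3
  have h4 : ν.real (Aᶜ ∪ Bᶜ ∪ D) ≤ 3 / 10 := by
    have e1 := measureReal_union_le (μ := ν) (Aᶜ ∪ Bᶜ) D
    have e2 := measureReal_union_le (μ := ν) Aᶜ Bᶜ
    have e3 : ν.real Aᶜ = 1 - ν.real A := probReal_compl_eq_one_sub hAm
    have e4 : ν.real Bᶜ = 1 - ν.real B := probReal_compl_eq_one_sub hBm
    linarith
  have h5 : 1 ≤ ν.real (Aᶜ ∪ Bᶜ ∪ D) + ν.real (Aᶜ ∪ Bᶜ ∪ D)ᶜ := by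
    have := measureReal_union_le (μ := ν) (Aᶜ ∪ Bᶜ ∪ D) (Aᶜ ∪ Bᶜ ∪ D)ᶜ
    rwa [Set.union_compl_self, probReal_univ] at this
  have h6 := measureReal_mono (μ := ν) hsub (measure_ne_top _ _)
  linarith

end H82.BX

end S_H82_BX_CRO

section S_H82_BX_THB

/-!
# THB: no exponential decay at low temperature

Suppose exponential decay (`¬ noED`).  `wk κ 1/wk κ 0 = (I_1/I_0)^6 ≥ 1/2` gives `wk κ 0 ≤ 2 wk κ 1`.  `nu_props` gives `ν`; `cro` gives `N` with `ν{LRc N (ω⁻)} > 1/2`.  With `sy1`: `{ω | TBc N (op1 (ω ∘ sE1))}`: `sV1` maps `Tp` to `Rt`, `Bt` to `Lf`, so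
`TBc N (op1 (ω ∘ sE1)) ↔ LRc N (op1 ω)` (edge `e` open in `ω ∘ sE1` iff `sE1 e` open in `ω`; `inN N` is invariant; `sE1` is an involution) and `ν{TBc N (ω⁻)} > 1/2`; flipping: `ν{TBc N (ω⁺)} > 1/2`, `ω⁺ = stt 2 η = stt 1 (fl3 ∘ η)`.  Both events have probability
`> 1/2`, so some `η` is in both; `op1 (stt 1 η)` and `op1 (stt 2 η)` are disjoint: contradiction with `pla`.
(Measurability of `LRc`, `TBc`: cylinder events.)
-/

set_option autoImplicit false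

open Finset MeasureTheory Filter Topology

namespace H82.BX

open H82.IC XYB

theorem thb_inN (N : ℕ) (e : Vx 2 × Fin 3) :
    e ∈ inN N ↔ HH.gr.s e ∈ FN N ∧ HH.gr.r e ∈ FN N := Iff.rfl

theorem thb_agree {N : ℕ} {ω ω' : Vx 2 × Fin 3 → Bool} (h : ∀ e ∈ EN N, ω e = ω' e) :
    op1 ω ∩ inN N = op1 ω' ∩ inN N := by
  ext e
  simp only [Set.mem_inter_iff, op1, Set.mem_setOf_eq]
  constructor
  · rintro ⟨h1, h2⟩
    have h3 : e ∈ EN N := ((FN_Bd N).mem e).2 (Or.inl ((thb_inN N e).1 h2).1)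
    exact ⟨by rw [← h e h3]; exact h1, h2⟩
  · rintro ⟨h1, h2⟩
    have h3 : e ∈ EN N := ((FN_Bd N).mem e).2 (Or.inl ((thb_inN N e).1 h2).1)
    exact ⟨by rw [h e h3]; exact h1, h2⟩

theorem thb_lr_congr {N : ℕ} {ω ω' : Vx 2 × Fin 3 → Bool} (h : ∀ e ∈ EN N, ω e = ω' e) :
    LRc N (op1 ω) ↔ LRc N (op1 ω') := by
  unfold LRc
  rw [thb_agree h]

theorem thb_tb_congr {N : ℕ} {ω ω' : Vx 2 × Fin 3 → Bool} (h : ∀ e ∈ EN N, ω e = ω' e) :
    TBc N (op1 ω) ↔ TBc N (op1 ω') := by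
  unfold TBc
  rw [thb_agree h]

theorem thb_swp_add (x y : Vx 2) : swp (x + y) = swp x + swp y := by
  ext i
  fin_cases i <;> simp [swp]

theorem thb_swp_neg (x : Vx 2) : swp (-x) = -swp x := by
  ext i
  fin_cases i <;> simp [swp]

theorem thb_swp_zero : swp (0 : Vx 2) = 0 := by
  ext i
  fin_cases i <;> simp [swp]

theorem thb_swp_e0 : swp (Pi.single 0 1 : Vx 2) = Pi.single 1 1 := by
  ext i
  fin_cases i <;> simp [swp, Pi.single_apply]

theorem thb_swp_e1 : swp (Pi.single 1 1 : Vx 2) = Pi.single 0 1 := by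
  ext i
  fin_cases i <;> simp [swp, Pi.single_apply]

theorem thb_s (e : Vx 2 × Fin 3) : HH.gr.s (sE1 e) = sV1 (HH.gr.r e) := by
  obtain ⟨x, k⟩ := e
  fin_cases k
  · change (swp x + -Pi.single 0 1, false) = (swp (x + -Pi.single 1 1), !true)
    rw [thb_swp_add, thb_swp_neg, thb_swp_e1]
    rfl
  · change (swp x + 0, false) = (swp (x + 0), !true)
    rw [thb_swp_add, thb_swp_zero]
    rfl
  · change (swp x + 0, true) = (swp (x + 0), !false)
    rw [thb_swp_add, thb_swp_zero]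
    rfl

theorem thb_r (e : Vx 2 × Fin 3) : HH.gr.r (sE1 e) = sV1 (HH.gr.s e) := by
  obtain ⟨x, k⟩ := e
  fin_cases k
  · change (swp x + 0, true) = (swp (x + 0), !false)
    rw [thb_swp_add, thb_swp_zero]
    rfl
  · change (swp x + -Pi.single 1 1, true) = (swp (x + -Pi.single 0 1), !false)
    rw [thb_swp_add, thb_swp_neg, thb_swp_e0]
    rfl
  · change (swp x + 0, false) = (swp (x + 0), !true)
    rw [thb_swp_add, thb_swp_zero]
    rfl

theorem thb_FN (N : ℕ) {v : Vx 2 × Bool} (hv : v ∈ FN N) : sV1 v ∈ FN N := by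
  rw [mem_FN] at hv ⊢
  intro i
  fin_cases i
  · exact hv 1
  · exact hv 0

theorem thb_in (N : ℕ) {e : Vx 2 × Fin 3} (he : e ∈ inN N) : sE1 e ∈ inN N := by
  rw [thb_inN] at he ⊢
  rw [thb_s, thb_r]
  exact ⟨thb_FN N he.2, thb_FN N he.1⟩

theorem thb_conn (N : ℕ) (ω : Vx 2 × Fin 3 → Bool) {u v : Vx 2 × Bool}
    (h : HH.gr.Conn (op1 (ω ∘ sE1) ∩ inN N) u v) :
    HH.gr.Conn (op1 ω ∩ inN N) (sV1 u) (sV1 v) := by
  induction h with
  | refl => exact conn_refl _ _ _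
  | @tail y z h1 h2 ih =>
    refine conn_trans _ ih ?_
    obtain ⟨e, he, hor⟩ := h2
    have h3 : sE1 e ∈ op1 ω ∩ inN N := ⟨he.1, thb_in N he.2⟩
    have h4 := conn_edge HH.gr h3
    rw [thb_s, thb_r] at h4
    rcases hor with ⟨ha, hb⟩ | ⟨ha, hb⟩
    · rw [← ha, ← hb]
      exact conn_symm _ h4
    · rw [← ha, ← hb]
      exact h4

theorem thb_lr_tb (N : ℕ) (ω : Vx 2 × Fin 3 → Bool) (h : LRc N (op1 (ω ∘ sE1))) :
    TBc N (op1 ω) := by
  obtain ⟨u, hu, v, hv, huv⟩ := h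
  have h1 := thb_conn N ω huv
  refine ⟨sV1 v, ?_, sV1 u, ?_, conn_symm _ h1⟩
  · obtain ⟨h2, h3, h4⟩ := hv
    refine ⟨thb_FN N h2, ?_, h4⟩
    change (!v.2) = true
    rw [h3]
    rfl
  · obtain ⟨h2, h3, h4⟩ := hu
    refine ⟨thb_FN N h2, ?_, h4⟩
    change (!u.2) = false
    rw [h3]
    rfl

theorem thb_meas_stt (x : Fin 3) :
    Measurable (stt x : (Vx 2 × Fin 3 → Fin 3) → (Vx 2 × Fin 3 → Bool)) := by
  rw [measurable_pi_iff]
  intro e
  exact (measurable_of_finite (fun a : Fin 3 => decide (a = x))).comp (measurable_pi_apply e)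

theorem thb_meas_lr (N : ℕ) : MeasurableSet {ω : Vx 2 × Fin 3 → Bool | LRc N (op1 ω)} :=
  lc_meas ⟨EN N, fun _ _ h => thb_lr_congr h⟩

theorem thb_meas_tb (N : ℕ) : MeasurableSet {ω : Vx 2 × Fin 3 → Bool | TBc N (op1 ω)} :=
  lc_meas ⟨EN N, fun _ _ h => thb_tb_congr h⟩

theorem thb_fl (η : Vx 2 × Fin 3 → Fin 3) : stt 1 (fl3 ∘ η) = stt 2 η := by
  funext e
  change decide (fl3 (η e) = 1) = decide (η e = 2)
  generalize η e = a
  fin_cases a <;> rfl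

theorem thb_wk (κ : ℝ) (h : 1 / 2 ≤ (bI κ 1 / bI κ 0) ^ 6) : wk κ 0 ≤ 2 * wk κ 1 := by
  unfold wk
  rw [div_pow] at h
  have h0 : 0 ≤ bI κ 0 ^ 6 := by positivity
  rcases h0.eq_or_lt with h1 | h1
  · rw [← h1, div_zero] at h
    linarith
  · rw [le_div_iff₀ h1] at h
    linarith

theorem thB (κ : ℝ) (hκ : 0 < κ) (h : 1 / 2 ≤ (bI κ 1 / bI κ 0) ^ 6) : noED κ := by
  rintro ⟨C, a, ha, hED⟩
  obtain ⟨ν, hν, hfl, hP⟩ := nu_props κ C a hκ ha (thb_wk κ h) hED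
  obtain ⟨N, hN, hLR⟩ := cro (ν.map (stt 1)) hP
  haveI := hν
  haveI := hP.prob
  set X : Set (Vx 2 × Fin 3 → Bool) := {ω | LRc N (op1 ω)} with hX
  set Y : Set (Vx 2 × Fin 3 → Bool) := {ω | TBc N (op1 ω)} with hY
  have hXm : MeasurableSet X := thb_meas_lr N
  have hYm : MeasurableSet Y := thb_meas_tb N
  have h1 : 1 / 2 < (ν.map (stt 1)).real Y := by
    have h2 := hP.sy1 X hXm
    have h3 : (ν.map (stt 1)).real {ω | ω ∘ sE1 ∈ X} ≤ (ν.map (stt 1)).real Y :=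
      measureReal_mono (fun ω hω => thb_lr_tb N ω hω)
    linarith
  have hm1 := thb_meas_stt 1
  have hm2 := thb_meas_stt 2
  have h4 : 1 / 2 < ν.real (stt 1 ⁻¹' X) := by
    rw [← map_measureReal_apply hm1 hXm]
    exact hLR
  have h5 : 1 / 2 < ν.real (stt 1 ⁻¹' Y) := by
    rw [← map_measureReal_apply hm1 hYm]
    exact h1
  have h6 : ν.real (stt 2 ⁻¹' Y) = ν.real (stt 1 ⁻¹' Y) := by
    rw [← hfl (stt 1 ⁻¹' Y) (hm1 hYm)]
    congr 1
    ext η
    change stt 2 η ∈ Y ↔ stt 1 (fl3 ∘ η) ∈ Y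
    rw [thb_fl]
  by_cases hd : Disjoint (stt 1 ⁻¹' X) (stt 2 ⁻¹' Y)
  · have h7 := measureReal_union (μ := ν) hd (hm2 hYm)
    have h8 : ν.real (stt 1 ⁻¹' X ∪ stt 2 ⁻¹' Y) ≤ 1 := measureReal_le_one
    linarith
  · rw [Set.not_disjoint_iff] at hd
    obtain ⟨η, h7, h8⟩ := hd
    refine pla N hN (op1 (stt 1 η)) (op1 (stt 2 η)) ?_ h7 h8
    rw [Set.disjoint_left]
    intro e h9 h10
    have h11 : η e = 1 := of_decide_eq_true h9
    have h12 : η e = 2 := of_decide_eq_true h10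
    rw [h11] at h12
    exact absurd h12 (by decide)

end H82.BX

end S_H82_BX_THB
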